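import Pool.Agent.LandauF.NId

/-!
# LandauF, module NTrans: explicit formulas for the operators applied to `uu g` and to the weight

Elementary: `dv l (uu g) = gam l g (v)`, `RR a b (uu g) = ½ XX g a b`, and the derivatives of
`XX g a b v w` are `DX g a b l v w` (in `v`) and `DX g a b l w v` (in `w`).
-/

set_option autoImplicit false

namespace Pool.Agent.LandauF

open MeasureTheory Set Filter Topology Pool.Agent.Landau

/-- second derivatives are symmetric -/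
private theorem nt_symm {L : V → ℝ} (hL : ContDiff ℝ (⊤ : ℕ∞) L) (i j : Fin 3) (v : V) :
    pd i (pd j L) v = pd j (pd i L) v := by
  have hd : DifferentiableAt ℝ (fderiv ℝ L) v := by
    have h0 : ContDiff ℝ 1 (fderiv ℝ L) := hL.fderiv_right (m := 1) (by
      exact WithTop.coe_le_coe.2 (le_top (a := (2 : ℕ∞))))
    exact h0.differentiable one_ne_zero v
  have h1 : ∀ i j : Fin 3, pd i (pd j L) v =
      fderiv ℝ (fderiv ℝ L) v (EuclideanSpace.single i 1) (EuclideanSpace.single j 1) := by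
    intro i j
    have h2 := hd.hasFDerivAt.clm_apply
      (hasFDerivAt_const (EuclideanSpace.single j (1 : ℝ) : V) v)
    have h3 : pd i (pd j L) v = fderiv ℝ (fun x => fderiv ℝ L x (EuclideanSpace.single j 1)) v
      (EuclideanSpace.single i 1) := rfl
    rw [h3, h2.fderiv]
    simp
  rw [h1, h1]
  exact (hL.contDiffAt.isSymmSndFDerivAt (by
    rw [minSmoothness_of_isRCLikeNormedField]
    exact WithTop.coe_le_coe.2 (le_top (a := (2 : ℕ∞))))).eq _ _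

private theorem nt_fst {h : V → ℝ} (hh : ContDiff ℝ (⊤ : ℕ∞) h) (p : V × V) :
    fderiv ℝ (fun x : V × V => h x.1) p =
      (fderiv ℝ h p.1).comp (ContinuousLinearMap.fst ℝ V V) :=
  ((differentiable_of_smooth hh p.1).hasFDerivAt.comp p hasFDerivAt_fst).fderiv

private theorem nt_snd {h : V → ℝ} (hh : ContDiff ℝ (⊤ : ℕ∞) h) (p : V × V) :
    fderiv ℝ (fun x : V × V => h x.2) p =
      (fderiv ℝ h p.2).comp (ContinuousLinearMap.snd ℝ V V) :=
  ((differentiable_of_smooth hh p.2).hasFDerivAt.comp p hasFDerivAt_snd).fderiv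

private theorem nt_sfst {h : V → ℝ} (hh : ContDiff ℝ (⊤ : ℕ∞) h) :
    ContDiff ℝ (⊤ : ℕ∞) (fun x : V × V => h x.1) := hh.comp contDiff_fst

private theorem nt_ssnd {h : V → ℝ} (hh : ContDiff ℝ (⊤ : ℕ∞) h) :
    ContDiff ℝ (⊤ : ℕ∞) (fun x : V × V => h x.2) := hh.comp contDiff_snd

private theorem nt_da {P : V × V → ℝ} (hP : ContDiff ℝ (⊤ : ℕ∞) P) (p : V × V) :
    DifferentiableAt ℝ P p := hP.differentiable (by simp) p

/-- derivative of a rotation type expression -/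
private theorem nt_gen {P Q : V × V → ℝ} {p : V × V} (hP : DifferentiableAt ℝ P p)
    (hQ : DifferentiableAt ℝ Q p) (c : ℝ) (a b : Fin 3) (ξ : V × V) :
    fderiv ℝ (fun x : V × V => c * ((x.1 a - x.2 a) * P x - (x.1 b - x.2 b) * Q x)) p ξ =
      c * (((p.1 a - p.2 a) * fderiv ℝ P p ξ + (ξ.1 a - ξ.2 a) * P p) -
        ((p.1 b - p.2 b) * fderiv ℝ Q p ξ + (ξ.1 b - ξ.2 b) * Q p)) := by
  have hc : ∀ a : Fin 3, HasFDerivAt (fun x : V × V => x.1 a - x.2 a)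
      (((EuclideanSpace.proj a : V →L[ℝ] ℝ).comp (ContinuousLinearMap.fst ℝ V V)) -
        ((EuclideanSpace.proj a : V →L[ℝ] ℝ).comp (ContinuousLinearMap.snd ℝ V V))) p := by
    intro a
    have h1 : HasFDerivAt (fun x : V × V => x.1 a)
        ((EuclideanSpace.proj a : V →L[ℝ] ℝ).comp (ContinuousLinearMap.fst ℝ V V)) p :=
      ((EuclideanSpace.proj a : V →L[ℝ] ℝ).comp (ContinuousLinearMap.fst ℝ V V)).hasFDerivAt
    have h2 : HasFDerivAt (fun x : V × V => x.2 a)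
        ((EuclideanSpace.proj a : V →L[ℝ] ℝ).comp (ContinuousLinearMap.snd ℝ V V)) p :=
      ((EuclideanSpace.proj a : V →L[ℝ] ℝ).comp (ContinuousLinearMap.snd ℝ V V)).hasFDerivAt
    exact h1.sub h2
  have h3 := (((hc a).mul hP.hasFDerivAt).sub ((hc b).mul hQ.hasFDerivAt)).const_mul c
  have h4 : fderiv ℝ (fun x : V × V => c * ((x.1 a - x.2 a) * P x - (x.1 b - x.2 b) * Q x)) p = _ :=
    h3.fderiv
  rw [h4]
  simp
  left
  ring

private theorem nt_single (l a : Fin 3) :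
    (EuclideanSpace.single l (1 : ℝ) : V) a = kd l a := by
  unfold kd
  fin_cases l <;> fin_cases a <;> simp

private theorem nt_dv_gen {P Q : V × V → ℝ} {p : V × V} (hP : DifferentiableAt ℝ P p)
    (hQ : DifferentiableAt ℝ Q p) (c : ℝ) (a b l : Fin 3) :
    dv l (fun x : V × V => c * ((x.1 a - x.2 a) * P x - (x.1 b - x.2 b) * Q x)) p =
      c * (((p.1 a - p.2 a) * dv l P p + kd l a * P p) -
        ((p.1 b - p.2 b) * dv l Q p + kd l b * Q p)) := by
  unfold dv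
  rw [nt_gen hP hQ]
  simp only [nt_single, PiLp.zero_apply, sub_zero]

private theorem nt_dw_gen {P Q : V × V → ℝ} {p : V × V} (hP : DifferentiableAt ℝ P p)
    (hQ : DifferentiableAt ℝ Q p) (c : ℝ) (a b l : Fin 3) :
    dw l (fun x : V × V => c * ((x.1 a - x.2 a) * P x - (x.1 b - x.2 b) * Q x)) p =
      c * (((p.1 a - p.2 a) * dw l P p - kd l a * P p) -
        ((p.1 b - p.2 b) * dw l Q p - kd l b * Q p)) := by
  unfold dw
  rw [nt_gen hP hQ]
  simp only [nt_single, PiLp.zero_apply, zero_sub]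
  ring

private theorem nt_log {g : V → ℝ} (hg : Dn g) :
    ContDiff ℝ (⊤ : ℕ∞) (fun v => Real.log (g v)) :=
  hg.cls.smooth.log fun v => (hg.pos v).ne'

private theorem nt_pdlog {g : V → ℝ} (hg : Dn g) (i : Fin 3) :
    pd i (fun v => Real.log (g v)) = gam i g := by
  funext v
  rw [pd_comp (differentiable_of_smooth hg.cls.smooth v) (Real.hasDerivAt_log (hg.pos v).ne') i]
  unfold gam
  field_simp

private theorem nt_add_at {P Q : V × V → ℝ} {p : V × V} (hP : DifferentiableAt ℝ P p)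
    (hQ : DifferentiableAt ℝ Q p) (ξ : V × V) :
    fderiv ℝ (fun x => P x + Q x) p ξ = fderiv ℝ P p ξ + fderiv ℝ Q p ξ := by
  rw [fderiv_fun_add hP hQ]
  simp

private theorem nt_RR_add {P Q : V × V → ℝ} (hP : ContDiff ℝ (⊤ : ℕ∞) P)
    (hQ : ContDiff ℝ (⊤ : ℕ∞) Q) (a b : Fin 3) (p : V × V) :
    RR a b (fun x => P x + Q x) p = RR a b P p + RR a b Q p := by
  unfold RR dv dw
  rw [nt_add_at (nt_da hP p) (nt_da hQ p), nt_add_at (nt_da hP p) (nt_da hQ p),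
    nt_add_at (nt_da hP p) (nt_da hQ p), nt_add_at (nt_da hP p) (nt_da hQ p)]
  ring

private theorem nt_sub_at {P Q : V × V → ℝ} {p : V × V} (hP : DifferentiableAt ℝ P p)
    (hQ : DifferentiableAt ℝ Q p) (ξ : V × V) :
    fderiv ℝ (fun x => P x - Q x) p ξ = fderiv ℝ P p ξ - fderiv ℝ Q p ξ := by
  rw [fderiv_fun_sub hP hQ]
  simp

private theorem nt_RR_sub {P Q : V × V → ℝ} (hP : ContDiff ℝ (⊤ : ℕ∞) P)
    (hQ : ContDiff ℝ (⊤ : ℕ∞) Q) (a b : Fin 3) (p : V × V) :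
    RR a b (fun x => P x - Q x) p = RR a b P p - RR a b Q p := by
  unfold RR dv dw
  rw [nt_sub_at (nt_da hP p) (nt_da hQ p), nt_sub_at (nt_da hP p) (nt_da hQ p),
    nt_sub_at (nt_da hP p) (nt_da hQ p), nt_sub_at (nt_da hP p) (nt_da hQ p)]
  ring

/-- chain rule for functions of one of the two points -/
theorem dv_fst {h : V → ℝ} (hh : ContDiff ℝ (⊤ : ℕ∞) h) (l : Fin 3) (p : V × V) :
    dv l (fun x => h x.1) p = pd l h p.1 := by
  unfold dv
  rw [nt_fst hh]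
  rfl

theorem dw_fst {h : V → ℝ} (hh : ContDiff ℝ (⊤ : ℕ∞) h) (l : Fin 3) (p : V × V) :
    dw l (fun x => h x.1) p = 0 := by
  unfold dw
  rw [nt_fst hh]
  simp

theorem dv_snd {h : V → ℝ} (hh : ContDiff ℝ (⊤ : ℕ∞) h) (l : Fin 3) (p : V × V) :
    dv l (fun x => h x.2) p = 0 := by
  unfold dv
  rw [nt_snd hh]
  simp

theorem dw_snd {h : V → ℝ} (hh : ContDiff ℝ (⊤ : ℕ∞) h) (l : Fin 3) (p : V × V) :
    dw l (fun x => h x.2) p = pd l h p.2 := by
  unfold dw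
  rw [nt_snd hh]
  rfl

theorem RR_fst {h : V → ℝ} (hh : ContDiff ℝ (⊤ : ℕ∞) h) (a b : Fin 3) (p : V × V) :
    RR a b (fun x => h x.1) p =
      (1 / 2) * ((p.1 a - p.2 a) * pd b h p.1 - (p.1 b - p.2 b) * pd a h p.1) := by
  unfold RR
  rw [dv_fst hh, dv_fst hh, dw_fst hh, dw_fst hh]
  ring

theorem RR_snd {h : V → ℝ} (hh : ContDiff ℝ (⊤ : ℕ∞) h) (a b : Fin 3) (p : V × V) :
    RR a b (fun x => h x.2) p =
      -(1 / 2) * ((p.1 a - p.2 a) * pd b h p.2 - (p.1 b - p.2 b) * pd a h p.2) := by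
  unfold RR
  rw [dv_snd hh, dv_snd hh, dw_snd hh, dw_snd hh]
  ring

theorem hs_symm {g : V → ℝ} (hg : Dn g) (i j : Fin 3) (v : V) : hs g i j v = hs g j i v := by
  unfold hs
  rw [← nt_pdlog hg, ← nt_pdlog hg]
  exact nt_symm (nt_log hg) i j v

theorem dv_uu {g : V → ℝ} (hg : Dn g) (l : Fin 3) (p : V × V) : dv l (uu g) p = gam l g p.1 := by
  have h1 : uu g = fun x : V × V => (fun y : V × V => Real.log (g y.1)) x +
      (fun y : V × V => Real.log (g y.2)) x := rfl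
  rw [h1]
  unfold dv
  rw [nt_add_at (nt_da (nt_sfst (nt_log hg)) p) (nt_da (nt_ssnd (nt_log hg)) p)]
  have h2 := dv_fst (nt_log hg) l p
  have h3 := dv_snd (nt_log hg) l p
  unfold dv at h2 h3
  rw [h2, h3, add_zero, nt_pdlog hg]

theorem dw_uu {g : V → ℝ} (hg : Dn g) (l : Fin 3) (p : V × V) : dw l (uu g) p = gam l g p.2 := by
  have h1 : uu g = fun x : V × V => (fun y : V × V => Real.log (g y.1)) x +
      (fun y : V × V => Real.log (g y.2)) x := rfl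
  rw [h1]
  unfold dw
  rw [nt_add_at (nt_da (nt_sfst (nt_log hg)) p) (nt_da (nt_ssnd (nt_log hg)) p)]
  have h2 := dw_fst (nt_log hg) l p
  have h3 := dw_snd (nt_log hg) l p
  unfold dw at h2 h3
  rw [h2, h3, zero_add, nt_pdlog hg]

theorem RR_uu {g : V → ℝ} (hg : Dn g) (a b : Fin 3) (p : V × V) :
    RR a b (uu g) p = (1 / 2) * XX g a b p.1 p.2 := by
  unfold RR XX
  rw [dv_uu hg, dv_uu hg, dw_uu hg, dw_uu hg]

private theorem nt_RR_uu {g : V → ℝ} (hg : Dn g) (a b : Fin 3) :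
    RR a b (uu g) = fun x : V × V => (1 / 2) *
      ((x.1 a - x.2 a) * (fun y : V × V => gam b g y.1 - gam b g y.2) x -
        (x.1 b - x.2 b) * (fun y : V × V => gam a g y.1 - gam a g y.2) x) := by
  funext x
  rw [RR_uu hg]
  rfl

private theorem nt_dvg {g : V → ℝ} (hg : Dn g) (i l : Fin 3) (p : V × V) :
    dv l (fun y : V × V => gam i g y.1 - gam i g y.2) p = pd l (gam i g) p.1 := by
  unfold dv
  rw [nt_sub_at (nt_da (nt_sfst (gam_smooth hg i)) p) (nt_da (nt_ssnd (gam_smooth hg i)) p)]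
  have h2 := dv_fst (gam_smooth hg i) l p
  have h3 := dv_snd (gam_smooth hg i) l p
  unfold dv at h2 h3
  rw [h2, h3, sub_zero]

private theorem nt_dwg {g : V → ℝ} (hg : Dn g) (i l : Fin 3) (p : V × V) :
    dw l (fun y : V × V => gam i g y.1 - gam i g y.2) p = -pd l (gam i g) p.2 := by
  unfold dw
  rw [nt_sub_at (nt_da (nt_sfst (gam_smooth hg i)) p) (nt_da (nt_ssnd (gam_smooth hg i)) p)]
  have h2 := dw_fst (gam_smooth hg i) l p
  have h3 := dw_snd (gam_smooth hg i) l p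
  unfold dw at h2 h3
  rw [h2, h3, zero_sub]

private theorem nt_gsub {g : V → ℝ} (hg : Dn g) (i : Fin 3) (p : V × V) :
    DifferentiableAt ℝ (fun y : V × V => gam i g y.1 - gam i g y.2) p :=
  (nt_da (nt_sfst (gam_smooth hg i)) p).sub (nt_da (nt_ssnd (gam_smooth hg i)) p)

theorem dv_RR_uu {g : V → ℝ} (hg : Dn g) (a b l : Fin 3) (p : V × V) :
    dv l (RR a b (uu g)) p = (1 / 2) * DX g a b l p.1 p.2 := by
  rw [nt_RR_uu hg, nt_dv_gen (nt_gsub hg b p) (nt_gsub hg a p), nt_dvg hg, nt_dvg hg]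
  unfold DX
  rw [hs_symm hg b l, hs_symm hg a l]
  unfold hs
  ring

theorem dw_RR_uu {g : V → ℝ} (hg : Dn g) (a b l : Fin 3) (p : V × V) :
    dw l (RR a b (uu g)) p = (1 / 2) * DX g a b l p.2 p.1 := by
  rw [nt_RR_uu hg, nt_dw_gen (nt_gsub hg b p) (nt_gsub hg a p), nt_dwg hg, nt_dwg hg]
  unfold DX
  rw [hs_symm hg b l, hs_symm hg a l]
  unfold hs
  ring

private theorem nt_bd {s t r A₁ A₂ x1 x2 x3 x4 y1 y2 : ℝ} (hs : |s| ≤ r) (ht : |t| ≤ r)
    (h1 : |x1| ≤ A₂) (h2 : |x2| ≤ A₂) (h3 : |x3| ≤ A₂) (h4 : |x4| ≤ A₂) (h5 : |y1| ≤ A₁)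
    (h6 : |y2| ≤ A₁) :
    |(1 / 4) * (s * s * x1 - s * t * x2 - 2 * (s * y1) - s * t * x3 + t * t * x4 -
      2 * (t * y2))| ≤ r ^ 2 * A₂ + r * A₁ := by
  have hr : 0 ≤ r := (abs_nonneg _).trans hs
  have key : ∀ u v x : ℝ, |u| ≤ r → |v| ≤ r → |x| ≤ A₂ → |u * v * x| ≤ r ^ 2 * A₂ := by
    intro u v x hu hv hx
    rw [abs_mul, abs_mul]
    calc |u| * |v| * |x| ≤ r * r * A₂ := by gcongr
      _ = r ^ 2 * A₂ := by ring
  have key2 : ∀ u y : ℝ, |u| ≤ r → |y| ≤ A₁ → |u * y| ≤ r * A₁ := by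
    intro u y hu hy
    rw [abs_mul]
    gcongr
  have e1 := abs_le.1 (key s s x1 hs hs h1)
  have e2 := abs_le.1 (key s t x2 hs ht h2)
  have e3 := abs_le.1 (key s t x3 hs ht h3)
  have e4 := abs_le.1 (key t t x4 ht ht h4)
  have e5 := abs_le.1 (key2 s y1 hs h5)
  have e6 := abs_le.1 (key2 t y2 ht h6)
  rw [abs_le]
  constructor
  · linarith [e1.1, e2.2, e3.2, e4.1, e5.2, e6.2]
  · linarith [e1.2, e2.1, e3.1, e4.2, e5.1, e6.1]

private theorem nt_kd {l a : Fin 3} (h : l ≠ a) : kd l a = 0 := by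
  unfold kd
  rw [if_neg h]

private theorem nt_kd' (l : Fin 3) : kd l l = 1 := by
  unfold kd
  rw [if_pos rfl]

private theorem nt_coord (p : V × V) (a : Fin 3) : |p.1 a - p.2 a| ≤ ‖p.1 - p.2‖ :=
  Cls.abs_coord (p.1 - p.2) a

/-- second rotation derivative of a weight, bounded -/
theorem RR2_fst_le {h : V → ℝ} (hh : ContDiff ℝ (⊤ : ℕ∞) h) (a b : Fin 3) (p : V × V) (A₁ A₂ : ℝ)
    (h1 : ∀ i : Fin 3, |pd i h p.1| ≤ A₁) (h2 : ∀ i j : Fin 3, |pd i (pd j h) p.1| ≤ A₂) :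
    |RR a b (RR a b (fun x => h x.1)) p| ≤ ‖p.1 - p.2‖ ^ 2 * A₂ + ‖p.1 - p.2‖ * A₁ := by
  have hA1 : 0 ≤ A₁ := (abs_nonneg _).trans (h1 0)
  have hA2 : 0 ≤ A₂ := (abs_nonneg _).trans (h2 0 0)
  by_cases hab : a = b
  · subst hab
    have h0 : RR a a (RR a a (fun x => h x.1)) p = 0 := by
      unfold RR
      ring
    rw [h0, abs_zero]
    positivity
  have hf : RR a b (fun x => h x.1) = fun x : V × V => (1 / 2) *
      ((x.1 a - x.2 a) * (fun y : V × V => pd b h y.1) x -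
        (x.1 b - x.2 b) * (fun y : V × V => pd a h y.1) x) := by
    funext x
    exact RR_fst hh a b x
  have hb : ∀ i, DifferentiableAt ℝ (fun y : V × V => pd i h y.1) p := fun i =>
    nt_da (nt_sfst (smooth_pd hh i)) p
  have e : RR a b (RR a b (fun x => h x.1)) p = (1 / 4) * ((p.1 a - p.2 a) * (p.1 a - p.2 a) *
      pd b (pd b h) p.1 - (p.1 a - p.2 a) * (p.1 b - p.2 b) * pd b (pd a h) p.1 -
      2 * ((p.1 a - p.2 a) * pd a h p.1) - (p.1 a - p.2 a) * (p.1 b - p.2 b) * pd a (pd b h) p.1 +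
      (p.1 b - p.2 b) * (p.1 b - p.2 b) * pd a (pd a h) p.1 -
      2 * ((p.1 b - p.2 b) * pd b h p.1)) := by
    rw [hf]
    unfold RR
    rw [nt_dv_gen (hb b) (hb a), nt_dv_gen (hb b) (hb a), nt_dw_gen (hb b) (hb a),
      nt_dw_gen (hb b) (hb a)]
    simp only [dv_fst (smooth_pd hh _), dw_fst (smooth_pd hh _), nt_kd hab, nt_kd (Ne.symm hab),
      nt_kd']
    ring
  rw [e]
  exact nt_bd (nt_coord p a) (nt_coord p b) (h2 _ _) (h2 _ _) (h2 _ _) (h2 _ _) (h1 _) (h1 _)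

theorem RR2_snd_le {h : V → ℝ} (hh : ContDiff ℝ (⊤ : ℕ∞) h) (a b : Fin 3) (p : V × V) (A₁ A₂ : ℝ)
    (h1 : ∀ i : Fin 3, |pd i h p.2| ≤ A₁) (h2 : ∀ i j : Fin 3, |pd i (pd j h) p.2| ≤ A₂) :
    |RR a b (RR a b (fun x => h x.2)) p| ≤ ‖p.1 - p.2‖ ^ 2 * A₂ + ‖p.1 - p.2‖ * A₁ := by
  have hA1 : 0 ≤ A₁ := (abs_nonneg _).trans (h1 0)
  have hA2 : 0 ≤ A₂ := (abs_nonneg _).trans (h2 0 0)
  by_cases hab : a = b
  · subst hab
    have h0 : RR a a (RR a a (fun x => h x.2)) p = 0 := by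
      unfold RR
      ring
    rw [h0, abs_zero]
    positivity
  have hf : RR a b (fun x => h x.2) = fun x : V × V => (-(1 / 2)) *
      ((x.1 a - x.2 a) * (fun y : V × V => pd b h y.2) x -
        (x.1 b - x.2 b) * (fun y : V × V => pd a h y.2) x) := by
    funext x
    exact RR_snd hh a b x
  have hb : ∀ i, DifferentiableAt ℝ (fun y : V × V => pd i h y.2) p := fun i =>
    nt_da (nt_ssnd (smooth_pd hh i)) p
  have e : RR a b (RR a b (fun x => h x.2)) p = (1 / 4) * ((p.1 a - p.2 a) * (p.1 a - p.2 a) *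
      pd b (pd b h) p.2 - (p.1 a - p.2 a) * (p.1 b - p.2 b) * pd b (pd a h) p.2 -
      2 * ((p.1 a - p.2 a) * -pd a h p.2) - (p.1 a - p.2 a) * (p.1 b - p.2 b) * pd a (pd b h) p.2 +
      (p.1 b - p.2 b) * (p.1 b - p.2 b) * pd a (pd a h) p.2 -
      2 * ((p.1 b - p.2 b) * -pd b h p.2)) := by
    rw [hf]
    unfold RR
    rw [nt_dv_gen (hb b) (hb a), nt_dv_gen (hb b) (hb a), nt_dw_gen (hb b) (hb a),
      nt_dw_gen (hb b) (hb a)]
    simp only [dv_snd (smooth_pd hh _), dw_snd (smooth_pd hh _), nt_kd hab, nt_kd (Ne.symm hab),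
      nt_kd']
    ring
  rw [e]
  exact nt_bd (nt_coord p a) (nt_coord p b) (h2 _ _) (h2 _ _) (h2 _ _) (h2 _ _)
    (by rw [abs_neg]; exact h1 _) (by rw [abs_neg]; exact h1 _)

/-- rotation derivative of the score -/
theorem RR_gam_fst {g : V → ℝ} (hg : Dn g) (a b l : Fin 3) (p : V × V) :
    RR a b (fun x => gam l g x.1) p = (1 / 2) * DX g a b l p.1 p.2
      - (1 / 2) * (kd l a * (gam b g p.1 - gam b g p.2) - kd l b * (gam a g p.1 - gam a g p.2)) := by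
  rw [RR_fst (gam_smooth hg l)]
  unfold DX hs
  ring

theorem RR_gam_snd {g : V → ℝ} (hg : Dn g) (a b l : Fin 3) (p : V × V) :
    RR a b (fun x => gam l g x.2) p = (1 / 2) * DX g a b l p.2 p.1
      + (1 / 2) * (kd l a * (gam b g p.1 - gam b g p.2) - kd l b * (gam a g p.1 - gam a g p.2)) := by
  rw [RR_snd (gam_smooth hg l)]
  unfold DX hs
  ring

/-- `q1` on the pair `(uu, uu)` -/
theorem q1_uu {φ g : V → ℝ} (hg : Dn g) (a b : Fin 3) (p : V × V) :
    q1 φ a b (uu g) (uu g) p = RR a b (fun x => φ x.1) p * x2 g p.1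
      + RR a b (fun x => φ x.2) p * x2 g p.2
      - (φ p.1 - φ p.2) * (gam a g p.2 * gam b g p.1 - gam b g p.2 * gam a g p.1) := by
  unfold q1 bt x2
  simp only [dv_uu hg, dw_uu hg, Fin.sum_univ_three]
  ring

/-- rotation derivative of `q1 (uu, uu)` -/
theorem RR_q1_uu {φ g : V → ℝ} (hφ : ContDiff ℝ (⊤ : ℕ∞) φ) (hg : Dn g) (a b : Fin 3) (p : V × V) :
    RR a b (q1 φ a b (uu g) (uu g)) p =
      RR a b (RR a b (fun x => φ x.1)) p * x2 g p.1
      + RR a b (RR a b (fun x => φ x.2)) p * x2 g p.2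
      + 2 * RR a b (fun x => φ x.1) p *
          (∑ l : Fin 3, gam l g p.1 * RR a b (fun x => gam l g x.1) p)
      + 2 * RR a b (fun x => φ x.2) p *
          (∑ l : Fin 3, gam l g p.2 * RR a b (fun x => gam l g x.2) p)
      - (RR a b (fun x => φ x.1) p - RR a b (fun x => φ x.2) p) *
          (gam a g p.2 * gam b g p.1 - gam b g p.2 * gam a g p.1)
      - (φ p.1 - φ p.2) *
          (RR a b (fun x => gam a g x.2) p * gam b g p.1
            + gam a g p.2 * RR a b (fun x => gam b g x.1) p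
            - RR a b (fun x => gam b g x.2) p * gam a g p.1
            - gam b g p.2 * RR a b (fun x => gam a g x.1) p) := by
  have hfun : q1 φ a b (uu g) (uu g) = fun q : V × V =>
      (RR a b (fun x => φ x.1) q * x2 g q.1 + RR a b (fun x => φ x.2) q * x2 g q.2) -
      (φ q.1 - φ q.2) * (gam a g q.2 * gam b g q.1 - gam b g q.2 * gam a g q.1) := by
    funext q
    exact q1_uu hg a b q
  have g1 : ∀ i, ContDiff ℝ (⊤ : ℕ∞) (fun x : V × V => gam i g x.1) := fun i =>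
    nt_sfst (gam_smooth hg i)
  have g2 : ∀ i, ContDiff ℝ (⊤ : ℕ∞) (fun x : V × V => gam i g x.2) := fun i =>
    nt_ssnd (gam_smooth hg i)
  have f1 := nt_sfst hφ
  have f2 := nt_ssnd hφ
  have r1 := smooth_RR f1 a b
  have r2 := smooth_RR f2 a b
  have hx1 : (fun x : V × V => x2 g x.1) = fun x : V × V => (gam 0 g x.1 * gam 0 g x.1 +
      gam 1 g x.1 * gam 1 g x.1) + gam 2 g x.1 * gam 2 g x.1 := by
    funext x
    unfold x2
    rw [Fin.sum_univ_three]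
    ring
  have hx2 : (fun x : V × V => x2 g x.2) = fun x : V × V => (gam 0 g x.2 * gam 0 g x.2 +
      gam 1 g x.2 * gam 1 g x.2) + gam 2 g x.2 * gam 2 g x.2 := by
    funext x
    unfold x2
    rw [Fin.sum_univ_three]
    ring
  have sx1 : ContDiff ℝ (⊤ : ℕ∞) (fun x : V × V => x2 g x.1) := by
    rw [hx1]
    exact (((g1 0).mul (g1 0)).add ((g1 1).mul (g1 1))).add ((g1 2).mul (g1 2))
  have sx2 : ContDiff ℝ (⊤ : ℕ∞) (fun x : V × V => x2 g x.2) := by
    rw [hx2]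
    exact (((g2 0).mul (g2 0)).add ((g2 1).mul (g2 1))).add ((g2 2).mul (g2 2))
  have ex1 : RR a b (fun x : V × V => x2 g x.1) p =
      2 * ∑ l : Fin 3, gam l g p.1 * RR a b (fun x => gam l g x.1) p := by
    rw [hx1, nt_RR_add (((g1 0).mul (g1 0)).add ((g1 1).mul (g1 1))) ((g1 2).mul (g1 2)),
      nt_RR_add ((g1 0).mul (g1 0)) ((g1 1).mul (g1 1)), RR_mul (g1 0) (g1 0),
      RR_mul (g1 1) (g1 1), RR_mul (g1 2) (g1 2), Fin.sum_univ_three]
    ring
  have ex2 : RR a b (fun x : V × V => x2 g x.2) p =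
      2 * ∑ l : Fin 3, gam l g p.2 * RR a b (fun x => gam l g x.2) p := by
    rw [hx2, nt_RR_add (((g2 0).mul (g2 0)).add ((g2 1).mul (g2 1))) ((g2 2).mul (g2 2)),
      nt_RR_add ((g2 0).mul (g2 0)) ((g2 1).mul (g2 1)), RR_mul (g2 0) (g2 0),
      RR_mul (g2 1) (g2 1), RR_mul (g2 2) (g2 2), Fin.sum_univ_three]
    ring
  have m1 : ContDiff ℝ (⊤ : ℕ∞) (fun q : V × V => gam a g q.2 * gam b g q.1) :=
    (g2 a).mul (g1 b)
  have m2 : ContDiff ℝ (⊤ : ℕ∞) (fun q : V × V => gam b g q.2 * gam a g q.1) :=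
    (g2 b).mul (g1 a)
  have m3 : ContDiff ℝ (⊤ : ℕ∞)
      (fun q : V × V => gam a g q.2 * gam b g q.1 - gam b g q.2 * gam a g q.1) := m1.sub m2
  have m4 : ContDiff ℝ (⊤ : ℕ∞) (fun q : V × V => φ q.1 - φ q.2) := f1.sub f2
  have m5 : ContDiff ℝ (⊤ : ℕ∞) (fun q : V × V => RR a b (fun x => φ x.1) q * x2 g q.1) :=
    r1.mul sx1
  have m6 : ContDiff ℝ (⊤ : ℕ∞) (fun q : V × V => RR a b (fun x => φ x.2) q * x2 g q.2) :=
    r2.mul sx2
  have m7 : ContDiff ℝ (⊤ : ℕ∞) (fun q : V × V => RR a b (fun x => φ x.1) q * x2 g q.1 +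
      RR a b (fun x => φ x.2) q * x2 g q.2) := m5.add m6
  have m8 : ContDiff ℝ (⊤ : ℕ∞) (fun q : V × V => (φ q.1 - φ q.2) *
      (gam a g q.2 * gam b g q.1 - gam b g q.2 * gam a g q.1)) := m4.mul m3
  rw [hfun, nt_RR_sub m7 m8, nt_RR_add m5 m6, RR_mul r1 sx1, RR_mul r2 sx2, RR_mul m4 m3,
    nt_RR_sub f1 f2, nt_RR_sub m1 m2, RR_mul (g2 a) (g1 b), RR_mul (g2 b) (g1 a), ex1, ex2]
  ring

end Pool.Agent.LandauF
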