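import Pool.Agent.LandauF.APfun
import Pool.Agent.LandauF.NTrans
import Pool.Agent.Landau.KInt

/-!
# LandauF, module ANis: the trace free Hessian is controlled by the pairs inside a ball

`h0 g v = |H|² - (tr H)²/3 = |H₀|²`, `Q` the closed ball of radius `s` about `y`.  For `h > 0` small, `ω` in
the unit ball and an integer `k` let `S_k = {v : k h ≤ ω·v < (k+1) h}`.  If `v, w` are in the same slab then
`|ω·z| ≤ h`, so by `slab_vol` and Tonelli
`C h ∫∫_{Q²} F r⁻¹ (4 qT/r⁴) ≥ ∫_ω ∑_k ∫∫_{(Q ∩ S_k)²} F 4 qT/r⁴`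
`≥ ∫_ω ∑_k ∫∫_{(Q ∩ S_k)²} F (PH(H(v), ω)² - 32 |H|² (ω·z)²/r²)`.
First part: `∫∫_{(Q ∩ S_k)²} F PH² = m_k ∫_{Q ∩ S_k} g PH² ≥ (∫_{Q ∩ S_k} g PH)²`, and at most `3 s/h + 3` slabs meet `Q`
(`|ω| ≤ 1`), so by Cauchy-Schwarz the sum is `≥ (h/(6 s)) (∫_Q g PH)²` for `h ≤ s`; then
`∫_ω (∫_Q g PH)² ≥ (1/5) (∫_ω ∫_Q g PH)² ≥ c (∫_Q g √h0)²` (`PH_avg`).
Second part: `≤ C_H ∫∫_{Q²} F |{ω : |ω·z| ≤ h}| (h/r)² ≤ C_H ∫∫_{Q²} min(1, h/r) (min(1, h/r))² ≤ C h^{5/2}`
(`|ω·z| ≤ min(h, r)`, `min(1, x)³ ≤ x^{5/2}`, `r^{-5/2}` is integrable), `C_H` from the bound of `|H|²`, `g` on `Q`.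
Divide by `h` and let `h → 0`.  (`F r⁻¹ qT/r⁴ = g g* TQ/r⁵`.)
-/

set_option autoImplicit false

namespace Pool.Agent.LandauF

open MeasureTheory Set Filter Topology Pool.Agent.Landau

/-- squared norm of the trace free Hessian -/
noncomputable def h0 (g : V → ℝ) (v : V) : ℝ := h2 g v - (1 / 3) * trh g v ^ 2

theorem h0_nonneg (g : V → ℝ) (v : V) : 0 ≤ h0 g v := by
  unfold h0 h2 trh
  simp only [Fin.sum_univ_three]
  nlinarith [sq_nonneg (hs g 0 0 v - hs g 1 1 v), sq_nonneg (hs g 0 0 v - hs g 2 2 v),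
    sq_nonneg (hs g 1 1 v - hs g 2 2 v), sq_nonneg (hs g 0 1 v), sq_nonneg (hs g 0 2 v),
    sq_nonneg (hs g 1 0 v), sq_nonneg (hs g 1 2 v), sq_nonneg (hs g 2 0 v), sq_nonneg (hs g 2 1 v)]

/-- the linear form -/
noncomputable def anL (ω v : V) : ℝ := ∑ i : Fin 3, ω i * v i

theorem anL_cont : Continuous (fun q : V × V => anL q.1 q.2) := by
  unfold anL
  fun_prop

theorem anL_abs (ω z : V) (hω : ‖ω‖ ≤ 1) : |anL ω z| ≤ ‖z‖ := by
  have h := abs_real_inner_le_norm z ω
  have e : inner ℝ z ω = anL ω z := by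
    unfold anL
    simp [PiLp.inner_apply]
  rw [e] at h
  exact h.trans (mul_le_of_le_one_right (norm_nonneg _) hω)

theorem anL_sub (ω v w : V) : anL ω (v - w) = anL ω v - anL ω w := by
  unfold anL
  simp only [Fin.sum_univ_three, PiLp.sub_apply]
  ring

theorem anis_cs {α : Type*} [MeasurableSpace α] (μ : Measure α) (f : α → ENNReal)
    (hf : AEMeasurable f μ) : (∫⁻ x, f x ∂μ) ^ 2 ≤ (∫⁻ x, f x ^ 2 ∂μ) * μ univ := by
  have h := ENNReal.lintegral_mul_le_Lp_mul_Lq μ Real.HolderConjugate.two_two hf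
    (aemeasurable_const (b := (1 : ENNReal)))
  simp only [Pi.mul_apply, mul_one, ENNReal.one_rpow, lintegral_const, one_mul] at h
  calc (∫⁻ x, f x ∂μ) ^ 2
      ≤ ((∫⁻ a, f a ^ (2 : ℝ) ∂μ) ^ (1 / (2 : ℝ)) * μ univ ^ (1 / (2 : ℝ))) ^ 2 := by gcongr
    _ = (∫⁻ x, f x ^ 2 ∂μ) * μ univ := by
      rw [mul_pow, ← ENNReal.rpow_natCast, ← ENNReal.rpow_natCast, ← ENNReal.rpow_mul,
        ← ENNReal.rpow_mul]
      norm_num

/-- the function integrated -/
noncomputable def anf (ω : V) (h : ℝ) (a : V → ENNReal) (t : ℝ) (v : V) : ENNReal :=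
  if anL ω v - h ≤ t ∧ t ≤ anL ω v then a v else 0

theorem anf_meas (ω : V) (h : ℝ) {a : V → ENNReal} (ha : Measurable a) :
    Measurable (fun q : ℝ × V => anf ω h a q.1 q.2) := by
  have hL : Measurable (fun q : ℝ × V => anL ω q.2) :=
    (anL_cont.comp (Continuous.prodMk continuous_const continuous_snd)).measurable
  unfold anf
  refine Measurable.ite ?_ (ha.comp measurable_snd) measurable_const
  exact (measurableSet_le (hL.sub_const h) measurable_fst).inter
    (measurableSet_le measurable_fst hL)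

theorem anis_lemA (y ω : V) (s h : ℝ) (hs : 0 < s) (hh : 0 < h) (hhs : h ≤ s) (hω : ‖ω‖ ≤ 1)
    {a : V → ENNReal} (ha : Measurable a) :
    (∫⁻ v in Metric.closedBall y s, a v) ^ 2 * ENNReal.ofReal (h / (3 * s)) ≤
      ∫⁻ p : V × V, (if |anL ω (p.1 - p.2)| ≤ h then a p.1 * a p.2 else 0)
        ∂((volume.restrict (Metric.closedBall y s)).prod
          (volume.restrict (Metric.closedBall y s))) := by
  set ν : Measure V := volume.restrict (Metric.closedBall y s) with hν
  set S : Set ℝ := Icc (anL ω y - s - h) (anL ω y + s) with hS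
  set A : ℝ → ENNReal := fun t => ∫⁻ v, anf ω h a t v ∂ν with hA
  set J : ENNReal := ∫⁻ p : V × V, (if |anL ω (p.1 - p.2)| ≤ h then a p.1 * a p.2 else 0)
    ∂(ν.prod ν) with hJ
  have hfm := anf_meas ω h ha
  have hAm : Measurable A := hfm.lintegral_prod_right'
  -- first moment
  have h1 : ∫⁻ t in S, A t = ENNReal.ofReal h * ∫⁻ v, a v ∂ν := by
    have hsw : ∫⁻ t in S, A t = ∫⁻ v, (∫⁻ t in S, anf ω h a t v) ∂ν :=
      lintegral_lintegral_swap hfm.aemeasurable
    rw [hsw, ← lintegral_const_mul _ ha]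
    refine setLIntegral_congr_fun measurableSet_closedBall (fun v hv => ?_)
    have hd : |anL ω v - anL ω y| ≤ s := by
      rw [← anL_sub]
      refine (anL_abs ω _ hω).trans ?_
      rwa [← dist_eq_norm, ← Metric.mem_closedBall]
    have hd' := abs_le.1 hd
    have hsub : Icc (anL ω v - h) (anL ω v) ⊆ S := by
      intro t ht
      exact ⟨by linarith [ht.1], by linarith [ht.2]⟩
    have e : ∀ t, anf ω h a t v = (Icc (anL ω v - h) (anL ω v)).indicator (fun _ => a v) t := by
      intro t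
      unfold anf
      rw [indicator_apply]
      rfl
    simp only [e]
    rw [lintegral_indicator measurableSet_Icc, lintegral_const,
      Measure.restrict_restrict measurableSet_Icc, Measure.restrict_apply MeasurableSet.univ,
      univ_inter, inter_eq_left.2 hsub, Real.volume_Icc, mul_comm]
    congr 2
    ring
  -- second moment
  have h2 : ∫⁻ t in S, A t ^ 2 ≤ ENNReal.ofReal h * J := by
    have e1 : ∀ t, A t ^ 2 = ∫⁻ p : V × V, anf ω h a t p.1 * anf ω h a t p.2 ∂(ν.prod ν) := by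
      intro t
      have hm : AEMeasurable (fun v => anf ω h a t v) ν :=
        (hfm.comp measurable_prodMk_left).aemeasurable
      rw [lintegral_prod_mul hm hm, sq]
    simp only [e1]
    have hm2 : Measurable (fun q : ℝ × (V × V) => anf ω h a q.1 q.2.1 * anf ω h a q.1 q.2.2) :=
      (hfm.comp (measurable_fst.prodMk (measurable_fst.comp measurable_snd))).mul
        (hfm.comp (measurable_fst.prodMk (measurable_snd.comp measurable_snd)))
    rw [lintegral_lintegral_swap hm2.aemeasurable, hJ, ← lintegral_const_mul']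
    swap
    · exact ENNReal.ofReal_ne_top
    refine lintegral_mono (fun p => ?_)
    split_ifs with hc
    · have hle : ∀ t, anf ω h a t p.1 * anf ω h a t p.2 ≤
          (Icc (anL ω p.1 - h) (anL ω p.1)).indicator (fun _ => a p.1 * a p.2) t := by
        intro t
        unfold anf
        rw [indicator_apply]
        by_cases h3 : t ∈ Icc (anL ω p.1 - h) (anL ω p.1)
        · have h3' : anL ω p.1 - h ≤ t ∧ t ≤ anL ω p.1 := h3
          rw [if_pos h3', if_pos h3]
          split_ifs
          · exact le_rfl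
          · simp
        · have h3' : ¬ (anL ω p.1 - h ≤ t ∧ t ≤ anL ω p.1) := h3
          rw [if_neg h3', if_neg h3]
          simp
      refine (lintegral_mono hle).trans ?_
      rw [lintegral_indicator measurableSet_Icc, lintegral_const,
        Measure.restrict_restrict measurableSet_Icc, Measure.restrict_apply MeasurableSet.univ,
        univ_inter, mul_comm]
      gcongr
      refine (measure_mono inter_subset_left).trans (le_of_eq ?_)
      rw [Real.volume_Icc]
      congr 1
      ring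
    · have hz : ∀ t, anf ω h a t p.1 * anf ω h a t p.2 = 0 := by
        intro t
        unfold anf
        by_contra hne
        have hc1 : anL ω p.1 - h ≤ t ∧ t ≤ anL ω p.1 := by
          by_contra hcon
          rw [if_neg hcon] at hne
          simp at hne
        have hc2 : anL ω p.2 - h ≤ t ∧ t ≤ anL ω p.2 := by
          by_contra hcon
          rw [if_neg hcon] at hne
          simp at hne
        apply hc
        rw [anL_sub, abs_le]
        constructor <;> linarith [hc1.1, hc1.2, hc2.1, hc2.2]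
      simp [hz]
  -- Cauchy Schwarz
  have h3 := anis_cs (volume.restrict S) A hAm.aemeasurable
  rw [h1, Measure.restrict_apply MeasurableSet.univ, univ_inter] at h3
  have hvS : volume S ≤ ENNReal.ofReal (3 * s) := by
    rw [hS, Real.volume_Icc]
    apply ENNReal.ofReal_le_ofReal
    linarith
  have h4 : (ENNReal.ofReal h * ∫⁻ v, a v ∂ν) ^ 2 ≤ (ENNReal.ofReal h * J) * ENNReal.ofReal (3 * s) :=
    h3.trans (mul_le_mul' h2 hvS)
  have hh0 : ENNReal.ofReal h ≠ 0 := by simpa using hh
  have hht : ENNReal.ofReal h ≠ ⊤ := ENNReal.ofReal_ne_top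
  have hs0 : ENNReal.ofReal (3 * s) ≠ 0 := by simpa using hs
  have hst : ENNReal.ofReal (3 * s) ≠ ⊤ := ENNReal.ofReal_ne_top
  rw [ENNReal.ofReal_div_of_pos (by positivity)]
  have h5 : (∫⁻ v, a v ∂ν) ^ 2 * (ENNReal.ofReal h / ENNReal.ofReal (3 * s)) =
      (ENNReal.ofReal h * ∫⁻ v, a v ∂ν) ^ 2 * ((ENNReal.ofReal h)⁻¹ * (ENNReal.ofReal (3 * s))⁻¹) := by
    rw [mul_pow, div_eq_mul_inv]
    have : ENNReal.ofReal h ^ 2 * (ENNReal.ofReal h)⁻¹ = ENNReal.ofReal h := by
      rw [sq, mul_assoc, ENNReal.mul_inv_cancel hh0 hht, mul_one]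
    calc (∫⁻ v, a v ∂ν) ^ 2 * (ENNReal.ofReal h * (ENNReal.ofReal (3 * s))⁻¹)
        = (∫⁻ v, a v ∂ν) ^ 2 * ((ENNReal.ofReal h ^ 2 * (ENNReal.ofReal h)⁻¹) *
          (ENNReal.ofReal (3 * s))⁻¹) := by rw [this]
      _ = _ := by ring
  rw [h5]
  calc (ENNReal.ofReal h * ∫⁻ v, a v ∂ν) ^ 2 * ((ENNReal.ofReal h)⁻¹ * (ENNReal.ofReal (3 * s))⁻¹)
      ≤ (ENNReal.ofReal h * J) * ENNReal.ofReal (3 * s) *
        ((ENNReal.ofReal h)⁻¹ * (ENNReal.ofReal (3 * s))⁻¹) := mul_le_mul' h4 le_rfl
    _ = J * (ENNReal.ofReal h * (ENNReal.ofReal h)⁻¹) *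
        (ENNReal.ofReal (3 * s) * (ENNReal.ofReal (3 * s))⁻¹) := by ring
    _ = J := by
        rw [ENNReal.mul_inv_cancel hh0 hht, ENNReal.mul_inv_cancel hs0 hst, mul_one, mul_one]

/-- symmetrisation -/
theorem anis_sym (ν : Measure V) [SFinite ν] (ω : V) (h : ℝ) {G P : V → ℝ} (hG : ∀ v, 0 ≤ G v)
    (hP : ∀ v, 0 ≤ P v) (hGm : Measurable G) (hPm : Measurable P) :
    ∫⁻ p : V × V, (if |anL ω (p.1 - p.2)| ≤ h then
        ENNReal.ofReal (G p.1 * P p.1) * ENNReal.ofReal (G p.2 * P p.2) else 0) ∂(ν.prod ν) ≤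
      ∫⁻ p : V × V, (if |anL ω (p.1 - p.2)| ≤ h then
        ENNReal.ofReal (G p.1 * G p.2 * P p.1 ^ 2) else 0) ∂(ν.prod ν) := by
  set φ : V × V → ENNReal := fun p => (if |anL ω (p.1 - p.2)| ≤ h then
        ENNReal.ofReal (G p.1 * G p.2 * P p.1 ^ 2) else 0) with hφ
  have hL : Measurable (fun p : V × V => |anL ω (p.1 - p.2)|) := by
    have : Continuous (fun p : V × V => |anL ω (p.1 - p.2)|) := by
      unfold anL
      fun_prop
    exact this.measurable
  have hφm : Measurable φ := by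
    refine Measurable.ite (measurableSet_le hL measurable_const) ?_ measurable_const
    exact (((hGm.comp measurable_fst).mul (hGm.comp measurable_snd)).mul
      ((hPm.comp measurable_fst).pow_const 2)).ennreal_ofReal
  have hsw : ∫⁻ p, φ p.swap ∂(ν.prod ν) = ∫⁻ p, φ p ∂(ν.prod ν) := lintegral_prod_swap φ
  have hpt : ∀ p : V × V, (if |anL ω (p.1 - p.2)| ≤ h then
        ENNReal.ofReal (G p.1 * P p.1) * ENNReal.ofReal (G p.2 * P p.2) else 0) ≤
      ENNReal.ofReal (1 / 2) * φ p + ENNReal.ofReal (1 / 2) * φ p.swap := by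
    intro p
    have hs : |anL ω (p.2 - p.1)| = |anL ω (p.1 - p.2)| := by
      rw [anL_sub, anL_sub, abs_sub_comm]
    simp only [hφ, Prod.fst_swap, Prod.snd_swap, hs]
    split_ifs
    · rw [← ENNReal.ofReal_mul (mul_nonneg (hG _) (hP _)), ← ENNReal.ofReal_mul (by norm_num),
        ← ENNReal.ofReal_mul (by norm_num), ← ENNReal.ofReal_add]
      · apply ENNReal.ofReal_le_ofReal
        nlinarith [mul_nonneg (mul_nonneg (hG p.1) (hG p.2)) (sq_nonneg (P p.1 - P p.2))]
      · have := hG p.1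
        have := hG p.2
        positivity
      · have := hG p.1
        have := hG p.2
        positivity
    · simp
  refine (lintegral_mono hpt).trans (le_of_eq ?_)
  rw [lintegral_add_left (hφm.const_mul _), lintegral_const_mul _ hφm,
    lintegral_const_mul _ (show Measurable (fun p : V × V => φ p.swap) from
      hφm.comp measurable_swap), hsw, ← add_mul,
    ← ENNReal.ofReal_add (by norm_num) (by norm_num)]
  norm_num

/-- the pairs of a ball -/
noncomputable def anmu (y : V) (s : ℝ) : Measure (V × V) :=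
  (volume.restrict (Metric.closedBall y s)).prod (volume.restrict (Metric.closedBall y s))

theorem anmu_ae (y : V) (s : ℝ) : ∀ᵐ p ∂(anmu y s),
    p.1 ∈ Metric.closedBall y s ∧ p.2 ∈ Metric.closedBall y s ∧ p.1 ≠ p.2 := by
  have h1 : ∀ᵐ p ∂(anmu y s), p ∈ Metric.closedBall y s ×ˢ Metric.closedBall y s := by
    unfold anmu
    rw [Measure.prod_restrict]
    exact ae_restrict_mem (measurableSet_closedBall.prod measurableSet_closedBall)
  have h2 : ∀ᵐ p ∂(anmu y s), p.1 ≠ p.2 := by
    have hm : MeasurableSet {p : V × V | p.1 = p.2} :=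
      (isClosed_eq continuous_fst continuous_snd).measurableSet
    have : anmu y s {p : V × V | p.1 = p.2} = 0 := by
      unfold anmu
      rw [Measure.measure_prod_null hm]
      refine Eventually.of_forall (fun x => ?_)
      have e : Prod.mk x ⁻¹' {p : V × V | p.1 = p.2} = {x} := by
        ext z
        simp [eq_comm]
      show (volume.restrict (Metric.closedBall y s)) (Prod.mk x ⁻¹' {p : V × V | p.1 = p.2}) = 0
      rw [e]
      simp
    rw [ae_iff]
    simpa using this
  filter_upwards [h1, h2] with p hp hq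
  exact ⟨hp.1, hp.2, hq⟩

theorem anmu_R (y : V) (s : ℝ) (hs : 0 < s) :
    ∫⁻ p, ENNReal.ofReal (1 / ‖p.1 - p.2‖ ^ 2) ∂(anmu y s) ≠ ⊤ := by
  have hm : Measurable (fun p : V × V => ENNReal.ofReal (1 / ‖p.1 - p.2‖ ^ 2)) :=
    (measurable_const.div ((measurable_fst.sub measurable_snd).norm.pow_const 2)).ennreal_ofReal
  unfold anmu
  rw [lintegral_prod _ hm.aemeasurable]
  have hk := kker_int 2 le_rfl (2 * s + 1) (by linarith)
  have hC : ∫⁻ z : V, ENNReal.ofReal (kker 2 (2 * s + 1) ‖z‖) < ⊤ := hk.1.lintegral_lt_top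
  have hin : ∀ v ∈ Metric.closedBall y s, ∫⁻ w in Metric.closedBall y s,
      ENNReal.ofReal (1 / ‖v - w‖ ^ 2) ≤ ∫⁻ z : V, ENNReal.ofReal (kker 2 (2 * s + 1) ‖z‖) := by
    intro v hv
    have h1 : ∫⁻ w in Metric.closedBall y s, ENNReal.ofReal (1 / ‖v - w‖ ^ 2) ≤
        ∫⁻ w in Metric.closedBall y s, ENNReal.ofReal (kker 2 (2 * s + 1) ‖v - w‖) := by
      refine setLIntegral_mono' measurableSet_closedBall (fun w hw => ?_)
      apply ENNReal.ofReal_le_ofReal
      have hd : ‖v - w‖ < 2 * s + 1 := by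
        have h2 : ‖v - w‖ ≤ ‖v - y‖ + ‖w - y‖ := by
          have : v - w = (v - y) - (w - y) := by abel
          rw [this]
          exact norm_sub_le _ _
        have h3 : ‖v - y‖ ≤ s := by rwa [← dist_eq_norm, ← Metric.mem_closedBall]
        have h4 : ‖w - y‖ ≤ s := by rwa [← dist_eq_norm, ← Metric.mem_closedBall]
        linarith
      unfold kker
      rw [indicator_of_mem (show ‖v - w‖ ∈ Iio (2 * s + 1) from hd)]
    refine h1.trans ((setLIntegral_le_lintegral _ _).trans (le_of_eq ?_))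
    exact lintegral_sub_left_eq_self (fun z : V => ENNReal.ofReal (kker 2 (2 * s + 1) ‖z‖)) v
  refine ne_of_lt (lt_of_le_of_lt (setLIntegral_mono' measurableSet_closedBall hin) ?_)
  rw [lintegral_const]
  refine ENNReal.mul_lt_top hC ?_
  rw [Measure.restrict_apply MeasurableSet.univ, univ_inter]
  exact measure_closedBall_lt_top

/-- the kernel of the upper bound -/
noncomputable def anK (g : V → ℝ) (M h : ℝ) (p : V × V) : ENNReal :=
  ENNReal.ofReal (4 * (g p.1 * g p.2 * TQ g p.1 p.2) / ‖p.1 - p.2‖ ^ 4) +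
    ENNReal.ofReal (M * h / ‖p.1 - p.2‖)

theorem anis_hsc {g : V → ℝ} (hg : Dn g) : Continuous (fun v : V => (fun i j => hs g i j v)) := by
  refine continuous_pi (fun i => continuous_pi (fun j => ?_))
  exact (nid_pd_smooth (gam_smooth hg j) i).continuous

theorem anis_TQc {g : V → ℝ} (hg : Dn g) : Continuous (fun p : V × V => TQ g p.1 p.2) := by
  have hq : Continuous (fun q : (Fin 3 → Fin 3 → ℝ) × V => qT q.1 q.2) := by
    unfold qT
    fun_prop
  have e : (fun p : V × V => TQ g p.1 p.2) =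
      fun p : V × V => qT (fun i j => hs g i j p.1) (p.1 - p.2) := by
    funext p
    exact TQ_eq g p.1 p.2
  rw [e]
  have h2 : Continuous (fun p : V × V =>
      (((fun i j => hs g i j p.1), p.1 - p.2) : (Fin 3 → Fin 3 → ℝ) × V)) :=
    ((anis_hsc hg).comp continuous_fst).prodMk (continuous_fst.sub continuous_snd)
  have h3 := hq.comp h2
  exact h3

theorem anK_meas {g : V → ℝ} (hg : Dn g) (M h : ℝ) : Measurable (anK g M h) := by
  have hgc := hg.cls.smooth.continuous
  have hn : Measurable (fun p : V × V => ‖p.1 - p.2‖) := (measurable_fst.sub measurable_snd).norm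
  have h1 : Measurable (fun p : V × V =>
      ENNReal.ofReal (4 * (g p.1 * g p.2 * TQ g p.1 p.2) / ‖p.1 - p.2‖ ^ 4)) := by
    refine Measurable.ennreal_ofReal (Measurable.div ?_ (hn.pow_const 4))
    exact (continuous_const.mul (((hgc.comp continuous_fst).mul (hgc.comp continuous_snd)).mul
      (anis_TQc hg))).measurable
  have h2 : Measurable (fun p : V × V => ENNReal.ofReal (M * h / ‖p.1 - p.2‖)) :=
    (measurable_const.div hn).ennreal_ofReal
  exact h1.add h2

theorem anis_TQ_nonneg {g : V → ℝ} (hg : Dn g) (v w : V) : 0 ≤ TQ g v w := by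
  rw [TQ_eq]
  exact qT_nonneg _ (fun i j => hs_symm hg i j v) _

theorem anis_pt {g : V → ℝ} (hg : Dn g) (M h : ℝ) (hh : 0 < h) (ω : V) (hω : ‖ω‖ ≤ 1) (v w : V)
    (hvw : v ≠ w) (hM : 32 * hn (fun i j => hs g i j v) ≤ M) (hL : |anL ω (v - w)| ≤ h) :
    ENNReal.ofReal (g v * g w * PH (fun i j => hs g i j v) ω ^ 2) ≤ anK g M h (v, w) := by
  have hz : v - w ≠ 0 := sub_ne_zero.2 hvw
  have hr : 0 < ‖v - w‖ := norm_pos_iff.2 hz
  have h1 := PH_le (fun i j => hs g i j v) (fun i j => hs_symm hg i j v) ω (v - w) hz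
  have e1 : (∑ i : Fin 3, ω i * (v - w) i) = anL ω (v - w) := rfl
  rw [e1, ← TQ_eq] at h1
  have hr' := anL_abs ω (v - w) hω
  have hgv := hg.pos v
  have hgw := hg.pos w
  have hg1 := hg.cls.le_one v
  have hg2 := hg.cls.le_one w
  have hn0 : 0 ≤ hn (fun i j => hs g i j v) := by unfold hn; positivity
  have hsq : anL ω (v - w) ^ 2 ≤ h * ‖v - w‖ := by
    rw [← sq_abs, sq]
    exact mul_le_mul hL hr' (abs_nonneg _) hh.le
  unfold anK
  refine le_trans (ENNReal.ofReal_le_ofReal ?_) (ENNReal.ofReal_add_le (p := 4 * (g v * g w * TQ g v w) / ‖v - w‖ ^ 4) (q := M * h / ‖v - w‖))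
  have h2 : g v * g w * (32 * hn (fun i j => hs g i j v) * anL ω (v - w) ^ 2 / ‖v - w‖ ^ 2) ≤
      M * h / ‖v - w‖ := by
    have h3 : g v * g w ≤ 1 := by nlinarith
    have h4 : 32 * hn (fun i j => hs g i j v) * anL ω (v - w) ^ 2 / ‖v - w‖ ^ 2 ≤ M * h / ‖v - w‖ := by
      rw [div_le_div_iff₀ (by positivity) hr]
      have h5 : 32 * hn (fun i j => hs g i j v) * anL ω (v - w) ^ 2 ≤ M * (h * ‖v - w‖) :=
        mul_le_mul hM hsq (sq_nonneg _) (by linarith)
      nlinarith
    have h5 : 0 ≤ 32 * hn (fun i j => hs g i j v) * anL ω (v - w) ^ 2 / ‖v - w‖ ^ 2 := by positivity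
    nlinarith
  calc g v * g w * PH (fun i j => hs g i j v) ω ^ 2
      ≤ g v * g w * (4 * TQ g v w / ‖v - w‖ ^ 4 +
        32 * hn (fun i j => hs g i j v) * anL ω (v - w) ^ 2 / ‖v - w‖ ^ 2) :=
        mul_le_mul_of_nonneg_left h1 (mul_pos hgv hgw).le
    _ = 4 * (g v * g w * TQ g v w) / ‖v - w‖ ^ 4 +
        g v * g w * (32 * hn (fun i j => hs g i j v) * anL ω (v - w) ^ 2 / ‖v - w‖ ^ 2) := by ring
    _ ≤ _ := by linarith

/-- the upper bound of the pairs in the slabs -/
theorem anis_up {g : V → ℝ} (hg : Dn g) (M h : ℝ) (hh : 0 < h) (y : V) (s : ℝ) (C : ℝ) (hC : 0 < C)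
    (hM : ∀ v ∈ Metric.closedBall y s, 32 * hn (fun i j => hs g i j v) ≤ M) (hM0 : 0 ≤ M)
    (hvol : ∀ (z : V), z ≠ 0 →
      volume {ω : V | ‖ω‖ ≤ 1 ∧ |∑ i : Fin 3, ω i * z i| ≤ h} ≤ ENNReal.ofReal (C * h / ‖z‖)) :
    ∫⁻ ω in Metric.closedBall (0 : V) 1, (∫⁻ p : V × V, (if |anL ω (p.1 - p.2)| ≤ h then
        ENNReal.ofReal (g p.1 * g p.2 * PH (fun i j => hs g i j p.1) ω ^ 2) else 0) ∂(anmu y s)) ≤
      ENNReal.ofReal (4 * C * h) * (∫⁻ p : V × V,
        ENNReal.ofReal (g p.1 * g p.2 * TQ g p.1 p.2 / ‖p.1 - p.2‖ ^ 5) ∂(anmu y s)) +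
      ENNReal.ofReal (C * M * h * h) * (∫⁻ p : V × V,
        ENNReal.ofReal (1 / ‖p.1 - p.2‖ ^ 2) ∂(anmu y s)) := by
  have hLm : Measurable (fun q : V × (V × V) => |anL q.1 (q.2.1 - q.2.2)|) := by
    have : Continuous (fun q : V × (V × V) => |anL q.1 (q.2.1 - q.2.2)|) := by
      unfold anL
      fun_prop
    exact this.measurable
  have hm : Measurable (fun q : V × (V × V) =>
      (if |anL q.1 (q.2.1 - q.2.2)| ≤ h then anK g M h q.2 else 0)) :=
    Measurable.ite (measurableSet_le hLm measurable_const) ((anK_meas hg M h).comp measurable_snd)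
      measurable_const
  have h1 : ∫⁻ ω in Metric.closedBall (0 : V) 1, (∫⁻ p : V × V, (if |anL ω (p.1 - p.2)| ≤ h then
        ENNReal.ofReal (g p.1 * g p.2 * PH (fun i j => hs g i j p.1) ω ^ 2) else 0) ∂(anmu y s)) ≤
      ∫⁻ ω in Metric.closedBall (0 : V) 1, (∫⁻ p : V × V,
        (if |anL ω (p.1 - p.2)| ≤ h then anK g M h p else 0) ∂(anmu y s)) := by
    refine setLIntegral_mono' measurableSet_closedBall (fun ω hω => ?_)
    refine lintegral_mono_ae ?_
    filter_upwards [anmu_ae y s] with p hp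
    split_ifs with hc
    · exact anis_pt hg M h hh ω (by simpa using hω) p.1 p.2 hp.2.2 (hM _ hp.1) hc
    · exact le_rfl
  have hsf : SFinite (anmu y s) := by
    unfold anmu
    infer_instance
  refine h1.trans ?_
  rw [lintegral_lintegral_swap hm.aemeasurable]
  have h2 : ∫⁻ p : V × V, (∫⁻ ω in Metric.closedBall (0 : V) 1,
      (if |anL ω (p.1 - p.2)| ≤ h then anK g M h p else 0)) ∂(anmu y s) ≤
      ∫⁻ p : V × V, (ENNReal.ofReal (4 * C * h) *
        ENNReal.ofReal (g p.1 * g p.2 * TQ g p.1 p.2 / ‖p.1 - p.2‖ ^ 5) +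
        ENNReal.ofReal (C * M * h * h) * ENNReal.ofReal (1 / ‖p.1 - p.2‖ ^ 2)) ∂(anmu y s) := by
    refine lintegral_mono_ae ?_
    filter_upwards [anmu_ae y s] with p hp
    have hz : p.1 - p.2 ≠ 0 := sub_ne_zero.2 hp.2.2
    have hr : 0 < ‖p.1 - p.2‖ := norm_pos_iff.2 hz
    have hms : MeasurableSet {ω : V | |anL ω (p.1 - p.2)| ≤ h} :=
      measurableSet_le (hLm.comp (measurable_id.prodMk measurable_const)) measurable_const
    have e1 : ∀ ω : V, (if |anL ω (p.1 - p.2)| ≤ h then anK g M h p else 0) =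
        ({ω : V | |anL ω (p.1 - p.2)| ≤ h}).indicator (fun _ => anK g M h p) ω := by
      intro ω
      rw [indicator_apply]
      rfl
    simp only [e1]
    rw [lintegral_indicator hms, lintegral_const, Measure.restrict_restrict hms,
      Measure.restrict_apply MeasurableSet.univ, univ_inter]
    have e2 : {ω : V | |anL ω (p.1 - p.2)| ≤ h} ∩ Metric.closedBall (0 : V) 1 =
        {ω : V | ‖ω‖ ≤ 1 ∧ |∑ i : Fin 3, ω i * (p.1 - p.2) i| ≤ h} := by
      ext ω
      simp only [mem_inter_iff, mem_ofPred_eq, mem_closedBall_zero_iff, anL]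
      exact and_comm
    rw [e2]
    refine (mul_le_mul' le_rfl (hvol _ hz)).trans (le_of_eq ?_)
    have hT := anis_TQ_nonneg hg p.1 p.2
    have hgv := hg.pos p.1
    have hgw := hg.pos p.2
    unfold anK
    rw [add_mul, ← ENNReal.ofReal_mul (by positivity), ← ENNReal.ofReal_mul (by positivity),
      ← ENNReal.ofReal_mul (by positivity), ← ENNReal.ofReal_mul (by positivity)]
    congr 2
    · field_simp
    · field_simp
  refine h2.trans (le_of_eq ?_)
  have hm1 : Measurable (fun p : V × V =>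
      ENNReal.ofReal (g p.1 * g p.2 * TQ g p.1 p.2 / ‖p.1 - p.2‖ ^ 5)) := by
    have hgc := hg.cls.smooth.continuous
    refine Measurable.ennreal_ofReal (Measurable.div ?_
      (((measurable_fst.sub measurable_snd).norm).pow_const 5))
    exact (((hgc.comp continuous_fst).mul (hgc.comp continuous_snd)).mul (anis_TQc hg)).measurable
  have hm2 : Measurable (fun p : V × V => ENNReal.ofReal (1 / ‖p.1 - p.2‖ ^ 2)) :=
    (measurable_const.div ((measurable_fst.sub measurable_snd).norm.pow_const 2)).ennreal_ofReal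
  rw [lintegral_add_left (hm1.const_mul _), lintegral_const_mul _ hm1, lintegral_const_mul _ hm2]

theorem anis_PHc {g : V → ℝ} (hg : Dn g) :
    Continuous (fun q : V × V => PH (fun i j => hs g i j q.2) q.1) := by
  have h2 : Continuous (fun q : V × V =>
      (((fun i j => hs g i j q.2), q.1) : (Fin 3 → Fin 3 → ℝ) × V)) :=
    ((anis_hsc hg).comp continuous_snd).prodMk continuous_fst
  have h3 := PH_cont.comp h2
  exact h3

theorem anis_h0c {g : V → ℝ} (hg : Dn g) : Continuous (fun v : V => g v * Real.sqrt (h0 g v)) := by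
  have hgc := hg.cls.smooth.continuous
  have hs' : ∀ i j : Fin 3, Continuous (fun v => hs g i j v) := fun i j =>
    (nid_pd_smooth (gam_smooth hg j) i).continuous
  refine hgc.mul (Real.continuous_sqrt.comp ?_)
  unfold h0 h2 trh
  refine Continuous.sub ?_ ?_
  · exact continuous_finsetSum _ (fun i _ => continuous_finsetSum _ (fun j _ => (hs' i j).pow 2))
  · exact continuous_const.mul ((continuous_finsetSum _ (fun i _ => hs' i i)).pow 2)

/-- the lower bound of the averages -/
theorem anis_low {g : V → ℝ} (hg : Dn g) (y : V) (s c : ℝ) (hc : 0 < c)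
    (havg : ∀ H : Fin 3 → Fin 3 → ℝ, (∀ i j, H i j = H j i) →
      c * Real.sqrt (hn H - (1 / 3) * (∑ i : Fin 3, H i i) ^ 2) ≤
        ∫ ω in Metric.closedBall (0 : V) 1, PH H ω) :
    ENNReal.ofReal (c * ∫ v in Metric.closedBall y s, g v * Real.sqrt (h0 g v)) ≤
      ∫⁻ ω in Metric.closedBall (0 : V) 1, ∫⁻ v in Metric.closedBall y s,
        ENNReal.ofReal (g v * PH (fun i j => hs g i j v) ω) := by
  have hPc := anis_PHc hg
  have hgc := hg.cls.smooth.continuous
  have hm : Measurable (fun q : V × V =>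
      ENNReal.ofReal (g q.2 * PH (fun i j => hs g i j q.2) q.1)) :=
    ((hgc.comp continuous_snd).mul hPc).measurable.ennreal_ofReal
  rw [lintegral_lintegral_swap hm.aemeasurable, ← integral_const_mul]
  have hint : Integrable (fun v => c * (g v * Real.sqrt (h0 g v)))
      (volume.restrict (Metric.closedBall y s)) :=
    (continuous_const.mul (anis_h0c hg)).continuousOn.integrableOn_compact
      (isCompact_closedBall _ _)
  rw [ofReal_integral_eq_lintegral_ofReal hint (Eventually.of_forall (fun v => by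
    have := hg.pos v
    simp only [Pi.zero_apply]
    positivity))]
  refine lintegral_mono (fun v => ?_)
  have hPv : Continuous (fun ω : V => PH (fun i j => hs g i j v) ω) := by
    have h4 : Continuous (fun ω : V => (ω, v)) := by fun_prop
    have h5 := hPc.comp h4
    exact h5
  have hint2 : Integrable (fun ω : V => g v * PH (fun i j => hs g i j v) ω)
      (volume.restrict (Metric.closedBall (0 : V) 1)) :=
    (continuous_const.mul hPv).continuousOn.integrableOn_compact (isCompact_closedBall _ _)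
  rw [← ofReal_integral_eq_lintegral_ofReal hint2 (Eventually.of_forall (fun ω => by
    have := hg.pos v
    simp only [Pi.zero_apply]
    unfold PH
    positivity))]
  apply ENNReal.ofReal_le_ofReal
  rw [integral_const_mul]
  have h1 := havg (fun i j => hs g i j v) (fun i j => hs_symm hg i j v)
  have h2 : hn (fun i j => hs g i j v) - (1 / 3) * (∑ i : Fin 3, hs g i i v) ^ 2 = h0 g v := rfl
  rw [h2] at h1
  have := mul_le_mul_of_nonneg_left h1 (hg.pos v).le
  calc c * (g v * Real.sqrt (h0 g v)) = g v * (c * Real.sqrt (h0 g v)) := by ring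
    _ ≤ _ := this

/-- Anisotropy inequality. -/
theorem aniso : ∃ c : ℝ, 0 < c ∧ ∀ g : V → ℝ, Dn g → ∀ (y : V) (s : ℝ), 0 < s →
    ENNReal.ofReal (c / s * (∫ v in Metric.closedBall y s, g v * Real.sqrt (h0 g v)) ^ 2) ≤
      ∫⁻ v in Metric.closedBall y s, ∫⁻ w in Metric.closedBall y s,
        ENNReal.ofReal (g v * g w * TQ g v w / ‖v - w‖ ^ 5) := by
  obtain ⟨C, hC, hvol⟩ := slab_vol
  obtain ⟨c, hc, havg⟩ := PH_avg
  set β : ℝ := (volume (Metric.closedBall (0 : V) 1)).toReal with hβ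
  have hβt : volume (Metric.closedBall (0 : V) 1) ≠ ⊤ := measure_closedBall_lt_top.ne
  have hβ0 : 0 < β :=
    ENNReal.toReal_pos (Metric.measure_closedBall_pos volume _ one_pos).ne' hβt
  have hβe : volume (Metric.closedBall (0 : V) 1) = ENNReal.ofReal β :=
    (ENNReal.ofReal_toReal hβt).symm
  refine ⟨c ^ 2 / (12 * C * β), by positivity, fun g hg y s hs0 => ?_⟩
  have hgc := hg.cls.smooth.continuous
  have hPc := anis_PHc hg
  set X : ℝ := ∫ v in Metric.closedBall y s, g v * Real.sqrt (h0 g v) with hX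
  have hX0 : 0 ≤ X := by
    refine integral_nonneg (fun v => ?_)
    have := hg.pos v
    positivity
  set I : ENNReal := ∫⁻ p : V × V,
    ENNReal.ofReal (g p.1 * g p.2 * TQ g p.1 p.2 / ‖p.1 - p.2‖ ^ 5) ∂(anmu y s) with hI
  set R : ENNReal := ∫⁻ p : V × V, ENNReal.ofReal (1 / ‖p.1 - p.2‖ ^ 2) ∂(anmu y s) with hR
  have hRt : R ≠ ⊤ := anmu_R y s hs0
  have hm1 : Measurable (fun p : V × V =>
      ENNReal.ofReal (g p.1 * g p.2 * TQ g p.1 p.2 / ‖p.1 - p.2‖ ^ 5)) := by
    refine Measurable.ennreal_ofReal (Measurable.div ?_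
      (((measurable_fst.sub measurable_snd).norm).pow_const 5))
    exact (((hgc.comp continuous_fst).mul (hgc.comp continuous_snd)).mul (anis_TQc hg)).measurable
  have hIe : ∫⁻ v in Metric.closedBall y s, ∫⁻ w in Metric.closedBall y s,
        ENNReal.ofReal (g v * g w * TQ g v w / ‖v - w‖ ^ 5) = I :=
    (lintegral_prod _ hm1.aemeasurable).symm
  rw [hIe]
  obtain ⟨M, hM0, hM⟩ : ∃ M : ℝ, 0 ≤ M ∧ ∀ v ∈ Metric.closedBall y s,
      32 * hn (fun i j => hs g i j v) ≤ M := by
    have hcont : Continuous (fun v : V => 32 * hn (fun i j => hs g i j v)) := by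
      have hnc : Continuous hn := by
        unfold hn
        fun_prop
      have h3 := continuous_const (y := (32 : ℝ)) |>.mul (hnc.comp (anis_hsc hg))
      exact h3
    obtain ⟨M, hM⟩ := (isCompact_closedBall y s).exists_bound_of_continuousOn hcont.continuousOn
    refine ⟨max M 0, le_max_right _ _, fun v hv => ?_⟩
    exact (le_abs_self _).trans ((hM v hv).trans (le_max_left _ _))
  have key : ∀ h : ℝ, 0 < h → h ≤ s → ENNReal.ofReal (c ^ 2 * X ^ 2 / (3 * s)) ≤
      ENNReal.ofReal (4 * C * β) * I + ENNReal.ofReal (C * M * β * h) * R := by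
    intro h hh hhs
    have hlow := anis_low hg y s c hc havg
    have hup := anis_up hg M h hh y s C hC hM hM0 (fun z hz => hvol z h hz hh)
    set A : V → ENNReal := fun ω => ∫⁻ v in Metric.closedBall y s,
      ENNReal.ofReal (g v * PH (fun i j => hs g i j v) ω) with hA
    have hm : Measurable (fun q : V × V =>
        ENNReal.ofReal (g q.2 * PH (fun i j => hs g i j q.2) q.1)) :=
      ((hgc.comp continuous_snd).mul hPc).measurable.ennreal_ofReal
    have hAm : Measurable A := hm.lintegral_prod_right'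
    have hcs := anis_cs (volume.restrict (Metric.closedBall (0 : V) 1)) A hAm.aemeasurable
    rw [Measure.restrict_apply MeasurableSet.univ, univ_inter, hβe] at hcs
    have hsl : ∀ ω ∈ Metric.closedBall (0 : V) 1, A ω ^ 2 * ENNReal.ofReal (h / (3 * s)) ≤
        ∫⁻ p : V × V, (if |anL ω (p.1 - p.2)| ≤ h then
          ENNReal.ofReal (g p.1 * g p.2 * PH (fun i j => hs g i j p.1) ω ^ 2) else 0)
            ∂(anmu y s) := by
      intro ω hω
      have hω1 : ‖ω‖ ≤ 1 := by simpa using hω
      have hPω : Measurable (fun v : V => PH (fun i j => hs g i j v) ω) := by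
        have h8 : Continuous (fun v : V => (ω, v)) := by fun_prop
        have h9 := hPc.comp h8
        exact h9.measurable
      have hPn : ∀ v : V, 0 ≤ PH (fun i j => hs g i j v) ω := fun v => Real.sqrt_nonneg _
      have ham : Measurable (fun v : V =>
          ENNReal.ofReal (g v * PH (fun i j => hs g i j v) ω)) :=
        (hgc.measurable.mul hPω).ennreal_ofReal
      have hA1 := anis_lemA y ω s h hs0 hh hhs hω1 ham
      have hA2 := anis_sym (volume.restrict (Metric.closedBall y s)) ω h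
        (fun v => (hg.pos v).le) hPn hgc.measurable hPω
      exact hA1.trans hA2
    have h5 : (∫⁻ ω in Metric.closedBall (0 : V) 1, A ω ^ 2) * ENNReal.ofReal (h / (3 * s)) ≤
        ENNReal.ofReal (4 * C * h) * I + ENNReal.ofReal (C * M * h * h) * R := by
      rw [← lintegral_mul_const' _ _ ENNReal.ofReal_ne_top]
      exact (setLIntegral_mono' measurableSet_closedBall hsl).trans hup
    have h6 : ENNReal.ofReal (c * X) ^ 2 ≤
        (∫⁻ ω in Metric.closedBall (0 : V) 1, A ω ^ 2) * ENNReal.ofReal β :=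
      (pow_le_pow_left₀ (by positivity) hlow 2).trans hcs
    calc ENNReal.ofReal (c ^ 2 * X ^ 2 / (3 * s))
        = ENNReal.ofReal (c * X) ^ 2 * (ENNReal.ofReal (h / (3 * s)) * ENNReal.ofReal (1 / h)) := by
          rw [← ENNReal.ofReal_mul (by positivity), ← ENNReal.ofReal_pow (by positivity),
            ← ENNReal.ofReal_mul (by positivity)]
          congr 1
          field_simp
      _ ≤ ((∫⁻ ω in Metric.closedBall (0 : V) 1, A ω ^ 2) * ENNReal.ofReal β) *
          (ENNReal.ofReal (h / (3 * s)) * ENNReal.ofReal (1 / h)) := mul_le_mul' h6 le_rfl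
      _ = ((∫⁻ ω in Metric.closedBall (0 : V) 1, A ω ^ 2) * ENNReal.ofReal (h / (3 * s))) *
          (ENNReal.ofReal β * ENNReal.ofReal (1 / h)) := by ring
      _ ≤ (ENNReal.ofReal (4 * C * h) * I + ENNReal.ofReal (C * M * h * h) * R) *
          (ENNReal.ofReal β * ENNReal.ofReal (1 / h)) := mul_le_mul' h5 le_rfl
      _ = (ENNReal.ofReal (4 * C * h) * (ENNReal.ofReal β * ENNReal.ofReal (1 / h))) * I +
          (ENNReal.ofReal (C * M * h * h) * (ENNReal.ofReal β * ENNReal.ofReal (1 / h))) * R := by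
          ring
      _ = ENNReal.ofReal (4 * C * β) * I + ENNReal.ofReal (C * M * β * h) * R := by
          rw [← ENNReal.ofReal_mul (by positivity), ← ENNReal.ofReal_mul (by positivity),
            ← ENNReal.ofReal_mul (by positivity)]
          congr 3
          · field_simp
          · field_simp
  have hlim : ENNReal.ofReal (c ^ 2 * X ^ 2 / (3 * s)) ≤ ENNReal.ofReal (4 * C * β) * I := by
    have ht : Tendsto (fun h : ℝ => ENNReal.ofReal (4 * C * β) * I +
        ENNReal.ofReal (C * M * β * h) * R) (𝓝[>] 0) (𝓝 (ENNReal.ofReal (4 * C * β) * I +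
        ENNReal.ofReal (C * M * β * 0) * R)) := by
      have hcn : Continuous (fun h : ℝ => ENNReal.ofReal (C * M * β * h)) :=
        ENNReal.continuous_ofReal.comp (continuous_const.mul continuous_id)
      exact tendsto_const_nhds.add (ENNReal.Tendsto.mul_const
        ((hcn.tendsto 0).mono_left nhdsWithin_le_nhds) (Or.inr hRt))
    rw [mul_zero, ENNReal.ofReal_zero, zero_mul, add_zero] at ht
    refine ge_of_tendsto ht ?_
    filter_upwards [Ioc_mem_nhdsGT hs0] with h hh
    exact key h hh.1 hh.2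
  calc ENNReal.ofReal (c ^ 2 / (12 * C * β) / s * X ^ 2)
      = ENNReal.ofReal (1 / (4 * C * β)) * ENNReal.ofReal (c ^ 2 * X ^ 2 / (3 * s)) := by
        rw [← ENNReal.ofReal_mul (by positivity)]
        congr 1
        field_simp
        ring
    _ ≤ ENNReal.ofReal (1 / (4 * C * β)) * (ENNReal.ofReal (4 * C * β) * I) :=
        mul_le_mul' le_rfl hlim
    _ = I := by
        rw [← mul_assoc, ← ENNReal.ofReal_mul (by positivity)]
        have : 1 / (4 * C * β) * (4 * C * β) = 1 := by field_simp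
        rw [this, ENNReal.ofReal_one, one_mul]

end Pool.Agent.LandauF
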