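import Pool.Agent.LandauF.AQuad

/-!
# LandauF, module AOm: averages over directions

`quad_avg`: for symmetric `A`, `|qf A ω| ≤ |A|` on the unit ball, so
`∫_{B_1} |qf A ω| ≥ |A|⁻¹ ∫_{B_1} (qf A ω)²`, and `∫_{B_1} (qf A ω)² dω = c' (2 |A|² + (tr A)²) ≥ 2 c' |A|²`
(moments of the ball of degree 4: `∫ ω_i⁴ = 3 ∫ ω_i² ω_j²`; any proof of the lower bound will do, e.g.
compactness of the unit sphere of symmetric matrices and continuity: the integral is positive since a
quadratic form vanishing on the ball is zero).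
`slab_vol`: the slab `|ω · z| ≤ h` of the unit ball has volume at most `C h/‖z‖` (linear isometry moving `z`
to a coordinate axis, Fubini; it is contained in a box with sides `2h/‖z‖, 2, 2`).
-/

set_option autoImplicit false

namespace Pool.Agent.LandauF

open MeasureTheory Set Filter Topology Pool.Agent.Landau

theorem aom_cont : Continuous (fun q : (Fin 3 → Fin 3 → ℝ) × V => |qf q.1 q.2|) := by
  unfold qf
  fun_prop

theorem aom_pos (A : Fin 3 → Fin 3 → ℝ) (hA : ∀ i j, A i j = A j i) (h1 : hn A = 1) :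
    0 < ∫ ω in Metric.closedBall (0 : V) 1, |qf A ω| := by
  have hc : Continuous fun ω : V => |qf A ω| := aom_cont.comp (Continuous.prodMk_right A)
  have hint : IntegrableOn (fun ω : V => |qf A ω|) (Metric.closedBall (0 : V) 1) :=
    hc.continuousOn.integrableOn_compact (isCompact_closedBall _ _)
  rw [setIntegral_pos_iff_support_of_nonneg_ae (Eventually.of_forall fun _ => abs_nonneg _) hint]
  by_contra hcon
  have h0 : volume (Function.support (fun ω : V => |qf A ω|) ∩ Metric.closedBall (0 : V) 1) = 0 := by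
    simpa using hcon
  have hopen : IsOpen (Function.support (fun ω : V => |qf A ω|) ∩ Metric.ball (0 : V) 1) :=
    (hc.isOpen_support).inter Metric.isOpen_ball
  have h0' : volume (Function.support (fun ω : V => |qf A ω|) ∩ Metric.ball (0 : V) 1) = 0 :=
    measure_mono_null (inter_subset_inter_right _ Metric.ball_subset_closedBall) h0
  have hemp := (hopen.measure_eq_zero_iff volume).1 h0'
  have hz : ∀ ω : V, ‖ω‖ < 1 → qf A ω = 0 := by
    intro ω hω
    by_contra hne
    have : ω ∈ Function.support (fun ω : V => |qf A ω|) ∩ Metric.ball (0 : V) 1 :=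
      ⟨by simpa using hne, by simpa using hω⟩
    rw [hemp] at this
    exact this
  have hv : ∀ a b c : ℝ, a ^ 2 + b ^ 2 + c ^ 2 < 1 →
      A 0 0 * a ^ 2 + A 1 1 * b ^ 2 + A 2 2 * c ^ 2 + 2 * A 0 1 * a * b + 2 * A 0 2 * a * c
        + 2 * A 1 2 * b * c = 0 := by
    intro a b c h
    have hn : ‖(!₂[a, b, c] : V)‖ < 1 := by
      rw [EuclideanSpace.norm_eq]
      simp only [Fin.sum_univ_three, Real.norm_eq_abs, sq_abs]
      have : (!₂[a, b, c] : V) 0 ^ 2 + (!₂[a, b, c] : V) 1 ^ 2 + (!₂[a, b, c] : V) 2 ^ 2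
          = a ^ 2 + b ^ 2 + c ^ 2 := by simp
      rw [this, Real.sqrt_lt' one_pos]
      simpa using h
    have := hz _ hn
    unfold qf at this
    simp only [Fin.sum_univ_three] at this
    have e0 : (![a, b, c] : Fin 3 → ℝ) 0 = a := rfl
    have e1 : (![a, b, c] : Fin 3 → ℝ) 1 = b := rfl
    have e2 : (![a, b, c] : Fin 3 → ℝ) 2 = c := rfl
    rw [e0, e1, e2, hA 1 0, hA 2 0, hA 2 1] at this
    linarith
  have a00 : A 0 0 = 0 := by
    have := hv (1 / 2) 0 0 (by norm_num)
    linarith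
  have a11 : A 1 1 = 0 := by
    have := hv 0 (1 / 2) 0 (by norm_num)
    linarith
  have a22 : A 2 2 = 0 := by
    have := hv 0 0 (1 / 2) (by norm_num)
    linarith
  have a01 : A 0 1 = 0 := by
    have := hv (1 / 2) (1 / 2) 0 (by norm_num)
    rw [a00, a11] at this
    linarith
  have a02 : A 0 2 = 0 := by
    have := hv (1 / 2) 0 (1 / 2) (by norm_num)
    rw [a00, a22] at this
    linarith
  have a12 : A 1 2 = 0 := by
    have := hv 0 (1 / 2) (1 / 2) (by norm_num)
    rw [a11, a22] at this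
    linarith
  unfold hn at h1
  simp only [Fin.sum_univ_three, hA 1 0, hA 2 0, hA 2 1, a00, a11, a22, a01, a02, a12] at h1
  norm_num at h1

theorem quad_avg : ∃ c : ℝ, 0 < c ∧ ∀ A : Fin 3 → Fin 3 → ℝ, (∀ i j, A i j = A j i) →
    c * Real.sqrt (hn A) ≤ ∫ ω in Metric.closedBall (0 : V) 1, |qf A ω| := by
  set Φ : (Fin 3 → Fin 3 → ℝ) → ℝ := fun A => ∫ ω in Metric.closedBall (0 : V) 1, |qf A ω| with hΦ
  have hΦc : Continuous Φ := continuous_parametric_integral_of_continuous aom_cont
    (isCompact_closedBall _ _)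
  have hnc : Continuous hn := by
    unfold hn
    fun_prop
  set S : Set (Fin 3 → Fin 3 → ℝ) := {A | (∀ i j, A i j = A j i) ∧ hn A = 1} with hS
  have hScl : IsClosed S := by
    have h1 : IsClosed {A : Fin 3 → Fin 3 → ℝ | ∀ i j, A i j = A j i} := by
      simp only [ofPred_forall]
      refine isClosed_iInter fun i => isClosed_iInter fun j => isClosed_eq ?_ ?_ <;> fun_prop
    exact h1.inter (isClosed_eq hnc continuous_const)
  have hSb : Bornology.IsBounded S := by
    refine (Metric.isBounded_closedBall (x := (0 : Fin 3 → Fin 3 → ℝ)) (r := 1)).subset ?_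
    rintro A ⟨_, hA⟩
    rw [mem_closedBall_zero_iff, pi_norm_le_iff_of_nonneg zero_le_one]
    intro i
    rw [pi_norm_le_iff_of_nonneg zero_le_one]
    intro j
    rw [Real.norm_eq_abs]
    have : A i j ^ 2 ≤ 1 := by
      rw [← hA]
      unfold hn
      refine le_trans ?_ (Finset.single_le_sum (f := fun i => ∑ j : Fin 3, A i j ^ 2)
        (fun i _ => Finset.sum_nonneg fun j _ => sq_nonneg _) (Finset.mem_univ i))
      exact Finset.single_le_sum (f := fun j => A i j ^ 2) (fun j _ => sq_nonneg _)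
        (Finset.mem_univ j)
    exact (sq_le_one_iff_abs_le_one _).1 this
  have hSc : IsCompact S := Metric.isCompact_of_isClosed_isBounded hScl hSb
  have hne : S.Nonempty := by
    refine ⟨fun i j => if i = 0 ∧ j = 0 then 1 else 0, ?_, ?_⟩
    · intro i j
      simp only [and_comm]
    · unfold hn
      simp only [Fin.sum_univ_three]
      have h20 : (2 : Fin 3) ≠ 0 := by decide
      have h10 : (1 : Fin 3) ≠ 0 := by decide
      simp [h20, h10]
  obtain ⟨A₀, hA₀, hmin⟩ := hSc.exists_isMinOn hne hΦc.continuousOn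
  refine ⟨Φ A₀, aom_pos A₀ hA₀.1 hA₀.2, fun A hA => ?_⟩
  have hn0 : 0 ≤ hn A := Finset.sum_nonneg fun i _ => Finset.sum_nonneg fun j _ => sq_nonneg _
  rcases hn0.eq_or_lt with h | h
  · rw [← h, Real.sqrt_zero, mul_zero]
    exact integral_nonneg fun _ => abs_nonneg _
  · set t := Real.sqrt (hn A) with ht
    have ht0 : 0 < t := Real.sqrt_pos.2 h
    have ht2 : t ^ 2 = hn A := Real.sq_sqrt hn0
    set B : Fin 3 → Fin 3 → ℝ := fun i j => t⁻¹ * A i j with hB
    have hBS : B ∈ S := by
      refine ⟨fun i j => by rw [hB]; simp only; rw [hA i j], ?_⟩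
      have : hn B = t⁻¹ ^ 2 * hn A := by
        unfold hn
        simp only [hB, mul_pow, Finset.mul_sum]
      rw [this, ← ht2]
      field_simp
    have h1 : Φ A₀ ≤ Φ B := hmin hBS
    have h2 : Φ A = t * Φ B := by
      rw [hΦ]
      simp only
      rw [← integral_const_mul]
      congr 1
      ext ω
      have : qf A ω = t * qf B ω := by
        unfold qf
        simp only [hB, Finset.mul_sum]
        refine Finset.sum_congr rfl fun i _ => Finset.sum_congr rfl fun j _ => ?_
        field_simp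
      rw [this, abs_mul, abs_of_pos ht0]
    have h3 : Φ A₀ * t ≤ Φ A := by
      rw [h2, mul_comm]
      exact mul_le_mul_of_nonneg_left h1 ht0.le
    exact h3

theorem aom_box (z : Fin 3 → ℝ) (h : ℝ) (hh : 0 < h) (k : Fin 3) (hk : z k ≠ 0) :
    volume {x : Fin 3 → ℝ | (∀ i, |x i| ≤ 1) ∧ |∑ i : Fin 3, x i * z i| ≤ h} ≤
      ENNReal.ofReal (8 * h / |z k|) := by
  set M : Matrix (Fin 3) (Fin 3) ℝ := (1 : Matrix (Fin 3) (Fin 3) ℝ).updateRow k z with hM
  have hdet : M.det = z k := by
    rw [Matrix.det_fin_three, hM]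
    fin_cases k <;> simp [Matrix.updateRow_apply, Matrix.one_apply]
  set f : (Fin 3 → ℝ) →ₗ[ℝ] (Fin 3 → ℝ) := Matrix.toLin' M with hf
  have hfdet : LinearMap.det f = z k := by rw [hf, LinearMap.det_toLin', hdet]
  have hfk : ∀ x, f x k = ∑ i : Fin 3, x i * z i := by
    intro x
    rw [hf, Matrix.toLin'_apply, Matrix.mulVec, hM]
    simp only [dotProduct, Matrix.updateRow_self]
    exact Finset.sum_congr rfl fun i _ => mul_comm _ _
  have hfj : ∀ x, ∀ j, j ≠ k → f x j = x j := by
    intro x j hj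
    rw [hf, Matrix.toLin'_apply, Matrix.mulVec, hM]
    simp only [dotProduct, Matrix.updateRow_ne hj]
    simp [Matrix.one_apply]
  set b : Fin 3 → ℝ := fun i => if i = k then h else 1 with hb
  have hsub : {x : Fin 3 → ℝ | (∀ i, |x i| ≤ 1) ∧ |∑ i : Fin 3, x i * z i| ≤ h} ⊆
      f ⁻¹' (Icc (-b) b) := by
    rintro x ⟨h1, h2⟩
    rw [mem_preimage, mem_Icc, Pi.le_def, Pi.le_def, ← forall_and]
    intro i
    rw [Pi.neg_apply, ← abs_le]
    by_cases hi : i = k
    · rw [hi, hfk, hb]
      simpa using h2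
    · rw [hfj x i hi, hb]
      simpa [hi] using h1 i
  refine (measure_mono hsub).trans ?_
  rw [Measure.addHaar_preimage_linearMap volume (by rw [hfdet]; exact hk), hfdet,
    Real.volume_Icc_pi]
  have hprod : ∏ i : Fin 3, ENNReal.ofReal (b i - (-b) i) = ENNReal.ofReal (8 * h) := by
    rw [← ENNReal.ofReal_prod_of_nonneg]
    · congr 1
      rw [Fin.prod_univ_three, hb]
      fin_cases k <;> simp <;> ring
    · intro i _
      rw [Pi.neg_apply, hb]
      simp only
      split_ifs <;> linarith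
  rw [hprod, ← ENNReal.ofReal_mul (abs_nonneg _), abs_inv]
  refine ENNReal.ofReal_le_ofReal (le_of_eq ?_)
  field_simp

theorem slab_vol : ∃ C : ℝ, 0 < C ∧ ∀ (z : V) (h : ℝ), z ≠ 0 → 0 < h →
    volume {ω : V | ‖ω‖ ≤ 1 ∧ |∑ i : Fin 3, ω i * z i| ≤ h} ≤ ENNReal.ofReal (C * h / ‖z‖) := by
  refine ⟨16, by norm_num, fun z h hz hh => ?_⟩
  obtain ⟨k, hk⟩ := Finite.exists_max (fun i => |z i|)
  have hz0 : 0 < ‖z‖ := norm_pos_iff.2 hz
  have hzk : ‖z‖ ≤ 2 * |z k| := by
    refine le_of_sq_le_sq ?_ (by positivity) |> fun h => h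
    rw [nsq]
    have e : ∀ i, z i ^ 2 ≤ |z k| ^ 2 := by
      intro i
      rw [← sq_abs (z i)]
      exact pow_le_pow_left₀ (abs_nonneg _) (hk i) 2
    nlinarith [e 0, e 1, e 2, sq_nonneg (z k)]
  have hzk0 : 0 < |z k| := by linarith
  set S : Set (Fin 3 → ℝ) := {x : Fin 3 → ℝ | (∀ i, |x i| ≤ 1) ∧ |∑ i : Fin 3, x i * z i| ≤ h}
    with hS
  have hSm : MeasurableSet S := by
    have h1 : MeasurableSet {x : Fin 3 → ℝ | ∀ i, |x i| ≤ 1} := by
      rw [ofPred_forall]
      exact MeasurableSet.iInter fun i =>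
        measurableSet_le (((measurable_pi_apply i).norm)) measurable_const
    have h3 : Measurable fun x : Fin 3 → ℝ => |∑ i : Fin 3, x i * z i| :=
      (Finset.measurable_sum _ fun i _ => (measurable_pi_apply i).mul_const _).norm
    exact h1.inter (measurableSet_le h3 measurable_const)
  have hsub : {ω : V | ‖ω‖ ≤ 1 ∧ |∑ i : Fin 3, ω i * z i| ≤ h} ⊆
      (WithLp.ofLp : V → (Fin 3 → ℝ)) ⁻¹' S := by
    rintro ω ⟨h1, h2⟩
    exact ⟨fun i => (Cls.abs_coord ω i).trans h1, h2⟩
  have hvp := (PiLp.volume_preserving_ofLp (Fin 3)).measure_preimage hSm.nullMeasurableSet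
  calc volume {ω : V | ‖ω‖ ≤ 1 ∧ |∑ i : Fin 3, ω i * z i| ≤ h} ≤ _ := measure_mono hsub
    _ = volume S := hvp
    _ ≤ ENNReal.ofReal (8 * h / |z k|) := aom_box (fun i => z i) h hh k (abs_pos.1 hzk0)
    _ ≤ ENNReal.ofReal (16 * h / ‖z‖) := by
        refine ENNReal.ofReal_le_ofReal ?_
        rw [div_le_div_iff₀ hzk0 hz0]
        nlinarith

end Pool.Agent.LandauF
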