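import Pool.Agent.LandauF.AOm

/-!
# LandauF, module APfun: the minimal anisotropy seen from a direction

`PH H ω = √(inf_{‖z‖ = 1} (4 qT H z + 32 |H|² (ω·z)²))`.  It is continuous in `(H, ω)`
(`IsCompact.continuous_sInf` on the unit sphere), `PH H ω² ≤ 4 qT H z/‖z‖⁴ + 32 |H|² (ω·z)²/‖z‖²` for all `z ≠ 0`
(homogeneity), and by `mid_eig` `|qf H ω - lam ‖ω‖²| ≤ PH H ω` on the unit ball, so with `A = H - lam I`
and `quad_avg`: `∫_{B_1} PH H ω ≥ c |H - lam I| ≥ c √(|H|² - (tr H)²/3)` (the minimum over `lam`).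
-/

set_option autoImplicit false

namespace Pool.Agent.LandauF

open MeasureTheory Set Filter Topology Pool.Agent.Landau

/-- the minimal anisotropy seen from the direction `ω` -/
noncomputable def PH (H : Fin 3 → Fin 3 → ℝ) (ω : V) : ℝ :=
  Real.sqrt (sInf ((fun z : V => 4 * qT H z + 32 * hn H * (∑ i : Fin 3, ω i * z i) ^ 2) ''
    Metric.sphere (0 : V) 1))

theorem PH_cont : Continuous (fun q : (Fin 3 → Fin 3 → ℝ) × V => PH q.1 q.2) := by
  unfold PH
  refine Real.continuous_sqrt.comp ?_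
  have hK : IsCompact (Metric.sphere (0 : V) 1) := isCompact_sphere _ _
  refine hK.continuous_sInf (f := fun (q : (Fin 3 → Fin 3 → ℝ) × V) (z : V) =>
    4 * qT q.1 z + 32 * hn q.1 * (∑ i : Fin 3, q.2 i * z i) ^ 2) ?_
  unfold Function.HasUncurry.uncurry Function.hasUncurryInduction Function.hasUncurryBase
  unfold qT hn
  simp only [id]
  fun_prop

/-- the functions minimised are nonnegative -/
theorem apf_nonneg (H : Fin 3 → Fin 3 → ℝ) (hH : ∀ i j, H i j = H j i) (ω z : V) :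
    0 ≤ 4 * qT H z + 32 * hn H * (∑ i : Fin 3, ω i * z i) ^ 2 := by
  have h1 := qT_nonneg H hH z
  have h2 : 0 ≤ hn H := by unfold hn; positivity
  positivity

theorem apf_hom (H : Fin 3 → Fin 3 → ℝ) (z : V) (t : ℝ) (ht : 0 ≤ t) :
    qT H (t • z) = t ^ 4 * qT H z := by
  unfold qT
  rw [norm_smul, Real.norm_eq_abs, abs_of_nonneg ht]
  have e : ∀ j : Fin 3, (t • z) j = t * z j := fun j => rfl
  simp only [e, Fin.sum_univ_three]
  ring

theorem PH_le (H : Fin 3 → Fin 3 → ℝ) (hH : ∀ i j, H i j = H j i) (ω z : V) (hz : z ≠ 0) :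
    PH H ω ^ 2 ≤ 4 * qT H z / ‖z‖ ^ 4 + 32 * hn H * (∑ i : Fin 3, ω i * z i) ^ 2 / ‖z‖ ^ 2 := by
  have hz0 : 0 < ‖z‖ := norm_pos_iff.2 hz
  unfold PH
  rw [Real.sq_sqrt]
  swap
  · apply Real.sInf_nonneg
    rintro x ⟨y, -, rfl⟩
    exact apf_nonneg H hH ω y
  have hmem : ‖z‖⁻¹ • z ∈ Metric.sphere (0 : V) 1 := by
    rw [mem_sphere_zero_iff_norm, norm_smul, norm_inv, norm_norm]
    field_simp
  have hbdd : BddBelow ((fun z : V => 4 * qT H z + 32 * hn H * (∑ i : Fin 3, ω i * z i) ^ 2) ''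
      Metric.sphere (0 : V) 1) := by
    refine ⟨0, ?_⟩
    rintro x ⟨y, -, rfl⟩
    exact apf_nonneg H hH ω y
  refine (csInf_le hbdd (mem_image_of_mem _ hmem)).trans (le_of_eq ?_)
  · simp only
    rw [apf_hom H z _ (by positivity)]
    have e : ∀ j : Fin 3, (‖z‖⁻¹ • z) j = ‖z‖⁻¹ * z j := fun j => rfl
    simp only [e, Fin.sum_univ_three]
    field_simp

/-- the lower bound by the middle eigenvalue -/
theorem apf_low (H : Fin 3 → Fin 3 → ℝ) (hH : ∀ i j, H i j = H j i) :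
    ∃ lam : ℝ, ∀ ω : V, ‖ω‖ ≤ 1 → |qf H ω - lam * ‖ω‖ ^ 2| ≤ PH H ω := by
  obtain ⟨lam, hl⟩ := mid_eig H hH
  refine ⟨lam, fun ω hω => ?_⟩
  unfold PH
  apply Real.abs_le_sqrt
  apply le_csInf
  · refine ((NormedSpace.sphere_nonempty (E := V) (x := 0) (r := 1)).2 zero_le_one).image _
  · rintro x ⟨z, hz, rfl⟩
    have hz1 : ‖z‖ = 1 := by simpa using hz
    have hz0 : z ≠ 0 := by
      intro h
      rw [h, norm_zero] at hz1
      exact zero_ne_one hz1
    have := hl z ω hz0 hω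
    rw [hz1] at this
    simpa using this

theorem PH_avg : ∃ c : ℝ, 0 < c ∧ ∀ H : Fin 3 → Fin 3 → ℝ, (∀ i j, H i j = H j i) →
    c * Real.sqrt (hn H - (1 / 3) * (∑ i : Fin 3, H i i) ^ 2) ≤
      ∫ ω in Metric.closedBall (0 : V) 1, PH H ω := by
  obtain ⟨c, hc, hq⟩ := quad_avg
  refine ⟨c, hc, fun H hH => ?_⟩
  obtain ⟨lam, hl⟩ := apf_low H hH
  set A : Fin 3 → Fin 3 → ℝ := fun i j => H i j - lam * (if i = j then 1 else 0) with hA
  have n01 : ¬ ((0 : Fin 3) = 1) := by decide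
  have n02 : ¬ ((0 : Fin 3) = 2) := by decide
  have n10 : ¬ ((1 : Fin 3) = 0) := by decide
  have n12 : ¬ ((1 : Fin 3) = 2) := by decide
  have n20 : ¬ ((2 : Fin 3) = 0) := by decide
  have n21 : ¬ ((2 : Fin 3) = 1) := by decide
  have hAs : ∀ i j, A i j = A j i := by
    intro i j
    simp only [hA, hH i j, eq_comm]
  have hqf : ∀ ω : V, qf A ω = qf H ω - lam * ‖ω‖ ^ 2 := by
    intro ω
    have hn2 : ‖ω‖ ^ 2 = ω 0 ^ 2 + ω 1 ^ 2 + ω 2 ^ 2 := by
      rw [EuclideanSpace.norm_eq, Real.sq_sqrt (by positivity)]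
      simp only [Fin.sum_univ_three, Real.norm_eq_abs, sq_abs]
    rw [hn2]
    unfold qf
    simp only [hA, Fin.sum_univ_three, if_true, n01, n02, n10, n12, n20, n21, if_false]
    ring
  have hnA : hn H - (1 / 3) * (∑ i : Fin 3, H i i) ^ 2 ≤ hn A := by
    unfold hn
    simp only [hA, Fin.sum_univ_three, if_true, n01, n02, n10, n12, n20, n21, if_false]
    nlinarith [sq_nonneg (H 0 0 + H 1 1 + H 2 2 - 3 * lam)]
  calc c * Real.sqrt (hn H - (1 / 3) * (∑ i : Fin 3, H i i) ^ 2)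
      ≤ c * Real.sqrt (hn A) :=
        mul_le_mul_of_nonneg_left (Real.sqrt_le_sqrt hnA) hc.le
    _ ≤ ∫ ω in Metric.closedBall (0 : V) 1, |qf A ω| := hq A hAs
    _ ≤ ∫ ω in Metric.closedBall (0 : V) 1, PH H ω := by
        apply setIntegral_mono_on
        · exact (aom_cont.comp (Continuous.prodMk_right A)).continuousOn.integrableOn_compact
            (isCompact_closedBall _ _)
        · exact (PH_cont.comp (Continuous.prodMk_right H)).continuousOn.integrableOn_compact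
            (isCompact_closedBall _ _)
        · exact measurableSet_closedBall
        · intro ω hω
          rw [hqf]
          exact hl ω (by simpa using hω)

end Pool.Agent.LandauF
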