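import Pool.Agent.LandauF.FDefs

/-!
# LandauF, module AQuad: quadratic forms in dimension three

`qT H z = r⁴ |(Π H Π)₀|²` (`Π` the projection orthogonal to `z`, `r = ‖z‖`): for `‖z‖ = 1` it is `½ (μ₁ - μ₂)²`, `μ₁ ≤ μ₂` the
eigenvalues of the quadratic form restricted to `z^⊥`.
`mid_eig`: let `lam` be the middle eigenvalue of `H` (orthonormal eigenbasis `e₀, e₁, e₂`,
`lam₀ ≤ lam₁ ≤ lam₂`, `lam = lam₁`).  The plane `z^⊥` contains a unit vector of `span(e₀, e₁)`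
(`(z·e₁) e₀ - (z·e₀) e₁` normalised, or `e₀`) and one of `span(e₁, e₂)`, so `μ₁ ≤ lam ≤ μ₂` and
`|ω'·Hω' - lam |ω'|²| ≤ |ω'|² (μ₂ - μ₁)` for `ω' ⊥ z`.  For general `ω`, `|ω| ≤ 1`, write
`ω = ω' + t ẑ`: the difference is at most `4 |t| |H|`.  So the square is `≤ 2 (μ₂-μ₁)² + 32 t² |H|²`
`= 4 qT/r⁴ + 32 (ω·z)² |H|²/r²`.

The proof below avoids the spectral theorem: `lam` is the supremum of the lower eigenvalues `μ₁`
of all planes (two planes have a common unit vector, so it is at most every `μ₂`).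
-/

set_option autoImplicit false

namespace Pool.Agent.LandauF

open MeasureTheory Set Filter Topology Pool.Agent.Landau

/-- `r⁴ |(Π H Π)₀|²` -/
noncomputable def qT (H : Fin 3 → Fin 3 → ℝ) (z : V) : ℝ :=
  ‖z‖ ^ 4 * (∑ i : Fin 3, ∑ j : Fin 3, H i j ^ 2)
    - 2 * ‖z‖ ^ 2 * (∑ i : Fin 3, (∑ j : Fin 3, H i j * z j) ^ 2)
    + (∑ i : Fin 3, (∑ j : Fin 3, H i j * z j) * z i) ^ 2
    - (1 / 2) * (‖z‖ ^ 2 * (∑ i : Fin 3, H i i)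
      - ∑ i : Fin 3, (∑ j : Fin 3, H i j * z j) * z i) ^ 2

/-- the quadratic form -/
noncomputable def qf (H : Fin 3 → Fin 3 → ℝ) (x : V) : ℝ :=
  ∑ i : Fin 3, ∑ j : Fin 3, H i j * x i * x j

/-- squared norm of a matrix -/
noncomputable def hn (H : Fin 3 → Fin 3 → ℝ) : ℝ := ∑ i : Fin 3, ∑ j : Fin 3, H i j ^ 2

theorem TQ_eq (g : V → ℝ) (v w : V) : TQ g v w = qT (fun i j => hs g i j v) (v - w) := by
  simp only [TQ, qT, h2, hz, zhz, trh, PiLp.sub_apply]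

section aux

/-- the sum of squares identity behind `qT_nonneg` -/
private lemma sos (A B C D E F a b c R p q s k t : ℝ) (hR : R = a ^ 2 + b ^ 2 + c ^ 2)
    (hp : p = A * a + B * b + C * c) (hq : q = B * a + D * b + E * c)
    (hs : s = C * a + E * b + F * c) (hk : k = p * a + q * b + s * c)
    (ht : t = R * (A + D + F) - k) :
    R ^ 2 * (R ^ 2 * (A ^ 2 + B ^ 2 + C ^ 2 + (B ^ 2 + D ^ 2 + E ^ 2) + (C ^ 2 + E ^ 2 + F ^ 2))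
      - 2 * R * (p ^ 2 + q ^ 2 + s ^ 2) + k ^ 2 - (1 / 2) * t ^ 2)
    = (R ^ 2 * A - R * (a * p) - R * (p * a) + a * a * k - (1 / 2) * t * (R - a * a)) ^ 2
      + (R ^ 2 * D - R * (b * q) - R * (q * b) + b * b * k - (1 / 2) * t * (R - b * b)) ^ 2
      + (R ^ 2 * F - R * (c * s) - R * (s * c) + c * c * k - (1 / 2) * t * (R - c * c)) ^ 2
      + 2 * (R ^ 2 * B - R * (a * q) - R * (p * b) + a * b * k + (1 / 2) * t * (a * b)) ^ 2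
      + 2 * (R ^ 2 * C - R * (a * s) - R * (p * c) + a * c * k + (1 / 2) * t * (a * c)) ^ 2
      + 2 * (R ^ 2 * E - R * (b * s) - R * (q * c) + b * c * k + (1 / 2) * t * (b * c)) ^ 2 := by
  subst ht hk hp hq hs hR
  ring

private lemma cs6 (m1 m2 m3 m4 m5 m6 n1 n2 n3 n4 n5 n6 : ℝ) :
    (m1 * n1 + m2 * n2 + m3 * n3 + 2 * (m4 * n4) + 2 * (m5 * n5) + 2 * (m6 * n6)) ^ 2 ≤
      (m1 ^ 2 + m2 ^ 2 + m3 ^ 2 + 2 * m4 ^ 2 + 2 * m5 ^ 2 + 2 * m6 ^ 2) *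
      (n1 ^ 2 + n2 ^ 2 + n3 ^ 2 + 2 * n4 ^ 2 + 2 * n5 ^ 2 + 2 * n6 ^ 2) := by
  have h := Finset.sum_mul_sq_le_sq_mul_sq (Finset.univ : Finset (Fin 9))
    ![m1, m2, m3, m4, m4, m5, m5, m6, m6] ![n1, n2, n3, n4, n4, n5, n5, n6, n6]
  simp only [Fin.sum_univ_succ, Matrix.cons_val_zero, Matrix.cons_val_succ, Fin.sum_univ_zero] at h
  calc _ = _ := ?_
    _ ≤ _ := h
    _ = _ := ?_
  · ring
  · ring

private lemma pairing (A B C D E F a b c x y w R p q s k t n : ℝ)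
    (hxz : a * x + b * y + c * w = 0) (hR : R = a ^ 2 + b ^ 2 + c ^ 2)
    (hp : p = A * a + B * b + C * c) (hq : q = B * a + D * b + E * c)
    (hs : s = C * a + E * b + F * c) (hk : k = p * a + q * b + s * c)
    (ht : t = R * (A + D + F) - k) (hn : n = x ^ 2 + y ^ 2 + w ^ 2) :
    (R ^ 2 * A - R * (a * p) - R * (p * a) + a * a * k - (1 / 2) * t * (R - a * a))
      * (R * (x * x) - (1 / 2) * n * (R - a * a))
      + (R ^ 2 * D - R * (b * q) - R * (q * b) + b * b * k - (1 / 2) * t * (R - b * b))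
      * (R * (y * y) - (1 / 2) * n * (R - b * b))
      + (R ^ 2 * F - R * (c * s) - R * (s * c) + c * c * k - (1 / 2) * t * (R - c * c))
      * (R * (w * w) - (1 / 2) * n * (R - c * c))
      + 2 * ((R ^ 2 * B - R * (a * q) - R * (p * b) + a * b * k + (1 / 2) * t * (a * b))
      * (R * (x * y) + (1 / 2) * n * (a * b)))
      + 2 * ((R ^ 2 * C - R * (a * s) - R * (p * c) + a * c * k + (1 / 2) * t * (a * c))
      * (R * (x * w) + (1 / 2) * n * (a * c)))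
      + 2 * ((R ^ 2 * E - R * (b * s) - R * (q * c) + b * c * k + (1 / 2) * t * (b * c))
      * (R * (y * w) + (1 / 2) * n * (b * c)))
      = R ^ 2 * (R * (A * x ^ 2 + D * y ^ 2 + F * w ^ 2 + 2 * B * x * y + 2 * C * x * w
        + 2 * E * y * w) - (1 / 2) * t * n) := by
  subst ht hk hp hq hs hR hn
  linear_combination ((a ^ 2 + b ^ 2 + c ^ 2) * (-2 * (a ^ 2 + b ^ 2 + c ^ 2) *
    (x * (A * a + B * b + C * c) + y * (B * a + D * b + E * c) + w * (C * a + E * b + F * c))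
    + (a * x + b * y + c * w) * ((A * a + B * b + C * c) * a + (B * a + D * b + E * c) * b
      + (C * a + E * b + F * c) * c)
    + (1 / 2) * ((a ^ 2 + b ^ 2 + c ^ 2) * (A + D + F) - ((A * a + B * b + C * c) * a
      + (B * a + D * b + E * c) * b + (C * a + E * b + F * c) * c))
      * (a * x + b * y + c * w))) * hxz

private lemma normsq (a b c x y w R n : ℝ)
    (hxz : a * x + b * y + c * w = 0) (hR : R = a ^ 2 + b ^ 2 + c ^ 2)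
    (hn : n = x ^ 2 + y ^ 2 + w ^ 2) :
    (R * (x * x) - (1 / 2) * n * (R - a * a)) ^ 2
      + (R * (y * y) - (1 / 2) * n * (R - b * b)) ^ 2
      + (R * (w * w) - (1 / 2) * n * (R - c * c)) ^ 2
      + 2 * (R * (x * y) + (1 / 2) * n * (a * b)) ^ 2
      + 2 * (R * (x * w) + (1 / 2) * n * (a * c)) ^ 2
      + 2 * (R * (y * w) + (1 / 2) * n * (b * c)) ^ 2 = (1 / 2) * R ^ 2 * n ^ 2 := by
  subst hR hn
  linear_combination ((a ^ 2 + b ^ 2 + c ^ 2) * (x ^ 2 + y ^ 2 + w ^ 2)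
    * (a * x + b * y + c * w)) * hxz

/-- the restricted form: `|q(x) - m |x|²| ≤ d |x|²` for `x ⊥ z` -/
private lemma keyA (A B C D E F a b c x y w R p q s k t n : ℝ)
    (hxz : a * x + b * y + c * w = 0) (hR : R = a ^ 2 + b ^ 2 + c ^ 2)
    (hp : p = A * a + B * b + C * c) (hq : q = B * a + D * b + E * c)
    (hs : s = C * a + E * b + F * c) (hk : k = p * a + q * b + s * c)
    (ht : t = R * (A + D + F) - k) (hn : n = x ^ 2 + y ^ 2 + w ^ 2) (hR0 : 0 < R) :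
    (R * (A * x ^ 2 + D * y ^ 2 + F * w ^ 2 + 2 * B * x * y + 2 * C * x * w + 2 * E * y * w)
      - (1 / 2) * t * n) ^ 2 ≤
    (1 / 2) * (R ^ 2 * (A ^ 2 + B ^ 2 + C ^ 2 + (B ^ 2 + D ^ 2 + E ^ 2) + (C ^ 2 + E ^ 2 + F ^ 2))
      - 2 * R * (p ^ 2 + q ^ 2 + s ^ 2) + k ^ 2 - (1 / 2) * t ^ 2) * n ^ 2 := by
  have hcs := cs6
    (R ^ 2 * A - R * (a * p) - R * (p * a) + a * a * k - (1 / 2) * t * (R - a * a))
    (R ^ 2 * D - R * (b * q) - R * (q * b) + b * b * k - (1 / 2) * t * (R - b * b))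
    (R ^ 2 * F - R * (c * s) - R * (s * c) + c * c * k - (1 / 2) * t * (R - c * c))
    (R ^ 2 * B - R * (a * q) - R * (p * b) + a * b * k + (1 / 2) * t * (a * b))
    (R ^ 2 * C - R * (a * s) - R * (p * c) + a * c * k + (1 / 2) * t * (a * c))
    (R ^ 2 * E - R * (b * s) - R * (q * c) + b * c * k + (1 / 2) * t * (b * c))
    (R * (x * x) - (1 / 2) * n * (R - a * a))
    (R * (y * y) - (1 / 2) * n * (R - b * b))
    (R * (w * w) - (1 / 2) * n * (R - c * c))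
    (R * (x * y) + (1 / 2) * n * (a * b))
    (R * (x * w) + (1 / 2) * n * (a * c))
    (R * (y * w) + (1 / 2) * n * (b * c))
  rw [← sos A B C D E F a b c R p q s k t hR hp hq hs hk ht,
    pairing A B C D E F a b c x y w R p q s k t n hxz hR hp hq hs hk ht hn,
    normsq a b c x y w R n hxz hR hn] at hcs
  have hR4 : 0 < R ^ 4 := by positivity
  refine le_of_mul_le_mul_left ?_ hR4
  calc R ^ 4 * _ = _ := ?_
    _ ≤ _ := hcs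
    _ = _ := ?_
  · ring
  · ring

private lemma keyN (a b c R p q s k : ℝ) (hR : R = a ^ 2 + b ^ 2 + c ^ 2)
    (hk : k = p * a + q * b + s * c) : k ^ 2 ≤ R * (p ^ 2 + q ^ 2 + s ^ 2) := by
  subst hk hR
  nlinarith [sq_nonneg (a * q - b * p), sq_nonneg (a * s - c * p), sq_nonneg (b * s - c * q)]

end aux

/-- the trace of the restricted form, times `‖z‖²` -/
private noncomputable def ta (H : Fin 3 → Fin 3 → ℝ) (z : V) : ℝ :=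
  ‖z‖ ^ 2 * (∑ i : Fin 3, H i i) - ∑ i : Fin 3, (∑ j : Fin 3, H i j * z j) * z i

private lemma nsq (z : V) : ‖z‖ ^ 2 = z 0 ^ 2 + z 1 ^ 2 + z 2 ^ 2 := by
  rw [EuclideanSpace.real_norm_sq_eq, Fin.sum_univ_three]

private lemma ksym (H : Fin 3 → Fin 3 → ℝ) (hH : ∀ i j, H i j = H j i) :
    H 1 0 = H 0 1 ∧ H 2 0 = H 0 2 ∧ H 2 1 = H 1 2 := ⟨hH _ _, hH _ _, hH _ _⟩

private lemma qT_exp (H : Fin 3 → Fin 3 → ℝ) (hH : ∀ i j, H i j = H j i) (z : V)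
    (R p q s k t : ℝ) (hR : R = z 0 ^ 2 + z 1 ^ 2 + z 2 ^ 2)
    (hp : p = H 0 0 * z 0 + H 0 1 * z 1 + H 0 2 * z 2)
    (hq : q = H 0 1 * z 0 + H 1 1 * z 1 + H 1 2 * z 2)
    (hs : s = H 0 2 * z 0 + H 1 2 * z 1 + H 2 2 * z 2)
    (hk : k = p * z 0 + q * z 1 + s * z 2)
    (ht : t = R * (H 0 0 + H 1 1 + H 2 2) - k) :
    qT H z = R ^ 2 * (H 0 0 ^ 2 + H 0 1 ^ 2 + H 0 2 ^ 2 + (H 0 1 ^ 2 + H 1 1 ^ 2 + H 1 2 ^ 2)
      + (H 0 2 ^ 2 + H 1 2 ^ 2 + H 2 2 ^ 2)) - 2 * R * (p ^ 2 + q ^ 2 + s ^ 2) + k ^ 2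
      - (1 / 2) * t ^ 2 := by
  obtain ⟨h1, h2, h3⟩ := ksym H hH
  have h4 : ‖z‖ ^ 4 = R ^ 2 := by
    rw [hR, ← nsq]; ring
  have h5 : ‖z‖ ^ 2 = R := by rw [hR, ← nsq]
  simp only [qT, h4, h5, Fin.sum_univ_three, h1, h2, h3]
  rw [← hp, ← hq, ← hs, ← hk, ← ht]

private lemma ta_exp (H : Fin 3 → Fin 3 → ℝ) (hH : ∀ i j, H i j = H j i) (z : V)
    (R p q s k t : ℝ) (hR : R = z 0 ^ 2 + z 1 ^ 2 + z 2 ^ 2)
    (hp : p = H 0 0 * z 0 + H 0 1 * z 1 + H 0 2 * z 2)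
    (hq : q = H 0 1 * z 0 + H 1 1 * z 1 + H 1 2 * z 2)
    (hs : s = H 0 2 * z 0 + H 1 2 * z 1 + H 2 2 * z 2)
    (hk : k = p * z 0 + q * z 1 + s * z 2)
    (ht : t = R * (H 0 0 + H 1 1 + H 2 2) - k) : ta H z = t := by
  obtain ⟨h1, h2, h3⟩ := ksym H hH
  have h5 : ‖z‖ ^ 2 = R := by rw [hR, ← nsq]
  simp only [ta, h5, Fin.sum_univ_three, h1, h2, h3]
  rw [← hp, ← hq, ← hs, ← hk, ← ht]

theorem qT_nonneg (H : Fin 3 → Fin 3 → ℝ) (hH : ∀ i j, H i j = H j i) (z : V) : 0 ≤ qT H z := by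
  rw [qT_exp H hH z _ _ _ _ _ _ rfl rfl rfl rfl rfl rfl]
  by_cases hz : z = 0
  · subst hz
    simp
  · have hR : 0 < z 0 ^ 2 + z 1 ^ 2 + z 2 ^ 2 := by
      rw [← nsq]; have := norm_pos_iff.2 hz; positivity
    have h := sos (H 0 0) (H 0 1) (H 0 2) (H 1 1) (H 1 2) (H 2 2) (z 0) (z 1) (z 2)
      _ _ _ _ _ _ rfl rfl rfl rfl rfl rfl
    refine le_of_mul_le_mul_left ?_ (by positivity : 0 < (z 0 ^ 2 + z 1 ^ 2 + z 2 ^ 2) ^ 2)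
    rw [h, mul_zero]
    positivity

private lemma rq (H : Fin 3 → Fin 3 → ℝ) (hH : ∀ i j, H i j = H j i) (z x : V) (hz : z ≠ 0)
    (hxz : z 0 * x 0 + z 1 * x 1 + z 2 * x 2 = 0) :
    (‖z‖ ^ 2 * qf H x - (1 / 2) * ta H z * ‖x‖ ^ 2) ^ 2 ≤ (1 / 2) * qT H z * (‖x‖ ^ 2) ^ 2 := by
  have hR : 0 < z 0 ^ 2 + z 1 ^ 2 + z 2 ^ 2 := by
    rw [← nsq]; have := norm_pos_iff.2 hz; positivity
  have h := keyA (H 0 0) (H 0 1) (H 0 2) (H 1 1) (H 1 2) (H 2 2) (z 0) (z 1) (z 2)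
    (x 0) (x 1) (x 2) _ _ _ _ _ _ _ hxz rfl rfl rfl rfl rfl rfl rfl hR
  rw [← qT_exp H hH z _ _ _ _ _ _ rfl rfl rfl rfl rfl rfl,
    ← ta_exp H hH z _ _ _ _ _ _ rfl rfl rfl rfl rfl rfl, ← nsq, ← nsq] at h
  have e : qf H x = H 0 0 * x 0 ^ 2 + H 1 1 * x 1 ^ 2 + H 2 2 * x 2 ^ 2 + 2 * H 0 1 * x 0 * x 1
      + 2 * H 0 2 * x 0 * x 2 + 2 * H 1 2 * x 1 * x 2 := by
    obtain ⟨h1, h2, h3⟩ := ksym H hH
    simp only [qf, Fin.sum_univ_three, h1, h2, h3]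
    ring
  rw [e]
  exact h

private noncomputable def mm (H : Fin 3 → Fin 3 → ℝ) (z : V) : ℝ := ta H z / (2 * ‖z‖ ^ 2)

private noncomputable def dd (H : Fin 3 → Fin 3 → ℝ) (z : V) : ℝ :=
  Real.sqrt (qT H z / 2) / ‖z‖ ^ 2

private lemma dd_nonneg (H : Fin 3 → Fin 3 → ℝ) (z : V) : 0 ≤ dd H z := by
  unfold dd; positivity

private lemma dd_sq (H : Fin 3 → Fin 3 → ℝ) (hH : ∀ i j, H i j = H j i) (z : V) :
    dd H z ^ 2 = qT H z / 2 / ‖z‖ ^ 4 := by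
  have h := qT_nonneg H hH z
  unfold dd
  rw [div_pow, Real.sq_sqrt (by positivity)]
  ring

private lemma rq' (H : Fin 3 → Fin 3 → ℝ) (hH : ∀ i j, H i j = H j i) (z x : V) (hz : z ≠ 0)
    (hxz : z 0 * x 0 + z 1 * x 1 + z 2 * x 2 = 0) :
    |qf H x - mm H z * ‖x‖ ^ 2| ≤ dd H z * ‖x‖ ^ 2 := by
  have hr : 0 < ‖z‖ := norm_pos_iff.2 hz
  apply abs_le_of_sq_le_sq _ (mul_nonneg (dd_nonneg H z) (by positivity))
  rw [mul_pow, dd_sq H hH z]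
  have h := rq H hH z x hz hxz
  have e : qf H x - mm H z * ‖x‖ ^ 2 =
      (‖z‖ ^ 2 * qf H x - (1 / 2) * ta H z * ‖x‖ ^ 2) / ‖z‖ ^ 2 := by
    unfold mm
    field_simp
  rw [e, div_pow, div_le_iff₀ (by positivity)]
  calc _ ≤ _ := h
    _ = _ := ?_
  field_simp

private lemma exists_common (z z' : V) : ∃ x : V, x ≠ 0 ∧
    z 0 * x 0 + z 1 * x 1 + z 2 * x 2 = 0 ∧ z' 0 * x 0 + z' 1 * x 1 + z' 2 * x 2 = 0 := by
  let f : V →ₗ[ℝ] (Fin 2 → ℝ) := LinearMap.pi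
    ![(innerₛₗ ℝ z : V →ₗ[ℝ] ℝ), (innerₛₗ ℝ z' : V →ₗ[ℝ] ℝ)]
  have hker : LinearMap.ker f ≠ ⊥ := by
    apply LinearMap.ker_ne_bot_of_finrank_lt
    simp
  obtain ⟨x, hx, hx0⟩ := Submodule.exists_mem_ne_zero_of_ne_bot hker
  have h0 := congrFun (LinearMap.mem_ker.1 hx) 0
  have h1 := congrFun (LinearMap.mem_ker.1 hx) 1
  refine ⟨x, hx0, ?_, ?_⟩
  · simp only [f, LinearMap.pi_apply, Matrix.cons_val_zero, innerₛₗ_apply_apply, Pi.zero_apply,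
      PiLp.inner_apply, Fin.sum_univ_three, RCLike.inner_apply, conj_trivial] at h0
    linarith
  · simp only [f, LinearMap.pi_apply, Matrix.cons_val_one, innerₛₗ_apply_apply, Pi.zero_apply,
      PiLp.inner_apply, Fin.sum_univ_three, RCLike.inner_apply, conj_trivial,
      Matrix.cons_val_fin_one] at h1
    linarith

private lemma cross_le (H : Fin 3 → Fin 3 → ℝ) (hH : ∀ i j, H i j = H j i) (z z' : V)
    (hz : z ≠ 0) (hz' : z' ≠ 0) : mm H z - dd H z ≤ mm H z' + dd H z' := by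
  obtain ⟨x, hx, h1, h2⟩ := exists_common z z'
  have hx2 : 0 < ‖x‖ ^ 2 := by have := norm_pos_iff.2 hx; positivity
  have a1 := (abs_le.1 (rq' H hH z x hz h1)).1
  have a2 := (abs_le.1 (rq' H hH z' x hz' h2)).2
  refine le_of_mul_le_mul_right ?_ hx2
  nlinarith

private lemma cs_H (H : Fin 3 → Fin 3 → ℝ) (z x : V) :
    (∑ i : Fin 3, (∑ j : Fin 3, H i j * z j) * x i) ^ 2 ≤ hn H * ‖z‖ ^ 2 * ‖x‖ ^ 2 := by
  have h := Finset.sum_mul_sq_le_sq_mul_sq (Finset.univ : Finset (Fin 3 × Fin 3))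
    (fun p => H p.1 p.2) (fun p => x p.1 * z p.2)
  rw [Fintype.sum_prod_type, Fintype.sum_prod_type, Fintype.sum_prod_type] at h
  calc _ = _ := ?_
    _ ≤ _ := h
    _ = _ := ?_
  · simp only [Fin.sum_univ_three]; ring
  · rw [nsq, nsq]; simp only [hn, Fin.sum_univ_three]; ring

private lemma hn_nonneg (H : Fin 3 → Fin 3 → ℝ) : 0 ≤ hn H := by unfold hn; positivity

private lemma md_le (H : Fin 3 → Fin 3 → ℝ) (hH : ∀ i j, H i j = H j i) (z : V) (hz : z ≠ 0) :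
    |mm H z| + dd H z ≤ Real.sqrt (hn H) := by
  have hr : 0 < ‖z‖ := norm_pos_iff.2 hz
  apply Real.le_sqrt_of_sq_le
  have h1 : (|mm H z| + dd H z) ^ 2 ≤ 2 * (mm H z ^ 2 + dd H z ^ 2) := by
    rw [← sq_abs (mm H z)]
    nlinarith [sq_nonneg (|mm H z| - dd H z)]
  refine h1.trans ?_
  rw [dd_sq H hH]
  have e : 2 * (mm H z ^ 2 + qT H z / 2 / ‖z‖ ^ 4) =
      (qT H z + (1 / 2) * ta H z ^ 2) / ‖z‖ ^ 4 := by
    unfold mm
    field_simp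
    ring
  rw [e, div_le_iff₀ (by positivity)]
  rw [qT_exp H hH z _ _ _ _ _ _ rfl rfl rfl rfl rfl rfl,
    ta_exp H hH z _ _ _ _ _ _ rfl rfl rfl rfl rfl rfl]
  have h4 : ‖z‖ ^ 4 = (z 0 ^ 2 + z 1 ^ 2 + z 2 ^ 2) ^ 2 := by rw [← nsq]; ring
  have hN := keyN (z 0) (z 1) (z 2) _
    (H 0 0 * z 0 + H 0 1 * z 1 + H 0 2 * z 2) (H 0 1 * z 0 + H 1 1 * z 1 + H 1 2 * z 2)
    (H 0 2 * z 0 + H 1 2 * z 1 + H 2 2 * z 2) _ rfl rfl
  have hhn : hn H = (H 0 0 ^ 2 + H 0 1 ^ 2 + H 0 2 ^ 2 + (H 0 1 ^ 2 + H 1 1 ^ 2 + H 1 2 ^ 2)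
      + (H 0 2 ^ 2 + H 1 2 ^ 2 + H 2 2 ^ 2)) := by
    obtain ⟨h1, h2, h3⟩ := ksym H hH
    simp only [hn, Fin.sum_univ_three, h1, h2, h3]
  rw [h4, hhn]
  have hP : 0 ≤ (z 0 ^ 2 + z 1 ^ 2 + z 2 ^ 2) *
    ((H 0 0 * z 0 + H 0 1 * z 1 + H 0 2 * z 2) ^ 2 + (H 0 1 * z 0 + H 1 1 * z 1 + H 1 2 * z 2) ^ 2
      + (H 0 2 * z 0 + H 1 2 * z 1 + H 2 2 * z 2) ^ 2) := by positivity
  linarith

private lemma hE_alg (t v1 v2 lam N : ℝ) (hta : |t| ≤ 1) (hN0 : 0 ≤ N) (b1 : |v1| ≤ N)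
    (b2 : |v2| ≤ N) (hl : |lam| ≤ N) :
    (2 * (t * v1) + t * (t * v2) - t * (t * lam)) ^ 2 ≤ 16 * N ^ 2 * t ^ 2 := by
  have c0 : ∀ y : ℝ, |y| ≤ N → |t * y| ≤ |t| * N := by
    intro y hy
    rw [abs_mul]
    exact mul_le_mul_of_nonneg_left hy (abs_nonneg t)
  have c1 := c0 _ b1
  have c3 : ∀ y : ℝ, |y| ≤ N → |t * y| ≤ N := by
    intro y hy
    refine (c0 y hy).trans ?_
    nlinarith
  have c2 := c0 _ (c3 _ b2)
  have c4 := c0 _ (c3 _ hl)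
  have habs : |2 * (t * v1) + t * (t * v2) - t * (t * lam)| ≤ 4 * (|t| * N) := by
    rw [abs_le] at c1 c2 c4 ⊢
    constructor <;> linarith [c1.1, c1.2, c2.1, c2.2, c4.1, c4.2]
  rw [← sq_abs]
  calc _ ≤ (4 * (|t| * N)) ^ 2 := pow_le_pow_left₀ (abs_nonneg _) habs 2
    _ = 16 * N ^ 2 * |t| ^ 2 := by ring
    _ = _ := by rw [sq_abs]

private lemma hA_alg (X m lam d n : ℝ) (h : |X - m * n| ≤ d * n) (hl1 : m - d ≤ lam)
    (hl2 : lam ≤ m + d) (hd : 0 ≤ d) (hn0 : 0 ≤ n) (hn1 : n ≤ 1) :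
    (X - lam * n) ^ 2 ≤ 4 * d ^ 2 := by
  have r1 := abs_le.1 h
  have habs : |X - lam * n| ≤ 2 * d := by
    have g1 : (m - lam) * n ≤ d * n := mul_le_mul_of_nonneg_right (by linarith) hn0
    have g2 : -d * n ≤ (m - lam) * n := mul_le_mul_of_nonneg_right (by linarith) hn0
    have g3 : d * n ≤ d * 1 := mul_le_mul_of_nonneg_left hn1 hd
    rw [abs_le]
    constructor <;> nlinarith [r1.1, r1.2]
  rw [← sq_abs]
  calc _ ≤ (2 * d) ^ 2 := pow_le_pow_left₀ (abs_nonneg _) habs 2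
    _ = _ := by ring

private lemma fin_alg (X Y a b : ℝ) (h1 : X ^ 2 ≤ a) (h2 : Y ^ 2 ≤ b) :
    (X + Y) ^ 2 ≤ 2 * a + 2 * b := by nlinarith [sq_nonneg (X - Y)]

/-- the middle eigenvalue -/
theorem mid_eig (H : Fin 3 → Fin 3 → ℝ) (hH : ∀ i j, H i j = H j i) :
    ∃ lam : ℝ, ∀ z ω : V, z ≠ 0 → ‖ω‖ ≤ 1 →
      (qf H ω - lam * ‖ω‖ ^ 2) ^ 2 ≤ 4 * qT H z / ‖z‖ ^ 4
        + 32 * hn H * (∑ i : Fin 3, ω i * z i) ^ 2 / ‖z‖ ^ 2 := by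
  have hne : Nonempty {z : V // z ≠ 0} := by
    obtain ⟨z, hz⟩ := exists_ne (0 : V)
    exact ⟨⟨z, hz⟩⟩
  have hbdd : BddAbove (Set.range (fun z : {z : V // z ≠ 0} => mm H z - dd H z)) := by
    obtain ⟨z', hz'⟩ := exists_ne (0 : V)
    refine ⟨mm H z' + dd H z', ?_⟩
    rintro _ ⟨z, rfl⟩
    exact cross_le H hH z z' z.2 hz'
  refine ⟨⨆ z : {z : V // z ≠ 0}, (mm H z - dd H z), ?_⟩
  set lam := ⨆ z : {z : V // z ≠ 0}, (mm H z - dd H z) with hlam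
  intro z ω hz hω
  have hr : 0 < ‖z‖ := norm_pos_iff.2 hz
  have hl1 : mm H z - dd H z ≤ lam := le_ciSup hbdd (⟨z, hz⟩ : {z : V // z ≠ 0})
  have hl2 : lam ≤ mm H z + dd H z := ciSup_le (fun z' => cross_le H hH z' z z'.2 hz)
  have hmd := md_le H hH z hz
  set N := Real.sqrt (hn H) with hN
  have hN0 : 0 ≤ N := Real.sqrt_nonneg _
  have hN2 : N ^ 2 = hn H := Real.sq_sqrt (hn_nonneg H)
  have hlN : |lam| ≤ N := by
    rw [abs_le]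
    constructor
    · have := neg_abs_le (mm H z); linarith
    · have := le_abs_self (mm H z); linarith
  set sg := ∑ i : Fin 3, ω i * z i with hsg
  set t := sg / ‖z‖ with ht
  set ω' : V := ω - (sg / ‖z‖ ^ 2) • z with hω'
  have hco : ∀ i, ω' i = ω i - sg / ‖z‖ ^ 2 * z i := by
    intro i; simp [hω']
  have hort : z 0 * ω' 0 + z 1 * ω' 1 + z 2 * ω' 2 = 0 := by
    rw [hco, hco, hco]
    have : z 0 * (ω 0 - sg / ‖z‖ ^ 2 * z 0) + z 1 * (ω 1 - sg / ‖z‖ ^ 2 * z 1)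
        + z 2 * (ω 2 - sg / ‖z‖ ^ 2 * z 2) = sg - sg / ‖z‖ ^ 2 * ‖z‖ ^ 2 := by
      rw [nsq z, hsg, Fin.sum_univ_three]; ring
    rw [this]; field_simp; ring
  have hn' : ‖ω‖ ^ 2 = ‖ω'‖ ^ 2 + t ^ 2 := by
    have h1 : ‖ω‖ ^ 2 = ‖ω'‖ ^ 2 + 2 * (sg / ‖z‖ ^ 2) * (z 0 * ω' 0 + z 1 * ω' 1 + z 2 * ω' 2)
        + (sg / ‖z‖ ^ 2) ^ 2 * ‖z‖ ^ 2 := by
      rw [hco, hco, hco, nsq ω', nsq ω, hco, hco, hco]
      linear_combination (-((sg / ‖z‖ ^ 2) ^ 2)) * nsq z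
    rw [h1, hort, ht]
    field_simp
    ring
  set u1 := ∑ i : Fin 3, (∑ j : Fin 3, H i j * z j) * ω' i with hu1
  set u2 := ∑ i : Fin 3, (∑ j : Fin 3, H i j * z j) * z i with hu2
  have hq : qf H ω = qf H ω' + 2 * (sg / ‖z‖ ^ 2) * u1 + (sg / ‖z‖ ^ 2) ^ 2 * u2 := by
    obtain ⟨h1, h2, h3⟩ := ksym H hH
    simp only [qf, hu1, hu2, Fin.sum_univ_three, h1, h2, h3, hco]
    ring
  have ht1 : t ^ 2 ≤ 1 := by nlinarith [sq_nonneg ‖ω'‖, norm_nonneg ω]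
  have hω1 : ‖ω'‖ ^ 2 ≤ 1 := by nlinarith [sq_nonneg t, norm_nonneg ω]
  have hta : |t| ≤ 1 := by
    rw [← sq_abs] at ht1
    nlinarith [abs_nonneg t]
  have b1 : |u1 / ‖z‖| ≤ N := by
    rw [abs_div, abs_of_pos hr, div_le_iff₀ hr]
    apply abs_le_of_sq_le_sq _ (by positivity)
    have := cs_H H z ω'
    rw [mul_pow, hN2]
    calc u1 ^ 2 ≤ hn H * ‖z‖ ^ 2 * ‖ω'‖ ^ 2 := this
      _ ≤ hn H * ‖z‖ ^ 2 * 1 := by
        apply mul_le_mul_of_nonneg_left hω1 (mul_nonneg (hn_nonneg H) (by positivity))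
      _ = _ := mul_one _
  have b2 : |u2 / ‖z‖ ^ 2| ≤ N := by
    rw [abs_div, abs_of_pos (by positivity : 0 < ‖z‖ ^ 2), div_le_iff₀ (by positivity)]
    apply abs_le_of_sq_le_sq _ (by positivity)
    have := cs_H H z z
    rw [mul_pow, hN2]
    calc u2 ^ 2 ≤ hn H * ‖z‖ ^ 2 * ‖z‖ ^ 2 := this
      _ = _ := by ring
  have hE : (2 * (sg / ‖z‖ ^ 2) * u1 + (sg / ‖z‖ ^ 2) ^ 2 * u2 - lam * t ^ 2) ^ 2
      ≤ 16 * hn H * t ^ 2 := by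
    have e1 : 2 * (sg / ‖z‖ ^ 2) * u1 + (sg / ‖z‖ ^ 2) ^ 2 * u2 - lam * t ^ 2
        = 2 * (t * (u1 / ‖z‖)) + t * (t * (u2 / ‖z‖ ^ 2)) - t * (t * lam) := by
      rw [ht]; field_simp
    rw [e1, ← hN2]
    exact hE_alg _ _ _ _ _ hta hN0 b1 b2 hlN
  have hA : (qf H ω' - lam * ‖ω'‖ ^ 2) ^ 2 ≤ 2 * qT H z / ‖z‖ ^ 4 := by
    refine (hA_alg _ _ _ _ _ (rq' H hH z ω' hz hort) hl1 hl2 (dd_nonneg H z) (by positivity)
      hω1).trans (le_of_eq ?_)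
    rw [dd_sq H hH]; ring
  have hsplit : qf H ω - lam * ‖ω‖ ^ 2 = (qf H ω' - lam * ‖ω'‖ ^ 2)
      + (2 * (sg / ‖z‖ ^ 2) * u1 + (sg / ‖z‖ ^ 2) ^ 2 * u2 - lam * t ^ 2) := by
    rw [hq, hn']; ring
  have hfin : 32 * hn H * sg ^ 2 / ‖z‖ ^ 2 = 2 * (16 * hn H * t ^ 2) := by
    rw [ht, div_pow]; ring
  have e5 : 4 * qT H z / ‖z‖ ^ 4 = 2 * (2 * qT H z / ‖z‖ ^ 4) := by ring
  rw [hsplit, hfin, e5]
  exact fin_alg _ _ _ _ hA hE

end Pool.Agent.LandauF
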