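import Pool.Agent.LandauF.FDefs

/-!
# LandauF, module LAlg: algebra of the dissipation densities

For a vector `z`, `r² = |z|²`, a symmetric matrix `H`, a vector `Y`, `h = H z`, `τ = r² tr H - z·h`:
`∑ (δ_la Y_b - δ_lb Y_a + z_a H_bl - z_b H_al)² r² - 2 TQ`
`= ∑_ab (z_a Y_b - z_b Y_a)² + ∑_ab (z_a (Y+h)_b - z_b (Y+h)_a)² + (2 Y·z - τ)²`,
with `TQ = r⁴ |H|² - 2 r² |h|² + (z·h)² - ½ τ²`, and
`r⁴ TQ = ∑_ij (r⁴ H_ij - r² z_i h_j - r² h_i z_j + z_i z_j (z·h) - ½ τ (r² δ_ij - z_i z_j))²`.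
Both are polynomial identities (expand all sums over `Fin 3`, `ring`).  The same with `Y = 0` for `HZ`.
-/

set_option autoImplicit false

namespace Pool.Agent.LandauF

open MeasureTheory Set Filter Topology Pool.Agent.Landau

/-- the squared norm of a vector with given coordinates -/
theorem lalg_norm (v w : V) :
    ‖v - w‖ ^ 2 = (v 0 - w 0) ^ 2 + (v 1 - w 1) ^ 2 + (v 2 - w 2) ^ 2 := by
  rw [EuclideanSpace.norm_sq_eq, Fin.sum_univ_three]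
  simp [Real.norm_eq_abs, sq_abs]

/-- `TQ` for a vector `(x, y, z)` and a symmetric matrix with rows `(a, b, c), (b, d, e), (c, e, f)` -/
noncomputable def tqP (x y z a b c d e f : ℝ) : ℝ :=
  (x ^ 2 + y ^ 2 + z ^ 2) ^ 2 * (a ^ 2 + d ^ 2 + f ^ 2 + 2 * (b ^ 2 + c ^ 2 + e ^ 2))
        - 2 * (x ^ 2 + y ^ 2 + z ^ 2) * ((a * x + b * y + c * z) ^ 2 + (b * x + d * y + e * z) ^ 2
            + (c * x + e * y + f * z) ^ 2)
        + ((a * x + b * y + c * z) * x + (b * x + d * y + e * z) * y + (c * x + e * y + f * z) * z) ^ 2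
        - (1 / 2) * ((x ^ 2 + y ^ 2 + z ^ 2) * (a + d + f)
          - ((a * x + b * y + c * z) * x + (b * x + d * y + e * z) * y + (c * x + e * y + f * z) * z)) ^ 2

theorem tqP_id (x y z a b c d e f R h0 h1 h2 s t : ℝ) (hR : R = x ^ 2 + y ^ 2 + z ^ 2)
    (e0 : h0 = a * x + b * y + c * z) (e1 : h1 = b * x + d * y + e * z)
    (e2 : h2 = c * x + e * y + f * z) (es : s = h0 * x + h1 * y + h2 * z)
    (et : t = R * (a + d + f) - s) :
    R ^ 2 * tqP x y z a b c d e f =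
      (R ^ 2 * a - 2 * R * x * h0 + x * x * s - (1 / 2) * t * (R - x * x)) ^ 2
      + (R ^ 2 * d - 2 * R * y * h1 + y * y * s - (1 / 2) * t * (R - y * y)) ^ 2
      + (R ^ 2 * f - 2 * R * z * h2 + z * z * s - (1 / 2) * t * (R - z * z)) ^ 2
      + 2 * (R ^ 2 * b - R * x * h1 - R * y * h0 + x * y * s + (1 / 2) * t * (x * y)) ^ 2
      + 2 * (R ^ 2 * c - R * x * h2 - R * z * h0 + x * z * s + (1 / 2) * t * (x * z)) ^ 2
      + 2 * (R ^ 2 * e - R * y * h2 - R * z * h1 + y * z * s + (1 / 2) * t * (y * z)) ^ 2 := by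
  subst et es e0 e1 e2 hR
  unfold tqP
  ring

theorem tqP_nonneg (x y z a b c d e f : ℝ) : 0 ≤ tqP x y z a b c d e f := by
  rcases eq_or_lt_of_le (show 0 ≤ x ^ 2 + y ^ 2 + z ^ 2 by positivity) with h | h
  · have hx : x = 0 := by nlinarith [sq_nonneg x, sq_nonneg y, sq_nonneg z]
    have hy : y = 0 := by nlinarith [sq_nonneg x, sq_nonneg y, sq_nonneg z]
    have hz : z = 0 := by nlinarith [sq_nonneg x, sq_nonneg y, sq_nonneg z]
    subst hx hy hz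
    apply le_of_eq
    unfold tqP
    ring
  · have key := tqP_id x y z a b c d e f _ _ _ _ _ _ rfl rfl rfl rfl rfl rfl
    have h2 : 0 < (x ^ 2 + y ^ 2 + z ^ 2) ^ 2 := by positivity
    refine nonneg_of_mul_nonneg_right (b := tqP x y z a b c d e f) ?_ h2
    rw [key]
    positivity

theorem lalg_TQ_eq (g : V → ℝ) (hs' : ∀ i j v, hs g i j v = hs g j i v) (v w : V) :
    TQ g v w = tqP (v 0 - w 0) (v 1 - w 1) (v 2 - w 2) (hs g 0 0 v) (hs g 0 1 v) (hs g 0 2 v)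
      (hs g 1 1 v) (hs g 1 2 v) (hs g 2 2 v) := by
  have h4 : ‖v - w‖ ^ 4 = (‖v - w‖ ^ 2) ^ 2 := by ring
  unfold TQ tqP zhz
  rw [h4, lalg_norm]
  simp only [h2, hz, trh, Fin.sum_univ_three]
  rw [hs' 1 0 v, hs' 2 0 v, hs' 2 1 v]
  ring

/-- `WD` for a vector, a symmetric matrix and the difference of the scores -/
noncomputable def wdP (x y z a b c d e f Y0 Y1 Y2 : ℝ) : ℝ :=
  2 * ((Y1 + x * b - y * a) ^ 2 + (x * d - Y0 - y * b) ^ 2 + (x * e - y * c) ^ 2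
    + (Y2 + x * c - z * a) ^ 2 + (x * e - z * b) ^ 2 + (x * f - Y0 - z * c) ^ 2
    + (y * c - z * b) ^ 2 + (Y2 + y * e - z * d) ^ 2 + (y * f - Y1 - z * e) ^ 2)

theorem wdP_id (x y z a b c d e f Y0 Y1 Y2 R h0 h1 h2 : ℝ) (hR : R = x ^ 2 + y ^ 2 + z ^ 2)
    (e0 : h0 = a * x + b * y + c * z) (e1 : h1 = b * x + d * y + e * z)
    (e2 : h2 = c * x + e * y + f * z) :
    R * wdP x y z a b c d e f Y0 Y1 Y2 - 2 * tqP x y z a b c d e f =
      2 * ((x * Y1 - y * Y0) ^ 2 + (x * Y2 - z * Y0) ^ 2 + (y * Y2 - z * Y1) ^ 2)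
      + 2 * ((x * (Y1 + h1) - y * (Y0 + h0)) ^ 2 + (x * (Y2 + h2) - z * (Y0 + h0)) ^ 2
        + (y * (Y2 + h2) - z * (Y1 + h1)) ^ 2)
      + (2 * (Y0 * x + Y1 * y + Y2 * z) - (R * (a + d + f) - (h0 * x + h1 * y + h2 * z))) ^ 2 := by
  subst e0 e1 e2 hR
  unfold tqP wdP
  ring

theorem tqP_le (x y z a b c d e f Y0 Y1 Y2 : ℝ) :
    2 * tqP x y z a b c d e f ≤ (x ^ 2 + y ^ 2 + z ^ 2) * wdP x y z a b c d e f Y0 Y1 Y2 := by
  have key := wdP_id x y z a b c d e f Y0 Y1 Y2 _ _ _ _ rfl rfl rfl rfl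
  have h : 0 ≤ (x ^ 2 + y ^ 2 + z ^ 2) * wdP x y z a b c d e f Y0 Y1 Y2
      - 2 * tqP x y z a b c d e f := by
    rw [key]
    positivity
  linarith

theorem lalg_HZ_eq (g : V → ℝ) (hs' : ∀ i j v, hs g i j v = hs g j i v) (v w : V) :
    HZ g v w = wdP (v 0 - w 0) (v 1 - w 1) (v 2 - w 2) (hs g 0 0 v) (hs g 0 1 v) (hs g 0 2 v)
      (hs g 1 1 v) (hs g 1 2 v) (hs g 2 2 v) 0 0 0 := by
  simp only [HZ, wdP, Fin.sum_univ_three]
  rw [hs' 1 0 v, hs' 2 0 v, hs' 2 1 v]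
  ring

theorem lalg_WD_eq (g : V → ℝ) (hs' : ∀ i j v, hs g i j v = hs g j i v) (v w : V) :
    WD g v w = wdP (v 0 - w 0) (v 1 - w 1) (v 2 - w 2) (hs g 0 0 v) (hs g 0 1 v) (hs g 0 2 v)
      (hs g 1 1 v) (hs g 1 2 v) (hs g 2 2 v) (gam 0 g v - gam 0 g w) (gam 1 g v - gam 1 g w)
      (gam 2 g v - gam 2 g w) := by
  have k00 : kd 0 0 = 1 := by simp [kd]
  have k11 : kd 1 1 = 1 := by simp [kd]
  have k22 : kd 2 2 = 1 := by simp [kd]
  have k01 : kd 0 1 = 0 := by simp [kd]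
  have k10 : kd 1 0 = 0 := by simp [kd]
  have k02 : kd 0 2 = 0 := by simp [kd]
  have k20 : kd 2 0 = 0 := by simp [kd]
  have k12 : kd 1 2 = 0 := by simp [kd]
  have k21 : kd 2 1 = 0 := by simp [kd]
  simp only [WD, DX, wdP, Fin.sum_univ_three, k00, k11, k22, k01, k10, k02, k20, k12, k21]
  rw [hs' 1 0 v, hs' 2 0 v, hs' 2 1 v]
  ring

theorem TQ_nonneg (g : V → ℝ) (hs' : ∀ i j v, hs g i j v = hs g j i v) (v w : V) :
    0 ≤ TQ g v w := by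
  rw [lalg_TQ_eq g hs']
  exact tqP_nonneg _ _ _ _ _ _ _ _ _

theorem HZ_nonneg (g : V → ℝ) (v w : V) : 0 ≤ HZ g v w :=
  Finset.sum_nonneg fun _ _ => Finset.sum_nonneg fun _ _ => Finset.sum_nonneg fun _ _ => sq_nonneg _

theorem WD_nonneg (g : V → ℝ) (v w : V) : 0 ≤ WD g v w :=
  Finset.sum_nonneg fun _ _ => Finset.sum_nonneg fun _ _ => Finset.sum_nonneg fun _ _ => sq_nonneg _

theorem TQ_le_HZ (g : V → ℝ) (hs' : ∀ i j v, hs g i j v = hs g j i v) (v w : V) :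
    2 * TQ g v w ≤ ‖v - w‖ ^ 2 * HZ g v w := by
  rw [lalg_TQ_eq g hs', lalg_HZ_eq g hs', lalg_norm]
  exact tqP_le _ _ _ _ _ _ _ _ _ _ _ _

theorem TQ_le_WD (g : V → ℝ) (hs' : ∀ i j v, hs g i j v = hs g j i v) (v w : V) :
    2 * TQ g v w ≤ ‖v - w‖ ^ 2 * WD g v w := by
  rw [lalg_TQ_eq g hs', lalg_WD_eq g hs', lalg_norm]
  exact tqP_le _ _ _ _ _ _ _ _ _ _ _ _

end Pool.Agent.LandauF
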