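import Pool.Agent.LandauF.ANis
import Pool.Agent.LandauF.LAlg
import Pool.Agent.LandauG.WPot

/-!
# LandauF, module CFar: the far pairs control the trace

`tr_le`: for `z ≠ 0`: `(tr H)² ≤ 9 (HZ/r² + h0)` (`HZ = 2 (r² |H|² - |Hz|²)` for symmetric `H`; it amounts to
`4 r² (tr H)² ≤ 18 r² |H|² - 9 |H z|²`-type inequalities; in a frame with `z = r e₃` and by Cauchy-Schwarz).
`far_cell`: for each `w` with `‖w - y‖ ≥ 10 s` and `v` in the ball `B` of radius `2 s`:
`r = ‖v - w‖` is between `0.8 ‖w-y‖` and `1.2 ‖w-y‖`, and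
`(∫_B g |tr H|)² ≤ 18 (∫_B g √HZ/r)² + 18 (∫_B g √h0)² ≤ 18 m ∫_B g HZ/r² + 18 (∫_B g √h0)²` (`m = mB g y (2s)`).
Multiply by `g(w)/‖w-y‖` and integrate over `w`: with `P = PB g y s`,
`P (∫_B g |tr H|)² ≤ 36 m ∫∫_{far} F HZ/r³ + 18 P (∫_B g √h0)²`; multiply by `ρ m/P`... (`ρ m ≤ P`; if `P = 0`
then `ρ = 0`).
-/

set_option autoImplicit false

namespace Pool.Agent.LandauF

open MeasureTheory Set Filter Topology Pool.Agent.Landau

/-! ### Algebra -/

private theorem cf_A (x y w a b c d e f : ℝ) :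
    ((x ^ 2 + y ^ 2 + w ^ 2) * (a + b + c) -
      (a * x ^ 2 + b * y ^ 2 + c * w ^ 2 + 2 * d * x * y + 2 * e * x * w + 2 * f * y * w)) ^ 2 ≤
    (x ^ 2 + y ^ 2 + w ^ 2) * (2 * ((x * b - y * d) ^ 2 + (x * c - w * e) ^ 2 +
      (y * a - x * d) ^ 2 + (y * c - w * f) ^ 2 + (w * a - x * e) ^ 2 + (w * b - y * f) ^ 2)) := by
  set p := (x * b - y * d) + (x * c - w * e) with hp
  set q := (y * a - x * d) + (y * c - w * f) with hq
  set r := (w * a - x * e) + (w * b - y * f) with hr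
  have h1 : (x ^ 2 + y ^ 2 + w ^ 2) * (a + b + c) -
      (a * x ^ 2 + b * y ^ 2 + c * w ^ 2 + 2 * d * x * y + 2 * e * x * w + 2 * f * y * w) =
      x * p + y * q + w * r := by
    rw [hp, hq, hr]
    ring
  have h2 : (x * p + y * q + w * r) ^ 2 ≤ (x ^ 2 + y ^ 2 + w ^ 2) * (p ^ 2 + q ^ 2 + r ^ 2) := by
    nlinarith [sq_nonneg (x * q - y * p), sq_nonneg (x * r - w * p), sq_nonneg (y * r - w * q)]
  have h3 : p ^ 2 ≤ 2 * ((x * b - y * d) ^ 2 + (x * c - w * e) ^ 2) := by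
    rw [hp]
    nlinarith [sq_nonneg ((x * b - y * d) - (x * c - w * e))]
  have h4 : q ^ 2 ≤ 2 * ((y * a - x * d) ^ 2 + (y * c - w * f) ^ 2) := by
    rw [hq]
    nlinarith [sq_nonneg ((y * a - x * d) - (y * c - w * f))]
  have h5 : r ^ 2 ≤ 2 * ((w * a - x * e) ^ 2 + (w * b - y * f) ^ 2) := by
    rw [hr]
    nlinarith [sq_nonneg ((w * a - x * e) - (w * b - y * f))]
  rw [h1]
  refine h2.trans (mul_le_mul_of_nonneg_left ?_ (by positivity))
  linarith

private theorem cf_B (z : Fin 3 → ℝ) (K : Fin 3 → Fin 3 → ℝ) :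
    (∑ i : Fin 3, ∑ j : Fin 3, z i * z j * K i j) ^ 2 ≤
      (∑ i : Fin 3, z i ^ 2) ^ 2 * ∑ i : Fin 3, ∑ j : Fin 3, K i j ^ 2 := by
  have h := Finset.sum_mul_sq_le_sq_mul_sq (Finset.univ : Finset (Fin 3 × Fin 3))
    (fun q => z q.1 * z q.2) (fun q => K q.1 q.2)
  rw [Fintype.sum_prod_type, Fintype.sum_prod_type, Fintype.sum_prod_type] at h
  have h1 : ∑ i : Fin 3, ∑ j : Fin 3, (z i * z j) ^ 2 = (∑ i : Fin 3, z i ^ 2) ^ 2 := by
    simp only [Fin.sum_univ_three]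
    ring
  rw [h1] at h
  exact h

private theorem cf_alg (z : Fin 3 → ℝ) (H : Fin 3 → Fin 3 → ℝ) (hH : ∀ i j, H i j = H j i) :
    ((∑ i, z i ^ 2) * ∑ i, H i i) ^ 2 ≤
      9 * ((∑ i, z i ^ 2) * (∑ a : Fin 3, ∑ b : Fin 3, ∑ l : Fin 3,
          (z a * H b l - z b * H a l) ^ 2) +
        (∑ i, z i ^ 2) ^ 2 * ((∑ i : Fin 3, ∑ j : Fin 3, H i j ^ 2) -
          (1 / 3) * (∑ i, H i i) ^ 2)) := by
  set R := ∑ i, z i ^ 2 with hR
  set t := ∑ i, H i i with ht
  set q := ∑ i : Fin 3, ∑ j : Fin 3, z i * z j * H i j with hq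
  have hR0 : 0 ≤ R := Finset.sum_nonneg fun i _ => sq_nonneg _
  have hA : (R * t - q) ^ 2 ≤ R * ∑ a : Fin 3, ∑ b : Fin 3, ∑ l : Fin 3,
      (z a * H b l - z b * H a l) ^ 2 := by
    have h := cf_A (z 0) (z 1) (z 2) (H 0 0) (H 1 1) (H 2 2) (H 0 1) (H 0 2) (H 1 2)
    have e1 : R * t - q = (z 0 ^ 2 + z 1 ^ 2 + z 2 ^ 2) * (H 0 0 + H 1 1 + H 2 2) -
        (H 0 0 * z 0 ^ 2 + H 1 1 * z 1 ^ 2 + H 2 2 * z 2 ^ 2 + 2 * H 0 1 * z 0 * z 1 +
          2 * H 0 2 * z 0 * z 2 + 2 * H 1 2 * z 1 * z 2) := by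
      rw [hR, ht, hq]
      simp only [Fin.sum_univ_three]
      rw [hH 1 0, hH 2 0, hH 2 1]
      ring
    have e2 : R = z 0 ^ 2 + z 1 ^ 2 + z 2 ^ 2 := by
      rw [hR, Fin.sum_univ_three]
    rw [e1]
    refine h.trans ?_
    rw [← e2]
    refine mul_le_mul_of_nonneg_left ?_ hR0
    simp only [Fin.sum_univ_three]
    rw [hH 1 0, hH 2 0, hH 2 1]
    nlinarith [sq_nonneg (z 0 * H 1 2 - z 1 * H 0 2), sq_nonneg (z 0 * H 1 2 - z 2 * H 0 1),
      sq_nonneg (z 1 * H 0 2 - z 2 * H 0 1), sq_nonneg (z 1 * H 0 2 - z 0 * H 1 2),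
      sq_nonneg (z 2 * H 0 1 - z 0 * H 1 2), sq_nonneg (z 2 * H 0 1 - z 1 * H 0 2)]
  have hB : (q - R * t / 3) ^ 2 ≤ R ^ 2 * ((∑ i : Fin 3, ∑ j : Fin 3, H i j ^ 2) -
      (1 / 3) * t ^ 2) := by
    have h := cf_B z (fun i j => H i j - (if i = j then t / 3 else 0))
    have e1 : ∑ i : Fin 3, ∑ j : Fin 3, z i * z j * (H i j - (if i = j then t / 3 else 0)) =
        q - R * t / 3 := by
      rw [hq, hR]
      simp only [Fin.sum_univ_three]
      simp
      ring
    have e2 : ∑ i : Fin 3, ∑ j : Fin 3, (H i j - (if i = j then t / 3 else 0)) ^ 2 =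
        (∑ i : Fin 3, ∑ j : Fin 3, H i j ^ 2) - (1 / 3) * t ^ 2 := by
      rw [ht]
      simp only [Fin.sum_univ_three]
      simp
      ring
    rw [e1, e2] at h
    exact h
  set HZ' := ∑ a : Fin 3, ∑ b : Fin 3, ∑ l : Fin 3, (z a * H b l - z b * H a l) ^ 2 with hHZ
  set h0' := (∑ i : Fin 3, ∑ j : Fin 3, H i j ^ 2) - (1 / 3) * t ^ 2 with hh0
  have e3 : R * t = (3 / 2) * ((R * t - q) + (q - R * t / 3)) := by ring
  have hA0 : 0 ≤ R * HZ' := (sq_nonneg _).trans hA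
  have hB0 : 0 ≤ R ^ 2 * h0' := (sq_nonneg _).trans hB
  calc (R * t) ^ 2 = (9 / 4) * ((R * t - q) + (q - R * t / 3)) ^ 2 := by
        conv_lhs => rw [e3]
        ring
    _ ≤ (9 / 4) * (2 * (R * t - q) ^ 2 + 2 * (q - R * t / 3) ^ 2) := by
        nlinarith [sq_nonneg ((R * t - q) - (q - R * t / 3))]
    _ ≤ 9 * (R * HZ' + R ^ 2 * h0') := by linarith

theorem tr_le {g : V → ℝ} (hg : Dn g) (v w : V) (h : v ≠ w) :
    trh g v ^ 2 ≤ 9 * (HZ g v w / ‖v - w‖ ^ 2 + h0 g v) := by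
  have hz : v - w ≠ 0 := sub_ne_zero.2 h
  have hr : 0 < ‖v - w‖ := norm_pos_iff.2 hz
  have h1 := cf_alg (fun i => v i - w i) (fun i j => hs g i j v) (fun i j => hs_symm hg i j v)
  have e1 : ∑ i : Fin 3, (v i - w i) ^ 2 = ‖v - w‖ ^ 2 := by
    rw [nsq, Fin.sum_univ_three]
    rfl
  have e2 : ∑ a : Fin 3, ∑ b : Fin 3, ∑ l : Fin 3,
      ((v a - w a) * hs g b l v - (v b - w b) * hs g a l v) ^ 2 = HZ g v w := rfl
  have e3 : (∑ i : Fin 3, ∑ j : Fin 3, hs g i j v ^ 2) - (1 / 3) * (∑ i, hs g i i v) ^ 2 =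
      h0 g v := rfl
  have e4 : ∑ i : Fin 3, hs g i i v = trh g v := rfl
  simp only at h1
  rw [e1, e2, e3, e4] at h1
  set R := ‖v - w‖ ^ 2 with hR
  have hR0 : 0 < R := by positivity
  have h2 : trh g v ^ 2 = (R * trh g v) ^ 2 / R ^ 2 := by
    field_simp
  rw [h2, div_le_iff₀ (by positivity)]
  refine h1.trans (le_of_eq ?_)
  field_simp

/-! ### Continuity -/

private theorem cf_gam {g : V → ℝ} (hg : Dn g) (i : Fin 3) : ContDiff ℝ (⊤ : ℕ∞) (gam i g) := by
  have h : gam i g = fun v => pd i g v / g v := rfl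
  rw [h]
  exact (smooth_pd hg.cls.smooth i).div hg.cls.smooth fun v => (hg.pos v).ne'

private theorem cf_hs {g : V → ℝ} (hg : Dn g) (i j : Fin 3) : Continuous (hs g i j) := by
  have h : hs g i j = pd i (gam j g) := rfl
  rw [h]
  exact (smooth_pd (cf_gam hg j) i).continuous

private theorem cf_trh {g : V → ℝ} (hg : Dn g) : Continuous (trh g) := by
  have h : trh g = fun v => ∑ i : Fin 3, hs g i i v := rfl
  rw [h]
  exact continuous_finsetSum _ fun i _ => cf_hs hg i i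

private theorem cf_h0 {g : V → ℝ} (hg : Dn g) : Continuous (h0 g) := by
  have h : h0 g = fun v => (∑ i : Fin 3, ∑ j : Fin 3, hs g i j v ^ 2) - (1 / 3) * trh g v ^ 2 := rfl
  rw [h]
  exact (continuous_finsetSum _ fun i _ => continuous_finsetSum _ fun j _ =>
    (cf_hs hg i j).pow 2).sub (continuous_const.mul ((cf_trh hg).pow 2))

private theorem cf_HZ {g : V → ℝ} (hg : Dn g) : Continuous (fun p : V × V => HZ g p.1 p.2) := by
  have h : (fun p : V × V => HZ g p.1 p.2) = fun p : V × V => ∑ a : Fin 3, ∑ b : Fin 3,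
      ∑ l : Fin 3, ((p.1 a - p.2 a) * hs g b l p.1 - (p.1 b - p.2 b) * hs g a l p.1) ^ 2 := rfl
  rw [h]
  refine continuous_finsetSum _ fun a _ => continuous_finsetSum _ fun b _ =>
    continuous_finsetSum _ fun l _ => ?_
  have hc : ∀ i : Fin 3, Continuous fun p : V × V => p.1 i - p.2 i := fun i =>
    ((coord_cont i).comp continuous_fst).sub ((coord_cont i).comp continuous_snd)
  exact (((hc a).mul ((cf_hs hg b l).comp continuous_fst)).sub
    ((hc b).mul ((cf_hs hg a l).comp continuous_fst))).pow 2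

private theorem cf_cs {B : Set V} {g h : V → ℝ} (h0 : ∀ v, 0 ≤ g v)
    (i0 : IntegrableOn g B) (i1 : IntegrableOn (fun v => g v * h v) B)
    (i2 : IntegrableOn (fun v => g v * h v ^ 2) B) :
    (∫ v in B, g v * h v) ^ 2 ≤ (∫ v in B, g v) * ∫ v in B, g v * h v ^ 2 := by
  have key : ∀ x : ℝ, 0 ≤ (∫ v in B, g v) * (x * x) + (2 * ∫ v in B, g v * h v) * x +
      ∫ v in B, g v * h v ^ 2 := by
    intro x
    have e1 : (∫ v in B, g v) * (x * x) + (2 * ∫ v in B, g v * h v) * x +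
        ∫ v in B, g v * h v ^ 2 = ∫ v in B, g v * (h v + x) ^ 2 := by
      have e2 : ∀ v, g v * (h v + x) ^ 2 = (x * x) * g v + (2 * x) * (g v * h v) + g v * h v ^ 2 :=
        fun v => by ring
      simp only [e2]
      have j0 : IntegrableOn (fun v => (x * x) * g v) B := i0.const_mul _
      have j1 : IntegrableOn (fun v => (2 * x) * (g v * h v)) B := i1.const_mul _
      have j2 : IntegrableOn (fun v => (x * x) * g v + (2 * x) * (g v * h v)) B := j0.add j1
      rw [integral_add j2 i2, integral_add j0 j1, integral_const_mul, integral_const_mul]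
      ring
    rw [e1]
    exact integral_nonneg fun v => mul_nonneg (h0 v) (sq_nonneg _)
  have := discrim_le_zero key
  unfold discrim at this
  nlinarith

private theorem cf_num {T A N m I : ℝ} (hT0 : 0 ≤ T) (hTA : T ≤ 3 * (A + N))
    (hcs : A ^ 2 ≤ m * I) : T ^ 2 ≤ 18 * m * I + 18 * N ^ 2 := by
  have h1 : T ^ 2 ≤ (3 * (A + N)) ^ 2 := pow_le_pow_left₀ hT0 hTA 2
  have h2 : (3 * (A + N)) ^ 2 ≤ 18 * A ^ 2 + 18 * N ^ 2 := by
    nlinarith [sq_nonneg (A - N)]
  have h3 : 18 * m * I = 18 * (m * I) := by ring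
  linarith

private theorem cf_sqrt_le {X Y t : ℝ} (hX : 0 ≤ X) (hY : 0 ≤ Y) (h : t ^ 2 ≤ 9 * (X + Y)) :
    |t| ≤ 3 * (Real.sqrt X + Real.sqrt Y) := by
  refine abs_le_of_sq_le_sq ?_ (by positivity)
  have h1 := Real.sq_sqrt hX
  have h2 := Real.sq_sqrt hY
  have h3 : 0 ≤ Real.sqrt X * Real.sqrt Y := by positivity
  nlinarith

private theorem cf_X_nonneg (g : V → ℝ) (v w : V) : 0 ≤ HZ g v w / ‖v - w‖ ^ 2 :=
  div_nonneg (HZ_nonneg g v w) (by positivity)

private theorem cf_X_cont {g : V → ℝ} (hg : Dn g) {y w : V} {s : ℝ} (hs' : 0 < s)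
    (hw : 10 * s ≤ ‖w - y‖) :
    (∀ v ∈ Metric.closedBall y (2 * s), v ≠ w) ∧
    ContinuousOn (fun v => HZ g v w / ‖v - w‖ ^ 2) (Metric.closedBall y (2 * s)) := by
  have hne : ∀ v ∈ Metric.closedBall y (2 * s), v ≠ w := by
    intro v hv hvw
    rw [Metric.mem_closedBall, dist_eq_norm, hvw] at hv
    linarith
  have h1 : Continuous fun v : V => ((v, w) : V × V) := by fun_prop
  have h2 : Continuous fun v : V => ‖v - w‖ ^ 2 := by fun_prop
  have h3 : Continuous fun v : V => HZ g v w :=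
    Continuous.comp (g := fun p : V × V => HZ g p.1 p.2) (f := fun v : V => ((v, w) : V × V))
      (cf_HZ hg) h1
  have h4 : ∀ v ∈ Metric.closedBall y (2 * s), ‖v - w‖ ^ 2 ≠ 0 := fun v hv =>
    pow_ne_zero 2 (norm_pos_iff.2 (sub_ne_zero.2 (hne v hv))).ne'
  exact ⟨hne, h3.continuousOn.div h2.continuousOn h4⟩

/-- the estimate for one point `w` -/
private theorem cf_real {g : V → ℝ} (hg : Dn g) {y w : V} {s : ℝ} (hs' : 0 < s)
    (hw : 10 * s ≤ ‖w - y‖) :
    (∫ v in Metric.closedBall y (2 * s), g v * |trh g v|) ^ 2 ≤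
      18 * mB g y (2 * s) * (∫ v in Metric.closedBall y (2 * s),
        g v * (HZ g v w / ‖v - w‖ ^ 2)) +
      18 * (∫ v in Metric.closedBall y (2 * s), g v * Real.sqrt (h0 g v)) ^ 2 := by
  have hBm : MeasurableSet (Metric.closedBall y (2 * s)) :=
    Metric.isClosed_closedBall.measurableSet
  have hBc : IsCompact (Metric.closedBall y (2 * s)) := isCompact_closedBall _ _
  have hgc : Continuous g := hg.cls.cont
  have hg0 : ∀ v, 0 ≤ g v := hg.cls.nonneg
  obtain ⟨hne, hXc⟩ := cf_X_cont hg hs' hw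
  have i0 : IntegrableOn g (Metric.closedBall y (2 * s)) :=
    hgc.continuousOn.integrableOn_compact hBc
  have iT : IntegrableOn (fun v => g v * |trh g v|) (Metric.closedBall y (2 * s)) :=
    (hgc.mul (cf_trh hg).abs).continuousOn.integrableOn_compact hBc
  have iN : IntegrableOn (fun v => g v * Real.sqrt (h0 g v)) (Metric.closedBall y (2 * s)) :=
    (hgc.mul (cf_h0 hg).sqrt).continuousOn.integrableOn_compact hBc
  have iA : IntegrableOn (fun v => g v * Real.sqrt (HZ g v w / ‖v - w‖ ^ 2))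
      (Metric.closedBall y (2 * s)) := (hgc.continuousOn.mul hXc.sqrt).integrableOn_compact hBc
  have iI : IntegrableOn (fun v => g v * (HZ g v w / ‖v - w‖ ^ 2))
      (Metric.closedBall y (2 * s)) := (hgc.continuousOn.mul hXc).integrableOn_compact hBc
  have hsq : ∀ v, g v * Real.sqrt (HZ g v w / ‖v - w‖ ^ 2) ^ 2 =
      g v * (HZ g v w / ‖v - w‖ ^ 2) := fun v => by
    rw [Real.sq_sqrt (cf_X_nonneg g v w)]
  have iI' : IntegrableOn (fun v => g v * Real.sqrt (HZ g v w / ‖v - w‖ ^ 2) ^ 2)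
      (Metric.closedBall y (2 * s)) := by
    simp only [hsq]
    exact iI
  have hT0 : 0 ≤ ∫ v in Metric.closedBall y (2 * s), g v * |trh g v| :=
    integral_nonneg fun v => mul_nonneg (hg0 v) (abs_nonneg _)
  have hTA : ∫ v in Metric.closedBall y (2 * s), g v * |trh g v| ≤
      3 * ((∫ v in Metric.closedBall y (2 * s), g v * Real.sqrt (HZ g v w / ‖v - w‖ ^ 2)) +
        ∫ v in Metric.closedBall y (2 * s), g v * Real.sqrt (h0 g v)) := by
    rw [← integral_add iA iN, ← integral_const_mul]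
    have iS : IntegrableOn (fun v => 3 * (g v * Real.sqrt (HZ g v w / ‖v - w‖ ^ 2) +
        g v * Real.sqrt (h0 g v))) (Metric.closedBall y (2 * s)) := (iA.add iN).const_mul 3
    refine setIntegral_mono_on iT iS hBm fun v hv => ?_
    have h1 := cf_sqrt_le (cf_X_nonneg g v w) (h0_nonneg g v) (tr_le hg v w (hne v hv))
    calc g v * |trh g v| ≤ g v * (3 * (Real.sqrt (HZ g v w / ‖v - w‖ ^ 2) + Real.sqrt (h0 g v))) :=
          mul_le_mul_of_nonneg_left h1 (hg0 v)
      _ = 3 * (g v * Real.sqrt (HZ g v w / ‖v - w‖ ^ 2) + g v * Real.sqrt (h0 g v)) := by ring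
  have hcs := cf_cs hg0 i0 iA iI'
  simp only [hsq] at hcs
  exact cf_num hT0 hTA hcs

private theorem cf_one {g : V → ℝ} (hg : Dn g) {y w : V} {s : ℝ} (hs' : 0 < s)
    (hw : 10 * s ≤ ‖w - y‖) :
    ENNReal.ofReal ((∫ v in Metric.closedBall y (2 * s), g v * |trh g v|) ^ 2) ≤
      ENNReal.ofReal (18 * mB g y (2 * s)) * (∫⁻ v in Metric.closedBall y (2 * s),
        ENNReal.ofReal (g v * (HZ g v w / ‖v - w‖ ^ 2))) +
      ENNReal.ofReal (18 *
        (∫ v in Metric.closedBall y (2 * s), g v * Real.sqrt (h0 g v)) ^ 2) := by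
  have hg0 : ∀ v, 0 ≤ g v := hg.cls.nonneg
  have hXc := (cf_X_cont hg hs' hw).2
  have iI : IntegrableOn (fun v => g v * (HZ g v w / ‖v - w‖ ^ 2))
      (Metric.closedBall y (2 * s)) :=
    (hg.cls.cont.continuousOn.mul hXc).integrableOn_compact (isCompact_closedBall _ _)
  have hnn : ∀ v, 0 ≤ g v * (HZ g v w / ‖v - w‖ ^ 2) := fun v =>
    mul_nonneg (hg0 v) (cf_X_nonneg g v w)
  have hm0 : 0 ≤ mB g y (2 * s) := integral_nonneg hg0
  have hI0 : 0 ≤ ∫ v in Metric.closedBall y (2 * s), g v * (HZ g v w / ‖v - w‖ ^ 2) :=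
    integral_nonneg hnn
  have h1 := cf_real hg hs' hw
  have h2 := ofReal_integral_eq_lintegral_ofReal iI (Eventually.of_forall hnn)
  rw [← h2, ← ENNReal.ofReal_mul (by linarith), ← ENNReal.ofReal_add (mul_nonneg (by linarith) hI0)
    (mul_nonneg (by norm_num) (sq_nonneg _))]
  exact ENNReal.ofReal_le_ofReal h1

private theorem cf_mB_pos {g : V → ℝ} (hg : Dn g) (y : V) {s : ℝ} (hs' : 0 < s) :
    0 < mB g y (2 * s) := by
  unfold mB
  rw [setIntegral_pos_iff_support_of_nonneg_ae (Eventually.of_forall hg.cls.nonneg)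
    (hg.cls.cont.continuousOn.integrableOn_compact (isCompact_closedBall _ _))]
  have h1 : Function.support g = univ := by
    ext v
    simp [(hg.pos v).ne']
  rw [h1, univ_inter]
  exact Metric.measure_closedBall_pos volume y (by linarith)

theorem far_cell : ∃ C : ℝ, 0 < C ∧ ∀ g : V → ℝ, Dn g → ∀ (y : V) (s ρ : ℝ), 0 < s → 0 ≤ ρ →
    ρ * mB g y (2 * s) ≤ PB g y s →
    ENNReal.ofReal (ρ * (∫ v in Metric.closedBall y (2 * s), g v * |trh g v|) ^ 2) ≤
      ENNReal.ofReal C * (∫⁻ v in Metric.closedBall y (2 * s), ∫⁻ w in {w : V | 10 * s ≤ ‖w - y‖},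
        ENNReal.ofReal (g v * g w * HZ g v w / ‖v - w‖ ^ 3)) +
      ENNReal.ofReal (C * ρ *
        (∫ v in Metric.closedBall y (2 * s), g v * Real.sqrt (h0 g v)) ^ 2) := by
  refine ⟨22, by norm_num, fun g hg y s ρ hs' hρ hm => ?_⟩
  set B := Metric.closedBall y (2 * s) with hB
  set F := {w : V | 10 * s ≤ ‖w - y‖} with hF
  have hBm : MeasurableSet B := Metric.isClosed_closedBall.measurableSet
  have hFm : MeasurableSet F :=
    measurableSet_le measurable_const (measurable_id.sub measurable_const).norm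
  have hg0 : ∀ v, 0 ≤ g v := hg.cls.nonneg
  have hgm : Measurable g := hg.cls.cont.measurable
  have hmp := cf_mB_pos hg y hs'
  set m := mB g y (2 * s) with hmdef
  set P := PB g y s with hP
  set T := ∫ v in B, g v * |trh g v| with hT
  set N := ∫ v in B, g v * Real.sqrt (h0 g v) with hN
  set J := ∫⁻ v in B, ∫⁻ w in F, ENNReal.ofReal (g v * g w * HZ g v w / ‖v - w‖ ^ 3) with hJ
  have hP0 : 0 ≤ P := setIntegral_nonneg hFm fun w _ => div_nonneg (hg0 w) (norm_nonneg _)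
  rcases hP0.eq_or_lt with hPz | hPp
  · have h1 : ρ = 0 := by
      rw [← hPz] at hm
      by_contra hne
      have : 0 < ρ := lt_of_le_of_ne hρ (Ne.symm hne)
      have := mul_pos this hmp
      linarith
    rw [h1, zero_mul, ENNReal.ofReal_zero]
    exact zero_le
  -- the integrated inequality
  have hint : IntegrableOn (fun w => g w / ‖w - y‖) F := by
    have h1 := pot_int g hg.cls y
    have h2 : (fun w => g w / ‖y - w‖) = fun w => g w / ‖w - y‖ := by
      funext w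
      rw [norm_sub_rev]
    rw [h2] at h1
    exact h1.integrableOn
  have hPl : ENNReal.ofReal P = ∫⁻ w in F, ENNReal.ofReal (g w / ‖w - y‖) :=
    ofReal_integral_eq_lintegral_ofReal hint
      (Eventually.of_forall fun w => div_nonneg (hg0 w) (norm_nonneg _))
  have hkm : Measurable fun w : V => ENNReal.ofReal (g w / ‖w - y‖) :=
    (hgm.div (measurable_id.sub measurable_const).norm).ennreal_ofReal
  have hjm : Measurable fun p : V × V =>
      ENNReal.ofReal (g p.1 * g p.2 * HZ g p.1 p.2 / ‖p.1 - p.2‖ ^ 3) := by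
    refine Measurable.ennreal_ofReal ?_
    exact (((hgm.comp measurable_fst).mul (hgm.comp measurable_snd)).mul
      (cf_HZ hg).measurable).div ((measurable_fst.sub measurable_snd).norm.pow_const 3)
  have hswap : J = ∫⁻ w in F, ∫⁻ v in B, ENNReal.ofReal (g v * g w * HZ g v w / ‖v - w‖ ^ 3) :=
    lintegral_lintegral_swap (f := fun v w =>
      ENNReal.ofReal (g v * g w * HZ g v w / ‖v - w‖ ^ 3)) hjm.aemeasurable
  have hmain : ENNReal.ofReal P * ENNReal.ofReal (T ^ 2) ≤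
      ENNReal.ofReal (22 * m) * J + ENNReal.ofReal (18 * N ^ 2) * ENNReal.ofReal P := by
    rw [hPl, ← lintegral_mul_const _ hkm, ← lintegral_const_mul _ hkm, hswap,
      ← lintegral_const_mul' _ _ ENNReal.ofReal_ne_top,
      ← lintegral_add_right _ (hkm.const_mul _)]
    refine setLIntegral_mono' hFm fun w hw => ?_
    have hw' : 10 * s ≤ ‖w - y‖ := hw
    have hwy : 0 < ‖w - y‖ := by linarith
    have h1 := cf_one hg hs' hw'
    refine (mul_le_mul_right h1 _).trans ?_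
    rw [mul_add, mul_comm (ENNReal.ofReal (g w / ‖w - y‖)) (ENNReal.ofReal (18 * N ^ 2))]
    refine add_le_add ?_ le_rfl
    rw [← mul_assoc, mul_comm (ENNReal.ofReal (g w / ‖w - y‖)), mul_assoc,
      ← lintegral_const_mul' _ _ ENNReal.ofReal_ne_top]
    have h2 : ENNReal.ofReal (22 * m) * (∫⁻ v in B,
        ENNReal.ofReal (g v * g w * HZ g v w / ‖v - w‖ ^ 3)) =
        ENNReal.ofReal (18 * m) * ∫⁻ v in B, ENNReal.ofReal (22 / 18) *
          ENNReal.ofReal (g v * g w * HZ g v w / ‖v - w‖ ^ 3) := by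
      rw [lintegral_const_mul' _ _ ENNReal.ofReal_ne_top, ← mul_assoc,
        ← ENNReal.ofReal_mul (by positivity)]
      congr 2
      ring
    rw [h2]
    refine mul_le_mul_right (setLIntegral_mono' hBm fun v hv => ?_) _
    rw [← ENNReal.ofReal_mul (div_nonneg (hg0 w) (norm_nonneg _)),
      ← ENNReal.ofReal_mul (by norm_num)]
    refine ENNReal.ofReal_le_ofReal ?_
    have hv' : ‖v - y‖ ≤ 2 * s := by
      rw [hB, Metric.mem_closedBall, dist_eq_norm] at hv
      exact hv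
    have hr1 : ‖v - w‖ ≤ (22 / 18) * ‖w - y‖ := by
      have h3 : ‖v - w‖ ≤ ‖v - y‖ + ‖w - y‖ := by
        have := norm_sub_le (v - y) (w - y)
        rwa [sub_sub_sub_cancel_right] at this
      linarith
    have hr0 : 0 < ‖v - w‖ := by
      have h3 : ‖w - y‖ ≤ ‖v - y‖ + ‖v - w‖ := by
        have := norm_sub_le (v - y) (v - w)
        rwa [sub_sub_sub_cancel_left] at this
      linarith
    have hHZ := HZ_nonneg g v w
    have h4 : 0 ≤ g v * g w * HZ g v w := mul_nonneg (mul_nonneg (hg0 v) (hg0 w)) hHZ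
    have h5 : 1 / ‖w - y‖ ≤ (22 / 18) / ‖v - w‖ := by
      rw [div_le_div_iff₀ hwy hr0]
      linarith
    calc g w / ‖w - y‖ * (g v * (HZ g v w / ‖v - w‖ ^ 2))
        = (g v * g w * HZ g v w / ‖v - w‖ ^ 2) * (1 / ‖w - y‖) := by ring
      _ ≤ (g v * g w * HZ g v w / ‖v - w‖ ^ 2) * ((22 / 18) / ‖v - w‖) :=
          mul_le_mul_of_nonneg_left h5 (by positivity)
      _ = 22 / 18 * (g v * g w * HZ g v w / ‖v - w‖ ^ 3) := by
          field_simp
  -- division by `P`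
  have hq0 : 0 ≤ ρ / P := div_nonneg hρ hPp.le
  have h1 : ENNReal.ofReal (ρ * T ^ 2) =
      ENNReal.ofReal (ρ / P) * (ENNReal.ofReal P * ENNReal.ofReal (T ^ 2)) := by
    rw [← ENNReal.ofReal_mul hP0, ← ENNReal.ofReal_mul hq0]
    congr 1
    field_simp
  rw [h1]
  refine (mul_le_mul_right hmain _).trans ?_
  rw [mul_add, ← mul_assoc, ← ENNReal.ofReal_mul hq0]
  refine add_le_add ?_ ?_
  · refine mul_le_mul_left (ENNReal.ofReal_le_ofReal ?_) _
    rw [div_mul_eq_mul_div, div_le_iff₀ hPp]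
    linarith
  · rw [← ENNReal.ofReal_mul (by positivity), ← ENNReal.ofReal_mul hq0]
    refine ENNReal.ofReal_le_ofReal ?_
    have h2 : ρ / P * (18 * N ^ 2 * P) = 18 * ρ * N ^ 2 := by
      field_simp
    rw [h2]
    have h3 : 0 ≤ ρ * N ^ 2 := by positivity
    linarith

end Pool.Agent.LandauF
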