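import Pool.Agent.LandauF.NTrans
import Pool.Agent.Landau.Chi

/-!
# LandauF, module CTr: local Fisher information and the trace of the Hessian

`χ(v) = chi s (v - y)²` (`1` on the ball of radius `s`, `0` outside the ball of radius `2 s`),
`|∂χ| ≤ (C/s) √χ`.  `∫ χ fi = ∫ χ ∇g·X = -∫ g χ tr H - ∫ g ∇χ·X` (`ibp`), and
`|∫ g ∇χ·X| ≤ (C/s) ∫ g √χ |X| ≤ ½ ∫ χ fi + C mB g y (2s)/s²`.
-/

set_option autoImplicit false

namespace Pool.Agent.LandauF

open MeasureTheory Set Filter Topology Pool.Agent.Landau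

private theorem ct_chiB : ContDiff ℝ (⊤ : ℕ∞) (fun v : V => chiB v) := chiB.contDiff

private theorem ct_pd (s : ℝ) (y : V) (i : Fin 3) (v : V) :
    pd i (fun v => chi s (v - y)) v = s⁻¹ * pd i (fun v : V => chiB v) (s⁻¹ • (v - y)) := by
  unfold pd chi
  have h1 : HasFDerivAt (fun v : V => s⁻¹ • (v - y)) (s⁻¹ • ContinuousLinearMap.id ℝ V) v :=
    ((hasFDerivAt_id v).sub_const y).const_smul s⁻¹
  have h2 : HasFDerivAt (fun v : V => chiB v) (fderiv ℝ (fun v : V => chiB v) (s⁻¹ • (v - y)))
      (s⁻¹ • (v - y)) := (differentiable_of_smooth ct_chiB _).hasFDerivAt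
  have h3 : HasFDerivAt (fun v : V => chiB (s⁻¹ • (v - y)))
      ((fderiv ℝ (fun v : V => chiB v) (s⁻¹ • (v - y))).comp
        (s⁻¹ • ContinuousLinearMap.id ℝ V)) v :=
    HasFDerivAt.comp (g := fun v : V => chiB v) (f := fun v : V => s⁻¹ • (v - y)) v h2 h1
  rw [h3.fderiv]
  simp

private theorem ct_bd : ∃ K : ℝ, 0 < K ∧ ∀ (s : ℝ) (y : V), 0 < s → ∀ i v,
    |pd i (fun v => chi s (v - y)) v| ≤ K / s := by
  have h1 : ∀ i, ∃ C : ℝ, ∀ v, |pd i (fun v : V => chiB v) v| ≤ C := fun i => by
    obtain ⟨C, hC⟩ := (compact_pd (g := fun v : V => chiB v) chiB.hasCompactSupport i).exists_bound_of_continuous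
      (smooth_pd ct_chiB i).continuous
    exact ⟨C, fun v => hC v⟩
  choose C hC using h1
  have hC0 : ∀ i, 0 ≤ C i := fun i => (abs_nonneg _).trans (hC i 0)
  have s1 : 0 ≤ ∑ i, C i := Finset.sum_nonneg fun i _ => hC0 i
  refine ⟨(∑ i, C i) + 1, by linarith, fun s y hs i v => ?_⟩
  rw [ct_pd, abs_mul, abs_of_pos (inv_pos.2 hs), inv_mul_eq_div]
  refine div_le_div_of_nonneg_right ?_ hs.le
  have h2 := Finset.single_le_sum (f := C) (fun i _ => hC0 i) (Finset.mem_univ i)
  linarith [hC i (s⁻¹ • (v - y))]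

private theorem ct_fi {g : V → ℝ} (hg : Dn g) : Continuous (fi g) := by
  unfold fi x2
  exact hg.cls.smooth.continuous.mul
    (continuous_finsetSum _ fun i _ => (gam_smooth hg i).continuous.pow 2)

private theorem ct_alg {G c K : ℝ} {a x D : Fin 3 → ℝ} (hG : 0 ≤ G) (hc0 : 0 ≤ c) (hc1 : c ≤ 1)
    (ha : ∀ i, |a i| ≤ K) :
    -∑ i, G * (c ^ 2 * D i + 2 * c * a i * x i) ≤ G * |∑ i, D i| +
      (1 / 2) * (c ^ 2 * (G * ∑ i, x i ^ 2)) + 6 * K ^ 2 * G := by
  have h1 : ∀ i, -(2 * c * a i * x i) ≤ (1 / 2) * (c ^ 2 * x i ^ 2) + 2 * K ^ 2 := by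
    intro i
    have h2 : a i ^ 2 ≤ K ^ 2 := by
      rw [← sq_abs (a i)]
      exact pow_le_pow_left₀ (abs_nonneg _) (ha i) 2
    nlinarith [sq_nonneg (c * x i + 2 * a i)]
  have h3 : -(c ^ 2 * ∑ i, D i) ≤ |∑ i, D i| := by
    have h4 : -(c ^ 2 * ∑ i, D i) ≤ c ^ 2 * |∑ i, D i| := by
      have := neg_abs_le (∑ i, D i)
      nlinarith [sq_nonneg c]
    have h5 : c ^ 2 ≤ 1 := by nlinarith
    nlinarith [abs_nonneg (∑ i, D i)]
  have h6 : -∑ i, (c ^ 2 * D i + 2 * c * a i * x i) ≤ |∑ i, D i| +
      (1 / 2) * (c ^ 2 * ∑ i, x i ^ 2) + 6 * K ^ 2 := by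
    have h7 := h1 0
    have h8 := h1 1
    have h9 := h1 2
    simp only [Fin.sum_univ_three] at h3 ⊢
    linarith
  rw [← Finset.mul_sum]
  have h10 := mul_le_mul_of_nonneg_left h6 hG
  nlinarith

theorem fisher_trace : ∃ C : ℝ, 0 < C ∧ ∀ g : V → ℝ, Dn g → ∀ (y : V) (s : ℝ), 0 < s →
    JB g y s ≤ 2 * (∫ v in Metric.closedBall y (2 * s), g v * |trh g v|)
      + C * mB g y (2 * s) / s ^ 2 := by
  obtain ⟨K, hK, hKb⟩ := ct_bd
  refine ⟨12 * K ^ 2, by positivity, fun g hg y s hs0 => ?_⟩
  obtain ⟨c, hc⟩ : ∃ c : V → ℝ, c = fun v => chi s (v - y) := ⟨_, rfl⟩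
  have hcs : ContDiff ℝ (⊤ : ℕ∞) c := by
    rw [hc]
    exact (chi_smooth s).comp (contDiff_id.sub contDiff_const)
  have hcz : ∀ v, v ∉ Metric.closedBall y (2 * s) → c v = 0 := by
    intro v hv
    rw [hc]
    refine chi_zero hs0 ?_
    rw [mem_closedBall_iff_norm, not_le] at hv
    exact hv.le
  have hcc : HasCompactSupport c := HasCompactSupport.intro (isCompact_closedBall y (2 * s)) hcz
  have hc0 : ∀ v, 0 ≤ c v := fun v => by rw [hc]; exact chi_nonneg _ _
  have hc1 : ∀ v, c v ≤ 1 := fun v => by rw [hc]; exact chi_le_one _ _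
  have hcb : ∀ i v, |pd i c v| ≤ K / s := fun i v => by rw [hc]; exact hKb s y hs0 i v
  have hgs := hg.cls.smooth
  have hfi := ct_fi hg
  have hgc : Continuous g := hgs.continuous
  have htr : Continuous (trh g) := by
    unfold trh hs
    exact continuous_finsetSum _ fun i _ => (smooth_pd (gam_smooth hg i) i).continuous
  have hc2c : HasCompactSupport (fun v => c v ^ 2) :=
    hcc.comp_left (g := fun x : ℝ => x ^ 2) (by simp)
  have hF : Integrable (fun v => c v ^ 2 * fi g v) :=
    ((hcs.continuous.pow 2).mul hfi).integrable_of_hasCompactSupport hc2c.mul_right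
  have hGs : ∀ i, ContDiff ℝ (⊤ : ℕ∞) (fun v => c v ^ 2 * gam i g v) := fun i =>
    (hcs.pow 2).mul (gam_smooth hg i)
  have hGc : ∀ i, HasCompactSupport (fun v => c v ^ 2 * gam i g v) := fun i => hc2c.mul_right
  have hI : ∀ i, Integrable (fun v => g v * pd i (fun v => c v ^ 2 * gam i g v) v) := fun i =>
    (hgc.mul (smooth_pd (hGs i) i).continuous).integrable_of_hasCompactSupport
      (compact_pd (hGc i) i).mul_left
  have hJ : ∀ i, Integrable (fun v => pd i g v * (c v ^ 2 * gam i g v)) := fun i =>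
    ((smooth_pd hgs i).continuous.mul (hGs i).continuous).integrable_of_hasCompactSupport
      (hGc i).mul_left
  have e1 : ∫ v, c v ^ 2 * fi g v = ∑ i, ∫ v, pd i g v * (c v ^ 2 * gam i g v) := by
    rw [← integral_finsetSum _ fun i _ => hJ i]
    refine integral_congr_ae (Eventually.of_forall fun v => ?_)
    simp only
    unfold fi x2
    rw [Finset.mul_sum, Finset.mul_sum]
    refine Finset.sum_congr rfl fun i _ => ?_
    have h1 : pd i g v = g v * gam i g v := by
      unfold gam
      have := (hg.pos v).ne'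
      field_simp
    rw [h1]
    ring
  have e2 : ∀ i, ∫ v, pd i g v * (c v ^ 2 * gam i g v) =
      -∫ v, g v * pd i (fun v => c v ^ 2 * gam i g v) v := by
    intro i
    have := ibp (contDiff_one_of_smooth hgs) (contDiff_one_of_smooth (hGs i)) (hGc i) i
    rw [this, neg_neg]
  have e3 : ∫ v, c v ^ 2 * fi g v =
      ∫ v, -∑ i, g v * pd i (fun v => c v ^ 2 * gam i g v) v := by
    rw [e1, integral_neg, integral_finsetSum _ fun i _ => hI i, ← Finset.sum_neg_distrib]
    exact Finset.sum_congr rfl fun i _ => e2 i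
  have hBm : MeasurableSet (Metric.closedBall y (2 * s)) := Metric.isClosed_closedBall.measurableSet
  have i1 : IntegrableOn (fun v => g v * |trh g v|) (Metric.closedBall y (2 * s)) :=
    (hgc.mul htr.abs).continuousOn.integrableOn_compact (isCompact_closedBall _ _)
  have i2 : IntegrableOn g (Metric.closedBall y (2 * s)) :=
    hgc.continuousOn.integrableOn_compact (isCompact_closedBall _ _)
  have hpt : ∀ v, -∑ i, g v * pd i (fun v => c v ^ 2 * gam i g v) v ≤
      (Metric.closedBall y (2 * s)).indicator (fun v => g v * |trh g v|) v +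
      (1 / 2) * (c v ^ 2 * fi g v) +
      (Metric.closedBall y (2 * s)).indicator (fun v => 6 * (K / s) ^ 2 * g v) v := by
    intro v
    by_cases hv : v ∈ Metric.closedBall y (2 * s)
    · rw [indicator_of_mem hv, indicator_of_mem hv]
      have h1 : ∀ i, pd i (fun v => c v ^ 2 * gam i g v) v =
          c v ^ 2 * pd i (gam i g) v + 2 * c v * pd i c v * gam i g v := by
        intro i
        have d1 := differentiable_of_smooth (hcs.pow 2) v
        have d2 := differentiable_of_smooth (gam_smooth hg i) v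
        rw [pd_mul d1 d2]
        have h2 : pd i (fun v => c v ^ 2) v = 2 * c v * pd i c v := by
          have h3 : (fun v => c v ^ 2) = fun v => c v * c v := by
            funext v
            ring
          rw [h3, pd_mul (differentiable_of_smooth hcs v) (differentiable_of_smooth hcs v)]
          ring
        rw [h2]
      simp only [h1]
      have h4 := ct_alg (G := g v) (c := c v) (K := K / s) (a := fun i => pd i c v)
        (x := fun i => gam i g v) (D := fun i => pd i (gam i g) v) (hg.pos v).le (hc0 v) (hc1 v)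
        (fun i => hcb i v)
      unfold fi x2 trh hs
      linarith
    · rw [indicator_of_notMem hv, indicator_of_notMem hv]
      have hev : ∀ᶠ u in 𝓝 v, c u = 0 := by
        filter_upwards [Metric.isClosed_closedBall.isOpen_compl.mem_nhds hv] with u hu
        exact hcz u hu
      have h1 : ∀ i, pd i (fun v => c v ^ 2 * gam i g v) v = 0 := by
        intro i
        have h2 : (fun v => c v ^ 2 * gam i g v) =ᶠ[𝓝 v] fun _ => (0 : ℝ) := by
          filter_upwards [hev] with u hu
          rw [hu]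
          ring
        unfold pd
        rw [h2.fderiv_eq]
        simp
      simp only [h1]
      rw [hcz v hv]
      simp
  have hR1 : Integrable ((Metric.closedBall y (2 * s)).indicator (fun v => g v * |trh g v|)) :=
    (integrable_indicator_iff hBm).2 i1
  have hR3 : Integrable ((Metric.closedBall y (2 * s)).indicator
      (fun v => 6 * (K / s) ^ 2 * g v)) :=
    (integrable_indicator_iff hBm).2 (i2.const_mul _)
  have hR12 : Integrable (fun v => (Metric.closedBall y (2 * s)).indicator
      (fun v => g v * |trh g v|) v + (1 / 2) * (c v ^ 2 * fi g v)) := hR1.add (hF.const_mul _)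
  have hL : Integrable (fun v => -∑ i, g v * pd i (fun v => c v ^ 2 * gam i g v) v) :=
    (integrable_finsetSum _ fun i _ => hI i).neg
  have hR : Integrable (fun v => ((Metric.closedBall y (2 * s)).indicator
      (fun v => g v * |trh g v|) v + (1 / 2) * (c v ^ 2 * fi g v)) +
      (Metric.closedBall y (2 * s)).indicator (fun v => 6 * (K / s) ^ 2 * g v) v) := hR12.add hR3
  have e4 := integral_mono hL hR hpt
  have e5 : ∫ v, (((Metric.closedBall y (2 * s)).indicator
      (fun v => g v * |trh g v|) v + (1 / 2) * (c v ^ 2 * fi g v)) +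
      (Metric.closedBall y (2 * s)).indicator (fun v => 6 * (K / s) ^ 2 * g v) v) =
      (∫ v in Metric.closedBall y (2 * s), g v * |trh g v|) +
      (1 / 2) * (∫ v, c v ^ 2 * fi g v) + 6 * (K / s) ^ 2 * mB g y (2 * s) := by
    rw [integral_add hR12 hR3, integral_add hR1 (hF.const_mul _), integral_indicator hBm, integral_indicator hBm,
      integral_const_mul, integral_const_mul]
    rfl
  rw [e5, ← e3] at e4
  have e7 : JB g y s ≤ ∫ v, c v ^ 2 * fi g v := by
    unfold JB
    have h1 : ∫ v in Metric.closedBall y s, fi g v =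
        ∫ v in Metric.closedBall y s, c v ^ 2 * fi g v := by
      refine setIntegral_congr_fun Metric.isClosed_closedBall.measurableSet fun v hv => ?_
      have h2 : c v = 1 := by
        rw [hc]
        exact chi_one hs0 (by rwa [mem_closedBall_iff_norm] at hv)
      rw [h2]
      ring
    rw [h1]
    exact setIntegral_le_integral hF (Eventually.of_forall fun v =>
      mul_nonneg (sq_nonneg _) (mul_nonneg (hg.pos v).le
        (Finset.sum_nonneg fun _ _ => sq_nonneg _)))
  have e8 : 12 * K ^ 2 * mB g y (2 * s) / s ^ 2 = 2 * (6 * (K / s) ^ 2 * mB g y (2 * s)) := by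
    field_simp
    ring
  rw [e8]
  linarith

end Pool.Agent.LandauF
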