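import Pool.Agent.LandauG.WDefs

/-!
# LandauF, module FDefs: definitions for the local Fisher information estimates

`Dn g`: a positive density of class `Clw`.  `x2 g = |∇ log g|²`, `fi g = g |∇ log g|²`,
`hs g i j = ∂_i ∂_j log g`, `FJ φ g = ∫ φ fi g`, `GG φ g` its first variation, `dFJ φ g` its derivative
along `QL`.  `JB`, `mB`, `PB`, `pot`: local Fisher information, local mass, outside potential, potential.
`TQ`, `HZ`, `WD` the dissipation densities, `DE` the dissipation, `ER` the error functional,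
`Adm` the admissible weights.
-/

set_option autoImplicit false

namespace Pool.Agent.LandauF

open MeasureTheory Set Filter Topology Pool.Agent.Landau

/-- positive densities of class `Clw` -/
structure Dn (g : V → ℝ) : Prop where
  cls : Clw g
  pos : ∀ v, 0 < g v

/-- squared norm of the score `∇ log g` -/
noncomputable def x2 (g : V → ℝ) (v : V) : ℝ := ∑ i : Fin 3, gam i g v ^ 2

/-- Fisher density -/
noncomputable def fi (g : V → ℝ) (v : V) : ℝ := g v * x2 g v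

/-- the Hessian of `log g` -/
noncomputable def hs (g : V → ℝ) (i j : Fin 3) (v : V) : ℝ := pd i (gam j g) v

/-- trace of the Hessian of `log g` -/
noncomputable def trh (g : V → ℝ) (v : V) : ℝ := ∑ i : Fin 3, hs g i i v

/-- squared norm of the Hessian of `log g` -/
noncomputable def h2 (g : V → ℝ) (v : V) : ℝ := ∑ i : Fin 3, ∑ j : Fin 3, hs g i j v ^ 2

/-- weighted Fisher information -/
noncomputable def FJ (φ g : V → ℝ) : ℝ := ∫ v, φ v * fi g v

/-- first variation of `FJ φ` -/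
noncomputable def GG (φ g : V → ℝ) (v : V) : ℝ :=
  φ v * (-(2 * trh g v) - x2 g v) - 2 * ∑ i : Fin 3, pd i φ v * gam i g v

/-- derivative of `FJ φ` along the flow -/
noncomputable def dFJ (φ g : V → ℝ) : ℝ := ∫ v, GG φ g v * QL g v

/-- Fisher information of a ball -/
noncomputable def JB (g : V → ℝ) (y : V) (s : ℝ) : ℝ := ∫ v in Metric.closedBall y s, fi g v

/-- mass of a ball -/
noncomputable def mB (g : V → ℝ) (y : V) (s : ℝ) : ℝ := ∫ v in Metric.closedBall y s, g v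

/-- potential at `y` of the mass outside the ball of radius `10 s` -/
noncomputable def PB (g : V → ℝ) (y : V) (s : ℝ) : ℝ :=
  ∫ w in {w : V | 10 * s ≤ ‖w - y‖}, g w / ‖w - y‖

/-- potential -/
noncomputable def pot (g : V → ℝ) (v : V) : ℝ := ∫ w, g w / ‖v - w‖

/-- `(H z)_i`, `z = v - w`, `H` at `v` -/
noncomputable def hz (g : V → ℝ) (i : Fin 3) (v w : V) : ℝ :=
  ∑ j : Fin 3, hs g i j v * (v j - w j)

/-- `z · H z` -/
noncomputable def zhz (g : V → ℝ) (v w : V) : ℝ := ∑ i : Fin 3, hz g i v w * (v i - w i)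

/-- `r⁴ |(Π H Π)₀|²`: the trace free part of `H` on the plane orthogonal to `z` -/
noncomputable def TQ (g : V → ℝ) (v w : V) : ℝ :=
  ‖v - w‖ ^ 4 * h2 g v - 2 * ‖v - w‖ ^ 2 * (∑ i : Fin 3, hz g i v w ^ 2) + zhz g v w ^ 2
    - (1 / 2) * (‖v - w‖ ^ 2 * trh g v - zhz g v w) ^ 2

/-- `2 r² |Π H|²` -/
noncomputable def HZ (g : V → ℝ) (v w : V) : ℝ :=
  ∑ a : Fin 3, ∑ b : Fin 3, ∑ l : Fin 3,
    ((v a - w a) * hs g b l v - (v b - w b) * hs g a l v) ^ 2

/-- Kronecker delta -/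
noncomputable def kd (i j : Fin 3) : ℝ := if i = j then 1 else 0

/-- the derivative `∂_{v_l}` of `XX g a b v w` -/
noncomputable def DX (g : V → ℝ) (a b l : Fin 3) (v w : V) : ℝ :=
  kd l a * (gam b g v - gam b g w) + (v a - w a) * hs g b l v
    - kd l b * (gam a g v - gam a g w) - (v b - w b) * hs g a l v

/-- sum of the squares of the `DX` -/
noncomputable def WD (g : V → ℝ) (v w : V) : ℝ :=
  ∑ a : Fin 3, ∑ b : Fin 3, ∑ l : Fin 3, DX g a b l v w ^ 2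

/-- midpoint -/
noncomputable def mid (v w : V) : V := (1 / 2 : ℝ) • (v + w)

/-- the dissipation: pairs at any distance for the trace free part, pairs at distance at least
`ϱ` (at the midpoint) for the full `Π H` -/
noncomputable def DE (φ ϱ g : V → ℝ) : ENNReal :=
  (∫⁻ v, ∫⁻ w, ENNReal.ofReal (φ v * g v * g w * TQ g v w / ‖v - w‖ ^ 5)) +
    ∫⁻ v, ∫⁻ w, ENNReal.ofReal
      (if ϱ (mid v w) ≤ ‖v - w‖ then φ v * g v * g w * HZ g v w / ‖v - w‖ ^ 3 else 0)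

/-- kernel of the near errors -/
noncomputable def kN (ϱ : V → ℝ) (v w : V) : ℝ :=
  if ‖v - w‖ ≤ 2 * ϱ v then 1 / ‖v - w‖ ^ 2 else 0

/-- kernel of the far errors -/
noncomputable def kF (ϱ : V → ℝ) (v w : V) : ℝ :=
  if ϱ v ≤ 4 * ‖v - w‖ then 1 / ‖v - w‖ else 0

/-- the error functional -/
noncomputable def ER (φ ϱ κ g : V → ℝ) : ENNReal :=
  ∫⁻ v, ∫⁻ w, ENNReal.ofReal (φ v * g v * g w *
    (x2 g v * (κ v * kN ϱ v w + kF ϱ v w / ϱ v ^ 2) + kF ϱ v w / ϱ v ^ 4))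

/-- admissible weights: `φ` the weight, `ϱ` the size of the near zone, `κ` a bound for the
logarithmic gradient of `φ` at scale `ϱ` -/
structure Adm (ε : ℝ) (φ ϱ κ : V → ℝ) : Prop where
  smooth : ContDiff ℝ (⊤ : ℕ∞) φ
  compact : HasCompactSupport φ
  nonneg : ∀ v, 0 ≤ φ v
  rsmooth : ContDiff ℝ (⊤ : ℕ∞) (fun v => ϱ v ^ 2)
  rnonneg : ∀ v, 0 ≤ ϱ v
  rpos : ∀ v, φ v ≠ 0 → 0 < ϱ v
  rlip : ∀ v w, |ϱ v - ϱ w| ≤ ε * ‖v - w‖
  r2 : ∀ v, ∀ i j : Fin 3, |pd i (pd j (fun x => ϱ x ^ 2)) v| ≤ 1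
  r3 : ∀ v, ∀ i j k : Fin 3, |pd i (pd j (pd k (fun x => ϱ x ^ 2))) v| * ϱ v ≤ 1
  dom : ∃ K : ℝ, ∀ v, φ v ≤ K * ϱ v ^ 6
  kmeas : Measurable κ
  knonneg : ∀ v, 0 ≤ κ v
  krho : ∀ v, φ v ≠ 0 → κ v * ϱ v ≤ ε
  d1 : ∀ v x, ‖x - v‖ ≤ 4 * ϱ v → ∀ i : Fin 3, |pd i φ x| ≤ κ v * φ v
  d2 : ∀ v x, ‖x - v‖ ≤ 4 * ϱ v → ∀ i j : Fin 3, |pd i (pd j φ) x| * ϱ v ≤ κ v * φ v

end Pool.Agent.LandauF
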