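import Pool.Agent.LandauF.CTr
import Pool.Agent.LandauF.CFar

/-!
# LandauF, module FTopCell: dissipation of a cell

`fisher_trace`, `far_cell`, `aniso` (on the ball of radius `2 s`).  In `DE` with the weight
`indicator (closedBall y (2s)) 1`: the first integral dominates the pairs with both points in the ball, the
second one the pairs with `‖w - y‖ ≥ 10 s` (there `‖v - w‖ ≥ 8 s ≥ ϱ(mid)`).  With
`T = ∫_{B_2s} g |tr H|`, `E = ∫_{B_2s} g √h0`: `(JB - C m/s²)₊ ≤ 2 T`, `r T² ≤ C DE + C r E²`,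
`r E² ≤ (1/s) E² ≤ C DE`.
-/

set_option autoImplicit false

namespace Pool.Agent.LandauF

open MeasureTheory Set Filter Topology Pool.Agent.Landau

private theorem ftc_near (g : V → ℝ) (ϱ : V → ℝ) (y : V) (s : ℝ) :
    (∫⁻ v in Metric.closedBall y (2 * s), ∫⁻ w in Metric.closedBall y (2 * s),
        ENNReal.ofReal (g v * g w * TQ g v w / ‖v - w‖ ^ 5)) ≤
      DE (indicator (Metric.closedBall y (2 * s)) 1) ϱ g := by
  unfold DE
  refine le_trans ?_ le_self_add
  refine le_trans ?_ (setLIntegral_le_lintegral (Metric.closedBall y (2 * s)) _)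
  refine setLIntegral_mono' Metric.isClosed_closedBall.measurableSet fun v hv => ?_
  refine (setLIntegral_le_lintegral (Metric.closedBall y (2 * s)) _).trans ?_
  refine lintegral_mono fun w => ?_
  rw [indicator_of_mem hv, Pi.one_apply, one_mul]

private theorem ftc_far (g : V → ℝ) {ϱ : V → ℝ} (y : V) {s : ℝ} (hs : 0 < s)
    (hϱ : ∀ v, 0 ≤ ϱ v ∧ ϱ v ≤ s) :
    (∫⁻ v in Metric.closedBall y (2 * s), ∫⁻ w in {w : V | 10 * s ≤ ‖w - y‖},
        ENNReal.ofReal (g v * g w * HZ g v w / ‖v - w‖ ^ 3)) ≤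
      DE (indicator (Metric.closedBall y (2 * s)) 1) ϱ g := by
  unfold DE
  refine le_trans ?_ le_add_self
  refine le_trans ?_ (setLIntegral_le_lintegral (Metric.closedBall y (2 * s)) _)
  refine setLIntegral_mono' Metric.isClosed_closedBall.measurableSet fun v hv => ?_
  have hm : MeasurableSet {w : V | 10 * s ≤ ‖w - y‖} :=
    measurableSet_le measurable_const (by fun_prop)
  refine le_trans (setLIntegral_mono' hm fun w hw => ?_)
    (setLIntegral_le_lintegral {w : V | 10 * s ≤ ‖w - y‖} _)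
  have h1 : ‖v - y‖ ≤ 2 * s := by
    rw [← dist_eq_norm]
    exact hv
  have h2 : 10 * s ≤ ‖w - y‖ := hw
  have h3 : ‖w - y‖ ≤ ‖v - w‖ + ‖v - y‖ := by
    have e : w - y = -(v - w) + (v - y) := by abel
    rw [e]
    refine (norm_add_le _ _).trans ?_
    rw [norm_neg]
  have h4 : ϱ (mid v w) ≤ ‖v - w‖ := by
    have := (hϱ (mid v w)).2
    linarith
  rw [if_pos h4, indicator_of_mem hv, Pi.one_apply, one_mul]

/-- Lower bound of the dissipation of the pairs with first point in a ball. -/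
theorem CELL : ∃ c C : ℝ, 0 < c ∧ 0 < C ∧
    ∀ g : V → ℝ, Dn g → ∀ (y : V) (s : ℝ) (ϱ : V → ℝ), 0 < s → (∀ v, 0 ≤ ϱ v ∧ ϱ v ≤ s) →
      Measurable ϱ → ∀ r : ℝ, 0 ≤ r → r ≤ 1 / s → r * mB g y (2 * s) ≤ PB g y s →
      ENNReal.ofReal (c * r * (max 0 (JB g y s - C * mB g y (2 * s) / s ^ 2)) ^ 2) ≤
        DE (indicator (Metric.closedBall y (2 * s)) 1) ϱ g := by
  obtain ⟨C₁, hC₁, h1⟩ := fisher_trace
  obtain ⟨C₂, hC₂, h2⟩ := far_cell
  obtain ⟨c₃, hc₃, h3⟩ := aniso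
  have hK : 0 < C₂ * (1 + 2 / c₃) := by positivity
  refine ⟨1 / (4 * (C₂ * (1 + 2 / c₃))), C₁, by positivity, hC₁, ?_⟩
  intro g hg y s ϱ hs hϱ _ r hr0 hr1 hr2
  have a1 := h1 g hg y s hs
  have a2 := h2 g hg y s r hs hr0 hr2
  have a3 := h3 g hg y (2 * s) (by positivity)
  have b1 := ftc_near g ϱ y s
  have b2 := ftc_far g y hs hϱ
  set D := DE (indicator (Metric.closedBall y (2 * s)) 1) ϱ g with hD
  set T := ∫ v in Metric.closedBall y (2 * s), g v * |trh g v| with hT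
  set E := ∫ v in Metric.closedBall y (2 * s), g v * Real.sqrt (h0 g v) with hE
  have hT0 : 0 ≤ T := setIntegral_nonneg Metric.isClosed_closedBall.measurableSet fun v _ =>
    mul_nonneg (hg.pos v).le (abs_nonneg _)
  -- the trace free part
  have e1 : ENNReal.ofReal (C₂ * r * E ^ 2) ≤ ENNReal.ofReal (C₂ * (2 / c₃)) * D := by
    have e2 : C₂ * r * E ^ 2 ≤ C₂ * (2 / c₃) * (c₃ / (2 * s) * E ^ 2) := by
      have e3 : C₂ * (2 / c₃) * (c₃ / (2 * s) * E ^ 2) = C₂ * (1 / s) * E ^ 2 := by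
        field_simp
      rw [e3]
      exact mul_le_mul_of_nonneg_right (mul_le_mul_of_nonneg_left hr1 hC₂.le) (sq_nonneg _)
    refine (ENNReal.ofReal_le_ofReal e2).trans ?_
    rw [ENNReal.ofReal_mul (by positivity)]
    exact mul_le_mul_right (a3.trans b1) _
  have e4 : ENNReal.ofReal (r * T ^ 2) ≤ ENNReal.ofReal (C₂ * (1 + 2 / c₃)) * D := by
    refine a2.trans ?_
    have e5 : ENNReal.ofReal (C₂ * (1 + 2 / c₃)) * D =
        ENNReal.ofReal C₂ * D + ENNReal.ofReal (C₂ * (2 / c₃)) * D := by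
      rw [← add_mul, ← ENNReal.ofReal_add hC₂.le (by positivity)]
      congr 2
      ring
    rw [e5]
    exact add_le_add (mul_le_mul_right b2 _) e1
  have e6 : max 0 (JB g y s - C₁ * mB g y (2 * s) / s ^ 2) ≤ 2 * T :=
    max_le (by positivity) (by linarith)
  have e7 : (max 0 (JB g y s - C₁ * mB g y (2 * s) / s ^ 2)) ^ 2 ≤ 4 * T ^ 2 := by
    refine (pow_le_pow_left₀ (le_max_left _ _) e6 2).trans ?_
    exact le_of_eq (by ring)
  have e8 : 1 / (4 * (C₂ * (1 + 2 / c₃))) * r *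
      (max 0 (JB g y s - C₁ * mB g y (2 * s) / s ^ 2)) ^ 2 ≤
      (C₂ * (1 + 2 / c₃))⁻¹ * (r * T ^ 2) := by
    have e9 : (C₂ * (1 + 2 / c₃))⁻¹ * (r * T ^ 2) =
        1 / (4 * (C₂ * (1 + 2 / c₃))) * r * (4 * T ^ 2) := by
      field_simp
    rw [e9]
    exact mul_le_mul_of_nonneg_left e7 (by positivity)
  refine (ENNReal.ofReal_le_ofReal e8).trans ?_
  rw [ENNReal.ofReal_mul (by positivity)]
  refine (mul_le_mul_right e4 _).trans ?_
  rw [← mul_assoc, ← ENNReal.ofReal_mul (by positivity), inv_mul_cancel₀ hK.ne',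
    ENNReal.ofReal_one, one_mul]

end Pool.Agent.LandauF
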