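import Pool.Agent.LandauF.NOps
import Pool.Agent.Landau.KBd

/-!
# LandauF, module XaK: derivatives of the kernels away from the origin

`aK i j z = (1/(8π)) (δ_ij/‖z‖ - z_i z_j/‖z‖³)`, `bK i z = -(1/(4π)) z_i/‖z‖³`; both are smooth on `z ≠ 0`
(`‖z‖` is), `∂_k aK_ij = (1/(8π)) (-δ_ij z_k/‖z‖³ - (δ_ik z_j + δ_jk z_i)/‖z‖³ + 3 z_i z_j z_k/‖z‖⁵)`,
`∂_k bK_i = -(1/(4π)) (δ_ik/‖z‖³ - 3 z_i z_k/‖z‖⁵)`.
-/

set_option autoImplicit false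

namespace Pool.Agent.LandauF

open MeasureTheory Set Filter Topology Pool.Agent.Landau

private theorem xk_coord (i : Fin 3) (z : V) :
    ContDiffAt ℝ (⊤ : ℕ∞) (fun z : V => z i) z :=
  (EuclideanSpace.proj i : V →L[ℝ] ℝ).contDiff.contDiffAt

theorem aK_smoothAt (i j : Fin 3) {z : V} (hz : z ≠ 0) :
    ContDiffAt ℝ (⊤ : ℕ∞) (aK i j) z := by
  have hn : ContDiffAt ℝ (⊤ : ℕ∞) (fun z : V => ‖z‖) z := contDiffAt_norm ℝ hz
  have hr : ‖z‖ ≠ 0 := norm_ne_zero_iff.2 hz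
  unfold aK
  exact contDiffAt_const.mul ((contDiffAt_const.div hn hr).sub
    (((xk_coord i z).mul (xk_coord j z)).div (hn.pow 3) (pow_ne_zero 3 hr)))

theorem bK_smoothAt (i : Fin 3) {z : V} (hz : z ≠ 0) : ContDiffAt ℝ (⊤ : ℕ∞) (bK i) z := by
  have hn : ContDiffAt ℝ (⊤ : ℕ∞) (fun z : V => ‖z‖) z := contDiffAt_norm ℝ hz
  have hr : ‖z‖ ≠ 0 := norm_ne_zero_iff.2 hz
  unfold bK
  exact contDiffAt_const.mul ((xk_coord i z).div (hn.pow 3) (pow_ne_zero 3 hr))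

private theorem xk_dcoord (i : Fin 3) (z : V) : DifferentiableAt ℝ (fun z : V => z i) z :=
  (xk_coord i z).differentiableAt (by simp)

private theorem xk_dnorm {z : V} (hz : z ≠ 0) : DifferentiableAt ℝ (fun z : V => ‖z‖) z := by
  have hn : ContDiffAt ℝ (⊤ : ℕ∞) (fun z : V => ‖z‖) z := contDiffAt_norm ℝ hz
  exact hn.differentiableAt (by simp)

private theorem xk_pdcoord (i k : Fin 3) (z : V) : pd k (fun z : V => z i) z = kd i k := by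
  rw [KIbp.pd_coord]
  rfl

private theorem xk_pdnorm (k : Fin 3) {z : V} (hz : z ≠ 0) :
    pd k (fun z : V => ‖z‖) z = z k / ‖z‖ := by
  have hr : 0 < ‖z‖ := norm_pos_iff.2 hz
  have h1 : pd k (fun z : V => ‖z‖ ^ 2) z = 2 * z k := by
    unfold pd
    have h : HasFDerivAt (fun z : V => ‖z‖ ^ 2) (2 • (innerSL ℝ z)) z :=
      (hasStrictFDerivAt_norm_sq z).hasFDerivAt
    rw [h.fderiv]
    simp [EuclideanSpace.inner_single_right]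
  have h2 : pd k (fun z : V => ‖z‖ ^ 2) z = (2 * ‖z‖) * pd k (fun z : V => ‖z‖) z := by
    have h3 := pd_comp (g := fun z : V => ‖z‖) (v := z) (β := fun t => t ^ 2) (xk_dnorm hz)
      (by simpa using hasDerivAt_pow 2 ‖z‖) k
    exact h3
  rw [h1] at h2
  field_simp
  linarith

private theorem xk_dinv {z : V} (hz : z ≠ 0) : DifferentiableAt ℝ (fun z : V => ‖z‖⁻¹) z :=
  (xk_dnorm hz).inv (norm_ne_zero_iff.2 hz)

private theorem xk_pdinv (k : Fin 3) {z : V} (hz : z ≠ 0) :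
    pd k (fun z : V => ‖z‖⁻¹) z = -(z k) / ‖z‖ ^ 3 := by
  have hr : 0 < ‖z‖ := norm_pos_iff.2 hz
  have h3 := pd_comp (g := fun z : V => ‖z‖) (v := z) (β := fun t => t⁻¹) (xk_dnorm hz)
    (hasDerivAt_inv hr.ne') k
  rw [h3, xk_pdnorm k hz]
  field_simp

private theorem xk_dinv3 {z : V} (hz : z ≠ 0) :
    DifferentiableAt ℝ (fun z : V => (‖z‖⁻¹) ^ 3) z :=
  (xk_dinv hz).pow 3

private theorem xk_pdinv3 (k : Fin 3) {z : V} (hz : z ≠ 0) :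
    pd k (fun z : V => (‖z‖⁻¹) ^ 3) z = -(3 * z k) / ‖z‖ ^ 5 := by
  have hr : 0 < ‖z‖ := norm_pos_iff.2 hz
  have h3 := pd_comp (g := fun z : V => ‖z‖⁻¹) (v := z) (β := fun t => t ^ 3) (xk_dinv hz)
    (by simpa using hasDerivAt_pow 3 (‖z‖⁻¹)) k
  rw [h3, xk_pdinv k hz]
  field_simp

theorem pd_aK (i j k : Fin 3) {z : V} (hz : z ≠ 0) :
    pd k (aK i j) z = (1 / (8 * Real.pi)) * (-(kd i j * z k) / ‖z‖ ^ 3
      - (kd i k * z j + kd j k * z i) / ‖z‖ ^ 3 + 3 * z i * z j * z k / ‖z‖ ^ 5) := by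
  have hr : 0 < ‖z‖ := norm_pos_iff.2 hz
  have hfun : aK i j = fun z : V => (1 / (8 * Real.pi)) *
      (kd i j * ‖z‖⁻¹ + (-1) * ((z i * z j) * (‖z‖⁻¹) ^ 3)) := by
    funext z
    unfold aK kd
    rw [inv_pow, div_eq_mul_inv, div_eq_mul_inv (z i * z j)]
    ring
  have d1 : DifferentiableAt ℝ (fun z : V => kd i j * ‖z‖⁻¹) z := (xk_dinv hz).const_mul _
  have d2 : DifferentiableAt ℝ (fun z : V => z i * z j) z := (xk_dcoord i z).mul (xk_dcoord j z)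
  have d3 : DifferentiableAt ℝ (fun z : V => (z i * z j) * (‖z‖⁻¹) ^ 3) z := d2.mul (xk_dinv3 hz)
  have d4 : DifferentiableAt ℝ (fun z : V => (-1 : ℝ) * ((z i * z j) * (‖z‖⁻¹) ^ 3)) z :=
    d3.const_mul _
  have d5 : DifferentiableAt ℝ
      (fun z : V => kd i j * ‖z‖⁻¹ + (-1) * ((z i * z j) * (‖z‖⁻¹) ^ 3)) z := d1.add d4
  rw [hfun, KIbp.pd_const_mul _ d5, pd_add d1 d4,
    KIbp.pd_const_mul _ (xk_dinv hz), KIbp.pd_const_mul _ d3, pd_mul d2 (xk_dinv3 hz),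
    pd_mul (xk_dcoord i z) (xk_dcoord j z), xk_pdcoord, xk_pdcoord, xk_pdinv k hz,
    xk_pdinv3 k hz]
  field_simp
  ring

theorem pd_bK (i k : Fin 3) {z : V} (hz : z ≠ 0) :
    pd k (bK i) z = -(1 / (4 * Real.pi)) * (kd i k / ‖z‖ ^ 3 - 3 * z i * z k / ‖z‖ ^ 5) := by
  have hr : 0 < ‖z‖ := norm_pos_iff.2 hz
  have hfun : bK i = fun z : V => (-(1 / (4 * Real.pi))) * (z i * (‖z‖⁻¹) ^ 3) := by
    funext z
    unfold bK
    rw [inv_pow, div_eq_mul_inv (z i)]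
  have d1 : DifferentiableAt ℝ (fun z : V => z i * (‖z‖⁻¹) ^ 3) z :=
    (xk_dcoord i z).mul (xk_dinv3 hz)
  rw [hfun, KIbp.pd_const_mul _ d1,
    pd_mul (xk_dcoord i z) (xk_dinv3 hz), xk_pdcoord, xk_pdinv3 k hz]
  field_simp
  ring

/-- divergences -/
theorem div_aK (i : Fin 3) {z : V} (hz : z ≠ 0) :
    ∑ j : Fin 3, pd j (aK i j) z = bK i z := by
  have hr : 0 < ‖z‖ := norm_pos_iff.2 hz
  have hn := nsq z
  have h0 : z 0 ^ 2 = ‖z‖ ^ 2 - z 1 ^ 2 - z 2 ^ 2 := by rw [hn]; ring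
  rw [Fin.sum_univ_three, pd_aK i 0 0 hz, pd_aK i 1 1 hz, pd_aK i 2 2 hz]
  unfold bK
  have hs : kd i 0 * z 0 + kd i 1 * z 1 + kd i 2 * z 2 = z i := by
    fin_cases i <;> simp [kd]
  have h00 : kd 0 0 = 1 := by simp [kd]
  have h11 : kd 1 1 = 1 := by simp [kd]
  have h22 : kd 2 2 = 1 := by simp [kd]
  rw [h00, h11, h22]
  have key : -(kd i 0 * z 0) / ‖z‖ ^ 3 - (kd i 0 * z 0 + 1 * z i) / ‖z‖ ^ 3 +
        3 * z i * z 0 * z 0 / ‖z‖ ^ 5 +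
      (-(kd i 1 * z 1) / ‖z‖ ^ 3 - (kd i 1 * z 1 + 1 * z i) / ‖z‖ ^ 3 +
        3 * z i * z 1 * z 1 / ‖z‖ ^ 5) +
      (-(kd i 2 * z 2) / ‖z‖ ^ 3 - (kd i 2 * z 2 + 1 * z i) / ‖z‖ ^ 3 +
        3 * z i * z 2 * z 2 / ‖z‖ ^ 5) = -2 * z i / ‖z‖ ^ 3 := by
    have e1 : 3 * z i * z 0 * z 0 / ‖z‖ ^ 5 + 3 * z i * z 1 * z 1 / ‖z‖ ^ 5 +
        3 * z i * z 2 * z 2 / ‖z‖ ^ 5 = 3 * z i / ‖z‖ ^ 3 := by
      have : 3 * z i * z 0 * z 0 / ‖z‖ ^ 5 + 3 * z i * z 1 * z 1 / ‖z‖ ^ 5 +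
        3 * z i * z 2 * z 2 / ‖z‖ ^ 5 = 3 * z i * (z 0 ^ 2 + z 1 ^ 2 + z 2 ^ 2) / ‖z‖ ^ 5 := by
        ring
      rw [this, ← hn]
      field_simp
    have e2 : -(kd i 0 * z 0) / ‖z‖ ^ 3 - (kd i 0 * z 0 + 1 * z i) / ‖z‖ ^ 3 +
      (-(kd i 1 * z 1) / ‖z‖ ^ 3 - (kd i 1 * z 1 + 1 * z i) / ‖z‖ ^ 3) +
      (-(kd i 2 * z 2) / ‖z‖ ^ 3 - (kd i 2 * z 2 + 1 * z i) / ‖z‖ ^ 3) =
      (-2 * (kd i 0 * z 0 + kd i 1 * z 1 + kd i 2 * z 2) - 3 * z i) / ‖z‖ ^ 3 := by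
      ring
    rw [hs] at e2
    have e3 : (-2 * z i - 3 * z i) / ‖z‖ ^ 3 + 3 * z i / ‖z‖ ^ 3 = -2 * z i / ‖z‖ ^ 3 := by ring
    linarith
  rw [← mul_add, ← mul_add, key]
  field_simp
  ring

theorem div_bK {z : V} (hz : z ≠ 0) : ∑ i : Fin 3, pd i (bK i) z = 0 := by
  have hr : 0 < ‖z‖ := norm_pos_iff.2 hz
  have hn := nsq z
  rw [Fin.sum_univ_three, pd_bK 0 0 hz, pd_bK 1 1 hz, pd_bK 2 2 hz]
  have h00 : kd 0 0 = 1 := by simp [kd]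
  have h11 : kd 1 1 = 1 := by simp [kd]
  have h22 : kd 2 2 = 1 := by simp [kd]
  rw [h00, h11, h22]
  have e1 : 3 * z 0 * z 0 / ‖z‖ ^ 5 + 3 * z 1 * z 1 / ‖z‖ ^ 5 +
      3 * z 2 * z 2 / ‖z‖ ^ 5 = 3 / ‖z‖ ^ 3 := by
    have : 3 * z 0 * z 0 / ‖z‖ ^ 5 + 3 * z 1 * z 1 / ‖z‖ ^ 5 +
      3 * z 2 * z 2 / ‖z‖ ^ 5 = 3 * (z 0 ^ 2 + z 1 ^ 2 + z 2 ^ 2) / ‖z‖ ^ 5 := by
      ring
    rw [this, ← hn]
    field_simp
  rw [← mul_add, ← mul_add]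
  have e2 : (1 : ℝ) / ‖z‖ ^ 3 - 3 * z 0 * z 0 / ‖z‖ ^ 5 + (1 / ‖z‖ ^ 3 - 3 * z 1 * z 1 / ‖z‖ ^ 5) +
      (1 / ‖z‖ ^ 3 - 3 * z 2 * z 2 / ‖z‖ ^ 5) = 0 := by
    have e3 : (3 : ℝ) / ‖z‖ ^ 3 = 1 / ‖z‖ ^ 3 + 1 / ‖z‖ ^ 3 + 1 / ‖z‖ ^ 3 := by ring
    linarith
  rw [e2, mul_zero]

/-- homogeneous sizes -/
private def XHm (n : ℕ) (A : ℝ) (f : V → ℝ) : Prop :=
  0 ≤ A ∧ ∀ z : V, z ≠ 0 → DifferentiableAt ℝ f z ∧ |f z| ≤ A / ‖z‖ ^ n ∧
    ∀ l : Fin 3, |pd l f z| ≤ A / ‖z‖ ^ (n + 1)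

private theorem XHm.mul {n m : ℕ} {A B : ℝ} {f g : V → ℝ} (hf : XHm n A f) (hg : XHm m B g) :
    XHm (n + m) (2 * (A * B)) (fun z => f z * g z) := by
  refine ⟨by have := hf.1; have := hg.1; positivity, fun z hz => ?_⟩
  have hr : 0 < ‖z‖ := norm_pos_iff.2 hz
  obtain ⟨h1, h2, h3⟩ := hf.2 z hz
  obtain ⟨g1, g2, g3⟩ := hg.2 z hz
  have hA := hf.1
  have hB := hg.1
  refine ⟨h1.mul g1, ?_, fun l => ?_⟩
  · rw [abs_mul]
    calc |f z| * |g z| ≤ (A / ‖z‖ ^ n) * (B / ‖z‖ ^ m) :=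
          mul_le_mul h2 g2 (abs_nonneg _) (by positivity)
      _ = A * B / ‖z‖ ^ (n + m) := by rw [pow_add]; field_simp
      _ ≤ 2 * (A * B) / ‖z‖ ^ (n + m) := by
          apply div_le_div_of_nonneg_right _ (by positivity)
          nlinarith [mul_nonneg hA hB]
  · rw [pd_mul h1 g1]
    refine (abs_add_le _ _).trans ?_
    rw [abs_mul, abs_mul]
    calc |f z| * |pd l g z| + |pd l f z| * |g z|
        ≤ (A / ‖z‖ ^ n) * (B / ‖z‖ ^ (m + 1)) + (A / ‖z‖ ^ (n + 1)) * (B / ‖z‖ ^ m) :=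
          add_le_add (mul_le_mul h2 (g3 l) (abs_nonneg _) (by positivity))
            (mul_le_mul (h3 l) g2 (abs_nonneg _) (by positivity))
      _ = 2 * (A * B) / ‖z‖ ^ (n + m + 1) := by
          rw [pow_succ, pow_succ, pow_succ, pow_add]
          field_simp
          ring

private theorem XHm.add {n : ℕ} {A B : ℝ} {f g : V → ℝ} (hf : XHm n A f) (hg : XHm n B g) :
    XHm n (A + B) (fun z => f z + g z) := by
  refine ⟨add_nonneg hf.1 hg.1, fun z hz => ?_⟩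
  obtain ⟨h1, h2, h3⟩ := hf.2 z hz
  obtain ⟨g1, g2, g3⟩ := hg.2 z hz
  refine ⟨h1.add g1, ?_, fun l => ?_⟩
  · rw [add_div]
    exact (abs_add_le _ _).trans (add_le_add h2 g2)
  · rw [pd_add h1 g1, add_div]
    exact (abs_add_le _ _).trans (add_le_add (h3 l) (g3 l))

private theorem XHm.const {c A : ℝ} (hc : |c| ≤ A) : XHm 0 A (fun _ => c) := by
  have hA : 0 ≤ A := (abs_nonneg c).trans hc
  refine ⟨hA, fun z hz => ⟨differentiableAt_const c, by simpa using hc, fun l => ?_⟩⟩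
  unfold pd
  rw [fderiv_const_apply]
  simp only [zero_apply, abs_zero]
  positivity

private theorem xk_coord_le (i : Fin 3) (z : V) : |z i| ≤ ‖z‖ := by
  have := EuclideanSpace.norm_eq z
  have h := PiLp.norm_apply_le z i
  simpa using h

private theorem kd_abs (i j : Fin 3) : |kd i j| ≤ 1 := by
  unfold kd
  split_ifs <;> simp

private theorem XHm.inv : XHm 1 1 (fun z : V => ‖z‖⁻¹) := by
  refine ⟨zero_le_one, fun z hz => ?_⟩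
  have hr : 0 < ‖z‖ := norm_pos_iff.2 hz
  refine ⟨xk_dinv hz, ?_, fun l => ?_⟩
  · rw [abs_of_pos (inv_pos.2 hr), pow_one, one_div]
  · rw [xk_pdinv l hz, abs_div, abs_neg, abs_of_pos (pow_pos hr 3), div_le_div_iff₀ (by positivity)
      (by positivity)]
    have := xk_coord_le l z
    have h2 : ‖z‖ ^ 3 = ‖z‖ * ‖z‖ ^ (1 + 1) := by ring
    rw [h2, one_mul]
    exact mul_le_mul_of_nonneg_right this (by positivity)

private theorem XHm.unit (i : Fin 3) : XHm 0 2 (fun z : V => z i * ‖z‖⁻¹) := by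
  refine ⟨zero_le_two, fun z hz => ?_⟩
  have hr : 0 < ‖z‖ := norm_pos_iff.2 hz
  refine ⟨(xk_dcoord i z).mul (xk_dinv hz), ?_, fun l => ?_⟩
  · rw [abs_mul, abs_of_pos (inv_pos.2 hr), pow_zero, div_one, ← div_eq_mul_inv]
    have : |z i| / ‖z‖ ≤ 1 := (div_le_one hr).2 (xk_coord_le i z)
    linarith
  · rw [pd_mul (xk_dcoord i z) (xk_dinv hz), xk_pdcoord, xk_pdinv l hz]
    refine (abs_add_le _ _).trans ?_
    rw [abs_mul, abs_mul, abs_div, abs_neg, abs_of_pos (pow_pos hr 3), abs_of_pos (inv_pos.2 hr)]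
    have h1 : |z i| * (|z l| / ‖z‖ ^ 3) ≤ ‖z‖ * (‖z‖ / ‖z‖ ^ 3) :=
      mul_le_mul (xk_coord_le i z) (div_le_div_of_nonneg_right (xk_coord_le l z) (by positivity))
        (by positivity) hr.le
    have h2 : |kd i l| * ‖z‖⁻¹ ≤ 1 * ‖z‖⁻¹ :=
      mul_le_mul_of_nonneg_right (kd_abs i l) (by positivity)
    have h3 : ‖z‖ * (‖z‖ / ‖z‖ ^ 3) + 1 * ‖z‖⁻¹ = 2 / ‖z‖ ^ (0 + 1) := by
      field_simp
      ring
    linarith

/-- sizes of the derivatives -/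
theorem kernel_bounds : ∃ C : ℝ, 0 < C ∧ ∀ (i j k l : Fin 3) (z : V), z ≠ 0 →
    |pd k (aK i j) z| ≤ C / ‖z‖ ^ 2 ∧ |pd l (pd k (aK i j)) z| ≤ C / ‖z‖ ^ 3 ∧
      |pd k (bK i) z| ≤ C / ‖z‖ ^ 3 ∧ |pd l (pd k (bK i)) z| ≤ C / ‖z‖ ^ 4 := by
  have hcong : ∀ (f g : V → ℝ), (∀ z : V, z ≠ 0 → f z = g z) → ∀ z : V, z ≠ 0 → ∀ l : Fin 3,
      pd l f z = pd l g z := by
    intro f g h z hz l
    unfold pd
    have : f =ᶠ[𝓝 z] g := by
      filter_upwards [isOpen_compl_singleton.mem_nhds (show z ∈ ({0} : Set V)ᶜ from hz)] with x hx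
      exact h x hx
    rw [this.fderiv_eq]
  have h8 : |1 / (8 * Real.pi)| ≤ 1 := by
    have hpi := Real.pi_gt_three
    rw [abs_of_pos (by positivity), div_le_one (by positivity)]
    linarith
  have h4 : |-(1 / (4 * Real.pi))| ≤ 1 := by
    have hpi := Real.pi_gt_three
    rw [abs_neg, abs_of_pos (by positivity), div_le_one (by positivity)]
    linarith
  have hinv2 := XHm.inv.mul XHm.inv
  have hinv3 := hinv2.mul XHm.inv
  obtain ⟨CA, hCA, HA⟩ : ∃ CA : ℝ, 0 ≤ CA ∧ ∀ i j k : Fin 3, ∃ f : V → ℝ, XHm 2 CA f ∧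
      ∀ z : V, z ≠ 0 → pd k (aK i j) z = f z := by
    refine ⟨_, ?_, fun i j k => ⟨_, (XHm.const h8).mul
      (((((XHm.const (show |(-1 : ℝ)| ≤ 1 by simp)).mul (XHm.const (kd_abs i j))).mul
        (XHm.unit k)).add
      (((XHm.const (show |(-1 : ℝ)| ≤ 1 by simp)).mul ((XHm.const (kd_abs i k)).mul
        (XHm.unit j))).add
      (((XHm.const (show |(-1 : ℝ)| ≤ 1 by simp)).mul ((XHm.const (kd_abs j k)).mul
        (XHm.unit i))).add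
      ((XHm.const (show |(3 : ℝ)| ≤ 3 by simp)).mul ((XHm.unit i).mul ((XHm.unit j).mul
        (XHm.unit k))))))).mul hinv2), ?_⟩⟩
    · norm_num
    · intro z hz
      have hr : 0 < ‖z‖ := norm_pos_iff.2 hz
      rw [pd_aK i j k hz]
      field_simp
      ring
  obtain ⟨CB, hCB, HB⟩ : ∃ CB : ℝ, 0 ≤ CB ∧ ∀ i k : Fin 3, ∃ f : V → ℝ, XHm 3 CB f ∧
      ∀ z : V, z ≠ 0 → pd k (bK i) z = f z := by
    refine ⟨_, ?_, fun i k => ⟨_, (XHm.const h4).mul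
      (((XHm.const (kd_abs i k)).add
      ((XHm.const (show |(-3 : ℝ)| ≤ 3 by simp)).mul ((XHm.unit i).mul (XHm.unit k)))).mul
        hinv3), ?_⟩⟩
    · norm_num
    · intro z hz
      have hr : 0 < ‖z‖ := norm_pos_iff.2 hz
      rw [pd_bK i k hz]
      field_simp
      ring
  refine ⟨CA + CB + 1, by positivity, fun i j k l z hz => ?_⟩
  have hr : 0 < ‖z‖ := norm_pos_iff.2 hz
  obtain ⟨f, hf, hfe⟩ := HA i j k
  obtain ⟨g, hg, hge⟩ := HB i k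
  obtain ⟨-, f2, f3⟩ := hf.2 z hz
  obtain ⟨-, g2, g3⟩ := hg.2 z hz
  have hA : CA ≤ CA + CB + 1 := by linarith
  have hB : CB ≤ CA + CB + 1 := by linarith
  refine ⟨?_, ?_, ?_, ?_⟩
  · rw [hfe z hz]
    exact f2.trans (div_le_div_of_nonneg_right hA (by positivity))
  · rw [hcong _ _ hfe z hz l]
    exact (f3 l).trans (div_le_div_of_nonneg_right hA (by positivity))
  · rw [hge z hz]
    exact g2.trans (div_le_div_of_nonneg_right hB (by positivity))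
  · rw [hcong _ _ hge z hz l]
    exact (g3 l).trans (div_le_div_of_nonneg_right hB (by positivity))

end Pool.Agent.LandauF
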