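import Pool.Agent.LandauF.XEta
import Pool.Agent.LandauF.XaK
import Pool.Agent.LandauF.NTrans

/-!
# LandauF, module XKer: the far kernels

`kf ϱ δ i j = (1 - eta) aK_ij(v - w)` is smooth on pairs (`eta = 1` near the diagonal, `4 r² ≤ SS`, `aK` smooth off
`0`), and for `v ≠ w`, with `z = v - w`: `dw j kf_ij = -(dw j eta) aK_ij(z) - (1 - eta) ∂_j aK_ij(z)`, so
`be_i = ∑_j (dw j eta) aK_ij(z) + (1 - eta) bK_i(z)`, and
`dbe = ∑_ij (dv i dw j eta) aK_ij + ∑_j (dw j eta) bK_j - ∑_i (dv i eta) bK_i` (`div_aK`, `div_bK`).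
`kf_quad`: `kernel_quad` of `Landau/KBd.lean` for each row of `H`, symmetry of `H`.
-/

set_option autoImplicit false

namespace Pool.Agent.LandauF

open MeasureTheory Set Filter Topology Pool.Agent.Landau

private theorem xk_sub (p : V × V) : HasFDerivAt (fun x : V × V => x.1 - x.2)
    (ContinuousLinearMap.fst ℝ V V - ContinuousLinearMap.snd ℝ V V) p :=
  hasFDerivAt_fst.sub hasFDerivAt_snd

private theorem xk_comp {f : V → ℝ} {p : V × V} (hf : DifferentiableAt ℝ f (p.1 - p.2)) :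
    HasFDerivAt (fun x : V × V => f (x.1 - x.2)) ((fderiv ℝ f (p.1 - p.2)).comp
      (ContinuousLinearMap.fst ℝ V V - ContinuousLinearMap.snd ℝ V V)) p := by
  have h1 : HasFDerivAt f (fderiv ℝ f (p.1 - p.2)) ((fun x : V × V => x.1 - x.2) p) :=
    hf.hasFDerivAt
  exact h1.comp p (xk_sub p)

private theorem xk_dv_sub {f : V → ℝ} {p : V × V} (hf : DifferentiableAt ℝ f (p.1 - p.2))
    (k : Fin 3) : dv k (fun x => f (x.1 - x.2)) p = pd k f (p.1 - p.2) := by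
  unfold dv pd
  rw [(xk_comp hf).fderiv]
  simp

private theorem xk_dw_sub {f : V → ℝ} {p : V × V} (hf : DifferentiableAt ℝ f (p.1 - p.2))
    (k : Fin 3) : dw k (fun x => f (x.1 - x.2)) p = -pd k f (p.1 - p.2) := by
  unfold dw pd
  rw [(xk_comp hf).fderiv]
  simp

private theorem xk_dv_mul {P Q : V × V → ℝ} {p : V × V} (hP : DifferentiableAt ℝ P p)
    (hQ : DifferentiableAt ℝ Q p) (k : Fin 3) :
    dv k (fun x => P x * Q x) p = P p * dv k Q p + dv k P p * Q p := by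
  unfold dv
  rw [fderiv_fun_mul hP hQ]
  simp
  ring

private theorem xk_dw_mul {P Q : V × V → ℝ} {p : V × V} (hP : DifferentiableAt ℝ P p)
    (hQ : DifferentiableAt ℝ Q p) (k : Fin 3) :
    dw k (fun x => P x * Q x) p = P p * dw k Q p + dw k P p * Q p := by
  unfold dw
  rw [fderiv_fun_mul hP hQ]
  simp
  ring

private theorem xk_dv_one {P : V × V → ℝ} {p : V × V} (k : Fin 3) :
    dv k (fun x => 1 - P x) p = -dv k P p := by
  unfold dv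
  rw [fderiv_const_sub]
  simp

private theorem xk_dw_one {P : V × V → ℝ} {p : V × V} (k : Fin 3) :
    dw k (fun x => 1 - P x) p = -dw k P p := by
  unfold dw
  rw [fderiv_const_sub]
  simp

private theorem xk_dv_add {P Q : V × V → ℝ} {p : V × V} (hP : DifferentiableAt ℝ P p)
    (hQ : DifferentiableAt ℝ Q p) (k : Fin 3) :
    dv k (fun x => P x + Q x) p = dv k P p + dv k Q p := by
  unfold dv
  rw [fderiv_fun_add hP hQ]
  simp

private theorem xk_dv_sum {P : Fin 3 → V × V → ℝ} {p : V × V}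
    (hP : ∀ j, DifferentiableAt ℝ (P j) p) (k : Fin 3) :
    dv k (fun x => ∑ j, P j x) p = ∑ j, dv k (P j) p := by
  unfold dv
  rw [fderiv_fun_sum fun j _ => hP j]
  simp

private theorem xk_dv_congr {P Q : V × V → ℝ} {p : V × V} (h : P =ᶠ[𝓝 p] Q) (k : Fin 3) :
    dv k P p = dv k Q p := by
  unfold dv
  rw [h.fderiv_eq]

private theorem xk_dv0 {P : V × V → ℝ} {p : V × V} (h : ∀ᶠ q in 𝓝 p, P q = 0) (k : Fin 3) :
    ∀ᶠ q in 𝓝 p, dv k P q = 0 := by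
  filter_upwards [h.eventually_nhds] with q hq
  have h1 : P =ᶠ[𝓝 q] fun _ => (0 : ℝ) := hq
  unfold dv
  rw [h1.fderiv_eq]
  simp

private theorem xk_dw0 {P : V × V → ℝ} {p : V × V} (h : ∀ᶠ q in 𝓝 p, P q = 0) (k : Fin 3) :
    ∀ᶠ q in 𝓝 p, dw k P q = 0 := by
  filter_upwards [h.eventually_nhds] with q hq
  have h1 : P =ᶠ[𝓝 q] fun _ => (0 : ℝ) := hq
  unfold dw
  rw [h1.fderiv_eq]
  simp

private theorem xk_near {ϱ : V → ℝ} (h : ContDiff ℝ (⊤ : ℕ∞) (fun v => ϱ v ^ 2)) {δ : ℝ}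
    (hδ : 0 < δ) (p : V × V) (hp : 4 * ‖p.1 - p.2‖ ^ 2 < SS ϱ δ p) (i j : Fin 3) :
    ∀ᶠ q in 𝓝 p, kf ϱ δ i j q = 0 := by
  have h1 : Continuous fun q : V × V => 4 * ‖q.1 - q.2‖ ^ 2 := by fun_prop
  have h2 : Continuous (SS ϱ δ) := (SS_smooth h δ).continuous
  have h3 : IsOpen {q : V × V | 4 * ‖q.1 - q.2‖ ^ 2 < SS ϱ δ q} := isOpen_lt h1 h2
  filter_upwards [h3.mem_nhds hp] with q hq
  unfold kf
  rw [eta_one hδ (le_of_lt hq), sub_self, zero_mul]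

private theorem xk_diag {ϱ : V → ℝ} {δ : ℝ} (hδ : 0 < δ) (p : V × V) (hp : p.1 = p.2) :
    4 * ‖p.1 - p.2‖ ^ 2 < SS ϱ δ p := by
  rw [hp, sub_self, norm_zero]
  have := SS_pos ϱ hδ p
  simpa using this

private theorem xk_ne {p : V × V} (hp : p.1 ≠ p.2) : ∀ᶠ q : V × V in 𝓝 p, q.1 ≠ q.2 := by
  have h1 : IsOpen {q : V × V | q.1 ≠ q.2} := isOpen_ne_fun continuous_fst continuous_snd
  exact h1.mem_nhds hp

private theorem xk_sm {f : V → ℝ} {p : V × V} (hf : ContDiffAt ℝ (⊤ : ℕ∞) f (p.1 - p.2)) :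
    ContDiffAt ℝ (⊤ : ℕ∞) (fun x : V × V => f (x.1 - x.2)) p := by
  have h1 : ContDiffAt ℝ (⊤ : ℕ∞) (fun x : V × V => x.1 - x.2) p :=
    (contDiff_fst.sub contDiff_snd).contDiffAt
  exact ContDiffAt.comp p (g := f) (f := fun x : V × V => x.1 - x.2) hf h1

private theorem xk_da {P : V × V → ℝ} (hP : ContDiff ℝ (⊤ : ℕ∞) P) (p : V × V) :
    DifferentiableAt ℝ P p := hP.differentiable (by simp) p

theorem kf_smooth {ϱ : V → ℝ} (h : ContDiff ℝ (⊤ : ℕ∞) (fun v => ϱ v ^ 2)) {δ : ℝ} (hδ : 0 < δ)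
    (i j : Fin 3) : ContDiff ℝ (⊤ : ℕ∞) (kf ϱ δ i j) := by
  rw [contDiff_iff_contDiffAt]
  intro p
  by_cases hp : p.1 = p.2
  · have h1 : ContDiffAt ℝ (⊤ : ℕ∞) (fun _ : V × V => (0 : ℝ)) p := contDiffAt_const
    exact h1.congr_of_eventuallyEq (xk_near h hδ p (xk_diag hδ p hp) i j)
  · have h1 : ContDiffAt ℝ (⊤ : ℕ∞) (fun q => 1 - eta ϱ δ q) p :=
      (contDiff_const.sub (eta_smooth h hδ)).contDiffAt
    exact h1.mul (xk_sm (aK_smoothAt i j (sub_ne_zero.2 hp)))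

theorem be_smooth {ϱ : V → ℝ} (h : ContDiff ℝ (⊤ : ℕ∞) (fun v => ϱ v ^ 2)) {δ : ℝ} (hδ : 0 < δ)
    (i : Fin 3) : ContDiff ℝ (⊤ : ℕ∞) (be ϱ δ i) := by
  have h1 : be ϱ δ i = fun p => -∑ j : Fin 3, dw j (kf ϱ δ i j) p := rfl
  rw [h1]
  exact (ContDiff.sum fun j _ => smooth_dw (kf_smooth h hδ i j) j).neg

theorem dbe_smooth {ϱ : V → ℝ} (h : ContDiff ℝ (⊤ : ℕ∞) (fun v => ϱ v ^ 2)) {δ : ℝ} (hδ : 0 < δ) :
    ContDiff ℝ (⊤ : ℕ∞) (dbe ϱ δ) := by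
  have h1 : dbe ϱ δ = fun p => ∑ i : Fin 3, dv i (be ϱ δ i) p := rfl
  rw [h1]
  exact ContDiff.sum fun i _ => smooth_dv (be_smooth h hδ i) i

/-- the far kernels vanish near the diagonal -/
theorem kf_near {ϱ : V → ℝ} (h : ContDiff ℝ (⊤ : ℕ∞) (fun v => ϱ v ^ 2)) {δ : ℝ} (hδ : 0 < δ)
    (p : V × V) (hp : 4 * ‖p.1 - p.2‖ ^ 2 < SS ϱ δ p) (i j k : Fin 3) :
    kf ϱ δ i j p = 0 ∧ dv k (kf ϱ δ i j) p = 0 ∧ be ϱ δ i p = 0 ∧ dv k (be ϱ δ i) p = 0 ∧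
      dv k (dbe ϱ δ) p = 0 := by
  have e1 := fun i j => xk_near h hδ p hp i j
  have e2 : ∀ i, ∀ᶠ q in 𝓝 p, be ϱ δ i q = 0 := by
    intro i
    have h1 : ∀ᶠ q in 𝓝 p, ∀ j, dw j (kf ϱ δ i j) q = 0 :=
      eventually_all.2 fun j => xk_dw0 (e1 i j) j
    filter_upwards [h1] with q hq
    unfold be
    simp only [hq]
    simp
  have e3 : ∀ᶠ q in 𝓝 p, dbe ϱ δ q = 0 := by
    have h1 : ∀ᶠ q in 𝓝 p, ∀ i, dv i (be ϱ δ i) q = 0 :=
      eventually_all.2 fun i => xk_dv0 (e2 i) i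
    filter_upwards [h1] with q hq
    unfold dbe
    simp only [hq]
    simp
  exact ⟨(e1 i j).self_of_nhds, (xk_dv0 (e1 i j) k).self_of_nhds, (e2 i).self_of_nhds,
    (xk_dv0 (e2 i) k).self_of_nhds, (xk_dv0 e3 k).self_of_nhds⟩

private theorem xk_eta_da {ϱ : V → ℝ} (h : ContDiff ℝ (⊤ : ℕ∞) (fun v => ϱ v ^ 2)) {δ : ℝ}
    (hδ : 0 < δ) (p : V × V) : DifferentiableAt ℝ (fun q => 1 - eta ϱ δ q) p :=
  xk_da (contDiff_const.sub (eta_smooth h hδ)) p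

private theorem xk_aK_da (i j : Fin 3) {z : V} (hz : z ≠ 0) : DifferentiableAt ℝ (aK i j) z :=
  (aK_smoothAt i j hz).differentiableAt (by simp)

private theorem xk_bK_da (i : Fin 3) {z : V} (hz : z ≠ 0) : DifferentiableAt ℝ (bK i) z :=
  (bK_smoothAt i hz).differentiableAt (by simp)

theorem dv_kf {ϱ : V → ℝ} (h : ContDiff ℝ (⊤ : ℕ∞) (fun v => ϱ v ^ 2)) {δ : ℝ} (hδ : 0 < δ)
    (p : V × V) (hp : p.1 ≠ p.2) (i j k : Fin 3) :
    dv k (kf ϱ δ i j) p = -(dv k (eta ϱ δ) p * aK i j (p.1 - p.2))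
      + (1 - eta ϱ δ p) * pd k (aK i j) (p.1 - p.2) := by
  have hz : p.1 - p.2 ≠ 0 := sub_ne_zero.2 hp
  have h1 : kf ϱ δ i j = fun q : V × V => (fun q => 1 - eta ϱ δ q) q *
      (fun q : V × V => aK i j (q.1 - q.2)) q := rfl
  rw [h1, xk_dv_mul (xk_eta_da h hδ p) (xk_comp (xk_aK_da i j hz)).differentiableAt,
    xk_dv_sub (xk_aK_da i j hz), xk_dv_one]
  ring

theorem be_eq {ϱ : V → ℝ} (h : ContDiff ℝ (⊤ : ℕ∞) (fun v => ϱ v ^ 2)) {δ : ℝ} (hδ : 0 < δ)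
    (p : V × V) (hp : p.1 ≠ p.2) (i : Fin 3) :
    be ϱ δ i p = (∑ j : Fin 3, dw j (eta ϱ δ) p * aK i j (p.1 - p.2))
      + (1 - eta ϱ δ p) * bK i (p.1 - p.2) := by
  have hz : p.1 - p.2 ≠ 0 := sub_ne_zero.2 hp
  have h2 : ∀ j, dw j (kf ϱ δ i j) p = -(dw j (eta ϱ δ) p * aK i j (p.1 - p.2)) -
      (1 - eta ϱ δ p) * pd j (aK i j) (p.1 - p.2) := by
    intro j
    have h1 : kf ϱ δ i j = fun q : V × V => (fun q => 1 - eta ϱ δ q) q *
        (fun q : V × V => aK i j (q.1 - q.2)) q := rfl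
    rw [h1, xk_dw_mul (xk_eta_da h hδ p) (xk_comp (xk_aK_da i j hz)).differentiableAt,
      xk_dw_sub (xk_aK_da i j hz), xk_dw_one]
    ring
  unfold be
  simp only [h2]
  rw [Finset.sum_sub_distrib, Finset.sum_neg_distrib, ← Finset.mul_sum, div_aK i hz]
  ring

theorem dbe_eq {ϱ : V → ℝ} (h : ContDiff ℝ (⊤ : ℕ∞) (fun v => ϱ v ^ 2)) {δ : ℝ} (hδ : 0 < δ)
    (p : V × V) (hp : p.1 ≠ p.2) :
    dbe ϱ δ p = (∑ i : Fin 3, ∑ j : Fin 3, dv i (dw j (eta ϱ δ)) p * aK i j (p.1 - p.2))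
      + (∑ j : Fin 3, dw j (eta ϱ δ) p * bK j (p.1 - p.2))
      - ∑ i : Fin 3, dv i (eta ϱ δ) p * bK i (p.1 - p.2) := by
  have hz : p.1 - p.2 ≠ 0 := sub_ne_zero.2 hp
  have hη := eta_smooth h hδ
  have h2 : ∀ i, dv i (be ϱ δ i) p = (∑ j : Fin 3, (dw j (eta ϱ δ) p * pd i (aK i j) (p.1 - p.2) +
      dv i (dw j (eta ϱ δ)) p * aK i j (p.1 - p.2))) +
      ((1 - eta ϱ δ p) * pd i (bK i) (p.1 - p.2) - dv i (eta ϱ δ) p * bK i (p.1 - p.2)) := by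
    intro i
    have h3 : be ϱ δ i =ᶠ[𝓝 p] fun q : V × V =>
        (fun q : V × V => ∑ j : Fin 3, (fun q : V × V => dw j (eta ϱ δ) q *
          (fun q : V × V => aK i j (q.1 - q.2)) q) q) q +
        (fun q : V × V => (fun q => 1 - eta ϱ δ q) q * (fun q : V × V => bK i (q.1 - q.2)) q) q := by
      filter_upwards [xk_ne hp] with q hq
      exact be_eq h hδ q hq i
    have d1 : ∀ j, DifferentiableAt ℝ (fun q : V × V => aK i j (q.1 - q.2)) p := fun j =>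
      (xk_comp (xk_aK_da i j hz)).differentiableAt
    have d2 : DifferentiableAt ℝ (fun q : V × V => bK i (q.1 - q.2)) p :=
      (xk_comp (xk_bK_da i hz)).differentiableAt
    have d3 : ∀ j, DifferentiableAt ℝ (dw j (eta ϱ δ)) p := fun j => xk_da (smooth_dw hη j) p
    have d4 : ∀ j, DifferentiableAt ℝ (fun q : V × V => dw j (eta ϱ δ) q *
        (fun q : V × V => aK i j (q.1 - q.2)) q) p := fun j => (d3 j).mul (d1 j)
    have d5 := xk_eta_da h hδ p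
    have d6 : DifferentiableAt ℝ (fun q : V × V => ∑ j : Fin 3, (fun q : V × V =>
        dw j (eta ϱ δ) q * (fun q : V × V => aK i j (q.1 - q.2)) q) q) p :=
      DifferentiableAt.fun_sum fun j _ => d4 j
    have d7 : DifferentiableAt ℝ (fun q : V × V => (fun q => 1 - eta ϱ δ q) q *
        (fun q : V × V => bK i (q.1 - q.2)) q) p := d5.mul d2
    rw [xk_dv_congr h3, xk_dv_add d6 d7, xk_dv_sum d4, xk_dv_mul d5 d2,
      xk_dv_sub (xk_bK_da i hz), xk_dv_one]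
    congr 1
    · refine Finset.sum_congr rfl fun j _ => ?_
      rw [xk_dv_mul (d3 j) (d1 j), xk_dv_sub (xk_aK_da i j hz)]
    · ring
  unfold dbe
  simp only [h2]
  rw [Finset.sum_add_distrib]
  have h4 : ∑ i : Fin 3, ∑ j : Fin 3, (dw j (eta ϱ δ) p * pd i (aK i j) (p.1 - p.2) +
      dv i (dw j (eta ϱ δ)) p * aK i j (p.1 - p.2)) =
      (∑ j : Fin 3, dw j (eta ϱ δ) p * bK j (p.1 - p.2)) +
      ∑ i : Fin 3, ∑ j : Fin 3, dv i (dw j (eta ϱ δ)) p * aK i j (p.1 - p.2) := by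
    simp only [Finset.sum_add_distrib]
    congr 1
    rw [Finset.sum_comm]
    refine Finset.sum_congr rfl fun j _ => ?_
    rw [← Finset.mul_sum, ← div_aK j hz]
    have h5 : ∀ i : Fin 3, aK i j = aK j i := fun i => funext fun z => aK_symm i j z
    simp only [h5]
  have h6 : ∑ i : Fin 3, ((1 - eta ϱ δ p) * pd i (bK i) (p.1 - p.2) -
      dv i (eta ϱ δ) p * bK i (p.1 - p.2)) = -∑ i : Fin 3, dv i (eta ϱ δ) p * bK i (p.1 - p.2) := by
    rw [Finset.sum_sub_distrib, ← Finset.mul_sum, div_bK hz]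
    ring
  rw [h4, h6]
  ring

/-- the quadratic form -/
theorem kf_quad (ϱ : V → ℝ) (δ : ℝ) (p : V × V) (H : Fin 3 → Fin 3 → ℝ)
    (hH : ∀ i j, H i j = H j i) :
    ∑ k : Fin 3, ∑ i : Fin 3, ∑ j : Fin 3, kf ϱ δ i j p * H k i * H k j =
      (1 / (16 * Real.pi)) * ((1 - eta ϱ δ p) / ‖p.1 - p.2‖ ^ 3) *
        ∑ a : Fin 3, ∑ b : Fin 3, ∑ l : Fin 3,
          ((p.1 a - p.2 a) * H b l - (p.1 b - p.2 b) * H a l) ^ 2 := by
  have h1 : ∀ k : Fin 3, ∑ i : Fin 3, ∑ j : Fin 3, kf ϱ δ i j p * H k i * H k j =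
      (1 / (16 * Real.pi)) * ((1 - eta ϱ δ p) / ‖p.1 - p.2‖ ^ 3) *
        ∑ a : Fin 3, ∑ b : Fin 3, ((p.1 a - p.2 a) * H b k - (p.1 b - p.2 b) * H a k) ^ 2 := by
    intro k
    have h2 : ∑ i : Fin 3, ∑ j : Fin 3, kf ϱ δ i j p * H k i * H k j =
        (1 - eta ϱ δ p) * ∑ i : Fin 3, ∑ j : Fin 3, aK i j (p.1 - p.2) * H k i * H k j := by
      rw [Finset.mul_sum]
      refine Finset.sum_congr rfl fun i _ => ?_
      rw [Finset.mul_sum]
      refine Finset.sum_congr rfl fun j _ => ?_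
      unfold kf
      ring
    have h3 : ∑ a : Fin 3, ∑ b : Fin 3, ((p.1 - p.2) a * H k b - (p.1 - p.2) b * H k a) ^ 2 =
        ∑ a : Fin 3, ∑ b : Fin 3, ((p.1 a - p.2 a) * H b k - (p.1 b - p.2 b) * H a k) ^ 2 := by
      refine Finset.sum_congr rfl fun a _ => Finset.sum_congr rfl fun b _ => ?_
      rw [hH k b, hH k a]
      rfl
    rw [h2, kernel_quad (p.1 - p.2) (H k), h3]
    ring
  simp only [h1]
  rw [← Finset.mul_sum]
  congr 1
  rw [Finset.sum_comm]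
  refine Finset.sum_congr rfl fun a _ => ?_
  rw [Finset.sum_comm]

end Pool.Agent.LandauF
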