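import Pool.Agent.LandauF.NEps
import Pool.Agent.LandauF.XKer
import Pool.Agent.LandauG.WWeak

/-!
# LandauF, module NSplit: splitting of `dFJ` in near and far parts

`G = GG φ g` is smooth with compact support, so by `QL_weakW`
`dFJ φ g = -∑ ∫ abar_ij ∂_i G ∂_j g + ∑ ∫ bbar_i g ∂_i G`, with `∂_j g = g X_j`, `abar_ij(v) = ∫ aK_ij(v - w) g(w)`,
`bbar_i(v) = ∫ bK_i(v - w) g(w)`.  Split `aK = eta aK + (1 - eta) aK`.  For fixed `v`,
`w ↦ eta(v,w) g(w)` is smooth with compact support (`ϱ` is `ε₀`-Lipschitz, so `r² < SS` bounds `w`) and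
`∑_j ∫ aK_ij(v - w) ∂_j (eta g)(w) dw = ∫ bK_i(v - w) (eta g)(w) dw` (integration by parts against the singular
kernel, `Landau/KIbp.lean`); since `eta = 1` near the diagonal, `(1 - eta) aK_ij` is smooth and
`be_i = -∑_j ∂_{w_j} ((1 - eta) aK_ij) = ∑_j (∂_{w_j} eta) aK_ij + (1 - eta) bK_i` (for `v ≠ w`), so
`bbar_i(v) = ∑_j ∫ eta aK_ij ∂_j g(w) dw + ∫ be_i(v,w) g(w) dw`.  Hence
`dFJ = -∫∫ ∂_i G(v) eta aK_ij F (X_j(v) - X_j(w)) + ∫ F0`, and the first integral is antisymmetrised in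
`(v, w)` (`eta`, `aK`, `F` symmetric): it equals `∫ N0`.
-/

set_option autoImplicit false

namespace Pool.Agent.LandauF

open MeasureTheory Set Filter Topology Pool.Agent.Landau

/-! ### compact supports -/

theorem nsp_GG_compact {φ : V → ℝ} (hc : HasCompactSupport φ) (g : V → ℝ) :
    HasCompactSupport (GG φ g) := by
  refine HasCompactSupport.intro (K := tsupport φ) hc fun v hv => ?_
  have h1 : φ v = 0 := image_eq_zero_of_notMem_tsupport hv
  have h2 : ∀ i : Fin 3, pd i φ v = 0 := fun i => by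
    unfold pd
    rw [fderiv_of_notMem_tsupport ℝ hv]
    rfl
  unfold GG
  simp [h1, h2]

/-- `eta (v, ·)` vanishes far away, uniformly for `v` in a ball -/
theorem nsp_far {ε₀ : ℝ} (hε : ε₀ ≤ 1 / 100) {φ ϱ κ : V → ℝ} (hA : Adm ε₀ φ ϱ κ) {δ : ℝ}
    (hδ : 0 < δ) (R : ℝ) : ∃ R' : ℝ, 0 < R' ∧ ∀ v w : V, ‖v‖ ≤ R → R' < ‖w‖ →
      eta ϱ δ (v, w) = 0 := by
  refine ⟨|R| + 2 * (ϱ 0 + |R| + δ) + 1, ?_, ?_⟩
  · have := hA.rnonneg 0
    have := abs_nonneg R
    positivity
  · intro v w hv hw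
    refine eta_zero hδ ?_
    have hlip : ∀ x y : V, ϱ x ≤ ϱ y + 1 / 100 * ‖x - y‖ := fun x y => by
      have h1 := (abs_le.1 (hA.rlip x y)).2
      have h2 : ε₀ * ‖x - y‖ ≤ 1 / 100 * ‖x - y‖ :=
        mul_le_mul_of_nonneg_right hε (norm_nonneg _)
      linarith
    have hmid : ‖mid v w - v‖ = 1 / 2 * ‖v - w‖ := by
      have : mid v w - v = (-(1 / 2 : ℝ)) • (v - w) := by
        unfold mid
        module
      rw [this, norm_smul]
      norm_num
    have h1 := hlip (mid v w) v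
    have h2 := hlip v 0
    rw [hmid] at h1
    rw [sub_zero] at h2
    have h3 : ‖w‖ ≤ ‖v‖ + ‖v - w‖ := by
      have := norm_sub_le v (v - w)
      simpa using this
    have h4 : R ≤ |R| := le_abs_self R
    have h0 := hA.rnonneg (mid v w)
    have h00 := hA.rnonneg 0
    have hr := norm_nonneg (v - w)
    have hR0 := abs_nonneg R
    have h5 : ϱ (mid v w) + δ ≤ ‖v - w‖ := by
      linarith
    show SS ϱ δ (v, w) ≤ ‖v - w‖ ^ 2
    unfold SS
    have h6 : ϱ (mid v w) ^ 2 + δ ^ 2 ≤ (ϱ (mid v w) + δ) ^ 2 := by nlinarith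
    exact h6.trans (pow_le_pow_left₀ (by linarith) h5 2)

/-- derivative of a slice -/
theorem nsp_slice {P : V × V → ℝ} (hP : ContDiff ℝ (⊤ : ℕ∞) P) (v : V) (j : Fin 3) (w : V) :
    pd j (fun x => P (v, x)) w = dw j P (v, w) := by
  have h1 : HasFDerivAt P (fderiv ℝ P (v, w)) (v, w) :=
    (hP.differentiable (by simp) (v, w)).hasFDerivAt
  have h2 : HasFDerivAt (fun x : V => (v, x)) (ContinuousLinearMap.inr ℝ V V) w :=
    hasFDerivAt_prodMk_right v w
  have h3 := h1.comp w h2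
  unfold pd dw
  have h4 : fderiv ℝ (fun x => P (v, x)) w =
      (fderiv ℝ P (v, w)).comp (ContinuousLinearMap.inr ℝ V V) := h3.fderiv
  rw [h4]
  simp

/-- `dw j eta (v, ·)` vanishes far away -/
theorem nsp_far_dw {ϱ : V → ℝ} (h : ContDiff ℝ (⊤ : ℕ∞) (fun v => ϱ v ^ 2)) {δ : ℝ}
    (hδ : 0 < δ) {R' : ℝ} {v : V} (h0 : ∀ w : V, R' < ‖w‖ → eta ϱ δ (v, w) = 0) (j : Fin 3)
    {w : V} (hw : R' < ‖w‖) : dw j (eta ϱ δ) (v, w) = 0 := by
  rw [← nsp_slice (eta_smooth h hδ) v j w]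
  have h1 : (fun x => eta ϱ δ (v, x)) =ᶠ[𝓝 w] fun _ => 0 := by
    filter_upwards [(isOpen_lt continuous_const continuous_norm).mem_nhds hw] with x hx
    exact h0 x hx
  unfold pd
  rw [h1.fderiv_eq]
  simp

/-! ### the pieces -/

/-- first piece -/
noncomputable def nspP1 (φ g : V → ℝ) (i j : Fin 3) (p : V × V) : ℝ :=
  aK i j (p.1 - p.2) * g p.2 * (pd i (GG φ g) p.1 * pd j g p.1)

/-- second piece -/
noncomputable def nspP2 (φ g : V → ℝ) (i : Fin 3) (p : V × V) : ℝ :=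
  bK i (p.1 - p.2) * g p.2 * (g p.1 * pd i (GG φ g) p.1)

/-- third piece -/
noncomputable def nspP3 (ϱ : V → ℝ) (δ : ℝ) (φ g : V → ℝ) (i j : Fin 3) (p : V × V) : ℝ :=
  eta ϱ δ p * (aK i j (p.1 - p.2) * pd j g p.2 * (g p.1 * pd i (GG φ g) p.1))

/-- fourth piece -/
noncomputable def nspP4 (ϱ : V → ℝ) (δ : ℝ) (φ g : V → ℝ) (i j : Fin 3) (p : V × V) : ℝ :=
  dw j (eta ϱ δ) p * (aK i j (p.1 - p.2) * g p.2 * (g p.1 * pd i (GG φ g) p.1))

section pieces

variable {ε₀ : ℝ} {φ ϱ κ g : V → ℝ} {δ : ℝ}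

theorem nsp_F_cont (hA : Adm ε₀ φ ϱ κ) (hg : Dn g) (i : Fin 3) :
    Continuous (fun v => g v * pd i (GG φ g) v) :=
  hg.cls.cont.mul (smooth_pd (GG_smooth hA.smooth hg) i).continuous

theorem nsp_F_comp (hA : Adm ε₀ φ ϱ κ) (g : V → ℝ) (i : Fin 3) :
    HasCompactSupport (fun v => g v * pd i (GG φ g) v) :=
  (compact_pd (nsp_GG_compact hA.compact g) i).mul_left

theorem nspP1_int (hA : Adm ε₀ φ ϱ κ) (hg : Dn g) (i j : Fin 3) :
    Integrable (nspP1 φ g i j) ((volume : Measure V).prod volume) :=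
  ww_prod_a g hg.cls (F := fun v => pd i (GG φ g) v * pd j g v)
    ((smooth_pd (GG_smooth hA.smooth hg) i).continuous.mul
      (smooth_pd hg.cls.smooth j).continuous)
    (compact_pd (nsp_GG_compact hA.compact g) i).mul_right i j

theorem nspP2_int (hA : Adm ε₀ φ ϱ κ) (hg : Dn g) (i : Fin 3) :
    Integrable (nspP2 φ g i) ((volume : Measure V).prod volume) :=
  ww_prod_b g hg.cls (nsp_F_cont hA hg i) (nsp_F_comp hA g i) i

theorem nsp_eta_mul (hA : Adm ε₀ φ ϱ κ) (hδ : 0 < δ) {P : V × V → ℝ}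
    (hP : Integrable P ((volume : Measure V).prod volume)) :
    Integrable (fun p => eta ϱ δ p * P p) ((volume : Measure V).prod volume) := by
  refine hP.bdd_mul (c := 1) (eta_smooth hA.rsmooth hδ).continuous.aestronglyMeasurable
    (Eventually.of_forall fun p => ?_)
  rw [Real.norm_eq_abs, abs_of_nonneg (eta_nonneg ϱ δ p)]
  exact eta_le_one ϱ δ p

theorem nsp_eta_mul' (hA : Adm ε₀ φ ϱ κ) (hδ : 0 < δ) {P : V × V → ℝ}
    (hP : Integrable P ((volume : Measure V).prod volume)) :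
    Integrable (fun p => (1 - eta ϱ δ p) * P p) ((volume : Measure V).prod volume) := by
  have e : (fun p => (1 - eta ϱ δ p) * P p) = fun p => P p - eta ϱ δ p * P p := by
    funext p
    ring
  rw [e]
  exact hP.sub (nsp_eta_mul hA hδ hP)

/-- a radius for the support of `G` -/
theorem nsp_R (hA : Adm ε₀ φ ϱ κ) (g : V → ℝ) : ∃ R : ℝ, 0 < R ∧ ∀ v : V, R < ‖v‖ →
    ∀ i : Fin 3, pd i (GG φ g) v = 0 := by
  obtain ⟨R, hR⟩ := (nsp_GG_compact hA.compact g).isCompact.isBounded.subset_closedBall (0 : V)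
  refine ⟨|R| + 1, by positivity, fun v hv i => ?_⟩
  unfold pd
  rw [fderiv_of_notMem_tsupport, zero_apply]
  intro h
  have h1 := hR h
  rw [mem_closedBall_zero_iff] at h1
  have := le_abs_self R
  linarith

theorem nspP3_int (hε : ε₀ ≤ 1 / 100) (hA : Adm ε₀ φ ϱ κ) (hg : Dn g) (hδ : 0 < δ)
    (i j : Fin 3) : Integrable (nspP3 ϱ δ φ g i j) ((volume : Measure V).prod volume) := by
  obtain ⟨R, hR0, hR⟩ := nsp_R hA g
  obtain ⟨R', hR'0, hR'⟩ := nsp_far hε hA hδ R
  have hu : Continuous (fun w => chi R' w * pd j g w) :=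
    (chi_smooth R').continuous.mul (smooth_pd hg.cls.smooth j).continuous
  have huc : HasCompactSupport (fun w => chi R' w * pd j g w) := (chi_compact hR'0).mul_right
  have hui : Integrable (fun w => (chi R' w * pd j g w) / ang w) := by
    refine (hu.div₀ continuous_ang fun w => (ang_pos w).ne').integrable_of_hasCompactSupport ?_
    refine huc.mono fun w hw => ?_
    simp only [Function.mem_support] at hw ⊢
    exact fun h => hw (by rw [h, zero_div])
  have h1 := bars_int_aW (fun w => chi R' w * pd j g w) hu.aestronglyMeasurable hui _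
    (nsp_F_cont hA hg i) (nsp_F_comp hA g i) i j
  have h2 := nsp_eta_mul hA hδ h1
  refine h2.congr (Eventually.of_forall fun p => ?_)
  unfold nspP3
  simp only []
  by_cases hv : R < ‖p.1‖
  · rw [hR p.1 hv i]
    simp
  · by_cases hw : R' < ‖p.2‖
    · have := hR' p.1 p.2 (not_lt.1 hv) hw
      rw [show eta ϱ δ p = eta ϱ δ (p.1, p.2) from rfl, this]
      simp
    · rw [chi_one hR'0 (not_lt.1 hw)]
      ring

theorem nspP4_int (hε : ε₀ ≤ 1 / 100) (hA : Adm ε₀ φ ϱ κ) (hg : Dn g) (hδ : 0 < δ)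
    (i j : Fin 3) : Integrable (nspP4 ϱ δ φ g i j) ((volume : Measure V).prod volume) := by
  obtain ⟨R, hR0, hR⟩ := nsp_R hA g
  obtain ⟨R', hR'0, hR'⟩ := nsp_far hε hA hδ R
  have h1 := bars_int_aW g hg.cls.cont.aestronglyMeasurable hg.cls.int _
    (nsp_F_cont hA hg i) (nsp_F_comp hA g i) i j
  have hΘ : Continuous (fun p : V × V => dw j (eta ϱ δ) p * (chi R p.1 * chi R' p.2)) :=
    (smooth_dw (eta_smooth hA.rsmooth hδ) j).continuous.mul
      (((chi_smooth R).continuous.comp continuous_fst).mul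
        ((chi_smooth R').continuous.comp continuous_snd))
  have hΘc : HasCompactSupport
      (fun p : V × V => dw j (eta ϱ δ) p * (chi R p.1 * chi R' p.2)) := by
    refine HasCompactSupport.intro
      ((isCompact_closedBall (0 : V) (2 * R)).prod (isCompact_closedBall (0 : V) (2 * R')))
      fun p hp => ?_
    rw [Set.mem_prod, not_and_or, mem_closedBall_zero_iff, mem_closedBall_zero_iff, not_le,
      not_le] at hp
    rcases hp with hp | hp
    · rw [chi_zero hR0 hp.le]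
      ring
    · rw [chi_zero hR'0 hp.le]
      ring
  obtain ⟨C, hC⟩ := hΘ.bounded_above_of_compact_support hΘc
  have h2 := h1.bdd_mul hΘ.aestronglyMeasurable (Eventually.of_forall hC)
  refine h2.congr (Eventually.of_forall fun p => ?_)
  unfold nspP4
  simp only []
  by_cases hv : R < ‖p.1‖
  · rw [hR p.1 hv i]
    simp
  · rw [chi_one hR0 (not_lt.1 hv)]
    by_cases hw : R' < ‖p.2‖
    · have := nsp_far_dw hA.rsmooth hδ (fun w hw => hR' p.1 w (not_lt.1 hv) hw) j hw
      rw [show dw j (eta ϱ δ) p = dw j (eta ϱ δ) (p.1, p.2) from rfl, this]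
      simp
    · rw [chi_one hR'0 (not_lt.1 hw)]
      ring

/-- integration by parts for fixed `v` -/
theorem nsp_ibp (hε : ε₀ ≤ 1 / 100) (hA : Adm ε₀ φ ϱ κ) (hg : Dn g) (hδ : 0 < δ) (i : Fin 3)
    (v : V) : ∑ j : Fin 3, ∫ w, aK i j (v - w) *
      (eta ϱ δ (v, w) * pd j g w + dw j (eta ϱ δ) (v, w) * g w) =
      ∫ w, bK i (v - w) * (eta ϱ δ (v, w) * g w) := by
  obtain ⟨R', hR'0, hR'⟩ := nsp_far hε hA hδ ‖v‖
  have he : ContDiff ℝ (⊤ : ℕ∞) (fun w => eta ϱ δ (v, w)) :=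
    (eta_smooth hA.rsmooth hδ).comp (contDiff_const.prodMk contDiff_id)
  have hH : ContDiff ℝ 1 (fun w => eta ϱ δ (v, w) * g w) :=
    contDiff_one_of_smooth (he.mul hg.cls.smooth)
  have hHc : HasCompactSupport (fun w => eta ϱ δ (v, w) * g w) := by
    refine HasCompactSupport.intro (isCompact_closedBall (0 : V) R') fun w hw => ?_
    rw [mem_closedBall_zero_iff, not_le] at hw
    rw [hR' v w le_rfl hw, zero_mul]
  have h := ibp_aK (fun w => eta ϱ δ (v, w) * g w) hH hHc i v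
  have e1 : ∀ j : Fin 3, ∫ w, aK i j (v - w) *
      (eta ϱ δ (v, w) * pd j g w + dw j (eta ϱ δ) (v, w) * g w) =
      ∫ w, aK i j (w - v) * pd j (fun w => eta ϱ δ (v, w) * g w) w := by
    intro j
    refine integral_congr_ae (Eventually.of_forall fun w => ?_)
    simp only []
    rw [pd_mul (he.differentiable (by simp) w) (differentiable_of_smooth hg.cls.smooth w) j,
      nsp_slice (eta_smooth hA.rsmooth hδ), ← neg_sub w v, aK_neg]
  rw [Finset.sum_congr rfl fun j _ => e1 j, h, ← integral_neg]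
  refine integral_congr_ae (Eventually.of_forall fun w => ?_)
  simp only []
  rw [← neg_sub w v, bK_neg]
  ring

/-- the near part of the drift -/
theorem nsp_near (hε : ε₀ ≤ 1 / 100) (hA : Adm ε₀ φ ϱ κ) (hg : Dn g) (hδ : 0 < δ)
    (i : Fin 3) : ∫ p, eta ϱ δ p * nspP2 φ g i p ∂((volume : Measure V).prod volume) =
      ∑ j : Fin 3, ((∫ p, nspP3 ϱ δ φ g i j p ∂((volume : Measure V).prod volume)) +
        ∫ p, nspP4 ϱ δ φ g i j p ∂((volume : Measure V).prod volume)) := by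
  have hQ : ∀ j : Fin 3, Integrable (fun p => nspP3 ϱ δ φ g i j p + nspP4 ϱ δ φ g i j p)
      ((volume : Measure V).prod volume) := fun j =>
    (nspP3_int hε hA hg hδ i j).add (nspP4_int hε hA hg hδ i j)
  have e1 : ∀ j : Fin 3, (∫ p, nspP3 ϱ δ φ g i j p ∂((volume : Measure V).prod volume)) +
      ∫ p, nspP4 ϱ δ φ g i j p ∂((volume : Measure V).prod volume) =
      ∫ v, ∫ w, (nspP3 ϱ δ φ g i j (v, w) + nspP4 ϱ δ φ g i j (v, w)) := by
    intro j
    rw [← integral_add (nspP3_int hε hA hg hδ i j) (nspP4_int hε hA hg hδ i j),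
      integral_prod _ (hQ j)]
  rw [Finset.sum_congr rfl fun j _ => e1 j,
    ← integral_finsetSum _ (fun j _ => (hQ j).integral_prod_left),
    integral_prod _ (nsp_eta_mul hA hδ (nspP2_int hA hg i))]
  refine integral_congr_ae (Eventually.of_forall fun v => ?_)
  simp only []
  have e2 : ∫ w, eta ϱ δ (v, w) * nspP2 φ g i (v, w) =
      (∫ w, bK i (v - w) * (eta ϱ δ (v, w) * g w)) * (g v * pd i (GG φ g) v) := by
    rw [← integral_mul_const]
    refine integral_congr_ae (Eventually.of_forall fun w => ?_)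
    simp only [nspP2]
    ring
  have e3 : ∀ j : Fin 3, ∫ w, (nspP3 ϱ δ φ g i j (v, w) + nspP4 ϱ δ φ g i j (v, w)) =
      (∫ w, aK i j (v - w) * (eta ϱ δ (v, w) * pd j g w + dw j (eta ϱ δ) (v, w) * g w)) *
        (g v * pd i (GG φ g) v) := by
    intro j
    rw [← integral_mul_const]
    refine integral_congr_ae (Eventually.of_forall fun w => ?_)
    simp only [nspP3, nspP4]
    ring
  rw [e2, ← nsp_ibp hε hA hg hδ i v, Finset.sum_mul]
  exact Finset.sum_congr rfl fun j _ => (e3 j).symm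

/-- the drift kernel at all pairs -/
theorem nsp_be (hA : Adm ε₀ φ ϱ κ) (hδ : 0 < δ) (p : V × V) (i : Fin 3) :
    be ϱ δ i p = (∑ j : Fin 3, dw j (eta ϱ δ) p * aK i j (p.1 - p.2))
      + (1 - eta ϱ δ p) * bK i (p.1 - p.2) := by
  by_cases hp : p.1 = p.2
  · have h0 : 4 * ‖p.1 - p.2‖ ^ 2 < SS ϱ δ p := by
      rw [hp, sub_self, norm_zero]
      simpa using SS_pos ϱ hδ p
    rw [(kf_near hA.rsmooth hδ p h0 i i i).2.2.1]
    have e1 : ∀ k : Fin 3, aK i k (p.1 - p.2) = 0 := fun k => by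
      rw [hp, sub_self]
      simp [aK]
    have e2 : bK i (p.1 - p.2) = 0 := by
      rw [hp, sub_self]
      simp [bK]
    simp [e1, e2]
  · exact be_eq hA.rsmooth hδ p hp i

theorem nsp_F0 (hA : Adm ε₀ φ ϱ κ) (hg : Dn g) (hδ : 0 < δ) (p : V × V) :
    F0 ϱ δ φ g p = ∑ i : Fin 3, ((∑ j : Fin 3, (nspP4 ϱ δ φ g i j p -
      (1 - eta ϱ δ p) * nspP1 φ g i j p)) + (1 - eta ϱ δ p) * nspP2 φ g i p) := by
  unfold F0
  rw [Finset.mul_sum, ← Finset.sum_neg_distrib]
  refine Finset.sum_congr rfl fun i _ => ?_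
  rw [nsp_be hA hδ p i]
  have hp1 := (hg.pos p.1).ne'
  have e1 : ∀ j : Fin 3, pd j g p.1 = g p.1 * gam j g p.1 := fun j => by
    unfold gam
    field_simp
  simp only [Fin.sum_univ_three, nspP1, nspP2, nspP4, FF, kf, e1]
  ring

theorem nsp_N0 (hg : Dn g) (p : V × V) :
    N0 ϱ δ φ g p = (1 / 2) * ((∑ i : Fin 3, ∑ j : Fin 3, (nspP3 ϱ δ φ g i j p -
      eta ϱ δ p * nspP1 φ g i j p)) + ∑ i : Fin 3, ∑ j : Fin 3, (nspP3 ϱ δ φ g i j p.swap -
      eta ϱ δ p.swap * nspP1 φ g i j p.swap)) := by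
  obtain ⟨v, w⟩ := p
  have hv := (hg.pos v).ne'
  have hw := (hg.pos w).ne'
  have e1 : ∀ (j : Fin 3) (x : V), pd j g x = g x * gam j g x := fun j x => by
    unfold gam
    have := (hg.pos x).ne'
    field_simp
  unfold N0 nspP3 nspP1
  simp only [Prod.swap_prod_mk, FF]
  rw [eta_swap ϱ δ w v, ← neg_sub v w]
  simp only [aK_neg, Fin.sum_univ_three, e1]
  ring

end pieces

theorem F0_int {ε₀ : ℝ} (hε : ε₀ ≤ 1 / 100) {φ ϱ κ g : V → ℝ} (hA : Adm ε₀ φ ϱ κ) (hg : Dn g)
    {δ : ℝ} (h2 : 0 < δ) : Integrable (F0 ϱ δ φ g) ((volume : Measure V).prod volume) := by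
  have e : F0 ϱ δ φ g = fun p => ∑ i : Fin 3, ((∑ j : Fin 3, (nspP4 ϱ δ φ g i j p -
      (1 - eta ϱ δ p) * nspP1 φ g i j p)) + (1 - eta ϱ δ p) * nspP2 φ g i p) :=
    funext fun p => nsp_F0 hA hg h2 p
  rw [e]
  refine integrable_finsetSum _ fun i _ => Integrable.add ?_ (nsp_eta_mul' hA h2 (nspP2_int hA hg i))
  exact integrable_finsetSum _ fun j _ => (nspP4_int hε hA hg h2 i j).sub
    (nsp_eta_mul' hA h2 (nspP1_int hA hg i j))

/-- The derivative is the sum of the near and the far part. -/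
theorem dFJ_split {ε₀ : ℝ} (hε : ε₀ ≤ 1 / 100) {φ ϱ κ g : V → ℝ} (hA : Adm ε₀ φ ϱ κ) (hg : Dn g)
    {δ : ℝ} (h2 : 0 < δ) :
    dFJ φ g = (∫ p, N0 ϱ δ φ g p ∂((volume : Measure V).prod volume))
      + ∫ p, F0 ϱ δ φ g p ∂((volume : Measure V).prod volume) := by
  have hG := GG_smooth hA.smooth hg
  have hGc := nsp_GG_compact hA.compact g
  have i1 := fun i j => nspP1_int hA hg i j
  have i2 := fun i => nspP2_int hA hg i
  have i3 := fun i j => nspP3_int hε hA hg h2 i j
  have i4 := fun i j => nspP4_int hε hA hg h2 i j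
  have i1e := fun i j => nsp_eta_mul hA h2 (i1 i j)
  have i1f := fun i j => nsp_eta_mul' hA h2 (i1 i j)
  have i2f := fun i => nsp_eta_mul' hA h2 (i2 i)
  -- the weak form
  have hW : dFJ φ g = -(∑ i : Fin 3, ∑ j : Fin 3,
      ∫ p, nspP1 φ g i j p ∂((volume : Measure V).prod volume)) +
      ∑ i : Fin 3, ∫ p, nspP2 φ g i p ∂((volume : Measure V).prod volume) := by
    unfold dFJ
    rw [QL_weakW g hg.cls (GG φ g) (contDiff_one_of_smooth hG) hGc]
    congr 1
    · congr 1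
      refine Finset.sum_congr rfl fun i _ => Finset.sum_congr rfl fun j _ => ?_
      exact ww_fub_a hg.cls (F := fun v => pd i (GG φ g) v * pd j g v)
        ((smooth_pd hG i).continuous.mul (smooth_pd hg.cls.smooth j).continuous)
        (compact_pd hGc i).mul_right i j
    · refine Finset.sum_congr rfl fun i _ => ?_
      exact ww_fub_b hg.cls (nsp_F_cont hA hg i) (nsp_F_comp hA g i) i
  -- the drift
  have hD : ∀ i : Fin 3, ∫ p, nspP2 φ g i p ∂((volume : Measure V).prod volume) =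
      (∑ j : Fin 3, ((∫ p, nspP3 ϱ δ φ g i j p ∂((volume : Measure V).prod volume)) +
        ∫ p, nspP4 ϱ δ φ g i j p ∂((volume : Measure V).prod volume))) +
      ∫ p, (1 - eta ϱ δ p) * nspP2 φ g i p ∂((volume : Measure V).prod volume) := by
    intro i
    rw [← nsp_near hε hA hg h2 i, ← integral_add (nsp_eta_mul hA h2 (i2 i)) (i2f i)]
    refine integral_congr_ae (Eventually.of_forall fun p => ?_)
    simp only []
    ring
  -- the far part
  have hF : ∫ p, F0 ϱ δ φ g p ∂((volume : Measure V).prod volume) =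
      ∑ i : Fin 3, ((∑ j : Fin 3, ((∫ p, nspP4 ϱ δ φ g i j p ∂((volume : Measure V).prod volume)) -
        ∫ p, (1 - eta ϱ δ p) * nspP1 φ g i j p ∂((volume : Measure V).prod volume))) +
        ∫ p, (1 - eta ϱ δ p) * nspP2 φ g i p ∂((volume : Measure V).prod volume)) := by
    have i5 : ∀ i j : Fin 3, Integrable (fun p => nspP4 ϱ δ φ g i j p -
        (1 - eta ϱ δ p) * nspP1 φ g i j p) ((volume : Measure V).prod volume) := fun i j =>
      (i4 i j).sub (i1f i j)
    have i6 : ∀ i : Fin 3, Integrable (fun p => ∑ j : Fin 3, (nspP4 ϱ δ φ g i j p -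
        (1 - eta ϱ δ p) * nspP1 φ g i j p)) ((volume : Measure V).prod volume) := fun i =>
      integrable_finsetSum _ fun j _ => i5 i j
    have i7 : ∀ i : Fin 3, Integrable (fun p => (∑ j : Fin 3, (nspP4 ϱ δ φ g i j p -
        (1 - eta ϱ δ p) * nspP1 φ g i j p)) + (1 - eta ϱ δ p) * nspP2 φ g i p)
        ((volume : Measure V).prod volume) := fun i => (i6 i).add (i2f i)
    rw [integral_congr_ae (Eventually.of_forall fun p => nsp_F0 hA hg h2 p),
      integral_finsetSum _ fun i _ => i7 i]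
    refine Finset.sum_congr rfl fun i _ => ?_
    rw [integral_add (i6 i) (i2f i), integral_finsetSum _ fun j _ => i5 i j]
    congr 1
    refine Finset.sum_congr rfl fun j _ => ?_
    rw [integral_sub (i4 i j) (i1f i j)]
  -- the near part
  have i8 : ∀ i j : Fin 3, Integrable (fun p => nspP3 ϱ δ φ g i j p -
      eta ϱ δ p * nspP1 φ g i j p) ((volume : Measure V).prod volume) := fun i j =>
    (i3 i j).sub (i1e i j)
  have i9 : ∀ i : Fin 3, Integrable (fun p => ∑ j : Fin 3, (nspP3 ϱ δ φ g i j p -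
      eta ϱ δ p * nspP1 φ g i j p)) ((volume : Measure V).prod volume) := fun i =>
    integrable_finsetSum _ fun j _ => i8 i j
  have hAi : Integrable (fun p => ∑ i : Fin 3, ∑ j : Fin 3, (nspP3 ϱ δ φ g i j p -
      eta ϱ δ p * nspP1 φ g i j p)) ((volume : Measure V).prod volume) :=
    integrable_finsetSum _ fun i _ => i9 i
  have hAs : Integrable (fun p : V × V => ∑ i : Fin 3, ∑ j : Fin 3, (nspP3 ϱ δ φ g i j p.swap -
      eta ϱ δ p.swap * nspP1 φ g i j p.swap)) ((volume : Measure V).prod volume) := hAi.swap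
  have hN : ∫ p, N0 ϱ δ φ g p ∂((volume : Measure V).prod volume) =
      ∑ i : Fin 3, ∑ j : Fin 3, ((∫ p, nspP3 ϱ δ φ g i j p ∂((volume : Measure V).prod volume)) -
        ∫ p, eta ϱ δ p * nspP1 φ g i j p ∂((volume : Measure V).prod volume)) := by
    have e1 : ∫ p, (∑ i : Fin 3, ∑ j : Fin 3, (nspP3 ϱ δ φ g i j p -
        eta ϱ δ p * nspP1 φ g i j p)) ∂((volume : Measure V).prod volume) =
        ∑ i : Fin 3, ∑ j : Fin 3, ((∫ p, nspP3 ϱ δ φ g i j p ∂((volume : Measure V).prod volume)) -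
        ∫ p, eta ϱ δ p * nspP1 φ g i j p ∂((volume : Measure V).prod volume)) := by
      rw [integral_finsetSum _ fun i _ => i9 i]
      refine Finset.sum_congr rfl fun i _ => ?_
      rw [integral_finsetSum _ fun j _ => i8 i j]
      refine Finset.sum_congr rfl fun j _ => ?_
      rw [integral_sub (i3 i j) (i1e i j)]
    have e2 := integral_prod_swap (μ := (volume : Measure V)) (ν := (volume : Measure V))
      (fun p => ∑ i : Fin 3, ∑ j : Fin 3, (nspP3 ϱ δ φ g i j p - eta ϱ δ p * nspP1 φ g i j p))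
    rw [integral_congr_ae (Eventually.of_forall fun p => nsp_N0 hg p), integral_const_mul,
      integral_add hAi hAs]
    rw [e2, e1]
    ring
  have hS : ∀ i j : Fin 3, ∫ p, nspP1 φ g i j p ∂((volume : Measure V).prod volume) =
      (∫ p, eta ϱ δ p * nspP1 φ g i j p ∂((volume : Measure V).prod volume)) +
      ∫ p, (1 - eta ϱ δ p) * nspP1 φ g i j p ∂((volume : Measure V).prod volume) := by
    intro i j
    rw [← integral_add (i1e i j) (i1f i j)]
    refine integral_congr_ae (Eventually.of_forall fun p => ?_)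
    simp only []
    ring
  rw [hW, hN, hF, Finset.sum_congr rfl fun i _ => hD i]
  simp only [hS, Fin.sum_univ_three]
  ring

end Pool.Agent.LandauF
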