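import Pool.Agent.LandauF.LFat
import Pool.Agent.LandauF.NSplit

/-!
# LandauF, module FTopLF: the local Fisher inequality

`dFJ_split`, `near_fin`, `far_fin` with `δ = 1/(n+1)` (take the smaller `ε₀`, `Adm.mono`, `ε₀ ≤ 1/100`).  Let
`ofReal B ≤ DE`.  For `0 ≤ B' < B/7` by `diss_liminf` eventually `ofReal B' ≤ DNe + DFe`; split `B' = B₁ + B₂` with
`B₁, B₂ ≥ 0`, `ofReal B₁ ≤ DNe`, `ofReal B₂ ≤ DFe` (`B₁ = min B' DNe.toReal` or `B₁ = B'` if `DNe = ∞`).  So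
`dFJ ≤ C A + K δ - (1/200) B'`; let `n → ∞`, then `B' → B/7`.
-/

set_option autoImplicit false

namespace Pool.Agent.LandauF

open MeasureTheory Set Filter Topology Pool.Agent.Landau

private theorem ftop_split {B : ℝ} (hB : 0 ≤ B) {x y : ENNReal} (h : ENNReal.ofReal B ≤ x + y) :
    ∃ B₁ B₂ : ℝ, 0 ≤ B₁ ∧ 0 ≤ B₂ ∧ B₁ + B₂ = B ∧ ENNReal.ofReal B₁ ≤ x ∧
      ENNReal.ofReal B₂ ≤ y := by
  by_cases hx : x = ⊤
  · refine ⟨B, 0, hB, le_rfl, add_zero B, ?_, ?_⟩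
    · rw [hx]; exact le_top
    · rw [ENNReal.ofReal_zero]; exact zero_le
  · by_cases hB' : B ≤ x.toReal
    · refine ⟨B, 0, hB, le_rfl, add_zero B, ?_, ?_⟩
      · exact ENNReal.ofReal_le_of_le_toReal hB'
      · rw [ENNReal.ofReal_zero]; exact zero_le
    · push Not at hB'
      refine ⟨x.toReal, B - x.toReal, ENNReal.toReal_nonneg, by linarith, by ring, ?_, ?_⟩
      · rw [ENNReal.ofReal_toReal hx]
      · rw [ENNReal.ofReal_sub _ ENNReal.toReal_nonneg, ENNReal.ofReal_toReal hx]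
        exact tsub_le_iff_left.2 h

/-- The local Fisher inequality. -/
theorem LF : ∃ c₀ C₀ ε₀ : ℝ, 0 < c₀ ∧ 0 < C₀ ∧ 0 < ε₀ ∧
    ∀ φ ϱ κ g : V → ℝ, Adm ε₀ φ ϱ κ → Dn g → ∀ A B : ℝ, 0 ≤ A → 0 ≤ B →
      ER φ ϱ κ g ≤ ENNReal.ofReal A → ENNReal.ofReal B ≤ DE φ ϱ g →
      dFJ φ g ≤ C₀ * A - c₀ * B := by
  obtain ⟨C1, e1, hC1, he1, he1', H1⟩ := near_fin
  obtain ⟨C2, e2, hC2, he2, he2', H2⟩ := far_fin
  refine ⟨1 / 1400, C1 + C2, min e1 e2, by norm_num, by positivity, lt_min he1 he2, ?_⟩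
  intro φ ϱ κ g hA hg A B hA0 hB0 hER hDE
  have hA1 : Adm e1 φ ϱ κ := hA.mono (min_le_left _ _)
  have hA2 : Adm e2 φ ϱ κ := hA.mono (min_le_right _ _)
  have hεs : min e1 e2 ≤ 1 / 100 := (min_le_left _ _).trans he1'
  obtain ⟨K1, hK1, H1'⟩ := H1 φ ϱ κ g hA1 hg
  obtain ⟨K2, hK2, H2'⟩ := H2 φ ϱ κ g hA2 hg
  have hlim := diss_liminf hεs hA hg
  have claim : ∀ B' : ℝ, 0 ≤ B' →
      (∀ᶠ n : ℕ in atTop, ENNReal.ofReal B' ≤
        DNe ϱ (1 / ((n : ℝ) + 1)) φ g + DFe ϱ (1 / ((n : ℝ) + 1)) φ g) →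
      dFJ φ g ≤ (C1 + C2) * A - (1 / 200) * B' := by
    intro B' hB' hev
    have hbd : ∀ᶠ n : ℕ in atTop, dFJ φ g ≤
        (C1 + C2) * A + (K1 + K2) * (1 / ((n : ℝ) + 1)) - (1 / 200) * B' := by
      filter_upwards [hev] with n hn
      obtain ⟨B₁, B₂, hB1, hB2, hsum, h1, h2⟩ := ftop_split hB' hn
      have hδ : (0 : ℝ) < 1 / ((n : ℝ) + 1) := by positivity
      have hδ1 : 1 / ((n : ℝ) + 1) ≤ 1 := by
        rw [div_le_one (by positivity)]
        have : (0 : ℝ) ≤ n := Nat.cast_nonneg n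
        linarith
      have e1 := H1' _ A B₁ hδ hδ1 hA0 hB1 hER h1
      have e2 := H2' _ A B₂ hδ hδ1 hA0 hB2 hER h2
      have e3 := dFJ_split hεs hA hg hδ
      rw [e3]
      nlinarith
    have ht : Tendsto (fun n : ℕ => (C1 + C2) * A + (K1 + K2) * (1 / ((n : ℝ) + 1)) -
        (1 / 200) * B') atTop (𝓝 ((C1 + C2) * A + (K1 + K2) * 0 - (1 / 200) * B')) :=
      (tendsto_const_nhds.add (tendsto_const_nhds.mul
        tendsto_one_div_add_atTop_nhds_zero_nat)).sub tendsto_const_nhds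
    have := ge_of_tendsto ht hbd
    linarith
  refine le_of_forall_pos_le_add fun ε hε => ?_
  set B' : ℝ := max 0 (B / 7 - 200 * ε) with hB'
  have hB'0 : 0 ≤ B' := le_max_left _ _
  have hB'1 : B / 7 - 200 * ε ≤ B' := le_max_right _ _
  have hev : ∀ᶠ n : ℕ in atTop, ENNReal.ofReal B' ≤
      DNe ϱ (1 / ((n : ℝ) + 1)) φ g + DFe ϱ (1 / ((n : ℝ) + 1)) φ g := by
    rcases hB'0.eq_or_lt with h0 | h0
    · refine Eventually.of_forall fun n => ?_
      rw [← h0, ENNReal.ofReal_zero]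
      exact zero_le
    · have h1 : B' < B / 7 := by
        have h2 : B' = B / 7 - 200 * ε := by
          rcases max_choice 0 (B / 7 - 200 * ε) with h3 | h3
          · rw [hB', h3] at h0
            exact absurd h0 (lt_irrefl _)
          · exact h3
        rw [h2]
        linarith
      have h2 : ENNReal.ofReal B' < ENNReal.ofReal (B / 7) :=
        (ENNReal.ofReal_lt_ofReal_iff (h0.trans h1)).2 h1
      have h3 : ENNReal.ofReal (B / 7) ≤ ENNReal.ofReal (1 / 7) * DE φ ϱ g := by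
        rw [show B / 7 = (1 / 7) * B by ring, ENNReal.ofReal_mul (by norm_num)]
        exact mul_le_mul_right hDE _
      have h4 := eventually_lt_of_lt_liminf ((h2.trans_le h3).trans_le hlim)
      exact h4.mono fun n hn => hn.le
  have := claim B' hB'0 hev
  linarith

end Pool.Agent.LandauF
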