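import Pool.Agent.LandauF.RKap
import Pool.Agent.LandauG.WRate

/-!
# LandauF, module RErr: upper bound of the error functional

`ER (wt k Ψ) (rh s) (kap K k s Ψ) g` is at most `ofReal` of the sum of (for `v` with `φ(v) ≠ 0`, `ϱ = s χ(v)`):
(1) `K k ∫_{S_8} φ fi ∫_{‖v-w‖ ≤ 2s} g*/r²` (`near_slope`);
(2) outer part, `‖v‖ ≥ 1 - 8 s` (then `v ∉ M` as `M ⊆ B_{3/4}`): `φ/χ = e^{-kΨ} χ⁵ ≤ η`, `∫_{r ≤ 2s} g*/r² ≤ 8 π s ≤ 1` (`g ≤ 1`):
`≤ K η JB g 0 3`;
(3) far part: `φ fi ∫ kF g*/ϱ² ≤ φ fi pot/(s² χ²)`: on `M` (`χ = 1`) `≤ (p/s²) φ fi`; off `M`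
`φ/χ² ≤ e^{-kΨ} ≤ η` and `pot g v ≤ C (1 + Kw g)` for `‖v‖ ≤ 2`;
(4) `φ g ∫ kF g*/ϱ⁴`: on `M` `≤ (p/s⁴) g`, off `M` `≤ η s⁻⁴ C (1 + Kw g) g`.
Then (1) by `near_slope`; for `v ∈ M` `mB g v (4s) ≤ 4 s pot g v ≤ 4 s p`, for `v ∉ M` `φ ≤ η` and `mB g v (4s) ≤ C s³`;
`k s ≤ 1`.  (`pot g v`: `LandauG/WRate.lean`, `pot_le`.)
-/

set_option autoImplicit false

namespace Pool.Agent.LandauF

open MeasureTheory Set Filter Topology Pool.Agent.Landau


private theorem re_fi_nonneg {g : V → ℝ} (hg : Dn g) (v : V) : 0 ≤ fi g v :=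
  mul_nonneg (hg.pos v).le (Finset.sum_nonneg fun _ _ => sq_nonneg _)

private theorem re_x2_nonneg (g : V → ℝ) (v : V) : 0 ≤ x2 g v :=
  Finset.sum_nonneg fun _ _ => sq_nonneg _

private theorem re_gam_cont {g : V → ℝ} (hg : Dn g) (i : Fin 3) : Continuous (gam i g) :=
  (smooth_pd hg.cls.smooth i).continuous.div hg.cls.smooth.continuous fun v => (hg.pos v).ne'

private theorem re_fi_cont {g : V → ℝ} (hg : Dn g) : Continuous (fi g) :=
  hg.cls.smooth.continuous.mul (continuous_finset_sum _ fun i _ => (re_gam_cont hg i).pow 2)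

/-- the near integral -/
private noncomputable def n2 (g : V → ℝ) (s : ℝ) (v : V) : ℝ :=
  ∫ w in Metric.closedBall v (2 * s), g w / ‖v - w‖ ^ 2

private theorem re_n2 {g : V → ℝ} (hg : Dn g) {s : ℝ} (hs : 0 < s) (v : V) :
    IntegrableOn (fun w => g w / ‖v - w‖ ^ 2) (Metric.closedBall v (2 * s)) ∧
      n2 g s v ≤ 39 * s := by
  have hk1 : Integrable fun w : V => kker 2 (3 * s) ‖v - w‖ :=
    (kker_int 2 le_rfl (3 * s) (by positivity)).1.comp_sub_left v
  have hk2 : ∫ w : V, kker 2 (3 * s) ‖v - w‖ = ∫ z : V, kker 2 (3 * s) ‖z‖ :=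
    integral_sub_left_eq_self (fun z : V => kker 2 (3 * s) ‖z‖) volume v
  have hk3 := kker_int_le_two (3 * s) (by positivity)
  have hk0 : ∀ w : V, 0 ≤ kker 2 (3 * s) ‖v - w‖ := by
    intro w
    unfold kker
    refine indicator_nonneg (fun y _ => by positivity) _
  have hle : ∀ w ∈ Metric.closedBall v (2 * s),
      g w / ‖v - w‖ ^ 2 ≤ kker 2 (3 * s) ‖v - w‖ := by
    intro w hw
    have h1 : ‖v - w‖ < 3 * s := by
      rw [Metric.mem_closedBall, dist_comm, dist_eq_norm] at hw
      linarith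
    unfold kker
    rw [indicator_of_mem (show ‖v - w‖ ∈ Iio (3 * s) from h1)]
    exact div_le_div_of_nonneg_right (hg.cls.le_one w) (by positivity)
  have hmeas : Measurable fun w : V => g w / ‖v - w‖ ^ 2 :=
    hg.cls.smooth.continuous.measurable.div ((measurable_const.sub measurable_id).norm.pow_const 2)
  have hint : IntegrableOn (fun w => g w / ‖v - w‖ ^ 2) (Metric.closedBall v (2 * s)) := by
    refine Integrable.mono' hk1.integrableOn hmeas.aestronglyMeasurable ?_
    refine (ae_restrict_mem Metric.isClosed_closedBall.measurableSet).mono fun w hw => ?_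
    rw [Real.norm_eq_abs, abs_of_nonneg (div_nonneg (hg.pos w).le (by positivity))]
    exact hle w hw
  refine ⟨hint, ?_⟩
  calc n2 g s v ≤ ∫ w in Metric.closedBall v (2 * s), kker 2 (3 * s) ‖v - w‖ :=
        setIntegral_mono_on hint hk1.integrableOn Metric.isClosed_closedBall.measurableSet hle
    _ ≤ ∫ w, kker 2 (3 * s) ‖v - w‖ :=
        setIntegral_le_integral hk1 (Eventually.of_forall hk0)
    _ ≤ 39 * s := by rw [hk2]; linarith

private theorem re_n2_nonneg {g : V → ℝ} (hg : Dn g) (s : ℝ) (v : V) : 0 ≤ n2 g s v :=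
  integral_nonneg fun w => div_nonneg (hg.pos w).le (by positivity)

private theorem re_n2_meas {g : V → ℝ} (hg : Dn g) (s : ℝ) : StronglyMeasurable (n2 g s) := by
  have e : n2 g s = fun v => ∫ w, {p : V × V | ‖p.1 - p.2‖ ≤ 2 * s}.indicator
      (fun p : V × V => g p.2 / ‖p.1 - p.2‖ ^ 2) (v, w) := by
    funext v
    unfold n2
    rw [← integral_indicator Metric.isClosed_closedBall.measurableSet]
    refine integral_congr_ae (Eventually.of_forall fun w => ?_)
    by_cases hw : w ∈ Metric.closedBall v (2 * s)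
    · have h2 : ((v, w) : V × V) ∈ {p : V × V | ‖p.1 - p.2‖ ≤ 2 * s} := by
        rw [Metric.mem_closedBall, dist_comm, dist_eq_norm] at hw
        exact hw
      simp only
      rw [indicator_of_mem hw, indicator_of_mem h2]
    · have h2 : ((v, w) : V × V) ∉ {p : V × V | ‖p.1 - p.2‖ ≤ 2 * s} := by
        rw [Metric.mem_closedBall, dist_comm, dist_eq_norm] at hw
        exact hw
      simp only
      rw [indicator_of_notMem hw, indicator_of_notMem h2]
  rw [e]
  have hm : Measurable ({p : V × V | ‖p.1 - p.2‖ ≤ 2 * s}.indicator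
      (fun p : V × V => g p.2 / ‖p.1 - p.2‖ ^ 2)) := by
    refine Measurable.indicator ?_ ?_
    · exact (hg.cls.smooth.continuous.measurable.comp measurable_snd).div
        ((measurable_fst.sub measurable_snd).norm.pow_const 2)
    · exact measurableSet_le (measurable_fst.sub measurable_snd).norm measurable_const
  exact hm.stronglyMeasurable.integral_prod_right'

private theorem re_mB_nonneg {g : V → ℝ} (hg : Dn g) (v : V) (r : ℝ) : 0 ≤ mB g v r :=
  integral_nonneg fun w => (hg.pos w).le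

private theorem re_mB_pot {g : V → ℝ} (hg : Dn g) {s : ℝ} (hs : 0 < s) (v : V) :
    mB g v (4 * s) ≤ 4 * s * pot g v := by
  have h1 : Integrable (fun w => g w / ‖v - w‖) := pot_int g hg.cls v
  have hgi : IntegrableOn g (Metric.closedBall v (4 * s)) :=
    hg.cls.smooth.continuous.continuousOn.integrableOn_compact (isCompact_closedBall _ _)
  have h2 : ∀ᵐ w ∂(volume.restrict (Metric.closedBall v (4 * s))),
      g w ≤ 4 * s * (g w / ‖v - w‖) := by
    have h3 : ∀ᵐ w ∂(volume : Measure V), w ≠ v := by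
      rw [ae_iff]
      simp
    filter_upwards [ae_restrict_mem Metric.isClosed_closedBall.measurableSet,
      ae_restrict_of_ae h3] with w hw hne
    have h4 : 0 < ‖v - w‖ := norm_pos_iff.2 (sub_ne_zero.2 (Ne.symm hne))
    have h5 : ‖v - w‖ ≤ 4 * s := by
      rw [Metric.mem_closedBall, dist_comm, dist_eq_norm] at hw
      exact hw
    rw [mul_div_assoc', le_div_iff₀ h4, mul_comm]
    exact mul_le_mul_of_nonneg_right h5 (hg.pos w).le
  calc mB g v (4 * s) ≤ ∫ w in Metric.closedBall v (4 * s), 4 * s * (g w / ‖v - w‖) :=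
        integral_mono_ae hgi (h1.const_mul _).integrableOn h2
    _ ≤ ∫ w, 4 * s * (g w / ‖v - w‖) :=
        setIntegral_le_integral (h1.const_mul _) (Eventually.of_forall fun w =>
          mul_nonneg (by positivity) (div_nonneg (hg.pos w).le (norm_nonneg _)))
    _ = 4 * s * pot g v := integral_const_mul _ _

private theorem re_mB_vol {g : V → ℝ} (hg : Dn g) {s : ℝ} (hs : 0 < s) (v : V) :
    mB g v (4 * s) ≤ 300 * s ^ 3 := by
  have h1 : ‖∫ w in Metric.closedBall v (4 * s), g w‖ ≤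
      1 * (volume : Measure V).real (Metric.closedBall v (4 * s)) := by
    refine norm_setIntegral_le_of_norm_le_const (measure_closedBall_lt_top) fun w _ => ?_
    rw [Real.norm_eq_abs, abs_of_nonneg (hg.pos w).le]
    exact hg.cls.le_one w
  have h2 : (volume : Measure V).real (Metric.closedBall v (4 * s)) =
      (4 * s) ^ 3 * (Real.pi * 4 / 3) := by
    rw [Measure.real, EuclideanSpace.volume_closedBall_fin_three]
    rw [ENNReal.toReal_mul, ENNReal.toReal_pow, ENNReal.toReal_ofReal (by positivity),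
      ENNReal.toReal_ofReal (by positivity)]
  have h3 := Real.pi_lt_d2
  have h4 := le_trans (le_abs_self _) h1
  rw [h2] at h4
  unfold mB
  nlinarith [pow_pos hs 3]

private theorem re_pot {g : V → ℝ} (hg : Dn g) {v : V} (hv : ‖v‖ ≤ 2) :
    pot g v ≤ 19 * (1 + Kw g) := by
  have h := WRateAux.pot_le hg.cls v
  have hK := hg.cls.Kw_nonneg
  have h1 : ang v ≤ 3 := by
    have := ang_le v
    linarith
  have h2 : Real.sqrt (1 + Kw g) ≤ 1 + Kw g := by
    rw [Real.sqrt_le_left (by linarith)]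
    nlinarith
  have h3 : 3 * ang v * Real.sqrt (1 + Kw g) ≤ 9 * (1 + Kw g) := by
    have h4 := Real.sqrt_nonneg (1 + Kw g)
    have h5 := (ang_pos v).le
    nlinarith [mul_le_mul h1 h2 h4 (by norm_num)]
  unfold pot
  linarith

private theorem re_pot_nonneg {g : V → ℝ} (hg : Dn g) (v : V) : 0 ≤ pot g v :=
  integral_nonneg fun w => div_nonneg (hg.pos w).le (norm_nonneg _)

/-- the inner integral -/
private theorem re_inner {g φ κ ϱ : V → ℝ} (hg : Dn g) {s : ℝ} (hs : 0 < s) (v : V)
    (h0 : 0 ≤ φ v) (hκ : 0 ≤ κ v) (hϱ : ϱ v ≤ s) :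
    ∫⁻ w, ENNReal.ofReal (φ v * g v * g w *
      (x2 g v * (κ v * kN ϱ v w + kF ϱ v w / ϱ v ^ 2) + kF ϱ v w / ϱ v ^ 4)) ≤
    ENNReal.ofReal (φ v * fi g v * κ v * n2 g s v
      + φ v * (fi g v / ϱ v ^ 2 + g v / ϱ v ^ 4) * pot g v) := by
  have hgv := (hg.pos v).le
  have hx := re_x2_nonneg g v
  set a : ℝ := φ v * g v * x2 g v * κ v with ha
  set b : ℝ := φ v * g v * (x2 g v / ϱ v ^ 2 + 1 / ϱ v ^ 4) with hb
  have ha0 : 0 ≤ a := by positivity
  have hb0 : 0 ≤ b := by positivity
  have hI1 : Integrable ((Metric.closedBall v (2 * s)).indicator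
      (fun w => g w / ‖v - w‖ ^ 2)) :=
    (re_n2 hg hs v).1.integrable_indicator Metric.isClosed_closedBall.measurableSet
  have hI2 : Integrable (fun w => g w / ‖v - w‖) := pot_int g hg.cls v
  have hle : ∀ w, φ v * g v * g w *
      (x2 g v * (κ v * kN ϱ v w + kF ϱ v w / ϱ v ^ 2) + kF ϱ v w / ϱ v ^ 4) ≤
      a * (Metric.closedBall v (2 * s)).indicator (fun w => g w / ‖v - w‖ ^ 2) w
        + b * (g w / ‖v - w‖) := by
    intro w
    have hgw := (hg.pos w).le
    have e : φ v * g v * g w *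
      (x2 g v * (κ v * kN ϱ v w + kF ϱ v w / ϱ v ^ 2) + kF ϱ v w / ϱ v ^ 4) =
      a * (g w * kN ϱ v w) + b * (g w * kF ϱ v w) := by
      rw [ha, hb]
      ring
    rw [e]
    refine add_le_add (mul_le_mul_of_nonneg_left ?_ ha0) (mul_le_mul_of_nonneg_left ?_ hb0)
    · unfold kN
      by_cases h1 : ‖v - w‖ ≤ 2 * ϱ v
      · have h2 : w ∈ Metric.closedBall v (2 * s) := by
          rw [Metric.mem_closedBall, dist_comm, dist_eq_norm]
          linarith
        rw [if_pos h1, indicator_of_mem h2]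
        exact le_of_eq (by ring)
      · rw [if_neg h1, mul_zero]
        exact indicator_nonneg (fun x _ => div_nonneg (hg.pos x).le (by positivity)) w
    · unfold kF
      by_cases h1 : ϱ v ≤ 4 * ‖v - w‖
      · rw [if_pos h1]
        exact le_of_eq (by ring)
      · rw [if_neg h1, mul_zero]
        exact div_nonneg hgw (norm_nonneg _)
  have hnn : ∀ w, 0 ≤ a * (Metric.closedBall v (2 * s)).indicator
      (fun w => g w / ‖v - w‖ ^ 2) w + b * (g w / ‖v - w‖) := by
    intro w
    have h1 : 0 ≤ (Metric.closedBall v (2 * s)).indicator (fun w => g w / ‖v - w‖ ^ 2) w :=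
      indicator_nonneg (fun x _ => div_nonneg (hg.pos x).le (by positivity)) w
    have h2 : 0 ≤ g w / ‖v - w‖ := div_nonneg (hg.pos w).le (norm_nonneg _)
    positivity
  refine (lintegral_mono fun w => ENNReal.ofReal_le_ofReal (hle w)).trans ?_
  have hL : ENNReal.ofReal (∫ w, (a * (Metric.closedBall v (2 * s)).indicator
      (fun w => g w / ‖v - w‖ ^ 2) w + b * (g w / ‖v - w‖))) =
      ∫⁻ w, ENNReal.ofReal (a * (Metric.closedBall v (2 * s)).indicator
      (fun w => g w / ‖v - w‖ ^ 2) w + b * (g w / ‖v - w‖)) :=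
    ofReal_integral_eq_lintegral_ofReal ((hI1.const_mul a).add (hI2.const_mul b))
    (Eventually.of_forall hnn)
  rw [← hL, integral_add (hI1.const_mul a) (hI2.const_mul b),
    integral_const_mul, integral_const_mul,
    integral_indicator Metric.isClosed_closedBall.measurableSet]
  refine ENNReal.ofReal_le_ofReal (le_of_eq ?_)
  change a * n2 g s v + b * pot g v = _
  rw [ha, hb]
  unfold fi
  ring

private theorem re_add4 {a b c d : V → ℝ} (ha : Integrable a) (hb : Integrable b)
    (hc : Integrable c) (hd : Integrable d) (α β γ δ : ℝ) :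
    ∫ v, (α * a v + β * b v + γ * c v + δ * d v) =
      α * (∫ v, a v) + β * (∫ v, b v) + γ * (∫ v, c v) + δ * ∫ v, d v := by
  have h1 : Integrable (fun v => α * a v + β * b v) := (ha.const_mul α).add (hb.const_mul β)
  have h2 : Integrable (fun v => α * a v + β * b v + γ * c v) := h1.add (hc.const_mul γ)
  rw [integral_add h2 (hd.const_mul δ), integral_add h1 (hc.const_mul γ),
    integral_add (ha.const_mul α) (hb.const_mul β), integral_const_mul, integral_const_mul,
    integral_const_mul, integral_const_mul]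

/-- the pointwise bound -/
private theorem re_point {K : ℝ} (hK : 0 < K) {g Ψ : V → ℝ} {M : Set V} {s k η p : ℝ}
    (hg : Dn g) (hs : 0 < s) (h1 : s ≤ 1 / 100) (hk : 0 ≤ k) (hΨ : SlOK Ψ s)
    (hM : ∀ v ∈ M, ‖v‖ ≤ 3 / 4) (hη : 0 ≤ η) (hp : 0 ≤ p)
    (hout : ∀ v, v ∉ M → Real.exp (-(k * Ψ v)) ≤ η) (hin : ∀ v ∈ M, pot g v ≤ p) (v : V) :
    wt k Ψ v * fi g v * kap K k s Ψ v * n2 g s v
      + wt k Ψ v * (fi g v / rh s v ^ 2 + g v / rh s v ^ 4) * pot g v ≤
    K * k * (Sl Ψ s 8).indicator (fun v => wt k Ψ v * fi g v * n2 g s v) v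
      + (K * η + η * (19 * (1 + Kw g)) / s ^ 2) * (Metric.closedBall (0 : V) 3).indicator (fi g) v
      + p / s ^ 2 * (wt k Ψ v * fi g v)
      + (p / s ^ 4 + η * (19 * (1 + Kw g)) / s ^ 4)
        * (Metric.closedBall (0 : V) 3).indicator g v := by
  classical
  have hfi := re_fi_nonneg hg v
  have hgv := (hg.pos v).le
  have hn0 := re_n2_nonneg hg s v
  have hn1 : n2 g s v ≤ 1 := by
    have := (re_n2 hg hs v).2
    linarith
  have hKw := hg.cls.Kw_nonneg
  obtain ⟨hw0, hw1, hw2, hw3⟩ := wt_bd hk hΨ v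
  have hS0 : 0 ≤ (Sl Ψ s 8).indicator (fun v => wt k Ψ v * fi g v * n2 g s v) v :=
    indicator_nonneg (fun x _ => mul_nonneg (mul_nonneg (wt_bd hk hΨ x).1 (re_fi_nonneg hg x))
      (re_n2_nonneg hg s x)) v
  have hF0 : 0 ≤ (Metric.closedBall (0 : V) 3).indicator (fi g) v :=
    indicator_nonneg (fun x _ => re_fi_nonneg hg x) v
  have hG0 : 0 ≤ (Metric.closedBall (0 : V) 3).indicator g v :=
    indicator_nonneg (fun x _ => (hg.pos x).le) v
  have hs2 : 0 < s ^ 2 := by positivity
  have hs4 : 0 < s ^ 4 := by positivity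
  by_cases hφ : wt k Ψ v = 0
  · rw [hφ]
    have : 0 ≤ K * k * (Sl Ψ s 8).indicator (fun v => wt k Ψ v * fi g v * n2 g s v) v := by
      positivity
    have h5 : 0 ≤ (K * η + η * (19 * (1 + Kw g)) / s ^ 2) *
      (Metric.closedBall (0 : V) 3).indicator (fi g) v := by positivity
    have h6 : 0 ≤ (p / s ^ 4 + η * (19 * (1 + Kw g)) / s ^ 4)
        * (Metric.closedBall (0 : V) 3).indicator g v := by positivity
    linarith
  · have hv2 : ‖v‖ < 2 := by
      by_contra h
      exact hφ (hw3 (not_lt.1 h))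
    have hv3 : v ∈ Metric.closedBall (0 : V) 3 := by
      rw [Metric.mem_closedBall, dist_zero_right]
      linarith
    rw [indicator_of_mem hv3, indicator_of_mem hv3]
    have hχ0 : 0 ≤ chi 1 v := chi_nonneg 1 v
    have hχ1 : chi 1 v ≤ 1 := chi_le_one 1 v
    have hχ : 0 < chi 1 v := by
      rcases hχ0.eq_or_lt with h | h
      · exact absurd (by unfold wt; rw [← h]; ring) hφ
      · exact h
    set χ := chi 1 v with hχd
    set E := Real.exp (-(k * Ψ v)) with hE
    have hE0 : 0 < E := Real.exp_pos _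
    have hwt : wt k Ψ v = E * χ ^ 6 := rfl
    have hrh : rh s v = s * χ := rfl
    -- the first part
    have hA : wt k Ψ v * fi g v * kap K k s Ψ v * n2 g s v ≤
        K * k * (Sl Ψ s 8).indicator (fun v => wt k Ψ v * fi g v * n2 g s v) v
        + K * η * fi g v := by
      have e : wt k Ψ v * fi g v * kap K k s Ψ v * n2 g s v =
          K * (if v ∈ Sl Ψ s 8 then k else 0) * (wt k Ψ v * fi g v * n2 g s v)
          + K * (wt k Ψ v * (if 1 - 8 * s ≤ ‖v‖ then χ⁻¹ else 0)) * (fi g v * n2 g s v) := by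
        unfold kap
        rw [← hχd]
        ring
      rw [e]
      refine add_le_add ?_ ?_
      · by_cases h : v ∈ Sl Ψ s 8
        · rw [if_pos h, indicator_of_mem h]
        · rw [if_neg h, indicator_of_notMem h]
          simp
      · by_cases h : 1 - 8 * s ≤ ‖v‖
        · have hvM : v ∉ M := by
            intro h'
            have := hM v h'
            linarith
          have hEη := hout v hvM
          rw [if_pos h]
          have h7 : wt k Ψ v * χ⁻¹ ≤ η := by
            rw [hwt]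
            have : E * χ ^ 6 * χ⁻¹ = E * χ ^ 5 := by
              field_simp
            rw [this]
            have h8 : χ ^ 5 ≤ 1 := pow_le_one₀ hχ0 hχ1
            nlinarith
          have h9 : fi g v * n2 g s v ≤ fi g v := by nlinarith
          have h10 : 0 ≤ wt k Ψ v * χ⁻¹ := mul_nonneg hw0 (inv_nonneg.2 hχ0)
          calc K * (wt k Ψ v * χ⁻¹) * (fi g v * n2 g s v)
              ≤ K * (wt k Ψ v * χ⁻¹) * fi g v := by
                refine mul_le_mul_of_nonneg_left h9 (by positivity)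
            _ ≤ K * η * fi g v := by
                refine mul_le_mul_of_nonneg_right ?_ hfi
                exact mul_le_mul_of_nonneg_left h7 hK.le
        · rw [if_neg h]
          have : 0 ≤ K * η * fi g v := by positivity
          simpa using this
    have hB : wt k Ψ v * (fi g v / rh s v ^ 2 + g v / rh s v ^ 4) * pot g v ≤
        η * (19 * (1 + Kw g)) / s ^ 2 * fi g v + p / s ^ 2 * (wt k Ψ v * fi g v)
        + (p / s ^ 4 + η * (19 * (1 + Kw g)) / s ^ 4) * g v := by
      have hP0 := re_pot_nonneg hg v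
      by_cases hvM : v ∈ M
      · have hχe : χ = 1 := by
          rw [hχd]
          exact chi_one one_pos (by have := hM v hvM; linarith)
        have hpv := hin v hvM
        rw [hrh, hχe, mul_one]
        have h11 : wt k Ψ v * (fi g v / s ^ 2 + g v / s ^ 4) * pot g v ≤
            wt k Ψ v * (fi g v / s ^ 2 + g v / s ^ 4) * p := by
          refine mul_le_mul_of_nonneg_left hpv ?_
          have : 0 ≤ fi g v / s ^ 2 + g v / s ^ 4 := by positivity
          exact mul_nonneg hw0 this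
        refine h11.trans ?_
        have h12 : wt k Ψ v * (fi g v / s ^ 2 + g v / s ^ 4) * p =
            p / s ^ 2 * (wt k Ψ v * fi g v) + wt k Ψ v * (p / s ^ 4 * g v) := by ring
        have h13 : wt k Ψ v * (p / s ^ 4 * g v) ≤ p / s ^ 4 * g v := by
          have : 0 ≤ p / s ^ 4 * g v := by positivity
          nlinarith
        have h14 : 0 ≤ η * (19 * (1 + Kw g)) / s ^ 2 * fi g v := by positivity
        have h15 : 0 ≤ η * (19 * (1 + Kw g)) / s ^ 4 * g v := by positivity
        rw [h12]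
        nlinarith
      · have hEη := hout v hvM
        have hpv := re_pot hg hv2.le
        have h16 : wt k Ψ v * (fi g v / rh s v ^ 2 + g v / rh s v ^ 4) =
            (E * χ ^ 4) * (fi g v / s ^ 2) + (E * χ ^ 2) * (g v / s ^ 4) := by
          rw [hwt, hrh]
          field_simp
        have h17 : E * χ ^ 4 ≤ η := by
          have h8 : χ ^ 4 ≤ 1 := pow_le_one₀ hχ0 hχ1
          nlinarith
        have h18 : E * χ ^ 2 ≤ η := by
          have h8 : χ ^ 2 ≤ 1 := pow_le_one₀ hχ0 hχ1
          nlinarith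
        have h19 : wt k Ψ v * (fi g v / rh s v ^ 2 + g v / rh s v ^ 4) ≤
            η * (fi g v / s ^ 2) + η * (g v / s ^ 4) := by
          rw [h16]
          exact add_le_add (mul_le_mul_of_nonneg_right h17 (by positivity))
            (mul_le_mul_of_nonneg_right h18 (by positivity))
        calc wt k Ψ v * (fi g v / rh s v ^ 2 + g v / rh s v ^ 4) * pot g v
            ≤ (η * (fi g v / s ^ 2) + η * (g v / s ^ 4)) * pot g v :=
              mul_le_mul_of_nonneg_right h19 hP0
          _ ≤ (η * (fi g v / s ^ 2) + η * (g v / s ^ 4)) * (19 * (1 + Kw g)) :=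
              mul_le_mul_of_nonneg_left hpv (by positivity)
          _ = η * (19 * (1 + Kw g)) / s ^ 2 * fi g v
              + η * (19 * (1 + Kw g)) / s ^ 4 * g v := by ring
          _ ≤ _ := by
              have h20 : 0 ≤ p / s ^ 2 * (wt k Ψ v * fi g v) := by positivity
              have h21 : 0 ≤ p / s ^ 4 * g v := by positivity
              nlinarith
    have h22 : (K * η + η * (19 * (1 + Kw g)) / s ^ 2) * fi g v =
        K * η * fi g v + η * (19 * (1 + Kw g)) / s ^ 2 * fi g v := by ring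
    rw [h22]
    linarith

/-- Upper bound of the error functional. -/
theorem err_le (K : ℝ) (hK : 0 < K) : ∃ C : ℝ, 0 < C ∧ ∀ (g Ψ : V → ℝ) (M : Set V) (s k η p : ℝ),
    Dn g → 0 < s → s ≤ 1 / 100 → 0 ≤ k → k * s ≤ 1 / 100 → SlOK Ψ s →
      IsClosed M → (∀ v ∈ M, ‖v‖ ≤ 3 / 4) → 0 ≤ η → η ≤ 1 → 0 ≤ p →
      (∀ v, v ∉ M → Real.exp (-(k * Ψ v)) ≤ η) → (∀ v ∈ M, pot g v ≤ p) →
      ER (wt k Ψ) (rh s) (kap K k s Ψ) g ≤ ENNReal.ofReal
        (C * k / s ^ 3 * (∫ y in Sl Ψ s 15, wt k Ψ y * JB g y s ^ 2)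
          + C * p / s ^ 2 * FJ (wt k Ψ) g + C * p / s ^ 4 * mB g 0 3
          + C * η / s ^ 4 * (1 + Kw g) * (JB g 0 3 + mB g 0 3)) := by
  classical
  obtain ⟨C₁, hC₁, hnear⟩ := near_slope
  refine ⟨3 * K * C₁ + K + 20, by positivity, ?_⟩
  intro g Ψ M s k η p hg hs h1 hk hks hΨ hMc hM hη hη1 hp hout hin
  have hKw := hg.cls.Kw_nonneg
  have hwc : Continuous (wt k Ψ) := by
    unfold wt
    exact ((Real.continuous_exp.comp (continuous_const.mul hΨ.smooth.continuous).neg)).mul
      ((chi_smooth 1).continuous.pow 6)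
  have hwn : ∀ v, 0 ≤ wt k Ψ v := fun v => (wt_bd hk hΨ v).1
  have hwcs : HasCompactSupport (wt k Ψ) := by
    refine HasCompactSupport.intro (isCompact_closedBall (0 : V) 2) fun v hv => ?_
    refine (wt_bd hk hΨ v).2.2.2 ?_
    rw [Metric.mem_closedBall, dist_zero_right] at hv
    linarith [not_le.1 hv]
  have hfc := re_fi_cont hg
  -- integrability
  have hI1 : Integrable (fun v => wt k Ψ v * fi g v) :=
    (hwc.mul hfc).integrable_of_hasCompactSupport hwcs.mul_right
  have hI2 : Integrable (fun v => wt k Ψ v * fi g v * n2 g s v) := by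
    refine Integrable.mono' hI1
      (hI1.aestronglyMeasurable.mul (re_n2_meas hg s).aestronglyMeasurable)
      (Eventually.of_forall fun v => ?_)
    have h2 := re_n2_nonneg hg s v
    have h3 : n2 g s v ≤ 1 := by
      have := (re_n2 hg hs v).2
      linarith
    have h4 : 0 ≤ wt k Ψ v * fi g v := mul_nonneg (hwn v) (re_fi_nonneg hg v)
    rw [Real.norm_eq_abs, abs_of_nonneg (mul_nonneg h4 h2)]
    nlinarith
  have hSm : MeasurableSet (Sl Ψ s 8) := (Sl_open Ψ hΨ.smooth s 8).measurableSet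
  have hBm : MeasurableSet (Metric.closedBall (0 : V) 3) :=
    Metric.isClosed_closedBall.measurableSet
  have hI3 : Integrable ((Sl Ψ s 8).indicator (fun v => wt k Ψ v * fi g v * n2 g s v)) :=
    hI2.indicator hSm
  have hI4 : Integrable ((Metric.closedBall (0 : V) 3).indicator (fi g)) :=
    (hfc.continuousOn.integrableOn_compact (isCompact_closedBall _ _)).integrable_indicator hBm
  have hI5 : Integrable ((Metric.closedBall (0 : V) 3).indicator g) :=
    (hg.cls.smooth.continuous.continuousOn.integrableOn_compact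
      (isCompact_closedBall _ _)).integrable_indicator hBm
  set P : ℝ := 19 * (1 + Kw g) with hP
  have hP0 : 0 ≤ P := by positivity
  have hE1 : ER (wt k Ψ) (rh s) (kap K k s Ψ) g ≤ ∫⁻ v, ENNReal.ofReal
      (K * k * (Sl Ψ s 8).indicator (fun v => wt k Ψ v * fi g v * n2 g s v) v
      + (K * η + η * P / s ^ 2) * (Metric.closedBall (0 : V) 3).indicator (fi g) v
      + p / s ^ 2 * (wt k Ψ v * fi g v)
      + (p / s ^ 4 + η * P / s ^ 4) * (Metric.closedBall (0 : V) 3).indicator g v) := by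
    unfold ER
    refine lintegral_mono fun v => ?_
    have hκ : 0 ≤ kap K k s Ψ v := by
      unfold kap
      have h5 : 0 ≤ (if v ∈ Sl Ψ s 8 then k else 0) := by split_ifs <;> simp [hk]
      have h6 : 0 ≤ (if 1 - 8 * s ≤ ‖v‖ then (chi 1 v)⁻¹ else 0) := by
        split_ifs
        · exact inv_nonneg.2 (chi_nonneg 1 v)
        · exact le_rfl
      positivity
    have hϱ : rh s v ≤ s := by
      unfold rh
      nlinarith [chi_le_one 1 v]
    exact (re_inner hg hs v (hwn v) hκ hϱ).trans (ENNReal.ofReal_le_ofReal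
      (re_point hK hg hs h1 hk hΨ hM hη hp hout hin v))
  have hnn : ∀ v, 0 ≤ K * k * (Sl Ψ s 8).indicator (fun v => wt k Ψ v * fi g v * n2 g s v) v
      + (K * η + η * P / s ^ 2) * (Metric.closedBall (0 : V) 3).indicator (fi g) v
      + p / s ^ 2 * (wt k Ψ v * fi g v)
      + (p / s ^ 4 + η * P / s ^ 4) * (Metric.closedBall (0 : V) 3).indicator g v := by
    intro v
    have h5 : 0 ≤ (Sl Ψ s 8).indicator (fun v => wt k Ψ v * fi g v * n2 g s v) v :=
      indicator_nonneg (fun x _ => mul_nonneg (mul_nonneg (hwn x) (re_fi_nonneg hg x))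
        (re_n2_nonneg hg s x)) v
    have h6 : 0 ≤ (Metric.closedBall (0 : V) 3).indicator (fi g) v :=
      indicator_nonneg (fun x _ => re_fi_nonneg hg x) v
    have h7 : 0 ≤ (Metric.closedBall (0 : V) 3).indicator g v :=
      indicator_nonneg (fun x _ => (hg.pos x).le) v
    have h8 : 0 ≤ wt k Ψ v * fi g v := mul_nonneg (hwn v) (re_fi_nonneg hg v)
    positivity
  refine hE1.trans ?_
  have hL : ENNReal.ofReal (∫ v,
      (K * k * (Sl Ψ s 8).indicator (fun v => wt k Ψ v * fi g v * n2 g s v) v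
      + (K * η + η * P / s ^ 2) * (Metric.closedBall (0 : V) 3).indicator (fi g) v
      + p / s ^ 2 * (wt k Ψ v * fi g v)
      + (p / s ^ 4 + η * P / s ^ 4) * (Metric.closedBall (0 : V) 3).indicator g v)) = _ :=
    ofReal_integral_eq_lintegral_ofReal
    ((((hI3.const_mul _).add (hI4.const_mul _)).add (hI1.const_mul _)).add (hI5.const_mul _))
    (Eventually.of_forall hnn)
  rw [← hL]
  refine ENNReal.ofReal_le_ofReal ?_
  rw [re_add4 hI3 hI4 hI1 hI5, integral_indicator hSm, integral_indicator hBm,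
    integral_indicator hBm]
  change K * k * (∫ v in Sl Ψ s 8, wt k Ψ v * fi g v * n2 g s v)
    + (K * η + η * P / s ^ 2) * JB g 0 3 + p / s ^ 2 * FJ (wt k Ψ) g
    + (p / s ^ 4 + η * P / s ^ 4) * mB g 0 3 ≤ _
  have hN := hnear g Ψ s k hg hs h1 hk hks hΨ
  have hJ0 : 0 ≤ JB g 0 3 := integral_nonneg fun v => re_fi_nonneg hg v
  have hm0 : 0 ≤ mB g 0 3 := re_mB_nonneg hg 0 3
  have hF0 : 0 ≤ FJ (wt k Ψ) g := integral_nonneg fun v => mul_nonneg (hwn v) (re_fi_nonneg hg v)
  have hR0 : 0 ≤ ∫ y in Sl Ψ s 15, wt k Ψ y * JB g y s ^ 2 :=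
    integral_nonneg fun y => mul_nonneg (hwn y) (sq_nonneg _)
  have hS : ∫ v in Sl Ψ s 8, wt k Ψ v * fi g v * mB g v (4 * s) ≤
      4 * s * p * FJ (wt k Ψ) g + 300 * s ^ 3 * η * JB g 0 3 := by
    have hI6 : Integrable (fun v => 4 * s * p * (wt k Ψ v * fi g v)
        + 300 * s ^ 3 * η * (Metric.closedBall (0 : V) 3).indicator (fi g) v) :=
      (hI1.const_mul _).add (hI4.const_mul _)
    have hpt : ∀ v, wt k Ψ v * fi g v * mB g v (4 * s) ≤ 4 * s * p * (wt k Ψ v * fi g v)
        + 300 * s ^ 3 * η * (Metric.closedBall (0 : V) 3).indicator (fi g) v := by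
      intro v
      have hfi := re_fi_nonneg hg v
      have h6 : 0 ≤ (Metric.closedBall (0 : V) 3).indicator (fi g) v :=
        indicator_nonneg (fun x _ => re_fi_nonneg hg x) v
      have h8 : 0 ≤ wt k Ψ v * fi g v := mul_nonneg (hwn v) hfi
      by_cases hφ : wt k Ψ v = 0
      · rw [hφ]
        have : 0 ≤ 300 * s ^ 3 * η * (Metric.closedBall (0 : V) 3).indicator (fi g) v := by
          positivity
        simpa using this
      · have hv2 : ‖v‖ < 2 := by
          by_contra h
          exact hφ ((wt_bd hk hΨ v).2.2.2 (not_lt.1 h))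
        have hv3 : v ∈ Metric.closedBall (0 : V) 3 := by
          rw [Metric.mem_closedBall, dist_zero_right]
          linarith
        rw [indicator_of_mem hv3]
        by_cases hvM : v ∈ M
        · have h9 := re_mB_pot hg hs v
          have h10 := hin v hvM
          have h11 : mB g v (4 * s) ≤ 4 * s * p :=
            h9.trans (mul_le_mul_of_nonneg_left h10 (by positivity))
          have h12 : 0 ≤ 300 * s ^ 3 * η * fi g v := by positivity
          nlinarith [mul_le_mul_of_nonneg_left h11 h8]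
        · have h9 := re_mB_vol hg hs v
          have h10 := hout v hvM
          have h13 : wt k Ψ v ≤ η := (wt_bd hk hΨ v).2.1.trans h10
          have h14 : 0 ≤ 4 * s * p * (wt k Ψ v * fi g v) := by positivity
          have h15 : wt k Ψ v * fi g v * mB g v (4 * s) ≤ η * fi g v * (300 * s ^ 3) := by
            refine mul_le_mul ?_ h9 (re_mB_nonneg hg v _) (by positivity)
            exact mul_le_mul_of_nonneg_right h13 hfi
          linarith
    have hpt0 : ∀ v, 0 ≤ wt k Ψ v * fi g v * mB g v (4 * s) := fun v =>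
      mul_nonneg (mul_nonneg (hwn v) (re_fi_nonneg hg v)) (re_mB_nonneg hg v _)
    calc ∫ v in Sl Ψ s 8, wt k Ψ v * fi g v * mB g v (4 * s)
        ≤ ∫ v in Sl Ψ s 8, (4 * s * p * (wt k Ψ v * fi g v)
        + 300 * s ^ 3 * η * (Metric.closedBall (0 : V) 3).indicator (fi g) v) :=
          integral_mono_of_nonneg (Eventually.of_forall hpt0) hI6.integrableOn
            (Eventually.of_forall hpt)
      _ ≤ ∫ v, (4 * s * p * (wt k Ψ v * fi g v)
        + 300 * s ^ 3 * η * (Metric.closedBall (0 : V) 3).indicator (fi g) v) :=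
          setIntegral_le_integral hI6 (Eventually.of_forall fun v => (hpt0 v).trans (hpt v))
      _ = 4 * s * p * FJ (wt k Ψ) g + 300 * s ^ 3 * η * JB g 0 3 := by
          rw [integral_add (hI1.const_mul _) (hI4.const_mul _), integral_const_mul,
            integral_const_mul, integral_indicator hBm]
          rfl
  have hN' : ∫ v in Sl Ψ s 8, wt k Ψ v * fi g v * n2 g s v ≤
      C₁ / s ^ 3 * (∫ y in Sl Ψ s 15, wt k Ψ y * JB g y s ^ 2)
        + C₁ / s ^ 2 * (4 * s * p * FJ (wt k Ψ) g + 300 * s ^ 3 * η * JB g 0 3) := by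
    refine hN.trans ?_
    have : 0 ≤ C₁ / s ^ 2 := by positivity
    linarith [mul_le_mul_of_nonneg_left hS this]
  have hN2 := mul_le_mul_of_nonneg_left hN' (show 0 ≤ K * k by positivity)
  generalize (∫ v in Sl Ψ s 8, wt k Ψ v * fi g v * n2 g s v) = X at hN2 ⊢
  generalize (∫ y in Sl Ψ s 15, wt k Ψ y * JB g y s ^ 2) = R at hN2 hR0 ⊢
  generalize FJ (wt k Ψ) g = F at hN2 hF0 ⊢
  generalize JB g 0 3 = J at hN2 hJ0 ⊢
  generalize mB g 0 3 = m at hm0 ⊢
  generalize Kw g = κ at hKw hP ⊢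
  have hs4 : 1 ≤ 1 / s ^ 4 := by
    rw [le_div_iff₀ (by positivity), one_mul]
    exact pow_le_one₀ hs.le (by linarith)
  have hs24 : 1 / s ^ 2 ≤ 1 / s ^ 4 := by
    refine one_div_le_one_div_of_le (by positivity) ?_
    exact pow_le_pow_of_le_one hs.le (by linarith) (by norm_num)
  have e1 : K * k * (C₁ / s ^ 3 * R + C₁ / s ^ 2 * (4 * s * p * F + 300 * s ^ 3 * η * J)) =
      K * C₁ * k / s ^ 3 * R + 4 * (K * C₁) * (k * s) * (p / s ^ 2 * F)
        + 300 * (K * C₁) * (k * s) * (η * J) := by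
    field_simp
    ring
  rw [e1] at hN2
  have hKC : 0 < K * C₁ := by positivity
  have b1 : K * C₁ * k / s ^ 3 * R ≤ (3 * K * C₁ + K + 20) * k / s ^ 3 * R := by
    refine mul_le_mul_of_nonneg_right (div_le_div_of_nonneg_right ?_ (by positivity)) hR0
    exact mul_le_mul_of_nonneg_right (by nlinarith) hk
  have hpF : 0 ≤ p / s ^ 2 * F := by positivity
  have b2 : 4 * (K * C₁) * (k * s) * (p / s ^ 2 * F) ≤ K * C₁ * (p / s ^ 2 * F) := by
    refine mul_le_mul_of_nonneg_right ?_ hpF
    nlinarith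
  have hηJ : 0 ≤ η * J := by positivity
  have b3 : 300 * (K * C₁) * (k * s) * (η * J) ≤ 3 * (K * C₁) * (η * J) := by
    refine mul_le_mul_of_nonneg_right ?_ hηJ
    nlinarith
  have b4 : η * J ≤ η / s ^ 4 * (1 + κ) * J := by
    have h30 : η * J ≤ (η * J) * (1 / s ^ 4) := le_mul_of_one_le_right hηJ hs4
    have h31 : (η * J) * (1 / s ^ 4) ≤ (η * J) * (1 / s ^ 4) * (1 + κ) :=
      le_mul_of_one_le_right (by positivity) (by linarith)
    calc η * J ≤ (η * J) * (1 / s ^ 4) * (1 + κ) := h30.trans h31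
      _ = η / s ^ 4 * (1 + κ) * J := by ring
  have b5 : η * P / s ^ 2 * J ≤ 19 * (η / s ^ 4 * (1 + κ) * J) := by
    have h32 : η * P * J * (1 / s ^ 2) ≤ η * P * J * (1 / s ^ 4) :=
      mul_le_mul_of_nonneg_left hs24 (by positivity)
    calc η * P / s ^ 2 * J = η * P * J * (1 / s ^ 2) := by ring
      _ ≤ η * P * J * (1 / s ^ 4) := h32
      _ = 19 * (η / s ^ 4 * (1 + κ) * J) := by rw [hP]; ring
  have b6 : η * P / s ^ 4 * m = 19 * (η / s ^ 4 * (1 + κ) * m) := by rw [hP]; ring
  have hz1 : 0 ≤ η / s ^ 4 * (1 + κ) * J := by positivity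
  have hz2 : 0 ≤ η / s ^ 4 * (1 + κ) * m := by positivity
  have hz3 : 0 ≤ p / s ^ 4 * m := by positivity
  have e2 : (3 * K * C₁ + K + 20) * k / s ^ 3 * R + (3 * K * C₁ + K + 20) * p / s ^ 2 * F
      + (3 * K * C₁ + K + 20) * p / s ^ 4 * m
      + (3 * K * C₁ + K + 20) * η / s ^ 4 * (1 + κ) * (J + m) =
      (3 * K * C₁ + K + 20) * k / s ^ 3 * R + (3 * (K * C₁) + K + 20) * (p / s ^ 2 * F)
      + (3 * (K * C₁) + K + 20) * (p / s ^ 4 * m)
      + (3 * (K * C₁) + K + 20) * (η / s ^ 4 * (1 + κ) * J)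
      + (3 * (K * C₁) + K + 20) * (η / s ^ 4 * (1 + κ) * m) := by ring
  rw [e2]
  have e3 : K * k * X + (K * η + η * P / s ^ 2) * J + p / s ^ 2 * F
      + (p / s ^ 4 + η * P / s ^ 4) * m = K * k * X + K * (η * J) + η * P / s ^ 2 * J
      + p / s ^ 2 * F + p / s ^ 4 * m + η * P / s ^ 4 * m := by ring
  rw [e3, b6]
  have c1 : K * (η * J) ≤ K * (η / s ^ 4 * (1 + κ) * J) := mul_le_mul_of_nonneg_left b4 hK.le
  have c2 : 3 * (K * C₁) * (η * J) ≤ 3 * (K * C₁) * (η / s ^ 4 * (1 + κ) * J) :=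
    mul_le_mul_of_nonneg_left b4 (by positivity)
  have c3 : 0 ≤ (3 * (K * C₁) + K) * (η / s ^ 4 * (1 + κ) * m) := by positivity
  have c4 : 0 ≤ (3 * (K * C₁) + K) * (p / s ^ 4 * m) := by positivity
  have c5 : 0 ≤ (2 * (K * C₁) + K) * (p / s ^ 2 * F) := by positivity
  nlinarith

end Pool.Agent.LandauF
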