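import Pool.Agent.LandauF.RAvg
import Pool.Agent.LandauG.WPot

/-!
# LandauF, module RSq: passing from `JB²` to `(JB - C m/s²)₊²` on the slopes, and Cauchy-Schwarz

`slope_sq`: `J² ≤ 2 (J - C m/s²)₊² + 2 C² m²/s⁴`, `m = mB g y (2s)`, and
`k s⁻⁷ ∫_{S_15} φ m² dy`: if `y` is within `2 s` of a point `v` of `M`, `m ≤ mB g v (4s) ≤ 4 s pot g v ≤ 4 s p` and
`∫ φ(y) m(y) dy ≤ 68 s³ ∫_{B_1} g` (`mass_avg_le`); otherwise `φ(y) ≤ η`, `m ≤ C s³` and
`∫_{B_1} m(y) dy ≤ C s³ mB g 0 3`.  Use `k s ≤ 1`.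
`main_cs`: with `Y = {y : dist(y, M) ≤ s}`, `a(y) = (JB g y s - C m(y)/s²)₊`:
`∫_Y φ a² ≥ (∫_Y φ a)²/∫_Y φ`, `∫_Y φ ≤ |B_1| ≤ 5`, `∫_Y φ a ≥ ∫_Y φ JB g y s - C s⁻² ∫_Y φ m ≥ 2 s³ ∫_M φ fi - 68 C s mB g 0 3`
(`mass_avg`, `mass_avg_le`) and `∫_M φ fi ≥ FJ φ g - η JB g 0 3`.
-/

set_option autoImplicit false

namespace Pool.Agent.LandauF

open MeasureTheory Set Filter Topology Pool.Agent.Landau

private theorem rq_gam_cont {g : V → ℝ} (hg : Dn g) (i : Fin 3) : Continuous (gam i g) := by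
  unfold gam
  exact (continuous_pd (contDiff_one_of_smooth hg.cls.smooth) i).div hg.cls.smooth.continuous
    (fun v => (hg.pos v).ne')

private theorem rq_fi_cont {g : V → ℝ} (hg : Dn g) : Continuous (fi g) := by
  unfold fi x2
  exact hg.cls.smooth.continuous.mul
    (continuous_finsetSum _ fun i _ => (rq_gam_cont hg i).pow 2)

private theorem rq_fi_nonneg {g : V → ℝ} (hg : Dn g) (v : V) : 0 ≤ fi g v :=
  mul_nonneg (hg.pos v).le (Finset.sum_nonneg fun _ _ => sq_nonneg _)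

/-- ball integrals of a continuous function depend continuously on the centre -/
private theorem rq_ball_cont {F : V → ℝ} (hF : Continuous F) (r : ℝ) :
    Continuous fun y : V => ∫ v in Metric.closedBall y r, F v := by
  have h1 : ∀ y : V, (∫ v in Metric.closedBall y r, F v) =
      ∫ z in Metric.closedBall (0 : V) r, F (y + z) := by
    intro y
    rw [← integral_indicator Metric.isClosed_closedBall.measurableSet,
      ← integral_indicator Metric.isClosed_closedBall.measurableSet,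
      ← integral_add_left_eq_self _ y]
    congr 1
    funext z
    have hz : (y + z ∈ Metric.closedBall y r) ↔ z ∈ Metric.closedBall (0 : V) r := by
      rw [Metric.mem_closedBall, Metric.mem_closedBall, dist_eq_norm, dist_eq_norm]
      simp
    by_cases h : z ∈ Metric.closedBall (0 : V) r
    · rw [indicator_of_mem h, indicator_of_mem (hz.2 h)]
    · rw [indicator_of_notMem h, indicator_of_notMem (fun h' => h (hz.1 h'))]
  simp only [h1]
  refine continuous_parametric_integral_of_continuous ?_ (isCompact_closedBall (0 : V) r)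
  exact hF.comp (continuous_fst.add continuous_snd)

private theorem rq_JB_cont {g : V → ℝ} (hg : Dn g) (s : ℝ) : Continuous fun y => JB g y s :=
  rq_ball_cont (rq_fi_cont hg) s

private theorem rq_mB_cont {g : V → ℝ} (hg : Dn g) (s : ℝ) : Continuous fun y => mB g y s :=
  rq_ball_cont hg.cls.smooth.continuous s

private theorem rq_JB_nonneg {g : V → ℝ} (hg : Dn g) (y : V) (s : ℝ) : 0 ≤ JB g y s :=
  integral_nonneg fun v => rq_fi_nonneg hg v

private theorem rq_mB_nonneg {g : V → ℝ} (hg : Dn g) (y : V) (s : ℝ) : 0 ≤ mB g y s :=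
  integral_nonneg fun v => (hg.pos v).le

private theorem rq_mB_mono {g : V → ℝ} (hg : Dn g) {y z : V} {r t : ℝ}
    (h : Metric.closedBall y r ⊆ Metric.closedBall z t) : mB g y r ≤ mB g z t :=
  setIntegral_mono_set (hg.cls.smooth.continuous.continuousOn.integrableOn_compact
    (isCompact_closedBall _ _)) (Eventually.of_forall fun v => (hg.pos v).le)
    h.eventuallyLE

private theorem rq_vol (y : V) {r : ℝ} (hr : 0 ≤ r) :
    (volume (Metric.closedBall y r)).toReal ≤ 21 / 5 * r ^ 3 := by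
  rw [EuclideanSpace.volume_closedBall_fin_three, ENNReal.toReal_mul, ENNReal.toReal_pow,
    ENNReal.toReal_ofReal hr, ENNReal.toReal_ofReal (by positivity)]
  have := Real.pi_lt_d2
  nlinarith [pow_nonneg hr 3]

private theorem rq_mB_vol {g : V → ℝ} (hg : Dn g) (y : V) {r : ℝ} (hr : 0 ≤ r) :
    mB g y r ≤ 21 / 5 * r ^ 3 := by
  refine le_trans ?_ (rq_vol y hr)
  unfold mB
  calc ∫ v in Metric.closedBall y r, g v ≤ ∫ v in Metric.closedBall y r, (1 : ℝ) := by
        refine setIntegral_mono_on (hg.cls.smooth.continuous.continuousOn.integrableOn_compact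
          (isCompact_closedBall _ _)) ?_ Metric.isClosed_closedBall.measurableSet
          (fun v _ => hg.cls.le_one v)
        exact integrableOn_const (measure_closedBall_lt_top.ne)
    _ = (volume (Metric.closedBall y r)).toReal := by
        rw [setIntegral_const, smul_eq_mul, mul_one]
        rfl

private theorem rq_mB_pot {g : V → ℝ} (hg : Dn g) (v : V) {r : ℝ} (hr : 0 < r) :
    mB g v r ≤ r * pot g v := by
  have hi := pot_int g hg.cls v
  have h0 : ∀ w, 0 ≤ g w / ‖v - w‖ := fun w => div_nonneg (hg.pos w).le (norm_nonneg _)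
  have h1 : mB g v r ≤ ∫ w in Metric.closedBall v r, r * (g w / ‖v - w‖) := by
    unfold mB
    refine setIntegral_mono_on_ae (hg.cls.smooth.continuous.continuousOn.integrableOn_compact
      (isCompact_closedBall _ _)) (hi.const_mul r).integrableOn
      Metric.isClosed_closedBall.measurableSet ?_
    have hne : ∀ᵐ w : V, w ≠ v := by
      simp [ae_iff, measure_singleton]
    filter_upwards [hne] with w hw hwb
    have h2 : 0 < ‖v - w‖ := norm_pos_iff.2 (sub_ne_zero.2 (Ne.symm hw))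
    have h3 : ‖v - w‖ ≤ r := by
      rw [Metric.mem_closedBall, dist_eq_norm, norm_sub_rev] at hwb
      exact hwb
    rw [← mul_div_assoc, le_div_iff₀ h2, mul_comm r]
    exact mul_le_mul_of_nonneg_left h3 (hg.pos w).le
  refine h1.trans ?_
  rw [integral_const_mul]
  exact mul_le_mul_of_nonneg_left
    (setIntegral_le_integral hi (Eventually.of_forall h0)) hr.le

private theorem rq_sl_ball {Ψ : V → ℝ} {s : ℝ} (h1 : s ≤ 1 / 100)
    (hΨ : SlOK Ψ s) {y : V} (hy : y ∈ Sl Ψ s 15) : ‖y‖ ≤ 9 / 10 := by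
  obtain ⟨x, hx, i, hi⟩ := hy
  have h2 : ‖x‖ < 3 / 4 := by
    by_contra hc
    exact hi (hΨ.flat x (not_lt.1 hc) i)
  have h3 : ‖y‖ ≤ ‖x‖ + ‖x - y‖ := by
    have := norm_sub_le x (x - y)
    rwa [sub_sub_cancel] at this
  linarith

private theorem rq_slok0 {s : ℝ} (hs : 0 < s) : SlOK (fun _ : V => (0 : ℝ)) s where
  smooth := contDiff_const
  nonneg := fun _ => le_rfl
  d1 := fun v i => by simp [pd]
  d2 := fun v i j => by
    have : pd j (fun _ : V => (0 : ℝ)) = fun _ => 0 := by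
      funext x
      simp [pd]
    rw [this]
    simp [pd]
    exact hs.le
  flat := fun v _ i => by simp [pd]

private theorem rq_wt0 {y : V} (hy : ‖y‖ ≤ 1) : wt 0 (fun _ : V => (0 : ℝ)) y = 1 := by
  unfold wt
  rw [chi_one one_pos hy]
  simp

private theorem rq_wt_cont {Ψ : V → ℝ} {s : ℝ} (hΨ : SlOK Ψ s) (k : ℝ) :
    Continuous (wt k Ψ) := by
  unfold wt
  exact (Real.continuous_exp.comp (continuous_const.mul hΨ.smooth.continuous).neg).mul
    ((chi_smooth 1).continuous.pow 6)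

private theorem rq_pt {J m C s : ℝ} (hJ : 0 ≤ J) (hm : 0 ≤ m) (hC : 0 < C) (hs : 0 < s) :
    J ^ 2 ≤ 2 * (max 0 (J - C * m / s ^ 2)) ^ 2 + 2 * C ^ 2 * m ^ 2 / s ^ 4 := by
  set b : ℝ := C * m / s ^ 2 with hb
  have hb0 : 0 ≤ b := by positivity
  have e : 2 * C ^ 2 * m ^ 2 / s ^ 4 = 2 * b ^ 2 := by
    rw [hb, div_pow, mul_pow, ← pow_mul]
    ring
  rw [e]
  rcases le_total J b with h | h
  · have : J ^ 2 ≤ b ^ 2 := pow_le_pow_left₀ hJ h 2
    nlinarith [sq_nonneg (max 0 (J - b))]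
  · rw [max_eq_right (by linarith)]
    nlinarith [sq_nonneg (J - 2 * b)]

theorem slope_sq (C : ℝ) (hC : 0 < C) : ∃ C' : ℝ, 0 < C' ∧
    ∀ (g Ψ : V → ℝ) (M : Set V) (s k η p : ℝ),
    Dn g → 0 < s → s ≤ 1 / 100 → 0 ≤ k → k * s ≤ 1 / 100 → SlOK Ψ s →
      IsClosed M → (∀ v ∈ M, ‖v‖ ≤ 3 / 4) → 0 ≤ η → η ≤ 1 → 0 ≤ p →
      (∀ v, v ∉ M → Real.exp (-(k * Ψ v)) ≤ η) → (∀ v ∈ M, pot g v ≤ p) →
      k / s ^ 3 * (∫ y in Sl Ψ s 15, wt k Ψ y * JB g y s ^ 2) ≤
        2 * k / s ^ 3 * (∫ y in Sl Ψ s 15,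
          wt k Ψ y * (max 0 (JB g y s - C * mB g y (2 * s) / s ^ 2)) ^ 2)
        + C' * p / s ^ 4 * mB g 0 3 + C' * η / s ^ 4 * mB g 0 3 := by
  refine ⟨50 * C ^ 2, by positivity, ?_⟩
  intro g Ψ M s k η p hg hs h1 hk h2 hΨ hM hMb hη hη1 hp hMη hMp
  have hSm : MeasurableSet (Sl Ψ s 15) := (Sl_open Ψ hΨ.smooth s 15).measurableSet
  have hSb : ∀ y ∈ Sl Ψ s 15, ‖y‖ ≤ 1 - 2 * s := fun y hy => by
    have := rq_sl_ball h1 hΨ hy
    linarith
  have hSsub : Sl Ψ s 15 ⊆ Metric.closedBall (0 : V) 1 := fun y hy => by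
    rw [mem_closedBall_zero_iff]
    have := hSb y hy
    linarith
  have hint : ∀ F : V → ℝ, Continuous F → IntegrableOn F (Sl Ψ s 15) := fun F hF =>
    (hF.continuousOn.integrableOn_compact (isCompact_closedBall (0 : V) 1)).mono_set hSsub
  have cW := rq_wt_cont hΨ k
  have cJ := rq_JB_cont hg s
  have cm := rq_mB_cont hg (2 * s)
  have cW0 := rq_wt_cont (rq_slok0 hs) 0
  have hm0 : ∀ y, 0 ≤ mB g y (2 * s) := fun y => rq_mB_nonneg hg y _
  set A : ℝ := ∫ y in Sl Ψ s 15, wt k Ψ y * JB g y s ^ 2 with hA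
  set B : ℝ := ∫ y in Sl Ψ s 15,
    wt k Ψ y * (max 0 (JB g y s - C * mB g y (2 * s) / s ^ 2)) ^ 2 with hB
  set D1 : ℝ := ∫ y in Sl Ψ s 15, wt k Ψ y * mB g y (2 * s) with hD1
  set D2 : ℝ := ∫ y in Sl Ψ s 15, wt 0 (fun _ : V => (0 : ℝ)) y * mB g y (2 * s) with hD2
  have hD1le : D1 ≤ 68 * s ^ 3 * mB g 0 3 := by
    have h := mass_avg_le hs h1 hk h2 hΨ g hg.cls.smooth.continuous (fun v => (hg.pos v).le)
      (Sl Ψ s 15) hSm hSb
    refine (show D1 ≤ _ from h).trans ?_
    refine mul_le_mul_of_nonneg_left ?_ (by positivity)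
    refine le_trans ?_ (rq_mB_mono hg (Metric.closedBall_subset_closedBall
      (show (1 : ℝ) ≤ 3 by norm_num)))
    unfold mB
    refine setIntegral_mono_on ((cW.mul hg.cls.smooth.continuous).continuousOn.integrableOn_compact
      (isCompact_closedBall _ _)) (hg.cls.smooth.continuous.continuousOn.integrableOn_compact
      (isCompact_closedBall _ _)) Metric.isClosed_closedBall.measurableSet (fun v _ => ?_)
    have h3 := (wt_bd hk hΨ v).2.2.1
    have h4 := (hg.pos v).le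
    nlinarith
  have hD2le : D2 ≤ 68 * s ^ 3 * mB g 0 3 := by
    have h := mass_avg_le (Ψ := fun _ : V => (0 : ℝ)) (k := 0) hs h1 le_rfl (by norm_num)
      (rq_slok0 hs) g hg.cls.smooth.continuous (fun v => (hg.pos v).le) (Sl Ψ s 15) hSm hSb
    refine (show D2 ≤ _ from h).trans ?_
    refine mul_le_mul_of_nonneg_left ?_ (by positivity)
    refine le_trans ?_ (rq_mB_mono hg (Metric.closedBall_subset_closedBall
      (show (1 : ℝ) ≤ 3 by norm_num)))
    unfold mB
    refine setIntegral_mono_on ((cW0.mul hg.cls.smooth.continuous).continuousOn.integrableOn_compact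
      (isCompact_closedBall _ _)) (hg.cls.smooth.continuous.continuousOn.integrableOn_compact
      (isCompact_closedBall _ _)) Metric.isClosed_closedBall.measurableSet (fun v _ => ?_)
    have h3 := (wt_bd (k := 0) le_rfl (rq_slok0 hs) v).2.2.1
    have h4 := (hg.pos v).le
    nlinarith
  -- pointwise bound
  have hpt : ∀ y ∈ Sl Ψ s 15, wt k Ψ y * mB g y (2 * s) ^ 2 ≤
      4 * s * p * (wt k Ψ y * mB g y (2 * s)) +
        34 * s ^ 3 * η * (wt 0 (fun _ : V => (0 : ℝ)) y * mB g y (2 * s)) := by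
    intro y hy
    have hw := wt_bd hk hΨ y
    have hmy := hm0 y
    have hy1 : ‖y‖ ≤ 1 := by
      have := hSb y hy
      linarith
    rw [rq_wt0 hy1, one_mul]
    by_cases hyM : y ∈ M
    · have h3 : mB g y (2 * s) ≤ 4 * s * p := by
        have h4 := rq_mB_pot hg y (show 0 < 2 * s by linarith)
        have h5 := hMp y hyM
        have h6 : 2 * s * pot g y ≤ 2 * s * p := mul_le_mul_of_nonneg_left h5 (by linarith)
        nlinarith [mul_nonneg hs.le hp]
      have h7 : wt k Ψ y * mB g y (2 * s) ^ 2 ≤ 4 * s * p * (wt k Ψ y * mB g y (2 * s)) := by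
        have h8 : 0 ≤ wt k Ψ y * mB g y (2 * s) := mul_nonneg hw.1 hmy
        nlinarith
      have h9 : 0 ≤ 34 * s ^ 3 * η * mB g y (2 * s) := by positivity
      linarith
    · have h3 : wt k Ψ y ≤ η := hw.2.1.trans (hMη y hyM)
      have h4 : mB g y (2 * s) ≤ 34 * s ^ 3 := by
        have := rq_mB_vol hg y (show 0 ≤ 2 * s by linarith)
        have h5 : (2 * s) ^ 3 = 8 * s ^ 3 := by ring
        rw [h5] at this
        have h6 : 0 < s ^ 3 := by positivity
        nlinarith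
      have h7 : wt k Ψ y * mB g y (2 * s) ^ 2 ≤ 34 * s ^ 3 * η * mB g y (2 * s) := by
        calc wt k Ψ y * mB g y (2 * s) ^ 2 ≤ η * mB g y (2 * s) ^ 2 :=
              mul_le_mul_of_nonneg_right h3 (sq_nonneg _)
          _ = η * mB g y (2 * s) * mB g y (2 * s) := by ring
          _ ≤ η * mB g y (2 * s) * (34 * s ^ 3) :=
              mul_le_mul_of_nonneg_left h4 (mul_nonneg hη hmy)
          _ = 34 * s ^ 3 * η * mB g y (2 * s) := by ring
      have h8 : 0 ≤ 4 * s * p * (wt k Ψ y * mB g y (2 * s)) :=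
        mul_nonneg (by positivity) (mul_nonneg hw.1 hmy)
      linarith
  have hAB : A ≤ 2 * B + 2 * C ^ 2 / s ^ 4 * (4 * s * p * D1 + 34 * s ^ 3 * η * D2) := by
    have e : 2 * B + 2 * C ^ 2 / s ^ 4 * (4 * s * p * D1 + 34 * s ^ 3 * η * D2) =
        ∫ y in Sl Ψ s 15, (2 * (wt k Ψ y * (max 0 (JB g y s - C * mB g y (2 * s) / s ^ 2)) ^ 2)
          + 2 * C ^ 2 / s ^ 4 * (4 * s * p * (wt k Ψ y * mB g y (2 * s)) +
            34 * s ^ 3 * η * (wt 0 (fun _ : V => (0 : ℝ)) y * mB g y (2 * s)))) := by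
      rw [integral_add, integral_const_mul, integral_const_mul, integral_add,
        integral_const_mul, integral_const_mul]
      · exact hint _ (continuous_const.mul (cW.mul cm))
      · exact hint _ (continuous_const.mul (cW0.mul cm))
      · refine hint _ (continuous_const.mul (cW.mul ((continuous_const.max
          (cJ.sub ((continuous_const.mul cm).div_const _))).pow 2)))
      · exact hint _ (continuous_const.mul ((continuous_const.mul (cW.mul cm)).add
          (continuous_const.mul (cW0.mul cm))))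
    rw [e, hA]
    refine setIntegral_mono_on (hint _ (cW.mul (cJ.pow 2))) (hint _ ?_) hSm (fun y hy => ?_)
    · exact (continuous_const.mul (cW.mul ((continuous_const.max
          (cJ.sub ((continuous_const.mul cm).div_const _))).pow 2))).add
        (continuous_const.mul ((continuous_const.mul (cW.mul cm)).add
          (continuous_const.mul (cW0.mul cm))))
    · have h3 := rq_pt (rq_JB_nonneg hg y s) (hm0 y) hC hs
      have hw := (wt_bd hk hΨ y).1
      have h4 := mul_le_mul_of_nonneg_left h3 hw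
      have h5 := hpt y hy
      have h6 : 0 ≤ 2 * C ^ 2 / s ^ 4 := by positivity
      have h7 := mul_le_mul_of_nonneg_left h5 h6
      have e2 : wt k Ψ y * (2 * (max 0 (JB g y s - C * mB g y (2 * s) / s ^ 2)) ^ 2 +
          2 * C ^ 2 * mB g y (2 * s) ^ 2 / s ^ 4) =
          2 * (wt k Ψ y * (max 0 (JB g y s - C * mB g y (2 * s) / s ^ 2)) ^ 2) +
          2 * C ^ 2 / s ^ 4 * (wt k Ψ y * mB g y (2 * s) ^ 2) := by ring
      rw [e2] at h4
      linarith
  -- final computation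
  have hmass := rq_mB_nonneg hg 0 3
  have hks : 0 ≤ k / s ^ 3 := by positivity
  have h3 := mul_le_mul_of_nonneg_left hAB hks
  refine h3.trans ?_
  have h4 : 4 * s * p * D1 + 34 * s ^ 3 * η * D2 ≤
      4 * s * p * (68 * s ^ 3 * mB g 0 3) + 34 * s ^ 3 * η * (68 * s ^ 3 * mB g 0 3) := by
    have a1 := mul_le_mul_of_nonneg_left hD1le (show 0 ≤ 4 * s * p by positivity)
    have a2 := mul_le_mul_of_nonneg_left hD2le (show 0 ≤ 34 * s ^ 3 * η by positivity)
    linarith
  have h5 : k / s ^ 3 * (2 * C ^ 2 / s ^ 4 * (4 * s * p * D1 + 34 * s ^ 3 * η * D2)) ≤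
      k / s ^ 3 * (2 * C ^ 2 / s ^ 4 * (4 * s * p * (68 * s ^ 3 * mB g 0 3) +
        34 * s ^ 3 * η * (68 * s ^ 3 * mB g 0 3))) := by
    refine mul_le_mul_of_nonneg_left (mul_le_mul_of_nonneg_left h4 (by positivity)) hks
  have h6 : k / s ^ 3 * (2 * C ^ 2 / s ^ 4 * (4 * s * p * (68 * s ^ 3 * mB g 0 3) +
        34 * s ^ 3 * η * (68 * s ^ 3 * mB g 0 3))) =
      (k * s) * (544 * C ^ 2 * p / s ^ 4 * mB g 0 3) +
        (k * s) * (4624 * C ^ 2 * η * s ^ 2 / s ^ 4 * mB g 0 3) := by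
    field_simp
    ring
  have h7 : (k * s) * (544 * C ^ 2 * p / s ^ 4 * mB g 0 3) ≤
      1 / 100 * (544 * C ^ 2 * p / s ^ 4 * mB g 0 3) :=
    mul_le_mul_of_nonneg_right h2 (by positivity)
  have h8 : (k * s) * (4624 * C ^ 2 * η * s ^ 2 / s ^ 4 * mB g 0 3) ≤
      1 / 100 * (4624 * C ^ 2 * η * 1 / s ^ 4 * mB g 0 3) := by
    have hs2 : s ^ 2 ≤ 1 := by nlinarith
    have h9 : 4624 * C ^ 2 * η * s ^ 2 / s ^ 4 * mB g 0 3 ≤
        4624 * C ^ 2 * η * 1 / s ^ 4 * mB g 0 3 := by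
      refine mul_le_mul_of_nonneg_right ?_ hmass
      refine div_le_div_of_nonneg_right ?_ (by positivity)
      exact mul_le_mul_of_nonneg_left hs2 (by positivity)
    exact mul_le_mul h2 h9 (by positivity) (by norm_num)
  have h10 : 1 / 100 * (544 * C ^ 2 * p / s ^ 4 * mB g 0 3) ≤
      50 * C ^ 2 * p / s ^ 4 * mB g 0 3 := by
    have : 0 ≤ C ^ 2 * p / s ^ 4 * mB g 0 3 := by positivity
    have e1 : 1 / 100 * (544 * C ^ 2 * p / s ^ 4 * mB g 0 3) =
      5.44 * (C ^ 2 * p / s ^ 4 * mB g 0 3) := by ring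
    have e2 : 50 * C ^ 2 * p / s ^ 4 * mB g 0 3 = 50 * (C ^ 2 * p / s ^ 4 * mB g 0 3) := by ring
    rw [e1, e2]
    linarith
  have h11 : 1 / 100 * (4624 * C ^ 2 * η * 1 / s ^ 4 * mB g 0 3) ≤
      50 * C ^ 2 * η / s ^ 4 * mB g 0 3 := by
    have : 0 ≤ C ^ 2 * η / s ^ 4 * mB g 0 3 := by positivity
    have e1 : 1 / 100 * (4624 * C ^ 2 * η * 1 / s ^ 4 * mB g 0 3) =
      46.24 * (C ^ 2 * η / s ^ 4 * mB g 0 3) := by ring
    have e2 : 50 * C ^ 2 * η / s ^ 4 * mB g 0 3 = 50 * (C ^ 2 * η / s ^ 4 * mB g 0 3) := by ring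
    rw [e1, e2]
    linarith
  have e3 : k / s ^ 3 * (2 * B + 2 * C ^ 2 / s ^ 4 * (4 * s * p * D1 + 34 * s ^ 3 * η * D2)) =
      2 * k / s ^ 3 * B +
        k / s ^ 3 * (2 * C ^ 2 / s ^ 4 * (4 * s * p * D1 + 34 * s ^ 3 * η * D2)) := by ring
  rw [e3]
  linarith

theorem main_cs (C : ℝ) (hC : 0 < C) : ∃ c C' : ℝ, 0 < c ∧ 0 < C' ∧
    ∀ (g Ψ : V → ℝ) (M : Set V) (s k η : ℝ),
    Dn g → 0 < s → s ≤ 1 / 100 → 0 ≤ k → k * s ≤ 1 / 100 → SlOK Ψ s →
      IsClosed M → (∀ v ∈ M, ‖v‖ ≤ 3 / 4) → 0 ≤ η → η ≤ 1 →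
      (∀ v, v ∉ M → Real.exp (-(k * Ψ v)) ≤ η) →
      c * s ^ 6 * (max 0 (FJ (wt k Ψ) g - C' * (mB g 0 3 / s ^ 2 + η * JB g 0 3))) ^ 2 ≤
        ∫ y in {y : V | ∃ v ∈ M, ‖y - v‖ ≤ s},
          wt k Ψ y * (max 0 (JB g y s - C * mB g y (2 * s) / s ^ 2)) ^ 2 := by
  refine ⟨4 / 5, 34 * C + 1, by norm_num, by positivity, ?_⟩
  intro g Ψ M s k η hg hs h1 hk h2 hΨ hM hMb hη hη1 hMη
  have hMc : IsCompact M := by
    refine Metric.isCompact_of_isClosed_isBounded hM ?_
    refine (Metric.isBounded_closedBall (x := (0 : V)) (r := 3 / 4)).subset fun v hv => ?_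
    rw [mem_closedBall_zero_iff]
    exact hMb v hv
  set Y : Set V := {y : V | ∃ v ∈ M, ‖y - v‖ ≤ s} with hY
  have hYe : Y = (fun q : V × V => q.1 + q.2) '' (M ×ˢ Metric.closedBall (0 : V) s) := by
    ext y
    constructor
    · rintro ⟨v, hv, hyv⟩
      refine ⟨(v, y - v), ⟨hv, ?_⟩, ?_⟩
      · rw [mem_closedBall_zero_iff]
        exact hyv
      · simp
    · rintro ⟨⟨v, z⟩, ⟨hv, hz⟩, rfl⟩
      refine ⟨v, hv, ?_⟩
      rw [mem_closedBall_zero_iff] at hz
      simpa using hz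
  have hYc : IsCompact Y := by
    rw [hYe]
    exact (hMc.prod (isCompact_closedBall (0 : V) s)).image (continuous_fst.add continuous_snd)
  have hYm : MeasurableSet Y := hYc.measurableSet
  have hYb : ∀ y ∈ Y, ‖y‖ ≤ 1 - 2 * s := by
    rintro y ⟨v, hv, hyv⟩
    have h3 := hMb v hv
    have h4 : ‖y‖ ≤ ‖v‖ + ‖y - v‖ := by
      have := norm_add_le v (y - v)
      rwa [add_sub_cancel] at this
    linarith
  have hYsub : Y ⊆ Metric.closedBall (0 : V) 1 := fun y hy => by
    rw [mem_closedBall_zero_iff]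
    have := hYb y hy
    linarith
  have hint : ∀ F : V → ℝ, Continuous F → IntegrableOn F Y := fun F hF =>
    hF.continuousOn.integrableOn_compact hYc
  have cW := rq_wt_cont hΨ k
  have cJ := rq_JB_cont hg s
  have cm := rq_mB_cont hg (2 * s)
  have cfi := rq_fi_cont hg
  have ca : Continuous fun y => max 0 (JB g y s - C * mB g y (2 * s) / s ^ 2) :=
    continuous_const.max (cJ.sub ((continuous_const.mul cm).div_const _))
  have hw0 : ∀ y, 0 ≤ wt k Ψ y := fun y => (wt_bd hk hΨ y).1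
  set a : V → ℝ := fun y => max 0 (JB g y s - C * mB g y (2 * s) / s ^ 2) with ha
  have hS2nn : 0 ≤ ∫ y in Y, wt k Ψ y * a y ^ 2 :=
    integral_nonneg fun y => mul_nonneg (hw0 y) (sq_nonneg _)
  set S0 : ℝ := ∫ y in Y, wt k Ψ y with hS0
  set S1 : ℝ := ∫ y in Y, wt k Ψ y * a y with hS1
  set S2 : ℝ := ∫ y in Y, wt k Ψ y * a y ^ 2 with hS2
  have hS0le : S0 ≤ 5 := by
    have h3 : S0 ≤ ∫ y in Y, (1 : ℝ) :=
      setIntegral_mono_on (hint _ cW) (hint _ continuous_const) hYm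
        (fun y _ => (wt_bd hk hΨ y).2.2.1)
    have h4 : ∫ y in Y, (1 : ℝ) ≤ ∫ y in Metric.closedBall (0 : V) 1, (1 : ℝ) :=
      setIntegral_mono_set (integrableOn_const (measure_closedBall_lt_top.ne))
        (Eventually.of_forall fun _ => zero_le_one) hYsub.eventuallyLE
    have h5 : ∫ y in Metric.closedBall (0 : V) 1, (1 : ℝ) ≤ 5 := by
      rw [setIntegral_const, smul_eq_mul, mul_one]
      refine le_trans (show _ ≤ _ from rq_vol (0 : V) zero_le_one) (by norm_num)
    linarith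
  have hcs : S1 ^ 2 / 5 ≤ S2 := by
    have h3 : 0 ≤ ∫ y in Y, wt k Ψ y * (a y - S1 / 5) ^ 2 :=
      integral_nonneg fun y => mul_nonneg (hw0 y) (sq_nonneg _)
    have e : ∫ y in Y, wt k Ψ y * (a y - S1 / 5) ^ 2 =
        S2 - 2 * (S1 / 5) * S1 + (S1 / 5) ^ 2 * S0 := by
      have e1 : (fun y => wt k Ψ y * (a y - S1 / 5) ^ 2) = fun y =>
          (wt k Ψ y * a y ^ 2 - 2 * (S1 / 5) * (wt k Ψ y * a y)) + (S1 / 5) ^ 2 * wt k Ψ y := by
        funext y
        ring
      rw [e1, integral_add, integral_sub, integral_const_mul, integral_const_mul]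
      · exact hint _ (cW.mul (ca.pow 2))
      · exact hint _ (continuous_const.mul (cW.mul ca))
      · exact hint _ ((cW.mul (ca.pow 2)).sub (continuous_const.mul (cW.mul ca)))
      · exact hint _ (continuous_const.mul cW)
    rw [e] at h3
    nlinarith [sq_nonneg S1]
  -- lower bound of `S1`
  have hS1ge : (∫ y in Y, wt k Ψ y * JB g y s) -
      C / s ^ 2 * (∫ y in Y, wt k Ψ y * mB g y (2 * s)) ≤ S1 := by
    have j1 : IntegrableOn (fun y => wt k Ψ y * JB g y s) Y := hint _ (cW.mul cJ)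
    have j2 : IntegrableOn (fun y => C / s ^ 2 * (wt k Ψ y * mB g y (2 * s))) Y :=
      hint _ (continuous_const.mul (cW.mul cm))
    rw [← integral_const_mul, ← integral_sub j1 j2]
    refine setIntegral_mono_on (j1.sub j2) (hint _ (cW.mul ca)) hYm (fun y _ => ?_)
    have h3 : JB g y s - C * mB g y (2 * s) / s ^ 2 ≤ a y := le_max_right _ _
    have h4 := mul_le_mul_of_nonneg_left h3 (hw0 y)
    have e : wt k Ψ y * JB g y s - C / s ^ 2 * (wt k Ψ y * mB g y (2 * s)) =
        wt k Ψ y * (JB g y s - C * mB g y (2 * s) / s ^ 2) := by ring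
    rw [e]
    exact h4
  have hJ1 : 2 * s ^ 3 * (∫ v in M, wt k Ψ v * fi g v) ≤ ∫ y in Y, wt k Ψ y * JB g y s :=
    mass_avg hs h1 hk h2 hΨ M hM (fun v hv => by have := hMb v hv; linarith) (fi g) cfi
      (rq_fi_nonneg hg)
  have hm1 : ∫ y in Y, wt k Ψ y * mB g y (2 * s) ≤ 68 * s ^ 3 * mB g 0 3 := by
    have h := mass_avg_le hs h1 hk h2 hΨ g hg.cls.smooth.continuous (fun v => (hg.pos v).le)
      Y hYm hYb
    refine (show _ ≤ _ from h).trans ?_
    refine mul_le_mul_of_nonneg_left ?_ (by positivity)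
    refine le_trans ?_ (rq_mB_mono hg (Metric.closedBall_subset_closedBall
      (show (1 : ℝ) ≤ 3 by norm_num)))
    unfold mB
    refine setIntegral_mono_on ((cW.mul hg.cls.smooth.continuous).continuousOn.integrableOn_compact
      (isCompact_closedBall _ _)) (hg.cls.smooth.continuous.continuousOn.integrableOn_compact
      (isCompact_closedBall _ _)) Metric.isClosed_closedBall.measurableSet (fun v _ => ?_)
    have h3 := (wt_bd hk hΨ v).2.2.1
    have h4 := (hg.pos v).le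
    nlinarith
  have hFJ : FJ (wt k Ψ) g ≤ (∫ v in M, wt k Ψ v * fi g v) + η * JB g 0 3 := by
    have hB3 : MeasurableSet (Metric.closedBall (0 : V) 3) :=
      Metric.isClosed_closedBall.measurableSet
    have hF0 : ∀ v, 0 ≤ fi g v := rq_fi_nonneg hg
    have e1 : FJ (wt k Ψ) g = ∫ v in Metric.closedBall (0 : V) 3, wt k Ψ v * fi g v := by
      unfold FJ
      symm
      refine setIntegral_eq_integral_of_forall_compl_eq_zero fun v hv => ?_
      rw [mem_closedBall_zero_iff, not_le] at hv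
      rw [(wt_bd hk hΨ v).2.2.2 (by linarith), zero_mul]
    have e2 : ∫ v in M, wt k Ψ v * fi g v =
        ∫ v in Metric.closedBall (0 : V) 3, M.indicator (fun v => wt k Ψ v * fi g v) v := by
      rw [setIntegral_indicator hM.measurableSet]
      congr 2
      symm
      refine inter_eq_right.2 fun v hv => ?_
      rw [mem_closedBall_zero_iff]
      have := hMb v hv
      linarith
    have i1 : IntegrableOn (fun v => wt k Ψ v * fi g v) (Metric.closedBall (0 : V) 3) :=
      (cW.mul cfi).continuousOn.integrableOn_compact (isCompact_closedBall _ _)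
    have i2 : IntegrableOn (fi g) (Metric.closedBall (0 : V) 3) :=
      cfi.continuousOn.integrableOn_compact (isCompact_closedBall _ _)
    have i3 : IntegrableOn (M.indicator (fun v => wt k Ψ v * fi g v))
        (Metric.closedBall (0 : V) 3) := i1.indicator hM.measurableSet
    rw [e1, e2]
    unfold JB
    rw [← integral_const_mul, ← integral_add i3 (i2.const_mul η)]
    refine setIntegral_mono_on i1 (i3.add (i2.const_mul η)) hB3 (fun v _ => ?_)
    by_cases hv : v ∈ M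
    · rw [indicator_of_mem hv]
      have := mul_nonneg hη (hF0 v)
      linarith
    · rw [indicator_of_notMem hv, zero_add]
      exact mul_le_mul_of_nonneg_right ((wt_bd hk hΨ v).2.1.trans (hMη v hv)) (hF0 v)
  -- conclusion
  have hmass := rq_mB_nonneg hg 0 3
  have hJ3 := rq_JB_nonneg hg 0 3
  set X : ℝ := FJ (wt k Ψ) g - (34 * C + 1) * (mB g 0 3 / s ^ 2 + η * JB g 0 3) with hX
  rcases le_total X 0 with hX0 | hX0
  · rw [max_eq_left hX0]
    simpa using hS2nn
  · rw [max_eq_right hX0]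
    have hkey : 2 * s ^ 3 * X ≤ S1 := by
      have a1 : C / s ^ 2 * (∫ y in Y, wt k Ψ y * mB g y (2 * s)) ≤
          C / s ^ 2 * (68 * s ^ 3 * mB g 0 3) :=
        mul_le_mul_of_nonneg_left hm1 (by positivity)
      have a2 : C / s ^ 2 * (68 * s ^ 3 * mB g 0 3) =
          2 * s ^ 3 * (34 * C * (mB g 0 3 / s ^ 2)) := by
        field_simp
        ring
      have a3 : 2 * s ^ 3 * (FJ (wt k Ψ) g - η * JB g 0 3) ≤
          2 * s ^ 3 * (∫ v in M, wt k Ψ v * fi g v) :=
        mul_le_mul_of_nonneg_left (by linarith) (by positivity)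
      have a4 : X ≤ FJ (wt k Ψ) g - η * JB g 0 3 - 34 * C * (mB g 0 3 / s ^ 2) := by
        have b1 : 0 ≤ mB g 0 3 / s ^ 2 := by positivity
        have b2 : 0 ≤ η * JB g 0 3 := by positivity
        have b3 : 0 ≤ 34 * C * (η * JB g 0 3) := by positivity
        rw [hX]
        nlinarith
      have a5 := mul_le_mul_of_nonneg_left a4 (show 0 ≤ 2 * s ^ 3 by positivity)
      have a6 : 2 * s ^ 3 * (FJ (wt k Ψ) g - η * JB g 0 3 - 34 * C * (mB g 0 3 / s ^ 2)) =
          2 * s ^ 3 * (FJ (wt k Ψ) g - η * JB g 0 3) -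
            2 * s ^ 3 * (34 * C * (mB g 0 3 / s ^ 2)) := by ring
      rw [a6] at a5
      linarith
    have h3 : (2 * s ^ 3 * X) ^ 2 ≤ S1 ^ 2 :=
      pow_le_pow_left₀ (mul_nonneg (by positivity) hX0) hkey 2
    have e : 4 / 5 * s ^ 6 * X ^ 2 = (2 * s ^ 3 * X) ^ 2 / 5 := by ring
    change 4 / 5 * s ^ 6 * X ^ 2 ≤ S2
    rw [e]
    linarith

end Pool.Agent.LandauF
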