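import Pool.Agent.LandauF.FTopLF
import Pool.Agent.LandauF.FTopCell
import Pool.Agent.LandauF.RErr
import Pool.Agent.LandauF.RSq

/-!
# LandauF, module FTopRic: the Riccati inequality at unit scale

`ε₀` from `LF`, `K`, `s₁`, `ε₁` from `wt_adm ε₀`, constants `c, C` from `CELL`.  Let `φ = wt k Ψ`, `ϱ = rh s ≤ s`,
`a(y) = (JB g y s - C m(y)/s²)₊`, `Y = {y : dist(y, M) ≤ s}` (`⊆ B_{7/8}`; closed since `M` is compact).
`CELL` with `r = r₀` for `y ∈ Y`, with `r = C₁ k` for `y ∈ Sl Ψ s 20` (`C₁ k ≤ 1/s` as `C₁ ε₁ ≤ 1`), integrated against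
`φ(y) dy` and `diss_avg` (half of `DE` for each):
`DE φ ϱ g ≥ (c/(136 s³)) (r₀ ∫_Y φ a² + C₁ k ∫_{S_20} φ a²) =: B`.  `err_le`, `slope_sq` bound `ER` by
`A = 2 C' k s⁻³ ∫_{S_15} φ a² + (other terms)`.  `LF`: `dFJ ≤ C₀ A - c₀ B`; choose `C₁` with
`c₀ c C₁/136 ≥ 2 C₀ C'`, so the slope terms cancel, and use `main_cs` for the remaining term.
-/

set_option autoImplicit false

namespace Pool.Agent.LandauF

open MeasureTheory Set Filter Topology Pool.Agent.Landau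

namespace FTopRicAux

theorem meas_ball {F : V → ℝ} (hF : Continuous F) (s : ℝ) :
    Measurable (fun y : V => ∫ v in Metric.closedBall y s, F v) := by
  have h1 : ∀ y : V, ∫ v in Metric.closedBall y s, F v =
      ∫ v, ({p : V × V | ‖p.2 - p.1‖ ≤ s}.indicator (fun p : V × V => F p.2)) (y, v) := by
    intro y
    rw [← integral_indicator Metric.isClosed_closedBall.measurableSet]
    refine integral_congr_ae (Eventually.of_forall fun v => ?_)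
    simp only [indicator, Metric.mem_closedBall, dist_eq_norm, mem_setOf_eq]
  simp_rw [h1]
  have hm : MeasurableSet {p : V × V | ‖p.2 - p.1‖ ≤ s} :=
    measurableSet_le (by fun_prop) measurable_const
  have h2 : StronglyMeasurable ({p : V × V | ‖p.2 - p.1‖ ≤ s}.indicator
      (fun p : V × V => F p.2)) :=
    (hF.measurable.comp measurable_snd).stronglyMeasurable.indicator hm
  exact (MeasureTheory.StronglyMeasurable.integral_prod_right'
    (f := {p : V × V | ‖p.2 - p.1‖ ≤ s}.indicator (fun p : V × V => F p.2)) h2).measurable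

theorem gsm {g : V → ℝ} (hg : Dn g) (i : Fin 3) : Continuous (gam i g) := by
  unfold gam
  exact (smooth_pd hg.cls.smooth i).continuous.div hg.cls.cont fun v => (hg.pos v).ne'

theorem fic {g : V → ℝ} (hg : Dn g) : Continuous (fi g) := by
  unfold fi x2
  exact hg.cls.cont.mul (continuous_finsetSum _ fun i _ => (gsm hg i).pow 2)

theorem fin {g : V → ℝ} (hg : Dn g) (v : V) : 0 ≤ fi g v :=
  mul_nonneg (hg.pos v).le (Finset.sum_nonneg fun i _ => sq_nonneg _)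

theorem ball_bd {F : V → ℝ} (hF : Continuous F) (h0 : ∀ v, 0 ≤ F v) {s : ℝ} {y : V}
    (hy : ‖y‖ + s ≤ 3) :
    0 ≤ (∫ v in Metric.closedBall y s, F v) ∧
      (∫ v in Metric.closedBall y s, F v) ≤ ∫ v in Metric.closedBall (0 : V) 3, F v := by
  constructor
  · exact setIntegral_nonneg Metric.isClosed_closedBall.measurableSet fun v _ => h0 v
  · refine setIntegral_mono_set (hF.continuousOn.integrableOn_compact (isCompact_closedBall _ _))
      (Eventually.of_forall h0) ?_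
    refine (Metric.closedBall_subset_closedBall' ?_).eventuallyLE
    rw [dist_zero_right]
    linarith

theorem ofReal_int_le {α : Type*} [MeasurableSpace α] (μ : Measure α) (F : α → ℝ)
    (h0 : ∀ x, 0 ≤ F x) : ENNReal.ofReal (∫ x, F x ∂μ) ≤ ∫⁻ x, ENNReal.ofReal (F x) ∂μ := by
  by_cases hi : Integrable F μ
  · rw [ofReal_integral_eq_lintegral_ofReal hi (Eventually.of_forall h0)]
  · rw [integral_undef hi, ENNReal.ofReal_zero]
    exact zero_le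

/-- cells give dissipation -/
theorem cell_sum {g Ψ : V → ℝ} (hg : Dn g) {s k c C r : ℝ} (hs : 0 < s) (h1 : s ≤ 1 / 100)
    (hk : 0 ≤ k) (h2 : k * s ≤ 1 / 100) (hΨ : SlOK Ψ s) (Y : Set V) (hY : MeasurableSet Y)
    (hYb : ∀ y ∈ Y, ‖y‖ ≤ 1 - 2 * s) (hc : 0 < c) (hr : 0 ≤ r)
    (hcell : ∀ y ∈ Y, ENNReal.ofReal
      (c * r * (max 0 (JB g y s - C * mB g y (2 * s) / s ^ 2)) ^ 2) ≤
        DE (indicator (Metric.closedBall y (2 * s)) 1) (rh s) g) :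
    ENNReal.ofReal (c * r * ∫ y in Y, wt k Ψ y *
      (max 0 (JB g y s - C * mB g y (2 * s) / s ^ 2)) ^ 2) ≤
      ENNReal.ofReal (68 * s ^ 3) * DE (wt k Ψ) (rh s) g := by
  have hϱ : Measurable (rh s) := by
    unfold rh
    exact measurable_const.mul (chi_smooth 1).continuous.measurable
  refine le_trans ?_ (diss_avg hg hs h1 hk h2 hΨ Y hY hYb (rh s) hϱ)
  rw [← integral_const_mul]
  refine (ofReal_int_le _ _ fun y => ?_).trans ?_
  · exact mul_nonneg (mul_nonneg hc.le hr) (mul_nonneg (wt_bd hk hΨ y).1 (sq_nonneg _))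
  · refine setLIntegral_mono' hY fun y hy => ?_
    have e : c * r * (wt k Ψ y * (max 0 (JB g y s - C * mB g y (2 * s) / s ^ 2)) ^ 2) =
        wt k Ψ y * (c * r * (max 0 (JB g y s - C * mB g y (2 * s) / s ^ 2)) ^ 2) := by ring
    rw [e, ENNReal.ofReal_mul (wt_bd hk hΨ y).1]
    exact mul_le_mul_right (hcell y hy) _

theorem wt_cont {Ψ : V → ℝ} {s k : ℝ} (hΨ : SlOK Ψ s) : Continuous (wt k Ψ) := by
  unfold wt
  have h1 := hΨ.smooth.continuous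
  have h2 := (chi_smooth 1).continuous
  fun_prop

theorem a_int {g Ψ : V → ℝ} (hg : Dn g) {s k C : ℝ} (hs : 0 < s) (h1 : s ≤ 1 / 100)
    (hk : 0 ≤ k) (hC : 0 < C) (hΨ : SlOK Ψ s) (Y : Set V) (hY : MeasurableSet Y)
    (hYb : ∀ y ∈ Y, ‖y‖ ≤ 1) :
    IntegrableOn (fun y => wt k Ψ y * (max 0 (JB g y s - C * mB g y (2 * s) / s ^ 2)) ^ 2) Y := by
  have hm1 : Measurable (fun y => JB g y s) := meas_ball (fic hg) s
  have hm2 : Measurable (fun y => mB g y (2 * s)) := meas_ball hg.cls.cont (2 * s)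
  have hm : Measurable (fun y => wt k Ψ y *
      (max 0 (JB g y s - C * mB g y (2 * s) / s ^ 2)) ^ 2) := by
    refine (wt_cont hΨ).measurable.mul ?_
    refine Measurable.pow_const ?_ 2
    exact measurable_const.max (hm1.sub ((measurable_const.mul hm2).div_const _))
  have hfin : volume Y ≠ ⊤ := by
    have h3 : Y ⊆ Metric.closedBall (0 : V) 1 := fun y hy => by
      rw [mem_closedBall_zero_iff]
      exact hYb y hy
    exact ((measure_mono h3).trans_lt measure_closedBall_lt_top).ne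
  refine Measure.integrableOn_of_bounded hfin hm.aestronglyMeasurable
    (M := (JB g 0 3) ^ 2) ?_
  refine (ae_restrict_iff' hY).2 (Eventually.of_forall fun y hy => ?_)
  have hw := wt_bd hk hΨ y
  have hy1 := hYb y hy
  have hJ := ball_bd (fic hg) (fin hg) (s := s) (y := y) (by linarith)
  have hm0 := ball_bd hg.cls.cont hg.cls.nonneg (s := 2 * s) (y := y) (by linarith)
  have hJ' : 0 ≤ JB g y s ∧ JB g y s ≤ JB g 0 3 := hJ
  have hmm : 0 ≤ mB g y (2 * s) := hm0.1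
  have hle : max 0 (JB g y s - C * mB g y (2 * s) / s ^ 2) ≤ JB g 0 3 := by
    refine max_le (hJ'.1.trans hJ'.2) ?_
    have : 0 ≤ C * mB g y (2 * s) / s ^ 2 := by positivity
    linarith [hJ'.2]
  rw [Real.norm_eq_abs, abs_of_nonneg (mul_nonneg hw.1 (sq_nonneg _))]
  calc wt k Ψ y * (max 0 (JB g y s - C * mB g y (2 * s) / s ^ 2)) ^ 2
      ≤ 1 * (JB g 0 3) ^ 2 :=
        mul_le_mul hw.2.2.1 (pow_le_pow_left₀ (le_max_left _ _) hle 2) (sq_nonneg _) zero_le_one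
    _ = _ := one_mul _

end FTopRicAux

open FTopRicAux

/-- The Riccati inequality. -/
theorem RIC : ∃ c₁ C₁ C₂ s₁ ε₁ : ℝ, 0 < c₁ ∧ 0 < C₁ ∧ 0 < C₂ ∧ 0 < s₁ ∧ s₁ ≤ 1 ∧ 0 < ε₁ ∧
    ∀ (g Ψ : V → ℝ) (M : Set V) (s k η p r₀ : ℝ), Dn g → 0 < s → s ≤ s₁ → 0 ≤ k → k * s ≤ ε₁ →
      ContDiff ℝ (⊤ : ℕ∞) Ψ → (∀ v, 0 ≤ Ψ v) → (∀ v, ∀ i : Fin 3, |pd i Ψ v| ≤ 1) →
      (∀ v, ∀ i j : Fin 3, |pd i (pd j Ψ) v| ≤ 1 / s) →
      (∀ v, 3 / 4 ≤ ‖v‖ → ∀ i : Fin 3, pd i Ψ v = 0) →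
      IsClosed M → (∀ v ∈ M, ‖v‖ ≤ 3 / 4) → 0 ≤ η → η ≤ 1 → 0 ≤ p → 0 < r₀ → r₀ ≤ 1 / s →
      (∀ v, v ∉ M → Real.exp (-(k * Ψ v)) ≤ η) →
      (∀ v ∈ M, pot g v ≤ p) →
      (∀ y, (∃ v ∈ M, ‖y - v‖ ≤ s) → r₀ * mB g y (2 * s) ≤ PB g y s) →
      (∀ y, (∃ x, ‖x - y‖ ≤ 20 * s ∧ ∃ i : Fin 3, pd i Ψ x ≠ 0) →
        C₁ * k * mB g y (2 * s) ≤ PB g y s) →
      dFJ (wt k Ψ) g ≤
        -(c₁ * r₀ * s ^ 3 *
          (max 0 (FJ (wt k Ψ) g - C₂ * (mB g 0 3 / s ^ 2 + η * JB g 0 3))) ^ 2)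
        + C₂ * p / s ^ 2 * FJ (wt k Ψ) g + C₂ * p / s ^ 4 * mB g 0 3
        + C₂ * η / s ^ 4 * (1 + Kw g) * (JB g 0 3 + mB g 0 3) := by
  obtain ⟨c₀, C₀, ε₀, hc₀, hC₀, hε₀, hLF⟩ := LF
  obtain ⟨K, s₁, ε₁, hK, hs₁, hs₁', hε₁, hε₁', hadm⟩ := wt_adm ε₀ hε₀
  obtain ⟨c, C, hc, hC, hcell⟩ := CELL
  obtain ⟨Ce, hCe, herr⟩ := err_le K hK
  obtain ⟨C', hC', hslope⟩ := slope_sq C hC
  obtain ⟨cm, Cm, hcm, hCm, hmain⟩ := main_cs C hC
  obtain ⟨D, hD⟩ : ∃ D, D = 272 * C₀ * Ce / (c₀ * c) + 1 := ⟨_, rfl⟩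
  have hD0 : 0 < D := by rw [hD]; positivity
  have hDc : 2 * C₀ * Ce ≤ c₀ * c * D / 136 := by
    rw [hD]
    have h1 : c₀ * c * (272 * C₀ * Ce / (c₀ * c) + 1) / 136 = 2 * C₀ * Ce + c₀ * c / 136 := by
      field_simp
      ring
    rw [h1]
    have : 0 < c₀ * c / 136 := by positivity
    linarith
  refine ⟨c₀ * c * cm / 136, D, max Cm (C₀ * (Ce + Ce * C')), s₁, min ε₁ (1 / D),
    by positivity, hD0, lt_max_of_lt_left hCm, hs₁, hs₁'.trans (by norm_num),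
    lt_min hε₁ (by positivity), ?_⟩
  intro g Ψ M s k η p r₀ hg hs hss hk hks hΨ1 hΨ2 hΨ3 hΨ4 hΨ5 hM hMb hη hη1 hp hr hrs hout hpot
    h3 h4
  have hΨ : SlOK Ψ s := ⟨hΨ1, hΨ2, hΨ3, hΨ4, hΨ5⟩
  have hs100 : s ≤ 1 / 100 := hss.trans hs₁'
  have hks1 : k * s ≤ ε₁ := hks.trans (min_le_left _ _)
  have hks2 : k * s ≤ 1 / 100 := hks1.trans hε₁'
  have hDk : D * k ≤ 1 / s := by
    rw [le_div_iff₀ hs]
    have h5 : k * s ≤ 1 / D := hks.trans (min_le_right _ _)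
    rw [le_div_iff₀ hD0] at h5
    linarith
  have hA := hadm Ψ s k hs hss hk hks1 hΨ
  -- the set Y
  obtain ⟨Y, hYd⟩ : ∃ Y : Set V, Y = {y : V | ∃ v ∈ M, ‖y - v‖ ≤ s} := ⟨_, rfl⟩
  have hYc : IsClosed Y := by
    have h5 : IsCompact M := Metric.isCompact_of_isClosed_isBounded hM
      ((Metric.isBounded_closedBall (x := (0 : V)) (r := 3 / 4)).subset fun v hv => by
        rw [mem_closedBall_zero_iff]
        exact hMb v hv)
    have h6 : Y = (fun q : V × V => q.1 + q.2) '' (M ×ˢ Metric.closedBall (0 : V) s) := by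
      rw [hYd]
      ext y
      simp only [mem_setOf_eq, mem_image, mem_prod, mem_closedBall_zero_iff, Prod.exists]
      constructor
      · rintro ⟨v, hv, h⟩
        exact ⟨v, y - v, ⟨hv, h⟩, by abel⟩
      · rintro ⟨v, z, ⟨hv, hz⟩, rfl⟩
        exact ⟨v, hv, by rwa [add_sub_cancel_left]⟩
    rw [h6]
    exact ((h5.prod (isCompact_closedBall _ _)).image (by fun_prop)).isClosed
  have hYb : ∀ y ∈ Y, ‖y‖ ≤ 1 - 2 * s := by
    intro y hy
    rw [hYd] at hy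
    obtain ⟨v, hv, h⟩ := hy
    have h5 := hMb v hv
    have h6 : ‖y‖ ≤ ‖v‖ + ‖y - v‖ := by
      have := norm_add_le v (y - v)
      rwa [add_sub_cancel] at this
    linarith
  have hSb : ∀ y ∈ Sl Ψ s 20, ‖y‖ ≤ 1 - 2 * s := by
    rintro y ⟨x, hx, i, hi⟩
    have h5 : ‖x‖ < 3 / 4 := by
      by_contra hcon
      exact hi (hΨ5 x (not_lt.1 hcon) i)
    have h6 : ‖y‖ ≤ ‖x‖ + ‖x - y‖ := by
      have := norm_sub_le x (x - y)
      rwa [sub_sub_cancel] at this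
    linarith
  have hSm : MeasurableSet (Sl Ψ s 20) := (Sl_open Ψ hΨ1 s 20).measurableSet
  have hrho : ∀ v, 0 ≤ rh s v ∧ rh s v ≤ s := fun v => by
    unfold rh
    exact ⟨mul_nonneg hs.le (chi_nonneg _ _), mul_le_of_le_one_right hs.le (chi_le_one _ _)⟩
  have hrm : Measurable (rh s) := by
    unfold rh
    exact measurable_const.mul (chi_smooth 1).continuous.measurable
  obtain ⟨X, hX⟩ : ∃ X, X = ∫ y in Y, wt k Ψ y *
    (max 0 (JB g y s - C * mB g y (2 * s) / s ^ 2)) ^ 2 := ⟨_, rfl⟩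
  obtain ⟨Z, hZ⟩ : ∃ Z, Z = ∫ y in Sl Ψ s 20, wt k Ψ y *
    (max 0 (JB g y s - C * mB g y (2 * s) / s ^ 2)) ^ 2 := ⟨_, rfl⟩
  have hX0 : 0 ≤ X := by
    rw [hX]
    exact setIntegral_nonneg hYc.measurableSet fun y _ =>
      mul_nonneg (wt_bd hk hΨ y).1 (sq_nonneg _)
  have hZ0 : 0 ≤ Z := by
    rw [hZ]
    exact setIntegral_nonneg hSm fun y _ => mul_nonneg (wt_bd hk hΨ y).1 (sq_nonneg _)
  have hd1 : ENNReal.ofReal (c * r₀ * X) ≤
      ENNReal.ofReal (68 * s ^ 3) * DE (wt k Ψ) (rh s) g := by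
    rw [hX]
    refine cell_sum hg hs hs100 hk hks2 hΨ Y hYc.measurableSet hYb hc hr.le fun y hy => ?_
    rw [hYd] at hy
    exact hcell g hg y s (rh s) hs hrho hrm r₀ hr.le hrs (h3 y hy)
  have hd2 : ENNReal.ofReal (c * (D * k) * Z) ≤
      ENNReal.ofReal (68 * s ^ 3) * DE (wt k Ψ) (rh s) g := by
    rw [hZ]
    refine cell_sum hg hs hs100 hk hks2 hΨ (Sl Ψ s 20) hSm hSb hc (by positivity)
      fun y hy => ?_
    exact hcell g hg y s (rh s) hs hrho hrm (D * k) (by positivity) hDk (h4 y hy)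
  obtain ⟨B, hB⟩ : ∃ B, B = c / (136 * s ^ 3) * (r₀ * X + D * k * Z) := ⟨_, rfl⟩
  have hB0 : 0 ≤ B := by rw [hB]; positivity
  have hDE : ENNReal.ofReal B ≤ DE (wt k Ψ) (rh s) g := by
    have h5 : ENNReal.ofReal (136 * s ^ 3) * ENNReal.ofReal B ≤
        ENNReal.ofReal (136 * s ^ 3) * DE (wt k Ψ) (rh s) g := by
      rw [← ENNReal.ofReal_mul (by positivity)]
      have e : 136 * s ^ 3 * B = c * r₀ * X + c * (D * k) * Z := by
        rw [hB]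
        field_simp
      rw [e, ENNReal.ofReal_add (by positivity) (by positivity)]
      refine (add_le_add hd1 hd2).trans (le_of_eq ?_)
      rw [← add_mul, ← ENNReal.ofReal_add (by positivity) (by positivity)]
      congr 2
      ring
    have h6 : ENNReal.ofReal (136 * s ^ 3) ≠ 0 := by
      rw [ne_eq, ENNReal.ofReal_eq_zero, not_le]
      positivity
    exact (ENNReal.mul_le_mul_iff_right h6 ENNReal.ofReal_ne_top).1 h5
  obtain ⟨I, hI⟩ : ∃ I, I = ∫ y in Sl Ψ s 15, wt k Ψ y * JB g y s ^ 2 := ⟨_, rfl⟩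
  have hI0 : 0 ≤ I := by
    rw [hI]
    exact setIntegral_nonneg (Sl_open Ψ hΨ1 s 15).measurableSet fun y _ =>
      mul_nonneg (wt_bd hk hΨ y).1 (sq_nonneg _)
  have hm0 : 0 ≤ mB g 0 3 := (ball_bd hg.cls.cont hg.cls.nonneg (s := 3) (y := (0 : V))
    (by simp)).1
  have hJ0 : 0 ≤ JB g 0 3 := (ball_bd (fic hg) (fin hg) (s := 3) (y := (0 : V)) (by simp)).1
  have hF0 : 0 ≤ FJ (wt k Ψ) g :=
    integral_nonneg fun v => mul_nonneg (wt_bd hk hΨ v).1 (fin hg v)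
  have hKw := hg.cls.Kw_nonneg
  have e1 := herr g Ψ M s k η p hg hs hs100 hk hks2 hΨ hM hMb hη hη1 hp hout hpot
  have e2 := hslope g Ψ M s k η p hg hs hs100 hk hks2 hΨ hM hMb hη hη1 hp hout hpot
  have e3 := hmain g Ψ M s k η hg hs hs100 hk hks2 hΨ hM hMb hη hη1 hout
  rw [← hI] at e1 e2
  rw [← hYd, ← hX] at e3
  have hZ15 : ∫ y in Sl Ψ s 15, wt k Ψ y *
      (max 0 (JB g y s - C * mB g y (2 * s) / s ^ 2)) ^ 2 ≤ Z := by
    rw [hZ]
    refine setIntegral_mono_set ?_ (Eventually.of_forall fun y =>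
      mul_nonneg (wt_bd hk hΨ y).1 (sq_nonneg _)) (Eventually.of_forall ?_)
    · exact a_int hg hs hs100 hk hC hΨ _ hSm fun y hy => by linarith [hSb y hy]
    · rintro y ⟨x, hx, hi⟩
      exact ⟨x, by linarith, hi⟩
  have h7 := hLF (wt k Ψ) (rh s) (kap K k s Ψ) g hA hg _ B (by positivity) hB0 e1 hDE
  refine h7.trans ?_
  obtain ⟨P, hP⟩ : ∃ P, P = max Cm (C₀ * (Ce + Ce * C')) := ⟨_, rfl⟩
  have hP1 : Cm ≤ P := by rw [hP]; exact le_max_left _ _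
  have hP2 : C₀ * (Ce + Ce * C') ≤ P := by rw [hP]; exact le_max_right _ _
  rw [← hP]
  have hP0 : 0 < P := hCm.trans_le hP1
  -- the main term
  have h8 : c₀ * c * cm / 136 * r₀ * s ^ 3 *
      (max 0 (FJ (wt k Ψ) g - P * (mB g 0 3 / s ^ 2 + η * JB g 0 3))) ^ 2 ≤
      c₀ * (c / (136 * s ^ 3) * (r₀ * X)) := by
    have h9 : (max 0 (FJ (wt k Ψ) g - P * (mB g 0 3 / s ^ 2 + η * JB g 0 3))) ^ 2 ≤
        (max 0 (FJ (wt k Ψ) g - Cm * (mB g 0 3 / s ^ 2 + η * JB g 0 3))) ^ 2 := by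
      refine pow_le_pow_left₀ (le_max_left _ _) (max_le_max le_rfl ?_) 2
      have : 0 ≤ mB g 0 3 / s ^ 2 + η * JB g 0 3 := by positivity
      nlinarith
    calc c₀ * c * cm / 136 * r₀ * s ^ 3 *
          (max 0 (FJ (wt k Ψ) g - P * (mB g 0 3 / s ^ 2 + η * JB g 0 3))) ^ 2
        ≤ c₀ * c * cm / 136 * r₀ * s ^ 3 *
          (max 0 (FJ (wt k Ψ) g - Cm * (mB g 0 3 / s ^ 2 + η * JB g 0 3))) ^ 2 :=
          mul_le_mul_of_nonneg_left h9 (by positivity)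
      _ = c₀ * (c / (136 * s ^ 3)) * r₀ * (cm * s ^ 6 *
          (max 0 (FJ (wt k Ψ) g - Cm * (mB g 0 3 / s ^ 2 + η * JB g 0 3))) ^ 2) := by
          field_simp
      _ ≤ c₀ * (c / (136 * s ^ 3)) * r₀ * X := mul_le_mul_of_nonneg_left e3 (by positivity)
      _ = _ := by ring
  -- the slope terms
  have h10 : C₀ * (Ce * k / s ^ 3 * I) ≤ c₀ * (c / (136 * s ^ 3) * (D * k * Z)) +
      C₀ * (Ce * C') * (p / s ^ 4 * mB g 0 3 + η / s ^ 4 * mB g 0 3) := by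
    have h11 : C₀ * (Ce * k / s ^ 3 * I) = C₀ * Ce * (k / s ^ 3 * I) := by ring
    have h12 : 2 * k / s ^ 3 * (∫ y in Sl Ψ s 15, wt k Ψ y *
        (max 0 (JB g y s - C * mB g y (2 * s) / s ^ 2)) ^ 2) ≤ 2 * k / s ^ 3 * Z :=
      mul_le_mul_of_nonneg_left hZ15 (by positivity)
    rw [h11]
    calc C₀ * Ce * (k / s ^ 3 * I) ≤ C₀ * Ce * (2 * k / s ^ 3 * Z + C' * p / s ^ 4 * mB g 0 3 +
          C' * η / s ^ 4 * mB g 0 3) :=
          mul_le_mul_of_nonneg_left (e2.trans (by linarith)) (by positivity)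
      _ = 2 * C₀ * Ce * (k / s ^ 3 * Z) +
          C₀ * (Ce * C') * (p / s ^ 4 * mB g 0 3 + η / s ^ 4 * mB g 0 3) := by ring
      _ ≤ c₀ * c * D / 136 * (k / s ^ 3 * Z) +
          C₀ * (Ce * C') * (p / s ^ 4 * mB g 0 3 + η / s ^ 4 * mB g 0 3) := by
          have := mul_le_mul_of_nonneg_right hDc (show 0 ≤ k / s ^ 3 * Z by positivity)
          linarith
      _ = _ := by
          congr 1
          field_simp
  -- the rest
  have q1 : 0 ≤ p / s ^ 2 * FJ (wt k Ψ) g := by positivity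
  have q2 : 0 ≤ p / s ^ 4 * mB g 0 3 := by positivity
  have q3 : 0 ≤ η / s ^ 4 * (1 + Kw g) * (JB g 0 3 + mB g 0 3) := by positivity
  have q4 : η / s ^ 4 * mB g 0 3 ≤ η / s ^ 4 * (1 + Kw g) * (JB g 0 3 + mB g 0 3) := by
    have q5 : η / s ^ 4 * 1 ≤ η / s ^ 4 * (1 + Kw g) :=
      mul_le_mul_of_nonneg_left (by linarith) (by positivity)
    calc η / s ^ 4 * mB g 0 3 = η / s ^ 4 * 1 * mB g 0 3 := by ring
      _ ≤ η / s ^ 4 * (1 + Kw g) * (JB g 0 3 + mB g 0 3) :=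
        mul_le_mul q5 (by linarith) hm0 (by positivity)
  have hCC : 0 ≤ C₀ * (Ce * C') := by positivity
  have w1 : C₀ * Ce * (p / s ^ 2 * FJ (wt k Ψ) g) ≤ P * (p / s ^ 2 * FJ (wt k Ψ) g) := by
    refine mul_le_mul_of_nonneg_right ?_ q1
    nlinarith
  have w2 : C₀ * (Ce + Ce * C') * (p / s ^ 4 * mB g 0 3) ≤ P * (p / s ^ 4 * mB g 0 3) :=
    mul_le_mul_of_nonneg_right hP2 q2
  have w3 : C₀ * (Ce + Ce * C') * (η / s ^ 4 * (1 + Kw g) * (JB g 0 3 + mB g 0 3)) ≤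
      P * (η / s ^ 4 * (1 + Kw g) * (JB g 0 3 + mB g 0 3)) :=
    mul_le_mul_of_nonneg_right hP2 q3
  have w4 := mul_le_mul_of_nonneg_left q4 hCC
  rw [hB]
  have r1 : C₀ * (Ce * k / s ^ 3 * I + Ce * p / s ^ 2 * FJ (wt k Ψ) g +
      Ce * p / s ^ 4 * mB g 0 3 + Ce * η / s ^ 4 * (1 + Kw g) * (JB g 0 3 + mB g 0 3)) =
      C₀ * (Ce * k / s ^ 3 * I) + C₀ * Ce * (p / s ^ 2 * FJ (wt k Ψ) g) +
      C₀ * Ce * (p / s ^ 4 * mB g 0 3) +
      C₀ * Ce * (η / s ^ 4 * (1 + Kw g) * (JB g 0 3 + mB g 0 3)) := by ring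
  have r2 : c₀ * (c / (136 * s ^ 3) * (r₀ * X + D * k * Z)) =
      c₀ * (c / (136 * s ^ 3) * (r₀ * X)) + c₀ * (c / (136 * s ^ 3) * (D * k * Z)) := by ring
  have r3 : P * p / s ^ 2 * FJ (wt k Ψ) g = P * (p / s ^ 2 * FJ (wt k Ψ) g) := by ring
  have r4 : P * p / s ^ 4 * mB g 0 3 = P * (p / s ^ 4 * mB g 0 3) := by ring
  have r5 : P * η / s ^ 4 * (1 + Kw g) * (JB g 0 3 + mB g 0 3) =
      P * (η / s ^ 4 * (1 + Kw g) * (JB g 0 3 + mB g 0 3)) := by ring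
  rw [r1, r2, r3, r4, r5]
  linarith

end Pool.Agent.LandauF
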