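import Pool.Agent.LandauF.NTrans
import Pool.Agent.Landau.Chi

/-!
# LandauF, module Hardy: Hardy inequality, local form

`hardy`: for `h` smooth with compact support, `∫ h²/‖w - v‖² dw ≤ 4 ∫ |∇h|²`.  Proof: translate to `v = 0`;
`div (w/‖w‖²) = 1/‖w‖²` in dimension 3, so `∫ h²/‖w‖² = -2 ∫ h ∇h·w/‖w‖² ≤ 2 (∫ h²/‖w‖²)^{1/2} (∫ |∇h|²)^{1/2}`; to
avoid the singularity use the field `w/(‖w‖² + ε)`, whose divergence is
`3/(‖w‖²+ε) - 2 ‖w‖²/(‖w‖²+ε)² ≥ 1/(‖w‖²+ε) ≥ ‖w‖²/(‖w‖²+ε)²`, and let `ε → 0`.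
`hardy_loc`: `h(w) = chi (2s) (w - v) √g(w)` (`1` on the ball of radius `2 s`, `0` outside that of radius `4 s`):
`|∇h|² ≤ 2 |∇χ|² g + ½ χ² g |X|²`.
-/

set_option autoImplicit false

namespace Pool.Agent.LandauF

open MeasureTheory Set Filter Topology Pool.Agent.Landau

private theorem hy_single (z : V) (i : Fin 3) :
    inner ℝ z (EuclideanSpace.single i (1 : ℝ)) = z i := by
  rw [EuclideanSpace.inner_single_right]
  simp

private theorem hy_nsq (z : V) : ‖z‖ ^ 2 = z 0 ^ 2 + z 1 ^ 2 + z 2 ^ 2 := nsq z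

private theorem hy_smooth_q (v : V) (ε : ℝ) :
    ContDiff ℝ 1 (fun w : V => ‖w - v‖ ^ 2 + ε) := by
  have h : ContDiff ℝ 1 (fun w : V => w - v) := by fun_prop
  exact (h.norm_sq ℝ).add contDiff_const

private theorem hy_pd_q (v : V) (ε : ℝ) (i : Fin 3) (w : V) :
    pd i (fun w : V => ‖w - v‖ ^ 2 + ε) w = 2 * (w i - v i) := by
  unfold pd
  have h0 : HasFDerivAt (fun w : V => w - v) (ContinuousLinearMap.id ℝ V) w :=
    (hasFDerivAt_id w).sub_const v
  have h1 := (h0.norm_sq).add_const ε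
  rw [h1.fderiv]
  have h2 := hy_single (w - v) i
  simp only [FunLike.coe_smul, Pi.smul_apply, ContinuousLinearMap.comp_apply,
    ContinuousLinearMap.id_apply, innerSL_apply_apply, nsmul_eq_mul, h2, PiLp.sub_apply]
  norm_num

private theorem hy_pd_coord (v : V) (i : Fin 3) (w : V) :
    pd i (fun w : V => w i - v i) w = 1 := by
  unfold pd
  have h0 : HasFDerivAt (fun w : V => w i) (EuclideanSpace.proj (𝕜 := ℝ) i : V →L[ℝ] ℝ) w :=
    (EuclideanSpace.proj (𝕜 := ℝ) i : V →L[ℝ] ℝ).hasFDerivAt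
  have h1 := h0.sub_const (v i)
  rw [h1.fderiv]
  simp

/-- the regularised field -/
private noncomputable def fu (v : V) (ε : ℝ) (i : Fin 3) (w : V) : ℝ :=
  (w i - v i) * (‖w - v‖ ^ 2 + ε)⁻¹

private theorem fu_smooth (v : V) {ε : ℝ} (hε : 0 < ε) (i : Fin 3) : ContDiff ℝ 1 (fu v ε i) := by
  unfold fu
  have h1 : ContDiff ℝ 1 (fun w : V => w i - v i) := by fun_prop
  exact h1.mul ((hy_smooth_q v ε).inv (fun w => by positivity))

private theorem fu_pd (v : V) {ε : ℝ} (hε : 0 < ε) (i : Fin 3) (w : V) :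
    pd i (fu v ε i) w =
      (‖w - v‖ ^ 2 + ε)⁻¹ - 2 * (w i - v i) ^ 2 * ((‖w - v‖ ^ 2 + ε) ^ 2)⁻¹ := by
  have hq : 0 < ‖w - v‖ ^ 2 + ε := by positivity
  have h1 : DifferentiableAt ℝ (fun w : V => w i - v i) w := by fun_prop
  have h2 : DifferentiableAt ℝ (fun w : V => ‖w - v‖ ^ 2 + ε) w :=
    (hy_smooth_q v ε).differentiable (by norm_num) w
  have h3 : pd i (fun w : V => (‖w - v‖ ^ 2 + ε)⁻¹) w =
      -((‖w - v‖ ^ 2 + ε) ^ 2)⁻¹ * (2 * (w i - v i)) := by
    rw [← hy_pd_q v ε i w]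
    exact pd_comp (β := fun x => x⁻¹) h2 (hasDerivAt_inv hq.ne') i
  have h4 : DifferentiableAt ℝ (fun w : V => (‖w - v‖ ^ 2 + ε)⁻¹) w :=
    ((hy_smooth_q v ε).inv (fun w => by positivity)).differentiable (by norm_num) w
  unfold fu
  rw [pd_mul h1 h4, h3, hy_pd_coord]
  ring

private theorem hy_div (v : V) {ε : ℝ} (hε : 0 < ε) (w : V) :
    ‖w - v‖ ^ 2 / (‖w - v‖ ^ 2 + ε) ^ 2 ≤ ∑ i : Fin 3, pd i (fu v ε i) w := by
  have hq : 0 < ‖w - v‖ ^ 2 + ε := by positivity
  simp only [Fin.sum_univ_three, fu_pd v hε]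
  have e : ‖w - v‖ ^ 2 = (w 0 - v 0) ^ 2 + (w 1 - v 1) ^ 2 + (w 2 - v 2) ^ 2 := by
    have := hy_nsq (w - v)
    simpa using this
  have e1 : (‖w - v‖ ^ 2 + ε)⁻¹ - 2 * (w 0 - v 0) ^ 2 * ((‖w - v‖ ^ 2 + ε) ^ 2)⁻¹ +
      ((‖w - v‖ ^ 2 + ε)⁻¹ - 2 * (w 1 - v 1) ^ 2 * ((‖w - v‖ ^ 2 + ε) ^ 2)⁻¹) +
      ((‖w - v‖ ^ 2 + ε)⁻¹ - 2 * (w 2 - v 2) ^ 2 * ((‖w - v‖ ^ 2 + ε) ^ 2)⁻¹) =
      3 * (‖w - v‖ ^ 2 + ε)⁻¹ - 2 * ‖w - v‖ ^ 2 * ((‖w - v‖ ^ 2 + ε) ^ 2)⁻¹ := by
    have : 2 * ‖w - v‖ ^ 2 = 2 * ((w 0 - v 0) ^ 2 + (w 1 - v 1) ^ 2 + (w 2 - v 2) ^ 2) := by rw [e]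
    rw [this]
    ring
  rw [e1]
  set ρ := ‖w - v‖ ^ 2 with hρ
  have hρ0 : 0 ≤ ρ := by positivity
  have e2 : 3 * (ρ + ε)⁻¹ - 2 * ρ * ((ρ + ε) ^ 2)⁻¹ = (ρ + 3 * ε) / (ρ + ε) ^ 2 := by
    field_simp
    ring
  rw [e2]
  gcongr
  linarith

private theorem hy_sq (v : V) {ε : ℝ} (hε : 0 < ε) (w : V) :
    ∑ i : Fin 3, fu v ε i w ^ 2 = ‖w - v‖ ^ 2 / (‖w - v‖ ^ 2 + ε) ^ 2 := by
  have hq : 0 < ‖w - v‖ ^ 2 + ε := by positivity
  have e : ‖w - v‖ ^ 2 = (w 0 - v 0) ^ 2 + (w 1 - v 1) ^ 2 + (w 2 - v 2) ^ 2 := by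
    have := hy_nsq (w - v)
    simpa using this
  simp only [Fin.sum_univ_three, fu]
  have : (w 0 - v 0) ^ 2 * ((‖w - v‖ ^ 2 + ε)⁻¹) ^ 2 + (w 1 - v 1) ^ 2 * ((‖w - v‖ ^ 2 + ε)⁻¹) ^ 2 +
      (w 2 - v 2) ^ 2 * ((‖w - v‖ ^ 2 + ε)⁻¹) ^ 2 = ‖w - v‖ ^ 2 * ((‖w - v‖ ^ 2 + ε)⁻¹) ^ 2 := by
    rw [← add_mul, ← add_mul, ← e]
  simp only [mul_pow]
  rw [this, inv_pow]
  rfl

private theorem hardy_eps (h : V → ℝ) (hh : ContDiff ℝ (⊤ : ℕ∞) h) (hc : HasCompactSupport h) (v : V)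
    {ε : ℝ} (hε : 0 < ε) :
    ∫ w, h w ^ 2 * (‖w - v‖ ^ 2 / (‖w - v‖ ^ 2 + ε) ^ 2) ≤
      4 * ∫ w, ∑ i : Fin 3, pd i h w ^ 2 := by
  have hh1 : ContDiff ℝ 1 h := contDiff_one_of_smooth hh
  have hG : ContDiff ℝ 1 (fun w => h w * h w) := hh1.mul hh1
  have hGc : HasCompactSupport (fun w => h w * h w) := hc.mul_left
  have hpc : ∀ i, Continuous (pd i h) := fun i => continuous_pd hh1 i
  have hqc : Continuous (fun w : V => ‖w - v‖ ^ 2 / (‖w - v‖ ^ 2 + ε) ^ 2) := by
    refine Continuous.div (by fun_prop) (by fun_prop) (fun w => ?_)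
    positivity
  -- integration by parts
  have hI : ∀ i : Fin 3, ∫ w, pd i (fu v ε i) w * (h w * h w) =
      - ∫ w, fu v ε i w * (2 * h w * pd i h w) := by
    intro i
    have h1 := ibp (fu_smooth v hε i) hG hGc i
    have h2 : ∀ w, pd i (fun w => h w * h w) w = 2 * h w * pd i h w := by
      intro w
      have hd := hh1.differentiable (by norm_num) w
      rw [pd_mul hd hd]
      ring
    simp only [h2] at h1
    linarith
  have int1 : ∀ i : Fin 3, Integrable (fun w => pd i (fu v ε i) w * (h w * h w)) := fun i =>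
    ((continuous_pd (fu_smooth v hε i) i).mul hG.continuous).integrable_of_hasCompactSupport
      (hGc.mul_left)
  have int2 : ∀ i : Fin 3, Integrable (fun w => fu v ε i w * (2 * h w * pd i h w)) := fun i => by
    refine ((fu_smooth v hε i).continuous.mul
      ((continuous_const.mul hh.continuous).mul (hpc i))).integrable_of_hasCompactSupport ?_
    exact ((compact_pd hc i).mul_left).mul_left
  have int3 : Integrable (fun w => h w ^ 2 * (‖w - v‖ ^ 2 / (‖w - v‖ ^ 2 + ε) ^ 2)) := by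
    refine ((hh.continuous.pow 2).mul hqc).integrable_of_hasCompactSupport ?_
    have : HasCompactSupport (fun w => h w ^ 2) := by
      have e : (fun w => h w ^ 2) = fun w => h w * h w := by funext w; ring
      rw [e]; exact hGc
    exact this.mul_right
  have int4 : Integrable (fun w => ∑ i : Fin 3, pd i h w ^ 2) := by
    refine integrable_finsetSum _ (fun i _ => ?_)
    have e : (fun w => pd i h w ^ 2) = fun w => pd i h w * pd i h w := by funext w; ring
    rw [e]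
    exact ((hpc i).mul (hpc i)).integrable_of_hasCompactSupport ((compact_pd hc i).mul_left)
  have s1 : ∫ w, h w ^ 2 * (‖w - v‖ ^ 2 / (‖w - v‖ ^ 2 + ε) ^ 2) ≤
      ∫ w, ∑ i : Fin 3, pd i (fu v ε i) w * (h w * h w) := by
    refine integral_mono int3 (integrable_finsetSum _ (fun i _ => int1 i)) (fun w => ?_)
    have := hy_div v hε w
    have e : ∑ i : Fin 3, pd i (fu v ε i) w * (h w * h w) =
        h w ^ 2 * ∑ i : Fin 3, pd i (fu v ε i) w := by
      rw [Finset.mul_sum]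
      exact Finset.sum_congr rfl (fun i _ => by ring)
    simp only [e]
    exact mul_le_mul_of_nonneg_left this (sq_nonneg _)
  have s2 : ∫ w, ∑ i : Fin 3, pd i (fu v ε i) w * (h w * h w) =
      ∫ w, ∑ i : Fin 3, -(fu v ε i w * (2 * h w * pd i h w)) := by
    have int2n : ∀ i : Fin 3, Integrable (fun w => -(fu v ε i w * (2 * h w * pd i h w))) :=
      fun i => (int2 i).neg
    rw [integral_finsetSum _ (fun i _ => int1 i), integral_finsetSum _ (fun i _ => int2n i)]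
    refine Finset.sum_congr rfl (fun i _ => ?_)
    rw [hI i, integral_neg]
  have s3 : ∫ w, ∑ i : Fin 3, -(fu v ε i w * (2 * h w * pd i h w)) ≤
      ∫ w, ((1 / 2) * (h w ^ 2 * (‖w - v‖ ^ 2 / (‖w - v‖ ^ 2 + ε) ^ 2)) +
        2 * ∑ i : Fin 3, pd i h w ^ 2) := by
    refine integral_mono (integrable_finsetSum _ (fun i _ => (int2 i).neg))
      ((int3.const_mul _).add (int4.const_mul _)) (fun w => ?_)
    simp only
    rw [← hy_sq v hε w]
    simp only [Fin.sum_univ_three]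
    nlinarith [sq_nonneg (h w * fu v ε 0 w + 2 * pd 0 h w),
      sq_nonneg (h w * fu v ε 1 w + 2 * pd 1 h w), sq_nonneg (h w * fu v ε 2 w + 2 * pd 2 h w)]
  rw [integral_add (int3.const_mul _) (int4.const_mul _), integral_const_mul,
    integral_const_mul] at s3
  linarith

theorem hardy (h : V → ℝ) (hh : ContDiff ℝ (⊤ : ℕ∞) h) (hc : HasCompactSupport h) (v : V) :
    ∫⁻ w, ENNReal.ofReal (h w ^ 2 / ‖w - v‖ ^ 2) ≤
      ENNReal.ofReal (4 * ∫ w, ∑ i : Fin 3, pd i h w ^ 2) := by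
  have hlim0 : Tendsto (fun n : ℕ => (1 : ℝ) / ((n : ℝ) + 1)) atTop (𝓝 0) :=
    tendsto_one_div_add_atTop_nhds_zero_nat
  have hpos : ∀ n : ℕ, (0 : ℝ) < 1 / ((n : ℝ) + 1) := fun n => by positivity
  set F : ℕ → V → ENNReal := fun n w =>
    ENNReal.ofReal (h w ^ 2 * (‖w - v‖ ^ 2 / (‖w - v‖ ^ 2 + 1 / ((n : ℝ) + 1)) ^ 2)) with hF
  have hcont : ∀ n : ℕ, Continuous (fun w : V =>
      h w ^ 2 * (‖w - v‖ ^ 2 / (‖w - v‖ ^ 2 + 1 / ((n : ℝ) + 1)) ^ 2)) := by
    intro n
    refine (hh.continuous.pow 2).mul (Continuous.div (by fun_prop) (by fun_prop) (fun w => ?_))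
    have := hpos n
    positivity
  have hmeas : ∀ n, Measurable (F n) := fun n => (hcont n).measurable.ennreal_ofReal
  have hpt : ∀ w, ENNReal.ofReal (h w ^ 2 / ‖w - v‖ ^ 2) = liminf (fun n => F n w) atTop := by
    intro w
    symm
    apply Tendsto.liminf_eq
    apply (ENNReal.continuous_ofReal.tendsto _).comp
    rcases eq_or_ne (‖w - v‖ ^ 2) 0 with h0 | h0
    · simp only [h0, div_zero, zero_div, mul_zero]
      exact tendsto_const_nhds
    · have h1 : Tendsto (fun n : ℕ => (‖w - v‖ ^ 2 + 1 / ((n : ℝ) + 1)) ^ 2) atTop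
          (𝓝 ((‖w - v‖ ^ 2 + 0) ^ 2)) := (tendsto_const_nhds.add hlim0).pow 2
      have h2 : Tendsto (fun n : ℕ => h w ^ 2 *
          (‖w - v‖ ^ 2 / (‖w - v‖ ^ 2 + 1 / ((n : ℝ) + 1)) ^ 2)) atTop
          (𝓝 (h w ^ 2 * (‖w - v‖ ^ 2 / (‖w - v‖ ^ 2 + 0) ^ 2))) :=
        (tendsto_const_nhds.div h1 (by
          rw [add_zero]
          exact pow_ne_zero _ h0)).const_mul _
      have e : h w ^ 2 * (‖w - v‖ ^ 2 / (‖w - v‖ ^ 2 + 0) ^ 2) = h w ^ 2 / ‖w - v‖ ^ 2 := by
        rw [add_zero]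
        field_simp
      rw [e] at h2
      exact h2
  calc ∫⁻ w, ENNReal.ofReal (h w ^ 2 / ‖w - v‖ ^ 2)
      = ∫⁻ w, liminf (fun n => F n w) atTop := by simp only [hpt]
    _ ≤ liminf (fun n => ∫⁻ w, F n w) atTop := lintegral_liminf_le hmeas
    _ ≤ liminf (fun _ : ℕ => ENNReal.ofReal (4 * ∫ w, ∑ i : Fin 3, pd i h w ^ 2)) atTop := by
        refine liminf_le_liminf (Eventually.of_forall fun n => ?_)
        have hI : Integrable (fun w : V =>
            h w ^ 2 * (‖w - v‖ ^ 2 / (‖w - v‖ ^ 2 + 1 / ((n : ℝ) + 1)) ^ 2)) := by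
          refine (hcont n).integrable_of_hasCompactSupport ?_
          have : HasCompactSupport (fun w => h w ^ 2) := by
            have e : (fun w => h w ^ 2) = fun w => h w * h w := by funext w; ring
            rw [e]; exact hc.mul_left
          exact this.mul_right
        have e := ofReal_integral_eq_lintegral_ofReal hI
          (Eventually.of_forall fun w => by
            have := hpos n
            positivity)
        show ∫⁻ w, F n w ≤ _
        rw [hF]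
        simp only
        rw [← e]
        exact ENNReal.ofReal_le_ofReal (hardy_eps h hh hc v (hpos n))
    _ = _ := by simp

private theorem hy_chi_bd : ∃ C : ℝ, 0 ≤ C ∧ ∀ R : ℝ, 0 < R → ∀ (i : Fin 3) (v : V),
    |pd i (chi R) v| ≤ C / R := by
  have hs : ContDiff ℝ (⊤ : ℕ∞) (fun v : V => chiB v) := chiB.contDiff
  have hcs : HasCompactSupport (fun v : V => chiB v) := chiB.hasCompactSupport
  have h1 : ∀ i : Fin 3, ∃ C : ℝ, 0 ≤ C ∧ ∀ v, |pd i (fun v : V => chiB v) v| ≤ C := by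
    intro i
    obtain ⟨C, hC⟩ := (compact_pd hcs i).exists_bound_of_continuous
      (smooth_pd hs i).continuous
    exact ⟨max C 0, le_max_right _ _, fun v => (hC v).trans (le_max_left _ _)⟩
  choose C hC hC' using h1
  refine ⟨∑ i, C i, Finset.sum_nonneg fun i _ => hC i, fun R hR i v => ?_⟩
  have hd : Differentiable ℝ (fun v : V => chiB v) := differentiable_of_smooth hs
  have e : pd i (chi R) v = R⁻¹ * pd i (fun v : V => chiB v) (R⁻¹ • v) := by
    unfold pd chi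
    have a1 : HasFDerivAt (fun v : V => R⁻¹ • v) (R⁻¹ • ContinuousLinearMap.id ℝ V) v :=
      (hasFDerivAt_id v).const_smul R⁻¹
    have a2 : HasFDerivAt (fun v : V => chiB v) (fderiv ℝ (fun v : V => chiB v) (R⁻¹ • v))
        (R⁻¹ • v) := (hd (R⁻¹ • v)).hasFDerivAt
    have a3 : HasFDerivAt (fun v : V => chiB (R⁻¹ • v))
        ((fderiv ℝ (fun v : V => chiB v) (R⁻¹ • v)).comp (R⁻¹ • ContinuousLinearMap.id ℝ V)) v :=
      a2.comp v a1
    rw [a3.fderiv]
    simp
  rw [e, abs_mul, abs_of_pos (inv_pos.2 hR), inv_mul_eq_div]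
  gcongr
  exact (hC' i _).trans (Finset.single_le_sum (f := C) (fun i _ => hC i) (Finset.mem_univ i))

private theorem hy_gam_cont {g : V → ℝ} (hg : Dn g) (i : Fin 3) : Continuous (gam i g) := by
  unfold gam
  exact (continuous_pd (contDiff_one_of_smooth hg.cls.smooth) i).div hg.cls.smooth.continuous
    (fun v => (hg.pos v).ne')

private theorem hy_fi_cont {g : V → ℝ} (hg : Dn g) : Continuous (fi g) := by
  unfold fi x2
  exact hg.cls.smooth.continuous.mul
    (continuous_finsetSum _ fun i _ => (hy_gam_cont hg i).pow 2)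

private theorem hy_fi_nonneg {g : V → ℝ} (hg : Dn g) (v : V) : 0 ≤ fi g v :=
  mul_nonneg (hg.pos v).le (Finset.sum_nonneg fun _ _ => sq_nonneg _)

theorem hardy_loc : ∃ C : ℝ, 0 < C ∧ ∀ g : V → ℝ, Dn g → ∀ (v : V) (s : ℝ), 0 < s →
    ∫ w in Metric.closedBall v (2 * s), g w / ‖v - w‖ ^ 2 ≤
      C * (JB g v (4 * s) + mB g v (4 * s) / s ^ 2) := by
  obtain ⟨K, hK, hKb⟩ := hy_chi_bd
  refine ⟨6 * K ^ 2 + 2, by positivity, fun g hg v s hs => ?_⟩
  have hgs := hg.cls.smooth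
  have hgc : Continuous g := hgs.continuous
  have h2s : 0 < 2 * s := by linarith
  -- the function `h`
  set h : V → ℝ := fun w => chi (2 * s) (w - v) * Real.sqrt (g w) with hh
  have htr : ContDiff ℝ (⊤ : ℕ∞) (fun w : V => w - v) := by fun_prop
  have hχ : ContDiff ℝ (⊤ : ℕ∞) (fun w : V => chi (2 * s) (w - v)) := (chi_smooth (2 * s)).comp htr
  have hsq : ContDiff ℝ (⊤ : ℕ∞) (fun w : V => Real.sqrt (g w)) :=
    hgs.sqrt (fun w => (hg.pos w).ne')
  have hsm : ContDiff ℝ (⊤ : ℕ∞) h := hχ.mul hsq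
  have hχ0 : ∀ w, 4 * s ≤ ‖w - v‖ → chi (2 * s) (w - v) = 0 := fun w hw =>
    chi_zero h2s (by linarith)
  have hcomp : HasCompactSupport h := by
    refine HasCompactSupport.intro (isCompact_closedBall v (4 * s)) fun w hw => ?_
    rw [mem_closedBall_iff_norm, not_le] at hw
    simp only [hh]
    rw [hχ0 w hw.le, zero_mul]
  have hpdχ : ∀ (i : Fin 3) (w : V), pd i (fun w : V => chi (2 * s) (w - v)) w =
      pd i (chi (2 * s)) (w - v) := by
    intro i w
    unfold pd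
    rw [fderiv_comp_sub]
  have hpdsq : ∀ (i : Fin 3) (w : V), pd i (fun w : V => Real.sqrt (g w)) w =
      (1 / 2) * Real.sqrt (g w) * gam i g w := by
    intro i w
    have hp := hg.pos w
    have hs0 : 0 < Real.sqrt (g w) := Real.sqrt_pos.2 hp
    have h1 := pd_comp (β := Real.sqrt) (differentiable_of_smooth hgs w)
      (Real.hasDerivAt_sqrt hp.ne') i
    rw [h1]
    unfold gam
    have h2 : g w = Real.sqrt (g w) * Real.sqrt (g w) := (Real.mul_self_sqrt hp.le).symm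
    have h3 : pd i g w / g w = pd i g w / (Real.sqrt (g w) * Real.sqrt (g w)) := by rw [← h2]
    rw [h3]
    field_simp
  have hpdh : ∀ (i : Fin 3) (w : V), pd i h w =
      chi (2 * s) (w - v) * ((1 / 2) * Real.sqrt (g w) * gam i g w) +
        pd i (chi (2 * s)) (w - v) * Real.sqrt (g w) := by
    intro i w
    simp only [hh]
    rw [pd_mul (differentiable_of_smooth hχ w) (differentiable_of_smooth hsq w), hpdχ, hpdsq]
  -- pointwise bound
  have hpt : ∀ w, ∑ i : Fin 3, pd i h w ^ 2 ≤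
      (Metric.closedBall v (4 * s)).indicator
        (fun w => (3 / 2) * K ^ 2 / s ^ 2 * g w + (1 / 2) * fi g w) w := by
    intro w
    by_cases hw : w ∈ Metric.closedBall v (4 * s)
    · rw [indicator_of_mem hw]
      have hp := hg.pos w
      have h2 : Real.sqrt (g w) ^ 2 = g w := Real.sq_sqrt hp.le
      have hc0 := chi_nonneg (2 * s) (w - v)
      have hc1 := chi_le_one (2 * s) (w - v)
      have hb : ∀ i : Fin 3, pd i (chi (2 * s)) (w - v) ^ 2 ≤ K ^ 2 / (4 * s ^ 2) := by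
        intro i
        have h3 := hKb (2 * s) h2s i (w - v)
        have h4 : |pd i (chi (2 * s)) (w - v)| ^ 2 ≤ (K / (2 * s)) ^ 2 :=
          pow_le_pow_left₀ (abs_nonneg _) h3 2
        rw [sq_abs] at h4
        refine h4.trans (le_of_eq ?_)
        rw [div_pow]
        ring
      have hterm : ∀ i : Fin 3, pd i h w ^ 2 ≤
          2 * (K ^ 2 / (4 * s ^ 2)) * g w + (1 / 2) * (g w * gam i g w ^ 2) := by
        intro i
        rw [hpdh i w]
        set A := chi (2 * s) (w - v)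
        set B := pd i (chi (2 * s)) (w - v)
        set S := Real.sqrt (g w)
        set X := gam i g w
        have e1 : (A * ((1 / 2) * S * X) + B * S) ^ 2 ≤
            2 * (B ^ 2 * S ^ 2) + (1 / 2) * (A ^ 2 * (S ^ 2 * X ^ 2)) := by
          nlinarith [sq_nonneg (A * ((1 / 2) * S * X) - B * S)]
        have e2 : A ^ 2 ≤ 1 := by nlinarith
        have e3 : B ^ 2 * S ^ 2 ≤ K ^ 2 / (4 * s ^ 2) * g w := by
          rw [h2]
          exact mul_le_mul_of_nonneg_right (hb i) hp.le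
        have e4 : A ^ 2 * (S ^ 2 * X ^ 2) ≤ g w * X ^ 2 := by
          rw [h2]
          have : 0 ≤ g w * X ^ 2 := mul_nonneg hp.le (sq_nonneg _)
          nlinarith
        linarith
      have hsum : ∑ i : Fin 3, pd i h w ^ 2 ≤
          ∑ i : Fin 3, (2 * (K ^ 2 / (4 * s ^ 2)) * g w + (1 / 2) * (g w * gam i g w ^ 2)) :=
        Finset.sum_le_sum fun i _ => hterm i
      refine hsum.trans (le_of_eq ?_)
      unfold fi x2
      simp only [Fin.sum_univ_three]
      field_simp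
      ring
    · rw [indicator_of_notMem hw]
      rw [mem_closedBall_iff_norm, not_le] at hw
      refine le_of_eq (Finset.sum_eq_zero fun i _ => ?_)
      rw [hpdh i w, hχ0 w hw.le, pd_chi_outer h2s (by linarith)]
      ring
  have hball : MeasurableSet (Metric.closedBall v (4 * s)) := measurableSet_closedBall
  have intg : IntegrableOn g (Metric.closedBall v (4 * s)) :=
    hgc.continuousOn.integrableOn_compact (isCompact_closedBall _ _)
  have intf : IntegrableOn (fi g) (Metric.closedBall v (4 * s)) :=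
    (hy_fi_cont hg).continuousOn.integrableOn_compact (isCompact_closedBall _ _)
  have intI : Integrable ((Metric.closedBall v (4 * s)).indicator
        (fun w => (3 / 2) * K ^ 2 / s ^ 2 * g w + (1 / 2) * fi g w)) := by
    rw [integrable_indicator_iff hball]
    exact (intg.const_mul _).add (intf.const_mul _)
  have hM : ∫ w, ∑ i : Fin 3, pd i h w ^ 2 ≤
      (3 / 2) * K ^ 2 / s ^ 2 * mB g v (4 * s) + (1 / 2) * JB g v (4 * s) := by
    have e1 : ∫ w, ∑ i : Fin 3, pd i h w ^ 2 ≤ ∫ w, (Metric.closedBall v (4 * s)).indicator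
        (fun w => (3 / 2) * K ^ 2 / s ^ 2 * g w + (1 / 2) * fi g w) w := by
      refine integral_mono_of_nonneg (Eventually.of_forall fun w =>
        Finset.sum_nonneg fun i _ => sq_nonneg _) intI (Eventually.of_forall hpt)
    refine e1.trans (le_of_eq ?_)
    rw [integral_indicator hball, integral_add (intg.const_mul _) (intf.const_mul _),
      integral_const_mul, integral_const_mul]
    rfl
  have hH := hardy h hsm hcomp v
  have hJ0 : 0 ≤ JB g v (4 * s) := integral_nonneg fun w => hy_fi_nonneg hg w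
  have hm0 : 0 ≤ mB g v (4 * s) := integral_nonneg fun w => (hg.pos w).le
  have hR : 4 * ∫ w, ∑ i : Fin 3, pd i h w ^ 2 ≤
      (6 * K ^ 2 + 2) * (JB g v (4 * s) + mB g v (4 * s) / s ^ 2) := by
    have e2 : (3 / 2) * K ^ 2 / s ^ 2 * mB g v (4 * s) =
        (3 / 2) * K ^ 2 * (mB g v (4 * s) / s ^ 2) := by ring
    rw [e2] at hM
    have hms : 0 ≤ mB g v (4 * s) / s ^ 2 := by positivity
    have hK2 : 0 ≤ K ^ 2 * JB g v (4 * s) := by positivity
    nlinarith
  have hR0 : 0 ≤ (6 * K ^ 2 + 2) * (JB g v (4 * s) + mB g v (4 * s) / s ^ 2) := by positivity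
  have hb2 : MeasurableSet (Metric.closedBall v (2 * s)) := measurableSet_closedBall
  have hmeas : Measurable (fun w : V => g w / ‖v - w‖ ^ 2) :=
    hgc.measurable.div (by fun_prop)
  rw [integral_eq_lintegral_of_nonneg_ae
    (Eventually.of_forall fun w => div_nonneg (hg.pos w).le (sq_nonneg _))
    hmeas.aestronglyMeasurable]
  refine ENNReal.toReal_le_of_le_ofReal hR0 ?_
  calc ∫⁻ w in Metric.closedBall v (2 * s), ENNReal.ofReal (g w / ‖v - w‖ ^ 2)
      = ∫⁻ w in Metric.closedBall v (2 * s), ENNReal.ofReal (h w ^ 2 / ‖w - v‖ ^ 2) := by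
        refine setLIntegral_congr_fun hb2 (fun w hw => ?_)
        rw [mem_closedBall_iff_norm] at hw
        have e1 : h w ^ 2 = g w := by
          simp only [hh]
          rw [chi_one h2s hw, one_mul, Real.sq_sqrt (hg.pos w).le]
        simp only [e1, norm_sub_rev v w]
    _ ≤ ∫⁻ w, ENNReal.ofReal (h w ^ 2 / ‖w - v‖ ^ 2) := setLIntegral_le_lintegral _ _
    _ ≤ _ := hH
    _ ≤ _ := ENNReal.ofReal_le_ofReal hR

end Pool.Agent.LandauF
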