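import Pool.Agent.LandauF.RWt
import Pool.Agent.LandauF.Hardy
import Pool.Agent.LandauG.WPot

/-!
# LandauF, module QErr: error functional for the weight `χ⁶`

`wt 0 0 = χ⁶` (`χ = chi 1`), `ϱ = rh s = s χ`, `kap K 0 s 0 v = K χ⁻¹` for `‖v‖ ≥ 1 - 8 s` and `0` otherwise
(`Sl 0 s 8` is empty).
(1) `‖v‖ ≤ s/8`: `χ = 1`, `ϱ = s`, `κ = 0`, and `kF ≠ 0` needs `4 ‖v-w‖ ≥ s`, so `‖w‖ ≥ s/8`, `kF ≤ 4/s`:
`∫ kF g* ≤ (4/s) q₀`: contributions `(4 q₀/s³) JB g 0 (s/8)` and `(4 q₀/s⁵) mB g 0 (s/8)`.
(2) `s/8 ≤ ‖v‖ ≤ 2` (`φ = 0` for `‖v‖ ≥ 2`): `∫ kF g* ≤ pot g v ≤ q₁`, `φ/ϱ² ≤ s⁻²`, `φ/ϱ⁴ ≤ s⁻⁴`, and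
`φ κ ≤ K`, `∫ kN g* ≤ ∫_{B_1(v)} g/r² ≤ q₁` (`2 ϱ ≤ 1`).
-/

set_option autoImplicit false

namespace Pool.Agent.LandauF

open MeasureTheory Set Filter Topology Pool.Agent.Landau

private theorem qe_gam_cont {g : V → ℝ} (hg : Dn g) (i : Fin 3) : Continuous (gam i g) := by
  unfold gam
  exact (continuous_pd (contDiff_one_of_smooth hg.cls.smooth) i).div hg.cls.smooth.continuous
    (fun v => (hg.pos v).ne')

private theorem qe_fi_cont {g : V → ℝ} (hg : Dn g) : Continuous (fi g) := by
  unfold fi x2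
  exact hg.cls.smooth.continuous.mul
    (continuous_finsetSum _ fun i _ => (qe_gam_cont hg i).pow 2)

private theorem qe_x2_nonneg (g : V → ℝ) (v : V) : 0 ≤ x2 g v :=
  Finset.sum_nonneg fun _ _ => sq_nonneg _

private theorem qe_kF_nonneg (ϱ : V → ℝ) (v w : V) : 0 ≤ kF ϱ v w := by
  unfold kF
  split_ifs
  · positivity
  · exact le_rfl

private theorem qe_kF_le (ϱ : V → ℝ) (v w : V) : kF ϱ v w ≤ 1 / ‖v - w‖ := by
  unfold kF
  split_ifs
  · exact le_rfl
  · positivity

/-- the inner integral near the origin -/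
private theorem qe_case1 {K s q₀ : ℝ} {g : V → ℝ} (hg : Dn g) (hi : Integrable g) (hs : 0 < s)
    (hs1 : s ≤ 1 / 100) (h0 : ∫ w in {w : V | s / 8 ≤ ‖w‖}, g w ≤ q₀) {v : V} (hv : ‖v‖ ≤ s / 8) :
    ∫⁻ w, ENNReal.ofReal (wt 0 0 v * g v * g w *
      (x2 g v * (kap K 0 s 0 v * kN (rh s) v w + kF (rh s) v w / rh s v ^ 2)
        + kF (rh s) v w / rh s v ^ 4)) ≤
      ENNReal.ofReal (4 * q₀ / s ^ 3 * fi g v + 4 * q₀ / s ^ 5 * g v) := by
  have hχ : chi 1 v = 1 := chi_one one_pos (by linarith)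
  have hwt : wt 0 0 v = 1 := by
    unfold wt
    rw [hχ]
    simp
  have hrh : rh s v = s := by
    unfold rh
    rw [hχ, mul_one]
  have hκ : kap K 0 s 0 v = 0 := by
    unfold kap
    rw [if_neg (c := 1 - 8 * s ≤ ‖v‖) (by intro h; linarith)]
    simp
  have hms : MeasurableSet {w : V | s / 8 ≤ ‖w‖} := measurableSet_le measurable_const measurable_norm
  have hgv := hg.pos v
  have hx := qe_x2_nonneg g v
  set c : ℝ := g v * (x2 g v / s ^ 2 + 1 / s ^ 4) * (4 / s) with hc
  have hc0 : 0 ≤ c := by positivity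
  have hpt : ∀ w : V, wt 0 0 v * g v * g w *
      (x2 g v * (kap K 0 s 0 v * kN (rh s) v w + kF (rh s) v w / rh s v ^ 2)
        + kF (rh s) v w / rh s v ^ 4) ≤ c * {w : V | s / 8 ≤ ‖w‖}.indicator g w := by
    intro w
    have hgw := hg.pos w
    rw [hwt, hrh, hκ]
    by_cases hw : s / 8 ≤ ‖w‖
    · rw [indicator_of_mem (show w ∈ {w : V | s / 8 ≤ ‖w‖} from hw)]
      have hk : kF (rh s) v w ≤ 4 / s := by
        unfold kF
        split_ifs with h
        · rw [hrh] at h
          rw [div_le_div_iff₀ (by linarith) hs]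
          linarith
        · positivity
      have h1 : x2 g v * (0 * kN (rh s) v w + kF (rh s) v w / s ^ 2) + kF (rh s) v w / s ^ 4 =
          (x2 g v / s ^ 2 + 1 / s ^ 4) * kF (rh s) v w := by ring
      rw [h1]
      have h2 : (x2 g v / s ^ 2 + 1 / s ^ 4) * kF (rh s) v w ≤
          (x2 g v / s ^ 2 + 1 / s ^ 4) * (4 / s) := mul_le_mul_of_nonneg_left hk (by positivity)
      calc 1 * g v * g w * ((x2 g v / s ^ 2 + 1 / s ^ 4) * kF (rh s) v w)
          ≤ 1 * g v * g w * ((x2 g v / s ^ 2 + 1 / s ^ 4) * (4 / s)) :=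
            mul_le_mul_of_nonneg_left h2 (by positivity)
        _ = c * g w := by rw [hc]; ring
    · rw [indicator_of_notMem (show w ∉ {w : V | s / 8 ≤ ‖w‖} from hw)]
      have hk : kF (rh s) v w = 0 := by
        unfold kF
        rw [if_neg]
        rw [hrh, not_le]
        push Not at hw
        have := norm_sub_le v w
        linarith
      rw [hk]
      simp
  have hint : Integrable ({w : V | s / 8 ≤ ‖w‖}.indicator g) := hi.indicator hms
  calc _ ≤ ∫⁻ w, ENNReal.ofReal (c * {w : V | s / 8 ≤ ‖w‖}.indicator g w) :=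
        lintegral_mono fun w => ENNReal.ofReal_le_ofReal (hpt w)
    _ = ENNReal.ofReal (∫ w, c * {w : V | s / 8 ≤ ‖w‖}.indicator g w) := by
        rw [ofReal_integral_eq_lintegral_ofReal (hint.const_mul c)]
        exact Eventually.of_forall fun w => mul_nonneg hc0
          (indicator_nonneg (fun w _ => (hg.pos w).le) w)
    _ ≤ _ := by
        apply ENNReal.ofReal_le_ofReal
        rw [integral_const_mul, integral_indicator hms]
        calc c * ∫ w in {w : V | s / 8 ≤ ‖w‖}, g w ≤ c * q₀ := mul_le_mul_of_nonneg_left h0 hc0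
          _ = 4 * q₀ / s ^ 3 * fi g v + 4 * q₀ / s ^ 5 * g v := by
            rw [hc]
            unfold fi
            field_simp

/-- the inner integral away from the origin -/
private theorem qe_case2 {K s q₁ : ℝ} {g : V → ℝ} (hK : 0 < K) (hg : Dn g) (hi : Integrable g)
    (hs : 0 < s) (hs1 : s ≤ 1 / 100) {v : V}
    (h1 : pot g v + ∫ w in Metric.closedBall v 1, g w / ‖v - w‖ ^ 2 ≤ q₁) :
    ∫⁻ w, ENNReal.ofReal (wt 0 0 v * g v * g w *
      (x2 g v * (kap K 0 s 0 v * kN (rh s) v w + kF (rh s) v w / rh s v ^ 2)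
        + kF (rh s) v w / rh s v ^ 4)) ≤
      ENNReal.ofReal ((K + 1) * q₁ / s ^ 4 * (fi g v + g v)) := by
  have hχ0 := chi_nonneg 1 v
  have hχ1 := chi_le_one 1 v
  have hwt : wt 0 0 v = chi 1 v ^ 6 := by
    unfold wt
    simp
  have hκ : kap K 0 s 0 v ≤ K * (chi 1 v)⁻¹ := by
    unfold kap
    refine mul_le_mul_of_nonneg_left ?_ hK.le
    have : 0 ≤ (chi 1 v)⁻¹ := inv_nonneg.2 hχ0
    split_ifs <;> simp <;> linarith
  have hκ0 : 0 ≤ kap K 0 s 0 v := by
    unfold kap
    refine mul_nonneg hK.le ?_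
    have : 0 ≤ (chi 1 v)⁻¹ := inv_nonneg.2 hχ0
    split_ifs <;> simp <;> linarith
  have hb : MeasurableSet (Metric.closedBall v 1) := measurableSet_closedBall
  have hgv := hg.pos v
  have hx := qe_x2_nonneg g v
  set a : ℝ := g v * x2 g v * K with ha
  set b : ℝ := g v * (x2 g v / s ^ 2 + 1 / s ^ 4) with hbd
  have ha0 : 0 ≤ a := by positivity
  have hb0 : 0 ≤ b := by positivity
  have hpt : ∀ w : V, wt 0 0 v * g v * g w *
      (x2 g v * (kap K 0 s 0 v * kN (rh s) v w + kF (rh s) v w / rh s v ^ 2)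
        + kF (rh s) v w / rh s v ^ 4) ≤
      a * (Metric.closedBall v 1).indicator (fun w => g w / ‖v - w‖ ^ 2) w
        + b * (g w / ‖v - w‖) := by
    intro w
    have hgw := hg.pos w
    have hn : 0 ≤ (Metric.closedBall v 1).indicator (fun w => g w / ‖v - w‖ ^ 2) w :=
      indicator_nonneg (fun w _ => div_nonneg (hg.pos w).le (by positivity)) w
    have hR : 0 ≤ a * (Metric.closedBall v 1).indicator (fun w => g w / ‖v - w‖ ^ 2) w
        + b * (g w / ‖v - w‖) := by positivity
    rw [hwt]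
    rcases hχ0.eq_or_lt with hz | hp
    · rw [← hz]
      simpa using hR
    · -- the near kernel
      have hkF0 := qe_kF_nonneg (rh s) v w
      have hkF := qe_kF_le (rh s) v w
      have e1 : chi 1 v ^ 6 * (kF (rh s) v w / rh s v ^ 2) ≤ (1 / ‖v - w‖) / s ^ 2 := by
        unfold rh
        rw [mul_pow]
        have : chi 1 v ^ 6 * (kF (fun v => s * chi 1 v) v w / (s ^ 2 * chi 1 v ^ 2)) =
            chi 1 v ^ 4 * (kF (rh s) v w / s ^ 2) := by
          have hkk : kF (fun v => s * chi 1 v) v w = kF (rh s) v w := rfl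
          rw [hkk]
          field_simp
        rw [this]
        calc chi 1 v ^ 4 * (kF (rh s) v w / s ^ 2) ≤ 1 * (kF (rh s) v w / s ^ 2) :=
              mul_le_mul_of_nonneg_right (pow_le_one₀ hχ0 hχ1) (by positivity)
          _ ≤ (1 / ‖v - w‖) / s ^ 2 := by
              rw [one_mul]
              exact div_le_div_of_nonneg_right hkF (by positivity)
      have e2 : chi 1 v ^ 6 * (kF (rh s) v w / rh s v ^ 4) ≤ (1 / ‖v - w‖) / s ^ 4 := by
        unfold rh
        rw [mul_pow]
        have : chi 1 v ^ 6 * (kF (fun v => s * chi 1 v) v w / (s ^ 4 * chi 1 v ^ 4)) =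
            chi 1 v ^ 2 * (kF (rh s) v w / s ^ 4) := by
          have hkk : kF (fun v => s * chi 1 v) v w = kF (rh s) v w := rfl
          rw [hkk]
          field_simp
        rw [this]
        calc chi 1 v ^ 2 * (kF (rh s) v w / s ^ 4) ≤ 1 * (kF (rh s) v w / s ^ 4) :=
              mul_le_mul_of_nonneg_right (pow_le_one₀ hχ0 hχ1) (by positivity)
          _ ≤ (1 / ‖v - w‖) / s ^ 4 := by
              rw [one_mul]
              exact div_le_div_of_nonneg_right hkF (by positivity)
      have e3 : g w * (chi 1 v ^ 6 * (kap K 0 s 0 v * kN (rh s) v w)) ≤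
          K * (Metric.closedBall v 1).indicator (fun w => g w / ‖v - w‖ ^ 2) w := by
        have hk1 : chi 1 v ^ 6 * kap K 0 s 0 v ≤ K := by
          calc chi 1 v ^ 6 * kap K 0 s 0 v ≤ chi 1 v ^ 6 * (K * (chi 1 v)⁻¹) :=
                mul_le_mul_of_nonneg_left hκ (by positivity)
            _ = chi 1 v ^ 5 * K := by field_simp
            _ ≤ 1 * K := mul_le_mul_of_nonneg_right (pow_le_one₀ hχ0 hχ1) hK.le
            _ = K := one_mul K
        by_cases hw : ‖v - w‖ ≤ 2 * rh s v
        · have hkN : kN (rh s) v w = 1 / ‖v - w‖ ^ 2 := by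
            unfold kN
            rw [if_pos hw]
          have hle : ‖v - w‖ ≤ 1 := by
            have : rh s v ≤ s := by
              unfold rh
              nlinarith
            linarith
          have hmem : w ∈ Metric.closedBall v 1 := by
            rw [mem_closedBall_iff_norm, norm_sub_rev]
            exact hle
          rw [indicator_of_mem hmem, hkN]
          have hq : 0 ≤ g w * (1 / ‖v - w‖ ^ 2) := by positivity
          calc g w * (chi 1 v ^ 6 * (kap K 0 s 0 v * (1 / ‖v - w‖ ^ 2)))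
              = (chi 1 v ^ 6 * kap K 0 s 0 v) * (g w * (1 / ‖v - w‖ ^ 2)) := by ring
            _ ≤ K * (g w * (1 / ‖v - w‖ ^ 2)) := mul_le_mul_of_nonneg_right hk1 hq
            _ = K * (g w / ‖v - w‖ ^ 2) := by ring
        · have hkN : kN (rh s) v w = 0 := by
            unfold kN
            rw [if_neg hw]
          rw [hkN]
          simp only [mul_zero]
          positivity
      have f1 : g v * x2 g v * (g w * (chi 1 v ^ 6 * (kap K 0 s 0 v * kN (rh s) v w))) ≤
          g v * x2 g v * (K * (Metric.closedBall v 1).indicator (fun w => g w / ‖v - w‖ ^ 2) w) :=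
        mul_le_mul_of_nonneg_left e3 (by positivity)
      have f2 : g v * x2 g v * g w * (chi 1 v ^ 6 * (kF (rh s) v w / rh s v ^ 2)) ≤
          g v * x2 g v * g w * ((1 / ‖v - w‖) / s ^ 2) :=
        mul_le_mul_of_nonneg_left e1 (by positivity)
      have f3 : g v * g w * (chi 1 v ^ 6 * (kF (rh s) v w / rh s v ^ 4)) ≤
          g v * g w * ((1 / ‖v - w‖) / s ^ 4) :=
        mul_le_mul_of_nonneg_left e2 (by positivity)
      have e4 : chi 1 v ^ 6 * g v * g w *
          (x2 g v * (kap K 0 s 0 v * kN (rh s) v w + kF (rh s) v w / rh s v ^ 2)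
            + kF (rh s) v w / rh s v ^ 4) =
          g v * x2 g v * (g w * (chi 1 v ^ 6 * (kap K 0 s 0 v * kN (rh s) v w))) +
          g v * x2 g v * g w * (chi 1 v ^ 6 * (kF (rh s) v w / rh s v ^ 2)) +
          g v * g w * (chi 1 v ^ 6 * (kF (rh s) v w / rh s v ^ 4)) := by ring
      have e5 : a * (Metric.closedBall v 1).indicator (fun w => g w / ‖v - w‖ ^ 2) w
          + b * (g w / ‖v - w‖) =
          g v * x2 g v * (K * (Metric.closedBall v 1).indicator (fun w => g w / ‖v - w‖ ^ 2) w) +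
          g v * x2 g v * g w * ((1 / ‖v - w‖) / s ^ 2) +
          g v * g w * ((1 / ‖v - w‖) / s ^ 4) := by
        rw [ha, hbd]
        ring
      rw [e4, e5]
      linarith
  have hsq := (int_inv_sq g hi hg.cls.nonneg hg.cls.le_one v 1 one_pos).1
  have hI1 : Integrable ((Metric.closedBall v 1).indicator (fun w => g w / ‖v - w‖ ^ 2)) :=
    hsq.indicator hb
  have hI2 : Integrable (fun w => g w / ‖v - w‖) := pot_int g hg.cls v
  have hp0 : 0 ≤ pot g v := integral_nonneg fun w => div_nonneg (hg.pos w).le (norm_nonneg _)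
  have hn0 : 0 ≤ ∫ w in Metric.closedBall v 1, g w / ‖v - w‖ ^ 2 :=
    integral_nonneg fun w => div_nonneg (hg.pos w).le (by positivity)
  have hq1 : 0 ≤ q₁ := by linarith
  calc _ ≤ ∫⁻ w, ENNReal.ofReal
        (a * (Metric.closedBall v 1).indicator (fun w => g w / ‖v - w‖ ^ 2) w
          + b * (g w / ‖v - w‖)) :=
        lintegral_mono fun w => ENNReal.ofReal_le_ofReal (hpt w)
    _ = ENNReal.ofReal (∫ w,
        (a * (Metric.closedBall v 1).indicator (fun w => g w / ‖v - w‖ ^ 2) w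
          + b * (g w / ‖v - w‖))) := by
        have hI3 : Integrable (fun w =>
            a * (Metric.closedBall v 1).indicator (fun w => g w / ‖v - w‖ ^ 2) w
              + b * (g w / ‖v - w‖)) := (hI1.const_mul a).add (hI2.const_mul b)
        rw [ofReal_integral_eq_lintegral_ofReal hI3]
        refine Eventually.of_forall fun w => ?_
        have hn : 0 ≤ (Metric.closedBall v 1).indicator (fun w => g w / ‖v - w‖ ^ 2) w :=
          indicator_nonneg (fun w _ => div_nonneg (hg.pos w).le (by positivity)) w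
        have hgw := hg.pos w
        show (0 : ℝ) ≤ _
        positivity
    _ ≤ _ := by
        apply ENNReal.ofReal_le_ofReal
        rw [integral_add (hI1.const_mul a) (hI2.const_mul b), integral_const_mul,
          integral_const_mul, integral_indicator hb]
        have hpe : ∫ w, g w / ‖v - w‖ = pot g v := rfl
        rw [hpe]
        have hs4 : s ^ 4 ≤ 1 := pow_le_one₀ hs.le (by linarith)
        have hs2 : s ^ 2 ≤ 1 := pow_le_one₀ hs.le (by linarith)
        have h42 : s ^ 4 ≤ s ^ 2 := by nlinarith [sq_nonneg s]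
        have g1 : a * ∫ w in Metric.closedBall v 1, g w / ‖v - w‖ ^ 2 ≤ a * q₁ :=
          mul_le_mul_of_nonneg_left (by linarith) ha0
        have g2 : b * pot g v ≤ b * q₁ := mul_le_mul_of_nonneg_left (by linarith) hb0
        have i4 : 1 ≤ 1 / s ^ 4 := by
          rw [le_div_iff₀ (by positivity)]
          linarith
        have i2 : 1 / s ^ 2 ≤ 1 / s ^ 4 := one_div_le_one_div_of_le (by positivity) h42
        have hfi : 0 ≤ g v * x2 g v := by positivity
        have g3 : a * q₁ + b * q₁ ≤ (K + 1) * q₁ / s ^ 4 * (fi g v + g v) := by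
          have r1 : g v * x2 g v * K * q₁ * 1 ≤ g v * x2 g v * K * q₁ * (1 / s ^ 4) :=
            mul_le_mul_of_nonneg_left i4 (by positivity)
          have r2 : g v * x2 g v * q₁ * (1 / s ^ 2) ≤ g v * x2 g v * q₁ * (1 / s ^ 4) :=
            mul_le_mul_of_nonneg_left i2 (by positivity)
          have r3 : 0 ≤ g v * K * q₁ * (1 / s ^ 4) := by positivity
          have r4 : (K + 1) * q₁ / s ^ 4 * (fi g v + g v) =
              g v * x2 g v * K * q₁ * (1 / s ^ 4) + g v * x2 g v * q₁ * (1 / s ^ 4) +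
              g v * K * q₁ * (1 / s ^ 4) + g v * q₁ * (1 / s ^ 4) := by
            unfold fi
            ring
          have r5 : a * q₁ + b * q₁ = g v * x2 g v * K * q₁ * 1 + g v * x2 g v * q₁ * (1 / s ^ 2) +
              g v * q₁ * (1 / s ^ 4) := by
            rw [ha, hbd]
            ring
          rw [r4, r5]
          linarith
        linarith

/-- Upper bound of the error functional for the weight `χ⁶`. -/
theorem err_le_sum (K : ℝ) (hK : 0 < K) : ∃ C : ℝ, 0 < C ∧ ∀ (g : V → ℝ) (s q₀ q₁ : ℝ),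
    Dn g → Integrable g → 0 < s → s ≤ 1 / 100 →
      ∫ w in {w : V | s / 8 ≤ ‖w‖}, g w ≤ q₀ →
      (∀ v : V, s / 8 ≤ ‖v‖ → ‖v‖ ≤ 3 →
        pot g v + ∫ w in Metric.closedBall v 1, g w / ‖v - w‖ ^ 2 ≤ q₁) →
      ER (wt 0 0) (rh s) (kap K 0 s 0) g ≤ ENNReal.ofReal
        (C * q₀ / s ^ 3 * JB g 0 (s / 8)
          + C * q₁ / s ^ 4 * (∫ v in {v : V | s / 8 ≤ ‖v‖ ∧ ‖v‖ ≤ 3}, (fi g v + g v))
          + C * q₀ / s ^ 5 * mB g 0 (s / 8)) := by
  refine ⟨K + 5, by linarith, fun g s q₀ q₁ hg hi hs hs1 h0 h1 => ?_⟩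
  have hgc : Continuous g := hg.cls.smooth.continuous
  have hfc : Continuous (fi g) := qe_fi_cont hg
  have hf0 : ∀ v, 0 ≤ fi g v := fun v => mul_nonneg (hg.pos v).le (qe_x2_nonneg g v)
  have hq0 : 0 ≤ q₀ := le_trans (integral_nonneg fun w => (hg.pos w).le) h0
  have hms : MeasurableSet {v : V | s / 8 ≤ ‖v‖ ∧ ‖v‖ ≤ 3} :=
    (measurableSet_le measurable_const measurable_norm).inter
      (measurableSet_le measurable_norm measurable_const)
  have hmb : MeasurableSet (Metric.closedBall (0 : V) (s / 8)) := measurableSet_closedBall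
  have hq1 : 0 ≤ q₁ := by
    obtain ⟨v, hv⟩ : ∃ v : V, ‖v‖ = 1 := by
      obtain ⟨v, hv⟩ := exists_norm_eq V (zero_le_one)
      exact ⟨v, hv⟩
    have := h1 v (by rw [hv]; linarith) (by rw [hv]; norm_num)
    have hp0 : 0 ≤ pot g v := integral_nonneg fun w => div_nonneg (hg.pos w).le (norm_nonneg _)
    have hn0 : 0 ≤ ∫ w in Metric.closedBall v 1, g w / ‖v - w‖ ^ 2 :=
      integral_nonneg fun w => div_nonneg (hg.pos w).le (by positivity)
    linarith
  set B1 : V → ℝ := (Metric.closedBall (0 : V) (s / 8)).indicator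
    (fun v => 4 * q₀ / s ^ 3 * fi g v + 4 * q₀ / s ^ 5 * g v) with hB1
  set B2 : V → ℝ := {v : V | s / 8 ≤ ‖v‖ ∧ ‖v‖ ≤ 3}.indicator
    (fun v => (K + 1) * q₁ / s ^ 4 * (fi g v + g v)) with hB2
  have hB10 : ∀ v, 0 ≤ B1 v := fun v => indicator_nonneg (fun v _ => by
    have := hf0 v
    have := hg.pos v
    positivity) v
  have hB20 : ∀ v, 0 ≤ B2 v := fun v => indicator_nonneg (fun v _ => by
    have := hf0 v
    have := hg.pos v
    positivity) v
  have hpt : ∀ v, ∫⁻ w, ENNReal.ofReal (wt 0 0 v * g v * g w *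
      (x2 g v * (kap K 0 s 0 v * kN (rh s) v w + kF (rh s) v w / rh s v ^ 2)
        + kF (rh s) v w / rh s v ^ 4)) ≤ ENNReal.ofReal (B1 v + B2 v) := by
    intro v
    by_cases hv : ‖v‖ ≤ s / 8
    · refine (qe_case1 hg hi hs hs1 h0 hv).trans (ENNReal.ofReal_le_ofReal ?_)
      have : B1 v = 4 * q₀ / s ^ 3 * fi g v + 4 * q₀ / s ^ 5 * g v :=
        indicator_of_mem (mem_closedBall_zero_iff.2 hv) _
      rw [← this]
      linarith [hB20 v]
    · push Not at hv
      by_cases hv2 : 2 ≤ ‖v‖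
      · have : wt 0 0 v = 0 := by
          unfold wt
          rw [chi_zero one_pos (by linarith)]
          simp
        rw [this]
        simp
      · push Not at hv2
        refine (qe_case2 hK hg hi hs hs1 (h1 v hv.le (by linarith))).trans
          (ENNReal.ofReal_le_ofReal ?_)
        have : B2 v = (K + 1) * q₁ / s ^ 4 * (fi g v + g v) :=
          indicator_of_mem (show v ∈ {v : V | s / 8 ≤ ‖v‖ ∧ ‖v‖ ≤ 3} from
            ⟨hv.le, by linarith⟩) _
        rw [← this]
        linarith [hB10 v]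
  have ig1 : IntegrableOn g (Metric.closedBall (0 : V) (s / 8)) := hi.integrableOn
  have if1 : IntegrableOn (fi g) (Metric.closedBall (0 : V) (s / 8)) :=
    hfc.continuousOn.integrableOn_compact (isCompact_closedBall _ _)
  have if3 : IntegrableOn (fi g) {v : V | s / 8 ≤ ‖v‖ ∧ ‖v‖ ≤ 3} :=
    (hfc.continuousOn.integrableOn_compact (isCompact_closedBall (0 : V) 3)).mono_set
      (fun v hv => mem_closedBall_zero_iff.2 hv.2)
  have i1 : Integrable B1 := by
    rw [hB1, integrable_indicator_iff hmb]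
    exact (if1.const_mul _).add (ig1.const_mul _)
  have i2 : Integrable B2 := by
    rw [hB2, integrable_indicator_iff hms]
    exact (if3.add hi.integrableOn).const_mul _
  have hJ0 : 0 ≤ JB g 0 (s / 8) := integral_nonneg fun v => hf0 v
  have hm0 : 0 ≤ mB g 0 (s / 8) := integral_nonneg fun v => (hg.pos v).le
  have hA0 : 0 ≤ ∫ v in {v : V | s / 8 ≤ ‖v‖ ∧ ‖v‖ ≤ 3}, (fi g v + g v) :=
    integral_nonneg fun v => add_nonneg (hf0 v) (hg.pos v).le
  calc ER (wt 0 0) (rh s) (kap K 0 s 0) g ≤ ∫⁻ v, ENNReal.ofReal (B1 v + B2 v) :=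
        lintegral_mono hpt
    _ = ENNReal.ofReal (∫ v, (B1 v + B2 v)) := by
        have i3 : Integrable (fun v => B1 v + B2 v) := i1.add i2
        rw [ofReal_integral_eq_lintegral_ofReal i3]
        exact Eventually.of_forall fun v => add_nonneg (hB10 v) (hB20 v)
    _ ≤ _ := by
        apply ENNReal.ofReal_le_ofReal
        rw [integral_add i1 i2, hB1, hB2, integral_indicator hmb, integral_indicator hms,
          integral_add (if1.const_mul _) (ig1.const_mul _), integral_const_mul,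
          integral_const_mul, integral_const_mul]
        have eJ : ∫ v in Metric.closedBall (0 : V) (s / 8), fi g v = JB g 0 (s / 8) := rfl
        have em : ∫ v in Metric.closedBall (0 : V) (s / 8), g v = mB g 0 (s / 8) := rfl
        rw [eJ, em]
        have r1 : 4 * q₀ / s ^ 3 * JB g 0 (s / 8) ≤ (K + 5) * q₀ / s ^ 3 * JB g 0 (s / 8) := by
          refine mul_le_mul_of_nonneg_right (div_le_div_of_nonneg_right ?_ (by positivity)) hJ0
          nlinarith
        have r2 : 4 * q₀ / s ^ 5 * mB g 0 (s / 8) ≤ (K + 5) * q₀ / s ^ 5 * mB g 0 (s / 8) := by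
          refine mul_le_mul_of_nonneg_right (div_le_div_of_nonneg_right ?_ (by positivity)) hm0
          nlinarith
        have r3 : (K + 1) * q₁ / s ^ 4 * (∫ v in {v : V | s / 8 ≤ ‖v‖ ∧ ‖v‖ ≤ 3}, (fi g v + g v))
            ≤ (K + 5) * q₁ / s ^ 4 *
              (∫ v in {v : V | s / 8 ≤ ‖v‖ ∧ ‖v‖ ≤ 3}, (fi g v + g v)) := by
          refine mul_le_mul_of_nonneg_right (div_le_div_of_nonneg_right ?_ (by positivity)) hA0
          nlinarith
        linarith

end Pool.Agent.LandauF
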