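import Pool.Agent.LandauF.FTopLF
import Pool.Agent.LandauF.FTopCell
import Pool.Agent.LandauF.QErr

/-!
# LandauF, module FTopSum: the one cell inequality at unit scale

`wt 0 0 = χ⁶` is `1` on `B_1`, so `DE (wt 0 0) (rh s) g ≥ DE (indicator (closedBall 0 (2s)) 1) (rh s) g` and `CELL` at
`y = 0`; `wt_adm` with `k = 0`, `Ψ = 0`; `err_le_sum`; `LF`.
-/

set_option autoImplicit false

namespace Pool.Agent.LandauF

open MeasureTheory Set Filter Topology Pool.Agent.Landau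

private theorem fts_slok (s : ℝ) (hs : 0 < s) : SlOK (0 : V → ℝ) s := by
  have h0 : ∀ i : Fin 3, pd i (0 : V → ℝ) = 0 := by
    intro i
    funext v
    simp [pd]
  refine ⟨contDiff_const, fun v => le_refl _, fun v i => ?_, fun v i j => ?_, fun v _ i => ?_⟩
  · rw [h0]; simp
  · rw [h0, h0]
    simp only [Pi.zero_apply, abs_zero]
    positivity
  · rw [h0]; rfl

private theorem fts_ofReal {a b X : ℝ} (ha : 0 ≤ a) (hab : a ≤ b) :
    ENNReal.ofReal (a * X) ≤ ENNReal.ofReal (b * X) := by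
  rcases le_total 0 X with hX | hX
  · exact ENNReal.ofReal_le_ofReal (mul_le_mul_of_nonneg_right hab hX)
  · rw [ENNReal.ofReal_of_nonpos (mul_nonpos_of_nonneg_of_nonpos ha hX)]
    exact bot_le

private theorem fts_DE_mono {φ ψ ϱ g : V → ℝ} (h0 : ∀ v, 0 ≤ φ v) (h : ∀ v, φ v ≤ ψ v) :
    DE φ ϱ g ≤ DE ψ ϱ g := by
  unfold DE
  refine add_le_add (lintegral_mono fun v => lintegral_mono fun w => ?_)
    (lintegral_mono fun v => lintegral_mono fun w => ?_)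
  · have := fts_ofReal (X := g v * g w * TQ g v w / ‖v - w‖ ^ 5) (h0 v) (h v)
    calc ENNReal.ofReal (φ v * g v * g w * TQ g v w / ‖v - w‖ ^ 5)
        = ENNReal.ofReal (φ v * (g v * g w * TQ g v w / ‖v - w‖ ^ 5)) := by congr 1; ring
      _ ≤ ENNReal.ofReal (ψ v * (g v * g w * TQ g v w / ‖v - w‖ ^ 5)) := this
      _ = ENNReal.ofReal (ψ v * g v * g w * TQ g v w / ‖v - w‖ ^ 5) := by congr 1; ring
  · by_cases hc : ϱ (mid v w) ≤ ‖v - w‖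
    · simp only [if_pos hc]
      have := fts_ofReal (X := g v * g w * HZ g v w / ‖v - w‖ ^ 3) (h0 v) (h v)
      calc ENNReal.ofReal (φ v * g v * g w * HZ g v w / ‖v - w‖ ^ 3)
          = ENNReal.ofReal (φ v * (g v * g w * HZ g v w / ‖v - w‖ ^ 3)) := by congr 1; ring
        _ ≤ ENNReal.ofReal (ψ v * (g v * g w * HZ g v w / ‖v - w‖ ^ 3)) := this
        _ = ENNReal.ofReal (ψ v * g v * g w * HZ g v w / ‖v - w‖ ^ 3) := by congr 1; ring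
    · simp only [if_neg hc]
      exact le_refl _

/-- The one cell inequality (weight `χ⁶`, main cell the ball of radius `s` about `0`). -/
theorem SUMI : ∃ c₁ C₁ s₁ : ℝ, 0 < c₁ ∧ 0 < C₁ ∧ 0 < s₁ ∧ s₁ ≤ 1 ∧
    ∀ (g : V → ℝ) (s q₀ q₁ r₀ : ℝ), Dn g → Integrable g → 0 < s → s ≤ s₁ → 0 ≤ r₀ → r₀ ≤ 1 / s →
      r₀ * mB g 0 (2 * s) ≤ PB g 0 s →
      ∫ w in {w : V | s / 8 ≤ ‖w‖}, g w ≤ q₀ →
      (∀ v : V, s / 8 ≤ ‖v‖ → ‖v‖ ≤ 3 →
        pot g v + ∫ w in Metric.closedBall v 1, g w / ‖v - w‖ ^ 2 ≤ q₁) →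
      dFJ (wt 0 0) g ≤
        -(c₁ * r₀ * (max 0 (JB g 0 s - C₁ * mB g 0 (2 * s) / s ^ 2)) ^ 2)
        + C₁ * q₀ / s ^ 3 * JB g 0 (s / 8)
        + C₁ * q₁ / s ^ 4 * (∫ v in {v : V | s / 8 ≤ ‖v‖ ∧ ‖v‖ ≤ 3}, (fi g v + g v))
        + C₁ * q₀ / s ^ 5 * mB g 0 (s / 8) := by
  obtain ⟨c₀, C₀, ε₀, hc₀, hC₀, hε₀, hLF⟩ := LF
  obtain ⟨K, s₂, ε₁, hK, hs₂, hs₂', hε₁, hε₁', hwt⟩ := wt_adm ε₀ hε₀
  obtain ⟨C₂, hC₂, herr⟩ := err_le_sum K hK
  obtain ⟨c, C₃, hc, hC₃, hcell⟩ := CELL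
  refine ⟨c₀ * c, max (C₀ * C₂) C₃, s₂, mul_pos hc₀ hc, lt_max_of_lt_right hC₃, hs₂, by linarith, ?_⟩
  intro g s q₀ q₁ r₀ hg hgi hs hss hr₀ hr₀' hr hq₀ hq₁
  have hs100 : s ≤ 1 / 100 := hss.trans hs₂'
  have hA : Adm ε₀ (wt 0 0) (rh s) (kap K 0 s 0) :=
    hwt 0 s 0 hs hss (le_refl _) (by rw [zero_mul]; exact hε₁.le) (fts_slok s hs)
  have hg0 : ∀ v, 0 ≤ g v := fun v => (hg.pos v).le
  have hfi0 : ∀ v, 0 ≤ fi g v := fun v =>
    mul_nonneg (hg0 v) (Finset.sum_nonneg fun i _ => sq_nonneg _)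
  have hq₀0 : 0 ≤ q₀ := le_trans (integral_nonneg fun w => hg0 w) hq₀
  have hq₁0 : 0 ≤ q₁ := by
    have h1 := hq₁ (EuclideanSpace.single 0 1) (by simp; linarith) (by simp)
    refine le_trans (add_nonneg ?_ ?_) h1
    · exact integral_nonneg fun w => div_nonneg (hg0 w) (norm_nonneg _)
    · exact integral_nonneg fun w => div_nonneg (hg0 w) (by positivity)
  have hJ0 : 0 ≤ JB g 0 (s / 8) := integral_nonneg fun w => hfi0 w
  have hm0 : 0 ≤ mB g 0 (s / 8) := integral_nonneg fun w => hg0 w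
  have hm2 : 0 ≤ mB g 0 (2 * s) := integral_nonneg fun w => hg0 w
  have hI0 : 0 ≤ ∫ v in {v : V | s / 8 ≤ ‖v‖ ∧ ‖v‖ ≤ 3}, (fi g v + g v) :=
    integral_nonneg fun w => add_nonneg (hfi0 w) (hg0 w)
  set J8 := JB g 0 (s / 8)
  set m8 := mB g 0 (s / 8)
  set m2 := mB g 0 (2 * s)
  set I3 := ∫ v in {v : V | s / 8 ≤ ‖v‖ ∧ ‖v‖ ≤ 3}, (fi g v + g v)
  have hmu : MeasurableSet (Metric.closedBall (0 : V) (2 * s)) := Metric.isClosed_closedBall.measurableSet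
  have hrh : ∀ v, 0 ≤ rh s v ∧ rh s v ≤ s := by
    intro v
    have h1 : 0 ≤ chi 1 v := chiB.nonneg
    have h2 : chi 1 v ≤ 1 := chiB.le_one
    unfold rh
    constructor
    · positivity
    · nlinarith
  have hrm : Measurable (rh s) := by
    have : Continuous (rh s) := by
      unfold rh
      refine continuous_const.mul ?_
      unfold chi
      exact chiB.continuous.comp (continuous_const_smul _)
    exact this.measurable
  have h1 := hcell g hg 0 s (rh s) hs hrh hrm r₀ hr₀ hr₀' hr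
  have h2 : DE (indicator (Metric.closedBall (0 : V) (2 * s)) 1) (rh s) g ≤ DE (wt 0 0) (rh s) g := by
    refine fts_DE_mono (fun v => indicator_nonneg (fun _ _ => zero_le_one) v) (fun v => ?_)
    by_cases hv : v ∈ Metric.closedBall (0 : V) (2 * s)
    · rw [indicator_of_mem hv]
      have hv' : ‖v‖ ≤ 2 * s := by simpa using hv
      have h5 : chi 1 v = 1 := by
        unfold chi
        refine chiB.one_of_mem_closedBall ?_
        rw [mem_closedBall_zero_iff, inv_one, one_smul]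
        change ‖v‖ ≤ 1
        linarith
      unfold wt
      rw [h5]
      simp
    · rw [indicator_of_notMem hv]
      exact mul_nonneg (Real.exp_pos _).le (by
        have : 0 ≤ chi 1 v := chiB.nonneg
        positivity)
  have h3 := herr g s q₀ q₁ hg hgi hs hs100 hq₀ hq₁
  have hA0 : 0 ≤ C₂ * q₀ / s ^ 3 * J8 + C₂ * q₁ / s ^ 4 * I3 + C₂ * q₀ / s ^ 5 * m8 := by
    positivity
  have h4 := hLF (wt 0 0) (rh s) (kap K 0 s 0) g hA hg _ _ hA0 (by positivity) h3 (h1.trans h2)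
  refine h4.trans ?_
  have hC1 : C₀ * C₂ ≤ max (C₀ * C₂) C₃ := le_max_left _ _
  have hC3 : C₃ ≤ max (C₀ * C₂) C₃ := le_max_right _ _
  set C₁ := max (C₀ * C₂) C₃
  have e1 : max 0 (JB g 0 s - C₁ * m2 / s ^ 2) ≤ max 0 (JB g 0 s - C₃ * m2 / s ^ 2) := by
    refine max_le_max_left _ ?_
    have : C₃ * m2 / s ^ 2 ≤ C₁ * m2 / s ^ 2 := by gcongr
    linarith
  have e2 : (max 0 (JB g 0 s - C₁ * m2 / s ^ 2)) ^ 2 ≤ (max 0 (JB g 0 s - C₃ * m2 / s ^ 2)) ^ 2 :=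
    pow_le_pow_left₀ (le_max_left _ _) e1 2
  have e3 : c₀ * c * r₀ * (max 0 (JB g 0 s - C₁ * m2 / s ^ 2)) ^ 2 ≤
      c₀ * (c * r₀ * (max 0 (JB g 0 s - C₃ * m2 / s ^ 2)) ^ 2) := by
    rw [← mul_assoc, ← mul_assoc]
    exact mul_le_mul_of_nonneg_left e2 (by positivity)
  have f1 : C₀ * (C₂ * q₀ / s ^ 3 * J8) ≤ C₁ * q₀ / s ^ 3 * J8 := by
    calc C₀ * (C₂ * q₀ / s ^ 3 * J8) = (C₀ * C₂) * q₀ / s ^ 3 * J8 := by ring
      _ ≤ C₁ * q₀ / s ^ 3 * J8 := by gcongr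
  have f2 : C₀ * (C₂ * q₁ / s ^ 4 * I3) ≤ C₁ * q₁ / s ^ 4 * I3 := by
    calc C₀ * (C₂ * q₁ / s ^ 4 * I3) = (C₀ * C₂) * q₁ / s ^ 4 * I3 := by ring
      _ ≤ C₁ * q₁ / s ^ 4 * I3 := by gcongr
  have f3 : C₀ * (C₂ * q₀ / s ^ 5 * m8) ≤ C₁ * q₀ / s ^ 5 * m8 := by
    calc C₀ * (C₂ * q₀ / s ^ 5 * m8) = (C₀ * C₂) * q₀ / s ^ 5 * m8 := by ring
      _ ≤ C₁ * q₀ / s ^ 5 * m8 := by gcongr
  linarith

end Pool.Agent.LandauF
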