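import Pool.Agent.LandauF.FDefs
import Pool.Agent.Landau.KBd
import Pool.Agent.Landau.Cov
import Pool.Agent.LandauG.WPot

/-!
# LandauF, module TEll: quantitative ellipticity

`∑ abar_ij ξ_i ξ_j = (1/(8π)) ∫ g(w) (|z|² |ξ|² - (z·ξ)²)/|z|³ dw` (`kernel_quad`).  For `‖v‖ ≤ 6` and `‖w‖ ≤ A`
(`A ≥ 1`): `|z| ≤ 7 A`.  With `|ξ| = 1`, `|z|² - (z·ξ)²` is the squared distance of `w` to the line `v + ℝ ξ`; the part
of the ball `‖w‖ ≤ A` at distance `< δ` of the line has volume `≤ C A δ²` and `g ≤ 1`, so with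
`δ² = m/(2 C A)`, `m = mB g 0 A`, the rest has mass at least `m/2` and the integral is at least
`(1/(8π (7A)³)) (m/2) δ² ≥ c m² A⁻⁴`.

The tube is replaced by the set `|z_i ξ_j - z_j ξ_i| < δ n` for all `j`, where `n = |ξ|` and `n ≤ 2 |ξ_i|`: for fixed `w_i` the
two other coordinates are in intervals of length `4 δ`.
-/

set_option autoImplicit false

namespace Pool.Agent.LandauF

open MeasureTheory Set Filter Topology Pool.Agent.Landau

private theorem tube_pi (x v : Fin 3 → ℝ) (i : Fin 3) (r δ n : ℝ) (hr : 0 < r) (hδ : 0 < δ)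
    (hn : 0 < n) (hx : n ≤ 2 * |x i|) :
    volume {w : Fin 3 → ℝ | (∀ j, |w j| ≤ r) ∧
      ∀ j, |(v i - w i) * x j - (v j - w j) * x i| < δ * n} ≤
      ENNReal.ofReal (32 * r * δ ^ 2) := by
  classical
  have hxi : 0 < |x i| := by linarith
  have hxi0 : x i ≠ 0 := abs_pos.mp hxi
  set T' : Set (ℝ × (Fin 2 → ℝ)) :=
    {p | |p.1| ≤ r ∧ ∀ j : Fin 2, |(v i - p.1) * x (i.succAbove j) -
      (v (i.succAbove j) - p.2 j) * x i| < δ * n} with hT'
  have hmT' : MeasurableSet T' := by
    have e0 : T' = {p : ℝ × (Fin 2 → ℝ) | |p.1| ≤ r} ∩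
        ⋂ j : Fin 2, {p : ℝ × (Fin 2 → ℝ) | |(v i - p.1) * x (i.succAbove j) -
          (v (i.succAbove j) - p.2 j) * x i| < δ * n} := by
      ext p; simp [hT']
    rw [e0]
    refine MeasurableSet.inter ?_ ?_
    · refine measurableSet_le ?_ measurable_const
      exact (continuous_abs.comp continuous_fst).measurable
    · refine MeasurableSet.iInter fun j => ?_
      refine measurableSet_lt ?_ measurable_const
      refine Continuous.measurable ?_
      fun_prop
  have hmp := volume_preserving_piFinSuccAbove (fun _ : Fin 3 => ℝ) i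
  have hsub : {w : Fin 3 → ℝ | (∀ j, |w j| ≤ r) ∧
      ∀ j, |(v i - w i) * x j - (v j - w j) * x i| < δ * n} ⊆
      (MeasurableEquiv.piFinSuccAbove (fun _ : Fin 3 => ℝ) i) ⁻¹' T' := by
    rintro w ⟨hw1, hw2⟩
    exact ⟨hw1 i, fun j => hw2 (i.succAbove j)⟩
  refine (measure_mono hsub).trans ?_
  rw [hmp.measure_preimage hmT'.nullMeasurableSet]
  have hprod : volume T' = ∫⁻ t : ℝ, volume ((fun y : Fin 2 → ℝ => (t, y)) ⁻¹' T') := by
    have := Measure.prod_apply (μ := (volume : Measure ℝ))
      (ν := (volume : Measure (Fin 2 → ℝ))) hmT'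
    exact this
  rw [hprod]
  calc ∫⁻ t : ℝ, volume ((fun y : Fin 2 → ℝ => (t, y)) ⁻¹' T')
      ≤ ∫⁻ t : ℝ, (Set.Icc (-r) r).indicator (fun _ => ENNReal.ofReal (4 * δ) ^ 2) t := by
        refine lintegral_mono fun t => ?_
        by_cases ht : t ∈ Set.Icc (-r) r
        · rw [indicator_of_mem ht]
          have hsub2 : ((fun y : Fin 2 → ℝ => (t, y)) ⁻¹' T') ⊆
              Set.pi Set.univ fun j : Fin 2 => Metric.ball
                (v (i.succAbove j) - (v i - t) * x (i.succAbove j) / x i) (2 * δ) := by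
            rintro y ⟨-, hy⟩
            rw [Set.mem_univ_pi]
            intro j
            have hyj := hy j
            rw [Metric.mem_ball, Real.dist_eq]
            have e1 : y j - (v (i.succAbove j) - (v i - t) * x (i.succAbove j) / x i) =
                ((v i - t) * x (i.succAbove j) - (v (i.succAbove j) - y j) * x i) / x i := by
              field_simp
              ring
            rw [e1, abs_div, div_lt_iff₀ hxi]
            have hyj2 : |(v i - t) * x (i.succAbove j) - (v (i.succAbove j) - y j) * x i| < δ * n :=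
              hyj
            nlinarith
          refine (measure_mono hsub2).trans ?_
          rw [volume_pi_pi]
          simp only [Real.volume_ball, Fin.prod_univ_two]
          refine le_of_eq ?_
          rw [← sq]
          congr 2
          ring
        · rw [indicator_of_notMem ht]
          have : ((fun y : Fin 2 → ℝ => (t, y)) ⁻¹' T') = ∅ := by
            ext y
            simp only [mem_empty_iff_false, iff_false]
            rintro ⟨h1, -⟩
            exact ht (abs_le.mp h1)
          rw [this, measure_empty]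
    _ = ENNReal.ofReal (4 * δ) ^ 2 * volume (Set.Icc (-r) r) := by
        rw [lintegral_indicator measurableSet_Icc, setLIntegral_const]
    _ = ENNReal.ofReal (32 * r * δ ^ 2) := by
        rw [Real.volume_Icc, ← ENNReal.ofReal_pow (by positivity),
          ← ENNReal.ofReal_mul (by positivity)]
        congr 1
        ring
    _ ≤ _ := le_refl _

private theorem tube_vol (x : Fin 3 → ℝ) (v : V) (i : Fin 3) (r δ n : ℝ) (hr : 0 < r) (hδ : 0 < δ)
    (hn : 0 < n) (hx : n ≤ 2 * |x i|) :
    volume {w : V | ‖w‖ ≤ r ∧ ∀ j, |(v i - w i) * x j - (v j - w j) * x i| < δ * n} ≤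
      ENNReal.ofReal (32 * r * δ ^ 2) := by
  have hmp := PiLp.volume_preserving_ofLp (Fin 3)
  set T : Set (Fin 3 → ℝ) := {w | (∀ j, |w j| ≤ r) ∧
    ∀ j, |(v i - w i) * x j - (v j - w j) * x i| < δ * n} with hT
  have hmT : MeasurableSet T := by
    have e0 : T = (⋂ j, {w : Fin 3 → ℝ | |w j| ≤ r}) ∩
        ⋂ j, {w : Fin 3 → ℝ | |(v i - w i) * x j - (v j - w j) * x i| < δ * n} := by
      ext w; simp [hT]
    rw [e0]
    refine MeasurableSet.inter ?_ ?_
    · refine MeasurableSet.iInter fun j => ?_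
      refine measurableSet_le ?_ measurable_const
      exact (continuous_abs.comp (continuous_apply j)).measurable
    · refine MeasurableSet.iInter fun j => ?_
      refine measurableSet_lt ?_ measurable_const
      refine Continuous.measurable ?_
      fun_prop
  have hsub : {w : V | ‖w‖ ≤ r ∧ ∀ j, |(v i - w i) * x j - (v j - w j) * x i| < δ * n} ⊆
      (WithLp.ofLp : V → (Fin 3 → ℝ)) ⁻¹' T := by
    rintro w ⟨hw1, hw2⟩
    exact ⟨fun j => (Cls.abs_coord w j).trans hw1, hw2⟩
  refine (measure_mono hsub).trans ?_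
  rw [hmp.measure_preimage hmT.nullMeasurableSet]
  exact tube_pi x v i r δ n hr hδ hn hx

private theorem abar_eq (g : V → ℝ) (hg : Clw g) (v : V) (x : Fin 3 → ℝ) :
    Integrable (fun w => g w * ∑ i : Fin 3, ∑ j : Fin 3, aK i j (v - w) * x i * x j) ∧
    ∑ i : Fin 3, ∑ j : Fin 3, abar g i j v * x i * x j =
      ∫ w, g w * ∑ i : Fin 3, ∑ j : Fin 3, aK i j (v - w) * x i * x j := by
  have hgc : Continuous g := hg.smooth.continuous
  have hK : ∀ i j : Fin 3, Integrable (fun w => aK i j (v - w) * g w) := by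
    intro i j
    refine (pot_int g hg v).mono' ?_ (Eventually.of_forall fun w => ?_)
    · exact (((aK_measurable i j).comp (measurable_const.sub measurable_id)).mul
        hgc.measurable).aestronglyMeasurable
    · rw [Real.norm_eq_abs, abs_mul, abs_of_nonneg (hg.nonneg w)]
      refine (mul_le_mul_of_nonneg_right (aK_abs i j (v - w)) (hg.nonneg w)).trans_eq ?_
      ring
  have hI : ∀ i j : Fin 3, Integrable (fun w => aK i j (v - w) * g w * x i * x j) := fun i j =>
    ((hK i j).mul_const _).mul_const _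
  have e0 : (fun w => g w * ∑ i : Fin 3, ∑ j : Fin 3, aK i j (v - w) * x i * x j) =
      fun w => ∑ i : Fin 3, ∑ j : Fin 3, aK i j (v - w) * g w * x i * x j := by
    funext w
    rw [Finset.mul_sum]
    refine Finset.sum_congr rfl fun i _ => ?_
    rw [Finset.mul_sum]
    refine Finset.sum_congr rfl fun j _ => ?_
    ring
  rw [e0]
  refine ⟨integrable_finsetSum _ (fun i _ => integrable_finsetSum _ (fun j _ => hI i j)), ?_⟩
  rw [integral_finsetSum _ (fun i _ => integrable_finsetSum _ (fun j _ => hI i j))]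
  refine Finset.sum_congr rfl fun i _ => ?_
  rw [integral_finsetSum _ (fun j _ => hI i j)]
  refine Finset.sum_congr rfl fun j _ => ?_
  rw [integral_mul_const, integral_mul_const]
  rfl

theorem ell_quant : ∃ c : ℝ, 0 < c ∧ ∀ g : V → ℝ, Clw g → ∀ (A : ℝ) (v : V) (ξ : Fin 3 → ℝ),
    1 ≤ A → ‖v‖ ≤ 6 →
    c * mB g 0 A ^ 2 / A ^ 4 * (∑ i : Fin 3, ξ i ^ 2) ≤
      ∑ i : Fin 3, ∑ j : Fin 3, abar g i j v * ξ i * ξ j := by
  have hpi := Real.pi_pos
  refine ⟨1 / (702464 * Real.pi), by positivity, ?_⟩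
  intro g hg A v ξ hA hv
  have hA0 : 0 < A := by linarith
  have hgc : Continuous g := hg.smooth.continuous
  obtain ⟨hF, hFe⟩ := abar_eq g hg v ξ
  rw [hFe]
  set F : V → ℝ := fun w => g w * ∑ i : Fin 3, ∑ j : Fin 3, aK i j (v - w) * ξ i * ξ j with hFd
  have hF0 : ∀ w, 0 ≤ F w := fun w => mul_nonneg (hg.nonneg w) (kernel_quad_nonneg (v - w) ξ)
  have hpos : 0 ≤ ∫ w, F w := integral_nonneg hF0
  set m : ℝ := mB g 0 A with hm
  have hcomp : IsCompact (Metric.closedBall (0 : V) A) := isCompact_closedBall _ _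
  have hmball : MeasurableSet (Metric.closedBall (0 : V) A) :=
    Metric.isClosed_closedBall.measurableSet
  have hintg : IntegrableOn g (Metric.closedBall (0 : V) A) :=
    hgc.continuousOn.integrableOn_compact hcomp
  have hm0 : 0 ≤ m := setIntegral_nonneg hmball fun w _ => hg.nonneg w
  rcases hm0.eq_or_lt with h0 | hmpos
  · rw [← h0]
    simpa using hpos
  have hQ : 0 ≤ ∑ i, ξ i ^ 2 := Finset.sum_nonneg fun j _ => sq_nonneg _
  set n : ℝ := Real.sqrt (∑ i, ξ i ^ 2) with hn
  have hnn : n ^ 2 = ∑ i, ξ i ^ 2 := by rw [hn]; exact Real.sq_sqrt hQ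
  have hn0 : 0 ≤ n := Real.sqrt_nonneg _
  rcases hn0.eq_or_lt with h0 | hnpos
  · have : ∑ i, ξ i ^ 2 = 0 := by rw [← hnn, ← h0]; ring
    rw [this, mul_zero]
    exact hpos
  obtain ⟨i, hi⟩ := cov_coord ξ
  set δ : ℝ := Real.sqrt (m / (64 * A)) with hδd
  have hδ2 : δ ^ 2 = m / (64 * A) := Real.sq_sqrt (by positivity)
  have hδ : 0 < δ := Real.sqrt_pos.2 (by positivity)
  set S : Set V := {w : V | ‖w‖ ≤ A ∧
    ∀ j, |(v i - w i) * ξ j - (v j - w j) * ξ i| < δ * n} with hS
  have hmS : MeasurableSet S := by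
    have e0 : S = {w : V | ‖w‖ ≤ A} ∩
        ⋂ j, {w : V | |(v i - w i) * ξ j - (v j - w j) * ξ i| < δ * n} := by
      ext w; simp [hS]
    rw [e0]
    refine MeasurableSet.inter (measurableSet_le measurable_norm measurable_const)
      (MeasurableSet.iInter fun j => measurableSet_lt ?_ measurable_const)
    refine Continuous.measurable ?_
    fun_prop
  have hvolS : volume S ≤ ENNReal.ofReal (m / 2) := by
    refine (tube_vol ξ v i A δ n hA0 hδ hnpos hi).trans (le_of_eq ?_)
    congr 1
    rw [hδ2]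
    field_simp
    ring
  have hSball : S ⊆ Metric.closedBall (0 : V) A := by
    rintro w ⟨hw, -⟩
    rw [mem_closedBall_zero_iff]
    exact hw
  have hfinS : volume S ≠ ⊤ := (hvolS.trans_lt ENNReal.ofReal_lt_top).ne
  have hgS : ∫ w in S, g w ≤ m / 2 := by
    calc ∫ w in S, g w ≤ ∫ w in S, (1 : ℝ) := by
          refine setIntegral_mono_on (hintg.mono_set hSball) (integrableOn_const hfinS) hmS
            (fun w _ => hg.le_one w)
      _ = (volume S).toReal := by simp [Measure.real]
      _ ≤ m / 2 := ENNReal.toReal_le_of_le_ofReal (by positivity) hvolS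
  have hsplit : ∫ w in Metric.closedBall (0 : V) A, g w =
      (∫ w in S, g w) + ∫ w in Metric.closedBall (0 : V) A \ S, g w := by
    have h1 := setIntegral_union (μ := (volume : Measure V)) (f := g) (s := S)
      (t := Metric.closedBall (0 : V) A \ S) disjoint_sdiff_right (hmball.diff hmS)
      (hintg.mono_set hSball) (hintg.mono_set sdiff_subset)
    rw [← h1, union_sdiff_cancel hSball]
  have hmi : m = ∫ w in Metric.closedBall (0 : V) A, g w := rfl
  have hrest : m / 2 ≤ ∫ w in Metric.closedBall (0 : V) A \ S, g w := by linarith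
  set κ : ℝ := 1 / (16 * Real.pi) * ((δ * n) ^ 2 / (7 * A) ^ 3) with hκ
  have hκ0 : 0 ≤ κ := by positivity
  have hkey : ∀ w ∈ Metric.closedBall (0 : V) A \ S, κ * g w ≤ F w := by
    intro w hw
    have hw1 : ‖w‖ ≤ A := mem_closedBall_zero_iff.mp hw.1
    have hw2 : ∃ j, δ * n ≤ |(v i - w i) * ξ j - (v j - w j) * ξ i| := by
      by_contra hlt
      push Not at hlt
      exact hw.2 ⟨hw1, hlt⟩
    obtain ⟨j, hj⟩ := hw2
    have hsq : (δ * n) ^ 2 ≤ ((v i - w i) * ξ j - (v j - w j) * ξ i) ^ 2 := by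
      rw [← sq_abs ((v i - w i) * ξ j - (v j - w j) * ξ i)]
      exact pow_le_pow_left₀ (by positivity) hj 2
    have hz7 : ‖v - w‖ ≤ 7 * A := (norm_sub_le v w).trans (by linarith)
    have hz0 : 0 < ‖v - w‖ := by
      rcases (norm_nonneg (v - w)).eq_or_lt with h0 | h0
      · exfalso
        have h1 : v - w = 0 := norm_eq_zero.1 h0.symm
        have h2 : ∀ k, v k - w k = 0 := fun k => by
          have := congrArg (fun u : V => u k) h1
          simpa using this
        rw [h2 i, h2 j] at hj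
        have h3 : 0 < δ * n := by positivity
        simp at hj
        linarith
      · exact h0
    have hsum : (δ * n) ^ 2 ≤ ∑ a, ∑ b, ((v - w) a * ξ b - (v - w) b * ξ a) ^ 2 := by
      refine hsq.trans ?_
      have h1 : ((v i - w i) * ξ j - (v j - w j) * ξ i) ^ 2 ≤
          ∑ b, ((v - w) i * ξ b - (v - w) b * ξ i) ^ 2 :=
        Finset.single_le_sum (f := fun b => ((v - w) i * ξ b - (v - w) b * ξ i) ^ 2)
          (fun b _ => sq_nonneg _) (Finset.mem_univ j)
      refine h1.trans ?_
      exact Finset.single_le_sum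
        (f := fun a => ∑ b, ((v - w) a * ξ b - (v - w) b * ξ a) ^ 2)
        (fun a _ => Finset.sum_nonneg fun b _ => sq_nonneg _) (Finset.mem_univ i)
    have h5 : κ ≤ ∑ i : Fin 3, ∑ j : Fin 3, aK i j (v - w) * ξ i * ξ j := by
      rw [kernel_quad, hκ]
      refine mul_le_mul_of_nonneg_left ?_ (by positivity)
      exact div_le_div₀ (Finset.sum_nonneg fun a _ => Finset.sum_nonneg fun b _ => sq_nonneg _)
        hsum (by positivity) (pow_le_pow_left₀ hz0.le hz7 3)
    rw [mul_comm]
    exact mul_le_mul_of_nonneg_left h5 (hg.nonneg w)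
  calc 1 / (702464 * Real.pi) * m ^ 2 / A ^ 4 * ∑ i, ξ i ^ 2 = κ * (m / 2) := by
        rw [← hnn, hκ, mul_pow, hδ2]
        field_simp
        ring
    _ ≤ κ * ∫ w in Metric.closedBall (0 : V) A \ S, g w :=
        mul_le_mul_of_nonneg_left hrest hκ0
    _ = ∫ w in Metric.closedBall (0 : V) A \ S, κ * g w := by
        rw [← integral_const_mul]
    _ ≤ ∫ w in Metric.closedBall (0 : V) A \ S, F w := by
        exact setIntegral_mono_on ((hintg.mono_set sdiff_subset).const_mul _)
          hF.integrableOn (hmball.diff hmS) hkey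
    _ ≤ ∫ w, F w := setIntegral_le_integral hF (Eventually.of_forall hF0)

end Pool.Agent.LandauF
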