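import Pool.Agent.LandauF.TDefs
import Pool.Agent.LandauF.NTrans
import Pool.Agent.LandauG.WWeak
import Pool.Agent.LandauG.WTime
import Pool.Agent.LandauG.WRate

/-!
# LandauF, module TEnt: local entropy inequality

`χ = chi 3` (support in `‖v‖ ≤ 6`), `h(x) = x log x - x` (`|h| ≤ 1` on `(0, 1]`), `E(t) = ∫ χ h(f t)`, `|E| ≤ C`.
`E' = ∫ χ log f · QL f`; `QL_weakW` with the test function `χ log f` (smooth, compact support, `f > 0`):
`= -∫ χ f abar_ij X_i X_j - ∫ abar_ij χ_i ∂_j h(f) + ∫ bbar_i (χ ∂_i f + χ_i f log f)` and, integrating by parts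
(`∂_j abar_ij = bbar_i`, `∂_i bbar_i = -f`, in the weak sense against compactly supported smooth functions:
see `LandauG/WBars.lean`, `LandauG/WWeak.lean`):
`-∫ abar_ij χ_i ∂_j h = ∫ (bbar_i χ_i + abar_ij χ_ij) h`, `∫ bbar_i χ ∂_i f = ∫ χ f² - ∫ bbar_i χ_i f`.
All error terms are `≤ C (1 + Kw f)` (`te_bd`: Fubini and `sup_inv`).

`ent_diss_cont`: `Kw (f t)` is continuous in time, so `∫ |f t - f t0| / ang → 0` as `t → t0` (`te_schef`), so `abar (f t)`
is continuous in time at every point (`te_pot`); dominated convergence.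
-/

set_option autoImplicit false

namespace Pool.Agent.LandauF

open MeasureTheory Set Filter Topology Pool.Agent.Landau

/-! ### bounds of the error terms -/

private theorem te_bd (k : ℕ) (hk1 : 1 ≤ k) (hk : k ≤ 2) (K : V → ℝ)
    (hK : ∀ z, |K z| ≤ 1 / ‖z‖ ^ k) (F0 : V → ℝ) (hF0 : Continuous F0)
    (hc0 : HasCompactSupport F0) :
    ∃ C : ℝ, 0 ≤ C ∧ ∀ g : V → ℝ, Clw g → ∀ F : V → ℝ, (∀ v, |F v| ≤ |F0 v|) →
      Integrable (fun p : V × V => K (p.1 - p.2) * g p.2 * F p.1)
        ((volume : Measure V).prod (volume : Measure V)) →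
      |∫ v, (∫ w, K (v - w) * g w) * F v| ≤ C * Kw g := by
  obtain ⟨C, hC, hb⟩ := wb_sup_inv_k k hk1 hk F0 hF0 hc0
  refine ⟨C, hC, fun g hg F hF hI => ?_⟩
  obtain ⟨h1, -⟩ := bars_fubini K F g hI
  rw [h1, ← Real.norm_eq_abs]
  have h2 : ∀ w, |∫ v, K (v - w) * F v| ≤ C / ang w := by
    intro w
    rw [← Real.norm_eq_abs]
    refine (norm_integral_le_of_norm_le (hb w).1 (Eventually.of_forall fun v => ?_)).trans
      (hb w).2
    rw [norm_mul, Real.norm_eq_abs, Real.norm_eq_abs, div_eq_mul_one_div, mul_comm]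
    exact mul_le_mul (hF v) (hK _) (abs_nonneg _) (abs_nonneg _)
  have h3 : Integrable (fun w => C * (g w / ang w)) := hg.int.const_mul C
  refine (norm_integral_le_of_norm_le h3 (Eventually.of_forall fun w => ?_)).trans (le_of_eq ?_)
  · rw [norm_mul, Real.norm_eq_abs, Real.norm_eq_abs, abs_of_nonneg (hg.nonneg w)]
    calc g w * |∫ v, K (v - w) * F v| ≤ g w * (C / ang w) :=
          mul_le_mul_of_nonneg_left (h2 w) (hg.nonneg w)
      _ = C * (g w / ang w) := by ring
  · rw [integral_const_mul]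
    rfl

private theorem te_bd_a (i j : Fin 3) (F0 : V → ℝ) (hF0 : Continuous F0)
    (hc0 : HasCompactSupport F0) :
    ∃ C : ℝ, 0 ≤ C ∧ ∀ g : V → ℝ, Clw g → ∀ F : V → ℝ, Continuous F → HasCompactSupport F →
      (∀ v, |F v| ≤ |F0 v|) → |∫ v, abar g i j v * F v| ≤ C * Kw g := by
  obtain ⟨C, hC, h⟩ := te_bd 1 le_rfl (by norm_num) (aK i j)
    (fun z => by rw [pow_one]; exact aK_abs i j z) F0 hF0 hc0
  exact ⟨C, hC, fun g hg F hF hc hb => h g hg F hb (ww_prod_a g hg hF hc i j)⟩

private theorem te_bd_b (i : Fin 3) (F0 : V → ℝ) (hF0 : Continuous F0)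
    (hc0 : HasCompactSupport F0) :
    ∃ C : ℝ, 0 ≤ C ∧ ∀ g : V → ℝ, Clw g → ∀ F : V → ℝ, Continuous F → HasCompactSupport F →
      (∀ v, |F v| ≤ |F0 v|) → |∫ v, bbar g i v * F v| ≤ C * Kw g := by
  obtain ⟨C, hC, h⟩ := te_bd 2 (by norm_num) le_rfl (bK i) (bK_abs i) F0 hF0 hc0
  exact ⟨C, hC, fun g hg F hF hc hb => h g hg F hb (ww_prod_b g hg hF hc i)⟩

/-! ### the entropy identity -/

/-- `h(g) = g log g - g` -/
private noncomputable def teh (g : V → ℝ) (v : V) : ℝ := g v * Real.log (g v) - g v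

private theorem te_beta {x : ℝ} (hx : 0 < x) :
    HasDerivAt (fun x : ℝ => x * Real.log x - x) (Real.log x) x := by
  have h2 : HasDerivAt (fun x : ℝ => Real.log x) (1 / x) x := (hasDerivAt_id x).log hx.ne'
  have h3 : HasDerivAt (fun x : ℝ => x * Real.log x) (1 * Real.log x + x * (1 / x)) x :=
    (hasDerivAt_id x).mul h2
  have h4 := h3.sub (hasDerivAt_id x)
  have h5 : 1 * Real.log x + x * (1 / x) - 1 = Real.log x := by
    rw [mul_one_div_cancel hx.ne']
    ring
  rw [h5] at h4
  exact h4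

private theorem teh_abs {g : V → ℝ} (hg : Dn g) (v : V) : teh g v ≤ 0 ∧ -1 ≤ teh g v := by
  have h0 := hg.pos v
  have h1 := hg.cls.le_one v
  have hl : Real.log (g v) ≤ 0 := Real.log_nonpos h0.le h1
  unfold teh
  constructor
  · have : g v * Real.log (g v) ≤ 0 := mul_nonpos_of_nonneg_of_nonpos h0.le hl
    linarith
  · have h2 : 1 - (g v)⁻¹ ≤ Real.log (g v) := Real.one_sub_inv_le_log_of_pos h0
    have h3 : g v * (1 - (g v)⁻¹) ≤ g v * Real.log (g v) := mul_le_mul_of_nonneg_left h2 h0.le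
    have h4 : g v * (1 - (g v)⁻¹) = g v - 1 := by
      field_simp
    linarith

private theorem teh_smooth {g : V → ℝ} (hg : Dn g) : ContDiff ℝ (⊤ : ℕ∞) (teh g) :=
  (hg.cls.smooth.mul (nid_log_smooth hg)).sub hg.cls.smooth

private theorem teh_pd {g : V → ℝ} (hg : Dn g) (j : Fin 3) (v : V) :
    pd j (teh g) v = Real.log (g v) * pd j g v := by
  have hd := differentiable_of_smooth hg.cls.smooth v
  have h := pd_comp (g := g) (v := v) (β := fun x : ℝ => x * Real.log x - x) hd
    (te_beta (hg.pos v)) j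
  exact h

private theorem te_identity {g φ : V → ℝ} (hg : Dn g) (hφ : ContDiff ℝ (⊤ : ℕ∞) φ)
    (hc : HasCompactSupport φ) :
    (∑ i : Fin 3, ∑ j : Fin 3, ∫ v, abar g i j v * (φ v * g v * gam i g v * gam j g v)) =
      -(∫ v, φ v * (Real.log (g v) * QL g v)) +
      (∑ i : Fin 3, ∑ j : Fin 3, ∫ v, abar g i j v * (pd j (pd i φ) v * teh g v)) +
      2 * (∑ i : Fin 3, ∫ v, bbar g i v * (pd i φ v * teh g v)) +
      ∫ v, φ v * g v ^ 2 := by
  have hcl := hg.cls
  have hLs := nid_log_smooth hg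
  have hhs := teh_smooth hg
  have hφ1 : ∀ i, ContDiff ℝ (⊤ : ℕ∞) (pd i φ) := fun i => smooth_pd hφ i
  have hg1 : ∀ i, ContDiff ℝ (⊤ : ℕ∞) (pd i g) := fun i => smooth_pd hcl.smooth i
  have hgm : ∀ i, ContDiff ℝ (⊤ : ℕ∞) (gam i g) := fun i => gam_smooth hg i
  have hcφ : ∀ i, HasCompactSupport (pd i φ) := fun i => compact_pd hc i
  set ζ : V → ℝ := fun v => φ v * Real.log (g v) with hζ
  have hζs : ContDiff ℝ (⊤ : ℕ∞) ζ := hφ.mul hLs
  have hζc : HasCompactSupport ζ := hc.mul_right
  have hQ := QL_weakW g hcl ζ (contDiff_one_of_smooth hζs) hζc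
  have hζQ : ∫ v, ζ v * QL g v = ∫ v, φ v * (Real.log (g v) * QL g v) := by
    refine integral_congr_ae (Eventually.of_forall fun v => ?_)
    simp only [hζ]
    ring
  have hpdζ : ∀ i v, pd i ζ v = φ v * gam i g v + pd i φ v * Real.log (g v) := by
    intro i v
    rw [hζ, pd_mul (differentiable_of_smooth hφ v) (differentiable_of_smooth hLs v) i,
      nid_pd_log hg]
  -- integrability
  have J1 : ∀ i j, Integrable (fun v => abar g i j v * (φ v * g v * gam i g v * gam j g v)) :=
    fun i j => ww_int_a g hcl i j _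
      (((hφ.mul hcl.smooth).mul (hgm i)).mul (hgm j)).continuous hc.mul_right.mul_right.mul_right
  have J2 : ∀ i j, Integrable (fun v => abar g i j v * (pd i φ v * pd j (teh g) v)) :=
    fun i j => ww_int_a g hcl i j _
      ((hφ1 i).mul (smooth_pd hhs j)).continuous (hcφ i).mul_right
  have J3 : ∀ i j, Integrable (fun v => abar g i j v * (pd j (pd i φ) v * teh g v)) :=
    fun i j => ww_int_a g hcl i j _
      ((smooth_pd (hφ1 i) j).mul hhs).continuous (compact_pd (hcφ i) j).mul_right
  have J4 : ∀ i, Integrable (fun v => bbar g i v * (φ v * pd i g v)) :=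
    fun i => ww_int_b g hcl i _ (hφ.mul (hg1 i)).continuous hc.mul_right
  have J5 : ∀ i, Integrable (fun v => bbar g i v * (pd i φ v * teh g v)) :=
    fun i => ww_int_b g hcl i _ ((hφ1 i).mul hhs).continuous (hcφ i).mul_right
  have J6 : ∀ i, Integrable (fun v => bbar g i v * (pd i φ v * g v)) :=
    fun i => ww_int_b g hcl i _ ((hφ1 i).mul hcl.smooth).continuous (hcφ i).mul_right
  -- first family
  have E1 : ∀ i j, ∫ v, abar g i j v * (pd i ζ v * pd j g v) =
      (∫ v, abar g i j v * (φ v * g v * gam i g v * gam j g v)) +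
        ∫ v, abar g i j v * (pd i φ v * pd j (teh g) v) := by
    intro i j
    rw [← integral_add (J1 i j) (J2 i j)]
    refine integral_congr_ae (Eventually.of_forall fun v => ?_)
    simp only []
    rw [hpdζ, teh_pd hg]
    have h0 := (hg.pos v).ne'
    have hgj : pd j g v = g v * gam j g v := by
      unfold gam
      field_simp
    rw [hgj]
    ring
  have E2 : ∀ i, ∫ v, bbar g i v * (g v * pd i ζ v) =
      (∫ v, bbar g i v * (φ v * pd i g v)) + (∫ v, bbar g i v * (pd i φ v * teh g v)) +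
        ∫ v, bbar g i v * (pd i φ v * g v) := by
    intro i
    have h45 : Integrable (fun v => bbar g i v * (φ v * pd i g v) +
        bbar g i v * (pd i φ v * teh g v)) := (J4 i).add (J5 i)
    rw [← integral_add (J4 i) (J5 i), ← integral_add h45 (J6 i)]
    refine integral_congr_ae (Eventually.of_forall fun v => ?_)
    simp only []
    rw [hpdζ]
    unfold teh
    have h0 := (hg.pos v).ne'
    have hgj : pd i g v = g v * gam i g v := by
      unfold gam
      field_simp
    rw [hgj]
    ring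
  have E3 : ∀ i, (∑ j : Fin 3, ∫ v, abar g i j v * (pd i φ v * pd j (teh g) v)) =
      -(∫ v, bbar g i v * (pd i φ v * teh g v)) -
        ∑ j : Fin 3, ∫ v, abar g i j v * (pd j (pd i φ) v * teh g v) := by
    intro i
    have h := bar_ibp_aW g hcl.cont.aestronglyMeasurable hcl.int (fun v => pd i φ v * teh g v)
      (contDiff_one_of_smooth ((hφ1 i).mul hhs)) (hcφ i).mul_right i
    have h2 : ∀ j : Fin 3, ∫ v, abar g i j v * pd j (fun v => pd i φ v * teh g v) v =
        (∫ v, abar g i j v * (pd i φ v * pd j (teh g) v)) +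
          ∫ v, abar g i j v * (pd j (pd i φ) v * teh g v) := by
      intro j
      rw [← integral_add (J2 i j) (J3 i j)]
      refine integral_congr_ae (Eventually.of_forall fun v => ?_)
      simp only []
      rw [pd_mul (differentiable_of_smooth (hφ1 i) v) (differentiable_of_smooth hhs v) j]
      ring
    rw [Finset.sum_congr rfl fun j _ => h2 j, Finset.sum_add_distrib] at h
    linarith
  have E4 : (∑ i : Fin 3, ∫ v, bbar g i v * (φ v * pd i g v)) =
      (∫ v, φ v * g v ^ 2) - ∑ i : Fin 3, ∫ v, bbar g i v * (pd i φ v * g v) := by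
    have h := bar_ibp_bW g hcl.cont.aestronglyMeasurable hcl.int (fun v => φ v * g v)
      (contDiff_one_of_smooth (hφ.mul hcl.smooth)) hc.mul_right
    have h2 : ∀ j : Fin 3, ∫ v, bbar g j v * pd j (fun v => φ v * g v) v =
        (∫ v, bbar g j v * (φ v * pd j g v)) + ∫ v, bbar g j v * (pd j φ v * g v) := by
      intro j
      rw [← integral_add (J4 j) (J6 j)]
      refine integral_congr_ae (Eventually.of_forall fun v => ?_)
      simp only []
      rw [pd_mul (differentiable_of_smooth hφ v) (differentiable_of_smooth hcl.smooth v) j]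
      ring
    rw [Finset.sum_congr rfl fun j _ => h2 j, Finset.sum_add_distrib] at h
    have h3 : ∫ v, g v * (φ v * g v) = ∫ v, φ v * g v ^ 2 := by
      refine integral_congr_ae (Eventually.of_forall fun v => ?_)
      simp only []
      ring
    linarith
  have E5 : (∑ i : Fin 3, ∑ j : Fin 3, ∫ v, abar g i j v * (pd i ζ v * pd j g v)) =
      (∑ i : Fin 3, ∑ j : Fin 3, ∫ v, abar g i j v * (φ v * g v * gam i g v * gam j g v)) +
      (-(∑ i : Fin 3, ∫ v, bbar g i v * (pd i φ v * teh g v)) -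
        ∑ i : Fin 3, ∑ j : Fin 3, ∫ v, abar g i j v * (pd j (pd i φ) v * teh g v)) := by
    rw [Finset.sum_congr rfl fun i _ => Finset.sum_congr rfl fun j _ => E1 i j]
    rw [Finset.sum_congr rfl fun i _ => Finset.sum_add_distrib, Finset.sum_add_distrib]
    rw [Finset.sum_congr rfl fun i _ => E3 i, Finset.sum_sub_distrib, Finset.sum_neg_distrib]
  have E6 : (∑ i : Fin 3, ∫ v, bbar g i v * (g v * pd i ζ v)) =
      (∫ v, φ v * g v ^ 2) + ∑ i : Fin 3, ∫ v, bbar g i v * (pd i φ v * teh g v) := by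
    rw [Finset.sum_congr rfl fun i _ => E2 i, Finset.sum_add_distrib, Finset.sum_add_distrib, E4]
    ring
  rw [hζQ, E5, E6] at hQ
  linarith

/-! ### continuity in time -/

private theorem te_Kw_cont (f : ℝ → V → ℝ) (hf : SolW f) :
    ContinuousOn (fun t => Kw (f t)) (Iic 0) := by
  obtain ⟨C, hC, hlip⟩ := Kw_lip
  have hI : ∀ a : ℝ, ContinuousOn (fun t => Kw (f t)) (Icc a 0) := by
    intro a
    obtain ⟨B, hB⟩ := Kw_bdd f hf a
    have h0 : ∀ x ∈ Icc a 0, ∀ y ∈ Icc a 0,
        |Kw (f x) - Kw (f y)| ≤ |C * ((1 + B) * (1 + Real.log (1 + B)))| * |x - y| := by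
      intro x hx y hy
      rcases le_total x y with hxy | hxy
      · have h := hlip f hf x y B hxy hy.2 (fun τ hτ => hB τ ⟨hx.1.trans hτ.1, hτ.2.trans hy.2⟩)
        rw [abs_sub_comm, abs_sub_comm x y, abs_of_nonneg (sub_nonneg.2 hxy)]
        exact h.trans (mul_le_mul_of_nonneg_right (le_abs_self _) (sub_nonneg.2 hxy))
      · have h := hlip f hf y x B hxy hx.2 (fun τ hτ => hB τ ⟨hy.1.trans hτ.1, hτ.2.trans hx.2⟩)
        rw [abs_of_nonneg (sub_nonneg.2 hxy)]
        exact h.trans (mul_le_mul_of_nonneg_right (le_abs_self _) (sub_nonneg.2 hxy))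
    have hL : LipschitzOnWith (Real.toNNReal |C * ((1 + B) * (1 + Real.log (1 + B)))|)
        (fun t => Kw (f t)) (Icc a 0) := by
      refine LipschitzOnWith.of_dist_le_mul fun x hx y hy => ?_
      rw [Real.dist_eq, Real.dist_eq, Real.coe_toNNReal _ (abs_nonneg _)]
      exact h0 x hx y hy
    exact hL.continuousOn
  intro t ht
  have h1 := hI (t - 1) t ⟨by linarith, ht⟩
  refine h1.mono_of_mem_nhdsWithin ?_
  have h2 : Ici (t - 1) ∈ 𝓝 t := Ici_mem_nhds (by linarith)
  have h3 := inter_mem_nhdsWithin (Iic (0 : ℝ)) h2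
  refine mem_of_superset h3 ?_
  rintro x ⟨hx1, hx2⟩
  exact ⟨hx2, hx1⟩

private theorem te_ptw (f : ℝ → V → ℝ) (hf : SolW f) {t0 : ℝ} (ht0 : t0 ≤ 0) (w : V) :
    Tendsto (fun t => f t w) (𝓝[Iic 0] t0) (𝓝 (f t0 w)) := by
  have h1 : ContinuousOn (fun t : ℝ => ((t, w) : ℝ × V)) (Iic (0 : ℝ)) := by fun_prop
  have h2 : ContinuousOn (fun t : ℝ => f t w) (Iic (0 : ℝ)) :=
    hf.cont.comp h1 (fun t ht => ⟨ht, mem_univ _⟩)
  exact h2 t0 ht0

private theorem te_schef (f : ℝ → V → ℝ) (hf : SolW f) {t0 : ℝ} (ht0 : t0 ≤ 0) :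
    Tendsto (fun t => ∫ w, |f t w - f t0 w| / ang w) (𝓝[Iic 0] t0) (𝓝 0) := by
  have h1 : Tendsto (fun t => Kw (f t) - Kw (f t0)) (𝓝[Iic 0] t0) (𝓝 0) := by
    have h := (te_Kw_cont f hf t0 ht0).tendsto.sub_const (Kw (f t0))
    rwa [sub_self] at h
  have h2 : Tendsto (fun t => ∫ w, max (f t0 w - f t w) 0 / ang w) (𝓝[Iic 0] t0) (𝓝 0) := by
    have h := tendsto_integral_filter_of_dominated_convergence (μ := (volume : Measure V))
      (F := fun t w => max (f t0 w - f t w) 0 / ang w) (f := fun _ : V => (0 : ℝ))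
      (l := 𝓝[Iic 0] t0) (fun w => f t0 w / ang w) ?_ ?_ (hf.cls t0 ht0).int ?_
    · simpa using h
    · filter_upwards [self_mem_nhdsWithin] with t ht
      exact ((((hf.cls t0 ht0).cont.sub (hf.cls t ht).cont).max continuous_const).div
        continuous_ang (fun w => (ang_pos w).ne')).aestronglyMeasurable
    · filter_upwards [self_mem_nhdsWithin] with t ht
      refine Eventually.of_forall fun w => ?_
      have ha := ang_pos w
      have h3 := (hf.cls t ht).nonneg w
      have h4 := (hf.cls t0 ht0).nonneg w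
      rw [Real.norm_eq_abs, abs_of_nonneg (div_nonneg (le_max_right _ _) ha.le)]
      refine div_le_div_of_nonneg_right (max_le ?_ h4) ha.le
      linarith
    · refine Eventually.of_forall fun w => ?_
      have h3 := te_ptw f hf ht0 w
      have h4 : Tendsto (fun t => max (f t0 w - f t w) 0 / ang w) (𝓝[Iic 0] t0)
          (𝓝 (max (f t0 w - f t0 w) 0 / ang w)) :=
        ((h3.const_sub _).max tendsto_const_nhds).div_const _
      simpa using h4
  have h3 := h1.add (h2.const_mul 2)
  rw [mul_zero, add_zero] at h3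
  refine h3.congr' ?_
  filter_upwards [self_mem_nhdsWithin] with t ht
  have i1 := (hf.cls t ht).int
  have i0 := (hf.cls t0 ht0).int
  have i2 : Integrable (fun w => max (f t0 w - f t w) 0 / ang w) := by
    refine i0.mono' ?_ (Eventually.of_forall fun w => ?_)
    · exact ((((hf.cls t0 ht0).cont.sub (hf.cls t ht).cont).max continuous_const).div
        continuous_ang (fun w => (ang_pos w).ne')).aestronglyMeasurable
    · have ha := ang_pos w
      have h3 := (hf.cls t ht).nonneg w
      have h4 := (hf.cls t0 ht0).nonneg w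
      rw [Real.norm_eq_abs, abs_of_nonneg (div_nonneg (le_max_right _ _) ha.le)]
      refine div_le_div_of_nonneg_right (max_le ?_ h4) ha.le
      linarith
  unfold Kw
  have i10 : Integrable (fun w => f t w / ang w - f t0 w / ang w) := i1.sub i0
  rw [← integral_sub i1 i0, ← integral_const_mul, ← integral_add i10 (i2.const_mul 2)]
  refine integral_congr_ae (Eventually.of_forall fun w => ?_)
  have key : ∀ x y : ℝ, x - y + 2 * max (y - x) 0 = |x - y| := by
    intro x y
    rcases le_total x y with h | h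
    · rw [max_eq_left (by linarith), abs_of_nonpos (by linarith)]
      ring
    · rw [max_eq_right (by linarith), abs_of_nonneg (by linarith)]
      ring
  have ha := (ang_pos w).ne'
  simp only []
  rw [← key (f t w) (f t0 w)]
  field_simp

private theorem te_pot (f : ℝ → V → ℝ) (hf : SolW f) {t0 : ℝ} (ht0 : t0 ≤ 0) (v : V) :
    Tendsto (fun t => ∫ w, |f t w - f t0 w| / ‖v - w‖) (𝓝[Iic 0] t0) (𝓝 0) := by
  set J : V → ℝ := fun w => (Metric.closedBall v 1).indicator (fun _ => (1 : ℝ)) w / ‖w - v‖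
    with hJ
  have hJi : Integrable J := by
    refine (integrable_inv ((Metric.closedBall v 1).indicator (fun _ => (1 : ℝ))) ?_ 1 ?_ v).1
    · rw [integrable_indicator_iff Metric.isClosed_closedBall.measurableSet]
      exact integrableOn_const (hs := measure_closedBall_lt_top.ne)
    · intro w
      by_cases hw : w ∈ Metric.closedBall v 1
      · rw [indicator_of_mem hw, abs_one]
      · rw [indicator_of_notMem hw, abs_zero]
        exact zero_le_one
  have hJ0 : ∀ w, 0 ≤ J w := by
    intro w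
    exact div_nonneg (indicator_nonneg (fun _ _ => zero_le_one) w) (norm_nonneg _)
  have hd1 : ∀ t ≤ (0 : ℝ), ∀ w, |f t w - f t0 w| ≤ 1 := by
    intro t ht w
    have h1 := (hf.cls t ht).nonneg w
    have h2 := (hf.cls t ht).le_one w
    have h3 := (hf.cls t0 ht0).nonneg w
    have h4 := (hf.cls t0 ht0).le_one w
    rw [abs_le]
    constructor <;> linarith
  have hN : Tendsto (fun t => ∫ w, |f t w - f t0 w| * J w) (𝓝[Iic 0] t0) (𝓝 0) := by
    have h := tendsto_integral_filter_of_dominated_convergence (μ := (volume : Measure V))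
      (F := fun t w => |f t w - f t0 w| * J w) (f := fun _ : V => (0 : ℝ))
      (l := 𝓝[Iic 0] t0) J ?_ ?_ hJi ?_
    · simpa using h
    · filter_upwards [self_mem_nhdsWithin] with t ht
      exact ((hf.cls t ht).cont.sub (hf.cls t0 ht0).cont).abs.aestronglyMeasurable.mul
        hJi.aestronglyMeasurable
    · filter_upwards [self_mem_nhdsWithin] with t ht
      refine Eventually.of_forall fun w => ?_
      rw [Real.norm_eq_abs, abs_of_nonneg (mul_nonneg (abs_nonneg _) (hJ0 w))]
      exact mul_le_of_le_one_left (hJ0 w) (hd1 t ht w)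
    · refine Eventually.of_forall fun w => ?_
      have h3 := te_ptw f hf ht0 w
      have h4 : Tendsto (fun t => |f t w - f t0 w| * J w) (𝓝[Iic 0] t0)
          (𝓝 (|f t0 w - f t0 w| * J w)) := (h3.sub_const _).abs.mul_const _
      simpa using h4
  have hS := (te_schef f hf ht0).const_mul (1 + ang v)
  have hsum := hN.add hS
  rw [mul_zero, add_zero] at hsum
  refine squeeze_zero' (Eventually.of_forall fun t => integral_nonneg fun w =>
    div_nonneg (abs_nonneg _) (norm_nonneg _)) ?_ hsum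
  filter_upwards [self_mem_nhdsWithin] with t ht
  have i1 := (hf.cls t ht).int
  have i0 := (hf.cls t0 ht0).int
  have ia : Integrable (fun w => |f t w - f t0 w| * J w) := by
    refine hJi.mono' (((hf.cls t ht).cont.sub (hf.cls t0 ht0).cont).abs.aestronglyMeasurable.mul
        hJi.aestronglyMeasurable) (Eventually.of_forall fun w => ?_)
    rw [Real.norm_eq_abs, abs_of_nonneg (mul_nonneg (abs_nonneg _) (hJ0 w))]
    exact mul_le_of_le_one_left (hJ0 w) (hd1 t ht w)
  have ib : Integrable (fun w => |f t w - f t0 w| / ang w) := by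
    refine (i1.add i0).mono' ?_ (Eventually.of_forall fun w => ?_)
    · exact (((hf.cls t ht).cont.sub (hf.cls t0 ht0).cont).abs.div continuous_ang
        (fun w => (ang_pos w).ne')).aestronglyMeasurable
    · have ha := ang_pos w
      have h3 := (hf.cls t ht).nonneg w
      have h4 := (hf.cls t0 ht0).nonneg w
      rw [Real.norm_eq_abs, abs_of_nonneg (div_nonneg (abs_nonneg _) ha.le)]
      show _ ≤ f t w / ang w + f t0 w / ang w
      rw [← add_div]
      refine div_le_div_of_nonneg_right ?_ ha.le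
      rw [abs_le]
      constructor <;> linarith
  rw [← integral_const_mul, ← integral_add ia (ib.const_mul _)]
  refine integral_mono_of_nonneg (Eventually.of_forall fun w =>
    div_nonneg (abs_nonneg _) (norm_nonneg _)) (ia.add (ib.const_mul _))
    (Eventually.of_forall fun w => ?_)
  show |f t w - f t0 w| / ‖v - w‖ ≤ |f t w - f t0 w| * J w +
    (1 + ang v) * (|f t w - f t0 w| / ang w)
  have hd := abs_nonneg (f t w - f t0 w)
  have ha := ang_pos w
  have hav := ang_pos v
  by_cases hw : w ∈ Metric.closedBall v 1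
  · have hJw : J w = 1 / ‖v - w‖ := by
      rw [hJ]
      simp only []
      rw [indicator_of_mem hw, norm_sub_rev]
    rw [hJw, mul_one_div]
    have : 0 ≤ (1 + ang v) * (|f t w - f t0 w| / ang w) := by positivity
    linarith
  · have hw1 : 1 < ‖v - w‖ := by
      rw [mem_closedBall_iff_norm, norm_sub_rev] at hw
      push Not at hw
      exact hw
    have h5 : ang w ≤ (1 + ang v) * ‖v - w‖ := by
      have h6 := ang_lip w v
      rw [norm_sub_rev] at h6
      nlinarith
    have h7 : 0 ≤ |f t w - f t0 w| * J w := mul_nonneg hd (hJ0 w)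
    have h8 : |f t w - f t0 w| / ‖v - w‖ ≤ (1 + ang v) * (|f t w - f t0 w| / ang w) := by
      rw [← mul_div_assoc, div_le_div_iff₀ (by linarith) ha]
      nlinarith [mul_le_mul_of_nonneg_left h5 hd]
    linarith

private theorem te_abar_cont (f : ℝ → V → ℝ) (hf : SolW f) {t0 : ℝ} (ht0 : t0 ≤ 0) (i j : Fin 3)
    (v : V) : Tendsto (fun t => abar (f t) i j v) (𝓝[Iic 0] t0) (𝓝 (abar (f t0) i j v)) := by
  rw [tendsto_iff_norm_sub_tendsto_zero]
  refine squeeze_zero' (Eventually.of_forall fun t => norm_nonneg _) ?_ (te_pot f hf ht0 v)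
  filter_upwards [self_mem_nhdsWithin] with t ht
  have h1 := (kernel_intW (f t) (hf.cls t ht).cont.aestronglyMeasurable (hf.cls t ht).int 1
    (fun w => (hf.cls t ht).abs_le_one w) i j v).1
  have h0 := (kernel_intW (f t0) (hf.cls t0 ht0).cont.aestronglyMeasurable (hf.cls t0 ht0).int 1
    (fun w => (hf.cls t0 ht0).abs_le_one w) i j v).1
  have p1 := pot_int (f t) (hf.cls t ht) v
  have p0 := pot_int (f t0) (hf.cls t0 ht0) v
  have ib : Integrable (fun w => |f t w - f t0 w| / ‖v - w‖) := by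
    have h2 := (p1.sub p0).norm
    refine h2.congr (Eventually.of_forall fun w => ?_)
    show ‖f t w / ‖v - w‖ - f t0 w / ‖v - w‖‖ = _
    rw [← sub_div, norm_div, norm_norm, Real.norm_eq_abs]
  unfold abar
  rw [← integral_sub h1 h0]
  refine norm_integral_le_of_norm_le ib (Eventually.of_forall fun w => ?_)
  rw [← mul_sub, norm_mul, Real.norm_eq_abs, Real.norm_eq_abs, div_eq_mul_one_div, mul_comm]
  exact mul_le_mul_of_nonneg_left (aK_abs i j _) (abs_nonneg _)

private theorem te_abar_le {g : V → ℝ} (hg : Clw g) (i j : Fin 3) (v : V) {B ρ : ℝ}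
    (hB : Kw g ≤ B) (hρ : ‖v‖ ≤ ρ) :
    |abar g i j v| ≤ 10 * (1 + B) + 3 * (1 + ρ) * Real.sqrt (1 + B) := by
  have hK := hg.Kw_nonneg
  have h1 : |abar g i j v| ≤ ∫ w, g w / ‖v - w‖ := by
    rw [← Real.norm_eq_abs]
    unfold abar
    refine norm_integral_le_of_norm_le (pot_int g hg v) (Eventually.of_forall fun w => ?_)
    rw [norm_mul, Real.norm_eq_abs, Real.norm_eq_abs, div_eq_mul_one_div, mul_comm,
      abs_of_nonneg (hg.nonneg w)]
    exact mul_le_mul_of_nonneg_left (aK_abs i j _) (hg.nonneg w)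
  have h2 := WRateAux.pot_le hg v
  have h3 : Real.sqrt (1 + Kw g) ≤ Real.sqrt (1 + B) := Real.sqrt_le_sqrt (by linarith)
  have h4 : ang v ≤ 1 + ρ := (ang_le v).trans (by linarith)
  have h5 : 3 * ang v * Real.sqrt (1 + Kw g) ≤ 3 * (1 + ρ) * Real.sqrt (1 + B) := by
    have hav := ang_pos v
    have hs := Real.sqrt_nonneg (1 + Kw g)
    have : 0 ≤ 3 * (1 + ρ) := by linarith
    exact mul_le_mul (by linarith) h3 hs this
  linarith

private theorem te_T_cont (f : ℝ → V → ℝ) (hf : SolW f) (i j : Fin 3) (G : ℝ → V → ℝ)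
    (hG : ContinuousOn (fun p : ℝ × V => G p.1 p.2) (Iio (0 : ℝ) ×ˢ univ)) (ρ : ℝ)
    (hGs : ∀ t v, ρ < ‖v‖ → G t v = 0) :
    ContinuousOn (fun t => ∫ v, abar (f t) i j v * G t v) (Iio (0 : ℝ)) := by
  intro t0 ht0
  have ht0' : t0 < 0 := ht0
  obtain ⟨B, hB⟩ := Kw_bdd f hf (t0 - 1)
  have hsub : Icc (t0 - 1) (t0 / 2) ×ˢ Metric.closedBall (0 : V) ρ ⊆
      Iio (0 : ℝ) ×ˢ (univ : Set V) := by
    rintro ⟨s, v⟩ ⟨hs, _⟩
    refine ⟨?_, mem_univ _⟩
    have : s ≤ t0 / 2 := hs.2
    show s < 0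
    linarith
  have hcomp : IsCompact (Icc (t0 - 1) (t0 / 2) ×ˢ Metric.closedBall (0 : V) ρ) :=
    isCompact_Icc.prod (isCompact_closedBall _ _)
  obtain ⟨M, hM⟩ := hcomp.exists_bound_of_continuousOn (hG.mono hsub)
  have hnhds : Icc (t0 - 1) (t0 / 2) ∈ 𝓝[Iio 0] t0 :=
    mem_nhdsWithin_of_mem_nhds (Icc_mem_nhds (by linarith) (by linarith))
  have hneg : ∀ s ∈ Icc (t0 - 1) (t0 / 2), s < 0 := by
    intro s hs
    have : s ≤ t0 / 2 := hs.2
    linarith
  have hGc : ∀ t < 0, Continuous (G t) := fun t ht => td_slice hG ht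
  have hGcs : ∀ t, HasCompactSupport (G t) := fun t =>
    HasCompactSupport.intro (isCompact_closedBall (0 : V) ρ) (fun v hv => hGs t v (by
      rw [mem_closedBall_zero_iff] at hv
      push Not at hv
      exact hv))
  set M1 : ℝ := 10 * (1 + B) + 3 * (1 + ρ) * Real.sqrt (1 + B) with hM1
  refine tendsto_integral_filter_of_dominated_convergence (μ := (volume : Measure V))
    ((Metric.closedBall (0 : V) ρ).indicator (fun _ => M1 * M)) ?_ ?_ ?_ ?_
  · filter_upwards [hnhds] with t ht
    exact (ww_int_a (f t) (hf.cls t (hneg t ht).le) i j (G t) (hGc t (hneg t ht))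
      (hGcs t)).aestronglyMeasurable
  · filter_upwards [hnhds] with t ht
    refine Eventually.of_forall fun v => ?_
    by_cases hv : v ∈ Metric.closedBall (0 : V) ρ
    · rw [indicator_of_mem hv, norm_mul]
      have hv' : ‖v‖ ≤ ρ := by rwa [mem_closedBall_zero_iff] at hv
      have h1 := te_abar_le (hf.cls t (hneg t ht).le) i j v
        (hB t ⟨ht.1, (hneg t ht).le⟩) hv'
      have h2 := hM (t, v) ⟨ht, hv⟩
      exact mul_le_mul h1 h2 (norm_nonneg _) ((abs_nonneg _).trans h1)
    · rw [indicator_of_notMem hv]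
      rw [mem_closedBall_zero_iff] at hv
      push Not at hv
      rw [hGs t v hv, mul_zero, norm_zero]
  · rw [integrable_indicator_iff Metric.isClosed_closedBall.measurableSet]
    exact integrableOn_const (hs := measure_closedBall_lt_top.ne)
  · refine Eventually.of_forall fun v => ?_
    have h1 := (te_abar_cont f hf ht0'.le i j v).mono_left
      (nhdsWithin_mono t0 (Iio_subset_Iic_self : Iio (0 : ℝ) ⊆ Iic 0))
    have h2 : ContinuousOn (fun t : ℝ => ((t, v) : ℝ × V)) (Iio (0 : ℝ)) := by fun_prop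
    have h3 : ContinuousOn (fun t : ℝ => G t v) (Iio (0 : ℝ)) :=
      hG.comp h2 (fun t ht => ⟨ht, mem_univ _⟩)
    exact h1.mul (h3 t0 ht0)

private theorem te_joint_f (f : ℝ → V → ℝ) (hf : SolW f) :
    ContinuousOn (fun p : ℝ × V => f p.1 p.2) (Iio (0 : ℝ) ×ˢ univ) :=
  hf.smooth.continuousOn

private theorem te_joint_pd (f : ℝ → V → ℝ) (hf : SolW f) (i : Fin 3) :
    ContinuousOn (fun p : ℝ × V => pd i (f p.1) p.2) (Iio (0 : ℝ) ×ˢ univ) := by
  have h0 : ContinuousOn (fderiv ℝ (fun p : ℝ × V => f p.1 p.2)) (Iio (0 : ℝ) ×ˢ univ) :=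
    hf.smooth.continuousOn_fderiv_of_isOpen joint_open (by exact_mod_cast le_top)
  have h := h0.clm_apply
    (continuousOn_const (c := ((0 : ℝ), (EuclideanSpace.single i (1 : ℝ) : V))))
  refine h.congr fun p hp => ?_
  have h1 : HasFDerivAt (fun p : ℝ × V => f p.1 p.2)
      (fderiv ℝ (fun p : ℝ × V => f p.1 p.2) p) p := by
    have h2 := hf.smooth.contDiffAt (joint_open.mem_nhds hp)
    exact (h2.differentiableAt (by simp)).hasFDerivAt
  obtain ⟨t, v⟩ := p
  have h2 : HasFDerivAt (f t) ((fderiv ℝ (fun p : ℝ × V => f p.1 p.2) (t, v)).comp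
      (ContinuousLinearMap.inr ℝ ℝ V)) v :=
    h1.comp v (hasFDerivAt_prodMk_right t v)
  simp only [pd]
  rw [h2.fderiv]
  simp

private theorem te_joint_gam (f : ℝ → V → ℝ) (hf : SolP f) (i : Fin 3) :
    ContinuousOn (fun p : ℝ × V => gam i (f p.1) p.2) (Iio (0 : ℝ) ×ˢ univ) := by
  unfold gam
  exact (te_joint_pd f hf.sol i).div (te_joint_f f hf.sol)
    (fun p hp => (hf.pos p.1 hp.1 p.2).ne')

/-- the dissipation as a sum -/
private theorem te_diss_eq {g φ : V → ℝ} (hg : Dn g) (hφ : Continuous φ)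
    (hc : HasCompactSupport φ) :
    ∫ v, φ v * g v * ∑ i : Fin 3, ∑ j : Fin 3, abar g i j v * gam i g v * gam j g v =
    ∑ i : Fin 3, ∑ j : Fin 3, ∫ v, abar g i j v * (φ v * g v * gam i g v * gam j g v) := by
  have hcl := hg.cls
  have J1 : ∀ i j, Integrable (fun v => abar g i j v * (φ v * g v * gam i g v * gam j g v)) :=
    fun i j => ww_int_a g hcl i j _
      (((hφ.mul hcl.cont).mul (gam_smooth hg i).continuous).mul (gam_smooth hg j).continuous)
      hc.mul_right.mul_right.mul_right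
  rw [← Finset.sum_congr rfl fun i _ => integral_finsetSum _ (fun j _ => J1 i j),
    ← integral_finsetSum _ (fun i _ => integrable_finsetSum _ fun j _ => J1 i j)]
  refine integral_congr_ae (Eventually.of_forall fun v => ?_)
  simp only []
  rw [Finset.mul_sum]
  refine Finset.sum_congr rfl fun i _ => ?_
  rw [Finset.mul_sum]
  refine Finset.sum_congr rfl fun j _ => ?_
  ring

/-- the dissipation is continuous in time (so the time integral is meaningful) -/
theorem ent_diss_cont (f : ℝ → V → ℝ) (hf : SolP f) :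
    ContinuousOn (fun t => ∫ v, chi 3 v * f t v *
      ∑ i : Fin 3, ∑ j : Fin 3, abar (f t) i j v * gam i (f t) v * gam j (f t) v) (Iio 0) := by
  have h : ContinuousOn (fun t => ∑ i : Fin 3, ∑ j : Fin 3, ∫ v, abar (f t) i j v *
      (chi 3 v * f t v * gam i (f t) v * gam j (f t) v)) (Iio 0) := by
    refine continuousOn_finsetSum _ fun i _ => continuousOn_finsetSum _ fun j _ => ?_
    refine te_T_cont f hf.sol i j
      (fun t v => chi 3 v * f t v * gam i (f t) v * gam j (f t) v) ?_ 6 ?_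
    · have hχ : ContinuousOn (fun p : ℝ × V => chi 3 p.2) (Iio (0 : ℝ) ×ˢ univ) :=
        ((chi_smooth 3).continuous.comp continuous_snd).continuousOn
      exact ((hχ.mul (te_joint_f f hf.sol)).mul (te_joint_gam f hf i)).mul
        (te_joint_gam f hf j)
    · intro t v hv
      rw [chi_zero (by norm_num) (by linarith)]
      ring
  refine h.congr fun t ht => ?_
  exact te_diss_eq (hf.dn ht) (chi_smooth 3).continuous (chi_compact (by norm_num))

theorem ent_loc : ∃ C : ℝ, 0 < C ∧ ∀ f : ℝ → V → ℝ, SolP f → ∀ a b A : ℝ, a ≤ b → b < 0 → 1 ≤ A →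
    (∀ t ∈ Icc a b, Kw (f t) ≤ A) →
    ∫ t in a..b, (∫ v, chi 3 v * f t v *
      ∑ i : Fin 3, ∑ j : Fin 3, abar (f t) i j v * gam i (f t) v * gam j (f t) v) ≤
      C * (1 + (b - a)) * A := by
  have hχ := chi_smooth 3
  have hχc : HasCompactSupport (chi 3) := chi_compact (by norm_num)
  -- constants
  have hA' : ∀ i j : Fin 3, ∃ C : ℝ, 0 ≤ C ∧ ∀ g : V → ℝ, Clw g → ∀ F : V → ℝ, Continuous F →
      HasCompactSupport F → (∀ v, |F v| ≤ |pd j (pd i (chi 3)) v|) →
      |∫ v, abar g i j v * F v| ≤ C * Kw g := fun i j =>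
    te_bd_a i j _ (smooth_pd (smooth_pd hχ i) j).continuous (compact_pd (compact_pd hχc i) j)
  have hB' : ∀ i : Fin 3, ∃ C : ℝ, 0 ≤ C ∧ ∀ g : V → ℝ, Clw g → ∀ F : V → ℝ, Continuous F →
      HasCompactSupport F → (∀ v, |F v| ≤ |pd i (chi 3) v|) →
      |∫ v, bbar g i v * F v| ≤ C * Kw g := fun i =>
    te_bd_b i _ (smooth_pd hχ i).continuous (compact_pd hχc i)
  choose Ca hCa0 hCa using hA'
  choose Cb hCb0 hCb using hB'
  set X : ℝ := ∫ v, chi 3 v with hX
  have hX0 : 0 ≤ X := integral_nonneg fun v => chi_nonneg 3 v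
  have hχi : Integrable (chi 3) := hχ.continuous.integrable_of_hasCompactSupport hχc
  set S : ℝ := (∑ i : Fin 3, ∑ j : Fin 3, Ca i j) + 2 * ∑ i : Fin 3, Cb i with hS
  have hS0 : 0 ≤ S := add_nonneg (Finset.sum_nonneg fun i _ => Finset.sum_nonneg fun j _ =>
    hCa0 i j) (mul_nonneg (by norm_num) (Finset.sum_nonneg fun i _ => hCb0 i))
  refine ⟨S + X + 1, by linarith, fun f hf a b A hab hb hA hK => ?_⟩
  -- the entropy
  set E : ℝ → ℝ := fun t => ∫ v, chi 3 v * teh (f t) v with hE
  have hEd : ∀ t < 0, HasDerivAt E (∫ v, chi 3 v * (Real.log (f t v) * QL (f t) v)) t := by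
    intro t ht
    refine td_gen (fun s v => teh (f s) v) (fun s v => Real.log (f s v) * QL (f s) v) (chi 3)
      hχ.continuous hχc t ht ?_ ?_ ?_
    · intro s hs
      exact (teh_smooth (hf.dn hs)).continuous
    · refine ContinuousOn.mul ?_ (timeW_joint f hf.sol)
      refine ContinuousOn.log (te_joint_f f hf.sol) ?_
      rintro ⟨s, v⟩ ⟨hs, _⟩
      exact (hf.pos s hs v).ne'
    · intro s hs v
      exact (te_beta (hf.pos s hs v)).comp s (hf.sol.pde s hs v)
  have hEb : ∀ t < 0, -X ≤ E t ∧ E t ≤ 0 := by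
    intro t ht
    have hi : Integrable (fun v => chi 3 v * teh (f t) v) :=
      (hχ.continuous.mul (teh_smooth (hf.dn ht)).continuous).integrable_of_hasCompactSupport
        hχc.mul_right
    constructor
    · rw [hX, ← integral_neg]
      refine integral_mono hχi.neg hi (fun v => ?_)
      have h1 := (teh_abs (hf.dn ht) v).2
      have h2 := chi_nonneg 3 v
      show -chi 3 v ≤ chi 3 v * teh (f t) v
      nlinarith
    · refine integral_nonpos fun v => ?_
      exact mul_nonpos_of_nonneg_of_nonpos (chi_nonneg 3 v) (teh_abs (hf.dn ht) v).1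
  -- the differential inequality
  have hD : ∀ t ∈ Icc a b, (∫ v, chi 3 v * f t v *
      ∑ i : Fin 3, ∑ j : Fin 3, abar (f t) i j v * gam i (f t) v * gam j (f t) v) ≤
      -(∫ v, chi 3 v * (Real.log (f t v) * QL (f t) v)) + (S + X) * A := by
    intro t ht
    have ht0 : t < 0 := ht.2.trans_lt hb
    have hg := hf.dn ht0
    have hcl := hg.cls
    have hKt := hK t ht
    have hK0 := hcl.Kw_nonneg
    rw [te_diss_eq hg hχ.continuous hχc, te_identity hg hχ hχc]
    have hh1 : ∀ v, |teh (f t) v| ≤ 1 := by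
      intro v
      have := teh_abs hg v
      rw [abs_le]
      constructor <;> linarith [this.1, this.2]
    have b1 : (∑ i : Fin 3, ∑ j : Fin 3, ∫ v, abar (f t) i j v *
        (pd j (pd i (chi 3)) v * teh (f t) v)) ≤ (∑ i : Fin 3, ∑ j : Fin 3, Ca i j) * A := by
      rw [Finset.sum_mul]
      refine Finset.sum_le_sum fun i _ => ?_
      rw [Finset.sum_mul]
      refine Finset.sum_le_sum fun j _ => ?_
      refine (le_abs_self _).trans ((hCa i j (f t) hcl _ ?_ ?_ ?_).trans ?_)
      · exact ((smooth_pd (smooth_pd hχ i) j).continuous).mul (teh_smooth hg).continuous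
      · exact (compact_pd (compact_pd hχc i) j).mul_right
      · intro v
        rw [abs_mul]
        exact mul_le_of_le_one_right (abs_nonneg _) (hh1 v)
      · exact mul_le_mul_of_nonneg_left hKt (hCa0 i j)
    have b2 : (∑ i : Fin 3, ∫ v, bbar (f t) i v *
        (pd i (chi 3) v * teh (f t) v)) ≤ (∑ i : Fin 3, Cb i) * A := by
      rw [Finset.sum_mul]
      refine Finset.sum_le_sum fun i _ => ?_
      refine (le_abs_self _).trans ((hCb i (f t) hcl _ ?_ ?_ ?_).trans ?_)
      · exact ((smooth_pd hχ i).continuous).mul (teh_smooth hg).continuous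
      · exact (compact_pd hχc i).mul_right
      · intro v
        rw [abs_mul]
        exact mul_le_of_le_one_right (abs_nonneg _) (hh1 v)
      · exact mul_le_mul_of_nonneg_left hKt (hCb0 i)
    have b3 : ∫ v, chi 3 v * f t v ^ 2 ≤ X := by
      rw [hX]
      refine integral_mono_of_nonneg (Eventually.of_forall fun v => ?_) hχi
        (Eventually.of_forall fun v => ?_)
      · exact mul_nonneg (chi_nonneg 3 v) (sq_nonneg _)
      · exact mul_le_of_le_one_right (chi_nonneg 3 v)
          (pow_le_one₀ (hcl.nonneg v) (hcl.le_one v))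
    have b4 : X ≤ X * A := le_mul_of_one_le_right hX0 hA
    have e : (S + X) * A = (∑ i : Fin 3, ∑ j : Fin 3, Ca i j) * A + 2 * ((∑ i : Fin 3, Cb i) * A)
        + X * A := by
      rw [hS]
      ring
    rw [e]
    linarith
  -- integration in time
  set Dd : ℝ → ℝ := fun t => ∫ v, chi 3 v * f t v *
      ∑ i : Fin 3, ∑ j : Fin 3, abar (f t) i j v * gam i (f t) v * gam j (f t) v with hDd
  have hsub : Icc a b ⊆ Iio (0 : ℝ) := fun t ht => ht.2.trans_lt hb
  have hDc : ContinuousOn Dd (Icc a b) := (ent_diss_cont f hf).mono hsub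
  have hEc : ContinuousOn (fun t => -E t) (Icc a b) := fun t ht =>
    (hEd t (hsub ht)).continuousAt.continuousWithinAt.neg
  have hmain := intervalIntegral.integral_le_sub_of_hasDeriv_right_of_le (g := fun t => -E t)
    (g' := fun t => -(∫ v, chi 3 v * (Real.log (f t v) * QL (f t) v)))
    (φ := fun t => Dd t - (S + X) * A) hab hEc
    (fun t ht => ((hEd t (hsub (Ioo_subset_Icc_self ht))).neg).hasDerivWithinAt)
    ((hDc.sub continuousOn_const).integrableOn_Icc)
    (fun t ht => by
      have := hD t (Ioo_subset_Icc_self ht)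
      linarith)
  rw [intervalIntegral.integral_sub (hDc.intervalIntegrable_of_Icc hab)
    (intervalIntegrable_const), intervalIntegral.integral_const, smul_eq_mul] at hmain
  have e1 := (hEb a (hsub (left_mem_Icc.2 hab))).2
  have e2 := (hEb b (hsub (right_mem_Icc.2 hab))).1
  have e3 : ∫ t in a..b, Dd t ≤ X + (b - a) * ((S + X) * A) := by
    linarith
  refine e3.trans ?_
  have h1 : 0 ≤ b - a := by linarith
  have h2 : X ≤ X * A := le_mul_of_one_le_right hX0 hA
  have h3 : (S + X + 1) * (1 + (b - a)) * A = X * A + (b - a) * ((S + X) * A) + (S + 1) * A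
      + (b - a) * A := by ring
  have h4 : 0 ≤ (S + 1) * A := by nlinarith
  have h5 : 0 ≤ (b - a) * A := by nlinarith
  linarith

end Pool.Agent.LandauF
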