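import Pool.Agent.LandauF.TJac
import Pool.Agent.LandauF.TEnt
import Pool.Agent.LandauF.TEll
import Pool.Agent.LandauG.WWeak

/-!
# LandauF, module FTopTime: time integrated Fisher bound

`ent_loc` and `ell_quant` (`chi 3 = 1` on `‖v‖ ≤ 3`, `≥ 0`, support in `‖v‖ ≤ 6`):
`c A⁻⁶ ∫_a^b JB (f t) 0 3 ≤ ∫_a^b ∫ χ f abar X X ≤ C (1 + b - a) A`, so `p = 7`.
-/

set_option autoImplicit false

namespace Pool.Agent.LandauF

open MeasureTheory Set Filter Topology Pool.Agent.Landau

private theorem fi_cont' {g : V → ℝ} (hg : Dn g) : Continuous (fi g) := by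
  have hc : Continuous g := hg.cls.smooth.continuous
  have h1 : ∀ i, Continuous (gam i g) := fun i =>
    (smooth_pd hg.cls.smooth i).continuous.div hc fun v => (hg.pos v).ne'
  unfold fi x2
  exact hc.mul (continuous_finsetSum _ fun i _ => (h1 i).pow 2)

private theorem fi_nonneg' {g : V → ℝ} (hg : Dn g) (v : V) : 0 ≤ fi g v :=
  mul_nonneg (hg.pos v).le (Finset.sum_nonneg fun _ _ => sq_nonneg _)

private theorem diss_int {g : V → ℝ} (hg : Dn g) : Integrable (fun v => chi 3 v * g v *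
    ∑ i : Fin 3, ∑ j : Fin 3, abar g i j v * gam i g v * gam j g v) := by
  have hc : Continuous g := hg.cls.smooth.continuous
  have h1 : ∀ i, Continuous (gam i g) := fun i =>
    (smooth_pd hg.cls.smooth i).continuous.div hc fun v => (hg.pos v).ne'
  have hchi : Continuous (chi 3) := (chi_smooth 3).continuous
  have h2 : ∀ i j : Fin 3, Integrable (fun v => abar g i j v *
      (chi 3 v * (g v * (gam i g v * gam j g v)))) := fun i j =>
    ww_int_a g hg.cls i j _ (hchi.mul (hc.mul ((h1 i).mul (h1 j))))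
      (HasCompactSupport.mul_right (chi_compact (by norm_num)))
  have h3 : Integrable (fun v => ∑ i : Fin 3, ∑ j : Fin 3, abar g i j v *
      (chi 3 v * (g v * (gam i g v * gam j g v)))) :=
    integrable_finsetSum _ fun i _ => integrable_finsetSum _ fun j _ => h2 i j
  refine h3.congr (Eventually.of_forall fun v => ?_)
  simp only []
  rw [Finset.mul_sum]
  refine Finset.sum_congr rfl fun i _ => ?_
  rw [Finset.mul_sum]
  refine Finset.sum_congr rfl fun j _ => ?_
  ring

private theorem JB_le_diss {c : ℝ} (hc : 0 < c) (hell : ∀ g : V → ℝ, Clw g → ∀ (A : ℝ) (v : V)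
    (ξ : Fin 3 → ℝ), 1 ≤ A → ‖v‖ ≤ 6 → c * mB g 0 A ^ 2 / A ^ 4 * (∑ i : Fin 3, ξ i ^ 2) ≤
      ∑ i : Fin 3, ∑ j : Fin 3, abar g i j v * ξ i * ξ j) {g : V → ℝ} (hg : Dn g) {A : ℝ}
    (hA : 1 ≤ A) (hm : 1 / A ≤ mB g 0 A) :
    JB g 0 3 ≤ A ^ 6 / c * ∫ v, chi 3 v * g v *
      ∑ i : Fin 3, ∑ j : Fin 3, abar g i j v * gam i g v * gam j g v := by
  have hA0 : 0 < A := by linarith
  have hpt : ∀ v, chi 3 v * fi g v ≤ A ^ 6 / c * (chi 3 v * g v *
      ∑ i : Fin 3, ∑ j : Fin 3, abar g i j v * gam i g v * gam j g v) := by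
    intro v
    by_cases hv : ‖v‖ ≤ 6
    · have h1 := hell g hg.cls A v (fun i => gam i g v) hA hv
      have hx : 0 ≤ x2 g v := Finset.sum_nonneg fun _ _ => sq_nonneg _
      have h2 : (1 / A) ^ 2 ≤ mB g 0 A ^ 2 := pow_le_pow_left₀ (by positivity) hm 2
      have h3 : c * (1 / A) ^ 2 / A ^ 4 * x2 g v ≤ c * mB g 0 A ^ 2 / A ^ 4 * x2 g v := by
        gcongr
      have h4 : c * (1 / A) ^ 2 / A ^ 4 = c / A ^ 6 := by
        field_simp
      rw [h4] at h3
      have h5 : c / A ^ 6 * x2 g v ≤ ∑ i : Fin 3, ∑ j : Fin 3, abar g i j v * gam i g v * gam j g v :=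
        h3.trans h1
      have h6 : x2 g v ≤ A ^ 6 / c *
          ∑ i : Fin 3, ∑ j : Fin 3, abar g i j v * gam i g v * gam j g v := by
        have h7 : x2 g v = A ^ 6 / c * (c / A ^ 6 * x2 g v) := by
          field_simp
        rw [h7]
        exact mul_le_mul_of_nonneg_left h5 (by positivity)
      have h8 : 0 ≤ chi 3 v * g v := mul_nonneg (chi_nonneg 3 v) (hg.pos v).le
      calc chi 3 v * fi g v = chi 3 v * g v * x2 g v := by unfold fi; ring
        _ ≤ chi 3 v * g v * (A ^ 6 / c *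
          ∑ i : Fin 3, ∑ j : Fin 3, abar g i j v * gam i g v * gam j g v) :=
            mul_le_mul_of_nonneg_left h6 h8
        _ = _ := by ring
    · have h1 : chi 3 v = 0 := chi_zero (by norm_num) (by linarith)
      rw [h1]
      simp
  have hchi : Continuous (chi 3) := (chi_smooth 3).continuous
  have hI1 : Integrable (fun v => chi 3 v * fi g v) :=
    (hchi.mul (fi_cont' hg)).integrable_of_hasCompactSupport
      (HasCompactSupport.mul_right (chi_compact (by norm_num)))
  have hI2 : Integrable (fun v => A ^ 6 / c * (chi 3 v * g v *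
      ∑ i : Fin 3, ∑ j : Fin 3, abar g i j v * gam i g v * gam j g v)) := (diss_int hg).const_mul _
  have h1 : JB g 0 3 = ∫ v in Metric.closedBall (0 : V) 3, chi 3 v * fi g v := by
    unfold JB
    refine setIntegral_congr_fun Metric.isClosed_closedBall.measurableSet (fun v hv => ?_)
    rw [chi_one (by norm_num) (mem_closedBall_zero_iff.1 hv), one_mul]
  rw [h1, ← integral_const_mul]
  exact (setIntegral_le_integral hI1 (Eventually.of_forall fun v =>
    mul_nonneg (chi_nonneg 3 v) (fi_nonneg' hg v))).trans (integral_mono hI1 hI2 hpt)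

/-- Time integrated bound of the local Fisher information, polynomial in the data. -/
theorem APF : ∃ C p : ℝ, 0 < C ∧ 0 < p ∧ ∀ f : ℝ → V → ℝ, SolP f → ∀ a b A : ℝ,
    a ≤ b → b < 0 → 1 ≤ A → (∀ t ∈ Icc a b, Kw (f t) ≤ A ∧ 1 / A ≤ mB (f t) 0 A) →
    ∫ t in a..b, JB (f t) 0 3 ≤ C * (1 + (b - a)) * A ^ p := by
  obtain ⟨C₁, hC₁, hent⟩ := ent_loc
  obtain ⟨c, hc, hell⟩ := ell_quant
  refine ⟨C₁ / c, 7, by positivity, by norm_num, ?_⟩
  intro f hf a b A hab hb hA hd
  have hsub : Icc a b ⊆ Iio 0 := fun t ht => lt_of_le_of_lt ht.2 hb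
  have hi1 : IntervalIntegrable (fun t => JB (f t) 0 3) volume a b :=
    ContinuousOn.intervalIntegrable (by rw [uIcc_of_le hab]; exact (JB_cont f hf 0 3).mono hsub)
  have hi2 : IntervalIntegrable (fun t => ∫ v, chi 3 v * f t v *
      ∑ i : Fin 3, ∑ j : Fin 3, abar (f t) i j v * gam i (f t) v * gam j (f t) v) volume a b :=
    ContinuousOn.intervalIntegrable (by rw [uIcc_of_le hab]; exact (ent_diss_cont f hf).mono hsub)
  have h1 := intervalIntegral.integral_mono_on hab hi1 (hi2.const_mul (A ^ 6 / c))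
    (fun t ht => JB_le_diss hc hell (hf.dn (hsub ht)) hA (hd t ht).2)
  rw [intervalIntegral.integral_const_mul] at h1
  have h2 := hent f hf a b A hab hb hA (fun t ht => (hd t ht).1)
  have hA0 : 0 < A := by linarith
  refine h1.trans ((mul_le_mul_of_nonneg_left h2 (by positivity)).trans (le_of_eq ?_))
  rw [Real.rpow_ofNat]
  field_simp

end Pool.Agent.LandauF
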