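import Pool.Agent.LandauF.HDil

/-!
# LandauF, module HDilSol: the dilation is a symmetry of the equation

`QL_dl`: `abar (dl R g) i j v = ∫ aK i j (v - w) g (R w) dw = R⁻³ ∫ aK i j (v - u/R) g u du` and
`aK i j (z / R) = R aK i j z` (homogeneous of degree `-1`), so `abar (dl R g) i j v = R⁻² abar g i j (R v)`;
the second derivatives of `dl R g` at `v` are `R²` times those of `g` at `R v`, and `(dl R g v)² = (g (R v))²`
(look at the definition of `QL`).
`dl_solP`: `cont`, `smooth` by composition with the linear map `(t, v) ↦ (t, R v)`, `cls` by `dl_clw`, `pde` by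
`QL_dl`, `pos` trivial.
-/

set_option autoImplicit false

namespace Pool.Agent.LandauF

open MeasureTheory Set Filter Topology Pool.Agent.Landau

/-- chain rule for the dilation -/
theorem pd_dl {g : V → ℝ} (hg : Differentiable ℝ g) (i : Fin 3) (R : ℝ) (v : V) :
    pd i (dl R g) v = R * pd i g (R • v) := by
  have h1 : HasFDerivAt (fun v : V => R • v) (R • ContinuousLinearMap.id ℝ V) v :=
    (hasFDerivAt_id v).const_smul R
  have h2 : HasFDerivAt (dl R g) ((fderiv ℝ g (R • v)).comp (R • ContinuousLinearMap.id ℝ V)) v :=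
    (hg (R • v)).hasFDerivAt.comp v h1
  unfold pd
  rw [h2.fderiv]
  simp

/-- the second derivatives of the dilated function -/
theorem pd_pd_dl {g : V → ℝ} (hg : ContDiff ℝ (⊤ : ℕ∞) g) (i j : Fin 3) (R : ℝ) (v : V) :
    pd i (pd j (dl R g)) v = R ^ 2 * pd i (pd j g) (R • v) := by
  have hd := differentiable_of_smooth hg
  have hd2 := differentiable_of_smooth (smooth_pd hg j)
  have e : pd j (dl R g) = fun v => R * dl R (pd j g) v := by
    funext v
    rw [pd_dl hd]
    rfl
  rw [e]
  have hd3 : DifferentiableAt ℝ (dl R (pd j g)) v :=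
    (hd2 (R • v)).comp v (differentiableAt_id.const_smul R)
  have gen : ∀ G : V → ℝ, DifferentiableAt ℝ G v → pd i (fun v => R * G v) v = R * pd i G v := by
    intro G hG
    unfold pd
    rw [fderiv_const_mul hG]
    simp
  have e2 : pd i (fun v => R * dl R (pd j g) v) v = R * pd i (dl R (pd j g)) v := gen _ hd3
  rw [e2, pd_dl hd2]
  ring

/-- homogeneity of the kernel -/
theorem aK_smul (i j : Fin 3) (z : V) {c : ℝ} (hc : 0 < c) : aK i j (c • z) = c⁻¹ * aK i j z := by
  unfold aK
  rw [norm_smul, Real.norm_of_nonneg hc.le]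
  simp only [PiLp.smul_apply, smul_eq_mul]
  by_cases hz : ‖z‖ = 0
  · have : z = 0 := norm_eq_zero.mp hz
    subst this
    simp
  · field_simp

/-- the dilated coefficients -/
theorem abar_dl (g : V → ℝ) (i j : Fin 3) (v : V) {R : ℝ} (hR : 0 < R) :
    abar (dl R g) i j v = abar g i j (R • v) / R ^ 2 := by
  have h := dl_int (fun u => aK i j (v - R⁻¹ • u) * g u) hR
  have h1 : ∀ w : V, aK i j (v - R⁻¹ • (R • w)) * g (R • w) = aK i j (v - w) * dl R g w := by
    intro w
    rw [smul_smul, inv_mul_cancel₀ hR.ne', one_smul]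
    rfl
  have h2 : ∀ u : V, aK i j (v - R⁻¹ • u) * g u = R * (aK i j (R • v - u) * g u) := by
    intro u
    have e : v - R⁻¹ • u = R⁻¹ • (R • v - u) := by
      rw [smul_sub, smul_smul, inv_mul_cancel₀ hR.ne', one_smul]
    rw [e, aK_smul i j _ (inv_pos.mpr hR), inv_inv]
    ring
  simp only [h1, h2] at h
  rw [integral_const_mul] at h
  unfold abar
  rw [h]
  field_simp

theorem QL_dl {g : V → ℝ} (hg : ContDiff ℝ (⊤ : ℕ∞) g) (v : V) {R : ℝ} (hR : 0 < R) :
    QL (dl R g) v = QL g (R • v) := by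
  unfold QL
  have e : ∀ i j : Fin 3, abar (dl R g) i j v * pd i (pd j (dl R g)) v =
      abar g i j (R • v) * pd i (pd j g) (R • v) := by
    intro i j
    rw [abar_dl g i j v hR, pd_pd_dl hg]
    field_simp
  simp only [e]
  rfl

theorem dl_solP {f : ℝ → V → ℝ} (hf : SolP f) {R : ℝ} (hR : 0 < R) :
    SolP (fun t => dl R (f t)) := by
  refine ⟨⟨?_, ?_, ?_, ?_⟩, ?_⟩
  · have h : ContinuousOn (fun p : ℝ × V => ((p.1, R • p.2) : ℝ × V)) (Iic (0 : ℝ) ×ˢ univ) :=
      (continuous_fst.prodMk (continuous_snd.const_smul R)).continuousOn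
    exact hf.sol.cont.comp h (fun p hp => ⟨hp.1, mem_univ _⟩)
  · have h : ContDiffOn ℝ (⊤ : ℕ∞) (fun p : ℝ × V => ((p.1, R • p.2) : ℝ × V))
        (Iio (0 : ℝ) ×ˢ univ) :=
      (contDiff_fst.prodMk (contDiff_snd.const_smul R)).contDiffOn
    exact hf.sol.smooth.comp h (fun p hp => ⟨hp.1, mem_univ _⟩)
  · intro t ht
    exact dl_clw (hf.sol.cls t ht) hR
  · intro t ht v
    rw [QL_dl (hf.sol.cls t ht.le).smooth v hR]
    exact hf.sol.pde t ht (R • v)
  · intro t ht v
    exact hf.pos t ht (R • v)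

end Pool.Agent.LandauF
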