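import Mathlib

/-!
# LandauF, module HOde: two Riccati type lemmas

`ode_low`.  Put `m t = μ + 2 λ h t`, `M t = ∫_a^t m`, `z t = exp (-M t) J t + ∫_t^b n`.  First, with
`x = max 0 (J - δ)`: `(max 0 (J - (δ + h)))² ≥ x² - 2 x h ≥ x² - 2 J h` (if `x ≥ h` since `(x - h)² ≥ x² - 2 x h`; if `x < h` the
right side is negative), so `J' ≤ -λ x² + m J + n`, hence
`z' = exp (-M) (J' - m J) - n ≤ -λ exp (-M) x² ≤ 0` (as `exp (-M) ≤ 1`, `n ≥ 0`).  So
`z t ≥ z b = exp (-M b) J b ≥ e^{-1/10} j0 ≥ 0.9 j0` on `[a, b]`, and `J ≥ z - ∫ n ≥ z - 0.1 j0 ≥ (8/9) z`,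
`x ≥ J - δ ≥ z - 0.2 j0 ≥ (7/9) z`.  So `z' ≤ -λ (0.9)(7/9)² z² ≤ -(λ/2) z²` and `(1/z)' ≥ λ/2`, so
`1/z b ≥ 1/z a + λ (b - a) / 2 ≥ λ (b - a)/2`; with `z b ≥ 0.9 j0`: `λ (b - a) j0 ≤ 2/0.9 ≤ 6`.

`ode_win`.  The same for a time dependent `λ`, with the integrating factor normalised at the right end:
`G t = exp (∫_t^b m)`, `m = μ` (continuous), `z t = g * (J t) * G t + e + 2 ∫_t^b n`, where `g ∈ [1, 2]`, `e ≥ 0`.
`z' = g G (J' - m J) - 2 n ≤ g G (-λ x² + n) - 2 n`; with `g G ≤ 2` on the window this is `≤ -g G λ x² ≤ -λ x²`.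
Hypotheses: `j0 ≤ z b` where `z b = g J b + e`; `e + 2 ∫ n ≤ j0/10`, `δ ≤ j0/10`, `g exp (∫_a^b μ) ≤ 11/10`.
On `[a, b]`: `z ≥ z b ≥ j0`, `J ≥ (z - j0/10)/(g G) ≥ (10/11)(9/10) z`, `x ≥ J - j0/10 ≥ (8/10 - 1/10) z ≥ z/2`; so
`z' ≤ -(λ/4) z²` and `(1/4) ∫_a^b λ ≤ 1/z b - 1/z a`.
-/

set_option autoImplicit false

namespace Pool.Agent.LandauF

open MeasureTheory Set Filter Topology

private theorem hode_left {a b : ℝ} {n : ℝ → ℝ} (hab : a ≤ b) (hn : ContinuousOn n (Icc a b)) :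
    ContinuousOn (fun t => ∫ x in t..b, n x) (Icc a b) ∧
    ∀ t ∈ Ioo a b, HasDerivAt (fun t => ∫ x in t..b, n x) (-n t) t := by
  constructor
  · have h1 : IntegrableOn n (uIcc a b) := by
      rw [uIcc_of_le hab]; exact hn.integrableOn_compact isCompact_Icc
    have h2 := intervalIntegral.continuousOn_primitive_interval_left (μ := volume) h1
    rwa [uIcc_of_le hab] at h2
  · intro t ht
    have h3 : IntervalIntegrable n volume t b := by
      apply ContinuousOn.intervalIntegrable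
      rw [uIcc_of_le ht.2.le]
      exact hn.mono (Icc_subset_Icc_left ht.1.le)
    have h4 : ContinuousAt n t := hn.continuousAt (Icc_mem_nhds ht.1 ht.2)
    have h5 : StronglyMeasurableAtFilter n (𝓝 t) volume :=
      (hn.mono Ioo_subset_Icc_self).stronglyMeasurableAtFilter isOpen_Ioo t ht
    exact intervalIntegral.integral_hasDerivAt_left h3 h5 h4

private theorem hode_right {a b : ℝ} {n : ℝ → ℝ} (hab : a ≤ b) (hn : ContinuousOn n (Icc a b)) :
    ContinuousOn (fun t => ∫ x in a..t, n x) (Icc a b) ∧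
    ∀ t ∈ Ioo a b, HasDerivAt (fun t => ∫ x in a..t, n x) (n t) t := by
  constructor
  · have h1 : IntegrableOn n (uIcc a b) := by
      rw [uIcc_of_le hab]; exact hn.integrableOn_compact isCompact_Icc
    have h2 := intervalIntegral.continuousOn_primitive_interval (μ := volume) h1
    rwa [uIcc_of_le hab] at h2
  · intro t ht
    have h3 : IntervalIntegrable n volume a t := by
      apply ContinuousOn.intervalIntegrable
      rw [uIcc_of_le ht.1.le]
      exact hn.mono (Icc_subset_Icc_right ht.2.le)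
    have h4 : ContinuousAt n t := hn.continuousAt (Icc_mem_nhds ht.1 ht.2)
    have h5 : StronglyMeasurableAtFilter n (𝓝 t) volume :=
      (hn.mono Ioo_subset_Icc_self).stronglyMeasurableAtFilter isOpen_Ioo t ht
    exact intervalIntegral.integral_hasDerivAt_right h3 h5 h4

private theorem hode_tail {a b t : ℝ} {n : ℝ → ℝ} (hn : ContinuousOn n (Icc a b))
    (hn0 : ∀ t ∈ Icc a b, 0 ≤ n t) (ht : t ∈ Icc a b) :
    0 ≤ ∫ x in t..b, n x ∧ ∫ x in t..b, n x ≤ ∫ x in a..b, n x := by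
  have i1 : IntervalIntegrable n volume a t := by
    apply ContinuousOn.intervalIntegrable
    rw [uIcc_of_le ht.1]
    exact hn.mono (Icc_subset_Icc_right ht.2)
  have i2 : IntervalIntegrable n volume t b := by
    apply ContinuousOn.intervalIntegrable
    rw [uIcc_of_le ht.2]
    exact hn.mono (Icc_subset_Icc_left ht.1)
  have h1 := intervalIntegral.integral_add_adjacent_intervals i1 i2
  have h2 : 0 ≤ ∫ x in a..t, n x :=
    intervalIntegral.integral_nonneg ht.1 fun x hx => hn0 x ⟨hx.1, hx.2.trans ht.2⟩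
  have h3 : 0 ≤ ∫ x in t..b, n x :=
    intervalIntegral.integral_nonneg ht.2 fun x hx => hn0 x ⟨ht.1.trans hx.1, hx.2⟩
  exact ⟨h3, by linarith⟩

private theorem hode_core (a b δ j0 g e c : ℝ) (J J' l m n : ℝ → ℝ) (hab : a ≤ b)
    (hj : 0 < j0) (hg : 1 ≤ g) (hc : 9 / 8 ≤ c) (hl : ContinuousOn l (Icc a b))
    (hm : ContinuousOn m (Icc a b)) (hn : ContinuousOn n (Icc a b))
    (hl0 : ∀ t ∈ Icc a b, 0 ≤ l t) (hm0 : ∀ t ∈ Icc a b, 0 ≤ m t)
    (hn0 : ∀ t ∈ Icc a b, 0 ≤ n t)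
    (hd : ∀ t ∈ Icc a b, HasDerivAt J (J' t) t)
    (hi : ∀ t ∈ Icc a b, J' t ≤ -(l t * (max 0 (J t - δ)) ^ 2) + m t * J t + n t)
    (h0 : j0 ≤ g * J b + e) (h1 : δ ≤ j0 / 10)
    (h2 : g * Real.exp (∫ t in a..b, m t) ≤ 9 / 8)
    (h3 : e + c * (∫ t in a..b, n t) ≤ j0 / 8) :
    0 < g * Real.exp (∫ t in a..b, m t) * J a + (e + c * ∫ t in a..b, n t) ∧
    g * J b + e ≤ g * Real.exp (∫ t in a..b, m t) * J a + (e + c * ∫ t in a..b, n t) ∧
    (1 / 4) * (∫ t in a..b, l t) ≤ 1 / (g * J b + e) -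
      1 / (g * Real.exp (∫ t in a..b, m t) * J a + (e + c * ∫ t in a..b, n t)) := by
  have ha' : a ∈ Icc a b := left_mem_Icc.2 hab
  have hb' : b ∈ Icc a b := right_mem_Icc.2 hab
  obtain ⟨cN, dN⟩ := hode_left hab hn
  obtain ⟨cM, dM⟩ := hode_left hab hm
  obtain ⟨cL, dL⟩ := hode_right hab hl
  have hJc : ContinuousOn J (Icc a b) := fun t ht => (hd t ht).continuousAt.continuousWithinAt
  obtain ⟨z, hz⟩ : ∃ z : ℝ → ℝ, z = fun t => g * Real.exp (∫ x in t..b, m x) * J t +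
      (e + c * ∫ x in t..b, n x) := ⟨_, rfl⟩
  have hza : z a = g * Real.exp (∫ t in a..b, m t) * J a + (e + c * ∫ t in a..b, n t) := by
    rw [hz]
  have hzb : z b = g * J b + e := by
    rw [hz]
    simp
  have hzc : ContinuousOn z (Icc a b) := by
    rw [hz]
    exact ((continuousOn_const.mul cM.rexp).mul hJc).add
      (continuousOn_const.add (continuousOn_const.mul cN))
  have hG : ∀ t ∈ Icc a b, 1 ≤ g * Real.exp (∫ x in t..b, m x) ∧
      g * Real.exp (∫ x in t..b, m x) ≤ 9 / 8 := by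
    intro t ht
    obtain ⟨m1, m2⟩ := hode_tail hm hm0 ht
    have e1 : 1 ≤ Real.exp (∫ x in t..b, m x) := Real.one_le_exp m1
    have e2 : Real.exp (∫ x in t..b, m x) ≤ Real.exp (∫ x in a..b, m x) := Real.exp_le_exp.2 m2
    constructor
    · nlinarith
    · refine le_trans (mul_le_mul_of_nonneg_left e2 (by linarith)) h2
  have hzd : ∀ t ∈ Ioo a b, HasDerivAt z (g * (Real.exp (∫ x in t..b, m x) * (-m t)) * J t +
      g * Real.exp (∫ x in t..b, m x) * J' t + c * (-n t)) t := by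
    intro t ht
    rw [hz]
    have d1 := ((dM t ht).exp.const_mul g).mul (hd t (Ioo_subset_Icc_self ht))
    have d2 := ((dN t ht).const_mul c).const_add e
    exact d1.add d2
  have hzd' : ∀ t ∈ Ioo a b, g * (Real.exp (∫ x in t..b, m x) * (-m t)) * J t +
      g * Real.exp (∫ x in t..b, m x) * J' t + c * (-n t) ≤ -(l t * (max 0 (J t - δ)) ^ 2) := by
    intro t ht
    have ht' := Ioo_subset_Icc_self ht
    obtain ⟨g1, g2⟩ := hG t ht'
    have j1 := hi t ht'
    have j2 := hl0 t ht'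
    have j3 := hn0 t ht'
    have j4 : 0 ≤ l t * (max 0 (J t - δ)) ^ 2 := mul_nonneg j2 (sq_nonneg _)
    have j5 : g * Real.exp (∫ x in t..b, m x) * J' t ≤ g * Real.exp (∫ x in t..b, m x) *
        (-(l t * (max 0 (J t - δ)) ^ 2) + m t * J t + n t) :=
      mul_le_mul_of_nonneg_left j1 (by linarith)
    have j6 : (g * Real.exp (∫ x in t..b, m x)) * n t ≤ c * n t :=
      mul_le_mul_of_nonneg_right (g2.trans hc) j3
    have j7 : l t * (max 0 (J t - δ)) ^ 2 ≤
        (g * Real.exp (∫ x in t..b, m x)) * (l t * (max 0 (J t - δ)) ^ 2) := by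
      nlinarith
    nlinarith
  have hint : interior (Icc a b) = Ioo a b := interior_Icc
  have hanti : AntitoneOn z (Icc a b) := by
    apply antitoneOn_of_deriv_nonpos (convex_Icc a b) hzc
    · intro t ht
      rw [hint] at ht
      exact (hzd t ht).differentiableAt.differentiableWithinAt
    · intro t ht
      rw [hint] at ht
      rw [(hzd t ht).deriv]
      have := hzd' t ht
      have j4 : 0 ≤ l t * (max 0 (J t - δ)) ^ 2 :=
        mul_nonneg (hl0 t (Ioo_subset_Icc_self ht)) (sq_nonneg _)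
      linarith
  have hzge : ∀ t ∈ Icc a b, j0 ≤ z t := fun t ht =>
    (h0.trans hzb.ge).trans (hanti ht hb' ht.2)
  have hx : ∀ t ∈ Icc a b, z t / 2 ≤ max 0 (J t - δ) := by
    intro t ht
    obtain ⟨g1, g2⟩ := hG t ht
    obtain ⟨n1, n2⟩ := hode_tail hn hn0 ht
    have z1 := hzge t ht
    have z2 : z t = g * Real.exp (∫ x in t..b, m x) * J t + (e + c * ∫ x in t..b, n x) := by
      rw [hz]
    have z3 : e + c * (∫ x in t..b, n x) ≤ j0 / 8 :=
      (add_le_add_right (mul_le_mul_of_nonneg_left n2 (by linarith)) e).trans h3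
    have z4 : (7 / 8) * z t ≤ g * Real.exp (∫ x in t..b, m x) * J t := by linarith
    have z5 : 0 ≤ J t := by
      by_contra hneg
      push Not at hneg
      nlinarith
    have z6 : g * Real.exp (∫ x in t..b, m x) * J t ≤ (9 / 8) * J t :=
      mul_le_mul_of_nonneg_right g2 z5
    refine le_trans ?_ (le_max_right _ _)
    linarith
  have hpos : ∀ t ∈ Icc a b, 0 < z t := fun t ht => lt_of_lt_of_le hj (hzge t ht)
  have hmono : MonotoneOn (fun t => (z t)⁻¹ - (1 / 4) * ∫ x in a..t, l x) (Icc a b) := by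
    apply monotoneOn_of_deriv_nonneg (convex_Icc a b)
    · exact (hzc.inv₀ fun t ht => (hpos t ht).ne').sub (continuousOn_const.mul cL)
    · intro t ht
      rw [hint] at ht
      exact (((hzd t ht).inv (hpos t (Ioo_subset_Icc_self ht)).ne').sub
        ((dL t ht).const_mul (1 / 4))).differentiableAt.differentiableWithinAt
    · intro t ht
      rw [hint] at ht
      have ht' := Ioo_subset_Icc_self ht
      have d := ((hzd t ht).inv (hpos t ht').ne').sub ((dL t ht).const_mul (1 / 4))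
      have d' : deriv (fun t => (z t)⁻¹ - (1 / 4) * ∫ x in a..t, l x) t = _ := d.deriv
      rw [d']
      have k1 := hzd' t ht
      have k2 := hx t ht'
      have k3 := hpos t ht'
      have k4 := hl0 t ht'
      rw [sub_nonneg, le_div_iff₀ (by positivity)]
      have k5 : (z t / 2) ^ 2 ≤ (max 0 (J t - δ)) ^ 2 := pow_le_pow_left₀ (by positivity) k2 2
      have k6 : l t * (z t / 2) ^ 2 ≤ l t * (max 0 (J t - δ)) ^ 2 :=
        mul_le_mul_of_nonneg_left k5 k4
      nlinarith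
  have hfin := hmono ha' hb' hab
  simp only [intervalIntegral.integral_same, mul_zero, sub_zero] at hfin
  rw [← hza, ← hzb]
  refine ⟨hpos a ha', hanti ha' hb' hab, ?_⟩
  rw [one_div (z b), one_div (z a)]
  linarith

theorem ode_low (a b l δ μ j0 : ℝ) (J J' h n : ℝ → ℝ) (hab : a < b) (hl : 0 < l) (hδ : 0 ≤ δ)
    (hμ : 0 ≤ μ) (hj : 0 < j0) (hh : ContinuousOn h (Icc a b)) (hn : ContinuousOn n (Icc a b))
    (hh0 : ∀ t ∈ Icc a b, 0 ≤ h t) (hn0 : ∀ t ∈ Icc a b, 0 ≤ n t) (hJ0 : ∀ t ∈ Icc a b, 0 ≤ J t)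
    (hd : ∀ t ∈ Icc a b, HasDerivAt J (J' t) t)
    (hi : ∀ t ∈ Icc a b, J' t ≤ -(l * (max 0 (J t - (δ + h t))) ^ 2) + μ * J t + n t)
    (hjb : j0 ≤ J b) (h1 : δ ≤ j0 / 10) (h2 : μ * (b - a) + 2 * l * (∫ t in a..b, h t) ≤ 1 / 10)
    (h3 : ∫ t in a..b, n t ≤ j0 / 10) : l * (b - a) * j0 ≤ 6 := by
  have hm : ContinuousOn (fun t => μ + 2 * l * h t) (Icc a b) :=
    continuousOn_const.add (continuousOn_const.mul hh)
  have hhi : IntervalIntegrable h volume a b := by
    apply ContinuousOn.intervalIntegrable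
    rwa [uIcc_of_le hab.le]
  have hmi : ∫ t in a..b, (μ + 2 * l * h t) = μ * (b - a) + 2 * l * ∫ t in a..b, h t := by
    rw [intervalIntegral.integral_add intervalIntegrable_const (hhi.const_mul _),
      intervalIntegral.integral_const, intervalIntegral.integral_const_mul, smul_eq_mul]
    ring
  have hexp : Real.exp (1 / 10) ≤ 9 / 8 := by
    have := Real.exp_bound_div_one_sub_of_interval (x := 1 / 10) (by norm_num) (by norm_num)
    refine this.trans ?_
    norm_num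
  have hn1 : 0 ≤ ∫ t in a..b, n t := intervalIntegral.integral_nonneg hab.le hn0
  have key := hode_core a b δ j0 1 0 (9 / 8) J J' (fun _ => l) (fun t => μ + 2 * l * h t) n hab.le
    hj le_rfl le_rfl continuousOn_const hm hn (fun _ _ => hl.le)
    (fun t ht => add_nonneg hμ (mul_nonneg (by linarith) (hh0 t ht))) hn0 hd ?_ (by linarith) h1 ?_ ?_
  · obtain ⟨k1, -, k3⟩ := key
    have k4 : 0 < 1 / (1 * Real.exp (∫ t in a..b, (μ + 2 * l * h t)) * J a +
        (0 + 9 / 8 * ∫ t in a..b, n t)) := one_div_pos.2 k1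
    have k5 : (1 / 4) * (∫ _t in a..b, l) ≤ 1 / (1 * J b + 0) := by linarith
    rw [intervalIntegral.integral_const, smul_eq_mul, one_mul, add_zero] at k5
    have k6 : 0 < J b := lt_of_lt_of_le hj hjb
    rw [le_div_iff₀ k6] at k5
    have k7 : 0 ≤ l * (b - a) := mul_nonneg hl.le (by linarith)
    have k8 : l * (b - a) * j0 ≤ l * (b - a) * J b := mul_le_mul_of_nonneg_left hjb k7
    nlinarith
  · intro t ht
    have i1 := hi t ht
    have i2 := hJ0 t ht
    have i3 := hh0 t ht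
    have i4 : (max 0 (J t - δ)) ^ 2 - 2 * J t * h t ≤ (max 0 (J t - (δ + h t))) ^ 2 := by
      rcases le_total (J t - (δ + h t)) 0 with c1 | c1
      · rw [max_eq_left c1]
        rcases le_total (J t - δ) 0 with c2 | c2
        · rw [max_eq_left c2]
          nlinarith [mul_nonneg i2 i3]
        · rw [max_eq_right c2]
          nlinarith [mul_nonneg i2 i3]
      · rw [max_eq_right c1, max_eq_right (by linarith)]
        nlinarith [mul_nonneg i2 i3, mul_nonneg hδ i3, sq_nonneg (h t)]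
    have i5 := mul_le_mul_of_nonneg_left i4 hl.le
    nlinarith
  · rw [hmi, one_mul]
    exact (Real.exp_le_exp.2 h2).trans hexp
  · linarith

theorem ode_win (a b δ j0 g e : ℝ) (J J' l μ n : ℝ → ℝ) (hab : a ≤ b) (hδ : 0 ≤ δ) (hj : 0 < j0)
    (hg : 1 ≤ g) (he : 0 ≤ e) (hl : ContinuousOn l (Icc a b)) (hμ : ContinuousOn μ (Icc a b))
    (hn : ContinuousOn n (Icc a b)) (hl0 : ∀ t ∈ Icc a b, 0 ≤ l t) (hμ0 : ∀ t ∈ Icc a b, 0 ≤ μ t)
    (hn0 : ∀ t ∈ Icc a b, 0 ≤ n t) (hJ0 : ∀ t ∈ Icc a b, 0 ≤ J t)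
    (hd : ∀ t ∈ Icc a b, HasDerivAt J (J' t) t)
    (hi : ∀ t ∈ Icc a b, J' t ≤ -(l t * (max 0 (J t - δ)) ^ 2) + μ t * J t + n t)
    (h0 : j0 ≤ g * J b + e) (h1 : δ ≤ j0 / 10)
    (h2 : g * Real.exp (∫ t in a..b, μ t) ≤ 11 / 10)
    (h3 : e + 2 * (∫ t in a..b, n t) ≤ j0 / 10) :
    0 < g * Real.exp (∫ t in a..b, μ t) * J a + (e + 2 * ∫ t in a..b, n t) ∧
    g * J b + e ≤ g * Real.exp (∫ t in a..b, μ t) * J a + (e + 2 * ∫ t in a..b, n t) ∧
    (1 / 4) * (∫ t in a..b, l t) ≤ 1 / (g * J b + e) -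
      1 / (g * Real.exp (∫ t in a..b, μ t) * J a + (e + 2 * ∫ t in a..b, n t)) :=
  hode_core a b δ j0 g e 2 J J' l μ n hab hj hg (by norm_num) hl hμ hn hl0 hμ0 hn0 hd hi h0 h1
    (h2.trans (by norm_num)) (h3.trans (by linarith))

end Pool.Agent.LandauF
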