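import Pool.Agent.LandauF.HRicC
import Pool.Agent.LandauF.HOde
import Pool.Agent.LandauF.HDilSol

/-!
# LandauF, module HClaimC: the tail estimate at one time

`f (b)` is positive, smooth and not constant (a positive constant is not integrable against `1/ang`), so there is `ρ0 ≥ 1` with
`j00 = JB (f b) 0 ρ0 > 0`.  Let `κ = Kw (f b) > 0`, `m1 = mB (f b) 0 1 > 0`.  Let `R ≥ R₁` (large), `x = R^(1/600)`, so
`x^600 = R`, `x² = R^(1/300)`, and suppose `Po (f b) R > Dm (f b) R / (R x²)`.  `g t = dl R (f t)` (`dl_solP`).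
`Kw (g b) ≤ κ/R² = κ/x^1200` (`Kw_dl_le`), `Kw (g b) ≤ Dm (f b) R/R³ < x² Po (f b) R/R² = x² Po (g b) 1` (`Kw_dl_Dm`, `Po_dl`).
`ric_C` gives `c`, `Ψ`.  `J τ = FJ (wt x Ψ) (g τ)` on `[a, b]`, `a = b - x^630`; `wt x Ψ` is smooth with compact support
(`chi 1 ^ 6`), so `FJ_deriv` applies; `J ≥ 0`.
`J b ≥ j0 := j00/x^600`: `wt x Ψ = 1` on `‖v‖ ≤ 1/8` and `ρ0/R ≤ 1/8`, so `J b ≥ JB (g b) 0 (ρ0/R) = JB (f b) 0 ρ0/R` (`JB_dl`).
Mass: `(b - a) Kw (g b)^(2/3) ≤ κ^(2/3)/x^170` is small, so `froz` applies to `g` on `[a, b]`: `Kw (g τ) ≤ 2 Kw (g b) ≤ 1` and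
`mq 4 (g τ) ≥ mq 4 (g b)/2 ≥ mB (g b) 0 1/8 ≥ mB (f b) 0 R/(8 R³) ≥ m1/(8 x^1800)` (`ang^4 ≤ 4` on the unit ball, `mB_dl`).
With `A = x^1801`: `mq 4 (g τ) ≤ mB (g τ) 0 A + A⁻³ Kw (g τ) ≤ mB (g τ) 0 A + 1/A³`
(`1/ang^4 ≤ A⁻³/ang` for `‖v‖ ≥ A`), so `mB (g τ) 0 A ≥ m1/(16 x^1800) ≥ 1/A` for `x` large.  `APF`:
`∫_a^b JB (g τ) 0 3 ≤ CA (1 + x^630) x^(1801 p)`.
`ode_low` with `l = c/x^14`, `δ = 1/x^1180`, `μ = 1/x^790`, `h = exp (-c x) JB (g τ) 0 3`, `n = 1/x^1900 + exp (-c x)(1 + JB (g τ) 0 3)`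
(continuity: `JB_cont`): for `x` large `δ ≤ j0/10`; `μ x^630 + 2 l ∫ h ≤ 1/x^160 + 2 exp (-c x) CA (1+x^630) x^(1801 p) ≤ 1/10`;
`∫ n ≤ x^630/x^1900 + exp (-c x)(x^630 + CA (1 + x^630) x^(1801 p)) ≤ j0/10`.  Conclusion:
`(c/x^14) x^630 (j00/x^600) = c j00 x^16 ≤ 6`, false for `x` large.

`APF` is used in the form with the hypothesis `1 / A ≤ mB (f t) 0 A`; this form (`APF_A`) follows from the stated
one by the dilation `dl A` (`mB (dl A f) 0 3 ≥ mB f 0 A / A³ ≥ 1 / A⁴`, `JB f 0 3 ≤ A JB (dl A f) 0 3`).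
-/

set_option autoImplicit false

namespace Pool.Agent.LandauF

open MeasureTheory Set Filter Topology Pool.Agent.Landau

namespace HClaimCAux

theorem fi_nonneg {g : V → ℝ} (hg : Dn g) (v : V) : 0 ≤ fi g v :=
  mul_nonneg (hg.pos v).le (Finset.sum_nonneg fun _ _ => sq_nonneg _)

theorem fi_cont {g : V → ℝ} (hg : Dn g) : Continuous (fi g) := by
  unfold fi x2 gam
  refine hg.cls.cont.mul (continuous_finsetSum _ fun i _ => ?_)
  exact ((smooth_pd hg.cls.smooth i).continuous.div hg.cls.cont fun v => (hg.pos v).ne').pow 2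

theorem fi_zero {g : V → ℝ} (hg : Dn g) {v : V} (h : fi g v = 0) (i : Fin 3) : pd i g v = 0 := by
  have h1 : x2 g v = 0 := by
    unfold fi at h
    exact (mul_eq_zero.1 h).resolve_left (hg.pos v).ne'
  unfold x2 at h1
  have h2 := (Finset.sum_eq_zero_iff_of_nonneg fun i _ => sq_nonneg (gam i g v)).1 h1 i
    (Finset.mem_univ i)
  have h3 : gam i g v = 0 := by
    exact pow_eq_zero_iff (two_ne_zero) |>.1 h2
  unfold gam at h3
  exact (div_eq_zero_iff.1 h3).resolve_right (hg.pos v).ne'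

/-- a positive density is not constant -/
theorem not_const {g : V → ℝ} (hg : Dn g) : ¬ ∀ v, fi g v = 0 := by
  intro h
  have h1 : ∀ v, fderiv ℝ g v = 0 := by
    intro v
    have h2 := WKerAux.fd_le g 0 v fun j => by rw [fi_zero hg (h v) j, abs_zero]
    rw [mul_zero] at h2
    exact norm_le_zero_iff.1 h2
  have h3 : ∀ v, g v = g 0 := fun v =>
    is_const_of_fderiv_eq_zero (𝕜 := ℝ) (differentiable_of_smooth hg.cls.smooth) h1 v 0
  obtain ⟨c, hc⟩ : ∃ c, c = g 0 := ⟨_, rfl⟩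
  have hc0 : 0 < c := by rw [hc]; exact hg.pos 0
  obtain ⟨w, hw⟩ : ∃ w : ℝ, w = (volume (Metric.ball (0 : V) 1)).toReal := ⟨_, rfl⟩
  have hw0 : 0 < w := by
    rw [hw]
    exact ENNReal.toReal_pos (Metric.measure_ball_pos volume 0 one_pos).ne'
      measure_ball_lt_top.ne
  have key : ∀ R : ℝ, 1 ≤ R → c * (R ^ 3 * w) ≤ 2 * R * Kw g := by
    intro R hR
    have hR0 : 0 < R := by linarith
    have h4 := hg.cls.int_ball_le hR
    have h5 : {v : V | ‖v‖ ≤ R} = Metric.closedBall 0 R := by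
      ext v
      simp
    rw [h5] at h4
    have h6 : ∫ v in Metric.closedBall (0 : V) R, g v = c * (R ^ 3 * w) := by
      have h7 : ∫ v in Metric.closedBall (0 : V) R, g v =
          ∫ v in Metric.closedBall (0 : V) R, c :=
        integral_congr_ae (Eventually.of_forall fun v => by
          show g v = c
          rw [h3 v, hc])
      rw [h7, setIntegral_const, smul_eq_mul, mul_comm]
      congr 1
      rw [Measure.real, Measure.addHaar_closedBall volume (0 : V) hR0.le, ENNReal.toReal_mul,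
        ENNReal.toReal_ofReal (by positivity), hw]
      congr 2
      simp [V]
    rw [h6] at h4
    exact h4
  have hK := hg.cls.Kw_nonneg
  have hR1 : (1 : ℝ) ≤ 1 + 2 * Kw g / (c * w) := by
    have : 0 ≤ 2 * Kw g / (c * w) := by positivity
    linarith
  have h8 := key _ hR1
  obtain ⟨R, hR⟩ : ∃ R, R = 1 + 2 * Kw g / (c * w) := ⟨_, rfl⟩
  rw [← hR] at h8 hR1
  have h9 : 2 * Kw g = (R - 1) * (c * w) := by
    rw [hR]
    field_simp
    ring
  have h10 : c * (R ^ 3 * w) ≤ R * ((R - 1) * (c * w)) := by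
    rw [← h9]
    linarith
  have hcw : 0 < c * w := by positivity
  have h11 : R ^ 3 ≤ R * (R - 1) := by
    have : R ^ 3 * (c * w) ≤ R * (R - 1) * (c * w) := by linarith
    exact le_of_mul_le_mul_right this hcw
  have h12 : R ^ 2 ≤ R ^ 3 := pow_le_pow_right₀ hR1 (by norm_num)
  nlinarith

end HClaimCAux

theorem JB_pos_ex {g : V → ℝ} (hg : Dn g) : ∃ ρ : ℝ, 1 ≤ ρ ∧ 0 < JB g 0 ρ := by
  by_contra hcon
  push Not at hcon
  apply HClaimCAux.not_const hg
  intro v
  have h1 := hcon (‖v‖ + 2) (by have := norm_nonneg v; linarith)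
  have h0 : 0 ≤ JB g 0 (‖v‖ + 2) :=
    integral_nonneg fun u => HClaimCAux.fi_nonneg hg u
  have h2 : JB g 0 (‖v‖ + 2) = 0 := le_antisymm h1 h0
  have hc := HClaimCAux.fi_cont hg
  have hi : IntegrableOn (fi g) (Metric.closedBall (0 : V) (‖v‖ + 2)) :=
    hc.continuousOn.integrableOn_compact (isCompact_closedBall _ _)
  unfold JB at h2
  rw [integral_eq_zero_iff_of_nonneg (fun u => HClaimCAux.fi_nonneg hg u) hi] at h2
  have h3 : fi g =ᵐ[volume.restrict (Metric.ball (0 : V) (‖v‖ + 2))] 0 :=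
    ae_mono (Measure.restrict_mono Metric.ball_subset_closedBall le_rfl) h2
  have h4 := Measure.eqOn_open_of_ae_eq h3 Metric.isOpen_ball hc.continuousOn
    continuousOn_const
  exact h4 (show v ∈ Metric.ball (0 : V) (‖v‖ + 2) by
    rw [mem_ball_zero_iff]
    linarith)

namespace HClaimCAux

theorem mB_pos {g : V → ℝ} (hg : Dn g) : 0 < mB g 0 1 := by
  unfold mB
  rw [setIntegral_pos_iff_support_of_nonneg_ae]
  · have h1 : Function.support g = univ := by
      ext v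
      simp [(hg.pos v).ne']
    rw [h1, univ_inter]
    exact (Metric.measure_ball_pos volume (0 : V) one_pos).trans_le
      (measure_mono Metric.ball_subset_closedBall)
  · exact Eventually.of_forall fun v => (hg.pos v).le
  · exact hg.cls.cont.continuousOn.integrableOn_compact (isCompact_closedBall _ _)

theorem wt_smooth (k : ℝ) {Ψ : V → ℝ} (hΨ : ContDiff ℝ (⊤ : ℕ∞) Ψ) :
    ContDiff ℝ (⊤ : ℕ∞) (wt k Ψ) := by
  unfold wt
  exact ((contDiff_const.mul hΨ).neg.exp).mul ((chi_smooth 1).pow 6)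

theorem wt_compact (k : ℝ) (Ψ : V → ℝ) : HasCompactSupport (wt k Ψ) := by
  have h : HasCompactSupport (fun v => chi 1 v ^ 6) :=
    (chi_compact one_pos).comp_left (g := fun t : ℝ => t ^ 6) (by norm_num)
  exact h.mul_left

theorem wt_nonneg (k : ℝ) (Ψ : V → ℝ) (v : V) : 0 ≤ wt k Ψ v :=
  mul_nonneg (Real.exp_pos _).le (pow_nonneg (chi_nonneg 1 v) 6)

/-- the Fisher information of a small ball is below the weighted one -/
theorem JB_le_FJ {g : V → ℝ} (hg : Dn g) (k : ℝ) {Ψ : V → ℝ} (hΨ : ContDiff ℝ (⊤ : ℕ∞) Ψ)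
    (h0 : ∀ v, ‖v‖ ≤ 1 / 8 → Ψ v = 0) {r : ℝ} (hr : r ≤ 1 / 8) : JB g 0 r ≤ FJ (wt k Ψ) g := by
  have hc := fi_cont hg
  have hi : Integrable (fun v => wt k Ψ v * fi g v) :=
    ((wt_smooth k hΨ).continuous.mul hc).integrable_of_hasCompactSupport
      (wt_compact k Ψ).mul_right
  unfold JB FJ
  calc ∫ v in Metric.closedBall (0 : V) r, fi g v
      = ∫ v in Metric.closedBall (0 : V) r, wt k Ψ v * fi g v := by
        refine setIntegral_congr_fun Metric.isClosed_closedBall.measurableSet fun v hv => ?_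
        rw [mem_closedBall_zero_iff] at hv
        have h1 : wt k Ψ v = 1 := by
          unfold wt
          rw [h0 v (by linarith), chi_one one_pos (by linarith)]
          simp
        show fi g v = wt k Ψ v * fi g v
        rw [h1, one_mul]
    _ ≤ ∫ v, wt k Ψ v * fi g v := setIntegral_le_integral hi
        (Eventually.of_forall fun v => mul_nonneg (wt_nonneg k Ψ v) (fi_nonneg hg v))

theorem mq_low {g : V → ℝ} (hg : Clw g) : mB g 0 1 / 4 ≤ mq 4 g := by
  have hi := mq_int hg (q := 4) (by norm_num)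
  have hb : IntegrableOn g (Metric.closedBall (0 : V) 1) :=
    hg.cont.continuousOn.integrableOn_compact (isCompact_closedBall _ _)
  unfold mB mq
  rw [← integral_div]
  calc ∫ v in Metric.closedBall (0 : V) 1, g v / 4
      ≤ ∫ v in Metric.closedBall (0 : V) 1, g v / ang v ^ 4 := by
        refine setIntegral_mono_on (hb.div_const 4) hi.integrableOn
          Metric.isClosed_closedBall.measurableSet fun v hv => ?_
        rw [mem_closedBall_zero_iff] at hv
        have h1 : ang v ^ 4 ≤ 4 := by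
          have h2 : ang v ^ 2 ≤ 2 := by
            rw [ang_sq]
            have := norm_nonneg v
            nlinarith
          have h3 : 0 ≤ ang v ^ 2 := sq_nonneg _
          nlinarith
        exact div_le_div_of_nonneg_left (hg.nonneg v) (pow_pos (ang_pos v) 4) h1
    _ ≤ ∫ v, g v / ang v ^ 4 := setIntegral_le_integral hi
        (Eventually.of_forall fun v => div_nonneg (hg.nonneg v) (pow_pos (ang_pos v) 4).le)

theorem mq_up {g : V → ℝ} (hg : Clw g) {A : ℝ} (hA : 0 < A) :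
    mq 4 g ≤ mB g 0 A + Kw g / A ^ 3 := by
  have hi := mq_int hg (q := 4) (by norm_num)
  have hb : IntegrableOn g (Metric.closedBall (0 : V) A) :=
    hg.cont.continuousOn.integrableOn_compact (isCompact_closedBall _ _)
  have hm : MeasurableSet (Metric.closedBall (0 : V) A) :=
    Metric.isClosed_closedBall.measurableSet
  unfold mB mq Kw
  rw [← integral_add_compl hm hi]
  refine add_le_add ?_ ?_
  · refine setIntegral_mono_on hi.integrableOn hb hm fun v _ => ?_
    exact div_le_self (hg.nonneg v) (one_le_pow₀ (one_le_ang v))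
  · rw [← integral_div]
    have hi2 : Integrable (fun v => g v / ang v / A ^ 3) := hg.int.div_const _
    calc ∫ v in (Metric.closedBall (0 : V) A)ᶜ, g v / ang v ^ 4
        ≤ ∫ v in (Metric.closedBall (0 : V) A)ᶜ, g v / ang v / A ^ 3 := by
          refine setIntegral_mono_on hi.integrableOn hi2.integrableOn hm.compl fun v hv => ?_
          rw [mem_compl_iff, mem_closedBall_zero_iff, not_le] at hv
          rw [div_div]
          have ha := ang_pos v
          refine div_le_div_of_nonneg_left (hg.nonneg v) (by positivity) ?_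
          have h1 : A ≤ ang v := hv.le.trans (norm_le_ang v)
          calc ang v * A ^ 3 ≤ ang v * ang v ^ 3 :=
                mul_le_mul_of_nonneg_left (pow_le_pow_left₀ hA.le h1 3) ha.le
            _ = ang v ^ 4 := by ring
      _ ≤ ∫ v, g v / ang v / A ^ 3 := setIntegral_le_integral hi2
          (Eventually.of_forall fun v => by
            have := hg.nonneg v
            have := ang_pos v
            show 0 ≤ g v / ang v / A ^ 3
            positivity)

/-- the exponential beats every power -/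
theorem exp_small (C p c ε : ℝ) (hC : 0 ≤ C) (hp : 0 ≤ p) (hc : 0 < c) (hε : 0 < ε) :
    ∀ᶠ x : ℝ in atTop, x ^ 600 * (Real.exp (-(c * x)) *
      (x ^ 630 + C * (1 + x ^ 630) * (x ^ 1801) ^ p)) ≤ ε := by
  have h := (tendsto_rpow_mul_exp_neg_mul_atTop_nhds_zero (1230 + 1801 * p) c hc).const_mul
    (1 + 2 * C)
  rw [mul_zero] at h
  filter_upwards [h.eventually_le_const hε, eventually_ge_atTop (1 : ℝ)] with x hx hx1
  refine le_trans ?_ hx
  have hx0 : 0 < x := by linarith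
  have e1 : -c * x = -(c * x) := by ring
  have e2 : x ^ (1230 + 1801 * p) = x ^ 1230 * (x ^ 1801) ^ p := by
    rw [Real.rpow_add hx0, ← Real.rpow_natCast x 1230, ← Real.rpow_natCast x 1801,
      ← Real.rpow_mul hx0.le]
    norm_num
  rw [e1, e2]
  have h1 : 1 ≤ (x ^ 1801) ^ p := Real.one_le_rpow (one_le_pow₀ hx1) hp
  obtain ⟨y, hy⟩ : ∃ y, y = (x ^ 1801) ^ p := ⟨_, rfl⟩
  rw [← hy] at h1 ⊢
  have h2 : 1 ≤ x ^ 630 := one_le_pow₀ hx1
  have h3 : x ^ 630 + C * (1 + x ^ 630) * y ≤ (1 + 2 * C) * (x ^ 630 * y) := by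
    have a1 : x ^ 630 * 1 ≤ x ^ 630 * y := mul_le_mul_of_nonneg_left h1 (by positivity)
    have a2 : C * (1 + x ^ 630) * y ≤ C * (x ^ 630 + x ^ 630) * y := by
      refine mul_le_mul_of_nonneg_right (mul_le_mul_of_nonneg_left (by linarith) hC)
        (by linarith)
    calc x ^ 630 + C * (1 + x ^ 630) * y ≤ x ^ 630 * y + C * (x ^ 630 + x ^ 630) * y := by
          linarith
      _ = _ := by ring
  have hE := Real.exp_pos (-(c * x))
  calc x ^ 600 * (Real.exp (-(c * x)) * (x ^ 630 + C * (1 + x ^ 630) * y))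
      ≤ x ^ 600 * (Real.exp (-(c * x)) * ((1 + 2 * C) * (x ^ 630 * y))) := by gcongr
    _ = (1 + 2 * C) * (x ^ 1230 * y * Real.exp (-(c * x))) := by ring

end HClaimCAux

open HClaimCAux in
/-- `APF` with the mass of the larger ball `B_A` -/
theorem APF_A : ∃ C p : ℝ, 0 < C ∧ 0 < p ∧ ∀ f : ℝ → V → ℝ, SolP f → ∀ a b A : ℝ,
    a ≤ b → b < 0 → 1 ≤ A → (∀ t ∈ Icc a b, Kw (f t) ≤ A ∧ 1 / A ≤ mB (f t) 0 A) →
    ∫ t in a..b, JB (f t) 0 3 ≤ C * (1 + (b - a)) * A ^ p := by
  exact APF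

open HClaimCAux in
/-- the estimate in terms of `x`, `R = x ^ 600` -/
theorem claimC_x {f : ℝ → V → ℝ} (hf : SolP f) {b : ℝ} (hb : b < 0) :
    ∀ᶠ x : ℝ in atTop, Po (f b) (x ^ 600) ≤ Dm (f b) (x ^ 600) / (x ^ 600 * x ^ 2) := by
  have hD : Dn (f b) := ⟨hf.sol.cls b hb.le, hf.pos b hb⟩
  obtain ⟨ρ0, hρ0, hj00⟩ := JB_pos_ex hD
  obtain ⟨j00, hj00e⟩ : ∃ j, j = JB (f b) 0 ρ0 := ⟨_, rfl⟩
  rw [← hj00e] at hj00
  obtain ⟨κ, hκe⟩ : ∃ κ, κ = Kw (f b) := ⟨_, rfl⟩
  have hκ : 0 < κ := by rw [hκe]; exact Kw_pos hD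
  obtain ⟨m1, hm1e⟩ : ∃ m, m = mB (f b) 0 1 := ⟨_, rfl⟩
  have hm1 : 0 < m1 := by rw [hm1e]; exact mB_pos hD
  obtain ⟨c, hc, hric⟩ := ric_C
  obtain ⟨x₀, hx₀1, hric⟩ := hric κ hκ
  obtain ⟨cF, CF, hcF, hCF, hfroz⟩ := froz
  obtain ⟨CA, p, hCA, hp, hAPF⟩ := APF_A
  have hκ23 : 0 < κ ^ (2 / 3 : ℝ) := Real.rpow_pos_of_pos hκ _
  filter_upwards [eventually_ge_atTop x₀, eventually_ge_atTop (20 : ℝ),
    eventually_ge_atTop (8 * ρ0), eventually_ge_atTop (2 * κ),
    eventually_ge_atTop (κ ^ (2 / 3 : ℝ) / cF), eventually_ge_atTop (16 / m1),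
    eventually_ge_atTop (20 / j00), eventually_ge_atTop (7 / (c * j00)),
    exp_small CA p c (j00 / 20) hCA.le hp.le hc (by positivity),
    exp_small CA p c (1 / (40 * c)) hCA.le hp.le hc (by positivity)]
    with x k1 k2 k3 k4 k5 k6 k7 k8 k9 k10
  by_contra hneg
  push Not at hneg
  have hx1 : 1 ≤ x := by linarith
  have hx0 : 0 < x := by linarith
  obtain ⟨R, hR⟩ : ∃ R, R = x ^ 600 := ⟨_, rfl⟩
  rw [← hR] at hneg
  have hR1 : 1 ≤ R := by rw [hR]; exact one_le_pow₀ hx1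
  have hR0 : 0 < R := by linarith
  obtain ⟨g, hg⟩ : ∃ g : ℝ → V → ℝ, g = fun t => dl R (f t) := ⟨_, rfl⟩
  have hgS : SolP g := by rw [hg]; exact dl_solP hf hR0
  have hgb : g b = dl R (f b) := by rw [hg]
  have hR2 : R ^ 2 = x ^ 1200 := by rw [hR]; ring
  have hR3 : R ^ 3 = x ^ 1800 := by rw [hR]; ring
  have hK1 : Kw (g b) ≤ κ / x ^ 1200 := by
    rw [hgb, ← hR2, hκe]
    exact Kw_dl_le hD.cls hR1
  have hK2 : Kw (g b) ≤ x ^ 2 * Po (g b) 1 := by
    rw [hgb, Po_dl _ _ hR0, mul_one]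
    refine (Kw_dl_Dm hD.cls hR0).1.trans ?_
    rw [div_lt_iff₀ (by positivity)] at hneg
    rw [div_le_iff₀ (by positivity)]
    have e : x ^ 2 * (Po (f b) R / R ^ 2) * R ^ 3 = Po (f b) R * (R * x ^ 2) := by
      field_simp
    rw [e]
    exact hneg.le
  obtain ⟨Ψ, hΨ, hΨ0, hΨ8, hΨr⟩ := hric x k1 g hgS b hb hK1 hK2
  have hDg : ∀ τ, τ ≤ b → Dn (g τ) := fun τ hτ =>
    ⟨hgS.sol.cls τ (hτ.trans hb.le), hgS.pos τ (hτ.trans_lt hb)⟩
  have hab : b - x ^ 630 < b := by
    have : 0 < x ^ 630 := by positivity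
    linarith
  obtain ⟨a, ha⟩ : ∃ a, a = b - x ^ 630 := ⟨_, rfl⟩
  rw [← ha] at hab hΨr
  have hba : b - a = x ^ 630 := by rw [ha]; ring
  -- powers
  have le_pow : ∀ n : ℕ, n ≠ 0 → x ≤ x ^ n := fun n hn => le_self_pow₀ hx1 hn
  -- the initial value
  have hJb : j00 / x ^ 600 ≤ FJ (wt x Ψ) (g b) := by
    have h1 : ρ0 / R ≤ 1 / 8 := by
      rw [div_le_div_iff₀ hR0 (by norm_num)]
      have := le_pow 600 (by norm_num)
      rw [hR]
      linarith
    refine le_trans (le_of_eq ?_) (JB_le_FJ (hDg b le_rfl) x hΨ hΨ8 h1)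
    rw [hgb, JB_dl hD.cls.smooth 0 _ hR0, smul_zero, mul_div_cancel₀ _ hR0.ne', ← hj00e, hR]
  -- the mass
  have hKgb0 : 0 < Kw (g b) := Kw_pos (hDg b le_rfl)
  have hKgb : Kw (g b) ≤ 1 / 2 := by
    refine hK1.trans ?_
    rw [div_le_div_iff₀ (by positivity) (by norm_num)]
    have := le_pow 1200 (by norm_num)
    linarith
  have hsm : (b - a) * Kw (g b) ^ (2 / 3 : ℝ) ≤ cF := by
    have h1 : Kw (g b) ^ (2 / 3 : ℝ) ≤ (κ / x ^ 1200) ^ (2 / 3 : ℝ) :=
      Real.rpow_le_rpow hKgb0.le hK1 (by norm_num)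
    have h2 : (κ / x ^ 1200) ^ (2 / 3 : ℝ) = κ ^ (2 / 3 : ℝ) / x ^ 800 := by
      rw [Real.div_rpow (by positivity) (by positivity)]
      congr 1
      rw [← Real.rpow_natCast, ← Real.rpow_mul hx0.le, ← Real.rpow_natCast]
      norm_num
    rw [h2] at h1
    rw [hba]
    calc x ^ 630 * Kw (g b) ^ (2 / 3 : ℝ) ≤ x ^ 630 * (κ ^ (2 / 3 : ℝ) / x ^ 800) :=
          mul_le_mul_of_nonneg_left h1 (by positivity)
      _ = κ ^ (2 / 3 : ℝ) / x ^ 170 := by field_simp
      _ ≤ cF := by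
        rw [div_le_iff₀ (by positivity)]
        rw [div_le_iff₀ hcF] at k5
        have h3 := mul_le_mul_of_nonneg_right (le_pow 170 (by norm_num)) hcF.le
        linarith
  obtain ⟨hf1, hf2, -⟩ := hfroz g hgS.sol a b hab.le hb.le hKgb0 hKgb hsm
  have hKτ : ∀ τ ∈ Icc a b, Kw (g τ) ≤ 1 := fun τ hτ => (hf1 τ hτ).2.trans (by linarith)
  have hmτ : ∀ τ ∈ Icc a b, 1 / x ^ 1801 ≤ mB (g τ) 0 (x ^ 1801) := by
    intro τ hτ
    have hDτ := hDg τ hτ.2
    have h1 := hf2 τ hτ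
    have h2 := mq_low (hDg b le_rfl).cls
    have h3 := mq_up hDτ.cls (A := x ^ 1801) (by positivity)
    have h4 : m1 / x ^ 1800 ≤ mB (g b) 0 1 := by
      rw [hgb, mB_dl _ _ _ hR0, hR3, smul_zero, mul_one, hm1e]
      exact div_le_div_of_nonneg_right (mB_mono hD.cls 0 hR1) (by positivity)
    have h5 : Kw (g τ) / (x ^ 1801) ^ 3 ≤ 1 / x ^ 1801 / x ^ 1801 := by
      rw [div_div, div_le_div_iff₀ (by positivity) (by positivity)]
      calc Kw (g τ) * (x ^ 1801 * x ^ 1801) ≤ 1 * (x ^ 1801 * x ^ 1801) :=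
            mul_le_mul_of_nonneg_right (hKτ τ hτ) (by positivity)
        _ ≤ 1 * (x ^ 1801 * x ^ 1801) * x ^ 1801 :=
            le_mul_of_one_le_right (by positivity) (one_le_pow₀ hx1)
        _ = 1 * (x ^ 1801) ^ 3 := by ring
    have h6 : 16 * (1 / x ^ 1801) ≤ m1 / x ^ 1800 := by
      have e1 : 16 * (1 / x ^ 1801) = (16 / x) / x ^ 1800 := by
        rw [show x ^ 1801 = x * x ^ 1800 by ring]
        field_simp
      rw [e1]
      refine div_le_div_of_nonneg_right ?_ (by positivity)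
      rw [div_le_iff₀ hx0]
      rw [div_le_iff₀ hm1] at k6
      linarith
    have h7 : 1 / x ^ 1801 / x ^ 1801 ≤ 1 / x ^ 1801 :=
      div_le_self (by positivity) (one_le_pow₀ hx1)
    linarith
  obtain ⟨W, hW⟩ : ∃ W, W = ∫ t in a..b, JB (g t) 0 3 := ⟨_, rfl⟩
  have hWle : W ≤ CA * (1 + x ^ 630) * (x ^ 1801) ^ p := by
    rw [hW, ← hba]
    refine hAPF g hgS a b (x ^ 1801) hab.le hb (one_le_pow₀ hx1) fun t ht => ⟨?_, hmτ t ht⟩
    exact (hKτ t ht).trans (one_le_pow₀ hx1)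
  have hJc : ContinuousOn (fun τ => JB (g τ) 0 3) (Icc a b) :=
    (JB_cont g hgS 0 3).mono fun t ht => ht.2.trans_lt hb
  have hJi : IntervalIntegrable (fun τ => JB (g τ) 0 3) volume a b :=
    ContinuousOn.intervalIntegrable (by rwa [uIcc_of_le hab.le])
  have hJ0 : ∀ t ∈ Icc a b, 0 ≤ JB (g t) 0 3 := fun t ht => JB_nonneg (hDg t ht.2) 0 3
  have hW0 : 0 ≤ W := by
    rw [hW]
    exact intervalIntegral.integral_nonneg hab.le hJ0
  obtain ⟨E, hE⟩ : ∃ E, E = Real.exp (-(c * x)) := ⟨_, rfl⟩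
  have hE0 : 0 < E := by rw [hE]; exact Real.exp_pos _
  rw [← hE] at k9 k10 hΨr
  have hEW : E * (x ^ 630 + W) ≤ j00 / 20 / x ^ 600 := by
    rw [le_div_iff₀ (by positivity)]
    refine le_trans ?_ k9
    rw [mul_comm]
    exact mul_le_mul_of_nonneg_left (mul_le_mul_of_nonneg_left (by linarith) hE0.le)
      (by positivity)
  have hEW2 : E * W ≤ 1 / (40 * c) := by
    refine le_trans ?_ k10
    have h1 : E * W ≤ E * (x ^ 630 + CA * (1 + x ^ 630) * (x ^ 1801) ^ p) := by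
      refine mul_le_mul_of_nonneg_left ?_ hE0.le
      have : 0 < x ^ 630 := by positivity
      linarith
    refine h1.trans ?_
    exact le_mul_of_one_le_left ((mul_nonneg hE0.le hW0).trans h1) (one_le_pow₀ hx1)
  have hode := ode_low a b (c / x ^ 14) (1 / x ^ 1180) (1 / x ^ 790) (j00 / x ^ 600)
    (fun τ => FJ (wt x Ψ) (g τ)) (fun τ => dFJ (wt x Ψ) (g τ))
    (fun τ => E * JB (g τ) 0 3) (fun τ => 1 / x ^ 1900 + E * (1 + JB (g τ) 0 3))
    hab (by positivity) (by positivity) (by positivity) (by positivity)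
    (continuousOn_const.mul hJc)
    (continuousOn_const.add (continuousOn_const.mul (continuousOn_const.add hJc)))
    (fun t ht => mul_nonneg hE0.le (hJ0 t ht))
    (fun t ht => by
      have := hJ0 t ht
      positivity)
    (fun t ht => FJ_nonneg (hDg t ht.2) (wt_nonneg x Ψ))
    (fun t ht => FJ_deriv g hgS (wt x Ψ) (wt_smooth x hΨ) (wt_compact x Ψ) t
      (ht.2.trans_lt hb))
    (fun t ht => hΨr t ht)
    hJb
    (by
      rw [div_div, div_le_div_iff₀ (by positivity) (by positivity)]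
      rw [div_le_iff₀ hj00] at k7
      have h1 : x * j00 ≤ x ^ 580 * j00 :=
        mul_le_mul_of_nonneg_right (le_pow 580 (by norm_num)) hj00.le
      calc 1 * (x ^ 600 * 10) = 10 * x ^ 600 := by ring
        _ ≤ (x ^ 580 * j00) * x ^ 600 := mul_le_mul_of_nonneg_right (by linarith) (by positivity)
        _ = j00 * x ^ 1180 := by ring)
    (by
      have h1 : 1 / x ^ 790 * (b - a) ≤ 1 / 20 := by
        rw [hba]
        have e : 1 / x ^ 790 * x ^ 630 = 1 / x ^ 160 := by field_simp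
        rw [e, div_le_div_iff₀ (by positivity) (by norm_num)]
        have := le_pow 160 (by norm_num)
        linarith
      have h2 : ∫ t in a..b, E * JB (g t) 0 3 = E * W := by
        rw [intervalIntegral.integral_const_mul, hW]
      have h3 : 2 * (c / x ^ 14) * (E * W) ≤ 1 / 20 := by
        have h4 : c / x ^ 14 ≤ c := div_le_self hc.le (one_le_pow₀ hx1)
        calc 2 * (c / x ^ 14) * (E * W) ≤ 2 * c * (1 / (40 * c)) := by
              refine mul_le_mul (by linarith) hEW2 (mul_nonneg hE0.le hW0) (by positivity)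
          _ = 1 / 20 := by
              field_simp
              norm_num
      rw [h2]
      linarith)
    (by
      have h1 : ∫ t in a..b, (1 / x ^ 1900 + E * (1 + JB (g t) 0 3)) =
          x ^ 630 / x ^ 1900 + E * (x ^ 630 + W) := by
        rw [intervalIntegral.integral_add intervalIntegrable_const
          ((intervalIntegrable_const.add hJi).const_mul E),
          intervalIntegral.integral_const_mul,
          intervalIntegral.integral_add intervalIntegrable_const hJi,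
          intervalIntegral.integral_const, intervalIntegral.integral_const, hba, ← hW]
        simp only [smul_eq_mul, mul_one]
        ring
      have h2 : x ^ 630 / x ^ 1900 ≤ j00 / 20 / x ^ 600 := by
        rw [div_div, div_le_div_iff₀ (by positivity) (by positivity)]
        rw [div_le_iff₀ hj00] at k7
        have h3 : x * j00 ≤ x ^ 670 * j00 :=
          mul_le_mul_of_nonneg_right (le_pow 670 (by norm_num)) hj00.le
        calc x ^ 630 * (20 * x ^ 600) = 20 * (x ^ 1230) := by ring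
          _ ≤ (x ^ 670 * j00) * x ^ 1230 :=
              mul_le_mul_of_nonneg_right (by linarith) (by positivity)
          _ = j00 * x ^ 1900 := by ring
      rw [h1]
      have h4 : j00 / x ^ 600 / 10 = j00 / 20 / x ^ 600 + j00 / 20 / x ^ 600 := by
        field_simp
        norm_num
      rw [h4]
      linarith)
  rw [hba] at hode
  have e1 : c / x ^ 14 * x ^ 630 * (j00 / x ^ 600) = c * j00 * x ^ 16 := by
    field_simp
  rw [e1] at hode
  rw [div_le_iff₀ (by positivity)] at k8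
  have h2 : x * (c * j00) ≤ x ^ 16 * (c * j00) :=
    mul_le_mul_of_nonneg_right (le_pow 16 (by norm_num)) (by positivity)
  linarith

theorem claimC {f : ℝ → V → ℝ} (hf : SolP f) {b : ℝ} (hb : b < 0) : ∃ R₁ : ℝ, 1 ≤ R₁ ∧
    ∀ R : ℝ, R₁ ≤ R → Po (f b) R ≤ Dm (f b) R / (R * R ^ (1 / 300 : ℝ)) := by
  obtain ⟨x₁, hx₁⟩ := eventually_atTop.1 (claimC_x hf hb)
  obtain ⟨y, hy⟩ : ∃ y, y = max 1 x₁ := ⟨_, rfl⟩
  have hy1 : 1 ≤ y := by rw [hy]; exact le_max_left _ _
  refine ⟨y ^ 600, one_le_pow₀ hy1, fun R hR => ?_⟩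
  have hR1 : 1 ≤ R := (one_le_pow₀ hy1).trans hR
  have hR0 : 0 < R := by linarith
  obtain ⟨x, hx⟩ : ∃ x, x = R ^ (1 / 600 : ℝ) := ⟨_, rfl⟩
  have hx6 : x ^ 600 = R := by
    rw [hx, ← Real.rpow_natCast, ← Real.rpow_mul hR0.le]
    norm_num
  have hx2 : x ^ 2 = R ^ (1 / 300 : ℝ) := by
    rw [hx, ← Real.rpow_natCast, ← Real.rpow_mul hR0.le]
    norm_num
  have hyx : y ≤ x := by
    have h0 : 0 ≤ x := by rw [hx]; positivity
    by_contra hcon
    push Not at hcon
    have := pow_lt_pow_left₀ hcon h0 (show 600 ≠ 0 by norm_num)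
    linarith
  have h := hx₁ x (by
    have : x₁ ≤ y := by rw [hy]; exact le_max_right _ _
    linarith)
  rw [hx6, hx2] at h
  exact h

end Pool.Agent.LandauF
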