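import Pool.Agent.LandauF.FTopRic
import Pool.Agent.LandauF.FTopSum
import Pool.Agent.LandauF.FTopTime

/-!
# LandauF, module HDefs: definitions for the global argument

`dl R g v = g (R v)` the dilation (an exact symmetry of the equation, the time is unchanged),
`mq q g = ∫ g / ang ^ q`, `Po g R` the potential at the origin of the mass outside `B_R`, `mT g R` the
mass outside `B_R`, `Dm g R = ∫ g min (1, R/|v|)`, `Mo β g` finite moment of order `β`,
`Fa g a b` the Fisher information of the shell `a ≤ |v| ≤ b`.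
-/

set_option autoImplicit false

namespace Pool.Agent.LandauF

open MeasureTheory Set Filter Topology Pool.Agent.Landau

/-- dilation -/
noncomputable def dl (R : ℝ) (g : V → ℝ) (v : V) : ℝ := g (R • v)

/-- weighted mass with the weight `1 / ang ^ q` -/
noncomputable def mq (q : ℕ) (g : V → ℝ) : ℝ := ∫ v, g v / ang v ^ q

/-- potential at the origin of the mass outside `B_R` -/
noncomputable def Po (g : V → ℝ) (R : ℝ) : ℝ := ∫ w in {w : V | R ≤ ‖w‖}, g w / ‖w‖

/-- mass outside `B_R` -/
noncomputable def mT (g : V → ℝ) (R : ℝ) : ℝ := ∫ w in {w : V | R ≤ ‖w‖}, g w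

/-- `∫ g min (1, R / |v|)` -/
noncomputable def Dm (g : V → ℝ) (R : ℝ) : ℝ := ∫ v, g v * (R / max R ‖v‖)

/-- finite moment of order `β` -/
def Mo (β : ℝ) (g : V → ℝ) : Prop := Integrable (fun v => ‖v‖ ^ β * g v)

/-- Fisher information of a shell -/
noncomputable def Fa (g : V → ℝ) (a b : ℝ) : ℝ := ∫ v in {v : V | a ≤ ‖v‖ ∧ ‖v‖ ≤ b}, fi g v

end Pool.Agent.LandauF
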