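import Pool.Agent.LandauF.HDefs

/-!
# LandauF, module HDil: dilation of densities

Everything is the change of variables `u = R v` (`MeasureTheory.Measure.integral_comp_smul`, finrank
`V = 3`), `dl_int`, `dl_setInt`.  `dl_clw`: `dl R g / ang` is integrable since
`1 / ang v ≤ max 1 R / ang (R v)` (`ang (R v) ≤ max 1 R * ang v`).
`Kw_dl_le`: `R ang v ≥ ang (R v)` for `R ≥ 1`, so `Kw (dl R g) ≤ R ∫ g (R v) / ang (R v) dv = R Kw g / R³`.
`Kw_dl_Dm`: `Kw (dl R g) = R⁻³ ∫ g u / ang (u / R) du` and, with `m = max R |u|`,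
`R / m ≥ 1 / ang (u/R) = R / √(R² + |u|²) ≥ R / (√2 m) ≥ (1/2) R / m`.
`gam_dl`: chain rule, `gam i (dl R g) v = R gam i g (R v)`; hence `fi (dl R g) v = R² fi g (R v)`.
-/

set_option autoImplicit false

namespace Pool.Agent.LandauF

open MeasureTheory Set Filter Topology Pool.Agent.Landau

theorem dl_int (F : V → ℝ) {R : ℝ} (hR : 0 < R) : ∫ v, F (R • v) = (∫ v, F v) / R ^ 3 := by
  have h := Measure.integral_comp_smul_of_nonneg (volume : Measure V) F R (hR := hR.le)
  rw [h, finrank_euclideanSpace_fin, smul_eq_mul, div_eq_inv_mul]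

theorem dl_setInt (F : V → ℝ) (S : Set V) (hS : MeasurableSet S) {R : ℝ} (hR : 0 < R) :
    ∫ v in {v : V | R • v ∈ S}, F (R • v) = (∫ v in S, F v) / R ^ 3 := by
  have hm : MeasurableSet {v : V | R • v ∈ S} := (measurable_const_smul R) hS
  rw [← integral_indicator hm, ← integral_indicator hS, ← dl_int (S.indicator F) hR]
  congr 1

theorem dl_ang_smul {R : ℝ} (hR : 0 < R) (v : V) : ang (R • v) ≤ max 1 R * ang v := by
  unfold ang
  rw [Real.sqrt_le_left (by positivity), mul_pow, Real.sq_sqrt (by positivity), norm_smul,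
    Real.norm_eq_abs, abs_of_pos hR]
  have h1 : 1 ≤ max 1 R := le_max_left _ _
  have h2 : R ≤ max 1 R := le_max_right _ _
  have h3 : 1 ^ 2 ≤ (max 1 R) ^ 2 := pow_le_pow_left₀ zero_le_one h1 2
  have h4 : R ^ 2 ≤ (max 1 R) ^ 2 := pow_le_pow_left₀ hR.le h2 2
  have h5 : R ^ 2 * ‖v‖ ^ 2 ≤ (max 1 R) ^ 2 * ‖v‖ ^ 2 := mul_le_mul_of_nonneg_right h4 (by positivity)
  nlinarith

theorem dl_ang_cont : Continuous ang := ang_smooth.continuous

theorem dl_clw {g : V → ℝ} (hg : Clw g) {R : ℝ} (hR : 0 < R) : Clw (dl R g) := by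
  have hs : ContDiff ℝ (⊤ : ℕ∞) (dl R g) := hg.smooth.comp (contDiff_const_smul R)
  refine ⟨hs, fun v => hg.nonneg _, fun v => hg.le_one _, ?_⟩
  have h1 : Integrable (fun v : V => max 1 R * (g (R • v) / ang (R • v))) :=
    (hg.int.comp_smul hR.ne').const_mul _
  refine h1.mono' ?_ (Eventually.of_forall fun v => ?_)
  · exact (hs.continuous.div dl_ang_cont (fun v => (ang_pos v).ne')).aestronglyMeasurable
  · have h2 : 0 ≤ dl R g v := hg.nonneg _
    rw [Real.norm_eq_abs, abs_of_nonneg (div_nonneg h2 (ang_pos v).le)]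
    have h3 := dl_ang_smul hR v
    have h4 := ang_pos v
    have h5 := ang_pos (R • v)
    rw [div_le_iff₀ h4]
    have h6 : max 1 R * (g (R • v) / ang (R • v)) * ang v =
        g (R • v) * ((max 1 R * ang v) / ang (R • v)) := by ring
    rw [h6]
    have h7 : 1 ≤ (max 1 R * ang v) / ang (R • v) := (one_le_div h5).2 h3
    exact le_mul_of_one_le_right (hg.nonneg _) h7

theorem dl_Dn {g : V → ℝ} (hg : Dn g) {R : ℝ} (hR : 0 < R) : Dn (dl R g) :=
  ⟨dl_clw hg.cls hR, fun _ => hg.pos _⟩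

theorem Kw_dl_le {g : V → ℝ} (hg : Clw g) {R : ℝ} (hR : 1 ≤ R) : Kw (dl R g) ≤ Kw g / R ^ 2 := by
  have hR0 : 0 < R := lt_of_lt_of_le one_pos hR
  have h1 : Integrable (fun v : V => R * (g (R • v) / ang (R • v))) :=
    (hg.int.comp_smul hR0.ne').const_mul _
  have h2 : Kw (dl R g) ≤ ∫ v : V, R * (g (R • v) / ang (R • v)) := by
    refine integral_mono (dl_clw hg hR0).int h1 fun v => ?_
    have h3 := dl_ang_smul hR0 v
    rw [max_eq_right hR] at h3
    have h4 := ang_pos v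
    have h5 := ang_pos (R • v)
    show dl R g v / ang v ≤ R * (g (R • v) / ang (R • v))
    rw [div_le_iff₀ h4]
    have h6 : R * (g (R • v) / ang (R • v)) * ang v =
        g (R • v) * ((R * ang v) / ang (R • v)) := by ring
    rw [h6]
    have h7 : 1 ≤ (R * ang v) / ang (R • v) := (one_le_div h5).2 h3
    exact le_mul_of_one_le_right (hg.nonneg _) h7
  refine h2.trans (le_of_eq ?_)
  rw [integral_const_mul, dl_int (fun v => g v / ang v) hR0]
  unfold Kw
  field_simp

theorem Dm_int {g : V → ℝ} (hg : Clw g) {R : ℝ} (hR : 0 < R) :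
    Integrable (fun v => g v * (R / max R ‖v‖)) := by
  have hc : Continuous fun v : V => R / max R ‖v‖ := by
    refine continuous_const.div (continuous_const.max continuous_norm) fun v => ?_
    exact (lt_of_lt_of_le hR (le_max_left _ _)).ne'
  refine (hg.int.const_mul (1 + R)).mono' (hg.smooth.continuous.mul hc).aestronglyMeasurable
    (Eventually.of_forall fun v => ?_)
  have hm : 0 < max R ‖v‖ := lt_of_lt_of_le hR (le_max_left _ _)
  have h1 : 0 ≤ R / max R ‖v‖ := by positivity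
  rw [Real.norm_eq_abs, abs_of_nonneg (mul_nonneg (hg.nonneg _) h1)]
  have h2 : R / max R ‖v‖ ≤ (1 + R) / ang v := by
    rw [div_le_div_iff₀ hm (ang_pos v)]
    have h3 := ang_le v
    have h4 : R ≤ max R ‖v‖ := le_max_left _ _
    have h5 : ‖v‖ ≤ max R ‖v‖ := le_max_right _ _
    have h6 : R * ang v ≤ R * (1 + ‖v‖) := mul_le_mul_of_nonneg_left h3 hR.le
    nlinarith
  calc g v * (R / max R ‖v‖) ≤ g v * ((1 + R) / ang v) := mul_le_mul_of_nonneg_left h2 (hg.nonneg _)
    _ = (1 + R) * (g v / ang v) := by ring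

theorem Kw_dl_Dm {g : V → ℝ} (hg : Clw g) {R : ℝ} (hR : 0 < R) :
    Kw (dl R g) ≤ Dm g R / R ^ 3 ∧ Dm g R / R ^ 3 ≤ 2 * Kw (dl R g) := by
  have hcancel : ∀ u : V, R • (R⁻¹ • u) = u := fun u => by
    rw [smul_smul, mul_inv_cancel₀ hR.ne', one_smul]
  have hcancel' : ∀ u : V, R⁻¹ • (R • u) = u := fun u => by
    rw [smul_smul, inv_mul_cancel₀ hR.ne', one_smul]
  have h0 : Kw (dl R g) = (∫ u : V, g u / ang (R⁻¹ • u)) / R ^ 3 := by
    rw [← dl_int (fun u => g u / ang (R⁻¹ • u)) hR]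
    unfold Kw dl
    congr 1
    funext v
    rw [hcancel']
  have hi : Integrable (fun u : V => g u / ang (R⁻¹ • u)) := by
    have h1 := (dl_clw hg hR).int.comp_smul (inv_ne_zero hR.ne')
    unfold dl at h1
    simpa only [hcancel] using h1
  have hD := Dm_int hg hR
  have key : ∀ u : V, 1 / ang (R⁻¹ • u) ≤ R / max R ‖u‖ ∧
      R / max R ‖u‖ ≤ 2 * (1 / ang (R⁻¹ • u)) := by
    intro u
    have hm : 0 < max R ‖u‖ := lt_of_lt_of_le hR (le_max_left _ _)
    have ha := ang_pos (R⁻¹ • u)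
    have hn : ‖R⁻¹ • u‖ = ‖u‖ / R := by
      rw [norm_smul, Real.norm_eq_abs, abs_of_pos (inv_pos.2 hR), div_eq_inv_mul]
    constructor
    · rw [div_le_div_iff₀ ha hm, one_mul]
      rcases le_total R ‖u‖ with h | h
      · rw [max_eq_right h]
        have h1 := norm_le_ang (R⁻¹ • u)
        rw [hn, div_le_iff₀ hR] at h1
        linarith
      · rw [max_eq_left h]
        have h1 := one_le_ang (R⁻¹ • u)
        exact le_mul_of_one_le_right hR.le h1
    · rw [mul_one_div, div_le_div_iff₀ hm ha]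
      have h1 := ang_le (R⁻¹ • u)
      rw [hn] at h1
      have h2 : R * ang (R⁻¹ • u) ≤ R * (1 + ‖u‖ / R) := mul_le_mul_of_nonneg_left h1 hR.le
      have h3 : R * (1 + ‖u‖ / R) = R + ‖u‖ := by field_simp
      have h4 : R ≤ max R ‖u‖ := le_max_left _ _
      have h5 : ‖u‖ ≤ max R ‖u‖ := le_max_right _ _
      linarith
  rw [h0]
  constructor
  · apply div_le_div_of_nonneg_right _ (by positivity)
    refine integral_mono hi hD fun u => ?_
    have h1 := mul_le_mul_of_nonneg_left (key u).1 (hg.nonneg u)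
    rw [mul_one_div] at h1
    exact h1
  · rw [← mul_div_assoc]
    apply div_le_div_of_nonneg_right _ (by positivity)
    rw [← integral_const_mul]
    refine integral_mono hD (hi.const_mul 2) fun u => ?_
    have h1 := mul_le_mul_of_nonneg_left (key u).2 (hg.nonneg u)
    have h2 : g u * (2 * (1 / ang (R⁻¹ • u))) = 2 * (g u / ang (R⁻¹ • u)) := by ring
    rw [h2] at h1
    exact h1

theorem dl_norm_sub {R : ℝ} (hR : 0 < R) (v y : V) : ‖R • v - R • y‖ = R * ‖v - y‖ := by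
  rw [← smul_sub, norm_smul, Real.norm_eq_abs, abs_of_pos hR]

theorem dl_ball (y : V) (s : ℝ) {R : ℝ} (hR : 0 < R) :
    Metric.closedBall y s = {v : V | R • v ∈ Metric.closedBall (R • y) (R * s)} := by
  ext v
  rw [Metric.mem_closedBall, dist_eq_norm, Set.mem_ofPred_eq, Metric.mem_closedBall, dist_eq_norm,
    dl_norm_sub hR, mul_le_mul_iff_right₀ hR]

theorem mB_dl (g : V → ℝ) (y : V) (s : ℝ) {R : ℝ} (hR : 0 < R) :
    mB (dl R g) y s = mB g (R • y) (R * s) / R ^ 3 := by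
  unfold mB
  rw [← dl_setInt g _ Metric.isClosed_closedBall.measurableSet hR, ← dl_ball y s hR]
  rfl

theorem PB_dl (g : V → ℝ) (y : V) (s : ℝ) {R : ℝ} (hR : 0 < R) :
    PB (dl R g) y s = PB g (R • y) (R * s) / R ^ 2 := by
  have hset : {w : V | 10 * s ≤ ‖w - y‖} =
      {w : V | R • w ∈ {u : V | 10 * (R * s) ≤ ‖u - R • y‖}} := by
    ext w
    simp only [Set.mem_ofPred_eq]
    rw [dl_norm_sub hR, show 10 * (R * s) = R * (10 * s) by ring, mul_le_mul_iff_right₀ hR]
  have hm : MeasurableSet {u : V | 10 * (R * s) ≤ ‖u - R • y‖} :=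
    (isClosed_le continuous_const (by fun_prop)).measurableSet
  unfold PB
  rw [hset]
  have h1 : ∀ w : V, dl R g w / ‖w - y‖ = (fun u => R * (g u / ‖u - R • y‖)) (R • w) := by
    intro w
    simp only
    rw [dl_norm_sub hR]
    unfold dl
    rw [← mul_div_assoc, mul_div_mul_left _ _ hR.ne']
  simp only [h1]
  rw [dl_setInt (fun u => R * (g u / ‖u - R • y‖)) _ hm hR, integral_const_mul]
  field_simp

theorem pot_dl (g : V → ℝ) (v : V) {R : ℝ} (hR : 0 < R) :
    pot (dl R g) v = pot g (R • v) / R ^ 2 := by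
  unfold pot
  have h1 : ∀ w : V, dl R g w / ‖v - w‖ = (fun u => R * (g u / ‖R • v - u‖)) (R • w) := by
    intro w
    simp only
    rw [dl_norm_sub hR]
    unfold dl
    rw [← mul_div_assoc, mul_div_mul_left _ _ hR.ne']
  simp only [h1]
  rw [dl_int (fun u => R * (g u / ‖R • v - u‖)) hR, integral_const_mul]
  field_simp

theorem dl_norm {R : ℝ} (hR : 0 < R) (v : V) : ‖R • v‖ = R * ‖v‖ := by
  rw [norm_smul, Real.norm_eq_abs, abs_of_pos hR]

theorem dl_out (s : ℝ) {R : ℝ} (hR : 0 < R) :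
    {w : V | s ≤ ‖w‖} = {w : V | R • w ∈ {u : V | R * s ≤ ‖u‖}} := by
  ext w
  simp only [Set.mem_ofPred_eq]
  rw [dl_norm hR, mul_le_mul_iff_right₀ hR]

theorem Po_dl (g : V → ℝ) (s : ℝ) {R : ℝ} (hR : 0 < R) : Po (dl R g) s = Po g (R * s) / R ^ 2 := by
  have hm : MeasurableSet {u : V | R * s ≤ ‖u‖} :=
    (isClosed_le continuous_const continuous_norm).measurableSet
  unfold Po
  rw [dl_out s hR]
  have h1 : ∀ w : V, dl R g w / ‖w‖ = (fun u => R * (g u / ‖u‖)) (R • w) := by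
    intro w
    simp only
    rw [dl_norm hR]
    unfold dl
    rw [← mul_div_assoc, mul_div_mul_left _ _ hR.ne']
  simp only [h1]
  rw [dl_setInt (fun u => R * (g u / ‖u‖)) _ hm hR, integral_const_mul]
  field_simp

theorem mT_dl (g : V → ℝ) (s : ℝ) {R : ℝ} (hR : 0 < R) : mT (dl R g) s = mT g (R * s) / R ^ 3 := by
  have hm : MeasurableSet {u : V | R * s ≤ ‖u‖} :=
    (isClosed_le continuous_const continuous_norm).measurableSet
  unfold mT
  rw [dl_out s hR, ← dl_setInt g _ hm hR]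
  rfl

theorem gam_dl {g : V → ℝ} (hg : ContDiff ℝ (⊤ : ℕ∞) g) (i : Fin 3) (v : V) {R : ℝ} (hR : 0 < R) :
    gam i (dl R g) v = R * gam i g (R • v) := by
  have h1 : HasFDerivAt g (fderiv ℝ g (R • v)) (R • v) :=
    ((hg.differentiable (by simp)) _).hasFDerivAt
  have h2 : HasFDerivAt (fun w : V => R • w) (R • ContinuousLinearMap.id ℝ V) v :=
    (hasFDerivAt_id v).const_smul R
  have h3 : HasFDerivAt (dl R g) ((fderiv ℝ g (R • v)).comp (R • ContinuousLinearMap.id ℝ V)) v :=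
    h1.comp v h2
  unfold gam pd
  rw [h3.fderiv]
  simp only [ContinuousLinearMap.comp_apply, ContinuousLinearMap.smul_apply,
    ContinuousLinearMap.id_apply, map_smul, smul_eq_mul]
  unfold dl
  rw [mul_div_assoc]

theorem fi_dl {g : V → ℝ} (hg : ContDiff ℝ (⊤ : ℕ∞) g) (v : V) {R : ℝ} (hR : 0 < R) :
    fi (dl R g) v = R ^ 2 * fi g (R • v) := by
  unfold fi x2
  simp only [gam_dl hg _ v hR, mul_pow]
  rw [← Finset.mul_sum]
  unfold dl
  ring

theorem JB_dl {g : V → ℝ} (hg : ContDiff ℝ (⊤ : ℕ∞) g) (y : V) (s : ℝ) {R : ℝ} (hR : 0 < R) :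
    JB (dl R g) y s = JB g (R • y) (R * s) / R := by
  unfold JB
  simp only [fi_dl hg _ hR]
  rw [integral_const_mul, dl_ball y s hR,
    dl_setInt (fun u => fi g u) _ Metric.isClosed_closedBall.measurableSet hR]
  field_simp

theorem Fa_dl {g : V → ℝ} (hg : ContDiff ℝ (⊤ : ℕ∞) g) (a b : ℝ) {R : ℝ} (hR : 0 < R) :
    Fa (dl R g) a b = Fa g (R * a) (R * b) / R := by
  have hset : {v : V | a ≤ ‖v‖ ∧ ‖v‖ ≤ b} =
      {v : V | R • v ∈ {u : V | R * a ≤ ‖u‖ ∧ ‖u‖ ≤ R * b}} := by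
    ext w
    simp only [Set.mem_ofPred_eq]
    rw [dl_norm hR, mul_le_mul_iff_right₀ hR, mul_le_mul_iff_right₀ hR]
  have hm : MeasurableSet {u : V | R * a ≤ ‖u‖ ∧ ‖u‖ ≤ R * b} :=
    ((isClosed_le continuous_const continuous_norm).inter
      (isClosed_le continuous_norm continuous_const)).measurableSet
  unfold Fa
  simp only [fi_dl hg _ hR]
  rw [integral_const_mul, hset, dl_setInt (fun u => fi g u) _ hm hR]
  field_simp

theorem FJ_dl {g : V → ℝ} (hg : ContDiff ℝ (⊤ : ℕ∞) g) (φ : V → ℝ) {R : ℝ} (hR : 0 < R) :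
    FJ φ (dl R g) = FJ (fun v => φ (R⁻¹ • v)) g / R := by
  unfold FJ
  have h1 : ∀ v : V, φ v * fi (dl R g) v =
      (fun u => R ^ 2 * (φ (R⁻¹ • u) * fi g u)) (R • v) := by
    intro v
    simp only
    rw [fi_dl hg v hR, smul_smul, inv_mul_cancel₀ hR.ne', one_smul]
    ring
  simp only [h1]
  rw [dl_int (fun u => R ^ 2 * (φ (R⁻¹ • u) * fi g u)) hR, integral_const_mul]
  field_simp

end Pool.Agent.LandauF
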