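import Pool.Agent.LandauF.HInvAng
import Pool.Agent.LandauF.HDil

/-!
# LandauF, module HPBlow: lower bounds of the outside potential of a cell, small lemmas

Everything for `Clw g`.  If `‖y‖ ≤ 3/10` then `‖w - y‖ ≤ ‖w‖ + 3/10 ≤ (13/10) ang w`, so
`1 / ‖w - y‖ ≥ (3/4) / ang w` (for `w ≠ y`; the point `w = y` does not belong to the domain of `PB`).
`PB_low1`: for `‖w‖ ≥ 1/2`, `‖w - y‖ ≥ 1/5 ≥ 10 s`; `psO ≤ 1/ang` and `psO = 0` for `‖w‖ ≤ 1/2`.
`PB_low2`: `∫_{10 s ≤ ‖w-y‖} g/ang = Kw g - ∫_{‖w-y‖ < 10 s} g/ang ≥ Kw g - mB g y (10 s)` (`ang ≥ 1`).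
`psO_Po`: `psO = 1/ang ≥ (1/2)/‖w‖` for `‖w‖ ≥ 1` (`ang ≤ 2 ‖w‖`), `psO ≥ 0`.
`cell_lo`, `cell_hi`: `chi ρ (v - y)` is `1` on the closed ball of radius `ρ`, in `[0, 1]`, `0` off the ball of radius `2 ρ`.
`mB_unit`: the ball is contained in the unit ball (`Clw.int_ball_le` with `R = 1`); `mB_three` with `R = 3`.
`mB_mono`: monotonicity in the radius; `Kw_pos`: a positive continuous function has a positive integral.
-/

set_option autoImplicit false

namespace Pool.Agent.LandauF

open MeasureTheory Set Filter Topology Pool.Agent.Landau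

private theorem gnn {g : V → ℝ} (hg : Clw g) (v : V) : 0 ≤ g v / ang v :=
  div_nonneg (hg.nonneg v) (ang_pos v).le

private theorem io_of_le {g : V → ℝ} (hg : Clw g) {F : V → ℝ} (hF : Measurable F) {S : Set V}
    (hS : MeasurableSet S) (C : ℝ) (h : ∀ v ∈ S, |F v| ≤ C * (g v / ang v)) : IntegrableOn F S := by
  refine Integrable.mono' (hg.int.const_mul C).integrableOn hF.aestronglyMeasurable ?_
  refine (ae_restrict_iff' hS).2 (Eventually.of_forall fun v hv => ?_)
  rw [Real.norm_eq_abs]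
  exact h v hv

private theorem meas_far (y : V) (s : ℝ) : MeasurableSet {w : V | 10 * s ≤ ‖w - y‖} :=
  measurableSet_le measurable_const (measurable_id.sub_const y).norm

private theorem meas_out (R : ℝ) : MeasurableSet {w : V | R ≤ ‖w‖} :=
  measurableSet_le measurable_const measurable_norm

theorem PB_int {g : V → ℝ} (hg : Clw g) (y : V) {s : ℝ} (hs : 0 < s) :
    IntegrableOn (fun w => g w / ‖w - y‖) {w : V | 10 * s ≤ ‖w - y‖} := by
  refine io_of_le hg (hg.cont.measurable.div (measurable_id.sub_const y).norm) (meas_far y s)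
    (1 + (1 + ‖y‖) / (10 * s)) (fun w hw => ?_)
  have hw' : 10 * s ≤ ‖w - y‖ := hw
  have hd : 0 < ‖w - y‖ := lt_of_lt_of_le (by linarith) hw'
  have h1 : ang w ≤ 1 + ‖y‖ + ‖w - y‖ := by
    have h2 := ang_le w
    have h3 : ‖w‖ ≤ ‖y‖ + ‖w - y‖ := by
      have := norm_add_le y (w - y)
      rwa [add_sub_cancel] at this
    linarith
  have h4 : ang w ≤ (1 + (1 + ‖y‖) / (10 * s)) * ‖w - y‖ := by
    have h5 : 1 + ‖y‖ ≤ (1 + ‖y‖) / (10 * s) * ‖w - y‖ := by
      rw [div_mul_eq_mul_div, le_div_iff₀ (by linarith)]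
      exact mul_le_mul_of_nonneg_left hw' (by positivity)
    linarith
  have h6 := ang_pos w
  show |g w / ‖w - y‖| ≤ (1 + (1 + ‖y‖) / (10 * s)) * (g w / ang w)
  rw [abs_of_nonneg (div_nonneg (hg.nonneg w) hd.le), ← mul_div_assoc,
    div_le_div_iff₀ hd h6]
  calc g w * ang w ≤ g w * ((1 + (1 + ‖y‖) / (10 * s)) * ‖w - y‖) :=
        mul_le_mul_of_nonneg_left h4 (hg.nonneg w)
    _ = _ := by ring

theorem Po_int {g : V → ℝ} (hg : Clw g) {R : ℝ} (hR : 0 < R) :
    IntegrableOn (fun w => g w / ‖w‖) {w : V | R ≤ ‖w‖} := by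
  have h := PB_int hg (0 : V) (s := R / 10) (by positivity)
  have he : 10 * (R / 10) = R := by ring
  simpa only [sub_zero, he] using h

private theorem dist_le {y w : V} (hy : ‖y‖ ≤ 3 / 10) : ‖w - y‖ ≤ 13 / 10 * ang w := by
  have h1 := norm_sub_le w y
  have h2 := norm_le_ang w
  have h3 := one_le_ang w
  linarith

private theorem pt_le {g : V → ℝ} (hg : Clw g) {y w : V} (hy : ‖y‖ ≤ 3 / 10) (hw : 0 < ‖w - y‖) :
    3 / 4 * (g w / ang w) ≤ g w / ‖w - y‖ := by
  have h1 := dist_le (w := w) hy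
  have h2 := ang_pos w
  rw [← mul_div_assoc, div_le_div_iff₀ h2 hw]
  have h3 := hg.nonneg w
  have h4 : g w * ‖w - y‖ ≤ g w * (13 / 10 * ang w) := mul_le_mul_of_nonneg_left h1 h3
  have h5 : 0 ≤ g w * ang w := mul_nonneg h3 h2.le
  nlinarith

private theorem psO_meas : Measurable psO := by
  obtain ⟨A, -, h, -⟩ := outer_test
  exact h.continuous.measurable

private theorem psO_nn (v : V) : 0 ≤ psO v ∧ psO v ≤ 1 / ang v := by
  obtain ⟨A, -, -, -, -, -, h, -⟩ := outer_test
  exact h v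

private theorem psO_zero (v : V) (h : ‖v‖ ≤ 1 / 2) : psO v = 0 := by
  obtain ⟨A, -, -, -, -, -, -, h0, -⟩ := outer_test
  exact h0 v h

private theorem psO_one (v : V) (h : 1 ≤ ‖v‖) : psO v = 1 / ang v := by
  obtain ⟨A, -, -, -, -, -, -, -, h0⟩ := outer_test
  exact h0 v h

private theorem psO_g_le {g : V → ℝ} (hg : Clw g) (v : V) : psO v * g v ≤ g v / ang v := by
  have h := mul_le_mul_of_nonneg_right (psO_nn v).2 (hg.nonneg v)
  calc psO v * g v ≤ 1 / ang v * g v := h
    _ = g v / ang v := by ring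

private theorem psO_int {g : V → ℝ} (hg : Clw g) : Integrable (fun v => psO v * g v) := by
  rw [← integrableOn_univ]
  refine io_of_le hg (psO_meas.mul hg.cont.measurable) MeasurableSet.univ 1 (fun v _ => ?_)
  show |psO v * g v| ≤ 1 * (g v / ang v)
  rw [abs_of_nonneg (mul_nonneg (psO_nn v).1 (hg.nonneg v)), one_mul]
  exact psO_g_le hg v

theorem PB_low1 {g : V → ℝ} (hg : Clw g) {y : V} {s : ℝ} (hy : ‖y‖ ≤ 3 / 10) (hs : 0 < s)
    (hs1 : s ≤ 1 / 50) : 3 / 4 * (∫ v, psO v * g v) ≤ PB g y s := by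
  unfold PB
  rw [← integral_indicator (meas_far y s), ← integral_const_mul]
  refine integral_mono ((psO_int hg).const_mul _)
    ((PB_int hg y hs).integrable_indicator (meas_far y s)) (fun w => ?_)
  by_cases hw : w ∈ {w : V | 10 * s ≤ ‖w - y‖}
  · rw [indicator_of_mem hw]
    have hw' : 10 * s ≤ ‖w - y‖ := hw
    have hd : 0 < ‖w - y‖ := lt_of_lt_of_le (by linarith) hw'
    have h1 := pt_le hg hy hd
    have h2 := psO_g_le hg w
    have h3 : 3 / 4 * (psO w * g w) ≤ 3 / 4 * (g w / ang w) := by linarith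
    exact h3.trans h1
  · rw [indicator_of_notMem hw]
    have hw' : ‖w - y‖ < 10 * s := not_le.1 hw
    have h1 : ‖w‖ ≤ 1 / 2 := by
      have := norm_add_le y (w - y)
      rw [add_sub_cancel] at this
      linarith
    simp only [psO_zero w h1, zero_mul, mul_zero, le_refl]

theorem PB_low2 {g : V → ℝ} (hg : Clw g) {y : V} {s : ℝ} (hy : ‖y‖ ≤ 3 / 10) (hs : 0 < s) :
    3 / 4 * (Kw g - mB g y (10 * s)) ≤ PB g y s := by
  unfold PB Kw mB
  have hB : MeasurableSet (Metric.closedBall y (10 * s)) := Metric.isClosed_closedBall.measurableSet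
  have hgi : IntegrableOn g (Metric.closedBall y (10 * s)) :=
    hg.cont.continuousOn.integrableOn_compact (isCompact_closedBall _ _)
  rw [← integral_indicator (meas_far y s), ← integral_indicator hB,
    ← integral_sub hg.int (hgi.integrable_indicator hB), ← integral_const_mul]
  refine integral_mono ((hg.int.sub (hgi.integrable_indicator hB)).const_mul _)
    ((PB_int hg y hs).integrable_indicator (meas_far y s)) (fun w => ?_)
  have hi0 : 0 ≤ (Metric.closedBall y (10 * s)).indicator g w :=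
    indicator_nonneg (fun v _ => hg.nonneg v) w
  by_cases hw : w ∈ {w : V | 10 * s ≤ ‖w - y‖}
  · rw [indicator_of_mem hw]
    have hw' : 10 * s ≤ ‖w - y‖ := hw
    have hd : 0 < ‖w - y‖ := lt_of_lt_of_le (by linarith) hw'
    have h1 := pt_le hg hy hd
    have h3 : 3 / 4 * (g w / ang w - (Metric.closedBall y (10 * s)).indicator g w)
        ≤ 3 / 4 * (g w / ang w) := by linarith
    exact h3.trans h1
  · rw [indicator_of_notMem hw]
    have hw' : ‖w - y‖ < 10 * s := not_le.1 hw
    have hb : w ∈ Metric.closedBall y (10 * s) := by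
      rw [Metric.mem_closedBall, dist_eq_norm]
      exact hw'.le
    have h1 : g w / ang w ≤ g w := div_le_self (hg.nonneg w) (one_le_ang w)
    show 3 / 4 * (g w / ang w - (Metric.closedBall y (10 * s)).indicator g w) ≤ 0
    rw [indicator_of_mem hb]
    linarith

theorem psO_Po {g : V → ℝ} (hg : Clw g) : 1 / 2 * Po g 1 ≤ ∫ v, psO v * g v := by
  unfold Po
  rw [← integral_indicator (meas_out 1), ← integral_const_mul]
  refine integral_mono (((Po_int hg one_pos).integrable_indicator (meas_out 1)).const_mul _)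
    (psO_int hg) (fun w => ?_)
  by_cases hw : w ∈ {w : V | 1 ≤ ‖w‖}
  · have hw' : 1 ≤ ‖w‖ := hw
    show 1 / 2 * ({w : V | 1 ≤ ‖w‖}.indicator (fun w => g w / ‖w‖) w) ≤ psO w * g w
    rw [indicator_of_mem hw, psO_one w hw', one_div_mul_eq_div, one_div, ← div_eq_inv_mul,
      div_div, div_le_div_iff₀ (by linarith) (ang_pos w)]
    refine mul_le_mul_of_nonneg_left ?_ (hg.nonneg w)
    have := ang_le w
    linarith
  · show 1 / 2 * ({w : V | 1 ≤ ‖w‖}.indicator (fun w => g w / ‖w‖) w) ≤ psO w * g w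
    rw [indicator_of_notMem hw, mul_zero]
    exact mul_nonneg (psO_nn w).1 (hg.nonneg w)

private theorem cell_int {g : V → ℝ} (hg : Clw g) (y : V) {ρ : ℝ} (hρ : 0 < ρ) :
    Integrable (fun v => chi ρ (v - y) * g v) := by
  have hc : Continuous (fun v => chi ρ (v - y) * g v) :=
    ((chi_smooth ρ).continuous.comp (continuous_id.sub continuous_const)).mul hg.cont
  refine hc.integrable_of_hasCompactSupport ?_
  refine HasCompactSupport.intro (isCompact_closedBall y (2 * ρ)) fun v hv => ?_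
  rw [Metric.mem_closedBall, dist_eq_norm, not_le] at hv
  rw [chi_zero hρ hv.le, zero_mul]

private theorem ball_int {g : V → ℝ} (hg : Clw g) (y : V) (ρ : ℝ) :
    IntegrableOn g (Metric.closedBall y ρ) :=
  hg.cont.continuousOn.integrableOn_compact (isCompact_closedBall _ _)

private theorem ball_meas (y : V) (ρ : ℝ) : MeasurableSet (Metric.closedBall y ρ) :=
  Metric.isClosed_closedBall.measurableSet

theorem cell_lo {g : V → ℝ} (hg : Clw g) (y : V) {ρ : ℝ} (hρ : 0 < ρ) :
    mB g y ρ ≤ ∫ v, chi ρ (v - y) * g v := by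
  unfold mB
  rw [← integral_indicator (ball_meas y ρ)]
  refine integral_mono ((ball_int hg y ρ).integrable_indicator (ball_meas y ρ))
    (cell_int hg y hρ) (fun v => ?_)
  by_cases hv : v ∈ Metric.closedBall y ρ
  · rw [indicator_of_mem hv]
    rw [Metric.mem_closedBall, dist_eq_norm] at hv
    show g v ≤ chi ρ (v - y) * g v
    rw [chi_one hρ hv, one_mul]
  · rw [indicator_of_notMem hv]
    exact mul_nonneg (chi_nonneg _ _) (hg.nonneg v)

theorem cell_hi {g : V → ℝ} (hg : Clw g) (y : V) {ρ : ℝ} (hρ : 0 < ρ) :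
    ∫ v, chi ρ (v - y) * g v ≤ mB g y (2 * ρ) := by
  unfold mB
  rw [← integral_indicator (ball_meas y (2 * ρ))]
  refine integral_mono (cell_int hg y hρ)
    ((ball_int hg y (2 * ρ)).integrable_indicator (ball_meas y (2 * ρ))) (fun v => ?_)
  by_cases hv : v ∈ Metric.closedBall y (2 * ρ)
  · rw [indicator_of_mem hv]
    exact mul_le_of_le_one_left (hg.nonneg v) (chi_le_one _ _)
  · rw [indicator_of_notMem hv]
    rw [Metric.mem_closedBall, dist_eq_norm, not_le] at hv
    show chi ρ (v - y) * g v ≤ 0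
    rw [chi_zero hρ hv.le, zero_mul]

private theorem mB_set {g : V → ℝ} (hg : Clw g) (y : V) {ρ R : ℝ}
    (h : ∀ v ∈ Metric.closedBall y ρ, ‖v‖ ≤ R) : mB g y ρ ≤ ∫ v in {v : V | ‖v‖ ≤ R}, g v := by
  unfold mB
  exact setIntegral_mono_set (hg.int_ball R) (Eventually.of_forall fun v => hg.nonneg v)
    (Eventually.of_forall (fun v hv => h v hv))

theorem mB_unit {g : V → ℝ} (hg : Clw g) {y : V} {ρ : ℝ} (h : ‖y‖ + ρ ≤ 1) :
    mB g y ρ ≤ 2 * Kw g := by
  have h1 := mB_set hg y (ρ := ρ) (R := 1) (fun v hv => by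
    rw [Metric.mem_closedBall, dist_eq_norm] at hv
    have := norm_add_le y (v - y)
    rw [add_sub_cancel] at this
    linarith)
  have h2 := hg.int_ball_le (R := 1) le_rfl
  linarith

theorem mB_three {g : V → ℝ} (hg : Clw g) : mB g 0 3 ≤ 6 * Kw g := by
  have h1 := mB_set hg 0 (ρ := 3) (R := 3) (fun v hv => by
    rwa [mem_closedBall_zero_iff] at hv)
  have h2 := hg.int_ball_le (R := 3) (by norm_num)
  linarith

theorem mB_mono {g : V → ℝ} (hg : Clw g) (y : V) {ρ σ : ℝ} (h : ρ ≤ σ) : mB g y ρ ≤ mB g y σ := by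
  unfold mB
  exact setIntegral_mono_set (ball_int hg y σ) (Eventually.of_forall fun v => hg.nonneg v)
    (Eventually.of_forall (Metric.closedBall_subset_closedBall h))

theorem mB_nonneg {g : V → ℝ} (hg : Clw g) (y : V) (ρ : ℝ) : 0 ≤ mB g y ρ :=
  integral_nonneg fun v => hg.nonneg v

theorem Kw_pos {g : V → ℝ} (hg : Dn g) : 0 < Kw g := by
  unfold Kw
  rw [integral_pos_iff_support_of_nonneg (fun v => gnn hg.cls v) hg.cls.int]
  have h : Function.support (fun v => g v / ang v) = univ := by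
    ext v
    simp only [Function.mem_support, mem_univ, iff_true]
    exact (div_pos (hg.pos v) (ang_pos v)).ne'
  rw [h]
  exact isOpen_univ.measure_pos volume univ_nonempty

theorem JB_nonneg {g : V → ℝ} (hg : Dn g) (y : V) (ρ : ℝ) : 0 ≤ JB g y ρ :=
  integral_nonneg fun v => mul_nonneg (hg.pos v).le (Finset.sum_nonneg fun _ _ => sq_nonneg _)

theorem FJ_nonneg {g : V → ℝ} (hg : Dn g) {φ : V → ℝ} (h : ∀ v, 0 ≤ φ v) : 0 ≤ FJ φ g :=
  integral_nonneg fun v => mul_nonneg (h v)
    (mul_nonneg (hg.pos v).le (Finset.sum_nonneg fun _ _ => sq_nonneg _))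

end Pool.Agent.LandauF
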