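import Pool.Agent.LandauF.HEnR
import Pool.Agent.LandauF.HPBlow
import Pool.Agent.LandauG.WCons
import Pool.Agent.LandauG.WTime

/-!
# LandauF, module HEnF: the tail is frozen on time scales `ρ ^ τ`, `τ ≤ min 3 (2 + 2β/3)`

`Tl f b β τ c C ρ₀`: `mT (f t) ρ ≤ C ρ^(-β)` for all `ρ ≥ ρ₀` and `t ∈ [b - c ρ^τ, b]`.

Let `N = ∫ f b` (`mass_at`: `f t` is integrable with the same integral for every `t ≤ 0`), `M = ∫ ‖v‖^β f b > 0`,
`E t = ρ² N + ∫ wE ρ f t = ∫ (ρ² + wE ρ) f t`, continuous on `(-∞, 0]` (`timeW_cont`).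
(1) `E b ≤ 4 ∫ min (‖v‖²) ρ² f b ≤ 4 ρ^(2-β) M =: E0` (`wE_hi`; `min (r²) ρ² ≤ r^β ρ^(2-β)` as `0 ≤ β ≤ 2`).
(2) `mT (f t) σ ≤ E t / min (σ²) ρ²` for `σ > 0` (`wE_lo`): `mT (f t) (ρ/2) ≤ 4 E t/ρ²`, `mT (f t) (ρ/4) ≤ 16 E t/ρ²`,
`mT (f t) ρ ≤ E t/ρ²`.
(3) On an interval `[s, b]` where `E ≤ 2 E0`: by `ener_rate`, (2), `E/ρ² ≤ 8 M ρ^(-β)` and `ρ ≥ 1`:
`|∫ wE ρ QL (f t)| ≤ C (8 E0/ρ²)((128 M)^(2/3) ρ^(-2β/3) + N/ρ) ≤ C' E0 ρ^(-τ)` with `C'` depending on `C, M, N` only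
(`-2 - 2β/3 ≤ -τ`, `-3 ≤ -τ`, `ρ ≥ 1`).  `timeW_lip`: `|E t - E b| ≤ C' E0 ρ^(-τ) (b - t)` on `[s, b]`.
(4) Let `c = 1/(2 C')`.  Then `E ≤ 2 E0` on `[b - c ρ^τ, b]`: otherwise let `s` be the supremum of the closed set of
`t` in this interval with `E t ≥ 2 E0`; `s < b`, `E s = 2 E0`, `E ≤ 2 E0` on `[s, b]`, so by (3)
`E s ≤ E b + C' E0 c ≤ E0 + E0/2`, a contradiction.
(5) So `mT (f t) ρ ≤ 2 E0/ρ² = 8 M ρ^(-β)` on this interval.  `ρ₀ = 1`, `C = 8 M`.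
-/

set_option autoImplicit false

namespace Pool.Agent.LandauF

open MeasureTheory Set Filter Topology Pool.Agent.Landau

/-- tail bounds on the windows `[b - c ρ ^ τ, b]` -/
def Tl (f : ℝ → V → ℝ) (b β τ c C ρ₀ : ℝ) : Prop :=
  ∀ ρ : ℝ, ρ₀ ≤ ρ → ∀ t ∈ Icc (b - c * ρ ^ τ) b, mT (f t) ρ ≤ C * ρ ^ (-β)

/-- continuity argument -/
theorem enf_cont {E : ℝ → ℝ} {a b E0 K : ℝ} (hc : ContinuousOn E (Icc a b)) (h0 : 0 < E0)
    (hb : E b ≤ E0) (hK : 0 ≤ K) (hKab : K * (b - a) ≤ E0 / 2)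
    (h : ∀ s ∈ Icc a b, (∀ t ∈ Ioo s b, E t ≤ 2 * E0) → E s ≤ E b + K * (b - s)) :
    ∀ t ∈ Icc a b, E t ≤ 2 * E0 := by
  intro t ht
  by_contra hcon
  push Not at hcon
  have hS : IsClosed (Icc a b ∩ E ⁻¹' Ici (2 * E0)) :=
    hc.preimage_isClosed_of_isClosed isClosed_Icc isClosed_Ici
  have hne : (Icc a b ∩ E ⁻¹' Ici (2 * E0)).Nonempty := ⟨t, ht, hcon.le⟩
  have hbd : BddAbove (Icc a b ∩ E ⁻¹' Ici (2 * E0)) := ⟨b, fun x hx => hx.1.2⟩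
  have hs := hS.csSup_mem hne hbd
  have h1 : ∀ t ∈ Ioo (sSup (Icc a b ∩ E ⁻¹' Ici (2 * E0))) b, E t ≤ 2 * E0 := by
    intro x hx
    by_contra hx'
    push Not at hx'
    have : x ≤ sSup (Icc a b ∩ E ⁻¹' Ici (2 * E0)) :=
      le_csSup hbd ⟨⟨hs.1.1.trans hx.1.le, hx.2.le⟩, hx'.le⟩
    exact absurd hx.1 (not_lt.2 this)
  have h2 := h _ hs.1 h1
  have h3 := mul_le_mul_of_nonneg_left (sub_le_sub_left hs.1.1 b) hK
  have h4 : 2 * E0 ≤ E (sSup (Icc a b ∩ E ⁻¹' Ici (2 * E0))) := hs.2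
  linarith

theorem enf_int {g : V → ℝ} (hg : Clw g) {ρ : ℝ} (hρ : 0 < ρ) :
    Integrable (fun v => wE ρ v * g v) :=
  ((wE_smooth ρ).continuous.mul hg.cont).integrable_of_hasCompactSupport
    (wE_compact hρ).mul_right

theorem enf_eq {g : V → ℝ} (hg : Clw g) (hi : Integrable g) {ρ : ℝ} (hρ : 0 < ρ) :
    Integrable (fun v => (ρ ^ 2 + wE ρ v) * g v) ∧
      ∫ v, (ρ ^ 2 + wE ρ v) * g v = ρ ^ 2 * (∫ v, g v) + ∫ v, wE ρ v * g v := by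
  have h1 := enf_int hg hρ
  have h2 := hi.const_mul (ρ ^ 2)
  have e : (fun v => (ρ ^ 2 + wE ρ v) * g v) = fun v => ρ ^ 2 * g v + wE ρ v * g v := by
    funext v
    ring
  constructor
  · rw [e]
    exact h2.add h1
  · rw [e, integral_add h2 h1, integral_const_mul]

theorem enf_nn {ρ : ℝ} (hρ : 0 < ρ) (v : V) : 0 ≤ ρ ^ 2 + wE ρ v :=
  le_trans (le_min (sq_nonneg _) (sq_nonneg _)) (wE_lo hρ v)

theorem enf_mT {g : V → ℝ} (hg : Clw g) (hi : Integrable g) {ρ σ : ℝ} (hρ : 0 < ρ)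
    (hσ : 0 < σ) :
    mT g σ * min (σ ^ 2) (ρ ^ 2) ≤ ρ ^ 2 * (∫ v, g v) + ∫ v, wE ρ v * g v := by
  obtain ⟨h1, h2⟩ := enf_eq hg hi hρ
  rw [← h2]
  have hm : MeasurableSet {v : V | σ ≤ ‖v‖} := measurableSet_le measurable_const measurable_norm
  calc mT g σ * min (σ ^ 2) (ρ ^ 2)
      = ∫ v in {v : V | σ ≤ ‖v‖}, min (σ ^ 2) (ρ ^ 2) * g v := by
        unfold mT
        rw [integral_const_mul]
        ring
    _ ≤ ∫ v in {v : V | σ ≤ ‖v‖}, (ρ ^ 2 + wE ρ v) * g v := by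
        refine setIntegral_mono_on (hi.const_mul _).integrableOn h1.integrableOn hm
          fun v hv => ?_
        refine mul_le_mul_of_nonneg_right (le_trans ?_ (wE_lo hρ v)) (hg.nonneg v)
        exact min_le_min_right _ (pow_le_pow_left₀ hσ.le hv 2)
    _ ≤ ∫ v, (ρ ^ 2 + wE ρ v) * g v :=
        setIntegral_le_integral h1
          (Eventually.of_forall fun v => mul_nonneg (enf_nn hρ v) (hg.nonneg v))

theorem enf_min {r ρ β : ℝ} (hr : 0 ≤ r) (hρ : 0 < ρ) (hβ : 0 < β) (hβ2 : β ≤ 2) :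
    min (r ^ 2) (ρ ^ 2) ≤ ρ ^ (2 - β) * r ^ β := by
  rcases hr.eq_or_lt with h0 | h0
  · refine (min_le_left _ _).trans ?_
    rw [← h0]
    have : (0 : ℝ) ≤ ρ ^ (2 - β) * 0 ^ β := by positivity
    simpa using this
  rcases le_total r ρ with h | h
  · refine (min_le_left _ _).trans ?_
    calc r ^ 2 = r ^ (2 - β) * r ^ β := by
          rw [← Real.rpow_add h0, sub_add_cancel, Real.rpow_two]
      _ ≤ ρ ^ (2 - β) * r ^ β :=
          mul_le_mul_of_nonneg_right (Real.rpow_le_rpow hr h (by linarith))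
            (Real.rpow_nonneg hr _)
  · refine (min_le_right _ _).trans ?_
    calc ρ ^ 2 = ρ ^ (2 - β) * ρ ^ β := by
          rw [← Real.rpow_add hρ, sub_add_cancel, Real.rpow_two]
      _ ≤ ρ ^ (2 - β) * r ^ β :=
          mul_le_mul_of_nonneg_left (Real.rpow_le_rpow hρ.le h hβ.le)
            (Real.rpow_nonneg hρ.le _)

theorem enf_E0 {g : V → ℝ} (hg : Clw g) (hi : Integrable g) {β : ℝ} (hβ : 0 < β) (hβ2 : β ≤ 2)
    (hM : Mo β g) {ρ : ℝ} (hρ : 0 < ρ) :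
    ρ ^ 2 * (∫ v, g v) + ∫ v, wE ρ v * g v ≤ 4 * ρ ^ (2 - β) * ∫ v, ‖v‖ ^ β * g v := by
  obtain ⟨h1, h2⟩ := enf_eq hg hi hρ
  rw [← h2, ← integral_const_mul]
  refine integral_mono h1 (hM.const_mul _) fun v => ?_
  have h3 := (wE_hi hρ v).trans
    (mul_le_mul_of_nonneg_left (enf_min (norm_nonneg v) hρ hβ hβ2) (by norm_num : (0 : ℝ) ≤ 4))
  calc (ρ ^ 2 + wE ρ v) * g v ≤ (4 * (ρ ^ (2 - β) * ‖v‖ ^ β)) * g v :=
        mul_le_mul_of_nonneg_right h3 (hg.nonneg v)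
    _ = 4 * ρ ^ (2 - β) * (‖v‖ ^ β * g v) := by ring

theorem ener_froz {f : ℝ → V → ℝ} (hf : SolP f) {b : ℝ} (hb : b < 0) (hi : Integrable (f b))
    {β τ : ℝ} (hβ : 0 < β) (hβ2 : β ≤ 2) (hτ0 : 0 ≤ τ) (hτ : τ ≤ 3) (hτβ : τ ≤ 2 + 2 * β / 3)
    (hM : Mo β (f b)) :
    ∃ c C ρ₀ : ℝ, 0 < c ∧ 0 < C ∧ 1 ≤ ρ₀ ∧ Tl f b β τ c C ρ₀ := by
  obtain ⟨C, hC, hr⟩ := ener_rate
  have hcb := hf.sol.cls b hb.le
  obtain ⟨N, hN⟩ : ∃ N, N = ∫ v, f b v := ⟨_, rfl⟩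
  have hN0 : 0 ≤ N := by
    rw [hN]
    exact integral_nonneg hcb.nonneg
  obtain ⟨M, hM'⟩ : ∃ M, M = (∫ v, ‖v‖ ^ β * f b v) + 1 := ⟨_, rfl⟩
  have hMi : 0 ≤ ∫ v, ‖v‖ ^ β * f b v :=
    integral_nonneg fun v => mul_nonneg (Real.rpow_nonneg (norm_nonneg v) _) (hcb.nonneg v)
  have hM0 : 0 < M := by linarith
  obtain ⟨C', hC'⟩ : ∃ C', C' = 8 * C * ((128 * M) ^ (2 / 3 : ℝ) + N) := ⟨_, rfl⟩
  have hC'0 : 0 < C' := by
    rw [hC']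
    have : 0 < (128 * M) ^ (2 / 3 : ℝ) := Real.rpow_pos_of_pos (by positivity) _
    positivity
  refine ⟨1 / (2 * C'), 8 * M, 1, by positivity, by positivity, le_rfl, ?_⟩
  intro ρ hρ t ht
  have hρ0 : 0 < ρ := by linarith
  have hρb : 0 < ρ ^ (-β) := Real.rpow_pos_of_pos hρ0 _
  obtain ⟨E0, hE0⟩ : ∃ E0, E0 = 4 * ρ ^ (2 - β) * M := ⟨_, rfl⟩
  have hE0e : E0 = ρ ^ 2 * (4 * M * ρ ^ (-β)) := by
    rw [hE0, sub_eq_add_neg, Real.rpow_add hρ0, Real.rpow_two]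
    ring
  have hE00 : 0 < E0 := by
    rw [hE0e]
    positivity
  obtain ⟨E, hE⟩ : ∃ E : ℝ → ℝ, E = fun t => ρ ^ 2 * N + ∫ v, wE ρ v * f t v := ⟨_, rfl⟩
  have hall : ∀ t ≤ 0, Integrable (f t) ∧ ∫ v, f t v = N := fun t ht => by
    obtain ⟨h1, h2⟩ := mass_at f hf.sol b t hb.le ht hi
    exact ⟨h1, by rw [h2, hN]⟩
  have hcont : ContinuousOn E (Iic 0) := by
    rw [hE]
    exact continuousOn_const.add
      (timeW_cont f hf.sol (wE ρ) (wE_smooth ρ).continuous (wE_compact hρ0))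
  have hEb : E b ≤ E0 := by
    have h1 := enf_E0 hcb hi hβ hβ2 hM hρ0
    rw [← hN] at h1
    rw [hE, hE0]
    refine h1.trans ?_
    refine mul_le_mul_of_nonneg_left (by linarith) ?_
    have := Real.rpow_nonneg hρ0.le (2 - β)
    positivity
  have hmT : ∀ t ≤ 0, ∀ σ : ℝ, 0 < σ → mT (f t) σ * min (σ ^ 2) (ρ ^ 2) ≤ E t := by
    intro t ht σ hσ
    obtain ⟨h1, h2⟩ := hall t ht
    have h3 := enf_mT (hf.sol.cls t ht) h1 hρ0 hσ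
    rw [h2] at h3
    rw [hE]
    exact h3
  have hmT0 : ∀ t ≤ 0, ∀ σ : ℝ, 0 ≤ mT (f t) σ := fun t ht σ =>
    setIntegral_nonneg (measurableSet_le measurable_const measurable_norm)
      fun v _ => (hf.sol.cls t ht).nonneg v
  obtain ⟨K, hK⟩ : ∃ K, K = C' * E0 * ρ ^ (-τ) := ⟨_, rfl⟩
  have hρτ : 0 < ρ ^ (-τ) := Real.rpow_pos_of_pos hρ0 _
  have hK0 : 0 < K := by
    rw [hK]
    positivity
  have key : ∀ t < 0, E t ≤ 2 * E0 → |∫ v, wE ρ v * QL (f t) v| ≤ K := by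
    intro t ht hEt
    obtain ⟨h1, h2⟩ := hall t ht.le
    refine (hr (f t) (hf.sol.cls t ht.le) h1 ρ hρ0).trans ?_
    rw [h2]
    have hx0 := hmT0 t ht.le (ρ / 2)
    have hy0 := hmT0 t ht.le (ρ / 4)
    have hx := hmT t ht.le (ρ / 2) (by positivity)
    have hy := hmT t ht.le (ρ / 4) (by positivity)
    rw [min_eq_left (by nlinarith)] at hx hy
    have hρ2 : 0 < ρ ^ 2 := by positivity
    have hx' : mT (f t) (ρ / 2) ≤ 8 * E0 * ρ ^ (-2 : ℝ) := by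
      rw [Real.rpow_neg hρ0.le, Real.rpow_two, ← div_eq_mul_inv, le_div_iff₀ hρ2]
      nlinarith
    have hy' : mT (f t) (ρ / 4) ≤ 128 * M * ρ ^ (-β) := by
      have h3 : mT (f t) (ρ / 4) * ρ ^ 2 ≤ 128 * M * ρ ^ (-β) * ρ ^ 2 := by
        have h4 : E t ≤ 2 * (ρ ^ 2 * (4 * M * ρ ^ (-β))) := by
          rw [← hE0e]
          exact hEt
        nlinarith
      exact le_of_mul_le_mul_right h3 hρ2
    have hy'' : mT (f t) (ρ / 4) ^ (2 / 3 : ℝ) ≤ (128 * M) ^ (2 / 3 : ℝ) * ρ ^ (-(2 * β / 3)) := by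
      refine (Real.rpow_le_rpow hy0 hy' (by norm_num)).trans (le_of_eq ?_)
      rw [Real.mul_rpow (by positivity) hρb.le, ← Real.rpow_mul hρ0.le]
      congr 2
      ring
    have hA : 0 ≤ (128 * M) ^ (2 / 3 : ℝ) := Real.rpow_nonneg (by positivity) _
    have e1 : ρ ^ (-2 : ℝ) * ρ ^ (-(2 * β / 3)) ≤ ρ ^ (-τ) := by
      rw [← Real.rpow_add hρ0]
      exact Real.rpow_le_rpow_of_exponent_le hρ (by linarith)
    have e2 : ρ ^ (-2 : ℝ) * ρ⁻¹ ≤ ρ ^ (-τ) := by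
      rw [← Real.rpow_neg_one ρ, ← Real.rpow_add hρ0]
      exact Real.rpow_le_rpow_of_exponent_le hρ (by linarith)
    have hx2 : 0 ≤ 8 * E0 * ρ ^ (-2 : ℝ) := hx0.trans hx'
    calc C * mT (f t) (ρ / 2) * (mT (f t) (ρ / 4) ^ (2 / 3 : ℝ) + N / ρ)
        ≤ C * (8 * E0 * ρ ^ (-2 : ℝ)) * ((128 * M) ^ (2 / 3 : ℝ) * ρ ^ (-(2 * β / 3)) + N / ρ) := by
          refine mul_le_mul (mul_le_mul_of_nonneg_left hx' hC.le) (by linarith) ?_ ?_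
          · have := Real.rpow_nonneg hy0 (2 / 3)
            positivity
          · exact mul_nonneg hC.le hx2
      _ = 8 * C * E0 * ((128 * M) ^ (2 / 3 : ℝ) * (ρ ^ (-2 : ℝ) * ρ ^ (-(2 * β / 3))) +
            N * (ρ ^ (-2 : ℝ) * ρ⁻¹)) := by
          rw [div_eq_mul_inv]
          ring
      _ ≤ 8 * C * E0 * ((128 * M) ^ (2 / 3 : ℝ) * ρ ^ (-τ) + N * ρ ^ (-τ)) := by
          refine mul_le_mul_of_nonneg_left ?_ (by positivity)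
          exact add_le_add (mul_le_mul_of_nonneg_left e1 hA) (mul_le_mul_of_nonneg_left e2 hN0)
      _ = K := by
          rw [hK, hC']
          ring
  have hττ : ρ ^ (-τ) * ρ ^ τ = 1 := by
    rw [← Real.rpow_add hρ0, neg_add_cancel, Real.rpow_zero]
  have hEt : E t ≤ 2 * E0 := by
    refine enf_cont (a := b - 1 / (2 * C') * ρ ^ τ) (b := b) (K := K)
      (hcont.mono fun x hx => hx.2.trans hb.le) hE00 hEb hK0.le ?_ ?_ t ht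
    · have : K * (b - (b - 1 / (2 * C') * ρ ^ τ)) = (ρ ^ (-τ) * ρ ^ τ) * (E0 / 2) := by
        rw [hK]
        field_simp
        ring
      rw [this, hττ, one_mul]
    · intro s hs hsE
      have h1 := timeW_lip f hf.sol (wE ρ) (wE_smooth ρ).continuous (wE_compact hρ0) s b hs.2
        hb.le K fun x hx => key x (hx.2.trans hb) (hsE x hx)
      have h2 := (abs_le.1 h1).1
      simp only [hE]
      linarith
  have hfin := hmT t (ht.2.trans hb.le) ρ hρ0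
  rw [min_self] at hfin
  have h5 : mT (f t) ρ * ρ ^ 2 ≤ 8 * M * ρ ^ (-β) * ρ ^ 2 := by
    have h4 : E t ≤ 2 * (ρ ^ 2 * (4 * M * ρ ^ (-β))) := by
      rw [← hE0e]
      exact hEt
    nlinarith
  exact le_of_mul_le_mul_right h5 (by positivity)

end Pool.Agent.LandauF
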