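import Pool.Agent.LandauF.HDefs
import Pool.Agent.LandauG.WPot

/-!
# LandauF, module HPotT: potential of an integrable density at points far from the origin

`g` of class `Clw` and integrable, `r > 0`, `2 r ≤ ‖v‖`, `m = mT g r`.  Points `w` with `‖w - v‖ < r` have `‖w‖ > r`.
`u = g` restricted to `{‖w - v‖ < r}` has values in `[0, 1]` and integral at most `m`; the other part of `g` has
`1/‖v - w‖ ≤ 1/r`, so it contributes at most `(∫ g)/r` (resp. `(∫ g)/r²`).
`pot_tail`: for every `σ > 0`, `int_inv` (`Landau/KInt.lean` or `KBd.lean`) gives `∫ u/‖v - w‖ ≤ 7 σ² + m/σ`; if `m > 0` take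
`σ = m^(1/3)`: `8 m^(2/3)`; if `m = 0` then `u = 0` a.e.
`pot2_tail`: `int_inv_sq` gives `∫ u/‖v - w‖² ≤ 13 σ + m/σ²`; `σ = m^(1/3)`: `14 m^(1/3)`.
`mT_anti`, `mT_nonneg`, `mT_le`: monotonicity of the integral.  `Po_le`: `1/‖w‖ ≤ 1/R` on the domain.
-/

set_option autoImplicit false

namespace Pool.Agent.LandauF

open MeasureTheory Set Filter Topology Pool.Agent.Landau

private theorem hpt_meas (R : ℝ) : MeasurableSet {w : V | R ≤ ‖w‖} :=
  measurableSet_le measurable_const measurable_norm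

private theorem hpt_int0 {g : V → ℝ} (hg : Clw g) : Integrable (fun w => g w / ‖w‖) := by
  have h := pot_int g hg 0
  have h2 : (fun w : V => g w / ‖(0 : V) - w‖) = fun w => g w / ‖w‖ := by
    funext w
    rw [zero_sub, norm_neg]
  rw [h2] at h
  exact h

private theorem hpt_gen (k : ℕ) (hk : k ≤ 2) {g : V → ℝ} (hg : Clw g) (hi : Integrable g)
    {r : ℝ} {v : V} (hr : 0 < r) (hv : 2 * r ≤ ‖v‖) {A σ : ℝ} (hσ : 0 < σ)
    (hA : ∫ z : V, kker k σ ‖z‖ ≤ A) :
    Integrable (fun w => g w / ‖v - w‖ ^ k) ∧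
    ∫ w, g w / ‖v - w‖ ^ k ≤ A + mT g r / σ ^ k + (∫ w, g w) / r ^ k := by
  have hm := hpt_meas r
  have hui : Integrable ({w : V | r ≤ ‖w‖}.indicator g) := hi.indicator hm
  have hu0 : ∀ w, 0 ≤ {w : V | r ≤ ‖w‖}.indicator g w := fun w =>
    indicator_nonneg (fun x _ => hg.nonneg x) w
  have hu1 : ∀ w, {w : V | r ≤ ‖w‖}.indicator g w ≤ 1 := by
    intro w
    by_cases hw : w ∈ {w : V | r ≤ ‖w‖}
    · rw [indicator_of_mem hw]
      exact hg.le_one w
    · rw [indicator_of_notMem hw]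
      exact zero_le_one
  obtain ⟨i1, b1⟩ := gen_inv k hk A σ hσ hA _ hui hu0 hu1 v
  obtain ⟨i2, -⟩ := gen_inv k hk A σ hσ hA g hi hg.nonneg hg.le_one v
  have hum : ∫ w, {w : V | r ≤ ‖w‖}.indicator g w = mT g r := by
    rw [integral_indicator hm]
    rfl
  rw [hum] at b1
  refine ⟨i2, ?_⟩
  have hle : ∀ w, g w / ‖v - w‖ ^ k ≤
      {w : V | r ≤ ‖w‖}.indicator g w / ‖v - w‖ ^ k + g w / r ^ k := by
    intro w
    have hg0 := hg.nonneg w
    by_cases hw : w ∈ {w : V | r ≤ ‖w‖}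
    · rw [indicator_of_mem hw]
      have : 0 ≤ g w / r ^ k := by positivity
      linarith
    · rw [indicator_of_notMem hw, zero_div, zero_add]
      have h1 : ‖w‖ < r := not_le.1 hw
      have h2 : r ≤ ‖v - w‖ := by
        have := norm_sub_norm_le v w
        linarith
      exact div_le_div_of_nonneg_left hg0 (pow_pos hr k) (pow_le_pow_left₀ hr.le h2 k)
  calc ∫ w, g w / ‖v - w‖ ^ k
      ≤ ∫ w, ({w : V | r ≤ ‖w‖}.indicator g w / ‖v - w‖ ^ k + g w / r ^ k) :=
        integral_mono i2 (i1.add (hi.div_const _)) hle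
    _ = (∫ w, {w : V | r ≤ ‖w‖}.indicator g w / ‖v - w‖ ^ k) + (∫ w, g w) / r ^ k := by
        rw [integral_add i1 (hi.div_const _), integral_div]
    _ ≤ A + mT g r / σ ^ k + (∫ w, g w) / r ^ k := by linarith

private theorem hpt_opt1 {m X Y : ℝ} (hm : 0 ≤ m)
    (h : ∀ σ : ℝ, 0 < σ → X ≤ 7 * σ ^ 2 + m / σ ^ 1 + Y) : X ≤ 8 * m ^ (2 / 3 : ℝ) + Y := by
  rcases hm.eq_or_lt with h0 | h0
  · rw [← h0, Real.zero_rpow (by norm_num), mul_zero, zero_add]
    refine le_of_forall_pos_le_add fun ε hε => ?_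
    have hσ : 0 < min 1 (ε / 7) := lt_min one_pos (by positivity)
    have h1 := h _ hσ
    rw [← h0, zero_div, add_zero] at h1
    have h2 : min 1 (ε / 7) ≤ 1 := min_le_left _ _
    have h3 : min 1 (ε / 7) ≤ ε / 7 := min_le_right _ _
    nlinarith
  · set s : ℝ := m ^ (1 / 3 : ℝ) with hs
    have hs0 : 0 < s := Real.rpow_pos_of_pos h0 _
    have hs2 : s ^ 2 = m ^ (2 / 3 : ℝ) := by
      rw [hs, ← Real.rpow_natCast, ← Real.rpow_mul hm]
      norm_num
    have hs3 : s ^ 3 = m := by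
      rw [hs, ← Real.rpow_natCast, ← Real.rpow_mul hm]
      norm_num
    have h1 := h s hs0
    have h2 : m / s ^ 1 = s ^ 2 := by
      rw [← hs3]
      field_simp
    rw [h2, hs2] at h1
    linarith

private theorem hpt_opt2 {m X Y : ℝ} (hm : 0 ≤ m)
    (h : ∀ σ : ℝ, 0 < σ → X ≤ 13 * σ + m / σ ^ 2 + Y) : X ≤ 14 * m ^ (1 / 3 : ℝ) + Y := by
  rcases hm.eq_or_lt with h0 | h0
  · rw [← h0, Real.zero_rpow (by norm_num), mul_zero, zero_add]
    refine le_of_forall_pos_le_add fun ε hε => ?_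
    have h1 := h (ε / 13) (by positivity)
    rw [← h0, zero_div, add_zero] at h1
    linarith
  · set s : ℝ := m ^ (1 / 3 : ℝ) with hs
    have hs0 : 0 < s := Real.rpow_pos_of_pos h0 _
    have hs3 : s ^ 3 = m := by
      rw [hs, ← Real.rpow_natCast, ← Real.rpow_mul hm]
      norm_num
    have h1 := h s hs0
    have h2 : m / s ^ 2 = s := by
      rw [← hs3]
      field_simp
    rw [h2] at h1
    linarith

theorem mT_nonneg {g : V → ℝ} (hg : Clw g) (R : ℝ) : 0 ≤ mT g R := by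
  unfold mT
  exact setIntegral_nonneg (hpt_meas R) fun w _ => hg.nonneg w

theorem mT_anti {g : V → ℝ} (hg : Clw g) (hi : Integrable g) {R S : ℝ} (h : R ≤ S) :
    mT g S ≤ mT g R := by
  unfold mT
  refine setIntegral_mono_set hi.integrableOn (Eventually.of_forall fun w => hg.nonneg w) ?_
  exact HasSubset.Subset.eventuallyLE fun w hw => le_trans h hw

theorem mT_le {g : V → ℝ} (hg : Clw g) (hi : Integrable g) (R : ℝ) : mT g R ≤ ∫ v, g v := by
  unfold mT
  exact setIntegral_le_integral hi (Eventually.of_forall fun w => hg.nonneg w)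

theorem Po_nonneg {g : V → ℝ} (hg : Clw g) (R : ℝ) : 0 ≤ Po g R := by
  unfold Po
  exact setIntegral_nonneg (hpt_meas R) fun w _ => div_nonneg (hg.nonneg w) (norm_nonneg w)

theorem Po_le {g : V → ℝ} (hg : Clw g) (hi : Integrable g) {R : ℝ} (hR : 0 < R) :
    Po g R ≤ mT g R / R := by
  unfold Po mT
  rw [← integral_div]
  refine setIntegral_mono_on (hpt_int0 hg).integrableOn (hi.div_const R).integrableOn
    (hpt_meas R) fun w hw => ?_
  exact div_le_div_of_nonneg_left (hg.nonneg w) hR hw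

theorem Po_anti {g : V → ℝ} (hg : Clw g) {R S : ℝ} (hR : 0 < R) (h : R ≤ S) : Po g S ≤ Po g R := by
  unfold Po
  refine setIntegral_mono_set (hpt_int0 hg).integrableOn
    (Eventually.of_forall fun w => div_nonneg (hg.nonneg w) (norm_nonneg w)) ?_
  exact HasSubset.Subset.eventuallyLE fun w hw => le_trans h hw

theorem pot_tail : ∃ C : ℝ, 0 < C ∧ ∀ g : V → ℝ, Clw g → Integrable g → ∀ (r : ℝ) (v : V), 0 < r →
    2 * r ≤ ‖v‖ → pot g v ≤ C * (mT g r ^ (2 / 3 : ℝ) + (∫ v, g v) / r) := by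
  refine ⟨8, by norm_num, fun g hg hi r v hr hv => ?_⟩
  have hm := mT_nonneg hg r
  have hI : 0 ≤ (∫ v, g v) / r := div_nonneg (integral_nonneg hg.nonneg) hr.le
  have h1 : pot g v ≤ 8 * mT g r ^ (2 / 3 : ℝ) + (∫ w, g w) / r := by
    refine hpt_opt1 hm fun σ hσ => ?_
    have h2 := (hpt_gen 1 (by norm_num) hg hi hr hv hσ (kker_int_le_one σ hσ)).2
    simp only [pow_one] at h2 ⊢
    exact h2
  linarith

theorem pot2_tail : ∃ C : ℝ, 0 < C ∧ ∀ g : V → ℝ, Clw g → Integrable g → ∀ (r : ℝ) (v : V), 0 < r →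
    2 * r ≤ ‖v‖ → ∫ w in Metric.closedBall v 1, g w / ‖v - w‖ ^ 2 ≤
      C * (mT g r ^ (1 / 3 : ℝ) + (∫ v, g v) / r ^ 2) := by
  refine ⟨14, by norm_num, fun g hg hi r v hr hv => ?_⟩
  have hm := mT_nonneg hg r
  have hI : 0 ≤ (∫ v, g v) / r ^ 2 := div_nonneg (integral_nonneg hg.nonneg) (by positivity)
  have h1 : ∫ w in Metric.closedBall v 1, g w / ‖v - w‖ ^ 2 ≤
      14 * mT g r ^ (1 / 3 : ℝ) + (∫ w, g w) / r ^ 2 := by
    refine hpt_opt2 hm fun σ hσ => ?_
    obtain ⟨i2, h2⟩ := hpt_gen 2 le_rfl hg hi hr hv hσ (kker_int_le_two σ hσ)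
    exact (setIntegral_le_integral i2 (Eventually.of_forall fun w =>
      div_nonneg (hg.nonneg w) (by positivity))).trans h2
  linarith

end Pool.Agent.LandauF
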