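import Pool.Agent.LandauF.HWE
import Pool.Agent.LandauF.HPotT

/-!
# LandauF, module HEnR: rate of change of the truncated energy

`WRateB_gen` (`LandauG/WRateB.lean`) with `φ = wE ρ`, `Λ` the constant of `wE_bound`, `Z = {v | ρ/2 ≤ ‖v‖}` (`wE_Kf` for the pairs
outside `Z`), `B = C (mT g (ρ/4)^(2/3) + 4 (∫ g)/ρ)` from `pot_tail` with `r = ρ/4` (`2 r = ρ/2 ≤ ‖v‖` on `Z`), and
`∫_Z g = mT g (ρ/2)`.
-/

set_option autoImplicit false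

namespace Pool.Agent.LandauF

open MeasureTheory Set Filter Topology Pool.Agent.Landau

theorem ener_rate : ∃ C : ℝ, 0 < C ∧ ∀ g : V → ℝ, Clw g → Integrable g → ∀ ρ : ℝ, 0 < ρ →
    |∫ v, wE ρ v * QL g v| ≤
      C * mT g (ρ / 2) * (mT g (ρ / 4) ^ (2 / 3 : ℝ) + (∫ v, g v) / ρ) := by
  obtain ⟨L, hL, hLb⟩ := wE_bound
  obtain ⟨C, hC, hCb⟩ := pot_tail
  refine ⟨120 * L * C, by positivity, fun g hg hi ρ hρ => ?_⟩
  have hm2 : 0 ≤ mT g (ρ / 2) := mT_nonneg hg _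
  have hm4 : 0 ≤ mT g (ρ / 4) ^ (2 / 3 : ℝ) := Real.rpow_nonneg (mT_nonneg hg _) _
  have hI : 0 ≤ ∫ v, g v := integral_nonneg fun v => hg.nonneg v
  have hZ : MeasurableSet {v : V | ρ / 2 ≤ ‖v‖} := measurableSet_le measurable_const measurable_norm
  have key := WRateB_gen g hg (wE ρ) (wE_smooth ρ) (wE_compact hρ) L (fun i j v => hLb ρ hρ i j v)
    {v : V | ρ / 2 ≤ ‖v‖} hZ
    (fun v hv w hw => wE_Kf hρ v w (not_le.1 hv) (not_le.1 hw)) hi.integrableOn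
    (C * (mT g (ρ / 4) ^ (2 / 3 : ℝ) + (∫ v, g v) / (ρ / 4)))
    (fun v hv => hCb g hg hi (ρ / 4) v (by positivity) (by
      have hv' : ρ / 2 ≤ ‖v‖ := hv
      linarith))
  refine key.trans ?_
  have e1 : (∫ v in {v : V | ρ / 2 ≤ ‖v‖}, g v) = mT g (ρ / 2) := rfl
  rw [e1]
  have e2 : (∫ v, g v) / (ρ / 4) = 4 * ((∫ v, g v) / ρ) := by
    field_simp
  rw [e2]
  have e3 : mT g (ρ / 4) ^ (2 / 3 : ℝ) + 4 * ((∫ v, g v) / ρ) ≤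
      4 * (mT g (ρ / 4) ^ (2 / 3 : ℝ) + (∫ v, g v) / ρ) := by linarith
  calc 30 * L * (C * (mT g (ρ / 4) ^ (2 / 3 : ℝ) + 4 * ((∫ v, g v) / ρ)) * mT g (ρ / 2))
      = (30 * L * C * mT g (ρ / 2)) * (mT g (ρ / 4) ^ (2 / 3 : ℝ) + 4 * ((∫ v, g v) / ρ)) := by ring
    _ ≤ (30 * L * C * mT g (ρ / 2)) * (4 * (mT g (ρ / 4) ^ (2 / 3 : ℝ) + (∫ v, g v) / ρ)) :=
        mul_le_mul_of_nonneg_left e3 (by positivity)
    _ = 120 * L * C * mT g (ρ / 2) * (mT g (ρ / 4) ^ (2 / 3 : ℝ) + (∫ v, g v) / ρ) := by ring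

end Pool.Agent.LandauF
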