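import Pool.Agent.LandauF.HPBlow

/-!
# LandauF, module HMassC: finite mass and a small moment from the tail estimate

`g` of class `Clw`, `Po g R ≤ Dm g R/(R R^(1/300))` for `R ≥ R₁ ≥ 1`.
`Dm_step`: `Dm g (2R) ≤ Dm g R + R Po g R` for `R > 0`, from the pointwise inequality
`2R/max (2R) r - R/max R r ≤ (R/r) 1_{r ≥ R}` (`r = ‖v‖`: for `r ≤ R` both are `1`; for `R < r ≤ 2R`: `1 - R/r ≤ R/r`; for
`r > 2R`: equality).  So with `R_j = 2^j R₁`: `Dm g R_{j+1} ≤ (1 + R_j^(-1/300)) Dm g R_j`, and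
`R_j^(-1/300) ≤ q^j` with `q = 2^(-1/300) < 1`, so `Dm g R_j ≤ exp (∑ q^j) Dm g R₁ =: D` for all `j`.
Mass: `∫_{‖v‖ ≤ R_j} g ≤ Dm g R_j ≤ D` for all `j`, so `g` is integrable (monotone convergence).
Moment: `∫_{R_j ≤ ‖v‖ ≤ R_{j+1}} ‖v‖^(1/600) g ≤ (2 R_j)^(1 + 1/600) Po g R_j ≤ 4 R_j^(1+1/600) D/(R_j R_j^(1/300))
= 4 D R_j^(-1/600) ≤ 4 D (2^(-1/600))^j`, summable, and on `‖v‖ ≤ R₁` the integrand is bounded by `R₁^(1/600)`;
so `‖v‖^(1/600) g` is integrable.
-/

set_option autoImplicit false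

namespace Pool.Agent.LandauF

open MeasureTheory Set Filter Topology Pool.Agent.Landau

private theorem mR {R : ℝ} : MeasurableSet {w : V | R ≤ ‖w‖} :=
  measurableSet_le measurable_const measurable_norm

private theorem hm_Dm_int {g : V → ℝ} (hg : Clw g) {R : ℝ} (hR : 0 < R) :
    Integrable (fun v => g v * (R / max R ‖v‖)) := by
  have hpos : ∀ v : V, 0 < max R ‖v‖ := fun v => lt_max_of_lt_left hR
  have hc : Continuous (fun v : V => g v * (R / max R ‖v‖)) :=
    hg.cont.mul (continuous_const.div (continuous_const.max continuous_norm)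
      fun v => (hpos v).ne')
  refine (hg.int.const_mul (1 + R)).mono' hc.aestronglyMeasurable (Eventually.of_forall fun v => ?_)
  have h0 : 0 ≤ g v := hg.nonneg v
  have ha := ang_pos v
  have hp := hpos v
  rw [Real.norm_of_nonneg (by positivity)]
  have h1 : R / max R ‖v‖ ≤ (1 + R) / ang v := by
    rw [div_le_div_iff₀ hp ha]
    have h2 : ang v ≤ 1 + ‖v‖ := ang_le v
    have h3 : R ≤ max R ‖v‖ := le_max_left _ _
    have h4 : ‖v‖ ≤ max R ‖v‖ := le_max_right _ _
    nlinarith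
  calc g v * (R / max R ‖v‖) ≤ g v * ((1 + R) / ang v) := mul_le_mul_of_nonneg_left h1 h0
    _ = (1 + R) * (g v / ang v) := by ring

theorem Dm_step {g : V → ℝ} (hg : Clw g) {R : ℝ} (hR : 0 < R) :
    Dm g (2 * R) ≤ Dm g R + R * Po g R := by
  have hI := hm_Dm_int hg hR
  have hI2 := hm_Dm_int hg (R := 2 * R) (by linarith)
  have hP := Po_int hg hR
  have e : R * Po g R = ∫ v, {w : V | R ≤ ‖w‖}.indicator (fun w => R * (g w / ‖w‖)) v := by
    rw [integral_indicator mR, Po, integral_const_mul]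
  have hP' : Integrable ({w : V | R ≤ ‖w‖}.indicator (fun w => R * (g w / ‖w‖))) :=
    (integrable_indicator_iff mR).2 (hP.const_mul R)
  unfold Dm
  rw [e, ← integral_add hI hP']
  refine integral_mono hI2 (hI.add hP') fun v => ?_
  have h0 : 0 ≤ g v := hg.nonneg v
  simp only [indicator, mem_ofPred_eq]
  rcases le_or_gt R ‖v‖ with h | h
  · rw [if_pos h, max_eq_right h]
    have hv : 0 < ‖v‖ := lt_of_lt_of_le hR h
    rcases le_or_gt (2 * R) ‖v‖ with h2 | h2
    · rw [max_eq_right h2]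
      apply le_of_eq
      ring
    · rw [max_eq_left h2.le, div_self (by linarith : (2 * R) ≠ 0)]
      have h3 : 1 ≤ 2 * (R / ‖v‖) := by
        rw [← mul_div_assoc, le_div_iff₀ hv]
        linarith
      calc g v * 1 ≤ g v * (2 * (R / ‖v‖)) := mul_le_mul_of_nonneg_left h3 h0
        _ = g v * (R / ‖v‖) + R * (g v / ‖v‖) := by ring
  · rw [if_neg (not_le.2 h), max_eq_left h.le, max_eq_left (by linarith), div_self hR.ne',
      div_self (by linarith : (2 * R) ≠ 0), add_zero]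

private theorem hm_mass_le {g : V → ℝ} (hg : Clw g) {R : ℝ} (hR : 0 < R) :
    ∫ v in Metric.closedBall (0 : V) R, g v ≤ Dm g R := by
  have hm : MeasurableSet (Metric.closedBall (0 : V) R) := Metric.isClosed_closedBall.measurableSet
  have hI := hm_Dm_int hg hR
  have hi : IntegrableOn g (Metric.closedBall (0 : V) R) :=
    hg.cont.continuousOn.integrableOn_compact (isCompact_closedBall _ _)
  calc ∫ v in Metric.closedBall (0 : V) R, g v
      ≤ ∫ v in Metric.closedBall (0 : V) R, g v * (R / max R ‖v‖) := by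
        refine setIntegral_mono_on hi hI.integrableOn hm fun v hv => ?_
        rw [mem_closedBall_zero_iff] at hv
        rw [max_eq_left hv, div_self hR.ne', mul_one]
    _ ≤ Dm g R := setIntegral_le_integral hI (Eventually.of_forall fun v =>
        mul_nonneg (hg.nonneg v) (by positivity))

private theorem hm_rpow_cont {g : V → ℝ} (hg : Clw g) {β : ℝ} (hβ : 0 ≤ β) :
    Continuous (fun v : V => ‖v‖ ^ β * g v) :=
  (continuous_norm.rpow_const fun _ => Or.inr hβ).mul hg.cont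

private theorem hm_Mo_step {g : V → ℝ} (hg : Clw g) {β : ℝ} (hβ : 0 ≤ β) {R : ℝ} (hR : 0 < R) :
    ∫ v in Metric.closedBall (0 : V) (2 * R), ‖v‖ ^ β * g v ≤
      (∫ v in Metric.closedBall (0 : V) R, ‖v‖ ^ β * g v) + (2 * R) ^ (1 + β) * Po g R := by
  have hm : ∀ r : ℝ, MeasurableSet (Metric.closedBall (0 : V) r) :=
    fun r => Metric.isClosed_closedBall.measurableSet
  have hi : ∀ r : ℝ, IntegrableOn (fun v : V => ‖v‖ ^ β * g v) (Metric.closedBall (0 : V) r) :=
    fun r => (hm_rpow_cont hg hβ).continuousOn.integrableOn_compact (isCompact_closedBall _ _)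
  have hP := Po_int hg hR
  have e : (2 * R) ^ (1 + β) * Po g R =
      ∫ v, {w : V | R ≤ ‖w‖}.indicator (fun w => (2 * R) ^ (1 + β) * (g w / ‖w‖)) v := by
    rw [integral_indicator mR, Po, integral_const_mul]
  have hP' : Integrable ({w : V | R ≤ ‖w‖}.indicator
      (fun w => (2 * R) ^ (1 + β) * (g w / ‖w‖))) :=
    (integrable_indicator_iff mR).2 (hP.const_mul _)
  rw [e, ← integral_indicator (hm _), ← integral_indicator (hm _),
    ← integral_add ((integrable_indicator_iff (hm _)).2 (hi _)) hP']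
  refine integral_mono ((integrable_indicator_iff (hm _)).2 (hi _))
    (((integrable_indicator_iff (hm _)).2 (hi _)).add hP') fun v => ?_
  have h0 : 0 ≤ g v := hg.nonneg v
  have h1 : 0 ≤ ‖v‖ ^ β := Real.rpow_nonneg (norm_nonneg v) β
  have h2 : 0 ≤ (2 * R) ^ (1 + β) := Real.rpow_nonneg (by linarith) _
  simp only [indicator, mem_ofPred_eq, mem_closedBall_zero_iff]
  rcases le_or_gt ‖v‖ R with h | h
  · rw [if_pos h, if_pos (by linarith)]
    have h3 : 0 ≤ if R ≤ ‖v‖ then (2 * R) ^ (1 + β) * (g v / ‖v‖) else 0 := by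
      split_ifs
      · positivity
      · exact le_rfl
    linarith
  · rw [if_neg (not_le.2 h), if_pos h.le, zero_add]
    have hv : 0 < ‖v‖ := hR.trans h
    rcases le_or_gt ‖v‖ (2 * R) with h' | h'
    · rw [if_pos h']
      have h3 : ‖v‖ ^ (1 + β) ≤ (2 * R) ^ (1 + β) := Real.rpow_le_rpow hv.le h' (by linarith)
      rw [Real.rpow_add hv, Real.rpow_one] at h3
      calc ‖v‖ ^ β * g v = (‖v‖ * ‖v‖ ^ β) * (g v / ‖v‖) := by field_simp
        _ ≤ (2 * R) ^ (1 + β) * (g v / ‖v‖) := mul_le_mul_of_nonneg_right h3 (by positivity)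
    · rw [if_neg (not_le.2 h')]
      positivity

private theorem hm_geo {q : ℝ} (h0 : 0 ≤ q) (h1 : q < 1) (j : ℕ) :
    ∑ i ∈ Finset.range j, q ^ i ≤ 1 / (1 - q) := by
  have h := (summable_geometric_of_lt_one h0 h1).sum_le_tsum (Finset.range j)
    (fun i _ => pow_nonneg h0 i)
  rwa [tsum_geometric_of_lt_one h0 h1, ← one_div] at h

private theorem hm_pow {R₁ : ℝ} (hR₁ : 1 ≤ R₁) {β : ℝ} (hβ : 0 < β) (j : ℕ) :
    1 / (2 ^ j * R₁) ^ β ≤ ((2 : ℝ) ^ β)⁻¹ ^ j := by
  have h1 : ((2 : ℝ) ^ β) ^ j ≤ (2 ^ j * R₁) ^ β := by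
    rw [← Real.rpow_natCast ((2 : ℝ) ^ β) j, ← Real.rpow_mul (by norm_num), mul_comm β,
      Real.rpow_mul (by norm_num), Real.rpow_natCast]
    refine Real.rpow_le_rpow (by positivity) ?_ hβ.le
    have : (0 : ℝ) < 2 ^ j := by positivity
    nlinarith
  rw [inv_pow, ← one_div]
  exact one_div_le_one_div_of_le (by positivity) h1

theorem mass_of_claim {g : V → ℝ} (hg : Clw g) {R₁ : ℝ} (hR₁ : 1 ≤ R₁)
    (h : ∀ R : ℝ, R₁ ≤ R → Po g R ≤ Dm g R / (R * R ^ (1 / 300 : ℝ))) :
    Integrable g ∧ Mo (1 / 600) g := by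
  have hR0 : 0 < R₁ := by linarith
  have hDm0 : ∀ R : ℝ, 0 < R → 0 ≤ Dm g R := fun R hR =>
    integral_nonneg fun v => mul_nonneg (hg.nonneg v) (by positivity)
  set q : ℝ := ((2 : ℝ) ^ (1 / 300 : ℝ))⁻¹ with hq
  have hq0 : 0 ≤ q := by positivity
  have hq1 : q < 1 := inv_lt_one_of_one_lt₀ (Real.one_lt_rpow (by norm_num) (by norm_num))
  set p : ℝ := ((2 : ℝ) ^ (1 / 600 : ℝ))⁻¹ with hp
  have hp0 : 0 ≤ p := by positivity
  have hp1 : p < 1 := inv_lt_one_of_one_lt₀ (Real.one_lt_rpow (by norm_num) (by norm_num))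
  have hRj : ∀ j : ℕ, 0 < 2 ^ j * R₁ := fun j => by positivity
  have hRj1 : ∀ j : ℕ, R₁ ≤ 2 ^ j * R₁ := fun j => by
    have : (1 : ℝ) ≤ 2 ^ j := one_le_pow₀ (by norm_num)
    nlinarith
  have hsucc : ∀ j : ℕ, (2 : ℝ) ^ (j + 1) * R₁ = 2 * (2 ^ j * R₁) := fun j => by ring
  have hstep : ∀ j : ℕ, Dm g (2 ^ (j + 1) * R₁) ≤ Real.exp (q ^ j) * Dm g (2 ^ j * R₁) := by
    intro j
    have h1 := Dm_step hg (hRj j)
    have h2 := h _ (hRj1 j)
    have h3 : (2 ^ j * R₁) * Po g (2 ^ j * R₁) ≤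
        (1 / (2 ^ j * R₁) ^ (1 / 300 : ℝ)) * Dm g (2 ^ j * R₁) := by
      have hr : 0 < (2 ^ j * R₁) ^ (1 / 300 : ℝ) := Real.rpow_pos_of_pos (hRj j) _
      have h4 := mul_le_mul_of_nonneg_left h2 (hRj j).le
      have h5 : (2 ^ j * R₁) * (Dm g (2 ^ j * R₁) / ((2 ^ j * R₁) * (2 ^ j * R₁) ^ (1 / 300 : ℝ))) =
          (1 / (2 ^ j * R₁) ^ (1 / 300 : ℝ)) * Dm g (2 ^ j * R₁) := by
        have := (hRj j).ne'
        field_simp
      linarith
    have h6 := mul_le_mul_of_nonneg_right (hm_pow hR₁ (by norm_num : (0 : ℝ) < 1 / 300) j)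
      (hDm0 _ (hRj j))
    have h7 := mul_le_mul_of_nonneg_right (Real.add_one_le_exp (q ^ j)) (hDm0 _ (hRj j))
    rw [hsucc]
    rw [add_mul, one_mul] at h7
    rw [← hq] at h6
    linarith
  set D : ℝ := Real.exp (1 / (1 - q)) * Dm g R₁ with hD
  have hDj : ∀ j : ℕ, Dm g (2 ^ j * R₁) ≤ Real.exp (∑ i ∈ Finset.range j, q ^ i) * Dm g R₁ := by
    intro j
    induction j with
    | zero => simp
    | succ j ih =>
      rw [Finset.sum_range_succ, add_comm (∑ i ∈ Finset.range j, q ^ i), Real.exp_add, mul_assoc]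
      exact (hstep j).trans (mul_le_mul_of_nonneg_left ih (Real.exp_pos _).le)
  have hDD : ∀ j : ℕ, Dm g (2 ^ j * R₁) ≤ D := fun j =>
    (hDj j).trans (mul_le_mul_of_nonneg_right (Real.exp_le_exp.2 (hm_geo hq0 hq1 j)) (hDm0 _ hR0))
  have hD0 : 0 ≤ D := mul_nonneg (Real.exp_pos _).le (hDm0 _ hR0)
  have htop : Tendsto (fun j : ℕ => (2 : ℝ) ^ j * R₁) atTop atTop :=
    (tendsto_pow_atTop_atTop_of_one_lt (by norm_num)).atTop_mul_const hR0
  have hcov : AECover (volume : Measure V) atTop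
      (fun j : ℕ => Metric.closedBall (0 : V) (2 ^ j * R₁)) := aecover_closedBall htop
  refine ⟨?_, ?_⟩
  · refine hcov.integrable_of_integral_bounded_of_nonneg_ae D
      (fun j => hg.cont.continuousOn.integrableOn_compact (isCompact_closedBall _ _))
      (Eventually.of_forall hg.nonneg) (Eventually.of_forall fun j => ?_)
    exact (hm_mass_le hg (hRj j)).trans (hDD j)
  · have hMj : ∀ j : ℕ, ∫ v in Metric.closedBall (0 : V) (2 ^ j * R₁), ‖v‖ ^ (1 / 600 : ℝ) * g v ≤
        (∫ v in Metric.closedBall (0 : V) R₁, ‖v‖ ^ (1 / 600 : ℝ) * g v) +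
          4 * D * ∑ i ∈ Finset.range j, p ^ i := by
      intro j
      induction j with
      | zero => simp
      | succ j ih =>
        have h1 := hm_Mo_step hg (β := 1 / 600) (by norm_num) (hRj j)
        rw [hsucc, Finset.sum_range_succ, mul_add]
        have h2 : (2 * (2 ^ j * R₁)) ^ (1 + 1 / 600 : ℝ) * Po g (2 ^ j * R₁) ≤ 4 * D * p ^ j := by
          set r : ℝ := 2 ^ j * R₁ with hr
          have hr0 : 0 < r := hRj j
          have h3 := h r (hRj1 j)
          have h4 : (2 * r) ^ (1 + 1 / 600 : ℝ) ≤ 4 * (r * r ^ (1 / 600 : ℝ)) := by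
            rw [Real.mul_rpow (by norm_num) hr0.le, Real.rpow_add hr0, Real.rpow_one]
            have h5 : (2 : ℝ) ^ (1 + 1 / 600 : ℝ) ≤ 2 ^ (2 : ℝ) :=
              Real.rpow_le_rpow_of_exponent_le (by norm_num) (by norm_num)
            have h6 : (2 : ℝ) ^ (2 : ℝ) = 4 := by norm_num
            rw [h6] at h5
            exact mul_le_mul_of_nonneg_right h5 (by positivity)
          have h7 : 0 ≤ Dm g r / (r * r ^ (1 / 300 : ℝ)) :=
            div_nonneg (hDm0 r hr0) (by positivity)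
          have h8 : r ^ (1 / 300 : ℝ) = r ^ (1 / 600 : ℝ) * r ^ (1 / 600 : ℝ) := by
            rw [← Real.rpow_add hr0]
            norm_num
          have h9 : (1 : ℝ) / r ^ (1 / 600 : ℝ) ≤ p ^ j := hm_pow hR₁ (by norm_num) j
          have hrp : 0 < r ^ (1 / 600 : ℝ) := Real.rpow_pos_of_pos hr0 _
          calc (2 * r) ^ (1 + 1 / 600 : ℝ) * Po g r
              ≤ (2 * r) ^ (1 + 1 / 600 : ℝ) * (Dm g r / (r * r ^ (1 / 300 : ℝ))) :=
                mul_le_mul_of_nonneg_left h3 (by positivity)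
            _ ≤ 4 * (r * r ^ (1 / 600 : ℝ)) * (Dm g r / (r * r ^ (1 / 300 : ℝ))) :=
                mul_le_mul_of_nonneg_right h4 h7
            _ = 4 * Dm g r * (1 / r ^ (1 / 600 : ℝ)) := by
                rw [h8]
                field_simp
            _ ≤ 4 * D * p ^ j := by
                have := hDD j
                have h10 : 0 ≤ 1 / r ^ (1 / 600 : ℝ) := by positivity
                exact mul_le_mul (by linarith) h9 h10 (by linarith)
        linarith
    refine hcov.integrable_of_integral_bounded_of_nonneg_ae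
      ((∫ v in Metric.closedBall (0 : V) R₁, ‖v‖ ^ (1 / 600 : ℝ) * g v) + 4 * D * (1 / (1 - p)))
      (fun j => (hm_rpow_cont hg (by norm_num)).continuousOn.integrableOn_compact
        (isCompact_closedBall _ _))
      (Eventually.of_forall fun v => mul_nonneg (Real.rpow_nonneg (norm_nonneg v) _) (hg.nonneg v))
      (Eventually.of_forall fun j => (hMj j).trans ?_)
    have := mul_le_mul_of_nonneg_left (hm_geo hp0 hp1 j) (by linarith : 0 ≤ 4 * D)
    linarith

end Pool.Agent.LandauF
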