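import Pool.Agent.LandauF.HDefs

/-!
# LandauF, module HPsiE: the phase function for the shell `1/4 ≤ ‖v‖ ≤ 3/8`

`Ψ v = c (chi (1/8) v + 1 - chi (3/8) v)` with `c > 0` small.  `chi (1/8)` is `1` for `‖v‖ ≤ 1/8` and `0` for `‖v‖ ≥ 1/4`;
`chi (3/8)` is `1` for `‖v‖ ≤ 3/8` and `0` for `‖v‖ ≥ 3/4`.  First and second derivatives are bounded (`chi_bounds`),
so `c` can be chosen with `|pd i Ψ| ≤ 1`, `|pd i (pd j Ψ)| ≤ 1`.  The first derivatives vanish for `‖v‖ ≤ 1/8` and for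
`‖v‖ ≥ 3/4` (locally constant in the interior; at the boundary points by continuity of the derivative, or because
`chi` has an extremum there).
-/

set_option autoImplicit false

namespace Pool.Agent.LandauF

open MeasureTheory Set Filter Topology Pool.Agent.Landau

private theorem hpsiE_bd {g : V → ℝ} (hg : Continuous g) (hc : HasCompactSupport g) :
    ∃ C : ℝ, 0 ≤ C ∧ ∀ v, |g v| ≤ C := by
  obtain ⟨C, hC⟩ := hc.exists_bound_of_continuous hg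
  exact ⟨max C 0, le_max_right _ _, fun v => (hC v).trans (le_max_left _ _)⟩

private theorem hpsiE_pd {Φ : V → ℝ} (hΦ : Differentiable ℝ Φ) (c d : ℝ) (i : Fin 3) :
    pd i (fun v : V => c * Φ v + d) = fun v => c * pd i Φ v := by
  funext v
  unfold pd
  have h1 : HasFDerivAt Φ (fderiv ℝ Φ v) v := (hΦ v).hasFDerivAt
  have h2 := (h1.const_mul c).add_const d
  rw [h2.fderiv]
  simp

theorem psiE_exists : ∃ (c : ℝ) (Ψ : V → ℝ), 0 < c ∧ ContDiff ℝ (⊤ : ℕ∞) Ψ ∧ (∀ v, 0 ≤ Ψ v) ∧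
    (∀ v, ∀ i : Fin 3, |pd i Ψ v| ≤ 1) ∧ (∀ v, ∀ i j : Fin 3, |pd i (pd j Ψ) v| ≤ 1) ∧
    (∀ v, 1 / 4 ≤ ‖v‖ → ‖v‖ ≤ 3 / 8 → Ψ v = 0) ∧ (∀ v, ‖v‖ ≤ 1 / 8 → c ≤ Ψ v) ∧
    (∀ v, 3 / 4 ≤ ‖v‖ → c ≤ Ψ v) ∧ (∀ v, ‖v‖ ≤ 1 / 8 → ∀ i : Fin 3, pd i Ψ v = 0) ∧
    ∀ v, 3 / 4 ≤ ‖v‖ → ∀ i : Fin 3, pd i Ψ v = 0 := by
  have p1 : (0 : ℝ) < 1 / 8 := by norm_num
  have p2 : (0 : ℝ) < 3 / 8 := by norm_num
  obtain ⟨Φ, hΦ⟩ : ∃ Φ : V → ℝ, Φ = fun v => chi (1 / 8) v - chi (3 / 8) v := ⟨_, rfl⟩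
  have hs : ContDiff ℝ (⊤ : ℕ∞) Φ := by
    rw [hΦ]
    exact (chi_smooth _).sub (chi_smooth _)
  have hc : HasCompactSupport Φ := by
    rw [hΦ]
    exact (chi_compact p1).sub (chi_compact p2)
  have hle : ∀ v, Φ v ≤ 0 := by
    intro v
    rw [hΦ]
    have := chi_mono p1 (by norm_num : 2 * (1 / 8 : ℝ) ≤ 3 / 8) v
    simp only
    linarith
  have hge : ∀ v, -1 ≤ Φ v := by
    intro v
    rw [hΦ]
    have h1 := chi_nonneg (1 / 8) v
    have h2 := chi_le_one (3 / 8) v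
    simp only
    linarith
  have hz1 : ∀ v, ‖v‖ ≤ 1 / 8 → Φ v = 0 := by
    intro v hv
    rw [hΦ]
    simp only
    rw [chi_one p1 hv, chi_one p2 (by linarith)]
    norm_num
  have hz2 : ∀ v, 3 / 4 ≤ ‖v‖ → Φ v = 0 := by
    intro v hv
    rw [hΦ]
    simp only
    rw [chi_zero p1 (by linarith), chi_zero p2 (by linarith)]
    norm_num
  have hm : ∀ v, 1 / 4 ≤ ‖v‖ → ‖v‖ ≤ 3 / 8 → Φ v = -1 := by
    intro v hv hv'
    rw [hΦ]
    simp only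
    rw [chi_zero p1 (by linarith), chi_one p2 hv']
    norm_num
  have hd : Differentiable ℝ Φ := hs.differentiable (by norm_num)
  have h1 : ∀ i, ∃ C : ℝ, 0 ≤ C ∧ ∀ v, |pd i Φ v| ≤ C := fun i =>
    hpsiE_bd (smooth_pd hs i).continuous (compact_pd hc i)
  have h2 : ∀ i j, ∃ C : ℝ, 0 ≤ C ∧ ∀ v, |pd i (pd j Φ) v| ≤ C := fun i j =>
    hpsiE_bd (smooth_pd (smooth_pd hs j) i).continuous (compact_pd (compact_pd hc j) i)
  choose C1 hC1 hC1' using h1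
  choose C2 hC2 hC2' using h2
  have s1 : 0 ≤ ∑ i, C1 i := Finset.sum_nonneg fun i _ => hC1 i
  have s2 : 0 ≤ ∑ i, ∑ j, C2 i j := Finset.sum_nonneg fun i _ => Finset.sum_nonneg fun j _ => hC2 i j
  obtain ⟨C, hC⟩ : ∃ C : ℝ, C = (∑ i, C1 i) + (∑ i, ∑ j, C2 i j) + 1 := ⟨_, rfl⟩
  have hC0 : 0 < C := by rw [hC]; linarith
  have b1 : ∀ i v, |pd i Φ v| ≤ C := by
    intro i v
    have := Finset.single_le_sum (f := C1) (fun i _ => hC1 i) (Finset.mem_univ i)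
    rw [hC]
    linarith [hC1' i v]
  have b2 : ∀ i j v, |pd i (pd j Φ) v| ≤ C := by
    intro i j v
    have e1 := Finset.single_le_sum (f := C2 i) (fun j _ => hC2 i j) (Finset.mem_univ j)
    have e2 := Finset.single_le_sum (f := fun i => ∑ j, C2 i j)
      (fun i _ => Finset.sum_nonneg fun j _ => hC2 i j) (Finset.mem_univ i)
    rw [hC]
    linarith [hC2' i j v]
  have hinv : 0 < C⁻¹ := inv_pos.2 hC0
  have hcrit : ∀ v, Φ v = 0 → ∀ i : Fin 3, pd i Φ v = 0 := by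
    intro v hv i
    have hloc : IsLocalMax Φ v := Filter.Eventually.of_forall fun w => by
      rw [hv]
      exact hle w
    unfold pd
    rw [hloc.fderiv_eq_zero]
    simp
  refine ⟨C⁻¹, fun v => C⁻¹ * Φ v + C⁻¹, hinv, ?_, ?_, ?_, ?_, ?_, ?_, ?_, ?_, ?_⟩
  · exact (contDiff_const.mul hs).add contDiff_const
  · intro v
    have := hge v
    nlinarith
  · intro v i
    rw [hpsiE_pd hd, abs_mul, abs_of_pos hinv]
    calc C⁻¹ * |pd i Φ v| ≤ C⁻¹ * C := mul_le_mul_of_nonneg_left (b1 i v) hinv.le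
      _ = 1 := inv_mul_cancel₀ hC0.ne'
  · intro v i j
    rw [hpsiE_pd hd]
    have e1 : (fun v => C⁻¹ * pd j Φ v) = fun v => C⁻¹ * pd j Φ v + 0 := by
      funext v
      rw [add_zero]
    rw [e1, hpsiE_pd ((smooth_pd hs j).differentiable (by norm_num)), abs_mul, abs_of_pos hinv]
    calc C⁻¹ * |pd i (pd j Φ) v| ≤ C⁻¹ * C := mul_le_mul_of_nonneg_left (b2 i j v) hinv.le
      _ = 1 := inv_mul_cancel₀ hC0.ne'
  · intro v hv hv'
    simp only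
    rw [hm v hv hv']
    ring
  · intro v hv
    simp only
    rw [hz1 v hv]
    simp
  · intro v hv
    simp only
    rw [hz2 v hv]
    simp
  · intro v hv i
    rw [hpsiE_pd hd]
    simp only
    rw [hcrit v (hz1 v hv) i, mul_zero]
  · intro v hv i
    rw [hpsiE_pd hd]
    simp only
    rw [hcrit v (hz2 v hv) i, mul_zero]

end Pool.Agent.LandauF
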