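import Pool.Agent.LandauF.HKq
import Pool.Agent.LandauG.WPot
import Pool.Agent.LandauG.WWeak
import Pool.Agent.LandauG.WRate

/-!
# LandauF, module HRq: potential bound and rate of change of decaying test functions

`pot_le23`: let `κ = Kw g ^ (1/3)`.  If `Kw g = 0` then `g = 0` (continuous, nonnegative) and `pot g v = 0`.  Otherwise
`pot_bound` (`LandauG/WPot.lean`) with `r = κ ang v`:
`pot g v ≤ 7 κ² ang² + 3 ang Kw / (κ ang) + 3 Kw = 7 κ² ang² + 3 κ² + 3 Kw ≤ 13 κ² ang²` (`Kw ≤ κ²` as `Kw ≤ 1`).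

`pot_le_ball`: the same at `‖v‖ ≤ 3` (`ang v ^ 2 ≤ 10`).

`rate_q`: `weak_symW`, `Kf_bound_q` and symmetry in `(v, w)` (as in `rateW`, `LandauG/WRate.lean`):
`|∫ φ QL g| ≤ 2 C A ∫ (g v / ang v ^ (q+2)) pot g v dv ≤ 2 C A · 13 Kw^(2/3) ∫ g / ang ^ q`.  All functions are
nonnegative and measurable, `g / ang ^ q ≤ g / ang` is integrable as `q ≥ 1` and `ang ≥ 1`.
-/

set_option autoImplicit false

namespace Pool.Agent.LandauF

open MeasureTheory Set Filter Topology Pool.Agent.Landau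

theorem pot_le23 {g : V → ℝ} (hg : Clw g) (h1 : Kw g ≤ 1) (v : V) :
    pot g v ≤ 13 * Kw g ^ (2 / 3 : ℝ) * ang v ^ 2 := by
  have hK := hg.Kw_nonneg
  have ha := ang_pos v
  have ha1 := one_le_ang v
  rcases hK.eq_or_lt with h0 | h0
  · have e0 : (0 : ℝ) ^ (2 / 3 : ℝ) = 0 := Real.zero_rpow (by norm_num)
    rw [← h0, e0, mul_zero, zero_mul]
    by_contra hc
    push Not at hc
    have hr : 0 < Real.sqrt (pot g v / 14) := Real.sqrt_pos.2 (by linarith)
    have h2 := pot_bound g hg v _ hr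
    rw [Real.sq_sqrt (by linarith), ← h0, mul_zero, zero_div, mul_zero] at h2
    have h3 : pot g v ≤ 7 * (pot g v / 14) + 0 + 0 := h2
    linarith
  · obtain ⟨κ, hκ⟩ : ∃ κ, κ = Kw g ^ (1 / 3 : ℝ) := ⟨_, rfl⟩
    have hκ0 : 0 < κ := by rw [hκ]; exact Real.rpow_pos_of_pos h0 _
    have hκ2 : Kw g ^ (2 / 3 : ℝ) = κ ^ 2 := by
      rw [hκ, ← Real.rpow_natCast, ← Real.rpow_mul hK]
      norm_num
    have hκ3 : Kw g = κ ^ 3 := by
      rw [hκ, ← Real.rpow_natCast, ← Real.rpow_mul hK]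
      norm_num
    have hκ1 : κ ≤ 1 := by
      rw [hκ]
      exact Real.rpow_le_one hK h1 (by norm_num)
    have h2 := pot_bound g hg v (κ * ang v) (mul_pos hκ0 ha)
    have h3 : pot g v ≤ 7 * (κ * ang v) ^ 2 + 3 * ang v * Kw g / (κ * ang v) + 3 * Kw g := h2
    have h4 : 3 * ang v * Kw g / (κ * ang v) = 3 * κ ^ 2 := by
      rw [hκ3]
      field_simp
    have h5 : Kw g ≤ κ ^ 2 := by
      rw [hκ3]
      have : κ ^ 3 = κ ^ 2 * κ := by ring
      rw [this]
      exact mul_le_of_le_one_right (sq_nonneg κ) hκ1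
    have h6 : κ ^ 2 ≤ κ ^ 2 * ang v ^ 2 :=
      le_mul_of_one_le_right (sq_nonneg κ) (one_le_pow₀ ha1)
    rw [h4] at h3
    rw [hκ2]
    have h7 : (κ * ang v) ^ 2 = κ ^ 2 * ang v ^ 2 := by ring
    rw [h7] at h3
    linarith

theorem pot_le_ball {g : V → ℝ} (hg : Clw g) (h1 : Kw g ≤ 1) {v : V} (hv : ‖v‖ ≤ 3) :
    pot g v ≤ 130 * Kw g ^ (2 / 3 : ℝ) := by
  have h2 := pot_le23 hg h1 v
  have h3 : ang v ^ 2 ≤ 10 := by
    rw [ang_sq]
    have := norm_nonneg v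
    nlinarith
  have h4 : 0 ≤ Kw g ^ (2 / 3 : ℝ) := Real.rpow_nonneg hg.Kw_nonneg _
  have h5 : 13 * Kw g ^ (2 / 3 : ℝ) * ang v ^ 2 ≤ 13 * Kw g ^ (2 / 3 : ℝ) * 10 :=
    mul_le_mul_of_nonneg_left h3 (by linarith)
  linarith

private theorem q_le {g : V → ℝ} (hg : Clw g) {q : ℕ} (hq : 1 ≤ q) (v : V) :
    g v / ang v ^ q ≤ g v / ang v := by
  refine div_le_div_of_nonneg_left (hg.nonneg v) (ang_pos v) ?_
  calc ang v = ang v ^ 1 := (pow_one _).symm
    _ ≤ ang v ^ q := pow_le_pow_right₀ (one_le_ang v) hq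

private theorem q_nonneg {g : V → ℝ} (hg : Clw g) (q : ℕ) (v : V) : 0 ≤ g v / ang v ^ q :=
  div_nonneg (hg.nonneg v) (pow_pos (ang_pos v) q).le

theorem mq_int {g : V → ℝ} (hg : Clw g) {q : ℕ} (hq : 1 ≤ q) :
    Integrable (fun v => g v / ang v ^ q) := by
  have hm : AEStronglyMeasurable (fun v => g v / ang v ^ q) (volume : Measure V) :=
    (hg.cont.div (continuous_ang.pow q) fun v => (pow_pos (ang_pos v) q).ne').aestronglyMeasurable
  refine hg.int.mono' hm (Eventually.of_forall fun v => ?_)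
  rw [Real.norm_eq_abs, abs_of_nonneg (q_nonneg hg q v)]
  exact q_le hg hq v

theorem mq_le_Kw {g : V → ℝ} (hg : Clw g) {q : ℕ} (hq : 1 ≤ q) : mq q g ≤ Kw g := by
  unfold mq Kw
  exact integral_mono (mq_int hg hq) hg.int (q_le hg hq)

/-- the majorant kernel -/
private noncomputable def Hq (q : ℕ) (g : V → ℝ) (p : V × V) : ℝ :=
  g p.1 / ang p.1 ^ (q + 2) * (g p.2 / ‖p.1 - p.2‖)

private theorem Hq_nonneg {g : V → ℝ} (hg : Clw g) (q : ℕ) (p : V × V) : 0 ≤ Hq q g p :=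
  mul_nonneg (q_nonneg hg _ _) (div_nonneg (hg.nonneg _) (norm_nonneg _))

private theorem Hq_meas {g : V → ℝ} (hg : Clw g) (q : ℕ) : Measurable (Hq q g) := by
  have h1 : Measurable g := hg.cont.measurable
  have h2 : Measurable ang := continuous_ang.measurable
  unfold Hq
  exact ((h1.comp measurable_fst).div ((h2.comp measurable_fst).pow_const (q + 2))).mul
    ((h1.comp measurable_snd).div (measurable_fst.sub measurable_snd).norm)

private theorem sec_q (g : V → ℝ) (q : ℕ) (v : V) :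
    ∫ w, Hq q g (v, w) = g v / ang v ^ (q + 2) * pot g v :=
  integral_const_mul (g v / ang v ^ (q + 2)) (fun w => g w / ‖v - w‖)

private theorem sec_q_le {g : V → ℝ} (hg : Clw g) (h1 : Kw g ≤ 1) (q : ℕ) (v : V) :
    g v / ang v ^ (q + 2) * pot g v ≤ 13 * Kw g ^ (2 / 3 : ℝ) * (g v / ang v ^ q) := by
  have h2 := mul_le_mul_of_nonneg_left (pot_le23 hg h1 v) (q_nonneg hg (q + 2) v)
  refine h2.trans (le_of_eq ?_)
  have ha := (ang_pos v).ne'
  rw [pow_add]
  field_simp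

private theorem Hq_int {g : V → ℝ} (hg : Clw g) (h1 : Kw g ≤ 1) {q : ℕ} (hq : 1 ≤ q) :
    Integrable (Hq q g) (volume.prod volume) := by
  rw [integrable_prod_iff (Hq_meas hg q).aestronglyMeasurable]
  refine ⟨Eventually.of_forall fun v => ?_, ?_⟩
  · exact (pot_int g hg v).const_mul (g v / ang v ^ (q + 2))
  · have e1 : (fun v => ∫ w, ‖Hq q g (v, w)‖) = fun v => ∫ w, Hq q g (v, w) := by
      funext v
      refine integral_congr_ae (Eventually.of_forall fun w => ?_)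
      exact (Real.norm_eq_abs _).trans (abs_of_nonneg (Hq_nonneg hg q _))
    have hm : AEStronglyMeasurable (fun v => ∫ w, Hq q g (v, w)) volume :=
      ((Hq_meas hg q).stronglyMeasurable.integral_prod_right').aestronglyMeasurable
    rw [e1]
    refine Integrable.mono' (g := fun v => 13 * Kw g ^ (2 / 3 : ℝ) * (g v / ang v ^ q))
      ((mq_int hg hq).const_mul _) hm (Eventually.of_forall fun v => ?_)
    have h0 : 0 ≤ ∫ w, Hq q g (v, w) := integral_nonneg fun w => Hq_nonneg hg q _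
    rw [Real.norm_eq_abs, abs_of_nonneg h0, sec_q]
    exact sec_q_le hg h1 q v

private theorem Hq_le {g : V → ℝ} (hg : Clw g) (h1 : Kw g ≤ 1) {q : ℕ} (hq : 1 ≤ q) :
    ∫ p, Hq q g p ∂(volume.prod volume) ≤ 13 * Kw g ^ (2 / 3 : ℝ) * mq q g := by
  unfold mq
  rw [integral_prod _ (Hq_int hg h1 hq), ← integral_const_mul]
  refine integral_mono_of_nonneg (Eventually.of_forall fun v => ?_)
    ((mq_int hg hq).const_mul _) (Eventually.of_forall fun v => ?_)
  · exact integral_nonneg fun w => Hq_nonneg hg q _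
  · show ∫ w, Hq q g (v, w) ≤ _
    rw [sec_q]
    exact sec_q_le hg h1 q v

theorem rate_q (q : ℕ) (hq : 1 ≤ q) : ∃ C : ℝ, 0 < C ∧ ∀ g : V → ℝ, Clw g → Kw g ≤ 1 →
    ∀ (φ : V → ℝ) (A : ℝ), ContDiff ℝ (⊤ : ℕ∞) φ → HasCompactSupport φ →
    (∀ i v, |pd i φ v| ≤ A / ang v ^ (q + 1)) →
    (∀ i j v, |pd i (pd j φ) v| ≤ A / ang v ^ (q + 2)) →
    |∫ v, φ v * QL g v| ≤ C * A * Kw g ^ (2 / 3 : ℝ) * mq q g := by
  obtain ⟨C₁, hC₁, hKf⟩ := Kf_bound_q q
  refine ⟨26 * C₁, by positivity, ?_⟩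
  intro g hg hK1 φ A hφ hc hp1 hp2
  have hA : 0 ≤ A := by
    have h1 := (abs_nonneg _).trans (hp1 0 0)
    have h2 : 0 < ang (0 : V) ^ (q + 1) := pow_pos (ang_pos _) _
    by_contra hc
    push Not at hc
    have := div_neg_of_neg_of_pos hc h2
    linarith
  obtain ⟨hF, hE⟩ := weak_symW g hg φ hφ hc
  have hHi := Hq_int hg hK1 hq
  have hHs : Integrable (fun p : V × V => Hq q g p.swap) (volume.prod volume) := hHi.swap
  have hsw : ∫ p : V × V, Hq q g p.swap ∂(volume.prod volume) =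
      ∫ p, Hq q g p ∂(volume.prod volume) := integral_prod_swap _
  rw [hE]
  have hbd : ∀ p : V × V, ‖g p.1 * g p.2 * Kf φ p.1 p.2‖ ≤
      C₁ * A * (Hq q g p + Hq q g p.swap) := by
    rintro ⟨v, w⟩
    have h3 := hKf φ hφ A hp1 hp2 v w
    have hgg : 0 ≤ g v * g w := mul_nonneg (hg.nonneg v) (hg.nonneg w)
    rw [Real.norm_eq_abs, abs_mul, abs_of_nonneg hgg]
    refine (mul_le_mul_of_nonneg_left h3 hgg).trans (le_of_eq ?_)
    show g v * g w * (C₁ * A * (1 / ang v ^ (q + 2) + 1 / ang w ^ (q + 2)) / ‖v - w‖) =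
      C₁ * A * (g v / ang v ^ (q + 2) * (g w / ‖v - w‖) +
        g w / ang w ^ (q + 2) * (g v / ‖w - v‖))
    rw [norm_sub_rev w v]
    ring
  have hmain : |∫ p : V × V, g p.1 * g p.2 * Kf φ p.1 p.2 ∂(volume.prod volume)| ≤
      2 * C₁ * A * ∫ p, Hq q g p ∂(volume.prod volume) := by
    rw [← Real.norm_eq_abs]
    refine (norm_integral_le_integral_norm _).trans ?_
    have h4 : ∫ p : V × V, ‖g p.1 * g p.2 * Kf φ p.1 p.2‖ ∂(volume.prod volume) ≤
        ∫ p : V × V, C₁ * A * (Hq q g p + Hq q g p.swap) ∂(volume.prod volume) :=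
      integral_mono hF.norm ((hHi.add hHs).const_mul _) hbd
    refine h4.trans (le_of_eq ?_)
    rw [integral_const_mul, integral_add hHi hHs, hsw]
    ring
  refine hmain.trans ?_
  have h5 := mul_le_mul_of_nonneg_left (Hq_le hg hK1 hq)
    (mul_nonneg (mul_nonneg (by norm_num : (0 : ℝ) ≤ 2) hC₁.le) hA)
  refine h5.trans (le_of_eq ?_)
  ring

end Pool.Agent.LandauF
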