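import Pool.Agent.LandauF.HEnF
import Pool.Agent.LandauF.HPsiE
import Pool.Agent.LandauF.HOde
import Pool.Agent.LandauF.HDilSol
import Pool.Agent.LandauF.HRq
import Pool.Agent.LandauF.FTopRic

/-!
# LandauF, module HShE: the Fisher information of one shell is small

Constants: `RIC` (`c₁ C₁ C₂ s₁ ε₁`), `psiE_exists` (`cE`, `Ψ`), `APF` (`CA`, `p`), `pot_tail` (`Cp`).  `N = ∫ f b > 0` is the
integral of `f t` for every `t ≤ 0` (`mass_at`).  Let `R` be large, `L = 4 R`, `g τ' = dl L (f τ')`, `c' = c/250`.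

Times: `t ∈ [b - c' R^τ, b]`, `a = t - T'`, `T' ≤ c' R^τ`.  For `τ' ∈ [a, t]` and `ρ ≥ R/5 ≥ ρ₀`:
`τ' ≥ b - 2 c' R^τ ≥ b - c ρ^τ` (`(R/5)^τ ≥ R^τ/125`), so `mT (f τ') ρ ≤ C ρ^(-β)`, hence
`mT (g τ') r = mT (f τ') (L r)/L³ ≤ C (L r)^(-β)/L³` for `r ≥ 1/20` (`mT_dl`), and `∫ g τ' = N/L³`.

`s = R^(-β/30)`, `k = R^(β/60)` (`k s = R^(-β/60) ≤ ε₁`), `r₀ = 1`, `M = {1/8 ≤ ‖v‖ ≤ 3/4}`, `η = exp (-cE k)` (if `v ∉ M` then
`‖v‖ < 1/8` or `‖v‖ > 3/4`, `Ψ v ≥ cE`).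
(h2) `v ∈ M`: `pot_tail` with `r = 1/16`: `pot (g τ') v ≤ Cp ((C (L/16)^(-β)/L³)^(2/3) + 16 N/L³) ≤ P₁ R^(-τ) =: p'`
(`L^(-2 - 2β/3) ≤ R^(-τ)`, `L^(-3) ≤ R^(-τ)`), `P₁` depends on `C, N, β, Cp`.
Cells: let `‖y‖ ∈ [1/10, 1]`.  The ball of radius `2 s` about `y` lies in `‖w‖ ≥ 1/20`, so
`mB (g τ') y (2 s) ≤ mT (g τ') (1/20) ≤ C₃ R^(-β)/L³`; for `‖w‖ ≤ 1/20`, `10 s ≤ 1/20 ≤ ‖w - y‖ ≤ 2`, so
`PB (g τ') y s ≥ (1/2)(N/L³ - mT (g τ') (1/20)) ≥ N/(4 L³)` for `R` large.  (h3) with `r₀ = 1` and (h4)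
(`C₁ R^(β/60) C₃ R^(-β) ≤ N/4`) follow for `R` large, all points `y` in question have `1/10 ≤ ‖y‖ ≤ 1` (`pd i Ψ x ≠ 0` implies
`1/8 ≤ ‖x‖ ≤ 3/4`; `20 s ≤ 1/50`).
`RIC` for `J τ' = FJ (wt k Ψ) (g τ')`, with `mB (g τ') 0 3 ≤ N/R³`, `Kw (g τ') ≤ 1`:
`J' ≤ -(c₁ s³ (max 0 (J - (δ + h)))²) + μ J + n`, `δ = C₂ N R^(-3) s^(-2)`, `h = C₂ η JB (g τ') 0 3`, `μ = C₂ P₁ R^(-τ) s^(-2)`,
`n = C₂ P₁ N R^(-τ) R^(-3) s^(-4) + 2 C₂ η s^(-4) (JB (g τ') 0 3 + N)`.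
`T' = c₂ s² R^τ`, `c₂ = min c' (1/(20 C₂ P₁))`, so `μ T' ≤ 1/20`.  `APF` for `g` on `[a, t]` with `A = R^4`
(`mB (g τ') 0 A ≥ mB (g τ') 0 3 ≥ N/(2 L³) ≥ 1/R^4` for `R` large): `∫_a^t JB (g τ') 0 3 ≤ CA (1 + R^3) R^(4 p)`; `η` is smaller than
every power of `1/R` (`exp (-cE R^(β/60))`), so `2 c₁ s³ ∫ h ≤ 1/20` and
`∫ n ≤ c₂ C₂ P₁ N R^(-3) s^(-2) + R^(-3) ≤ C₅ R^(-3) s^(-2)` for `R` large.
Let `B = C₄ R^(-τ + β/6)`, `C₄ = 10 C₂ N + 10 C₅ + 7/(c₁ c₂)`.  If `J t ≥ B`, apply `ode_low` with `j0 = B`: `δ ≤ B/10`,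
`∫ n ≤ B/10` (`-3 + β/15 ≤ -τ + β/6`), but `c₁ s³ T' B = c₁ c₂ C₄ s⁵ R^(β/6) = c₁ c₂ C₄ ≥ 7 > 6`, a contradiction.
So `J t < B`.  Finally `wt k Ψ = 1` on `1/4 ≤ ‖v‖ ≤ 3/8`, so `Fa (f t) R (3/2 R) = L Fa (g t) (1/4) (3/8) ≤ 4 R B`.
(`FJ_deriv`, `JB_cont` for the solution `g`; `APF` in the form with `1 / A ≤ mB (f t) 0 A`.)
-/

set_option autoImplicit false

namespace Pool.Agent.LandauF

open MeasureTheory Set Filter Topology Pool.Agent.Landau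

namespace HShEAux

theorem fi_cont {g : V → ℝ} (hg : Dn g) : Continuous (fi g) := by
  have hc : Continuous g := hg.cls.smooth.continuous
  have h1 : ∀ i, Continuous (gam i g) := fun i =>
    (smooth_pd hg.cls.smooth i).continuous.div hc fun v => (hg.pos v).ne'
  unfold fi x2
  exact hc.mul (continuous_finsetSum _ fun i _ => (h1 i).pow 2)

theorem fi_nonneg {g : V → ℝ} (hg : Dn g) (v : V) : 0 ≤ fi g v :=
  mul_nonneg (hg.pos v).le (Finset.sum_nonneg fun _ _ => sq_nonneg _)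

theorem wt_smooth (k : ℝ) {Ψ : V → ℝ} (hΨ : ContDiff ℝ (⊤ : ℕ∞) Ψ) :
    ContDiff ℝ (⊤ : ℕ∞) (wt k Ψ) := by
  unfold wt
  exact (contDiff_const.mul hΨ).neg.exp.mul ((chi_smooth 1).pow 6)

theorem wt_compact (k : ℝ) (Ψ : V → ℝ) : HasCompactSupport (wt k Ψ) := by
  refine HasCompactSupport.intro (isCompact_closedBall (0 : V) 2) fun v hv => ?_
  rw [mem_closedBall_zero_iff, not_le] at hv
  unfold wt
  rw [chi_zero one_pos (by linarith)]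
  simp

theorem wt_nonneg (k : ℝ) (Ψ : V → ℝ) (v : V) : 0 ≤ wt k Ψ v :=
  mul_nonneg (Real.exp_pos _).le (pow_nonneg (chi_nonneg 1 v) 6)

theorem shell_le {g : V → ℝ} (hg : Dn g) {k : ℝ} {Ψ : V → ℝ} (hΨ : ContDiff ℝ (⊤ : ℕ∞) Ψ)
    (h0 : ∀ v, 1 / 4 ≤ ‖v‖ → ‖v‖ ≤ 3 / 8 → Ψ v = 0) :
    Fa g (1 / 4) (3 / 8) ≤ FJ (wt k Ψ) g := by
  have hm : MeasurableSet {v : V | 1 / 4 ≤ ‖v‖ ∧ ‖v‖ ≤ 3 / 8} :=
    ((isClosed_le continuous_const continuous_norm).inter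
      (isClosed_le continuous_norm continuous_const)).measurableSet
  have hi : Integrable (fun v => wt k Ψ v * fi g v) :=
    ((wt_smooth k hΨ).continuous.mul (fi_cont hg)).integrable_of_hasCompactSupport
      (wt_compact k Ψ).mul_right
  have h1 : Fa g (1 / 4) (3 / 8) =
      ∫ v in {v : V | 1 / 4 ≤ ‖v‖ ∧ ‖v‖ ≤ 3 / 8}, wt k Ψ v * fi g v := by
    unfold Fa
    refine setIntegral_congr_fun hm fun v hv => ?_
    show fi g v = wt k Ψ v * fi g v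
    have hv1 : 1 / 4 ≤ ‖v‖ := hv.1
    have hv2 : ‖v‖ ≤ 3 / 8 := hv.2
    have h2 : wt k Ψ v = 1 := by
      unfold wt
      rw [h0 v hv1 hv2, chi_one one_pos (by linarith)]
      simp
    rw [h2, one_mul]
  rw [h1]
  exact setIntegral_le_integral hi
    (Eventually.of_forall fun v => mul_nonneg (wt_nonneg k Ψ v) (fi_nonneg hg v))

theorem inner_meas (r : ℝ) : MeasurableSet {w : V | r ≤ ‖w‖} :=
  measurableSet_le measurable_const measurable_norm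

theorem inner_eq {g : V → ℝ} (hi : Integrable g) (r : ℝ) :
    (∫ v, g v) - mT g r = ∫ v in {w : V | r ≤ ‖w‖}ᶜ, g v := by
  have h := integral_add_compl (inner_meas r) hi
  unfold mT
  linarith

theorem ball_lo {g : V → ℝ} (hg : Clw g) (hi : Integrable g) {r ρ : ℝ} (h : r ≤ ρ) :
    (∫ v, g v) - mT g r ≤ mB g 0 ρ := by
  rw [inner_eq hi]
  unfold mB
  refine setIntegral_mono_set hi.integrableOn (Eventually.of_forall fun v => hg.nonneg v) ?_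
  refine Filter.Eventually.of_forall fun w hw => ?_
  have hw' : ¬ r ≤ ‖w‖ := hw
  push Not at hw'
  show w ∈ Metric.closedBall 0 ρ
  rw [mem_closedBall_zero_iff]
  linarith

theorem ball_hi {g : V → ℝ} (hg : Clw g) (hi : Integrable g) (ρ : ℝ) :
    mB g 0 ρ ≤ ∫ v, g v :=
  setIntegral_le_integral hi (Eventually.of_forall fun v => hg.nonneg v)

theorem cell {g : V → ℝ} (hg : Clw g) (hi : Integrable g) {y : V} {s : ℝ} (hy1 : 1 / 10 ≤ ‖y‖)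
    (hy2 : ‖y‖ ≤ 1) (hs : 0 < s) (hs1 : s ≤ 1 / 1000) :
    mB g y (2 * s) ≤ mT g (1 / 20) ∧ 1 / 2 * ((∫ v, g v) - mT g (1 / 20)) ≤ PB g y s := by
  constructor
  · unfold mB mT
    refine setIntegral_mono_set hi.integrableOn (Eventually.of_forall fun v => hg.nonneg v) ?_
    refine Filter.Eventually.of_forall fun w hw => ?_
    have hw2 : w ∈ Metric.closedBall y (2 * s) := hw
    rw [Metric.mem_closedBall, dist_eq_norm] at hw2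
    show 1 / 20 ≤ ‖w‖
    have h1 : ‖y‖ ≤ ‖w‖ + ‖w - y‖ := by
      have := norm_sub_norm_le y w
      rw [norm_sub_rev y w] at this
      linarith
    linarith
  · rw [inner_eq hi, ← integral_const_mul]
    unfold PB
    have hm : MeasurableSet {w : V | 10 * s ≤ ‖w - y‖} :=
      measurableSet_le measurable_const (measurable_id.sub_const y).norm
    rw [← integral_indicator hm, ← integral_indicator (inner_meas (1 / 20)).compl]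
    refine integral_mono ((hi.const_mul (1 / 2)).indicator (inner_meas (1 / 20)).compl)
      ((PB_int hg y hs).integrable_indicator hm) fun w => ?_
    show indicator {w : V | 1 / 20 ≤ ‖w‖}ᶜ (fun v => 1 / 2 * g v) w ≤
      indicator {w : V | 10 * s ≤ ‖w - y‖} (fun w => g w / ‖w - y‖) w
    by_cases hw : w ∈ {w : V | 1 / 20 ≤ ‖w‖}ᶜ
    · rw [indicator_of_mem hw]
      have hw' : ¬ 1 / 20 ≤ ‖w‖ := hw
      push Not at hw'
      have h1 : ‖y‖ ≤ ‖w‖ + ‖w - y‖ := by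
        have := norm_sub_norm_le y w
        rw [norm_sub_rev y w] at this
        linarith
      have h2 : ‖w - y‖ ≤ ‖w‖ + ‖y‖ := norm_sub_le w y
      have h3 : w ∈ {w : V | 10 * s ≤ ‖w - y‖} := by
        show 10 * s ≤ ‖w - y‖
        linarith
      rw [indicator_of_mem h3]
      have h4 : 0 < ‖w - y‖ := by linarith
      rw [le_div_iff₀ h4]
      have h5 := hg.nonneg w
      nlinarith
    · rw [indicator_of_notMem hw]
      exact indicator_nonneg (fun v _ => div_nonneg (hg.nonneg v) (norm_nonneg _)) w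

/-- the statement of `RIC` with its constants -/
def RicP (c₁ C₁ C₂ s₁ ε₁ : ℝ) : Prop :=
    ∀ (g Ψ : V → ℝ) (M : Set V) (s k η p r₀ : ℝ), Dn g → 0 < s → s ≤ s₁ → 0 ≤ k → k * s ≤ ε₁ →
      ContDiff ℝ (⊤ : ℕ∞) Ψ → (∀ v, 0 ≤ Ψ v) → (∀ v, ∀ i : Fin 3, |pd i Ψ v| ≤ 1) →
      (∀ v, ∀ i j : Fin 3, |pd i (pd j Ψ) v| ≤ 1 / s) →
      (∀ v, 3 / 4 ≤ ‖v‖ → ∀ i : Fin 3, pd i Ψ v = 0) →
      IsClosed M → (∀ v ∈ M, ‖v‖ ≤ 3 / 4) → 0 ≤ η → η ≤ 1 → 0 ≤ p → 0 < r₀ → r₀ ≤ 1 / s →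
      (∀ v, v ∉ M → Real.exp (-(k * Ψ v)) ≤ η) →
      (∀ v ∈ M, pot g v ≤ p) →
      (∀ y, (∃ v ∈ M, ‖y - v‖ ≤ s) → r₀ * mB g y (2 * s) ≤ PB g y s) →
      (∀ y, (∃ x, ‖x - y‖ ≤ 20 * s ∧ ∃ i : Fin 3, pd i Ψ x ≠ 0) →
        C₁ * k * mB g y (2 * s) ≤ PB g y s) →
      dFJ (wt k Ψ) g ≤
        -(c₁ * r₀ * s ^ 3 *
          (max 0 (FJ (wt k Ψ) g - C₂ * (mB g 0 3 / s ^ 2 + η * JB g 0 3))) ^ 2)
        + C₂ * p / s ^ 2 * FJ (wt k Ψ) g + C₂ * p / s ^ 4 * mB g 0 3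
        + C₂ * η / s ^ 4 * (1 + Kw g) * (JB g 0 3 + mB g 0 3)

/-- the differential inequality at one time -/
theorem riccati {c₁ C₁ C₂ s₁ ε₁ : ℝ} (hR : RicP c₁ C₁ C₂ s₁ ε₁) (hc₁ : 0 < c₁) (hC₁ : 0 < C₁)
    (hC₂ : 0 < C₂) {g Ψ : V → ℝ} {s k η p m₀ m₁ cE : ℝ} (hg : Dn g) (hi : Integrable g)
    (hs : 0 < s) (hss : s ≤ s₁) (hs1 : s ≤ 1 / 1000) (hk : 0 ≤ k) (hks : k * s ≤ ε₁)
    (hΨ : ContDiff ℝ (⊤ : ℕ∞) Ψ) (hΨ0 : ∀ v, 0 ≤ Ψ v) (hΨ1 : ∀ v, ∀ i : Fin 3, |pd i Ψ v| ≤ 1)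
    (hΨ2 : ∀ v, ∀ i j : Fin 3, |pd i (pd j Ψ) v| ≤ 1)
    (hΨa : ∀ v, ‖v‖ ≤ 1 / 8 → cE ≤ Ψ v) (hΨb : ∀ v, 3 / 4 ≤ ‖v‖ → cE ≤ Ψ v)
    (hΨc : ∀ v, ‖v‖ ≤ 1 / 8 → ∀ i : Fin 3, pd i Ψ v = 0)
    (hΨd : ∀ v, 3 / 4 ≤ ‖v‖ → ∀ i : Fin 3, pd i Ψ v = 0)
    (hη : Real.exp (-(k * cE)) ≤ η) (hη1 : η ≤ 1) (hp : 0 ≤ p)
    (hm : ∫ v, g v = m₀) (hT : mT g (1 / 20) ≤ m₁) (h1 : m₁ ≤ m₀ / 4) (h2 : C₁ * k * m₁ ≤ m₀ / 4)
    (hKw : Kw g ≤ 1) (hpot : ∀ v, 1 / 8 ≤ ‖v‖ → pot g v ≤ p) :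
    dFJ (wt k Ψ) g ≤
      -(c₁ * s ^ 3 * (max 0 (FJ (wt k Ψ) g - (C₂ * m₀ / s ^ 2 + C₂ * η * JB g 0 3))) ^ 2)
      + C₂ * p / s ^ 2 * FJ (wt k Ψ) g
      + (C₂ * p / s ^ 4 * m₀ + 2 * (C₂ * η / s ^ 4) * (JB g 0 3 + m₀)) := by
  have hη0 : 0 ≤ η := (Real.exp_pos _).le.trans hη
  have hJ : 0 ≤ JB g 0 3 := JB_nonneg hg 0 3
  have hB0 : 0 ≤ mB g 0 3 := mB_nonneg hg.cls 0 3
  have hB1 : mB g 0 3 ≤ m₀ := by
    rw [← hm]
    exact ball_hi hg.cls hi 3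
  have hm0 : 0 ≤ m₀ := hB0.trans hB1
  have hmT : 0 ≤ mT g (1 / 20) := mT_nonneg hg.cls _
  have hM : IsClosed {v : V | 1 / 8 ≤ ‖v‖ ∧ ‖v‖ ≤ 3 / 4} :=
    (isClosed_le continuous_const continuous_norm).inter
      (isClosed_le continuous_norm continuous_const)
  have hs1' : 1 ≤ 1 / s := by
    rw [le_div_iff₀ hs]
    linarith
  have key := hR g Ψ {v : V | 1 / 8 ≤ ‖v‖ ∧ ‖v‖ ≤ 3 / 4} s k η p 1 hg hs hss hk hks hΨ hΨ0 hΨ1
    (fun v i j => (hΨ2 v i j).trans hs1') hΨd hM (fun v hv => hv.2) hη0 hη1 hp one_pos hs1' ?_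
    (fun v hv => hpot v hv.1) ?_ ?_
  · refine key.trans ?_
    have e1 : (max 0 (FJ (wt k Ψ) g - (C₂ * m₀ / s ^ 2 + C₂ * η * JB g 0 3))) ^ 2 ≤
        (max 0 (FJ (wt k Ψ) g - C₂ * (mB g 0 3 / s ^ 2 + η * JB g 0 3))) ^ 2 := by
      refine pow_le_pow_left₀ (le_max_left _ _) (max_le_max le_rfl ?_) 2
      have e2 : C₂ * (mB g 0 3 / s ^ 2 + η * JB g 0 3) =
          C₂ / s ^ 2 * mB g 0 3 + C₂ * η * JB g 0 3 := by ring
      have e3 : C₂ * m₀ / s ^ 2 = C₂ / s ^ 2 * m₀ := by ring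
      have e4 : C₂ / s ^ 2 * mB g 0 3 ≤ C₂ / s ^ 2 * m₀ :=
        mul_le_mul_of_nonneg_left hB1 (by positivity)
      rw [e2, e3]
      linarith
    have e5 : c₁ * s ^ 3 * (max 0 (FJ (wt k Ψ) g - (C₂ * m₀ / s ^ 2 + C₂ * η * JB g 0 3))) ^ 2 ≤
        c₁ * 1 * s ^ 3 *
          (max 0 (FJ (wt k Ψ) g - C₂ * (mB g 0 3 / s ^ 2 + η * JB g 0 3))) ^ 2 := by
      rw [mul_one]
      exact mul_le_mul_of_nonneg_left e1 (by positivity)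
    have e6 : C₂ * p / s ^ 4 * mB g 0 3 ≤ C₂ * p / s ^ 4 * m₀ :=
      mul_le_mul_of_nonneg_left hB1 (by positivity)
    have e7 : C₂ * η / s ^ 4 * (1 + Kw g) * (JB g 0 3 + mB g 0 3) ≤
        2 * (C₂ * η / s ^ 4) * (JB g 0 3 + m₀) := by
      have e8 : 0 ≤ C₂ * η / s ^ 4 := by positivity
      have e9 : C₂ * η / s ^ 4 * (1 + Kw g) ≤ 2 * (C₂ * η / s ^ 4) := by
        have := mul_le_mul_of_nonneg_left (show 1 + Kw g ≤ 2 by linarith) e8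
        linarith
      exact mul_le_mul e9 (by linarith) (by linarith) (by linarith)
    linarith
  · intro v hv
    have hv' : ¬ (1 / 8 ≤ ‖v‖ ∧ ‖v‖ ≤ 3 / 4) := hv
    have h3 : cE ≤ Ψ v := by
      by_cases h4 : 1 / 8 ≤ ‖v‖
      · refine hΨb v ?_
        by_contra h5
        push Not at h5
        exact hv' ⟨h4, h5.le⟩
      · push Not at h4
        exact hΨa v h4.le
    refine le_trans (Real.exp_le_exp.2 ?_) hη
    have := mul_le_mul_of_nonneg_left h3 hk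
    linarith
  · rintro y ⟨v, hv, hy⟩
    have hv1 : 1 / 8 ≤ ‖v‖ := hv.1
    have hv2 : ‖v‖ ≤ 3 / 4 := hv.2
    have h3 : ‖v‖ ≤ ‖y‖ + ‖y - v‖ := by
      have := norm_sub_norm_le v y
      rw [norm_sub_rev v y] at this
      linarith
    have h4 : ‖y‖ ≤ ‖v‖ + ‖y - v‖ := by
      have := norm_sub_norm_le y v
      linarith
    obtain ⟨k1, k2⟩ := cell hg.cls hi (y := y) (by linarith) (by linarith) hs hs1
    rw [hm] at k2
    linarith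
  · rintro y ⟨x, hx, i, hxi⟩
    have hx1 : 1 / 8 ≤ ‖x‖ := by
      by_contra h3
      push Not at h3
      exact hxi (hΨc x h3.le i)
    have hx2 : ‖x‖ ≤ 3 / 4 := by
      by_contra h3
      push Not at h3
      exact hxi (hΨd x h3.le i)
    have h3 : ‖x‖ ≤ ‖y‖ + ‖x - y‖ := by
      have := norm_sub_norm_le x y
      linarith
    have h4 : ‖y‖ ≤ ‖x‖ + ‖x - y‖ := by
      have := norm_sub_norm_le y x
      rw [norm_sub_rev y x] at this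
      linarith
    obtain ⟨k1, k2⟩ := cell hg.cls hi (y := y) (by linarith) (by linarith) hs hs1
    rw [hm] at k2
    have h5 : C₁ * k * mB g y (2 * s) ≤ C₁ * k * m₁ :=
      mul_le_mul_of_nonneg_left (k1.trans hT) (by positivity)
    linarith

/-- the integrated inequality on a window -/
theorem window {c₁ C₁ C₂ s₁ ε₁ : ℝ} (hR : RicP c₁ C₁ C₂ s₁ ε₁) (hc₁ : 0 < c₁) (hC₁ : 0 < C₁)
    (hC₂ : 0 < C₂) {G : ℝ → V → ℝ} {Ψ : V → ℝ} {s k η p m₀ m₁ cE JI a t B : ℝ} (hG : SolP G)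
    (hat : a < t) (ht : t < 0) (hi : ∀ τ ∈ Icc a t, Integrable (G τ))
    (hs : 0 < s) (hss : s ≤ s₁) (hs1 : s ≤ 1 / 1000) (hk : 0 ≤ k) (hks : k * s ≤ ε₁)
    (hΨ : ContDiff ℝ (⊤ : ℕ∞) Ψ) (hΨ0 : ∀ v, 0 ≤ Ψ v) (hΨ1 : ∀ v, ∀ i : Fin 3, |pd i Ψ v| ≤ 1)
    (hΨ2 : ∀ v, ∀ i j : Fin 3, |pd i (pd j Ψ) v| ≤ 1)
    (hΨa : ∀ v, ‖v‖ ≤ 1 / 8 → cE ≤ Ψ v) (hΨb : ∀ v, 3 / 4 ≤ ‖v‖ → cE ≤ Ψ v)
    (hΨc : ∀ v, ‖v‖ ≤ 1 / 8 → ∀ i : Fin 3, pd i Ψ v = 0)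
    (hΨd : ∀ v, 3 / 4 ≤ ‖v‖ → ∀ i : Fin 3, pd i Ψ v = 0)
    (hη : Real.exp (-(k * cE)) ≤ η) (hη1 : η ≤ 1) (hp : 0 ≤ p)
    (hm0 : 0 ≤ m₀) (hm : ∀ τ ∈ Icc a t, ∫ v, G τ v = m₀) (hT : ∀ τ ∈ Icc a t, mT (G τ) (1 / 20) ≤ m₁)
    (h1 : m₁ ≤ m₀ / 4) (h2 : C₁ * k * m₁ ≤ m₀ / 4)
    (hKw : ∀ τ ∈ Icc a t, Kw (G τ) ≤ 1) (hpot : ∀ τ ∈ Icc a t, ∀ v, 1 / 8 ≤ ‖v‖ → pot (G τ) v ≤ p)
    (hJI : ∫ τ in a..t, JB (G τ) 0 3 ≤ JI) (hB : 0 < B)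
    (n1 : C₂ * m₀ / s ^ 2 ≤ B / 10)
    (n2 : C₂ * p / s ^ 2 * (t - a) + 2 * (c₁ * s ^ 3) * (C₂ * η * JI) ≤ 1 / 10)
    (n3 : (C₂ * p / s ^ 4 * m₀ + 2 * (C₂ * η / s ^ 4) * m₀) * (t - a) +
      2 * (C₂ * η / s ^ 4) * JI ≤ B / 10)
    (n4 : 6 < c₁ * s ^ 3 * (t - a) * B) : FJ (wt k Ψ) (G t) < B := by
  by_contra hcon
  push Not at hcon
  have hη0 : 0 ≤ η := (Real.exp_pos _).le.trans hη
  have hneg : ∀ τ ∈ Icc a t, τ < 0 := fun τ hτ => lt_of_le_of_lt hτ.2 ht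
  have hJc : ContinuousOn (fun τ => JB (G τ) 0 3) (Icc a t) :=
    (JB_cont G hG 0 3).mono fun τ hτ => hneg τ hτ
  have hJi : IntervalIntegrable (fun τ => JB (G τ) 0 3) volume a t := by
    apply ContinuousOn.intervalIntegrable
    rwa [uIcc_of_le hat.le]
  have e0 : 0 ≤ C₂ * η / s ^ 4 := by positivity
  have key := ode_low a t (c₁ * s ^ 3) (C₂ * m₀ / s ^ 2) (C₂ * p / s ^ 2) B
    (fun τ => FJ (wt k Ψ) (G τ)) (fun τ => dFJ (wt k Ψ) (G τ)) (fun τ => C₂ * η * JB (G τ) 0 3)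
    (fun τ => C₂ * p / s ^ 4 * m₀ + 2 * (C₂ * η / s ^ 4) * (JB (G τ) 0 3 + m₀)) hat
    (by positivity) (by positivity) (by positivity) hB (continuousOn_const.mul hJc)
    (continuousOn_const.add (continuousOn_const.mul (hJc.add continuousOn_const)))
    (fun τ hτ => mul_nonneg (mul_nonneg hC₂.le hη0) (JB_nonneg (hG.dn (hneg τ hτ)) 0 3))
    (fun τ hτ => by
      have h3 := JB_nonneg (hG.dn (hneg τ hτ)) 0 3
      have h4 : 0 ≤ C₂ * p / s ^ 4 * m₀ := by positivity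
      have h5 : 0 ≤ 2 * (C₂ * η / s ^ 4) * (JB (G τ) 0 3 + m₀) :=
        mul_nonneg (by linarith) (by linarith)
      exact add_nonneg h4 h5)
    (fun τ hτ => FJ_nonneg (hG.dn (hneg τ hτ)) (wt_nonneg k Ψ))
    (fun τ hτ => FJ_deriv G hG (wt k Ψ) (wt_smooth k hΨ) (wt_compact k Ψ) τ (hneg τ hτ))
    (fun τ hτ => riccati hR hc₁ hC₁ hC₂ (hG.dn (hneg τ hτ)) (hi τ hτ) hs hss hs1 hk hks hΨ hΨ0 hΨ1
      hΨ2 hΨa hΨb hΨc hΨd hη hη1 hp (hm τ hτ) (hT τ hτ) h1 h2 (hKw τ hτ) (hpot τ hτ))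
    hcon n1 ?_ ?_
  · linarith
  · have e1 : ∫ τ in a..t, C₂ * η * JB (G τ) 0 3 = C₂ * η * ∫ τ in a..t, JB (G τ) 0 3 :=
      intervalIntegral.integral_const_mul _ _
    rw [e1]
    have e2 : C₂ * η * (∫ τ in a..t, JB (G τ) 0 3) ≤ C₂ * η * JI :=
      mul_le_mul_of_nonneg_left hJI (by positivity)
    have e3 : 2 * (c₁ * s ^ 3) * (C₂ * η * ∫ τ in a..t, JB (G τ) 0 3) ≤
        2 * (c₁ * s ^ 3) * (C₂ * η * JI) := mul_le_mul_of_nonneg_left e2 (by positivity)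
    linarith
  · have e1 : ∫ τ in a..t, (C₂ * p / s ^ 4 * m₀ + 2 * (C₂ * η / s ^ 4) * (JB (G τ) 0 3 + m₀)) =
        (C₂ * p / s ^ 4 * m₀ + 2 * (C₂ * η / s ^ 4) * m₀) * (t - a) +
          2 * (C₂ * η / s ^ 4) * ∫ τ in a..t, JB (G τ) 0 3 := by
      have f1 : ∫ τ in a..t, (JB (G τ) 0 3 + m₀) = (∫ τ in a..t, JB (G τ) 0 3) + (t - a) * m₀ := by
        rw [intervalIntegral.integral_add hJi intervalIntegrable_const,
          intervalIntegral.integral_const, smul_eq_mul]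
      have f2 : ∫ τ in a..t, 2 * (C₂ * η / s ^ 4) * (JB (G τ) 0 3 + m₀) =
          2 * (C₂ * η / s ^ 4) * ∫ τ in a..t, (JB (G τ) 0 3 + m₀) :=
        intervalIntegral.integral_const_mul _ _
      rw [intervalIntegral.integral_add intervalIntegrable_const
        ((hJi.add intervalIntegrable_const).const_mul _), f2, f1,
        intervalIntegral.integral_const, smul_eq_mul]
      ring
    rw [e1]
    have e2 : 2 * (C₂ * η / s ^ 4) * (∫ τ in a..t, JB (G τ) 0 3) ≤ 2 * (C₂ * η / s ^ 4) * JI :=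
      mul_le_mul_of_nonneg_left hJI (by linarith)
    linarith

theorem zlim {β p cE : ℝ} (hβ : 0 < β) (hcE : 0 < cE) :
    Tendsto (fun R : ℝ => R ^ 8 * (R ^ 4) ^ p * Real.exp (-(R ^ (β / 60) * cE))) atTop (𝓝 0) := by
  have hx : Tendsto (fun R : ℝ => R ^ (β / 60)) atTop atTop := tendsto_rpow_atTop (by positivity)
  have h1 := (tendsto_rpow_mul_exp_neg_mul_atTop_nhds_zero ((8 + 4 * p) * (60 / β)) cE hcE).comp hx
  refine h1.congr' ?_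
  filter_upwards [eventually_gt_atTop 0] with R hR
  show (R ^ (β / 60)) ^ ((8 + 4 * p) * (60 / β)) * Real.exp (-cE * R ^ (β / 60)) =
    R ^ 8 * (R ^ 4) ^ p * Real.exp (-(R ^ (β / 60) * cE))
  have e1 : (R ^ (β / 60)) ^ ((8 + 4 * p) * (60 / β)) = R ^ 8 * (R ^ 4) ^ p := by
    rw [← Real.rpow_mul hR.le, show β / 60 * ((8 + 4 * p) * (60 / β)) = 8 + 4 * p by field_simp,
      Real.rpow_add hR, Real.rpow_mul hR.le]
    norm_cast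
  rw [e1]
  congr 2
  ring

theorem Kw_le_mass {g : V → ℝ} (hg : Clw g) (hi : Integrable g) : Kw g ≤ ∫ v, g v := by
  unfold Kw
  refine integral_mono hg.int hi fun v => ?_
  exact div_le_self (hg.nonneg v) (one_le_ang v)

theorem numbers {c₁ C₂ N P₁ c₂ C₄ CA R x X Y η : ℝ} (hc₁ : 0 < c₁) (hC₂ : 0 < C₂) (hN : 0 < N)
    (hP : 0 < P₁) (hc₂ : 0 < c₂) (hCA : 0 < CA) (hR : 1 ≤ R) (hx : 1 ≤ x) (hx8 : x ^ 8 ≤ R)
    (hX1 : 1 ≤ X) (hX3 : X ≤ R ^ 3) (hY : 1 ≤ Y) (hη : 0 ≤ η)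
    (h2 : c₂ * (20 * C₂ * P₁) ≤ 1)
    (hC₄ : 10 * (C₂ * N) + 10 * (C₂ * P₁ * c₂ * N + 1) + 7 / (c₁ * c₂) ≤ C₄)
    (hZ1 : 2 * c₁ * C₂ * CA * (1 + c₂) * (R ^ 8 * Y * η) ≤ 1 / 20)
    (hZ2 : 2 * C₂ * (N * c₂ + CA * (1 + c₂)) * (R ^ 8 * Y * η) ≤ 1) :
    C₂ * (N / (4 * R) ^ 3) / (1 / x ^ 2) ^ 2 ≤ C₄ * x ^ 10 / X / 10 ∧
    C₂ * (P₁ / X) / (1 / x ^ 2) ^ 2 * (c₂ * X / x ^ 4) +
      2 * (c₁ * (1 / x ^ 2) ^ 3) * (C₂ * η * (CA * (1 + c₂ * X / x ^ 4) * Y)) ≤ 1 / 10 ∧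
    (C₂ * (P₁ / X) / (1 / x ^ 2) ^ 4 * (N / (4 * R) ^ 3) +
      2 * (C₂ * η / (1 / x ^ 2) ^ 4) * (N / (4 * R) ^ 3)) * (c₂ * X / x ^ 4) +
      2 * (C₂ * η / (1 / x ^ 2) ^ 4) * (CA * (1 + c₂ * X / x ^ 4) * Y) ≤ C₄ * x ^ 10 / X / 10 ∧
    6 < c₁ * (1 / x ^ 2) ^ 3 * (c₂ * X / x ^ 4) * (C₄ * x ^ 10 / X) := by
  have hR0 : 0 < R := by linarith
  have hx0 : 0 < x := by linarith
  have hX0 : 0 < X := by linarith
  have hY0 : 0 < Y := by linarith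
  have h7 : 0 < 7 / (c₁ * c₂) := by positivity
  have hq : 0 < C₂ * P₁ * c₂ * N := by positivity
  have hCN : 0 < C₂ * N := by positivity
  have hR3 : 0 < R ^ 3 := by positivity
  have hxx : x ^ 4 ≤ x ^ 10 := pow_le_pow_right₀ hx (by norm_num)
  have hx4 : 1 ≤ x ^ 4 := one_le_pow₀ hx
  have hx10 : 1 ≤ x ^ 10 := one_le_pow₀ hx
  -- the basic quantity
  have b1 : x ^ 4 * (N / (4 * R) ^ 3) ≤ N * (x ^ 10 / X) := by
    have e1 : x ^ 4 * (N / (4 * R) ^ 3) = N * (x ^ 4 / (64 * R ^ 3)) := by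
      field_simp
      ring
    rw [e1]
    refine mul_le_mul_of_nonneg_left ?_ hN.le
    exact div_le_div₀ (by positivity) hxx hX0 (by linarith)
  have hT0 : 0 ≤ c₂ * X / x ^ 4 := by positivity
  have hT1 : c₂ * X / x ^ 4 ≤ c₂ * R ^ 3 := by
    have e1 : c₂ * X / x ^ 4 ≤ c₂ * X := div_le_self (by positivity) hx4
    exact e1.trans (mul_le_mul_of_nonneg_left hX3 hc₂.le)
  have hR31 : 1 ≤ R ^ 3 := one_le_pow₀ hR
  have hT2 : 1 + c₂ * X / x ^ 4 ≤ (1 + c₂) * R ^ 3 := by nlinarith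
  have hJI : CA * (1 + c₂ * X / x ^ 4) * Y ≤ CA * (1 + c₂) * (R ^ 3 * Y) := by
    have e1 := mul_le_mul_of_nonneg_left hT2 hCA.le
    have e2 := mul_le_mul_of_nonneg_right e1 hY0.le
    linarith
  have hR38 : R ^ 3 ≤ R ^ 8 := pow_le_pow_right₀ hR (by norm_num)
  have hYη : 0 ≤ Y * η := by positivity
  refine ⟨?_, ?_, ?_, ?_⟩
  · have e1 : C₂ * (N / (4 * R) ^ 3) / (1 / x ^ 2) ^ 2 = C₂ * (x ^ 4 * (N / (4 * R) ^ 3)) := by
      field_simp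
    rw [e1]
    have e2 := mul_le_mul_of_nonneg_left b1 hC₂.le
    have e3 : C₂ * (N * (x ^ 10 / X)) = (C₂ * N) * (x ^ 10 / X) := by ring
    have e4 : C₄ * x ^ 10 / X / 10 = C₄ / 10 * (x ^ 10 / X) := by ring
    rw [e4]
    have e5 : (C₂ * N) * (x ^ 10 / X) ≤ C₄ / 10 * (x ^ 10 / X) :=
      mul_le_mul_of_nonneg_right (by linarith) (by positivity)
    linarith
  · have e1 : C₂ * (P₁ / X) / (1 / x ^ 2) ^ 2 * (c₂ * X / x ^ 4) = C₂ * P₁ * c₂ := by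
      field_simp
    rw [e1]
    have e2 : (1 / x ^ 2) ^ 3 ≤ 1 := by
      refine pow_le_one₀ (by positivity) ?_
      rw [div_le_one (by positivity)]
      exact one_le_pow₀ hx
    have e3 : 2 * (c₁ * (1 / x ^ 2) ^ 3) ≤ 2 * c₁ := by
      have := mul_le_mul_of_nonneg_left e2 hc₁.le
      linarith
    have e4 : C₂ * η * (CA * (1 + c₂ * X / x ^ 4) * Y) ≤
        C₂ * η * (CA * (1 + c₂) * (R ^ 3 * Y)) :=
      mul_le_mul_of_nonneg_left hJI (by positivity)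
    have e5 : 2 * (c₁ * (1 / x ^ 2) ^ 3) * (C₂ * η * (CA * (1 + c₂ * X / x ^ 4) * Y)) ≤
        2 * c₁ * (C₂ * η * (CA * (1 + c₂) * (R ^ 3 * Y))) :=
      mul_le_mul e3 e4 (by positivity) (by positivity)
    have e6 : 2 * c₁ * (C₂ * η * (CA * (1 + c₂) * (R ^ 3 * Y))) =
        2 * c₁ * C₂ * CA * (1 + c₂) * (R ^ 3 * (Y * η)) := by ring
    have e7 : 2 * c₁ * C₂ * CA * (1 + c₂) * (R ^ 3 * (Y * η)) ≤
        2 * c₁ * C₂ * CA * (1 + c₂) * (R ^ 8 * (Y * η)) :=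
      mul_le_mul_of_nonneg_left (mul_le_mul_of_nonneg_right hR38 hYη) (by positivity)
    have e8 : R ^ 8 * (Y * η) = R ^ 8 * Y * η := by ring
    rw [e8] at e7
    linarith
  · have e1 : (C₂ * (P₁ / X) / (1 / x ^ 2) ^ 4 * (N / (4 * R) ^ 3) +
        2 * (C₂ * η / (1 / x ^ 2) ^ 4) * (N / (4 * R) ^ 3)) * (c₂ * X / x ^ 4) +
        2 * (C₂ * η / (1 / x ^ 2) ^ 4) * (CA * (1 + c₂ * X / x ^ 4) * Y) =
        C₂ * P₁ * c₂ * (x ^ 4 * (N / (4 * R) ^ 3)) +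
        2 * C₂ * η * x ^ 8 * ((N / (4 * R) ^ 3) * (c₂ * X / x ^ 4) +
          CA * (1 + c₂ * X / x ^ 4) * Y) := by
      field_simp
      ring
    rw [e1]
    have e2 : C₂ * P₁ * c₂ * (x ^ 4 * (N / (4 * R) ^ 3)) ≤
        C₂ * P₁ * c₂ * (N * (x ^ 10 / X)) := mul_le_mul_of_nonneg_left b1 (by positivity)
    have e3 : N / (4 * R) ^ 3 ≤ N := by
      refine div_le_self hN.le (one_le_pow₀ (by linarith))
    have e4 : (N / (4 * R) ^ 3) * (c₂ * X / x ^ 4) ≤ N * (c₂ * R ^ 3) :=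
      mul_le_mul e3 hT1 hT0 hN.le
    have e5 : N * (c₂ * R ^ 3) ≤ N * c₂ * (R ^ 3 * Y) := by
      have := mul_le_mul_of_nonneg_left hY (by positivity : 0 ≤ N * (c₂ * R ^ 3))
      linarith
    have e6 : (N / (4 * R) ^ 3) * (c₂ * X / x ^ 4) + CA * (1 + c₂ * X / x ^ 4) * Y ≤
        (N * c₂ + CA * (1 + c₂)) * (R ^ 3 * Y) := by linarith
    have e7 : 2 * C₂ * η * x ^ 8 ≤ 2 * C₂ * η * R := mul_le_mul_of_nonneg_left hx8 (by positivity)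
    have e8 : 2 * C₂ * η * x ^ 8 * ((N / (4 * R) ^ 3) * (c₂ * X / x ^ 4) +
          CA * (1 + c₂ * X / x ^ 4) * Y) ≤
        2 * C₂ * η * R * ((N * c₂ + CA * (1 + c₂)) * (R ^ 3 * Y)) :=
      mul_le_mul e7 e6 (by positivity) (by positivity)
    have e9 : 2 * C₂ * η * R * ((N * c₂ + CA * (1 + c₂)) * (R ^ 3 * Y)) =
        (2 * C₂ * (N * c₂ + CA * (1 + c₂)) * (R ^ 8 * Y * η)) / R ^ 4 := by
      field_simp
    have e10 : (2 * C₂ * (N * c₂ + CA * (1 + c₂)) * (R ^ 8 * Y * η)) / R ^ 4 ≤ 1 / R ^ 4 :=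
      div_le_div_of_nonneg_right hZ2 (by positivity)
    have e11 : 1 / R ^ 4 ≤ x ^ 10 / X := by
      refine div_le_div₀ (by positivity) hx10 hX0 (hX3.trans ?_)
      exact pow_le_pow_right₀ hR (by norm_num)
    have e12 : C₄ * x ^ 10 / X / 10 = C₄ / 10 * (x ^ 10 / X) := by ring
    have e13 : (C₂ * P₁ * c₂ * N + 1) * (x ^ 10 / X) ≤ C₄ / 10 * (x ^ 10 / X) :=
      mul_le_mul_of_nonneg_right (by linarith) (by positivity)
    have e14 : (C₂ * P₁ * c₂ * N + 1) * (x ^ 10 / X) =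
        C₂ * P₁ * c₂ * (N * (x ^ 10 / X)) + x ^ 10 / X := by ring
    rw [e12]
    linarith
  · have e1 : c₁ * (1 / x ^ 2) ^ 3 * (c₂ * X / x ^ 4) * (C₄ * x ^ 10 / X) = c₁ * c₂ * C₄ := by
      field_simp
    rw [e1]
    have e2 : 7 / (c₁ * c₂) ≤ C₄ := by linarith
    have e3 := mul_le_mul_of_nonneg_left e2 (by positivity : 0 ≤ c₁ * c₂)
    have e4 : c₁ * c₂ * (7 / (c₁ * c₂)) = 7 := by field_simp
    linarith

end HShEAux

open HShEAux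


theorem shell_one {f : ℝ → V → ℝ} (hf : SolP f) {b : ℝ} (hb : b < 0) (hi : Integrable (f b))
    {β τ c C ρ₀ : ℝ} (hβ : 0 < β) (hβ2 : β ≤ 2) (hτ2 : 2 ≤ τ) (hτ : τ ≤ 3) (hτβ : τ ≤ 2 + 2 * β / 3)
    (hc : 0 < c) (hC : 0 < C) (hρ : 1 ≤ ρ₀) (hT : Tl f b β τ c C ρ₀) :
    ∃ c' C' R₀ : ℝ, 0 < c' ∧ 0 < C' ∧ 1 ≤ R₀ ∧ ∀ R : ℝ, R₀ ≤ R → ∀ t ∈ Icc (b - c' * R ^ τ) b,
      Fa (f t) R (3 / 2 * R) ≤ C' * R ^ (1 - τ + β / 6) := by
  obtain ⟨c₁, C₁, C₂, s₁, ε₁, hc₁, hC₁, hC₂, hs₁, -, hε₁, hR⟩ := RIC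
  have hR' : RicP c₁ C₁ C₂ s₁ ε₁ := hR
  obtain ⟨cE, Ψ, hcE, hΨ, hΨ0, hΨ1, hΨ2, hΨz, hΨa, hΨb, hΨc, hΨd⟩ := psiE_exists
  obtain ⟨CA, p, hCA, hp, hAPF⟩ := APF
  obtain ⟨Cp, hCp, hpot⟩ := pot_tail
  obtain ⟨N, hN⟩ : ∃ N, N = ∫ v, f b v := ⟨_, rfl⟩
  have hN0 : 0 < N := by
    rw [hN]
    exact lt_of_lt_of_le (Kw_pos (hf.dn hb)) (Kw_le_mass (hf.sol.cls b hb.le) hi)
  have hmass : ∀ t ≤ b, Integrable (f t) ∧ ∫ v, f t v = N := by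
    intro t ht
    rw [hN]
    exact mass_at f hf.sol b t hb.le (ht.trans hb.le) hi
  obtain ⟨P₁, hP₁⟩ : ∃ P₁, P₁ = Cp * ((16 * C) ^ (2 / 3 : ℝ) + N) := ⟨_, rfl⟩
  have hP0 : 0 < P₁ := by
    rw [hP₁]
    positivity
  obtain ⟨c₂, hc₂⟩ : ∃ c₂, c₂ = min (c / 250) (1 / (20 * C₂ * P₁)) := ⟨_, rfl⟩
  have hc₂0 : 0 < c₂ := by
    rw [hc₂]
    exact lt_min (by positivity) (by positivity)
  have hc₂a : c₂ ≤ c / 250 := by
    rw [hc₂]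
    exact min_le_left _ _
  have hc₂b : c₂ * (20 * C₂ * P₁) ≤ 1 := by
    have h1 : c₂ ≤ 1 / (20 * C₂ * P₁) := by
      rw [hc₂]
      exact min_le_right _ _
    rwa [le_div_iff₀ (by positivity)] at h1
  obtain ⟨C₄, hC₄⟩ : ∃ C₄, C₄ = 10 * (C₂ * N) + 10 * (C₂ * P₁ * c₂ * N + 1) + 7 / (c₁ * c₂) :=
    ⟨_, rfl⟩
  have hC₄0 : 0 < C₄ := by
    rw [hC₄]
    positivity
  -- large R
  have hx : Tendsto (fun R : ℝ => R ^ (β / 60)) atTop atTop := tendsto_rpow_atTop (by positivity)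
  have hZ := zlim (p := p) hβ hcE
  have hZ1 : ∀ᶠ R : ℝ in atTop, 2 * c₁ * C₂ * CA * (1 + c₂) *
      (R ^ 8 * (R ^ 4) ^ p * Real.exp (-(R ^ (β / 60) * cE))) ≤ 1 / 20 := by
    have h1 := hZ.const_mul (2 * c₁ * C₂ * CA * (1 + c₂))
    rw [mul_zero] at h1
    exact h1.eventually (ge_mem_nhds (by norm_num))
  have hZ2 : ∀ᶠ R : ℝ in atTop, 2 * C₂ * (N * c₂ + CA * (1 + c₂)) *
      (R ^ 8 * (R ^ 4) ^ p * Real.exp (-(R ^ (β / 60) * cE))) ≤ 1 := by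
    have h1 := hZ.const_mul (2 * C₂ * (N * c₂ + CA * (1 + c₂)))
    rw [mul_zero] at h1
    exact h1.eventually (ge_mem_nhds (by norm_num))
  have hall := hZ1.and (hZ2.and ((hx.eventually_ge_atTop 1000).and
    ((hx.eventually_ge_atTop (1 / s₁)).and ((hx.eventually_ge_atTop (1 / ε₁)).and
    ((hx.eventually_ge_atTop (100 * C / N)).and ((hx.eventually_ge_atTop (100 * C * C₁ / N)).and
    ((eventually_ge_atTop (5 * ρ₀)).and ((eventually_ge_atTop N).and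
    (eventually_ge_atTop (128 / N))))))))))
  obtain ⟨R₀, hR₀⟩ := eventually_atTop.1 hall
  refine ⟨c / 250, 4 * C₄, max 1 R₀, by positivity, by positivity, le_max_left _ _, ?_⟩
  intro R hRR t ht
  have hR1 : 1 ≤ R := (le_max_left _ _).trans hRR
  have hR0 : 0 < R := by linarith
  obtain ⟨q1, q2, q3, q4, q5, q6, q7, q8, q9, q10⟩ := hR₀ R ((le_max_right _ _).trans hRR)
  obtain ⟨x, hx'⟩ : ∃ x, x = R ^ (β / 60) := ⟨_, rfl⟩
  obtain ⟨X, hX'⟩ : ∃ X, X = R ^ τ := ⟨_, rfl⟩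
  obtain ⟨Y, hY'⟩ : ∃ Y, Y = (R ^ 4) ^ p := ⟨_, rfl⟩
  obtain ⟨η, hη'⟩ : ∃ η, η = Real.exp (-(x * cE)) := ⟨_, rfl⟩
  rw [← hx'] at q1 q2 q3 q4 q5 q6 q7
  rw [← hη', ← hY'] at q1 q2
  have hx1 : 1 ≤ x := by linarith
  have hx0 : 0 < x := by linarith
  have hX1 : 1 ≤ X := by
    rw [hX']
    exact Real.one_le_rpow hR1 (by linarith)
  have hX0 : 0 < X := by linarith
  have hX3 : X ≤ R ^ 3 := by
    rw [hX', ← Real.rpow_natCast]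
    exact Real.rpow_le_rpow_of_exponent_le hR1 (by norm_num; exact hτ)
  have hY1 : 1 ≤ Y := by
    rw [hY']
    exact Real.one_le_rpow (one_le_pow₀ hR1) hp.le
  have hx8 : x ^ 8 ≤ R := by
    rw [hx', ← Real.rpow_natCast, ← Real.rpow_mul hR0.le]
    calc R ^ (β / 60 * ((8 : ℕ) : ℝ)) ≤ R ^ (1 : ℝ) :=
          Real.rpow_le_rpow_of_exponent_le hR1 (by norm_num; linarith)
      _ = R := Real.rpow_one R
  have hη0 : 0 ≤ η := by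
    rw [hη']
    exact (Real.exp_pos _).le
  have hη1 : η ≤ 1 := by
    rw [hη', Real.exp_le_one_iff]
    have := mul_pos hx0 hcE
    linarith
  obtain ⟨n1, n2, n3, n4⟩ := numbers hc₁ hC₂ hN0 hP0 hc₂0 hCA hR1 hx1 hx8 hX1 hX3 hY1 hη0 hc₂b
    hC₄.symm.le q1 q2
  have hx4 : 1 ≤ x ^ 4 := one_le_pow₀ hx1
  have hTT0 : 0 < c₂ * X / x ^ 4 := by positivity
  have hTT : c₂ * X / x ^ 4 ≤ c / 250 * X := by
    have e1 : c₂ * X / x ^ 4 ≤ c₂ * X := div_le_self (by positivity) hx4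
    exact e1.trans (mul_le_mul_of_nonneg_right hc₂a hX0.le)
  obtain ⟨a, ha⟩ : ∃ a, a = t - c₂ * X / x ^ 4 := ⟨_, rfl⟩
  have hta : t - a = c₂ * X / x ^ 4 := by rw [ha]; ring
  have hat : a < t := by linarith
  have htb : t ≤ b := ht.2
  have ht0 : t < 0 := lt_of_le_of_lt htb hb
  have hL : (0 : ℝ) < 4 * R := by linarith
  have hL1 : (1 : ℝ) ≤ 4 * R := by linarith
  have hle : ∀ σ ∈ Icc a t, σ ≤ b := fun σ hσ => hσ.2.trans htb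
  -- tails
  have htail : ∀ σ ∈ Icc a t, ∀ ρ : ℝ, R / 5 ≤ ρ → mT (f σ) ρ ≤ C * ρ ^ (-β) := by
    intro σ hσ ρ hρR
    refine hT ρ (by linarith) σ ⟨?_, hle σ hσ⟩
    have e1 : X / 125 ≤ ρ ^ τ := by
      have e2 : (R / 5) ^ τ ≤ ρ ^ τ := Real.rpow_le_rpow (by positivity) hρR (by linarith)
      have e3 : (R / 5) ^ τ = X / 5 ^ τ := by
        rw [Real.div_rpow hR0.le (by norm_num), hX']
      have e4 : (5 : ℝ) ^ τ ≤ 125 := by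
        calc (5 : ℝ) ^ τ ≤ 5 ^ (3 : ℝ) := Real.rpow_le_rpow_of_exponent_le (by norm_num) hτ
          _ = 125 := by norm_num
      have e5 : X / 125 ≤ X / 5 ^ τ :=
        div_le_div_of_nonneg_left hX0.le (by positivity) e4
      linarith
    have e6 : c * (X / 125) ≤ c * ρ ^ τ := mul_le_mul_of_nonneg_left e1 hc.le
    have e7 : b - c / 250 * X ≤ t := by
      rw [hX']
      exact ht.1
    have e8 : a ≤ σ := hσ.1
    linarith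
  have hRβ : R ^ (-β) = 1 / x ^ 60 := by
    rw [hx', ← Real.rpow_natCast, ← Real.rpow_mul hR0.le, Real.rpow_neg hR0.le, one_div]
    congr 2
    norm_num
  have hpw : ∀ y : ℝ, 1 ≤ y → y ≤ 5 → (R / y) ^ (-β) ≤ y ^ 2 * (1 / x ^ 60) := by
    intro y hy1 hy5
    rw [Real.div_rpow hR0.le (by linarith), hRβ, Real.rpow_neg (by linarith), div_inv_eq_mul,
      mul_comm]
    refine mul_le_mul_of_nonneg_right ?_ (by positivity)
    rw [← Real.rpow_natCast]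
    exact Real.rpow_le_rpow_of_exponent_le hy1 (by norm_num; exact hβ2)
  have hmT20 : ∀ σ ∈ Icc a t, mT (dl (4 * R) (f σ)) (1 / 20) ≤ 25 * C / x ^ 60 / (4 * R) ^ 3 := by
    intro σ hσ
    rw [mT_dl _ _ hL]
    refine div_le_div_of_nonneg_right ?_ (by positivity)
    have e1 : 4 * R * (1 / 20) = R / 5 := by ring
    rw [e1]
    refine (htail σ hσ (R / 5) le_rfl).trans ?_
    have e2 := mul_le_mul_of_nonneg_left (hpw 5 (by norm_num) le_rfl) hC.le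
    refine e2.trans (le_of_eq ?_)
    ring
  have hint : ∀ σ ∈ Icc a t, Integrable (dl (4 * R) (f σ)) ∧
      ∫ v, dl (4 * R) (f σ) v = N / (4 * R) ^ 3 := by
    intro σ hσ
    obtain ⟨k1, k2⟩ := hmass σ (hle σ hσ)
    refine ⟨k1.comp_smul hL.ne', ?_⟩
    have := dl_int (f σ) hL
    rw [k2] at this
    exact this
  have hcl : ∀ σ ∈ Icc a t, Clw (f σ) := fun σ hσ => hf.sol.cls σ ((hle σ hσ).trans hb.le)
  have hKw : ∀ σ ∈ Icc a t, Kw (dl (4 * R) (f σ)) ≤ 1 := by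
    intro σ hσ
    obtain ⟨k1, k2⟩ := hmass σ (hle σ hσ)
    have e1 := Kw_dl_le (hcl σ hσ) hL1
    have e2 := Kw_le_mass (hcl σ hσ) k1
    rw [k2] at e2
    refine e1.trans ?_
    rw [div_le_one (by positivity)]
    nlinarith
  have hx60 : x ≤ x ^ 59 := le_self_pow₀ hx1 (by norm_num)
  have hx61 : x ≤ x ^ 60 := le_self_pow₀ hx1 (by norm_num)
  have hm1 : 25 * C / x ^ 60 / (4 * R) ^ 3 ≤ N / (4 * R) ^ 3 / 4 := by
    rw [div_div, div_div, div_le_div_iff₀ (by positivity) (by positivity)]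
    have e1 : 100 * C ≤ N * x ^ 60 := by
      rw [div_le_iff₀ hN0] at q6
      have := mul_le_mul_of_nonneg_left hx61 hN0.le
      linarith
    have e2 : 0 < (4 * R) ^ 3 := by positivity
    nlinarith
  have hm2 : C₁ * x * (25 * C / x ^ 60 / (4 * R) ^ 3) ≤ N / (4 * R) ^ 3 / 4 := by
    have e0 : C₁ * x * (25 * C / x ^ 60 / (4 * R) ^ 3) = 25 * C * C₁ / x ^ 59 / (4 * R) ^ 3 := by
      field_simp
    rw [e0, div_div, div_div, div_le_div_iff₀ (by positivity) (by positivity)]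
    have e1 : 100 * C * C₁ ≤ N * x ^ 59 := by
      rw [div_le_iff₀ hN0] at q7
      have := mul_le_mul_of_nonneg_left hx60 hN0.le
      linarith
    have e2 : 0 < (4 * R) ^ 3 := by positivity
    nlinarith
  have hpt : ∀ σ ∈ Icc a t, ∀ v : V, 1 / 8 ≤ ‖v‖ → pot (dl (4 * R) (f σ)) v ≤ P₁ / X := by
    intro σ hσ v hv
    obtain ⟨k1, k2⟩ := hint σ hσ
    have e1 := hpot _ (dl_clw (hcl σ hσ) hL) k1 (1 / 16) v (by norm_num) (by linarith)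
    rw [k2] at e1
    have e2 : mT (dl (4 * R) (f σ)) (1 / 16) ≤ 16 * C * (1 / x ^ 60 / R ^ 3) := by
      rw [mT_dl _ _ hL]
      have e3 : 4 * R * (1 / 16) = R / 4 := by ring
      rw [e3]
      have e4 := htail σ hσ (R / 4) (by linarith)
      have e5 := mul_le_mul_of_nonneg_left (hpw 4 (by norm_num) (by norm_num)) hC.le
      have e6 : mT (f σ) (R / 4) ≤ 16 * C * (1 / x ^ 60) := by
        refine (e4.trans e5).trans (le_of_eq ?_)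
        ring
      have e7 : mT (f σ) (R / 4) / (4 * R) ^ 3 ≤ 16 * C * (1 / x ^ 60) / (4 * R) ^ 3 :=
        div_le_div_of_nonneg_right e6 (by positivity)
      have e8 : 16 * C * (1 / x ^ 60) / (4 * R) ^ 3 ≤ 16 * C * (1 / x ^ 60) / R ^ 3 := by
        refine div_le_div_of_nonneg_left (by positivity) (by positivity) ?_
        exact pow_le_pow_left₀ hR0.le (by linarith) 3
      refine (e7.trans e8).trans (le_of_eq ?_)
      ring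
    have e9 : (1 / x ^ 60 / R ^ 3) ^ (2 / 3 : ℝ) ≤ 1 / X := by
      have f1 : 1 / x ^ 60 / R ^ 3 = R ^ (-(β + 3)) := by
        rw [← hRβ, neg_add, Real.rpow_add hR0, Real.rpow_neg hR0.le (3 : ℝ), div_eq_mul_inv]
        norm_cast
      rw [f1, ← Real.rpow_mul hR0.le, hX', one_div, ← Real.rpow_neg hR0.le]
      exact Real.rpow_le_rpow_of_exponent_le hR1 (by linarith)
    have e10 : mT (dl (4 * R) (f σ)) (1 / 16) ^ (2 / 3 : ℝ) ≤ (16 * C) ^ (2 / 3 : ℝ) * (1 / X) := by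
      have f1 : mT (dl (4 * R) (f σ)) (1 / 16) ^ (2 / 3 : ℝ) ≤
          (16 * C * (1 / x ^ 60 / R ^ 3)) ^ (2 / 3 : ℝ) :=
        Real.rpow_le_rpow (mT_nonneg (dl_clw (hcl σ hσ) hL) _) e2 (by norm_num)
      rw [Real.mul_rpow (by positivity) (by positivity)] at f1
      exact f1.trans (mul_le_mul_of_nonneg_left e9 (by positivity))
    have e11 : N / (4 * R) ^ 3 / (1 / 16) ≤ N * (1 / X) := by
      have f1 : N / (4 * R) ^ 3 / (1 / 16) = N * (1 / (4 * R ^ 3)) := by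
        field_simp
        norm_num
      rw [f1]
      refine mul_le_mul_of_nonneg_left ?_ hN0.le
      exact one_div_le_one_div_of_le hX0 (by linarith [show 0 < R ^ 3 by positivity])
    refine e1.trans ?_
    rw [hP₁]
    have e12 : Cp * (mT (dl (4 * R) (f σ)) (1 / 16) ^ (2 / 3 : ℝ) + N / (4 * R) ^ 3 / (1 / 16)) ≤
        Cp * ((16 * C) ^ (2 / 3 : ℝ) * (1 / X) + N * (1 / X)) :=
      mul_le_mul_of_nonneg_left (add_le_add e10 e11) hCp.le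
    refine e12.trans (le_of_eq ?_)
    ring
  -- the time integrated bound
  have hG : SolP (fun σ => dl (4 * R) (f σ)) := dl_solP hf hL
  have hAP := hAPF (fun σ => dl (4 * R) (f σ)) hG a t (R ^ 4) hat.le ht0 (one_le_pow₀ hR1) (by
    intro σ hσ
    refine ⟨(hKw σ hσ).trans (one_le_pow₀ hR1), ?_⟩
    obtain ⟨k1, k2⟩ := hint σ hσ
    have hcl' := dl_clw (hcl σ hσ) hL
    have hR4 : (1 : ℝ) / 20 ≤ R ^ 4 := le_trans (by norm_num) (one_le_pow₀ hR1 (n := 4))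
    have e1 := ball_lo hcl' k1 hR4
    rw [k2] at e1
    have e2 := hmT20 σ hσ
    have e3 : 1 / R ^ 4 ≤ N / (4 * R) ^ 3 / 2 := by
      have f1 : N / (4 * R) ^ 3 / 2 = N / (128 * R ^ 3) := by
        field_simp
        norm_num
      rw [f1, div_le_div_iff₀ (by positivity) (by positivity)]
      rw [div_le_iff₀ hN0] at q10
      have f2 : 128 * R ^ 3 ≤ R * N * R ^ 3 := mul_le_mul_of_nonneg_right q10 (by positivity)
      have f3 : R * N * R ^ 3 = N * R ^ 4 := by ring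
      linarith
    have e4 : 0 ≤ N / (4 * R) ^ 3 := by positivity
    show 1 / R ^ 4 ≤ mB (dl (4 * R) (f σ)) 0 (R ^ 4)
    linarith)
  rw [hta, ← hY'] at hAP
  -- conclusion
  have hs0 : 0 < 1 / x ^ 2 := by positivity
  have hx2 : x ≤ x ^ 2 := le_self_pow₀ hx1 (by norm_num)
  have hsx : 1 / x ^ 2 ≤ 1 / x := one_div_le_one_div_of_le hx0 hx2
  have hsa : 1 / x ^ 2 ≤ s₁ := by
    refine hsx.trans ?_
    rw [div_le_iff₀ hs₁] at q4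
    rw [div_le_iff₀ hx0]
    linarith
  have hsb : 1 / x ^ 2 ≤ 1 / 1000 := hsx.trans (one_div_le_one_div_of_le (by norm_num) q3)
  have hsc : x * (1 / x ^ 2) ≤ ε₁ := by
    have e1 : x * (1 / x ^ 2) = 1 / x := by
      field_simp
    rw [e1, div_le_iff₀ hx0]
    rw [div_le_iff₀ hε₁] at q5
    linarith
  have hmain := window (B := C₄ * x ^ 10 / X) hR' hc₁ hC₁ hC₂ hG hat ht0 (fun σ hσ => (hint σ hσ).1)
    hs0 hsa hsb hx0.le hsc hΨ hΨ0 hΨ1 hΨ2 hΨa hΨb hΨc hΨd hη'.symm.le hη1 (by positivity)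
    (by positivity) (fun σ hσ => (hint σ hσ).2) hmT20 hm1 hm2 hKw hpt hAP (by positivity) n1
    (by rw [hta]; exact n2) (by rw [hta]; exact n3) (by rw [hta]; exact n4)
  have hfin := shell_le (k := x) (hG.dn ht0) hΨ hΨz
  have e1 : Fa (dl (4 * R) (f t)) (1 / 4) (3 / 8) = Fa (f t) R (3 / 2 * R) / (4 * R) := by
    rw [Fa_dl (hf.sol.cls t ht0.le).smooth _ _ hL]
    congr 2
    · ring
    · ring
  have e2 : Fa (f t) R (3 / 2 * R) / (4 * R) ≤ C₄ * x ^ 10 / X := by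
    rw [← e1]
    exact hfin.trans hmain.le
  rw [div_le_iff₀ hL] at e2
  refine e2.trans (le_of_eq ?_)
  have e3 : x ^ 10 = R ^ (β / 6) := by
    rw [hx', ← Real.rpow_natCast, ← Real.rpow_mul hR0.le]
    congr 1
    norm_num
    ring
  have e4 : R ^ (1 - τ + β / 6) = R / X * R ^ (β / 6) := by
    rw [Real.rpow_add hR0, Real.rpow_sub hR0, Real.rpow_one, hX']
  rw [e4, ← e3]
  ring

end Pool.Agent.LandauF
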