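import Pool.Agent.LandauF.HMomM
import Pool.Agent.LandauF.HShE
import Pool.Agent.LandauF.HMassC
import Pool.Agent.LandauF.HClaimC

/-!
# LandauF, module HStep: the chain of moments

`step`: `ener_froz` gives `Tl f b β τ c C ρ₀`; `shell_one`, then `shells` for every `ϑ` (`e = 1 - τ + β/6 < 0`), then `sum_win`, `sum_all`
(`c₀ R₁ S`); take `c' = min c₀ (c/8)`, `R₀ = max R₁ (2 ρ₀)`: for `t ∈ [tw (j+1), b] = [b - c' R_j^τ, b]` and `ρ ≥ R_j/2 ≥ ρ₀`: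
`c ρ^τ ≥ c R_j^τ/8 ≥ c' R_j^τ` (`2^τ ≤ 8`), so `mT (f t) ρ ≤ C ρ^(-β)`.  `mom_final`.
`energy_fin`: `claimC`, `mass_of_claim`: integrable and `Mo (1/600)`; `step` with `(β, τ) = (1/600, 2)`, `(1, 8/3)`, `(5/3, 3)`; and
`‖v‖^(2 : ℝ) = ‖v‖^2`.
-/

set_option autoImplicit false

namespace Pool.Agent.LandauF

open MeasureTheory Set Filter Topology Pool.Agent.Landau

theorem step {f : ℝ → V → ℝ} (hf : SolP f) {b : ℝ} (hb : b < 0) (hi : Integrable (f b))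
    {β τ : ℝ} (hβ : 0 < β) (hβ2 : β ≤ 2) (hτ2 : 2 ≤ τ) (hτ : τ ≤ 3) (hτβ : τ ≤ 2 + 2 * β / 3)
    (hM : Mo β (f b)) : Mo (τ - 1) (f b) := by
  obtain ⟨c, C, ρ₀, hc, hC, hρ₀, hT⟩ :=
    ener_froz hf hb hi hβ hβ2 (by linarith : (0 : ℝ) ≤ τ) hτ hτβ hM
  obtain ⟨c1, C1, R1, hc1, hC1, hR1, h1⟩ :=
    shell_one hf hb hi hβ hβ2 hτ2 hτ hτβ hc hC hρ₀ hT
  have hS := fun (ϑ : ℝ) (h0 : 0 < ϑ) (h2 : ϑ ≤ 1) =>
    shells hf hb (by linarith : (0 : ℝ) ≤ τ) hτ (by linarith : 1 - τ + β / 6 < 0) hc1 hC1 hR1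
      h0 h2 h1
  have hW := sum_win hf hb hi hβ hβ2 hτ2 hτ hc hC hρ₀ hT hS
  obtain ⟨c0, R2, S, hc0, hR2, hS0, hsum⟩ := sum_all hf hb hi hβ hβ2 hτ2 hτ hW
  have hc' : 0 < min c0 (c / 8) := lt_min hc0 (by positivity)
  have hR' : R2 ≤ max R2 (2 * ρ₀) := le_max_left _ _
  have hR1' : 1 ≤ max R2 (2 * ρ₀) := hR2.trans hR'
  refine mom_final hf hb hi hβ hβ2 hτ2 hτ hτβ hc' hR1' hC hS0 ?_
    (hsum (min c0 (c / 8)) (max R2 (2 * ρ₀)) hc' (min_le_left _ _) hR')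
  intro j t ht ρ hρ
  obtain ⟨R0, hR0⟩ : ∃ R0, R0 = max R2 (2 * ρ₀) := ⟨_, rfl⟩
  rw [← hR0] at hρ ht
  have hR0' : 2 * ρ₀ ≤ R0 := by rw [hR0]; exact le_max_right _ _
  have hj : (1 : ℝ) ≤ 2 ^ j := one_le_pow₀ (by norm_num)
  have hR0p : 0 < R0 := by linarith
  have hjR : R0 ≤ 2 ^ j * R0 := by nlinarith
  have hρ1 : ρ₀ ≤ ρ := by linarith
  have hρp : 0 < ρ := by linarith
  refine hT ρ hρ1 t ⟨?_, ht.2⟩
  have ht1 : b - min c0 (c / 8) * (2 ^ j * R0) ^ τ ≤ t := ht.1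
  have h2 : (2 ^ j * R0) ^ τ ≤ 8 * ρ ^ τ := by
    calc (2 ^ j * R0) ^ τ ≤ (2 * ρ) ^ τ :=
          Real.rpow_le_rpow (by positivity) (by linarith) (by linarith)
      _ = 2 ^ τ * ρ ^ τ := Real.mul_rpow (by norm_num) hρp.le
      _ ≤ 8 * ρ ^ τ := by
          refine mul_le_mul_of_nonneg_right ?_ (Real.rpow_nonneg hρp.le _)
          calc (2 : ℝ) ^ τ ≤ 2 ^ (3 : ℝ) :=
                Real.rpow_le_rpow_of_exponent_le (by norm_num) hτ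
            _ = 8 := by norm_num
  have h3 : min c0 (c / 8) * (2 ^ j * R0) ^ τ ≤ c * ρ ^ τ := by
    calc min c0 (c / 8) * (2 ^ j * R0) ^ τ ≤ (c / 8) * (8 * ρ ^ τ) :=
          mul_le_mul (min_le_right _ _) h2 (Real.rpow_nonneg (by positivity) _) (by positivity)
      _ = c * ρ ^ τ := by ring
  linarith

theorem energy_fin {f : ℝ → V → ℝ} (hf : SolP f) {b : ℝ} (hb : b < 0) :
    Integrable (fun v => ‖v‖ ^ 2 * f b v) := by
  obtain ⟨R₁, hR₁, hcl⟩ := claimC hf hb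
  obtain ⟨hi, hM⟩ := mass_of_claim (hf.sol.cls b hb.le) hR₁ hcl
  have h1 : Mo 1 (f b) := by
    have h := step hf hb hi (β := 1 / 600) (τ := 2) (by norm_num) (by norm_num) le_rfl
      (by norm_num) (by norm_num) hM
    have e : (2 : ℝ) - 1 = 1 := by norm_num
    rwa [e] at h
  have h2 : Mo (5 / 3) (f b) := by
    have h := step hf hb hi (β := 1) (τ := 8 / 3) (by norm_num) (by norm_num) (by norm_num)
      (by norm_num) (by norm_num) h1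
    have e : (8 / 3 : ℝ) - 1 = 5 / 3 := by norm_num
    rwa [e] at h
  have h3 : Mo 2 (f b) := by
    have h := step hf hb hi (β := 5 / 3) (τ := 3) (by norm_num) (by norm_num) (by norm_num)
      le_rfl (by norm_num) h2
    have e : (3 : ℝ) - 1 = 2 := by norm_num
    rwa [e] at h
  have e : (fun v : V => ‖v‖ ^ 2 * f b v) = fun v : V => ‖v‖ ^ (2 : ℝ) * f b v := by
    funext v
    rw [Real.rpow_two]
  rw [e]
  exact h3

end Pool.Agent.LandauF
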