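import Pool.Agent.Landau.ToSol
import Pool.Agent.LandauG.WToSol
import Pool.Agent.LandauR.RPos
import Pool.Agent.LandauF.HStep

/-!
# LandauF, module HFin: the Liouville theorem

`max_of_en`: finite energy at one time implies that the solution is a stationary Maxwellian (this is the
argument of the hand-in `FiniteEnergy`).  `liouville`: a solution which is not identically zero is positive
for `t < 0` (`pos_all`), so `energy_fin` applies at the time `-1`.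
-/

set_option autoImplicit false

namespace Pool.Agent.LandauF

open MeasureTheory Set Filter Topology Pool.Agent.Landau Pool.Agent.LandauR

theorem max_of_en (f : ℝ → V → ℝ)
    (hs : ContDiffOn ℝ (⊤ : ℕ∞) (fun p : ℝ × V => f p.1 p.2) (Set.Iic (0 : ℝ) ×ˢ Set.univ))
    (hW : SolW f) (t₀ : ℝ) (ht₀ : t₀ ≤ 0) (hen : Integrable (fun v => ‖v‖ ^ 2 * f t₀ v)) :
    ∃ ρ : ℝ, ∃ T : ℝ, ∃ u : V, 0 ≤ ρ ∧ 0 < T ∧
      ∀ t ≤ (0 : ℝ), ∀ v, f t v = ρ * Real.exp (-(‖v - u‖ ^ 2) / (2 * T)) := by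
  have hf : Sol f := sol_of_solW f hW t₀ ht₀ hen
  have hm1 : (-1 : ℝ) < 0 := by norm_num
  rcases (hf.cls (-1) hm1).mass_nonneg.eq_or_lt with hM | hM
  · refine ⟨0, 1, 0, le_rfl, one_pos, at_zero f hs _ fun t ht v => ?_⟩
    have h1 : mass (f t) = 0 := by
      rw [(cons_global f hf (-1) t hm1 ht).1, ← hM]
    rw [zero_of_mass (f t) (hf.cls t ht) h1 v, zero_mul]
  · obtain ⟨c, μ, ℓ, hc, hμ, h⟩ := ancient_gauss f hf hM
    obtain ⟨ρ, T, u, hρ, hT, hG⟩ := gauss_form c μ ℓ hc hμ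
    refine ⟨ρ, T, u, hρ, hT, at_zero f hs _ fun t ht v => ?_⟩
    rw [h t ht v, hG v]

theorem liouville (f : ℝ → V → ℝ)
    (hs : ContDiffOn ℝ (⊤ : ℕ∞) (fun p : ℝ × V => f p.1 p.2) (Set.Iic (0 : ℝ) ×ˢ Set.univ))
    (hW : SolW f) :
    ∃ ρ : ℝ, ∃ T : ℝ, ∃ u : V, 0 ≤ ρ ∧ 0 < T ∧
      ∀ t ≤ (0 : ℝ), ∀ v, f t v = ρ * Real.exp (-(‖v - u‖ ^ 2) / (2 * T)) := by
  by_cases hz : ∃ t ≤ (0 : ℝ), ∃ v, f t v ≠ 0
  · have hP : SolP f := ⟨hW, pos_all f hW hz⟩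
    exact max_of_en f hs hW (-1) (by norm_num) (energy_fin hP (by norm_num))
  · push Not at hz
    refine max_of_en f hs hW 0 le_rfl ?_
    have h0 : (fun v : V => ‖v‖ ^ 2 * f 0 v) = fun _ => 0 := by
      funext v
      rw [hz 0 le_rfl v, mul_zero]
    rw [h0]
    exact integrable_zero _ _ _

end Pool.Agent.LandauF
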