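import Pool.Agent.LandauF.HDefs
import Pool.Agent.LandauG.WTest

/-!
# LandauF, module HInvAng: the test functions `1 / ang ^ q`, cells, and the outer test function

`inv_ang_test`: `pd i (1 / ang ^ q) = - q v_i / ang ^ (q + 2)`,
`pd i (pd j (1 / ang ^ q)) = - q δ_ij / ang ^ (q+2) + q (q+2) v_i v_j / ang ^ (q + 4)`, and `|v i| ≤ ang v`
(see `wt_pd_ang`, `wt_pd_inv`, `wt_pd_pd_inv`, `LandauG/WTest.lean`).

`cell_test`: `chi ρ (v - y)` is supported in `‖v - y‖ ≤ 2 ρ ≤ 1`, so `‖v‖ ≤ 2`, `ang v ≤ 3` there, the derivatives are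
bounded by `C0 / ρ ≤ C0 / ρ²`, `C0 / ρ²` (`chi_bounds`; derivatives of a translate), and `1 ≤ 1 / ρ²`.  Outside the
closed ball `‖v - y‖ ≤ 2 ρ` everything vanishes.

`outer_test`: `(1 - chi (1/2) v) / ang v`: product rule with `inv_ang_test` (`q = 1`); the derivatives of
`chi (1/2)` are supported in `‖v‖ ≤ 1`.  The last three claims: `chi (1/2) = 1` for `‖v‖ ≤ 1/2`, `= 0` for `‖v‖ ≥ 1`,
values in `[0, 1]`.
-/

set_option autoImplicit false

namespace Pool.Agent.LandauF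

open MeasureTheory Set Filter Topology Pool.Agent.Landau

/-- the outer test function -/
noncomputable def psO (v : V) : ℝ := (1 - chi (1 / 2) v) / ang v

private theorem pd_ang_zpow (m : ℤ) (i : Fin 3) (v : V) :
    pd i (fun u : V => ang u ^ m) v = (m : ℝ) * v i * ang v ^ (m - 2) := by
  have h0 := (ang_pos v).ne'
  rw [pd_comp (wt_ang_diff v) (hasDerivAt_zpow m (ang v) (Or.inl h0)) i, wt_pd_ang]
  have e : ang v ^ (m - 1) = ang v ^ (m - 2) * ang v := by
    rw [← zpow_add_one₀ h0]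
    congr 1
    ring
  rw [e]
  field_simp

private theorem ang_zpow_smooth (m : ℤ) : ContDiff ℝ (⊤ : ℕ∞) (fun u : V => ang u ^ m) := by
  cases m with
  | ofNat n =>
    simp only [Int.ofNat_eq_natCast, zpow_natCast]
    exact ang_smooth.pow n
  | negSucc n =>
    simp only [zpow_negSucc]
    exact (ang_smooth.pow (n + 1)).inv fun u => pow_ne_zero _ (ang_pos u).ne'

private theorem pd_pd_ang_zpow (m : ℤ) (i j : Fin 3) (v : V) :
    pd i (pd j (fun u : V => ang u ^ m)) v =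
      (m : ℝ) * (if i = j then 1 else 0) * ang v ^ (m - 2) +
        (m : ℝ) * v j * (((m - 2 : ℤ) : ℝ) * v i * ang v ^ (m - 4)) := by
  have h1 : pd j (fun u : V => ang u ^ m) = fun u : V => ((m : ℝ) * u j) * ang u ^ (m - 2) := by
    funext u
    rw [pd_ang_zpow]
  have hd : DifferentiableAt ℝ (fun u : V => (m : ℝ) * u j) v := by fun_prop
  have hd' : DifferentiableAt ℝ (fun u : V => ang u ^ (m - 2)) v :=
    differentiable_of_smooth (ang_zpow_smooth (m - 2)) v
  rw [h1, pd_mul hd hd', pd_ang_zpow]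
  have h2 : pd i (fun u : V => (m : ℝ) * u j) v = (m : ℝ) * (if i = j then 1 else 0) := by
    rw [← wt_pd_coord i j v]
    unfold pd
    have hd0 : DifferentiableAt ℝ (fun u : V => u j) v := by fun_prop
    rw [fderiv_const_mul hd0]
    simp
  have h3 : m - 2 - 2 = m - 4 := by ring
  rw [h2, h3]
  ring

theorem inv_ang_test (q : ℕ) : ∃ A : ℝ, 0 < A ∧ ContDiff ℝ (⊤ : ℕ∞) (fun v : V => 1 / ang v ^ q) ∧
    (∀ v : V, |1 / ang v ^ q| ≤ A / ang v ^ q) ∧
    (∀ i (v : V), |pd i (fun v => 1 / ang v ^ q) v| ≤ A / ang v ^ (q + 1)) ∧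
    ∀ i j (v : V), |pd i (pd j (fun v => 1 / ang v ^ q)) v| ≤ A / ang v ^ (q + 2) := by
  have hf : (fun v : V => 1 / ang v ^ q) = fun v : V => ang v ^ (-(q : ℤ)) := by
    funext v
    rw [zpow_neg, zpow_natCast, one_div]
  have hz : ∀ (k : ℕ) (v : V), ang v ^ (-(q : ℤ) - (k : ℤ)) = (ang v ^ (q + k))⁻¹ := by
    intro k v
    rw [← zpow_natCast, ← zpow_neg]
    congr 1
    push_cast
    ring
  have hq : (0 : ℝ) ≤ q := Nat.cast_nonneg q
  refine ⟨q * (q + 3) + 1, by positivity, ?_, fun v => ?_, fun i v => ?_, fun i j v => ?_⟩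
  · rw [hf]
    exact ang_zpow_smooth _
  · have h0 := ang_pos v
    rw [abs_of_pos (by positivity)]
    gcongr
    nlinarith
  · have h0 := ang_pos v
    rw [hf, pd_ang_zpow]
    have e := hz 2 v
    push_cast at e
    rw [e]
    rw [abs_mul, abs_mul, abs_of_pos (by positivity : 0 < (ang v ^ (q + 2))⁻¹)]
    have e1 : |((-(q : ℤ) : ℤ) : ℝ)| = q := by
      push_cast
      rw [abs_neg, abs_of_nonneg hq]
    rw [e1]
    calc (q : ℝ) * |v i| * (ang v ^ (q + 2))⁻¹ ≤ q * ang v * (ang v ^ (q + 2))⁻¹ := by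
          have := wt_abs_coord v i
          gcongr
      _ = q / ang v ^ (q + 1) := by
          field_simp
          ring
      _ ≤ _ := by
          gcongr
          nlinarith
  · have h0 := ang_pos v
    rw [hf, pd_pd_ang_zpow]
    have e := hz 2 v
    have e' := hz 4 v
    push_cast at e e'
    rw [e, e']
    have e1 : |((-(q : ℤ) : ℤ) : ℝ)| = q := by
      push_cast
      rw [abs_neg, abs_of_nonneg hq]
    have e2 : |((-(q : ℤ) - 2 : ℤ) : ℝ)| = q + 2 := by
      push_cast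
      rw [show (-(q : ℝ) - 2) = -((q : ℝ) + 2) by ring, abs_neg, abs_of_nonneg (by positivity)]
    have a1 : |((-(q : ℤ) : ℤ) : ℝ) * (if i = j then 1 else 0) * (ang v ^ (q + 2))⁻¹| ≤
        q * (ang v ^ (q + 2))⁻¹ := by
      rw [abs_mul, abs_mul, e1, abs_of_pos (by positivity : 0 < (ang v ^ (q + 2))⁻¹)]
      have : |(if i = j then (1 : ℝ) else 0)| ≤ 1 := by
        split_ifs <;> simp
      calc _ ≤ (q : ℝ) * 1 * (ang v ^ (q + 2))⁻¹ := by gcongr
        _ = _ := by ring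
    have a2 : |((-(q : ℤ) : ℤ) : ℝ) * v j * (((-(q : ℤ) - 2 : ℤ) : ℝ) * v i * (ang v ^ (q + 4))⁻¹)| ≤
        q * (q + 2) * (ang v ^ (q + 2))⁻¹ := by
      rw [abs_mul, abs_mul, abs_mul, abs_mul, e1, e2,
        abs_of_pos (by positivity : 0 < (ang v ^ (q + 4))⁻¹)]
      have b1 := wt_abs_coord v i
      have b2 := wt_abs_coord v j
      calc (q : ℝ) * |v j| * ((q + 2) * |v i| * (ang v ^ (q + 4))⁻¹) ≤
            (q : ℝ) * ang v * ((q + 2) * ang v * (ang v ^ (q + 4))⁻¹) := by gcongr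
        _ = _ := by
            rw [show q + 4 = (q + 2) + 2 by ring, pow_add (ang v) (q + 2) 2]
            field_simp
    calc _ ≤ _ := abs_add_le _ _
      _ ≤ q * (ang v ^ (q + 2))⁻¹ + q * (q + 2) * (ang v ^ (q + 2))⁻¹ := add_le_add a1 a2
      _ = (q * (q + 3)) / ang v ^ (q + 2) := by ring
      _ ≤ _ := by
          gcongr
          linarith

private theorem pd_aff {Φ : V → ℝ} (hΦ : Differentiable ℝ Φ) (a : ℝ) (y : V) (i : Fin 3) :
    pd i (fun v : V => Φ (a • (v - y))) = fun v => a * pd i Φ (a • (v - y)) := by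
  funext v
  unfold pd
  have h1 : HasFDerivAt (fun v : V => a • (v - y)) (a • ContinuousLinearMap.id ℝ V) v :=
    ((hasFDerivAt_id v).sub_const y).const_smul a
  have h2 : HasFDerivAt Φ (fderiv ℝ Φ (a • (v - y))) (a • (v - y)) := (hΦ (a • (v - y))).hasFDerivAt
  have h3 : HasFDerivAt (fun v : V => Φ (a • (v - y)))
      ((fderiv ℝ Φ (a • (v - y))).comp (a • ContinuousLinearMap.id ℝ V)) v := h2.comp v h1
  rw [h3.fderiv]
  simp

private theorem pd_const_mul' {f : V → ℝ} (hf : Differentiable ℝ f) (c : ℝ) (i : Fin 3) (v : V) :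
    pd i (fun v => c * f v) v = c * pd i f v := by
  unfold pd
  rw [fderiv_const_mul (hf v)]
  simp

private theorem pd_ev_zero {g : V → ℝ} {v : V} (h : g =ᶠ[𝓝 v] fun _ => 0) (i : Fin 3) :
    pd i g v = 0 := by
  unfold pd
  rw [h.fderiv_eq]
  simp

theorem cell_test : ∃ A : ℝ, 0 < A ∧ ∀ (y : V) (ρ : ℝ), ‖y‖ ≤ 1 → 0 < ρ → ρ ≤ 1 / 2 →
    ContDiff ℝ (⊤ : ℕ∞) (fun v => chi ρ (v - y)) ∧
    (∀ v, |chi ρ (v - y)| ≤ A / ρ ^ 2 / ang v ^ 1) ∧
    (∀ i v, |pd i (fun v => chi ρ (v - y)) v| ≤ A / ρ ^ 2 / ang v ^ (1 + 1)) ∧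
    ∀ i j v, |pd i (pd j (fun v => chi ρ (v - y))) v| ≤ A / ρ ^ 2 / ang v ^ (1 + 2) := by
  obtain ⟨C, hC, hchi⟩ := chi_bounds
  obtain ⟨hc1, hc2, -, -⟩ := hchi 1 le_rfl
  refine ⟨27 * C + 3, by positivity, fun y ρ hy hρ hρ2 => ?_⟩
  have hf : (fun v => chi ρ (v - y)) = fun v => chi 1 (ρ⁻¹ • (v - y)) := by
    funext v
    simp [chi]
  have hs : ContDiff ℝ (⊤ : ℕ∞) (fun v => chi ρ (v - y)) :=
    (chi_smooth ρ).comp (contDiff_id.sub contDiff_const)
  have hp1 : ∀ i, pd i (fun v => chi ρ (v - y)) = fun v => ρ⁻¹ * pd i (chi 1) (ρ⁻¹ • (v - y)) := by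
    intro i
    rw [hf]
    exact pd_aff (differentiable_of_smooth (chi_smooth 1)) ρ⁻¹ y i
  have hp2 : ∀ i j v, pd i (pd j (fun v => chi ρ (v - y))) v =
      ρ⁻¹ * (ρ⁻¹ * pd i (pd j (chi 1)) (ρ⁻¹ • (v - y))) := by
    intro i j v
    rw [hp1 j]
    have hsm := smooth_pd (chi_smooth 1) j
    have hsm' : ContDiff ℝ (⊤ : ℕ∞) (fun v => pd j (chi 1) (ρ⁻¹ • (v - y))) :=
      hsm.comp ((contDiff_const_smul ρ⁻¹).comp (contDiff_id.sub contDiff_const))
    rw [pd_const_mul' (differentiable_of_smooth hsm') ρ⁻¹ i v,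
      pd_aff (differentiable_of_smooth hsm) ρ⁻¹ y i]
  have hang : ∀ v, ‖v - y‖ ≤ 2 * ρ → ang v ≤ 3 := by
    intro v hv
    have h1 : ‖v‖ ≤ ‖v - y‖ + ‖y‖ := by
      calc ‖v‖ = ‖(v - y) + y‖ := by rw [sub_add_cancel]
        _ ≤ _ := norm_add_le _ _
    have := ang_le v
    linarith
  have hopen : IsOpen {u : V | 2 * ρ < ‖u - y‖} :=
    isOpen_lt continuous_const (continuous_id.sub continuous_const).norm
  have hzero : ∀ v, 2 * ρ < ‖v - y‖ → ∀ i, pd i (fun v => chi ρ (v - y)) v = 0 := by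
    intro v hv i
    refine pd_ev_zero ?_ i
    filter_upwards [hopen.mem_nhds hv] with u hu
    exact chi_zero hρ (le_of_lt hu)
  have hzero2 : ∀ v, 2 * ρ < ‖v - y‖ → ∀ i j, pd i (pd j (fun v => chi ρ (v - y))) v = 0 := by
    intro v hv i j
    refine pd_ev_zero ?_ i
    filter_upwards [hopen.mem_nhds hv] with u hu
    exact hzero u hu j
  refine ⟨hs, fun v => ?_, fun i v => ?_, fun i j v => ?_⟩
  · have h0 := ang_pos v
    rcases le_or_gt ‖v - y‖ (2 * ρ) with hv | hv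
    · have ha := hang v hv
      rw [abs_of_nonneg (chi_nonneg ρ _), pow_one, div_div, le_div_iff₀ (by positivity)]
      have h1 := chi_le_one ρ (v - y)
      have h2 : ρ ^ 2 * ang v ≤ 3 := by
        calc ρ ^ 2 * ang v ≤ 1 * 3 := by
              gcongr
              nlinarith
          _ = 3 := by norm_num
      have h3 : 0 ≤ ρ ^ 2 * ang v := by positivity
      nlinarith [chi_nonneg ρ (v - y)]
    · rw [chi_zero hρ hv.le, abs_zero]
      positivity
  · have h0 := ang_pos v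
    rcases le_or_gt ‖v - y‖ (2 * ρ) with hv | hv
    · have ha := hang v hv
      rw [hp1 i]
      have h1 := hc1 i (ρ⁻¹ • (v - y))
      rw [div_one] at h1
      show |ρ⁻¹ * pd i (chi 1) (ρ⁻¹ • (v - y))| ≤ _
      rw [abs_mul, abs_of_pos (inv_pos.2 hρ)]
      have hA : ang v ^ (1 + 1) ≤ 9 := by
        calc ang v ^ (1 + 1) ≤ 3 ^ (1 + 1) := by gcongr
          _ = 9 := by norm_num
      calc ρ⁻¹ * |pd i (chi 1) (ρ⁻¹ • (v - y))| ≤ ρ⁻¹ * C := by gcongr
        _ ≤ (27 * C + 3) / ρ ^ 2 / ang v ^ (1 + 1) := by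
            rw [div_div, le_div_iff₀ (by positivity)]
            have e : ρ⁻¹ * C * (ρ ^ 2 * ang v ^ (1 + 1)) = C * ρ * ang v ^ (1 + 1) := by
              field_simp
            rw [e]
            calc C * ρ * ang v ^ (1 + 1) ≤ C * 1 * 9 := by
                  gcongr
                  linarith
              _ ≤ _ := by linarith
    · rw [hzero v hv i, abs_zero]
      positivity
  · have h0 := ang_pos v
    rcases le_or_gt ‖v - y‖ (2 * ρ) with hv | hv
    · have ha := hang v hv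
      rw [hp2 i j v]
      have h1 := hc2 i j (ρ⁻¹ • (v - y))
      rw [one_pow, div_one] at h1
      rw [abs_mul, abs_mul, abs_of_pos (inv_pos.2 hρ)]
      have hA : ang v ^ (1 + 2) ≤ 27 := by
        calc ang v ^ (1 + 2) ≤ 3 ^ (1 + 2) := by gcongr
          _ = 27 := by norm_num
      calc ρ⁻¹ * (ρ⁻¹ * |pd i (pd j (chi 1)) (ρ⁻¹ • (v - y))|) ≤ ρ⁻¹ * (ρ⁻¹ * C) := by
            have := inv_pos.2 hρ
            gcongr
        _ ≤ (27 * C + 3) / ρ ^ 2 / ang v ^ (1 + 2) := by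
            rw [div_div, le_div_iff₀ (by positivity)]
            have e : ρ⁻¹ * (ρ⁻¹ * C) * (ρ ^ 2 * ang v ^ (1 + 2)) = C * ang v ^ (1 + 2) := by
              field_simp
            rw [e]
            calc C * ang v ^ (1 + 2) ≤ C * 27 := by gcongr
              _ ≤ _ := by linarith
    · rw [hzero2 v hv i j, abs_zero]
      positivity

theorem outer_test : ∃ A : ℝ, 0 < A ∧ ContDiff ℝ (⊤ : ℕ∞) psO ∧
    (∀ v, |psO v| ≤ A / ang v ^ 1) ∧ (∀ i v, |pd i psO v| ≤ A / ang v ^ (1 + 1)) ∧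
    (∀ i j v, |pd i (pd j psO) v| ≤ A / ang v ^ (1 + 2)) ∧
    (∀ v, 0 ≤ psO v ∧ psO v ≤ 1 / ang v) ∧ (∀ v, ‖v‖ ≤ 1 / 2 → psO v = 0) ∧
    ∀ v, 1 ≤ ‖v‖ → psO v = 1 / ang v := by
  obtain ⟨A, hA, hcell⟩ := cell_test
  obtain ⟨-, -, hc1, hc2⟩ := hcell 0 (1 / 2) (by simp) (by norm_num) le_rfl
  have hsub : (fun v : V => chi (1 / 2) (v - 0)) = chi (1 / 2) := by
    funext v
    rw [sub_zero]
  rw [hsub] at hc1 hc2
  have hc1' : ∀ i v, |pd i (chi (1 / 2)) v| ≤ 4 * A / ang v ^ 2 := by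
    intro i v
    refine (hc1 i v).trans (le_of_eq ?_)
    norm_num
    ring
  have hc2' : ∀ i j v, |pd i (pd j (chi (1 / 2))) v| ≤ 4 * A / ang v ^ 3 := by
    intro i j v
    refine (hc2 i j v).trans (le_of_eq ?_)
    norm_num
    ring
  set c : V → ℝ := fun v => 1 - chi (1 / 2) v with hcdef
  have hcs : ContDiff ℝ (⊤ : ℕ∞) c := contDiff_const.sub (chi_smooth _)
  have hc01 : ∀ v, 0 ≤ c v ∧ c v ≤ 1 := fun v =>
    ⟨sub_nonneg.2 (chi_le_one _ v), sub_le_self _ (chi_nonneg _ v)⟩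
  have hpc : ∀ j, pd j c = fun v => - pd j (chi (1 / 2)) v := by
    intro j
    funext v
    rw [hcdef]
    unfold pd
    rw [fderiv_const_sub]
    simp
  have hpc2 : ∀ i j v, pd i (pd j c) v = - pd i (pd j (chi (1 / 2))) v := by
    intro i j v
    rw [hpc j]
    unfold pd
    rw [fderiv_fun_neg]
    simp
  have hc1'' : ∀ i v, |pd i c v| ≤ 4 * A / ang v ^ 2 := by
    intro i v
    rw [hpc i, abs_neg]
    exact hc1' i v
  have hc2'' : ∀ i j v, |pd i (pd j c) v| ≤ 4 * A / ang v ^ 3 := by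
    intro i j v
    rw [hpc2, abs_neg]
    exact hc2' i j v
  have hps : psO = fun v => c v * (ang v)⁻¹ := by
    funext v
    rw [hcdef]
    unfold psO
    rw [div_eq_mul_inv]
  have hp1 : ∀ i v, pd i psO v = c v * pd i (fun u : V => (ang u)⁻¹) v +
      pd i c v * (ang v)⁻¹ := by
    intro i v
    rw [hps, pd_mul (differentiable_of_smooth hcs v) (differentiable_of_smooth wt_inv_smooth v)]
  have hp2 : ∀ i j v, pd i (pd j psO) v = (c v * pd i (pd j (fun u : V => (ang u)⁻¹)) v +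
      pd i c v * pd j (fun u : V => (ang u)⁻¹) v) +
      (pd j c v * pd i (fun u : V => (ang u)⁻¹) v +
      pd i (pd j c) v * (ang v)⁻¹) := by
    intro i j v
    have h1 : pd j psO = fun u => (c u * pd j (fun u : V => (ang u)⁻¹) u) +
        (pd j c u * (ang u)⁻¹) := by
      funext u
      exact hp1 j u
    have d1 := differentiable_of_smooth hcs v
    have d2 := differentiable_of_smooth (smooth_pd wt_inv_smooth j) v
    have d3 := differentiable_of_smooth (smooth_pd hcs j) v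
    have d4 := differentiable_of_smooth wt_inv_smooth v
    rw [h1, pd_add (f := fun u => c u * pd j (fun u : V => (ang u)⁻¹) u)
      (g := fun u => pd j c u * (ang u)⁻¹) (d1.mul d2) (d3.mul d4), pd_mul d1 d2, pd_mul d3 d4]
  have hbd : ∀ v, 0 ≤ psO v ∧ psO v ≤ 1 / ang v := fun v =>
    ⟨div_nonneg (hc01 v).1 (ang_pos v).le, div_le_div_of_nonneg_right (hc01 v).2 (ang_pos v).le⟩
  refine ⟨4 + 12 * A, by positivity, ?_, fun v => ?_, fun i v => ?_, fun i j v => ?_, hbd,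
    fun v hv => ?_, fun v hv => ?_⟩
  · rw [hps]
    exact hcs.mul wt_inv_smooth
  · have h0 := ang_pos v
    rw [abs_of_nonneg (hbd v).1, pow_one]
    refine (hbd v).2.trans ?_
    gcongr
    linarith
  · have h0 := ang_pos v
    have h1' := one_le_ang v
    have hinv : (ang v)⁻¹ ≤ 1 := inv_le_one_of_one_le₀ h1'
    rw [hp1]
    have e1 : |c v * pd i (fun u : V => (ang u)⁻¹) v| ≤ 1 / ang v ^ 2 := by
      rw [abs_mul, abs_of_nonneg (hc01 v).1]
      calc _ ≤ 1 * (1 / ang v ^ 2) :=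
            mul_le_mul (hc01 v).2 (wt_b1 i v) (abs_nonneg _) zero_le_one
        _ = _ := one_mul _
    have e2 : |pd i c v * (ang v)⁻¹| ≤ 4 * A / ang v ^ 2 := by
      rw [abs_mul, abs_of_pos (by positivity : 0 < (ang v)⁻¹)]
      calc |pd i c v| * (ang v)⁻¹ ≤ (4 * A / ang v ^ 2) * 1 :=
            mul_le_mul (hc1'' i v) hinv (by positivity) (by positivity)
        _ = _ := mul_one _
    calc _ ≤ _ := abs_add_le _ _
      _ ≤ 1 / ang v ^ 2 + 4 * A / ang v ^ 2 := add_le_add e1 e2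
      _ = (1 + 4 * A) / ang v ^ 2 := by ring
      _ ≤ (4 + 12 * A) / ang v ^ (1 + 1) := by
          gcongr
          · linarith
          · norm_num
  · have h0 := ang_pos v
    have h1' := one_le_ang v
    have hinv : (ang v)⁻¹ ≤ 1 := inv_le_one_of_one_le₀ h1'
    rw [hp2]
    have e1 : |c v * pd i (pd j (fun u : V => (ang u)⁻¹)) v| ≤ 4 / ang v ^ 3 := by
      rw [abs_mul, abs_of_nonneg (hc01 v).1]
      calc _ ≤ 1 * (4 / ang v ^ 3) :=
            mul_le_mul (hc01 v).2 (wt_b2 i j v) (abs_nonneg _) zero_le_one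
        _ = _ := one_mul _
    have e2 : ∀ i j : Fin 3, |pd i c v * pd j (fun u : V => (ang u)⁻¹) v| ≤
        4 * A / ang v ^ 3 := by
      intro i j
      rw [abs_mul]
      calc |pd i c v| * |pd j (fun u : V => (ang u)⁻¹) v| ≤
          (4 * A / ang v ^ 2) * (1 / ang v ^ 2) :=
            mul_le_mul (hc1'' i v) (wt_b1 j v) (abs_nonneg _) (by positivity)
        _ = (4 * A / ang v ^ 3) * (ang v)⁻¹ := by
            field_simp
        _ ≤ (4 * A / ang v ^ 3) * 1 := by gcongr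
        _ = _ := mul_one _
    have e3 : |pd i (pd j c) v * (ang v)⁻¹| ≤ 4 * A / ang v ^ 3 := by
      rw [abs_mul, abs_of_pos (by positivity : 0 < (ang v)⁻¹)]
      calc |pd i (pd j c) v| * (ang v)⁻¹ ≤ (4 * A / ang v ^ 3) * 1 :=
            mul_le_mul (hc2'' i j v) hinv (by positivity) (by positivity)
        _ = _ := mul_one _
    calc _ ≤ _ := abs_add_le _ _
      _ ≤ (|c v * pd i (pd j (fun u : V => (ang u)⁻¹)) v| +
          |pd i c v * pd j (fun u : V => (ang u)⁻¹) v|) +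
          (|pd j c v * pd i (fun u : V => (ang u)⁻¹) v| +
          |pd i (pd j c) v * (ang v)⁻¹|) := add_le_add (abs_add_le _ _) (abs_add_le _ _)
      _ ≤ (4 / ang v ^ 3 + 4 * A / ang v ^ 3) + (4 * A / ang v ^ 3 + 4 * A / ang v ^ 3) :=
          add_le_add (add_le_add e1 (e2 i j)) (add_le_add (e2 j i) e3)
      _ = (4 + 12 * A) / ang v ^ 3 := by ring
      _ = (4 + 12 * A) / ang v ^ (1 + 2) := by norm_num
  · unfold psO
    rw [chi_one (by norm_num) hv, sub_self, zero_div]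
  · unfold psO
    rw [chi_zero (by norm_num) (by linarith), sub_zero]

end Pool.Agent.LandauF
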