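import Pool.Agent.LandauF.HMq
import Pool.Agent.LandauF.HInvAng
import Pool.Agent.LandauG.WGron
import Pool.Agent.LandauG.WBaire

/-!
# LandauF, module HFroz: everything is frozen on time scales `Kw ^ (-2/3)`

`Kw_contOn`: `Kw_bdd` on `[a, 0]` and `Kw_lip` (`LandauG/WGron.lean`): `t ↦ Kw (f t)` is locally Lipschitz on `(-∞, 0]`.

`Kw_froz`: let `K0 = Kw (f b) ∈ (0, 1/2]`, `C1` the constant of `mom_q 1`, `A` of `inv_ang_test 1` (`φ = 1 / ang ^ 1`, so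
`∫ φ f = Kw f = mq 1 f`).  Suppose `Kw (f τ) > 2 K0` for some `τ ∈ [a, b]`.  By continuity there is `σ ∈ (τ, b)` with
`Kw (f σ) = 2 K0` and `Kw ≤ 2 K0` on `[σ, b]` (the supremum of the set where `Kw ≥ 2 K0`).  `mom_q` on `[σ, b]` with
`K = m = 2 K0 ≤ 1` gives `K0 ≤ C1 A (2 K0)^(2/3) 2 K0 (b - a) ≤ 4 C1 A c K0`, false for `c < 1 / (4 C1 A)`.  So
`Kw ≤ 2 K0` on `[a, b]` and the same inequality gives `|Kw (f τ) - K0| ≤ 4 C1 A c K0 ≤ K0 / 2` for `c = 1/(8 C1 A)`.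

`test_froz`: `mom_q 1` on `[τ, b]` with `K = m = 2 K0`; `(2 K0)^(2/3) (2 K0) ≤ 4 K0^(2/3) K0`.

`m4_froz`: let `M` be the supremum of `mq 4 (f τ)` over `[a, b]` (finite: `mq_le_Kw`).  `mom_q 4` with
`φ = 1 / ang ^ 4`, `K = 2 K0`, `m = M`: `|mq 4 (f τ) - mq 4 (f b)| ≤ C4 A4 (2 K0)^(2/3) M (b - a) ≤ 2 C4 A4 c M ≤ M / 4`
for `c` small.  So `M ≤ (4/3) mq 4 (f b)` and `mq 4 (f τ) ≥ (2/3) mq 4 (f b)`.
(The constant `c` is the minimum of those needed.)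
-/

set_option autoImplicit false

namespace Pool.Agent.LandauF

open MeasureTheory Set Filter Topology Pool.Agent.Landau

theorem Kw_contOn (f : ℝ → V → ℝ) (hf : SolW f) : ContinuousOn (fun t => Kw (f t)) (Iic 0) := by
  obtain ⟨C, hC, hlip⟩ := Kw_lip
  have hI : ∀ a : ℝ, ContinuousOn (fun t => Kw (f t)) (Icc a 0) := by
    intro a
    obtain ⟨B, hB⟩ := Kw_bdd f hf a
    have h0 : ∀ x ∈ Icc a 0, ∀ y ∈ Icc a 0,
        |Kw (f x) - Kw (f y)| ≤ |C * ((1 + B) * (1 + Real.log (1 + B)))| * |x - y| := by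
      intro x hx y hy
      rcases le_total x y with hxy | hxy
      · have h := hlip f hf x y B hxy hy.2 (fun τ hτ => hB τ ⟨hx.1.trans hτ.1, hτ.2.trans hy.2⟩)
        rw [abs_sub_comm, abs_sub_comm x y, abs_of_nonneg (sub_nonneg.2 hxy)]
        exact h.trans (mul_le_mul_of_nonneg_right (le_abs_self _) (sub_nonneg.2 hxy))
      · have h := hlip f hf y x B hxy hx.2 (fun τ hτ => hB τ ⟨hy.1.trans hτ.1, hτ.2.trans hx.2⟩)
        rw [abs_of_nonneg (sub_nonneg.2 hxy)]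
        exact h.trans (mul_le_mul_of_nonneg_right (le_abs_self _) (sub_nonneg.2 hxy))
    have hL : LipschitzOnWith (Real.toNNReal |C * ((1 + B) * (1 + Real.log (1 + B)))|)
        (fun t => Kw (f t)) (Icc a 0) := by
      refine LipschitzOnWith.of_dist_le_mul fun x hx y hy => ?_
      rw [Real.dist_eq, Real.dist_eq, Real.coe_toNNReal _ (abs_nonneg _)]
      exact h0 x hx y hy
    exact hL.continuousOn
  intro t ht
  have h1 := hI (t - 1) t ⟨by linarith, ht⟩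
  refine h1.mono_of_mem_nhdsWithin ?_
  have h2 : Ici (t - 1) ∈ 𝓝 t := Ici_mem_nhds (by linarith)
  have h3 := inter_mem_nhdsWithin (Iic (0 : ℝ)) h2
  refine mem_of_superset h3 ?_
  rintro x ⟨hx1, hx2⟩
  exact ⟨hx2, hx1⟩

private theorem two_rpow_le {x : ℝ} (hx : 0 ≤ x) : (2 * x) ^ (2 / 3 : ℝ) ≤ 2 * x ^ (2 / 3 : ℝ) := by
  rw [Real.mul_rpow (by norm_num) hx]
  refine mul_le_mul_of_nonneg_right ?_ (Real.rpow_nonneg hx _)
  calc (2 : ℝ) ^ (2 / 3 : ℝ) ≤ 2 ^ (1 : ℝ) :=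
        Real.rpow_le_rpow_of_exponent_le (by norm_num) (by norm_num)
    _ = 2 := Real.rpow_one 2

private theorem int_inv_ang (q : ℕ) (g : V → ℝ) : ∫ v, 1 / ang v ^ q * g v = mq q g := by
  unfold mq
  refine integral_congr_ae (Eventually.of_forall fun v => ?_)
  show 1 / ang v ^ q * g v = g v / ang v ^ q
  ring

private theorem mq_one (g : V → ℝ) : mq 1 g = Kw g := by
  unfold mq Kw
  simp

private theorem mq_nonneg (q : ℕ) {g : V → ℝ} (hg : Clw g) : 0 ≤ mq q g :=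
  integral_nonneg fun v => div_nonneg (hg.nonneg v) (pow_nonneg (ang_pos v).le _)

theorem froz : ∃ c C : ℝ, 0 < c ∧ 0 < C ∧ ∀ f : ℝ → V → ℝ, SolW f → ∀ a b : ℝ, a ≤ b → b ≤ 0 →
    0 < Kw (f b) → Kw (f b) ≤ 1 / 2 → (b - a) * Kw (f b) ^ (2 / 3 : ℝ) ≤ c →
    (∀ τ ∈ Icc a b, Kw (f b) / 2 ≤ Kw (f τ) ∧ Kw (f τ) ≤ 2 * Kw (f b)) ∧
    (∀ τ ∈ Icc a b, mq 4 (f b) / 2 ≤ mq 4 (f τ)) ∧
    ∀ (φ : V → ℝ) (A : ℝ), ContDiff ℝ (⊤ : ℕ∞) φ → (∀ v, |φ v| ≤ A / ang v ^ 1) →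
      (∀ i v, |pd i φ v| ≤ A / ang v ^ (1 + 1)) →
      (∀ i j v, |pd i (pd j φ) v| ≤ A / ang v ^ (1 + 2)) → ∀ τ ∈ Icc a b,
      |(∫ v, φ v * f b v) - ∫ v, φ v * f τ v| ≤
        C * A * Kw (f b) ^ (2 / 3 : ℝ) * Kw (f b) * (b - a) := by
  obtain ⟨C1, hC1, hmom1⟩ := mom_q 1 le_rfl
  obtain ⟨C4, hC4, hmom4⟩ := mom_q 4 (by norm_num)
  obtain ⟨A1, hA1, hs1, hb1, hb1', hb1''⟩ := inv_ang_test 1
  obtain ⟨A4, hA4, hs4, hb4, hb4', hb4''⟩ := inv_ang_test 4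
  refine ⟨min (1 / (8 * (C1 * A1))) (1 / (8 * (C4 * A4))), 4 * C1, lt_min (by positivity)
    (by positivity), by positivity, fun f hf a b hab hb hK0 hK1 hc => ?_⟩
  have hc1 : (b - a) * Kw (f b) ^ (2 / 3 : ℝ) ≤ 1 / (8 * (C1 * A1)) := hc.trans (min_le_left _ _)
  have hc4 : (b - a) * Kw (f b) ^ (2 / 3 : ℝ) ≤ 1 / (8 * (C4 * A4)) := hc.trans (min_le_right _ _)
  set K0 : ℝ := Kw (f b) with hK0def
  set P : ℝ := K0 ^ (2 / 3 : ℝ) with hP
  have hP0 : 0 ≤ P := Real.rpow_nonneg hK0.le _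
  have hba : 0 ≤ b - a := sub_nonneg.2 hab
  have h2P : (2 * K0) ^ (2 / 3 : ℝ) ≤ 2 * P := two_rpow_le hK0.le
  have h2P0 : 0 ≤ (2 * K0) ^ (2 / 3 : ℝ) := Real.rpow_nonneg (by linarith) _
  have hc1' : C1 * A1 * (P * (b - a)) ≤ 1 / 8 := by
    have h := mul_le_mul_of_nonneg_left hc1 (by positivity : 0 ≤ C1 * A1)
    have e : C1 * A1 * (1 / (8 * (C1 * A1))) = 1 / 8 := by field_simp
    rw [e] at h
    linarith [h, mul_comm P (b - a)]
  have hc4' : C4 * A4 * (P * (b - a)) ≤ 1 / 8 := by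
    have h := mul_le_mul_of_nonneg_left hc4 (by positivity : 0 ≤ C4 * A4)
    have e : C4 * A4 * (1 / (8 * (C4 * A4))) = 1 / 8 := by field_simp
    rw [e] at h
    linarith [h, mul_comm P (b - a)]
  -- general inequality on a subinterval where the mass is controlled
  have hgen : ∀ τ ∈ Icc a b, (∀ σ ∈ Icc τ b, Kw (f σ) ≤ 2 * K0) →
      ∀ (φ : V → ℝ) (A : ℝ), ContDiff ℝ (⊤ : ℕ∞) φ → (∀ v, |φ v| ≤ A / ang v ^ 1) →
      (∀ i v, |pd i φ v| ≤ A / ang v ^ (1 + 1)) →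
      (∀ i j v, |pd i (pd j φ) v| ≤ A / ang v ^ (1 + 2)) →
      |(∫ v, φ v * f b v) - ∫ v, φ v * f τ v| ≤ 4 * C1 * A * P * K0 * (b - a) := by
    intro τ hτ hle φ A h1 h2 h3 h4
    have hA : 0 ≤ A := by
      have h := (abs_nonneg _).trans (h2 0)
      have h5 : 0 < ang (0 : V) ^ 1 := pow_pos (ang_pos 0) 1
      by_contra hneg
      push Not at hneg
      exact absurd (div_neg_of_neg_of_pos hneg h5) (not_lt.2 h)
    have h := hmom1 f hf τ b (2 * K0) (2 * K0) hτ.2 hb (by linarith) (fun σ hσ =>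
      ⟨hle σ hσ, (mq_le_Kw (hf.cls σ (hσ.2.trans hb)) le_rfl).trans (hle σ hσ)⟩) φ A h1 h2 h3 h4
    refine h.trans ?_
    have hbτ : 0 ≤ b - τ := sub_nonneg.2 hτ.2
    have e1 : C1 * A * (2 * K0) ^ (2 / 3 : ℝ) * (2 * K0) * (b - τ) ≤
        C1 * A * (2 * P) * (2 * K0) * (b - a) := by
      refine mul_le_mul (mul_le_mul_of_nonneg_right (mul_le_mul_of_nonneg_left h2P (by positivity))
        (by linarith)) (by linarith [hτ.1]) hbτ (by positivity)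
    refine e1.trans (le_of_eq ?_)
    ring
  have hgenK : ∀ τ ∈ Icc a b, (∀ σ ∈ Icc τ b, Kw (f σ) ≤ 2 * K0) →
      |K0 - Kw (f τ)| ≤ K0 / 2 := by
    intro τ hτ hle
    have h := hgen τ hτ hle _ A1 hs1 hb1 hb1' hb1''
    rw [int_inv_ang, int_inv_ang, mq_one, mq_one] at h
    refine h.trans ?_
    have e : 4 * C1 * A1 * P * K0 * (b - a) = 4 * (C1 * A1 * (P * (b - a))) * K0 := by ring
    rw [e]
    nlinarith
  -- first claim
  have hcont := Kw_contOn f hf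
  have hup : ∀ τ ∈ Icc a b, Kw (f τ) ≤ 2 * K0 := by
    intro τ hτ
    by_contra hneg
    push Not at hneg
    set S : Set ℝ := Icc τ b ∩ (fun t => Kw (f t)) ⁻¹' Ici (2 * K0) with hS
    have hcI : ∀ x, ContinuousOn (fun t => Kw (f t)) (Icc x b) := fun x =>
      hcont.mono (fun y hy => hy.2.trans hb)
    have hScl : IsClosed S := (hcI τ).preimage_isClosed_of_isClosed isClosed_Icc isClosed_Ici
    have hSc : IsCompact S := isCompact_Icc.of_isClosed_subset hScl inter_subset_left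
    have hSne : S.Nonempty := ⟨τ, ⟨le_rfl, hτ.2⟩, hneg.le⟩
    have hσS := hSc.sSup_mem hSne
    set σ := sSup S with hσ
    have hσ1 : 2 * K0 ≤ Kw (f σ) := hσS.2
    have hmax : ∀ x ∈ S, x ≤ σ := fun x hx => le_csSup hSc.bddAbove hx
    have hσ2 : Kw (f σ) = 2 * K0 := by
      refine le_antisymm ?_ hσ1
      by_contra hlt
      push Not at hlt
      have hivt := intermediate_value_Icc' hσS.1.2 (hcI σ)
      obtain ⟨x, hx, hxv⟩ := hivt (show 2 * K0 ∈ Icc (Kw (f b)) (Kw (f σ)) from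
        ⟨by rw [← hK0def]; linarith, hlt.le⟩)
      have hxS : x ∈ S := ⟨⟨hσS.1.1.trans hx.1, hx.2⟩, (show 2 * K0 ≤ Kw (f x) from hxv.ge)⟩
      have hxσ : x = σ := le_antisymm (hmax x hxS) hx.1
      rw [hxσ] at hxv
      exact absurd hxv hlt.ne'
    have hle : ∀ x ∈ Icc σ b, Kw (f x) ≤ 2 * K0 := by
      intro x hx
      by_contra hlt
      push Not at hlt
      have hxS : x ∈ S := ⟨⟨hσS.1.1.trans hx.1, hx.2⟩, hlt.le⟩
      have hxσ : x = σ := le_antisymm (hmax x hxS) hx.1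
      rw [hxσ, hσ2] at hlt
      exact lt_irrefl _ hlt
    have h := hgenK σ ⟨hτ.1.trans hσS.1.1, hσS.1.2⟩ hle
    rw [hσ2] at h
    have h2 := (abs_le.1 h).1
    linarith
  refine ⟨fun τ hτ => ⟨?_, hup τ hτ⟩, ?_, ?_⟩
  · have h := hgenK τ hτ (fun σ hσ => hup σ ⟨hτ.1.trans hσ.1, hσ.2⟩)
    have h2 := (abs_le.1 h).2
    linarith
  · -- fourth moment
    set T : Set ℝ := (fun t => mq 4 (f t)) '' Icc a b with hT
    have hTb : BddAbove T := by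
      refine ⟨2 * K0, ?_⟩
      rintro _ ⟨t, ht, rfl⟩
      exact (mq_le_Kw (hf.cls t (ht.2.trans hb)) (by norm_num)).trans (hup t ht)
    set M : ℝ := sSup T with hM
    have hMle : ∀ τ ∈ Icc a b, mq 4 (f τ) ≤ M := fun τ hτ => le_csSup hTb ⟨τ, hτ, rfl⟩
    have hbI : b ∈ Icc a b := ⟨hab, le_rfl⟩
    have hM0 : 0 ≤ M := (mq_nonneg 4 (hf.cls b hb)).trans (hMle b hbI)
    have hdiff : ∀ τ ∈ Icc a b, |mq 4 (f b) - mq 4 (f τ)| ≤ M / 4 := by
      intro τ hτ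
      have h := hmom4 f hf τ b (2 * K0) M hτ.2 hb (by linarith) (fun σ hσ =>
        ⟨hup σ ⟨hτ.1.trans hσ.1, hσ.2⟩, hMle σ ⟨hτ.1.trans hσ.1, hσ.2⟩⟩) _ A4 hs4 hb4 hb4' hb4''
      rw [int_inv_ang, int_inv_ang] at h
      refine h.trans ?_
      have hbτ : 0 ≤ b - τ := sub_nonneg.2 hτ.2
      have e1 : C4 * A4 * (2 * K0) ^ (2 / 3 : ℝ) * M * (b - τ) ≤
          C4 * A4 * (2 * P) * M * (b - a) := by
        refine mul_le_mul (mul_le_mul_of_nonneg_right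
          (mul_le_mul_of_nonneg_left h2P (by positivity)) hM0) (by linarith [hτ.1]) hbτ
          (by positivity)
      refine e1.trans ?_
      have e : C4 * A4 * (2 * P) * M * (b - a) = 2 * (C4 * A4 * (P * (b - a))) * M := by ring
      rw [e]
      nlinarith
    have hMb : M ≤ mq 4 (f b) + M / 4 := by
      refine csSup_le ⟨_, b, hbI, rfl⟩ ?_
      rintro _ ⟨t, ht, rfl⟩
      have h2 := (abs_le.1 (hdiff t ht)).1
      show mq 4 (f t) ≤ _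
      linarith
    intro τ hτ
    have h2 := (abs_le.1 (hdiff τ hτ)).2
    have h3 := mq_nonneg 4 (hf.cls b hb)
    linarith
  · intro φ A h1 h2 h3 h4 τ hτ
    exact hgen τ hτ (fun σ hσ => hup σ ⟨hτ.1.trans hσ.1, hσ.2⟩) φ A h1 h2 h3 h4

end Pool.Agent.LandauF
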