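import Pool.Agent.LandauF.HDefs

/-!
# LandauF, module HHeavy: the number of heavy cells

For `i ∈ bad` choose `y i` with `‖y i‖ ∈ [i s, (i+1) s]`, `‖y i‖ ≤ 1/2`, `h < mB g (y i) (20 s)`.  Split `bad` into the `42`
classes of `i` modulo `42`.  For `i ≠ j` in the same class `|‖y i‖ - ‖y j‖| ≥ 41 s > 40 s`, so the closed balls of
radius `20 s` about `y i`, `y j` are disjoint; all these balls are contained in the unit ball (`20 s ≤ 1/5`).  So
`(number of the class) * h ≤ ∑ mB g (y i) (20 s) ≤ ∫_{‖v‖ ≤ 1} g ≤ 2 Kw g` (`ang v ≤ 2` there; `Clw.int_ball_le`).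
Sum over the classes: `card * h ≤ 84 Kw g`.
-/

set_option autoImplicit false

namespace Pool.Agent.LandauF

open MeasureTheory Set Filter Topology Pool.Agent.Landau

theorem heavy_class {g : V → ℝ} (hg : Clw g) {s h : ℝ} (hs : 0 < s) (hs1 : s ≤ 1 / 100)
    (B : Finset ℕ) (y : ℕ → V)
    (hy : ∀ i ∈ B, i * s ≤ ‖y i‖ ∧ ‖y i‖ ≤ (i + 1) * s ∧ ‖y i‖ ≤ 1 / 2 ∧
      h < mB g (y i) (20 * s))
    (hsep : ∀ i ∈ B, ∀ j ∈ B, i < j → i + 42 ≤ j) : (B.card : ℝ) * h ≤ 2 * Kw g := by
  have hdis : ∀ i ∈ B, ∀ j ∈ B, i < j →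
      Disjoint (Metric.closedBall (y i) (20 * s)) (Metric.closedBall (y j) (20 * s)) := by
    intro i hi j hj hij
    apply Metric.closedBall_disjoint_closedBall
    have h1 := (hy i hi).2.1
    have h2 := (hy j hj).1
    have h3 : (i : ℝ) + 42 ≤ j := by exact_mod_cast hsep i hi j hj hij
    have h4 : ‖y j‖ - ‖y i‖ ≤ ‖y j - y i‖ := norm_sub_norm_le _ _
    rw [dist_comm, dist_eq_norm]
    nlinarith
  have hpair : (B : Set ℕ).Pairwise (Function.onFun Disjoint
      fun i => Metric.closedBall (y i) (20 * s)) := by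
    intro i hi j hj hij
    rcases lt_or_gt_of_ne hij with h1 | h1
    · exact hdis i hi j hj h1
    · exact (hdis j hj i hi h1).symm
  have hint : ∀ i ∈ B, IntegrableOn g (Metric.closedBall (y i) (20 * s)) := fun i _ =>
    hg.cont.continuousOn.integrableOn_compact (isCompact_closedBall _ _)
  have hsum : ∑ i ∈ B, mB g (y i) (20 * s) =
      ∫ v in ⋃ i ∈ B, Metric.closedBall (y i) (20 * s), g v := by
    unfold mB
    exact (integral_biUnion_finset B (fun i _ => Metric.isClosed_closedBall.measurableSet)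
      hpair hint).symm
  have hsub : (⋃ i ∈ B, Metric.closedBall (y i) (20 * s)) ⊆ {v : V | ‖v‖ ≤ 1} := by
    intro v hv
    obtain ⟨i, hi, hvi⟩ := mem_iUnion₂.1 hv
    rw [Metric.mem_closedBall, dist_eq_norm] at hvi
    have h1 := (hy i hi).2.2.1
    have h2 : ‖v‖ ≤ ‖v - y i‖ + ‖y i‖ := by
      have := norm_add_le (v - y i) (y i)
      rwa [sub_add_cancel] at this
    change ‖v‖ ≤ 1
    linarith
  have h1 : ∫ v in ⋃ i ∈ B, Metric.closedBall (y i) (20 * s), g v ≤
      ∫ v in {v : V | ‖v‖ ≤ 1}, g v :=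
    setIntegral_mono_set (hg.int_ball 1) (Eventually.of_forall fun v => hg.nonneg v)
      hsub.eventuallyLE
  have h2 := hg.int_ball_le (le_refl (1 : ℝ))
  have h3 : (B.card : ℝ) * h ≤ ∑ i ∈ B, mB g (y i) (20 * s) := by
    have := Finset.card_nsmul_le_sum B (fun i => mB g (y i) (20 * s)) h
      (fun i hi => (hy i hi).2.2.2.le)
    rwa [nsmul_eq_mul] at this
  linarith

theorem heavy_count {g : V → ℝ} (hg : Clw g) {s h : ℝ} (hs : 0 < s) (hs1 : s ≤ 1 / 100) (hh : 0 < h)
    (bad : Finset ℕ)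
    (hb : ∀ i ∈ bad, ∃ y : V, i * s ≤ ‖y‖ ∧ ‖y‖ ≤ (i + 1) * s ∧ ‖y‖ ≤ 1 / 2 ∧
      h < mB g y (20 * s)) : (bad.card : ℝ) * h ≤ 84 * Kw g := by
  choose! y hy using hb
  have h1 : ∀ k ∈ Finset.range 42,
      ((bad.filter fun i => i % 42 = k).card : ℝ) * h ≤ 2 * Kw g := by
    intro k _
    refine heavy_class hg hs hs1 _ y (fun i hi => hy i (Finset.mem_filter.1 hi).1) ?_
    intro i hi j hj hij
    have h2 := (Finset.mem_filter.1 hi).2
    have h3 := (Finset.mem_filter.1 hj).2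
    omega
  have h2 : bad.card = ∑ k ∈ Finset.range 42, (bad.filter fun i => i % 42 = k).card :=
    Finset.card_eq_sum_card_fiberwise fun i _ => by
      simp only [Finset.coe_range, Set.mem_Iio]
      omega
  have h3 : (bad.card : ℝ) * h = ∑ k ∈ Finset.range 42,
      ((bad.filter fun i => i % 42 = k).card : ℝ) * h := by
    rw [h2]
    push_cast
    rw [Finset.sum_mul]
  have h4 := Finset.sum_le_sum h1
  rw [← h3, Finset.sum_const, Finset.card_range, nsmul_eq_mul] at h4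
  push_cast at h4
  linarith

end Pool.Agent.LandauF
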