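import Pool.Agent.LandauF.HDefs
import Pool.Agent.LandauG.WKer

/-!
# LandauF, module HKq: kernel bound for test functions decaying like `1 / ang ^ q`

Exactly as `Kf_bound_ang` (`LandauG/WKer.lean`, which is the case `q = 1`; copy `fd_le`, `lip`, `bound_le` from there
with `q + 1`, `q + 2` in the place of `2`, `3`; the namespace there is `WKerAux`).
Let `ang v ≤ ang w`, `z = v - w`.  If `‖z‖ ≤ ang v / 2`, every point `x` of the segment has `ang x ≥ ang v / 2`, so the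
second derivatives there are at most `2 ^ (q + 2) A / ang v ^ (q + 2)`; if `‖z‖ > ang v / 2` then
`|pd i φ v| + |pd i φ w| ≤ 2 A / ang v ^ (q + 1) ≤ 4 A ‖z‖ / ang v ^ (q + 2)`.
-/

set_option autoImplicit false

namespace Pool.Agent.LandauF

open MeasureTheory Set Filter Topology Pool.Agent.Landau

namespace HKqAux

theorem lip (q : ℕ) (φ : V → ℝ) (hφ : ContDiff ℝ (⊤ : ℕ∞) φ) (A : ℝ) (hA : 0 ≤ A)
    (h1 : ∀ i v, |pd i φ v| ≤ A / ang v ^ (q + 1))
    (h2 : ∀ i j v, |pd i (pd j φ) v| ≤ A / ang v ^ (q + 2))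
    (i : Fin 3) (v w : V) (hvw : ang v ≤ ang w) :
    |pd i φ v - pd i φ w| ≤ 2 ^ (q + 3) * A * ‖v - w‖ / ang v ^ (q + 2) := by
  have hv := ang_pos v
  rcases le_or_gt ‖v - w‖ (ang v / 2) with hz | hz
  · have h3 : ∀ x ∈ Metric.closedBall v (ang v / 2), ‖fderiv ℝ (pd i φ) x‖ ≤
        2 * (A / (ang v / 2) ^ (q + 2)) := by
      intro x hx
      refine WKerAux.fd_le _ _ _ fun j => (h2 j i x).trans ?_
      rw [Metric.mem_closedBall, dist_eq_norm] at hx
      have h4 := ang_lip v x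
      rw [norm_sub_rev] at h4
      have h5 : ang v / 2 ≤ ang x := by linarith
      exact div_le_div_of_nonneg_left hA (by positivity)
        (pow_le_pow_left₀ (by positivity) h5 (q + 2))
    have h6 := (convex_closedBall v (ang v / 2)).norm_image_sub_le_of_norm_fderiv_le (𝕜 := ℝ)
      (f := pd i φ) (fun x _ => (differentiable_of_smooth (smooth_pd hφ i)) x) h3
      (x := w) (y := v)
      (by rw [Metric.mem_closedBall, dist_eq_norm, norm_sub_rev]; exact hz)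
      (Metric.mem_closedBall_self (by positivity))
    rw [Real.norm_eq_abs] at h6
    refine h6.trans (le_of_eq ?_)
    rw [div_pow]
    field_simp
    ring
  · have h3 := h1 i v
    have h4 : |pd i φ w| ≤ A / ang v ^ (q + 1) := (h1 i w).trans
      (div_le_div_of_nonneg_left hA (by positivity) (pow_le_pow_left₀ hv.le hvw (q + 1)))
    have h5 : |pd i φ v - pd i φ w| ≤ 2 * A / ang v ^ (q + 1) := by
      refine (abs_sub _ _).trans ?_
      have : 2 * A / ang v ^ (q + 1) = A / ang v ^ (q + 1) + A / ang v ^ (q + 1) := by ring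
      linarith
    refine h5.trans ?_
    rw [div_le_div_iff₀ (by positivity) (by positivity)]
    have h6 : ang v ≤ 2 * ‖v - w‖ := by linarith
    have h60 : (4 : ℝ) ≤ 2 ^ (q + 3) := by
      calc (4 : ℝ) ≤ 2 ^ 3 := by norm_num
        _ ≤ 2 ^ (q + 3) := pow_le_pow_right₀ (by norm_num) (by omega)
    have h7 : 0 ≤ 2 * A * ang v ^ (q + 1) := by positivity
    have h8 : 0 ≤ A * ‖v - w‖ * ang v ^ (q + 1) := by positivity
    calc 2 * A * ang v ^ (q + 2) = 2 * A * ang v ^ (q + 1) * ang v := by ring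
      _ ≤ 2 * A * ang v ^ (q + 1) * (2 * ‖v - w‖) := mul_le_mul_of_nonneg_left h6 h7
      _ = 4 * (A * ‖v - w‖ * ang v ^ (q + 1)) := by ring
      _ ≤ 2 ^ (q + 3) * (A * ‖v - w‖ * ang v ^ (q + 1)) := mul_le_mul_of_nonneg_right h60 h8
      _ = 2 ^ (q + 3) * A * ‖v - w‖ * ang v ^ (q + 1) := by ring

theorem bound_le (q : ℕ) (φ : V → ℝ) (hφ : ContDiff ℝ (⊤ : ℕ∞) φ) (A : ℝ) (hA : 0 ≤ A)
    (h1 : ∀ i v, |pd i φ v| ≤ A / ang v ^ (q + 1))
    (h2 : ∀ i j v, |pd i (pd j φ) v| ≤ A / ang v ^ (q + 2))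
    (v w : V) (hvw : ang v ≤ ang w) :
    |Kf φ v w| ≤ (3 * 2 ^ (q + 3) + 5) * A * (1 / ang v ^ (q + 2) + 1 / ang w ^ (q + 2)) /
      ‖v - w‖ := by
  have hv := ang_pos v
  have hw := ang_pos w
  obtain ⟨L, hL⟩ : ∃ L : ℝ, L = 2 ^ (q + 3) := ⟨_, rfl⟩
  have hL0 : 0 < L := by rw [hL]; positivity
  rw [← hL]
  have hb : ∀ i, |bK i (v - w) * (pd i φ v - pd i φ w)| ≤ L * A / ang v ^ (q + 2) / ‖v - w‖ := by
    intro i
    rw [abs_mul]
    have hl := lip q φ hφ A hA h1 h2 i v w hvw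
    rw [← hL] at hl
    calc |bK i (v - w)| * |pd i φ v - pd i φ w|
        ≤ 1 / ‖v - w‖ ^ 2 * (L * A * ‖v - w‖ / ang v ^ (q + 2)) :=
          mul_le_mul (bK_abs i _) hl (abs_nonneg _) (by positivity)
      _ = L * A / ang v ^ (q + 2) / ‖v - w‖ := by
          by_cases hz : ‖v - w‖ = 0
          · rw [hz]
            simp
          · field_simp
  have ha : ∀ i j, |aK i j (v - w) * (pd i (pd j φ) v + pd i (pd j φ) w)| ≤
      A * (1 / ang v ^ (q + 2) + 1 / ang w ^ (q + 2)) / ‖v - w‖ := by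
    intro i j
    rw [abs_mul]
    have h3 : |pd i (pd j φ) v + pd i (pd j φ) w| ≤
        A * (1 / ang v ^ (q + 2) + 1 / ang w ^ (q + 2)) := by
      refine (abs_add_le _ _).trans ?_
      have h4 : A * (1 / ang v ^ (q + 2) + 1 / ang w ^ (q + 2)) =
        A / ang v ^ (q + 2) + A / ang w ^ (q + 2) := by ring
      rw [h4]
      exact add_le_add (h2 i j v) (h2 i j w)
    calc |aK i j (v - w)| * |pd i (pd j φ) v + pd i (pd j φ) w|
        ≤ 1 / ‖v - w‖ * (A * (1 / ang v ^ (q + 2) + 1 / ang w ^ (q + 2))) :=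
          mul_le_mul (aK_abs i j _) h3 (abs_nonneg _) (by positivity)
      _ = A * (1 / ang v ^ (q + 2) + 1 / ang w ^ (q + 2)) / ‖v - w‖ := by ring
  have h3 : |∑ i : Fin 3, bK i (v - w) * (pd i φ v - pd i φ w)| ≤
      3 * (L * A / ang v ^ (q + 2) / ‖v - w‖) := by
    refine (Finset.abs_sum_le_sum_abs _ _).trans ((Finset.sum_le_sum fun i _ => hb i).trans ?_)
    simp
  have h4 : |∑ i : Fin 3, ∑ j : Fin 3, aK i j (v - w) * (pd i (pd j φ) v + pd i (pd j φ) w)| ≤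
      9 * (A * (1 / ang v ^ (q + 2) + 1 / ang w ^ (q + 2)) / ‖v - w‖) := by
    refine (Finset.abs_sum_le_sum_abs _ _).trans ((Finset.sum_le_sum fun i _ =>
      (Finset.abs_sum_le_sum_abs _ _).trans (Finset.sum_le_sum fun j _ => ha i j)).trans ?_)
    simp only [Finset.sum_const, Finset.card_univ, Fintype.card_fin, nsmul_eq_mul]
    apply le_of_eq
    push_cast
    ring
  have h5 : L * A / ang v ^ (q + 2) / ‖v - w‖ ≤
      L * (A * (1 / ang v ^ (q + 2) + 1 / ang w ^ (q + 2)) / ‖v - w‖) := by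
    have h6 : L * (A * (1 / ang v ^ (q + 2) + 1 / ang w ^ (q + 2)) / ‖v - w‖) =
        L * A / ang v ^ (q + 2) / ‖v - w‖ + L * A / ang w ^ (q + 2) / ‖v - w‖ := by ring
    rw [h6]
    have h7 : 0 ≤ L * A / ang w ^ (q + 2) / ‖v - w‖ := by positivity
    linarith
  have h8 : 0 ≤ A * (1 / ang v ^ (q + 2) + 1 / ang w ^ (q + 2)) / ‖v - w‖ := by positivity
  unfold Kf
  calc _ ≤ |∑ i : Fin 3, bK i (v - w) * (pd i φ v - pd i φ w)| +
        |1 / 2 * ∑ i : Fin 3, ∑ j : Fin 3, aK i j (v - w) *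
          (pd i (pd j φ) v + pd i (pd j φ) w)| := abs_add_le _ _
    _ ≤ 3 * (L * (A * (1 / ang v ^ (q + 2) + 1 / ang w ^ (q + 2)) / ‖v - w‖)) +
        1 / 2 * (9 * (A * (1 / ang v ^ (q + 2) + 1 / ang w ^ (q + 2)) / ‖v - w‖)) := by
        rw [abs_mul, abs_of_pos (by norm_num : (0 : ℝ) < 1 / 2)]
        linarith
    _ ≤ (3 * L + 5) * (A * (1 / ang v ^ (q + 2) + 1 / ang w ^ (q + 2)) / ‖v - w‖) := by linarith
    _ = (3 * L + 5) * A * (1 / ang v ^ (q + 2) + 1 / ang w ^ (q + 2)) / ‖v - w‖ := by ring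

end HKqAux

theorem Kf_bound_q (q : ℕ) : ∃ C : ℝ, 0 < C ∧ ∀ φ : V → ℝ, ContDiff ℝ (⊤ : ℕ∞) φ → ∀ A : ℝ,
    (∀ i v, |pd i φ v| ≤ A / ang v ^ (q + 1)) →
    (∀ i j v, |pd i (pd j φ) v| ≤ A / ang v ^ (q + 2)) → ∀ v w : V,
    |Kf φ v w| ≤ C * A * (1 / ang v ^ (q + 2) + 1 / ang w ^ (q + 2)) / ‖v - w‖ := by
  refine ⟨3 * 2 ^ (q + 3) + 5, by positivity, fun φ hφ A h1 h2 v w => ?_⟩
  have hA : 0 ≤ A := by
    by_contra hc
    have h3 := (abs_nonneg _).trans (h1 0 0)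
    have h4 := div_neg_of_neg_of_pos (not_le.1 hc) (pow_pos (ang_pos (0 : V)) (q + 1))
    linarith
  rcases le_total (ang v) (ang w) with h | h
  · exact HKqAux.bound_le q φ hφ A hA h1 h2 v w h
  · have h3 := HKqAux.bound_le q φ hφ A hA h1 h2 w v h
    rw [WKerAux.Kf_symm, norm_sub_rev, add_comm (1 / ang v ^ (q + 2))]
    exact h3

end Pool.Agent.LandauF
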