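import Pool.Agent.LandauF.HPotT
import Pool.Agent.LandauG.WCons
import Pool.Agent.LandauG.WTime

/-!
# LandauF, module HPoC: continuity in time of the tail potential

`N = ∫ f b = ∫ f t` for all `t ≤ 0` (`mass_at`).  For `ρ > R > 0` put `P_ρ t = ∫_{R ≤ ‖w‖ ≤ ρ} f t w/‖w‖`.  For fixed `ρ` it is
continuous on `(-∞, 0]` by dominated convergence (`f` is continuous on `Iic 0 ×ˢ univ`, `0 ≤ f ≤ 1`, integrand at most `1/R` on a
bounded set).  `0 ≤ Po (f t) R - P_ρ t ≤ ∫_{‖w‖ > ρ} f t w/‖w‖ ≤ N/ρ`, so `P_ρ → Po` uniformly on `(-∞, 0]`.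
-/

set_option autoImplicit false

namespace Pool.Agent.LandauF

open MeasureTheory Set Filter Topology Pool.Agent.Landau

private theorem hpoc_meas (R ρ : ℝ) : MeasurableSet {w : V | R ≤ ‖w‖ ∧ ‖w‖ < ρ} :=
  (measurableSet_le measurable_const measurable_norm).inter
    (measurableSet_lt measurable_norm measurable_const)

private theorem hpoc_int0 {g : V → ℝ} (hg : Clw g) : Integrable (fun w => g w / ‖w‖) := by
  have h := pot_int g hg 0
  have h2 : (fun w : V => g w / ‖(0 : V) - w‖) = fun w => g w / ‖w‖ := by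
    funext w
    rw [zero_sub, norm_neg]
  rw [h2] at h
  exact h

private theorem hpoc_split {g : V → ℝ} (hg : Clw g) {R ρ : ℝ} (h : R ≤ ρ) :
    Po g R = (∫ w in {w : V | R ≤ ‖w‖ ∧ ‖w‖ < ρ}, g w / ‖w‖) + Po g ρ := by
  have hi := hpoc_int0 hg
  have hm : MeasurableSet {w : V | ρ ≤ ‖w‖} := measurableSet_le measurable_const measurable_norm
  have hu : {w : V | R ≤ ‖w‖} = {w : V | R ≤ ‖w‖ ∧ ‖w‖ < ρ} ∪ {w : V | ρ ≤ ‖w‖} := by
    ext w
    simp only [mem_ofPred_eq, mem_union]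
    constructor
    · intro hw
      rcases lt_or_ge ‖w‖ ρ with h1 | h1
      · exact Or.inl ⟨hw, h1⟩
      · exact Or.inr h1
    · rintro (hw | hw)
      · exact hw.1
      · exact h.trans hw
  have hd : Disjoint {w : V | R ≤ ‖w‖ ∧ ‖w‖ < ρ} {w : V | ρ ≤ ‖w‖} := by
    rw [Set.disjoint_left]
    intro w hw hw2
    exact absurd hw.2 (not_lt.2 hw2)
  unfold Po
  rw [hu, setIntegral_union hd hm hi.integrableOn hi.integrableOn]

private theorem hpoc_fix {f : ℝ → V → ℝ} (hf : SolW f) {R : ℝ} (hR : 0 < R) (ρ : ℝ) :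
    ContinuousOn (fun t => ∫ w in {w : V | R ≤ ‖w‖ ∧ ‖w‖ < ρ}, f t w / ‖w‖) (Iic (0 : ℝ)) := by
  have hfin : volume {w : V | R ≤ ‖w‖ ∧ ‖w‖ < ρ} < ⊤ := by
    refine lt_of_le_of_lt (measure_mono ?_) (measure_ball_lt_top (μ := volume) (x := (0 : V)) (r := ρ))
    intro w hw
    rw [mem_ball_zero_iff]
    exact hw.2
  refine continuousOn_of_dominated (bound := fun _ => 1 / R) ?_ ?_ ?_ ?_
  · intro t ht
    exact (hpoc_int0 (hf.cls t ht)).aestronglyMeasurable.restrict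
  · intro t ht
    refine (ae_restrict_iff' (hpoc_meas R ρ)).2 (Eventually.of_forall fun w hw => ?_)
    have h0 := (hf.cls t ht).nonneg w
    have h1 := (hf.cls t ht).le_one w
    rw [Real.norm_eq_abs, abs_of_nonneg (div_nonneg h0 (norm_nonneg w))]
    exact div_le_div₀ zero_le_one h1 hR hw.1
  · exact integrableOn_const (hs := hfin.ne)
  · refine Eventually.of_forall fun w => ?_
    refine ContinuousOn.div_const ?_ _
    have h1 : ContinuousOn (fun t : ℝ => ((t, w) : ℝ × V)) (Iic (0 : ℝ)) := by fun_prop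
    exact hf.cont.comp h1 (fun t ht => ⟨ht, mem_univ _⟩)

theorem Po_cont {f : ℝ → V → ℝ} (hf : SolW f) {b : ℝ} (hb : b ≤ 0) (hi : Integrable (f b)) {R : ℝ}
    (hR : 0 < R) : ContinuousOn (fun t => Po (f t) R) (Iic 0) := by
  have hu : TendstoUniformlyOn (fun (ρ : ℝ) (t : ℝ) => ∫ w in {w : V | R ≤ ‖w‖ ∧ ‖w‖ < ρ}, f t w / ‖w‖)
      (fun t => Po (f t) R) atTop (Iic (0 : ℝ)) := by
    rw [Metric.tendstoUniformlyOn_iff]
    intro ε hε
    have hN : 0 ≤ ∫ v, f b v := integral_nonneg (hf.cls b hb).nonneg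
    filter_upwards [eventually_ge_atTop R, eventually_gt_atTop ((∫ v, f b v) / ε)] with ρ h1 h2 t ht
    have ht0 : t ≤ 0 := ht
    have hg := hf.cls t ht0
    obtain ⟨hit, hm⟩ := mass_at f hf b t hb ht0 hi
    have hρ : 0 < ρ := hR.trans_le h1
    have h3 : Po (f t) ρ ≤ (∫ v, f b v) / ρ := by
      refine (Po_le hg hit hρ).trans ?_
      rw [← hm]
      exact div_le_div_of_nonneg_right (mT_le hg hit ρ) hρ.le
    have h4 : (∫ v, f b v) / ρ < ε := by
      rw [div_lt_iff₀ hρ]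
      rw [div_lt_iff₀ hε] at h2
      linarith
    have h5 := Po_nonneg hg ρ
    rw [Real.dist_eq, hpoc_split hg h1, add_sub_cancel_left, abs_of_nonneg h5]
    linarith
  exact hu.continuousOn (Eventually.frequently (Eventually.of_forall fun ρ => hpoc_fix hf hR ρ))

end Pool.Agent.LandauF
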