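import Pool.Agent.LandauF.HSumW
import Pool.Agent.LandauF.HPoC
import Pool.Agent.LandauF.HClaimC

/-!
# LandauF, module HSumA: the sum over all windows

`tw b c τ R₀ 0 = b`, `tw b c τ R₀ (j+1) = b - c (2^j R₀)^τ`; `W_j = [tw (j+1), tw j]`, `R_j = 2^j R₀`; `W_j ⊆ [b - c R_j^τ, b]`.
Take `c₀ = min c' 1` (`c'` from the hypothesis `hW`), `c ≤ c₀`, and let `j₀ = JB (f b) 0 ρ > 0` for some `ρ ≥ 1` (`JB_pos_ex`).
`R*` is large: `R* ≥ R₀', ρ`, `C' R^(1-τ+β/6) ≤ j₀/10` for `R ≥ R*` (the exponent is at most `-1 + 1/3`), and with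
`K = C' (R*)^(-β/6)/(1 - 2^(-β/6))`: `exp K ≤ 11/10`, `2 K ≤ j₀/10`.
On `W_j` apply `ode_win` to `J = JR f R_j`, `l t = l Po (f t) (R_j/2)` (continuous: `Po_cont`), `μ = n = C' R_j^(-τ-β/6)` constant,
`δ = C' R_j^(1-τ+β/6)`; `κ_j = ∫_{W_j} μ = C' R_j^(-τ-β/6) |W_j| ≤ C' R_j^(-β/6)` (`|W_j| ≤ c R_j^τ ≤ R_j^τ`), so `∑_{i<j} κ_i ≤ K` for all `j`;
`g = g_j = exp (∑_{i<j} κ_i)`, `e = e_j = 2 ∑_{i<j} κ_i`.  The derivative `D` of the hypothesis is chosen as `J'` (`Classical.choose`, or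
`deriv (JR f R_j)`).  Put `z_j = g_j JR f R_j (tw j) + e_j`, `y_j = g_{j+1} JR f R_j (tw (j+1)) + e_{j+1}`.
By induction `j₀ ≤ z_j`: `z_0 = JR f R₀ b ≥ j₀` (`wt 0 0 (v/R₀) = 1` for `‖v‖ ≤ R₀`); `ode_win` gives `z_j ≤ y_j`, and
`JR f R_j ≤ JR f R_{j+1}` (`JR_mono`: if `chi 1 (v/R) ≠ 0` then `‖v‖ < 2R`, so `chi 1 (v/(2R)) = 1`), so `y_j ≤ z_{j+1}`.
`(l/4) ∫_{W_j} Po (f t) (R_j/2) ≤ 1/z_j - 1/y_j ≤ 1/z_j - 1/z_{j+1}`; sum: `≤ 1/z_0 ≤ 1/j₀`.  `S = 4/(l j₀)`.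
-/

set_option autoImplicit false

namespace Pool.Agent.LandauF

open MeasureTheory Set Filter Topology Pool.Agent.Landau

/-- end points of the windows -/
noncomputable def tw (b c τ R₀ : ℝ) : ℕ → ℝ
  | 0 => b
  | j + 1 => b - c * (2 ^ j * R₀) ^ τ

private theorem hsa_wt (R : ℝ) (v : V) : wt 0 0 (R⁻¹ • v) = chi R v ^ 6 := by
  unfold wt chi
  simp

private theorem hsa_int {g : V → ℝ} (hg : Dn g) {R : ℝ} (hR : 0 < R) :
    Integrable (fun v => wt 0 0 (R⁻¹ • v) * fi g v) := by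
  simp only [hsa_wt]
  have h1 : Continuous (fun v => chi R v ^ 6 * fi g v) :=
    ((chi_smooth R).continuous.pow 6).mul (fi_cont hg)
  have h2 : HasCompactSupport (fun v => chi R v ^ 6) :=
    (chi_compact hR).comp_left (g := fun x : ℝ => x ^ 6) (by simp)
  exact h1.integrable_of_hasCompactSupport h2.mul_right

private theorem hsa_Dn {f : ℝ → V → ℝ} (hf : SolP f) {t : ℝ} (ht : t < 0) : Dn (f t) :=
  ⟨hf.sol.cls t ht.le, hf.pos t ht⟩

theorem JR_mono {f : ℝ → V → ℝ} (hf : SolP f) {R t : ℝ} (hR : 0 < R) (ht : t < 0) :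
    JR f R t ≤ JR f (2 * R) t := by
  have hD := hsa_Dn hf ht
  unfold JR FJ
  refine integral_mono (hsa_int hD hR) (hsa_int hD (by positivity)) fun v => ?_
  simp only [hsa_wt]
  exact mul_le_mul_of_nonneg_right (pow_le_pow_left₀ (chi_nonneg R v) (chi_mono hR le_rfl v) 6)
    (fi_nonneg hD v)

private theorem hsa_JB {g : V → ℝ} (hg : Dn g) {ρ R : ℝ} (hR : 0 < R) (h : ρ ≤ R) :
    JB g 0 ρ ≤ FJ (fun v => wt 0 0 (R⁻¹ • v)) g := by
  unfold JB FJ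
  have h1 : ∫ v in Metric.closedBall (0 : V) ρ, fi g v =
      ∫ v in Metric.closedBall (0 : V) ρ, wt 0 0 (R⁻¹ • v) * fi g v := by
    refine setIntegral_congr_fun Metric.isClosed_closedBall.measurableSet fun v hv => ?_
    simp only [hsa_wt]
    rw [chi_one hR ((mem_closedBall_zero_iff.1 hv).trans h)]
    simp
  rw [h1]
  refine setIntegral_le_integral (hsa_int hg hR) (Eventually.of_forall fun v => ?_)
  simp only [hsa_wt]
  exact mul_nonneg (pow_nonneg (chi_nonneg R v) 6) (fi_nonneg hg v)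

private theorem hsa_small {C y ε : ℝ} (hy : 0 < y) (hε : 0 < ε) :
    ∃ R₁ : ℝ, ∀ R : ℝ, R₁ ≤ R → C * R ^ (-y) ≤ ε := by
  have h1 := (tendsto_rpow_neg_atTop hy).const_mul C
  rw [mul_zero] at h1
  obtain ⟨R₁, h2⟩ := eventually_atTop.1 ((tendsto_order.1 h1).2 ε hε)
  exact ⟨R₁, fun R hR => (h2 R hR).le⟩

private theorem hsa_pow {β τ C R₀ : ℝ} (hR : 0 < R₀) (j : ℕ) :
    (2 ^ j * R₀) ^ τ * (C * (2 ^ j * R₀) ^ (-τ - β / 6)) =
      C * R₀ ^ (-(β / 6)) * ((2 : ℝ) ^ (-(β / 6))) ^ j := by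
  have h0 : (0 : ℝ) < 2 ^ j * R₀ := by positivity
  have h1 : (2 ^ j * R₀) ^ τ * (2 ^ j * R₀) ^ (-τ - β / 6) = (2 ^ j * R₀) ^ (-(β / 6)) := by
    rw [← Real.rpow_add h0]
    congr 1
    ring
  have h2 : (2 ^ j * R₀) ^ (-(β / 6)) = ((2 : ℝ) ^ (-(β / 6))) ^ j * R₀ ^ (-(β / 6)) := by
    rw [Real.mul_rpow (by positivity) hR.le, ← Real.rpow_natCast, ← Real.rpow_mul (by norm_num),
      ← Real.rpow_natCast, ← Real.rpow_mul (by norm_num), mul_comm (j : ℝ)]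
  calc (2 ^ j * R₀) ^ τ * (C * (2 ^ j * R₀) ^ (-τ - β / 6))
      = C * ((2 ^ j * R₀) ^ τ * (2 ^ j * R₀) ^ (-τ - β / 6)) := by ring
    _ = _ := by rw [h1, h2]; ring

private theorem hsa_tw {b c τ R₀ : ℝ} (hc : 0 < c) (hτ : 0 ≤ τ) (hR : 0 < R₀) (j : ℕ) :
    tw b c τ R₀ (j + 1) ≤ tw b c τ R₀ j ∧ tw b c τ R₀ j ≤ b := by
  have h1 : ∀ j : ℕ, 0 ≤ c * (2 ^ j * R₀) ^ τ := fun j => by positivity
  cases j with
  | zero =>
    simp only [tw]
    exact ⟨by linarith [h1 0], le_rfl⟩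
  | succ m =>
    simp only [tw]
    refine ⟨?_, by linarith [h1 m]⟩
    have h2 : (2 ^ m * R₀) ^ τ ≤ (2 ^ (m + 1) * R₀) ^ τ := by
      refine Real.rpow_le_rpow (by positivity) ?_ hτ
      rw [pow_succ]
      have : 0 < (2 : ℝ) ^ m * R₀ := by positivity
      nlinarith
    have h3 := mul_le_mul_of_nonneg_left h2 hc.le
    linarith

theorem sum_all {f : ℝ → V → ℝ} (hf : SolP f) {b : ℝ} (hb : b < 0) (hi : Integrable (f b))
    {β τ : ℝ} (hβ : 0 < β) (hβ2 : β ≤ 2) (hτ2 : 2 ≤ τ) (hτ : τ ≤ 3)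
    (hW : ∃ c' C' R₀ l : ℝ, 0 < c' ∧ 0 < C' ∧ 1 ≤ R₀ ∧ 0 < l ∧ ∀ R : ℝ, R₀ ≤ R →
      ∀ t ∈ Icc (b - c' * R ^ τ) b, ∃ D : ℝ, HasDerivAt (JR f R) D t ∧
        D ≤ -(l * Po (f t) (R / 2) * (max 0 (JR f R t - C' * R ^ (1 - τ + β / 6))) ^ 2)
          + C' * R ^ (-τ - β / 6) * JR f R t + C' * R ^ (-τ - β / 6)) :
    ∃ c₀ R₁ S : ℝ, 0 < c₀ ∧ 1 ≤ R₁ ∧ 0 < S ∧ ∀ c R₀ : ℝ, 0 < c → c ≤ c₀ → R₁ ≤ R₀ → ∀ n : ℕ,
      ∑ j ∈ Finset.range n, ∫ t in (tw b c τ R₀ (j + 1))..(tw b c τ R₀ j),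
        Po (f t) (2 ^ j * R₀ / 2) ≤ S := by
  obtain ⟨c', C', Rw, l, hc', hC', hRw, hl, hW⟩ := hW
  have hDb := hsa_Dn hf hb
  obtain ⟨ρ, hρ, hj⟩ := JB_pos_ex hDb
  obtain ⟨j₀, hj₀⟩ : ∃ j₀, j₀ = JB (f b) 0 ρ := ⟨_, rfl⟩
  rw [← hj₀] at hj
  obtain ⟨q, hq⟩ : ∃ q : ℝ, q = (2 : ℝ) ^ (-(β / 6)) := ⟨_, rfl⟩
  have hq0 : 0 < q := by rw [hq]; positivity
  have hq1 : q < 1 := by
    rw [hq]
    exact Real.rpow_lt_one_of_one_lt_of_neg (by norm_num) (by linarith)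
  obtain ⟨k₀, hk₀⟩ : ∃ k₀ : ℝ, k₀ = min (1 / 20) (j₀ / 20) := ⟨_, rfl⟩
  have hk0 : 0 < k₀ := by rw [hk₀]; exact lt_min (by norm_num) (by linarith)
  have hk1 : k₀ ≤ 1 / 20 := by rw [hk₀]; exact min_le_left _ _
  have hk2 : 2 * k₀ ≤ j₀ / 10 := by
    have : k₀ ≤ j₀ / 20 := by rw [hk₀]; exact min_le_right _ _
    linarith
  have hexp : Real.exp k₀ ≤ 11 / 10 := by
    refine (Real.exp_le_exp.2 hk1).trans ?_
    have := Real.exp_bound_div_one_sub_of_interval (x := 1 / 20) (by norm_num) (by norm_num)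
    refine this.trans ?_
    norm_num
  obtain ⟨Ra, hRa⟩ := hsa_small (C := C') (y := τ - 1 - β / 6) (ε := j₀ / 10)
    (by linarith) (by linarith)
  obtain ⟨Rb, hRb⟩ := hsa_small (C := C') (y := β / 6) (ε := k₀ * (1 - q))
    (by linarith) (mul_pos hk0 (by linarith))
  refine ⟨min c' 1, max (max Rw ρ) (max (max Ra Rb) 1), 4 / (l * j₀), lt_min hc' one_pos,
    le_max_of_le_right (le_max_right _ _), by positivity, ?_⟩
  intro c R₀ hc hcc hR n
  have hcc' : c ≤ c' := hcc.trans (min_le_left _ _)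
  have hc1 : c ≤ 1 := hcc.trans (min_le_right _ _)
  have r1 : Rw ≤ R₀ := ((le_max_left _ _).trans (le_max_left _ _)).trans hR
  have r2 : ρ ≤ R₀ := ((le_max_right _ _).trans (le_max_left _ _)).trans hR
  have r3 : Ra ≤ R₀ := (((le_max_left _ _).trans (le_max_left _ _)).trans (le_max_right _ _)).trans hR
  have r4 : Rb ≤ R₀ := (((le_max_right _ _).trans (le_max_left _ _)).trans (le_max_right _ _)).trans hR
  have hR0 : 0 < R₀ := by linarith
  have hRj : ∀ j : ℕ, R₀ ≤ 2 ^ j * R₀ := fun j => by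
    have : (1 : ℝ) ≤ 2 ^ j := one_le_pow₀ (by norm_num)
    nlinarith
  have htw := fun j => hsa_tw (b := b) hc (by linarith : (0 : ℝ) ≤ τ) hR0 j
  obtain ⟨μ, hμ⟩ : ∃ μ : ℕ → ℝ, μ = fun j => C' * (2 ^ j * R₀) ^ (-τ - β / 6) := ⟨_, rfl⟩
  have hμ0 : ∀ j, 0 ≤ μ j := fun j => by rw [hμ]; positivity
  obtain ⟨κ, hκ⟩ : ∃ κ : ℕ → ℝ, κ = fun j =>
    ∫ _t in (tw b c τ R₀ (j + 1))..(tw b c τ R₀ j), μ j := ⟨_, rfl⟩
  have hκe : ∀ j, κ j = (tw b c τ R₀ j - tw b c τ R₀ (j + 1)) * μ j := fun j => by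
    rw [hκ]
    simp only [intervalIntegral.integral_const, smul_eq_mul]
  have hκ0 : ∀ j, 0 ≤ κ j := fun j => by
    rw [hκe]
    exact mul_nonneg (by linarith [(htw j).1]) (hμ0 j)
  have hκ1 : ∀ j, κ j ≤ C' * R₀ ^ (-(β / 6)) * q ^ j := fun j => by
    rw [hκe, hq, ← hsa_pow (τ := τ) hR0 j]
    have e1 : tw b c τ R₀ j - tw b c τ R₀ (j + 1) ≤ (2 ^ j * R₀) ^ τ := by
      have e2 : tw b c τ R₀ (j + 1) = b - c * (2 ^ j * R₀) ^ τ := rfl
      rw [e2]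
      have e3 := (htw j).2
      have e4 : c * (2 ^ j * R₀) ^ τ ≤ 1 * (2 ^ j * R₀) ^ τ :=
        mul_le_mul_of_nonneg_right hc1 (by positivity)
      linarith
    have e5 := mul_le_mul_of_nonneg_right e1 (hμ0 j)
    rw [hμ] at e5 ⊢
    exact e5
  have hκs : ∀ n, ∑ i ∈ Finset.range n, κ i ≤ k₀ := fun n => by
    have e1 : ∑ i ∈ Finset.range n, κ i ≤ C' * R₀ ^ (-(β / 6)) * ∑ i ∈ Finset.range n, q ^ i := by
      rw [Finset.mul_sum]
      exact Finset.sum_le_sum fun i _ => hκ1 i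
    have e2 := mul_neg_geom_sum q n
    have e3 : 0 ≤ ∑ i ∈ Finset.range n, q ^ i := Finset.sum_nonneg fun i _ => by positivity
    have e4 := hRb R₀ r4
    have e5 : C' * R₀ ^ (-(β / 6)) * ∑ i ∈ Finset.range n, q ^ i ≤
        k₀ * (1 - q) * ∑ i ∈ Finset.range n, q ^ i := mul_le_mul_of_nonneg_right e4 e3
    have e6 : 0 ≤ q ^ n := by positivity
    have e7 : k₀ * (1 - q) * ∑ i ∈ Finset.range n, q ^ i = k₀ * (1 - q ^ n) := by
      rw [mul_assoc, e2]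
    nlinarith
  obtain ⟨z, hz⟩ : ∃ z : ℕ → ℝ, z = fun n => Real.exp (∑ i ∈ Finset.range n, κ i) *
    JR f (2 ^ n * R₀) (tw b c τ R₀ n) + 2 * ∑ i ∈ Finset.range n, κ i := ⟨_, rfl⟩
  have hz0 : j₀ ≤ z 0 := by
    rw [hz]
    simp only [Finset.range_zero, Finset.sum_empty, Real.exp_zero, one_mul, mul_zero, add_zero,
      pow_zero]
    rw [hj₀]
    exact hsa_JB hDb hR0 r2
  have main : ∀ n, j₀ ≤ z n ∧ (1 / 4) * (l * ∑ j ∈ Finset.range n,
      ∫ t in (tw b c τ R₀ (j + 1))..(tw b c τ R₀ j), Po (f t) (2 ^ j * R₀ / 2)) ≤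
      1 / z 0 - 1 / z n := by
    intro n
    induction n with
    | zero =>
      refine ⟨hz0, ?_⟩
      simp
    | succ m ih =>
      obtain ⟨ih1, ih2⟩ := ih
      obtain ⟨w1, w2⟩ := htw m
      have hRm := hRj m
      have hRm0 : (0 : ℝ) < 2 ^ m * R₀ := by positivity
      have hsub : ∀ t ∈ Icc (tw b c τ R₀ (m + 1)) (tw b c τ R₀ m),
          t ∈ Icc (b - c' * (2 ^ m * R₀) ^ τ) b := by
        intro t ht
        have e2 : tw b c τ R₀ (m + 1) = b - c * (2 ^ m * R₀) ^ τ := rfl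
        have e4 : c * (2 ^ m * R₀) ^ τ ≤ c' * (2 ^ m * R₀) ^ τ :=
          mul_le_mul_of_nonneg_right hcc' (by positivity)
        have h1 := ht.1
        have h2 := ht.2
        rw [e2] at h1
        exact ⟨by linarith, by linarith⟩
      have hneg : ∀ t ∈ Icc (tw b c τ R₀ (m + 1)) (tw b c τ R₀ m), t < 0 := fun t ht => by
        have := (hsub t ht).2
        linarith
      have hκm : ∫ _t in (tw b c τ R₀ (m + 1))..(tw b c τ R₀ m), μ m = κ m := by rw [hκ]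
      have hexps : Real.exp (∑ i ∈ Finset.range m, κ i) * Real.exp (κ m) =
          Real.exp (∑ i ∈ Finset.range (m + 1), κ i) := by
        rw [← Real.exp_add, Finset.sum_range_succ]
      have key := ode_win (tw b c τ R₀ (m + 1)) (tw b c τ R₀ m)
        (C' * (2 ^ m * R₀) ^ (1 - τ + β / 6)) j₀ (Real.exp (∑ i ∈ Finset.range m, κ i))
        (2 * ∑ i ∈ Finset.range m, κ i) (JR f (2 ^ m * R₀)) (deriv (JR f (2 ^ m * R₀)))
        (fun t => l * Po (f t) (2 ^ m * R₀ / 2)) (fun _ => μ m) (fun _ => μ m) w1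
        (by positivity) hj
        (Real.one_le_exp (Finset.sum_nonneg fun i _ => hκ0 i))
        (mul_nonneg zero_le_two (Finset.sum_nonneg fun i _ => hκ0 i))
        (continuousOn_const.mul ((Po_cont hf.sol hb.le hi (by positivity)).mono
          fun t ht => (hneg t ht).le))
        continuousOn_const continuousOn_const
        (fun t ht => mul_nonneg hl.le (Po_nonneg (hsa_Dn hf (hneg t ht)).cls _))
        (fun _ _ => hμ0 m) (fun _ _ => hμ0 m)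
        (fun t ht => FJ_nonneg (hsa_Dn hf (hneg t ht)) fun v => by
          rw [hsa_wt]
          exact pow_nonneg (chi_nonneg _ v) 6)
        (fun t ht => by
          obtain ⟨D, hD1, -⟩ := hW (2 ^ m * R₀) (r1.trans hRm) t (hsub t ht)
          rw [hD1.deriv]
          exact hD1)
        (fun t ht => by
          obtain ⟨D, hD1, hD2⟩ := hW (2 ^ m * R₀) (r1.trans hRm) t (hsub t ht)
          rw [hD1.deriv]
          rw [hμ]
          exact hD2)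
        (by rw [hz] at ih1; exact ih1)
        (by
          have e1 := hRa (2 ^ m * R₀) (r3.trans hRm)
          have e2 : (1 - τ + β / 6) = -(τ - 1 - β / 6) := by ring
          rw [e2]
          exact e1)
        (by
          rw [hκm, hexps]
          exact (Real.exp_le_exp.2 (hκs (m + 1))).trans hexp)
        (by
          rw [hκm]
          have e1 := hκs (m + 1)
          rw [Finset.sum_range_succ] at e1
          linarith)
      rw [hκm, hexps] at key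
      obtain ⟨k1, k2, k3⟩ := key
      have hzm : Real.exp (∑ i ∈ Finset.range m, κ i) * JR f (2 ^ m * R₀) (tw b c τ R₀ m) +
          2 * ∑ i ∈ Finset.range m, κ i = z m := by rw [hz]
      rw [hzm] at k2 k3
      obtain ⟨Y, hY⟩ : ∃ Y, Y = Real.exp (∑ i ∈ Finset.range (m + 1), κ i) *
          JR f (2 ^ m * R₀) (tw b c τ R₀ (m + 1)) +
          (2 * ∑ i ∈ Finset.range m, κ i + 2 * κ m) := ⟨_, rfl⟩
      rw [← hY] at k1 k2 k3
      have hYz : Y ≤ z (m + 1) := by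
        rw [hY, hz]
        have e1 := JR_mono hf hRm0 (hneg (tw b c τ R₀ (m + 1)) (left_mem_Icc.2 w1))
        have e2 : (2 : ℝ) * (2 ^ m * R₀) = 2 ^ (m + 1) * R₀ := by ring
        rw [e2] at e1
        have e3 := mul_le_mul_of_nonneg_left e1
          (Real.exp_pos (∑ i ∈ Finset.range (m + 1), κ i)).le
        simp only
        have e4 : 2 * ∑ i ∈ Finset.range (m + 1), κ i =
            2 * ∑ i ∈ Finset.range m, κ i + 2 * κ m := by
          rw [Finset.sum_range_succ]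
          ring
        rw [e4]
        linarith
      have hinv : 1 / z (m + 1) ≤ 1 / Y := one_div_le_one_div_of_le k1 hYz
      refine ⟨ih1.trans (k2.trans hYz), ?_⟩
      rw [Finset.sum_range_succ]
      rw [intervalIntegral.integral_const_mul] at k3
      linarith
  obtain ⟨m1, m2⟩ := main n
  have h1 : 0 ≤ 1 / z n := by
    have : 0 < z n := by linarith
    positivity
  have h2 : 1 / z 0 ≤ 1 / j₀ := one_div_le_one_div_of_le hj hz0
  rw [le_div_iff₀ (by positivity)]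
  have h3 : (1 / 4) * (l * ∑ j ∈ Finset.range n,
      ∫ t in (tw b c τ R₀ (j + 1))..(tw b c τ R₀ j), Po (f t) (2 ^ j * R₀ / 2)) ≤ 1 / j₀ := by
    linarith
  rw [le_div_iff₀ hj] at h3
  linarith

end Pool.Agent.LandauF
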