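import Pool.Agent.LandauF.HPsR
import Pool.Agent.LandauF.HSumA

/-!
# LandauF, module HMomM: the moment of order `τ - 1` is finite

`R_j = 2^j R₀`, `W_j = [tw (j+1), tw j]`, `x_j = ∫_{W_j} Po (f t) (R_j/2) dt ≥ 0`, `∑_{j<n} x_j ≤ S` for all `n`.  `N = ∫ f b` is the integral
of all `f t` (`mass_at`).  For `j ≥ 1` choose `t_j ∈ W_j` with `|W_j| Po (f t_j) (R_j/2) ≤ x_j` (continuity, `Po_cont`; minimum of the
continuous function), `|W_j| = c (R_j^τ - R_{j-1}^τ) ≥ (3/4) c R_j^τ` (`2^(-τ) ≤ 1/4`); `t_0 = b`.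
Fix `n > 0` and put `q_j t = ∫ psM τ R_{j+1} n f t`.
(a) `q_j = 0` if `R_{j+1} ≥ 2 n` (where `chi n v ≠ 0`, `‖v‖ < 2n ≤ R_{j+1}` and `chi R_{j+1} v = 1`).
(b) on `[t_{j+1}, t_j] ⊆ W_{j+1} ∪ W_j`: `psi_rate` (with `R = R_{j+1}`; the tail hypothesis is `hTl` for `j + 1`),
`Po (f t) R_{j+1} ≤ Po (f t) (R_{j+1}/2)` and `≤ Po (f t) (R_j/2)` (`Po_anti`): `q_j t_j ≤ q_j t_{j+1} + C (x_{j+1} + x_j)`.
(The derivative of `q_j` is `∫ psM QL (f t)` by `timeW_deriv`; integrate the inequality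
`q_j' ≤ C Po (f t) R_{j+1}`, the right side continuous; `image_le_of_deriv_right_le_deriv_boundary` or a comparison with the
primitive of the right side.)
(c) `q_j t_{j+1} - q_{j+1} t_{j+1} = ∫ (chi (2R) - chi R) chi n ‖v‖^(τ-1) f`, `R = R_{j+1}`, is at most
`∫_{R ≤ ‖v‖ ≤ 4R} ‖v‖^τ f/‖v‖ ≤ (4R)^τ Po (f t_{j+1}) R ≤ 64 R^τ x_{j+1}/|W_{j+1}| ≤ (86/c) x_{j+1}`.
Sum over `j` up to the index in (a): `q_0 b ≤ (2 C + 86/c) S`, for every `n`.  Let `n → ∞` (Fatou or monotone convergence along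
integers `n`; `chi n v = 1` for `n ≥ ‖v‖`): `(1 - chi R_1) ‖v‖^(τ-1) f b` is integrable, and
`chi R_1 ‖v‖^(τ-1) f b` is continuous with compact support.
-/

set_option autoImplicit false

namespace Pool.Agent.LandauF

open MeasureTheory Set Filter Topology Pool.Agent.Landau

private theorem mm_meas (R : ℝ) : MeasurableSet {w : V | R ≤ ‖w‖} :=
  measurableSet_le measurable_const measurable_norm

private theorem mm_ps_int {g : V → ℝ} (hg : Clw g) {τ R n : ℝ} (hR : 0 < R) (hn : 0 < n) :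
    Integrable (fun v => psM τ R n v * g v) :=
  ((psM_smooth hR hn).continuous.mul hg.cont).integrable_of_hasCompactSupport
    ((psM_compact hR hn).mul_right)

private theorem mm_ps_nonneg {τ R n : ℝ} (v : V) : 0 ≤ psM τ R n v := by
  unfold psM
  have h1 := chi_le_one R v
  have h2 := chi_nonneg n v
  have h3 : 0 ≤ 1 - chi R v := by linarith
  positivity

private theorem mm_ps_small {τ R n : ℝ} (hR : 0 < R) {v : V} (h : ‖v‖ ≤ R) : psM τ R n v = 0 := by
  unfold psM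
  rw [chi_one hR h]
  ring

private theorem mm_ps_zero {τ R n : ℝ} (hR : 0 < R) (hn : 0 < n) (h : 2 * n ≤ R) (v : V) :
    psM τ R n v = 0 := by
  rcases le_or_gt ‖v‖ R with h1 | h1
  · exact mm_ps_small hR h1
  · unfold psM
    rw [chi_zero hn (h.trans h1.le)]
    ring

private theorem mm_shift {g : V → ℝ} (hg : Clw g) {τ R n : ℝ} (hτ2 : 2 ≤ τ) (hτ : τ ≤ 3)
    (hR : 0 < R) (hn : 0 < n) :
    ∫ v, psM τ R n v * g v ≤ (∫ v, psM τ (2 * R) n v * g v) + 64 * R ^ τ * Po g R := by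
  have hI1 := mm_ps_int hg (τ := τ) hR hn
  have hI2 := mm_ps_int hg (τ := τ) (R := 2 * R) (by linarith) hn
  have hP := Po_int hg hR
  have hRτ : 0 < R ^ τ := Real.rpow_pos_of_pos hR _
  have e : 64 * R ^ τ * Po g R =
      ∫ v, {w : V | R ≤ ‖w‖}.indicator (fun w => 64 * R ^ τ * (g w / ‖w‖)) v := by
    rw [integral_indicator (mm_meas R), Po, integral_const_mul]
  have hP' : Integrable ({w : V | R ≤ ‖w‖}.indicator (fun w => 64 * R ^ τ * (g w / ‖w‖))) :=
    (integrable_indicator_iff (mm_meas R)).2 (hP.const_mul _)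
  rw [e, ← integral_add hI2 hP']
  refine integral_mono hI1 (hI2.add hP') fun v => ?_
  have h0 : 0 ≤ g v := hg.nonneg v
  simp only
  rcases lt_or_ge ‖v‖ R with h | h
  · rw [mm_ps_small hR h.le, zero_mul]
    refine add_nonneg (mul_nonneg (mm_ps_nonneg v) h0) ?_
    refine indicator_nonneg (fun w _ => ?_) v
    have := hg.nonneg w
    positivity
  · rw [indicator_of_mem (show v ∈ {w : V | R ≤ ‖w‖} from h)]
    have hv : 0 < ‖v‖ := lt_of_lt_of_le hR h
    rcases le_or_gt (4 * R) ‖v‖ with h2 | h2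
    · have h3 : psM τ R n v = psM τ (2 * R) n v := by
        unfold psM
        rw [chi_zero hR (by linarith), chi_zero (by linarith : 0 < 2 * R) (by linarith)]
      rw [h3]
      have : 0 ≤ 64 * R ^ τ * (g v / ‖v‖) := by positivity
      linarith
    · have h3 : psM τ R n v - psM τ (2 * R) n v ≤ ‖v‖ ^ (τ - 1) := by
        unfold psM
        have a1 := chi_nonneg R v
        have a2 := chi_le_one (2 * R) v
        have a3 := chi_nonneg n v
        have a4 := chi_le_one n v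
        have a5 := chi_mono hR le_rfl v
        have a6 : 0 ≤ ‖v‖ ^ (τ - 1) := Real.rpow_nonneg hv.le _
        have a7 : (chi (2 * R) v - chi R v) * chi n v ≤ 1 := by
          have b1 : chi (2 * R) v - chi R v ≤ 1 := by linarith
          have b2 : 0 ≤ chi (2 * R) v - chi R v := by linarith
          calc (chi (2 * R) v - chi R v) * chi n v ≤ 1 * 1 :=
                mul_le_mul b1 a4 a3 (by norm_num)
            _ = 1 := by norm_num
        calc (1 - chi R v) * chi n v * ‖v‖ ^ (τ - 1) -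
              (1 - chi (2 * R) v) * chi n v * ‖v‖ ^ (τ - 1)
            = ((chi (2 * R) v - chi R v) * chi n v) * ‖v‖ ^ (τ - 1) := by ring
          _ ≤ 1 * ‖v‖ ^ (τ - 1) := mul_le_mul_of_nonneg_right a7 a6
          _ = ‖v‖ ^ (τ - 1) := one_mul _
      have h4 : ‖v‖ ^ (τ - 1) ≤ 64 * R ^ τ / ‖v‖ := by
        rw [Real.rpow_sub_one hv.ne']
        refine div_le_div_of_nonneg_right ?_ hv.le
        have b1 : ‖v‖ ^ τ ≤ (4 * R) ^ τ := Real.rpow_le_rpow hv.le h2.le (by linarith)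
        have b2 : (4 * R) ^ τ = 4 ^ τ * R ^ τ := Real.mul_rpow (by norm_num) hR.le
        have b3 : (4 : ℝ) ^ τ ≤ 4 ^ (3 : ℝ) :=
          Real.rpow_le_rpow_of_exponent_le (by norm_num) hτ
        have b4 : (4 : ℝ) ^ (3 : ℝ) = 64 := by norm_num
        rw [b2] at b1
        rw [b4] at b3
        exact b1.trans (mul_le_mul_of_nonneg_right b3 hRτ.le)
      have h5 := mul_le_mul_of_nonneg_right (h3.trans h4) h0
      have h6 : 64 * R ^ τ / ‖v‖ * g v = 64 * R ^ τ * (g v / ‖v‖) := by ring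
      rw [h6] at h5
      linarith

private theorem mm_pick {φ : ℝ → ℝ} {α β : ℝ} (h : α ≤ β) (hφ : ContinuousOn φ (Icc α β)) :
    ∃ t ∈ Icc α β, (β - α) * φ t ≤ ∫ s in α..β, φ s := by
  obtain ⟨t, ht, hmin⟩ := isCompact_Icc.exists_isMinOn (nonempty_Icc.2 h) hφ
  refine ⟨t, ht, ?_⟩
  have h1 : ∫ _ in α..β, φ t = (β - α) * φ t := by
    rw [intervalIntegral.integral_const, smul_eq_mul]
  rw [← h1]
  refine intervalIntegral.integral_mono_on h intervalIntegrable_const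
    (hφ.intervalIntegrable_of_Icc h) fun x hx => ?_
  exact hmin hx

private theorem mm_int {f : ℝ → V → ℝ} (hf : SolW f)
    (hP : ∀ R : ℝ, 0 < R → ContinuousOn (fun t => Po (f t) R) (Iic 0))
    {α a b' β ρ R : ℝ} (h1 : α ≤ a) (h2 : a ≤ b') (h3 : b' ≤ β) (h4 : β ≤ 0) (hρ : 0 < ρ)
    (hR : ρ ≤ R) : ∫ s in a..b', Po (f s) R ≤ ∫ s in α..β, Po (f s) ρ := by
  have c1 : ContinuousOn (fun t => Po (f t) R) (Icc a b') :=
    (hP R (by linarith)).mono fun x hx => hx.2.trans (h3.trans h4)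
  have c2 : ContinuousOn (fun t => Po (f t) ρ) (Icc a b') :=
    (hP ρ hρ).mono fun x hx => hx.2.trans (h3.trans h4)
  have c3 : ContinuousOn (fun t => Po (f t) ρ) (Icc α β) :=
    (hP ρ hρ).mono fun x hx => hx.2.trans h4
  have e1 : ∫ s in a..b', Po (f s) R ≤ ∫ s in a..b', Po (f s) ρ := by
    refine intervalIntegral.integral_mono_on h2 (c1.intervalIntegrable_of_Icc h2)
      (c2.intervalIntegrable_of_Icc h2) fun x hx => ?_
    exact Po_anti (hf.cls x (hx.2.trans (h3.trans h4))) hρ hR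
  refine e1.trans ?_
  refine intervalIntegral.integral_mono_interval h1 h2 h3 ?_
    (c3.intervalIntegrable_of_Icc (h1.trans (h2.trans h3)))
  rw [Filter.EventuallyLE, ae_restrict_iff' measurableSet_Ioc]
  exact Eventually.of_forall fun x hx => Po_nonneg (hf.cls x (hx.2.trans h4)) ρ

private theorem mm_tw {b c τ R₀ : ℝ} (hτ2 : 2 ≤ τ) (hc : 0 < c) (hR : 1 ≤ R₀) (j : ℕ) :
    3 / 4 * c * (2 ^ j * R₀) ^ τ ≤ tw b c τ R₀ j - tw b c τ R₀ (j + 1) := by
  have hR0 : 0 < R₀ := by linarith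
  have hp : ∀ j : ℕ, 0 < (2 ^ j * R₀ : ℝ) ^ τ := fun j => Real.rpow_pos_of_pos (by positivity) _
  cases j with
  | zero =>
    have h1 := mul_pos hc (hp 0)
    simp only [tw]
    generalize (2 ^ 0 * R₀ : ℝ) ^ τ = P at h1 ⊢
    linarith
  | succ j =>
    have h1 : (2 ^ (j + 1) * R₀ : ℝ) ^ τ = 2 ^ τ * (2 ^ j * R₀) ^ τ := by
      rw [← Real.mul_rpow (by norm_num) (by positivity)]
      congr 1
      ring
    have h2 : (2 : ℝ) ^ (2 : ℝ) ≤ 2 ^ τ := Real.rpow_le_rpow_of_exponent_le (by norm_num) hτ2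
    have h3 : (2 : ℝ) ^ (2 : ℝ) = 4 := by norm_num
    rw [h3] at h2
    have h4 : 4 * (2 ^ j * R₀ : ℝ) ^ τ ≤ (2 ^ (j + 1) * R₀) ^ τ := by
      rw [h1]
      exact mul_le_mul_of_nonneg_right h2 (hp j).le
    have h5 := mul_le_mul_of_nonneg_left h4 hc.le
    simp only [tw]
    linarith

private theorem mm_tw_le {b c τ R₀ : ℝ} (hc : 0 < c) (hR : 1 ≤ R₀) (j : ℕ) :
    tw b c τ R₀ j ≤ b := by
  cases j with
  | zero => exact le_rfl
  | succ j =>
    have h1 : 0 ≤ c * (2 ^ j * R₀) ^ τ :=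
      mul_nonneg hc.le (Real.rpow_nonneg (by positivity) _)
    simp only [tw]
    linarith

private theorem mm_limit {g : V → ℝ} (hg : Clw g) (hi : Integrable g) {τ R B : ℝ}
    (hτ2 : 2 ≤ τ) (hR : 0 < R)
    (h : ∀ n : ℕ, ∫ v, psM τ R ((n : ℝ) + 1) v * g v ≤ B) : Mo (τ - 1) g := by
  have hc : Continuous (fun v : V => ‖v‖ ^ (τ - 1) * g v) :=
    (continuous_norm.rpow_const fun _ => Or.inr (by linarith)).mul hg.cont
  have htop : Tendsto (fun n : ℕ => (n : ℝ) + 1) atTop atTop :=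
    tendsto_atTop_add_const_right _ _ tendsto_natCast_atTop_atTop
  have hcov : AECover (volume : Measure V) atTop
      (fun n : ℕ => Metric.closedBall (0 : V) ((n : ℝ) + 1)) := aecover_closedBall htop
  have hm : ∀ r : ℝ, MeasurableSet (Metric.closedBall (0 : V) r) :=
    fun r => Metric.isClosed_closedBall.measurableSet
  refine hcov.integrable_of_integral_bounded_of_nonneg_ae
    (B + (2 * R) ^ (τ - 1) * ∫ v, g v)
    (fun n => hc.continuousOn.integrableOn_compact (isCompact_closedBall _ _))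
    (Eventually.of_forall fun v => mul_nonneg (Real.rpow_nonneg (norm_nonneg v) _) (hg.nonneg v))
    (Eventually.of_forall fun n => ?_)
  have hn : (0 : ℝ) < (n : ℝ) + 1 := by positivity
  have hI := mm_ps_int hg (τ := τ) hR hn
  have hI2 : Integrable (fun v => (2 * R) ^ (τ - 1) * g v) := hi.const_mul _
  calc ∫ v in Metric.closedBall (0 : V) ((n : ℝ) + 1), ‖v‖ ^ (τ - 1) * g v
      ≤ ∫ v in Metric.closedBall (0 : V) ((n : ℝ) + 1),
          (psM τ R ((n : ℝ) + 1) v * g v + (2 * R) ^ (τ - 1) * g v) := by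
        refine setIntegral_mono_on
          (hc.continuousOn.integrableOn_compact (isCompact_closedBall _ _))
          (hI.add hI2).integrableOn (hm _) fun v hv => ?_
        rw [mem_closedBall_zero_iff] at hv
        have h0 := hg.nonneg v
        have a1 := chi_nonneg R v
        have a2 := chi_le_one R v
        have a6 : 0 ≤ ‖v‖ ^ (τ - 1) := Real.rpow_nonneg (norm_nonneg v) _
        have h1 : chi R v * ‖v‖ ^ (τ - 1) ≤ (2 * R) ^ (τ - 1) := by
          rcases le_or_gt (2 * R) ‖v‖ with h2 | h2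
          · rw [chi_zero hR h2, zero_mul]
            positivity
          · have h3 : ‖v‖ ^ (τ - 1) ≤ (2 * R) ^ (τ - 1) :=
              Real.rpow_le_rpow (norm_nonneg v) h2.le (by linarith)
            calc chi R v * ‖v‖ ^ (τ - 1) ≤ 1 * ‖v‖ ^ (τ - 1) :=
                  mul_le_mul_of_nonneg_right a2 a6
              _ ≤ (2 * R) ^ (τ - 1) := by rw [one_mul]; exact h3
        have h4 : psM τ R ((n : ℝ) + 1) v = ‖v‖ ^ (τ - 1) - chi R v * ‖v‖ ^ (τ - 1) := by
          unfold psM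
          rw [chi_one hn hv]
          ring
        rw [h4]
        nlinarith
    _ ≤ ∫ v, (psM τ R ((n : ℝ) + 1) v * g v + (2 * R) ^ (τ - 1) * g v) := by
        refine setIntegral_le_integral (hI.add hI2) (Eventually.of_forall fun v => ?_)
        have h0 := hg.nonneg v
        have h1 := mm_ps_nonneg (τ := τ) (R := R) (n := (n : ℝ) + 1) v
        have h2 : 0 ≤ (2 * R) ^ (τ - 1) := by positivity
        exact add_nonneg (mul_nonneg h1 h0) (mul_nonneg h2 h0)
    _ = (∫ v, psM τ R ((n : ℝ) + 1) v * g v) + (2 * R) ^ (τ - 1) * ∫ v, g v := by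
        rw [integral_add hI hI2, integral_const_mul]
    _ ≤ _ := by linarith [h n]

theorem mom_final {f : ℝ → V → ℝ} (hf : SolP f) {b : ℝ} (hb : b < 0) (hi : Integrable (f b))
    {β τ c R₀ CT S : ℝ} (hβ : 0 < β) (hβ2 : β ≤ 2) (hτ2 : 2 ≤ τ) (hτ : τ ≤ 3)
    (hτβ : τ ≤ 2 + 2 * β / 3) (hc : 0 < c) (hR : 1 ≤ R₀) (hCT : 0 < CT) (hS : 0 < S)
    (hTl : ∀ j : ℕ, ∀ t ∈ Icc (tw b c τ R₀ (j + 1)) b, ∀ ρ : ℝ, 2 ^ j * R₀ / 2 ≤ ρ →
      mT (f t) ρ ≤ CT * ρ ^ (-β))
    (hSum : ∀ n : ℕ, ∑ j ∈ Finset.range n, ∫ t in (tw b c τ R₀ (j + 1))..(tw b c τ R₀ j),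
      Po (f t) (2 ^ j * R₀ / 2) ≤ S) : Mo (τ - 1) (f b) := by
  have hR0 : 0 < R₀ := by linarith
  have hN0 : 0 ≤ ∫ v, f b v := integral_nonneg (hf.sol.cls b hb.le).nonneg
  have hmass : ∀ t ≤ 0, Integrable (f t) ∧ ∫ v, f t v = ∫ v, f b v := fun t ht =>
    mass_at f hf.sol b t hb.le ht hi
  obtain ⟨C, hC, hrate⟩ := psi_rate hτ2 hτ hβ hτβ (by linarith : 0 < (∫ v, f b v) + 1) hCT
  have hP : ∀ R : ℝ, 0 < R → ContinuousOn (fun t => Po (f t) R) (Iic 0) :=
    fun R hR => Po_cont hf.sol hb.le hi hR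
  have hRj : ∀ j : ℕ, (1 : ℝ) ≤ 2 ^ j * R₀ := fun j => by
    have h1 : (1 : ℝ) ≤ 2 ^ j := one_le_pow₀ (by norm_num)
    nlinarith
  have hRj0 : ∀ j : ℕ, (0 : ℝ) < 2 ^ j * R₀ := fun j => by linarith [hRj j]
  have hsucc : ∀ j : ℕ, (2 : ℝ) ^ (j + 1) * R₀ = 2 * (2 ^ j * R₀) := fun j => by ring
  have hpw : ∀ j : ℕ, 0 < (2 ^ j * R₀ : ℝ) ^ τ := fun j => Real.rpow_pos_of_pos (hRj0 j) _
  have htb : ∀ j, tw b c τ R₀ j ≤ b := mm_tw_le hc hR
  have htw := mm_tw (b := b) hτ2 hc hR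
  have hts : ∀ j, tw b c τ R₀ (j + 1) ≤ tw b c τ R₀ j := fun j => by
    have h1 := htw j
    have h2 : 0 < 3 / 4 * c * (2 ^ j * R₀) ^ τ := by
      have := hpw j
      positivity
    linarith
  obtain ⟨x, hx⟩ : ∃ x : ℕ → ℝ, x = fun j => ∫ t in (tw b c τ R₀ (j + 1))..(tw b c τ R₀ j),
      Po (f t) (2 ^ j * R₀ / 2) := ⟨_, rfl⟩
  have hx0 : ∀ j, 0 ≤ x j := by
    intro j
    rw [hx]
    exact intervalIntegral.integral_nonneg (hts j) fun t ht =>
      Po_nonneg (hf.sol.cls t (ht.2.trans ((htb j).trans hb.le))) _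
  have hpick : ∀ j, ∃ t ∈ Icc (tw b c τ R₀ (j + 1)) (tw b c τ R₀ j),
      3 / 4 * c * (2 ^ j * R₀) ^ τ * Po (f t) (2 ^ j * R₀ / 2) ≤ x j := by
    intro j
    obtain ⟨t, ht, h1⟩ := mm_pick (φ := fun t => Po (f t) (2 ^ j * R₀ / 2)) (hts j)
      ((hP _ (by linarith [hRj0 j])).mono fun y hy => hy.2.trans ((htb j).trans hb.le))
    refine ⟨t, ht, ?_⟩
    have h2 : 0 ≤ Po (f t) (2 ^ j * R₀ / 2) :=
      Po_nonneg (hf.sol.cls t (ht.2.trans ((htb j).trans hb.le))) _
    rw [hx]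
    exact (mul_le_mul_of_nonneg_right (htw j) h2).trans h1
  -- the main chain
  have main : ∀ n : ℝ, 0 < n →
      ∫ v, psM τ (2 ^ 1 * R₀) n v * f b v ≤ (86 / c + 2 * C) * S := by
    intro n hn
    -- (b)
    have hB : ∀ J : ℕ, ∀ t ∈ Icc (tw b c τ R₀ (J + 1)) (tw b c τ R₀ J),
        ∀ t' ∈ Icc (tw b c τ R₀ (J + 1 + 1)) (tw b c τ R₀ (J + 1)),
        ∫ v, psM τ (2 ^ (J + 1) * R₀) n v * f t v ≤
          (∫ v, psM τ (2 ^ (J + 1) * R₀) n v * f t' v) + C * (x (J + 1) + x J) := by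
      intro J t ht t' ht'
      have hR' := hRj0 (J + 1)
      have htt : t' ≤ t := ht'.2.trans ht.1
      have htb' : t ≤ b := ht.2.trans (htb J)
      have hps := (psM_smooth (τ := τ) hR' hn).continuous
      have hpc := psM_compact (τ := τ) hR' hn
      have hd : ∀ s ≤ b, HasDerivAt (fun s => ∫ v, psM τ (2 ^ (J + 1) * R₀) n v * f s v)
          (∫ v, psM τ (2 ^ (J + 1) * R₀) n v * QL (f s) v) s := fun s hs =>
        timeW_deriv f hf.sol _ hps hpc s (hs.trans_lt hb)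
      have h1 := intervalIntegral.sub_le_integral_of_hasDeriv_right_of_le
        (g := fun s => ∫ v, psM τ (2 ^ (J + 1) * R₀) n v * f s v)
        (g' := fun s => ∫ v, psM τ (2 ^ (J + 1) * R₀) n v * QL (f s) v)
        (φ := fun s => C * Po (f s) (2 ^ (J + 1) * R₀)) htt
        (fun s hs => (hd s (hs.2.trans htb')).continuousAt.continuousWithinAt)
        (fun s hs => (hd s (hs.2.le.trans htb')).hasDerivWithinAt)
        (((hP _ hR').mono fun s hs => hs.2.trans (htb'.trans hb.le)).const_smul C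
          |>.integrableOn_Icc)
        (fun s hs => by
          have hsb : s ≤ b := hs.2.le.trans htb'
          have hs0 : s ≤ 0 := hsb.trans hb.le
          refine (le_abs_self _).trans ?_
          refine hrate (f s) (hf.sol.cls s hs0) (hmass s hs0).1 ?_ _ n (hRj (J + 1)) hn ?_
          · rw [(hmass s hs0).2]
            linarith
          · intro ρ hρ
            exact hTl (J + 1) s ⟨ht'.1.trans hs.1.le, hsb⟩ ρ hρ)
      have h2 : ∫ s in t'..t, C * Po (f s) (2 ^ (J + 1) * R₀) =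
          C * ∫ s in t'..t, Po (f s) (2 ^ (J + 1) * R₀) := intervalIntegral.integral_const_mul _ _
      have hcI : ∀ u v : ℝ, u ≤ v → v ≤ 0 →
          IntervalIntegrable (fun s => Po (f s) (2 ^ (J + 1) * R₀)) volume u v := fun u v huv hv =>
        ((hP _ hR').mono fun s hs => hs.2.trans hv).intervalIntegrable_of_Icc huv
      have h3 : ∫ s in t'..t, Po (f s) (2 ^ (J + 1) * R₀) =
          (∫ s in t'..(tw b c τ R₀ (J + 1)), Po (f s) (2 ^ (J + 1) * R₀)) +
            ∫ s in (tw b c τ R₀ (J + 1))..t, Po (f s) (2 ^ (J + 1) * R₀) :=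
        (intervalIntegral.integral_add_adjacent_intervals
          (hcI _ _ ht'.2 ((htb _).trans hb.le)) (hcI _ _ ht.1 (htb'.trans hb.le))).symm
      have h4 : ∫ s in t'..(tw b c τ R₀ (J + 1)), Po (f s) (2 ^ (J + 1) * R₀) ≤ x (J + 1) := by
        rw [hx]
        exact mm_int hf.sol hP ht'.1 ht'.2 le_rfl ((htb _).trans hb.le) (by linarith)
          (by linarith)
      have h5 : ∫ s in (tw b c τ R₀ (J + 1))..t, Po (f s) (2 ^ (J + 1) * R₀) ≤ x J := by
        rw [hx]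
        have := hRj0 J
        exact mm_int hf.sol hP le_rfl ht.1 ht.2 ((htb _).trans hb.le) (by linarith)
          (by rw [hsucc]; linarith)
      rw [h2, h3] at h1
      have h6 := mul_le_mul_of_nonneg_left (add_le_add h4 h5) hC.le
      linarith
    have hind : ∀ J : ℕ, ∃ t ∈ Icc (tw b c τ R₀ (J + 1)) (tw b c τ R₀ J),
        ∫ v, psM τ (2 ^ 1 * R₀) n v * f b v ≤
          (∫ v, psM τ (2 ^ (J + 1) * R₀) n v * f t v) +
            86 / c * (∑ j ∈ Finset.range J, x (j + 1)) +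
            C * (∑ j ∈ Finset.range J, (x (j + 1) + x j)) := by
      intro J
      induction J with
      | zero =>
        refine ⟨b, ⟨htb _, le_rfl⟩, ?_⟩
        simp
      | succ J ih =>
        obtain ⟨t, ht, h1⟩ := ih
        obtain ⟨t', ht', h2⟩ := hpick (J + 1)
        refine ⟨t', ht', ?_⟩
        have h3 := hB J t ht t' ht'
        have hcl := hf.sol.cls t' (ht'.2.trans ((htb _).trans hb.le))
        have h4 := mm_shift hcl hτ2 hτ (hRj0 (J + 1)) hn
        rw [← hsucc (J + 1)] at h4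
        have h5 : 64 * (2 ^ (J + 1) * R₀) ^ τ * Po (f t') (2 ^ (J + 1) * R₀) ≤
            86 / c * x (J + 1) := by
          have a1 : Po (f t') (2 ^ (J + 1) * R₀) ≤ Po (f t') (2 ^ (J + 1) * R₀ / 2) :=
            Po_anti hcl (by linarith [hRj0 (J + 1)]) (by linarith [hRj0 (J + 1)])
          have a2 := hpw (J + 1)
          have a3 : 0 ≤ Po (f t') (2 ^ (J + 1) * R₀ / 2) := Po_nonneg hcl _
          have a4 : (2 ^ (J + 1) * R₀) ^ τ * Po (f t') (2 ^ (J + 1) * R₀ / 2) ≤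
              4 / 3 * (x (J + 1) / c) := by
            rw [← mul_div_assoc, le_div_iff₀ hc]
            linarith
          have a5 : (2 ^ (J + 1) * R₀) ^ τ * Po (f t') (2 ^ (J + 1) * R₀) ≤
              (2 ^ (J + 1) * R₀) ^ τ * Po (f t') (2 ^ (J + 1) * R₀ / 2) :=
            mul_le_mul_of_nonneg_left a1 a2.le
          have a6 : 0 ≤ x (J + 1) / c := div_nonneg (hx0 _) hc.le
          calc 64 * (2 ^ (J + 1) * R₀) ^ τ * Po (f t') (2 ^ (J + 1) * R₀)
              = 64 * ((2 ^ (J + 1) * R₀) ^ τ * Po (f t') (2 ^ (J + 1) * R₀)) := by ring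
            _ ≤ 64 * (4 / 3 * (x (J + 1) / c)) := by linarith
            _ ≤ 86 * (x (J + 1) / c) := by linarith
            _ = 86 / c * x (J + 1) := by ring
        rw [Finset.sum_range_succ, Finset.sum_range_succ, mul_add (86 / c), mul_add C]
        linarith
    obtain ⟨J, hJ⟩ : ∃ J : ℕ, 2 * n ≤ 2 ^ (J + 1) * R₀ := by
      obtain ⟨J, hJ⟩ := pow_unbounded_of_one_lt (2 * n) (by norm_num : (1 : ℝ) < 2)
      refine ⟨J, ?_⟩
      have h1 : (0 : ℝ) < 2 ^ J := by positivity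
      have h2 : (2 : ℝ) ^ J ≤ 2 ^ J * R₀ := by nlinarith
      rw [hsucc]
      linarith
    obtain ⟨t, ht, h1⟩ := hind J
    have h2 : ∫ v, psM τ (2 ^ (J + 1) * R₀) n v * f t v = 0 := by
      have : (fun v => psM τ (2 ^ (J + 1) * R₀) n v * f t v) = fun _ => 0 := by
        funext v
        rw [mm_ps_zero (hRj0 (J + 1)) hn hJ v, zero_mul]
      rw [this, integral_zero]
    have h3 : ∑ j ∈ Finset.range J, x (j + 1) ≤ S := by
      have a1 := hSum (J + 1)
      rw [Finset.sum_range_succ'] at a1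
      have a2 := hx0 0
      rw [hx] at a2 ⊢
      simp only at a2 ⊢
      linarith
    have h4 : ∑ j ∈ Finset.range J, x j ≤ S := by
      have a1 := hSum J
      rw [hx]
      exact a1
    rw [h2, Finset.sum_add_distrib] at h1
    have h5 : 86 / c * (∑ j ∈ Finset.range J, x (j + 1)) ≤ 86 / c * S :=
      mul_le_mul_of_nonneg_left h3 (by positivity)
    have h6 : C * ((∑ j ∈ Finset.range J, x (j + 1)) + ∑ j ∈ Finset.range J, x j) ≤
        C * (S + S) := mul_le_mul_of_nonneg_left (add_le_add h3 h4) hC.le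
    linarith
  exact mm_limit (hf.sol.cls b hb.le) hi hτ2 (hRj0 1) fun n => main _ (by positivity)

end Pool.Agent.LandauF
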