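import Pool.Agent.LandauF.HRq
import Pool.Agent.LandauG.WTime
import Pool.Agent.LandauG.WTest

/-!
# LandauF, module HMq: change in time of integrals against decaying test functions

Let `φn = φ * chi n`, `n ≥ 1`.  With `C0` the constant of `chi_bounds` (`Landau/Chi.lean`): `|pd i (chi n)| ≤ C0 / n`,
`|pd i (pd j (chi n))| ≤ C0 / n²`, and both vanish for `‖v‖ > 2 n`, while `ang v ≤ 4 n` for `‖v‖ ≤ 2 n`, so
`1 / n ≤ 4 / ang v` there (compare `phiW_bounds`, `LandauG/WTest.lean`).  Hence by the product rule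
`|pd i φn| ≤ (1 + 4 C0) A / ang ^ (q + 1)`, `|pd i (pd j φn)| ≤ (1 + 8 C0 + 16 C0) A / ang ^ (q + 2)`.
`timeW_lip` with the bound of `rate_q` (`Kw (f τ) ^ (2/3) ≤ K ^ (2/3)`, `mq q (f τ) ≤ m`, note that `0 ≤ A` and
`0 ≤ Kw (f τ)`, `0 ≤ mq q (f τ)`), then `n → ∞`: `|φn f| ≤ A f / ang ^ q ≤ A f / ang` is integrable
(dominated convergence).  If `a = b` the claim is trivial.
-/

set_option autoImplicit false

namespace Pool.Agent.LandauF

open MeasureTheory Set Filter Topology Pool.Agent.Landau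

private theorem hmq_pd1 {φ : V → ℝ} (hφ : ContDiff ℝ (⊤ : ℕ∞) φ) (R : ℝ) (i : Fin 3) (v : V) :
    pd i (fun u => chi R u * φ u) v = chi R v * pd i φ v + pd i (chi R) v * φ v := by
  rw [pd_mul (differentiable_of_smooth (chi_smooth R) v) (differentiable_of_smooth hφ v)]

private theorem hmq_pd2 {φ : V → ℝ} (hφ : ContDiff ℝ (⊤ : ℕ∞) φ) (R : ℝ) (i j : Fin 3) (v : V) :
    pd i (pd j (fun u => chi R u * φ u)) v =
      (chi R v * pd i (pd j φ) v + pd i (chi R) v * pd j φ v) +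
      (pd j (chi R) v * pd i φ v + pd i (pd j (chi R)) v * φ v) := by
  have h1 : pd j (fun u => chi R u * φ u) = fun u => (chi R u * pd j φ u) +
      (pd j (chi R) u * φ u) := by
    funext u
    exact hmq_pd1 hφ R j u
  have d1 := differentiable_of_smooth (chi_smooth R) v
  have d2 := differentiable_of_smooth (smooth_pd hφ j) v
  have d3 := differentiable_of_smooth (smooth_pd (chi_smooth R) j) v
  have d4 := differentiable_of_smooth hφ v
  rw [h1, pd_add (f := fun u => chi R u * pd j φ u)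
    (g := fun u => pd j (chi R) u * φ u) (d1.mul d2) (d3.mul d4), pd_mul d1 d2, pd_mul d3 d4]

private theorem hmq_bounds (q : ℕ) : ∃ C : ℝ, 0 < C ∧ ∀ R : ℝ, 1 ≤ R →
    ∀ (φ : V → ℝ) (A : ℝ), ContDiff ℝ (⊤ : ℕ∞) φ → 0 ≤ A → (∀ v, |φ v| ≤ A / ang v ^ q) →
    (∀ i v, |pd i φ v| ≤ A / ang v ^ (q + 1)) →
    (∀ i j v, |pd i (pd j φ) v| ≤ A / ang v ^ (q + 2)) →
    (∀ i v, |pd i (fun u => chi R u * φ u) v| ≤ C * A / ang v ^ (q + 1)) ∧
    (∀ i j v, |pd i (pd j (fun u => chi R u * φ u)) v| ≤ C * A / ang v ^ (q + 2)) := by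
  obtain ⟨C0, hC0, hchi⟩ := chi_bounds
  refine ⟨24 * C0 + 1, by positivity, fun R hR φ A hφ hA h0 h1 h2 => ?_⟩
  have hR0 : 0 < R := by linarith
  obtain ⟨hc1, hc2, -, -⟩ := hchi R hR
  have hRa : ∀ v : V, ‖v‖ ≤ 2 * R → 1 / R ≤ 4 / ang v := by
    intro v hv
    have h1 := ang_le_of_norm_le (R := 2 * R) (by linarith) hv
    rw [div_le_div_iff₀ hR0 (ang_pos v)]
    linarith
  have hchi1 : ∀ v : V, |chi R v| ≤ 1 := fun v => by
    rw [abs_of_nonneg (chi_nonneg R v)]
    exact chi_le_one R v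
  constructor
  · intro i v
    have ha := ang_pos v
    rw [hmq_pd1 hφ]
    rcases le_or_gt ‖v‖ (2 * R) with hv | hv
    · have e1 : |chi R v * pd i φ v| ≤ A / ang v ^ (q + 1) := by
        rw [abs_mul]
        calc _ ≤ 1 * (A / ang v ^ (q + 1)) :=
              mul_le_mul (hchi1 v) (h1 i v) (abs_nonneg _) zero_le_one
          _ = _ := one_mul _
      have e2 : |pd i (chi R) v * φ v| ≤ 4 * C0 * A / ang v ^ (q + 1) := by
        rw [abs_mul]
        calc |pd i (chi R) v| * |φ v| ≤ (C0 / R) * (A / ang v ^ q) :=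
              mul_le_mul (hc1 i v) (h0 v) (abs_nonneg _) (by positivity)
          _ = C0 * (1 / R) * (A / ang v ^ q) := by ring
          _ ≤ C0 * (4 / ang v) * (A / ang v ^ q) := by
              have := hRa v hv
              gcongr
          _ = _ := by
              rw [pow_succ]
              field_simp
      calc _ ≤ _ := abs_add_le _ _
        _ ≤ A / ang v ^ (q + 1) + 4 * C0 * A / ang v ^ (q + 1) := add_le_add e1 e2
        _ = (4 * C0 + 1) * A / ang v ^ (q + 1) := by ring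
        _ ≤ _ := by
            gcongr
            linarith
    · rw [chi_zero hR0 hv.le, pd_chi_outer hR0 hv, zero_mul, zero_mul, add_zero, abs_zero]
      positivity
  · intro i j v
    have ha := ang_pos v
    rw [hmq_pd2 hφ]
    rcases le_or_gt ‖v‖ (2 * R) with hv | hv
    · have hRv := hRa v hv
      have e1 : |chi R v * pd i (pd j φ) v| ≤ A / ang v ^ (q + 2) := by
        rw [abs_mul]
        calc _ ≤ 1 * (A / ang v ^ (q + 2)) :=
              mul_le_mul (hchi1 v) (h2 i j v) (abs_nonneg _) zero_le_one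
          _ = _ := one_mul _
      have e2 : ∀ i j : Fin 3, |pd i (chi R) v * pd j φ v| ≤ 4 * C0 * A / ang v ^ (q + 2) := by
        intro i j
        rw [abs_mul]
        calc |pd i (chi R) v| * |pd j φ v| ≤ (C0 / R) * (A / ang v ^ (q + 1)) :=
              mul_le_mul (hc1 i v) (h1 j v) (abs_nonneg _) (by positivity)
          _ = C0 * (1 / R) * (A / ang v ^ (q + 1)) := by ring
          _ ≤ C0 * (4 / ang v) * (A / ang v ^ (q + 1)) := by gcongr
          _ = _ := by
              rw [show q + 2 = q + 1 + 1 from rfl, pow_succ (ang v) (q + 1)]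
              field_simp
      have e3 : |pd i (pd j (chi R)) v * φ v| ≤ 16 * C0 * A / ang v ^ (q + 2) := by
        rw [abs_mul]
        calc |pd i (pd j (chi R)) v| * |φ v| ≤ (C0 / R ^ 2) * (A / ang v ^ q) :=
              mul_le_mul (hc2 i j v) (h0 v) (abs_nonneg _) (by positivity)
          _ = C0 * ((1 / R) * (1 / R)) * (A / ang v ^ q) := by
              field_simp
          _ ≤ C0 * ((4 / ang v) * (4 / ang v)) * (A / ang v ^ q) := by gcongr
          _ = _ := by
              rw [pow_add]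
              field_simp
              norm_num
              ring
      calc _ ≤ _ := abs_add_le _ _
        _ ≤ (|chi R v * pd i (pd j φ) v| + |pd i (chi R) v * pd j φ v|) +
            (|pd j (chi R) v * pd i φ v| + |pd i (pd j (chi R)) v * φ v|) :=
            add_le_add (abs_add_le _ _) (abs_add_le _ _)
        _ ≤ (A / ang v ^ (q + 2) + 4 * C0 * A / ang v ^ (q + 2)) +
            (4 * C0 * A / ang v ^ (q + 2) + 16 * C0 * A / ang v ^ (q + 2)) :=
            add_le_add (add_le_add e1 (e2 i j)) (add_le_add (e2 j i) e3)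
        _ = (24 * C0 + 1) * A / ang v ^ (q + 2) := by ring
    · rw [chi_zero hR0 hv.le, pd_chi_outer hR0 hv, pd_chi_outer hR0 hv, wt_chi2_outer hR0 hv,
        zero_mul, zero_mul, zero_mul, zero_mul, add_zero, add_zero, abs_zero]
      positivity

private theorem hmq_lim {g φ : V → ℝ} {A : ℝ} {q : ℕ} (hq : 1 ≤ q) (hg : Clw g)
    (hφ : Continuous φ) (h0 : ∀ v, |φ v| ≤ A / ang v ^ q) :
    Tendsto (fun R : ℝ => ∫ v, chi R v * φ v * g v) atTop (𝓝 (∫ v, φ v * g v)) := by
  refine tendsto_integral_filter_of_dominated_convergence (fun v => A * (g v / ang v ^ q))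
    (Eventually.of_forall fun R => ?_) (Eventually.of_forall fun R => Eventually.of_forall fun v => ?_)
    ((mq_int hg hq).const_mul A) (Eventually.of_forall fun v => ?_)
  · exact (((chi_smooth R).continuous.mul hφ).mul hg.cont).aestronglyMeasurable
  · rw [Real.norm_eq_abs, abs_mul, abs_mul, abs_of_nonneg (hg.nonneg v),
      abs_of_nonneg (chi_nonneg R v)]
    calc chi R v * |φ v| * g v ≤ 1 * (A / ang v ^ q) * g v := by
          refine mul_le_mul_of_nonneg_right ?_ (hg.nonneg v)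
          exact mul_le_mul (chi_le_one R v) (h0 v) (abs_nonneg _) zero_le_one
      _ = A * (g v / ang v ^ q) := by ring
  · refine tendsto_const_nhds.congr' ?_
    filter_upwards [eventually_ge_atTop (max ‖v‖ 1)] with R hR
    have h1 : ‖v‖ ≤ R := (le_max_left _ _).trans hR
    have h2 : 0 < R := lt_of_lt_of_le one_pos ((le_max_right _ _).trans hR)
    rw [chi_one h2 h1, one_mul]

theorem mom_q (q : ℕ) (hq : 1 ≤ q) : ∃ C : ℝ, 0 < C ∧ ∀ f : ℝ → V → ℝ, SolW f →
    ∀ a b K m : ℝ, a ≤ b → b ≤ 0 → K ≤ 1 → (∀ τ ∈ Icc a b, Kw (f τ) ≤ K ∧ mq q (f τ) ≤ m) →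
    ∀ (φ : V → ℝ) (A : ℝ), ContDiff ℝ (⊤ : ℕ∞) φ → (∀ v, |φ v| ≤ A / ang v ^ q) →
    (∀ i v, |pd i φ v| ≤ A / ang v ^ (q + 1)) →
    (∀ i j v, |pd i (pd j φ) v| ≤ A / ang v ^ (q + 2)) →
    |(∫ v, φ v * f b v) - ∫ v, φ v * f a v| ≤ C * A * K ^ (2 / 3 : ℝ) * m * (b - a) := by
  obtain ⟨C1, hC1, hrate⟩ := rate_q q hq
  obtain ⟨C2, hC2, hbd⟩ := hmq_bounds q
  refine ⟨C1 * C2, by positivity, fun f hf a b K m hab hb hK hKm φ A hφ h0 h1 h2 => ?_⟩
  have hA : 0 ≤ A := by
    have h := (abs_nonneg _).trans (h0 0)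
    have h3 := ang_pos (0 : V)
    by_contra hneg
    have h4 : A / ang (0 : V) ^ q < 0 := div_neg_of_neg_of_pos (not_le.1 hneg) (by positivity)
    linarith
  have key : ∀ R : ℝ, 1 ≤ R →
      |(∫ v, chi R v * φ v * f b v) - ∫ v, chi R v * φ v * f a v| ≤
        C1 * C2 * A * K ^ (2 / 3 : ℝ) * m * (b - a) := by
    intro R hR
    have hR0 : 0 < R := by linarith
    obtain ⟨b1, b2⟩ := hbd R hR φ A hφ hA h0 h1 h2
    have hs : ContDiff ℝ (⊤ : ℕ∞) (fun u => chi R u * φ u) := (chi_smooth R).mul hφ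
    have hc : HasCompactSupport (fun u => chi R u * φ u) := (chi_compact hR0).mul_right
    refine timeW_lip f hf (fun u => chi R u * φ u) hs.continuous hc a b hab hb _ ?_
    intro τ hτ
    have hτ0 : τ ≤ 0 := hτ.2.le.trans hb
    have hcl := hf.cls τ hτ0
    obtain ⟨k1, k2⟩ := hKm τ ⟨hτ.1.le, hτ.2.le⟩
    have hr := hrate (f τ) hcl (k1.trans hK) (fun u => chi R u * φ u) (C2 * A) hs hc b1 b2
    refine hr.trans ?_
    have hKn := hcl.Kw_nonneg
    have hmn : 0 ≤ mq q (f τ) := by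
      unfold mq
      exact integral_nonneg fun v => div_nonneg (hcl.nonneg v) (pow_nonneg (ang_pos v).le q)
    have hp : Kw (f τ) ^ (2 / 3 : ℝ) ≤ K ^ (2 / 3 : ℝ) :=
      Real.rpow_le_rpow hKn k1 (by norm_num)
    have hp0 : 0 ≤ Kw (f τ) ^ (2 / 3 : ℝ) := Real.rpow_nonneg hKn _
    calc C1 * (C2 * A) * Kw (f τ) ^ (2 / 3 : ℝ) * mq q (f τ)
        = C1 * (C2 * A) * (Kw (f τ) ^ (2 / 3 : ℝ) * mq q (f τ)) := by ring
      _ ≤ C1 * (C2 * A) * (K ^ (2 / 3 : ℝ) * m) :=
          mul_le_mul_of_nonneg_left (mul_le_mul hp k2 hmn (hp0.trans hp)) (by positivity)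
      _ = C1 * C2 * A * K ^ (2 / 3 : ℝ) * m := by ring
  have l1 := hmq_lim hq (hf.cls b hb) hφ.continuous h0
  have l2 := hmq_lim hq (hf.cls a (hab.trans hb)) hφ.continuous h0
  refine le_of_tendsto (l1.sub l2).abs ?_
  filter_upwards [eventually_ge_atTop (1 : ℝ)] with R hR
  exact key R hR

end Pool.Agent.LandauF
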