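import Pool.Agent.LandauF.HDefs
import Pool.Agent.LandauG.WKer

/-!
# LandauF, module HPsM: the moment test functions

`psM τ R n v = (1 - chi R v) chi n v ‖v‖^(τ-1)`, `2 ≤ τ ≤ 3`, `R, n > 0`; it vanishes for `‖v‖ ≤ R`, so it is smooth.
Derivatives: `‖v‖^(τ-1)` has away from `0` first derivatives at most `2 ‖v‖^(τ-2)` and second derivatives at most
`6 ‖v‖^(τ-3)`; the derivatives of `chi R` (of order `m = 1, 2`) are at most `C0/R^m` and supported in
`R ≤ ‖v‖ ≤ 2R`, hence at most `4 C0/‖v‖^m`; the same for `chi n`.  Product rule.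
`psM_Kf`: by the symmetry of `Kf` let `‖v‖ ≤ ‖w‖`, `z = v - w`.  If `‖w‖ < R`, all derivatives vanish at both points.  Let
`‖w‖ ≥ R`.  The second derivative terms are at most `C (ω v + ω w)/‖z‖` by `aK_abs`.  The first derivative terms
(`bK_abs`: `1/‖z‖²`): if `‖z‖ ≥ ‖w‖/2`, `|pd i ψ v - pd i ψ w| ≤ 2 C ‖w‖^(τ-2) ≤ 4 C ‖w‖^(τ-3) ‖z‖`; if `‖z‖ < ‖w‖/2`, every point `x` of
the segment has `‖x‖ ≥ ‖w‖/2` and second derivatives at most `C ‖x‖^(τ-3) ≤ 2 C ‖w‖^(τ-3)`, so the difference is at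
most `C' ‖w‖^(τ-3) ‖z‖` (mean value inequality as in `LandauG/WKer.lean`, `WKerAux.lip`, `WKerAux.fd_le`).
-/

set_option autoImplicit false

namespace Pool.Agent.LandauF

open MeasureTheory Set Filter Topology Pool.Agent.Landau

/-- moment test function -/
noncomputable def psM (τ R n : ℝ) (v : V) : ℝ := (1 - chi R v) * chi n v * ‖v‖ ^ (τ - 1)

/-- its weight -/
noncomputable def omM (τ R : ℝ) (v : V) : ℝ := if R ≤ ‖v‖ then ‖v‖ ^ (τ - 3) else 0

namespace HPsMAux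

open WBoundAux

theorem pd_scale {Φ : V → ℝ} (hΦ : Differentiable ℝ Φ) (c a : ℝ) (i : Fin 3) :
    pd i (fun v : V => c * Φ (a • v)) = fun v => (c * a) * pd i Φ (a • v) := by
  funext v
  unfold pd
  have h1 : HasFDerivAt (fun v : V => a • v) (a • ContinuousLinearMap.id ℝ V) v :=
    (hasFDerivAt_id v).const_smul a
  have h2 : HasFDerivAt Φ (fderiv ℝ Φ (a • v)) (a • v) := (hΦ (a • v)).hasFDerivAt
  have h3 : HasFDerivAt (fun v : V => Φ (a • v))
      ((fderiv ℝ Φ (a • v)).comp (a • ContinuousLinearMap.id ℝ V)) v := h2.comp v h1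
  have h4 := h3.const_mul c
  rw [h4.fderiv]
  simp
  ring

theorem exists_bd {g : V → ℝ} (hg : Continuous g) (hc : HasCompactSupport g) :
    ∃ C : ℝ, 0 ≤ C ∧ ∀ v, |g v| ≤ C := by
  obtain ⟨C, hC⟩ := hc.exists_bound_of_continuous hg
  exact ⟨max C 0, le_max_right _ _, fun v => (hC v).trans (le_max_left _ _)⟩

theorem chi_scale (R : ℝ) : chi R = fun v : V => 1 * chi 1 (R⁻¹ • v) := by
  funext v
  simp [chi]

/-- scale invariant bounds for the derivatives of the cutoffs -/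
theorem chi_bd : ∃ C : ℝ, 1 ≤ C ∧ ∀ R : ℝ, 0 < R → ∀ v : V,
    (∀ i, |pd i (chi R) v| * ‖v‖ ≤ C) ∧ ∀ i j, |pd i (pd j (chi R)) v| * ‖v‖ ^ 2 ≤ C := by
  have h1 : ∀ i, ∃ C : ℝ, 0 ≤ C ∧ ∀ v : V, |pd i (chi 1) v * ‖v‖| ≤ C := fun i =>
    exists_bd ((smooth_pd (chi_smooth 1) i).continuous.mul continuous_norm)
      ((compact_pd (chi_compact one_pos) i).mul_right)
  have h2 : ∀ i j, ∃ C : ℝ, 0 ≤ C ∧ ∀ v : V, |pd i (pd j (chi 1)) v * ‖v‖ ^ 2| ≤ C := fun i j =>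
    exists_bd ((smooth_pd (smooth_pd (chi_smooth 1) j) i).continuous.mul (continuous_norm.pow 2))
      ((compact_pd (compact_pd (chi_compact one_pos) j) i).mul_right)
  choose C1 hC1 hC1' using h1
  choose C2 hC2 hC2' using h2
  have s1 : 0 ≤ ∑ i, C1 i := Finset.sum_nonneg fun i _ => hC1 i
  have s2 : 0 ≤ ∑ i, ∑ j, C2 i j := Finset.sum_nonneg fun i _ => Finset.sum_nonneg fun j _ => hC2 i j
  refine ⟨(∑ i, C1 i) + (∑ i, ∑ j, C2 i j) + 1, by linarith, fun R hR v => ⟨fun i => ?_,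
    fun i j => ?_⟩⟩
  · have e1 : pd i (chi R) v = R⁻¹ * pd i (chi 1) (R⁻¹ • v) := by
      rw [chi_scale R, pd_scale (differentiable_of_smooth (chi_smooth 1)) 1 R⁻¹ i, one_mul]
    have e2 : |pd i (chi R) v| * ‖v‖ = |pd i (chi 1) (R⁻¹ • v) * ‖R⁻¹ • v‖| := by
      rw [e1, abs_mul, abs_mul, norm_smul, norm_inv, Real.norm_of_nonneg hR.le,
        abs_of_pos (inv_pos.2 hR), abs_of_nonneg (by positivity : 0 ≤ R⁻¹ * ‖v‖)]
      ring
    rw [e2]
    have := Finset.single_le_sum (f := C1) (fun i _ => hC1 i) (Finset.mem_univ i)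
    linarith [hC1' i (R⁻¹ • v)]
  · have e1 : pd i (pd j (chi R)) v = R⁻¹ * R⁻¹ * pd i (pd j (chi 1)) (R⁻¹ • v) := by
      rw [chi_scale R, pd_scale (differentiable_of_smooth (chi_smooth 1)) 1 R⁻¹ j,
        pd_scale (differentiable_of_smooth (smooth_pd (chi_smooth 1) j)) (1 * R⁻¹) R⁻¹ i, one_mul]
    have e2 : |pd i (pd j (chi R)) v| * ‖v‖ ^ 2 =
        |pd i (pd j (chi 1)) (R⁻¹ • v) * ‖R⁻¹ • v‖ ^ 2| := by
      rw [e1, abs_mul (R⁻¹ * R⁻¹), abs_mul (pd i (pd j (chi 1)) (R⁻¹ • v)), norm_smul, norm_inv,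
        Real.norm_of_nonneg hR.le, abs_of_pos (by positivity : 0 < R⁻¹ * R⁻¹),
        abs_of_nonneg (by positivity : 0 ≤ (R⁻¹ * ‖v‖) ^ 2)]
      ring
    rw [e2]
    have e3 := Finset.single_le_sum (f := C2 i) (fun j _ => hC2 i j) (Finset.mem_univ j)
    have e4 := Finset.single_le_sum (f := fun i => ∑ j, C2 i j)
      (fun i _ => Finset.sum_nonneg fun j _ => hC2 i j) (Finset.mem_univ i)
    linarith [hC2' i j (R⁻¹ • v)]

/-- symbols of order `s` at the point `v` -/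
structure Or (K s : ℝ) (f : V → ℝ) (v : V) : Prop where
  sm : ContDiffAt ℝ 2 f v
  b0 : |f v| ≤ K * ‖v‖ ^ s
  b1 : ∀ i, |pd i f v| ≤ K * ‖v‖ ^ (s - 1)
  b2 : ∀ i j, |pd i (pd j f) v| ≤ K * ‖v‖ ^ (s - 2)

theorem pd_diff {f : V → ℝ} {v : V} (hf : ContDiffAt ℝ 2 f v) (j : Fin 3) :
    DifferentiableAt ℝ (pd j f) v := by
  have h1 : ContDiffAt ℝ 1 (fderiv ℝ f) v := hf.fderiv_right (by norm_num)
  unfold pd
  exact (h1.differentiableAt (by norm_num)).clm_apply (differentiableAt_const _)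

theorem Or.mul {K K' s s' : ℝ} {f g : V → ℝ} {v : V} (hv : v ≠ 0) (hf : Or K s f v)
    (hg : Or K' s' g v) : Or (4 * K * K') (s + s') (fun x => f x * g x) v := by
  have hn : 0 < ‖v‖ := norm_pos_iff.2 hv
  have hK : 0 ≤ K := by
    by_contra hc
    have h1 := (abs_nonneg _).trans hf.b0
    have h2 : K * ‖v‖ ^ s < 0 := mul_neg_of_neg_of_pos (not_le.1 hc) (by positivity)
    linarith
  have hK' : 0 ≤ K' := by
    by_contra hc
    have h1 := (abs_nonneg _).trans hg.b0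
    have h2 : K' * ‖v‖ ^ s' < 0 := mul_neg_of_neg_of_pos (not_le.1 hc) (by positivity)
    linarith
  have hKK : 0 ≤ K * K' := mul_nonneg hK hK'
  have df : DifferentiableAt ℝ f v := hf.sm.differentiableAt (by norm_num)
  have dg : DifferentiableAt ℝ g v := hg.sm.differentiableAt (by norm_num)
  have mulb : ∀ {x y a b p q : ℝ}, |x| ≤ a * ‖v‖ ^ p → |y| ≤ b * ‖v‖ ^ q → 0 ≤ a →
      |x * y| ≤ a * b * ‖v‖ ^ (p + q) := by
    intro x y a b p q hx hy ha
    rw [abs_mul, Real.rpow_add hn]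
    calc |x| * |y| ≤ (a * ‖v‖ ^ p) * (b * ‖v‖ ^ q) :=
          mul_le_mul hx hy (abs_nonneg _) (by positivity)
      _ = a * b * (‖v‖ ^ p * ‖v‖ ^ q) := by ring
  refine ⟨hf.sm.mul hg.sm, ?_, fun i => ?_, fun i j => ?_⟩
  · refine (mulb hf.b0 hg.b0 hK).trans ?_
    refine mul_le_mul_of_nonneg_right ?_ (by positivity)
    nlinarith
  · rw [pd_mul df dg i]
    have h1 := mulb hf.b0 (hg.b1 i) hK
    have h2 := mulb (hf.b1 i) hg.b0 hK
    have e1 : s + (s' - 1) = s + s' - 1 := by ring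
    have e2 : s - 1 + s' = s + s' - 1 := by ring
    rw [e1] at h1
    rw [e2] at h2
    refine (abs_add_le _ _).trans ?_
    have h3 : 0 ≤ K * K' * ‖v‖ ^ (s + s' - 1) := by positivity
    linarith
  · have hev : pd j (fun x => f x * g x) =ᶠ[𝓝 v]
        fun x => f x * pd j g x + pd j f x * g x := by
      have h1 : ∀ᶠ x in 𝓝 v, ContDiffAt ℝ 2 f x := hf.sm.eventually (by simp)
      have h2 : ∀ᶠ x in 𝓝 v, ContDiffAt ℝ 2 g x := hg.sm.eventually (by simp)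
      filter_upwards [h1, h2] with x hx1 hx2
      exact pd_mul (hx1.differentiableAt (by norm_num)) (hx2.differentiableAt (by norm_num)) j
    have dpf := pd_diff hf.sm j
    have dpg := pd_diff hg.sm j
    rw [pd_congr hev i, pd_add (df.fun_mul dpg) (dpf.fun_mul dg) i, pd_mul df dpg i, pd_mul dpf dg i]
    have h1 := mulb hf.b0 (hg.b2 i j) hK
    have h2 := mulb (hf.b1 i) (hg.b1 j) hK
    have h3 := mulb (hf.b1 j) (hg.b1 i) hK
    have h4 := mulb (hf.b2 i j) hg.b0 hK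
    have e1 : s + (s' - 2) = s + s' - 2 := by ring
    have e2 : s - 1 + (s' - 1) = s + s' - 2 := by ring
    have e3 : s - 2 + s' = s + s' - 2 := by ring
    rw [e1] at h1
    rw [e2] at h2 h3
    rw [e3] at h4
    refine (abs_add_le _ _).trans ((add_le_add (abs_add_le _ _) (abs_add_le _ _)).trans ?_)
    linarith

theorem Or.chi {C : ℝ} (hC : 1 ≤ C) {R : ℝ} {v : V} (hv : v ≠ 0)
    (h : (∀ i, |pd i (chi R) v| * ‖v‖ ≤ C) ∧ ∀ i j, |pd i (pd j (chi R)) v| * ‖v‖ ^ 2 ≤ C) :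
    Or C 0 (chi R) v := by
  have hn : 0 < ‖v‖ := norm_pos_iff.2 hv
  refine ⟨(chi_smooth R).contDiffAt.of_le (WithTop.coe_le_coe.2 le_top), ?_, fun i => ?_,
    fun i j => ?_⟩
  · rw [Real.rpow_zero, mul_one, abs_of_nonneg (chi_nonneg R v)]
    exact (chi_le_one R v).trans hC
  · rw [zero_sub, Real.rpow_neg hn.le, Real.rpow_one, ← div_eq_mul_inv, le_div_iff₀ hn]
    exact h.1 i
  · have e : ‖v‖ ^ ((0 : ℝ) - 2) = (‖v‖ ^ 2)⁻¹ := by
      rw [zero_sub, Real.rpow_neg hn.le]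
      norm_num
    rw [e, ← div_eq_mul_inv, le_div_iff₀ (by positivity)]
    exact h.2 i j

theorem Or.one_sub {C R : ℝ} {v : V} (hC : 1 ≤ C) (h : Or C 0 (Pool.Agent.Landau.chi R) v) :
    Or C 0 (fun x => 1 - Pool.Agent.Landau.chi R x) v := by
  have e : ∀ (g : V → ℝ) (i : Fin 3) (x : V), pd i (fun x => 1 - g x) x = -pd i g x := by
    intro g i x
    unfold pd
    rw [fderiv_const_sub]
    simp
  have e' : ∀ (g : V → ℝ) (i : Fin 3) (x : V), pd i (fun x => -g x) x = -pd i g x := by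
    intro g i x
    unfold pd
    rw [fderiv_fun_neg]
    simp
  refine ⟨contDiffAt_const.sub h.sm, ?_, fun i => ?_, fun i j => ?_⟩
  · rw [Real.rpow_zero, mul_one, abs_of_nonneg (by linarith [chi_le_one R v])]
    linarith [chi_nonneg R v]
  · rw [e, abs_neg]
    exact h.b1 i
  · have e2 : pd j (fun x => 1 - Pool.Agent.Landau.chi R x) =
        fun x => -pd j (Pool.Agent.Landau.chi R) x := by
      funext x
      exact e _ j x
    rw [e2, e', abs_neg]
    exact h.b2 i j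

theorem coord_le (v : V) (i : Fin 3) : |v i| ≤ ‖v‖ := by
  have := PiLp.norm_apply_le v i
  rwa [Real.norm_eq_abs] at this

theorem pd_nsq (i : Fin 3) (v : V) : pd i (fun v : V => ‖v‖ ^ 2) v = 2 * v i := by
  have h := pd_quad 0 (fun _ => 0) 1 i v
  have e : (fun v : V => (0 : ℝ) + (∑ i : Fin 3, (0 : ℝ) * v i) + 1 * ‖v‖ ^ 2) =
      fun v : V => ‖v‖ ^ 2 := by
    funext v
    simp
  rw [e] at h
  rw [h]
  ring

theorem pow_eq (p : ℝ) (v : V) : ‖v‖ ^ (2 * p) = (‖v‖ ^ 2) ^ p := by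
  rw [Real.rpow_mul (norm_nonneg v)]
  norm_num

/-- the first derivatives of `‖v‖ ^ (2 p)` -/
theorem pd_pow (p : ℝ) (i : Fin 3) {v : V} (hv : v ≠ 0) :
    pd i (fun v : V => ‖v‖ ^ (2 * p)) v = 2 * p * ‖v‖ ^ (2 * p - 2) * v i := by
  have hn : 0 < ‖v‖ := norm_pos_iff.2 hv
  have e : (fun v : V => ‖v‖ ^ (2 * p)) = fun v : V => (‖v‖ ^ 2) ^ p := by
    funext v
    exact pow_eq p v
  have h1 : DifferentiableAt ℝ (fun v : V => ‖v‖ ^ 2) v :=
    (contDiff_norm_sq ℝ (n := 1)).differentiable (by norm_num) v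
  have h2 : HasDerivAt (fun x : ℝ => x ^ p) (p * (‖v‖ ^ 2) ^ (p - 1)) (‖v‖ ^ 2) :=
    Real.hasDerivAt_rpow_const (Or.inl (by positivity))
  rw [e, pd_comp (β := fun x : ℝ => x ^ p) h1 h2 i, pd_nsq, ← pow_eq]
  have e3 : 2 * (p - 1) = 2 * p - 2 := by ring
  rw [e3]
  ring

theorem smooth_pow (q : ℝ) {v : V} (hv : v ≠ 0) {n : WithTop ℕ∞} :
    ContDiffAt ℝ n (fun v : V => ‖v‖ ^ q) v :=
  (contDiffAt_norm ℝ hv).rpow_const_of_ne (norm_ne_zero_iff.2 hv)

theorem Or.pow {τ : ℝ} (h2 : 2 ≤ τ) (h3 : τ ≤ 3) {v : V} (hv : v ≠ 0) :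
    Or 6 (τ - 1) (fun v : V => ‖v‖ ^ (τ - 1)) v := by
  have hn : 0 < ‖v‖ := norm_pos_iff.2 hv
  have hone : ∀ {x : V} (i : Fin 3), x ≠ 0 → pd i (fun v : V => ‖v‖ ^ (τ - 1)) x =
      (τ - 1) * ‖x‖ ^ (τ - 3) * x i := by
    intro x i hx
    have h := pd_pow ((τ - 1) / 2) i hx
    have e1 : 2 * ((τ - 1) / 2) = τ - 1 := by ring
    have e2 : τ - 1 - 2 = τ - 3 := by ring
    rw [e1, e2] at h
    exact h
  refine ⟨smooth_pow _ hv, ?_, fun i => ?_, fun i j => ?_⟩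
  · rw [abs_of_nonneg (by positivity)]
    have : 0 ≤ ‖v‖ ^ (τ - 1) := by positivity
    linarith
  · rw [hone i hv, abs_mul, abs_mul, abs_of_nonneg (by linarith : 0 ≤ τ - 1),
      abs_of_nonneg (by positivity : 0 ≤ ‖v‖ ^ (τ - 3))]
    have e : ‖v‖ ^ (τ - 1 - 1) = ‖v‖ ^ (τ - 3) * ‖v‖ := by
      rw [← Real.rpow_add_one hn.ne']
      congr 1
      ring
    rw [e]
    have h4 := coord_le v i
    calc (τ - 1) * ‖v‖ ^ (τ - 3) * |v i| ≤ (τ - 1) * ‖v‖ ^ (τ - 3) * ‖v‖ :=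
          mul_le_mul_of_nonneg_left h4 (mul_nonneg (by linarith) (by positivity))
      _ ≤ 6 * ‖v‖ ^ (τ - 3) * ‖v‖ := by
          refine mul_le_mul_of_nonneg_right (mul_le_mul_of_nonneg_right ?_ (by positivity))
            (norm_nonneg _)
          linarith
      _ = 6 * (‖v‖ ^ (τ - 3) * ‖v‖) := by ring
  · have hev : pd j (fun v : V => ‖v‖ ^ (τ - 1)) =ᶠ[𝓝 v]
        fun x => ((τ - 1) * ‖x‖ ^ (τ - 3)) * x j := by
      filter_upwards [isOpen_ne.mem_nhds hv] with x hx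
      exact hone j hx
    have d1 : DifferentiableAt ℝ (fun x : V => ‖x‖ ^ (τ - 3)) v :=
      (smooth_pow (τ - 3) hv (n := 1)).differentiableAt (by norm_num)
    have d2 : DifferentiableAt ℝ (fun x : V => x j) v := by fun_prop
    have e1 : pd i (fun x : V => ‖x‖ ^ (τ - 3)) v = (τ - 3) * ‖v‖ ^ (τ - 5) * v i := by
      have h := pd_pow ((τ - 3) / 2) i hv
      have e1 : 2 * ((τ - 3) / 2) = τ - 3 := by ring
      have e2 : τ - 3 - 2 = τ - 5 := by ring
      rw [e1, e2] at h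
      exact h
    have e2 : pd i (fun x : V => (τ - 1) * ‖x‖ ^ (τ - 3)) v =
        (τ - 1) * ((τ - 3) * ‖v‖ ^ (τ - 5) * v i) := by
      rw [pd_mul (differentiableAt_const _) d1 i, e1]
      have : pd i (fun _ : V => τ - 1) v = 0 := by
        unfold pd
        simp
      rw [this]
      ring
    rw [pd_congr hev i, pd_mul ((differentiableAt_const _).fun_mul d1) d2 i, e2, pd_coord]
    have hp : 0 ≤ ‖v‖ ^ (τ - 3) := by positivity
    have e3 : ‖v‖ ^ (τ - 3) = ‖v‖ ^ (τ - 5) * (‖v‖ * ‖v‖) := by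
      have : τ - 3 = (τ - 5) + 2 := by ring
      rw [this, Real.rpow_add hn, Real.rpow_two, sq]
    have b1 : |(τ - 1) * ‖v‖ ^ (τ - 3) * (if i = j then (1 : ℝ) else 0)| ≤ 2 * ‖v‖ ^ (τ - 3) := by
      rw [abs_mul, abs_mul, abs_of_nonneg (by linarith : 0 ≤ τ - 1), abs_of_nonneg hp]
      have h5 : |(if i = j then (1 : ℝ) else 0)| ≤ 1 := by
        split_ifs <;> simp
      calc (τ - 1) * ‖v‖ ^ (τ - 3) * |(if i = j then (1 : ℝ) else 0)| ≤
            (τ - 1) * ‖v‖ ^ (τ - 3) * 1 :=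
            mul_le_mul_of_nonneg_left h5 (mul_nonneg (by linarith) hp)
        _ ≤ 2 * ‖v‖ ^ (τ - 3) := by
            rw [mul_one]
            exact mul_le_mul_of_nonneg_right (by linarith) hp
    have b2 : |(τ - 1) * ((τ - 3) * ‖v‖ ^ (τ - 5) * v i) * v j| ≤ 2 * ‖v‖ ^ (τ - 3) := by
      have h6 : |τ - 3| ≤ 1 := by
        rw [abs_le]
        constructor <;> linarith
      have h7 : 0 ≤ ‖v‖ ^ (τ - 5) := by positivity
      have h8 : |v i| * |v j| ≤ ‖v‖ * ‖v‖ :=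
        mul_le_mul (coord_le v i) (coord_le v j) (abs_nonneg _) (norm_nonneg _)
      have h9 : |(τ - 1) * ((τ - 3) * ‖v‖ ^ (τ - 5) * v i) * v j| =
          ((τ - 1) * |τ - 3|) * (‖v‖ ^ (τ - 5) * (|v i| * |v j|)) := by
        rw [abs_mul, abs_mul, abs_mul, abs_mul, abs_of_nonneg (by linarith : 0 ≤ τ - 1),
          abs_of_nonneg h7]
        ring
      rw [h9, e3]
      refine mul_le_mul ?_ (mul_le_mul_of_nonneg_left h8 h7) (by positivity) (by norm_num)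
      nlinarith [abs_nonneg (τ - 3)]
    have e4 : τ - 1 - 2 = τ - 3 := by ring
    rw [e4]
    refine (abs_add_le _ _).trans ?_
    linarith

/-- bounds for the derivatives of `psM` -/
theorem psM_or {τ : ℝ} (h2 : 2 ≤ τ) (h3 : τ ≤ 3) : ∃ C : ℝ, 0 < C ∧ ∀ R n : ℝ, 0 < R → 0 < n →
    ∀ v : V, v ≠ 0 → Or C (τ - 1) (psM τ R n) v := by
  obtain ⟨C, hC, hb⟩ := chi_bd
  refine ⟨4 * (4 * C * C) * 6, by positivity, fun R n hR hn v hv => ?_⟩
  have o1 := (Or.chi hC hv (hb R hR v)).one_sub hC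
  have o2 := Or.chi hC hv (hb n hn v)
  have o3 := Or.pow h2 h3 hv
  have o4 := (o1.mul hv o2).mul hv o3
  have e : (0 : ℝ) + 0 + (τ - 1) = τ - 1 := by ring
  rw [e] at o4
  exact o4

theorem psM_ev {τ R n : ℝ} (hR : 0 < R) {v : V} (h : ‖v‖ < R) :
    psM τ R n =ᶠ[𝓝 v] fun _ => 0 := by
  have hopen : IsOpen {u : V | ‖u‖ < R} := isOpen_lt continuous_norm continuous_const
  filter_upwards [hopen.mem_nhds h] with u hu
  unfold psM
  rw [chi_one hR (le_of_lt hu)]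
  ring

theorem psM_pd {τ R n : ℝ} (hR : 0 < R) {v : V} (h : ‖v‖ < R) (i : Fin 3) :
    pd i (psM τ R n) v = 0 := by
  rw [pd_congr (psM_ev hR h) i]
  unfold pd
  simp

theorem psM_pd2 {τ R n : ℝ} (hR : 0 < R) {v : V} (h : ‖v‖ < R) (i j : Fin 3) :
    pd i (pd j (psM τ R n)) v = 0 := by
  have hev : pd j (psM τ R n) =ᶠ[𝓝 v] fun _ => 0 := by
    have hopen : IsOpen {u : V | ‖u‖ < R} := isOpen_lt continuous_norm continuous_const
    filter_upwards [hopen.mem_nhds h] with u hu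
    exact psM_pd hR hu j
  rw [pd_congr hev i]
  unfold pd
  simp

theorem omM_nonneg (τ R : ℝ) (v : V) : 0 ≤ omM τ R v := by
  unfold omM
  split_ifs
  · positivity
  · exact le_rfl

theorem smooth' {τ R n : ℝ} (hR : 0 < R) : ContDiff ℝ (⊤ : ℕ∞) (psM τ R n) := by
  rw [contDiff_iff_contDiffAt]
  intro v
  by_cases hv : v = 0
  · have h : ‖v‖ < R := by rw [hv, norm_zero]; exact hR
    exact (contDiffAt_const (c := (0 : ℝ))).congr_of_eventuallyEq (psM_ev hR h)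
  · have h1 : ContDiffAt ℝ (⊤ : ℕ∞) (fun v : V => ‖v‖ ^ (τ - 1)) v := smooth_pow _ hv
    exact ((contDiffAt_const.sub (chi_smooth R).contDiffAt).mul (chi_smooth n).contDiffAt).mul h1

theorem main {τ : ℝ} (h2 : 2 ≤ τ) (h3 : τ ≤ 3) {C : ℝ} (hC : 0 < C) {R n : ℝ} (hR : 0 < R)
    (hor : ∀ v : V, v ≠ 0 → Or C (τ - 1) (psM τ R n) v) (v w : V) (hvw : ‖v‖ ≤ ‖w‖) :
    |Kf (psM τ R n) v w| ≤ 17 * C * (omM τ R v + omM τ R w) / ‖v - w‖ := by
  rcases lt_or_ge ‖w‖ R with hw | hw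
  · have hv : ‖v‖ < R := hvw.trans_lt hw
    rw [Kf_zero_of (psM τ R n) v w (fun i => psM_pd hR hv i) (fun i => psM_pd hR hw i)
      (fun i j => psM_pd2 hR hv i j) (fun i j => psM_pd2 hR hw i j), abs_zero]
    have := omM_nonneg τ R v
    have := omM_nonneg τ R w
    positivity
  have hwn : 0 < ‖w‖ := hR.trans_le hw
  have ow : omM τ R w = ‖w‖ ^ (τ - 3) := by
    unfold omM
    rw [if_pos hw]
  have hP : 0 < ‖w‖ ^ (τ - 3) := by positivity
  have hPw : ‖w‖ ^ (τ - 2) = ‖w‖ ^ (τ - 3) * ‖w‖ := by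
    rw [← Real.rpow_add_one hwn.ne']
    congr 1
    ring
  -- second derivatives
  have d2 : ∀ (x : V) (i j : Fin 3), |pd i (pd j (psM τ R n)) x| ≤ C * omM τ R x := by
    intro x i j
    rcases lt_or_ge ‖x‖ R with hx | hx
    · rw [psM_pd2 hR hx i j, abs_zero]
      exact mul_nonneg hC.le (omM_nonneg τ R x)
    · have hx0 : x ≠ 0 := norm_pos_iff.1 (hR.trans_le hx)
      have h := (hor x hx0).b2 i j
      have e : τ - 1 - 2 = τ - 3 := by ring
      rw [e] at h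
      unfold omM
      rw [if_pos hx]
      exact h
  -- first derivatives
  have d1 : ∀ (x : V) (i : Fin 3), ‖x‖ ≤ ‖w‖ → |pd i (psM τ R n) x| ≤ C * ‖w‖ ^ (τ - 2) := by
    intro x i hxw
    rcases lt_or_ge ‖x‖ R with hx | hx
    · rw [psM_pd hR hx i, abs_zero]
      positivity
    · have hx0 : x ≠ 0 := norm_pos_iff.1 (hR.trans_le hx)
      have h := (hor x hx0).b1 i
      have e : τ - 1 - 1 = τ - 2 := by ring
      rw [e] at h
      exact h.trans (mul_le_mul_of_nonneg_left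
        (Real.rpow_le_rpow (norm_nonneg _) hxw (by linarith)) hC.le)
  have hdiff : ∀ i, |pd i (psM τ R n) v - pd i (psM τ R n) w| ≤
      4 * C * ‖w‖ ^ (τ - 3) * ‖v - w‖ := by
    intro i
    rcases le_or_gt (‖w‖ / 2) ‖v - w‖ with hz | hz
    · have h4 := d1 v i hvw
      have h5 := d1 w i le_rfl
      have h6 : |pd i (psM τ R n) v - pd i (psM τ R n) w| ≤ 2 * (C * ‖w‖ ^ (τ - 2)) := by
        refine (abs_sub _ _).trans ?_
        linarith
      refine h6.trans ?_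
      rw [hPw]
      have h7 : ‖w‖ ≤ 2 * ‖v - w‖ := by linarith
      have h8 : 0 ≤ 2 * C * ‖w‖ ^ (τ - 3) := by positivity
      calc 2 * (C * (‖w‖ ^ (τ - 3) * ‖w‖)) = 2 * C * ‖w‖ ^ (τ - 3) * ‖w‖ := by ring
        _ ≤ 2 * C * ‖w‖ ^ (τ - 3) * (2 * ‖v - w‖) := mul_le_mul_of_nonneg_left h7 h8
        _ = 4 * C * ‖w‖ ^ (τ - 3) * ‖v - w‖ := by ring
    · have h4 : ∀ x ∈ Metric.closedBall w (‖w‖ / 2), ‖fderiv ℝ (pd i (psM τ R n)) x‖ ≤
          2 * (2 * C * ‖w‖ ^ (τ - 3)) := by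
        intro x hx
        rw [Metric.mem_closedBall, dist_eq_norm] at hx
        have h5 : ‖w‖ ≤ ‖x‖ + ‖x - w‖ := by
          have h6 : w = x - (x - w) := by abel
          calc ‖w‖ = ‖x - (x - w)‖ := by rw [← h6]
            _ ≤ _ := norm_sub_le _ _
        have h6 : ‖w‖ / 2 ≤ ‖x‖ := by linarith
        have hx0 : x ≠ 0 := norm_pos_iff.1 ((by positivity : 0 < ‖w‖ / 2).trans_le h6)
        refine WKerAux.fd_le _ _ _ fun j => ((hor x hx0).b2 j i).trans ?_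
        have e : τ - 1 - 2 = τ - 3 := by ring
        rw [e]
        have h7 : ‖x‖ ^ (τ - 3) ≤ (‖w‖ / 2) ^ (τ - 3) :=
          Real.rpow_le_rpow_of_nonpos (by positivity) h6 (by linarith)
        have h8 : (‖w‖ / 2) ^ (τ - 3) = ‖w‖ ^ (τ - 3) * 2 ^ (3 - τ) := by
          rw [Real.div_rpow hwn.le (by norm_num), div_eq_mul_inv, ← Real.rpow_neg (by norm_num)]
          congr 2
          ring
        have h9 : (2 : ℝ) ^ (3 - τ) ≤ 2 := by
          calc (2 : ℝ) ^ (3 - τ) ≤ 2 ^ (1 : ℝ) :=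
                Real.rpow_le_rpow_of_exponent_le (by norm_num) (by linarith)
            _ = 2 := Real.rpow_one 2
        calc C * ‖x‖ ^ (τ - 3) ≤ C * (‖w‖ ^ (τ - 3) * 2 ^ (3 - τ)) := by
              rw [← h8]
              exact mul_le_mul_of_nonneg_left h7 hC.le
          _ ≤ C * (‖w‖ ^ (τ - 3) * 2) :=
              mul_le_mul_of_nonneg_left (mul_le_mul_of_nonneg_left h9 hP.le) hC.le
          _ = 2 * C * ‖w‖ ^ (τ - 3) := by ring
      have h6 := (convex_closedBall w (‖w‖ / 2)).norm_image_sub_le_of_norm_fderiv_le (𝕜 := ℝ)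
        (f := pd i (psM τ R n))
        (fun x _ => (differentiable_of_smooth (smooth_pd (smooth' hR) i)) x) h4
        (x := w) (y := v) (Metric.mem_closedBall_self (by positivity))
        (by rw [Metric.mem_closedBall, dist_eq_norm]; exact hz.le)
      rw [Real.norm_eq_abs] at h6
      refine h6.trans (le_of_eq ?_)
      ring
  have hb : ∀ i, |bK i (v - w) * (pd i (psM τ R n) v - pd i (psM τ R n) w)| ≤
      4 * C * omM τ R w / ‖v - w‖ := by
    intro i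
    rw [abs_mul, ow]
    calc |bK i (v - w)| * |pd i (psM τ R n) v - pd i (psM τ R n) w|
        ≤ 1 / ‖v - w‖ ^ 2 * (4 * C * ‖w‖ ^ (τ - 3) * ‖v - w‖) :=
          mul_le_mul (bK_abs i _) (hdiff i) (abs_nonneg _) (by positivity)
      _ = 4 * C * ‖w‖ ^ (τ - 3) / ‖v - w‖ := by
          by_cases hz : ‖v - w‖ = 0
          · rw [hz]
            simp
          · field_simp
  have ha : ∀ i j, |aK i j (v - w) * (pd i (pd j (psM τ R n)) v + pd i (pd j (psM τ R n)) w)| ≤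
      C * (omM τ R v + omM τ R w) / ‖v - w‖ := by
    intro i j
    rw [abs_mul]
    have h4 : |pd i (pd j (psM τ R n)) v + pd i (pd j (psM τ R n)) w| ≤
        C * (omM τ R v + omM τ R w) := by
      refine (abs_add_le _ _).trans ?_
      rw [mul_add]
      exact add_le_add (d2 v i j) (d2 w i j)
    calc |aK i j (v - w)| * |pd i (pd j (psM τ R n)) v + pd i (pd j (psM τ R n)) w|
        ≤ 1 / ‖v - w‖ * (C * (omM τ R v + omM τ R w)) :=
          mul_le_mul (aK_abs i j _) h4 (abs_nonneg _) (by positivity)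
      _ = C * (omM τ R v + omM τ R w) / ‖v - w‖ := by ring
  have h4 : |∑ i : Fin 3, bK i (v - w) * (pd i (psM τ R n) v - pd i (psM τ R n) w)| ≤
      3 * (4 * C * omM τ R w / ‖v - w‖) := by
    refine (Finset.abs_sum_le_sum_abs _ _).trans ((Finset.sum_le_sum fun i _ => hb i).trans ?_)
    simp
  have h5 : |∑ i : Fin 3, ∑ j : Fin 3, aK i j (v - w) *
      (pd i (pd j (psM τ R n)) v + pd i (pd j (psM τ R n)) w)| ≤
      9 * (C * (omM τ R v + omM τ R w) / ‖v - w‖) := by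
    refine (Finset.abs_sum_le_sum_abs _ _).trans ((Finset.sum_le_sum fun i _ =>
      (Finset.abs_sum_le_sum_abs _ _).trans (Finset.sum_le_sum fun j _ => ha i j)).trans ?_)
    simp only [Finset.sum_const, Finset.card_univ, Fintype.card_fin, nsmul_eq_mul]
    apply le_of_eq
    push_cast
    ring
  have ov := omM_nonneg τ R v
  have ow' := omM_nonneg τ R w
  have h6 : 4 * C * omM τ R w / ‖v - w‖ ≤ 4 * (C * (omM τ R v + omM τ R w) / ‖v - w‖) := by
    have h7 : 4 * (C * (omM τ R v + omM τ R w) / ‖v - w‖) =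
        4 * C * omM τ R v / ‖v - w‖ + 4 * C * omM τ R w / ‖v - w‖ := by ring
    rw [h7]
    have h8 : 0 ≤ 4 * C * omM τ R v / ‖v - w‖ := by positivity
    linarith
  have h7 : 0 ≤ C * (omM τ R v + omM τ R w) / ‖v - w‖ := by positivity
  unfold Kf
  calc _ ≤ |∑ i : Fin 3, bK i (v - w) * (pd i (psM τ R n) v - pd i (psM τ R n) w)| +
        |1 / 2 * ∑ i : Fin 3, ∑ j : Fin 3, aK i j (v - w) *
          (pd i (pd j (psM τ R n)) v + pd i (pd j (psM τ R n)) w)| := abs_add_le _ _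
    _ ≤ 3 * (4 * (C * (omM τ R v + omM τ R w) / ‖v - w‖)) +
        1 / 2 * (9 * (C * (omM τ R v + omM τ R w) / ‖v - w‖)) := by
        rw [abs_mul, abs_of_pos (by norm_num : (0 : ℝ) < 1 / 2)]
        linarith
    _ ≤ 17 * (C * (omM τ R v + omM τ R w) / ‖v - w‖) := by linarith
    _ = 17 * C * (omM τ R v + omM τ R w) / ‖v - w‖ := by ring

end HPsMAux

theorem psM_smooth {τ R n : ℝ} (hR : 0 < R) (hn : 0 < n) : ContDiff ℝ (⊤ : ℕ∞) (psM τ R n) := by
  exact HPsMAux.smooth' hR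

theorem psM_compact {τ R n : ℝ} (hR : 0 < R) (hn : 0 < n) : HasCompactSupport (psM τ R n) := by
  have h1 : HasCompactSupport (fun v : V => (1 - chi R v) * chi n v) :=
    (chi_compact hn).mul_left
  exact h1.mul_right

theorem psM_Kf {τ : ℝ} (h2 : 2 ≤ τ) (h3 : τ ≤ 3) : ∃ C : ℝ, 0 < C ∧ ∀ R n : ℝ, 0 < R → 0 < n →
    ∀ v w : V, |Kf (psM τ R n) v w| ≤ C * (omM τ R v + omM τ R w) / ‖v - w‖ := by
  obtain ⟨C, hC, hor⟩ := HPsMAux.psM_or h2 h3
  refine ⟨17 * C, by positivity, fun R n hR hn v w => ?_⟩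
  rcases le_total ‖v‖ ‖w‖ with h | h
  · exact HPsMAux.main h2 h3 hC hR (hor R n hR hn) v w h
  · have h4 := HPsMAux.main h2 h3 hC hR (hor R n hR hn) w v h
    rw [WKerAux.Kf_symm, norm_sub_rev, add_comm (omM τ R v)]
    exact h4

end Pool.Agent.LandauF
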