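import Pool.Agent.LandauF.HPsM
import Pool.Agent.LandauF.HPotT
import Pool.Agent.LandauG.WWeak
import Pool.Agent.LandauG.WRate

/-!
# LandauF, module HPsR: rate of change of the truncated moment

`weak_symW`, `psM_Kf` and symmetry in `(v, w)` (as in `rateW`, `LandauG/WRate.lean`):
`|∫ psM QL g| ≤ 2 C ∫ g v omM v (∫ g w/‖v - w‖ dw) dv = 2 C ∫_{‖v‖ ≥ R} g v ‖v‖^(τ-3) pot g v dv`.  For `‖v‖ ≥ R ≥ 1`, `pot_tail` with
`r = ‖v‖/2` and the hypothesis: `pot g v ≤ Cp ((CT (‖v‖/2)^(-β))^(2/3) + 2 N/‖v‖) ≤ C' (‖v‖^(-2β/3) + ‖v‖^(-1))`, so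
`‖v‖^(τ-3) pot g v ≤ 2 C' ‖v‖^(-1)` (`τ - 3 - 2β/3 ≤ -1`, `τ - 4 ≤ -1`).  Hence the bound `C'' Po g R`.
Integrability of `g v omM v pot g v`: it is at most `C' g v/‖v‖ ≤ C' g v` on `‖v‖ ≥ R ≥ 1`.
-/

set_option autoImplicit false

namespace Pool.Agent.LandauF

open MeasureTheory Set Filter Topology Pool.Agent.Landau

private theorem hpr_int0 {g : V → ℝ} (hg : Clw g) : Integrable (fun w => g w / ‖w‖) := by
  have h := pot_int g hg 0
  have h2 : (fun w : V => g w / ‖(0 : V) - w‖) = fun w => g w / ‖w‖ := by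
    funext w
    rw [zero_sub, norm_neg]
  rw [h2] at h
  exact h

private theorem hpr_omM_nonneg (τ R : ℝ) (v : V) : 0 ≤ omM τ R v := by
  unfold omM
  split_ifs
  · exact Real.rpow_nonneg (norm_nonneg _) _
  · exact le_rfl

private theorem hpr_omM_meas (τ R : ℝ) : Measurable (omM τ R) := by
  unfold omM
  exact Measurable.ite (measurableSet_le measurable_const measurable_norm)
    (measurable_norm.pow_const _) measurable_const

/-- the majorant kernel -/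
private noncomputable def hprH (τ R : ℝ) (g : V → ℝ) (p : V × V) : ℝ :=
  g p.1 * omM τ R p.1 * (g p.2 / ‖p.1 - p.2‖)

private theorem hprH_nonneg {τ R : ℝ} {g : V → ℝ} (hg : Clw g) (p : V × V) : 0 ≤ hprH τ R g p :=
  mul_nonneg (mul_nonneg (hg.nonneg _) (hpr_omM_nonneg _ _ _))
    (div_nonneg (hg.nonneg _) (norm_nonneg _))

private theorem hprH_meas {τ R : ℝ} {g : V → ℝ} (hg : Clw g) : Measurable (hprH τ R g) := by
  have h1 : Measurable g := hg.cont.measurable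
  have h2 : Measurable (omM τ R) := hpr_omM_meas τ R
  unfold hprH
  exact ((h1.comp measurable_fst).mul (h2.comp measurable_fst)).mul
    ((h1.comp measurable_snd).div (measurable_fst.sub measurable_snd).norm)

private theorem hprH_sec (τ R : ℝ) (g : V → ℝ) (v : V) :
    ∫ w, hprH τ R g (v, w) = g v * omM τ R v * pot g v :=
  integral_const_mul (g v * omM τ R v) (fun w => g w / ‖v - w‖)

private theorem hpr_pot_nonneg {g : V → ℝ} (hg : Clw g) (v : V) : 0 ≤ pot g v :=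
  integral_nonneg fun w => div_nonneg (hg.nonneg w) (norm_nonneg _)

private theorem hprH_int {τ R B : ℝ} {g : V → ℝ} (hg : Clw g)
    (hB : ∀ v, g v * omM τ R v * pot g v ≤
      B * {w : V | R ≤ ‖w‖}.indicator (fun w => g w / ‖w‖) v) :
    Integrable (hprH τ R g) (volume.prod volume) ∧
      ∫ p, hprH τ R g p ∂(volume.prod volume) ≤ B * Po g R := by
  have hm : MeasurableSet {w : V | R ≤ ‖w‖} := measurableSet_le measurable_const measurable_norm
  have hI : Integrable (fun v => B * {w : V | R ≤ ‖w‖}.indicator (fun w => g w / ‖w‖) v) :=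
    ((hpr_int0 hg).indicator hm).const_mul B
  have hHi : Integrable (hprH τ R g) (volume.prod volume) := by
    rw [integrable_prod_iff (hprH_meas hg).aestronglyMeasurable]
    refine ⟨Eventually.of_forall fun v => ?_, ?_⟩
    · exact (pot_int g hg v).const_mul (g v * omM τ R v)
    · have e1 : (fun v => ∫ w, ‖hprH τ R g (v, w)‖) = fun v => ∫ w, hprH τ R g (v, w) := by
        funext v
        refine integral_congr_ae (Eventually.of_forall fun w => ?_)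
        exact (Real.norm_eq_abs _).trans (abs_of_nonneg (hprH_nonneg hg _))
      have hm' : AEStronglyMeasurable (fun v => ∫ w, hprH τ R g (v, w)) volume :=
        ((hprH_meas hg).stronglyMeasurable.integral_prod_right').aestronglyMeasurable
      rw [e1]
      refine Integrable.mono' hI hm' (Eventually.of_forall fun v => ?_)
      have h0 : 0 ≤ ∫ w, hprH τ R g (v, w) := integral_nonneg fun w => hprH_nonneg hg _
      rw [Real.norm_eq_abs, abs_of_nonneg h0, hprH_sec]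
      exact hB v
  refine ⟨hHi, ?_⟩
  rw [integral_prod _ hHi]
  have e2 : B * Po g R = ∫ v, B * {w : V | R ≤ ‖w‖}.indicator (fun w => g w / ‖w‖) v := by
    rw [integral_const_mul, integral_indicator hm]
    rfl
  rw [e2]
  refine integral_mono_of_nonneg (Eventually.of_forall fun v => ?_) hI
    (Eventually.of_forall fun v => ?_)
  · exact integral_nonneg fun w => hprH_nonneg hg _
  · show ∫ w, hprH τ R g (v, w) ≤ _
    rw [hprH_sec]
    exact hB v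

private theorem hpr_pt {τ β N CT Cp : ℝ} (h3 : τ ≤ 3) (hτβ : τ ≤ 2 + 2 * β / 3)
    (hN : 0 < N) (hCT : 0 < CT) (hCp : 0 < Cp) {g : V → ℝ} (hg : Clw g)
    (hP : ∀ (r : ℝ) (v : V), 0 < r → 2 * r ≤ ‖v‖ →
      pot g v ≤ Cp * (mT g r ^ (2 / 3 : ℝ) + (∫ v, g v) / r))
    (hgN : ∫ v, g v ≤ N) {R : ℝ} (hR : 1 ≤ R)
    (hT : ∀ ρ : ℝ, R / 2 ≤ ρ → mT g ρ ≤ CT * ρ ^ (-β)) (v : V) :
    g v * omM τ R v * pot g v ≤ Cp * (CT ^ (2 / 3 : ℝ) * 2 ^ (2 * β / 3) + 2 * N) *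
      {w : V | R ≤ ‖w‖}.indicator (fun w => g w / ‖w‖) v := by
  by_cases hv : R ≤ ‖v‖
  · rw [indicator_of_mem (show v ∈ {w : V | R ≤ ‖w‖} from hv)]
    have hom : omM τ R v = ‖v‖ ^ (τ - 3) := by
      unfold omM
      rw [if_pos hv]
    have hv1 : 1 ≤ ‖v‖ := hR.trans hv
    have hv0 : 0 < ‖v‖ := by linarith
    have hg0 := hg.nonneg v
    have hp := hP (‖v‖ / 2) v (by linarith) (by linarith)
    have hm0 := mT_nonneg hg (‖v‖ / 2)
    have hm1 := hT (‖v‖ / 2) (by linarith)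
    have hm2 : mT g (‖v‖ / 2) ^ (2 / 3 : ℝ) ≤
        CT ^ (2 / 3 : ℝ) * (2 ^ (2 * β / 3) * ‖v‖ ^ (-(2 * β / 3))) := by
      refine (Real.rpow_le_rpow hm0 hm1 (by norm_num)).trans (le_of_eq ?_)
      rw [Real.mul_rpow hCT.le (Real.rpow_nonneg (by linarith) _), ← Real.rpow_mul (by linarith),
        Real.div_rpow hv0.le (by norm_num)]
      congr 1
      have e1 : -β * (2 / 3) = -(2 * β / 3) := by ring
      rw [e1, Real.rpow_neg (by norm_num : (0:ℝ) ≤ 2) (2 * β / 3), div_inv_eq_mul, mul_comm]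
    have hm3 : (∫ v, g v) / (‖v‖ / 2) ≤ 2 * N * ‖v‖⁻¹ := by
      rw [div_le_iff₀ (by linarith)]
      have : 2 * N * ‖v‖⁻¹ * (‖v‖ / 2) = N := by
        field_simp
      linarith
    have hw : 0 ≤ ‖v‖ ^ (τ - 3) := Real.rpow_nonneg hv0.le _
    have k1 : ‖v‖ ^ (τ - 3) * ‖v‖ ^ (-(2 * β / 3)) ≤ ‖v‖⁻¹ := by
      rw [← Real.rpow_add hv0, ← Real.rpow_neg_one]
      exact Real.rpow_le_rpow_of_exponent_le hv1 (by linarith)
    have k2 : ‖v‖ ^ (τ - 3) * ‖v‖⁻¹ ≤ ‖v‖⁻¹ := by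
      have : ‖v‖ ^ (τ - 3) ≤ 1 := Real.rpow_le_one_of_one_le_of_nonpos hv1 (by linarith)
      exact mul_le_of_le_one_left (inv_nonneg.2 hv0.le) this
    have hc1 : 0 ≤ CT ^ (2 / 3 : ℝ) * 2 ^ (2 * β / 3) :=
      mul_nonneg (Real.rpow_nonneg hCT.le _) (Real.rpow_nonneg (by norm_num) _)
    have k3 : ‖v‖ ^ (τ - 3) * pot g v ≤
        Cp * (CT ^ (2 / 3 : ℝ) * 2 ^ (2 * β / 3) + 2 * N) * ‖v‖⁻¹ := by
      calc ‖v‖ ^ (τ - 3) * pot g v
          ≤ ‖v‖ ^ (τ - 3) * (Cp * (CT ^ (2 / 3 : ℝ) * (2 ^ (2 * β / 3) * ‖v‖ ^ (-(2 * β / 3))) +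
              2 * N * ‖v‖⁻¹)) := by
            refine mul_le_mul_of_nonneg_left (hp.trans ?_) hw
            exact mul_le_mul_of_nonneg_left (add_le_add hm2 hm3) hCp.le
        _ = Cp * (CT ^ (2 / 3 : ℝ) * 2 ^ (2 * β / 3) * (‖v‖ ^ (τ - 3) * ‖v‖ ^ (-(2 * β / 3))) +
              2 * N * (‖v‖ ^ (τ - 3) * ‖v‖⁻¹)) := by ring
        _ ≤ Cp * (CT ^ (2 / 3 : ℝ) * 2 ^ (2 * β / 3) * ‖v‖⁻¹ + 2 * N * ‖v‖⁻¹) := by
            refine mul_le_mul_of_nonneg_left (add_le_add ?_ ?_) hCp.le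
            · exact mul_le_mul_of_nonneg_left k1 hc1
            · exact mul_le_mul_of_nonneg_left k2 (by linarith)
        _ = Cp * (CT ^ (2 / 3 : ℝ) * 2 ^ (2 * β / 3) + 2 * N) * ‖v‖⁻¹ := by ring
    rw [hom]
    calc g v * ‖v‖ ^ (τ - 3) * pot g v = g v * (‖v‖ ^ (τ - 3) * pot g v) := by ring
      _ ≤ g v * (Cp * (CT ^ (2 / 3 : ℝ) * 2 ^ (2 * β / 3) + 2 * N) * ‖v‖⁻¹) :=
          mul_le_mul_of_nonneg_left k3 hg0
      _ = Cp * (CT ^ (2 / 3 : ℝ) * 2 ^ (2 * β / 3) + 2 * N) * (g v / ‖v‖) := by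
          rw [div_eq_mul_inv]; ring
  · rw [indicator_of_notMem (show v ∉ {w : V | R ≤ ‖w‖} from hv)]
    have hom : omM τ R v = 0 := by
      unfold omM
      rw [if_neg hv]
    rw [hom]
    simp

theorem psi_rate {τ β N CT : ℝ} (h2 : 2 ≤ τ) (h3 : τ ≤ 3) (hβ : 0 < β) (hτβ : τ ≤ 2 + 2 * β / 3)
    (hN : 0 < N) (hCT : 0 < CT) : ∃ C : ℝ, 0 < C ∧ ∀ g : V → ℝ, Clw g → Integrable g →
    ∫ v, g v ≤ N → ∀ R n : ℝ, 1 ≤ R → 0 < n → (∀ ρ : ℝ, R / 2 ≤ ρ → mT g ρ ≤ CT * ρ ^ (-β)) →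
    |∫ v, psM τ R n v * QL g v| ≤ C * Po g R := by
  obtain ⟨A, hA, hK⟩ := psM_Kf h2 h3
  obtain ⟨Cp, hCp, hP⟩ := pot_tail
  have hc1 : 0 ≤ CT ^ (2 / 3 : ℝ) * 2 ^ (2 * β / 3) :=
    mul_nonneg (Real.rpow_nonneg hCT.le _) (Real.rpow_nonneg (by norm_num) _)
  refine ⟨2 * A * (Cp * (CT ^ (2 / 3 : ℝ) * 2 ^ (2 * β / 3) + 2 * N)), by positivity, ?_⟩
  intro g hg hi hgN R n hR hn hT
  have hR0 : 0 < R := by linarith
  obtain ⟨hF, hE⟩ := weak_symW g hg (psM τ R n) (psM_smooth hR0 hn) (psM_compact hR0 hn)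
  obtain ⟨hHi, hHb⟩ := hprH_int (τ := τ) (R := R) hg
    (hpr_pt h3 hτβ hN hCT hCp hg (hP g hg hi) hgN hR hT)
  have hHs : Integrable (fun p : V × V => hprH τ R g p.swap) (volume.prod volume) := hHi.swap
  have hsw : ∫ p : V × V, hprH τ R g p.swap ∂(volume.prod volume) =
      ∫ p, hprH τ R g p ∂(volume.prod volume) := integral_prod_swap _
  rw [hE]
  have hbd : ∀ p : V × V, ‖g p.1 * g p.2 * Kf (psM τ R n) p.1 p.2‖ ≤
      A * (hprH τ R g p + hprH τ R g p.swap) := by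
    rintro ⟨v, w⟩
    have h4 := hK R n hR0 hn v w
    have hv := hg.nonneg v
    have hw := hg.nonneg w
    have hgg : 0 ≤ g v * g w := mul_nonneg hv hw
    rw [Real.norm_eq_abs, abs_mul, abs_of_nonneg hgg]
    refine (mul_le_mul_of_nonneg_left h4 hgg).trans (le_of_eq ?_)
    show g v * g w * (A * (omM τ R v + omM τ R w) / ‖v - w‖) =
      A * (g v * omM τ R v * (g w / ‖v - w‖) + g w * omM τ R w * (g v / ‖w - v‖))
    rw [norm_sub_rev w v]
    ring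
  have hmain : |∫ p : V × V, g p.1 * g p.2 * Kf (psM τ R n) p.1 p.2 ∂(volume.prod volume)| ≤
      2 * A * ∫ p, hprH τ R g p ∂(volume.prod volume) := by
    rw [← Real.norm_eq_abs]
    refine (norm_integral_le_integral_norm _).trans ?_
    have h4 : ∫ p : V × V, ‖g p.1 * g p.2 * Kf (psM τ R n) p.1 p.2‖ ∂(volume.prod volume) ≤
        ∫ p : V × V, A * (hprH τ R g p + hprH τ R g p.swap) ∂(volume.prod volume) :=
      integral_mono hF.norm ((hHi.add hHs).const_mul _) hbd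
    refine h4.trans (le_of_eq ?_)
    rw [integral_const_mul, integral_add hHi hHs, hsw]
    ring
  refine hmain.trans ?_
  calc 2 * A * ∫ p, hprH τ R g p ∂(volume.prod volume)
      ≤ 2 * A * (Cp * (CT ^ (2 / 3 : ℝ) * 2 ^ (2 * β / 3) + 2 * N) * Po g R) :=
        mul_le_mul_of_nonneg_left hHb (by positivity)
    _ = 2 * A * (Cp * (CT ^ (2 / 3 : ℝ) * 2 ^ (2 * β / 3) + 2 * N)) * Po g R := by ring

end Pool.Agent.LandauF
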