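import Pool.Agent.LandauF.HWinC
import Pool.Agent.LandauF.HRq

/-!
# LandauF, module HRicC: the Riccati inequality on the window, with explicit powers

`RIC` with constants `c₁, C₁, C₂, s₁, ε₁`; `win_C C₁` gives `cΘ`.  Take `c = min (c₁/40) (cΘ/2)`.  For `x ≥ x₀` large (depending on
`κ` and the constants) apply `RIC` to `g τ`, `Ψ`, `M = {v | ‖v‖ ≤ 1/4}`, `s = 1/x^4`, `k = x` (`k s = 1/x^3 ≤ ε₁`),
`η = exp (-cΘ x)`, `p = 260 K0^(2/3)` (`K0 = Kw (g b)`; `pot_le_ball` and `Kw (g τ) ≤ 2 K0 ≤ 1`, `2^(2/3) ≤ 2`),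
`r₀ = 1/(40 x²) ≤ x^4 = 1/s`.  (If `‖y - v‖ ≤ s` with `‖v‖ ≤ 1/4` then `‖y‖ ≤ 3/10`.)  Then, with `mB (g τ) 0 3 ≤ 6 Kw (g τ) ≤ 12 κ/x^1200`
(`mB_three`), `K0^(2/3) ≤ κ^(2/3)/x^800` and `0 ≤ JB`, `0 ≤ FJ`:
`c₁ r₀ s³ = c₁/(40 x^14) ≥ c/x^14`; `C₂ (mB/s² + η JB) ≤ 12 C₂ κ x^8/x^1200 + C₂ exp (-cΘ x) JB ≤ 1/x^1180 + exp (-c x) JB`;
`C₂ p/s² = 260 C₂ κ^(2/3) x^8/x^800 ≤ 1/x^790`; `C₂ p/s⁴ mB ≤ 260 C₂ κ^(2/3) x^16/x^800 * 12 κ/x^1200 ≤ 1/x^1900`;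
`C₂ η/s⁴ (1 + Kw)(JB + mB) ≤ 2 C₂ x^16 exp (-cΘ x)(JB + 1) ≤ exp (-c x)(1 + JB)`.
(`exp (-cΘ x) * C₂ * 2 * x^16 ≤ exp (-(cΘ/2) x)` for `x` large: `Real.tendsto_pow_mul_exp_neg_atTop_nhds_zero`-like.)
The negative term is monotone: `max 0 (F - D1) ≥ max 0 (F - D2)` for `D1 ≤ D2`.
-/

set_option autoImplicit false

namespace Pool.Agent.LandauF

open MeasureTheory Set Filter Topology Pool.Agent.Landau

/-- the exponential beats the power -/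
private theorem hric_exp (C c : ℝ) (hc : 0 < c) :
    ∀ᶠ x : ℝ in atTop, 2 * C * x ^ 16 * Real.exp (-(c * x)) ≤ 1 := by
  have h := (tendsto_rpow_mul_exp_neg_mul_atTop_nhds_zero (16 : ℝ) c hc).const_mul (2 * C)
  rw [mul_zero] at h
  have h2 := h.eventually_le_const (show (0 : ℝ) < 1 by norm_num)
  filter_upwards [h2] with x hx
  have e : x ^ (16 : ℝ) = x ^ 16 := by
    rw [show (16 : ℝ) = ((16 : ℕ) : ℝ) by norm_num, Real.rpow_natCast]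
  rw [e] at hx
  have e2 : -c * x = -(c * x) := by ring
  rw [e2] at hx
  calc 2 * C * x ^ 16 * Real.exp (-(c * x)) = 2 * C * (x ^ 16 * Real.exp (-(c * x))) := by ring
    _ ≤ 1 := hx

/-- the algebra of the powers -/
private theorem hric_alg {c c₁ C₂ cΘ κ P x F J m K : ℝ} (hc0 : 0 < c) (hc1 : c ≤ c₁ / 40)
    (hcΘ : c ≤ cΘ / 2) (hC₂ : 0 < C₂) (hκ : 0 < κ) (hP : 0 ≤ P) (hx1 : 1 ≤ x)
    (hx2 : 12 * C₂ * κ ≤ x) (hx3 : C₂ * P ≤ x) (hx4 : 12 * C₂ * P * κ ≤ x) (hx5 : 12 * κ ≤ x)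
    (hxe : 2 * C₂ * x ^ 16 * Real.exp (-(cΘ / 2 * x)) ≤ 1)
    (hF : 0 ≤ F) (hJ : 0 ≤ J) (hm : 0 ≤ m) (hK1 : K ≤ 1)
    (hmx : m ≤ 12 * κ / x ^ 1200) :
    -(c₁ * (1 / (40 * x ^ 2)) * (1 / x ^ 4) ^ 3 *
          (max 0 (F - C₂ * (m / (1 / x ^ 4) ^ 2 + Real.exp (-(cΘ * x)) * J))) ^ 2)
        + C₂ * (P / x ^ 800) / (1 / x ^ 4) ^ 2 * F + C₂ * (P / x ^ 800) / (1 / x ^ 4) ^ 4 * m
        + C₂ * Real.exp (-(cΘ * x)) / (1 / x ^ 4) ^ 4 * (1 + K) * (J + m) ≤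
      -(c / x ^ 14 * (max 0 (F - (1 / x ^ 1180 + Real.exp (-(c * x)) * J))) ^ 2)
        + 1 / x ^ 790 * F + (1 / x ^ 1900 + Real.exp (-(c * x)) * (1 + J)) := by
  have hx : 0 < x := by linarith
  obtain ⟨e, he⟩ : ∃ e, e = Real.exp (-(cΘ / 2 * x)) := ⟨_, rfl⟩
  have he0 : 0 < e := by rw [he]; exact Real.exp_pos _
  rw [← he] at hxe
  have hee : Real.exp (-(cΘ * x)) = e * e := by
    rw [he, ← Real.exp_add]
    congr 1
    ring
  have hce : e ≤ Real.exp (-(c * x)) := by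
    rw [he]
    apply Real.exp_le_exp.2
    have := mul_le_mul_of_nonneg_right hcΘ hx.le
    linarith
  obtain ⟨E, hE⟩ : ∃ E, E = Real.exp (-(c * x)) := ⟨_, rfl⟩
  rw [← hE] at hce ⊢
  rw [hee]
  have hE0 : 0 < E := he0.trans_le hce
  have hp16 : 1 ≤ x ^ 16 := one_le_pow₀ hx1
  have hC2e : C₂ * (e * e) ≤ E := by
    have h1 : C₂ * e ≤ 1 := by
      refine le_trans ?_ hxe
      have : C₂ * e * 1 ≤ C₂ * e * (2 * x ^ 16) :=
        mul_le_mul_of_nonneg_left (by linarith) (by positivity)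
      linarith
    calc C₂ * (e * e) = C₂ * e * e := by ring
      _ ≤ 1 * E := mul_le_mul h1 hce he0.le zero_le_one
      _ = E := one_mul _
  -- first term
  have t1 : c / x ^ 14 * (max 0 (F - (1 / x ^ 1180 + E * J))) ^ 2 ≤
      c₁ * (1 / (40 * x ^ 2)) * (1 / x ^ 4) ^ 3 *
          (max 0 (F - C₂ * (m / (1 / x ^ 4) ^ 2 + e * e * J))) ^ 2 := by
    have a1 : c / x ^ 14 ≤ c₁ * (1 / (40 * x ^ 2)) * (1 / x ^ 4) ^ 3 := by
      have h1 : c₁ * (1 / (40 * x ^ 2)) * (1 / x ^ 4) ^ 3 = (c₁ / 40) / x ^ 14 := by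
        field_simp
      rw [h1]
      exact div_le_div_of_nonneg_right hc1 (by positivity)
    have a2 : C₂ * (m / (1 / x ^ 4) ^ 2 + e * e * J) ≤ 1 / x ^ 1180 + E * J := by
      have b1 : m / (1 / x ^ 4) ^ 2 = m * x ^ 8 := by
        field_simp
      have b2 : C₂ * (m * x ^ 8) ≤ 1 / x ^ 1180 := by
        rw [le_div_iff₀ (by positivity)]
        have h1 : m * x ^ 1200 ≤ 12 * κ := by
          rwa [le_div_iff₀ (by positivity)] at hmx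
        have h2 : x ≤ x ^ 12 := le_self_pow₀ hx1 (by norm_num)
        have h3 : C₂ * (m * x ^ 8) * x ^ 1180 * x ^ 12 ≤ 1 * x ^ 12 := by
          calc C₂ * (m * x ^ 8) * x ^ 1180 * x ^ 12 = C₂ * (m * x ^ 1200) := by ring
            _ ≤ C₂ * (12 * κ) := mul_le_mul_of_nonneg_left h1 hC₂.le
            _ = 12 * C₂ * κ := by ring
            _ ≤ 1 * x ^ 12 := by linarith
        exact le_of_mul_le_mul_right h3 (by positivity)
      have b3 : C₂ * (e * e * J) ≤ E * J := by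
        calc C₂ * (e * e * J) = C₂ * (e * e) * J := by ring
          _ ≤ E * J := mul_le_mul_of_nonneg_right hC2e hJ
      rw [b1]
      calc C₂ * (m * x ^ 8 + e * e * J) = C₂ * (m * x ^ 8) + C₂ * (e * e * J) := by ring
        _ ≤ _ := add_le_add b2 b3
    have a3 : max 0 (F - (1 / x ^ 1180 + E * J)) ≤
        max 0 (F - C₂ * (m / (1 / x ^ 4) ^ 2 + e * e * J)) :=
      max_le_max le_rfl (by linarith)
    have a4 : (max 0 (F - (1 / x ^ 1180 + E * J))) ^ 2 ≤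
        (max 0 (F - C₂ * (m / (1 / x ^ 4) ^ 2 + e * e * J))) ^ 2 :=
      pow_le_pow_left₀ (le_max_left _ _) a3 2
    exact mul_le_mul a1 a4 (sq_nonneg _) ((by positivity : 0 ≤ c / x ^ 14).trans a1)
  -- second term
  have t2 : C₂ * (P / x ^ 800) / (1 / x ^ 4) ^ 2 * F ≤ 1 / x ^ 790 * F := by
    refine mul_le_mul_of_nonneg_right ?_ hF
    have h1 : C₂ * (P / x ^ 800) / (1 / x ^ 4) ^ 2 = C₂ * P / x ^ 792 := by
      field_simp
    rw [h1, div_le_div_iff₀ (by positivity) (by positivity)]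
    have h2 : x ≤ x ^ 2 := le_self_pow₀ hx1 (by norm_num)
    calc C₂ * P * x ^ 790 ≤ x ^ 2 * x ^ 790 :=
          mul_le_mul_of_nonneg_right (hx3.trans h2) (by positivity)
      _ = 1 * x ^ 792 := by ring
  have t3 : C₂ * (P / x ^ 800) / (1 / x ^ 4) ^ 4 * m ≤ 1 / x ^ 1900 := by
    have h1 : C₂ * (P / x ^ 800) / (1 / x ^ 4) ^ 4 = C₂ * P / x ^ 784 := by
      field_simp
    rw [h1]
    calc C₂ * P / x ^ 784 * m ≤ C₂ * P / x ^ 784 * (12 * κ / x ^ 1200) :=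
          mul_le_mul_of_nonneg_left hmx (by positivity)
      _ = 12 * C₂ * P * κ / x ^ 1984 := by
          field_simp
      _ ≤ 1 / x ^ 1900 := by
          rw [div_le_div_iff₀ (by positivity) (by positivity)]
          have h2 : x ≤ x ^ 84 := le_self_pow₀ hx1 (by norm_num)
          calc 12 * C₂ * P * κ * x ^ 1900 ≤ x ^ 84 * x ^ 1900 :=
                mul_le_mul_of_nonneg_right (hx4.trans h2) (by positivity)
            _ = 1 * x ^ 1984 := by ring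
  have t4 : C₂ * (e * e) / (1 / x ^ 4) ^ 4 * (1 + K) * (J + m) ≤ E * (1 + J) := by
    have h1 : C₂ * (e * e) / (1 / x ^ 4) ^ 4 = C₂ * (e * e) * x ^ 16 := by
      field_simp
    rw [h1]
    have hm1 : m ≤ 1 := by
      refine hmx.trans ?_
      rw [div_le_one (by positivity)]
      exact hx5.trans (le_self_pow₀ hx1 (by norm_num))
    calc C₂ * (e * e) * x ^ 16 * (1 + K) * (J + m)
        ≤ C₂ * (e * e) * x ^ 16 * 2 * (J + 1) := by
          refine mul_le_mul (mul_le_mul_of_nonneg_left (by linarith) (by positivity))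
            (by linarith) (by positivity) (by positivity)
      _ = (2 * C₂ * x ^ 16 * e) * e * (1 + J) := by ring
      _ ≤ 1 * E * (1 + J) := by
          refine mul_le_mul_of_nonneg_right (mul_le_mul hxe hce he0.le zero_le_one) (by linarith)
      _ = E * (1 + J) := by ring
  linarith

theorem ric_C : ∃ c : ℝ, 0 < c ∧ ∀ κ : ℝ, 0 < κ → ∃ x₀ : ℝ, 1 ≤ x₀ ∧ ∀ x : ℝ, x₀ ≤ x →
    ∀ g : ℝ → V → ℝ, SolP g → ∀ b < 0, Kw (g b) ≤ κ / x ^ 1200 →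
    Kw (g b) ≤ x ^ 2 * Po (g b) 1 → ∃ Ψ : V → ℝ, ContDiff ℝ (⊤ : ℕ∞) Ψ ∧ (∀ v, 0 ≤ Ψ v) ∧
      (∀ v, ‖v‖ ≤ 1 / 8 → Ψ v = 0) ∧ ∀ τ ∈ Icc (b - x ^ 630) b,
      dFJ (wt x Ψ) (g τ) ≤
        -(c / x ^ 14 * (max 0 (FJ (wt x Ψ) (g τ) -
          (1 / x ^ 1180 + Real.exp (-(c * x)) * JB (g τ) 0 3))) ^ 2)
        + 1 / x ^ 790 * FJ (wt x Ψ) (g τ)
        + (1 / x ^ 1900 + Real.exp (-(c * x)) * (1 + JB (g τ) 0 3)) := by
  obtain ⟨c₁, C₁, C₂, s₁, ε₁, hc₁, hC₁, hC₂, hs₁, hs₁1, hε₁, hR⟩ := RIC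
  obtain ⟨cΘ, hcΘ, hw⟩ := win_C C₁ hC₁
  refine ⟨min (c₁ / 40) (cΘ / 2), lt_min (by positivity) (by positivity), fun κ hκ => ?_⟩
  obtain ⟨x₁, hx₁, hw⟩ := hw κ hκ
  obtain ⟨P, hP⟩ : ∃ P, P = 130 * (2 * κ) ^ (2 / 3 : ℝ) := ⟨_, rfl⟩
  have hP0 : 0 ≤ P := by rw [hP]; positivity
  have hev : ∀ᶠ x : ℝ in atTop, 2 * C₂ * x ^ 16 * Real.exp (-(cΘ / 2 * x)) ≤ 1 ∧ x₁ ≤ x ∧
      1 / s₁ ≤ x ∧ 1 / ε₁ ≤ x ∧ 20 ≤ x ∧ 12 * C₂ * κ ≤ x ∧ C₂ * P ≤ x ∧ 12 * C₂ * P * κ ≤ x ∧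
      12 * κ ≤ x := by
    filter_upwards [hric_exp C₂ (cΘ / 2) (by positivity), eventually_ge_atTop x₁,
      eventually_ge_atTop (1 / s₁), eventually_ge_atTop (1 / ε₁), eventually_ge_atTop (20 : ℝ),
      eventually_ge_atTop (12 * C₂ * κ), eventually_ge_atTop (C₂ * P),
      eventually_ge_atTop (12 * C₂ * P * κ), eventually_ge_atTop (12 * κ)]
      with x h1 h2 h3 h4 h5 h6 h7 h8 h9
    exact ⟨h1, h2, h3, h4, h5, h6, h7, h8, h9⟩
  obtain ⟨x₂, hx₂⟩ := eventually_atTop.1 hev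
  refine ⟨max 1 x₂, le_max_left _ _, fun x hx g hg b hb hK hPo => ?_⟩
  obtain ⟨k1, k2, k3, k4, k5, k6, k7, k8, k9⟩ := hx₂ x ((le_max_right _ _).trans hx)
  have hx1 : 1 ≤ x := (le_max_left _ _).trans hx
  have hx0 : 0 < x := by linarith
  obtain ⟨Ψ, hΨ, hΨ0, hΨ1, hΨ2, hΨ3, hΨ4, hΨ5, hΨ6⟩ := hw x k2 g hg b hb hK hPo
  refine ⟨Ψ, hΨ, hΨ0, hΨ3, fun τ hτ => ?_⟩
  obtain ⟨w1, w2, w3⟩ := hΨ6 τ hτ
  have hDn : Dn (g τ) := ⟨hg.sol.cls τ (hτ.2.trans hb.le), hg.pos τ (hτ.2.trans_lt hb)⟩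
  have hKτ : Kw (g τ) ≤ 2 * κ / x ^ 1200 := by
    calc Kw (g τ) ≤ 2 * Kw (g b) := w1
      _ ≤ 2 * (κ / x ^ 1200) := by linarith
      _ = _ := by ring
  have hK1 : Kw (g τ) ≤ 1 := by
    refine hKτ.trans ?_
    rw [div_le_one (by positivity)]
    have : x ≤ x ^ 1200 := le_self_pow₀ hx1 (by norm_num)
    linarith
  have hs4 : 1 / x ^ 4 ≤ 1 / x := by
    rw [div_le_div_iff₀ (by positivity) (by positivity)]
    have : x ≤ x ^ 4 := le_self_pow₀ hx1 (by norm_num)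
    linarith
  have hpot : ∀ v : V, ‖v‖ ≤ 1 / 4 → pot (g τ) v ≤ P / x ^ 800 := by
    intro v hv
    refine (pot_le_ball hDn.cls hK1 (v := v) (by linarith)).trans ?_
    have h1 : Kw (g τ) ^ (2 / 3 : ℝ) ≤ (2 * κ / x ^ 1200) ^ (2 / 3 : ℝ) :=
      Real.rpow_le_rpow hDn.cls.Kw_nonneg hKτ (by norm_num)
    have h2 : (2 * κ / x ^ 1200) ^ (2 / 3 : ℝ) = (2 * κ) ^ (2 / 3 : ℝ) / x ^ 800 := by
      rw [Real.div_rpow (by positivity) (by positivity)]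
      congr 1
      rw [← Real.rpow_natCast, ← Real.rpow_mul hx0.le, ← Real.rpow_natCast]
      norm_num
    rw [h2] at h1
    calc 130 * Kw (g τ) ^ (2 / 3 : ℝ) ≤ 130 * ((2 * κ) ^ (2 / 3 : ℝ) / x ^ 800) := by linarith
      _ = P / x ^ 800 := by rw [hP]; ring
  have hmain := hR (g τ) Ψ {v : V | ‖v‖ ≤ 1 / 4} (1 / x ^ 4) x (Real.exp (-(cΘ * x)))
    (P / x ^ 800) (1 / (40 * x ^ 2)) hDn (by positivity)
    (hs4.trans (by rw [div_le_iff₀ hx0]; rw [div_le_iff₀ hs₁] at k3; linarith))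
    hx0.le
    (by
      have h1 : x * (1 / x ^ 4) = 1 / x ^ 3 := by field_simp
      have h2 : 1 / x ^ 3 ≤ 1 / x := by
        rw [div_le_div_iff₀ (by positivity) (by positivity)]
        have : x ≤ x ^ 3 := le_self_pow₀ hx1 (by norm_num)
        linarith
      rw [h1]
      refine h2.trans ?_
      rw [div_le_iff₀ hx0]
      rw [div_le_iff₀ hε₁] at k4
      linarith)
    hΨ hΨ0 hΨ1 hΨ2 (fun v hv i => hΨ5 v (by linarith) i)
    (isClosed_le continuous_norm continuous_const)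
    (fun v hv => by have : ‖v‖ ≤ 1 / 4 := hv; linarith)
    (Real.exp_pos _).le (Real.exp_le_one_iff.2 (by
      have : 0 < cΘ * x := by positivity
      linarith)) (by positivity) (by positivity)
    (by
      rw [div_le_div_iff₀ (by positivity) (by positivity)]
      have h1 : 1 / x ^ 4 ≤ 1 := by
        rw [div_le_one (by positivity)]
        exact one_le_pow₀ hx1
      have h2 : 1 ≤ x ^ 2 := one_le_pow₀ hx1
      linarith)
    (fun v hv => by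
      have h1 : 1 / 4 ≤ ‖v‖ := by
        have : ¬ ‖v‖ ≤ 1 / 4 := hv
        push Not at this
        exact this.le
      apply Real.exp_le_exp.2
      have := mul_le_mul_of_nonneg_left (hΨ4 v h1) hx0.le
      linarith)
    (fun v hv => hpot v hv)
    (fun y hy => by
      obtain ⟨v, hv, hyv⟩ := hy
      apply w2
      have h1 : ‖v‖ ≤ 1 / 4 := hv
      have h2 : ‖y‖ ≤ ‖v‖ + ‖y - v‖ := by
        calc ‖y‖ = ‖v + (y - v)‖ := by congr 1; abel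
          _ ≤ _ := norm_add_le _ _
      have h3 : 1 / x ≤ 1 / 20 := by
        rw [div_le_div_iff₀ hx0 (by norm_num)]
        linarith
      linarith)
    w3
  refine hmain.trans ?_
  refine hric_alg (lt_min (by positivity) (by positivity)) (min_le_left _ _) (min_le_right _ _) hC₂ hκ hP0 hx1 k6 k7 k8 k9 k1
    (FJ_nonneg hDn fun v => mul_nonneg (Real.exp_pos _).le (pow_nonneg (chi_nonneg 1 v) 6))
    (JB_nonneg hDn 0 3) (mB_nonneg hDn.cls 0 3) hK1 ?_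
  refine (mB_three hDn.cls).trans ?_
  calc 6 * Kw (g τ) ≤ 6 * (2 * κ / x ^ 1200) := by linarith
    _ = 12 * κ / x ^ 1200 := by ring

end Pool.Agent.LandauF
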