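import Pool.Agent.LandauF.HDil

/-!
# LandauF, module HShS: finitely many shells

`Fa_nonneg`, `Fa_cover`: the shell `ϑ R ≤ ‖v‖ ≤ 3 R` is covered by the shells `ϱ_i ≤ ‖v‖ ≤ (3/2) ϱ_i`, `ϱ_i = (3/2)^i ϑ R`, `i ≤ n₀`, where
`(3/2)^(n₀+1) ϑ ≥ 3`; `fi` is nonnegative and continuous (locally integrable).
`shells`: for `t ∈ [b - c' ϑ³ R^τ, b]` every `ϱ_i ≥ ϑ R ≥ R₀'` has `c' ϱ_i^τ ≥ c' ϑ^τ R^τ ≥ c' ϑ³ R^τ`, so the hypothesis applies, and
`ϱ_i^e ≤ (ϑ R)^e = ϑ^e R^e` as `e < 0`.  Constants: `c'' = c' ϑ³`, `C'' = (n₀+1) C' ϑ^e`, `R₀'' = R₀'/ϑ`.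
-/

set_option autoImplicit false

namespace Pool.Agent.LandauF

open MeasureTheory Set Filter Topology Pool.Agent.Landau

theorem fi_cont {g : V → ℝ} (hg : Dn g) : Continuous (fi g) := by
  have hc : Continuous g := hg.cls.smooth.continuous
  have h1 : ∀ i, Continuous (gam i g) := fun i =>
    (smooth_pd hg.cls.smooth i).continuous.div hc fun v => (hg.pos v).ne'
  unfold fi x2
  exact hc.mul (continuous_finsetSum _ fun i _ => (h1 i).pow 2)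

theorem fi_nonneg {g : V → ℝ} (hg : Dn g) (v : V) : 0 ≤ fi g v :=
  mul_nonneg (hg.pos v).le (Finset.sum_nonneg fun _ _ => sq_nonneg _)

private theorem shell_meas (a b : ℝ) : MeasurableSet {v : V | a ≤ ‖v‖ ∧ ‖v‖ ≤ b} :=
  ((isClosed_le continuous_const continuous_norm).inter
      (isClosed_le continuous_norm continuous_const)).measurableSet

private theorem shell_int {g : V → ℝ} (hg : Dn g) (a b : ℝ) :
    IntegrableOn (fi g) {v : V | a ≤ ‖v‖ ∧ ‖v‖ ≤ b} := by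
  have h1 : IntegrableOn (fi g) (Metric.closedBall (0 : V) b) :=
    (fi_cont hg).continuousOn.integrableOn_compact (isCompact_closedBall _ _)
  refine h1.mono_set ?_
  intro v hv
  rw [mem_closedBall_zero_iff]
  exact hv.2

theorem Fa_nonneg {g : V → ℝ} (hg : Dn g) (a b : ℝ) : 0 ≤ Fa g a b :=
  integral_nonneg fun v => fi_nonneg hg v

theorem Fa_mono {g : V → ℝ} (hg : Dn g) {a b a' b' : ℝ} (h1 : a' ≤ a) (h2 : b ≤ b') :
    Fa g a b ≤ Fa g a' b' := by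
  unfold Fa
  refine setIntegral_mono_set (shell_int hg a' b') (Eventually.of_forall fun v => fi_nonneg hg v) ?_
  refine LE.le.eventuallyLE ?_
  intro v hv
  exact ⟨h1.trans hv.1, hv.2.trans h2⟩

theorem Fa_split {g : V → ℝ} (hg : Dn g) (a b c : ℝ) : Fa g a c ≤ Fa g a b + Fa g b c := by
  unfold Fa
  have h1 := shell_int hg a b
  have h2 := shell_int hg b c
  have hsub : {v : V | a ≤ ‖v‖ ∧ ‖v‖ ≤ c} ⊆
      {v : V | a ≤ ‖v‖ ∧ ‖v‖ ≤ b} ∪ {v : V | b ≤ ‖v‖ ∧ ‖v‖ ≤ c} := by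
    intro v hv
    rcases le_total ‖v‖ b with h | h
    · exact Or.inl ⟨hv.1, h⟩
    · exact Or.inr ⟨h, hv.2⟩
  have hle : (volume : Measure V).restrict {v : V | a ≤ ‖v‖ ∧ ‖v‖ ≤ c} ≤
      (volume : Measure V).restrict {v : V | a ≤ ‖v‖ ∧ ‖v‖ ≤ b} +
        (volume : Measure V).restrict {v : V | b ≤ ‖v‖ ∧ ‖v‖ ≤ c} :=
    (Measure.restrict_mono hsub le_rfl).trans (Measure.restrict_union_le _ _)
  rw [← integral_add_measure h1 h2]
  exact integral_mono_measure hle (Eventually.of_forall fun v => fi_nonneg hg v)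
    (Integrable.add_measure h1 h2)

private theorem Fa_chain {g : V → ℝ} (hg : Dn g) (r q : ℝ) (k : ℕ) :
    Fa g r (q ^ (k + 1) * r) ≤
      ∑ i ∈ Finset.range (k + 1), Fa g (q ^ i * r) (q * (q ^ i * r)) := by
  induction k with
  | zero => simp
  | succ k ih =>
    rw [Finset.sum_range_succ]
    have h1 := Fa_split hg r (q ^ (k + 1) * r) (q ^ (k + 1 + 1) * r)
    have h2 : q ^ (k + 1 + 1) * r = q * (q ^ (k + 1) * r) := by ring
    rw [h2] at h1 ⊢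
    linarith

theorem shells {f : ℝ → V → ℝ} (hf : SolP f) {b : ℝ} (hb : b < 0) {τ e c' C' R₀ ϑ : ℝ}
    (hτ2 : 0 ≤ τ) (hτ : τ ≤ 3) (he : e < 0) (hc : 0 < c') (hC : 0 < C') (hR : 1 ≤ R₀) (hϑ : 0 < ϑ)
    (hϑ1 : ϑ ≤ 1) (h : ∀ R : ℝ, R₀ ≤ R → ∀ t ∈ Icc (b - c' * R ^ τ) b,
      Fa (f t) R (3 / 2 * R) ≤ C' * R ^ e) :
    ∃ c'' C'' R₁ : ℝ, 0 < c'' ∧ 0 < C'' ∧ 1 ≤ R₁ ∧ ∀ R : ℝ, R₁ ≤ R →
      ∀ t ∈ Icc (b - c'' * R ^ τ) b, Fa (f t) (ϑ * R) (3 * R) ≤ C'' * R ^ e := by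
  obtain ⟨k, hk⟩ := pow_unbounded_of_one_lt (3 / ϑ) (by norm_num : (1 : ℝ) < 3 / 2)
  refine ⟨c' * ϑ ^ 3, (k + 1) * (C' * ϑ ^ e), R₀ / ϑ, by positivity,
    mul_pos (by positivity) (mul_pos hC (Real.rpow_pos_of_pos hϑ e)), ?_, ?_⟩
  · rw [le_div_iff₀ hϑ]
    linarith
  · intro R hR1 t ht
    have hR1' : R₀ ≤ ϑ * R := by
      rw [div_le_iff₀ hϑ] at hR1
      linarith
    have hRpos : 0 < R := by
      have : 0 < ϑ * R := by linarith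
      exact (mul_pos_iff_of_pos_left hϑ).1 this
    have ht0 : t < 0 := lt_of_le_of_lt ht.2 hb
    have hg : Dn (f t) := ⟨hf.sol.cls t ht0.le, hf.pos t ht0⟩
    have h3 : 3 * R ≤ (3 / 2 : ℝ) ^ (k + 1) * (ϑ * R) := by
      rw [div_lt_iff₀ hϑ] at hk
      have h4 : (3 / 2 : ℝ) ^ k ≤ (3 / 2 : ℝ) ^ (k + 1) :=
        pow_le_pow_right₀ (by norm_num) (Nat.le_succ k)
      have h5 : 3 ≤ (3 / 2 : ℝ) ^ (k + 1) * ϑ :=
        hk.le.trans (mul_le_mul_of_nonneg_right h4 hϑ.le)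
      calc 3 * R ≤ ((3 / 2 : ℝ) ^ (k + 1) * ϑ) * R := mul_le_mul_of_nonneg_right h5 hRpos.le
        _ = _ := by ring
    have hterm : ∀ i ∈ Finset.range (k + 1),
        Fa (f t) ((3 / 2 : ℝ) ^ i * (ϑ * R)) (3 / 2 * ((3 / 2 : ℝ) ^ i * (ϑ * R))) ≤
          C' * ϑ ^ e * R ^ e := by
      intro i _
      have hϑR : 0 < ϑ * R := mul_pos hϑ hRpos
      have h6 : ϑ * R ≤ (3 / 2 : ℝ) ^ i * (ϑ * R) :=
        le_mul_of_one_le_left hϑR.le (one_le_pow₀ (by norm_num))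
      have h7 : c' * ϑ ^ 3 * R ^ τ ≤ c' * ((3 / 2 : ℝ) ^ i * (ϑ * R)) ^ τ := by
        rw [mul_assoc]
        refine mul_le_mul_of_nonneg_left ?_ hc.le
        calc ϑ ^ 3 * R ^ τ ≤ ϑ ^ τ * R ^ τ := by
              refine mul_le_mul_of_nonneg_right ?_ (Real.rpow_nonneg hRpos.le _)
              rw [← Real.rpow_natCast]
              exact Real.rpow_le_rpow_of_exponent_ge hϑ hϑ1 (by simpa using hτ)
          _ = (ϑ * R) ^ τ := (Real.mul_rpow hϑ.le hRpos.le).symm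
          _ ≤ _ := Real.rpow_le_rpow hϑR.le h6 hτ2
      have h8 := h _ (hR1'.trans h6) t ⟨by linarith [ht.1], ht.2⟩
      refine h8.trans ?_
      rw [mul_assoc, ← Real.mul_rpow hϑ.le hRpos.le]
      exact mul_le_mul_of_nonneg_left (Real.rpow_le_rpow_of_nonpos hϑR h6 he.le) hC.le
    calc Fa (f t) (ϑ * R) (3 * R) ≤ Fa (f t) (ϑ * R) ((3 / 2 : ℝ) ^ (k + 1) * (ϑ * R)) :=
          Fa_mono hg le_rfl h3
      _ ≤ ∑ i ∈ Finset.range (k + 1),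
          Fa (f t) ((3 / 2 : ℝ) ^ i * (ϑ * R)) (3 / 2 * ((3 / 2 : ℝ) ^ i * (ϑ * R))) :=
          Fa_chain hg (ϑ * R) (3 / 2) k
      _ ≤ ∑ _i ∈ Finset.range (k + 1), C' * ϑ ^ e * R ^ e := Finset.sum_le_sum hterm
      _ = (k + 1) * (C' * ϑ ^ e) * R ^ e := by
          rw [Finset.sum_const, Finset.card_range, nsmul_eq_mul]
          push_cast
          ring

end Pool.Agent.LandauF
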