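import Pool.Agent.LandauF.HShS
import Pool.Agent.LandauF.HEnF
import Pool.Agent.LandauF.HDilSol

/-!
# LandauF, module HSumW: the one cell inequality on the windows

`JR f R t = FJ (wt 0 0 (· / R)) (f t)`; by `FJ_dl`, `JR f R t = R FJ (wt 0 0) (dl R (f t))`, so by `FJ_deriv` (for `f` and for the
solution `dl R f`) and uniqueness of derivatives `JR f R` has at `t` the derivative `R dFJ (wt 0 0) (dl R (f t))`.

Let `SUMI` have constants `c₁ C₁ s₁`; `s = min s₁ (1/20)` (a fixed number), `Cp` the constants of `pot_tail`, `pot2_tail`; `e = 1 - τ + β/6`.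
The hypothesis `hS` is used for the shell `s/8`.  `N = ∫ f b` is the integral of every `f t` (`mass_at`).  Let
`c_w = min (c (s/16)^3) cS`, `R` large, `t ∈ [b - c_w R^τ, b]`, `g = dl R (f t)`.  For `ρ ≥ s R/16` (`≥ ρ₀`): `c ρ^τ ≥ c_w R^τ`, so
`mT (f t) ρ ≤ C ρ^(-β)`; `mT g r = mT (f t) (R r)/R³`, `∫ g = N/R³`.  Below `C'` is a constant that may change.
`q₀ = mT g (s/8) ≤ C' R^(-3-β)`.  For `s/8 ≤ ‖v‖ ≤ 3`, `pot_tail`, `pot2_tail` with `r = s/16`: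
`q₁ = C' (R^(-2-2β/3) + R^(-1-β/3) + R^(-3)) ≤ C' R^(-1-β/3)` (`β ≤ 2`).
`r₀ = R Po (f t) (R/2)/N`: `mB g 0 (2 s) ≤ N/R³`, `PB g 0 s ≥ Po g (1/2) = Po (f t) (R/2)/R²` (`10 s ≤ 1/2`), so
`r₀ mB ≤ PB`; and `Po (f t) (R/2) ≤ 2 N/R` (`Po_le`), so `r₀ ≤ 2 ≤ 1/s`.
Main term: `JR ≤ JB (f t) 0 (s R) + Fa (f t) (s R) (2 R)` (`0 ≤ wt 0 0 ≤ 1`, zero outside `B_2`), and `Fa ≤ C' R^e`, so with `JB_dl`
`R (JB g 0 s - C₁ mB g 0 (2 s)/s²) ≥ JR - C' R^e - C₁ N/(s² R²) ≥ JR - C' R^e` (`e ≥ -2`).  So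
`R c₁ r₀ (max 0 (JB g 0 s - ..))² ≥ (c₁/N) Po (f t) (R/2) (max 0 (JR - C' R^e))²`.
Errors: `R C₁ q₀/s³ JB g 0 (s/8) = C₁ q₀/s³ JB (f t) 0 (s R/8) ≤ C' R^(-3-β) JR` (`wt 0 0 = 1` on the unit ball);
`R C₁ q₁/s⁴ (Fa (f t) (s R/8) (3 R)/R + mT g (s/8)) ≤ C' R^(-1-β/3)(R^e + R^(-2-β)) ≤ C' R^(-τ-β/6)`
(`-1 - β/3 + 1 - τ + β/6 = -τ - β/6`; `-3 - 4β/3 ≤ -τ - β/6`); `R C₁ q₀/s⁵ mB g 0 (s/8) ≤ C' R^(-5-β) ≤ C' R^(-τ-β/6)`.
And `-3 - β ≤ -τ - β/6`.  (`∫ (fi + g)` over the shell is `Fa g (s/8) 3` plus at most `mT g (s/8)`.)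
-/

set_option autoImplicit false

namespace Pool.Agent.LandauF

open MeasureTheory Set Filter Topology Pool.Agent.Landau

/-- Fisher information with the weight `χ(·/R)⁶` -/
noncomputable def JR (f : ℝ → V → ℝ) (R t : ℝ) : ℝ := FJ (fun v => wt 0 0 (R⁻¹ • v)) (f t)

namespace HSW

theorem w_eq (v : V) : wt 0 0 v = chi 1 v ^ 6 := by
  unfold wt
  simp

theorem w_smooth : ContDiff ℝ (⊤ : ℕ∞) (wt 0 0) := by
  have h : wt 0 0 = fun v => chi 1 v ^ 6 := funext w_eq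
  rw [h]
  exact (chi_smooth 1).pow 6

theorem w_zero {v : V} (h : 2 ≤ ‖v‖) : wt 0 0 v = 0 := by
  rw [w_eq, chi_zero one_pos (by linarith)]
  norm_num

theorem w_one {v : V} (h : ‖v‖ ≤ 1) : wt 0 0 v = 1 := by
  rw [w_eq, chi_one one_pos h]
  norm_num

theorem w_nonneg (v : V) : 0 ≤ wt 0 0 v := by
  rw [w_eq]
  exact pow_nonneg (chi_nonneg _ _) 6

theorem w_le (v : V) : wt 0 0 v ≤ 1 := by
  rw [w_eq]
  exact pow_le_one₀ (chi_nonneg _ _) (chi_le_one _ _)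

theorem w_compact : HasCompactSupport (wt 0 0) := by
  refine HasCompactSupport.intro (isCompact_closedBall (0 : V) 2) fun v hv => ?_
  rw [mem_closedBall_zero_iff, not_le] at hv
  exact w_zero hv.le

theorem shell_meas (a b : ℝ) : MeasurableSet {v : V | a ≤ ‖v‖ ∧ ‖v‖ ≤ b} :=
  ((isClosed_le continuous_const continuous_norm).inter
    (isClosed_le continuous_norm continuous_const)).measurableSet

theorem fi_ball {g : V → ℝ} (hg : Dn g) (s : ℝ) :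
    IntegrableOn (fi g) (Metric.closedBall (0 : V) s) :=
  (fi_cont hg).continuousOn.integrableOn_compact (isCompact_closedBall _ _)

theorem fi_shell {g : V → ℝ} (hg : Dn g) (a b : ℝ) :
    IntegrableOn (fi g) {v : V | a ≤ ‖v‖ ∧ ‖v‖ ≤ b} :=
  (fi_ball hg b).mono_set fun v hv => by
    rw [mem_closedBall_zero_iff]
    exact hv.2

theorem w_int {g : V → ℝ} (hg : Dn g) : Integrable (fun v => wt 0 0 v * fi g v) :=
  (w_smooth.continuous.mul (fi_cont hg)).integrable_of_hasCompactSupport w_compact.mul_right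

theorem FJ_le {g : V → ℝ} (hg : Dn g) {s : ℝ} (hs : 0 < s) :
    FJ (wt 0 0) g ≤ JB g 0 s + Fa g (s / 8) 3 := by
  unfold FJ JB Fa
  have hm1 : MeasurableSet (Metric.closedBall (0 : V) s) :=
    Metric.isClosed_closedBall.measurableSet
  have hm2 := shell_meas (s / 8) 3
  have hi1 := (fi_ball hg s).integrable_indicator hm1
  have hi2 := (fi_shell hg (s / 8) 3).integrable_indicator hm2
  rw [← integral_indicator hm1, ← integral_indicator hm2, ← integral_add hi1 hi2]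
  refine integral_mono (w_int hg) (hi1.add hi2) fun v => ?_
  have hf := fi_nonneg hg v
  have h1 : 0 ≤ (Metric.closedBall (0 : V) s).indicator (fi g) v :=
    indicator_nonneg (fun v _ => fi_nonneg hg v) v
  have h2 : 0 ≤ {v : V | s / 8 ≤ ‖v‖ ∧ ‖v‖ ≤ 3}.indicator (fi g) v :=
    indicator_nonneg (fun v _ => fi_nonneg hg v) v
  have h3 : wt 0 0 v * fi g v ≤ fi g v := mul_le_of_le_one_left hf (w_le v)
  show wt 0 0 v * fi g v ≤ (Metric.closedBall (0 : V) s).indicator (fi g) v +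
    {v : V | s / 8 ≤ ‖v‖ ∧ ‖v‖ ≤ 3}.indicator (fi g) v
  by_cases hv : ‖v‖ ≤ s
  · have e : (Metric.closedBall (0 : V) s).indicator (fi g) v = fi g v :=
      indicator_of_mem (by rw [mem_closedBall_zero_iff]; exact hv) _
    rw [e]
    linarith
  · push Not at hv
    by_cases hv3 : ‖v‖ ≤ 3
    · have e : {v : V | s / 8 ≤ ‖v‖ ∧ ‖v‖ ≤ 3}.indicator (fi g) v = fi g v :=
        indicator_of_mem (show v ∈ {v : V | s / 8 ≤ ‖v‖ ∧ ‖v‖ ≤ 3} from ⟨by linarith, hv3⟩) _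
      rw [e]
      linarith
    · push Not at hv3
      rw [w_zero (by linarith), zero_mul]
      linarith

theorem JB_le {g : V → ℝ} (hg : Dn g) {r : ℝ} (hr : r ≤ 1) : JB g 0 r ≤ FJ (wt 0 0) g := by
  unfold FJ JB
  have hm1 : MeasurableSet (Metric.closedBall (0 : V) r) :=
    Metric.isClosed_closedBall.measurableSet
  rw [← integral_indicator hm1]
  refine integral_mono ((fi_ball hg r).integrable_indicator hm1) (w_int hg) fun v => ?_
  show (Metric.closedBall (0 : V) r).indicator (fi g) v ≤ wt 0 0 v * fi g v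
  by_cases hv : v ∈ Metric.closedBall (0 : V) r
  · rw [indicator_of_mem hv]
    rw [mem_closedBall_zero_iff] at hv
    rw [w_one (hv.trans hr), one_mul]
  · rw [indicator_of_notMem hv]
    exact mul_nonneg (w_nonneg v) (fi_nonneg hg v)

theorem mB_le {g : V → ℝ} (hg : Dn g) (hi : Integrable g) (r : ℝ) : mB g 0 r ≤ ∫ v, g v := by
  unfold mB
  exact setIntegral_le_integral hi (Eventually.of_forall fun v => (hg.pos v).le)

theorem sh_le {g : V → ℝ} (hg : Dn g) (hi : Integrable g) (a b : ℝ) :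
    ∫ v in {v : V | a ≤ ‖v‖ ∧ ‖v‖ ≤ b}, (fi g v + g v) ≤ Fa g a b + mT g a := by
  unfold Fa mT
  rw [integral_add (fi_shell hg a b) hi.integrableOn]
  have : ∫ v in {v : V | a ≤ ‖v‖ ∧ ‖v‖ ≤ b}, g v ≤ ∫ w in {w : V | a ≤ ‖w‖}, g w :=
    setIntegral_mono_set hi.integrableOn (Eventually.of_forall fun v => (hg.pos v).le)
      (LE.le.eventuallyLE fun w hw => hw.1)
  linarith

theorem PB_eq (g : V → ℝ) (s : ℝ) : PB g 0 s = Po g (10 * s) := by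
  unfold PB Po
  simp only [sub_zero]

/-- the derivative -/
theorem JR_deriv {f : ℝ → V → ℝ} (hf : SolP f) {R t : ℝ} (hR : 0 < R) (ht : t < 0) :
    HasDerivAt (JR f R) (R * dFJ (wt 0 0) (dl R (f t))) t := by
  have h1 := (FJ_deriv (fun t => dl R (f t)) (dl_solP hf hR) (wt 0 0) w_smooth w_compact t
    ht).const_mul R
  refine h1.congr_of_eventuallyEq ?_
  filter_upwards [Iio_mem_nhds ht] with t' ht'
  have ht'' : t' < 0 := ht'
  show JR f R t' = R * FJ (wt 0 0) (dl R (f t'))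
  rw [FJ_dl (hf.sol.cls t' ht''.le).smooth (wt 0 0) hR]
  unfold JR
  field_simp

/-- the final inequality between real numbers -/
theorem alg {R J P N1 X Y c₁ r₀ B1 B2 B3 dF K3 K4 K5 K6 E U : ℝ} (hR : 0 < R) (hP : 0 ≤ P)
    (hN1 : 0 < N1) (hc : 0 < c₁) (hr : r₀ = R * P / N1) (hY : Y = max 0 X)
    (hX : J - K3 * E ≤ R * X) (hJ : 0 ≤ J) (hE : 0 ≤ E) (hU : 0 ≤ U)
    (hK3 : 0 ≤ K3) (hK4 : 0 ≤ K4) (hK5 : 0 ≤ K5) (hK6 : 0 ≤ K6)
    (hd : dF ≤ -(c₁ * r₀ * Y ^ 2) + B1 + B2 + B3) (h1 : R * B1 ≤ K4 * U * J)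
    (h2 : R * B2 ≤ K5 * U) (h3 : R * B3 ≤ K6 * U) :
    R * dF ≤ -(c₁ / N1 * P * (max 0 (J - (K3 + K4 + K5 + K6 + 1) * E)) ^ 2)
      + (K3 + K4 + K5 + K6 + 1) * U * J + (K3 + K4 + K5 + K6 + 1) * U := by
  have a1 : R * dF ≤ -(R * (c₁ * r₀ * Y ^ 2)) + R * B1 + R * B2 + R * B3 := by
    calc R * dF ≤ R * (-(c₁ * r₀ * Y ^ 2) + B1 + B2 + B3) := mul_le_mul_of_nonneg_left hd hR.le
      _ = _ := by ring
  have a2 : R * (c₁ * r₀ * Y ^ 2) = c₁ / N1 * P * (R * Y) ^ 2 := by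
    rw [hr]
    field_simp
  have hY0 : 0 ≤ Y := by
    rw [hY]
    exact le_max_left _ _
  have a3 : max 0 (J - (K3 + K4 + K5 + K6 + 1) * E) ≤ R * Y := by
    refine max_le (by positivity) ?_
    have b1 : R * X ≤ R * Y := by
      rw [hY]
      exact mul_le_mul_of_nonneg_left (le_max_right _ _) hR.le
    have b2 : K3 * E ≤ (K3 + K4 + K5 + K6 + 1) * E := by
      refine mul_le_mul_of_nonneg_right ?_ hE
      linarith
    linarith
  have a4 : (max 0 (J - (K3 + K4 + K5 + K6 + 1) * E)) ^ 2 ≤ (R * Y) ^ 2 :=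
    pow_le_pow_left₀ (le_max_left _ _) a3 2
  have a5 : c₁ / N1 * P * (max 0 (J - (K3 + K4 + K5 + K6 + 1) * E)) ^ 2 ≤
      c₁ / N1 * P * (R * Y) ^ 2 := mul_le_mul_of_nonneg_left a4 (by positivity)
  have a6 : K4 * U * J ≤ (K3 + K4 + K5 + K6 + 1) * U * J := by
    refine mul_le_mul_of_nonneg_right (mul_le_mul_of_nonneg_right ?_ hU) hJ
    linarith
  have a7 : K5 * U + K6 * U ≤ (K3 + K4 + K5 + K6 + 1) * U := by
    rw [← add_mul]
    refine mul_le_mul_of_nonneg_right ?_ hU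
    linarith
  linarith

end HSW

open HSW in
theorem sum_win {f : ℝ → V → ℝ} (hf : SolP f) {b : ℝ} (hb : b < 0) (hi : Integrable (f b))
    {β τ c C ρ₀ : ℝ} (hβ : 0 < β) (hβ2 : β ≤ 2) (hτ2 : 2 ≤ τ) (hτ : τ ≤ 3)
    (hc : 0 < c) (hC : 0 < C) (hρ : 1 ≤ ρ₀) (hT : Tl f b β τ c C ρ₀)
    (hS : ∀ ϑ : ℝ, 0 < ϑ → ϑ ≤ 1 → ∃ c'' C'' R₁ : ℝ, 0 < c'' ∧ 0 < C'' ∧ 1 ≤ R₁ ∧ ∀ R : ℝ, R₁ ≤ R →
      ∀ t ∈ Icc (b - c'' * R ^ τ) b, Fa (f t) (ϑ * R) (3 * R) ≤ C'' * R ^ (1 - τ + β / 6)) :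
    ∃ c' C' R₀ l : ℝ, 0 < c' ∧ 0 < C' ∧ 1 ≤ R₀ ∧ 0 < l ∧ ∀ R : ℝ, R₀ ≤ R →
      ∀ t ∈ Icc (b - c' * R ^ τ) b, ∃ D : ℝ, HasDerivAt (JR f R) D t ∧
        D ≤ -(l * Po (f t) (R / 2) * (max 0 (JR f R t - C' * R ^ (1 - τ + β / 6))) ^ 2)
          + C' * R ^ (-τ - β / 6) * JR f R t + C' * R ^ (-τ - β / 6) := by
  obtain ⟨c₁, C₁, s₁, hc₁, hC₁, hs₁, hs₁1, hSUM⟩ := SUMI
  obtain ⟨Ca, hCa, hpa⟩ := pot_tail
  obtain ⟨Cb, hCb, hpb⟩ := pot2_tail
  obtain ⟨s, hs, hss, hs20⟩ : ∃ s : ℝ, 0 < s ∧ s ≤ s₁ ∧ s ≤ 1 / 20 :=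
    ⟨min s₁ (1 / 20), lt_min hs₁ (by norm_num), min_le_left _ _, min_le_right _ _⟩
  obtain ⟨c2, C2, R₁, hc2, hC2, hR₁, hFa⟩ := hS (s / 8) (by positivity) (by linarith)
  obtain ⟨N, hNd⟩ : ∃ N : ℝ, N = ∫ v, f b v := ⟨_, rfl⟩
  have hN : 0 ≤ N := by
    rw [hNd]
    exact integral_nonneg fun v => (hf.pos b hb v).le
  obtain ⟨θ, hθd⟩ : ∃ θ : ℝ, θ = s / 16 := ⟨_, rfl⟩
  have hθ : 0 < θ := by
    rw [hθd]
    positivity
  obtain ⟨K1, hK1d⟩ : ∃ K1 : ℝ, K1 = C * θ ^ (-β) := ⟨_, rfl⟩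
  have hK1 : 0 < K1 := by
    rw [hK1d]
    positivity
  obtain ⟨K2, hK2d⟩ : ∃ K2 : ℝ, K2 = Ca * (K1 ^ (2 / 3 : ℝ) + N / θ) +
    Cb * (K1 ^ (1 / 3 : ℝ) + N / θ ^ 2) := ⟨_, rfl⟩
  have hK2 : 0 ≤ K2 := by
    rw [hK2d]
    positivity
  have hK3 : 0 ≤ C2 + C₁ * N / s ^ 2 := by positivity
  have hK4 : 0 ≤ C₁ * K1 / s ^ 3 := by positivity
  have hK5 : 0 ≤ C₁ * K2 / s ^ 4 * (C2 + K1) := by positivity
  have hK6 : 0 ≤ C₁ * K1 * N / s ^ 5 := by positivity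
  refine ⟨min (c * θ ^ τ) c2, (C2 + C₁ * N / s ^ 2) + C₁ * K1 / s ^ 3 +
    C₁ * K2 / s ^ 4 * (C2 + K1) + C₁ * K1 * N / s ^ 5 + 1, max 1 (max R₁ (ρ₀ / θ)), c₁ / (N + 1),
    lt_min (by positivity) hc2, by positivity, le_max_left _ _, by positivity, fun R hR t ht => ?_⟩
  have hR1 : 1 ≤ R := (le_max_left _ _).trans hR
  have hR2 : R₁ ≤ R := ((le_max_left _ _).trans (le_max_right _ _)).trans hR
  have hR3 : ρ₀ ≤ R * θ := by
    have h : ρ₀ / θ ≤ R := ((le_max_right _ _).trans (le_max_right _ _)).trans hR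
    rwa [div_le_iff₀ hθ] at h
  have hR0 : 0 < R := by linarith
  have ht0 : t < 0 := ht.2.trans_lt hb
  have hRτ : 0 < R ^ τ := by positivity
  have htT : t ∈ Icc (b - c * (R * θ) ^ τ) b := by
    refine ⟨?_, ht.2⟩
    rw [Real.mul_rpow hR0.le hθ.le]
    have h1 := ht.1
    have h2 : min (c * θ ^ τ) c2 * R ^ τ ≤ c * θ ^ τ * R ^ τ :=
      mul_le_mul_of_nonneg_right (min_le_left _ _) hRτ.le
    have h3 : c * (R ^ τ * θ ^ τ) = c * θ ^ τ * R ^ τ := by ring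
    rw [h3]
    linarith
  have htS : t ∈ Icc (b - c2 * R ^ τ) b := by
    refine ⟨?_, ht.2⟩
    have h1 := ht.1
    have h2 : min (c * θ ^ τ) c2 * R ^ τ ≤ c2 * R ^ τ :=
      mul_le_mul_of_nonneg_right (min_le_right _ _) hRτ.le
    linarith
  have hm1 : mT (f t) (R * θ) ≤ K1 * R ^ (-β) := by
    have h := hT (R * θ) hR3 t htT
    rw [Real.mul_rpow hR0.le hθ.le] at h
    rw [hK1d]
    linarith
  have hh : Dn (f t) := hf.dn ht0
  obtain ⟨hhi, hhN⟩ := mass_at f hf.sol b t hb.le ht0.le hi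
  rw [← hNd] at hhN
  have hFat := hFa R hR2 t htS
  -- powers of `R`
  obtain ⟨E, hEd⟩ : ∃ E : ℝ, E = R ^ (1 - τ + β / 6) := ⟨_, rfl⟩
  obtain ⟨U, hUd⟩ : ∃ U : ℝ, U = R ^ (-τ - β / 6) := ⟨_, rfl⟩
  obtain ⟨w, hwd⟩ : ∃ w : ℝ, w = R ^ (-1 - β / 3) := ⟨_, rfl⟩
  obtain ⟨a, had⟩ : ∃ a : ℝ, a = R ^ (-β) / R ^ 3 := ⟨_, rfl⟩
  have hE : 0 < E := by
    rw [hEd]
    positivity
  have hU : 0 < U := by
    rw [hUd]
    positivity
  have hw : 0 < w := by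
    rw [hwd]
    positivity
  have ha : 0 < a := by
    rw [had]
    positivity
  have hwE : w * E = U := by
    rw [hwd, hEd, hUd, ← Real.rpow_add hR0]
    congr 1
    ring
  have haR : a = R ^ (-β - 3) := by
    rw [had, Real.rpow_sub hR0]
    congr 1
    rw [← Real.rpow_natCast]
    norm_num
  have haU : a ≤ U := by
    rw [haR, hUd]
    exact Real.rpow_le_rpow_of_exponent_le hR1 (by linarith)
  have hRaE : R * a ≤ E := by
    have h1 : R * a = R ^ (-β - 2) := by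
      rw [haR]
      nth_rewrite 1 [← Real.rpow_one R]
      rw [← Real.rpow_add hR0]
      congr 1
      ring
    rw [h1, hEd]
    exact Real.rpow_le_rpow_of_exponent_le hR1 (by linarith)
  have hR3w : 1 / R ^ 3 ≤ w := by
    have h1 : 1 / R ^ 3 = R ^ (-3 : ℝ) := by
      rw [Real.rpow_neg hR0.le, one_div]
      congr 1
      rw [← Real.rpow_natCast]
      norm_num
    rw [h1, hwd]
    exact Real.rpow_le_rpow_of_exponent_le hR1 (by linarith)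
  have hR2E : 1 / R ^ 2 ≤ E := by
    have h1 : 1 / R ^ 2 = R ^ (-2 : ℝ) := by
      rw [Real.rpow_neg hR0.le, one_div]
      congr 1
      rw [← Real.rpow_natCast]
      norm_num
    rw [h1, hEd]
    exact Real.rpow_le_rpow_of_exponent_le hR1 (by linarith)
  -- the dilated density
  obtain ⟨g, hgd⟩ : ∃ g : V → ℝ, g = dl R (f t) := ⟨_, rfl⟩
  have hg : Dn g := by
    rw [hgd]
    exact dl_Dn hh hR0
  have hgi : Integrable g := by
    rw [hgd]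
    exact hhi.comp_smul hR0.ne'
  have hgN : ∫ v, g v = N / R ^ 3 := by
    rw [hgd, ← hhN]
    exact dl_int (f t) hR0
  have hmg : mT g (s / 8) ≤ K1 * a := by
    have h0 : K1 * (R ^ (-β) / R ^ 3) = K1 * R ^ (-β) / R ^ 3 := by ring
    rw [hgd, mT_dl _ _ hR0, had, h0]
    refine div_le_div_of_nonneg_right ?_ (show (0 : ℝ) ≤ R ^ 3 by positivity)
    refine (mT_anti hh.cls hhi ?_).trans hm1
    rw [hθd]
    nlinarith
  have hmg0 : 0 ≤ mT g (s / 8) := mT_nonneg hg.cls _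
  have hmθ : mT g θ ≤ K1 * a := by
    rw [hgd, mT_dl _ _ hR0, had, ← mul_div_assoc]
    exact div_le_div_of_nonneg_right hm1 (by positivity)
  have hmθ0 : 0 ≤ mT g θ := mT_nonneg hg.cls _
  have hp1 : mT g θ ^ (2 / 3 : ℝ) ≤ K1 ^ (2 / 3 : ℝ) * w := by
    calc mT g θ ^ (2 / 3 : ℝ) ≤ (K1 * a) ^ (2 / 3 : ℝ) :=
          Real.rpow_le_rpow hmθ0 hmθ (by norm_num)
      _ = K1 ^ (2 / 3 : ℝ) * a ^ (2 / 3 : ℝ) := Real.mul_rpow hK1.le ha.le
      _ ≤ K1 ^ (2 / 3 : ℝ) * w := by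
          refine mul_le_mul_of_nonneg_left ?_ (by positivity)
          rw [haR, hwd, ← Real.rpow_mul hR0.le]
          exact Real.rpow_le_rpow_of_exponent_le hR1 (by linarith)
  have hp2 : mT g θ ^ (1 / 3 : ℝ) ≤ K1 ^ (1 / 3 : ℝ) * w := by
    calc mT g θ ^ (1 / 3 : ℝ) ≤ (K1 * a) ^ (1 / 3 : ℝ) :=
          Real.rpow_le_rpow hmθ0 hmθ (by norm_num)
      _ = K1 ^ (1 / 3 : ℝ) * a ^ (1 / 3 : ℝ) := Real.mul_rpow hK1.le ha.le
      _ ≤ K1 ^ (1 / 3 : ℝ) * w := by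
          refine mul_le_mul_of_nonneg_left ?_ (by positivity)
          rw [haR, hwd, ← Real.rpow_mul hR0.le]
          exact Real.rpow_le_rpow_of_exponent_le hR1 (by linarith)
  have hNw : N / R ^ 3 ≤ N * w := by
    calc N / R ^ 3 = N * (1 / R ^ 3) := by ring
      _ ≤ N * w := mul_le_mul_of_nonneg_left hR3w hN
  have hq1 : ∀ v : V, s / 8 ≤ ‖v‖ → ‖v‖ ≤ 3 →
      pot g v + ∫ w in Metric.closedBall v 1, g w / ‖v - w‖ ^ 2 ≤ K2 * w := by
    intro v hv _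
    have hv2 : 2 * θ ≤ ‖v‖ := by
      rw [hθd]
      linarith
    have h1 := hpa g hg.cls hgi θ v hθ hv2
    have h2 := hpb g hg.cls hgi θ v hθ hv2
    rw [hgN] at h1
    rw [hgN] at h2
    have h3 : N / R ^ 3 / θ ≤ N / θ * w := by
      calc N / R ^ 3 / θ ≤ N * w / θ := div_le_div_of_nonneg_right hNw hθ.le
        _ = N / θ * w := by ring
    have h4 : N / R ^ 3 / θ ^ 2 ≤ N / θ ^ 2 * w := by
      calc N / R ^ 3 / θ ^ 2 ≤ N * w / θ ^ 2 := div_le_div_of_nonneg_right hNw (by positivity)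
        _ = N / θ ^ 2 * w := by ring
    have h5 : Ca * (mT g θ ^ (2 / 3 : ℝ) + N / R ^ 3 / θ) ≤
        Ca * (K1 ^ (2 / 3 : ℝ) * w + N / θ * w) :=
      mul_le_mul_of_nonneg_left (add_le_add hp1 h3) hCa.le
    have h6 : Cb * (mT g θ ^ (1 / 3 : ℝ) + N / R ^ 3 / θ ^ 2) ≤
        Cb * (K1 ^ (1 / 3 : ℝ) * w + N / θ ^ 2 * w) :=
      mul_le_mul_of_nonneg_left (add_le_add hp2 h4) hCb.le
    calc pot g v + ∫ w in Metric.closedBall v 1, g w / ‖v - w‖ ^ 2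
        ≤ Ca * (K1 ^ (2 / 3 : ℝ) * w + N / θ * w) + Cb * (K1 ^ (1 / 3 : ℝ) * w + N / θ ^ 2 * w) :=
          add_le_add (h1.trans h5) (h2.trans h6)
      _ = K2 * w := by
          rw [hK2d]
          ring
  -- the potential
  obtain ⟨P, hPd⟩ : ∃ P : ℝ, P = Po (f t) (R / 2) := ⟨_, rfl⟩
  have hP : 0 ≤ P := by
    rw [hPd]
    exact Po_nonneg hh.cls _
  have hRP : R * P ≤ 2 * N := by
    have h1 := Po_le hh.cls hhi (R := R / 2) (by positivity)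
    rw [← hPd] at h1
    have h2 := mT_le hh.cls hhi (R / 2)
    rw [hhN] at h2
    rw [le_div_iff₀ (by positivity)] at h1
    linarith
  obtain ⟨r₀, hr₀⟩ : ∃ r₀ : ℝ, r₀ = R * P / (N + 1) := ⟨_, rfl⟩
  have hN1 : 0 < N + 1 := by linarith
  have hr0 : 0 ≤ r₀ := by
    rw [hr₀]
    positivity
  have hr2 : r₀ ≤ 1 / s := by
    have h1 : r₀ ≤ 2 := by
      rw [hr₀, div_le_iff₀ hN1]
      linarith
    have h2 : (20 : ℝ) ≤ 1 / s := by
      rw [le_div_iff₀ hs]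
      linarith
    linarith
  have hmB : ∀ r : ℝ, mB g 0 r ≤ N / R ^ 3 := fun r => (mB_le hg hgi r).trans hgN.le
  have hmB0 : ∀ r : ℝ, 0 ≤ mB g 0 r := fun r => integral_nonneg fun v => (hg.pos v).le
  have hrm : r₀ * mB g 0 (2 * s) ≤ PB g 0 s := by
    rw [PB_eq]
    have h1 : Po g (1 / 2) ≤ Po g (10 * s) := Po_anti hg.cls (by positivity) (by linarith)
    have h2 : Po g (1 / 2) = P / R ^ 2 := by
      rw [hgd, Po_dl _ _ hR0, hPd]
      congr 2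
      ring
    refine le_trans ?_ h1
    rw [h2]
    calc r₀ * mB g 0 (2 * s) ≤ r₀ * (N / R ^ 3) := mul_le_mul_of_nonneg_left (hmB _) hr0
      _ = (N / (N + 1)) * (P / R ^ 2) := by
          rw [hr₀]
          field_simp
      _ ≤ 1 * (P / R ^ 2) := by
          refine mul_le_mul_of_nonneg_right ?_ (by positivity)
          rw [div_le_one hN1]
          linarith
      _ = P / R ^ 2 := one_mul _
  have key := hSUM g s (mT g (s / 8)) (K2 * w) r₀ hg hgi hs hss hr0 hr2 hrm le_rfl hq1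
  -- the Fisher information
  obtain ⟨J, hJd⟩ : ∃ J : ℝ, J = JR f R t := ⟨_, rfl⟩
  have hJF : J = R * FJ (wt 0 0) g := by
    rw [hgd, FJ_dl hh.cls.smooth (wt 0 0) hR0, hJd]
    unfold JR
    field_simp
  have hJ : 0 ≤ J := by
    rw [hJF]
    exact mul_nonneg hR0.le (integral_nonneg fun v => mul_nonneg (w_nonneg v) (fi_nonneg hg v))
  have hFag : R * Fa g (s / 8) 3 ≤ C2 * E := by
    rw [hgd, Fa_dl hh.cls.smooth _ _ hR0, hEd]
    have h1 : R * (Fa (f t) (R * (s / 8)) (R * 3) / R) = Fa (f t) (s / 8 * R) (3 * R) := by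
      rw [mul_comm R (s / 8), mul_comm R 3]
      field_simp
    rw [h1]
    exact hFat
  have hX : J - (C2 + C₁ * N / s ^ 2) * E ≤ R * (JB g 0 s - C₁ * mB g 0 (2 * s) / s ^ 2) := by
    have h1 : R * FJ (wt 0 0) g ≤ R * (JB g 0 s + Fa g (s / 8) 3) :=
      mul_le_mul_of_nonneg_left (FJ_le hg hs) hR0.le
    have h2 : R * (C₁ * mB g 0 (2 * s) / s ^ 2) ≤ C₁ * N / s ^ 2 * E := by
      calc R * (C₁ * mB g 0 (2 * s) / s ^ 2) = C₁ / s ^ 2 * (R * mB g 0 (2 * s)) := by ring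
        _ ≤ C₁ / s ^ 2 * (R * (N / R ^ 3)) := by
            refine mul_le_mul_of_nonneg_left ?_ (by positivity)
            exact mul_le_mul_of_nonneg_left (hmB _) hR0.le
        _ = C₁ * N / s ^ 2 * (1 / R ^ 2) := by field_simp
        _ ≤ C₁ * N / s ^ 2 * E := mul_le_mul_of_nonneg_left hR2E (by positivity)
    rw [hJF]
    linarith
  have hB1 : R * (C₁ * mT g (s / 8) / s ^ 3 * JB g 0 (s / 8)) ≤ C₁ * K1 / s ^ 3 * U * J := by
    have h1 : R * JB g 0 (s / 8) ≤ J := by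
      rw [hJF]
      exact mul_le_mul_of_nonneg_left (JB_le hg (by linarith)) hR0.le
    have h2 : mT g (s / 8) ≤ K1 * U :=
      hmg.trans (mul_le_mul_of_nonneg_left haU hK1.le)
    have h3 : 0 ≤ R * JB g 0 (s / 8) :=
      mul_nonneg hR0.le (integral_nonneg fun v => fi_nonneg hg v)
    calc R * (C₁ * mT g (s / 8) / s ^ 3 * JB g 0 (s / 8))
        = C₁ / s ^ 3 * (mT g (s / 8) * (R * JB g 0 (s / 8))) := by ring
      _ ≤ C₁ / s ^ 3 * (K1 * U * J) := by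
          refine mul_le_mul_of_nonneg_left ?_ (by positivity)
          exact mul_le_mul h2 h1 h3 (by positivity)
      _ = C₁ * K1 / s ^ 3 * U * J := by ring
  have hB2 : R * (C₁ * (K2 * w) / s ^ 4 *
      ∫ v in {v : V | s / 8 ≤ ‖v‖ ∧ ‖v‖ ≤ 3}, (fi g v + g v)) ≤
      C₁ * K2 / s ^ 4 * (C2 + K1) * U := by
    have h1 := sh_le hg hgi (s / 8) 3
    have h2 : R * mT g (s / 8) ≤ K1 * E := by
      calc R * mT g (s / 8) ≤ R * (K1 * a) := mul_le_mul_of_nonneg_left hmg hR0.le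
        _ = K1 * (R * a) := by ring
        _ ≤ K1 * E := mul_le_mul_of_nonneg_left hRaE hK1.le
    have h3 : R * ∫ v in {v : V | s / 8 ≤ ‖v‖ ∧ ‖v‖ ≤ 3}, (fi g v + g v) ≤ (C2 + K1) * E := by
      calc R * ∫ v in {v : V | s / 8 ≤ ‖v‖ ∧ ‖v‖ ≤ 3}, (fi g v + g v)
          ≤ R * (Fa g (s / 8) 3 + mT g (s / 8)) := mul_le_mul_of_nonneg_left h1 hR0.le
        _ = R * Fa g (s / 8) 3 + R * mT g (s / 8) := by ring
        _ ≤ (C2 + K1) * E := by linarith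
    calc R * (C₁ * (K2 * w) / s ^ 4 * ∫ v in {v : V | s / 8 ≤ ‖v‖ ∧ ‖v‖ ≤ 3}, (fi g v + g v))
        = C₁ * K2 / s ^ 4 * w *
          (R * ∫ v in {v : V | s / 8 ≤ ‖v‖ ∧ ‖v‖ ≤ 3}, (fi g v + g v)) := by ring
      _ ≤ C₁ * K2 / s ^ 4 * w * ((C2 + K1) * E) :=
          mul_le_mul_of_nonneg_left h3 (by positivity)
      _ = C₁ * K2 / s ^ 4 * (C2 + K1) * (w * E) := by ring
      _ = C₁ * K2 / s ^ 4 * (C2 + K1) * U := by rw [hwE]
  have hB3 : R * (C₁ * mT g (s / 8) / s ^ 5 * mB g 0 (s / 8)) ≤ C₁ * K1 * N / s ^ 5 * U := by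
    have h2 : mT g (s / 8) ≤ K1 * U :=
      hmg.trans (mul_le_mul_of_nonneg_left haU hK1.le)
    have h3 : R * mB g 0 (s / 8) ≤ N := by
      calc R * mB g 0 (s / 8) ≤ R * (N / R ^ 3) := mul_le_mul_of_nonneg_left (hmB _) hR0.le
        _ = N * (1 / R ^ 2) := by field_simp
        _ ≤ N * 1 := by
            refine mul_le_mul_of_nonneg_left ?_ hN
            rw [div_le_one (by positivity)]
            exact one_le_pow₀ hR1
        _ = N := mul_one N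
    calc R * (C₁ * mT g (s / 8) / s ^ 5 * mB g 0 (s / 8))
        = C₁ / s ^ 5 * (mT g (s / 8) * (R * mB g 0 (s / 8))) := by ring
      _ ≤ C₁ / s ^ 5 * (K1 * U * N) := by
          refine mul_le_mul_of_nonneg_left ?_ (by positivity)
          exact mul_le_mul h2 h3 (mul_nonneg hR0.le (hmB0 _)) (by positivity)
      _ = C₁ * K1 * N / s ^ 5 * U := by ring
  refine ⟨R * dFJ (wt 0 0) g, ?_, ?_⟩
  · rw [hgd]
    exact JR_deriv hf hR0 ht0
  · rw [← hPd, ← hJd, ← hEd, ← hUd]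
    exact alg hR0 hP hN1 hc₁ hr₀ rfl hX hJ hE.le hU.le hK3 hK4 hK5 hK6 key hB1 hB2 hB3

end Pool.Agent.LandauF
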