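import Pool.Agent.LandauF.HDefs

/-!
# LandauF, module HTheta: the phase function `Ψ`, constant near the bad radii

Fix a smooth `β : ℝ → ℝ`, `0 ≤ β ≤ 1`, `β = 0` outside `(0, 1)`, `I = ∫_0^1 β > 0` (for instance from
`Real.smoothTransition`, or a `ContDiffBump` on `ℝ`), and `B ≥ 1` a bound of `|β'|` (compactness).
Put `δ = 4 B s` and cells `I_m = [1/8 + m δ, 1/8 + (m+1) δ]`, `0 ≤ m < N`, `N = ⌊1 / (8 δ)⌋` (all inside `[1/8, 1/4]`).
`m` is *blocked* if some `n ∈ bad` has `|σ - n s| ≤ 25 s` for some `σ ∈ I_m`.  Each `n ∈ bad` blocks at most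
`50 s / δ + 2 ≤ 15` cells.  So at most `15 card(bad)` cells are blocked, and if
`card(bad) * s ≤ s₂` with `s₂` small, `15 card(bad) ≤ N / 2` (`N ≥ 1/(16 δ) = 1/(64 B s)` for `s ≤ s₂` small).
`κ σ = ∑_{m < N not blocked} β ((σ - 1/8 - m δ) / δ)`: the supports are disjoint, so `0 ≤ κ ≤ 1`, `|κ'| ≤ B/δ = 1/(4 s)`,
`κ` is smooth (finite sum), zero outside `(1/8, 1/4)` and zero at every `σ` with `|σ - n s| ≤ 25 s`, `n ∈ bad`.
`Θ σ = ∫_0^σ κ` (smooth, `Θ = 0` for `σ ≤ 1/8`, constant `= ∑ δ I ≥ (N/2) δ I ≥ I / 32 =: c` for `σ ≥ 1/4`), `Ψ v = Θ ‖v‖`.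
`Ψ` is smooth: near `‖v‖ < 1/8` it is `0`, elsewhere the norm is smooth.  `pd i Ψ v = κ ‖v‖ v_i / ‖v‖` and
`pd i (pd j Ψ) v = κ' ‖v‖ v_i v_j / ‖v‖² + κ ‖v‖ (δ_ij / ‖v‖ - v_i v_j / ‖v‖³)`, of absolute value at most
`1/(4 s) + 2 * 8 ≤ 1/s` for `s ≤ 1/32` (on the support of `κ ∘ ‖·‖`, `‖v‖ ≥ 1/8`).

(The proof below uses the primitive of `β` directly: `Θ` is a sum of rescaled copies of
`Real.smoothTransition`, with `δ = 4 s`.)
-/

set_option autoImplicit false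

namespace Pool.Agent.LandauF

open MeasureTheory Set Filter Topology Pool.Agent.Landau

namespace HTh

/-- the smooth step -/
noncomputable def S : ℝ → ℝ := Real.smoothTransition

/-- its derivative -/
noncomputable def S1 : ℝ → ℝ := deriv S

/-- its second derivative -/
noncomputable def S2 : ℝ → ℝ := deriv S1

theorem S_smooth : ContDiff ℝ (⊤ : ℕ∞) S := Real.smoothTransition.contDiff

theorem S1_smooth : ContDiff ℝ (⊤ : ℕ∞) S1 := (contDiff_infty_iff_deriv.1 S_smooth).2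

theorem S2_smooth : ContDiff ℝ (⊤ : ℕ∞) S2 := (contDiff_infty_iff_deriv.1 S1_smooth).2

theorem S_deriv (x : ℝ) : HasDerivAt S (S1 x) x :=
  (S_smooth.differentiable (by simp) x).hasDerivAt

theorem S1_deriv (x : ℝ) : HasDerivAt S1 (S2 x) x :=
  (S1_smooth.differentiable (by simp) x).hasDerivAt

theorem S1_nonneg (x : ℝ) : 0 ≤ S1 x := by
  have h := (S_deriv x).hasDerivWithinAt (s := univ)
  have hm : MonotoneOn S univ := fun a _ b _ hab => Real.smoothTransition.monotone hab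
  have := hm.derivWithin_nonneg (x := x)
  rw [derivWithin_univ] at this
  exact this

theorem S1_zero {x : ℝ} (h : x ≤ 0 ∨ 1 ≤ x) : S1 x = 0 := by
  rcases h with h | h
  · have hmin : IsLocalMin S x := Eventually.of_forall fun y => by
      show Real.smoothTransition x ≤ Real.smoothTransition y
      rw [Real.smoothTransition.zero_of_nonpos h]
      exact Real.smoothTransition.nonneg y
    exact hmin.deriv_eq_zero
  · have hmax : IsLocalMax S x := Eventually.of_forall fun y => by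
      show Real.smoothTransition y ≤ Real.smoothTransition x
      rw [Real.smoothTransition.one_of_one_le h]
      exact Real.smoothTransition.le_one y
    exact hmax.deriv_eq_zero

theorem S2_zero {x : ℝ} (h : x ≤ 0 ∨ 1 ≤ x) : S2 x = 0 := by
  have hmin : IsLocalMin S1 x := Eventually.of_forall fun y => by
    rw [S1_zero h]
    exact S1_nonneg y
  exact hmin.deriv_eq_zero

theorem bound : ∃ B : ℝ, 1 ≤ B ∧ (∀ x, |S1 x| ≤ B) ∧ ∀ x, |S2 x| ≤ B := by
  obtain ⟨B1, h1⟩ := (isCompact_Icc (a := (0 : ℝ)) (b := 1)).exists_bound_of_continuousOn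
    S1_smooth.continuous.continuousOn
  obtain ⟨B2, h2⟩ := (isCompact_Icc (a := (0 : ℝ)) (b := 1)).exists_bound_of_continuousOn
    S2_smooth.continuous.continuousOn
  refine ⟨max 1 (max B1 B2), le_max_left _ _, fun x => ?_, fun x => ?_⟩
  · by_cases hx : x ∈ Icc (0 : ℝ) 1
    · exact (h1 x hx).trans ((le_max_left _ _).trans (le_max_right _ _))
    · have : x ≤ 0 ∨ 1 ≤ x := by
        rw [mem_Icc, not_and_or, not_le, not_le] at hx
        rcases hx with h | h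
        · exact Or.inl h.le
        · exact Or.inr h.le
      rw [S1_zero this, abs_zero]
      exact zero_le_one.trans (le_max_left _ _)
  · by_cases hx : x ∈ Icc (0 : ℝ) 1
    · exact (h2 x hx).trans ((le_max_right _ _).trans (le_max_right _ _))
    · have : x ≤ 0 ∨ 1 ≤ x := by
        rw [mem_Icc, not_and_or, not_le, not_le] at hx
        rcases hx with h | h
        · exact Or.inl h.le
        · exact Or.inr h.le
      rw [S2_zero this, abs_zero]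
      exact zero_le_one.trans (le_max_left _ _)

/-- the rescaled variable of the cell `m` -/
noncomputable def ce (δ : ℝ) (m : ℕ) (σ : ℝ) : ℝ := (σ - 1 / 8 - m * δ) / δ

/-- the profile -/
noncomputable def Th (δ B : ℝ) (U : Finset ℕ) (σ : ℝ) : ℝ := ∑ m ∈ U, δ / B * S (ce δ m σ)

/-- its derivative -/
noncomputable def Th1 (δ B : ℝ) (U : Finset ℕ) (σ : ℝ) : ℝ := ∑ m ∈ U, 1 / B * S1 (ce δ m σ)

/-- its second derivative -/
noncomputable def Th2 (δ B : ℝ) (U : Finset ℕ) (σ : ℝ) : ℝ :=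
  ∑ m ∈ U, 1 / (B * δ) * S2 (ce δ m σ)

theorem ce_deriv (δ : ℝ) (m : ℕ) (σ : ℝ) : HasDerivAt (ce δ m) (1 / δ) σ := by
  unfold ce
  exact (((hasDerivAt_id σ).sub_const _).sub_const _).div_const δ

theorem ce_smooth (δ : ℝ) (m : ℕ) : ContDiff ℝ (⊤ : ℕ∞) (ce δ m) := by
  unfold ce
  exact ((contDiff_id.sub contDiff_const).sub contDiff_const).div_const δ

theorem Th_smooth (δ B : ℝ) (U : Finset ℕ) : ContDiff ℝ (⊤ : ℕ∞) (Th δ B U) := by
  unfold Th
  exact ContDiff.sum fun m _ => contDiff_const.mul (S_smooth.comp (ce_smooth δ m))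

theorem Th_deriv {δ B : ℝ} (hδ : 0 < δ) (U : Finset ℕ) (σ : ℝ) :
    HasDerivAt (Th δ B U) (Th1 δ B U σ) σ := by
  unfold Th Th1
  refine HasDerivAt.fun_sum fun m _ => ?_
  have h := ((S_deriv (ce δ m σ)).comp σ (ce_deriv δ m σ)).const_mul (δ / B)
  have he : δ / B * (S1 (ce δ m σ) * (1 / δ)) = 1 / B * S1 (ce δ m σ) := by
    field_simp
  rw [he] at h
  exact h

theorem Th1_deriv {δ B : ℝ} (hδ : 0 < δ) (U : Finset ℕ) (σ : ℝ) :
    HasDerivAt (Th1 δ B U) (Th2 δ B U σ) σ := by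
  unfold Th1 Th2
  refine HasDerivAt.fun_sum fun m _ => ?_
  have h := ((S1_deriv (ce δ m σ)).comp σ (ce_deriv δ m σ)).const_mul (1 / B)
  have he : 1 / B * (S2 (ce δ m σ) * (1 / δ)) = 1 / (B * δ) * S2 (ce δ m σ) := by
    field_simp
  rw [he] at h
  exact h

theorem ce_mem {δ : ℝ} (hδ : 0 < δ) {m : ℕ} {σ : ℝ} (h : ¬ (ce δ m σ ≤ 0 ∨ 1 ≤ ce δ m σ)) :
    1 / 8 + m * δ < σ ∧ σ < 1 / 8 + (m + 1) * δ := by
  push Not at h
  obtain ⟨h1, h2⟩ := h
  unfold ce at h1 h2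
  rw [lt_div_iff₀ hδ] at h1
  rw [div_lt_iff₀ hδ] at h2
  constructor <;> nlinarith

theorem ce_unique {δ : ℝ} (hδ : 0 < δ) {m n : ℕ} {σ : ℝ}
    (h : ¬ (ce δ m σ ≤ 0 ∨ 1 ≤ ce δ m σ)) (h' : ¬ (ce δ n σ ≤ 0 ∨ 1 ≤ ce δ n σ)) : m = n := by
  obtain ⟨a, b⟩ := ce_mem hδ h
  obtain ⟨a', b'⟩ := ce_mem hδ h'
  have h1 : (m : ℝ) * δ < (n + 1) * δ := by linarith
  have h2 : (n : ℝ) * δ < (m + 1) * δ := by linarith
  have h3 : (m : ℝ) < n + 1 := lt_of_mul_lt_mul_right h1 hδ.le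
  have h4 : (n : ℝ) < m + 1 := lt_of_mul_lt_mul_right h2 hδ.le
  have h5 : m < n + 1 := by exact_mod_cast h3
  have h6 : n < m + 1 := by exact_mod_cast h4
  omega

theorem sum_bound {U : Finset ℕ} {f : ℕ → ℝ} {M : ℝ} (hM : 0 ≤ M) (hf : ∀ m ∈ U, |f m| ≤ M)
    (hu : ∀ m ∈ U, ∀ n ∈ U, f m ≠ 0 → f n ≠ 0 → m = n) : |∑ m ∈ U, f m| ≤ M := by
  by_cases h : ∃ m ∈ U, f m ≠ 0
  · obtain ⟨m, hm, h0⟩ := h
    rw [Finset.sum_eq_single_of_mem m hm fun n hn hne => by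
      by_contra hc
      exact hne (hu n hn m hm hc h0)]
    exact hf m hm
  · push Not at h
    rw [Finset.sum_eq_zero h, abs_zero]
    exact hM

theorem Th1_le {δ B : ℝ} (hδ : 0 < δ) (hB : 1 ≤ B) (h1 : ∀ x, |S1 x| ≤ B) (U : Finset ℕ) (σ : ℝ) :
    |Th1 δ B U σ| ≤ 1 := by
  unfold Th1
  have hB0 : 0 < B := by linarith
  refine sum_bound zero_le_one (fun m _ => ?_) fun m _ n _ hm hn => ?_
  · rw [abs_mul, abs_of_pos (show (0 : ℝ) < 1 / B by positivity), one_div, inv_mul_le_iff₀ hB0,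
      mul_one]
    exact h1 _
  · exact ce_unique hδ (fun h => hm (by rw [S1_zero h, mul_zero]))
      (fun h => hn (by rw [S1_zero h, mul_zero]))

theorem Th2_le {δ B : ℝ} (hδ : 0 < δ) (hB : 1 ≤ B) (h2 : ∀ x, |S2 x| ≤ B) (U : Finset ℕ) (σ : ℝ) :
    |Th2 δ B U σ| ≤ 1 / δ := by
  unfold Th2
  have hB0 : 0 < B := by linarith
  refine sum_bound (by positivity) (fun m _ => ?_) fun m _ n _ hm hn => ?_
  · rw [abs_mul, abs_of_pos (show (0 : ℝ) < 1 / (B * δ) by positivity)]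
    calc 1 / (B * δ) * |S2 (ce δ m σ)| ≤ 1 / (B * δ) * B :=
          mul_le_mul_of_nonneg_left (h2 _) (by positivity)
      _ = 1 / δ := by field_simp
  · exact ce_unique hδ (fun h => hm (by rw [S2_zero h, mul_zero]))
      (fun h => hn (by rw [S2_zero h, mul_zero]))

theorem Th_nonneg {δ B : ℝ} (hδ : 0 < δ) (hB : 1 ≤ B) (U : Finset ℕ) (σ : ℝ) :
    0 ≤ Th δ B U σ := by
  unfold Th
  have hB0 : 0 < B := by linarith
  exact Finset.sum_nonneg fun m _ =>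
    mul_nonneg (by positivity) (Real.smoothTransition.nonneg _)

theorem Th_zero {δ B : ℝ} (hδ : 0 < δ) (U : Finset ℕ) {σ : ℝ} (hσ : σ ≤ 1 / 8) :
    Th δ B U σ = 0 := by
  unfold Th
  refine Finset.sum_eq_zero fun m _ => ?_
  have h : ce δ m σ ≤ 0 := by
    unfold ce
    rw [div_le_iff₀ hδ, zero_mul]
    have : (0 : ℝ) ≤ m * δ := by positivity
    linarith
  have : S (ce δ m σ) = 0 := Real.smoothTransition.zero_of_nonpos h
  rw [this, mul_zero]

theorem Th1_zero {δ B : ℝ} (hδ : 0 < δ) (U : Finset ℕ) {σ : ℝ}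
    (h : ∀ m ∈ U, σ ≤ 1 / 8 + m * δ ∨ 1 / 8 + (m + 1) * δ ≤ σ) : Th1 δ B U σ = 0 := by
  unfold Th1
  refine Finset.sum_eq_zero fun m hm => ?_
  have h' : ce δ m σ ≤ 0 ∨ 1 ≤ ce δ m σ := by
    by_contra hc
    obtain ⟨a, b⟩ := ce_mem hδ hc
    rcases h m hm with h | h <;> linarith
  rw [S1_zero h', mul_zero]

theorem Th_large {δ B : ℝ} (hδ : 0 < δ) (U : Finset ℕ) {σ : ℝ}
    (h : ∀ m ∈ U, 1 / 8 + (m + 1) * δ ≤ σ) : Th δ B U σ = U.card * (δ / B) := by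
  unfold Th
  rw [Finset.sum_congr rfl (g := fun _ => δ / B), Finset.sum_const, nsmul_eq_mul]
  intro m hm
  have h' : 1 ≤ ce δ m σ := by
    unfold ce
    rw [le_div_iff₀ hδ]
    have := h m hm
    linarith
  have : S (ce δ m σ) = 1 := Real.smoothTransition.one_of_one_le h'
  rw [this, mul_one]

/-! the radial function -/

theorem pd_norm' {v : V} (hv : v ≠ 0) (i : Fin 3) : pd i (fun u : V => ‖u‖) v = v i / ‖v‖ := by
  have h1 : DifferentiableAt ℝ (fun u : V => ‖u‖) v :=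
    (contDiffAt_norm (n := 1) ℝ hv).differentiableAt (by norm_num)
  have h2 := pd_mul h1 h1 i
  have h3 : pd i (fun u : V => ‖u‖ ^ 2) v = 2 * v i := wt_pd_normsq i v
  have h4 : (fun u : V => ‖u‖ ^ 2) = fun u : V => ‖u‖ * ‖u‖ := by
    funext u
    ring
  rw [h4, h2] at h3
  have h5 : 0 < ‖v‖ := norm_pos_iff.2 hv
  rw [eq_div_iff h5.ne']
  linarith

theorem pd_coord_div {v : V} (hv : v ≠ 0) (i j : Fin 3) :
    |pd i (fun u : V => u j * ‖u‖⁻¹) v| ≤ 2 / ‖v‖ := by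
  have h5 : 0 < ‖v‖ := norm_pos_iff.2 hv
  have h1 : DifferentiableAt ℝ (fun u : V => ‖u‖) v :=
    (contDiffAt_norm (n := 1) ℝ hv).differentiableAt (by norm_num)
  have h2 : DifferentiableAt ℝ (fun u : V => u j) v :=
    (EuclideanSpace.proj j : V →L[ℝ] ℝ).differentiableAt
  have h3 := pd_comp (β := fun x : ℝ => x⁻¹) h1 (hasDerivAt_inv h5.ne') i
  have h4 := pd_mul h2 (h1.inv h5.ne') i
  have h6 : pd i (fun u : V => u j * ‖u‖⁻¹) v =
      v j * pd i (fun x : V => ‖x‖⁻¹) v + pd i (fun u : V => u j) v * ‖v‖⁻¹ := h4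
  rw [h6, h3, pd_norm' hv, wt_pd_coord]
  have h7 : |v j| ≤ ‖v‖ := Cls.abs_coord v j
  have h8 : |v i| ≤ ‖v‖ := Cls.abs_coord v i
  refine (abs_add_le _ _).trans ?_
  have h9 : |v j * (-(‖v‖ ^ 2)⁻¹ * (v i / ‖v‖))| ≤ 1 / ‖v‖ := by
    rw [abs_mul, abs_mul, abs_neg, abs_div, abs_of_pos (show 0 < (‖v‖ ^ 2)⁻¹ by positivity),
      abs_of_pos h5]
    calc |v j| * ((‖v‖ ^ 2)⁻¹ * (|v i| / ‖v‖)) ≤ ‖v‖ * ((‖v‖ ^ 2)⁻¹ * (‖v‖ / ‖v‖)) := by
          gcongr
      _ = 1 / ‖v‖ := by field_simp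
  have h10 : |(if i = j then (1 : ℝ) else 0) * ‖v‖⁻¹| ≤ 1 / ‖v‖ := by
    rw [abs_mul, abs_of_pos (show 0 < ‖v‖⁻¹ by positivity), one_div]
    refine mul_le_of_le_one_left (by positivity) ?_
    split_ifs <;> simp
  calc _ ≤ 1 / ‖v‖ + 1 / ‖v‖ := add_le_add h9 h10
    _ = 2 / ‖v‖ := by ring

/-- the radial function -/
noncomputable def Ps (δ B : ℝ) (U : Finset ℕ) (v : V) : ℝ := Th δ B U ‖v‖

theorem Ps_zero {δ B : ℝ} (hδ : 0 < δ) (U : Finset ℕ) {v : V} (hv : ‖v‖ ≤ 1 / 8) :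
    Ps δ B U v = 0 := Th_zero hδ U hv

theorem Ps_ev {δ B : ℝ} (hδ : 0 < δ) (U : Finset ℕ) {v : V} (hv : ‖v‖ < 1 / 8) :
    Ps δ B U =ᶠ[𝓝 v] fun _ => 0 := by
  have : {u : V | ‖u‖ < 1 / 8} ∈ 𝓝 v :=
    (isOpen_lt continuous_norm continuous_const).mem_nhds hv
  filter_upwards [this] with u hu
  exact Ps_zero hδ U (le_of_lt hu)

theorem Ps_smooth {δ B : ℝ} (hδ : 0 < δ) (U : Finset ℕ) : ContDiff ℝ (⊤ : ℕ∞) (Ps δ B U) := by
  rw [contDiff_iff_contDiffAt]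
  intro v
  by_cases hv : ‖v‖ < 1 / 8
  · exact contDiffAt_const.congr_of_eventuallyEq (Ps_ev hδ U hv)
  · have h0 : v ≠ 0 := by
      rintro rfl
      apply hv
      rw [norm_zero]
      norm_num
    exact (Th_smooth δ B U).contDiffAt.comp v (contDiffAt_norm ℝ h0)

theorem Ps_pd {δ B : ℝ} (hδ : 0 < δ) (U : Finset ℕ) {v : V} (hv : v ≠ 0) (i : Fin 3) :
    pd i (Ps δ B U) v = Th1 δ B U ‖v‖ * (v i * ‖v‖⁻¹) := by
  have h1 : DifferentiableAt ℝ (fun u : V => ‖u‖) v :=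
    (contDiffAt_norm (n := 1) ℝ hv).differentiableAt (by norm_num)
  have h2 : pd i (Ps δ B U) v = Th1 δ B U ‖v‖ * pd i (fun u : V => ‖u‖) v :=
    pd_comp h1 (Th_deriv hδ U ‖v‖) i
  rw [h2, pd_norm' hv, div_eq_mul_inv]

theorem Ps_pd_pd {δ B : ℝ} (hδ : 0 < δ) (hB : 1 ≤ B) (hS1 : ∀ x, |S1 x| ≤ B)
    (hS2 : ∀ x, |S2 x| ≤ B) (U : Finset ℕ) (v : V) (i j : Fin 3) :
    |pd i (pd j (Ps δ B U)) v| ≤ 1 / δ + 16 := by
  by_cases hv8 : ‖v‖ < 1 / 8
  · have hz : pd j (Ps δ B U) =ᶠ[𝓝 v] fun _ => 0 := by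
      have : {u : V | ‖u‖ < 1 / 8} ∈ 𝓝 v :=
        (isOpen_lt continuous_norm continuous_const).mem_nhds hv8
      filter_upwards [this] with u hu
      unfold pd
      rw [(Ps_ev hδ U hu).fderiv_eq]
      simp
    have : pd i (pd j (Ps δ B U)) v = 0 := by
      show fderiv ℝ (pd j (Ps δ B U)) v (EuclideanSpace.single i 1) = 0
      rw [hz.fderiv_eq]
      simp
    rw [this, abs_zero]
    positivity
  · push Not at hv8
    have hv : v ≠ 0 := by
      rintro rfl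
      rw [norm_zero] at hv8
      norm_num at hv8
    have h5 : 0 < ‖v‖ := norm_pos_iff.2 hv
    have he : pd j (Ps δ B U) =ᶠ[𝓝 v] fun u => Th1 δ B U ‖u‖ * (u j * ‖u‖⁻¹) := by
      have : {u : V | u ≠ 0} ∈ 𝓝 v := isOpen_ne.mem_nhds hv
      filter_upwards [this] with u hu
      exact Ps_pd hδ U hu j
    have h1 : DifferentiableAt ℝ (fun u : V => ‖u‖) v :=
      (contDiffAt_norm (n := 1) ℝ hv).differentiableAt (by norm_num)
    have h2 : DifferentiableAt ℝ (fun u : V => u j) v :=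
      (EuclideanSpace.proj j : V →L[ℝ] ℝ).differentiableAt
    have h3 : DifferentiableAt ℝ (fun u : V => u j * ‖u‖⁻¹) v := h2.mul (h1.inv h5.ne')
    have h4 : DifferentiableAt ℝ (fun u : V => Th1 δ B U ‖u‖) v :=
      (Th1_deriv hδ U ‖v‖).differentiableAt.comp v h1
    have h6 : pd i (pd j (Ps δ B U)) v =
        pd i (fun u : V => Th1 δ B U ‖u‖ * (u j * ‖u‖⁻¹)) v := by
      show fderiv ℝ (pd j (Ps δ B U)) v (EuclideanSpace.single i 1) = _
      rw [he.fderiv_eq]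
      rfl
    rw [h6, pd_mul h4 h3 i, pd_comp h1 (Th1_deriv hδ U ‖v‖) i]
    have a1 : |Th1 δ B U ‖v‖ * pd i (fun u : V => u j * ‖u‖⁻¹) v| ≤ 16 := by
      rw [abs_mul]
      calc |Th1 δ B U ‖v‖| * |pd i (fun u : V => u j * ‖u‖⁻¹) v| ≤ 1 * (2 / ‖v‖) :=
            mul_le_mul (Th1_le hδ hB hS1 U _) (pd_coord_div hv i j) (abs_nonneg _) zero_le_one
        _ ≤ 16 := by
          rw [one_mul, div_le_iff₀ h5]
          linarith
    have a2 : |Th2 δ B U ‖v‖ * pd i (fun u : V => ‖u‖) v * (v j * ‖v‖⁻¹)| ≤ 1 / δ := by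
      rw [abs_mul, abs_mul]
      have b1 : |v j * ‖v‖⁻¹| ≤ 1 := by
        rw [abs_mul, abs_of_pos (show 0 < ‖v‖⁻¹ by positivity), ← div_eq_mul_inv,
          div_le_one h5]
        exact Cls.abs_coord v j
      have b2 : |pd i (fun u : V => ‖u‖) v| ≤ 1 := by
        rw [pd_norm' hv, abs_div, abs_of_pos h5, div_le_one h5]
        exact Cls.abs_coord v i
      calc |Th2 δ B U ‖v‖| * |pd i (fun u : V => ‖u‖) v| * |v j * ‖v‖⁻¹|
          ≤ (1 / δ) * 1 * 1 := by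
            refine mul_le_mul (mul_le_mul (Th2_le hδ hB hS2 U _) b2 (abs_nonneg _) ?_) b1
              (abs_nonneg _) ?_ <;> positivity
        _ = 1 / δ := by ring
    calc _ ≤ _ := abs_add_le _ _
      _ ≤ 16 + 1 / δ := add_le_add a1 a2
      _ = 1 / δ + 16 := by ring

/-- the blocked cells of one bad radius -/
theorem blocked_card {s : ℝ} (hs : 0 < s) (N n : ℕ) :
    ((Finset.range N).filter fun m : ℕ => 1 / 8 + (m : ℝ) * (4 * s) ≤ n * s + 25 * s ∧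
      n * s - 25 * s ≤ 1 / 8 + ((m : ℝ) + 1) * (4 * s)).card ≤ 15 := by
  set x : ℝ := (n * s - 29 * s - 1 / 8) / (4 * s) with hx
  have hsub : ((Finset.range N).filter fun m : ℕ => 1 / 8 + (m : ℝ) * (4 * s) ≤ n * s + 25 * s ∧
      n * s - 25 * s ≤ 1 / 8 + ((m : ℝ) + 1) * (4 * s)) ⊆ Finset.Ico ⌊x⌋₊ (⌊x⌋₊ + 15) := by
    intro m hm
    rw [Finset.mem_filter] at hm
    obtain ⟨_, h1, h2⟩ := hm
    have h4 : (0 : ℝ) < 4 * s := by positivity
    have hxm : x ≤ m := by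
      rw [hx, div_le_iff₀ h4]
      linarith
    have hmx : (m : ℝ) ≤ x + 13.5 := by
      have : (m : ℝ) - 13.5 ≤ x := by
        rw [hx, le_div_iff₀ h4]
        linarith
      linarith
    rw [Finset.mem_Ico]
    constructor
    · exact Nat.floor_le_of_le hxm
    · have := Nat.lt_floor_add_one x
      have h : (m : ℝ) < ⌊x⌋₊ + 15 := by linarith
      exact_mod_cast h
  calc _ ≤ (Finset.Ico ⌊x⌋₊ (⌊x⌋₊ + 15)).card := Finset.card_le_card hsub
    _ = 15 := by simp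

end HTh

open HTh in
theorem theta_exists : ∃ c s₂ : ℝ, 0 < c ∧ 0 < s₂ ∧ ∀ s : ℝ, 0 < s → s ≤ s₂ →
    ∀ bad : Finset ℕ, (bad.card : ℝ) * s ≤ s₂ → ∃ Ψ : V → ℝ, ContDiff ℝ (⊤ : ℕ∞) Ψ ∧
      (∀ v, 0 ≤ Ψ v) ∧ (∀ v, ∀ i : Fin 3, |pd i Ψ v| ≤ 1) ∧
      (∀ v, ∀ i j : Fin 3, |pd i (pd j Ψ) v| ≤ 1 / s) ∧ (∀ v, ‖v‖ ≤ 1 / 8 → Ψ v = 0) ∧
      (∀ v, 1 / 4 ≤ ‖v‖ → c ≤ Ψ v) ∧ (∀ v, 1 / 4 ≤ ‖v‖ → ∀ i : Fin 3, pd i Ψ v = 0) ∧
      (∀ v, ‖v‖ ≤ 1 / 8 → ∀ i : Fin 3, pd i Ψ v = 0) ∧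
      ∀ v, (∃ i : Fin 3, pd i Ψ v ≠ 0) → ∀ n ∈ bad, 25 * s < |‖v‖ - n * s| := by
  obtain ⟨B, hB, hS1, hS2⟩ := bound
  have hB0 : 0 < B := by linarith
  refine ⟨1 / (16 * B), 1 / 1024, by positivity, by norm_num, fun s hs hs2 bad hbad => ?_⟩
  classical
  set δ : ℝ := 4 * s with hδd
  have hδ : 0 < δ := by positivity
  set N : ℕ := ⌊1 / (32 * s)⌋₊ with hN
  let bl : ℕ → Finset ℕ := fun n => (Finset.range N).filter fun m =>
    1 / 8 + (m : ℝ) * (4 * s) ≤ n * s + 25 * s ∧ n * s - 25 * s ≤ 1 / 8 + ((m : ℝ) + 1) * (4 * s)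
  let U : Finset ℕ := Finset.range N \ bad.biUnion bl
  have hNle : (N : ℝ) ≤ 1 / (32 * s) := Nat.floor_le (by positivity)
  have hNge : 1 / (32 * s) - 1 < N := by
    have := Nat.lt_floor_add_one (1 / (32 * s))
    linarith
  have hend : ∀ m ∈ U, 1 / 8 + ((m : ℝ) + 1) * δ ≤ 1 / 4 := by
    intro m hm
    have hm' : m < N := Finset.mem_range.1 (Finset.mem_sdiff.1 hm).1
    have h1 : (m : ℝ) + 1 ≤ N := by exact_mod_cast hm'
    have h2 : (N : ℝ) * δ ≤ 1 / 8 := by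
      calc (N : ℝ) * δ ≤ 1 / (32 * s) * δ := mul_le_mul_of_nonneg_right hNle hδ.le
        _ = 1 / 8 := by
          rw [hδd]
          field_simp
          norm_num
    have h3 : ((m : ℝ) + 1) * δ ≤ N * δ := mul_le_mul_of_nonneg_right h1 hδ.le
    linarith
  have hcard : 1 / (64 * s) ≤ (U.card : ℝ) := by
    have h1 : (bad.biUnion bl).card ≤ bad.card * 15 :=
      Finset.card_biUnion_le_card_mul _ _ _ fun n _ => blocked_card hs N n
    have h2 : N ≤ U.card + (bad.biUnion bl).card := by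
      have := Finset.le_card_sdiff (bad.biUnion bl) (Finset.range N)
      rw [Finset.card_range] at this
      have h3 : N - (bad.biUnion bl).card ≤ U.card := this
      omega
    have h3 : (N : ℝ) ≤ U.card + bad.card * 15 := by
      have : N ≤ U.card + bad.card * 15 := h2.trans (by omega)
      exact_mod_cast this
    have h4 : (bad.card : ℝ) ≤ 1 / 1024 / s := by
      rw [le_div_iff₀ hs]
      exact hbad
    have h5 : (1 : ℝ) ≤ 1 / 1024 / s := by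
      rw [le_div_iff₀ hs]
      linarith
    have h6 : 1 / (32 * s) = 32 * (1 / 1024 / s) := by
      field_simp
      norm_num
    have h7 : 1 / (64 * s) = 16 * (1 / 1024 / s) := by
      field_simp
      norm_num
    rw [h7]
    rw [h6] at hNge
    linarith
  refine ⟨Ps δ B U, Ps_smooth hδ U, fun v => Th_nonneg hδ hB U _, ?_, ?_, fun v hv => Ps_zero hδ U hv,
    ?_, ?_, ?_, ?_⟩
  · intro v i
    by_cases hv : v = 0
    · have hv8 : ‖v‖ < 1 / 8 := by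
        rw [hv, norm_zero]
        norm_num
      unfold pd
      rw [(Ps_ev hδ U hv8).fderiv_eq]
      simp
    · have h5 : 0 < ‖v‖ := norm_pos_iff.2 hv
      rw [Ps_pd hδ U hv, abs_mul]
      have b1 : |v i * ‖v‖⁻¹| ≤ 1 := by
        rw [abs_mul, abs_of_pos (show 0 < ‖v‖⁻¹ by positivity), ← div_eq_mul_inv,
          div_le_one h5]
        exact Cls.abs_coord v i
      exact mul_le_one₀ (Th1_le hδ hB hS1 U _) (abs_nonneg _) b1
  · intro v i j
    refine (Ps_pd_pd hδ hB hS1 hS2 U v i j).trans ?_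
    have h1 : 1 / δ = (1 / s) / 4 := by
      rw [hδd]
      field_simp
    have h2 : (1024 : ℝ) ≤ 1 / s := by
      rw [le_div_iff₀ hs]
      linarith
    rw [h1]
    linarith
  · intro v hv
    have h1 : Ps δ B U v = U.card * (δ / B) := Th_large hδ U fun m hm => (hend m hm).trans hv
    rw [h1]
    calc 1 / (16 * B) = 1 / (64 * s) * (δ / B) := by
          rw [hδd]
          field_simp
          norm_num
      _ ≤ U.card * (δ / B) := mul_le_mul_of_nonneg_right hcard (by positivity)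
  · intro v hv i
    have hv0 : v ≠ 0 := by
      rintro rfl
      rw [norm_zero] at hv
      norm_num at hv
    rw [Ps_pd hδ U hv0, Th1_zero hδ U fun m hm => Or.inr ((hend m hm).trans hv), zero_mul]
  · intro v hv i
    by_cases hv0 : v = 0
    · have hv8 : ‖v‖ < 1 / 8 := by
        rw [hv0, norm_zero]
        norm_num
      unfold pd
      rw [(Ps_ev hδ U hv8).fderiv_eq]
      simp
    · rw [Ps_pd hδ U hv0, Th1_zero hδ U fun m hm => Or.inl ?_, zero_mul]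
      have : (0 : ℝ) ≤ m * δ := by positivity
      linarith
  · rintro v ⟨i, hi⟩ n hn
    have hv0 : v ≠ 0 := by
      rintro rfl
      have hv8 : ‖(0 : V)‖ < 1 / 8 := by
        rw [norm_zero]
        norm_num
      apply hi
      unfold pd
      rw [(Ps_ev hδ U hv8).fderiv_eq]
      simp
    rw [Ps_pd hδ U hv0] at hi
    have h1 : Th1 δ B U ‖v‖ ≠ 0 := left_ne_zero_of_mul hi
    by_contra hc
    push Not at hc
    apply h1
    refine Th1_zero hδ U fun m hm => ?_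
    by_contra hcc
    push Not at hcc
    obtain ⟨c1, c2⟩ := hcc
    rw [abs_le] at hc
    obtain ⟨d1, d2⟩ := hc
    apply (Finset.mem_sdiff.1 hm).2
    rw [Finset.mem_biUnion]
    refine ⟨n, hn, ?_⟩
    show m ∈ (Finset.range N).filter _
    rw [Finset.mem_filter]
    refine ⟨(Finset.mem_sdiff.1 hm).1, ?_, ?_⟩ <;> linarith

end Pool.Agent.LandauF
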