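import Pool.Agent.LandauF.HDefs
import Pool.Agent.LandauG.WRateB

/-!
# LandauF, module HWE: the truncated energy test function

`wE ρ v = chi (ρ/2) v (‖v‖² - ρ²)`.  By scaling `wE ρ v = ρ² W (ρ⁻¹ v)`, `W v = chi (1/2) v (‖v‖² - 1)`
(`chi R v = chiB (R⁻¹ v)`), so the second derivatives of `wE ρ` at `v` are those of `W` at `ρ⁻¹ v`, bounded by
compactness.  Range: `ρ² + wE ρ v = chi ‖v‖² + (1 - chi) ρ²` with `chi ∈ [0,1]`, `chi = 1` for `‖v‖ ≤ ρ/2`, `chi = 0` for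
`‖v‖ ≥ ρ`: it is `‖v‖²` for `‖v‖ ≤ ρ/2`, `ρ²` for `‖v‖ ≥ ρ`, and between `‖v‖²` and `ρ² ≤ 4 ‖v‖²` for
`ρ/2 ≤ ‖v‖ ≤ ρ`.
`Kf` vanishes on the inner pairs: near `v` and `w` the function is `‖·‖² - ρ²`, so `pd i = 2 v_i`,
`pd i (pd j) = 2 δ_ij` and `Kf = 2 ∑ bK i z z_i + 2 ∑ aK i i z = 0` (`∑ bK i z z_i = -1/(4 π ‖z‖)`,
`∑ aK i i z = 1/(4 π ‖z‖)`; see the energy part of `LandauG/WRateB.lean`, `rate_energy`, and `Landau/WBound.lean`).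
-/

set_option autoImplicit false

namespace Pool.Agent.LandauF

open MeasureTheory Set Filter Topology Pool.Agent.Landau

/-- truncated energy minus `ρ²` -/
noncomputable def wE (ρ : ℝ) (v : V) : ℝ := chi (ρ / 2) v * (‖v‖ ^ 2 - ρ ^ 2)

theorem wE_smooth (ρ : ℝ) : ContDiff ℝ (⊤ : ℕ∞) (wE ρ) := by
  unfold wE
  exact (chi_smooth (ρ / 2)).mul ((contDiff_norm_sq ℝ).sub contDiff_const)

theorem wE_compact {ρ : ℝ} (hρ : 0 < ρ) : HasCompactSupport (wE ρ) := by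
  have h1 : HasCompactSupport (chi (ρ / 2)) := chi_compact (by positivity)
  exact h1.mul_right

private theorem hwe_scale {Φ : V → ℝ} (hΦ : Differentiable ℝ Φ) (c a : ℝ) (i : Fin 3) :
    pd i (fun v : V => c * Φ (a • v)) = fun v => (c * a) * pd i Φ (a • v) := by
  funext v
  unfold pd
  have h1 : HasFDerivAt (fun v : V => a • v) (a • ContinuousLinearMap.id ℝ V) v :=
    (hasFDerivAt_id v).const_smul a
  have h2 : HasFDerivAt Φ (fderiv ℝ Φ (a • v)) (a • v) := (hΦ (a • v)).hasFDerivAt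
  have h3 : HasFDerivAt (fun v : V => Φ (a • v))
      ((fderiv ℝ Φ (a • v)).comp (a • ContinuousLinearMap.id ℝ V)) v := h2.comp v h1
  have h4 := h3.const_mul c
  rw [h4.fderiv]
  simp
  ring

private theorem hwe_eq {ρ : ℝ} (hρ : 0 < ρ) :
    wE ρ = fun v : V => ρ ^ 2 * wE 1 (ρ⁻¹ • v) := by
  funext v
  unfold wE chi
  rw [norm_smul, norm_inv, Real.norm_of_nonneg hρ.le, smul_smul]
  have h1 : ((1 : ℝ) / 2)⁻¹ * ρ⁻¹ = (ρ / 2)⁻¹ := by field_simp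
  rw [h1]
  field_simp

theorem wE_bound : ∃ C : ℝ, 0 < C ∧ ∀ ρ : ℝ, 0 < ρ → ∀ i j v, |pd i (pd j (wE ρ)) v| ≤ C := by
  have hΦ := wE_smooth 1
  have hc : HasCompactSupport (wE 1) := wE_compact one_pos
  have h2 : ∀ i j, ∃ C : ℝ, ∀ v, |pd i (pd j (wE 1)) v| ≤ C := fun i j => by
    obtain ⟨C, hC⟩ := (compact_pd (compact_pd hc j) i).exists_bound_of_continuous
      (smooth_pd (smooth_pd hΦ j) i).continuous
    exact ⟨C, fun v => hC v⟩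
  choose C hC using h2
  have hC0 : ∀ i j, 0 ≤ C i j := fun i j => (abs_nonneg _).trans (hC i j 0)
  refine ⟨(∑ i, ∑ j, C i j) + 1, ?_, ?_⟩
  · have : 0 ≤ ∑ i, ∑ j, C i j := Finset.sum_nonneg fun i _ => Finset.sum_nonneg fun j _ => hC0 i j
    linarith
  · intro ρ hρ i j v
    rw [hwe_eq hρ, hwe_scale (differentiable_of_smooth hΦ) (ρ ^ 2) ρ⁻¹ j,
      hwe_scale (differentiable_of_smooth (smooth_pd hΦ j)) (ρ ^ 2 * ρ⁻¹) ρ⁻¹ i]
    have e3 : ρ ^ 2 * ρ⁻¹ * ρ⁻¹ = 1 := by field_simp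
    rw [e3]
    simp only [one_mul]
    have e1 := Finset.single_le_sum (f := C i) (fun j _ => hC0 i j) (Finset.mem_univ j)
    have e2 := Finset.single_le_sum (f := fun i => ∑ j, C i j)
      (fun i _ => Finset.sum_nonneg fun j _ => hC0 i j) (Finset.mem_univ i)
    linarith [hC i j (ρ⁻¹ • v)]

theorem wE_lo {ρ : ℝ} (hρ : 0 < ρ) (v : V) : min (‖v‖ ^ 2) (ρ ^ 2) ≤ ρ ^ 2 + wE ρ v := by
  have h0 := chi_nonneg (ρ / 2) v
  have h1 := chi_le_one (ρ / 2) v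
  have h2 : min (‖v‖ ^ 2) (ρ ^ 2) ≤ ‖v‖ ^ 2 := min_le_left _ _
  have h3 : min (‖v‖ ^ 2) (ρ ^ 2) ≤ ρ ^ 2 := min_le_right _ _
  unfold wE
  nlinarith [mul_le_mul_of_nonneg_left h2 h0,
    mul_le_mul_of_nonneg_left h3 (show 0 ≤ 1 - chi (ρ / 2) v by linarith)]

theorem wE_hi {ρ : ℝ} (hρ : 0 < ρ) (v : V) : ρ ^ 2 + wE ρ v ≤ 4 * min (‖v‖ ^ 2) (ρ ^ 2) := by
  have h0 := chi_nonneg (ρ / 2) v
  have h1 := chi_le_one (ρ / 2) v
  have hv := norm_nonneg v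
  unfold wE
  rcases le_total ‖v‖ (ρ / 2) with h | h
  · rw [chi_one (by positivity) h]
    have h2 : ‖v‖ ^ 2 ≤ ρ ^ 2 := by nlinarith
    rw [min_eq_left h2]
    nlinarith
  · rcases le_total ‖v‖ ρ with h4 | h4
    · have h2 : ‖v‖ ^ 2 ≤ ρ ^ 2 := by nlinarith
      rw [min_eq_left h2]
      have h5 : ρ ^ 2 ≤ 4 * ‖v‖ ^ 2 := by nlinarith
      nlinarith [mul_nonneg h0 (sub_nonneg.2 h2)]
    · rw [chi_zero (by positivity) (by linarith)]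
      have h2 : ρ ^ 2 ≤ ‖v‖ ^ 2 := by nlinarith
      rw [min_eq_right h2]
      nlinarith

theorem wE_Kf {ρ : ℝ} (hρ : 0 < ρ) (v w : V) (hv : ‖v‖ < ρ / 2) (hw : ‖w‖ < ρ / 2) :
    Kf (wE ρ) v w = 0 := by
  refine Kf_zero (wE ρ) (ρ / 2) (-ρ ^ 2) (fun _ => 0) 1 ?_ v w hv hw
  intro u hu
  unfold wE
  rw [chi_one (by positivity) hu.le]
  simp
  ring

end Pool.Agent.LandauF
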