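import Pool.Agent.LandauF.HPBlow
import Pool.Agent.LandauF.HFroz
import Pool.Agent.LandauF.HHeavy
import Pool.Agent.LandauF.HTheta

/-!
# LandauF, module HWinC: heavy and light cells on the time window (hypotheses of RIC)

Let `c s₂` be the constants of `theta_exists`, `cΘ = c`; `cF, CF` those of `froz`; `A₁` of `cell_test`, `A₂` of `outer_test`;
`D = 16 + 8 C₁`.  Put `s = 1/x^4`, `a = b - x^630`, `K0 = Kw (g b) ∈ (0, κ / x^1200]`.
`(b - a) K0^(2/3) ≤ x^630 κ^(2/3) x^(-800) = κ^(2/3) / x^170 ≤ cF` and `K0 ≤ 1/2` for `x ≥ x₀(κ)`, so `froz` applies (with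
`f = g`, `hf = hg.sol`): `K0/2 ≤ Kw (g τ) ≤ 2 K0` on the window, and for an admissible test function `φ` with constant `A`:
`|∫ φ g b - ∫ φ g τ| ≤ CF A (κ^(2/3)/x^170) K0`.    (1)

Bad radii: `bad` = the finite set of `n : ℕ`, `n ≤ x^4`, for which there is `y` with `n s ≤ ‖y‖ ≤ (n+1) s`, `‖y‖ ≤ 1/2`,
`h < mB (g b) y (20 s)`, where `h = K0 / (D x)`.  `heavy_count`: `card * h ≤ 84 K0`, so `card ≤ 84 D x` and
`card * s ≤ 84 D / x^3 ≤ s₂`.  Take `Ψ` from `theta_exists` (`s ≤ s₂` for `x` large).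

(h3) `‖y‖ ≤ 3/10`: by `PB_low1`, (1) for `psO`, `psO_Po`, and the hypothesis `K0 ≤ x² Po (g b) 1`:
`PB (g τ) y s ≥ (3/4)(K0/(2 x²) - CF A₂ κ^(2/3) K0/x^170) ≥ (3/4) K0/(4 x²) = (3/16) K0/x²`, and
`mB (g τ) y (2 s) ≤ 2 Kw (g τ) ≤ 4 K0` (`mB_unit`), so `(1/(40 x²)) mB ≤ K0/(10 x²) ≤ PB`.

(h4) let `‖x' - y‖ ≤ 20 s` and `pd i Ψ x' ≠ 0`.  Then `1/8 ≤ ‖x'‖ ≤ 1/4` (by the properties of `Ψ`), `‖y‖ ≤ 1/4 + 20 s ≤ 3/10`.
Let `n = ⌊‖y‖ / s⌋`, so `n s ≤ ‖y‖ ≤ (n+1) s` and `|‖x'‖ - n s| ≤ 20 s + s < 25 s`, hence `n ∉ bad`, hence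
`mB (g b) y (20 s) ≤ h`.  By `cell_lo`, (1) for `chi (10 s) (· - y)` (`ρ = 10 s`, constant `A₁ x^8/100`), `cell_hi`:
`mB (g τ) y (10 s) ≤ mB (g b) y (20 s) + CF A₁ x^8 κ^(2/3) x^(-170) K0 ≤ 2 K0/(D x)` for `x` large.  By `PB_low2`:
`PB (g τ) y s ≥ (3/4)(K0/2 - 2 K0/(D x)) ≥ K0/4` (`D ≥ 16`, `x ≥ 1`), and
`C₁ x mB (g τ) y (2 s) ≤ C₁ x mB (g τ) y (10 s) ≤ 2 C₁ K0/D ≤ K0/4`.
(Powers: `K0^(2/3) ≤ κ^(2/3) / x^800` since `(x^1200)^(2/3) = x^800`, `Real.rpow`.)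
-/

set_option autoImplicit false

namespace Pool.Agent.LandauF

open MeasureTheory Set Filter Topology Pool.Agent.Landau

theorem win_C (C₁ : ℝ) (hC₁ : 0 < C₁) : ∃ cΘ : ℝ, 0 < cΘ ∧ ∀ κ : ℝ, 0 < κ → ∃ x₀ : ℝ, 1 ≤ x₀ ∧
    ∀ x : ℝ, x₀ ≤ x → ∀ g : ℝ → V → ℝ, SolP g → ∀ b < 0, Kw (g b) ≤ κ / x ^ 1200 →
    Kw (g b) ≤ x ^ 2 * Po (g b) 1 → ∃ Ψ : V → ℝ, ContDiff ℝ (⊤ : ℕ∞) Ψ ∧ (∀ v, 0 ≤ Ψ v) ∧
      (∀ v, ∀ i : Fin 3, |pd i Ψ v| ≤ 1) ∧
      (∀ v, ∀ i j : Fin 3, |pd i (pd j Ψ) v| ≤ 1 / (1 / x ^ 4)) ∧ (∀ v, ‖v‖ ≤ 1 / 8 → Ψ v = 0) ∧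
      (∀ v, 1 / 4 ≤ ‖v‖ → cΘ ≤ Ψ v) ∧ (∀ v, 1 / 4 ≤ ‖v‖ → ∀ i : Fin 3, pd i Ψ v = 0) ∧
      ∀ τ ∈ Icc (b - x ^ 630) b, Kw (g τ) ≤ 2 * Kw (g b) ∧
        (∀ y : V, ‖y‖ ≤ 3 / 10 →
          1 / (40 * x ^ 2) * mB (g τ) y (2 * (1 / x ^ 4)) ≤ PB (g τ) y (1 / x ^ 4)) ∧
        ∀ y : V, (∃ x' : V, ‖x' - y‖ ≤ 20 * (1 / x ^ 4) ∧ ∃ i : Fin 3, pd i Ψ x' ≠ 0) →
          C₁ * x * mB (g τ) y (2 * (1 / x ^ 4)) ≤ PB (g τ) y (1 / x ^ 4) := by
  obtain ⟨cΘ, s₂, hcΘ, hs₂, hth⟩ := theta_exists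
  obtain ⟨cF, CF, hcF, hCF, hfroz⟩ := froz
  obtain ⟨A₁, hA₁, hcell⟩ := cell_test
  obtain ⟨A₂, hA₂, ho1, ho2, ho3, ho4, -, -, -⟩ := outer_test
  refine ⟨cΘ, hcΘ, fun κ hκ => ?_⟩
  obtain ⟨k, hk⟩ : ∃ k : ℝ, k = κ ^ (2 / 3 : ℝ) := ⟨_, rfl⟩
  have hk0 : 0 < k := by
    rw [hk]
    exact Real.rpow_pos_of_pos hκ _
  obtain ⟨D, hD⟩ : ∃ D : ℝ, D = 16 + 8 * C₁ := ⟨_, rfl⟩
  have hD16 : 16 ≤ D := by rw [hD]; linarith
  have hD8 : 8 * C₁ ≤ D := by rw [hD]; linarith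
  have hD0 : 0 < D := by linarith
  have t1 : 0 ≤ 2 * κ := by positivity
  have t2 : 0 ≤ k / cF := by positivity
  have t3 : 0 ≤ 1 / s₂ := by positivity
  have t4 : 0 ≤ 84 * D / s₂ := by positivity
  have t5 : 0 ≤ 4 * CF * A₂ * k := by positivity
  have t6 : 0 ≤ CF * A₁ * k * D := by positivity
  refine ⟨400 + 2 * κ + k / cF + 1 / s₂ + 84 * D / s₂ + 4 * CF * A₂ * k + CF * A₁ * k * D,
    by linarith, ?_⟩
  intro x hx g hg b hb hK1 hK2
  have hx400 : 400 ≤ x := by linarith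
  have hx1 : 1 ≤ x := by linarith
  have hx0 : 0 < x := by linarith
  have hxm : ∀ m : ℕ, m ≠ 0 → x ≤ x ^ m := fun m hm => le_self_pow₀ hx1 hm
  have hcl := hg.sol.cls b hb.le
  have hDn : Dn (g b) := ⟨hcl, hg.pos b hb⟩
  obtain ⟨K0, hK0⟩ : ∃ K0 : ℝ, K0 = Kw (g b) := ⟨_, rfl⟩
  have hK0p : 0 < K0 := by
    rw [hK0]
    exact Kw_pos hDn
  rw [← hK0] at hK1 hK2
  obtain ⟨s, hs⟩ : ∃ s : ℝ, s = 1 / x ^ 4 := ⟨_, rfl⟩
  have hs0 : 0 < s := by rw [hs]; positivity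
  have hsx : s * x ^ 4 = 1 := by rw [hs]; field_simp
  have hs_le : ∀ c : ℝ, 0 < c → 1 / c ≤ x → s ≤ c := by
    intro c hc h
    rw [hs, div_le_iff₀ (by positivity)]
    rw [div_le_iff₀ hc] at h
    have := mul_le_mul_of_nonneg_left (hxm 4 (by norm_num)) hc.le
    linarith
  have hs400 : s ≤ 1 / 400 := hs_le _ (by norm_num) (by norm_num; linarith)
  have hss₂ : s ≤ s₂ := hs_le _ hs₂ (by linarith)
  -- powers
  have hKhalf : K0 ≤ 1 / 2 := by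
    refine hK1.trans ?_
    rw [div_le_iff₀ (by positivity)]
    have := hxm 1200 (by norm_num)
    linarith
  have hKpow : K0 ^ (2 / 3 : ℝ) ≤ k / x ^ 800 := by
    have h1 : K0 ^ (2 / 3 : ℝ) ≤ (κ / x ^ 1200) ^ (2 / 3 : ℝ) :=
      Real.rpow_le_rpow hK0p.le hK1 (by norm_num)
    refine h1.trans (le_of_eq ?_)
    rw [Real.div_rpow hκ.le (by positivity), ← hk]
    congr 1
    rw [← Real.rpow_natCast x 1200, ← Real.rpow_mul hx0.le]
    rw [← Real.rpow_natCast x 800]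
    congr 1
    norm_num
  have hKwin : x ^ 630 * K0 ^ (2 / 3 : ℝ) ≤ k / x ^ 170 := by
    have h1 : x ^ 630 * K0 ^ (2 / 3 : ℝ) ≤ x ^ 630 * (k / x ^ 800) :=
      mul_le_mul_of_nonneg_left hKpow (by positivity)
    refine h1.trans (le_of_eq ?_)
    rw [show (800 : ℕ) = 630 + 170 from rfl, pow_add]
    field_simp
  have hwle : k / x ^ 170 ≤ cF := by
    rw [div_le_iff₀ (by positivity)]
    have h1 : k / cF ≤ x := by linarith
    rw [div_le_iff₀ hcF] at h1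
    have h2 := mul_le_mul_of_nonneg_left (hxm 170 (by norm_num)) hcF.le
    linarith
  have hab : b - x ^ 630 ≤ b := by
    have : 0 < x ^ 630 := by positivity
    linarith
  obtain ⟨hf1, -, hf3⟩ := hfroz g hg.sol (b - x ^ 630) b hab hb.le (by rw [← hK0]; exact hK0p)
    (by rw [← hK0]; exact hKhalf) (by
      rw [← hK0]
      calc (b - (b - x ^ 630)) * K0 ^ (2 / 3 : ℝ) = x ^ 630 * K0 ^ (2 / 3 : ℝ) := by ring
        _ ≤ _ := hKwin.trans hwle)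
  rw [← hK0] at hf1 hf3
  have hf3' : ∀ (φ : V → ℝ) (A : ℝ), ContDiff ℝ (⊤ : ℕ∞) φ → 0 ≤ A →
      (∀ v, |φ v| ≤ A / ang v ^ 1) → (∀ i v, |pd i φ v| ≤ A / ang v ^ (1 + 1)) →
      (∀ i j v, |pd i (pd j φ) v| ≤ A / ang v ^ (1 + 2)) → ∀ τ ∈ Icc (b - x ^ 630) b,
      |(∫ v, φ v * g b v) - ∫ v, φ v * g τ v| ≤ CF * A * (k / x ^ 170) * K0 := by
    intro φ A h0 hA h1 h2 h3 τ hτ
    refine (hf3 φ A h0 h1 h2 h3 τ hτ).trans ?_
    calc CF * A * K0 ^ (2 / 3 : ℝ) * K0 * (b - (b - x ^ 630))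
        = CF * A * (x ^ 630 * K0 ^ (2 / 3 : ℝ)) * K0 := by ring
      _ ≤ CF * A * (k / x ^ 170) * K0 := by
          have : 0 ≤ CF * A := by positivity
          gcongr
  -- the bad radii
  obtain ⟨h, hh⟩ : ∃ h : ℝ, h = K0 / (D * x) := ⟨_, rfl⟩
  have hh0 : 0 < h := by rw [hh]; positivity
  classical
  obtain ⟨bad, hbad⟩ : ∃ bad : Finset ℕ, bad = (Finset.range (⌊x ^ 4⌋₊ + 1)).filter
      (fun n : ℕ => ∃ y : V, n * s ≤ ‖y‖ ∧ ‖y‖ ≤ (n + 1) * s ∧ ‖y‖ ≤ 1 / 2 ∧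
        h < mB (g b) y (20 * s)) := ⟨_, rfl⟩
  have hcard := heavy_count hcl hs0 (by linarith) hh0 bad (by
    intro i hi
    rw [hbad, Finset.mem_filter] at hi
    exact hi.2)
  rw [← hK0] at hcard
  have hcard2 : (bad.card : ℝ) ≤ 84 * D * x := by
    rw [hh] at hcard
    rw [mul_div_assoc', div_le_iff₀ (by positivity)] at hcard
    have h1 : (bad.card : ℝ) * K0 ≤ (84 * D * x) * K0 := by linarith
    exact le_of_mul_le_mul_right h1 hK0p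
  have hcard3 : (bad.card : ℝ) * s ≤ s₂ := by
    have h1 : (bad.card : ℝ) * s ≤ 84 * D * x * s := mul_le_mul_of_nonneg_right hcard2 hs0.le
    refine h1.trans ?_
    have h2 : 84 * D / s₂ ≤ x := by linarith
    rw [div_le_iff₀ hs₂] at h2
    have h3 : 84 * D * x * s * x ^ 4 = 84 * D * x := by
      calc 84 * D * x * s * x ^ 4 = 84 * D * x * (s * x ^ 4) := by ring
        _ = _ := by rw [hsx, mul_one]
    have h4 : 84 * D * x ≤ s₂ * x ^ 4 := by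
      have h5 : 84 * D * x ≤ x * s₂ * x := mul_le_mul_of_nonneg_right h2 hx0.le
      have h6 : x * s₂ * x = s₂ * x ^ 2 := by ring
      have h7 : x ^ 2 ≤ x ^ 4 := pow_le_pow_right₀ hx1 (by norm_num)
      have h8 := mul_le_mul_of_nonneg_left h7 hs₂.le
      linarith
    have h9 : 84 * D * x * s * x ^ 4 ≤ s₂ * x ^ 4 := by rw [h3]; exact h4
    exact le_of_mul_le_mul_right h9 (by positivity)
  obtain ⟨Ψ, p1, p2, p3, p4, p5, p6, p7, p8, p9⟩ := hth s hs0 hss₂ bad hcard3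
  refine ⟨Ψ, p1, p2, p3, by rw [← hs]; exact p4, p5, p6, p7, fun τ hτ => ?_⟩
  have hτ0 : τ < 0 := lt_of_le_of_lt hτ.2 hb
  have hclτ := hg.sol.cls τ hτ0.le
  obtain ⟨hlow, hup⟩ := hf1 τ hτ
  rw [← hK0, ← hs]
  refine ⟨hup, fun y hy => ?_, fun y hy => ?_⟩
  · -- (h3)
    have e1 := PB_low1 hclτ hy hs0 (by linarith)
    have e2 := psO_Po hcl
    have e3 := hf3' psO A₂ ho1 hA₂.le ho2 ho3 ho4 τ hτ
    have e4 : K0 / x ^ 2 ≤ Po (g b) 1 := by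
      rw [div_le_iff₀ (by positivity)]
      linarith
    have e5 : CF * A₂ * (k / x ^ 170) * K0 ≤ 1 / 4 * (K0 / x ^ 2) := by
      have h1 : CF * A₂ * (k / x ^ 170) ≤ 1 / (4 * x ^ 2) := by
        rw [mul_div_assoc', div_le_div_iff₀ (by positivity) (by positivity)]
        have h2 : 4 * CF * A₂ * k ≤ x := by linarith
        have h3 : CF * A₂ * k * (4 * x ^ 2) = (4 * CF * A₂ * k) * x ^ 2 := by ring
        have h4 : (4 * CF * A₂ * k) * x ^ 2 ≤ x * x ^ 2 :=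
          mul_le_mul_of_nonneg_right h2 (by positivity)
        have h5 : x * x ^ 2 ≤ x ^ 170 := by
          calc x * x ^ 2 = x ^ 3 := by ring
            _ ≤ x ^ 170 := pow_le_pow_right₀ hx1 (by norm_num)
        linarith
      calc CF * A₂ * (k / x ^ 170) * K0 ≤ 1 / (4 * x ^ 2) * K0 :=
            mul_le_mul_of_nonneg_right h1 hK0p.le
        _ = _ := by field_simp
    have e6 : mB (g τ) y (2 * s) ≤ 4 * K0 := by
      have h1 := mB_unit hclτ (y := y) (ρ := 2 * s) (by linarith)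
      linarith
    have e7 := (abs_le.1 e3).2
    have e8 : 1 / (40 * x ^ 2) * mB (g τ) y (2 * s) ≤ 1 / 10 * (K0 / x ^ 2) := by
      calc 1 / (40 * x ^ 2) * mB (g τ) y (2 * s) ≤ 1 / (40 * x ^ 2) * (4 * K0) :=
            mul_le_mul_of_nonneg_left e6 (by positivity)
        _ = _ := by field_simp; ring
    have e9 : 0 ≤ K0 / x ^ 2 := by positivity
    linarith
  · -- (h4)
    obtain ⟨x', hx', hi⟩ := hy
    have n1 : ‖x'‖ < 1 / 4 := by
      by_contra hcon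
      obtain ⟨i, hi⟩ := hi
      exact hi (p7 x' (not_lt.1 hcon) i)
    have n2 : |‖x'‖ - ‖y‖| ≤ 20 * s := (abs_norm_sub_norm_le x' y).trans hx'
    have n3 : ‖y‖ ≤ 3 / 10 := by
      have := (abs_le.1 n2).1
      linarith
    have n4 : (⌊‖y‖ / s⌋₊ : ℝ) * s ≤ ‖y‖ := by
      have := Nat.floor_le (a := ‖y‖ / s) (by positivity)
      rwa [le_div_iff₀ hs0] at this
    have n5 : ‖y‖ ≤ ((⌊‖y‖ / s⌋₊ : ℝ) + 1) * s := by
      have := (Nat.lt_floor_add_one (‖y‖ / s)).le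
      rwa [div_le_iff₀ hs0] at this
    have n6 : |‖x'‖ - ⌊‖y‖ / s⌋₊ * s| ≤ 25 * s := by
      have h1 := abs_le.1 n2
      rw [abs_le]
      constructor <;> linarith
    have n7 : ⌊‖y‖ / s⌋₊ ∉ bad := fun hmem => by
      have := p9 x' hi _ hmem
      linarith
    have n8 : mB (g b) y (20 * s) ≤ h := by
      by_contra hcon
      apply n7
      rw [hbad, Finset.mem_filter, Finset.mem_range]
      refine ⟨?_, y, n4, n5, by linarith, not_le.1 hcon⟩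
      refine Nat.lt_succ_of_le (Nat.floor_le_floor ?_)
      rw [div_le_iff₀ hs0, mul_comm, hsx]
      linarith
    have c1 := hcell y (10 * s) (by linarith) (by linarith) (by linarith)
    obtain ⟨c2, c3, c4, c5⟩ := c1
    have c6 := hf3' _ (A₁ / (10 * s) ^ 2) c2 (by positivity) c3 c4 c5 τ hτ
    have c7 := cell_lo hclτ y (ρ := 10 * s) (by linarith)
    have c8 := cell_hi hcl y (ρ := 10 * s) (by linarith)
    have c9 : mB (g b) y (2 * (10 * s)) ≤ h := by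
      have : 2 * (10 * s) = 20 * s := by ring
      rw [this]
      exact n8
    have c10 : CF * (A₁ / (10 * s) ^ 2) * (k / x ^ 170) * K0 ≤ h := by
      have h1 : A₁ / (10 * s) ^ 2 = A₁ * x ^ 8 / 100 := by
        have h2 : (10 * s) ^ 2 = 100 / x ^ 8 := by
          rw [hs]
          field_simp
          norm_num
        rw [h2]
        field_simp
      have h3 : CF * (A₁ * x ^ 8 / 100) * (k / x ^ 170) ≤ 1 / (D * x) := by
        have h4 : CF * (A₁ * x ^ 8 / 100) * (k / x ^ 170) = CF * A₁ * k / (100 * x ^ 162) := by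
          rw [show (170 : ℕ) = 8 + 162 from rfl, pow_add]
          field_simp
        rw [h4, div_le_div_iff₀ (by positivity) (by positivity)]
        have h5 : CF * A₁ * k * D ≤ x := by linarith
        have h6 : CF * A₁ * k * (D * x) = (CF * A₁ * k * D) * x := by ring
        have h7 : (CF * A₁ * k * D) * x ≤ x * x := mul_le_mul_of_nonneg_right h5 hx0.le
        have h8 : x * x ≤ x ^ 162 := by
          calc x * x = x ^ 2 := by ring
            _ ≤ x ^ 162 := pow_le_pow_right₀ hx1 (by norm_num)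
        have h9 : 0 < x ^ 162 := by positivity
        linarith
      rw [h1, hh]
      calc CF * (A₁ * x ^ 8 / 100) * (k / x ^ 170) * K0 ≤ 1 / (D * x) * K0 :=
            mul_le_mul_of_nonneg_right h3 hK0p.le
        _ = _ := by field_simp
    have c11 : mB (g τ) y (10 * s) ≤ 2 * h := by
      have := (abs_le.1 c6).1
      linarith
    have c12 := PB_low2 hclτ n3 hs0
    have c13 : mB (g τ) y (2 * s) ≤ mB (g τ) y (10 * s) := mB_mono hclτ y (by linarith)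
    have hhx : h * (D * x) = K0 := by rw [hh]; field_simp
    have c14 : 12 * h ≤ K0 := by
      have h1 : 12 * h ≤ h * (D * x) := by
        have h2 : 12 ≤ D * x := by
          have h3 := mul_le_mul hD16 hx1 (by norm_num) hD0.le
          linarith
        have := mul_le_mul_of_nonneg_left h2 hh0.le
        linarith
      linarith
    have c15 : C₁ * x * mB (g τ) y (2 * s) ≤ C₁ * x * (2 * h) :=
      mul_le_mul_of_nonneg_left (c13.trans c11) (by positivity)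
    have c16 : C₁ * x * (2 * h) ≤ K0 / 4 := by
      have h1 : 8 * C₁ * (x * h) ≤ D * (x * h) := mul_le_mul_of_nonneg_right hD8 (by positivity)
      have h2 : D * (x * h) = K0 := by rw [← hhx]; ring
      linarith
    linarith

end Pool.Agent.LandauF
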