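import Pool.Agent.LandauF.NOps

/-!
# LandauF, module NCut: the near cutoff

`chN x = smoothTransition ((4/3)(1 - x))` is smooth, `1` for `x ≤ 1/4`, `0` for `x ≥ 1`; since
`chN ≥ 0` and `1 - chN ≥ 0` are `C²` with bounded second derivative, `chN'² ≤ K chN` and
`chN'² ≤ K (1 - chN)` (for `h ≥ 0` with `|h''| ≤ M` one has `h'² ≤ 2 M h`, Taylor).
`SS ϱ δ p = ϱ(mid)² + δ²` depends on the midpoint only, so `RR a b (eta ϱ δ) = 0`, `RR a b (bet ε) = 0`.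
Gradient: `∂_{v_l} eta = chN'(r²/S) (2 z_l / S - r² ∂_l(ϱ²)(mid) / (2 S²))`, and
`|∂_l (ϱ²)| ≤ 2 ϱ` (`ϱ` is Lipschitz with constant `≤ 1`), `≤ 2 √S`.
-/

set_option autoImplicit false

namespace Pool.Agent.LandauF

open MeasureTheory Set Filter Topology Pool.Agent.Landau

theorem chN_smooth : ContDiff ℝ (⊤ : ℕ∞) chN := by
  unfold chN
  exact Real.smoothTransition.contDiff.comp (contDiff_const.mul (contDiff_const.sub contDiff_id))

theorem chN_nonneg (x : ℝ) : 0 ≤ chN x := by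
  exact Real.smoothTransition.nonneg _

theorem chN_le_one (x : ℝ) : chN x ≤ 1 := by
  exact Real.smoothTransition.le_one _

theorem chN_one {x : ℝ} (h : x ≤ 1 / 4) : chN x = 1 := by
  exact Real.smoothTransition.one_of_one_le (by linarith)

theorem chN_zero {x : ℝ} (h : 1 ≤ x) : chN x = 0 := by
  exact Real.smoothTransition.zero_of_nonpos (by linarith)

private theorem nc_taylor {h : ℝ → ℝ} (d1 : Differentiable ℝ h) (d2 : Differentiable ℝ (deriv h))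
    {M : ℝ} (hM : ∀ x, |deriv (deriv h) x| ≤ M) (x t : ℝ) :
    h (x + t) ≤ h x + deriv h x * t + M * t ^ 2 / 2 := by
  have hlip : ∀ s : ℝ, |deriv h (x + s) - deriv h x| ≤ M * |s| := by
    intro s
    have h1 := Convex.norm_image_sub_le_of_norm_deriv_le (f := deriv h) (C := M) (s := univ)
      (x := x) (y := x + s) (fun y _ => d2 y) (fun y _ => by
        rw [Real.norm_eq_abs]
        exact hM y) convex_univ (mem_univ _) (mem_univ _)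
    rw [Real.norm_eq_abs, Real.norm_eq_abs, add_sub_cancel_left] at h1
    exact h1
  set ψ : ℝ → ℝ := fun s => h (x + s) - deriv h x * s - M * s ^ 2 / 2 with hψ
  have hd : ∀ s : ℝ, HasDerivAt ψ (deriv h (x + s) - deriv h x - M * s) s := by
    intro s
    have e1 : HasDerivAt (fun s : ℝ => h (x + s)) (deriv h (x + s)) s :=
      HasDerivAt.comp_const_add x s (d1 (x + s)).hasDerivAt
    have e2 : HasDerivAt (fun s : ℝ => deriv h x * s) (deriv h x) s := by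
      simpa using (hasDerivAt_id s).const_mul (deriv h x)
    have e3 : HasDerivAt (fun s : ℝ => M * s ^ 2 / 2) (M * s) s := by
      have := ((hasDerivAt_pow 2 s).const_mul M).div_const 2
      refine this.congr_deriv ?_
      simp
      ring
    exact (e1.sub e2).sub e3
  have hdiff : Differentiable ℝ ψ := fun s => (hd s).differentiableAt
  have key : ψ t ≤ ψ 0 := by
    rcases le_total 0 t with ht | ht
    · refine antitoneOn_of_deriv_nonpos (convex_Ici 0) hdiff.continuous.continuousOn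
        hdiff.differentiableOn (fun s hs => ?_) (mem_Ici.2 le_rfl) (mem_Ici.2 ht) ht
      rw [interior_Ici, mem_Ioi] at hs
      rw [(hd s).deriv]
      have h1 := (abs_le.1 (hlip s)).2
      rw [abs_of_pos hs] at h1
      linarith
    · refine monotoneOn_of_deriv_nonneg (convex_Iic 0) hdiff.continuous.continuousOn
        hdiff.differentiableOn (fun s hs => ?_) (mem_Iic.2 ht) (mem_Iic.2 le_rfl) ht
      rw [interior_Iic, mem_Iio] at hs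
      rw [(hd s).deriv]
      have h1 := (abs_le.1 (hlip s)).1
      rw [abs_of_neg hs] at h1
      linarith
  have h0 : ψ 0 = h x := by
    simp [hψ]
  rw [h0] at key
  have h1 : h (x + t) - deriv h x * t - M * t ^ 2 / 2 ≤ h x := key
  linarith

private theorem nc_sq {h : ℝ → ℝ} (d1 : Differentiable ℝ h) (d2 : Differentiable ℝ (deriv h))
    {M : ℝ} (hM0 : 0 < M) (hM : ∀ x, |deriv (deriv h) x| ≤ M) (h0 : ∀ x, 0 ≤ h x) (x : ℝ) :
    deriv h x ^ 2 ≤ 2 * M * h x := by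
  have h1 := nc_taylor d1 d2 hM x (-(deriv h x) / M)
  have h2 := h0 (x + -(deriv h x) / M)
  have h3 : deriv h x * (-(deriv h x) / M) + M * (-(deriv h x) / M) ^ 2 / 2 =
      -(deriv h x ^ 2 / (2 * M)) := by
    field_simp
    ring
  have h4 : deriv h x ^ 2 / (2 * M) ≤ h x := by linarith
  rw [div_le_iff₀ (by positivity)] at h4
  linarith

private theorem nc_bdd {g : ℝ → ℝ} (hg : Continuous g)
    (h0 : ∀ x : ℝ, (x < 1 / 4 ∨ 1 < x) → g x = 0) : ∃ K : ℝ, 0 ≤ K ∧ ∀ x, |g x| ≤ K := by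
  obtain ⟨C, hC⟩ := (isCompact_Icc (a := (1 / 4 : ℝ)) (b := 1)).exists_bound_of_continuousOn
    hg.continuousOn
  refine ⟨max C 0, le_max_right _ _, fun x => ?_⟩
  by_cases hx : x ∈ Icc (1 / 4 : ℝ) 1
  · exact (hC x hx).trans (le_max_left _ _)
  · rw [h0 x, abs_zero]
    · exact le_max_right _ _
    · by_contra hcon
      push Not at hcon
      exact hx ⟨hcon.1, hcon.2⟩

private theorem nc_deriv_zero {g : ℝ → ℝ} {c d : ℝ} (h1 : ∀ x : ℝ, x < 1 / 4 → g x = c)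
    (h2 : ∀ x : ℝ, 1 < x → g x = d) {x : ℝ} (hx : x < 1 / 4 ∨ 1 < x) : deriv g x = 0 := by
  rcases hx with hx | hx
  · have h3 : g =ᶠ[𝓝 x] fun _ => c := by
      filter_upwards [Iio_mem_nhds hx] with y hy
      exact h1 y hy
    rw [h3.deriv_eq]
    simp
  · have h3 : g =ᶠ[𝓝 x] fun _ => d := by
      filter_upwards [Ioi_mem_nhds hx] with y hy
      exact h2 y hy
    rw [h3.deriv_eq]
    simp

/-- bounds for the derivatives of `chN` -/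
theorem chN_bounds : ∃ K : ℝ, 0 < K ∧ ∀ x : ℝ, |deriv chN x| ≤ K ∧ |deriv (deriv chN) x| ≤ K ∧
    |deriv (deriv (deriv chN)) x| ≤ K ∧ deriv chN x ^ 2 ≤ K * chN x ∧
    deriv chN x ^ 2 ≤ K * (1 - chN x) ∧
    ((x < 1 / 4 ∨ 1 < x) → deriv chN x = 0 ∧ deriv (deriv chN) x = 0 ∧
      deriv (deriv (deriv chN)) x = 0) := by
  have s0 : ContDiff ℝ (⊤ : ℕ∞) chN := chN_smooth
  have s1 : ContDiff ℝ (⊤ : ℕ∞) (deriv chN) := (contDiff_infty_iff_deriv.1 s0).2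
  have s2 : ContDiff ℝ (⊤ : ℕ∞) (deriv (deriv chN)) := (contDiff_infty_iff_deriv.1 s1).2
  have s3 : ContDiff ℝ (⊤ : ℕ∞) (deriv (deriv (deriv chN))) := (contDiff_infty_iff_deriv.1 s2).2
  have z1 : ∀ x : ℝ, (x < 1 / 4 ∨ 1 < x) → deriv chN x = 0 := fun x hx =>
    nc_deriv_zero (c := 1) (d := 0) (fun y hy => chN_one hy.le) (fun y hy => chN_zero hy.le) hx
  have z2 : ∀ x : ℝ, (x < 1 / 4 ∨ 1 < x) → deriv (deriv chN) x = 0 := fun x hx =>
    nc_deriv_zero (c := 0) (d := 0) (fun y hy => z1 y (Or.inl hy)) (fun y hy => z1 y (Or.inr hy)) hx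
  have z3 : ∀ x : ℝ, (x < 1 / 4 ∨ 1 < x) → deriv (deriv (deriv chN)) x = 0 := fun x hx =>
    nc_deriv_zero (c := 0) (d := 0) (fun y hy => z2 y (Or.inl hy)) (fun y hy => z2 y (Or.inr hy)) hx
  obtain ⟨K1, p1, b1⟩ := nc_bdd s1.continuous z1
  obtain ⟨K2, p2, b2⟩ := nc_bdd s2.continuous z2
  obtain ⟨K3, p3, b3⟩ := nc_bdd s3.continuous z3
  have hM0 : 0 < K2 + 1 := by linarith
  have d0 : Differentiable ℝ chN := (contDiff_infty_iff_deriv.1 s0).1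
  have d1 : Differentiable ℝ (deriv chN) := (contDiff_infty_iff_deriv.1 s1).1
  have q1 := nc_sq d0 d1 hM0 (fun x => (b2 x).trans (by linarith)) chN_nonneg
  have e1 : deriv (fun x => 1 - chN x) = fun x => -(deriv chN x) := by
    funext x
    rw [deriv_const_sub]
  have e2 : deriv (fun x => -(deriv chN x)) = fun x => -(deriv (deriv chN) x) := by
    funext x
    exact deriv.fun_neg
  have q2 := nc_sq (h := fun x => 1 - chN x) (M := K2 + 1) (d0.const_sub 1)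
    (by rw [e1]; exact d1.fun_neg) hM0
    (fun x => by
      rw [e1, e2, abs_neg]
      exact (b2 x).trans (by linarith)) (fun x => sub_nonneg.2 (chN_le_one x))
  refine ⟨2 * (K2 + 1) + K1 + K3, by linarith, fun x => ⟨?_, ?_, ?_, ?_, ?_, fun hx =>
    ⟨z1 x hx, z2 x hx, z3 x hx⟩⟩⟩
  · exact (b1 x).trans (by linarith)
  · exact (b2 x).trans (by linarith)
  · exact (b3 x).trans (by linarith)
  · refine (q1 x).trans (mul_le_mul_of_nonneg_right (by linarith) (chN_nonneg x))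
  · have h1 := q2 x
    rw [e1] at h1
    have h2 : deriv chN x ^ 2 ≤ 2 * (K2 + 1) * (1 - chN x) := by
      have h3 : (-(deriv chN x)) ^ 2 = deriv chN x ^ 2 := by ring
      rw [← h3]
      exact h1
    exact h2.trans (mul_le_mul_of_nonneg_right (by linarith) (sub_nonneg.2 (chN_le_one x)))

private theorem nc_mid_smooth : ContDiff ℝ (⊤ : ℕ∞) (fun p : V × V => mid p.1 p.2) := by
  unfold mid
  exact (contDiff_fst.add contDiff_snd).const_smul (1 / 2 : ℝ)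

private theorem nc_nsq_smooth : ContDiff ℝ (⊤ : ℕ∞) (fun p : V × V => ‖p.1 - p.2‖ ^ 2) :=
  (contDiff_fst.sub contDiff_snd).norm_sq ℝ

/-- the midpoint is a smooth map, `SS` is smooth -/
theorem SS_smooth {ϱ : V → ℝ} (h : ContDiff ℝ (⊤ : ℕ∞) (fun v => ϱ v ^ 2)) (δ : ℝ) :
    ContDiff ℝ (⊤ : ℕ∞) (SS ϱ δ) := by
  unfold SS
  exact (h.comp nc_mid_smooth).add contDiff_const

theorem SS_pos (ϱ : V → ℝ) {δ : ℝ} (hδ : 0 < δ) (p : V × V) : 0 < SS ϱ δ p := by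
  unfold SS
  positivity

theorem eta_smooth {ϱ : V → ℝ} (h : ContDiff ℝ (⊤ : ℕ∞) (fun v => ϱ v ^ 2)) {δ : ℝ} (hδ : 0 < δ) :
    ContDiff ℝ (⊤ : ℕ∞) (eta ϱ δ) := by
  unfold eta
  exact chN_smooth.comp (nc_nsq_smooth.div (SS_smooth h δ) fun p => (SS_pos ϱ hδ p).ne')

theorem eta_nonneg (ϱ : V → ℝ) (δ : ℝ) (p : V × V) : 0 ≤ eta ϱ δ p := by
  exact chN_nonneg _

theorem eta_le_one (ϱ : V → ℝ) (δ : ℝ) (p : V × V) : eta ϱ δ p ≤ 1 := by
  exact chN_le_one _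

theorem eta_one {ϱ : V → ℝ} {δ : ℝ} (hδ : 0 < δ) {p : V × V}
    (h : 4 * ‖p.1 - p.2‖ ^ 2 ≤ SS ϱ δ p) : eta ϱ δ p = 1 := by
  refine chN_one ?_
  rw [div_le_iff₀ (SS_pos ϱ hδ p)]
  linarith

theorem eta_zero {ϱ : V → ℝ} {δ : ℝ} (hδ : 0 < δ) {p : V × V}
    (h : SS ϱ δ p ≤ ‖p.1 - p.2‖ ^ 2) : eta ϱ δ p = 0 := by
  refine chN_zero ?_
  rw [le_div_iff₀ (SS_pos ϱ hδ p), one_mul]
  exact h

theorem eta_swap (ϱ : V → ℝ) (δ : ℝ) (v w : V) : eta ϱ δ (v, w) = eta ϱ δ (w, v) := by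
  unfold eta SS mid
  simp only
  rw [norm_sub_rev, add_comm v w]

private theorem nc_rE_pos {ε : ℝ} (hε : 0 < ε) (p : V × V) : 0 < rE ε p := by
  unfold rE
  positivity

private theorem nc_rE_smooth {ε : ℝ} (hε : 0 < ε) : ContDiff ℝ (⊤ : ℕ∞) (rE ε) := by
  unfold rE
  refine ContDiff.sqrt (nc_nsq_smooth.add contDiff_const) fun p => ?_
  positivity

theorem bet_smooth {ε : ℝ} (hε : 0 < ε) : ContDiff ℝ (⊤ : ℕ∞) (bet ε) := by
  unfold bet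
  exact contDiff_const.mul (((nc_rE_smooth hε).pow 3).inv fun p =>
    pow_ne_zero 3 (nc_rE_pos hε p).ne')

theorem BB_smooth {ϱ : V → ℝ} (h : ContDiff ℝ (⊤ : ℕ∞) (fun v => ϱ v ^ 2)) {ε δ : ℝ} (hε : 0 < ε)
    (hδ : 0 < δ) : ContDiff ℝ (⊤ : ℕ∞) (BB ε ϱ δ) := by
  unfold BB
  exact (bet_smooth hε).mul (eta_smooth h hδ)

private theorem nc_diff {P : V × V → ℝ} (hP : ContDiff ℝ (⊤ : ℕ∞) P) (p : V × V) :
    DifferentiableAt ℝ P p := (hP.differentiable (by simp)).differentiableAt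

private theorem nc_dv_comp {P : V × V → ℝ} {p : V × V} (hP : DifferentiableAt ℝ P p)
    {φ : ℝ → ℝ} {φ' : ℝ} (hφ : HasDerivAt φ φ' (P p)) (l : Fin 3) :
    dv l (fun x => φ (P x)) p = φ' * dv l P p := by
  have h1 : HasFDerivAt (fun x => φ (P x)) (φ' • fderiv ℝ P p) p :=
    hφ.comp_hasFDerivAt p hP.hasFDerivAt
  unfold dv
  rw [h1.fderiv]
  rfl

private theorem nc_dw_comp {P : V × V → ℝ} {p : V × V} (hP : DifferentiableAt ℝ P p)
    {φ : ℝ → ℝ} {φ' : ℝ} (hφ : HasDerivAt φ φ' (P p)) (l : Fin 3) :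
    dw l (fun x => φ (P x)) p = φ' * dw l P p := by
  have h1 : HasFDerivAt (fun x => φ (P x)) (φ' • fderiv ℝ P p) p :=
    hφ.comp_hasFDerivAt p hP.hasFDerivAt
  unfold dw
  rw [h1.fderiv]
  rfl

private theorem nc_RR_comp {P : V × V → ℝ} {p : V × V} (hP : DifferentiableAt ℝ P p)
    {φ : ℝ → ℝ} {φ' : ℝ} (hφ : HasDerivAt φ φ' (P p)) (a b : Fin 3) :
    RR a b (fun x => φ (P x)) p = φ' * RR a b P p := by
  unfold RR
  rw [nc_dv_comp hP hφ, nc_dv_comp hP hφ, nc_dw_comp hP hφ, nc_dw_comp hP hφ]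
  ring

private theorem nc_hasF_nsq (p : V × V) : HasFDerivAt (fun x : V × V => ‖x.1 - x.2‖ ^ 2)
    (2 • (innerSL ℝ (p.1 - p.2)).comp
      (ContinuousLinearMap.fst ℝ V V - ContinuousLinearMap.snd ℝ V V)) p := by
  have h1 : HasFDerivAt (fun x : V × V => x.1 - x.2)
      (ContinuousLinearMap.fst ℝ V V - ContinuousLinearMap.snd ℝ V V) p :=
    hasFDerivAt_fst.sub hasFDerivAt_snd
  exact h1.norm_sq

private theorem nc_dv_nsq (l : Fin 3) (p : V × V) :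
    dv l (fun x : V × V => ‖x.1 - x.2‖ ^ 2) p = 2 * (p.1 l - p.2 l) := by
  unfold dv
  rw [(nc_hasF_nsq p).fderiv]
  simp [EuclideanSpace.inner_single_right]

private theorem nc_dw_nsq (l : Fin 3) (p : V × V) :
    dw l (fun x : V × V => ‖x.1 - x.2‖ ^ 2) p = -(2 * (p.1 l - p.2 l)) := by
  unfold dw
  rw [(nc_hasF_nsq p).fderiv]
  simp [EuclideanSpace.inner_single_right]
  ring

private theorem nc_hasF_mid {h : V → ℝ} (hh : Differentiable ℝ h) (p : V × V) :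
    HasFDerivAt (fun x : V × V => h (mid x.1 x.2))
      ((fderiv ℝ h (mid p.1 p.2)).comp
        ((1 / 2 : ℝ) • (ContinuousLinearMap.fst ℝ V V + ContinuousLinearMap.snd ℝ V V))) p := by
  have h1 : HasFDerivAt (fun x : V × V => mid x.1 x.2)
      ((1 / 2 : ℝ) • (ContinuousLinearMap.fst ℝ V V + ContinuousLinearMap.snd ℝ V V)) p := by
    unfold mid
    exact (hasFDerivAt_fst.add hasFDerivAt_snd).const_smul (1 / 2 : ℝ)
  exact (hh (mid p.1 p.2)).hasFDerivAt.comp p h1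

private theorem nc_dv_mid {h : V → ℝ} (hh : Differentiable ℝ h) (l : Fin 3) (p : V × V) :
    dv l (fun x : V × V => h (mid x.1 x.2)) p = (1 / 2) * pd l h (mid p.1 p.2) := by
  unfold dv pd
  rw [(nc_hasF_mid hh p).fderiv]
  simp

private theorem nc_dw_mid {h : V → ℝ} (hh : Differentiable ℝ h) (l : Fin 3) (p : V × V) :
    dw l (fun x : V × V => h (mid x.1 x.2)) p = (1 / 2) * pd l h (mid p.1 p.2) := by
  unfold dw pd
  rw [(nc_hasF_mid hh p).fderiv]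
  simp

/-- functions of the midpoint are invariant -/
theorem RR_mid {h : V → ℝ} (hh : ContDiff ℝ (⊤ : ℕ∞) h) (a b : Fin 3) (p : V × V) :
    RR a b (fun x => h (mid x.1 x.2)) p = 0 := by
  have hd : Differentiable ℝ h := differentiable_of_smooth hh
  unfold RR
  rw [nc_dv_mid hd, nc_dv_mid hd, nc_dw_mid hd, nc_dw_mid hd]
  ring

private theorem nc_RR_nsq (a b : Fin 3) (p : V × V) :
    RR a b (fun x : V × V => ‖x.1 - x.2‖ ^ 2) p = 0 := by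
  unfold RR
  rw [nc_dv_nsq, nc_dv_nsq, nc_dw_nsq, nc_dw_nsq]
  ring

private theorem nc_bet_eq (ε : ℝ) : bet ε =
    fun p => (fun t : ℝ => (1 / (2 * Real.pi)) * (Real.sqrt (t + ε ^ 2) ^ 3)⁻¹)
      (‖p.1 - p.2‖ ^ 2) := by
  funext p
  rfl

private theorem nc_bet_der {ε : ℝ} (hε : 0 < ε) {t : ℝ} (ht : 0 ≤ t) :
    HasDerivAt (fun t : ℝ => (1 / (2 * Real.pi)) * (Real.sqrt (t + ε ^ 2) ^ 3)⁻¹)
      (-(3 / 2) * ((1 / (2 * Real.pi)) * (Real.sqrt (t + ε ^ 2) ^ 3)⁻¹) /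
        Real.sqrt (t + ε ^ 2) ^ 2) t := by
  have hp : 0 < t + ε ^ 2 := by positivity
  have hs : 0 < Real.sqrt (t + ε ^ 2) := Real.sqrt_pos.2 hp
  have h1 : HasDerivAt (fun t : ℝ => t + ε ^ 2) 1 t := by
    simpa using (hasDerivAt_id t).add_const (ε ^ 2)
  have h2 : HasDerivAt (fun t : ℝ => Real.sqrt (t + ε ^ 2)) (1 / (2 * Real.sqrt (t + ε ^ 2))) t :=
    h1.sqrt hp.ne'
  have h3 := ((h2.fun_pow 3).fun_inv (pow_ne_zero 3 hs.ne')).const_mul (1 / (2 * Real.pi))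
  refine h3.congr_deriv ?_
  have hpi := Real.pi_pos
  field_simp
  ring

theorem RR_BB {ϱ : V → ℝ} (h : ContDiff ℝ (⊤ : ℕ∞) (fun v => ϱ v ^ 2)) {ε δ : ℝ} (hε : 0 < ε)
    (hδ : 0 < δ) (a b : Fin 3) (p : V × V) : RR a b (BB ε ϱ δ) p = 0 := by
  have hη : RR a b (eta ϱ δ) p = 0 := by
    have hS := SS_smooth h δ
    have hS0 := SS_pos ϱ hδ
    have hSi : ContDiff ℝ (⊤ : ℕ∞) (fun x : V × V => (SS ϱ δ x)⁻¹) := hS.inv fun x => (hS0 x).ne'
    have h1 : eta ϱ δ = fun x => chN ((fun x : V × V => ‖x.1 - x.2‖ ^ 2 * (SS ϱ δ x)⁻¹) x) := by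
      funext x
      unfold eta
      rw [div_eq_mul_inv]
    have h2 : RR a b (fun x : V × V => (SS ϱ δ x)⁻¹) p = 0 := by
      have h3 : ContDiff ℝ (⊤ : ℕ∞) (fun v : V => (ϱ v ^ 2 + δ ^ 2)⁻¹) :=
        (h.add contDiff_const).inv fun v => by positivity
      exact RR_mid h3 a b p
    have hd := nc_diff (nc_nsq_smooth.mul hSi) p
    rw [h1, nc_RR_comp hd ((chN_smooth.differentiable (by simp)) _).hasDerivAt,
      RR_mul nc_nsq_smooth hSi, h2, nc_RR_nsq]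
    ring
  have hβ : RR a b (bet ε) p = 0 := by
    rw [nc_bet_eq ε, nc_RR_comp (nc_diff nc_nsq_smooth p) (nc_bet_der hε (by positivity)),
      nc_RR_nsq, mul_zero]
  unfold BB
  rw [RR_mul (bet_smooth hε) (eta_smooth h hδ), hη, hβ]
  ring

theorem dv_bet {ε : ℝ} (hε : 0 < ε) (l : Fin 3) (p : V × V) :
    dv l (bet ε) p = -(3 * (p.1 l - p.2 l) / rE ε p ^ 2 * bet ε p) := by
  have h1 : dv l (bet ε) p = -(3 / 2) * (bet ε p) / rE ε p ^ 2 * (2 * (p.1 l - p.2 l)) := by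
    have h2 : dv l (bet ε) p = -(3 / 2) * (bet ε p) / rE ε p ^ 2 *
        dv l (fun x : V × V => ‖x.1 - x.2‖ ^ 2) p := by
      conv_lhs => rw [nc_bet_eq ε]
      exact nc_dv_comp (nc_diff nc_nsq_smooth p) (nc_bet_der hε (by positivity)) l
    rw [h2, nc_dv_nsq]
  rw [h1]
  have := nc_rE_pos hε p
  field_simp

theorem dw_bet {ε : ℝ} (hε : 0 < ε) (l : Fin 3) (p : V × V) :
    dw l (bet ε) p = 3 * (p.1 l - p.2 l) / rE ε p ^ 2 * bet ε p := by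
  have h1 : dw l (bet ε) p = -(3 / 2) * (bet ε p) / rE ε p ^ 2 * (-(2 * (p.1 l - p.2 l))) := by
    have h2 : dw l (bet ε) p = -(3 / 2) * (bet ε p) / rE ε p ^ 2 *
        dw l (fun x : V × V => ‖x.1 - x.2‖ ^ 2) p := by
      conv_lhs => rw [nc_bet_eq ε]
      exact nc_dw_comp (nc_diff nc_nsq_smooth p) (nc_bet_der hε (by positivity)) l
    rw [h2, nc_dw_nsq]
  rw [h1]
  have := nc_rE_pos hε p
  field_simp

private theorem nc_pd_rho {ϱ : V → ℝ} (h : ContDiff ℝ (⊤ : ℕ∞) (fun v => ϱ v ^ 2))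
    (h0 : ∀ v, 0 ≤ ϱ v) (hL : ∀ v w, |ϱ v - ϱ w| ≤ ‖v - w‖) (l : Fin 3) (v : V) :
    |pd l (fun v => ϱ v ^ 2) v| ≤ 2 * ϱ v := by
  set e : V := EuclideanSpace.single l 1 with he
  have hen : ‖e‖ = 1 := by simp [he]
  have hline : HasDerivAt (fun t : ℝ => v + t • e) e 0 := by
    have h1 : HasDerivAt (fun t : ℝ => t • e) ((1 : ℝ) • e) 0 := (hasDerivAt_id (0 : ℝ)).smul_const e
    rw [one_smul] at h1
    exact h1.const_add v
  have hf : HasDerivAt (fun t : ℝ => ϱ (v + t • e) ^ 2) (pd l (fun v => ϱ v ^ 2) v) 0 := by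
    have h2 : HasFDerivAt (fun v => ϱ v ^ 2) (fderiv ℝ (fun v => ϱ v ^ 2) v) (v + (0 : ℝ) • e) := by
      rw [zero_smul, add_zero]
      exact (differentiable_of_smooth h v).hasFDerivAt
    exact h2.comp_hasDerivAt (0 : ℝ) hline
  have hslope := hf.tendsto_slope_zero
  have hb : Tendsto (fun t : ℝ => 2 * ϱ v + |t|) (𝓝[≠] 0) (𝓝 (2 * ϱ v)) := by
    have h1 : Tendsto (fun t : ℝ => 2 * ϱ v + |t|) (𝓝 0) (𝓝 (2 * ϱ v + |(0 : ℝ)|)) :=
      (tendsto_const_nhds.add (continuous_abs.tendsto (0 : ℝ)))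
    rw [abs_zero, add_zero] at h1
    exact h1.mono_left nhdsWithin_le_nhds
  refine le_of_tendsto_of_tendsto hslope.abs hb ?_
  filter_upwards [self_mem_nhdsWithin] with t ht
  have ht0 : t ≠ 0 := ht
  have h3 := hL (v + t • e) v
  rw [add_sub_cancel_left, norm_smul, hen, mul_one, Real.norm_eq_abs] at h3
  have h4 := h0 v
  have h5 := h0 (v + t • e)
  have h6 : ϱ (v + t • e) ≤ ϱ v + |t| := by linarith [(abs_le.1 h3).2]
  have h7 : |ϱ (v + t • e) ^ 2 - ϱ v ^ 2| ≤ |t| * (2 * ϱ v + |t|) := by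
    have h8 : ϱ (v + t • e) ^ 2 - ϱ v ^ 2 = (ϱ (v + t • e) - ϱ v) * (ϱ (v + t • e) + ϱ v) := by ring
    rw [h8, abs_mul, abs_of_nonneg (add_nonneg h5 h4)]
    exact mul_le_mul h3 (by linarith) (add_nonneg h5 h4) (abs_nonneg _)
  have h9 : 0 < |t| := abs_pos.2 ht0
  simp only [zero_add, zero_smul, add_zero, smul_eq_mul]
  rw [abs_mul, abs_inv]
  calc |t|⁻¹ * |ϱ (v + t • e) ^ 2 - ϱ v ^ 2| ≤ |t|⁻¹ * (|t| * (2 * ϱ v + |t|)) :=
        mul_le_mul_of_nonneg_left h7 (by positivity)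
    _ = 2 * ϱ v + |t| := by field_simp

/-- the gradient of the quotient `r² / S` where `r² ≤ S` -/
private theorem nc_alg {z D r s : ℝ} (hs : 0 < s) (hr : 0 ≤ r) (hrs : r ≤ s) (hz : |z| ≤ r)
    (hD : |D| ≤ s) : (r ^ 2 * (-((s ^ 2) ^ 2)⁻¹ * D) + 2 * z * (s ^ 2)⁻¹) ^ 2 ≤ 9 / s ^ 2 := by
  have h1 : |r ^ 2 * (-((s ^ 2) ^ 2)⁻¹ * D)| ≤ 1 / s := by
    rw [abs_mul, abs_mul, abs_neg, abs_of_nonneg (by positivity : 0 ≤ r ^ 2),
      abs_of_nonneg (by positivity : 0 ≤ ((s ^ 2) ^ 2)⁻¹)]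
    have h2 : r ^ 2 ≤ s ^ 2 := pow_le_pow_left₀ hr hrs 2
    calc r ^ 2 * (((s ^ 2) ^ 2)⁻¹ * |D|) ≤ s ^ 2 * (((s ^ 2) ^ 2)⁻¹ * s) := by
          gcongr
      _ = 1 / s := by field_simp
  have h2 : |2 * z * (s ^ 2)⁻¹| ≤ 2 / s := by
    rw [abs_mul, abs_mul, abs_of_pos (by norm_num : (0 : ℝ) < 2),
      abs_of_nonneg (by positivity : 0 ≤ (s ^ 2)⁻¹)]
    calc 2 * |z| * (s ^ 2)⁻¹ ≤ 2 * s * (s ^ 2)⁻¹ := by
          have := hz.trans hrs
          gcongr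
      _ = 2 / s := by field_simp
  have h3 : |r ^ 2 * (-((s ^ 2) ^ 2)⁻¹ * D) + 2 * z * (s ^ 2)⁻¹| ≤ 3 / s := by
    refine (abs_add_le _ _).trans ?_
    have h4 : 3 / s = 1 / s + 2 / s := by ring
    rw [h4]
    exact add_le_add h1 h2
  calc _ = |r ^ 2 * (-((s ^ 2) ^ 2)⁻¹ * D) + 2 * z * (s ^ 2)⁻¹| ^ 2 := (sq_abs _).symm
    _ ≤ (3 / s) ^ 2 := pow_le_pow_left₀ (abs_nonneg _) h3 2
    _ = 9 / s ^ 2 := by ring

private theorem nc_eta_d {ϱ : V → ℝ} {δ : ℝ} (h : ContDiff ℝ (⊤ : ℕ∞) (fun v => ϱ v ^ 2))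
    (hδ : 0 < δ) (p : V × V) (l : Fin 3) :
    dv l (eta ϱ δ) p = deriv chN (‖p.1 - p.2‖ ^ 2 / SS ϱ δ p) *
      (‖p.1 - p.2‖ ^ 2 * (-(SS ϱ δ p ^ 2)⁻¹ * ((1 / 2) * pd l (fun v => ϱ v ^ 2) (mid p.1 p.2))) +
        2 * (p.1 l - p.2 l) * (SS ϱ δ p)⁻¹) ∧
    dw l (eta ϱ δ) p = deriv chN (‖p.1 - p.2‖ ^ 2 / SS ϱ δ p) *
      (‖p.1 - p.2‖ ^ 2 * (-(SS ϱ δ p ^ 2)⁻¹ * ((1 / 2) * pd l (fun v => ϱ v ^ 2) (mid p.1 p.2))) +
        2 * (-(p.1 l - p.2 l)) * (SS ϱ δ p)⁻¹) := by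
  have hS := SS_smooth h δ
  have hS0 := SS_pos ϱ hδ
  have hSi : ContDiff ℝ (⊤ : ℕ∞) (fun x : V × V => (SS ϱ δ x)⁻¹) := hS.inv fun x => (hS0 x).ne'
  have h1 : eta ϱ δ = fun x => chN ((fun x : V × V => ‖x.1 - x.2‖ ^ 2 * (SS ϱ δ x)⁻¹) x) := by
    funext x
    unfold eta
    rw [div_eq_mul_inv]
  have hd := nc_diff (nc_nsq_smooth.mul hSi) p
  have hch : HasDerivAt chN (deriv chN (‖p.1 - p.2‖ ^ 2 / SS ϱ δ p))
      ((fun x : V × V => ‖x.1 - x.2‖ ^ 2 * (SS ϱ δ x)⁻¹) p) := by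
    change HasDerivAt chN (deriv chN (‖p.1 - p.2‖ ^ 2 / SS ϱ δ p))
      (‖p.1 - p.2‖ ^ 2 * (SS ϱ δ p)⁻¹)
    rw [← div_eq_mul_inv]
    exact ((chN_smooth.differentiable (by simp)) _).hasDerivAt
  have hinv : HasDerivAt (fun t : ℝ => t⁻¹) (-(SS ϱ δ p ^ 2)⁻¹) (SS ϱ δ p) :=
    hasDerivAt_inv (hS0 p).ne'
  have hρ : Differentiable ℝ (fun v : V => ϱ v ^ 2 + δ ^ 2) :=
    (differentiable_of_smooth h).add_const _
  have hpd : ∀ v, pd l (fun v : V => ϱ v ^ 2 + δ ^ 2) v = pd l (fun v => ϱ v ^ 2) v := by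
    intro v
    unfold pd
    rw [fderiv_add_const]
  have hSv : dv l (SS ϱ δ) p = (1 / 2) * pd l (fun v => ϱ v ^ 2) (mid p.1 p.2) := by
    rw [← hpd]
    exact nc_dv_mid hρ l p
  have hSw : dw l (SS ϱ δ) p = (1 / 2) * pd l (fun v => ϱ v ^ 2) (mid p.1 p.2) := by
    rw [← hpd]
    exact nc_dw_mid hρ l p
  have hSiv : dv l (fun x : V × V => (SS ϱ δ x)⁻¹) p =
      -(SS ϱ δ p ^ 2)⁻¹ * dv l (SS ϱ δ) p := nc_dv_comp (nc_diff hS p) hinv l
  have hSiw : dw l (fun x : V × V => (SS ϱ δ x)⁻¹) p =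
      -(SS ϱ δ p ^ 2)⁻¹ * dw l (SS ϱ δ) p := nc_dw_comp (nc_diff hS p) hinv l
  constructor
  · rw [h1, nc_dv_comp hd hch, dv_mul nc_nsq_smooth hSi, hSiv, hSv, nc_dv_nsq]
  · rw [h1, nc_dw_comp hd hch, dw_mul nc_nsq_smooth hSi, hSiw, hSw, nc_dw_nsq]
    ring

/-- the gradient of the cutoff: size and support -/
theorem eta_grad : ∃ K : ℝ, 0 < K ∧ ∀ (ϱ : V → ℝ) (δ : ℝ),
    ContDiff ℝ (⊤ : ℕ∞) (fun v => ϱ v ^ 2) → (∀ v, 0 ≤ ϱ v) → (∀ v w, |ϱ v - ϱ w| ≤ ‖v - w‖) →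
    0 < δ → ∀ (p : V × V) (l : Fin 3),
      (dv l (eta ϱ δ) p ^ 2 ≤ K * eta ϱ δ p / SS ϱ δ p) ∧
      (dw l (eta ϱ δ) p ^ 2 ≤ K * eta ϱ δ p / SS ϱ δ p) ∧
      (dv l (eta ϱ δ) p ^ 2 ≤ K * (1 - eta ϱ δ p) / SS ϱ δ p) ∧
      (dw l (eta ϱ δ) p ^ 2 ≤ K * (1 - eta ϱ δ p) / SS ϱ δ p) ∧
      ((4 * ‖p.1 - p.2‖ ^ 2 < SS ϱ δ p ∨ SS ϱ δ p < ‖p.1 - p.2‖ ^ 2) →
        dv l (eta ϱ δ) p = 0 ∧ dw l (eta ϱ δ) p = 0) := by
  obtain ⟨K, hK, hb⟩ := chN_bounds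
  refine ⟨9 * K, by positivity, fun ϱ δ h h0 hL hδ p l => ?_⟩
  have hS0 := SS_pos ϱ hδ p
  set S := SS ϱ δ p with hS
  set x := ‖p.1 - p.2‖ ^ 2 / S with hx
  obtain ⟨-, -, -, b1, b2, bz⟩ := hb x
  obtain ⟨e1, e2⟩ := nc_eta_d h hδ p l
  rw [← hS, ← hx] at e1 e2
  have heta : eta ϱ δ p = chN x := rfl
  have hzl : |p.1 l - p.2 l| ≤ ‖p.1 - p.2‖ := Cls.abs_coord (p.1 - p.2) l
  have hzl' : |-(p.1 l - p.2 l)| ≤ ‖p.1 - p.2‖ := by rwa [abs_neg]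
  set s := Real.sqrt S with hs
  have hs0 : 0 < s := Real.sqrt_pos.2 hS0
  have hs2 : s ^ 2 = S := Real.sq_sqrt hS0.le
  have hD : |(1 / 2) * pd l (fun v => ϱ v ^ 2) (mid p.1 p.2)| ≤ s := by
    have h1 := nc_pd_rho h h0 hL l (mid p.1 p.2)
    rw [abs_mul, abs_of_pos (by norm_num : (0 : ℝ) < 1 / 2)]
    have h2 : ϱ (mid p.1 p.2) ≤ s := by
      refine Real.le_sqrt_of_sq_le ?_
      have : S = ϱ (mid p.1 p.2) ^ 2 + δ ^ 2 := rfl
      rw [this]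
      have := sq_nonneg δ
      linarith
    linarith
  have main : ∀ z : ℝ, |z| ≤ ‖p.1 - p.2‖ → ∀ c : ℝ, deriv chN x ^ 2 ≤ K * c → 0 ≤ c →
      (deriv chN x * (‖p.1 - p.2‖ ^ 2 *
        (-(S ^ 2)⁻¹ * ((1 / 2) * pd l (fun v => ϱ v ^ 2) (mid p.1 p.2))) + 2 * z * S⁻¹)) ^ 2 ≤
        9 * K * c / S := by
    intro z hz c hc hc0
    rcases le_or_gt x 1 with hx1 | hx1
    · have hrs : ‖p.1 - p.2‖ ≤ s := by
        refine Real.le_sqrt_of_sq_le ?_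
        rw [hx, div_le_one hS0] at hx1
        exact hx1
      have h1 := nc_alg hs0 (norm_nonneg _) hrs hz hD
      rw [hs2] at h1
      rw [mul_pow]
      calc deriv chN x ^ 2 * (‖p.1 - p.2‖ ^ 2 *
          (-(S ^ 2)⁻¹ * ((1 / 2) * pd l (fun v => ϱ v ^ 2) (mid p.1 p.2))) + 2 * z * S⁻¹) ^ 2
          ≤ (K * c) * (9 / S) := mul_le_mul hc h1 (sq_nonneg _) (by positivity)
        _ = 9 * K * c / S := by ring
    · rw [(bz (Or.inr hx1)).1, zero_mul]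
      have : (0 : ℝ) ^ 2 = 0 := by norm_num
      rw [this]
      positivity
  rw [e1, e2, heta]
  have hc0 := chN_nonneg x
  have hc1 : 0 ≤ 1 - chN x := sub_nonneg.2 (chN_le_one x)
  refine ⟨main _ hzl _ b1 hc0, main _ hzl' _ b1 hc0, main _ hzl _ b2 hc1, main _ hzl' _ b2 hc1, ?_⟩
  intro hcase
  have hz : deriv chN x = 0 := by
    refine (bz ?_).1
    rcases hcase with h1 | h1
    · left
      rw [hx, div_lt_iff₀ hS0]
      linarith
    · right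
      rw [hx, lt_div_iff₀ hS0, one_mul]
      exact h1
  rw [hz, zero_mul, zero_mul]
  exact ⟨rfl, rfl⟩

end Pool.Agent.LandauF
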