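import Pool.Agent.LandauF.NTrans
import Pool.Agent.LandauF.NCut
import Pool.Agent.LandauG.WKer

/-!
# LandauF, module NAdm: elementary consequences of admissibility on the near zone

Pairs `p = (v, w)` with `δ < ϱ(mid)`, `v ≠ w` and `r² ≤ SS` (`r = ‖v - w‖`): then `SS ≤ 2 ϱ(mid)²`,
`r ≤ √2 ϱ(mid)`, and since `ϱ` is `ε₀`-Lipschitz with `ε₀ ≤ 1/100`, `r ≤ 2 ϱ(v)`, `r ≤ 2 ϱ(w)`,
`ϱ(v), ϱ(w), ϱ(mid)` agree up to `2 %`.  The segment `[v, w]` is in the ball of radius `4 ϱ(v)` about `v`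
(same for `w` and for the midpoint), so `|∂φ(x)| ≤ κ(v) φ(v)` on it, and
`|φ(x) - φ(v)| ≤ 3 κ(v) φ(v) r ≤ 6 ε₀ φ(v)`; the same with `w` or the midpoint in place of `v`.
(If `φ(v) = 0` then the gradient vanishes on the ball, so `φ = 0` on the segment; the statements hold.)
-/

set_option autoImplicit false

namespace Pool.Agent.LandauF

open MeasureTheory Set Filter Topology Pool.Agent.Landau

namespace NAdmAux

theorem mid_sub_left (v w : V) : ‖v - mid v w‖ = ‖v - w‖ / 2 := by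
  have h : v - mid v w = (1 / 2 : ℝ) • (v - w) := by
    unfold mid
    module
  rw [h, norm_smul, Real.norm_of_nonneg (by norm_num)]
  ring

theorem mid_sub_right (v w : V) : ‖w - mid v w‖ = ‖v - w‖ / 2 := by
  have h : w - mid v w = (-(1 / 2) : ℝ) • (v - w) := by
    unfold mid
    module
  rw [h, norm_smul, Real.norm_eq_abs, abs_neg, abs_of_pos (by norm_num)]
  ring

end NAdmAux

theorem Adm.mono {ε ε' : ℝ} (h : ε ≤ ε') {φ ϱ κ : V → ℝ} (hA : Adm ε φ ϱ κ) : Adm ε' φ ϱ κ := by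
  exact
    { smooth := hA.smooth
      compact := hA.compact
      nonneg := hA.nonneg
      rsmooth := hA.rsmooth
      rnonneg := hA.rnonneg
      rpos := hA.rpos
      rlip := fun v w => (hA.rlip v w).trans (mul_le_mul_of_nonneg_right h (norm_nonneg _))
      r2 := hA.r2
      r3 := hA.r3
      dom := hA.dom
      kmeas := hA.kmeas
      knonneg := hA.knonneg
      krho := fun v hv => (hA.krho v hv).trans h
      d1 := hA.d1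
      d2 := hA.d2 }

/-- sizes on the near zone -/
theorem near_sizes {ε₀ : ℝ} (hε : ε₀ ≤ 1 / 100) {φ ϱ κ : V → ℝ} (hA : Adm ε₀ φ ϱ κ) {δ : ℝ}
    (hδ : 0 < δ) (p : V × V) (h1 : δ < ϱ (mid p.1 p.2)) (h2 : ‖p.1 - p.2‖ ^ 2 ≤ SS ϱ δ p) :
    SS ϱ δ p ≤ 2 * ϱ (mid p.1 p.2) ^ 2 ∧ ‖p.1 - p.2‖ ≤ 2 * ϱ p.1 ∧ ‖p.1 - p.2‖ ≤ 2 * ϱ p.2 ∧
      ‖p.1 - p.2‖ ≤ 2 * ϱ (mid p.1 p.2) ∧
      ϱ p.1 ≤ (102 / 100) * ϱ (mid p.1 p.2) ∧ ϱ p.2 ≤ (102 / 100) * ϱ (mid p.1 p.2) ∧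
      ϱ (mid p.1 p.2) ≤ (102 / 100) * ϱ p.1 ∧ ϱ (mid p.1 p.2) ≤ (102 / 100) * ϱ p.2 := by
  have hm : 0 < ϱ (mid p.1 p.2) := hδ.trans h1
  have hS : SS ϱ δ p ≤ 2 * ϱ (mid p.1 p.2) ^ 2 := by
    unfold SS
    nlinarith
  have hr : ‖p.1 - p.2‖ ≤ (3 / 2) * ϱ (mid p.1 p.2) := by
    apply le_of_sq_le_sq _ (by positivity)
    nlinarith
  have l1 : |ϱ p.1 - ϱ (mid p.1 p.2)| ≤ (1 / 100) * (‖p.1 - p.2‖ / 2) := by
    rw [← NAdmAux.mid_sub_left]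
    exact (hA.rlip _ _).trans (mul_le_mul_of_nonneg_right hε (norm_nonneg _))
  have l2 : |ϱ p.2 - ϱ (mid p.1 p.2)| ≤ (1 / 100) * (‖p.1 - p.2‖ / 2) := by
    rw [← NAdmAux.mid_sub_right]
    exact (hA.rlip _ _).trans (mul_le_mul_of_nonneg_right hε (norm_nonneg _))
  rw [abs_le] at l1 l2
  obtain ⟨l1a, l1b⟩ := l1
  obtain ⟨l2a, l2b⟩ := l2
  refine ⟨hS, ?_, ?_, ?_, ?_, ?_, ?_, ?_⟩ <;> linarith

/-- comparison of the weight along the segment, seen from any point `x` whose `2 ϱ` ball contains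
the segment -/
theorem weight_cmp {ε₀ : ℝ} (hε : ε₀ ≤ 1 / 100) {φ ϱ κ : V → ℝ} (hA : Adm ε₀ φ ϱ κ) (x y y' : V)
    (h1 : ‖y - x‖ ≤ 2 * ϱ x) (h2 : ‖y' - x‖ ≤ 2 * ϱ x) :
    |φ y - φ y'| ≤ 3 * (κ x * φ x) * ‖y - y'‖ ∧ |φ y - φ x| ≤ 6 * ε₀ * φ x ∧
      (∀ i : Fin 3, |pd i φ y| ≤ κ x * φ x) ∧
      (∀ i j : Fin 3, |pd i (pd j φ) y| * ϱ x ≤ κ x * φ x) := by
  have hρ := hA.rnonneg x
  have hκ : 0 ≤ κ x * φ x := mul_nonneg (hA.knonneg x) (hA.nonneg x)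
  have b1 : ∀ z, ‖z - x‖ ≤ 2 * ϱ x → ∀ i : Fin 3, |pd i φ z| ≤ κ x * φ x := fun z hz i =>
    hA.d1 x z (hz.trans (by linarith)) i
  have lip : ∀ z z' : V, ‖z - x‖ ≤ 2 * ϱ x → ‖z' - x‖ ≤ 2 * ϱ x →
      |φ z - φ z'| ≤ 3 * (κ x * φ x) * ‖z - z'‖ := by
    intro z z' hz hz'
    have h6 := (convex_closedBall x (2 * ϱ x)).norm_image_sub_le_of_norm_fderiv_le (𝕜 := ℝ)
      (f := φ) (C := 2 * (κ x * φ x))
      (fun u _ => (differentiable_of_smooth hA.smooth) u)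
      (fun u hu => WKerAux.fd_le _ _ _ fun j => b1 u (by
        rw [Metric.mem_closedBall, dist_eq_norm] at hu
        exact hu) j)
      (x := z') (y := z)
      (by rw [Metric.mem_closedBall, dist_eq_norm]; exact hz')
      (by rw [Metric.mem_closedBall, dist_eq_norm]; exact hz)
    rw [Real.norm_eq_abs] at h6
    refine h6.trans (mul_le_mul_of_nonneg_right ?_ (norm_nonneg _))
    linarith
  refine ⟨lip y y' h1 h2, ?_, b1 y h1, fun i j => hA.d2 x y (h1.trans (by linarith)) i j⟩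
  have h3 := lip y x h1 (by rw [sub_self, norm_zero]; linarith)
  by_cases hφ : φ x = 0
  · rw [hφ] at h3 ⊢
    simpa using h3
  · have h4 := hA.krho x hφ
    have hφ0 := hA.nonneg x
    calc |φ y - φ x| ≤ 3 * (κ x * φ x) * ‖y - x‖ := h3
      _ ≤ 3 * (κ x * φ x) * (2 * ϱ x) := mul_le_mul_of_nonneg_left h1 (by positivity)
      _ = 6 * (κ x * ϱ x) * φ x := by ring
      _ ≤ 6 * ε₀ * φ x := by
          refine mul_le_mul_of_nonneg_right ?_ hφ0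
          linarith

/-- comparison of the three values of the weight -/
theorem weight_cmp3 {ε₀ : ℝ} (hε : ε₀ ≤ 1 / 100) {φ ϱ κ : V → ℝ} (hA : Adm ε₀ φ ϱ κ) {δ : ℝ}
    (hδ : 0 < δ) (p : V × V) (h1 : δ < ϱ (mid p.1 p.2)) (h2 : ‖p.1 - p.2‖ ^ 2 ≤ SS ϱ δ p) :
    φ p.1 ≤ 2 * φ (mid p.1 p.2) ∧ φ p.2 ≤ 2 * φ (mid p.1 p.2) ∧ φ (mid p.1 p.2) ≤ 2 * φ p.1 ∧
      φ (mid p.1 p.2) ≤ 2 * φ p.2 ∧ |φ p.1 - φ (mid p.1 p.2)| ≤ 6 * ε₀ * φ (mid p.1 p.2) ∧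
      |φ p.2 - φ (mid p.1 p.2)| ≤ 6 * ε₀ * φ (mid p.1 p.2) := by
  obtain ⟨-, -, -, s4, -, -, -, -⟩ := near_sizes hε hA hδ p h1 h2
  have hm : 0 < ϱ (mid p.1 p.2) := hδ.trans h1
  have hφ := hA.nonneg (mid p.1 p.2)
  have hl : ‖p.1 - mid p.1 p.2‖ ≤ 2 * ϱ (mid p.1 p.2) := by
    rw [NAdmAux.mid_sub_left]
    linarith [norm_nonneg (p.1 - p.2)]
  have hr : ‖p.2 - mid p.1 p.2‖ ≤ 2 * ϱ (mid p.1 p.2) := by
    rw [NAdmAux.mid_sub_right]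
    linarith [norm_nonneg (p.1 - p.2)]
  obtain ⟨-, c1, -, -⟩ := weight_cmp hε hA (mid p.1 p.2) p.1 p.2 hl hr
  obtain ⟨-, c2, -, -⟩ := weight_cmp hε hA (mid p.1 p.2) p.2 p.1 hr hl
  have e1 : 6 * ε₀ * φ (mid p.1 p.2) ≤ (6 / 100) * φ (mid p.1 p.2) :=
    mul_le_mul_of_nonneg_right (by linarith) hφ
  have c1' := abs_le.1 c1
  have c2' := abs_le.1 c2
  refine ⟨?_, ?_, ?_, ?_, c1, c2⟩ <;> linarith [c1'.1, c1'.2, c2'.1, c2'.2]

/-- the error density is nonnegative -/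
theorem EN_nonneg {ε₀ : ℝ} {φ ϱ κ g : V → ℝ} (hA : Adm ε₀ φ ϱ κ) (hg : Dn g) (v w : V) :
    0 ≤ EN φ ϱ κ g v w := by
  have h1 := hA.nonneg v
  have h2 := (hg.pos v).le
  have h3 := (hg.pos w).le
  have h4 := hA.knonneg v
  have h5 : 0 ≤ x2 g v := Finset.sum_nonneg fun i _ => sq_nonneg _
  have h6 : 0 ≤ kN ϱ v w := by
    unfold kN
    split_ifs
    · positivity
    · exact le_rfl
  have h7 : 0 ≤ kF ϱ v w := by
    unfold kF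
    split_ifs
    · positivity
    · exact le_rfl
  unfold EN
  positivity

end Pool.Agent.LandauF
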