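import Pool.Agent.LandauF.XKer

/-!
# LandauF, module XKerB: sizes of the far kernels

`r = ‖v - w‖`.  Formulas `dv_kf`, `be_eq`, `dbe_eq` of XKer (valid in a neighbourhood of `p`, so they may be
differentiated), `|aK| ≤ 1/r`, `|bK| ≤ 1/r²`, `kernel_bounds`; on the support of the derivatives of `eta` one has
`r² ≤ SS` (`eta_flat`; on the boundary `r² = SS` use continuity or that the bounds `eta_grad`, `eta_d2`, `eta_d3` contain
`SS = r²`), so `|∂ eta| ≤ C/r`, `|∂² eta| ≤ C/r²`, `|∂³ eta| ≤ C (1 + L)/r³`.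
-/

set_option autoImplicit false

namespace Pool.Agent.LandauF

open MeasureTheory Set Filter Topology Pool.Agent.Landau

/-- `P` is differentiable at `p` with `dv k P p = d` -/
private def XkHD (k : Fin 3) (P : V × V → ℝ) (p : V × V) (d : ℝ) : Prop :=
  DifferentiableAt ℝ P p ∧ dv k P p = d

private theorem xk_mul {k : Fin 3} {P Q : V × V → ℝ} {p : V × V} {d e : ℝ}
    (hP : XkHD k P p d) (hQ : XkHD k Q p e) :
    XkHD k (fun x => P x * Q x) p (P p * e + d * Q p) := by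
  refine ⟨hP.1.mul hQ.1, ?_⟩
  rw [← hP.2, ← hQ.2]
  unfold dv
  rw [fderiv_fun_mul hP.1 hQ.1]
  simp
  ring

private theorem xk_add {k : Fin 3} {P Q : V × V → ℝ} {p : V × V} {d e : ℝ}
    (hP : XkHD k P p d) (hQ : XkHD k Q p e) : XkHD k (fun x => P x + Q x) p (d + e) := by
  refine ⟨hP.1.add hQ.1, ?_⟩
  rw [← hP.2, ← hQ.2]
  unfold dv
  rw [fderiv_fun_add hP.1 hQ.1]
  simp

private theorem xk_sub {k : Fin 3} {P Q : V × V → ℝ} {p : V × V} {d e : ℝ}
    (hP : XkHD k P p d) (hQ : XkHD k Q p e) : XkHD k (fun x => P x - Q x) p (d - e) := by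
  refine ⟨hP.1.sub hQ.1, ?_⟩
  rw [← hP.2, ← hQ.2]
  unfold dv
  rw [fderiv_fun_sub hP.1 hQ.1]
  simp

private theorem xk_sum {k : Fin 3} {P : Fin 3 → V × V → ℝ} {p : V × V} {d : Fin 3 → ℝ}
    (hP : ∀ i, XkHD k (P i) p (d i)) : XkHD k (fun x => ∑ i, P i x) p (∑ i, d i) := by
  simp only [Fin.sum_univ_three]
  exact xk_add (xk_add (hP 0) (hP 1)) (hP 2)

private theorem xk_one {k : Fin 3} {P : V × V → ℝ} {p : V × V} {d : ℝ}
    (hP : XkHD k P p d) : XkHD k (fun x => 1 - P x) p (-d) := by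
  refine ⟨hP.1.const_sub 1, ?_⟩
  rw [← hP.2]
  unfold dv
  rw [fderiv_const_sub]
  simp

private theorem xk_smooth {k : Fin 3} {P : V × V → ℝ} (hP : ContDiff ℝ (⊤ : ℕ∞) P) (p : V × V) :
    XkHD k P p (dv k P p) := ⟨(hP.differentiable (by simp)).differentiableAt, rfl⟩

private theorem xk_ker {k : Fin 3} {h : V → ℝ} {p : V × V}
    (hh : ContDiffAt ℝ (⊤ : ℕ∞) h (p.1 - p.2)) :
    XkHD k (fun x => h (x.1 - x.2)) p (pd k h (p.1 - p.2)) := by
  have h0 : DifferentiableAt ℝ h (p.1 - p.2) := hh.differentiableAt (by simp)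
  have h1 : HasFDerivAt (fun x : V × V => x.1 - x.2)
      (ContinuousLinearMap.fst ℝ V V - ContinuousLinearMap.snd ℝ V V) p :=
    hasFDerivAt_fst.sub hasFDerivAt_snd
  have h2 : HasFDerivAt (fun x : V × V => h (x.1 - x.2))
      ((fderiv ℝ h (p.1 - p.2)).comp
        (ContinuousLinearMap.fst ℝ V V - ContinuousLinearMap.snd ℝ V V)) p :=
    h0.hasFDerivAt.comp p h1
  refine ⟨h2.differentiableAt, ?_⟩
  unfold dv pd
  rw [h2.fderiv]
  simp

private theorem xk_congr {k : Fin 3} {P Q : V × V → ℝ} {p : V × V} (h : P =ᶠ[𝓝 p] Q) :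
    dv k P p = dv k Q p := by
  unfold dv
  rw [h.fderiv_eq]

private theorem xk_ds_true (l : Fin 3) : ds true l = dv l := by
  funext P p
  simp [ds]

private theorem xk_ds_false (l : Fin 3) : ds false l = dw l := by
  funext P p
  simp [ds]

private theorem xk_prod {x y a b : ℝ} (hx : |x| ≤ a) (hy : |y| ≤ b) : |x * y| ≤ a * b := by
  rw [abs_mul]
  exact mul_le_mul hx hy (abs_nonneg _) ((abs_nonneg _).trans hx)

private theorem xk_sum_le {f : Fin 3 → ℝ} {a : ℝ} (hf : ∀ i, |f i| ≤ a) :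
    |∑ i, f i| ≤ 3 * a := by
  refine (Finset.abs_sum_le_sum_abs _ _).trans ?_
  refine (Finset.sum_le_sum fun i _ => hf i).trans ?_
  simp

/-- sizes of the derivatives of `eta` in terms of `u = 1 / r` -/
private theorem xk_eta : ∃ c : ℝ, 1 ≤ c ∧ ∀ (ϱ : V → ℝ) (δ L : ℝ) (p : V × V), 0 ≤ L →
    RhoB ϱ δ L p → p.1 ≠ p.2 → ∀ i j k : Fin 3,
      |dv i (eta ϱ δ) p| ≤ c * ‖p.1 - p.2‖⁻¹ ∧ |dw i (eta ϱ δ) p| ≤ c * ‖p.1 - p.2‖⁻¹ ∧
      |dv i (dv j (eta ϱ δ)) p| ≤ c * ‖p.1 - p.2‖⁻¹ ^ 2 ∧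
      |dv i (dw j (eta ϱ δ)) p| ≤ c * ‖p.1 - p.2‖⁻¹ ^ 2 ∧
      |dv i (dv j (dw k (eta ϱ δ))) p| ≤ c * (1 + L) * ‖p.1 - p.2‖⁻¹ ^ 3 := by
  obtain ⟨K1, hK1, g1⟩ := eta_grad
  obtain ⟨K2, hK2, g2⟩ := eta_d2
  obtain ⟨K3, hK3, g3⟩ := eta_d3
  refine ⟨1 + K1 + K2 + K3, by linarith, fun ϱ δ L p hL hρ hp i j k => ?_⟩
  set c := 1 + K1 + K2 + K3 with hc
  have hS0 := SS_pos ϱ hρ.pos p
  have hr : 0 < ‖p.1 - p.2‖ := norm_pos_iff.2 (sub_ne_zero.2 hp)
  set r := ‖p.1 - p.2‖ with hrdef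
  set S := SS ϱ δ p with hSdef
  have hη0 := eta_nonneg ϱ δ p
  have hη1 := eta_le_one ϱ δ p
  have hc0 : 0 < c := by linarith
  rcases lt_or_ge S (r ^ 2) with hlt | hge
  · have f1 := fun σ τ υ i j k => eta_flat hρ.smooth hρ.pos p (Or.inr hlt) σ τ υ i j k
    have a1 := (f1 true true true i j k).1
    have a2 := (f1 false true true i j k).1
    have a3 := (f1 true true true i j k).2.1
    have a4 := (f1 true false true i j k).2.1
    have a5 := (f1 true true false i j k).2.2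
    simp only [xk_ds_true, xk_ds_false] at a1 a2 a3 a4 a5
    rw [a1, a2, a3, a4, a5, abs_zero]
    refine ⟨by positivity, by positivity, by positivity, by positivity, by positivity⟩
  · have hi : ∀ m : ℕ, r⁻¹ ^ m = 1 / r ^ m := fun m => by rw [inv_pow, one_div]
    have hsq : 1 / S ≤ r⁻¹ ^ 2 := by
      rw [hi]
      exact one_div_le_one_div_of_le (by positivity) hge
    have q1 : ∀ x : ℝ, x ^ 2 ≤ K1 * eta ϱ δ p / S → |x| ≤ c * r⁻¹ := by
      intro x hx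
      refine abs_le_of_sq_le_sq ?_ (by positivity)
      refine hx.trans ?_
      calc K1 * eta ϱ δ p / S ≤ K1 * 1 / S := by gcongr
        _ = K1 * (1 / S) := by ring
        _ ≤ c ^ 2 * r⁻¹ ^ 2 := by
            refine mul_le_mul ?_ hsq (by positivity) (by positivity)
            nlinarith
        _ = (c * r⁻¹) ^ 2 := by ring
    obtain ⟨e1, e2, -, -, -⟩ := g1 ϱ δ hρ.smooth hρ.nonneg hρ.lip hρ.pos p i
    have q2 : ∀ x : ℝ, |x| ≤ K2 / S → |x| ≤ c * r⁻¹ ^ 2 := by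
      intro x hx
      refine hx.trans ?_
      calc K2 / S = K2 * (1 / S) := by ring
        _ ≤ c * r⁻¹ ^ 2 := mul_le_mul (by linarith) hsq (by positivity) hc0.le
    have a3 := g2 ϱ δ L p hL hρ true true i j
    have a4 := g2 ϱ δ L p hL hρ true false i j
    have a5 := g3 ϱ δ L p hL hρ true true false i j k
    simp only [xk_ds_true, xk_ds_false] at a3 a4 a5
    refine ⟨q1 _ e1, q1 _ e2, q2 _ a3, q2 _ a4, a5.trans ?_⟩
    have hsr : r ≤ Real.sqrt S := Real.le_sqrt_of_sq_le hge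
    have h3 : 1 / (S * Real.sqrt S) ≤ r⁻¹ ^ 3 := by
      rw [hi]
      refine one_div_le_one_div_of_le (by positivity) ?_
      calc r ^ 3 = r ^ 2 * r := by ring
        _ ≤ S * Real.sqrt S := mul_le_mul hge hsr hr.le hS0.le
    calc K3 * (1 + L) / (S * Real.sqrt S) = K3 * (1 + L) * (1 / (S * Real.sqrt S)) := by ring
      _ ≤ c * (1 + L) * r⁻¹ ^ 3 := by
          refine mul_le_mul ?_ h3 (by positivity) (by positivity)
          exact mul_le_mul_of_nonneg_right (by linarith) (by linarith)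

/-- sizes of the kernels in terms of `u = 1 / r` -/
private theorem xk_kern : ∃ c : ℝ, 1 ≤ c ∧ ∀ z : V, z ≠ 0 → ∀ i j k : Fin 3,
    |aK i j z| ≤ c * ‖z‖⁻¹ ∧ |bK i z| ≤ c * ‖z‖⁻¹ ^ 2 ∧
      |pd k (aK i j) z| ≤ c * ‖z‖⁻¹ ^ 2 ∧ |pd k (bK i) z| ≤ c * ‖z‖⁻¹ ^ 3 := by
  obtain ⟨C, hC, hb⟩ := kernel_bounds
  refine ⟨1 + C, by linarith, fun z hz i j k => ?_⟩
  have hr : 0 < ‖z‖ := norm_pos_iff.2 hz
  obtain ⟨b1, -, b2, -⟩ := hb i j k k z hz
  refine ⟨?_, ?_, ?_, ?_⟩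
  · refine (aK_abs i j z).trans ?_
    rw [one_div]
    exact le_mul_of_one_le_left (by positivity) (by linarith)
  · refine (bK_abs i z).trans ?_
    rw [one_div, ← inv_pow]
    exact le_mul_of_one_le_left (by positivity) (by linarith)
  · refine b1.trans ?_
    rw [div_eq_mul_inv, ← inv_pow]
    exact mul_le_mul_of_nonneg_right (by linarith) (by positivity)
  · refine b2.trans ?_
    rw [div_eq_mul_inv, ← inv_pow]
    exact mul_le_mul_of_nonneg_right (by linarith) (by positivity)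

/-- size of the far kernels -/
theorem kf_size : ∃ C : ℝ, 0 < C ∧ ∀ (ϱ : V → ℝ) (δ L : ℝ) (p : V × V), 0 ≤ L → RhoB ϱ δ L p →
    p.1 ≠ p.2 → ∀ i j k : Fin 3,
      |kf ϱ δ i j p| ≤ C / ‖p.1 - p.2‖ ∧ |dv k (kf ϱ δ i j) p| ≤ C / ‖p.1 - p.2‖ ^ 2 ∧
      |be ϱ δ i p| ≤ C / ‖p.1 - p.2‖ ^ 2 ∧ |dv k (be ϱ δ i) p| ≤ C / ‖p.1 - p.2‖ ^ 3 ∧
      |dv k (dbe ϱ δ) p| ≤ C * (1 + L) / ‖p.1 - p.2‖ ^ 4 ∧
      (SS ϱ δ p < ‖p.1 - p.2‖ ^ 2 → dv k (dbe ϱ δ) p = 0) := by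
  obtain ⟨c1, hc1, hE⟩ := xk_eta
  obtain ⟨c2, hc2, hK⟩ := xk_kern
  refine ⟨30 * (c1 * c2), by positivity, fun ϱ δ L p hL hρ hp i j k => ?_⟩
  have hz : p.1 - p.2 ≠ 0 := sub_ne_zero.2 hp
  have hr : 0 < ‖p.1 - p.2‖ := norm_pos_iff.2 hz
  have E := hE ϱ δ L p hL hρ hp
  have K := hK (p.1 - p.2) hz
  set z := p.1 - p.2 with hzdef
  set u := ‖z‖⁻¹ with hu
  have hu0 : 0 < u := inv_pos.2 hr
  have hη0 := eta_nonneg ϱ δ p
  have hη1 := eta_le_one ϱ δ p
  have h1η : |1 - eta ϱ δ p| ≤ 1 := by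
    rw [abs_of_nonneg (by linarith)]
    linarith
  have hdiv : ∀ (a : ℝ) (m : ℕ), a / ‖z‖ ^ m = a * u ^ m := fun a m => by
    rw [div_eq_mul_inv, ← inv_pow]
  have hdiv1 : ∀ a : ℝ, a / ‖z‖ = a * u := fun a => div_eq_mul_inv _ _
  have hcc : 1 ≤ c1 * c2 := one_le_mul_of_one_le_of_one_le hc1 hc2
  have hc1' : 0 ≤ c1 := by linarith
  have hc2' : 0 ≤ c2 := by linarith
  have hc2c : c2 ≤ c1 * c2 := le_mul_of_one_le_left hc2' hc1
  have hs : ContDiff ℝ (⊤ : ℕ∞) (eta ϱ δ) := eta_smooth hρ.smooth hρ.pos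
  have hev : ∀ᶠ x : V × V in 𝓝 p, x.1 ≠ x.2 :=
    (isOpen_ne_fun continuous_fst continuous_snd).mem_nhds hp
  have hηk : XkHD k (eta ϱ δ) p (dv k (eta ϱ δ) p) := xk_smooth hs p
  have hwk : ∀ j, XkHD k (dw j (eta ϱ δ)) p (dv k (dw j (eta ϱ δ)) p) := fun j =>
    xk_smooth (smooth_dw hs j) p
  have hvk : ∀ j, XkHD k (dv j (eta ϱ δ)) p (dv k (dv j (eta ϱ δ)) p) := fun j =>
    xk_smooth (smooth_dv hs j) p
  have hvwk : ∀ i j, XkHD k (dv i (dw j (eta ϱ δ))) p (dv k (dv i (dw j (eta ϱ δ))) p) :=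
    fun i j => xk_smooth (smooth_dv (smooth_dw hs j) i) p
  have hak : ∀ i j, XkHD k (fun x => aK i j (x.1 - x.2)) p (pd k (aK i j) z) := fun i j =>
    xk_ker (aK_smoothAt i j hz)
  have hbk : ∀ i, XkHD k (fun x => bK i (x.1 - x.2)) p (pd k (bK i) z) := fun i =>
    xk_ker (bK_smoothAt i hz)
  -- the derivative of `be`
  have hbe : dv k (be ϱ δ i) p = (∑ j : Fin 3, (dw j (eta ϱ δ) p * pd k (aK i j) z +
      dv k (dw j (eta ϱ δ)) p * aK i j z)) +
      ((1 - eta ϱ δ p) * pd k (bK i) z + -(dv k (eta ϱ δ) p) * bK i z) := by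
    have h1 : be ϱ δ i =ᶠ[𝓝 p] fun x => (∑ j : Fin 3, dw j (eta ϱ δ) x * aK i j (x.1 - x.2))
        + (1 - eta ϱ δ x) * bK i (x.1 - x.2) := by
      filter_upwards [hev] with x hx
      exact be_eq hρ.smooth hρ.pos x hx i
    rw [xk_congr h1]
    exact (xk_add (xk_sum fun j => xk_mul (hwk j) (hak i j)) (xk_mul (xk_one hηk) (hbk i))).2
  -- the derivative of `dbe`
  have hdbe : dv k (dbe ϱ δ) p = (∑ i : Fin 3, ∑ j : Fin 3,
      (dv i (dw j (eta ϱ δ)) p * pd k (aK i j) z + dv k (dv i (dw j (eta ϱ δ))) p * aK i j z)) +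
      (∑ j : Fin 3, (dw j (eta ϱ δ) p * pd k (bK j) z + dv k (dw j (eta ϱ δ)) p * bK j z)) -
      ∑ i : Fin 3, (dv i (eta ϱ δ) p * pd k (bK i) z + dv k (dv i (eta ϱ δ)) p * bK i z) := by
    have h1 : dbe ϱ δ =ᶠ[𝓝 p] fun x =>
        (∑ i : Fin 3, ∑ j : Fin 3, dv i (dw j (eta ϱ δ)) x * aK i j (x.1 - x.2))
        + (∑ j : Fin 3, dw j (eta ϱ δ) x * bK j (x.1 - x.2))
        - ∑ i : Fin 3, dv i (eta ϱ δ) x * bK i (x.1 - x.2) := by
      filter_upwards [hev] with x hx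
      exact dbe_eq hρ.smooth hρ.pos x hx
    rw [xk_congr h1]
    exact (xk_sub (xk_add (xk_sum fun i => xk_sum fun j => xk_mul (hvwk i j) (hak i j))
      (xk_sum fun j => xk_mul (hwk j) (hbk j))) (xk_sum fun i => xk_mul (hvk i) (hbk i))).2
  refine ⟨?_, ?_, ?_, ?_, ?_, ?_⟩
  · rw [hdiv1]
    have h1 := xk_prod h1η (K i j k).1
    rw [one_mul] at h1
    refine h1.trans (mul_le_mul_of_nonneg_right ?_ hu0.le)
    linarith
  · rw [hdiv, dv_kf hρ.smooth hρ.pos p hp i j k]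
    have h1 : |-(dv k (eta ϱ δ) p * aK i j z)| ≤ c1 * u * (c2 * u) := by
      rw [abs_neg]
      exact xk_prod (E k j k).1 (K i j k).1
    have h2 := xk_prod h1η (K i j k).2.2.1
    refine (abs_add_le _ _).trans ((add_le_add h1 h2).trans ?_)
    have h3 : 0 ≤ u ^ 2 := by positivity
    nlinarith
  · rw [hdiv, be_eq hρ.smooth hρ.pos p hp i]
    have h1 : |∑ j : Fin 3, dw j (eta ϱ δ) p * aK i j z| ≤ 3 * (c1 * u * (c2 * u)) :=
      xk_sum_le fun j => xk_prod (E j j k).2.1 (K i j k).1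
    have h2 := xk_prod h1η (K i j k).2.1
    refine (abs_add_le _ _).trans ((add_le_add h1 h2).trans ?_)
    have h3 : 0 ≤ u ^ 2 := by positivity
    nlinarith
  · rw [hdiv, hbe]
    have h1 : |∑ j : Fin 3, (dw j (eta ϱ δ) p * pd k (aK i j) z +
        dv k (dw j (eta ϱ δ)) p * aK i j z)| ≤
        3 * (c1 * u * (c2 * u ^ 2) + c1 * u ^ 2 * (c2 * u)) := by
      refine xk_sum_le fun j => ?_
      refine (abs_add_le _ _).trans (add_le_add ?_ ?_)
      · exact xk_prod (E j j k).2.1 (K i j k).2.2.1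
      · exact xk_prod (E k j k).2.2.2.1 (K i j k).1
    have h2 := xk_prod h1η (K i j k).2.2.2
    have h3 : |-(dv k (eta ϱ δ) p) * bK i z| ≤ c1 * u * (c2 * u ^ 2) := by
      rw [neg_mul, abs_neg]
      exact xk_prod (E k j k).1 (K i j k).2.1
    refine (abs_add_le _ _).trans ((add_le_add h1 ((abs_add_le _ _).trans
      (add_le_add h2 h3))).trans ?_)
    have h4 : 0 ≤ u ^ 3 := by positivity
    have h5 : c2 * u ^ 3 ≤ c1 * c2 * u ^ 3 := mul_le_mul_of_nonneg_right hc2c h4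
    have h6 : 0 ≤ c1 * c2 * u ^ 3 := by positivity
    calc _ = 7 * (c1 * c2 * u ^ 3) + c2 * u ^ 3 := by ring
      _ ≤ 30 * (c1 * c2) * u ^ 3 := by linarith
  · rw [hdiv, hdbe]
    have h1 : |∑ i : Fin 3, ∑ j : Fin 3, (dv i (dw j (eta ϱ δ)) p * pd k (aK i j) z +
        dv k (dv i (dw j (eta ϱ δ))) p * aK i j z)| ≤
        3 * (3 * (c1 * u ^ 2 * (c2 * u ^ 2) + c1 * (1 + L) * u ^ 3 * (c2 * u))) := by
      refine xk_sum_le fun i => xk_sum_le fun j => ?_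
      refine (abs_add_le _ _).trans (add_le_add ?_ ?_)
      · exact xk_prod (E i j k).2.2.2.1 (K i j k).2.2.1
      · exact xk_prod (E k i j).2.2.2.2 (K i j k).1
    have h2 : |∑ j : Fin 3, (dw j (eta ϱ δ) p * pd k (bK j) z +
        dv k (dw j (eta ϱ δ)) p * bK j z)| ≤
        3 * (c1 * u * (c2 * u ^ 3) + c1 * u ^ 2 * (c2 * u ^ 2)) := by
      refine xk_sum_le fun j => ?_
      refine (abs_add_le _ _).trans (add_le_add ?_ ?_)
      · exact xk_prod (E j j k).2.1 (K j j k).2.2.2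
      · exact xk_prod (E k j k).2.2.2.1 (K j j k).2.1
    have h3 : |∑ i : Fin 3, (dv i (eta ϱ δ) p * pd k (bK i) z +
        dv k (dv i (eta ϱ δ)) p * bK i z)| ≤
        3 * (c1 * u * (c2 * u ^ 3) + c1 * u ^ 2 * (c2 * u ^ 2)) := by
      refine xk_sum_le fun j => ?_
      refine (abs_add_le _ _).trans (add_le_add ?_ ?_)
      · exact xk_prod (E j j k).1 (K j j k).2.2.2
      · exact xk_prod (E k j k).2.2.1 (K j j k).2.1
    refine (abs_sub _ _).trans ((add_le_add ((abs_add_le _ _).trans (add_le_add h1 h2)) h3).trans ?_)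
    have h4 : 0 ≤ c1 * c2 * u ^ 4 := by positivity
    have h5 : 0 ≤ L * (c1 * c2 * u ^ 4) := mul_nonneg hL h4
    calc _ = 30 * (c1 * c2 * u ^ 4) + 9 * (L * (c1 * c2 * u ^ 4)) := by ring
      _ ≤ 30 * (c1 * c2) * (1 + L) * u ^ 4 := by linarith
  · intro hlt
    have f1 := fun σ τ υ i j k => eta_flat hρ.smooth hρ.pos p (Or.inr hlt) σ τ υ i j k
    have a1 : ∀ i, dv i (eta ϱ δ) p = 0 := fun i => by
      have h := (f1 true true true i i i).1
      rwa [xk_ds_true] at h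
    have a2 : ∀ i, dw i (eta ϱ δ) p = 0 := fun i => by
      have h := (f1 false true true i i i).1
      rwa [xk_ds_false] at h
    have a3 : ∀ i j, dv i (dv j (eta ϱ δ)) p = 0 := fun i j => by
      have h := (f1 true true true i j i).2.1
      simp only [xk_ds_true] at h
      exact h
    have a4 : ∀ i j, dv i (dw j (eta ϱ δ)) p = 0 := fun i j => by
      have h := (f1 true false true i j i).2.1
      simp only [xk_ds_true, xk_ds_false] at h
      exact h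
    have a5 : ∀ i j k, dv i (dv j (dw k (eta ϱ δ))) p = 0 := fun i j k => by
      have h := (f1 true true false i j k).2.2
      simp only [xk_ds_true, xk_ds_false] at h
      exact h
    rw [hdbe]
    simp only [a1, a2, a3, a4, a5, zero_mul, add_zero, Finset.sum_const_zero, sub_zero]

end Pool.Agent.LandauF
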