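import Pool.Agent.LandauF.XKer

/-!
# LandauF, module XKerC: structure of the first derivative of the far kernel

By `dv_kf` and `pd_aK`, with `z = v - w`, `r = ‖z‖`, `H` symmetric:
`∑_{k,i,j} ∂_k aK_ij(z) X_j H_ki = (1/(8π r³)) (-2 z·H X - (z·X) tr H + 3 (z·X)(z·H z)/r²)`; writing
`X = ΠX + (ẑ·X) ẑ` this is `(1/(8π r³)) (-2 r (H ẑ)·ΠX - (z·X) (tr H - ẑ·H ẑ))`, so its absolute value is at most
`C r⁻² |ΠH| |X|` with `2 r² |ΠH|² = 2 (r² |H|² - |H z|²) = ∑_abl (z_a H_bl - z_b H_al)²`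
(`r |H ẑ · ΠX| ≤ ... |Π H z| |X|`, `(tr H - ẑ·Hẑ)² ≤ 2 |ΠHΠ|²`).
`∑ aK_ij X_j H_ki (dv k eta) = (1/(8π r)) (ΠX)·H (∇ eta) = (1/(8π r)) X·(Π H) ∇ eta`, bounded by
`C r⁻¹ |ΠH| |X| |∇_v eta|`, and `|∇_v eta|² ≤ K (1 - eta)/SS` with `r² ≤ SS` on its support (`eta_grad`).
-/

set_option autoImplicit false

namespace Pool.Agent.LandauF

open MeasureTheory Set Filter Topology Pool.Agent.Landau

private theorem kc_cs (f g : Fin 3 → Fin 3 → Fin 3 → ℝ) :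
    |∑ a, ∑ b, ∑ l, f a b l * g a b l| ≤
      Real.sqrt (∑ a, ∑ b, ∑ l, f a b l ^ 2) * Real.sqrt (∑ a, ∑ b, ∑ l, g a b l ^ 2) := by
  rw [← Real.sqrt_mul (Finset.sum_nonneg fun a _ => Finset.sum_nonneg fun b _ =>
    Finset.sum_nonneg fun l _ => sq_nonneg _)]
  apply Real.abs_le_sqrt
  have h := Finset.sum_mul_sq_le_sq_mul_sq (Finset.univ : Finset (Fin 3 × Fin 3 × Fin 3))
    (fun q => f q.1 q.2.1 q.2.2) (fun q => g q.1 q.2.1 q.2.2)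
  simp only [Fintype.sum_prod_type] at h
  exact h

/-- the coefficients of the first derivative against `z_a H_jl - z_j H_al` -/
private noncomputable def kcG (z X d : Fin 3 → ℝ) (e : ℝ) (a j l : Fin 3) : ℝ :=
  -((z 0 ^ 2 + z 1 ^ 2 + z 2 ^ 2) * (z a * X j * d l)) +
    (-(2 * e * (z a * X j * z l)) - e * (z 0 * X 0 + z 1 * X 1 + z 2 * X 2) * (z a * kd j l))

private theorem kc_id (z X d : Fin 3 → ℝ) (e : ℝ) (H : Fin 3 → Fin 3 → ℝ)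
    (hH : ∀ i j, H i j = H j i) :
    ∑ k : Fin 3, ∑ i : Fin 3, ∑ j : Fin 3,
      (-(d k * ((z 0 ^ 2 + z 1 ^ 2 + z 2 ^ 2) *
          ((z 0 ^ 2 + z 1 ^ 2 + z 2 ^ 2) * kd i j - z i * z j))) +
        e * (-((z 0 ^ 2 + z 1 ^ 2 + z 2 ^ 2) * (kd i j * z k)) -
          (z 0 ^ 2 + z 1 ^ 2 + z 2 ^ 2) * (kd i k * z j + kd j k * z i) +
          3 * z i * z j * z k)) * X j * H k i =
      ∑ a : Fin 3, ∑ j : Fin 3, ∑ l : Fin 3, (z a * H j l - z j * H a l) * kcG z X d e a j l := by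
  have h10 : H 1 0 = H 0 1 := hH 1 0
  have h20 : H 2 0 = H 0 2 := hH 2 0
  have h21 : H 2 1 = H 1 2 := hH 2 1
  unfold kcG kd
  simp only [Fin.sum_univ_three, Fin.isValue]
  rw [h10, h20, h21]
  simp only [Fin.isValue, Fin.reduceEq, if_true, if_false]
  ring

private theorem kc_sum (z X d : Fin 3 → ℝ) :
    ∑ a : Fin 3, ∑ j : Fin 3, ∑ l : Fin 3, (z a * X j * d l) ^ 2 =
      (z 0 ^ 2 + z 1 ^ 2 + z 2 ^ 2) * (∑ j, X j ^ 2) * (∑ l, d l ^ 2) := by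
  simp only [Fin.sum_univ_three]
  ring

private theorem kc_sumd (z : Fin 3 → ℝ) :
    ∑ a : Fin 3, ∑ j : Fin 3, ∑ l : Fin 3, (z a * kd j l) ^ 2 =
      3 * (z 0 ^ 2 + z 1 ^ 2 + z 2 ^ 2) := by
  simp only [Fin.sum_univ_three, kd, Fin.isValue, Fin.reduceEq, if_true, if_false]
  ring

private theorem kc_G (z X d : Fin 3 → ℝ) (e K : ℝ) (he0 : 0 ≤ e) (he1 : e ≤ 1)
    (hd : (z 0 ^ 2 + z 1 ^ 2 + z 2 ^ 2) * (∑ l, d l ^ 2) ≤ 3 * K * e) :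
    ∑ a : Fin 3, ∑ j : Fin 3, ∑ l : Fin 3, kcG z X d e a j l ^ 2 ≤
      (9 * K + 21) * e * (z 0 ^ 2 + z 1 ^ 2 + z 2 ^ 2) ^ 2 * ∑ j, X j ^ 2 := by
  set ρ := z 0 ^ 2 + z 1 ^ 2 + z 2 ^ 2 with hρ
  set x := z 0 * X 0 + z 1 * X 1 + z 2 * X 2 with hx
  have hρ0 : 0 ≤ ρ := by positivity
  have hX0 : 0 ≤ ∑ j, X j ^ 2 := Finset.sum_nonneg fun j _ => sq_nonneg _
  have h1 : ∀ a j l, kcG z X d e a j l ^ 2 ≤ 3 * (ρ ^ 2 * (z a * X j * d l) ^ 2) +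
      3 * (4 * e ^ 2 * (z a * X j * z l) ^ 2) + 3 * (e ^ 2 * x ^ 2 * (z a * kd j l) ^ 2) := by
    intro a j l
    have h2 : kcG z X d e a j l = -(ρ * (z a * X j * d l)) +
      (-(2 * e * (z a * X j * z l)) - e * x * (z a * kd j l)) := rfl
    rw [h2]
    have h3 : ∀ A B C : ℝ, (-A + (-B - C)) ^ 2 ≤ 3 * A ^ 2 + 3 * B ^ 2 + 3 * C ^ 2 := by
      intro A B C
      nlinarith [sq_nonneg (A - B), sq_nonneg (A - C), sq_nonneg (B - C)]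
    refine (h3 _ _ _).trans (le_of_eq ?_)
    ring
  have h2 : ∑ a : Fin 3, ∑ j : Fin 3, ∑ l : Fin 3, kcG z X d e a j l ^ 2 ≤
      ∑ a : Fin 3, ∑ j : Fin 3, ∑ l : Fin 3, (3 * (ρ ^ 2 * (z a * X j * d l) ^ 2) +
      3 * (4 * e ^ 2 * (z a * X j * z l) ^ 2) + 3 * (e ^ 2 * x ^ 2 * (z a * kd j l) ^ 2)) :=
    Finset.sum_le_sum fun a _ => Finset.sum_le_sum fun j _ => Finset.sum_le_sum fun l _ => h1 a j l
  refine h2.trans ?_
  simp only [Finset.sum_add_distrib, ← Finset.mul_sum]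
  rw [kc_sum, kc_sum, kc_sumd, ← hρ]
  have h3 : x ^ 2 ≤ ρ * ∑ j, X j ^ 2 := by
    rw [hx, hρ, Fin.sum_univ_three]
    nlinarith [sq_nonneg (z 0 * X 1 - z 1 * X 0), sq_nonneg (z 0 * X 2 - z 2 * X 0),
      sq_nonneg (z 1 * X 2 - z 2 * X 1)]
  have h4 : ∑ l, z l ^ 2 = ρ := by
    rw [Fin.sum_univ_three]
  rw [h4]
  have h5 : e ^ 2 ≤ e := by nlinarith
  set Y := ∑ j, X j ^ 2 with hY
  set D := ∑ l, d l ^ 2 with hD
  have t1 : 3 * (ρ ^ 2 * (ρ * Y * D)) ≤ 9 * K * e * (ρ ^ 2 * Y) := by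
    have := mul_le_mul_of_nonneg_left hd (by positivity : 0 ≤ 3 * (ρ ^ 2 * Y))
    nlinarith
  have t2 : 3 * (4 * e ^ 2 * (ρ * Y * ρ)) ≤ 12 * e * (ρ ^ 2 * Y) := by
    have := mul_le_mul_of_nonneg_left h5 (by positivity : 0 ≤ 12 * (ρ ^ 2 * Y))
    nlinarith
  have t3 : 3 * (e ^ 2 * x ^ 2 * (3 * ρ)) ≤ 9 * e * (ρ ^ 2 * Y) := by
    have a1 := mul_le_mul_of_nonneg_left h3 (by positivity : 0 ≤ 9 * (e ^ 2 * ρ))
    have a2 := mul_le_mul_of_nonneg_left h5 (by positivity : 0 ≤ 9 * (ρ ^ 2 * Y))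
    nlinarith
  calc _ ≤ 9 * K * e * (ρ ^ 2 * Y) + 12 * e * (ρ ^ 2 * Y) + 9 * e * (ρ ^ 2 * Y) := by
        linarith
    _ = (9 * K + 21) * e * ρ ^ 2 * Y := by ring

/-- structural bound of the first derivative contracted with a symmetric matrix -/
theorem kf_struct : ∃ C : ℝ, 0 < C ∧ ∀ (ϱ : V → ℝ) (δ L : ℝ) (p : V × V), 0 ≤ L → RhoB ϱ δ L p →
    p.1 ≠ p.2 → ∀ (H : Fin 3 → Fin 3 → ℝ) (X : Fin 3 → ℝ), (∀ i j, H i j = H j i) →
      |∑ k : Fin 3, ∑ i : Fin 3, ∑ j : Fin 3, dv k (kf ϱ δ i j) p * X j * H k i| ≤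
        C * Real.sqrt (1 - eta ϱ δ p) / ‖p.1 - p.2‖ ^ 3 *
          Real.sqrt (∑ a : Fin 3, ∑ b : Fin 3, ∑ l : Fin 3,
            ((p.1 a - p.2 a) * H b l - (p.1 b - p.2 b) * H a l) ^ 2) *
          Real.sqrt (∑ j : Fin 3, X j ^ 2) := by
  obtain ⟨K, hK, hg⟩ := eta_grad
  refine ⟨Real.sqrt (9 * K + 21), Real.sqrt_pos.2 (by linarith), ?_⟩
  intro ϱ δ L p hL hρ hp H X hH
  have hz : p.1 - p.2 ≠ 0 := sub_ne_zero.2 hp
  have hr : 0 < ‖p.1 - p.2‖ := norm_pos_iff.2 hz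
  have hS := SS_pos ϱ hρ.pos p
  set r := ‖p.1 - p.2‖ with hrd
  set e := 1 - eta ϱ δ p with hed
  have he0 : 0 ≤ e := sub_nonneg.2 (eta_le_one ϱ δ p)
  have he1 : e ≤ 1 := by
    have := eta_nonneg ϱ δ p
    linarith
  set z : Fin 3 → ℝ := fun i => p.1 i - p.2 i with hzd
  set d : Fin 3 → ℝ := fun k => dv k (eta ϱ δ) p with hdd
  have hnz : r ^ 2 = z 0 ^ 2 + z 1 ^ 2 + z 2 ^ 2 := nsq (p.1 - p.2)
  -- the gradient of the cutoff
  have hd : (z 0 ^ 2 + z 1 ^ 2 + z 2 ^ 2) * (∑ l, d l ^ 2) ≤ 3 * K * e := by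
    rw [← hnz]
    have h1 : ∀ l, r ^ 2 * d l ^ 2 ≤ K * e := by
      intro l
      obtain ⟨-, -, h2, -, h3⟩ := hg ϱ δ hρ.smooth hρ.nonneg hρ.lip hρ.pos p l
      rcases lt_or_ge (SS ϱ δ p) (r ^ 2) with hlt | hge
      · have h4 : d l = 0 := (h3 (Or.inr hlt)).1
        rw [h4]
        have : r ^ 2 * (0 : ℝ) ^ 2 = 0 := by ring
        rw [this]
        positivity
      · have h4 : d l ^ 2 ≤ K * e / SS ϱ δ p := h2
        rw [le_div_iff₀ hS] at h4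
        have h5 := mul_le_mul_of_nonneg_left hge (sq_nonneg (d l))
        linarith
    rw [Finset.mul_sum, Fin.sum_univ_three]
    have := h1 0
    have := h1 1
    have := h1 2
    linarith
  have hG := kc_G z X d e K he0 he1 hd
  rw [← hnz] at hG
  -- the identity
  have h1 : ∀ k i j : Fin 3, 8 * Real.pi * r ^ 5 * dv k (kf ϱ δ i j) p =
      -(d k * (r ^ 2 * (r ^ 2 * kd i j - z i * z j))) +
        e * (-(r ^ 2 * (kd i j * z k)) - r ^ 2 * (kd i k * z j + kd j k * z i) +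
          3 * z i * z j * z k) := by
    intro k i j
    rw [dv_kf hρ.smooth hρ.pos p hp, pd_aK i j k hz]
    have ha : aK i j (p.1 - p.2) = (1 / (8 * Real.pi)) * (kd i j / r - z i * z j / r ^ 3) := rfl
    rw [ha]
    have e1 : (p.1 - p.2) i = z i := rfl
    have e2 : (p.1 - p.2) j = z j := rfl
    have e3 : (p.1 - p.2) k = z k := rfl
    rw [e1, e2, e3]
    have e4 : dv k (eta ϱ δ) p = d k := rfl
    rw [e4, ← hrd, ← hed]
    field_simp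
  have h2 : 8 * Real.pi * r ^ 5 * ∑ k : Fin 3, ∑ i : Fin 3, ∑ j : Fin 3,
      dv k (kf ϱ δ i j) p * X j * H k i =
      ∑ a : Fin 3, ∑ j : Fin 3, ∑ l : Fin 3, (z a * H j l - z j * H a l) * kcG z X d e a j l := by
    rw [← kc_id z X d e H hH, ← hnz]
    rw [Finset.mul_sum]
    refine Finset.sum_congr rfl fun k _ => ?_
    rw [Finset.mul_sum]
    refine Finset.sum_congr rfl fun i _ => ?_
    rw [Finset.mul_sum]
    refine Finset.sum_congr rfl fun j _ => ?_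
    rw [← h1]
    ring
  set T := ∑ k : Fin 3, ∑ i : Fin 3, ∑ j : Fin 3, dv k (kf ϱ δ i j) p * X j * H k i with hT
  have h3 := kc_cs (fun a j l => z a * H j l - z j * H a l) (kcG z X d e)
  rw [← h2] at h3
  have h4 : Real.sqrt (∑ a, ∑ b, ∑ l, kcG z X d e a b l ^ 2) ≤
      Real.sqrt (9 * K + 21) * Real.sqrt e * r ^ 2 * Real.sqrt (∑ j, X j ^ 2) := by
    refine (Real.sqrt_le_sqrt hG).trans (le_of_eq ?_)
    rw [Real.sqrt_mul (by positivity), Real.sqrt_mul (by positivity), Real.sqrt_mul (by positivity)]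
    congr 2
    have : (r ^ 2) ^ 2 = (r ^ 2) ^ 2 := rfl
    rw [Real.sqrt_sq (by positivity)]
  have hpi : 1 ≤ 8 * Real.pi := by
    have := Real.pi_gt_three
    linarith
  have h5 : r ^ 5 * |T| ≤ |8 * Real.pi * r ^ 5 * T| := by
    rw [abs_mul, abs_mul, abs_of_pos (by positivity : (0 : ℝ) < 8 * Real.pi),
      abs_of_pos (by positivity : (0 : ℝ) < r ^ 5), mul_assoc]
    exact le_mul_of_one_le_left (by positivity) hpi
  set Q := Real.sqrt (∑ a : Fin 3, ∑ b : Fin 3, ∑ l : Fin 3,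
    ((p.1 a - p.2 a) * H b l - (p.1 b - p.2 b) * H a l) ^ 2) with hQ
  have h6 : r ^ 5 * |T| ≤ Q * (Real.sqrt (9 * K + 21) * Real.sqrt e * r ^ 2 *
      Real.sqrt (∑ j, X j ^ 2)) :=
    (h5.trans h3).trans (mul_le_mul_of_nonneg_left h4 (Real.sqrt_nonneg _))
  have h7 : |T| ≤ Q * (Real.sqrt (9 * K + 21) * Real.sqrt e * r ^ 2 *
      Real.sqrt (∑ j, X j ^ 2)) / r ^ 5 := by
    rw [le_div_iff₀ (by positivity)]
    linarith
  refine h7.trans (le_of_eq ?_)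
  field_simp

end Pool.Agent.LandauF
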