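import Pool.Agent.LandauF.XId
import Pool.Agent.LandauF.XKerB
import Pool.Agent.LandauF.XKerC
import Pool.Agent.LandauF.NAdm

/-!
# LandauF, module XInt: integrated far identity

For fixed `w` apply `far_id` to `A_ij(v) = kf ϱ δ i j (v, w)`, `B_i(v) = be ϱ δ i (v, w)` (smooth in `v`,
`pd k (kf (·, w)) v = dv k kf (v, w)`), multiply by `g(w)` and integrate over `w` (Fubini).
Integrability over pairs: `v` ranges in the compact support of `φ`; for `w` far away (`r² > SS`, which holds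
for `r` large since `ϱ` is `1/100`-Lipschitz) the kernels are `(1 - 0) aK` and derivatives, bounded by `C/r`, and
`g(w)/ang w` is integrable; on compact sets everything is continuous.
-/

set_option autoImplicit false

namespace Pool.Agent.LandauF

open MeasureTheory Set Filter Topology Pool.Agent.Landau

namespace XIntAux

theorem s1 {f : Fin 3 → ℝ} {c : ℝ} (h : ∀ i, |f i| ≤ c) : |∑ i, f i| ≤ 3 * c := by
  refine (Finset.abs_sum_le_sum_abs _ _).trans ((Finset.sum_le_sum fun i _ => h i).trans ?_)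
  simp

theorem pm {a b A B : ℝ} (ha : |a| ≤ A) (hb : |b| ≤ B) : |a * b| ≤ A * B := by
  rw [abs_mul]
  exact mul_le_mul ha hb (abs_nonneg _) ((abs_nonneg _).trans ha)

/-- the bracket of `InF` as a function of the values -/
noncomputable def BR (f0 : ℝ) (f1 : Fin 3 → ℝ) (f2 : Fin 3 → Fin 3 → ℝ) (y : Fin 3 → ℝ)
    (H : Fin 3 → Fin 3 → ℝ) (x : ℝ) (K : Fin 3 → Fin 3 → ℝ) (dk : Fin 3 → Fin 3 → Fin 3 → ℝ)
    (b : Fin 3 → ℝ) (db : Fin 3 → Fin 3 → ℝ) (dd : Fin 3 → ℝ) : ℝ :=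
  -(2 * f0 * ∑ k : Fin 3, ∑ i : Fin 3, ∑ j : Fin 3, K i j * H k i * H k j)
    - 2 * f0 * (∑ k : Fin 3, ∑ i : Fin 3, ∑ j : Fin 3, dk k i j * y j * H k i)
    - 2 * (∑ k : Fin 3, ∑ i : Fin 3, ∑ j : Fin 3, f1 i * y k * y j * dk k i j)
    + x * ((∑ i : Fin 3, ∑ j : Fin 3, K i j * f2 i j)
      + (∑ i : Fin 3, ∑ j : Fin 3, dk j i j * f1 i)
      + ∑ i : Fin 3, b i * f1 i)
    - 2 * f0 * (∑ k : Fin 3, y k * dd k)
    - 2 * f0 * (∑ k : Fin 3, ∑ i : Fin 3, db k i * y i * y k)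

theorem BR_le {f0 : ℝ} {f1 : Fin 3 → ℝ} {f2 : Fin 3 → Fin 3 → ℝ} {y : Fin 3 → ℝ}
    {H : Fin 3 → Fin 3 → ℝ} {x : ℝ} {K : Fin 3 → Fin 3 → ℝ} {dk : Fin 3 → Fin 3 → Fin 3 → ℝ}
    {b : Fin 3 → ℝ} {db : Fin 3 → Fin 3 → ℝ} {dd : Fin 3 → ℝ} {M t : ℝ} (hM : 1 ≤ M)
    (h0 : |f0| ≤ M) (h1 : ∀ i, |f1 i| ≤ M) (h2 : ∀ i j, |f2 i j| ≤ M) (hy : ∀ i, |y i| ≤ M)
    (hH : ∀ i j, |H i j| ≤ M) (hx : |x| ≤ M) (hK : ∀ i j, |K i j| ≤ t)
    (hdk : ∀ k i j, |dk k i j| ≤ t) (hb : ∀ i, |b i| ≤ t) (hdb : ∀ k i, |db k i| ≤ t)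
    (hdd : ∀ k, |dd k| ≤ t) : |BR f0 f1 f2 y H x K dk b db dd| ≤ 300 * M ^ 3 * t := by
  have ht : 0 ≤ t := (abs_nonneg _).trans (hK 0 0)
  have h20 : |2 * f0| ≤ 2 * M := pm (by norm_num) h0
  have A1 : |2 * f0 * ∑ k : Fin 3, ∑ i : Fin 3, ∑ j : Fin 3, K i j * H k i * H k j| ≤
      2 * M * (3 * (3 * (3 * (t * M * M)))) :=
    pm h20 (s1 fun k => s1 fun i => s1 fun j => pm (pm (hK i j) (hH k i)) (hH k j))
  have A2 : |2 * f0 * (∑ k : Fin 3, ∑ i : Fin 3, ∑ j : Fin 3, dk k i j * y j * H k i)| ≤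
      2 * M * (3 * (3 * (3 * (t * M * M)))) :=
    pm h20 (s1 fun k => s1 fun i => s1 fun j => pm (pm (hdk k i j) (hy j)) (hH k i))
  have A3 : |2 * (∑ k : Fin 3, ∑ i : Fin 3, ∑ j : Fin 3, f1 i * y k * y j * dk k i j)| ≤
      2 * (3 * (3 * (3 * (M * M * M * t)))) :=
    pm (by norm_num) (s1 fun k => s1 fun i => s1 fun j =>
      pm (pm (pm (h1 i) (hy k)) (hy j)) (hdk k i j))
  have B1 : |∑ i : Fin 3, ∑ j : Fin 3, K i j * f2 i j| ≤ 3 * (3 * (t * M)) :=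
    s1 fun i => s1 fun j => pm (hK i j) (h2 i j)
  have B2 : |∑ i : Fin 3, ∑ j : Fin 3, dk j i j * f1 i| ≤ 3 * (3 * (t * M)) :=
    s1 fun i => s1 fun j => pm (hdk j i j) (h1 i)
  have B3 : |∑ i : Fin 3, b i * f1 i| ≤ 3 * (t * M) := s1 fun i => pm (hb i) (h1 i)
  have A4 : |x * ((∑ i : Fin 3, ∑ j : Fin 3, K i j * f2 i j)
      + (∑ i : Fin 3, ∑ j : Fin 3, dk j i j * f1 i)
      + ∑ i : Fin 3, b i * f1 i)| ≤ M * (3 * (3 * (t * M)) + 3 * (3 * (t * M)) + 3 * (t * M)) :=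
    pm hx ((abs_add_le _ _).trans (add_le_add ((abs_add_le _ _).trans (add_le_add B1 B2)) B3))
  have A5 : |2 * f0 * (∑ k : Fin 3, y k * dd k)| ≤ 2 * M * (3 * (M * t)) :=
    pm h20 (s1 fun k => pm (hy k) (hdd k))
  have A6 : |2 * f0 * (∑ k : Fin 3, ∑ i : Fin 3, db k i * y i * y k)| ≤
      2 * M * (3 * (3 * (t * M * M))) :=
    pm h20 (s1 fun k => s1 fun i => pm (pm (hdb k i) (hy i)) (hy k))
  have hM2 : M ^ 2 * t ≤ M ^ 3 * t := by
    refine mul_le_mul_of_nonneg_right ?_ ht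
    exact pow_le_pow_right₀ hM (by norm_num)
  unfold BR
  rw [abs_le] at A1 A2 A3 A4 A5 A6 ⊢
  obtain ⟨a1, a1'⟩ := A1
  obtain ⟨a2, a2'⟩ := A2
  obtain ⟨a3, a3'⟩ := A3
  obtain ⟨a4, a4'⟩ := A4
  obtain ⟨a5, a5'⟩ := A5
  obtain ⟨a6, a6'⟩ := A6
  have e1 : 2 * M * (3 * (3 * (3 * (t * M * M)))) = 54 * (M ^ 3 * t) := by ring
  have e3 : 2 * (3 * (3 * (3 * (M * M * M * t)))) = 54 * (M ^ 3 * t) := by ring
  have e4 : M * (3 * (3 * (t * M)) + 3 * (3 * (t * M)) + 3 * (t * M)) = 21 * (M ^ 2 * t) := by ring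
  have e5 : 2 * M * (3 * (M * t)) = 6 * (M ^ 2 * t) := by ring
  have e6 : 2 * M * (3 * (3 * (t * M * M))) = 18 * (M ^ 3 * t) := by ring
  have e7 : 300 * M ^ 3 * t = 300 * (M ^ 3 * t) := by ring
  have hP : 0 ≤ M ^ 3 * t := by positivity
  rw [e1] at a1 a1' a2 a2'
  rw [e3] at a3 a3'
  rw [e4] at a4 a4'
  rw [e5] at a5 a5'
  rw [e6] at a6 a6'
  rw [e7]
  constructor <;> linarith

theorem BR_zero {y : Fin 3 → ℝ} {H : Fin 3 → Fin 3 → ℝ} {x : ℝ} {K : Fin 3 → Fin 3 → ℝ}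
    {dk : Fin 3 → Fin 3 → Fin 3 → ℝ} {b : Fin 3 → ℝ} {db : Fin 3 → Fin 3 → ℝ} {dd : Fin 3 → ℝ}
    {f0 : ℝ} {f1 : Fin 3 → ℝ} {f2 : Fin 3 → Fin 3 → ℝ} (h0 : f0 = 0) (h1 : ∀ i, f1 i = 0)
    (h2 : ∀ i j, f2 i j = 0) : BR f0 f1 f2 y H x K dk b db dd = 0 := by
  unfold BR
  simp [h0, h1, h2]

theorem BR_cont {f0 : V × V → ℝ} {f1 : Fin 3 → V × V → ℝ} {f2 : Fin 3 → Fin 3 → V × V → ℝ}
    {y : Fin 3 → V × V → ℝ} {H : Fin 3 → Fin 3 → V × V → ℝ} {x : V × V → ℝ}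
    {K : Fin 3 → Fin 3 → V × V → ℝ} {dk : Fin 3 → Fin 3 → Fin 3 → V × V → ℝ}
    {b : Fin 3 → V × V → ℝ} {db : Fin 3 → Fin 3 → V × V → ℝ} {dd : Fin 3 → V × V → ℝ}
    (h0 : Continuous f0) (h1 : ∀ i, Continuous (f1 i)) (h2 : ∀ i j, Continuous (f2 i j))
    (hy : ∀ i, Continuous (y i)) (hH : ∀ i j, Continuous (H i j)) (hx : Continuous x)
    (hK : ∀ i j, Continuous (K i j)) (hdk : ∀ k i j, Continuous (dk k i j))
    (hb : ∀ i, Continuous (b i)) (hdb : ∀ k i, Continuous (db k i))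
    (hdd : ∀ k, Continuous (dd k)) :
    Continuous (fun p => BR (f0 p) (fun i => f1 i p) (fun i j => f2 i j p) (fun i => y i p)
      (fun i j => H i j p) (x p) (fun i j => K i j p) (fun k i j => dk k i j p)
      (fun i => b i p) (fun k i => db k i p) (fun k => dd k p)) := by
  unfold BR
  fun_prop

theorem InF_eq (ϱ : V → ℝ) (δ : ℝ) (φ g : V → ℝ) : InF ϱ δ φ g = fun p =>
    FF g p * BR (φ p.1) (fun i => pd i φ p.1) (fun i j => pd i (pd j φ) p.1)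
      (fun i => gam i g p.1) (fun i j => hs g i j p.1) (x2 g p.1) (fun i j => kf ϱ δ i j p)
      (fun k i j => dv k (kf ϱ δ i j) p) (fun i => be ϱ δ i p) (fun k i => dv k (be ϱ δ i) p)
      (fun k => dv k (dbe ϱ δ) p) := rfl

theorem x2_cont {g : V → ℝ} (hg : Dn g) : Continuous (x2 g) := by
  have h : ∀ i, Continuous (gam i g) := fun i => (gam_smooth hg i).continuous
  unfold x2
  exact continuous_finsetSum _ fun i _ => (h i).pow 2

theorem hs_cont {g : V → ℝ} (hg : Dn g) (i j : Fin 3) : Continuous (hs g i j) :=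
  (smooth_pd (gam_smooth hg j) i).continuous

theorem InF_cont {ϱ φ g : V → ℝ} (hϱ : ContDiff ℝ (⊤ : ℕ∞) (fun v => ϱ v ^ 2))
    (hφ : ContDiff ℝ (⊤ : ℕ∞) φ) (hg : Dn g) {δ : ℝ} (hδ : 0 < δ) :
    Continuous (InF ϱ δ φ g) := by
  rw [InF_eq]
  refine (FF_smooth hg).continuous.mul (BR_cont (f0 := fun p => φ p.1)
    (f1 := fun i p => pd i φ p.1) (f2 := fun i j p => pd i (pd j φ) p.1)
    (y := fun i p => gam i g p.1) (H := fun i j p => hs g i j p.1) (x := fun p => x2 g p.1)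
    (K := fun i j => kf ϱ δ i j) (dk := fun k i j => dv k (kf ϱ δ i j)) (b := fun i => be ϱ δ i)
    (db := fun k i => dv k (be ϱ δ i)) (dd := fun k => dv k (dbe ϱ δ)) ?_ ?_ ?_ ?_ ?_ ?_ ?_ ?_ ?_
    ?_ ?_)
  · exact hφ.continuous.comp continuous_fst
  · exact fun i => (smooth_pd hφ i).continuous.comp continuous_fst
  · exact fun i j => (smooth_pd (smooth_pd hφ j) i).continuous.comp continuous_fst
  · exact fun i => (gam_smooth hg i).continuous.comp continuous_fst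
  · exact fun i j => (hs_cont hg i j).comp continuous_fst
  · exact (x2_cont hg).comp continuous_fst
  · exact fun i j => (kf_smooth hϱ hδ i j).continuous
  · exact fun k i j => (smooth_dv (kf_smooth hϱ hδ i j) k).continuous
  · exact fun i => (be_smooth hϱ hδ i).continuous
  · exact fun k i => (smooth_dv (be_smooth hϱ hδ i) k).continuous
  · exact fun k => (smooth_dv (dbe_smooth hϱ hδ) k).continuous

theorem F0_cont {ϱ φ g : V → ℝ} (hϱ : ContDiff ℝ (⊤ : ℕ∞) (fun v => ϱ v ^ 2))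
    (hφ : ContDiff ℝ (⊤ : ℕ∞) φ) (hg : Dn g) {δ : ℝ} (hδ : 0 < δ) :
    Continuous (F0 ϱ δ φ g) := by
  have h1 : ∀ i, Continuous (fun p : V × V => pd i (GG φ g) p.1) := fun i =>
    (smooth_pd (GG_smooth hφ hg) i).continuous.comp continuous_fst
  have h2 : ∀ i, Continuous (fun p : V × V => gam i g p.1) := fun i =>
    (gam_smooth hg i).continuous.comp continuous_fst
  have h3 : ∀ i j, Continuous (kf ϱ δ i j) := fun i j => (kf_smooth hϱ hδ i j).continuous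
  have h4 : ∀ i, Continuous (be ϱ δ i) := fun i => (be_smooth hϱ hδ i).continuous
  unfold F0
  refine ((FF_smooth hg).continuous.mul (continuous_finsetSum _ fun i _ => ?_)).neg
  exact (h1 i).mul ((continuous_finsetSum _ fun j _ => (h3 i j).mul (h2 j)).sub (h4 i))

/-- integrability over pairs of continuous functions with compact support in the first variable -/
theorem int_of {Fu : V × V → ℝ} (hc : Continuous Fu) {g : V → ℝ} (hg : Dn g) {r0 R0 C : ℝ}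
    (hr0 : 0 ≤ r0) (hR : 0 < R0) (hC : 0 ≤ C) (h0 : ∀ p : V × V, r0 < ‖p.1‖ → Fu p = 0)
    (h1 : ∀ p : V × V, ‖p.1‖ ≤ r0 → R0 ≤ ‖p.1 - p.2‖ → |Fu p| ≤ C * g p.2 / ‖p.1 - p.2‖) :
    Integrable Fu ((volume : Measure V).prod volume) := by
  set r1 := 2 * r0 + R0 + 1 with hr1
  have hcomp : IsCompact (Metric.closedBall (0 : V) r0 ×ˢ Metric.closedBall (0 : V) r1) :=
    (isCompact_closedBall _ _).prod (isCompact_closedBall _ _)
  have hgc : Continuous (fun p : V × V => ang p.2 / g p.2) :=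
    (continuous_ang.comp continuous_snd).div (hg.cls.cont.comp continuous_snd)
      fun p => (hg.pos p.2).ne'
  obtain ⟨M, hM⟩ := hcomp.exists_bound_of_continuousOn (f := fun p : V × V =>
    Fu p * (ang p.2 / g p.2)) (hc.mul hgc).continuousOn
  have hM0 : 0 ≤ max M 0 := le_max_right _ _
  have i1 : Integrable ((Metric.closedBall (0 : V) r0).indicator (fun _ => (1 : ℝ))) := by
    rw [integrable_indicator_iff measurableSet_closedBall]
    exact (continuousOn_const (c := (1 : ℝ))).integrableOn_compact (isCompact_closedBall _ _)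
  have i2 : Integrable (fun w => (max M 0 + 4 * C) * (g w / ang w)) := hg.cls.int.const_mul _
  have i3 := i1.mul_prod i2
  refine i3.mono' hc.aestronglyMeasurable (Eventually.of_forall fun p => ?_)
  have hgp := hg.pos p.2
  have hap := ang_pos p.2
  rw [Real.norm_eq_abs]
  rcases le_or_gt ‖p.1‖ r0 with hp | hp
  · have e1 : (Metric.closedBall (0 : V) r0).indicator (fun _ => (1 : ℝ)) p.1 = 1 :=
      Set.indicator_of_mem (mem_closedBall_zero_iff.2 hp) _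
    rw [e1, one_mul]
    rcases le_or_gt ‖p.2‖ r1 with hp2 | hp2
    · have h2 := hM p ⟨mem_closedBall_zero_iff.2 hp, mem_closedBall_zero_iff.2 hp2⟩
      rw [Real.norm_eq_abs, abs_mul, abs_of_nonneg (by positivity : 0 ≤ ang p.2 / g p.2)] at h2
      have h3 : |Fu p| ≤ M * (g p.2 / ang p.2) := by
        have h4 : |Fu p| = |Fu p| * (ang p.2 / g p.2) * (g p.2 / ang p.2) := by
          field_simp
        rw [h4]
        exact mul_le_mul_of_nonneg_right h2 (by positivity)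
      refine h3.trans (mul_le_mul_of_nonneg_right ?_ (by positivity))
      have := le_max_left M 0
      linarith
    · have h2 : ‖p.2‖ ≤ ‖p.1‖ + ‖p.1 - p.2‖ := by
        have h3 : p.2 = p.1 - (p.1 - p.2) := by abel
        calc ‖p.2‖ = ‖p.1 - (p.1 - p.2)‖ := by rw [← h3]
          _ ≤ _ := norm_sub_le _ _
      have h3 : R0 ≤ ‖p.1 - p.2‖ := by linarith
      have h4 : ‖p.2‖ ≤ 2 * ‖p.1 - p.2‖ := by linarith
      have h5 := ang_le p.2
      have h6 : ang p.2 ≤ 4 * ‖p.1 - p.2‖ := by linarith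
      have h7 : 0 < ‖p.1 - p.2‖ := by linarith
      refine (h1 p hp h3).trans ?_
      have h8 : C * g p.2 / ‖p.1 - p.2‖ ≤ 4 * C * (g p.2 / ang p.2) := by
        rw [div_le_iff₀ h7]
        have h9 : 4 * C * (g p.2 / ang p.2) * ‖p.1 - p.2‖ =
            C * g p.2 * ((4 * ‖p.1 - p.2‖) / ang p.2) := by
          field_simp
        rw [h9]
        have h10 : 1 ≤ (4 * ‖p.1 - p.2‖) / ang p.2 := by
          rw [le_div_iff₀ hap, one_mul]
          exact h6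
        have h11 : 0 ≤ C * g p.2 := by positivity
        nlinarith
      refine h8.trans (mul_le_mul_of_nonneg_right ?_ (by positivity))
      linarith
  · rw [h0 p hp, abs_zero]
    refine mul_nonneg ?_ (by positivity)
    exact Set.indicator_nonneg (fun _ _ => zero_le_one) _

/-- far from the diagonal the kernels are small -/
theorem far_ker {ε₀ : ℝ} (hε : ε₀ ≤ 1 / 100) {φ ϱ κ : V → ℝ} (hA : Adm ε₀ φ ϱ κ) {δ : ℝ}
    (hδ : 0 < δ) {r0 : ℝ} (hr0 : 0 ≤ r0) : ∃ R0 C : ℝ, 1 ≤ R0 ∧ 0 ≤ C ∧ ∀ p : V × V,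
    ‖p.1‖ ≤ r0 → R0 ≤ ‖p.1 - p.2‖ →
      (∀ i j, |kf ϱ δ i j p| ≤ C / ‖p.1 - p.2‖) ∧
      (∀ k i j, |dv k (kf ϱ δ i j) p| ≤ C / ‖p.1 - p.2‖) ∧
      (∀ i, |be ϱ δ i p| ≤ C / ‖p.1 - p.2‖) ∧
      (∀ k i, |dv k (be ϱ δ i) p| ≤ C / ‖p.1 - p.2‖) ∧
      (∀ k, |dv k (dbe ϱ δ) p| ≤ C / ‖p.1 - p.2‖) := by
  obtain ⟨C, hC, h⟩ := kf_size
  have hρ0 := hA.rnonneg 0
  refine ⟨2 * (ϱ 0 + r0 + δ) + 1, C, by linarith, hC.le, fun p hp hR => ?_⟩
  have hr1 : 1 ≤ ‖p.1 - p.2‖ := by linarith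
  have hne : p.1 ≠ p.2 := by
    intro hne
    rw [hne, sub_self, norm_zero] at hr1
    linarith
  have hlip : ∀ v w, |ϱ v - ϱ w| ≤ (1 / 100) * ‖v - w‖ := fun v w =>
    (hA.rlip v w).trans (mul_le_mul_of_nonneg_right hε (norm_nonneg _))
  set L : ℝ := ∑ i : Fin 3, ∑ j : Fin 3, ∑ k : Fin 3,
    |pd i (pd j (pd k (fun x => ϱ x ^ 2))) (mid p.1 p.2)| * Real.sqrt (SS ϱ δ p) with hL
  have hL0 : 0 ≤ L := Finset.sum_nonneg fun i _ => Finset.sum_nonneg fun j _ =>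
    Finset.sum_nonneg fun k _ => by positivity
  have hRB : RhoB ϱ δ L p := by
    refine ⟨hA.rsmooth, hA.rnonneg, fun v w => (hlip v w).trans ?_, hδ,
      fun i j => hA.r2 _ i j, fun i j k => ?_⟩
    · have := norm_nonneg (v - w)
      linarith
    · have e1 := Finset.single_le_sum (f := fun k : Fin 3 =>
        |pd i (pd j (pd k (fun x => ϱ x ^ 2))) (mid p.1 p.2)| * Real.sqrt (SS ϱ δ p))
        (fun k _ => by positivity) (Finset.mem_univ k)
      have e2 := Finset.single_le_sum (f := fun j : Fin 3 => ∑ k : Fin 3,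
        |pd i (pd j (pd k (fun x => ϱ x ^ 2))) (mid p.1 p.2)| * Real.sqrt (SS ϱ δ p))
        (fun j _ => Finset.sum_nonneg fun k _ => by positivity) (Finset.mem_univ j)
      have e3 := Finset.single_le_sum (f := fun i : Fin 3 => ∑ j : Fin 3, ∑ k : Fin 3,
        |pd i (pd j (pd k (fun x => ϱ x ^ 2))) (mid p.1 p.2)| * Real.sqrt (SS ϱ δ p))
        (fun i _ => Finset.sum_nonneg fun j _ => Finset.sum_nonneg fun k _ => by positivity)
        (Finset.mem_univ i)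
      exact e1.trans (e2.trans e3)
  have hSS : SS ϱ δ p < ‖p.1 - p.2‖ ^ 2 := by
    have h1 := (abs_le.1 (hlip (mid p.1 p.2) 0)).2
    rw [sub_zero] at h1
    have h2 : ‖mid p.1 p.2‖ ≤ ‖p.1‖ + ‖p.1 - p.2‖ / 2 := by
      have h3 : mid p.1 p.2 = p.1 - (p.1 - mid p.1 p.2) := by abel
      calc ‖mid p.1 p.2‖ = ‖p.1 - (p.1 - mid p.1 p.2)‖ := by rw [← h3]
        _ ≤ ‖p.1‖ + ‖p.1 - mid p.1 p.2‖ := norm_sub_le _ _
        _ = _ := by rw [NAdmAux.mid_sub_left]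
    have h3 := hA.rnonneg (mid p.1 p.2)
    have h4 : ϱ (mid p.1 p.2) + δ < ‖p.1 - p.2‖ := by linarith
    unfold SS
    nlinarith
  have hle : ∀ n : ℕ, 1 ≤ n → C / ‖p.1 - p.2‖ ^ n ≤ C / ‖p.1 - p.2‖ := by
    intro n hn
    refine div_le_div_of_nonneg_left hC.le (by positivity) ?_
    calc ‖p.1 - p.2‖ = ‖p.1 - p.2‖ ^ 1 := (pow_one _).symm
      _ ≤ ‖p.1 - p.2‖ ^ n := pow_le_pow_right₀ hr1 hn
  have h' := h ϱ δ L p hL0 hRB hne
  refine ⟨fun i j => (h' i j 0).1, fun k i j => ((h' i j k).2.1).trans (hle 2 (by norm_num)),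
    fun i => ((h' i 0 0).2.2.1).trans (hle 2 (by norm_num)),
    fun k i => ((h' i 0 k).2.2.2.1).trans (hle 3 (by norm_num)), fun k => ?_⟩
  rw [(h' 0 0 k).2.2.2.2.2 hSS, abs_zero]
  positivity

theorem pd_zero {φ : V → ℝ} {v : V} (hv : v ∉ tsupport φ) (i : Fin 3) : pd i φ v = 0 := by
  have h : φ =ᶠ[𝓝 v] fun _ => 0 := by
    filter_upwards [(isClosed_tsupport φ).isOpen_compl.mem_nhds hv] with u hu
    exact image_eq_zero_of_notMem_tsupport hu
  unfold pd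
  rw [h.fderiv_eq]
  simp

theorem pd2_zero {φ : V → ℝ} {v : V} (hv : v ∉ tsupport φ) (i j : Fin 3) :
    pd i (pd j φ) v = 0 := by
  have h : pd j φ =ᶠ[𝓝 v] fun _ => 0 := by
    filter_upwards [(isClosed_tsupport φ).isOpen_compl.mem_nhds hv] with u hu
    exact pd_zero hu j
  unfold pd at h ⊢
  rw [h.fderiv_eq]
  simp

theorem GG_zero {φ g : V → ℝ} {v : V} (hv : v ∉ tsupport φ) : GG φ g v = 0 := by
  unfold GG
  simp [image_eq_zero_of_notMem_tsupport hv, pd_zero hv]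

theorem pdGG_zero {φ g : V → ℝ} {v : V} (hv : v ∉ tsupport φ) (i : Fin 3) :
    pd i (GG φ g) v = 0 := by
  have h : GG φ g =ᶠ[𝓝 v] fun _ => 0 := by
    filter_upwards [(isClosed_tsupport φ).isOpen_compl.mem_nhds hv] with u hu
    exact GG_zero hu
  unfold pd
  rw [h.fderiv_eq]
  simp

/-- a uniform bound for finitely many continuous functions on a ball -/
theorem bd3 {r0 : ℝ} {f : Fin 3 → Fin 3 → V → ℝ} (hf : ∀ i j, Continuous (f i j)) :
    ∃ M : ℝ, 0 ≤ M ∧ ∀ i j v, ‖v‖ ≤ r0 → |f i j v| ≤ M := by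
  have h : ∀ i j, ∃ M : ℝ, ∀ v ∈ Metric.closedBall (0 : V) r0, ‖f i j v‖ ≤ M := fun i j =>
    (isCompact_closedBall (0 : V) r0).exists_bound_of_continuousOn (hf i j).continuousOn
  choose M hM using h
  refine ⟨∑ i, ∑ j, |M i j|, Finset.sum_nonneg fun i _ => Finset.sum_nonneg fun j _ =>
    abs_nonneg _, fun i j v hv => ?_⟩
  have e1 := Finset.single_le_sum (f := fun j => |M i j|) (fun j _ => abs_nonneg _)
    (Finset.mem_univ j)
  have e2 := Finset.single_le_sum (f := fun i => ∑ j, |M i j|)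
    (fun i _ => Finset.sum_nonneg fun j _ => abs_nonneg _) (Finset.mem_univ i)
  exact ((hM i j v (mem_closedBall_zero_iff.2 hv)).trans (le_abs_self _)).trans (e1.trans e2)

theorem supp_ball {φ : V → ℝ} (hc : HasCompactSupport φ) :
    ∃ r0 : ℝ, 0 ≤ r0 ∧ ∀ v, r0 < ‖v‖ → v ∉ tsupport φ := by
  obtain ⟨r, hr⟩ := hc.isBounded.subset_closedBall (0 : V)
  refine ⟨max r 0, le_max_right _ _, fun v hv hv' => ?_⟩
  have h1 := mem_closedBall_zero_iff.1 (hr hv')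
  have h2 := le_max_left r 0
  linarith

theorem F0_int {ε₀ : ℝ} (hε : ε₀ ≤ 1 / 100) {φ ϱ κ g : V → ℝ} (hA : Adm ε₀ φ ϱ κ) (hg : Dn g)
    {δ : ℝ} (h2 : 0 < δ) : Integrable (F0 ϱ δ φ g) ((volume : Measure V).prod volume) := by
  obtain ⟨r0, hr0, hs⟩ := supp_ball hA.compact
  obtain ⟨R0, C, hR0, hC, hk⟩ := far_ker hε hA h2 hr0
  obtain ⟨M1, hM1, b1⟩ := bd3 (r0 := r0) (f := fun i _ => pd i (GG φ g))
    (fun i _ => (smooth_pd (GG_smooth hA.smooth hg) i).continuous)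
  obtain ⟨M2, hM2, b2⟩ := bd3 (r0 := r0) (f := fun i _ => gam i g)
    (fun i _ => (gam_smooth hg i).continuous)
  refine int_of (R0 := R0) (F0_cont hA.rsmooth hA.smooth hg h2) hg hr0 (by linarith)
    (C := 3 * (M1 * (3 * (C * M2) + C))) (by positivity) (fun p hp => ?_) (fun p hp hR => ?_)
  · unfold F0
    simp [pdGG_zero (g := g) (hs p.1 hp)]
  · obtain ⟨k1, -, k3, -, -⟩ := hk p hp hR
    have hr : 0 < ‖p.1 - p.2‖ := by linarith
    have e : |∑ i : Fin 3, pd i (GG φ g) p.1 *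
        ((∑ j : Fin 3, kf ϱ δ i j p * gam j g p.1) - be ϱ δ i p)| ≤
        3 * (M1 * (3 * (C / ‖p.1 - p.2‖ * M2) + C / ‖p.1 - p.2‖)) :=
      s1 fun i => pm (b1 i 0 p.1 hp) ((abs_sub _ _).trans (add_le_add
        (s1 fun j => pm (k1 i j) (b2 j 0 p.1 hp)) (k3 i)))
    have hg1 := hg.cls.le_one p.1
    have hg1' := (hg.pos p.1).le
    have hg2 := (hg.pos p.2).le
    unfold F0 FF
    rw [abs_neg, abs_mul, abs_of_nonneg (mul_nonneg hg1' hg2)]
    have hX : 0 ≤ 3 * (M1 * (3 * (C / ‖p.1 - p.2‖ * M2) + C / ‖p.1 - p.2‖)) := by positivity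
    calc g p.1 * g p.2 * |∑ i : Fin 3, pd i (GG φ g) p.1 *
          ((∑ j : Fin 3, kf ϱ δ i j p * gam j g p.1) - be ϱ δ i p)|
        ≤ 1 * g p.2 * (3 * (M1 * (3 * (C / ‖p.1 - p.2‖ * M2) + C / ‖p.1 - p.2‖))) :=
          mul_le_mul (mul_le_mul_of_nonneg_right hg1 hg2) e (abs_nonneg _) (by positivity)
      _ = 3 * (M1 * (3 * (C * M2) + C)) * g p.2 / ‖p.1 - p.2‖ := by
          field_simp

theorem pd_slice {P : V × V → ℝ} (hP : ContDiff ℝ (⊤ : ℕ∞) P) (k : Fin 3) (v w : V) :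
    pd k (fun x => P (x, w)) v = dv k P (v, w) := by
  have h1 : HasFDerivAt (fun x : V => (x, w)) (ContinuousLinearMap.inl ℝ V V) v :=
    hasFDerivAt_prodMk_left v w
  have h2 : HasFDerivAt P (fderiv ℝ P (v, w)) (v, w) :=
    ((hP.differentiable (by simp)) (v, w)).hasFDerivAt
  have h3 : HasFDerivAt (fun x : V => P (x, w))
      ((fderiv ℝ P (v, w)).comp (ContinuousLinearMap.inl ℝ V V)) v :=
    h2.comp v h1
  unfold pd dv
  rw [h3.fderiv]
  rfl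

theorem smooth_slice {P : V × V → ℝ} (hP : ContDiff ℝ (⊤ : ℕ∞) P) (w : V) :
    ContDiff ℝ (⊤ : ℕ∞) (fun x => P (x, w)) :=
  hP.comp (contDiff_id.prodMk contDiff_const)

end XIntAux

theorem InF_int {ε₀ : ℝ} (hε : ε₀ ≤ 1 / 100) {φ ϱ κ g : V → ℝ} (hA : Adm ε₀ φ ϱ κ) (hg : Dn g)
    {δ : ℝ} (h2 : 0 < δ) : Integrable (InF ϱ δ φ g) ((volume : Measure V).prod volume) := by
  obtain ⟨r0, hr0, hsu⟩ := XIntAux.supp_ball hA.compact
  obtain ⟨R0, C, hR0, hC, hk⟩ := XIntAux.far_ker hε hA h2 hr0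
  obtain ⟨M0, hM0, b0⟩ := XIntAux.bd3 (r0 := r0) (f := fun _ _ => φ)
    (fun _ _ => hA.smooth.continuous)
  obtain ⟨M1, hM1, b1⟩ := XIntAux.bd3 (r0 := r0) (f := fun i _ => pd i φ)
    (fun i _ => (smooth_pd hA.smooth i).continuous)
  obtain ⟨M2, hM2, b2⟩ := XIntAux.bd3 (r0 := r0) (f := fun i j => pd i (pd j φ))
    (fun i j => (smooth_pd (smooth_pd hA.smooth j) i).continuous)
  obtain ⟨M3, hM3, b3⟩ := XIntAux.bd3 (r0 := r0) (f := fun i _ => gam i g)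
    (fun i _ => (gam_smooth hg i).continuous)
  obtain ⟨M4, hM4, b4⟩ := XIntAux.bd3 (r0 := r0) (f := fun i j v => hs g i j v)
    (fun i j => XIntAux.hs_cont hg i j)
  obtain ⟨M5, hM5, b5⟩ := XIntAux.bd3 (r0 := r0) (f := fun _ _ => x2 g)
    (fun _ _ => XIntAux.x2_cont hg)
  obtain ⟨M, hM, m0, m1, m2, m3, m4, m5⟩ : ∃ M : ℝ, 1 ≤ M ∧ M0 ≤ M ∧ M1 ≤ M ∧ M2 ≤ M ∧ M3 ≤ M ∧
      M4 ≤ M ∧ M5 ≤ M :=
    ⟨1 + M0 + M1 + M2 + M3 + M4 + M5, by linarith, by linarith, by linarith, by linarith,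
      by linarith, by linarith, by linarith⟩
  refine XIntAux.int_of (R0 := R0) (XIntAux.InF_cont hA.rsmooth hA.smooth hg h2) hg hr0
    (by linarith)
    (C := 300 * M ^ 3 * C) (by positivity) (fun p hp => ?_) (fun p hp hR => ?_)
  · rw [XIntAux.InF_eq]
    simp only
    rw [XIntAux.BR_zero (image_eq_zero_of_notMem_tsupport (hsu p.1 hp))
      (fun i => XIntAux.pd_zero (hsu p.1 hp) i) (fun i j => XIntAux.pd2_zero (hsu p.1 hp) i j),
      mul_zero]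
  · obtain ⟨k1, k2, k3, k4, k5⟩ := hk p hp hR
    have hr : 0 < ‖p.1 - p.2‖ := by linarith
    have hg1 := hg.cls.le_one p.1
    have hg1' := (hg.pos p.1).le
    have hg2 := (hg.pos p.2).le
    rw [XIntAux.InF_eq]
    simp only
    rw [abs_mul]
    unfold FF
    rw [abs_of_nonneg (mul_nonneg hg1' hg2)]
    calc _ ≤ 1 * g p.2 * (300 * M ^ 3 * (C / ‖p.1 - p.2‖)) :=
          mul_le_mul (mul_le_mul_of_nonneg_right hg1 hg2)
            (XIntAux.BR_le hM ((b0 0 0 p.1 hp).trans m0) (fun i => (b1 i 0 p.1 hp).trans m1)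
              (fun i j => (b2 i j p.1 hp).trans m2) (fun i => (b3 i 0 p.1 hp).trans m3)
              (fun i j => (b4 i j p.1 hp).trans m4) ((b5 0 0 p.1 hp).trans m5) k1 k2 k3 k4 k5)
            (abs_nonneg _) (by positivity)
      _ = 300 * M ^ 3 * C * g p.2 / ‖p.1 - p.2‖ := by ring

/-- The integrated far identity. -/
theorem far_int {ε₀ : ℝ} (hε : ε₀ ≤ 1 / 100) {φ ϱ κ g : V → ℝ} (hA : Adm ε₀ φ ϱ κ) (hg : Dn g)
    {δ : ℝ} (h2 : 0 < δ) :
    ∫ p, F0 ϱ δ φ g p ∂((volume : Measure V).prod volume) =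
      ∫ p, InF ϱ δ φ g p ∂((volume : Measure V).prod volume) := by
  rw [integral_prod_symm _ (XIntAux.F0_int hε hA hg h2), integral_prod_symm _ (InF_int hε hA hg h2)]
  refine integral_congr_ae (Eventually.of_forall fun w => ?_)
  simp only
  have hk := fun i j => kf_smooth hA.rsmooth h2 i j
  have hb := fun i => be_smooth hA.rsmooth h2 i
  have hd := dbe_smooth hA.rsmooth h2
  have hfar := far_id hA.smooth hA.compact hg (fun i j v => kf ϱ δ i j (v, w))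
    (fun i v => be ϱ δ i (v, w)) (fun i j => XIntAux.smooth_slice (hk i j) w)
    (fun i j v => by unfold kf; rw [aK_symm i j]) (fun i => XIntAux.smooth_slice (hb i) w)
  have e1 : (fun v => F0 ϱ δ φ g (v, w)) = fun v => g w * -(g v * ∑ i : Fin 3,
      ((∑ j : Fin 3, kf ϱ δ i j (v, w) * gam j g v) - be ϱ δ i (v, w)) * pd i (GG φ g) v) := by
    funext v
    unfold F0 FF
    simp only [mul_comm (pd _ (GG φ g) v)]
    ring
  have e2 : (fun x : V => ∑ i : Fin 3, pd i (fun v => be ϱ δ i (v, w)) x) =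
      fun x => dbe ϱ δ (x, w) := by
    funext x
    unfold dbe
    exact Finset.sum_congr rfl fun i _ => XIntAux.pd_slice (hb i) i x w
  rw [e2] at hfar
  rw [e1, integral_const_mul, integral_neg, hfar, ← integral_const_mul]
  refine integral_congr_ae (Eventually.of_forall fun v => ?_)
  simp only [XIntAux.pd_slice hd, XIntAux.pd_slice (hk _ _), XIntAux.pd_slice (hb _)]
  unfold InF FF
  ring

end Pool.Agent.LandauF
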