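import Pool.Agent.LandauF.XKerB
import Pool.Agent.LandauF.XKerC
import Pool.Agent.LandauF.NAdm

/-!
# LandauF, module XSm: crude bound of the far integrand (used where `ϱ(mid) ≤ δ`, `r² ≤ SS`)

There `SS ≤ 2 δ²`, `r ≤ 2 δ`, `ϱ(v) ≤ ϱ(mid) + r ≤ 3 δ`; `InF = 0` unless `4 r² ≥ SS ≥ δ²`, so `r ≥ δ/2`, and unless
`v` is in the support of `φ` (compact).  By `dom`, `d1`, `d2`, `krho`: `φ(v) ≤ K ϱ⁶`,
`|∂φ(v)| ≤ κ φ ≤ K ϱ⁵`, `|∂²φ(v)| ≤ κ φ/ϱ ≤ K ϱ⁴` (for `φ(v) ≠ 0`; if `φ(v) = 0` these derivatives vanish, see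
XPt).  `kf_size` with `L` depending on `ϱ` (the third derivatives of `ϱ²` are bounded on compact sets,
`√SS ≤ 2`), the score and the Hessian of `log g` are bounded on compact sets:
`|InF| ≤ K (δ⁶ r⁻⁴ + δ⁵ r⁻² + δ⁴ r⁻¹) ≤ K δ`.
-/

set_option autoImplicit false

namespace Pool.Agent.LandauF

open MeasureTheory Set Filter Topology Pool.Agent.Landau

private theorem xsm_bdd {f : V → ℝ} (hf : Continuous f) (R : ℝ) :
    ∃ M : ℝ, 0 < M ∧ ∀ v : V, ‖v‖ ≤ R → |f v| ≤ M := by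
  obtain ⟨M, hM⟩ := (isCompact_closedBall (0 : V) R).exists_bound_of_continuousOn hf.continuousOn
  refine ⟨max M 1, lt_of_lt_of_le one_pos (le_max_right _ _), fun v hv => ?_⟩
  exact (hM v (mem_closedBall_zero_iff.2 hv)).trans (le_max_left _ _)

/-- sizes of the weight and its derivatives -/
private theorem xsm_weight {ε₀ : ℝ} (hε : ε₀ ≤ 1 / 100) {φ ϱ κ : V → ℝ} (hA : Adm ε₀ φ ϱ κ) :
    ∃ K : ℝ, 0 < K ∧ ∀ v : V, φ v ≤ K * ϱ v ^ 6 ∧ (∀ i : Fin 3, |pd i φ v| ≤ K * ϱ v ^ 5) ∧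
      ∀ i j : Fin 3, |pd i (pd j φ) v| ≤ K * ϱ v ^ 4 := by
  obtain ⟨K₀, hK₀⟩ := hA.dom
  set K := max K₀ 1 with hKdef
  have hK : 0 < K := lt_of_lt_of_le one_pos (le_max_right _ _)
  have h6 : ∀ v, φ v ≤ K * ϱ v ^ 6 := fun v =>
    (hK₀ v).trans (mul_le_mul_of_nonneg_right (le_max_left _ _)
      (pow_nonneg (hA.rnonneg v) 6))
  have hkφ : ∀ v, κ v * φ v ≤ K * ϱ v ^ 5 := by
    intro v
    by_cases h0 : φ v = 0
    · rw [h0, mul_zero]
      have := hA.rnonneg v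
      positivity
    · have h1 := hA.krho v h0
      have h2 := hA.rnonneg v
      have h3 := hA.knonneg v
      calc κ v * φ v ≤ κ v * (K * ϱ v ^ 6) := mul_le_mul_of_nonneg_left (h6 v) h3
        _ = (κ v * ϱ v) * (K * ϱ v ^ 5) := by ring
        _ ≤ 1 * (K * ϱ v ^ 5) :=
          mul_le_mul_of_nonneg_right (by linarith) (by positivity)
        _ = K * ϱ v ^ 5 := one_mul _
  have h5 : ∀ v, ∀ i : Fin 3, |pd i φ v| ≤ K * ϱ v ^ 5 := by
    intro v i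
    have h2 := hA.rnonneg v
    exact (hA.d1 v v (by rw [sub_self, norm_zero]; positivity) i).trans (hkφ v)
  refine ⟨K, hK, fun v => ⟨h6 v, h5 v, fun i j => ?_⟩⟩
  have h2 := hA.rnonneg v
  rcases h2.eq_or_lt with h0 | hpos
  · -- the second derivatives vanish where `ϱ = 0`
    have hlip : ∀ x, ϱ x ≤ ‖x - v‖ := by
      intro x
      have h3 := hA.rlip x v
      rw [← h0, sub_zero] at h3
      have h4 := le_abs_self (ϱ x)
      nlinarith [norm_nonneg (x - v)]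
    have hO : (pd j φ) =O[𝓝 v] fun x => ‖x - v‖ ^ 5 := by
      refine Asymptotics.IsBigO.of_bound K (Eventually.of_forall fun x => ?_)
      rw [Real.norm_eq_abs, Real.norm_of_nonneg (by positivity : 0 ≤ ‖x - v‖ ^ 5)]
      refine (h5 x j).trans (mul_le_mul_of_nonneg_left ?_ hK.le)
      exact pow_le_pow_left₀ (hA.rnonneg x) (hlip x) 5
    have hd : HasFDerivAt (pd j φ) (0 : V →L[ℝ] ℝ) v := hO.hasFDerivAt (by norm_num)
    have h3 : pd i (pd j φ) v = 0 := by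
      unfold pd at hd ⊢
      rw [hd.fderiv]
      rfl
    rw [h3, abs_zero, ← h0]
    simp
  · have h3 := hA.d2 v v (by rw [sub_self, norm_zero]; positivity) i j
    have h4 := h3.trans (hkφ v)
    have h5 : |pd i (pd j φ) v| * ϱ v ≤ (K * ϱ v ^ 4) * ϱ v := by
      refine h4.trans (le_of_eq ?_)
      ring
    exact le_of_mul_le_mul_right h5 hpos

private theorem xsm_s3 {E c : ℝ} {F : Fin 3 → Fin 3 → Fin 3 → ℝ}
    (h : ∀ k i j, |c * F k i j| ≤ E) :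
    |c * ∑ k : Fin 3, ∑ i : Fin 3, ∑ j : Fin 3, F k i j| ≤ 27 * E := by
  simp only [Finset.mul_sum]
  refine (Finset.abs_sum_le_sum_abs _ _).trans ?_
  have h1 : ∀ k, |∑ i : Fin 3, ∑ j : Fin 3, c * F k i j| ≤ 9 * E := by
    intro k
    refine (Finset.abs_sum_le_sum_abs _ _).trans ?_
    have h2 : ∀ i, |∑ j : Fin 3, c * F k i j| ≤ 3 * E := by
      intro i
      refine (Finset.abs_sum_le_sum_abs _ _).trans ?_
      refine (Finset.sum_le_sum fun j _ => h k i j).trans ?_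
      simp
    refine (Finset.sum_le_sum fun i _ => h2 i).trans ?_
    simp
    linarith
  refine (Finset.sum_le_sum fun k _ => h1 k).trans ?_
  simp
  linarith

private theorem xsm_s2 {E c : ℝ} {F : Fin 3 → Fin 3 → ℝ} (h : ∀ i j, |c * F i j| ≤ E) :
    |c * ∑ i : Fin 3, ∑ j : Fin 3, F i j| ≤ 9 * E := by
  simp only [Finset.mul_sum]
  refine (Finset.abs_sum_le_sum_abs _ _).trans ?_
  have h2 : ∀ i, |∑ j : Fin 3, c * F i j| ≤ 3 * E := by
    intro i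
    refine (Finset.abs_sum_le_sum_abs _ _).trans ?_
    refine (Finset.sum_le_sum fun j _ => h i j).trans ?_
    simp
  refine (Finset.sum_le_sum fun i _ => h2 i).trans ?_
  simp
  linarith

private theorem xsm_s1 {E c : ℝ} {F : Fin 3 → ℝ} (h : ∀ i, |c * F i| ≤ E) :
    |c * ∑ i : Fin 3, F i| ≤ 3 * E := by
  simp only [Finset.mul_sum]
  refine (Finset.abs_sum_le_sum_abs _ _).trans ?_
  refine (Finset.sum_le_sum fun j _ => h j).trans ?_
  simp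

private theorem xsm_prod {a b x y A M : ℝ} (hM : 1 ≤ M) (h : |a * b| ≤ A) (hx : |x| ≤ M)
    (hy : |y| ≤ M) : |a * b * (x * y)| ≤ A * M ^ 2 := by
  rw [abs_mul, abs_mul x y]
  have h0 : 0 ≤ A := (abs_nonneg _).trans h
  have h1 : |x| * |y| ≤ M ^ 2 := by
    rw [pow_two]
    exact mul_le_mul hx hy (abs_nonneg _) (by linarith)
  exact mul_le_mul h h1 (by positivity) h0

private theorem xsm_size {a b A r δ : ℝ} (n m : ℕ) {P C : ℝ} (hδ : 0 < δ) (hδ1 : δ ≤ 1) (hr : δ ≤ 2 * r)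
    (hP : 0 ≤ P) (hC : 0 ≤ C) (ha : |a| ≤ P * δ ^ (m + 1 + n)) (hb : |b| ≤ C / r ^ m)
    (hA : A = P * C * 2 ^ m * δ) :
    |a * b| ≤ A := by
  have hr0 : 0 < r := by linarith
  rw [abs_mul, hA]
  have h1 : C / r ^ m ≤ C * 2 ^ m / δ ^ m := by
    rw [div_le_div_iff₀ (by positivity) (by positivity)]
    have h2 : δ ^ m ≤ (2 * r) ^ m := pow_le_pow_left₀ hδ.le hr m
    rw [mul_pow] at h2
    calc C * δ ^ m ≤ C * (2 ^ m * r ^ m) := mul_le_mul_of_nonneg_left h2 hC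
      _ = C * 2 ^ m * r ^ m := by ring
  calc |a| * |b| ≤ (P * δ ^ (m + 1 + n)) * (C * 2 ^ m / δ ^ m) :=
        mul_le_mul ha (hb.trans h1) (abs_nonneg _) (by positivity)
    _ = P * C * 2 ^ m * δ * δ ^ n := by
        rw [pow_add, pow_add]
        field_simp
    _ ≤ P * C * 2 ^ m * δ * 1 :=
        mul_le_mul_of_nonneg_left (pow_le_one₀ hδ.le hδ1) (by positivity)
    _ = P * C * 2 ^ m * δ := mul_one _

/-- Crude bound of the far integrand. -/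
theorem far_crude {ε₀ : ℝ} (hε : ε₀ ≤ 1 / 100) {φ ϱ κ g : V → ℝ} (hA : Adm ε₀ φ ϱ κ) (hg : Dn g) :
    ∃ K R : ℝ, 0 < K ∧ 0 < R ∧ ∀ (δ : ℝ) (p : V × V), 0 < δ → δ ≤ 1 → p.1 ≠ p.2 →
      ϱ (mid p.1 p.2) ≤ δ → ‖p.1 - p.2‖ ^ 2 ≤ SS ϱ δ p →
      |InF ϱ δ φ g p| ≤ if ‖p.1‖ ≤ R then K * δ else 0 := by
  obtain ⟨C, hC, hkf⟩ := kf_size
  obtain ⟨P, hP, hw⟩ := xsm_weight hε hA
  obtain ⟨R₀, hR₀⟩ := hA.compact.isCompact.isBounded.subset_closedBall (0 : V)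
  set R := max R₀ 1 with hRdef
  have hR : 0 < R := lt_of_lt_of_le one_pos (le_max_right _ _)
  have hRs : ∀ v : V, R < ‖v‖ → v ∉ tsupport φ := by
    intro v hv h1
    have h2 := mem_closedBall_zero_iff.1 (hR₀ h1)
    exact absurd (h2.trans (le_max_left _ _)) (not_le.2 hv)
  -- bounds on compact sets
  have hgm : ∀ i, ∃ M : ℝ, 0 < M ∧ ∀ v : V, ‖v‖ ≤ R → |gam i g v| ≤ M := fun i =>
    xsm_bdd (gam_smooth hg i).continuous R
  have hhm : ∀ i j, ∃ M : ℝ, 0 < M ∧ ∀ v : V, ‖v‖ ≤ R → |hs g i j v| ≤ M := fun i j =>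
    xsm_bdd (smooth_pd (gam_smooth hg j) i).continuous R
  have htm : ∀ i j k, ∃ M : ℝ, 0 < M ∧ ∀ v : V, ‖v‖ ≤ R + 1 →
      |pd i (pd j (pd k (fun x => ϱ x ^ 2))) v| ≤ M := fun i j k =>
    xsm_bdd (smooth_pd (smooth_pd (smooth_pd hA.rsmooth k) j) i).continuous (R + 1)
  choose G1 hG1 hG1' using hgm
  choose G2 hG2 hG2' using hhm
  choose G3 hG3 hG3' using htm
  set M : ℝ := 1 + ∑ i, G1 i + ∑ i, ∑ j, G2 i j with hMdef
  have hs1 : 0 ≤ ∑ i, G1 i := Finset.sum_nonneg fun i _ => (hG1 i).le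
  have hs2 : 0 ≤ ∑ i, ∑ j, G2 i j :=
    Finset.sum_nonneg fun i _ => Finset.sum_nonneg fun j _ => (hG2 i j).le
  have hM1 : 1 ≤ M := by rw [hMdef]; linarith
  have hgM : ∀ v : V, ‖v‖ ≤ R → ∀ i, |gam i g v| ≤ M := by
    intro v hv i
    have h1 : G1 i ≤ ∑ i, G1 i := Finset.single_le_sum (fun j _ => (hG1 j).le) (Finset.mem_univ i)
    rw [hMdef]
    linarith [hG1' i v hv]
  have hhM : ∀ v : V, ‖v‖ ≤ R → ∀ i j, |hs g i j v| ≤ M := by
    intro v hv i j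
    have h1 : G2 i j ≤ ∑ j, G2 i j :=
      Finset.single_le_sum (fun j _ => (hG2 i j).le) (Finset.mem_univ j)
    have h2 : ∑ j, G2 i j ≤ ∑ i, ∑ j, G2 i j :=
      Finset.single_le_sum (f := fun i => ∑ j, G2 i j)
        (fun i _ => Finset.sum_nonneg fun j _ => (hG2 i j).le) (Finset.mem_univ i)
    rw [hMdef]
    linarith [hG2' i j v hv]
  have hxM : ∀ v : V, ‖v‖ ≤ R → |x2 g v| ≤ 3 * M ^ 2 := by
    intro v hv
    unfold x2
    refine (Finset.abs_sum_le_sum_abs _ _).trans ?_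
    have h1 : ∀ i : Fin 3, |gam i g v ^ 2| ≤ M ^ 2 := by
      intro i
      rw [abs_pow]
      exact pow_le_pow_left₀ (abs_nonneg _) (hgM v hv i) 2
    refine (Finset.sum_le_sum fun i _ => h1 i).trans ?_
    simp
  set L : ℝ := 2 * ∑ i, ∑ j, ∑ k, G3 i j k with hLdef
  have hL0 : 0 ≤ L := by
    rw [hLdef]
    have := Finset.sum_nonneg fun (i : Fin 3) (_ : i ∈ Finset.univ) =>
      Finset.sum_nonneg fun (j : Fin 3) (_ : j ∈ Finset.univ) =>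
        Finset.sum_nonneg fun (k : Fin 3) (_ : k ∈ Finset.univ) => (hG3 i j k).le
    linarith
  have hLM : ∀ v : V, ‖v‖ ≤ R + 1 → ∀ i j k,
      |pd i (pd j (pd k (fun x => ϱ x ^ 2))) v| * 2 ≤ L := by
    intro v hv i j k
    have h1 : G3 i j k ≤ ∑ k, G3 i j k :=
      Finset.single_le_sum (fun k _ => (hG3 i j k).le) (Finset.mem_univ k)
    have h2 : ∑ k, G3 i j k ≤ ∑ j, ∑ k, G3 i j k :=
      Finset.single_le_sum (f := fun j => ∑ k, G3 i j k)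
        (fun j _ => Finset.sum_nonneg fun k _ => (hG3 i j k).le) (Finset.mem_univ j)
    have h3 : ∑ j, ∑ k, G3 i j k ≤ ∑ i, ∑ j, ∑ k, G3 i j k :=
      Finset.single_le_sum (f := fun i => ∑ j, ∑ k, G3 i j k)
        (fun i _ => Finset.sum_nonneg fun j _ => Finset.sum_nonneg fun k _ => (hG3 i j k).le)
        (Finset.mem_univ i)
    rw [hLdef]
    linarith [hG3' i j k v hv]
  set C' : ℝ := C * (1 + L) with hC'def
  have hCC : C ≤ C' := by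
    rw [hC'def]
    nlinarith
  have hC' : 0 < C' := hC.trans_le hCC
  set A : ℝ := 64 * P * C' * 2 ^ 4 with hAdef
  have hA0 : 0 < A := by positivity
  refine ⟨600 * (A * M ^ 2), R, by positivity, hR, ?_⟩
  intro δ p hδ hδ1 hne hmid hS
  have hlip : ∀ v w, |ϱ v - ϱ w| ≤ ‖v - w‖ := fun v w =>
    (hA.rlip v w).trans (by nlinarith [norm_nonneg (v - w)])
  split_ifs with hp
  swap
  · -- outside of the support of the weight
    have h1 := hRs p.1 (not_le.1 hp)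
    have e0 : φ =ᶠ[𝓝 p.1] fun _ => (0 : ℝ) := notMem_tsupport_iff_eventuallyEq.1 h1
    have e1 : ∀ i, pd i φ =ᶠ[𝓝 p.1] fun _ => (0 : ℝ) := by
      intro i
      have h2 := e0.eventuallyEq_nhds
      filter_upwards [h2] with x hx
      unfold pd
      rw [hx.fderiv_eq]
      simp
    have e2 : ∀ i j, pd i (pd j φ) p.1 = 0 := by
      intro i j
      have h3 := (e1 j).fderiv_eq (𝕜 := ℝ)
      have h4 : pd i (pd j φ) p.1 = fderiv ℝ (pd j φ) p.1 (EuclideanSpace.single i 1) := rfl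
      rw [h4, h3]
      simp
    have e3 : φ p.1 = 0 := e0.self_of_nhds
    have e4 : ∀ i, pd i φ p.1 = 0 := fun i => (e1 i).self_of_nhds
    have h2 : InF ϱ δ φ g p = 0 := by
      unfold InF
      simp only [e2, e3, e4, mul_zero, zero_mul, Finset.sum_const_zero, add_zero, sub_zero, neg_zero]
    rw [h2, abs_zero]
  set r := ‖p.1 - p.2‖ with hrdef
  have hr : 0 < r := norm_pos_iff.2 (sub_ne_zero.2 hne)
  have hm0 := hA.rnonneg (mid p.1 p.2)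
  have hSS : SS ϱ δ p ≤ 2 * δ ^ 2 := by
    unfold SS
    nlinarith
  by_cases hnear : 4 * r ^ 2 < SS ϱ δ p
  · have h1 := kf_near hA.rsmooth hδ p hnear
    have h2 : InF ϱ δ φ g p = 0 := by
      unfold InF
      simp only [fun i j => (h1 i j 0).1, fun i j k => (h1 i j k).2.1, fun i => (h1 i 0 0).2.2.1,
        fun i k => (h1 i 0 k).2.2.2.1, fun k => (h1 0 0 k).2.2.2.2, mul_zero, zero_mul,
        Finset.sum_const_zero, add_zero, sub_zero, neg_zero]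
    rw [h2, abs_zero]
    positivity
  push Not at hnear
  have hrδ : δ ≤ 2 * r := by
    have h1 : δ ^ 2 ≤ (2 * r) ^ 2 := by
      have h2 : δ ^ 2 ≤ SS ϱ δ p := by
        unfold SS
        nlinarith
      nlinarith
    exact le_of_sq_le_sq h1 (by positivity)
  have hr2 : r ≤ 2 * δ := by
    have h1 : r ^ 2 ≤ (2 * δ) ^ 2 := by nlinarith
    exact le_of_sq_le_sq h1 (by positivity)
  have hvm : ‖p.1 - mid p.1 p.2‖ ≤ r / 2 := by
    have h1 : p.1 - mid p.1 p.2 = (1 / 2 : ℝ) • (p.1 - p.2) := by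
      unfold mid
      module
    rw [h1, norm_smul, Real.norm_of_nonneg (by norm_num : (0 : ℝ) ≤ 1 / 2)]
    linarith
  have hϱv : ϱ p.1 ≤ 2 * δ := by
    have h1 := (hlip p.1 (mid p.1 p.2)).trans hvm
    have h2 := le_abs_self (ϱ p.1 - ϱ (mid p.1 p.2))
    linarith
  have hϱ0 := hA.rnonneg p.1
  have hmR : ‖mid p.1 p.2‖ ≤ R + 1 := by
    have h1 : ‖mid p.1 p.2‖ ≤ ‖p.1‖ + ‖p.1 - mid p.1 p.2‖ := by
      have h2 := norm_sub_norm_le (mid p.1 p.2) p.1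
      rw [norm_sub_rev] at h2
      linarith
    linarith
  have hsq : Real.sqrt (SS ϱ δ p) ≤ 2 := by
    rw [Real.sqrt_le_left (by norm_num)]
    nlinarith
  have hRho : RhoB ϱ δ L p :=
    { smooth := hA.rsmooth
      nonneg := hA.rnonneg
      lip := hlip
      pos := hδ
      d2 := fun i j => hA.r2 _ i j
      d3 := fun i j k =>
        (mul_le_mul_of_nonneg_left hsq (abs_nonneg _)).trans (hLM _ hmR i j k) }
  have hk := hkf ϱ δ L p hL0 hRho hne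
  obtain ⟨w0, w1, w2⟩ := hw p.1
  -- the sizes of the weight in terms of `δ`
  have hφ0 := hA.nonneg p.1
  have a0 : |φ p.1| ≤ 64 * P * δ ^ 6 := by
    rw [abs_of_nonneg hφ0]
    refine w0.trans ?_
    have h1 : ϱ p.1 ^ 6 ≤ (2 * δ) ^ 6 := pow_le_pow_left₀ hϱ0 hϱv 6
    calc P * ϱ p.1 ^ 6 ≤ P * (2 * δ) ^ 6 := mul_le_mul_of_nonneg_left h1 hP.le
      _ = 64 * P * δ ^ 6 := by ring
  have a1 : ∀ i, |pd i φ p.1| ≤ 64 * P * δ ^ 5 := by
    intro i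
    refine (w1 i).trans ?_
    have h1 : ϱ p.1 ^ 5 ≤ (2 * δ) ^ 5 := pow_le_pow_left₀ hϱ0 hϱv 5
    have h2 : 0 ≤ P * δ ^ 5 := by positivity
    calc P * ϱ p.1 ^ 5 ≤ P * (2 * δ) ^ 5 := mul_le_mul_of_nonneg_left h1 hP.le
      _ = 32 * (P * δ ^ 5) := by ring
      _ ≤ 64 * P * δ ^ 5 := by linarith
  have a2 : ∀ i j, |pd i (pd j φ) p.1| ≤ 64 * P * δ ^ 4 := by
    intro i j
    refine (w2 i j).trans ?_
    have h1 : ϱ p.1 ^ 4 ≤ (2 * δ) ^ 4 := pow_le_pow_left₀ hϱ0 hϱv 4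
    have h2 : 0 ≤ P * δ ^ 4 := by positivity
    calc P * ϱ p.1 ^ 4 ≤ P * (2 * δ) ^ 4 := mul_le_mul_of_nonneg_left h1 hP.le
      _ = 16 * (P * δ ^ 4) := by ring
      _ ≤ 64 * P * δ ^ 4 := by linarith
  -- the sizes of the kernels
  have up : ∀ (x : ℝ) (m : ℕ), |x| ≤ C / r ^ m → |x| ≤ C' / r ^ m := fun x m h =>
    h.trans (div_le_div_of_nonneg_right hCC (by positivity))
  have b0 : ∀ i j, |kf ϱ δ i j p| ≤ C' / r ^ 1 := fun i j =>
    up _ 1 (by rw [pow_one]; exact (hk i j 0).1)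
  have b1 : ∀ i j k, |dv k (kf ϱ δ i j) p| ≤ C' / r ^ 2 := fun i j k => up _ 2 (hk i j k).2.1
  have b2 : ∀ i, |be ϱ δ i p| ≤ C' / r ^ 2 := fun i => up _ 2 (hk i 0 0).2.2.1
  have b3 : ∀ i k, |dv k (be ϱ δ i) p| ≤ C' / r ^ 3 := fun i k => up _ 3 (hk i 0 k).2.2.2.1
  have b4 : ∀ k, |dv k (dbe ϱ δ) p| ≤ C' / r ^ 4 := fun k => (hk 0 0 k).2.2.2.2.1
  have hPP : 0 ≤ 64 * P := by positivity
  have mon : ∀ m : ℕ, m ≤ 4 → 64 * P * C' * 2 ^ m * δ ≤ A * δ := by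
    intro m hm
    rw [hAdef]
    have h1 : (2 : ℝ) ^ m ≤ 2 ^ 4 := pow_le_pow_right₀ (by norm_num) hm
    gcongr
  have q0 : ∀ i j, |φ p.1 * kf ϱ δ i j p| ≤ A * δ := fun i j =>
    (xsm_size 4 1 hδ hδ1 hrδ hPP hC'.le a0 (b0 i j) rfl).trans (mon 1 (by norm_num))
  have q1 : ∀ i j k, |φ p.1 * dv k (kf ϱ δ i j) p| ≤ A * δ := fun i j k =>
    (xsm_size 3 2 hδ hδ1 hrδ hPP hC'.le a0 (b1 i j k) rfl).trans (mon 2 (by norm_num))
  have q2 : ∀ l i j k, |pd l φ p.1 * dv k (kf ϱ δ i j) p| ≤ A * δ := fun l i j k =>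
    (xsm_size 2 2 hδ hδ1 hrδ hPP hC'.le (a1 l) (b1 i j k) rfl).trans (mon 2 (by norm_num))
  have q3 : ∀ l m i j, |pd l (pd m φ) p.1 * kf ϱ δ i j p| ≤ A * δ := fun l m i j =>
    (xsm_size 2 1 hδ hδ1 hrδ hPP hC'.le (a2 l m) (b0 i j) rfl).trans (mon 1 (by norm_num))
  have q4 : ∀ l i, |pd l φ p.1 * be ϱ δ i p| ≤ A * δ := fun l i =>
    (xsm_size 2 2 hδ hδ1 hrδ hPP hC'.le (a1 l) (b2 i) rfl).trans (mon 2 (by norm_num))
  have q5 : ∀ k, |φ p.1 * dv k (dbe ϱ δ) p| ≤ A * δ := fun k =>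
    (xsm_size 1 4 hδ hδ1 hrδ hPP hC'.le a0 (b4 k) rfl).trans (mon 4 (by norm_num))
  have q6 : ∀ i k, |φ p.1 * dv k (be ϱ δ i) p| ≤ A * δ := fun i k =>
    (xsm_size 2 3 hδ hδ1 hrδ hPP hC'.le a0 (b3 i k) rfl).trans (mon 3 (by norm_num))
  have gM := hgM p.1 hp
  have hM := hhM p.1 hp
  have one : |(1 : ℝ)| ≤ M := by rw [abs_one]; exact hM1
  set E : ℝ := A * δ * M ^ 2 with hEdef
  have hE0 : 0 ≤ E := by positivity
  have t1 : |φ p.1 * ∑ k : Fin 3, ∑ i : Fin 3, ∑ j : Fin 3,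
      kf ϱ δ i j p * hs g k i p.1 * hs g k j p.1| ≤ 27 * E := by
    refine xsm_s3 fun k i j => ?_
    have h1 := xsm_prod hM1 (q0 i j) (hM k i) (hM k j)
    rw [show φ p.1 * (kf ϱ δ i j p * hs g k i p.1 * hs g k j p.1) =
      φ p.1 * kf ϱ δ i j p * (hs g k i p.1 * hs g k j p.1) by ring]
    exact h1
  have t2 : |φ p.1 * ∑ k : Fin 3, ∑ i : Fin 3, ∑ j : Fin 3,
      dv k (kf ϱ δ i j) p * gam j g p.1 * hs g k i p.1| ≤ 27 * E := by
    refine xsm_s3 fun k i j => ?_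
    have h1 := xsm_prod hM1 (q1 i j k) (gM j) (hM k i)
    rw [show φ p.1 * (dv k (kf ϱ δ i j) p * gam j g p.1 * hs g k i p.1) =
      φ p.1 * dv k (kf ϱ δ i j) p * (gam j g p.1 * hs g k i p.1) by ring]
    exact h1
  have t3 : |∑ k : Fin 3, ∑ i : Fin 3, ∑ j : Fin 3,
      pd i φ p.1 * gam k g p.1 * gam j g p.1 * dv k (kf ϱ δ i j) p| ≤ 27 * E := by
    have h0 := xsm_s3 (c := 1) (E := E) (F := fun k i j =>
      pd i φ p.1 * gam k g p.1 * gam j g p.1 * dv k (kf ϱ δ i j) p) (fun k i j => by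
        have h1 := xsm_prod hM1 (q2 i i j k) (gM k) (gM j)
        rw [show 1 * (pd i φ p.1 * gam k g p.1 * gam j g p.1 * dv k (kf ϱ δ i j) p) =
          pd i φ p.1 * dv k (kf ϱ δ i j) p * (gam k g p.1 * gam j g p.1) by ring]
        exact h1)
    rwa [one_mul] at h0
  have xM := hxM p.1 hp
  have xx : ∀ y : ℝ, |y| ≤ 9 * (A * δ) → |x2 g p.1 * y| ≤ 27 * E := by
    intro y hy
    rw [abs_mul]
    calc |x2 g p.1| * |y| ≤ (3 * M ^ 2) * (9 * (A * δ)) :=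
          mul_le_mul xM hy (abs_nonneg _) (by positivity)
      _ = 27 * E := by rw [hEdef]; ring
  have t4 : |x2 g p.1 * ∑ i : Fin 3, ∑ j : Fin 3, kf ϱ δ i j p * pd i (pd j φ) p.1| ≤ 27 * E := by
    refine xx _ ?_
    have h0 := xsm_s2 (c := 1) (E := A * δ) (F := fun i j => kf ϱ δ i j p * pd i (pd j φ) p.1)
      (fun i j => by rw [one_mul, mul_comm]; exact q3 i j i j)
    rwa [one_mul] at h0
  have t5 : |x2 g p.1 * ∑ i : Fin 3, ∑ j : Fin 3, dv j (kf ϱ δ i j) p * pd i φ p.1| ≤ 27 * E := by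
    refine xx _ ?_
    have h0 := xsm_s2 (c := 1) (E := A * δ) (F := fun i j => dv j (kf ϱ δ i j) p * pd i φ p.1)
      (fun i j => by rw [one_mul, mul_comm]; exact q2 i i j j)
    rwa [one_mul] at h0
  have t6 : |x2 g p.1 * ∑ i : Fin 3, be ϱ δ i p * pd i φ p.1| ≤ 27 * E := by
    refine xx _ ?_
    have h0 := xsm_s1 (c := 1) (E := A * δ) (F := fun i => be ϱ δ i p * pd i φ p.1)
      (fun i => by rw [one_mul, mul_comm]; exact q4 i i)
    rw [one_mul] at h0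
    have h1 : 0 ≤ A * δ := by positivity
    linarith
  have t7 : |φ p.1 * ∑ k : Fin 3, gam k g p.1 * dv k (dbe ϱ δ) p| ≤ 3 * E := by
    refine xsm_s1 fun k => ?_
    have h1 := xsm_prod hM1 (q5 k) (gM k) one
    rw [show φ p.1 * (gam k g p.1 * dv k (dbe ϱ δ) p) =
      φ p.1 * dv k (dbe ϱ δ) p * (gam k g p.1 * 1) by ring]
    exact h1
  have t8 : |φ p.1 * ∑ k : Fin 3, ∑ i : Fin 3,
      dv k (be ϱ δ i) p * gam i g p.1 * gam k g p.1| ≤ 9 * E := by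
    refine xsm_s2 fun k i => ?_
    have h1 := xsm_prod hM1 (q6 i k) (gM i) (gM k)
    rw [show φ p.1 * (dv k (be ϱ δ i) p * gam i g p.1 * gam k g p.1) =
      φ p.1 * dv k (be ϱ δ i) p * (gam i g p.1 * gam k g p.1) by ring]
    exact h1
  have hF0 : 0 ≤ FF g p := (mul_pos (hg.pos _) (hg.pos _)).le
  have hF1 : FF g p ≤ 1 := by
    unfold FF
    exact mul_le_one₀ (hg.cls.le_one _) (hg.cls.nonneg _) (hg.cls.le_one _)
  unfold InF
  rw [abs_mul, abs_of_nonneg hF0]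
  set S1 := φ p.1 * ∑ k : Fin 3, ∑ i : Fin 3, ∑ j : Fin 3,
      kf ϱ δ i j p * hs g k i p.1 * hs g k j p.1 with hS1
  set S2 := φ p.1 * ∑ k : Fin 3, ∑ i : Fin 3, ∑ j : Fin 3,
      dv k (kf ϱ δ i j) p * gam j g p.1 * hs g k i p.1 with hS2
  set S7 := φ p.1 * ∑ k : Fin 3, gam k g p.1 * dv k (dbe ϱ δ) p with hS7
  set S8 := φ p.1 * ∑ k : Fin 3, ∑ i : Fin 3,
      dv k (be ϱ δ i) p * gam i g p.1 * gam k g p.1 with hS8
  have e1 : -(2 * φ p.1 * ∑ k : Fin 3, ∑ i : Fin 3, ∑ j : Fin 3,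
      kf ϱ δ i j p * hs g k i p.1 * hs g k j p.1) = -2 * S1 := by rw [hS1]; ring
  have e2 : 2 * φ p.1 * (∑ k : Fin 3, ∑ i : Fin 3, ∑ j : Fin 3,
      dv k (kf ϱ δ i j) p * gam j g p.1 * hs g k i p.1) = 2 * S2 := by rw [hS2]; ring
  have e7 : 2 * φ p.1 * (∑ k : Fin 3, gam k g p.1 * dv k (dbe ϱ δ) p) = 2 * S7 := by
    rw [hS7]; ring
  have e8 : 2 * φ p.1 * (∑ k : Fin 3, ∑ i : Fin 3,
      dv k (be ϱ δ i) p * gam i g p.1 * gam k g p.1) = 2 * S8 := by rw [hS8]; ring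
  rw [e1, e2, e7, e8, mul_add (x2 g p.1), mul_add (x2 g p.1)]
  refine (mul_le_mul_of_nonneg_right hF1 (abs_nonneg _)).trans ?_
  rw [one_mul, abs_le]
  rw [abs_le] at t1 t2 t3 t4 t5 t6 t7 t8
  have hfin : 600 * (A * M ^ 2) * δ = 600 * E := by rw [hEdef]; ring
  rw [hfin]
  constructor
  · linarith [t1.1, t1.2, t2.1, t2.2, t3.1, t3.2, t4.1, t4.2, t5.1, t5.2, t6.1, t6.2, t7.1, t7.2,
      t8.1, t8.2]
  · linarith [t1.1, t1.2, t2.1, t2.2, t3.1, t3.2, t4.1, t4.2, t5.1, t5.2, t6.1, t6.2, t7.1, t7.2,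
      t8.1, t8.2]

end Pool.Agent.LandauF
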