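import Pool.Agent.LandauF.XPt
import Pool.Agent.LandauF.XSm
import Pool.Agent.LandauF.XInt

/-!
# LandauF, module XFin: the far estimate

`far_int`; on pairs with `δ < ϱ(mid)` or `SS < r²` use `far_pt` (the error is part of the integrand of `ER`), on the
other pairs (`ϱ(mid) ≤ δ`, `r² ≤ SS ≤ 2 δ²`) `far_crude`, and there also
`φ F (1 - eta) HZ / r³ ≤ K δ`-type bound (`φ(v) ≤ K ϱ(v)⁶ ≤ K δ⁶`, `eta = 1` unless `r ≥ δ/2`, `HZ ≤ K r²`), so that the
dissipation over all pairs is recovered up to `K δ`.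
-/

set_option autoImplicit false

namespace Pool.Agent.LandauF

open MeasureTheory Set Filter Topology Pool.Agent.Landau

/-- The far dissipation at level `δ`. -/
noncomputable def DFe (ϱ : V → ℝ) (δ : ℝ) (φ g : V → ℝ) : ENNReal :=
  ∫⁻ p : V × V, ENNReal.ofReal (φ p.1 * FF g p * (1 - eta ϱ δ p) * HZ g p.1 p.2 /
    ‖p.1 - p.2‖ ^ 3) ∂((volume : Measure V).prod volume)

theorem xf_ae_ne : ∀ᵐ p ∂((volume : Measure V).prod volume), p.1 ≠ p.2 := by
  rw [ae_iff]
  have hs : MeasurableSet {p : V × V | p.1 = p.2} :=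
    measurableSet_eq_fun measurable_fst measurable_snd
  have e : {p : V × V | ¬ p.1 ≠ p.2} = {p : V × V | p.1 = p.2} := by
    ext p
    simp
  rw [e, Measure.measure_prod_null hs]
  filter_upwards with v
  have : Prod.mk v ⁻¹' {p : V × V | p.1 = p.2} = {v} := by
    ext w
    simp [eq_comm]
  rw [this]
  simp

theorem xf_hs_cont {g : V → ℝ} (hg : Dn g) (i j : Fin 3) : Continuous (hs g i j) := by
  unfold hs
  exact (nid_pd_smooth (gam_smooth hg j) i).continuous

theorem xf_HZ_cont {g : V → ℝ} (hg : Dn g) : Continuous (fun p : V × V => HZ g p.1 p.2) := by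
  unfold HZ
  refine continuous_finset_sum _ fun a _ => continuous_finset_sum _ fun b _ =>
    continuous_finset_sum _ fun l _ => ?_
  have h1 := (xf_hs_cont hg b l).comp (continuous_fst (X := V) (Y := V))
  have h2 := (xf_hs_cont hg a l).comp (continuous_fst (X := V) (Y := V))
  have c1 : Continuous (fun p : V × V => p.1 a - p.2 a) := by fun_prop
  have c2 : Continuous (fun p : V × V => p.1 b - p.2 b) := by fun_prop
  exact ((c1.mul h1).sub (c2.mul h2)).pow 2

theorem xf_rho_cont {ε₀ : ℝ} {φ ϱ κ : V → ℝ} (hA : Adm ε₀ φ ϱ κ) : Continuous ϱ := by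
  have h : LipschitzWith (Real.toNNReal ε₀) ϱ := by
    apply LipschitzWith.of_dist_le_mul
    intro x y
    rw [Real.dist_eq, dist_eq_norm]
    refine (hA.rlip x y).trans ?_
    exact mul_le_mul_of_nonneg_right (Real.le_coe_toNNReal ε₀) (norm_nonneg _)
  exact h.continuous

theorem xf_HZ_nonneg (g : V → ℝ) (v w : V) : 0 ≤ HZ g v w :=
  Finset.sum_nonneg fun _ _ => Finset.sum_nonneg fun _ _ => Finset.sum_nonneg fun _ _ =>
    sq_nonneg _

theorem xf_coord (v : V) (a : Fin 3) : |v a| ≤ ‖v‖ := by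
  have := PiLp.norm_apply_le v a
  simpa using this

theorem xf_HZ_le {g : V → ℝ} {M : ℝ} (hM : 0 ≤ M) (v w : V)
    (h : ∀ i j : Fin 3, |hs g i j v| ≤ M) : HZ g v w ≤ 108 * M ^ 2 * ‖v - w‖ ^ 2 := by
  have hc : ∀ a : Fin 3, |v a - w a| ≤ ‖v - w‖ := fun a => xf_coord (v - w) a
  have hr : 0 ≤ ‖v - w‖ := norm_nonneg _
  have ht : ∀ a b l : Fin 3, ((v a - w a) * hs g b l v - (v b - w b) * hs g a l v) ^ 2 ≤
      4 * M ^ 2 * ‖v - w‖ ^ 2 := by
    intro a b l
    have h1 : |(v a - w a) * hs g b l v - (v b - w b) * hs g a l v| ≤ 2 * (‖v - w‖ * M) := by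
      have h2 : |(v a - w a) * hs g b l v| ≤ ‖v - w‖ * M := by
        rw [abs_mul]
        exact mul_le_mul (hc a) (h b l) (abs_nonneg _) hr
      have h3 : |(v b - w b) * hs g a l v| ≤ ‖v - w‖ * M := by
        rw [abs_mul]
        exact mul_le_mul (hc b) (h a l) (abs_nonneg _) hr
      calc _ ≤ |(v a - w a) * hs g b l v| + |(v b - w b) * hs g a l v| := abs_sub _ _
        _ ≤ _ := by linarith
    have h4 : |(v a - w a) * hs g b l v - (v b - w b) * hs g a l v| ^ 2 ≤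
        (2 * (‖v - w‖ * M)) ^ 2 := pow_le_pow_left₀ (abs_nonneg _) h1 2
    rw [sq_abs] at h4
    refine h4.trans (le_of_eq ?_)
    ring
  unfold HZ
  calc _ ≤ ∑ _a : Fin 3, ∑ _b : Fin 3, ∑ _l : Fin 3, 4 * M ^ 2 * ‖v - w‖ ^ 2 :=
        Finset.sum_le_sum fun a _ => Finset.sum_le_sum fun b _ => Finset.sum_le_sum fun l _ =>
          ht a b l
    _ = _ := by
        simp only [Finset.sum_const, Finset.card_univ, Fintype.card_fin, nsmul_eq_mul]
        push_cast
        ring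

/-- the density of the far dissipation -/
noncomputable def xfD (ϱ : V → ℝ) (δ : ℝ) (φ g : V → ℝ) (p : V × V) : ℝ :=
  φ p.1 * FF g p * (1 - eta ϱ δ p) * HZ g p.1 p.2 / ‖p.1 - p.2‖ ^ 3

/-- the density of the far errors -/
noncomputable def xfE (ϱ : V → ℝ) (φ g : V → ℝ) (p : V × V) : ℝ :=
  φ p.1 * FF g p * (x2 g p.1 * (kF ϱ p.1 p.2 / ϱ p.1 ^ 2) + kF ϱ p.1 p.2 / ϱ p.1 ^ 4)

theorem xf_FF_nonneg {g : V → ℝ} (hg : Dn g) (p : V × V) : 0 ≤ FF g p :=
  mul_nonneg (hg.pos _).le (hg.pos _).le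

theorem xf_FF_le {g : V → ℝ} (hg : Dn g) (p : V × V) : FF g p ≤ 1 :=
  mul_le_one₀ (hg.cls.le_one _) (hg.pos _).le (hg.cls.le_one _)

theorem xfD_nonneg {ε₀ : ℝ} {φ ϱ κ g : V → ℝ} (hA : Adm ε₀ φ ϱ κ) (hg : Dn g) (δ : ℝ)
    (p : V × V) : 0 ≤ xfD ϱ δ φ g p := by
  unfold xfD
  have h1 := hA.nonneg p.1
  have h2 := xf_FF_nonneg hg p
  have h3 := eta_le_one ϱ δ p
  have h4 := xf_HZ_nonneg g p.1 p.2
  have h5 : 0 ≤ 1 - eta ϱ δ p := by linarith
  positivity

theorem xf_kF_nonneg (ϱ : V → ℝ) (v w : V) : 0 ≤ kF ϱ v w := by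
  unfold kF
  split_ifs
  · positivity
  · exact le_refl _

theorem xf_kN_nonneg (ϱ : V → ℝ) (v w : V) : 0 ≤ kN ϱ v w := by
  unfold kN
  split_ifs
  · positivity
  · exact le_refl _

theorem xf_x2_nonneg (g : V → ℝ) (v : V) : 0 ≤ x2 g v :=
  Finset.sum_nonneg fun _ _ => sq_nonneg _

theorem xfE_nonneg {ε₀ : ℝ} {φ ϱ κ g : V → ℝ} (hA : Adm ε₀ φ ϱ κ) (hg : Dn g)
    (p : V × V) : 0 ≤ xfE ϱ φ g p := by
  unfold xfE
  have h1 := hA.nonneg p.1
  have h2 := xf_FF_nonneg hg p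
  have h3 := xf_kF_nonneg ϱ p.1 p.2
  have h4 := xf_x2_nonneg g p.1
  positivity

theorem xfD_meas {ε₀ : ℝ} {φ ϱ κ g : V → ℝ} (hA : Adm ε₀ φ ϱ κ) (hg : Dn g) {δ : ℝ}
    (hδ : 0 < δ) : Measurable (xfD ϱ δ φ g) := by
  have h1 : Continuous (fun p : V × V => φ p.1) := hA.smooth.continuous.comp continuous_fst
  have h2 : Continuous (FF g) := (FF_smooth hg).continuous
  have h3 : Continuous (eta ϱ δ) := (eta_smooth hA.rsmooth hδ).continuous
  have h4 := xf_HZ_cont hg
  have h5 : Continuous (fun p : V × V => ‖p.1 - p.2‖ ^ 3) := by fun_prop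
  unfold xfD
  exact ((((h1.mul h2).mul (continuous_const.sub h3)).mul h4).measurable).div h5.measurable

theorem xf_kF_meas {ε₀ : ℝ} {φ ϱ κ : V → ℝ} (hA : Adm ε₀ φ ϱ κ) :
    Measurable (fun p : V × V => kF ϱ p.1 p.2) := by
  unfold kF
  have h1 : Continuous (fun p : V × V => ϱ p.1) := (xf_rho_cont hA).comp continuous_fst
  have h2 : Continuous (fun p : V × V => ‖p.1 - p.2‖) := by fun_prop
  refine Measurable.ite ?_ ?_ measurable_const
  · exact measurableSet_le h1.measurable (continuous_const.mul h2).measurable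
  · exact measurable_const.div h2.measurable

theorem xf_kN_meas {ε₀ : ℝ} {φ ϱ κ : V → ℝ} (hA : Adm ε₀ φ ϱ κ) :
    Measurable (fun p : V × V => kN ϱ p.1 p.2) := by
  unfold kN
  have h1 : Continuous (fun p : V × V => ϱ p.1) := (xf_rho_cont hA).comp continuous_fst
  have h2 : Continuous (fun p : V × V => ‖p.1 - p.2‖) := by fun_prop
  refine Measurable.ite ?_ ?_ measurable_const
  · exact measurableSet_le h2.measurable (continuous_const.mul h1).measurable
  · exact measurable_const.div (h2.pow 2).measurable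

theorem xf_x2_cont {g : V → ℝ} (hg : Dn g) : Continuous (x2 g) := by
  unfold x2
  exact continuous_finset_sum _ fun i _ => (gam_smooth hg i).continuous.pow 2

theorem xfE_meas {ε₀ : ℝ} {φ ϱ κ g : V → ℝ} (hA : Adm ε₀ φ ϱ κ) (hg : Dn g) :
    Measurable (xfE ϱ φ g) := by
  have h1 : Continuous (fun p : V × V => φ p.1) := hA.smooth.continuous.comp continuous_fst
  have h2 : Continuous (FF g) := (FF_smooth hg).continuous
  have h3 := xf_kF_meas hA
  have h4 : Continuous (fun p : V × V => x2 g p.1) := (xf_x2_cont hg).comp continuous_fst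
  have h5 : Continuous (fun p : V × V => ϱ p.1) := (xf_rho_cont hA).comp continuous_fst
  unfold xfE
  exact (h1.mul h2).measurable.mul
    ((h4.measurable.mul (h3.div (h5.measurable.pow_const 2))).add
      (h3.div (h5.measurable.pow_const 4)))

/-- the errors are bounded by `ER` -/
theorem xfE_le {ε₀ : ℝ} {φ ϱ κ g : V → ℝ} (hA : Adm ε₀ φ ϱ κ) (hg : Dn g) :
    ∫⁻ p, ENNReal.ofReal (xfE ϱ φ g p) ∂((volume : Measure V).prod volume) ≤ ER φ ϱ κ g := by
  rw [lintegral_prod _ (xfE_meas hA hg).ennreal_ofReal.aemeasurable]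
  unfold ER
  refine lintegral_mono fun v => lintegral_mono fun w => ENNReal.ofReal_le_ofReal ?_
  unfold xfE FF
  simp only
  have h1 := hA.nonneg v
  have h2 := (hg.pos v).le
  have h2' := (hg.pos w).le
  have h3 := xf_kF_nonneg ϱ v w
  have h3' := xf_kN_nonneg ϱ v w
  have h4 := xf_x2_nonneg g v
  have h5 := hA.knonneg v
  have e1 : φ v * g v * g w = φ v * (g v * g w) := by ring
  rw [e1]
  refine mul_le_mul_of_nonneg_left ?_ (by positivity)
  refine add_le_add ?_ le_rfl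
  refine mul_le_mul_of_nonneg_left ?_ h4
  have : 0 ≤ κ v * kN ϱ v w := mul_nonneg h5 h3'
  linarith

/-- crude bound of the dissipation density on the pairs with `ϱ(mid) ≤ δ` -/
theorem xfD_crude {ε₀ : ℝ} (hε : ε₀ ≤ 1 / 100) {φ ϱ κ g : V → ℝ} (hA : Adm ε₀ φ ϱ κ)
    (hg : Dn g) : ∃ K R : ℝ, 0 < K ∧ 0 < R ∧ ∀ (δ : ℝ) (p : V × V), 0 < δ → δ ≤ 1 →
      p.1 ≠ p.2 → ϱ (mid p.1 p.2) ≤ δ → ‖p.1 - p.2‖ ^ 2 ≤ SS ϱ δ p →
      xfD ϱ δ φ g p ≤ if ‖p.1‖ ≤ R then K * δ else 0 := by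
  obtain ⟨Kd, hKd⟩ := hA.dom
  obtain ⟨R, hR0, hR⟩ : ∃ R : ℝ, 0 < R ∧ ∀ v, φ v ≠ 0 → ‖v‖ ≤ R := by
    obtain ⟨R, hR⟩ := hA.compact.isCompact.isBounded.subset_closedBall (0 : V)
    refine ⟨max R 1, lt_of_lt_of_le one_pos (le_max_right _ _), fun v hv => ?_⟩
    have h1 : v ∈ Metric.closedBall (0 : V) R := hR (subset_tsupport _ hv)
    rw [mem_closedBall_zero_iff] at h1
    exact h1.trans (le_max_left _ _)
  obtain ⟨M, hM0, hM⟩ : ∃ M : ℝ, 0 < M ∧ ∀ v : V, ‖v‖ ≤ R → ∀ i j : Fin 3,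
      |hs g i j v| ≤ M := by
    have h1 : Continuous (fun v => ∑ i : Fin 3, ∑ j : Fin 3, |hs g i j v|) :=
      continuous_finset_sum _ fun i _ => continuous_finset_sum _ fun j _ =>
        (xf_hs_cont hg i j).abs
    obtain ⟨M, hM⟩ := (isCompact_closedBall (0 : V) R).exists_bound_of_continuousOn
      h1.continuousOn
    refine ⟨max M 1, lt_of_lt_of_le one_pos (le_max_right _ _), fun v hv i j => ?_⟩
    have h2 := hM v (mem_closedBall_zero_iff.2 hv)
    have h3 : |hs g i j v| ≤ ∑ i : Fin 3, ∑ j : Fin 3, |hs g i j v| := by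
      calc |hs g i j v| ≤ ∑ j : Fin 3, |hs g i j v| :=
            Finset.single_le_sum (f := fun j => |hs g i j v|) (fun _ _ => abs_nonneg _)
              (Finset.mem_univ j)
        _ ≤ _ := Finset.single_le_sum (f := fun i => ∑ j : Fin 3, |hs g i j v|)
              (fun _ _ => Finset.sum_nonneg fun _ _ => abs_nonneg _) (Finset.mem_univ i)
    exact h3.trans ((le_abs_self _).trans ((Real.norm_eq_abs _ ▸ h2).trans (le_max_left _ _)))
  refine ⟨(|Kd| + 1) * 729 * (108 * M ^ 2) * 2, R, by positivity, hR0, ?_⟩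
  intro δ p hδ hδ1 hne hmid hSS
  have hr : 0 < ‖p.1 - p.2‖ := norm_pos_iff.2 (sub_ne_zero.2 hne)
  by_cases hφ : φ p.1 = 0
  · have : xfD ϱ δ φ g p = 0 := by
      unfold xfD
      rw [hφ]
      ring
    rw [this]
    split_ifs
    · positivity
    · exact le_refl _
  rw [if_pos (hR _ hφ)]
  by_cases h4 : 4 * ‖p.1 - p.2‖ ^ 2 ≤ SS ϱ δ p
  · have : xfD ϱ δ φ g p = 0 := by
      unfold xfD
      rw [eta_one hδ h4]
      ring
    rw [this]
    positivity
  rw [not_le] at h4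
  have hmid0 := hA.rnonneg (mid p.1 p.2)
  have hSl : SS ϱ δ p ≤ 2 * δ ^ 2 := by
    unfold SS
    have := pow_le_pow_left₀ hmid0 hmid 2
    linarith
  have hSg : δ ^ 2 ≤ SS ϱ δ p := by
    unfold SS
    have := sq_nonneg (ϱ (mid p.1 p.2))
    linarith
  have hrδ : δ / 2 ≤ ‖p.1 - p.2‖ := by
    nlinarith
  have hr2 : ‖p.1 - p.2‖ ≤ 2 * δ := by
    nlinarith
  have hρ : ϱ p.1 ≤ 3 * δ := by
    have h5 := hA.rlip p.1 (mid p.1 p.2)
    have h6 : ‖p.1 - mid p.1 p.2‖ = ‖p.1 - p.2‖ / 2 := by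
      have h : p.1 - mid p.1 p.2 = (1 / 2 : ℝ) • (p.1 - p.2) := by
        unfold mid
        module
      rw [h, norm_smul, Real.norm_of_nonneg (by norm_num)]
      ring
    rw [h6] at h5
    have h7 := (abs_le.1 h5).2
    nlinarith
  have hφ6 : φ p.1 ≤ (|Kd| + 1) * (3 * δ) ^ 6 := by
    refine (hKd p.1).trans ?_
    have h5 : ϱ p.1 ^ 6 ≤ (3 * δ) ^ 6 := pow_le_pow_left₀ (hA.rnonneg _) hρ 6
    have h6 : 0 ≤ ϱ p.1 ^ 6 := pow_nonneg (hA.rnonneg _) 6
    have h7 := le_abs_self Kd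
    have h8 := abs_nonneg Kd
    nlinarith
  have hHZ := xf_HZ_le (g := g) hM0.le p.1 p.2 (hM p.1 (hR _ hφ))
  have hφ0 := hA.nonneg p.1
  have hF0 := xf_FF_nonneg hg p
  have hF1 := xf_FF_le hg p
  have he1 := eta_le_one ϱ δ p
  have he0 := eta_nonneg ϱ δ p
  have hH0 := xf_HZ_nonneg g p.1 p.2
  have h8 : φ p.1 * FF g p * (1 - eta ϱ δ p) * HZ g p.1 p.2 ≤
      (|Kd| + 1) * (3 * δ) ^ 6 * (108 * M ^ 2 * ‖p.1 - p.2‖ ^ 2) := by
    have h9 : φ p.1 * FF g p * (1 - eta ϱ δ p) ≤ φ p.1 := by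
      have h10 : FF g p * (1 - eta ϱ δ p) ≤ 1 := by
        nlinarith
      calc _ = φ p.1 * (FF g p * (1 - eta ϱ δ p)) := by ring
        _ ≤ φ p.1 * 1 := mul_le_mul_of_nonneg_left h10 hφ0
        _ = φ p.1 := mul_one _
    exact mul_le_mul (h9.trans hφ6) hHZ hH0 (by positivity)
  unfold xfD
  rw [div_le_iff₀ (by positivity)]
  refine h8.trans ?_
  have h11 : δ ^ 6 ≤ 2 * δ * ‖p.1 - p.2‖ := by
    have h12 : δ ^ 6 ≤ δ ^ 2 := pow_le_pow_of_le_one hδ.le hδ1 (by norm_num)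
    nlinarith
  have h13 : (|Kd| + 1) * (3 * δ) ^ 6 * (108 * M ^ 2 * ‖p.1 - p.2‖ ^ 2) =
      (|Kd| + 1) * 729 * (108 * M ^ 2) * ‖p.1 - p.2‖ ^ 2 * δ ^ 6 := by ring
  have h14 : (|Kd| + 1) * 729 * (108 * M ^ 2) * 2 * δ * ‖p.1 - p.2‖ ^ 3 =
      (|Kd| + 1) * 729 * (108 * M ^ 2) * ‖p.1 - p.2‖ ^ 2 * (2 * δ * ‖p.1 - p.2‖) := by ring
  rw [h13, h14]
  exact mul_le_mul_of_nonneg_left h11 (by positivity)

/-- The far estimate. -/
theorem far_fin : ∃ C ε₀ : ℝ, 0 < C ∧ 0 < ε₀ ∧ ε₀ ≤ 1 / 100 ∧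
    ∀ φ ϱ κ g : V → ℝ, Adm ε₀ φ ϱ κ → Dn g → ∃ K : ℝ, 0 < K ∧ ∀ (δ A B : ℝ),
      0 < δ → δ ≤ 1 → 0 ≤ A → 0 ≤ B → ER φ ϱ κ g ≤ ENNReal.ofReal A →
      ENNReal.ofReal B ≤ DFe ϱ δ φ g →
      ∫ p, F0 ϱ δ φ g p ∂((volume : Measure V).prod volume) ≤
        C * A + K * δ - (1 / 100) * B := by
  obtain ⟨C, ε₁, hC, hε1, hpt⟩ := far_pt
  refine ⟨C, min ε₁ (1 / 100), hC, lt_min hε1 (by norm_num), min_le_right _ _, ?_⟩
  intro φ ϱ κ g hA hg
  have hA1 : Adm ε₁ φ ϱ κ := hA.mono (min_le_left _ _)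
  have hε : min ε₁ (1 / 100) ≤ 1 / 100 := min_le_right _ _
  obtain ⟨K₁, R₁, hK1, hR1, hcr⟩ := far_crude hε hA hg
  obtain ⟨K₂, R₂, hK2, hR2, hcd⟩ := xfD_crude hε hA hg
  set R := max R₁ R₂ with hRdef
  set W : Set (V × V) := Metric.closedBall (0 : V) R ×ˢ Metric.closedBall (0 : V) (R + 2)
    with hW
  have hWm : MeasurableSet W :=
    Metric.isClosed_closedBall.measurableSet.prod Metric.isClosed_closedBall.measurableSet
  have hWfin : ((volume : Measure V).prod volume) W < ⊤ := by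
    rw [hW, Measure.prod_prod]
    exact ENNReal.mul_lt_top (isCompact_closedBall (0 : V) R).measure_lt_top
      (isCompact_closedBall (0 : V) (R + 2)).measure_lt_top
  set m := (((volume : Measure V).prod volume) W).toReal with hm
  have hm0 : 0 ≤ m := ENNReal.toReal_nonneg
  refine ⟨(K₁ + K₂) * m + 1, by positivity, ?_⟩
  intro δ A B hδ hδ1 hA0 hB0 hER hDF
  rw [far_int hε hA hg hδ]
  have hInt := InF_int hε hA hg hδ
  have hEint : Integrable (xfE ϱ φ g) ((volume : Measure V).prod volume) := by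
    refine ⟨(xfE_meas hA hg).aestronglyMeasurable, ?_⟩
    rw [hasFiniteIntegral_iff_ofReal (Eventually.of_forall fun p => xfE_nonneg hA hg p)]
    exact lt_of_le_of_lt ((xfE_le hA hg).trans hER) ENNReal.ofReal_lt_top
  have hWint : Integrable (W.indicator (fun _ => (K₁ + K₂) * δ))
      ((volume : Measure V).prod volume) := by
    rw [integrable_indicator_iff hWm]
    exact integrableOn_const hWfin.ne
  have hbound : ∀ᵐ p ∂((volume : Measure V).prod volume),
      InF ϱ δ φ g p + (1 / 100) * xfD ϱ δ φ g p ≤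
        C * xfE ϱ φ g p + W.indicator (fun _ => (K₁ + K₂) * δ) p := by
    filter_upwards [xf_ae_ne] with p hne
    have hind : 0 ≤ W.indicator (fun _ => (K₁ + K₂) * δ) p :=
      Set.indicator_nonneg (fun _ _ => by positivity) p
    by_cases hgood : δ < ϱ (mid p.1 p.2) ∨ SS ϱ δ p < ‖p.1 - p.2‖ ^ 2
    · have h1 := hpt φ ϱ κ g hA1 hg δ p hδ hne hgood
      unfold xfD xfE
      linarith
    · push Not at hgood
      obtain ⟨h1, h2⟩ := hgood
      have h3 := hcr δ p hδ hδ1 hne h1 h2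
      have h4 := hcd δ p hδ hδ1 hne h1 h2
      have h5 := le_abs_self (InF ϱ δ φ g p)
      have hE0 := mul_nonneg hC.le (xfE_nonneg hA hg p)
      have hD0 := xfD_nonneg hA hg δ p
      have hmid0 := hA.rnonneg (mid p.1 p.2)
      have hr2 : ‖p.1 - p.2‖ ≤ 2 := by
        have hSl : SS ϱ δ p ≤ 2 * δ ^ 2 := by
          unfold SS
          have := pow_le_pow_left₀ hmid0 h1 2
          linarith
        nlinarith [norm_nonneg (p.1 - p.2)]
      by_cases hp : ‖p.1‖ ≤ R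
      · have hpW : p ∈ W := by
          rw [hW, Set.mem_prod, mem_closedBall_zero_iff, mem_closedBall_zero_iff]
          refine ⟨hp, ?_⟩
          have h6 : ‖p.2‖ ≤ ‖p.1‖ + ‖p.1 - p.2‖ := by
            have : p.2 = p.1 - (p.1 - p.2) := by abel
            calc ‖p.2‖ = ‖p.1 - (p.1 - p.2)‖ := by rw [← this]
              _ ≤ _ := norm_sub_le _ _
          linarith
        rw [Set.indicator_of_mem hpW]
        have h7 : |InF ϱ δ φ g p| ≤ K₁ * δ := by
          refine h3.trans ?_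
          split_ifs
          · exact le_refl _
          · positivity
        have h8 : xfD ϱ δ φ g p ≤ K₂ * δ := by
          refine h4.trans ?_
          split_ifs
          · exact le_refl _
          · positivity
        linarith
      · have h6 : ¬ ‖p.1‖ ≤ R₁ := fun h => hp (h.trans (le_max_left _ _))
        have h7 : ¬ ‖p.1‖ ≤ R₂ := fun h => hp (h.trans (le_max_right _ _))
        rw [if_neg h6] at h3
        rw [if_neg h7] at h4
        linarith
  have hDint : Integrable (xfD ϱ δ φ g) ((volume : Measure V).prod volume) := by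
    have hrhs : Integrable (fun p => 100 * (C * xfE ϱ φ g p +
        W.indicator (fun _ => (K₁ + K₂) * δ) p - InF ϱ δ φ g p))
        ((volume : Measure V).prod volume) :=
      (((hEint.const_mul C).add hWint).sub hInt).const_mul 100
    refine hrhs.mono' (xfD_meas hA hg hδ).aestronglyMeasurable ?_
    filter_upwards [hbound] with p hp
    rw [Real.norm_of_nonneg (xfD_nonneg hA hg δ p)]
    linarith
  have hEle : ∫ p, xfE ϱ φ g p ∂((volume : Measure V).prod volume) ≤ A := by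
    rw [integral_eq_lintegral_of_nonneg_ae (Eventually.of_forall fun p => xfE_nonneg hA hg p)
      (xfE_meas hA hg).aestronglyMeasurable]
    exact ENNReal.toReal_le_of_le_ofReal hA0 ((xfE_le hA hg).trans hER)
  have hDge : B ≤ ∫ p, xfD ϱ δ φ g p ∂((volume : Measure V).prod volume) := by
    have h1 : DFe ϱ δ φ g =
        ENNReal.ofReal (∫ p, xfD ϱ δ φ g p ∂((volume : Measure V).prod volume)) := by
      rw [ofReal_integral_eq_lintegral_ofReal hDint
        (Eventually.of_forall fun p => xfD_nonneg hA hg δ p)]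
      rfl
    rw [h1] at hDF
    exact (ENNReal.ofReal_le_ofReal_iff
      (integral_nonneg fun p => xfD_nonneg hA hg δ p)).1 hDF
  have hWi : ∫ p, W.indicator (fun _ => (K₁ + K₂) * δ) p ∂((volume : Measure V).prod volume) =
      m * ((K₁ + K₂) * δ) := by
    rw [integral_indicator hWm, setIntegral_const, smul_eq_mul]
    rfl
  have hmono := integral_mono_ae (hInt.add (hDint.const_mul (1 / 100)))
    ((hEint.const_mul C).add hWint) hbound
  simp only [Pi.add_apply] at hmono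
  rw [integral_add hInt (hDint.const_mul (1 / 100)), integral_const_mul,
    integral_add (hEint.const_mul C) hWint, integral_const_mul, hWi] at hmono
  have h9 : C * ∫ p, xfE ϱ φ g p ∂((volume : Measure V).prod volume) ≤ C * A :=
    mul_le_mul_of_nonneg_left hEle hC.le
  nlinarith

end Pool.Agent.LandauF
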