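import Pool.Agent.LandauF.NLim
import Pool.Agent.LandauF.XFin
import Pool.Agent.LandauF.LAlg

/-!
# LandauF, module LFat: lower limit of the dissipations

Pointwise (`v ≠ w`), as `δ → 0`:
(i) if `ϱ(mid) = 0`: `eta ϱ δ p → 0` (it is `0` once `δ ≤ r`), the far integrand tends to `φ(v) F HZ/r³`;
(ii) if `0 < ϱ(mid) ≤ r`: `eta → 0` too (`r²/(ϱ² + δ²) → r²/ϱ² ≥ 1`, `chN` continuous, `chN x = 0` for `x ≥ 1`);
(iii) if `r < ϱ(mid)`: `eta → η₀ = chN(r²/ϱ²)`, `φ(mid) ≥ ½ φ(v)` (if `φ(v) ≠ 0`: `mid` is in the ball of radius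
`2 ϱ(v)`, module NAdm `weight_cmp`), `TQ ≤ ½ r² WD`, `TQ ≤ ½ r² HZ`, so
`(1/(2π)) η₀ φ(mid) F WD/r³ + φ(v) (1 - η₀) F HZ/r³ ≥ (1/(2π)) φ(v) F TQ/r⁵`.
In cases (i), (ii): `HZ/r³ ≥ ½ HZ/r³ + TQ/r⁵`.  Fatou (`lintegral_liminf_le`).
-/

set_option autoImplicit false

namespace Pool.Agent.LandauF

open MeasureTheory Set Filter Topology Pool.Agent.Landau

namespace LFatAux

variable {g : V → ℝ}

theorem gam_cd (hg : Dn g) (i : Fin 3) : ContDiff ℝ (⊤ : ℕ∞) (gam i g) :=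
  (smooth_pd hg.cls.smooth i).div hg.cls.smooth fun v => (hg.pos v).ne'

theorem hs_ct (hg : Dn g) (i j : Fin 3) : Continuous (hs g i j) :=
  (smooth_pd (gam_cd hg j) i).continuous

theorem rho_cont {ε₀ : ℝ} (hε : ε₀ ≤ 1 / 100) {φ ϱ κ : V → ℝ} (hA : Adm ε₀ φ ϱ κ) :
    Continuous ϱ := by
  have h : LipschitzWith 1 ϱ := by
    refine LipschitzWith.of_dist_le_mul fun v w => ?_
    rw [Real.dist_eq, dist_eq_norm, NNReal.coe_one]
    refine (hA.rlip v w).trans (mul_le_mul_of_nonneg_right ?_ (norm_nonneg _))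
    linarith
  exact h.continuous

theorem mid_ct : Continuous (fun p : V × V => mid p.1 p.2) := by
  unfold mid
  fun_prop

theorem TQ_ct (hg : Dn g) : Continuous (fun p : V × V => TQ g p.1 p.2) := by
  have h1 : ∀ i j, Continuous (fun p : V × V => hs g i j p.1) := fun i j =>
    (hs_ct hg i j).comp continuous_fst
  unfold TQ h2 zhz hz trh
  fun_prop

theorem HZ_ct (hg : Dn g) : Continuous (fun p : V × V => HZ g p.1 p.2) := by
  have h1 : ∀ i j, Continuous (fun p : V × V => hs g i j p.1) := fun i j =>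
    (hs_ct hg i j).comp continuous_fst
  unfold HZ
  fun_prop

theorem WD_ct (hg : Dn g) : Continuous (fun p : V × V => WD g p.1 p.2) := by
  have h1 : ∀ i j, Continuous (fun p : V × V => hs g i j p.1) := fun i j =>
    (hs_ct hg i j).comp continuous_fst
  have h2 : ∀ i, Continuous (fun p : V × V => gam i g p.1) := fun i =>
    (gam_cd hg i).continuous.comp continuous_fst
  have h3 : ∀ i, Continuous (fun p : V × V => gam i g p.2) := fun i =>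
    (gam_cd hg i).continuous.comp continuous_snd
  unfold WD DX
  fun_prop

theorem dpos (n : ℕ) : (0 : ℝ) < 1 / ((n : ℝ) + 1) := by positivity

/-- limit of the cutoff -/
theorem eta_lim (ϱ : V → ℝ) (h0 : ∀ v, 0 ≤ ϱ v) (p : V × V) (hr : 0 < ‖p.1 - p.2‖) :
    Tendsto (fun n : ℕ => eta ϱ (1 / ((n : ℝ) + 1)) p) atTop
      (𝓝 (if ϱ (mid p.1 p.2) ≤ ‖p.1 - p.2‖ then 0 else
        chN (‖p.1 - p.2‖ ^ 2 / ϱ (mid p.1 p.2) ^ 2))) := by
  have hδ : Tendsto (fun n : ℕ => 1 / ((n : ℝ) + 1)) atTop (𝓝 0) :=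
    tendsto_one_div_add_atTop_nhds_zero_nat
  rcases (h0 (mid p.1 p.2)).eq_or_lt with hm | hm
  · rw [if_pos (by rw [← hm]; exact hr.le)]
    refine Tendsto.congr' ?_ tendsto_const_nhds
    filter_upwards [hδ.eventually_lt_const hr] with n hn
    refine (eta_zero (dpos n) ?_).symm
    unfold SS
    rw [← hm]
    have := dpos n
    nlinarith
  · have h1 : Tendsto (fun n : ℕ => eta ϱ (1 / ((n : ℝ) + 1)) p) atTop
        (𝓝 (chN (‖p.1 - p.2‖ ^ 2 / ϱ (mid p.1 p.2) ^ 2))) := by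
      have h2 : Tendsto (fun n : ℕ => ϱ (mid p.1 p.2) ^ 2 + (1 / ((n : ℝ) + 1)) ^ 2) atTop
          (𝓝 (ϱ (mid p.1 p.2) ^ 2 + 0 ^ 2)) := tendsto_const_nhds.add (hδ.pow 2)
      have h3 : ϱ (mid p.1 p.2) ^ 2 + (0 : ℝ) ^ 2 = ϱ (mid p.1 p.2) ^ 2 := by ring
      rw [h3] at h2
      have h4 := (tendsto_const_nhds (x := ‖p.1 - p.2‖ ^ 2)).div h2 (by positivity)
      exact (chN_smooth.continuous.tendsto _).comp h4
    by_cases hle : ϱ (mid p.1 p.2) ≤ ‖p.1 - p.2‖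
    · rw [if_pos hle]
      rw [chN_zero] at h1
      · exact h1
      · rw [one_le_div (by positivity)]
        exact pow_le_pow_left₀ hm.le hle 2
    · rw [if_neg hle]
      exact h1

/-- the limit of the near integrand -/
noncomputable def fN (ϱ : V → ℝ) (δ : ℝ) (φ g : V → ℝ) (p : V × V) : ENNReal :=
  ENNReal.ofReal (if δ < ϱ (mid p.1 p.2) then
    (1 / (2 * Real.pi)) / ‖p.1 - p.2‖ ^ 3 * eta ϱ δ p * FF g p * φ (mid p.1 p.2) *
      (WD g p.1 p.2 + WD g p.2 p.1) else 0)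

noncomputable def fF (ϱ : V → ℝ) (δ : ℝ) (φ g : V → ℝ) (p : V × V) : ENNReal :=
  ENNReal.ofReal (φ p.1 * FF g p * (1 - eta ϱ δ p) * HZ g p.1 p.2 / ‖p.1 - p.2‖ ^ 3)

noncomputable def dA (φ g : V → ℝ) (p : V × V) : ENNReal :=
  ENNReal.ofReal (φ p.1 * g p.1 * g p.2 * TQ g p.1 p.2 / ‖p.1 - p.2‖ ^ 5)

noncomputable def dB (φ ϱ g : V → ℝ) (p : V × V) : ENNReal :=
  ENNReal.ofReal (if ϱ (mid p.1 p.2) ≤ ‖p.1 - p.2‖ then
    φ p.1 * g p.1 * g p.2 * HZ g p.1 p.2 / ‖p.1 - p.2‖ ^ 3 else 0)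

theorem fF_lim {φ ϱ : V → ℝ} (h0 : ∀ v, 0 ≤ ϱ v) (p : V × V) (hr : 0 < ‖p.1 - p.2‖) :
    Tendsto (fun n : ℕ => fF ϱ (1 / ((n : ℝ) + 1)) φ g p) atTop
      (𝓝 (ENNReal.ofReal (φ p.1 * FF g p * (1 - (if ϱ (mid p.1 p.2) ≤ ‖p.1 - p.2‖ then 0 else
        chN (‖p.1 - p.2‖ ^ 2 / ϱ (mid p.1 p.2) ^ 2))) * HZ g p.1 p.2 / ‖p.1 - p.2‖ ^ 3))) := by
  unfold fF
  refine ENNReal.tendsto_ofReal ?_
  exact ((tendsto_const_nhds.mul (tendsto_const_nhds.sub (eta_lim ϱ h0 p hr))).mul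
    tendsto_const_nhds).div_const _

theorem ptw_far {ε₀ : ℝ} {φ ϱ κ : V → ℝ} (hA : Adm ε₀ φ ϱ κ)
    (hg : Dn g) (p : V × V) (hr : 0 < ‖p.1 - p.2‖) (hle : ϱ (mid p.1 p.2) ≤ ‖p.1 - p.2‖) :
    ENNReal.ofReal (1 / 7) * (dA φ g p + dB φ ϱ g p) ≤
      liminf (fun n : ℕ => fN ϱ (1 / ((n : ℝ) + 1)) φ g p + fF ϱ (1 / ((n : ℝ) + 1)) φ g p)
        atTop := by
  have hl := (fF_lim (g := g) (φ := φ) hA.rnonneg p hr).liminf_eq
  rw [if_pos hle] at hl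
  have h1 : liminf (fun n : ℕ => fF ϱ (1 / ((n : ℝ) + 1)) φ g p) atTop ≤
      liminf (fun n : ℕ => fN ϱ (1 / ((n : ℝ) + 1)) φ g p + fF ϱ (1 / ((n : ℝ) + 1)) φ g p)
        atTop := liminf_le_liminf (Eventually.of_forall fun n => le_add_self)
  refine le_trans ?_ h1
  rw [hl]
  unfold dA dB FF
  rw [if_pos hle]
  have hφ := hA.nonneg p.1
  have hg1 := (hg.pos p.1).le
  have hg2 := (hg.pos p.2).le
  have hT := TQ_nonneg g (fun i j v => hs_symm hg i j v) p.1 p.2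
  have hH := HZ_nonneg g p.1 p.2
  have hTH := TQ_le_HZ g (fun i j v => hs_symm hg i j v) p.1 p.2
  set r := ‖p.1 - p.2‖ with hrdef
  have e1 : φ p.1 * g p.1 * g p.2 * TQ g p.1 p.2 / r ^ 5 ≤
      (1 / 2) * (φ p.1 * g p.1 * g p.2 * HZ g p.1 p.2 / r ^ 3) := by
    have e2 : (1 / 2) * (φ p.1 * g p.1 * g p.2 * HZ g p.1 p.2 / r ^ 3) =
        φ p.1 * g p.1 * g p.2 * ((1 / 2) * (r ^ 2 * HZ g p.1 p.2)) / r ^ 5 := by
      field_simp
    rw [e2]
    refine div_le_div_of_nonneg_right ?_ (by positivity)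
    refine mul_le_mul_of_nonneg_left ?_ (by positivity)
    linarith
  have e0 : 0 ≤ φ p.1 * g p.1 * g p.2 * HZ g p.1 p.2 / r ^ 3 := by positivity
  rw [← ENNReal.ofReal_add (by positivity) e0, ← ENNReal.ofReal_mul (by norm_num)]
  refine ENNReal.ofReal_le_ofReal ?_
  have e3 : φ p.1 * (g p.1 * g p.2) * (1 - 0) * HZ g p.1 p.2 / r ^ 3 =
      φ p.1 * g p.1 * g p.2 * HZ g p.1 p.2 / r ^ 3 := by ring
  rw [e3]
  linarith

theorem ptw_near {ε₀ : ℝ} (hε : ε₀ ≤ 1 / 100) {φ ϱ κ : V → ℝ} (hA : Adm ε₀ φ ϱ κ)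
    (hg : Dn g) (p : V × V) (hr : 0 < ‖p.1 - p.2‖) (hle : ¬ ϱ (mid p.1 p.2) ≤ ‖p.1 - p.2‖) :
    ENNReal.ofReal (1 / 7) * (dA φ g p + dB φ ϱ g p) ≤
      liminf (fun n : ℕ => fN ϱ (1 / ((n : ℝ) + 1)) φ g p + fF ϱ (1 / ((n : ℝ) + 1)) φ g p)
        atTop := by
  have hm : ‖p.1 - p.2‖ < ϱ (mid p.1 p.2) := not_le.1 hle
  have hm0 : 0 < ϱ (mid p.1 p.2) := hr.trans hm
  have hlF := fF_lim (g := g) (φ := φ) hA.rnonneg p hr
  have hlE := eta_lim ϱ hA.rnonneg p hr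
  rw [if_neg hle] at hlF hlE
  have hδ : Tendsto (fun n : ℕ => 1 / ((n : ℝ) + 1)) atTop (𝓝 0) :=
    tendsto_one_div_add_atTop_nhds_zero_nat
  set η := chN (‖p.1 - p.2‖ ^ 2 / ϱ (mid p.1 p.2) ^ 2) with hη
  have hη0 : 0 ≤ η := chN_nonneg _
  have hη1 : η ≤ 1 := chN_le_one _
  have hlN : Tendsto (fun n : ℕ => fN ϱ (1 / ((n : ℝ) + 1)) φ g p) atTop
      (𝓝 (ENNReal.ofReal ((1 / (2 * Real.pi)) / ‖p.1 - p.2‖ ^ 3 * η * FF g p *
        φ (mid p.1 p.2) * (WD g p.1 p.2 + WD g p.2 p.1)))) := by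
    have h1 : Tendsto (fun n : ℕ => ENNReal.ofReal ((1 / (2 * Real.pi)) / ‖p.1 - p.2‖ ^ 3 *
        eta ϱ (1 / ((n : ℝ) + 1)) p * FF g p *
        φ (mid p.1 p.2) * (WD g p.1 p.2 + WD g p.2 p.1))) atTop
        (𝓝 (ENNReal.ofReal ((1 / (2 * Real.pi)) / ‖p.1 - p.2‖ ^ 3 * η * FF g p *
        φ (mid p.1 p.2) * (WD g p.1 p.2 + WD g p.2 p.1)))) := by
      refine ENNReal.tendsto_ofReal ?_
      exact (((tendsto_const_nhds.mul hlE).mul tendsto_const_nhds).mul tendsto_const_nhds).mul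
        tendsto_const_nhds
    refine h1.congr' ?_
    filter_upwards [hδ.eventually_lt_const hm0] with n hn
    unfold fN
    rw [if_pos hn]
  have hl := (hlN.add hlF).liminf_eq
  rw [hl]
  unfold dA dB FF
  rw [if_neg hle, ENNReal.ofReal_zero, add_zero]
  have hφ := hA.nonneg p.1
  have hφm := hA.nonneg (mid p.1 p.2)
  have hg1 := (hg.pos p.1).le
  have hg2 := (hg.pos p.2).le
  have hT := TQ_nonneg g (fun i j v => hs_symm hg i j v) p.1 p.2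
  have hH := HZ_nonneg g p.1 p.2
  have hW := WD_nonneg g p.1 p.2
  have hW' := WD_nonneg g p.2 p.1
  have hTH := TQ_le_HZ g (fun i j v => hs_symm hg i j v) p.1 p.2
  have hTW := TQ_le_WD g (fun i j v => hs_symm hg i j v) p.1 p.2
  have hφc : (1 / 2) * φ p.1 ≤ φ (mid p.1 p.2) := by
    have l1 : |ϱ p.1 - ϱ (mid p.1 p.2)| ≤ (1 / 100) * (‖p.1 - p.2‖ / 2) := by
      rw [← NAdmAux.mid_sub_left]
      exact (hA.rlip _ _).trans (mul_le_mul_of_nonneg_right hε (norm_nonneg _))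
    have l2 : ‖mid p.1 p.2 - p.1‖ = ‖p.1 - p.2‖ / 2 := by
      rw [norm_sub_rev]
      exact NAdmAux.mid_sub_left _ _
    rw [abs_le] at l1
    have l3 : ‖mid p.1 p.2 - p.1‖ ≤ 2 * ϱ p.1 := by
      rw [l2]
      linarith [l1.1, l1.2]
    have l4 := (weight_cmp hε hA p.1 (mid p.1 p.2) (mid p.1 p.2) l3 l3).2.1
    have l5 : 6 * ε₀ * φ p.1 ≤ (6 / 100) * φ p.1 := by
      refine mul_le_mul_of_nonneg_right ?_ hφ
      linarith
    rw [abs_le] at l4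
    linarith [l4.1, l4.2]
  set r := ‖p.1 - p.2‖ with hrdef
  have hpi : (1 : ℝ) / 7 ≤ 1 / (2 * Real.pi) := by
    have := Real.pi_lt_d2
    have := Real.pi_pos
    refine one_div_le_one_div_of_le (by positivity) ?_
    linarith
  have a0 : 0 ≤ φ p.1 * g p.1 * g p.2 * TQ g p.1 p.2 / r ^ 5 := by positivity
  have x0 : 0 ≤ (1 / (2 * Real.pi)) / r ^ 3 * η * (g p.1 * g p.2) * φ (mid p.1 p.2) *
      (WD g p.1 p.2 + WD g p.2 p.1) := by
    have := Real.pi_pos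
    positivity
  have y0 : 0 ≤ φ p.1 * (g p.1 * g p.2) * (1 - η) * HZ g p.1 p.2 / r ^ 3 := by
    have : 0 ≤ 1 - η := by linarith
    positivity
  rw [← ENNReal.ofReal_add x0 y0, ← ENNReal.ofReal_mul (by norm_num)]
  refine ENNReal.ofReal_le_ofReal ?_
  set a := φ p.1 * g p.1 * g p.2 * TQ g p.1 p.2 / r ^ 5 with ha
  have x1 : (1 / 7) * (η * a) ≤ (1 / (2 * Real.pi)) / r ^ 3 * η * (g p.1 * g p.2) *
      φ (mid p.1 p.2) * (WD g p.1 p.2 + WD g p.2 p.1) := by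
    have s1 : (1 / 7) * (η * a) = (1 / 7) / r ^ 3 * η * (g p.1 * g p.2) *
        ((1 / 2) * φ p.1) * (2 * TQ g p.1 p.2 / r ^ 2) := by
      rw [ha]
      field_simp
    have s2 : 2 * TQ g p.1 p.2 / r ^ 2 ≤ WD g p.1 p.2 + WD g p.2 p.1 := by
      rw [div_le_iff₀ (by positivity)]
      nlinarith [mul_nonneg hW' (sq_nonneg r)]
    rw [s1]
    have := Real.pi_pos
    have s3 : (1 / 7 : ℝ) / r ^ 3 ≤ (1 / (2 * Real.pi)) / r ^ 3 :=
      div_le_div_of_nonneg_right hpi (by positivity)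
    have s4 : 0 ≤ 2 * TQ g p.1 p.2 / r ^ 2 := by positivity
    gcongr
  have y1 : (1 / 7) * ((1 - η) * a) ≤ φ p.1 * (g p.1 * g p.2) * (1 - η) * HZ g p.1 p.2 / r ^ 3 := by
    have h1η : 0 ≤ 1 - η := by linarith
    have s1 : 2 * ((1 - η) * a) ≤ φ p.1 * (g p.1 * g p.2) * (1 - η) * HZ g p.1 p.2 / r ^ 3 := by
      have s2 : φ p.1 * (g p.1 * g p.2) * (1 - η) * HZ g p.1 p.2 / r ^ 3 =
          φ p.1 * (g p.1 * g p.2) * (1 - η) * (r ^ 2 * HZ g p.1 p.2) / r ^ 5 := by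
        field_simp
      have s3 : 2 * ((1 - η) * a) =
          φ p.1 * (g p.1 * g p.2) * (1 - η) * (2 * TQ g p.1 p.2) / r ^ 5 := by
        rw [ha]
        ring
      rw [s2, s3]
      refine div_le_div_of_nonneg_right ?_ (by positivity)
      exact mul_le_mul_of_nonneg_left hTH (by positivity)
    have s5 : 0 ≤ (1 - η) * a := mul_nonneg h1η a0
    linarith
  calc (1 / 7) * a = (1 / 7) * (η * a) + (1 / 7) * ((1 - η) * a) := by ring
    _ ≤ _ := add_le_add x1 y1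

theorem ptw {ε₀ : ℝ} (hε : ε₀ ≤ 1 / 100) {φ ϱ κ : V → ℝ} (hA : Adm ε₀ φ ϱ κ)
    (hg : Dn g) (p : V × V) :
    ENNReal.ofReal (1 / 7) * (dA φ g p + dB φ ϱ g p) ≤
      liminf (fun n : ℕ => fN ϱ (1 / ((n : ℝ) + 1)) φ g p + fF ϱ (1 / ((n : ℝ) + 1)) φ g p)
        atTop := by
  rcases (norm_nonneg (p.1 - p.2)).eq_or_lt with hr | hr
  · have h1 : dA φ g p = 0 := by
      unfold dA
      rw [← hr]
      simp
    have h2 : dB φ ϱ g p = 0 := by
      unfold dB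
      rw [← hr]
      simp
    rw [h1, h2, add_zero, mul_zero]
    exact zero_le
  · by_cases hle : ϱ (mid p.1 p.2) ≤ ‖p.1 - p.2‖
    · exact ptw_far hA hg p hr hle
    · exact ptw_near hε hA hg p hr hle

theorem r_ct (n : ℕ) : Continuous (fun p : V × V => ‖p.1 - p.2‖ ^ n) := by fun_prop

theorem FF_ct (hg : Dn g) : Continuous (FF g) := by
  have hc : Continuous g := hg.cls.smooth.continuous
  unfold FF
  fun_prop

theorem dA_meas {ε₀ : ℝ} {φ ϱ κ : V → ℝ} (hA : Adm ε₀ φ ϱ κ) (hg : Dn g) :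
    Measurable (dA φ g) := by
  have hc : Continuous g := hg.cls.smooth.continuous
  have hφ : Continuous φ := hA.smooth.continuous
  have h1 := TQ_ct hg
  unfold dA
  refine Measurable.ennreal_ofReal (Measurable.div ?_ (r_ct 5).measurable)
  exact Continuous.measurable (by fun_prop)

theorem dB_meas {ε₀ : ℝ} (hε : ε₀ ≤ 1 / 100) {φ ϱ κ : V → ℝ} (hA : Adm ε₀ φ ϱ κ) (hg : Dn g) :
    Measurable (dB φ ϱ g) := by
  have hc : Continuous g := hg.cls.smooth.continuous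
  have hφ : Continuous φ := hA.smooth.continuous
  have h1 := HZ_ct hg
  have h2 := (rho_cont hε hA).comp mid_ct
  unfold dB
  refine Measurable.ennreal_ofReal (Measurable.ite (measurableSet_le h2.measurable
    (by fun_prop)) (Measurable.div ?_ (r_ct 3).measurable) measurable_const)
  exact Continuous.measurable (by fun_prop)

theorem fF_meas {ε₀ : ℝ} {φ ϱ κ : V → ℝ} (hA : Adm ε₀ φ ϱ κ) (hg : Dn g) {δ : ℝ} (hδ : 0 < δ) :
    Measurable (fF ϱ δ φ g) := by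
  have hc := FF_ct hg
  have hφ : Continuous φ := hA.smooth.continuous
  have h1 := HZ_ct hg
  have h2 := (eta_smooth hA.rsmooth hδ).continuous
  unfold fF
  refine Measurable.ennreal_ofReal (Measurable.div ?_ (r_ct 3).measurable)
  exact Continuous.measurable (by fun_prop)

theorem swap_ct (F : V → V → ℝ) (h : Continuous (fun p : V × V => F p.1 p.2)) :
    Continuous (fun p : V × V => F p.2 p.1) := h.comp continuous_swap

theorem fN_meas {ε₀ : ℝ} (hε : ε₀ ≤ 1 / 100) {φ ϱ κ : V → ℝ} (hA : Adm ε₀ φ ϱ κ) (hg : Dn g)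
    {δ : ℝ} (hδ : 0 < δ) : Measurable (fN ϱ δ φ g) := by
  have hc := FF_ct hg
  have h1 := WD_ct hg
  have h1' : Continuous (fun p : V × V => WD g p.2 p.1) := swap_ct (WD g) h1
  have h2 := (eta_smooth hA.rsmooth hδ).continuous
  have h3 := (rho_cont hε hA).comp mid_ct
  have h4 : Continuous (fun p : V × V => φ (mid p.1 p.2)) := hA.smooth.continuous.comp mid_ct
  unfold fN
  refine Measurable.ennreal_ofReal (Measurable.ite (measurableSet_lt measurable_const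
    h3.measurable) ?_ measurable_const)
  have e : (fun p : V × V => (1 / (2 * Real.pi)) / ‖p.1 - p.2‖ ^ 3 * eta ϱ δ p * FF g p *
      φ (mid p.1 p.2) * (WD g p.1 p.2 + WD g p.2 p.1)) =
      fun p : V × V => (1 / (2 * Real.pi)) / ‖p.1 - p.2‖ ^ 3 * (eta ϱ δ p * FF g p *
      φ (mid p.1 p.2) * (WD g p.1 p.2 + WD g p.2 p.1)) := by
    funext p
    ring
  rw [e]
  refine (measurable_const.div (r_ct 3).measurable).mul ?_
  exact (((h2.mul hc).mul h4).mul (h1.add h1')).measurable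

end LFatAux

/-- Lower limit of the dissipations. -/
theorem diss_liminf {ε₀ : ℝ} (hε : ε₀ ≤ 1 / 100) {φ ϱ κ g : V → ℝ} (hA : Adm ε₀ φ ϱ κ)
    (hg : Dn g) :
    ENNReal.ofReal (1 / 7) * DE φ ϱ g ≤
      liminf (fun n : ℕ => DNe ϱ (1 / ((n : ℝ) + 1)) φ g + DFe ϱ (1 / ((n : ℝ) + 1)) φ g) atTop := by
  have mA := LFatAux.dA_meas hA hg
  have mB := LFatAux.dB_meas hε hA hg
  have mN : ∀ n : ℕ, Measurable (LFatAux.fN ϱ (1 / ((n : ℝ) + 1)) φ g) := fun n =>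
    LFatAux.fN_meas hε hA hg (LFatAux.dpos n)
  have mF : ∀ n : ℕ, Measurable (LFatAux.fF ϱ (1 / ((n : ℝ) + 1)) φ g) := fun n =>
    LFatAux.fF_meas hA hg (LFatAux.dpos n)
  have h1 : DE φ ϱ g = ∫⁻ p, (LFatAux.dA φ g p + LFatAux.dB φ ϱ g p)
      ∂((volume : Measure V).prod volume) := by
    rw [lintegral_add_left mA, lintegral_prod _ mA.aemeasurable, lintegral_prod _ mB.aemeasurable]
    rfl
  have mAB : Measurable (fun p => LFatAux.dA φ g p + LFatAux.dB φ ϱ g p) := mA.add mB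
  rw [h1, ← lintegral_const_mul _ mAB]
  have h2 : ∀ n : ℕ, DNe ϱ (1 / ((n : ℝ) + 1)) φ g + DFe ϱ (1 / ((n : ℝ) + 1)) φ g =
      ∫⁻ p, (LFatAux.fN ϱ (1 / ((n : ℝ) + 1)) φ g p + LFatAux.fF ϱ (1 / ((n : ℝ) + 1)) φ g p)
        ∂((volume : Measure V).prod volume) := by
    intro n
    rw [lintegral_add_left (mN n)]
    rfl
  simp only [h2]
  calc _ ≤ ∫⁻ p, liminf (fun n : ℕ => LFatAux.fN ϱ (1 / ((n : ℝ) + 1)) φ g p +
        LFatAux.fF ϱ (1 / ((n : ℝ) + 1)) φ g p) atTop ∂((volume : Measure V).prod volume) :=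
        lintegral_mono fun p => LFatAux.ptw hε hA hg p
    _ ≤ _ := lintegral_liminf_le fun n => (mN n).add (mF n)

end Pool.Agent.LandauF
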