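import Pool.Agent.LandauF.NConcY
import Pool.Agent.Landau.KInt

/-!
# LandauF, module NConcZ: the integrals used in NConc
-/

set_option autoImplicit false

namespace Pool.Agent.LandauF

open MeasureTheory Set Filter Topology Pool.Agent.Landau

/-- a radial kernel of the difference, localised in the first variable -/
theorem nc_kernel (R : ℝ) {k : ℝ → ℝ} (hk : Integrable (fun z : V => k ‖z‖)) :
    Integrable (fun p : V × V => (Metric.closedBall (0 : V) R).indicator (fun _ => (1 : ℝ)) p.1 *
      k ‖p.1 - p.2‖) ((volume : Measure V).prod volume) ∧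
    ∫ p : V × V, (Metric.closedBall (0 : V) R).indicator (fun _ => (1 : ℝ)) p.1 * k ‖p.1 - p.2‖
      ∂((volume : Measure V).prod volume) =
      (volume : Measure V).real (Metric.closedBall (0 : V) R) * ∫ z : V, k ‖z‖ := by
  have hmp : MeasurePreserving (fun z : V × V => (z.1, -z.1 + z.2))
      ((volume : Measure V).prod volume) ((volume : Measure V).prod volume) :=
    measurePreserving_prod_neg_add _ _
  have hB : MeasurableSet (Metric.closedBall (0 : V) R) := Metric.isClosed_closedBall.measurableSet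
  have hI : Integrable ((Metric.closedBall (0 : V) R).indicator (fun _ => (1 : ℝ)))
      (volume : Measure V) := by
    rw [integrable_indicator_iff hB]
    exact integrableOn_const (measure_closedBall_lt_top.ne)
  have hG : Integrable (fun q : V × V =>
      (Metric.closedBall (0 : V) R).indicator (fun _ => (1 : ℝ)) q.1 * k ‖q.2‖)
      ((volume : Measure V).prod volume) := hI.mul_prod hk
  have he : ∀ p : V × V, (Metric.closedBall (0 : V) R).indicator (fun _ => (1 : ℝ)) p.1 *
      k ‖p.1 - p.2‖ = (fun q : V × V => (Metric.closedBall (0 : V) R).indicator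
        (fun _ => (1 : ℝ)) q.1 * k ‖q.2‖) (p.1, -p.1 + p.2) := by
    intro p
    show _ = _ * k ‖-p.1 + p.2‖
    rw [norm_sub_rev p.1 p.2, neg_add_eq_sub]
  constructor
  · have h1 := hmp.integrable_comp hG.aestronglyMeasurable
    refine (h1.2 hG).congr (Eventually.of_forall fun p => ?_)
    exact (he p).symm
  · simp only [he]
    have h2 := integral_map hmp.aemeasurable
      (f := fun q : V × V => (Metric.closedBall (0 : V) R).indicator
        (fun _ => (1 : ℝ)) q.1 * k ‖q.2‖) (by rw [hmp.map_eq]; exact hG.aestronglyMeasurable)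
    rw [hmp.map_eq] at h2
    rw [← h2]
    have h3 := integral_prod_mul (μ := (volume : Measure V)) (ν := (volume : Measure V))
      ((Metric.closedBall (0 : V) R).indicator (fun _ => (1 : ℝ))) (fun z : V => k ‖z‖)
    rw [h3]
    congr 1
    rw [integral_indicator hB, setIntegral_const, smul_eq_mul, mul_one]

/-- the region where the near radius is at most `δ` -/
theorem nc_small {ε₀ : ℝ} (hε : ε₀ ≤ 1 / 100) {φ ϱ κ g : V → ℝ} (hA : Adm ε₀ φ ϱ κ) (hg : Dn g) :
    ∃ K : ℝ, 0 < K ∧ ∀ (ε δ : ℝ), 0 < ε → 0 < δ → δ ≤ 1 →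
      ∫ p in {p : V × V | δ < ϱ (mid p.1 p.2)}ᶜ, InN ε ϱ δ φ g p
        ∂((volume : Measure V).prod volume) ≤ K * δ := by
  obtain ⟨K, R, hK, hR, hcr⟩ := near_crude hε hA hg
  have hB0 : 0 ≤ (volume : Measure V).real (Metric.closedBall (0 : V) R) := measureReal_nonneg
  refine ⟨K * ((volume : Measure V).real (Metric.closedBall (0 : V) R) * 39) + 1, by positivity,
    fun ε δ h1 h2 h3 => ?_⟩
  have hδ3 : 0 < 3 * δ := by linarith
  obtain ⟨hki, -⟩ := kker_int 2 le_rfl (3 * δ) hδ3
  obtain ⟨hj, hje⟩ := nc_kernel R hki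
  have hk0 : ∀ y : ℝ, 0 ≤ kker 2 (3 * δ) y := by
    intro y
    unfold kker
    exact indicator_nonneg (fun y _ => by positivity) y
  have hJ0 : ∀ p : V × V, 0 ≤ (Metric.closedBall (0 : V) R).indicator (fun _ => (1 : ℝ)) p.1 *
      kker 2 (3 * δ) ‖p.1 - p.2‖ := fun p =>
    mul_nonneg (indicator_nonneg (fun _ _ => zero_le_one) _) (hk0 _)
  have hρc := nc_rho_cont hε hA
  have hSm : MeasurableSet {p : V × V | δ < ϱ (mid p.1 p.2)} :=
    (isOpen_lt continuous_const (hρc.comp nc_mid_cont)).measurableSet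
  have hne : ∀ᵐ p ∂((volume : Measure V).prod volume), (p : V × V).1 ≠ p.2 := by
    have hmp : MeasurePreserving (fun z : V × V => (z.1, -z.1 + z.2))
        ((volume : Measure V).prod volume) ((volume : Measure V).prod volume) :=
      measurePreserving_prod_neg_add _ _
    have h0 : ∀ᵐ q ∂((volume : Measure V).prod volume), (q : V × V).2 ≠ 0 := by
      have : ∀ᵐ z ∂(volume : Measure V), z ≠ 0 := by
        rw [ae_iff]
        simp
      exact (Measure.quasiMeasurePreserving_snd (μ := (volume : Measure V))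
        (ν := (volume : Measure V))).ae this
    have h1 := hmp.quasiMeasurePreserving.ae h0
    filter_upwards [h1] with p hp h
    apply hp
    show -p.1 + p.2 = 0
    rw [h]
    simp
  have hint : Integrable (InN ε ϱ δ φ g) ((volume : Measure V).prod volume) :=
    (nc_InN_cont hA hg h1 h2).integrable_of_hasCompactSupport (nc_InN_compact hε hA h2)
  have hle : ∫ p in {p : V × V | δ < ϱ (mid p.1 p.2)}ᶜ, InN ε ϱ δ φ g p
      ∂((volume : Measure V).prod volume) ≤
      ∫ p in {p : V × V | δ < ϱ (mid p.1 p.2)}ᶜ, K * ((Metric.closedBall (0 : V) R).indicator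
        (fun _ => (1 : ℝ)) p.1 * kker 2 (3 * δ) ‖p.1 - p.2‖)
        ∂((volume : Measure V).prod volume) := by
    refine integral_mono_ae hint.integrableOn (hj.const_mul K).integrableOn ?_
    filter_upwards [ae_restrict_of_ae hne, ae_restrict_mem hSm.compl] with p hp hpS
    have hpS' : ϱ (mid p.1 p.2) ≤ δ := not_lt.1 hpS
    refine (le_abs_self _).trans ((hcr ε δ p h1 h2 h3 hp).trans ?_)
    split_ifs with hc
    · obtain ⟨c1, c2⟩ := hc
      have hmem : p.1 ∈ Metric.closedBall (0 : V) R := by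
        rw [mem_closedBall_zero_iff]
        exact c1
      have hρ0 := hA.rnonneg (mid p.1 p.2)
      have hlt : ‖p.1 - p.2‖ < 3 * δ := by
        unfold SS at c2
        have h0 := norm_nonneg (p.1 - p.2)
        nlinarith
      unfold kker
      rw [indicator_of_mem hmem, indicator_of_mem (show ‖p.1 - p.2‖ ∈ Iio (3 * δ) from hlt),
        one_mul]
      exact le_of_eq (by ring)
    · exact mul_nonneg hK.le (hJ0 p)
  refine hle.trans ?_
  calc ∫ p in {p : V × V | δ < ϱ (mid p.1 p.2)}ᶜ, K * ((Metric.closedBall (0 : V) R).indicator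
        (fun _ => (1 : ℝ)) p.1 * kker 2 (3 * δ) ‖p.1 - p.2‖)
        ∂((volume : Measure V).prod volume) ≤
      ∫ p, K * ((Metric.closedBall (0 : V) R).indicator
        (fun _ => (1 : ℝ)) p.1 * kker 2 (3 * δ) ‖p.1 - p.2‖)
        ∂((volume : Measure V).prod volume) :=
        setIntegral_le_integral (hj.const_mul K)
          (Eventually.of_forall fun p => mul_nonneg hK.le (hJ0 p))
    _ = K * ((volume : Measure V).real (Metric.closedBall (0 : V) R) *
          ∫ z : V, kker 2 (3 * δ) ‖z‖) := by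
        rw [integral_const_mul, hje]
    _ ≤ K * ((volume : Measure V).real (Metric.closedBall (0 : V) R) * (13 * (3 * δ))) := by
        have := kker_int_le_two (3 * δ) hδ3
        gcongr
    _ ≤ _ := by nlinarith

/-! ### the error density -/

theorem nc_EN_meas {ε₀ : ℝ} (hε : ε₀ ≤ 1 / 100) {φ ϱ κ g : V → ℝ} (hA : Adm ε₀ φ ϱ κ)
    (hg : Dn g) : Measurable (fun p : V × V => EN φ ϱ κ g p.1 p.2) := by
  have hρc := (nc_rho_cont hε hA).measurable
  have hφ := hA.smooth.continuous.measurable
  have hgm := hg.cls.smooth.continuous.measurable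
  have hx2 : Measurable (x2 g) := by
    unfold x2
    exact (continuous_finsetSum _ fun i _ => (nc_gam_cont hg i).pow 2).measurable
  have hn : Measurable (fun p : V × V => ‖p.1 - p.2‖) :=
    (continuous_fst.sub continuous_snd).norm.measurable
  have hkN : Measurable (fun p : V × V => kN ϱ p.1 p.2) := by
    unfold kN
    refine Measurable.ite (measurableSet_le hn ((hρc.comp measurable_fst).const_mul 2)) ?_
      measurable_const
    exact measurable_const.div (hn.pow_const 2)
  have hkF : Measurable (fun p : V × V => kF ϱ p.1 p.2) := by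
    unfold kF
    refine Measurable.ite (measurableSet_le (hρc.comp measurable_fst) (hn.const_mul 4)) ?_
      measurable_const
    exact measurable_const.div hn
  unfold EN
  exact (((hφ.comp measurable_fst).mul (hgm.comp measurable_fst)).mul
    (hgm.comp measurable_snd)).mul ((hx2.comp measurable_fst).mul
      (((hA.kmeas.comp measurable_fst).mul hkN).add
        (hkF.div ((hρc.comp measurable_fst).pow_const 2))))

theorem nc_EN_int {ε₀ : ℝ} (hε : ε₀ ≤ 1 / 100) {φ ϱ κ g : V → ℝ} (hA : Adm ε₀ φ ϱ κ)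
    (hg : Dn g) {A : ℝ} (hA0 : 0 ≤ A) (hER : ER φ ϱ κ g ≤ ENNReal.ofReal A) :
    Integrable (fun p : V × V => EN φ ϱ κ g p.1 p.2) ((volume : Measure V).prod volume) ∧
      ∫ p : V × V, EN φ ϱ κ g p.1 p.2 ∂((volume : Measure V).prod volume) ≤ A := by
  have hm := nc_EN_meas hε hA hg
  have h0 : ∀ p : V × V, 0 ≤ EN φ ϱ κ g p.1 p.2 := fun p => EN_nonneg hA hg _ _
  have hle : ∫⁻ p : V × V, ENNReal.ofReal (EN φ ϱ κ g p.1 p.2)
      ∂((volume : Measure V).prod volume) ≤ ENNReal.ofReal A := by
    refine le_trans ?_ hER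
    rw [lintegral_prod _ hm.ennreal_ofReal.aemeasurable]
    unfold ER
    refine lintegral_mono fun v => lintegral_mono fun w => ENNReal.ofReal_le_ofReal ?_
    show EN φ ϱ κ g v w ≤ _
    unfold EN
    have hkF : 0 ≤ kF ϱ v w := by
      unfold kF
      split_ifs
      · positivity
      · exact le_rfl
    have h1 : 0 ≤ φ v * g v * g w :=
      mul_nonneg (mul_nonneg (hA.nonneg v) (hg.pos v).le) (hg.pos w).le
    refine mul_le_mul_of_nonneg_left ?_ h1
    have h2 : 0 ≤ kF ϱ v w / ϱ v ^ 4 := by positivity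
    linarith
  have hfin : ∫⁻ p : V × V, ENNReal.ofReal (EN φ ϱ κ g p.1 p.2)
      ∂((volume : Measure V).prod volume) < ⊤ := hle.trans_lt ENNReal.ofReal_lt_top
  have hint : Integrable (fun p : V × V => EN φ ϱ κ g p.1 p.2)
      ((volume : Measure V).prod volume) := by
    refine ⟨hm.aestronglyMeasurable, ?_⟩
    rw [hasFiniteIntegral_iff_ofReal (Eventually.of_forall h0)]
    exact hfin
  refine ⟨hint, ?_⟩
  rw [← ENNReal.ofReal_le_ofReal_iff hA0,
    ofReal_integral_eq_lintegral_ofReal hint (Eventually.of_forall h0)]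
  exact hle

theorem nc_EN_swap {ε₀ : ℝ} (hε : ε₀ ≤ 1 / 100) {φ ϱ κ g : V → ℝ} (hA : Adm ε₀ φ ϱ κ)
    (hg : Dn g) {A : ℝ} (hA0 : 0 ≤ A) (hER : ER φ ϱ κ g ≤ ENNReal.ofReal A) :
    Integrable (fun p : V × V => EN φ ϱ κ g p.1 p.2 + EN φ ϱ κ g p.2 p.1)
      ((volume : Measure V).prod volume) ∧
      ∫ p : V × V, (EN φ ϱ κ g p.1 p.2 + EN φ ϱ κ g p.2 p.1)
        ∂((volume : Measure V).prod volume) ≤ 2 * A := by
  obtain ⟨h1, h2⟩ := nc_EN_int hε hA hg hA0 hER
  have h3 : Integrable (fun p : V × V => EN φ ϱ κ g p.2 p.1)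
      ((volume : Measure V).prod volume) := h1.swap
  refine ⟨h1.add h3, ?_⟩
  rw [integral_add h1 h3]
  have h4 : ∫ p : V × V, EN φ ϱ κ g p.2 p.1 ∂((volume : Measure V).prod volume) =
      ∫ p : V × V, EN φ ϱ κ g p.1 p.2 ∂((volume : Measure V).prod volume) :=
    integral_prod_swap (fun p : V × V => EN φ ϱ κ g p.1 p.2)
  rw [h4]
  linarith

end Pool.Agent.LandauF
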