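import Pool.Agent.LandauF.NAdm

/-!
# LandauF, module NSm: crude bound of the near integrand (used where `ϱ(mid) ≤ δ`)

Everything is bounded on compact sets.  Let `supp φ ⊆ B_R`; `InN p = 0` unless `v` or `w` is in the
support of `φ` and `r² ≤ SS`; since `ϱ` is bounded on compact sets and `1/100`-Lipschitz, `r² ≤ SS`,
`δ ≤ 1` then keep `p` in a compact set.  On this set `|XX| ≤ K r²`, `|DX| ≤ K r` (mean value),
`|X|, |φ|, |∂φ|, |∂²φ| ≤ K`, `|φ(v) - φ(w)| ≤ K r`, `B ≤ r⁻³`, `|∇ B| ≤ K r⁻⁴` (`r² ≤ SS`), so (formulas of NTrans)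
`|InN| ≤ K r⁻²`.  `K` does not depend on `ε`, `δ`.
-/

set_option autoImplicit false

namespace Pool.Agent.LandauF

open MeasureTheory Set Filter Topology Pool.Agent.Landau

namespace NSm

/-- bounds and Lipschitz constants of a finite family on a ball -/
theorem unif {ι : Type*} [Fintype ι] (F : ι → V → ℝ) (hF : ∀ i, ContDiff ℝ (⊤ : ℕ∞) (F i))
    (R : ℝ) : ∃ L : ℝ, 0 ≤ L ∧ ∀ i, (∀ v, ‖v‖ ≤ R → |F i v| ≤ L) ∧
      ∀ v w, ‖v‖ ≤ R → ‖w‖ ≤ R → |F i v - F i w| ≤ L * ‖v - w‖ := by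
  have h1 : ∀ i, ∃ L : ℝ, 0 ≤ L ∧ (∀ v, ‖v‖ ≤ R → |F i v| ≤ L) ∧
      ∀ v w, ‖v‖ ≤ R → ‖w‖ ≤ R → |F i v - F i w| ≤ L * ‖v - w‖ := by
    intro i
    obtain ⟨A, hA⟩ := (isCompact_closedBall (0 : V) R).exists_bound_of_continuousOn
      (hF i).continuous.continuousOn
    obtain ⟨B, hB⟩ := (isCompact_closedBall (0 : V) R).exists_bound_of_continuousOn
      ((hF i).continuous_fderiv (by simp)).continuousOn
    refine ⟨max 0 (max A B), le_max_left _ _, fun v hv => ?_, fun v w hv hw => ?_⟩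
    · exact (hA v (mem_closedBall_zero_iff.2 hv)).trans
        ((le_max_left _ _).trans (le_max_right _ _))
    · have := (convex_closedBall (0 : V) R).norm_image_sub_le_of_norm_fderiv_le (𝕜 := ℝ)
        (f := F i) (C := max 0 (max A B)) (x := w) (y := v)
        (fun x _ => (hF i).differentiable (by simp) x)
        (fun x hx => (hB x hx).trans ((le_max_right _ _).trans (le_max_right _ _)))
        (mem_closedBall_zero_iff.2 hw) (mem_closedBall_zero_iff.2 hv)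
      exact this
  choose L hL0 hL1 hL2 using h1
  refine ⟨∑ i, L i, Finset.sum_nonneg fun i _ => hL0 i, fun i => ⟨fun v hv => ?_,
    fun v w hv hw => ?_⟩⟩
  · exact (hL1 i v hv).trans (Finset.single_le_sum (fun j _ => hL0 j) (Finset.mem_univ i))
  · exact (hL2 i v w hv hw).trans (mul_le_mul_of_nonneg_right
      (Finset.single_le_sum (fun j _ => hL0 j) (Finset.mem_univ i)) (norm_nonneg _))

theorem abs_kd (i j : Fin 3) : |kd i j| ≤ 1 := by
  unfold kd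
  split_ifs <;> simp

theorem coord_le (p : V × V) (a : Fin 3) : |p.1 a - p.2 a| ≤ ‖p.1 - p.2‖ := by
  have := Cls.abs_coord (p.1 - p.2) a
  simpa using this

/-- a product of two bounded numbers -/
theorem mulb {x y X Y : ℝ} (hx : |x| ≤ X) (hy : |y| ≤ Y) : |x * y| ≤ X * Y := by
  rw [abs_mul]
  exact mul_le_mul hx hy (abs_nonneg _) ((abs_nonneg _).trans hx)

theorem sum3 {x y : Fin 3 → ℝ} {X Y : ℝ} (hx : ∀ l, |x l| ≤ X) (hy : ∀ l, |y l| ≤ Y) :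
    |∑ l, x l * y l| ≤ 3 * (X * Y) := by
  calc |∑ l, x l * y l| ≤ ∑ l, |x l * y l| := Finset.abs_sum_le_sum_abs _ _
    _ ≤ ∑ _l : Fin 3, X * Y := Finset.sum_le_sum fun l _ => mulb (hx l) (hy l)
    _ = 3 * (X * Y) := by simp

theorem qq_le {φ : V → ℝ} {P Q : V × V → ℝ} {p : V × V} {a0 X Y : ℝ} (h1 : |φ p.1| ≤ a0)
    (h2 : |φ p.2| ≤ a0) (hP1 : ∀ l, |dv l P p| ≤ X) (hP2 : ∀ l, |dw l P p| ≤ X)
    (hQ1 : ∀ l, |dv l Q p| ≤ Y) (hQ2 : ∀ l, |dw l Q p| ≤ Y) :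
    |qq φ P Q p| ≤ 6 * a0 * (X * Y) := by
  unfold qq
  refine (abs_add_le _ _).trans ?_
  have e1 := mulb h1 (sum3 hP1 hQ1)
  have e2 := mulb h2 (sum3 hP2 hQ2)
  linarith

theorem bt_le {P Q : V × V → ℝ} {p : V × V} {X Y : ℝ} (a b : Fin 3)
    (hP1 : ∀ l, |dv l P p| ≤ X) (hP2 : ∀ l, |dw l P p| ≤ X)
    (hQ1 : ∀ l, |dv l Q p| ≤ Y) (hQ2 : ∀ l, |dw l Q p| ≤ Y) :
    |bt a b P Q p| ≤ 4 * (X * Y) := by
  unfold bt
  have e1 := abs_le.1 (mulb (hP2 a) (hQ1 b))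
  have e2 := abs_le.1 (mulb (hP2 b) (hQ1 a))
  have e3 := abs_le.1 (mulb (hQ2 a) (hP1 b))
  have e4 := abs_le.1 (mulb (hQ2 b) (hP1 a))
  rw [mul_comm Y X] at e3 e4
  rw [abs_le]
  constructor <;> linarith [e1.1, e1.2, e2.1, e2.2, e3.1, e3.2, e4.1, e4.2]

theorem q1_le {φ : V → ℝ} {P Q : V × V → ℝ} {p : V × V} {a1 X Y : ℝ} (a b : Fin 3)
    (h1 : |RR a b (fun x => φ x.1) p| ≤ a1) (h2 : |RR a b (fun x => φ x.2) p| ≤ a1)
    (h3 : |φ p.1 - φ p.2| ≤ a1) (hP1 : ∀ l, |dv l P p| ≤ X) (hP2 : ∀ l, |dw l P p| ≤ X)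
    (hQ1 : ∀ l, |dv l Q p| ≤ Y) (hQ2 : ∀ l, |dw l Q p| ≤ Y) :
    |q1 φ a b P Q p| ≤ 8 * a1 * (X * Y) := by
  unfold q1
  have e1 := abs_le.1 (mulb h1 (sum3 hP1 hQ1))
  have e2 := abs_le.1 (mulb h2 (sum3 hP2 hQ2))
  have e3 := abs_le.1 (mulb h3 (bt_le a b hP1 hP2 hQ1 hQ2))
  have e4 : 1 / 2 * (φ p.1 - φ p.2) * bt a b P Q p =
    1 / 2 * ((φ p.1 - φ p.2) * bt a b P Q p) := by ring
  rw [e4, abs_le]
  constructor <;> linarith [e1.1, e1.2, e2.1, e2.2, e3.1, e3.2]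

/-- vanishing of the terms, first case -/
theorem Iab_zero_B {φ g : V → ℝ} {B : V × V → ℝ} {p : V × V} (a b : Fin 3) (h0 : B p = 0)
    (h1 : ∀ l, dv l B p = 0) (h2 : ∀ l, dw l B p = 0) : Iab B φ g a b p = 0 := by
  have e1 : ∀ P : V × V → ℝ, qq φ P B p = 0 := by
    intro P
    unfold qq
    simp [h1, h2]
  have e2 : ∀ P : V × V → ℝ, q1 φ a b P B p = 0 := by
    intro P
    unfold q1 bt
    simp [h1, h2]
  unfold Iab
  rw [e1, e2, h0]
  ring

/-- vanishing of the terms, second case -/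
theorem Iab_zero_phi {φ g : V → ℝ} {B : V × V → ℝ} {p : V × V} (hφ : ContDiff ℝ (⊤ : ℕ∞) φ)
    (hg : Dn g) (a b : Fin 3) (h1 : φ p.1 = 0) (h2 : φ p.2 = 0)
    (h3 : RR a b (fun x => φ x.1) p = 0) (h4 : RR a b (fun x => φ x.2) p = 0)
    (h5 : RR a b (RR a b (fun x => φ x.1)) p = 0) (h6 : RR a b (RR a b (fun x => φ x.2)) p = 0) :
    Iab B φ g a b p = 0 := by
  have e1 : ∀ P Q : V × V → ℝ, qq φ P Q p = 0 := by
    intro P Q
    unfold qq
    rw [h1, h2]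
    ring
  have e2 : ∀ P Q : V × V → ℝ, q1 φ a b P Q p = 0 := by
    intro P Q
    unfold q1
    rw [h1, h2, h3, h4]
    ring
  have e3 : RR a b (q1 φ a b (uu g) (uu g)) p = 0 := by
    rw [RR_q1_uu hφ hg, h1, h2, h3, h4, h5, h6]
    ring
  unfold Iab
  rw [e1, e1, e2, e2, e3]
  ring

/-- the bound of one term -/
theorem Iab_le {φ g : V → ℝ} {B : V × V → ℝ} {p : V × V} {M r : ℝ} (hφ : ContDiff ℝ (⊤ : ℕ∞) φ)
    (hg : Dn g) (a b : Fin 3) (hr : 0 < r) (hM : 1 ≤ M) (hrM : r ≤ M)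
    (hB : |B p| ≤ (r ^ 3)⁻¹) (hB1 : ∀ l, |dv l B p| ≤ M * (r ^ 4)⁻¹)
    (hB2 : ∀ l, |dw l B p| ≤ M * (r ^ 4)⁻¹)
    (hG1 : ∀ i, |gam i g p.1| ≤ M) (hG2 : ∀ i, |gam i g p.2| ≤ M)
    (hx1 : |x2 g p.1| ≤ M) (hx2 : |x2 g p.2| ≤ M) (h1 : |φ p.1| ≤ M) (h2 : |φ p.2| ≤ M)
    (h12 : |φ p.1 - φ p.2| ≤ M * r)
    (h3 : |RR a b (fun x => φ x.1) p| ≤ M * r) (h4 : |RR a b (fun x => φ x.2) p| ≤ M * r)
    (h5 : |RR a b (RR a b (fun x => φ x.1)) p| ≤ M * r)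
    (h6 : |RR a b (RR a b (fun x => φ x.2)) p| ≤ M * r)
    (hX : |XX g a b p.1 p.2| ≤ M * r ^ 2)
    (hD1 : ∀ l, |DX g a b l p.1 p.2| ≤ M * r) (hD2 : ∀ l, |DX g a b l p.2 p.1| ≤ M * r)
    (hH1 : ∀ l, |RR a b (fun x => gam l g x.1) p| ≤ M * r)
    (hH2 : ∀ l, |RR a b (fun x => gam l g x.2) p| ≤ M * r) :
    |Iab B φ g a b p| ≤ 40 * M ^ 5 / r ^ 2 := by
  have hM0 : 0 < M := by linarith
  have hF : |FF g p| ≤ 1 := by
    unfold FF
    have e1 : |g p.1| ≤ 1 := hg.cls.abs_le_one _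
    have e2 : |g p.2| ≤ 1 := hg.cls.abs_le_one _
    have := mulb e1 e2
    linarith
  have hu1 : ∀ l, |dv l (uu g) p| ≤ M := fun l => by
    rw [dv_uu hg]
    exact hG1 l
  have hu2 : ∀ l, |dw l (uu g) p| ≤ M := fun l => by
    rw [dw_uu hg]
    exact hG2 l
  have hR1 : ∀ l, |dv l (RR a b (uu g)) p| ≤ M * r := fun l => by
    rw [dv_RR_uu hg, abs_mul, abs_of_pos (by norm_num : (0 : ℝ) < 1 / 2)]
    have := hD1 l
    have h0 := abs_nonneg (DX g a b l p.1 p.2)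
    linarith
  have hR2 : ∀ l, |dw l (RR a b (uu g)) p| ≤ M * r := fun l => by
    rw [dw_RR_uu hg, abs_mul, abs_of_pos (by norm_num : (0 : ℝ) < 1 / 2)]
    have := hD2 l
    have h0 := abs_nonneg (DX g a b l p.2 p.1)
    linarith
  have hRu : |RR a b (uu g) p| ≤ M * r ^ 2 := by
    rw [RR_uu hg, abs_mul, abs_of_pos (by norm_num : (0 : ℝ) < 1 / 2)]
    have h0 := abs_nonneg (XX g a b p.1 p.2)
    linarith
  -- the five terms
  have t1 := mulb (mulb hB hF) (qq_le h1 h2 hR1 hR2 hR1 hR2)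
  have t2 := mulb (mulb hB hF) (q1_le a b h3 h4 h12 hu1 hu2 hR1 hR2)
  have t3 : |RR a b (q1 φ a b (uu g) (uu g)) p| ≤ 2 * (M * r * M) + 16 * (M * r * (M * (M * r)))
      + 4 * (M * r * (M * M)) := by
    rw [RR_q1_uu hφ hg]
    have s1 := abs_le.1 (mulb h5 hx1)
    have s2 := abs_le.1 (mulb h6 hx2)
    have s3 := abs_le.1 (mulb h3 (sum3 hG1 hH1))
    have s4 := abs_le.1 (mulb h4 (sum3 hG2 hH2))
    have s5 := abs_le.1 (mulb h3 (mulb (hG2 a) (hG1 b)))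
    have s6 := abs_le.1 (mulb h3 (mulb (hG2 b) (hG1 a)))
    have s7 := abs_le.1 (mulb h4 (mulb (hG2 a) (hG1 b)))
    have s8 := abs_le.1 (mulb h4 (mulb (hG2 b) (hG1 a)))
    have s9 := abs_le.1 (mulb h12 (mulb (hH2 a) (hG1 b)))
    have s10 := abs_le.1 (mulb h12 (mulb (hG2 a) (hH1 b)))
    have s11 := abs_le.1 (mulb h12 (mulb (hH2 b) (hG1 a)))
    have s12 := abs_le.1 (mulb h12 (mulb (hG2 b) (hH1 a)))
    rw [abs_le]
    constructor <;> linarith [s1.1, s1.2, s2.1, s2.2, s3.1, s3.2, s4.1, s4.2, s5.1, s5.2, s6.1,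
      s6.2, s7.1, s7.2, s8.1, s8.2, s9.1, s9.2, s10.1, s10.2, s11.1, s11.2, s12.1, s12.2]
  have t3' := mulb (mulb hB hF) t3
  have t4 := mulb (mulb hF hRu) (qq_le h1 h2 hR1 hR2 hB1 hB2)
  have t5 := mulb (mulb hF hRu) (q1_le a b h3 h4 h12 hu1 hu2 hB1 hB2)
  have key : |Iab B φ g a b p| ≤
      (r ^ 3)⁻¹ * 1 * (6 * M * (M * r * (M * r))) + (r ^ 3)⁻¹ * 1 * (8 * (M * r) * (M * (M * r)))
      + 1 / 2 * ((r ^ 3)⁻¹ * 1 * (2 * (M * r * M) + 16 * (M * r * (M * (M * r)))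
      + 4 * (M * r * (M * M))))
      + 1 * (M * r ^ 2) * (6 * M * (M * r * (M * (r ^ 4)⁻¹)))
      + 1 * (M * r ^ 2) * (8 * (M * r) * (M * (M * (r ^ 4)⁻¹))) := by
    unfold Iab
    have s1 := abs_le.1 t1
    have s2 := abs_le.1 t2
    have s3 := abs_le.1 t3'
    have s4 := abs_le.1 t4
    have s5 := abs_le.1 t5
    rw [abs_le]
    constructor <;> linarith [s1.1, s1.2, s2.1, s2.2, s3.1, s3.2, s4.1, s4.2, s5.1, s5.2]
  refine key.trans ?_
  have e : (r ^ 3)⁻¹ * 1 * (6 * M * (M * r * (M * r))) + (r ^ 3)⁻¹ * 1 * (8 * (M * r) * (M * (M * r)))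
      + 1 / 2 * ((r ^ 3)⁻¹ * 1 * (2 * (M * r * M) + 16 * (M * r * (M * (M * r)))
      + 4 * (M * r * (M * M))))
      + 1 * (M * r ^ 2) * (6 * M * (M * r * (M * (r ^ 4)⁻¹)))
      + 1 * (M * r ^ 2) * (8 * (M * r) * (M * (M * (r ^ 4)⁻¹)))
      = (22 * M ^ 3 * r + M ^ 2 + 2 * M ^ 3 + 14 * M ^ 4 * r) / r ^ 2 := by
    field_simp
    ring
  rw [e]
  refine div_le_div_of_nonneg_right ?_ (by positivity)
  have m2 : M ^ 2 ≤ M ^ 5 := pow_le_pow_right₀ hM (by norm_num)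
  have m3 : M ^ 3 ≤ M ^ 5 := pow_le_pow_right₀ hM (by norm_num)
  have m4 : M ^ 4 ≤ M ^ 5 := pow_le_pow_right₀ hM (by norm_num)
  have m5 : 0 ≤ M ^ 5 := by positivity
  have r3 : M ^ 3 * r ≤ M ^ 4 := by
    calc M ^ 3 * r ≤ M ^ 3 * M := mul_le_mul_of_nonneg_left hrM (by positivity)
      _ = M ^ 4 := by ring
  have r4 : M ^ 4 * r ≤ M ^ 5 := by
    calc M ^ 4 * r ≤ M ^ 4 * M := mul_le_mul_of_nonneg_left hrM (by positivity)
      _ = M ^ 5 := by ring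
  linarith

/-- the kernel -/
theorem BB_le {ε : ℝ} (hε : 0 < ε) (ϱ : V → ℝ) (δ : ℝ) (p : V × V) (hp : p.1 ≠ p.2) :
    0 ≤ bet ε p ∧ bet ε p ≤ (‖p.1 - p.2‖ ^ 3)⁻¹ ∧ ‖p.1 - p.2‖ ≤ rE ε p := by
  have hr : 0 < ‖p.1 - p.2‖ := norm_pos_iff.2 (sub_ne_zero.2 hp)
  have h1 : ‖p.1 - p.2‖ ≤ rE ε p := by
    unfold rE
    exact Real.le_sqrt_of_sq_le (by nlinarith [sq_nonneg ε])
  have h2 : 0 < rE ε p := hr.trans_le h1
  have hpi : 1 / (2 * Real.pi) ≤ 1 := by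
    rw [div_le_one (by positivity)]
    have := Real.pi_gt_three
    linarith
  refine ⟨?_, ?_, h1⟩
  · unfold bet
    positivity
  · unfold bet
    calc 1 / (2 * Real.pi) * (rE ε p ^ 3)⁻¹ ≤ 1 * (‖p.1 - p.2‖ ^ 3)⁻¹ := by
          refine mul_le_mul hpi ?_ (by positivity) zero_le_one
          exact inv_anti₀ (by positivity) (pow_le_pow_left₀ hr.le h1 3)
      _ = _ := one_mul _

end NSm

open NSm in
/-- Crude bound of the near integrand. -/
theorem near_crude {ε₀ : ℝ} (hε : ε₀ ≤ 1 / 100) {φ ϱ κ g : V → ℝ} (hA : Adm ε₀ φ ϱ κ) (hg : Dn g) :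
    ∃ K R : ℝ, 0 < K ∧ 0 < R ∧ ∀ (ε δ : ℝ) (p : V × V), 0 < ε → 0 < δ → δ ≤ 1 → p.1 ≠ p.2 →
      |InN ε ϱ δ φ g p| ≤
        if ‖p.1‖ ≤ R ∧ ‖p.1 - p.2‖ ^ 2 ≤ SS ϱ δ p then K / ‖p.1 - p.2‖ ^ 2 else 0 := by
  -- the support of the weight
  obtain ⟨R0, hR0⟩ : ∃ R0 : ℝ, tsupport φ ⊆ Metric.closedBall (0 : V) R0 :=
    hA.compact.isCompact.isBounded.subset_closedBall 0
  obtain ⟨ϱ0, hϱ0⟩ : ∃ ϱ0 : ℝ, ϱ0 = ϱ 0 := ⟨_, rfl⟩
  have hϱ00 : 0 ≤ ϱ0 := by
    rw [hϱ0]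
    exact hA.rnonneg 0
  obtain ⟨R, hRd⟩ : ∃ R : ℝ, R = 2 * (|R0| + 2 * ϱ0 + 2) := ⟨_, rfl⟩
  have hR : 0 < R := by
    rw [hRd]
    have := abs_nonneg R0
    linarith
  obtain ⟨r1, hr1d⟩ : ∃ r1 : ℝ, r1 = 2 * (ϱ0 + 1) + R / 50 := ⟨_, rfl⟩
  have hr1 : 0 < r1 := by
    rw [hr1d]
    linarith
  -- the constants
  obtain ⟨L1, hL10, hL1⟩ := unif (fun i => gam i g) (fun i => gam_smooth hg i) (R + r1)
  obtain ⟨L2, hL20, hL2⟩ := unif (fun q : Fin 3 × Fin 3 => hs g q.1 q.2)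
    (fun q => smooth_pd (gam_smooth hg q.2) q.1) (R + r1)
  obtain ⟨L3, hL30, hL3⟩ := unif (fun _ : Unit => φ) (fun _ => hA.smooth) (R + r1)
  obtain ⟨L4, hL40, hL4⟩ := unif (fun i => pd i φ) (fun i => smooth_pd hA.smooth i) (R + r1)
  obtain ⟨L5, hL50, hL5⟩ := unif (fun q : Fin 3 × Fin 3 => pd q.1 (pd q.2 φ))
    (fun q => smooth_pd (smooth_pd hA.smooth q.2) q.1) (R + r1)
  obtain ⟨L, hLd⟩ : ∃ L : ℝ, L = L1 + L2 + L3 + L4 + L5 := ⟨_, rfl⟩
  have hL : 0 ≤ L := by linarith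
  obtain ⟨Ke, hKe, hge⟩ := eta_grad
  obtain ⟨M, hMd⟩ : ∃ M : ℝ, M = 1 + 3 * L ^ 2 + 4 * L + (r1 + 1) * L + r1 + 3 + Real.sqrt Ke :=
    ⟨_, rfl⟩
  have hsq : 0 ≤ Real.sqrt Ke := Real.sqrt_nonneg _
  have hrL : 0 ≤ r1 * L := mul_nonneg hr1.le hL
  have hM1 : 1 ≤ M := by
    rw [hMd]
    linarith [sq_nonneg L]
  have hM0 : 0 < M := by linarith
  refine ⟨9 / 2 * (40 * M ^ 5), R, by positivity, hR, fun ε δ p hε' hδ hδ1 hp => ?_⟩
  have hr : 0 < ‖p.1 - p.2‖ := norm_pos_iff.2 (sub_ne_zero.2 hp)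
  obtain ⟨hb0, hb1, hb2⟩ := BB_le hε' ϱ δ p hp
  have hlip : ∀ v w, |ϱ v - ϱ w| ≤ ‖v - w‖ := fun v w => by
    refine (hA.rlip v w).trans ?_
    have := norm_nonneg (v - w)
    nlinarith
  -- reduction to one pair of indices
  have hred : ∀ K : ℝ, (∀ a b : Fin 3, |Iab (BB ε ϱ δ) φ g a b p| ≤ K) →
      |InN ε ϱ δ φ g p| ≤ 9 / 2 * K := by
    intro K hK
    unfold InN
    calc |∑ a : Fin 3, ∑ b : Fin 3, (1 / 2) * Iab (BB ε ϱ δ) φ g a b p|
        ≤ ∑ a : Fin 3, ∑ b : Fin 3, |(1 / 2) * Iab (BB ε ϱ δ) φ g a b p| := by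
          refine (Finset.abs_sum_le_sum_abs _ _).trans (Finset.sum_le_sum fun a _ => ?_)
          exact Finset.abs_sum_le_sum_abs _ _
      _ ≤ ∑ a : Fin 3, ∑ b : Fin 3, (1 / 2) * K := by
          refine Finset.sum_le_sum fun a _ => Finset.sum_le_sum fun b _ => ?_
          rw [abs_mul, abs_of_pos (by norm_num : (0 : ℝ) < 1 / 2)]
          exact mul_le_mul_of_nonneg_left (hK a b) (by norm_num)
      _ = 9 / 2 * K := by
          simp
          ring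
  have hBfun : BB ε ϱ δ = fun x => bet ε x * eta ϱ δ x := rfl
  have hdvB : ∀ l, dv l (BB ε ϱ δ) p = bet ε p * dv l (eta ϱ δ) p + dv l (bet ε) p * eta ϱ δ p :=
    fun l => by
      rw [hBfun]
      exact dv_mul (bet_smooth hε') (eta_smooth hA.rsmooth hδ) l p
  have hdwB : ∀ l, dw l (BB ε ϱ δ) p = bet ε p * dw l (eta ϱ δ) p + dw l (bet ε) p * eta ϱ δ p :=
    fun l => by
      rw [hBfun]
      exact dw_mul (bet_smooth hε') (eta_smooth hA.rsmooth hδ) l p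
  have hgl := fun l => hge ϱ δ hA.rsmooth hA.rnonneg hlip hδ p l
  by_cases hS : ‖p.1 - p.2‖ ^ 2 ≤ SS ϱ δ p
  swap
  · -- outside the near zone
    push Not at hS
    rw [if_neg (fun h => absurd h.2 (not_le.2 hS))]
    have he : eta ϱ δ p = 0 := eta_zero hδ hS.le
    have h := hred 0 fun a b => by
      rw [Iab_zero_B a b]
      · simp
      · rw [hBfun]
        simp [he]
      · intro l
        rw [hdvB, ((hgl l).2.2.2.2 (Or.inr hS)).1, he]
        ring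
      · intro l
        rw [hdwB, ((hgl l).2.2.2.2 (Or.inr hS)).2, he]
        ring
    simpa using h
  -- size of the pair
  have hSS : ‖p.1 - p.2‖ ≤ ϱ (mid p.1 p.2) + 1 := by
    have h1 : ‖p.1 - p.2‖ ^ 2 ≤ (ϱ (mid p.1 p.2) + 1) ^ 2 := by
      refine hS.trans ?_
      unfold SS
      have := hA.rnonneg (mid p.1 p.2)
      nlinarith
    exact le_of_sq_le_sq h1 (by
      have := hA.rnonneg (mid p.1 p.2)
      linarith)
  have hmid : ‖mid p.1 p.2‖ ≤ ‖p.1‖ + ‖p.1 - p.2‖ / 2 := by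
    have h1 : mid p.1 p.2 = p.1 - (1 / 2 : ℝ) • (p.1 - p.2) := by
      unfold mid
      module
    rw [h1]
    refine (norm_sub_le _ _).trans ?_
    rw [norm_smul, Real.norm_of_nonneg (by norm_num : (0 : ℝ) ≤ 1 / 2)]
    linarith
  have hϱm : ϱ (mid p.1 p.2) ≤ ϱ0 + 1 / 100 * ‖mid p.1 p.2‖ := by
    have h1 := hA.rlip (mid p.1 p.2) 0
    rw [sub_zero, ← hϱ0] at h1
    have h2 := (le_abs_self _).trans h1
    have h3 := norm_nonneg (mid p.1 p.2)
    nlinarith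
  have hrv : ‖p.1 - p.2‖ ≤ 2 * (ϱ0 + 1) + ‖p.1‖ / 50 := by
    have := norm_nonneg p.1
    linarith
  have hw : ‖p.2‖ ≤ ‖p.1‖ + ‖p.1 - p.2‖ := by
    have := norm_sub_norm_le p.2 p.1
    rw [norm_sub_rev] at this
    linarith
  have hw' : ‖p.1‖ ≤ ‖p.2‖ + ‖p.1 - p.2‖ := by
    have := norm_sub_norm_le p.1 p.2
    linarith
  by_cases hv : ‖p.1‖ ≤ R
  swap
  · -- far from the support
    push Not at hv
    rw [if_neg (fun h => absurd h.1 (not_le.2 hv))]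
    have hout : ∀ x : V, R0 < ‖x‖ → φ =ᶠ[𝓝 x] 0 := by
      intro x hx
      rw [← notMem_tsupport_iff_eventuallyEq]
      intro h
      have := mem_closedBall_zero_iff.1 (hR0 h)
      linarith
    have hRR : R0 ≤ |R0| := le_abs_self _
    have h1 : R0 < ‖p.1‖ := by
      have := abs_nonneg R0
      linarith
    have h2 : R0 < ‖p.2‖ := by
      have := abs_nonneg R0
      linarith
    have hz : ∀ x : V, R0 < ‖x‖ → φ x = 0 ∧ (∀ i, pd i φ x = 0) ∧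
        ∀ i j, pd i (pd j φ) x = 0 := by
      intro x hx
      have hpd : ∀ y : V, R0 < ‖y‖ → ∀ i, pd i φ y = 0 := by
        intro y hy i
        unfold pd
        rw [(hout y hy).fderiv_eq]
        simp
      refine ⟨(hout x hx).self_of_nhds, hpd x hx, fun i j => ?_⟩
      have : pd j φ =ᶠ[𝓝 x] 0 := by
        filter_upwards [(isOpen_lt continuous_const continuous_norm).mem_nhds hx] with y hy
        exact hpd y hy j
      show fderiv ℝ (pd j φ) x _ = 0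
      rw [this.fderiv_eq]
      simp
    obtain ⟨z1, z2, z3⟩ := hz p.1 h1
    obtain ⟨y1, y2, y3⟩ := hz p.2 h2
    have h := hred 0 fun a b => by
      have u1 := RR2_fst_le hA.smooth a b p 0 0 (fun i => by rw [z2 i]; simp)
        (fun i j => by rw [z3 i j]; simp)
      have u2 := RR2_snd_le hA.smooth a b p 0 0 (fun i => by rw [y2 i]; simp)
        (fun i j => by rw [y3 i j]; simp)
      rw [mul_zero, mul_zero, add_zero] at u1 u2
      rw [Iab_zero_phi hA.smooth hg a b z1 y1 ?_ ?_ (abs_nonpos_iff.1 u1) (abs_nonpos_iff.1 u2)]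
      · simp
      · rw [RR_fst hA.smooth, z2, z2]
        ring
      · rw [RR_snd hA.smooth, y2, y2]
        ring
    simpa using h
  -- main case
  rw [if_pos ⟨hv, hS⟩]
  obtain ⟨r, hrd⟩ : ∃ r : ℝ, r = ‖p.1 - p.2‖ := ⟨_, rfl⟩
  have hrr1 : r ≤ r1 := by
    rw [hrd, hr1d]
    linarith
  have hr0 : 0 < r := by rw [hrd]; exact hr
  have hp1 : ‖p.1‖ ≤ R + r1 := by linarith
  have hp2 : ‖p.2‖ ≤ R + r1 := by
    rw [hrd] at hrr1
    linarith
  have hrM : r ≤ M := by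
    rw [hMd]
    linarith [sq_nonneg L]
  have hLM : L ≤ M := by
    rw [hMd]
    linarith [sq_nonneg L]
  have hco : ∀ a : Fin 3, |p.1 a - p.2 a| ≤ r := fun a => by
    rw [hrd]
    exact coord_le p a
  have hgam1 : ∀ i, |gam i g p.1| ≤ L := fun i => ((hL1 i).1 p.1 hp1).trans (by linarith)
  have hgam2 : ∀ i, |gam i g p.2| ≤ L := fun i => ((hL1 i).1 p.2 hp2).trans (by linarith)
  have hgamd : ∀ i, |gam i g p.1 - gam i g p.2| ≤ L * r := fun i => by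
    rw [hrd]
    exact ((hL1 i).2 p.1 p.2 hp1 hp2).trans (mul_le_mul_of_nonneg_right (by linarith)
      (norm_nonneg _))
  have hhs1 : ∀ i j, |hs g i j p.1| ≤ L := fun i j =>
    ((hL2 (i, j)).1 p.1 hp1).trans (by linarith)
  have hhs2 : ∀ i j, |hs g i j p.2| ≤ L := fun i j =>
    ((hL2 (i, j)).1 p.2 hp2).trans (by linarith)
  have hphi1 : |φ p.1| ≤ L := ((hL3 ()).1 p.1 hp1).trans (by linarith)
  have hphi2 : |φ p.2| ≤ L := ((hL3 ()).1 p.2 hp2).trans (by linarith)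
  have hphid : |φ p.1 - φ p.2| ≤ L * r := by
    rw [hrd]
    exact ((hL3 ()).2 p.1 p.2 hp1 hp2).trans (mul_le_mul_of_nonneg_right (by linarith)
      (norm_nonneg _))
  have hpd1 : ∀ i, |pd i φ p.1| ≤ L := fun i => ((hL4 i).1 p.1 hp1).trans (by linarith)
  have hpd2 : ∀ i, |pd i φ p.2| ≤ L := fun i => ((hL4 i).1 p.2 hp2).trans (by linarith)
  have hpp1 : ∀ i j, |pd i (pd j φ) p.1| ≤ L := fun i j =>
    ((hL5 (i, j)).1 p.1 hp1).trans (by linarith)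
  have hpp2 : ∀ i j, |pd i (pd j φ) p.2| ≤ L := fun i j =>
    ((hL5 (i, j)).1 p.2 hp2).trans (by linarith)
  have hx2 : ∀ x : V, (∀ i, |gam i g x| ≤ L) → |x2 g x| ≤ M := by
    intro x hx
    unfold x2
    rw [abs_of_nonneg (Finset.sum_nonneg fun i _ => sq_nonneg _)]
    have h1 : ∑ i : Fin 3, gam i g x ^ 2 ≤ ∑ _i : Fin 3, L ^ 2 :=
      Finset.sum_le_sum fun i _ => by
        rw [← sq_abs]
        exact pow_le_pow_left₀ (abs_nonneg _) (hx i) 2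
    have h2 : ∑ _i : Fin 3, L ^ 2 = 3 * L ^ 2 := by simp
    rw [hMd]
    linarith
  -- derivatives of the kernel
  have hSSr : 1 / SS ϱ δ p ≤ 1 / r ^ 2 := by
    rw [hrd]
    exact one_div_le_one_div_of_le (by positivity) hS
  have heta1 := eta_le_one ϱ δ p
  have heta0 := eta_nonneg ϱ δ p
  have hSp := SS_pos ϱ hδ p
  have hed : ∀ x : ℝ, x ^ 2 ≤ Ke * eta ϱ δ p / SS ϱ δ p → |x| ≤ Real.sqrt Ke / r := by
    intro x hx
    refine abs_le_of_sq_le_sq ?_ (by positivity)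
    refine hx.trans ?_
    rw [div_pow, Real.sq_sqrt hKe.le]
    calc Ke * eta ϱ δ p / SS ϱ δ p = Ke * eta ϱ δ p * (1 / SS ϱ δ p) := by ring
      _ ≤ Ke * 1 * (1 / r ^ 2) := by gcongr
      _ = Ke / r ^ 2 := by ring
  rw [← hrd] at hb1 hb2
  have hrE : 0 < rE ε p := hr0.trans_le hb2
  have hdbet : ∀ a : Fin 3, |3 * (p.1 a - p.2 a) / rE ε p ^ 2 * bet ε p| ≤ 3 * (r ^ 4)⁻¹ := by
    intro a
    rw [abs_mul, abs_div, abs_mul, abs_of_pos (by norm_num : (0 : ℝ) < 3),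
      abs_of_pos (show 0 < rE ε p ^ 2 by positivity), abs_of_nonneg hb0]
    calc 3 * |p.1 a - p.2 a| / rE ε p ^ 2 * bet ε p ≤ 3 * r / r ^ 2 * (r ^ 3)⁻¹ := by
          refine mul_le_mul ?_ hb1 hb0 (by positivity)
          refine div_le_div₀ (by positivity) ?_ (by positivity) (pow_le_pow_left₀ hr0.le hb2 2)
          exact mul_le_mul_of_nonneg_left (hco a) (by norm_num)
      _ = 3 * (r ^ 4)⁻¹ := by field_simp
  have hBd : ∀ x y : ℝ, |x| ≤ Real.sqrt Ke / r → |y| ≤ 3 * (r ^ 4)⁻¹ →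
      |bet ε p * x + y * eta ϱ δ p| ≤ M * (r ^ 4)⁻¹ := by
    intro x y hx hy
    have e1 : |bet ε p| ≤ (r ^ 3)⁻¹ := by
      rw [abs_of_nonneg hb0]
      exact hb1
    have e2 : |eta ϱ δ p| ≤ 1 := by
      rw [abs_of_nonneg heta0]
      exact heta1
    refine (abs_add_le _ _).trans ?_
    have e3 := mulb e1 hx
    have e4 := mulb hy e2
    have e5 : (r ^ 3)⁻¹ * (Real.sqrt Ke / r) = Real.sqrt Ke * (r ^ 4)⁻¹ := by field_simp
    rw [e5] at e3
    have e6 : (Real.sqrt Ke + 3) * (r ^ 4)⁻¹ ≤ M * (r ^ 4)⁻¹ := by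
      refine mul_le_mul_of_nonneg_right ?_ (by positivity)
      rw [hMd]
      linarith [sq_nonneg L]
    linarith
  have hfin := hred (40 * M ^ 5 / r ^ 2) fun a b => by
    refine Iab_le hA.smooth hg a b hr0 hM1 hrM ?_ ?_ ?_ (fun i => (hgam1 i).trans hLM)
      (fun i => (hgam2 i).trans hLM) (hx2 _ hgam1) (hx2 _ hgam2) (hphi1.trans hLM)
      (hphi2.trans hLM) (hphid.trans (mul_le_mul_of_nonneg_right hLM hr0.le)) ?_ ?_ ?_ ?_ ?_ ?_ ?_
      ?_ ?_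
    · rw [hBfun]
      show |bet ε p * eta ϱ δ p| ≤ _
      rw [abs_mul, abs_of_nonneg hb0, abs_of_nonneg heta0]
      exact (mul_le_of_le_one_right hb0 heta1).trans hb1
    · intro l
      rw [hdvB l, dv_bet hε']
      refine hBd _ _ (hed _ (hgl l).1) ?_
      rw [abs_neg]
      exact hdbet l
    · intro l
      rw [hdwB l, dw_bet hε']
      exact hBd _ _ (hed _ (hgl l).2.1) (hdbet l)
    · rw [RR_fst hA.smooth]
      have e1 := abs_le.1 (mulb (hco a) (hpd1 b))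
      have e2 := abs_le.1 (mulb (hco b) (hpd1 a))
      have e3 : r * L ≤ M * r := by
        rw [mul_comm]
        exact mul_le_mul_of_nonneg_right hLM hr0.le
      rw [abs_le]
      constructor <;> linarith [e1.1, e1.2, e2.1, e2.2]
    · rw [RR_snd hA.smooth]
      have e1 := abs_le.1 (mulb (hco a) (hpd2 b))
      have e2 := abs_le.1 (mulb (hco b) (hpd2 a))
      have e3 : r * L ≤ M * r := by
        rw [mul_comm]
        exact mul_le_mul_of_nonneg_right hLM hr0.le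
      rw [abs_le]
      constructor <;> linarith [e1.1, e1.2, e2.1, e2.2]
    · refine (RR2_fst_le hA.smooth a b p L L hpd1 hpp1).trans ?_
      rw [← hrd]
      have e1 : r * r * L ≤ r1 * r * L := by gcongr
      have e2 : ((r1 + 1) * L) * r ≤ M * r := by
        refine mul_le_mul_of_nonneg_right ?_ hr0.le
        rw [hMd]
        linarith [sq_nonneg L]
      nlinarith
    · refine (RR2_snd_le hA.smooth a b p L L hpd2 hpp2).trans ?_
      rw [← hrd]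
      have e1 : r * r * L ≤ r1 * r * L := by gcongr
      have e2 : ((r1 + 1) * L) * r ≤ M * r := by
        refine mul_le_mul_of_nonneg_right ?_ hr0.le
        rw [hMd]
        linarith [sq_nonneg L]
      nlinarith
    · unfold XX
      have e1 := abs_le.1 (mulb (hco a) (hgamd b))
      have e2 := abs_le.1 (mulb (hco b) (hgamd a))
      have e3 : 2 * L * r ^ 2 ≤ M * r ^ 2 := by
        refine mul_le_mul_of_nonneg_right ?_ (by positivity)
        rw [hMd]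
        linarith [sq_nonneg L]
      rw [abs_le]
      constructor <;> linarith [e1.1, e1.2, e2.1, e2.2]
    · intro l
      unfold DX
      have e1 := abs_le.1 (mulb (abs_kd l a) (hgamd b))
      have e2 := abs_le.1 (mulb (hco a) (hhs1 b l))
      have e3 := abs_le.1 (mulb (abs_kd l b) (hgamd a))
      have e4 := abs_le.1 (mulb (hco b) (hhs1 a l))
      have e5 : 4 * L * r ≤ M * r := by
        refine mul_le_mul_of_nonneg_right ?_ hr0.le
        rw [hMd]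
        linarith [sq_nonneg L]
      rw [abs_le]
      constructor <;> linarith [e1.1, e1.2, e2.1, e2.2, e3.1, e3.2, e4.1, e4.2]
    · intro l
      unfold DX
      have s1 : ∀ i, |gam i g p.2 - gam i g p.1| ≤ L * r := fun i => by
        rw [abs_sub_comm]
        exact hgamd i
      have s2 : ∀ i : Fin 3, |p.2 i - p.1 i| ≤ r := fun i => by
        rw [abs_sub_comm]
        exact hco i
      have e1 := abs_le.1 (mulb (abs_kd l a) (s1 b))
      have e2 := abs_le.1 (mulb (s2 a) (hhs2 b l))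
      have e3 := abs_le.1 (mulb (abs_kd l b) (s1 a))
      have e4 := abs_le.1 (mulb (s2 b) (hhs2 a l))
      have e5 : 4 * L * r ≤ M * r := by
        refine mul_le_mul_of_nonneg_right ?_ hr0.le
        rw [hMd]
        linarith [sq_nonneg L]
      rw [abs_le]
      constructor <;> linarith [e1.1, e1.2, e2.1, e2.2, e3.1, e3.2, e4.1, e4.2]
    · intro l
      rw [RR_fst (gam_smooth hg l)]
      have e1 := abs_le.1 (mulb (hco a) (hhs1 b l))
      have e2 := abs_le.1 (mulb (hco b) (hhs1 a l))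
      have e3 : r * L ≤ M * r := by
        rw [mul_comm]
        exact mul_le_mul_of_nonneg_right hLM hr0.le
      unfold hs at e1 e2
      rw [abs_le]
      constructor <;> linarith [e1.1, e1.2, e2.1, e2.2]
    · intro l
      rw [RR_snd (gam_smooth hg l)]
      have e1 := abs_le.1 (mulb (hco a) (hhs2 b l))
      have e2 := abs_le.1 (mulb (hco b) (hhs2 a l))
      have e3 : r * L ≤ M * r := by
        rw [mul_comm]
        exact mul_le_mul_of_nonneg_right hLM hr0.le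
      unfold hs at e1 e2
      rw [abs_le]
      constructor <;> linarith [e1.1, e1.2, e2.1, e2.2]
  rw [← hrd]
  calc |InN ε ϱ δ φ g p| ≤ 9 / 2 * (40 * M ^ 5 / r ^ 2) := hfin
    _ = 9 / 2 * (40 * M ^ 5) / r ^ 2 := by ring

end Pool.Agent.LandauF
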