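import Pool.Agent.LandauF.NDefs

/-!
# LandauF, module PairCZ: centre and difference coordinates

`v = c + z/2`, `w = c - z/2` is a linear bijection of `V × V` of determinant of absolute value `1`
(compose the shears `(c, z) ↦ (c + z/2, z)`, `(v, z) ↦ (v, v - z)`; each is measure preserving, e.g. with
`measurePreserving_add_prod`-type lemmas or `Measure.map_linearMap_addHaar_eq_smul_addHaar`).
-/

set_option autoImplicit false

namespace Pool.Agent.LandauF

open MeasureTheory Set Filter Topology Pool.Agent.Landau

/-- first point from centre and difference -/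
noncomputable def pv (c z : V) : V := c + (1 / 2 : ℝ) • z

/-- second point from centre and difference -/
noncomputable def pw (c z : V) : V := c - (1 / 2 : ℝ) • z

theorem mid_cz (c z : V) : mid (pv c z) (pw c z) = c := by
  unfold mid pv pw
  module

theorem sub_cz (c z : V) : pv c z - pw c z = z := by
  unfold pv pw
  module

theorem measurePreserving_cz :
    MeasurePreserving (fun q : V × V => (pv q.1 q.2, pw q.1 q.2))
      ((volume : Measure V).prod volume) ((volume : Measure V).prod volume) := by
  have h1 : MeasurePreserving (fun p : V × V => (p.1, p.2 + (1 / 2 : ℝ) • p.1))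
      ((volume : Measure V).prod volume) ((volume : Measure V).prod volume) := by
    refine MeasurePreserving.skew_product (f := id) (g := fun z c : V => c + (1 / 2 : ℝ) • z)
      (MeasurePreserving.id _) ?_ ?_
    · show Measurable fun p : V × V => p.2 + (1 / 2 : ℝ) • p.1
      fun_prop
    · exact Filter.Eventually.of_forall fun z =>
        (measurePreserving_add_right (volume : Measure V) ((1 / 2 : ℝ) • z)).map_eq
  have h2 : MeasurePreserving (fun p : V × V => (p.1, p.1 - p.2))
      ((volume : Measure V).prod volume) ((volume : Measure V).prod volume) := by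
    refine MeasurePreserving.skew_product (f := id) (g := fun v z : V => v - z)
      (MeasurePreserving.id _) ?_ ?_
    · exact measurable_fst.sub measurable_snd
    · exact Filter.Eventually.of_forall fun v =>
        (Measure.measurePreserving_sub_left (volume : Measure V) v).map_eq
  have hs : MeasurePreserving (Prod.swap : V × V → V × V)
      ((volume : Measure V).prod volume) ((volume : Measure V).prod volume) :=
    Measure.measurePreserving_swap
  have h3 := h2.comp (hs.comp (h1.comp hs))
  have h4 : ((fun p : V × V => (p.1, p.1 - p.2)) ∘
      (Prod.swap ∘ ((fun p : V × V => (p.1, p.2 + (1 / 2 : ℝ) • p.1)) ∘ Prod.swap))) =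
      fun q : V × V => (pv q.1 q.2, pw q.1 q.2) := by
    funext q
    obtain ⟨c, z⟩ := q
    show (c + (1 / 2 : ℝ) • z, c + (1 / 2 : ℝ) • z - z) = (pv c z, pw c z)
    refine Prod.ext rfl ?_
    show c + (1 / 2 : ℝ) • z - z = c - (1 / 2 : ℝ) • z
    module
  rw [h4] at h3
  exact h3

theorem lintegral_cz {f : V × V → ENNReal} (hf : Measurable f) :
    ∫⁻ p, f p ∂((volume : Measure V).prod volume) = ∫⁻ c, ∫⁻ z, f (pv c z, pw c z) := by
  rw [← measurePreserving_cz.lintegral_comp hf, lintegral_prod]
  exact (hf.comp measurePreserving_cz.measurable).aemeasurable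

end Pool.Agent.LandauF
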