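import Pool.Agent.LandauF.SSph
import Pool.Agent.LandauF.PairCZ
import Pool.Agent.LandauF.NTrans

/-!
# LandauF, module SPH: the sphere inequality for pairs

Fix `c` and `r > 0`, `g` positive smooth, `u(z) = log g(c + z/2) + log g(c - z/2)` (even in `z`),
`U(x) = u(r x/‖x‖)`: then `Hom0 U`.  With `L_ab = x_a ∂_b - x_b ∂_a` (commutes with `x ↦ r x/‖x‖`): for
`‖x‖ = 1`, `z = r x`, `v = c + z/2`, `w = c - z/2`: `L_ab U(x) = ½ XX g a b v w` (`∂_z = ½(∂_v - ∂_w)`), and
`L_cd L_ab U(x) = ¼ (z_c XL_abd - z_d XL_abc)`.  For `U` homogeneous of degree 0, at `‖x‖ = 1`: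
`½ ∑_ab (L_ab U)² = n1 U x` and
`¼ ∑_ab ∑_cd (L_cd L_ab U)² = n2 U x - n1 U x` (for fixed `a, b`, `½ ∑_cd (L_cd h)² = ‖x‖² |Dh|² - (x·Dh)²` with
`h = L_ab U`, `x·Dh = 0`, and `∑_ab |D L_ab U|² = 2 n2 - 2 n1` at `‖x‖ = 1` by expansion with
`∑ x_j ∂_ij U = -∂_i U`).  So `n1 = ⅛ ∑ XX²` and
`n2 - n1 = (1/64) ∑_ab ∑_cd (z_c XL_abd - z_d XL_abc)² = (1/32) ∑_ab (r² ∑_l XL² - (∑ z_l XL)²)`.
`sph_ineq` gives `3 ∫ e^u n1 ≤ ∫ e^u (n2 - n1)` on the sphere of radius `r`:
`∑ XX² ≤ (1/12) ∑_ab (r² ∑_l XL² - (z·XL)²)` integrated against `F = e^u`; polar coordinates in `z`.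
-/

set_option autoImplicit false

namespace Pool.Agent.LandauF

open MeasureTheory Set Filter Topology Pool.Agent.Landau

/-! ### algebra -/

private theorem alg_T (x G : Fin 3 → ℝ) (H : Fin 3 → Fin 3 → ℝ) (hs : ∀ i j, H i j = H j i)
    (h1 : ∑ i : Fin 3, x i ^ 2 = 1) (h2 : ∑ i : Fin 3, x i * G i = 0)
    (h3 : ∀ l, ∑ i : Fin 3, x i * H l i = - G l) :
    ∑ a : Fin 3, ∑ b : Fin 3, ∑ l : Fin 3,
      (kd l a * G b + x a * H l b - kd l b * G a - x b * H l a) ^ 2 =
      2 * (∑ i : Fin 3, ∑ j : Fin 3, H i j ^ 2) - 2 * ∑ i : Fin 3, G i ^ 2 := by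
  have h30 := h3 0
  have h31 := h3 1
  have h32 := h3 2
  have k00 : kd 0 0 = 1 := if_pos rfl
  have k11 : kd 1 1 = 1 := if_pos rfl
  have k22 : kd 2 2 = 1 := if_pos rfl
  have k01 : kd 0 1 = 0 := if_neg (by decide)
  have k02 : kd 0 2 = 0 := if_neg (by decide)
  have k10 : kd 1 0 = 0 := if_neg (by decide)
  have k12 : kd 1 2 = 0 := if_neg (by decide)
  have k20 : kd 2 0 = 0 := if_neg (by decide)
  have k21 : kd 2 1 = 0 := if_neg (by decide)
  simp only [Fin.sum_univ_three] at h1 h2 h30 h31 h32 ⊢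
  simp only [k00, k11, k22, k01, k02, k10, k12, k20, k21]
  simp only [hs 1 0, hs 2 0, hs 2 1] at h30 h31 h32 ⊢
  linear_combination (2 * (H 0 0 ^ 2 + H 0 1 ^ 2 + H 0 2 ^ 2 + (H 0 1 ^ 2 + H 1 1 ^ 2 + H 1 2 ^ 2)
      + (H 0 2 ^ 2 + H 1 2 ^ 2 + H 2 2 ^ 2))) * h1
    + 4 * G 0 * h30 + 4 * G 1 * h31 + 4 * G 2 * h32
    - 4 * (H 0 0 + H 1 1 + H 2 2) * h2
    - 2 * ((x 0 * H 0 0 + x 1 * H 0 1 + x 2 * H 0 2) - G 0) * h30
    - 2 * ((x 0 * H 0 1 + x 1 * H 1 1 + x 2 * H 1 2) - G 1) * h31
    - 2 * ((x 0 * H 0 2 + x 1 * H 1 2 + x 2 * H 2 2) - G 2) * h32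

private theorem alg_L (x T : Fin 3 → ℝ) :
    ∑ c : Fin 3, ∑ d : Fin 3, (x c * T d - x d * T c) ^ 2 =
      2 * ((∑ i : Fin 3, x i ^ 2) * (∑ i : Fin 3, T i ^ 2) - (∑ i : Fin 3, x i * T i) ^ 2) := by
  simp only [Fin.sum_univ_three]
  ring

/-! ### the radial projection -/

private noncomputable def nr (r : ℝ) (x : V) : V := (r * ‖x‖⁻¹) • x

private theorem nr_contDiffOn (r : ℝ) : ContDiffOn ℝ (⊤ : ℕ∞) (nr r) {0}ᶜ := by
  unfold nr
  have h1 : ContDiffOn ℝ (⊤ : ℕ∞) (fun x : V => ‖x‖) {0}ᶜ := fun x hx =>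
    (contDiffAt_norm ℝ hx).contDiffWithinAt
  have h2 : ContDiffOn ℝ (⊤ : ℕ∞) (fun x : V => ‖x‖⁻¹) {0}ᶜ :=
    h1.inv fun x hx => (norm_pos_iff.2 hx).ne'
  exact (contDiffOn_const.mul h2).smul contDiffOn_id

private theorem nr_smul (r t : ℝ) (x : V) (ht : 0 < t) : nr r (t • x) = nr r x := by
  unfold nr
  rw [norm_smul, Real.norm_eq_abs, abs_of_pos ht, smul_smul, mul_inv]
  congr 1
  field_simp

private theorem nr_neg (r : ℝ) (x : V) : nr r (-x) = - nr r x := by
  unfold nr
  rw [norm_neg, smul_neg]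

private theorem nr_unit (r : ℝ) {x : V} (hx : ‖x‖ = 1) : nr r x = r • x := by
  unfold nr
  rw [hx, inv_one, mul_one]

private theorem fderiv_norm_orth {x τ : V} (hx : x ≠ 0) (hτ : inner ℝ x τ = (0 : ℝ)) :
    fderiv ℝ (fun y : V => ‖y‖) x τ = 0 := by
  have h0 : DifferentiableAt ℝ (fun y : V => ‖y‖) x :=
    (contDiffAt_norm (n := 1) ℝ hx).differentiableAt (by norm_num)
  have h1 : fderiv ℝ (fun y : V => ‖y‖ ^ 2) x τ = 0 := by
    have h : HasFDerivAt (fun z : V => ‖z‖ ^ 2) (2 • (innerSL ℝ x)) x :=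
      (hasStrictFDerivAt_norm_sq x).hasFDerivAt
    rw [h.fderiv]
    simp [hτ]
  have h2 : (fun y : V => ‖y‖ ^ 2) = fun y : V => ‖y‖ * ‖y‖ := by
    funext y
    ring
  rw [h2, fderiv_fun_mul h0 h0] at h1
  simp only [_root_.add_apply, _root_.smul_apply, smul_eq_mul] at h1
  have h5 : 0 < ‖x‖ := norm_pos_iff.2 hx
  have h6 : ‖x‖ * (2 * fderiv ℝ (fun y : V => ‖y‖) x τ) = 0 := by linarith
  rcases mul_eq_zero.1 h6 with h7 | h7
  · exact absurd h7 h5.ne'
  · linarith

private theorem fderiv_nr (r : ℝ) {x τ : V} (hx : x ≠ 0) (hτ : inner ℝ x τ = (0 : ℝ)) :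
    fderiv ℝ (nr r) x τ = (r * ‖x‖⁻¹) • τ := by
  have h0 : DifferentiableAt ℝ (fun y : V => ‖y‖) x :=
    (contDiffAt_norm (n := 1) ℝ hx).differentiableAt (by norm_num)
  have h5 : 0 < ‖x‖ := norm_pos_iff.2 hx
  have h1 : HasFDerivAt (fun y : V => r * ‖y‖⁻¹)
      ((r * -(‖x‖ ^ 2)⁻¹) • fderiv ℝ (fun y : V => ‖y‖) x) x := by
    have h := ((hasDerivAt_inv h5.ne').const_mul r).comp_hasFDerivAt x h0.hasFDerivAt
    exact h
  have h2 : HasFDerivAt (fun y : V => y) (ContinuousLinearMap.id ℝ V) x := hasFDerivAt_id x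
  have h3 := h1.smul h2
  have h4 : fderiv ℝ (nr r) x = _ := h3.fderiv
  rw [h4]
  simp [fderiv_norm_orth hx hτ]

private theorem rot_nr {h : V → ℝ} (r : ℝ) {x : V} (hx : x ≠ 0)
    (hh : DifferentiableAt ℝ h (nr r x)) (a b : Fin 3) :
    x a * pd b (fun y => h (nr r y)) x - x b * pd a (fun y => h (nr r y)) x =
      nr r x a * pd b h (nr r x) - nr r x b * pd a h (nr r x) := by
  have h1 : DifferentiableAt ℝ (nr r) x :=
    ((nr_contDiffOn r).contDiffAt (isOpen_compl_singleton.mem_nhds hx)).differentiableAt (by simp)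
  have h2 : fderiv ℝ (fun y => h (nr r y)) x = (fderiv ℝ h (nr r x)).comp (fderiv ℝ (nr r) x) :=
    fderiv_comp x hh h1
  let τ : V := x a • EuclideanSpace.single b (1 : ℝ) - x b • EuclideanSpace.single a (1 : ℝ)
  have hτ : inner ℝ x τ = (0 : ℝ) := by
    simp only [τ, inner_sub_right, inner_smul_right, EuclideanSpace.inner_single_right]
    simp
    ring
  have h3 : x a * pd b (fun y => h (nr r y)) x - x b * pd a (fun y => h (nr r y)) x =
      fderiv ℝ h (nr r x) (fderiv ℝ (nr r) x τ) := by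
    simp only [pd, h2, τ, map_sub, map_smul, ContinuousLinearMap.comp_apply, smul_eq_mul]
  have h4 : nr r x a * pd b h (nr r x) - nr r x b * pd a h (nr r x) =
      fderiv ℝ h (nr r x) ((r * ‖x‖⁻¹) • τ) := by
    simp only [pd, τ, map_sub, map_smul, smul_eq_mul]
    have e1 : ∀ i, nr r x i = (r * ‖x‖⁻¹) * x i := fun i => rfl
    rw [e1, e1]
    ring
  rw [h3, h4, fderiv_nr r hx hτ]


/-! ### derivatives in the difference variable -/

private theorem pd_pv {f : V → ℝ} (hf : Differentiable ℝ f) (c : V) (l : Fin 3) (z : V) :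
    pd l (fun z => f (pv c z)) z = (1 / 2) * pd l f (pv c z) := by
  have h1 : HasFDerivAt (pv c) ((1 / 2 : ℝ) • ContinuousLinearMap.id ℝ V) z := by
    unfold pv
    exact ((hasFDerivAt_id z).const_smul (1 / 2 : ℝ)).const_add c
  have h2 := (hf (pv c z)).hasFDerivAt.comp z h1
  have h3 : fderiv ℝ (fun z => f (pv c z)) z = _ := h2.fderiv
  unfold pd
  rw [h3]
  simp

private theorem pd_pw {f : V → ℝ} (hf : Differentiable ℝ f) (c : V) (l : Fin 3) (z : V) :
    pd l (fun z => f (pw c z)) z = -(1 / 2) * pd l f (pw c z) := by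
  have h1 : HasFDerivAt (pw c) (-((1 / 2 : ℝ) • ContinuousLinearMap.id ℝ V)) z := by
    unfold pw
    exact ((hasFDerivAt_id z).const_smul (1 / 2 : ℝ)).const_sub c
  have h2 := (hf (pw c z)).hasFDerivAt.comp z h1
  have h3 : fderiv ℝ (fun z => f (pw c z)) z = _ := h2.fderiv
  unfold pd
  rw [h3]
  simp

private theorem contDiff_pv (c : V) : ContDiff ℝ (⊤ : ℕ∞) (pv c) := by
  unfold pv
  exact contDiff_const.add (contDiff_id.const_smul _)

private theorem contDiff_pw (c : V) : ContDiff ℝ (⊤ : ℕ∞) (pw c) := by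
  unfold pw
  exact contDiff_const.sub (contDiff_id.const_smul _)

private theorem smooth_log {g : V → ℝ} (hg : Dn g) :
    ContDiff ℝ (⊤ : ℕ∞) (fun v => Real.log (g v)) :=
  hg.cls.smooth.log fun v => (hg.pos v).ne'

private theorem smooth_gam {g : V → ℝ} (hg : Dn g) (i : Fin 3) : ContDiff ℝ (⊤ : ℕ∞) (gam i g) :=
  (smooth_pd hg.cls.smooth i).div hg.cls.smooth fun v => (hg.pos v).ne'

private theorem pd_log {g : V → ℝ} (hg : Dn g) (l : Fin 3) (v : V) :
    pd l (fun x => Real.log (g x)) v = gam l g v := by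
  rw [pd_comp (differentiable_of_smooth hg.cls.smooth v) (Real.hasDerivAt_log (hg.pos v).ne') l]
  unfold gam
  rw [div_eq_mul_inv, mul_comm]

private noncomputable def uz (g : V → ℝ) (c z : V) : ℝ :=
  Real.log (g (pv c z)) + Real.log (g (pw c z))

private theorem smooth_uz {g : V → ℝ} (hg : Dn g) (c : V) : ContDiff ℝ (⊤ : ℕ∞) (uz g c) :=
  ((smooth_log hg).comp (contDiff_pv c)).add ((smooth_log hg).comp (contDiff_pw c))

private theorem pd_uz {g : V → ℝ} (hg : Dn g) (c : V) (l : Fin 3) (z : V) :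
    pd l (uz g c) z = (1 / 2) * (gam l g (pv c z) - gam l g (pw c z)) := by
  have h1 : DifferentiableAt ℝ (fun z => Real.log (g (pv c z))) z :=
    differentiable_of_smooth ((smooth_log hg).comp (contDiff_pv c)) z
  have h2 : DifferentiableAt ℝ (fun z => Real.log (g (pw c z))) z :=
    differentiable_of_smooth ((smooth_log hg).comp (contDiff_pw c)) z
  have h3 : pd l (uz g c) z = _ := pd_add h1 h2 l
  have h4 := pd_pv (differentiable_of_smooth (smooth_log hg)) c l z
  have h5 := pd_pw (differentiable_of_smooth (smooth_log hg)) c l z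
  rw [h3, h4, h5, pd_log hg, pd_log hg]
  ring

private noncomputable def hab (g : V → ℝ) (a b : Fin 3) (c z : V) : ℝ :=
  (1 / 2) * XX g a b (pv c z) (pw c z)

private theorem sub_apply' (c z : V) (a : Fin 3) : pv c z a - pw c z a = z a := by
  have := sub_cz c z
  have h2 : (pv c z - pw c z) a = z a := by rw [this]
  exact h2

private theorem hab_eq (g : V → ℝ) (a b : Fin 3) (c z : V) :
    hab g a b c z = (1 / 2) * (z a * (gam b g (pv c z) - gam b g (pw c z))
      - z b * (gam a g (pv c z) - gam a g (pw c z))) := by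
  unfold hab XX
  rw [sub_apply', sub_apply']

private theorem rot_uz {g : V → ℝ} (hg : Dn g) (a b : Fin 3) (c z : V) :
    z a * pd b (uz g c) z - z b * pd a (uz g c) z = hab g a b c z := by
  rw [pd_uz hg, pd_uz hg, hab_eq]
  ring

private theorem diff_gd {g : V → ℝ} (hg : Dn g) (b : Fin 3) (c : V) :
    ContDiff ℝ (⊤ : ℕ∞) (fun z => gam b g (pv c z) - gam b g (pw c z)) :=
  ((smooth_gam hg b).comp (contDiff_pv c)).sub ((smooth_gam hg b).comp (contDiff_pw c))

private theorem smooth_coord (a : Fin 3) : ContDiff ℝ (⊤ : ℕ∞) (fun z : V => z a) :=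
  (EuclideanSpace.proj a : V →L[ℝ] ℝ).contDiff

private theorem pd_gd {g : V → ℝ} (hg : Dn g) (b l : Fin 3) (c z : V) :
    pd l (fun z => gam b g (pv c z) - gam b g (pw c z)) z =
      (1 / 2) * (hs g l b (pv c z) + hs g l b (pw c z)) := by
  have h1 : DifferentiableAt ℝ (fun z => gam b g (pv c z)) z :=
    differentiable_of_smooth ((smooth_gam hg b).comp (contDiff_pv c)) z
  have h2 : DifferentiableAt ℝ (fun z => gam b g (pw c z)) z :=
    differentiable_of_smooth ((smooth_gam hg b).comp (contDiff_pw c)) z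
  have h3 : pd l (fun z => gam b g (pv c z) - gam b g (pw c z)) z =
      pd l (fun z => gam b g (pv c z)) z - pd l (fun z => gam b g (pw c z)) z := by
    unfold pd
    rw [fderiv_fun_sub h1 h2]
    simp
  have h4 := pd_pv (differentiable_of_smooth (smooth_gam hg b)) c l z
  have h5 := pd_pw (differentiable_of_smooth (smooth_gam hg b)) c l z
  rw [h3, h4, h5]
  unfold hs
  ring

private theorem pd_coord' (i j : Fin 3) (z : V) : pd j (fun z : V => z i) z = kd j i := by
  unfold pd
  have h : HasFDerivAt (fun z : V => z i) (EuclideanSpace.proj i : V →L[ℝ] ℝ) z :=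
    (EuclideanSpace.proj i : V →L[ℝ] ℝ).hasFDerivAt
  rw [h.fderiv]
  unfold kd
  simp [eq_comm]

private theorem smooth_hab {g : V → ℝ} (hg : Dn g) (a b : Fin 3) (c : V) :
    ContDiff ℝ (⊤ : ℕ∞) (hab g a b c) := by
  have : hab g a b c = fun z => (1 / 2) * (z a * (gam b g (pv c z) - gam b g (pw c z))
      - z b * (gam a g (pv c z) - gam a g (pw c z))) := by
    funext z
    exact hab_eq g a b c z
  rw [this]
  exact contDiff_const.mul (((smooth_coord a).mul (diff_gd hg b c)).sub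
    ((smooth_coord b).mul (diff_gd hg a c)))

private theorem pd_hab {g : V → ℝ} (hg : Dn g) (a b l : Fin 3) (c z : V) :
    pd l (hab g a b c) z = (1 / 4) * XL g a b l (pv c z) (pw c z) := by
  have : hab g a b c = fun z => (1 / 2) * (z a * (gam b g (pv c z) - gam b g (pw c z))
      - z b * (gam a g (pv c z) - gam a g (pw c z))) := by
    funext z
    exact hab_eq g a b c z
  rw [this]
  have da := differentiable_of_smooth (diff_gd hg a c) z
  have db := differentiable_of_smooth (diff_gd hg b c) z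
  have ca := differentiable_of_smooth (smooth_coord a) z
  have cb := differentiable_of_smooth (smooth_coord b) z
  have h1 := pd_mul ca db l
  have h2 := pd_mul cb da l
  have h3 : pd l (fun z => (1 / 2) * (z a * (gam b g (pv c z) - gam b g (pw c z))
      - z b * (gam a g (pv c z) - gam a g (pw c z)))) z =
      (1 / 2) * (pd l (fun z => z a * (gam b g (pv c z) - gam b g (pw c z))) z
      - pd l (fun z => z b * (gam a g (pv c z) - gam a g (pw c z))) z) := by
    have e1 : DifferentiableAt ℝ (fun z => z a * (gam b g (pv c z) - gam b g (pw c z))) z := ca.mul db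
    have e2 : DifferentiableAt ℝ (fun z => z b * (gam a g (pv c z) - gam a g (pw c z))) z := cb.mul da
    have e3 : DifferentiableAt ℝ (fun z => z a * (gam b g (pv c z) - gam b g (pw c z))
      - z b * (gam a g (pv c z) - gam a g (pw c z))) z := e1.sub e2
    unfold pd
    rw [fderiv_const_mul e3, fderiv_fun_sub e1 e2]
    simp
  rw [h3, h1, h2, pd_gd hg, pd_gd hg, pd_coord', pd_coord']
  unfold XL DX
  have s1 : pv c z a - pw c z a = z a := sub_apply' c z a
  have s2 : pv c z b - pw c z b = z b := sub_apply' c z b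
  have s3 : pw c z a - pv c z a = - z a := by linarith
  have s4 : pw c z b - pv c z b = - z b := by linarith
  rw [s1, s2, s3, s4, hs_symm hg l b, hs_symm hg l b, hs_symm hg l a, hs_symm hg l a]
  ring

/-! ### functions homogeneous of degree `0` -/

private theorem hom0_cda {U : V → ℝ} (hU : Hom0 U) {x : V} (hx : x ≠ 0) :
    ContDiffAt ℝ (⊤ : ℕ∞) U x :=
  hU.smooth.contDiffAt (isOpen_compl_singleton.mem_nhds hx)

private theorem hom0_fd {U : V → ℝ} (hU : Hom0 U) {x : V} (hx : x ≠ 0) :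
    DifferentiableAt ℝ (fderiv ℝ U) x := by
  have h1 : ContDiffAt ℝ 1 (fderiv ℝ U) x :=
    ((hom0_cda hU hx).of_le (m := 2) ENat.LEInfty.out).fderiv_right
      (m := 1) (by norm_num)
  exact h1.differentiableAt (by norm_num)

private theorem hom0_pdiff {U : V → ℝ} (hU : Hom0 U) {x : V} (hx : x ≠ 0) (i : Fin 3) :
    DifferentiableAt ℝ (pd i U) x := by
  unfold pd
  exact (hom0_fd hU hx).clm_apply (differentiableAt_const _)

private theorem sum_basis (x : V) :
    ∑ i : Fin 3, x i • EuclideanSpace.single i (1 : ℝ) = x := by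
  ext j
  fin_cases j <;> simp [Fin.sum_univ_three]

private theorem sum_pd (U : V → ℝ) (x y : V) : ∑ i : Fin 3, y i * pd i U x = fderiv ℝ U x y := by
  conv_rhs => rw [← sum_basis y]
  rw [map_sum]
  refine Finset.sum_congr rfl fun i _ => ?_
  rw [map_smul, smul_eq_mul]
  rfl

private theorem hom0_euler {U : V → ℝ} (hU : Hom0 U) {x : V} (hx : x ≠ 0) :
    ∑ i : Fin 3, x i * pd i U x = 0 := by
  rw [sum_pd]
  have h1 : DifferentiableAt ℝ U x := (hom0_cda hU hx).differentiableAt (by simp)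
  have h1' : HasFDerivAt U (fderiv ℝ U x) ((1 : ℝ) • x) := by
    rw [one_smul]
    exact h1.hasFDerivAt
  have h2 : HasDerivAt (fun t : ℝ => t • x) x 1 := by
    have := (hasDerivAt_id (1 : ℝ)).smul_const x
    simpa using this
  have h3 : HasDerivAt (fun t : ℝ => U (t • x)) (fderiv ℝ U x x) 1 := h1'.comp_hasDerivAt 1 h2
  have h4 : (fun t : ℝ => U (t • x)) =ᶠ[𝓝 1] fun _ => U x := by
    filter_upwards [lt_mem_nhds (show (0 : ℝ) < 1 by norm_num)] with t ht
    exact hU.hom t x ht
  have h5 : HasDerivAt (fun t : ℝ => U (t • x)) 0 1 := (hasDerivAt_const 1 (U x)).congr_of_eventuallyEq h4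
  exact h3.unique h5

private theorem hom0_euler2 {U : V → ℝ} (hU : Hom0 U) {x : V} (hx : x ≠ 0) (l : Fin 3) :
    ∑ i : Fin 3, x i * pd l (pd i U) x = - pd l U x := by
  have h1 : (fun y : V => ∑ i : Fin 3, y i * pd i U y) =ᶠ[𝓝 x] fun _ => 0 := by
    filter_upwards [isOpen_compl_singleton.mem_nhds hx] with y hy
    exact hom0_euler hU hy
  have h2 : pd l (fun y : V => ∑ i : Fin 3, y i * pd i U y) x = 0 := by
    unfold pd at h1 ⊢
    rw [h1.fderiv_eq]
    simp
  have h3 : pd l (fun y : V => ∑ i : Fin 3, y i * pd i U y) x =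
      ∑ i : Fin 3, pd l (fun y : V => y i * pd i U y) x := by
    have hd : ∀ i ∈ (Finset.univ : Finset (Fin 3)),
        DifferentiableAt ℝ (fun y : V => y i * pd i U y) x := fun i _ =>
      (differentiable_of_smooth (smooth_coord i) x).mul (hom0_pdiff hU hx i)
    have h4 := fderiv_fun_sum hd
    change fderiv ℝ (fun y : V => ∑ i : Fin 3, y i * pd i U y) x _ = _
    rw [h4, _root_.sum_apply]
    rfl
  have h5 : ∀ i : Fin 3, pd l (fun y : V => y i * pd i U y) x =
      x i * pd l (pd i U) x + kd l i * pd i U x := by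
    intro i
    rw [pd_mul (differentiable_of_smooth (smooth_coord i) x) (hom0_pdiff hU hx i), pd_coord']
  rw [h3] at h2
  simp only [h5, Finset.sum_add_distrib] at h2
  have h6 : ∑ i : Fin 3, kd l i * pd i U x = pd l U x := by
    simp [kd]
  linarith

private theorem hom0_symm {U : V → ℝ} (hU : Hom0 U) {x : V} (hx : x ≠ 0) (i j : Fin 3) :
    pd i (pd j U) x = pd j (pd i U) x := by
  have h1 : IsSymmSndFDerivAt ℝ U x := by
    refine (hom0_cda hU hx).isSymmSndFDerivAt ?_
    simp only [minSmoothness_of_isRCLikeNormedField]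
    exact ENat.LEInfty.out
  have h2 : ∀ i j : Fin 3, pd i (pd j U) x =
      fderiv ℝ (fderiv ℝ U) x (EuclideanSpace.single i 1) (EuclideanSpace.single j 1) := by
    intro i j
    change fderiv ℝ (fun y => fderiv ℝ U y (EuclideanSpace.single j (1 : ℝ))) x _ = _
    rw [fderiv_clm_apply (hom0_fd hU hx) (differentiableAt_const _)]
    simp
  rw [h2, h2]
  exact h1 _ _


/-! ### the function on the sphere -/

/-- the squares of the `XX` -/
noncomputable def XXs (g : V → ℝ) (v w : V) : ℝ := ∑ a : Fin 3, ∑ b : Fin 3, XX g a b v w ^ 2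

/-- `∑_ab (r² |XL_ab|² - (z · XL_ab)²)` -/
noncomputable def XLs (g : V → ℝ) (v w : V) : ℝ :=
  ∑ a : Fin 3, ∑ b : Fin 3, (‖v - w‖ ^ 2 * (∑ l : Fin 3, XL g a b l v w ^ 2)
    - (∑ l : Fin 3, (v l - w l) * XL g a b l v w) ^ 2)

private noncomputable def UU (g : V → ℝ) (c : V) (r : ℝ) (x : V) : ℝ := uz g c (nr r x)

private theorem hom0_UU {g : V → ℝ} (hg : Dn g) (c : V) (r : ℝ) : Hom0 (UU g c r) where
  smooth := (smooth_uz hg c).comp_contDiffOn (nr_contDiffOn r)
  hom := by
    intro t x ht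
    unfold UU
    rw [nr_smul r t x ht]
  even := by
    intro x
    unfold UU
    rw [nr_neg]
    unfold uz pv pw
    rw [smul_neg, sub_neg_eq_add, ← sub_eq_add_neg, add_comm]

private theorem rot_UU {g : V → ℝ} (hg : Dn g) (c : V) (r : ℝ) {x : V} (hx : x ≠ 0) (a b : Fin 3) :
    x a * pd b (UU g c r) x - x b * pd a (UU g c r) x = hab g a b c (nr r x) := by
  have h1 := rot_nr (h := uz g c) r hx (differentiable_of_smooth (smooth_uz hg c) _) a b
  rw [rot_uz hg] at h1
  exact h1

private theorem pd_rot_UU {g : V → ℝ} (hg : Dn g) (c : V) (r : ℝ) {x : V} (hx : x ≠ 0)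
    (a b l : Fin 3) :
    pd l (fun y => hab g a b c (nr r y)) x =
      kd l a * pd b (UU g c r) x + x a * pd l (pd b (UU g c r)) x
        - kd l b * pd a (UU g c r) x - x b * pd l (pd a (UU g c r)) x := by
  have hU := hom0_UU hg c r
  have h1 : (fun y => hab g a b c (nr r y)) =ᶠ[𝓝 x]
      fun y => y a * pd b (UU g c r) y - y b * pd a (UU g c r) y := by
    filter_upwards [isOpen_compl_singleton.mem_nhds hx] with y hy
    exact (rot_UU hg c r hy a b).symm
  have h2 : pd l (fun y => hab g a b c (nr r y)) x =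
      pd l (fun y => y a * pd b (UU g c r) y - y b * pd a (UU g c r) y) x := by
    unfold pd at h1 ⊢
    rw [h1.fderiv_eq]
  have e1 : DifferentiableAt ℝ (fun y : V => y a * pd b (UU g c r) y) x :=
    (differentiable_of_smooth (smooth_coord a) x).mul (hom0_pdiff hU hx b)
  have e2 : DifferentiableAt ℝ (fun y : V => y b * pd a (UU g c r) y) x :=
    (differentiable_of_smooth (smooth_coord b) x).mul (hom0_pdiff hU hx a)
  have h3 : pd l (fun y => y a * pd b (UU g c r) y - y b * pd a (UU g c r) y) x =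
      pd l (fun y : V => y a * pd b (UU g c r) y) x - pd l (fun y : V => y b * pd a (UU g c r) y) x := by
    have := fderiv_fun_sub e1 e2
    change fderiv ℝ (fun y => y a * pd b (UU g c r) y - y b * pd a (UU g c r) y) x _ = _
    rw [this]
    rfl
  have h4 := pd_mul (differentiable_of_smooth (smooth_coord a) x) (hom0_pdiff hU hx b) l
  have h5 := pd_mul (differentiable_of_smooth (smooth_coord b) x) (hom0_pdiff hU hx a) l
  rw [h2, h3, h4, h5, pd_coord', pd_coord']
  ring

private theorem norm_sq_sum (x : V) : ‖x‖ ^ 2 = ∑ i : Fin 3, x i ^ 2 := by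
  rw [EuclideanSpace.real_norm_sq_eq]

private theorem n1_UU {g : V → ℝ} (hg : Dn g) (c : V) (r : ℝ) {x : V} (hx : ‖x‖ = 1) :
    n1 (UU g c r) x = (1 / 8) * XXs g (pv c (r • x)) (pw c (r • x)) := by
  have hx0 : x ≠ 0 := by
    intro h
    rw [h, norm_zero] at hx
    norm_num at hx
  have hU := hom0_UU hg c r
  have h1 := alg_L (fun i => x i) (fun i => pd i (UU g c r) x)
  have h2 : ∑ i : Fin 3, x i ^ 2 = 1 := by
    rw [← norm_sq_sum, hx]
    norm_num
  have h3 := hom0_euler hU hx0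
  simp only [rot_UU hg c r hx0] at h1
  rw [h2, h3, nr_unit r hx] at h1
  have h4 : ∑ a : Fin 3, ∑ b : Fin 3, hab g a b c (r • x) ^ 2 =
      (1 / 4) * XXs g (pv c (r • x)) (pw c (r • x)) := by
    unfold XXs hab
    rw [Finset.mul_sum]
    refine Finset.sum_congr rfl fun a _ => ?_
    rw [Finset.mul_sum]
    refine Finset.sum_congr rfl fun b _ => ?_
    ring
  rw [h4] at h1
  unfold n1
  linarith

private theorem n2_UU {g : V → ℝ} (hg : Dn g) (c : V) (r : ℝ) {x : V} (hx : ‖x‖ = 1) :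
    n2 (UU g c r) x = (1 / 8) * XXs g (pv c (r • x)) (pw c (r • x))
      + (1 / 32) * XLs g (pv c (r • x)) (pw c (r • x)) := by
  have hx0 : x ≠ 0 := by
    intro h
    rw [h, norm_zero] at hx
    norm_num at hx
  have hU := hom0_UU hg c r
  have h2 : ∑ i : Fin 3, x i ^ 2 = 1 := by
    rw [← norm_sq_sum, hx]
    norm_num
  have h3 := hom0_euler hU hx0
  have h6 : ∀ l, ∑ i : Fin 3, x i * pd l (pd i (UU g c r)) x = - pd l (UU g c r) x :=
    fun l => hom0_euler2 hU hx0 l
  have hsy := fun i j => hom0_symm hU hx0 i j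
  have hA := alg_T (fun i => x i) (fun i => pd i (UU g c r) x)
    (fun i j => pd i (pd j (UU g c r)) x) hsy h2 h3 h6
  have hz : nr r x = r • x := nr_unit r hx
  -- the squared gradient of `L_ab U`
  have hB : ∀ a b : Fin 3, ∑ l : Fin 3, (pd l (fun y => hab g a b c (nr r y)) x) ^ 2 =
      (1 / 16) * (‖pv c (r • x) - pw c (r • x)‖ ^ 2 *
        (∑ l : Fin 3, XL g a b l (pv c (r • x)) (pw c (r • x)) ^ 2)
        - (∑ l : Fin 3, (pv c (r • x) l - pw c (r • x) l) *
          XL g a b l (pv c (r • x)) (pw c (r • x))) ^ 2) := by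
    intro a b
    have e1 := alg_L (fun i => x i) (fun l => pd l (fun y => hab g a b c (nr r y)) x)
    have e2 : ∑ l : Fin 3, x l * pd l (fun y => hab g a b c (nr r y)) x = 0 := by
      simp only [pd_rot_UU hg c r hx0]
      have q1 := h6 b
      have q2 := h6 a
      have s1 : ∑ l : Fin 3, x l * (kd l a * pd b (UU g c r) x + x a * pd l (pd b (UU g c r)) x
          - kd l b * pd a (UU g c r) x - x b * pd l (pd a (UU g c r)) x) =
          (∑ l : Fin 3, x l * kd l a) * pd b (UU g c r) x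
          + x a * (∑ l : Fin 3, x l * pd b (pd l (UU g c r)) x)
          - (∑ l : Fin 3, x l * kd l b) * pd a (UU g c r) x
          - x b * (∑ l : Fin 3, x l * pd a (pd l (UU g c r)) x) := by
        rw [Finset.sum_mul, Finset.sum_mul, Finset.mul_sum, Finset.mul_sum,
          ← Finset.sum_add_distrib, ← Finset.sum_sub_distrib, ← Finset.sum_sub_distrib]
        refine Finset.sum_congr rfl fun l _ => ?_
        rw [hsy l b, hsy l a]
        ring
      have s2 : ∀ a : Fin 3, ∑ l : Fin 3, x l * kd l a = x a := by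
        intro a
        simp [kd]
      rw [s1, q1, q2, s2, s2]
      ring
    have e3 : ∀ p q : Fin 3, x p * pd q (fun y => hab g a b c (nr r y)) x
        - x q * pd p (fun y => hab g a b c (nr r y)) x =
        (r • x) p * ((1 / 4) * XL g a b q (pv c (r • x)) (pw c (r • x)))
        - (r • x) q * ((1 / 4) * XL g a b p (pv c (r • x)) (pw c (r • x))) := by
      intro p q
      rw [rot_nr (h := hab g a b c) r hx0 (differentiable_of_smooth (smooth_hab hg a b c) _) p q,
        pd_hab hg, pd_hab hg, hz]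
    have e4 := alg_L (fun i => (r • x) i)
      (fun l => (1 / 4) * XL g a b l (pv c (r • x)) (pw c (r • x)))
    simp only [e3] at e1
    rw [e1, h2, e2, ← norm_sq_sum] at e4
    have e5 : ‖pv c (r • x) - pw c (r • x)‖ = ‖r • x‖ := by rw [sub_cz]
    have e6 : ∀ l : Fin 3, pv c (r • x) l - pw c (r • x) l = (r • x) l := fun l =>
      sub_apply' c (r • x) l
    rw [e5]
    simp only [e6]
    have e7 : ∑ l : Fin 3, ((1 / 4) * XL g a b l (pv c (r • x)) (pw c (r • x))) ^ 2 =
        (1 / 16) * ∑ l : Fin 3, XL g a b l (pv c (r • x)) (pw c (r • x)) ^ 2 := by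
      rw [Finset.mul_sum]
      refine Finset.sum_congr rfl fun l _ => ?_
      ring
    have e8 : ∑ l : Fin 3, (r • x) l * ((1 / 4) * XL g a b l (pv c (r • x)) (pw c (r • x))) =
        (1 / 4) * ∑ l : Fin 3, (r • x) l * XL g a b l (pv c (r • x)) (pw c (r • x)) := by
      rw [Finset.mul_sum]
      refine Finset.sum_congr rfl fun l _ => ?_
      ring
    rw [e7, e8] at e4
    linarith
  have hC : ∑ a : Fin 3, ∑ b : Fin 3, ∑ l : Fin 3, (pd l (fun y => hab g a b c (nr r y)) x) ^ 2 =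
      (1 / 16) * XLs g (pv c (r • x)) (pw c (r • x)) := by
    unfold XLs
    rw [Finset.mul_sum]
    refine Finset.sum_congr rfl fun a _ => ?_
    rw [Finset.mul_sum]
    refine Finset.sum_congr rfl fun b _ => ?_
    exact hB a b
  have hD := n1_UU hg c r hx
  simp only [pd_rot_UU hg c r hx0] at hC
  rw [hA] at hC
  unfold n1 at hD
  unfold n2
  linarith

private theorem exp_UU {g : V → ℝ} (hg : Dn g) (c : V) (r : ℝ) {x : V} (hx : ‖x‖ = 1) :
    Real.exp (UU g c r x) = g (pv c (r • x)) * g (pw c (r • x)) := by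
  unfold UU uz
  rw [nr_unit r hx, Real.exp_add, Real.exp_log (hg.pos _), Real.exp_log (hg.pos _)]

private theorem XXs_nonneg (g : V → ℝ) (v w : V) : 0 ≤ XXs g v w :=
  Finset.sum_nonneg fun _ _ => Finset.sum_nonneg fun _ _ => sq_nonneg _

private theorem XLs_nonneg (g : V → ℝ) (v w : V) : 0 ≤ XLs g v w := by
  refine Finset.sum_nonneg fun a _ => Finset.sum_nonneg fun b _ => ?_
  have h1 := alg_L (fun i => v i - w i) (fun l => XL g a b l v w)
  have h2 : ‖v - w‖ ^ 2 = ∑ i : Fin 3, (v i - w i) ^ 2 := by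
    rw [norm_sq_sum]
    rfl
  rw [h2]
  have h3 : 0 ≤ ∑ c : Fin 3, ∑ d : Fin 3, ((v c - w c) * XL g a b d v w
      - (v d - w d) * XL g a b c v w) ^ 2 :=
    Finset.sum_nonneg fun _ _ => Finset.sum_nonneg fun _ _ => sq_nonneg _
  linarith

private theorem cont_gam {g : V → ℝ} (hg : Dn g) (i : Fin 3) : Continuous (gam i g) :=
  (smooth_gam hg i).continuous

private theorem cont_hs {g : V → ℝ} (hg : Dn g) (i j : Fin 3) : Continuous (hs g i j) :=
  continuous_pd (contDiff_one_of_smooth (smooth_gam hg j)) i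

private theorem cont_pv (c : V) : Continuous (pv c) := (contDiff_pv c).continuous

private theorem cont_pw (c : V) : Continuous (pw c) := (contDiff_pw c).continuous

private theorem cont_F {g : V → ℝ} (hg : Dn g) (c : V) :
    Continuous fun z => g (pv c z) * g (pw c z) :=
  (hg.cls.smooth.continuous.comp (cont_pv c)).mul (hg.cls.smooth.continuous.comp (cont_pw c))

private theorem cont_XXs {g : V → ℝ} (hg : Dn g) (c : V) :
    Continuous fun z => XXs g (pv c z) (pw c z) := by
  unfold XXs XX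
  have h1 := cont_pv c
  have h2 := cont_pw c
  refine continuous_finsetSum _ fun a _ => continuous_finsetSum _ fun b _ => ?_
  have g1 := (cont_gam hg a).comp h1
  have g2 := (cont_gam hg a).comp h2
  have g3 := (cont_gam hg b).comp h1
  have g4 := (cont_gam hg b).comp h2
  simp only [Function.comp_def] at g1 g2 g3 g4
  fun_prop

private theorem cont_XLs {g : V → ℝ} (hg : Dn g) (c : V) :
    Continuous fun z => XLs g (pv c z) (pw c z) := by
  unfold XLs XL DX
  have h1 := cont_pv c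
  have h2 := cont_pw c
  have g1 : ∀ a, Continuous fun z => gam a g (pv c z) := fun a => (cont_gam hg a).comp h1
  have g2 : ∀ a, Continuous fun z => gam a g (pw c z) := fun a => (cont_gam hg a).comp h2
  have g3 : ∀ a b, Continuous fun z => hs g a b (pv c z) := fun a b => (cont_hs hg a b).comp h1
  have g4 : ∀ a b, Continuous fun z => hs g a b (pw c z) := fun a b => (cont_hs hg a b).comp h2
  fun_prop

private theorem sph_r {g : V → ℝ} (hg : Dn g) (c : V) (r : ℝ) :
    ∫⁻ ω : Metric.sphere (0 : V) 1, ENNReal.ofReal (g (pv c (r • (ω : V))) * g (pw c (r • (ω : V))) *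
        XXs g (pv c (r • (ω : V))) (pw c (r • (ω : V)))) ∂((volume : Measure V).toSphere) ≤
      ∫⁻ ω : Metric.sphere (0 : V) 1, ENNReal.ofReal (g (pv c (r • (ω : V))) * g (pw c (r • (ω : V))) *
        ((1 / 12) * XLs g (pv c (r • (ω : V))) (pw c (r • (ω : V)))))
          ∂((volume : Measure V).toSphere) := by
  have h0 := sph_ineq (UU g c r) (hom0_UU hg c r)
  have hn : ∀ ω : Metric.sphere (0 : V) 1, ‖(ω : V)‖ = 1 := fun ω => by
    simp
  have hcr : Continuous fun ω : Metric.sphere (0 : V) 1 => r • (ω : V) :=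
    continuous_subtype_val.const_smul r
  have hF0 : ∀ z, 0 ≤ g (pv c z) * g (pw c z) := fun z => mul_nonneg (hg.pos _).le (hg.pos _).le
  let A : ENNReal := ∫⁻ ω : Metric.sphere (0 : V) 1, ENNReal.ofReal
    ((1 / 8) * (g (pv c (r • (ω : V))) * g (pw c (r • (ω : V))) *
        XXs g (pv c (r • (ω : V))) (pw c (r • (ω : V))))) ∂((volume : Measure V).toSphere)
  let B : ENNReal := ∫⁻ ω : Metric.sphere (0 : V) 1, ENNReal.ofReal
    ((1 / 32) * (g (pv c (r • (ω : V))) * g (pw c (r • (ω : V))) *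
        XLs g (pv c (r • (ω : V))) (pw c (r • (ω : V))))) ∂((volume : Measure V).toSphere)
  have cA : Continuous fun ω : Metric.sphere (0 : V) 1 =>
      ((1 / 8) * (g (pv c (r • (ω : V))) * g (pw c (r • (ω : V))) *
        XXs g (pv c (r • (ω : V))) (pw c (r • (ω : V))))) :=
    continuous_const.mul (((cont_F hg c).comp hcr).mul ((cont_XXs hg c).comp hcr))
  have cB : Continuous fun ω : Metric.sphere (0 : V) 1 =>
      ((1 / 32) * (g (pv c (r • (ω : V))) * g (pw c (r • (ω : V))) *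
        XLs g (pv c (r • (ω : V))) (pw c (r • (ω : V))))) :=
    continuous_const.mul (((cont_F hg c).comp hcr).mul ((cont_XLs hg c).comp hcr))
  have hA : ∫⁻ ω : Metric.sphere (0 : V) 1, ENNReal.ofReal (Real.exp (UU g c r ω) * n1 (UU g c r) ω)
      ∂((volume : Measure V).toSphere) = A := by
    refine lintegral_congr fun ω => ?_
    rw [exp_UU hg c r (hn ω), n1_UU hg c r (hn ω)]
    congr 1
    ring
  have hB : ∫⁻ ω : Metric.sphere (0 : V) 1, ENNReal.ofReal (Real.exp (UU g c r ω) * n2 (UU g c r) ω)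
      ∂((volume : Measure V).toSphere) = A + B := by
    simp only [A, B]
    rw [← lintegral_add_left cA.measurable.ennreal_ofReal]
    refine lintegral_congr fun ω => ?_
    rw [exp_UU hg c r (hn ω), n2_UU hg c r (hn ω), ← ENNReal.ofReal_add]
    · congr 1
      ring
    · exact mul_nonneg (by norm_num) (mul_nonneg (hF0 _) (XXs_nonneg _ _ _))
    · exact mul_nonneg (by norm_num) (mul_nonneg (hF0 _) (XLs_nonneg _ _ _))
  rw [hA, hB] at h0
  have hfin : A ≠ ⊤ := by
    obtain ⟨M, hM⟩ := (isCompact_univ (X := Metric.sphere (0 : V) 1)).exists_bound_of_continuousOn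
      cA.continuousOn
    have h1 : A ≤ ∫⁻ _ω : Metric.sphere (0 : V) 1, ENNReal.ofReal M
        ∂((volume : Measure V).toSphere) := by
      refine lintegral_mono fun ω => ENNReal.ofReal_le_ofReal ?_
      exact (le_abs_self _).trans (hM ω (mem_univ _))
    rw [lintegral_const] at h1
    exact (h1.trans_lt (ENNReal.mul_lt_top ENNReal.ofReal_lt_top (measure_lt_top _ _))).ne
  have h3 : 3 * A ≤ B := by
    have e : (4 : ENNReal) * A = A + 3 * A := by
      rw [show (4 : ENNReal) = 1 + 3 by norm_num, add_mul, one_mul]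
    rw [e] at h0
    exact (ENNReal.add_le_add_iff_left hfin).1 h0
  have hL : ∫⁻ ω : Metric.sphere (0 : V) 1, ENNReal.ofReal (g (pv c (r • (ω : V))) *
      g (pw c (r • (ω : V))) * XXs g (pv c (r • (ω : V))) (pw c (r • (ω : V))))
      ∂((volume : Measure V).toSphere) = ENNReal.ofReal 8 * A := by
    simp only [A]
    rw [← lintegral_const_mul' _ _ ENNReal.ofReal_ne_top]
    refine lintegral_congr fun ω => ?_
    rw [← ENNReal.ofReal_mul (by norm_num)]
    congr 1
    ring
  have hR : ∫⁻ ω : Metric.sphere (0 : V) 1, ENNReal.ofReal (g (pv c (r • (ω : V))) *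
      g (pw c (r • (ω : V))) * ((1 / 12) * XLs g (pv c (r • (ω : V))) (pw c (r • (ω : V)))))
      ∂((volume : Measure V).toSphere) = ENNReal.ofReal (8 / 3) * B := by
    simp only [B]
    rw [← lintegral_const_mul' _ _ ENNReal.ofReal_ne_top]
    refine lintegral_congr fun ω => ?_
    rw [← ENNReal.ofReal_mul (by norm_num)]
    congr 1
    ring
  rw [hL, hR]
  have h5 : ENNReal.ofReal 8 = ENNReal.ofReal (8 / 3) * 3 := by
    rw [show (3 : ENNReal) = ENNReal.ofReal 3 by simp, ← ENNReal.ofReal_mul (by norm_num)]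
    norm_num
  rw [h5, mul_assoc]
  gcongr

/-- The sphere inequality for pairs with a fixed midpoint. -/
theorem sph_pair (g : V → ℝ) (hg : Dn g) (c : V) (k : ℝ → ℝ) (hk : Measurable k)
    (hk0 : ∀ r, 0 ≤ k r) :
    ∫⁻ z : V, ENNReal.ofReal (k ‖z‖ * (g (pv c z) * g (pw c z)) * XXs g (pv c z) (pw c z)) ≤
      ∫⁻ z : V, ENNReal.ofReal (k ‖z‖ * (g (pv c z) * g (pw c z)) *
        ((1 / 12) * XLs g (pv c z) (pw c z))) := by
  have m1 : Measurable fun z : V => ENNReal.ofReal
      (k ‖z‖ * (g (pv c z) * g (pw c z)) * XXs g (pv c z) (pw c z)) :=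
    (((hk.comp measurable_norm).mul (cont_F hg c).measurable).mul
      (cont_XXs hg c).measurable).ennreal_ofReal
  have m2 : Measurable fun z : V => ENNReal.ofReal
      (k ‖z‖ * (g (pv c z) * g (pw c z)) * ((1 / 12) * XLs g (pv c z) (pw c z))) :=
    (((hk.comp measurable_norm).mul (cont_F hg c).measurable).mul
      (measurable_const.mul (cont_XLs hg c).measurable)).ennreal_ofReal
  rw [lintegral_polar _ m1, lintegral_polar _ m2]
  refine setLIntegral_mono' measurableSet_Ioi fun r hr => ?_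
  refine mul_le_mul_right ?_ _
  have hr0 : (0 : ℝ) < r := hr
  have hn : ∀ ω : Metric.sphere (0 : V) 1, ‖r • (ω : V)‖ = r := fun ω => by
    have : ‖(ω : V)‖ = 1 := by simp
    rw [norm_smul, this, mul_one, Real.norm_eq_abs, abs_of_pos hr0]
  have e1 : ∫⁻ ω : Metric.sphere (0 : V) 1, ENNReal.ofReal
      (k ‖r • (ω : V)‖ * (g (pv c (r • (ω : V))) * g (pw c (r • (ω : V)))) *
        XXs g (pv c (r • (ω : V))) (pw c (r • (ω : V)))) ∂((volume : Measure V).toSphere) =
      ENNReal.ofReal (k r) * ∫⁻ ω : Metric.sphere (0 : V) 1, ENNReal.ofReal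
        (g (pv c (r • (ω : V))) * g (pw c (r • (ω : V))) *
        XXs g (pv c (r • (ω : V))) (pw c (r • (ω : V)))) ∂((volume : Measure V).toSphere) := by
    rw [← lintegral_const_mul' _ _ ENNReal.ofReal_ne_top]
    refine lintegral_congr fun ω => ?_
    rw [hn ω, ← ENNReal.ofReal_mul (hk0 r)]
    congr 1
    ring
  have e2 : ∫⁻ ω : Metric.sphere (0 : V) 1, ENNReal.ofReal
      (k ‖r • (ω : V)‖ * (g (pv c (r • (ω : V))) * g (pw c (r • (ω : V)))) *
        ((1 / 12) * XLs g (pv c (r • (ω : V))) (pw c (r • (ω : V)))))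
        ∂((volume : Measure V).toSphere) =
      ENNReal.ofReal (k r) * ∫⁻ ω : Metric.sphere (0 : V) 1, ENNReal.ofReal
        (g (pv c (r • (ω : V))) * g (pw c (r • (ω : V))) *
        ((1 / 12) * XLs g (pv c (r • (ω : V))) (pw c (r • (ω : V)))))
        ∂((volume : Measure V).toSphere) := by
    rw [← lintegral_const_mul' _ _ ENNReal.ofReal_ne_top]
    refine lintegral_congr fun ω => ?_
    rw [hn ω, ← ENNReal.ofReal_mul (hk0 r)]
    congr 1
    ring
  rw [e1, e2]
  exact mul_le_mul_right (sph_r hg c r) _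

end Pool.Agent.LandauF
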