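import Pool.Agent.LandauF.NPt
import Pool.Agent.LandauF.NSm
import Pool.Agent.LandauF.SPH
import Pool.Agent.LandauF.NConcZ

/-!
# LandauF, module NConc: the integrated near estimate

`InN` is continuous off the diagonal... it is a smooth compactly supported function of `p` (all its
factors are smooth; `φ`-factors and the near cutoff give compact support), in particular integrable.
Split `∫ InN` according to `δ < ϱ(mid)`.
(1) On `ϱ(mid) ≤ δ`: `near_crude`; then `r² ≤ SS ≤ 2 δ²` and the integral of `K/r²` over `‖v‖ ≤ R`, `r ≤ 2 δ` is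
`≤ C_R K δ`.
(2) On `δ < ϱ(mid)`: `near_pt`.  With `x = XX`, `y = ∑ z_l XL_l`, `e = rE⁻²`, `r = ‖z‖`:
`(3/8) e x y ≤ (7/128) r⁻² y² + (9/14) r² e² x²` (`2 √(7/128 · 9/14) = 3/8`), so with `b = B F φ_c`
`(3/8) b e ∑ x y ≤ (7/128) b r⁻² ∑ y² + (9/14) b r² e² XXs`.
For fixed `c` the function `b/F · r² e²` on `δ < ϱ(c)` depends on `‖z‖` only: `sph_pair` and `lintegral_cz`
(all integrals finite) give `∫ b r² e² XXs ≤ (1/12) ∫ b r² e² XLs ≤ (1/12) ∫ b r⁻² XLs` (`r⁴ e² ≤ 1`).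
`r⁻² XLs = ∑_ab (∑ XL² - r⁻² y²)`, and with `P = ∑ XL²`, `Q = r⁻² ∑ y² ≤ P`:
`(7/128) Q + (9/14)(1/12)(P - Q) = (3/56) P + (7/128 - 3/56) Q ≤ (7/128) P`.
Since `WD(v,w) + WD(w,v) = ∑ (DX² + DX*²) ≥ ½ ∑ (DX - DX*)² = ½ P`, the total is at most
`-(1/8 - 1/1000 - 7/64) b (WD + WD*) + errors = -(0.0146..) b (WD + WD*) + errors`.
(3) `∫ (EN(v,w) + EN(w,v)) = 2 ∫ EN(v,w) ≤ 2 A` (`EN` is part of the integrand of `ER`; symmetry).
-/

set_option autoImplicit false

namespace Pool.Agent.LandauF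

open MeasureTheory Set Filter Topology Pool.Agent.Landau

/-- the radial factor of the sphere inequality -/
private noncomputable def nkc (ε : ℝ) (ϱ : V → ℝ) (δ : ℝ) (φ : V → ℝ) (c : V) (r : ℝ) : ℝ :=
  if δ < ϱ c then
    (1 / (2 * Real.pi)) * (Real.sqrt (r ^ 2 + ε ^ 2) ^ 3)⁻¹ * chN (r ^ 2 / (ϱ c ^ 2 + δ ^ 2)) *
      φ c * (r ^ 2 * ((Real.sqrt (r ^ 2 + ε ^ 2) ^ 2)⁻¹) ^ 2)
  else 0

private theorem nkc_meas {ε : ℝ} (hε : 0 < ε) (ϱ : V → ℝ) (δ : ℝ) (φ : V → ℝ) (c : V) :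
    Measurable (nkc ε ϱ δ φ c) := by
  unfold nkc
  split_ifs
  · have h1 : Continuous (fun r : ℝ => Real.sqrt (r ^ 2 + ε ^ 2)) := by fun_prop
    have h2 : ∀ r : ℝ, Real.sqrt (r ^ 2 + ε ^ 2) ≠ 0 := fun r =>
      (Real.sqrt_pos.2 (by positivity)).ne'
    have h3 : Continuous (fun r : ℝ => chN (r ^ 2 / (ϱ c ^ 2 + δ ^ 2))) :=
      chN_smooth.continuous.comp (by fun_prop)
    exact ((((continuous_const.mul ((h1.pow 3).inv₀ fun r => pow_ne_zero _ (h2 r))).mul h3).mul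
      continuous_const).mul ((continuous_id.pow 2).mul
        (((h1.pow 2).inv₀ fun r => pow_ne_zero _ (h2 r)).pow 2))).measurable
  · exact measurable_const

private theorem nkc_nonneg {φ : V → ℝ} (hφ : ∀ v, 0 ≤ φ v) (ε : ℝ) (ϱ : V → ℝ) (δ : ℝ) (c : V)
    (r : ℝ) : 0 ≤ nkc ε ϱ δ φ c r := by
  unfold nkc
  split_ifs
  · have h1 := chN_nonneg (r ^ 2 / (ϱ c ^ 2 + δ ^ 2))
    have h2 := hφ c
    positivity
  · exact le_rfl

open Classical in
private theorem nkc_eq (ε : ℝ) (ϱ : V → ℝ) (δ : ℝ) (φ g : V → ℝ) (c z : V) (x : ℝ) :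
    ({p : V × V | δ < ϱ (mid p.1 p.2)}.indicator
      (fun p => nbb ε ϱ δ φ g p * nre ε p) (pv c z, pw c z)) * x =
      nkc ε ϱ δ φ c ‖z‖ * (g (pv c z) * g (pw c z)) * x := by
  have hm : mid (pv c z, pw c z).1 (pv c z, pw c z).2 = c := mid_cz c z
  have hs : (pv c z, pw c z).1 - (pv c z, pw c z).2 = z := sub_cz c z
  unfold nkc
  by_cases h : δ < ϱ c
  · have hmem : (pv c z, pw c z) ∈ {p : V × V | δ < ϱ (mid p.1 p.2)} := by
      show δ < ϱ (mid (pv c z, pw c z).1 (pv c z, pw c z).2)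
      rw [hm]
      exact h
    rw [indicator_of_mem hmem, if_pos h]
    unfold nbb BB bet nre eta SS rE FF
    rw [hm, hs]
    ring
  · have hmem : (pv c z, pw c z) ∉ {p : V × V | δ < ϱ (mid p.1 p.2)} := by
      show ¬ δ < ϱ (mid (pv c z, pw c z).1 (pv c z, pw c z).2)
      rw [hm]
      exact h
    rw [indicator_of_notMem hmem, if_neg h]
    ring

/-- the integrated sphere inequality on the region `δ < ϱ(mid)` -/
private theorem nc_sphere {ε₀ : ℝ} (hε₀ : ε₀ ≤ 1 / 100) {φ ϱ κ g : V → ℝ} (hA : Adm ε₀ φ ϱ κ)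
    (hg : Dn g) {ε δ : ℝ} (hε : 0 < ε) (hδ : 0 < δ) :
    ∫ p in {p : V × V | δ < ϱ (mid p.1 p.2)}, nbb ε ϱ δ φ g p * (nre ε p * XXs g p.1 p.2)
        ∂((volume : Measure V).prod volume) ≤
      ∫ p in {p : V × V | δ < ϱ (mid p.1 p.2)}, nbb ε ϱ δ φ g p *
        (nre ε p * ((1 / 12) * XLs g p.1 p.2)) ∂((volume : Measure V).prod volume) := by
  classical
  have hρc := nc_rho_cont hε₀ hA
  have hSm : MeasurableSet {p : V × V | δ < ϱ (mid p.1 p.2)} :=
    (isOpen_lt continuous_const (hρc.comp nc_mid_cont)).measurableSet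
  have hb := nbb_nonneg hA hg ε δ
  have hn := nc_nre_nonneg ε
  have hW : Measurable ({p : V × V | δ < ϱ (mid p.1 p.2)}.indicator
      (fun p => nbb ε ϱ δ φ g p * nre ε p)) :=
    ((nbb_cont hA hg hε hδ).mul (nc_nre_cont hε)).measurable.indicator hSm
  -- the two integrands
  have gen : ∀ f : V × V → ℝ, Continuous f → (∀ p, 0 ≤ f p) →
      ENNReal.ofReal (∫ p in {p : V × V | δ < ϱ (mid p.1 p.2)},
        nbb ε ϱ δ φ g p * (nre ε p * f p) ∂((volume : Measure V).prod volume)) =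
      ∫⁻ c, ∫⁻ z, ENNReal.ofReal (nkc ε ϱ δ φ c ‖z‖ * (g (pv c z) * g (pw c z)) *
        f (pv c z, pw c z)) := by
    intro f hf hf0
    have hint : Integrable (fun p => nbb ε ϱ δ φ g p * (nre ε p * f p))
        ((volume : Measure V).prod volume) :=
      nbb_int hε₀ hA hg hε hδ ((nc_nre_cont hε).mul hf)
    have h1 : ∫ p in {p : V × V | δ < ϱ (mid p.1 p.2)},
        nbb ε ϱ δ φ g p * (nre ε p * f p) ∂((volume : Measure V).prod volume) =
        ∫ p, ({p : V × V | δ < ϱ (mid p.1 p.2)}.indicator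
          (fun p => nbb ε ϱ δ φ g p * nre ε p) p) * f p ∂((volume : Measure V).prod volume) := by
      rw [← integral_indicator hSm]
      refine integral_congr_ae (Eventually.of_forall fun p => ?_)
      by_cases hp : p ∈ {p : V × V | δ < ϱ (mid p.1 p.2)}
      · simp only [indicator_of_mem hp]
        ring
      · simp only [indicator_of_notMem hp]
        ring
    have hint2 : Integrable (fun p => ({p : V × V | δ < ϱ (mid p.1 p.2)}.indicator
          (fun p => nbb ε ϱ δ φ g p * nre ε p) p) * f p) ((volume : Measure V).prod volume) := by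
      refine (hint.indicator hSm).congr (Eventually.of_forall fun p => ?_)
      by_cases hp : p ∈ {p : V × V | δ < ϱ (mid p.1 p.2)}
      · simp only [indicator_of_mem hp]
        ring
      · simp only [indicator_of_notMem hp]
        ring
    have h0 : ∀ p, 0 ≤ ({p : V × V | δ < ϱ (mid p.1 p.2)}.indicator
          (fun p => nbb ε ϱ δ φ g p * nre ε p) p) * f p := fun p =>
      mul_nonneg (indicator_nonneg (fun q _ => mul_nonneg (hb q) (hn q)) p) (hf0 p)
    have hm : Measurable (fun p => ENNReal.ofReal (({p : V × V | δ < ϱ (mid p.1 p.2)}.indicator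
          (fun p => nbb ε ϱ δ φ g p * nre ε p) p) * f p)) :=
      (hW.mul hf.measurable).ennreal_ofReal
    rw [h1, ofReal_integral_eq_lintegral_ofReal hint2 (Eventually.of_forall h0),
      lintegral_cz hm]
    simp only [nkc_eq]
  have h3 := gen (fun p => XXs g p.1 p.2) (nc_XXs_cont hg) (nc_XXs_nonneg g)
  have h4 := gen (fun p => (1 / 12) * XLs g p.1 p.2) (continuous_const.mul (nc_XLs_cont hg))
    (fun p => mul_nonneg (by norm_num) (nc_pt2 hε g p).2.2.2)
  have h5 : ∫⁻ c, ∫⁻ z, ENNReal.ofReal (nkc ε ϱ δ φ c ‖z‖ * (g (pv c z) * g (pw c z)) *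
        XXs g (pv c z) (pw c z)) ≤
      ∫⁻ c, ∫⁻ z, ENNReal.ofReal (nkc ε ϱ δ φ c ‖z‖ * (g (pv c z) * g (pw c z)) *
        ((1 / 12) * XLs g (pv c z) (pw c z))) :=
    lintegral_mono fun c => sph_pair g hg c (nkc ε ϱ δ φ c) (nkc_meas hε ϱ δ φ c)
      (nkc_nonneg hA.nonneg ε ϱ δ c)
  have h6 : 0 ≤ ∫ p in {p : V × V | δ < ϱ (mid p.1 p.2)}, nbb ε ϱ δ φ g p *
        (nre ε p * ((1 / 12) * XLs g p.1 p.2)) ∂((volume : Measure V).prod volume) :=
    integral_nonneg fun p => mul_nonneg (hb p) (mul_nonneg (hn p)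
      (mul_nonneg (by norm_num) (nc_pt2 hε g p).2.2.2))
  rw [← ENNReal.ofReal_le_ofReal_iff h6, h3, h4]
  exact h5

/-- `InN` is integrable. -/
theorem InN_int {ε₀ : ℝ} (hε : ε₀ ≤ 1 / 100) {φ ϱ κ g : V → ℝ} (hA : Adm ε₀ φ ϱ κ) (hg : Dn g)
    {ε δ : ℝ} (h1 : 0 < ε) (h2 : 0 < δ) :
    Integrable (InN ε ϱ δ φ g) ((volume : Measure V).prod volume) :=
  (nc_InN_cont hA hg h1 h2).integrable_of_hasCompactSupport (nc_InN_compact hε hA h2)

/-- almost every pair has different points -/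
private theorem nc_ne : ∀ᵐ p ∂((volume : Measure V).prod volume), (p : V × V).1 ≠ p.2 := by
  have hmp : MeasurePreserving (fun z : V × V => (z.1, -z.1 + z.2))
      ((volume : Measure V).prod volume) ((volume : Measure V).prod volume) :=
    measurePreserving_prod_neg_add _ _
  have h0 : ∀ᵐ q ∂((volume : Measure V).prod volume), (q : V × V).2 ≠ 0 := by
    have : ∀ᵐ z ∂(volume : Measure V), z ≠ 0 := by
      rw [ae_iff]
      simp
    exact (Measure.quasiMeasurePreserving_snd (μ := (volume : Measure V))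
      (ν := (volume : Measure V))).ae this
  have h1 := hmp.quasiMeasurePreserving.ae h0
  filter_upwards [h1] with p hp h
  apply hp
  show -p.1 + p.2 = 0
  rw [h]
  simp

/-- The integrated near estimate. -/
theorem near_int : ∃ C ε₀ : ℝ, 0 < C ∧ 0 < ε₀ ∧ ε₀ ≤ 1 / 100 ∧
    ∀ φ ϱ κ g : V → ℝ, Adm ε₀ φ ϱ κ → Dn g → ∃ K : ℝ, 0 < K ∧ ∀ (ε δ A : ℝ),
      0 < ε → 0 < δ → δ ≤ 1 → 0 ≤ A → ER φ ϱ κ g ≤ ENNReal.ofReal A →
      ∫ p, InN ε ϱ δ φ g p ∂((volume : Measure V).prod volume) ≤ C * A + K * δ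
        - (1 / 200) * ∫ p, (if δ < ϱ (mid p.1 p.2) then
            BB ε ϱ δ p * FF g p * φ (mid p.1 p.2) * (WD g p.1 p.2 + WD g p.2 p.1) else 0)
          ∂((volume : Measure V).prod volume) := by
  classical
  obtain ⟨C₁, ε₁, hC₁, hε₁, hnear⟩ := near_pt
  refine ⟨2 * C₁, min ε₁ (1 / 100), by positivity, lt_min hε₁ (by norm_num), min_le_right _ _,
    fun φ ϱ κ g hA hg => ?_⟩
  have hε₀ : min ε₁ (1 / 100) ≤ 1 / 100 := min_le_right _ _
  have hA1 : Adm ε₁ φ ϱ κ := Adm.mono (min_le_left _ _) hA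
  obtain ⟨K, hK, hsmall⟩ := nc_small hε₀ hA hg
  refine ⟨K, hK, fun ε δ A h1 h2 h3 hA0 hER => ?_⟩
  have hρc := nc_rho_cont hε₀ hA
  have hSm : MeasurableSet {p : V × V | δ < ϱ (mid p.1 p.2)} :=
    (isOpen_lt continuous_const (hρc.comp nc_mid_cont)).measurableSet
  have hint := InN_int hε₀ hA hg h1 h2
  have hb := nbb_nonneg hA hg ε δ
  -- integrability on the region
  have iD := nbb_int hε₀ hA hg h1 h2 (nc_WD_cont hg)
  have iQ := nbb_int_Qf hε₀ hA hg h1 h2
  have iX : Integrable (fun p : V × V => nbb ε ϱ δ φ g p * (nre ε p * XXs g p.1 p.2))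
      ((volume : Measure V).prod volume) :=
    nbb_int hε₀ hA hg h1 h2 ((nc_nre_cont h1).mul (nc_XXs_cont hg))
  have iL : Integrable (fun p : V × V => nbb ε ϱ δ φ g p *
      (nre ε p * ((1 / 12) * XLs g p.1 p.2))) ((volume : Measure V).prod volume) :=
    nbb_int hε₀ hA hg h1 h2 ((nc_nre_cont h1).mul (continuous_const.mul (nc_XLs_cont hg)))
  obtain ⟨iE, hE⟩ := nc_EN_swap hε₀ hA hg hA0 hER
  obtain ⟨S, hS⟩ : ∃ S : Set (V × V), S = {p : V × V | δ < ϱ (mid p.1 p.2)} := ⟨_, rfl⟩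
  have hsph := nc_sphere hε₀ hA hg h1 h2
  have hsm := hsmall ε δ h1 h2 h3
  have hifeq : ∫ p, (if δ < ϱ (mid p.1 p.2) then
            BB ε ϱ δ p * FF g p * φ (mid p.1 p.2) * (WD g p.1 p.2 + WD g p.2 p.1) else 0)
          ∂((volume : Measure V).prod volume) =
      ∫ p in {p : V × V | δ < ϱ (mid p.1 p.2)}, nbb ε ϱ δ φ g p *
        (WD g p.1 p.2 + WD g p.2 p.1) ∂((volume : Measure V).prod volume) := by
    rw [← integral_indicator hSm]
    refine integral_congr_ae (Eventually.of_forall fun p => ?_)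
    by_cases hp : δ < ϱ (mid p.1 p.2)
    · have hp' : p ∈ {p : V × V | δ < ϱ (mid p.1 p.2)} := hp
      simp only [if_pos hp, indicator_of_mem hp']
      rfl
    · have hp' : p ∉ {p : V × V | δ < ϱ (mid p.1 p.2)} := hp
      simp only [if_neg hp, indicator_of_notMem hp']
  rw [hifeq]
  rw [← hS] at hSm hsph hsm ⊢
  have hsplit : ∫ p, InN ε ϱ δ φ g p ∂((volume : Measure V).prod volume) =
      (∫ p in S, InN ε ϱ δ φ g p ∂((volume : Measure V).prod volume)) +
        ∫ p in Sᶜ, InN ε ϱ δ φ g p ∂((volume : Measure V).prod volume) :=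
    (integral_add_compl hSm hint).symm
  -- the pointwise bound on the region
  have hA2 : ∫ p in S, InN ε ϱ δ φ g p ∂((volume : Measure V).prod volume) ≤
      ∫ p in S, (-(1 / 8 - 1 / 1000) * (nbb ε ϱ δ φ g p * (WD g p.1 p.2 + WD g p.2 p.1))
        + (7 / 128) * (nbb ε ϱ δ φ g p * nQf g p)
        + (9 / 14) * (nbb ε ϱ δ φ g p * (nre ε p * XXs g p.1 p.2))
        + C₁ * (EN φ ϱ κ g p.1 p.2 + EN φ ϱ κ g p.2 p.1))
        ∂((volume : Measure V).prod volume) := by
    refine integral_mono_ae hint.integrableOn ?_ ?_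
    · exact ((((iD.const_mul _).add (iQ.const_mul _)).add (iX.const_mul _)).add
        (iE.const_mul _)).integrableOn
    · filter_upwards [ae_restrict_of_ae nc_ne, ae_restrict_mem hSm] with p hp hpS
      have hpS' : δ < ϱ (mid p.1 p.2) := by
        rw [hS] at hpS
        exact hpS
      have q1 := hnear φ ϱ κ g hA1 hg ε δ p h1 h2 hpS' hp
      have q2 := mul_le_mul_of_nonneg_left (nc_pt1 ε g p) (hb p)
      have q3 : BB ε ϱ δ p * FF g p * φ (mid p.1 p.2) = nbb ε ϱ δ φ g p := rfl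
      rw [q3] at q1
      refine q1.trans ?_
      have q4 : (3 / 8) * (nbb ε ϱ δ φ g p * (rE ε p ^ 2)⁻¹ * ∑ a : Fin 3, ∑ b : Fin 3,
            XX g a b p.1 p.2 * ∑ l : Fin 3, (p.1 l - p.2 l) * XL g a b l p.1 p.2) =
          nbb ε ϱ δ φ g p * ((3 / 8) * ((rE ε p ^ 2)⁻¹ * ∑ a : Fin 3, ∑ b : Fin 3,
            XX g a b p.1 p.2 * ∑ l : Fin 3, (p.1 l - p.2 l) * XL g a b l p.1 p.2)) := by ring
      rw [q4]
      linarith
  have hA3 : ∫ p in S, (-(1 / 8 - 1 / 1000) * (nbb ε ϱ δ φ g p * (WD g p.1 p.2 + WD g p.2 p.1))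
        + (7 / 128) * (nbb ε ϱ δ φ g p * nQf g p)
        + (9 / 14) * (nbb ε ϱ δ φ g p * (nre ε p * XXs g p.1 p.2))
        + C₁ * (EN φ ϱ κ g p.1 p.2 + EN φ ϱ κ g p.2 p.1))
        ∂((volume : Measure V).prod volume) =
      -(1 / 8 - 1 / 1000) * (∫ p in S, nbb ε ϱ δ φ g p * (WD g p.1 p.2 + WD g p.2 p.1)
          ∂((volume : Measure V).prod volume))
        + (7 / 128) * (∫ p in S, nbb ε ϱ δ φ g p * nQf g p ∂((volume : Measure V).prod volume))
        + (9 / 14) * (∫ p in S, nbb ε ϱ δ φ g p * (nre ε p * XXs g p.1 p.2)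
          ∂((volume : Measure V).prod volume))
        + C₁ * ∫ p in S, (EN φ ϱ κ g p.1 p.2 + EN φ ϱ κ g p.2 p.1)
          ∂((volume : Measure V).prod volume) := by
    have j1 := (iD.const_mul (-(1 / 8 - 1 / 1000))).integrableOn (s := S)
    have j2 := (iQ.const_mul (7 / 128)).integrableOn (s := S)
    have j3 := (iX.const_mul (9 / 14)).integrableOn (s := S)
    have j4 := (iE.const_mul C₁).integrableOn (s := S)
    have k12 : Integrable (fun p : V × V =>
        -(1 / 8 - 1 / 1000) * (nbb ε ϱ δ φ g p * (WD g p.1 p.2 + WD g p.2 p.1))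
        + (7 / 128) * (nbb ε ϱ δ φ g p * nQf g p))
        (((volume : Measure V).prod volume).restrict S) := j1.add j2
    have k123 : Integrable (fun p : V × V =>
        -(1 / 8 - 1 / 1000) * (nbb ε ϱ δ φ g p * (WD g p.1 p.2 + WD g p.2 p.1))
        + (7 / 128) * (nbb ε ϱ δ φ g p * nQf g p)
        + (9 / 14) * (nbb ε ϱ δ φ g p * (nre ε p * XXs g p.1 p.2)))
        (((volume : Measure V).prod volume).restrict S) := k12.add j3
    rw [integral_add k123 j4, integral_add k12 j3, integral_add j1 j2, integral_const_mul,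
      integral_const_mul, integral_const_mul, integral_const_mul]
  -- the pointwise conclusion
  have hA4 : (7 / 128) * (∫ p in S, nbb ε ϱ δ φ g p * nQf g p
        ∂((volume : Measure V).prod volume))
        + (9 / 14) * (∫ p in S, nbb ε ϱ δ φ g p * (nre ε p * ((1 / 12) * XLs g p.1 p.2))
          ∂((volume : Measure V).prod volume)) ≤
      (7 / 64) * ∫ p in S, nbb ε ϱ δ φ g p * (WD g p.1 p.2 + WD g p.2 p.1)
          ∂((volume : Measure V).prod volume) := by
    have j2 := (iQ.const_mul (7 / 128)).integrableOn (s := S)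
    have j3 := (iL.const_mul (9 / 14)).integrableOn (s := S)
    rw [← integral_const_mul, ← integral_const_mul, ← integral_const_mul, ← integral_add j2 j3]
    refine integral_mono_ae (j2.add j3) (iD.const_mul (7 / 64)).integrableOn
      (Eventually.of_forall fun p => ?_)
    have q := mul_le_mul_of_nonneg_left (nc_pt4 h1 g p) (hb p)
    show (7 / 128) * (nbb ε ϱ δ φ g p * nQf g p) +
      (9 / 14) * (nbb ε ϱ δ φ g p * (nre ε p * ((1 / 12) * XLs g p.1 p.2))) ≤
      (7 / 64) * (nbb ε ϱ δ φ g p * (WD g p.1 p.2 + WD g p.2 p.1))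
    linarith
  have hD0 : 0 ≤ ∫ p in S, nbb ε ϱ δ φ g p * (WD g p.1 p.2 + WD g p.2 p.1)
          ∂((volume : Measure V).prod volume) :=
    integral_nonneg fun p => mul_nonneg (hb p) (nc_WD_nonneg g p)
  have hES : ∫ p in S, (EN φ ϱ κ g p.1 p.2 + EN φ ϱ κ g p.2 p.1)
          ∂((volume : Measure V).prod volume) ≤ 2 * A := by
    refine (setIntegral_le_integral iE (Eventually.of_forall fun p => ?_)).trans hE
    exact add_nonneg (EN_nonneg hA hg _ _) (EN_nonneg hA hg _ _)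
  have hES' := mul_le_mul_of_nonneg_left hES hC₁.le
  rw [hsplit]
  rw [hA3] at hA2
  have hX := mul_le_mul_of_nonneg_left hsph (by norm_num : (0 : ℝ) ≤ 9 / 14)
  linarith

end Pool.Agent.LandauF
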