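import Pool.Agent.LandauF.NPt
import Pool.Agent.LandauF.NSm
import Pool.Agent.LandauF.SPH

/-!
# LandauF, module NConcX: continuity, supports and pointwise inequalities used in NConc
-/

set_option autoImplicit false

namespace Pool.Agent.LandauF

open MeasureTheory Set Filter Topology Pool.Agent.Landau

/-- the basic weight -/
noncomputable def nbb (ε : ℝ) (ϱ : V → ℝ) (δ : ℝ) (φ g : V → ℝ) (p : V × V) : ℝ :=
  BB ε ϱ δ p * FF g p * φ (mid p.1 p.2)

/-- the sum of the squares of the `XL` -/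
noncomputable def nPf (g : V → ℝ) (p : V × V) : ℝ :=
  ∑ a : Fin 3, ∑ b : Fin 3, ∑ l : Fin 3, XL g a b l p.1 p.2 ^ 2

/-- the radial parts -/
noncomputable def nQf (g : V → ℝ) (p : V × V) : ℝ :=
  ∑ a : Fin 3, ∑ b : Fin 3,
    (∑ l : Fin 3, (p.1 l - p.2 l) * XL g a b l p.1 p.2) ^ 2 / ‖p.1 - p.2‖ ^ 2

theorem nc_rho_lip {ε₀ : ℝ} (hε : ε₀ ≤ 1 / 100) {φ ϱ κ : V → ℝ} (hA : Adm ε₀ φ ϱ κ) (v w : V) :
    |ϱ v - ϱ w| ≤ (1 / 100) * ‖v - w‖ :=
  (hA.rlip v w).trans (mul_le_mul_of_nonneg_right hε (norm_nonneg _))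

theorem nc_rho_cont {ε₀ : ℝ} (hε : ε₀ ≤ 1 / 100) {φ ϱ κ : V → ℝ} (hA : Adm ε₀ φ ϱ κ) :
    Continuous ϱ := by
  have h : LipschitzWith (Real.toNNReal (1 / 100)) ϱ := by
    refine LipschitzWith.of_dist_le_mul fun v w => ?_
    rw [Real.dist_eq, dist_eq_norm, Real.coe_toNNReal _ (by norm_num)]
    exact nc_rho_lip hε hA v w
  exact h.continuous

theorem nc_mid_cont : Continuous (fun p : V × V => mid p.1 p.2) := by
  unfold mid
  fun_prop

theorem nc_gam_cont {g : V → ℝ} (hg : Dn g) (i : Fin 3) : Continuous (gam i g) :=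
  (gam_smooth hg i).continuous

theorem nc_hs_cont {g : V → ℝ} (hg : Dn g) (i j : Fin 3) : Continuous (hs g i j) :=
  (smooth_pd (gam_smooth hg j) i).continuous

theorem nc_coord_cont (i : Fin 3) : Continuous (fun v : V => v i) := by fun_prop

theorem nc_XX_cont {g : V → ℝ} (hg : Dn g) (a b : Fin 3) :
    Continuous (fun p : V × V => XX g a b p.1 p.2) := by
  have h1 : ∀ i, Continuous (fun p : V × V => gam i g p.1) := fun i =>
    (nc_gam_cont hg i).comp continuous_fst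
  have h2 : ∀ i, Continuous (fun p : V × V => gam i g p.2) := fun i =>
    (nc_gam_cont hg i).comp continuous_snd
  have h3 : ∀ i, Continuous (fun p : V × V => p.1 i - p.2 i) := fun i =>
    ((nc_coord_cont i).comp continuous_fst).sub ((nc_coord_cont i).comp continuous_snd)
  unfold XX
  exact ((h3 a).mul ((h1 b).sub (h2 b))).sub ((h3 b).mul ((h1 a).sub (h2 a)))

theorem nc_DX_cont {g : V → ℝ} (hg : Dn g) (a b l : Fin 3) :
    Continuous (fun p : V × V => DX g a b l p.1 p.2) := by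
  have h1 : ∀ i, Continuous (fun p : V × V => gam i g p.1) := fun i =>
    (nc_gam_cont hg i).comp continuous_fst
  have h2 : ∀ i, Continuous (fun p : V × V => gam i g p.2) := fun i =>
    (nc_gam_cont hg i).comp continuous_snd
  have h3 : ∀ i, Continuous (fun p : V × V => p.1 i - p.2 i) := fun i =>
    ((nc_coord_cont i).comp continuous_fst).sub ((nc_coord_cont i).comp continuous_snd)
  have h4 : ∀ i j, Continuous (fun p : V × V => hs g i j p.1) := fun i j =>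
    (nc_hs_cont hg i j).comp continuous_fst
  unfold DX
  exact (((continuous_const.mul ((h1 b).sub (h2 b))).add ((h3 a).mul (h4 b l))).sub
    (continuous_const.mul ((h1 a).sub (h2 a)))).sub ((h3 b).mul (h4 a l))

theorem nc_DX_cont' {g : V → ℝ} (hg : Dn g) (a b l : Fin 3) :
    Continuous (fun p : V × V => DX g a b l p.2 p.1) :=
  (nc_DX_cont hg a b l).comp continuous_swap

theorem nc_XL_cont {g : V → ℝ} (hg : Dn g) (a b l : Fin 3) :
    Continuous (fun p : V × V => XL g a b l p.1 p.2) :=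
  (nc_DX_cont hg a b l).sub (nc_DX_cont' hg a b l)

theorem nc_WD_cont {g : V → ℝ} (hg : Dn g) :
    Continuous (fun p : V × V => WD g p.1 p.2 + WD g p.2 p.1) := by
  unfold WD
  exact (continuous_finsetSum _ fun a _ => continuous_finsetSum _ fun b _ =>
    continuous_finsetSum _ fun l _ => (nc_DX_cont hg a b l).pow 2).add
    (continuous_finsetSum _ fun a _ => continuous_finsetSum _ fun b _ =>
    continuous_finsetSum _ fun l _ => (nc_DX_cont' hg a b l).pow 2)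

theorem nc_XXs_cont {g : V → ℝ} (hg : Dn g) : Continuous (fun p : V × V => XXs g p.1 p.2) := by
  unfold XXs
  exact continuous_finsetSum _ fun a _ => continuous_finsetSum _ fun b _ =>
    (nc_XX_cont hg a b).pow 2

theorem nc_Pf_cont {g : V → ℝ} (hg : Dn g) : Continuous (nPf g) := by
  unfold nPf
  exact continuous_finsetSum _ fun a _ => continuous_finsetSum _ fun b _ =>
    continuous_finsetSum _ fun l _ => (nc_XL_cont hg a b l).pow 2

theorem nc_zXL_cont {g : V → ℝ} (hg : Dn g) (a b : Fin 3) :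
    Continuous (fun p : V × V => ∑ l : Fin 3, (p.1 l - p.2 l) * XL g a b l p.1 p.2) := by
  have h3 : ∀ i, Continuous (fun p : V × V => p.1 i - p.2 i) := fun i =>
    ((nc_coord_cont i).comp continuous_fst).sub ((nc_coord_cont i).comp continuous_snd)
  exact continuous_finsetSum _ fun l _ => (h3 l).mul (nc_XL_cont hg a b l)

theorem nc_r_cont : Continuous (fun p : V × V => ‖p.1 - p.2‖ ^ 2) :=
  ((continuous_fst.sub continuous_snd).norm).pow 2

theorem nc_XLs_cont {g : V → ℝ} (hg : Dn g) : Continuous (fun p : V × V => XLs g p.1 p.2) := by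
  unfold XLs
  exact continuous_finsetSum _ fun a _ => continuous_finsetSum _ fun b _ =>
    (nc_r_cont.mul (continuous_finsetSum _ fun l _ => (nc_XL_cont hg a b l).pow 2)).sub
      ((nc_zXL_cont hg a b).pow 2)

theorem nc_Qf_meas {g : V → ℝ} (hg : Dn g) : Measurable (nQf g) := by
  unfold nQf
  exact Finset.measurable_sum _ fun a _ => Finset.measurable_sum _ fun b _ =>
    ((nc_zXL_cont hg a b).pow 2).measurable.div nc_r_cont.measurable

theorem nc_rE_sq (ε : ℝ) (p : V × V) : rE ε p ^ 2 = ‖p.1 - p.2‖ ^ 2 + ε ^ 2 :=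
  Real.sq_sqrt (by positivity)

theorem nc_rE_pos {ε : ℝ} (hε : 0 < ε) (p : V × V) : 0 < rE ε p :=
  Real.sqrt_pos.2 (by positivity)

theorem nc_rE_cont (ε : ℝ) : Continuous (rE ε) := by
  unfold rE
  exact (nc_r_cont.add continuous_const).sqrt

/-- the kernel factor `r² e²` -/
noncomputable def nre (ε : ℝ) (p : V × V) : ℝ := ‖p.1 - p.2‖ ^ 2 * ((rE ε p ^ 2)⁻¹) ^ 2

theorem nc_nre_cont {ε : ℝ} (hε : 0 < ε) : Continuous (nre ε) := by
  unfold nre
  exact nc_r_cont.mul ((((nc_rE_cont ε).pow 2).inv₀ fun p =>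
    (pow_pos (nc_rE_pos hε p) 2).ne').pow 2)

theorem nc_nre_nonneg (ε : ℝ) (p : V × V) : 0 ≤ nre ε p := by
  unfold nre
  positivity

/-! ### pointwise inequalities -/

theorem nc_norm_sq (z : V) : ‖z‖ ^ 2 = ∑ l : Fin 3, z l ^ 2 := EuclideanSpace.real_norm_sq_eq z

theorem nc_cs (z : V) (x : Fin 3 → ℝ) :
    (∑ l : Fin 3, z l * x l) ^ 2 ≤ ‖z‖ ^ 2 * ∑ l : Fin 3, x l ^ 2 := by
  rw [nc_norm_sq]
  exact Finset.sum_mul_sq_le_sq_mul_sq _ _ _

theorem nc_amgm {r e x y : ℝ} (hr : 0 ≤ r) (hy : r = 0 → y = 0) :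
    (3 / 8) * (e * (x * y)) ≤ (7 / 128) * (y ^ 2 / r ^ 2) + (9 / 14) * (r ^ 2 * e ^ 2 * x ^ 2) := by
  rcases hr.eq_or_lt with h | h
  · rw [hy h.symm, ← h]
    simp
  · have h1 : y ^ 2 / r ^ 2 = (y / r) ^ 2 := by rw [div_pow]
    have h2 : e * (x * y) = (r * e * x) * (y / r) := by field_simp
    rw [h1, h2]
    nlinarith [sq_nonneg (y / r - (24 / 7) * (r * e * x))]

theorem nc_pt1 (ε : ℝ) (g : V → ℝ) (p : V × V) :
    (3 / 8) * ((rE ε p ^ 2)⁻¹ * ∑ a : Fin 3, ∑ b : Fin 3,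
      XX g a b p.1 p.2 * ∑ l : Fin 3, (p.1 l - p.2 l) * XL g a b l p.1 p.2) ≤
    (7 / 128) * nQf g p + (9 / 14) * (nre ε p * XXs g p.1 p.2) := by
  have h : ∀ a b : Fin 3, (3 / 8) * ((rE ε p ^ 2)⁻¹ * (XX g a b p.1 p.2 *
      ∑ l : Fin 3, (p.1 l - p.2 l) * XL g a b l p.1 p.2)) ≤
      (7 / 128) * ((∑ l : Fin 3, (p.1 l - p.2 l) * XL g a b l p.1 p.2) ^ 2 / ‖p.1 - p.2‖ ^ 2) +
        (9 / 14) * (‖p.1 - p.2‖ ^ 2 * ((rE ε p ^ 2)⁻¹) ^ 2 * XX g a b p.1 p.2 ^ 2) := by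
    intro a b
    refine nc_amgm (norm_nonneg _) fun h0 => ?_
    have h1 : p.1 - p.2 = 0 := norm_eq_zero.1 h0
    have h2 : ∀ l : Fin 3, p.1 l - p.2 l = 0 := by
      intro l
      have := congrArg (fun z : V => z l) h1
      simpa using this
    simp [h2]
  unfold nQf nre XXs
  simp only [Finset.mul_sum] at h ⊢
  rw [← Finset.sum_add_distrib]
  refine Finset.sum_le_sum fun a _ => ?_
  rw [← Finset.sum_add_distrib]
  refine Finset.sum_le_sum fun b _ => ?_
  exact h a b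

theorem nc_term {r e S y : ℝ} (hr : 0 ≤ r) (hy : y ^ 2 ≤ r ^ 2 * S) (hS : 0 ≤ S)
    (he : r ^ 2 * e ≤ 1) (he0 : 0 ≤ e) :
    r ^ 2 * e ^ 2 * (r ^ 2 * S - y ^ 2) ≤ S - y ^ 2 / r ^ 2 ∧ y ^ 2 / r ^ 2 ≤ S := by
  rcases hr.eq_or_lt with h | h
  · rw [← h]
    simp [hS]
  · have h2 : 0 < r ^ 2 := by positivity
    have h3 : y ^ 2 / r ^ 2 ≤ S := by
      rw [div_le_iff₀ h2]
      linarith
    refine ⟨?_, h3⟩
    have h4 : r ^ 2 * e ^ 2 * (r ^ 2 * S - y ^ 2) = (r ^ 2 * e) ^ 2 * (S - y ^ 2 / r ^ 2) := by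
      field_simp
    rw [h4]
    have h5 : (r ^ 2 * e) ^ 2 ≤ 1 := by
      have : 0 ≤ r ^ 2 * e := by positivity
      nlinarith
    have h6 : 0 ≤ S - y ^ 2 / r ^ 2 := by linarith
    nlinarith

theorem nc_pt2 {ε : ℝ} (hε : 0 < ε) (g : V → ℝ) (p : V × V) :
    nre ε p * XLs g p.1 p.2 ≤ nPf g p - nQf g p ∧ nQf g p ≤ nPf g p ∧ 0 ≤ nQf g p ∧
      0 ≤ XLs g p.1 p.2 := by
  have he : ‖p.1 - p.2‖ ^ 2 * (rE ε p ^ 2)⁻¹ ≤ 1 := by
    rw [← div_eq_mul_inv, div_le_one (pow_pos (nc_rE_pos hε p) 2), nc_rE_sq]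
    nlinarith
  have he0 : 0 ≤ (rE ε p ^ 2)⁻¹ := by positivity
  have hcs : ∀ a b : Fin 3, (∑ l : Fin 3, (p.1 l - p.2 l) * XL g a b l p.1 p.2) ^ 2 ≤
      ‖p.1 - p.2‖ ^ 2 * ∑ l : Fin 3, XL g a b l p.1 p.2 ^ 2 := by
    intro a b
    have := nc_cs (p.1 - p.2) (fun l => XL g a b l p.1 p.2)
    simpa using this
  have h : ∀ a b : Fin 3, _ := fun a b => nc_term (norm_nonneg (p.1 - p.2)) (hcs a b)
    (Finset.sum_nonneg fun l _ => sq_nonneg _) he he0
  refine ⟨?_, ?_, ?_, ?_⟩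
  · unfold nre XLs nPf nQf
    rw [Finset.mul_sum, ← Finset.sum_sub_distrib]
    refine Finset.sum_le_sum fun a _ => ?_
    rw [Finset.mul_sum, ← Finset.sum_sub_distrib]
    exact Finset.sum_le_sum fun b _ => (h a b).1
  · unfold nPf nQf
    exact Finset.sum_le_sum fun a _ => Finset.sum_le_sum fun b _ => (h a b).2
  · unfold nQf
    exact Finset.sum_nonneg fun a _ => Finset.sum_nonneg fun b _ => by positivity
  · unfold XLs
    exact Finset.sum_nonneg fun a _ => Finset.sum_nonneg fun b _ => by linarith [hcs a b]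

theorem nc_pt3 (g : V → ℝ) (p : V × V) : nPf g p ≤ 2 * (WD g p.1 p.2 + WD g p.2 p.1) := by
  unfold nPf WD
  rw [← Finset.sum_add_distrib, Finset.mul_sum]
  refine Finset.sum_le_sum fun a _ => ?_
  rw [← Finset.sum_add_distrib, Finset.mul_sum]
  refine Finset.sum_le_sum fun b _ => ?_
  rw [← Finset.sum_add_distrib, Finset.mul_sum]
  refine Finset.sum_le_sum fun l _ => ?_
  unfold XL
  nlinarith [sq_nonneg (DX g a b l p.1 p.2 + DX g a b l p.2 p.1)]

theorem nc_WD_nonneg (g : V → ℝ) (p : V × V) : 0 ≤ WD g p.1 p.2 + WD g p.2 p.1 := by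
  unfold WD
  exact add_nonneg
    (Finset.sum_nonneg fun a _ => Finset.sum_nonneg fun b _ => Finset.sum_nonneg fun l _ =>
      sq_nonneg _)
    (Finset.sum_nonneg fun a _ => Finset.sum_nonneg fun b _ => Finset.sum_nonneg fun l _ =>
      sq_nonneg _)

theorem nc_XXs_nonneg (g : V → ℝ) (p : V × V) : 0 ≤ XXs g p.1 p.2 := by
  unfold XXs
  exact Finset.sum_nonneg fun a _ => Finset.sum_nonneg fun b _ => sq_nonneg _

/-- the pointwise conclusion -/
theorem nc_pt4 {ε : ℝ} (hε : 0 < ε) (g : V → ℝ) (p : V × V) :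
    (7 / 128) * nQf g p + (9 / 14) * (nre ε p * ((1 / 12) * XLs g p.1 p.2)) ≤
      (7 / 64) * (WD g p.1 p.2 + WD g p.2 p.1) := by
  obtain ⟨h1, h2, h3, h4⟩ := nc_pt2 hε g p
  have h5 := nc_pt3 g p
  nlinarith

end Pool.Agent.LandauF
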