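import Pool.Agent.LandauF.NConcX

/-!
# LandauF, module NConcY: supports and integrability used in NConc
-/

set_option autoImplicit false

namespace Pool.Agent.LandauF

open MeasureTheory Set Filter Topology Pool.Agent.Landau

theorem nc_bet_nonneg (ε : ℝ) (p : V × V) : 0 ≤ bet ε p := by
  unfold bet rE
  positivity

theorem nc_BB_nonneg (ε : ℝ) (ϱ : V → ℝ) (δ : ℝ) (p : V × V) : 0 ≤ BB ε ϱ δ p :=
  mul_nonneg (nc_bet_nonneg ε p) (eta_nonneg ϱ δ p)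

theorem nc_FF_pos {g : V → ℝ} (hg : Dn g) (p : V × V) : 0 < FF g p :=
  mul_pos (hg.pos _) (hg.pos _)

theorem nbb_nonneg {ε₀ : ℝ} {φ ϱ κ g : V → ℝ} (hA : Adm ε₀ φ ϱ κ) (hg : Dn g) (ε δ : ℝ)
    (p : V × V) : 0 ≤ nbb ε ϱ δ φ g p :=
  mul_nonneg (mul_nonneg (nc_BB_nonneg ε ϱ δ p) (nc_FF_pos hg p).le) (hA.nonneg _)

theorem nbb_cont {ε₀ : ℝ} {φ ϱ κ g : V → ℝ} (hA : Adm ε₀ φ ϱ κ) (hg : Dn g) {ε δ : ℝ}
    (hε : 0 < ε) (hδ : 0 < δ) : Continuous (nbb ε ϱ δ φ g) := by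
  unfold nbb
  exact ((BB_smooth hA.rsmooth hε hδ).continuous.mul (FF_smooth hg).continuous).mul
    (hA.smooth.continuous.comp nc_mid_cont)

theorem nc_mid_norm (p : V × V) : ‖mid p.1 p.2 - p.1‖ ≤ ‖p.1 - p.2‖ / 2 ∧
    ‖mid p.1 p.2 - p.2‖ ≤ ‖p.1 - p.2‖ / 2 := by
  constructor
  · have h : mid p.1 p.2 - p.1 = (-(1 / 2) : ℝ) • (p.1 - p.2) := by
      unfold mid
      module
    rw [h, norm_smul, Real.norm_eq_abs, abs_neg, abs_of_pos (by norm_num : (0 : ℝ) < 1 / 2)]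
    linarith
  · have h : mid p.1 p.2 - p.2 = (1 / 2 : ℝ) • (p.1 - p.2) := by
      unfold mid
      module
    rw [h, norm_smul, Real.norm_eq_abs, abs_of_pos (by norm_num : (0 : ℝ) < 1 / 2)]
    linarith

/-- distances on the near zone with a midpoint at distance at most `A` -/
theorem nc_dist {ε₀ : ℝ} (hε : ε₀ ≤ 1 / 100) {φ ϱ κ : V → ℝ} (hA : Adm ε₀ φ ϱ κ) {δ R : ℝ}
    (hδ : 0 < δ) (hR : 0 ≤ R) (p : V × V)
    (h1 : ‖mid p.1 p.2‖ ≤ R ∨ ‖p.1‖ ≤ R ∨ ‖p.2‖ ≤ R)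
    (h2 : ‖p.1 - p.2‖ ^ 2 ≤ SS ϱ δ p) : ‖p‖ ≤ R + 2 * (ϱ 0 + R + δ) := by
  obtain ⟨r, hr⟩ : ∃ r, r = ‖p.1 - p.2‖ := ⟨_, rfl⟩
  obtain ⟨m1, m2⟩ := nc_mid_norm p
  have h0 : 0 ≤ r := by rw [hr]; exact norm_nonneg _
  rw [← hr] at m1 m2
  have hρ0 := hA.rnonneg (mid p.1 p.2)
  have hρ00 := hA.rnonneg 0
  have hr2 : r ≤ ϱ (mid p.1 p.2) + δ := by
    unfold SS at h2
    rw [← hr] at h2
    nlinarith
  have hm : ‖mid p.1 p.2‖ ≤ R + r / 2 := by
    rcases h1 with h | h | h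
    · linarith
    · have := norm_add_le (mid p.1 p.2 - p.1) p.1
      rw [sub_add_cancel] at this
      linarith
    · have := norm_add_le (mid p.1 p.2 - p.2) p.2
      rw [sub_add_cancel] at this
      linarith
  have hρ : ϱ (mid p.1 p.2) ≤ ϱ 0 + (1 / 100) * (R + r / 2) := by
    have h3 := nc_rho_lip hε hA (mid p.1 p.2) 0
    rw [sub_zero] at h3
    have h4 := (abs_le.1 h3).2
    nlinarith
  have hr3 : r ≤ 101 / 100 * (ϱ 0 + R / 100 + δ) := by linarith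
  have hp1 : ‖p.1‖ ≤ R + r := by
    have := norm_add_le (p.1 - mid p.1 p.2) (mid p.1 p.2)
    rw [sub_add_cancel, norm_sub_rev] at this
    linarith
  have hp2 : ‖p.2‖ ≤ R + r := by
    have := norm_add_le (p.2 - mid p.1 p.2) (mid p.1 p.2)
    rw [sub_add_cancel, norm_sub_rev] at this
    linarith
  rw [Prod.norm_def]
  refine max_le ?_ ?_ <;> linarith

theorem nc_supp_bd {φ : V → ℝ} (h : HasCompactSupport φ) :
    ∃ R : ℝ, 0 ≤ R ∧ ∀ v ∈ tsupport φ, ‖v‖ ≤ R := by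
  have h1 : IsCompact (tsupport φ) := h
  obtain ⟨R, hR⟩ := h1.isBounded.exists_norm_le
  exact ⟨max R 0, le_max_right _ _, fun v hv => (hR v hv).trans (le_max_left _ _)⟩

theorem nbb_compact {ε₀ : ℝ} (hε₀ : ε₀ ≤ 1 / 100) {φ ϱ κ g : V → ℝ} (hA : Adm ε₀ φ ϱ κ)
    {ε δ : ℝ} (hδ : 0 < δ) : HasCompactSupport (nbb ε ϱ δ φ g) := by
  obtain ⟨R, hR, hsupp⟩ := nc_supp_bd hA.compact
  refine HasCompactSupport.intro
    (isCompact_closedBall (0 : V × V) (R + 2 * (ϱ 0 + R + δ))) fun p hp => ?_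
  rw [mem_closedBall_zero_iff] at hp
  by_contra hne
  apply hp
  have h1 : φ (mid p.1 p.2) ≠ 0 := by
    intro h
    apply hne
    unfold nbb
    rw [h, mul_zero]
  have h2 : ‖p.1 - p.2‖ ^ 2 ≤ SS ϱ δ p := by
    by_contra h
    push Not at h
    apply hne
    unfold nbb BB
    rw [eta_zero hδ h.le, mul_zero, zero_mul, zero_mul]
  exact nc_dist hε₀ hA hδ hR p (Or.inl (hsupp _ (subset_tsupport _ h1))) h2

/-- integrability of the weight times a continuous function -/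
theorem nbb_int {ε₀ : ℝ} (hε₀ : ε₀ ≤ 1 / 100) {φ ϱ κ g : V → ℝ} (hA : Adm ε₀ φ ϱ κ) (hg : Dn g)
    {ε δ : ℝ} (hε : 0 < ε) (hδ : 0 < δ) {f : V × V → ℝ} (hf : Continuous f) :
    Integrable (fun p => nbb ε ϱ δ φ g p * f p) ((volume : Measure V).prod volume) :=
  ((nbb_cont hA hg hε hδ).mul hf).integrable_of_hasCompactSupport
    ((nbb_compact hε₀ hA hδ).mul_right)

theorem nbb_int_Qf {ε₀ : ℝ} (hε₀ : ε₀ ≤ 1 / 100) {φ ϱ κ g : V → ℝ} (hA : Adm ε₀ φ ϱ κ)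
    (hg : Dn g) {ε δ : ℝ} (hε : 0 < ε) (hδ : 0 < δ) :
    Integrable (fun p => nbb ε ϱ δ φ g p * nQf g p) ((volume : Measure V).prod volume) := by
  refine (nbb_int hε₀ hA hg hε hδ (nc_Pf_cont hg)).mono'
    ((nbb_cont hA hg hε hδ).measurable.mul (nc_Qf_meas hg)).aestronglyMeasurable
    (Eventually.of_forall fun p => ?_)
  obtain ⟨-, h2, h3, -⟩ := nc_pt2 hε g p
  have h4 := nbb_nonneg hA hg ε δ p
  rw [Real.norm_eq_abs, abs_of_nonneg (mul_nonneg h4 h3)]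
  exact mul_le_mul_of_nonneg_left h2 h4

/-! ### the near integrand -/

theorem nc_dv_zero {P : V × V → ℝ} {p : V × V} (h : P =ᶠ[𝓝 p] fun _ => 0) (l : Fin 3) :
    dv l P p = 0 := by
  unfold dv
  rw [h.fderiv_eq]
  simp

theorem nc_dw_zero {P : V × V → ℝ} {p : V × V} (h : P =ᶠ[𝓝 p] fun _ => 0) (l : Fin 3) :
    dw l P p = 0 := by
  unfold dw
  rw [h.fderiv_eq]
  simp

theorem nc_RR_zero {P : V × V → ℝ} {p : V × V} (h : P =ᶠ[𝓝 p] fun _ => 0) (a b : Fin 3) :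
    RR a b P p = 0 := by
  unfold RR
  rw [nc_dv_zero h, nc_dv_zero h, nc_dw_zero h, nc_dw_zero h]
  ring

theorem nc_qq_far {φ : V → ℝ} {p : V × V} (h1 : φ p.1 = 0) (h2 : φ p.2 = 0) (P Q : V × V → ℝ) :
    qq φ P Q p = 0 := by
  unfold qq
  rw [h1, h2]
  ring

theorem nc_q1_far {φ : V → ℝ} {p : V × V} (h1 : p.1 ∉ tsupport φ) (h2 : p.2 ∉ tsupport φ)
    (a b : Fin 3) (P Q : V × V → ℝ) : q1 φ a b P Q p = 0 := by
  have e1 : (fun x : V × V => φ x.1) =ᶠ[𝓝 p] fun _ => 0 := by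
    have h : ∀ᶠ v in 𝓝 p.1, v ∈ (tsupport φ)ᶜ := (isClosed_tsupport φ).isOpen_compl.mem_nhds h1
    filter_upwards [continuous_fst.continuousAt.eventually h] with x hx
    exact image_eq_zero_of_notMem_tsupport hx
  have e2 : (fun x : V × V => φ x.2) =ᶠ[𝓝 p] fun _ => 0 := by
    have h : ∀ᶠ v in 𝓝 p.2, v ∈ (tsupport φ)ᶜ := (isClosed_tsupport φ).isOpen_compl.mem_nhds h2
    filter_upwards [continuous_snd.continuousAt.eventually h] with x hx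
    exact image_eq_zero_of_notMem_tsupport hx
  unfold q1
  rw [nc_RR_zero e1, nc_RR_zero e2, image_eq_zero_of_notMem_tsupport h1,
    image_eq_zero_of_notMem_tsupport h2]
  ring

theorem nc_RR_q1_far {φ : V → ℝ} {p : V × V} (h1 : p.1 ∉ tsupport φ) (h2 : p.2 ∉ tsupport φ)
    (a b : Fin 3) (P Q : V × V → ℝ) : RR a b (q1 φ a b P Q) p = 0 := by
  refine nc_RR_zero ?_ a b
  have h3 : ∀ᶠ v in 𝓝 p.1, v ∈ (tsupport φ)ᶜ := (isClosed_tsupport φ).isOpen_compl.mem_nhds h1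
  have h4 : ∀ᶠ v in 𝓝 p.2, v ∈ (tsupport φ)ᶜ := (isClosed_tsupport φ).isOpen_compl.mem_nhds h2
  filter_upwards [continuous_fst.continuousAt.eventually h3,
    continuous_snd.continuousAt.eventually h4] with x hx1 hx2
  exact nc_q1_far hx1 hx2 a b P Q

theorem nc_Iab_zero {B : V × V → ℝ} {φ g : V → ℝ} {p : V × V}
    (h : (p.1 ∉ tsupport φ ∧ p.2 ∉ tsupport φ) ∨ B =ᶠ[𝓝 p] fun _ => 0) (a b : Fin 3) :
    Iab B φ g a b p = 0 := by
  rcases h with ⟨h1, h2⟩ | h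
  · have e1 := image_eq_zero_of_notMem_tsupport h1
    have e2 := image_eq_zero_of_notMem_tsupport h2
    unfold Iab
    rw [nc_qq_far e1 e2, nc_qq_far e1 e2, nc_q1_far h1 h2, nc_q1_far h1 h2, nc_RR_q1_far h1 h2]
    ring
  · have e0 : B p = 0 := h.eq_of_nhds
    have e1 : ∀ P : V × V → ℝ, qq φ P B p = 0 := by
      intro P
      unfold qq
      simp only [nc_dv_zero h, nc_dw_zero h, mul_zero, Finset.sum_const_zero, add_zero]
    have e2 : ∀ P : V × V → ℝ, q1 φ a b P B p = 0 := by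
      intro P
      unfold q1 bt
      simp only [nc_dv_zero h, nc_dw_zero h, mul_zero, zero_mul, Finset.sum_const_zero, add_zero,
        sub_zero]
    unfold Iab
    rw [e0, e1, e2]
    ring

theorem nc_Iab_cont {B : V × V → ℝ} {φ g : V → ℝ} (hB : ContDiff ℝ (⊤ : ℕ∞) B)
    (hφ : ContDiff ℝ (⊤ : ℕ∞) φ) (hg : Dn g) (a b : Fin 3) : Continuous (Iab B φ g a b) := by
  have hF := (FF_smooth hg).continuous
  have hu := uu_smooth hg
  have hR := smooth_RR hu a b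
  have c1 := (smooth_qq hφ hR hR).continuous
  have c2 := (smooth_q1 hφ hu hR a b).continuous
  have c3 := (smooth_RR (smooth_q1 hφ hu hu a b) a b).continuous
  have c4 := (smooth_qq hφ hR hB).continuous
  have c5 := (smooth_q1 hφ hu hB a b).continuous
  have cB := hB.continuous
  have cR := hR.continuous
  unfold Iab
  exact (((((cB.mul hF).mul c1).neg.sub ((cB.mul hF).mul c2)).add
    (continuous_const.mul ((cB.mul hF).mul c3))).sub ((hF.mul cR).mul c4)).sub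
      ((hF.mul cR).mul c5)

theorem nc_InN_cont {ε₀ : ℝ} {φ ϱ κ g : V → ℝ} (hA : Adm ε₀ φ ϱ κ) (hg : Dn g) {ε δ : ℝ}
    (h1 : 0 < ε) (h2 : 0 < δ) : Continuous (InN ε ϱ δ φ g) := by
  unfold InN
  exact continuous_finsetSum _ fun a _ => continuous_finsetSum _ fun b _ =>
    continuous_const.mul (nc_Iab_cont (BB_smooth hA.rsmooth h1 h2) hA.smooth hg a b)

theorem nc_InN_compact {ε₀ : ℝ} (hε₀ : ε₀ ≤ 1 / 100) {φ ϱ κ g : V → ℝ} (hA : Adm ε₀ φ ϱ κ)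
    {ε δ : ℝ} (hδ : 0 < δ) : HasCompactSupport (InN ε ϱ δ φ g) := by
  obtain ⟨R, hR, hsupp⟩ := nc_supp_bd hA.compact
  refine HasCompactSupport.intro
    (isCompact_closedBall (0 : V × V) (R + 2 * (ϱ 0 + R + δ))) fun p hp => ?_
  rw [mem_closedBall_zero_iff] at hp
  have key : (p.1 ∉ tsupport φ ∧ p.2 ∉ tsupport φ) ∨ BB ε ϱ δ =ᶠ[𝓝 p] fun _ => 0 := by
    by_contra hne
    push Not at hne
    obtain ⟨h1, h2⟩ := hne
    apply hp
    have h3 : ‖mid p.1 p.2‖ ≤ R ∨ ‖p.1‖ ≤ R ∨ ‖p.2‖ ≤ R := by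
      by_cases h : p.1 ∈ tsupport φ
      · exact Or.inr (Or.inl (hsupp _ h))
      · exact Or.inr (Or.inr (hsupp _ (h1 h)))
    refine nc_dist hε₀ hA hδ hR p h3 ?_
    by_contra h
    push Not at h
    apply h2
    have hS : Continuous (SS ϱ δ) := (SS_smooth hA.rsmooth δ).continuous
    have hop : IsOpen {x : V × V | SS ϱ δ x < ‖x.1 - x.2‖ ^ 2} := isOpen_lt hS nc_r_cont
    filter_upwards [hop.mem_nhds h] with x hx
    unfold BB
    rw [eta_zero hδ (le_of_lt hx), mul_zero]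
  unfold InN
  refine Finset.sum_eq_zero fun a _ => Finset.sum_eq_zero fun b _ => ?_
  rw [nc_Iab_zero key, mul_zero]

end Pool.Agent.LandauF
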