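import Pool.Agent.LandauF.FDefs
import Pool.Agent.Landau.KIbp

/-!
# LandauF, module NDefs: operators on pairs `p = (v, w)`

`dv l`, `dw l` partial derivatives, `RR a b = ½ (z_a (∂_{v_b} - ∂_{w_b}) - z_b (∂_{v_a} - ∂_{w_a}))`
the rotation generators in `z = v - w` at fixed midpoint, `qq φ P Q = φ(v) ∇_v P·∇_v Q + φ(w) ∇_w P·∇_w Q`,
`q1` the commutator of `RR` with `qq`, `uu = log g(v) + log g(w)`, `FF = g(v) g(w)`,
`Gb = ½ (G(v) + G(w))`, `eta` the near cutoff (a function of the midpoint and of the distance),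
`BB` the regularised near kernel, `InN` the near integrand, `kf`, `be`, `InF` the far kernels and
the far integrand.
-/

set_option autoImplicit false

namespace Pool.Agent.LandauF

open MeasureTheory Set Filter Topology Pool.Agent.Landau

/-- partial derivative in the first variable -/
noncomputable def dv (l : Fin 3) (P : V × V → ℝ) (p : V × V) : ℝ :=
  fderiv ℝ P p (EuclideanSpace.single l 1, 0)

/-- partial derivative in the second variable -/
noncomputable def dw (l : Fin 3) (P : V × V → ℝ) (p : V × V) : ℝ :=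
  fderiv ℝ P p (0, EuclideanSpace.single l 1)

/-- rotation generators in `z = v - w` -/
noncomputable def RR (a b : Fin 3) (P : V × V → ℝ) (p : V × V) : ℝ :=
  (1 / 2) * ((p.1 a - p.2 a) * (dv b P p - dw b P p) - (p.1 b - p.2 b) * (dv a P p - dw a P p))

/-- the weighted product of gradients -/
noncomputable def qq (φ : V → ℝ) (P Q : V × V → ℝ) (p : V × V) : ℝ :=
  φ p.1 * (∑ l : Fin 3, dv l P p * dv l Q p) + φ p.2 * ∑ l : Fin 3, dw l P p * dw l Q p

/-- the twisted product of gradients -/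
noncomputable def bt (a b : Fin 3) (P Q : V × V → ℝ) (p : V × V) : ℝ :=
  dw a P p * dv b Q p - dw b P p * dv a Q p + dw a Q p * dv b P p - dw b Q p * dv a P p

/-- the commutator of `RR a b` and `qq φ` -/
noncomputable def q1 (φ : V → ℝ) (a b : Fin 3) (P Q : V × V → ℝ) (p : V × V) : ℝ :=
  RR a b (fun x => φ x.1) p * (∑ l : Fin 3, dv l P p * dv l Q p)
    + RR a b (fun x => φ x.2) p * (∑ l : Fin 3, dw l P p * dw l Q p)
    - (1 / 2) * (φ p.1 - φ p.2) * bt a b P Q p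

/-- `log g(v) + log g(w)` -/
noncomputable def uu (g : V → ℝ) (p : V × V) : ℝ := Real.log (g p.1) + Real.log (g p.2)

/-- `g(v) g(w)` -/
noncomputable def FF (g : V → ℝ) (p : V × V) : ℝ := g p.1 * g p.2

/-- `½ (G(v) + G(w))` -/
noncomputable def Gb (φ g : V → ℝ) (p : V × V) : ℝ := (1 / 2) * (GG φ g p.1 + GG φ g p.2)

/-- one variable cutoff, `1` on `(-∞, 1/4]`, `0` on `[1, ∞)` -/
noncomputable def chN (x : ℝ) : ℝ := Real.smoothTransition ((4 / 3) * (1 - x))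

/-- regularised squared radius of the near zone -/
noncomputable def SS (ϱ : V → ℝ) (δ : ℝ) (p : V × V) : ℝ := ϱ (mid p.1 p.2) ^ 2 + δ ^ 2

/-- the near cutoff -/
noncomputable def eta (ϱ : V → ℝ) (δ : ℝ) (p : V × V) : ℝ := chN (‖p.1 - p.2‖ ^ 2 / SS ϱ δ p)

/-- regularised distance -/
noncomputable def rE (ε : ℝ) (p : V × V) : ℝ := Real.sqrt (‖p.1 - p.2‖ ^ 2 + ε ^ 2)

/-- regularised kernel -/
noncomputable def bet (ε : ℝ) (p : V × V) : ℝ := (1 / (2 * Real.pi)) * (rE ε p ^ 3)⁻¹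

/-- the near kernel -/
noncomputable def BB (ε : ℝ) (ϱ : V → ℝ) (δ : ℝ) (p : V × V) : ℝ := bet ε p * eta ϱ δ p

/-- the near integrand for one pair of indices -/
noncomputable def Iab (B : V × V → ℝ) (φ g : V → ℝ) (a b : Fin 3) (p : V × V) : ℝ :=
  -(B p * FF g p * qq φ (RR a b (uu g)) (RR a b (uu g)) p)
    - B p * FF g p * q1 φ a b (uu g) (RR a b (uu g)) p
    + (1 / 2) * (B p * FF g p * RR a b (q1 φ a b (uu g) (uu g)) p)
    - FF g p * RR a b (uu g) p * qq φ (RR a b (uu g)) B p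
    - FF g p * RR a b (uu g) p * q1 φ a b (uu g) B p

/-- the near integrand -/
noncomputable def InN (ε : ℝ) (ϱ : V → ℝ) (δ : ℝ) (φ g : V → ℝ) (p : V × V) : ℝ :=
  ∑ a : Fin 3, ∑ b : Fin 3, (1 / 2) * Iab (BB ε ϱ δ) φ g a b p

/-- the far kernel `(1 - η) a_ij` -/
noncomputable def kf (ϱ : V → ℝ) (δ : ℝ) (i j : Fin 3) (p : V × V) : ℝ :=
  (1 - eta ϱ δ p) * aK i j (p.1 - p.2)

/-- the far drift kernel `- ∑_j ∂_{w_j} kf_ij` -/
noncomputable def be (ϱ : V → ℝ) (δ : ℝ) (i : Fin 3) (p : V × V) : ℝ :=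
  -∑ j : Fin 3, dw j (kf ϱ δ i j) p

/-- divergence (in `v`) of `be` -/
noncomputable def dbe (ϱ : V → ℝ) (δ : ℝ) (p : V × V) : ℝ := ∑ i : Fin 3, dv i (be ϱ δ i) p

/-- the near part of `dFJ` (no regularisation of the kernel), as an integrand -/
noncomputable def N0 (ϱ : V → ℝ) (δ : ℝ) (φ g : V → ℝ) (p : V × V) : ℝ :=
  -(1 / 2) * (eta ϱ δ p * FF g p * ∑ i : Fin 3, ∑ j : Fin 3, aK i j (p.1 - p.2) *
    (pd i (GG φ g) p.1 - pd i (GG φ g) p.2) * (gam j g p.1 - gam j g p.2))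

/-- the regularised near part of `dFJ`, as an integrand -/
noncomputable def Ne (ε : ℝ) (ϱ : V → ℝ) (δ : ℝ) (φ g : V → ℝ) (p : V × V) : ℝ :=
  -(1 / 2) * (eta ϱ δ p * FF g p * ∑ i : Fin 3, ∑ j : Fin 3,
    ((1 / (8 * Real.pi)) * (kd i j * ‖p.1 - p.2‖ ^ 2 - (p.1 i - p.2 i) * (p.1 j - p.2 j))
      * (rE ε p ^ 3)⁻¹) *
    (pd i (GG φ g) p.1 - pd i (GG φ g) p.2) * (gam j g p.1 - gam j g p.2))

/-- the far part of `dFJ`, as an integrand -/
noncomputable def F0 (ϱ : V → ℝ) (δ : ℝ) (φ g : V → ℝ) (p : V × V) : ℝ :=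
  -(FF g p * ∑ i : Fin 3, pd i (GG φ g) p.1 *
    ((∑ j : Fin 3, kf ϱ δ i j p * gam j g p.1) - be ϱ δ i p))

/-- the far integrand after integration by parts in `v` -/
noncomputable def InF (ϱ : V → ℝ) (δ : ℝ) (φ g : V → ℝ) (p : V × V) : ℝ :=
  FF g p * (-(2 * φ p.1 * ∑ k : Fin 3, ∑ i : Fin 3, ∑ j : Fin 3,
      kf ϱ δ i j p * hs g k i p.1 * hs g k j p.1)
    - 2 * φ p.1 * (∑ k : Fin 3, ∑ i : Fin 3, ∑ j : Fin 3,
      dv k (kf ϱ δ i j) p * gam j g p.1 * hs g k i p.1)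
    - 2 * (∑ k : Fin 3, ∑ i : Fin 3, ∑ j : Fin 3,
      pd i φ p.1 * gam k g p.1 * gam j g p.1 * dv k (kf ϱ δ i j) p)
    + x2 g p.1 * ((∑ i : Fin 3, ∑ j : Fin 3, kf ϱ δ i j p * pd i (pd j φ) p.1)
      + (∑ i : Fin 3, ∑ j : Fin 3, dv j (kf ϱ δ i j) p * pd i φ p.1)
      + ∑ i : Fin 3, be ϱ δ i p * pd i φ p.1)
    - 2 * φ p.1 * (∑ k : Fin 3, gam k g p.1 * dv k (dbe ϱ δ) p)
    - 2 * φ p.1 * (∑ k : Fin 3, ∑ i : Fin 3,
      dv k (be ϱ δ i) p * gam i g p.1 * gam k g p.1))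

/-- antisymmetric part of `DX` -/
noncomputable def XL (g : V → ℝ) (a b l : Fin 3) (v w : V) : ℝ := DX g a b l v w - DX g a b l w v

/-- squared norms of the gradients of `XX g a b` in both variables -/
noncomputable def QD (g : V → ℝ) (a b : Fin 3) (v w : V) : ℝ :=
  (∑ l : Fin 3, DX g a b l v w ^ 2) + ∑ l : Fin 3, DX g a b l w v ^ 2

/-- error density of the near part -/
noncomputable def EN (φ ϱ κ g : V → ℝ) (v w : V) : ℝ :=
  φ v * g v * g w * (x2 g v * (κ v * kN ϱ v w + kF ϱ v w / ϱ v ^ 2))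

end Pool.Agent.LandauF
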