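import Pool.Agent.LandauF.NId
import Pool.Agent.LandauF.NCut

/-!
# LandauF, module NEps: removal of the regularisation of the kernel

`aK i j z = (1/(8π)) (δ_ij r² - z_i z_j)/r³`, and the kernel of `Ne ε` is the same with `rE³` in place of
`r³`, `rE ≥ r`: it converges to `aK` and is bounded by `|aK|`-type bound `1/r`.  The rest of the integrand
is continuous with compact support (`eta ≠ 0` gives `r² ≤ SS`, and `G = GG φ g` has compact support), so
dominated convergence applies; `1/r` is integrable on compact sets of pairs.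
-/

set_option autoImplicit false

namespace Pool.Agent.LandauF

open MeasureTheory Set Filter Topology Pool.Agent.Landau Pool.Agent.Landau.KIbp

/-- the regularised kernel of `Ne` -/
private noncomputable def neK (ε : ℝ) (i j : Fin 3) (z : V) : ℝ :=
  (1 / (8 * Real.pi)) * (kd i j * ‖z‖ ^ 2 - z i * z j) * (rr ε z ^ 3)⁻¹

/-- the smooth compactly supported factor -/
private noncomputable def neC (ϱ : V → ℝ) (δ : ℝ) (φ g : V → ℝ) (i j : Fin 3) (p : V × V) : ℝ :=
  eta ϱ δ p * FF g p * (pd i (GG φ g) p.1 - pd i (GG φ g) p.2) * (gam j g p.1 - gam j g p.2)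

private theorem Ne_eq (ε : ℝ) (ϱ : V → ℝ) (δ : ℝ) (φ g : V → ℝ) (p : V × V) :
    Ne ε ϱ δ φ g p = -(1 / 2) * ∑ i : Fin 3, ∑ j : Fin 3, neK ε i j (p.1 - p.2) * neC ϱ δ φ g i j p := by
  unfold Ne
  congr 1
  rw [Finset.mul_sum]
  refine Finset.sum_congr rfl fun i _ => ?_
  rw [Finset.mul_sum]
  refine Finset.sum_congr rfl fun j _ => ?_
  have e : rE ε p = rr ε (p.1 - p.2) := rfl
  simp only [neK, neC, e, PiLp.sub_apply]
  ring

private theorem N0_eq (ϱ : V → ℝ) (δ : ℝ) (φ g : V → ℝ) (p : V × V) :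
    N0 ϱ δ φ g p = -(1 / 2) * ∑ i : Fin 3, ∑ j : Fin 3, aK i j (p.1 - p.2) * neC ϱ δ φ g i j p := by
  unfold N0
  congr 1
  rw [Finset.mul_sum]
  refine Finset.sum_congr rfl fun i _ => ?_
  rw [Finset.mul_sum]
  refine Finset.sum_congr rfl fun j _ => ?_
  simp only [neC]
  ring

private theorem neK_abs (ε : ℝ) (i j : Fin 3) (z : V) : |neK ε i j z| ≤ 1 / ‖z‖ := by
  rcases eq_or_ne z 0 with rfl | hz
  · simp [neK]
  have hr : 0 < ‖z‖ := norm_pos_iff.2 hz
  have hrr : ‖z‖ ≤ rr ε z := norm_le_rr ε z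
  have h1 : (rr ε z ^ 3)⁻¹ ≤ (‖z‖ ^ 3)⁻¹ :=
    inv_anti₀ (by positivity) (pow_le_pow_left₀ hr.le hrr 3)
  have h2 : |kd i j * ‖z‖ ^ 2 - z i * z j| ≤ 2 * ‖z‖ ^ 2 := by
    have ha : |kd i j * ‖z‖ ^ 2| ≤ ‖z‖ ^ 2 := by
      rw [abs_mul, abs_of_nonneg (by positivity : (0 : ℝ) ≤ ‖z‖ ^ 2)]
      have : |kd i j| ≤ 1 := by
        unfold kd
        split_ifs <;> simp
      calc _ ≤ 1 * ‖z‖ ^ 2 := mul_le_mul_of_nonneg_right this (by positivity)
        _ = _ := one_mul _
    have hb : |z i * z j| ≤ ‖z‖ ^ 2 := by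
      rw [abs_mul, pow_two]
      exact mul_le_mul (Cls.abs_coord z i) (Cls.abs_coord z j) (abs_nonneg _) hr.le
    exact (abs_sub _ _).trans (by linarith)
  have h8 : (1 / (8 * Real.pi)) ≤ 1 / 2 := by
    have hpi := Real.pi_gt_three
    rw [div_le_div_iff₀ (by positivity) (by norm_num)]
    linarith
  have h0 : (0 : ℝ) ≤ (rr ε z ^ 3)⁻¹ := inv_nonneg.2 (pow_nonneg (rr_nonneg ε z) 3)
  unfold neK
  rw [abs_mul, abs_mul, abs_of_pos (by positivity : (0 : ℝ) < 1 / (8 * Real.pi)),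
    abs_of_nonneg h0]
  calc 1 / (8 * Real.pi) * |kd i j * ‖z‖ ^ 2 - z i * z j| * (rr ε z ^ 3)⁻¹
      ≤ (1 / 2) * (2 * ‖z‖ ^ 2) * (‖z‖ ^ 3)⁻¹ :=
        mul_le_mul (mul_le_mul h8 h2 (abs_nonneg _) (by norm_num)) h1 h0 (by positivity)
    _ = 1 / ‖z‖ := by
        field_simp

private theorem neK_lim (i j : Fin 3) (z : V) :
    Tendsto (fun n : ℕ => neK (1 / ((n : ℝ) + 1)) i j z) atTop (𝓝 (aK i j z)) := by
  rcases eq_or_ne z 0 with rfl | hz
  · have e1 : ∀ n : ℕ, neK (1 / ((n : ℝ) + 1)) i j (0 : V) = 0 := fun n => by simp [neK]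
    have e2 : aK i j (0 : V) = 0 := by simp [aK]
    simp only [e1, e2]
    exact tendsto_const_nhds
  have hr : 0 < ‖z‖ := norm_pos_iff.2 hz
  have e : aK i j z = (1 / (8 * Real.pi)) * (kd i j * ‖z‖ ^ 2 - z i * z j) * (‖z‖ ^ 3)⁻¹ := by
    unfold aK kd
    field_simp
  rw [e]
  exact (((lim_rr z).pow 3).inv₀ (by positivity)).const_mul _

private theorem neK_cont {ε : ℝ} (hε : 0 < ε) (i j : Fin 3) : Continuous (neK ε i j) := by
  unfold neK
  have h1 : Continuous fun z : V => (rr ε z ^ 3)⁻¹ := (contDiff_inv3 hε).continuous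
  exact (continuous_const.mul ((continuous_const.mul (continuous_norm.pow 2)).sub
    ((coord_cont i).mul (coord_cont j)))).mul h1

private theorem GG_support {φ g : V → ℝ} {v : V} (hv : v ∉ tsupport φ) (i : Fin 3) :
    pd i (GG φ g) v = 0 := by
  have h1 : (GG φ g) =ᶠ[𝓝 v] fun _ => (0 : ℝ) := by
    have ho : IsOpen (tsupport φ)ᶜ := (isClosed_tsupport φ).isOpen_compl
    filter_upwards [ho.mem_nhds hv] with x hx
    have hx1 : φ x = 0 := image_eq_zero_of_notMem_tsupport hx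
    have hx2 : ∀ i, pd i φ x = 0 := fun i => by
      have : x ∉ tsupport (fderiv ℝ φ) := fun h => hx (tsupport_fderiv_subset ℝ h)
      have h0 : fderiv ℝ φ x = 0 := image_eq_zero_of_notMem_tsupport this
      simp [pd, h0]
    simp [GG, hx1, hx2]
  have h2 : fderiv ℝ (GG φ g) v = 0 := by
    rw [h1.fderiv_eq]
    simp
  simp [pd, h2]

/-- bound and support of the smooth factor -/
private theorem neC_bound {ε₀ : ℝ} (hε : ε₀ ≤ 1 / 100) {φ ϱ κ g : V → ℝ} (hA : Adm ε₀ φ ϱ κ)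
    (hg : Dn g) {δ : ℝ} (h2 : 0 < δ) :
    (∀ i j, Continuous (neC ϱ δ φ g i j)) ∧ ∃ R C : ℝ, 0 ≤ C ∧ ∀ i j p,
      |neC ϱ δ φ g i j p| ≤ C * ((Metric.closedBall (0 : V) R).indicator 1 p.1 *
        (Metric.closedBall (0 : V) R).indicator 1 p.2) := by
  have hcont : ∀ i j, Continuous (neC ϱ δ φ g i j) := by
    intro i j
    have c1 : Continuous (eta ϱ δ) := (eta_smooth hA.rsmooth h2).continuous
    have c2 : Continuous (FF g) := (FF_smooth hg).continuous
    have c3 : Continuous (pd i (GG φ g)) :=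
      continuous_pd (contDiff_one_of_smooth (GG_smooth hA.smooth hg)) i
    have c4 : Continuous (gam j g) := (gam_smooth hg j).continuous
    unfold neC
    exact ((c1.mul c2).mul ((c3.comp continuous_fst).sub (c3.comp continuous_snd))).mul
      ((c4.comp continuous_fst).sub (c4.comp continuous_snd))
  refine ⟨hcont, ?_⟩
  obtain ⟨ρ, hρ⟩ := hA.compact.isCompact.isBounded.subset_closedBall (0 : V)
  have hlip : ∀ v w, |ϱ v - ϱ w| ≤ 1 / 100 * ‖v - w‖ := fun v w =>
    (hA.rlip v w).trans (mul_le_mul_of_nonneg_right hε (norm_nonneg _))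
  set ρ' : ℝ := max ρ 0 with hρ'
  have hρ0 : 0 ≤ ρ' := le_max_right _ _
  set R : ℝ := ρ' + 2 * (ϱ 0 + ρ' + δ) with hR
  have h0 : 0 ≤ ϱ 0 := hA.rnonneg 0
  -- points in the support
  have key : ∀ x y : V, x ∈ tsupport φ → ∀ m : V, ‖m - x‖ ≤ ‖x - y‖ / 2 →
      ‖x - y‖ ^ 2 < ϱ m ^ 2 + δ ^ 2 → ‖x‖ ≤ R ∧ ‖y‖ ≤ R := by
    intro x y hx m hm hs
    have hx1 : ‖x‖ ≤ ρ' := by
      have := hρ hx
      rw [mem_closedBall_zero_iff] at this
      exact this.trans (le_max_left _ _)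
    have hm0 := hA.rnonneg m
    have h3 : ‖x - y‖ ≤ ϱ m + δ := by
      by_contra hc
      push Not at hc
      have : (ϱ m + δ) ^ 2 < ‖x - y‖ ^ 2 := by
        gcongr
      nlinarith
    have h4 : ‖m‖ ≤ ρ' + ‖x - y‖ / 2 := by
      have := norm_add_le (m - x) x
      rw [sub_add_cancel] at this
      linarith
    have h5 := abs_le.1 (hlip m 0)
    rw [sub_zero] at h5
    have h6 : ‖x - y‖ ≤ 2 * (ϱ 0 + ρ' + δ) := by
      have := norm_nonneg (x - y)
      nlinarith [h5.2]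
    have h7 : ‖y‖ ≤ ‖x‖ + ‖x - y‖ := by
      have := norm_sub_le x (x - y)
      rwa [sub_sub_cancel] at this
    constructor <;> linarith
  have hzero : ∀ i j p, ¬ (‖p.1‖ ≤ R ∧ ‖p.2‖ ≤ R) → neC ϱ δ φ g i j p = 0 := by
    intro i j p hp
    by_contra hne
    have he : eta ϱ δ p ≠ 0 := by
      intro h
      exact hne (by simp [neC, h])
    have hs : ‖p.1 - p.2‖ ^ 2 < SS ϱ δ p := by
      by_contra hc
      push Not at hc
      exact he (eta_zero h2 hc)
    have hd : pd i (GG φ g) p.1 - pd i (GG φ g) p.2 ≠ 0 := by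
      intro h
      exact hne (by simp [neC, h])
    have hor : p.1 ∈ tsupport φ ∨ p.2 ∈ tsupport φ := by
      by_contra hc
      push Not at hc
      exact hd (by rw [GG_support hc.1, GG_support hc.2, sub_zero])
    have hm : mid p.1 p.2 - p.1 = (1 / 2 : ℝ) • (p.2 - p.1) := by
      unfold mid
      module
    have hm' : mid p.1 p.2 - p.2 = (1 / 2 : ℝ) • (p.1 - p.2) := by
      unfold mid
      module
    unfold SS at hs
    rcases hor with h | h
    · refine hp (key p.1 p.2 h (mid p.1 p.2) ?_ hs)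
      rw [hm, norm_smul, Real.norm_of_nonneg (by norm_num), norm_sub_rev]
      linarith
    · refine hp (And.symm (key p.2 p.1 h (mid p.1 p.2) ?_ ?_))
      · rw [hm', norm_smul, Real.norm_of_nonneg (by norm_num), norm_sub_rev]
        linarith
      · rw [norm_sub_rev]
        exact hs
  have hK : IsCompact (Metric.closedBall (0 : V) R ×ˢ Metric.closedBall (0 : V) R) :=
    (isCompact_closedBall _ _).prod (isCompact_closedBall _ _)
  have hb : ∀ i j, ∃ C : ℝ, ∀ p ∈ Metric.closedBall (0 : V) R ×ˢ Metric.closedBall (0 : V) R,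
      ‖neC ϱ δ φ g i j p‖ ≤ C := fun i j =>
    hK.exists_bound_of_continuousOn (hcont i j).continuousOn
  choose C hC using hb
  refine ⟨R, ∑ i, ∑ j, |C i j|, by positivity, fun i j p => ?_⟩
  by_cases hp : ‖p.1‖ ≤ R ∧ ‖p.2‖ ≤ R
  · have m1 : p.1 ∈ Metric.closedBall (0 : V) R := mem_closedBall_zero_iff.2 hp.1
    have m2 : p.2 ∈ Metric.closedBall (0 : V) R := mem_closedBall_zero_iff.2 hp.2
    rw [indicator_of_mem m1, indicator_of_mem m2]
    have h3 : |neC ϱ δ φ g i j p| ≤ |C i j| := (hC i j p ⟨m1, m2⟩).trans (le_abs_self _)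
    have h4 : |C i j| ≤ ∑ i, ∑ j, |C i j| :=
      (Finset.single_le_sum (f := fun j => |C i j|) (fun j _ => abs_nonneg _)
        (Finset.mem_univ j)).trans
      (Finset.single_le_sum (f := fun i => ∑ j, |C i j|)
        (fun i _ => Finset.sum_nonneg fun j _ => abs_nonneg _) (Finset.mem_univ i))
    simp only [Pi.one_apply, mul_one]
    exact h3.trans h4
  · rw [hzero i j p hp, abs_zero]
    refine mul_nonneg (by positivity) (mul_nonneg ?_ ?_) <;>
    exact indicator_nonneg (fun _ _ => zero_le_one) _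

private theorem dom_int (R C : ℝ) : Integrable (fun p : V × V => 9 / 2 * (C *
    ((Metric.closedBall (0 : V) R).indicator 1 p.1 *
      (Metric.closedBall (0 : V) R).indicator 1 p.2 / ‖p.1 - p.2‖)))
    ((volume : Measure V).prod volume) := by
  have hm : MeasurableSet (Metric.closedBall (0 : V) R) := Metric.isClosed_closedBall.measurableSet
  have hi : Integrable ((Metric.closedBall (0 : V) R).indicator (1 : V → ℝ)) :=
    (integrable_indicator_iff hm).2
      (continuous_const.continuousOn.integrableOn_compact (isCompact_closedBall _ _))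
  have h := (integrable_prod_inv _ _ hi hi 1 (fun v => by
    by_cases hv : v ∈ Metric.closedBall (0 : V) R
    · rw [indicator_of_mem hv]
      simp
    · rw [indicator_of_notMem hv]
      simp)).1
  exact (h.const_mul C).const_mul (9 / 2)

private theorem sum_bound {K c : Fin 3 → Fin 3 → ℝ} {r D : ℝ} (hK : ∀ i j, |K i j| ≤ 1 / r)
    (hc : ∀ i j, |c i j| ≤ D) :
    |-(1 / 2) * ∑ i : Fin 3, ∑ j : Fin 3, K i j * c i j| ≤ 9 / 2 * (D / r) := by
  have h0 : 0 ≤ 1 / r := (abs_nonneg _).trans (hK 0 0)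
  have h1 : ∀ i j, |K i j * c i j| ≤ 1 / r * D := fun i j => by
    rw [abs_mul]
    exact mul_le_mul (hK i j) (hc i j) (abs_nonneg _) h0
  have h2 : |∑ i : Fin 3, ∑ j : Fin 3, K i j * c i j| ≤ 9 * (1 / r * D) := by
    calc |∑ i : Fin 3, ∑ j : Fin 3, K i j * c i j|
        ≤ ∑ i : Fin 3, |∑ j : Fin 3, K i j * c i j| := Finset.abs_sum_le_sum_abs _ _
      _ ≤ ∑ i : Fin 3, ∑ j : Fin 3, |K i j * c i j| :=
          Finset.sum_le_sum fun i _ => Finset.abs_sum_le_sum_abs _ _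
      _ ≤ ∑ i : Fin 3, ∑ j : Fin 3, (1 / r * D) :=
          Finset.sum_le_sum fun i _ => Finset.sum_le_sum fun j _ => h1 i j
      _ = 9 * (1 / r * D) := by
          simp
          ring
  rw [abs_mul, abs_neg, abs_of_pos (by norm_num : (0 : ℝ) < 1 / 2)]
  calc 1 / 2 * |∑ i : Fin 3, ∑ j : Fin 3, K i j * c i j| ≤ 1 / 2 * (9 * (1 / r * D)) :=
        mul_le_mul_of_nonneg_left h2 (by norm_num)
    _ = 9 / 2 * (D / r) := by ring

theorem N0_int {ε₀ : ℝ} (hε : ε₀ ≤ 1 / 100) {φ ϱ κ g : V → ℝ} (hA : Adm ε₀ φ ϱ κ) (hg : Dn g)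
    {δ : ℝ} (h2 : 0 < δ) : Integrable (N0 ϱ δ φ g) ((volume : Measure V).prod volume) := by
  obtain ⟨hcont, R, C, hC0, hb⟩ := neC_bound hε hA hg h2
  refine (dom_int R C).mono' ?_ (Eventually.of_forall fun p => ?_)
  · have e : N0 ϱ δ φ g = fun p => -(1 / 2) * ∑ i : Fin 3, ∑ j : Fin 3,
        aK i j (p.1 - p.2) * neC ϱ δ φ g i j p := funext fun p => N0_eq ϱ δ φ g p
    rw [e]
    refine Measurable.aestronglyMeasurable (Measurable.const_mul ?_ _)
    refine Finset.measurable_sum _ fun i _ => Finset.measurable_sum _ fun j _ => ?_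
    exact ((aK_measurable i j).comp (measurable_fst.sub measurable_snd)).mul
      (hcont i j).measurable
  · rw [N0_eq, Real.norm_eq_abs]
    refine (sum_bound (fun i j => aK_abs i j (p.1 - p.2)) (fun i j => hb i j p)).trans
      (le_of_eq ?_)
    ring

/-- Limit of the regularised near parts. -/
theorem near_lim {ε₀ : ℝ} (hε : ε₀ ≤ 1 / 100) {φ ϱ κ g : V → ℝ} (hA : Adm ε₀ φ ϱ κ) (hg : Dn g)
    {δ : ℝ} (h2 : 0 < δ) :
    Tendsto (fun n : ℕ => ∫ p, Ne (1 / ((n : ℝ) + 1)) ϱ δ φ g p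
        ∂((volume : Measure V).prod volume)) atTop
      (𝓝 (∫ p, N0 ϱ δ φ g p ∂((volume : Measure V).prod volume))) := by
  obtain ⟨hcont, R, C, hC0, hb⟩ := neC_bound hε hA hg h2
  refine tendsto_integral_of_dominated_convergence _ (fun n => ?_) (dom_int R C) (fun n => ?_)
    (Eventually.of_forall fun p => ?_)
  · have e : Ne (1 / ((n : ℝ) + 1)) ϱ δ φ g = fun p => -(1 / 2) * ∑ i : Fin 3, ∑ j : Fin 3,
        neK (1 / ((n : ℝ) + 1)) i j (p.1 - p.2) * neC ϱ δ φ g i j p :=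
      funext fun p => Ne_eq _ ϱ δ φ g p
    have hc : Continuous (Ne (1 / ((n : ℝ) + 1)) ϱ δ φ g) := by
      rw [e]
      refine continuous_const.mul (continuous_finsetSum _ fun i _ =>
        continuous_finsetSum _ fun j _ => ?_)
      exact ((neK_cont (s_pos n) i j).comp (continuous_fst.sub continuous_snd)).mul (hcont i j)
    exact hc.aestronglyMeasurable
  · refine Eventually.of_forall fun p => ?_
    rw [Ne_eq, Real.norm_eq_abs]
    refine (sum_bound (fun i j => neK_abs _ i j (p.1 - p.2)) (fun i j => hb i j p)).trans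
      (le_of_eq ?_)
    ring
  · simp only [Ne_eq, N0_eq]
    refine Tendsto.const_mul _ (tendsto_finsetSum _ fun i _ => tendsto_finsetSum _ fun j _ => ?_)
    exact (neK_lim i j _).mul_const _

end Pool.Agent.LandauF
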