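import Pool.Agent.LandauF.NOps

/-!
# LandauF, module NIbp: integration by parts on pairs

`rr_zero`: `∫ RR a b Q = 0` for smooth compactly supported `Q`: `RR a b Q` is
`½ (z_a (dv b - dw b) Q - z_b (dv a - dw a) Q)`, integrate by parts in each variable (Mathlib:
`integral_mul_fderiv_eq_neg_fderiv_mul_of_integrable` on `V × V`, or Fubini and `ibp` of
`Landau/Base.lean`): `∫ z_a (dv b - dw b) Q = - ∫ 2 δ_{ab} Q`, symmetric in `a, b`.
`lap_ibp`: integration by parts for the weighted Laplacian.
-/

set_option autoImplicit false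

namespace Pool.Agent.LandauF

open MeasureTheory Set Filter Topology Pool.Agent.Landau

/-- weighted Laplacian -/
noncomputable def lapq (φ : V → ℝ) (P : V × V → ℝ) (p : V × V) : ℝ :=
  (∑ l : Fin 3, dv l (fun x => φ x.1 * dv l P x) p) + ∑ l : Fin 3, dw l (fun x => φ x.2 * dw l P x) p

theorem dv_compact {Q : V × V → ℝ} (hc : HasCompactSupport Q) (l : Fin 3) :
    HasCompactSupport (dv l Q) := by
  unfold dv
  exact hc.fderiv_apply (𝕜 := ℝ) _

theorem dw_compact {Q : V × V → ℝ} (hc : HasCompactSupport Q) (l : Fin 3) :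
    HasCompactSupport (dw l Q) := by
  unfold dw
  exact hc.fderiv_apply (𝕜 := ℝ) _

/-- integration by parts in any direction -/
theorem dir_ibp {P Q : V × V → ℝ} (hP : ContDiff ℝ (⊤ : ℕ∞) P) (hQ : ContDiff ℝ (⊤ : ℕ∞) Q)
    (hc : HasCompactSupport Q) (d : V × V) :
    ∫ p, P p * fderiv ℝ Q p d ∂((volume : Measure V).prod volume) =
      -∫ p, fderiv ℝ P p d * Q p ∂((volume : Measure V).prod volume) := by
  have hP1 : ContDiff ℝ 1 P := hP.of_le (by exact_mod_cast le_top)
  have hQ1 : ContDiff ℝ 1 Q := hQ.of_le (by exact_mod_cast le_top)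
  have h1 : Continuous fun p => fderiv ℝ P p d :=
    (hP1.continuous_fderiv (by norm_num)).clm_apply continuous_const
  have h2 : Continuous fun p => fderiv ℝ Q p d :=
    (hQ1.continuous_fderiv (by norm_num)).clm_apply continuous_const
  have h3 : HasCompactSupport fun p => fderiv ℝ Q p d := hc.fderiv_apply (𝕜 := ℝ) _
  refine integral_mul_fderiv_eq_neg_fderiv_mul_of_integrable
    (μ := (volume : Measure V).prod volume) (f := P) (g := Q) (v := d) ?_ ?_ ?_
    (fun x _ => hP1.differentiable (by norm_num) x) (fun x _ => hQ1.differentiable (by norm_num) x)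
  · exact (h1.mul hQ.continuous).integrable_of_hasCompactSupport (hc.mul_left)
  · exact (hP.continuous.mul h2).integrable_of_hasCompactSupport (h3.mul_left)
  · exact (hP.continuous.mul hQ.continuous).integrable_of_hasCompactSupport (hc.mul_left)

theorem dv_ibp {P Q : V × V → ℝ} (hP : ContDiff ℝ (⊤ : ℕ∞) P) (hQ : ContDiff ℝ (⊤ : ℕ∞) Q)
    (hc : HasCompactSupport Q) (l : Fin 3) :
    ∫ p, P p * dv l Q p ∂((volume : Measure V).prod volume) =
      -∫ p, dv l P p * Q p ∂((volume : Measure V).prod volume) :=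
  dir_ibp hP hQ hc _

theorem dw_ibp {P Q : V × V → ℝ} (hP : ContDiff ℝ (⊤ : ℕ∞) P) (hQ : ContDiff ℝ (⊤ : ℕ∞) Q)
    (hc : HasCompactSupport Q) (l : Fin 3) :
    ∫ p, P p * dw l Q p ∂((volume : Measure V).prod volume) =
      -∫ p, dw l P p * Q p ∂((volume : Measure V).prod volume) :=
  dir_ibp hP hQ hc _

/-- the coordinates of `z = v - w` -/
noncomputable def zl (a : Fin 3) : V × V →L[ℝ] ℝ :=
  (EuclideanSpace.proj a).comp (ContinuousLinearMap.fst ℝ V V) -
    (EuclideanSpace.proj a).comp (ContinuousLinearMap.snd ℝ V V)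

theorem zl_apply (a : Fin 3) (p : V × V) : zl a p = p.1 a - p.2 a := rfl

theorem zl_ibp {Q : V × V → ℝ} (hQ : ContDiff ℝ (⊤ : ℕ∞) Q) (hc : HasCompactSupport Q)
    (a b : Fin 3) :
    ∫ p : V × V, (p.1 a - p.2 a) * (dv b Q p - dw b Q p) ∂((volume : Measure V).prod volume) =
      -∫ p, (if a = b then (2 : ℝ) else 0) * Q p ∂((volume : Measure V).prod volume) := by
  have h := dir_ibp (zl a).contDiff hQ hc
    ((EuclideanSpace.single b (1 : ℝ), -EuclideanSpace.single b (1 : ℝ)) : V × V)
  have e1 : ∀ p : V × V, fderiv ℝ Q p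
      ((EuclideanSpace.single b (1 : ℝ), -EuclideanSpace.single b (1 : ℝ)) : V × V) =
      dv b Q p - dw b Q p := by
    intro p
    unfold dv dw
    rw [← map_sub]
    congr 1
    ext <;> simp
  have e2 : ∀ p : V × V, fderiv ℝ (zl a) p
      ((EuclideanSpace.single b (1 : ℝ), -EuclideanSpace.single b (1 : ℝ)) : V × V) =
      if a = b then (2 : ℝ) else 0 := by
    intro p
    rw [ContinuousLinearMap.fderiv, zl_apply]
    by_cases hab : a = b
    · subst hab
      simp
      norm_num
    · simp [hab]
  simp only [e1, e2, zl_apply] at h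
  exact h

theorem RR_compact {Q : V × V → ℝ} (hc : HasCompactSupport Q) (a b : Fin 3) :
    HasCompactSupport (RR a b Q) := by
  have h1 : HasCompactSupport (fun p : V × V => (p.1 a - p.2 a) * (dv b Q p - dw b Q p)) :=
    ((dv_compact hc b).sub (dw_compact hc b)).mul_left
  have h2 : HasCompactSupport (fun p : V × V => (p.1 b - p.2 b) * (dv a Q p - dw a Q p)) :=
    ((dv_compact hc a).sub (dw_compact hc a)).mul_left
  exact (h1.sub h2).mul_left

theorem rr_zero {Q : V × V → ℝ} (hQ : ContDiff ℝ (⊤ : ℕ∞) Q) (hc : HasCompactSupport Q)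
    (a b : Fin 3) : ∫ p, RR a b Q p ∂((volume : Measure V).prod volume) = 0 := by
  have hz : ∀ a : Fin 3, Continuous fun p : V × V => p.1 a - p.2 a := fun a => (zl a).continuous
  have hi : ∀ a b : Fin 3, Integrable (fun p : V × V => (p.1 a - p.2 a) * (dv b Q p - dw b Q p))
      ((volume : Measure V).prod volume) := by
    intro a b
    refine Continuous.integrable_of_hasCompactSupport ?_ ?_
    · exact (hz a).mul ((smooth_dv hQ b).continuous.sub (smooth_dw hQ b).continuous)
    · exact ((dv_compact hc b).sub (dw_compact hc b)).mul_left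
  unfold RR
  rw [integral_const_mul, integral_sub (hi a b) (hi b a), zl_ibp hQ hc a b, zl_ibp hQ hc b a]
  by_cases hab : a = b
  · subst hab
    simp
  · simp [hab, Ne.symm hab]

theorem rr_ibp {P Q : V × V → ℝ} (hP : ContDiff ℝ (⊤ : ℕ∞) P) (hQ : ContDiff ℝ (⊤ : ℕ∞) Q)
    (hc : HasCompactSupport Q) (a b : Fin 3) :
    ∫ p, Q p * RR a b P p ∂((volume : Measure V).prod volume) =
      -∫ p, RR a b Q p * P p ∂((volume : Measure V).prod volume) := by
  have h0 := rr_zero (hQ.mul hP) hc.mul_right a b
  have h1 : ∀ p, RR a b (fun x => Q x * P x) p = Q p * RR a b P p + RR a b Q p * P p :=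
    RR_mul hQ hP a b
  simp only [h1] at h0
  rw [integral_add] at h0
  · linarith
  · exact (hQ.continuous.mul (smooth_RR hP a b).continuous).integrable_of_hasCompactSupport
      hc.mul_right
  · exact ((smooth_RR hQ a b).continuous.mul hP.continuous).integrable_of_hasCompactSupport
      (RR_compact hc a b).mul_right

theorem lap_ibp {φ : V → ℝ} {P Q : V × V → ℝ} (hφ : ContDiff ℝ (⊤ : ℕ∞) φ)
    (hP : ContDiff ℝ (⊤ : ℕ∞) P) (hQ : ContDiff ℝ (⊤ : ℕ∞) Q) (hc : HasCompactSupport Q) :
    ∫ p, Q p * lapq φ P p ∂((volume : Measure V).prod volume) =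
      -∫ p, qq φ Q P p ∂((volume : Measure V).prod volume) := by
  have sv : ∀ l, ContDiff ℝ (⊤ : ℕ∞) (fun x : V × V => φ x.1 * dv l P x) := fun l =>
    (hφ.comp contDiff_fst).mul (smooth_dv hP l)
  have sw : ∀ l, ContDiff ℝ (⊤ : ℕ∞) (fun x : V × V => φ x.2 * dw l P x) := fun l =>
    (hφ.comp contDiff_snd).mul (smooth_dw hP l)
  have iv : ∀ l, Integrable (fun p => Q p * dv l (fun x => φ x.1 * dv l P x) p)
      ((volume : Measure V).prod volume) := fun l =>
    (hQ.continuous.mul (smooth_dv (sv l) l).continuous).integrable_of_hasCompactSupport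
      hc.mul_right
  have iw : ∀ l, Integrable (fun p => Q p * dw l (fun x => φ x.2 * dw l P x) p)
      ((volume : Measure V).prod volume) := fun l =>
    (hQ.continuous.mul (smooth_dw (sw l) l).continuous).integrable_of_hasCompactSupport
      hc.mul_right
  have jv : ∀ l, Integrable (fun p : V × V => (φ p.1 * dv l P p) * dv l Q p)
      ((volume : Measure V).prod volume) := fun l =>
    ((sv l).continuous.mul (smooth_dv hQ l).continuous).integrable_of_hasCompactSupport
      (dv_compact hc l).mul_left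
  have jw : ∀ l, Integrable (fun p : V × V => (φ p.2 * dw l P p) * dw l Q p)
      ((volume : Measure V).prod volume) := fun l =>
    ((sw l).continuous.mul (smooth_dw hQ l).continuous).integrable_of_hasCompactSupport
      (dw_compact hc l).mul_left
  have e1 : ∀ p, Q p * lapq φ P p =
      (∑ l : Fin 3, Q p * dv l (fun x => φ x.1 * dv l P x) p) +
        ∑ l : Fin 3, Q p * dw l (fun x => φ x.2 * dw l P x) p := by
    intro p
    unfold lapq
    rw [mul_add, Finset.mul_sum, Finset.mul_sum]
  have e2 : ∀ p, qq φ Q P p = (∑ l : Fin 3, (φ p.1 * dv l P p) * dv l Q p) +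
      ∑ l : Fin 3, (φ p.2 * dw l P p) * dw l Q p := by
    intro p
    unfold qq
    rw [Finset.mul_sum, Finset.mul_sum]
    congr 1
    · exact Finset.sum_congr rfl fun l _ => by ring
    · exact Finset.sum_congr rfl fun l _ => by ring
  simp only [e1, e2]
  rw [integral_add (integrable_finsetSum _ fun l _ => iv l) (integrable_finsetSum _ fun l _ => iw l),
    integral_add (integrable_finsetSum _ fun l _ => jv l) (integrable_finsetSum _ fun l _ => jw l),
    integral_finsetSum _ fun l _ => iv l, integral_finsetSum _ fun l _ => iw l,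
    integral_finsetSum _ fun l _ => jv l, integral_finsetSum _ fun l _ => jw l, neg_add,
    ← Finset.sum_neg_distrib, ← Finset.sum_neg_distrib]
  congr 1
  · refine Finset.sum_congr rfl fun l _ => ?_
    rw [dv_ibp (sv l) hQ hc l, neg_neg]
    exact integral_congr_ae (Eventually.of_forall fun p => mul_comm _ _)
  · refine Finset.sum_congr rfl fun l _ => ?_
    rw [dw_ibp (sw l) hQ hc l, neg_neg]
    exact integral_congr_ae (Eventually.of_forall fun p => mul_comm _ _)

end Pool.Agent.LandauF
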