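import Pool.Agent.LandauF.NIbp

/-!
# LandauF, module NId: the near identity

For `B` smooth, compactly supported on pairs, with `RR a b B = 0` (for this pair `a, b`):
`- ∫ B (RR Gb) (RR F) = ∫ Iab B φ g a b`, where `F = FF g = e^u`, `u = uu g`, `g_ab = RR a b u`.

Proof.  `Gb = -(lapq φ u + ½ qq φ u u)` (from the definition of `GG`: `gam i g = ∂_i log g`,
`hs g i i = ∂_i gam i g`), `RR F = F g_ab`.  So
`L := -∫ B (RR Gb) RR F = ∫ B F g_ab RR (lapq φ u) + ½ ∫ B F g_ab RR (qq φ u u)`.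
Put `Ψ = B F g_ab` (smooth, compact support).  By `rr_ibp`, `lap_ibp` and `rr_qq`, `rr_zero`:
`∫ Ψ RR (lapq φ u) = -∫ (RR Ψ) lapq φ u = ∫ qq φ (RR Ψ) u`
`= ∫ (RR (qq φ Ψ u) - qq φ Ψ (RR u) - q1 Ψ u) = -∫ qq φ Ψ g_ab - ∫ q1 φ a b Ψ u`,
`qq φ Ψ g_ab = B F qq g_ab g_ab + B F g_ab qq u g_ab + F g_ab qq B g_ab`,
`q1 Ψ u = B F q1 g_ab u + B F g_ab q1 u u + F g_ab q1 B u` (`q1 φ a b` is a derivation in each
argument), `½ B F g_ab RR (qq u u) = B F g_ab qq g_ab u + ½ B F g_ab q1 u u` (`rr_qq`).  Sum: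
`L = ∫ [- B F qq g g - B F q1 u g - ½ B F g_ab q1 u u - F g_ab qq g B - F g_ab q1 u B]`, and
`-½ ∫ B F g_ab q1 u u = -½ ∫ B (RR F) q1 u u = ½ ∫ B F RR (q1 u u)` since `RR B = 0` (`rr_ibp`).
(Checked by an exact computer computation.)
-/

set_option linter.all false

set_option autoImplicit false

namespace Pool.Agent.LandauF

open MeasureTheory Set Filter Topology Pool.Agent.Landau

theorem nid_dv_fst {f : V → ℝ} {p : V × V} (hf : DifferentiableAt ℝ f p.1) (l : Fin 3) :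
    dv l (fun x => f x.1) p = pd l f p.1 := by
  have h : HasFDerivAt (fun x : V × V => f x.1)
      ((fderiv ℝ f p.1).comp (ContinuousLinearMap.fst ℝ V V)) p :=
    hf.hasFDerivAt.comp p hasFDerivAt_fst
  unfold dv pd
  rw [h.fderiv]
  rfl

theorem nid_dv_snd {f : V → ℝ} {p : V × V} (hf : DifferentiableAt ℝ f p.2) (l : Fin 3) :
    dv l (fun x => f x.2) p = 0 := by
  have h : HasFDerivAt (fun x : V × V => f x.2)
      ((fderiv ℝ f p.2).comp (ContinuousLinearMap.snd ℝ V V)) p :=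
    hf.hasFDerivAt.comp p hasFDerivAt_snd
  unfold dv
  rw [h.fderiv]
  exact (fderiv ℝ f p.2).map_zero

theorem nid_dw_fst {f : V → ℝ} {p : V × V} (hf : DifferentiableAt ℝ f p.1) (l : Fin 3) :
    dw l (fun x => f x.1) p = 0 := by
  have h : HasFDerivAt (fun x : V × V => f x.1)
      ((fderiv ℝ f p.1).comp (ContinuousLinearMap.fst ℝ V V)) p :=
    hf.hasFDerivAt.comp p hasFDerivAt_fst
  unfold dw
  rw [h.fderiv]
  exact (fderiv ℝ f p.1).map_zero

theorem nid_dw_snd {f : V → ℝ} {p : V × V} (hf : DifferentiableAt ℝ f p.2) (l : Fin 3) :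
    dw l (fun x => f x.2) p = pd l f p.2 := by
  have h : HasFDerivAt (fun x : V × V => f x.2)
      ((fderiv ℝ f p.2).comp (ContinuousLinearMap.snd ℝ V V)) p :=
    hf.hasFDerivAt.comp p hasFDerivAt_snd
  unfold dw pd
  rw [h.fderiv]
  rfl

theorem nid_dv_add {P Q : V × V → ℝ} {p : V × V} (hP : DifferentiableAt ℝ P p)
    (hQ : DifferentiableAt ℝ Q p) (l : Fin 3) :
    dv l (fun x => P x + Q x) p = dv l P p + dv l Q p := by
  have h : HasFDerivAt (fun x => P x + Q x) (fderiv ℝ P p + fderiv ℝ Q p) p :=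
    hP.hasFDerivAt.add hQ.hasFDerivAt
  unfold dv
  rw [h.fderiv]
  rfl

theorem nid_dw_add {P Q : V × V → ℝ} {p : V × V} (hP : DifferentiableAt ℝ P p)
    (hQ : DifferentiableAt ℝ Q p) (l : Fin 3) :
    dw l (fun x => P x + Q x) p = dw l P p + dw l Q p := by
  have h : HasFDerivAt (fun x => P x + Q x) (fderiv ℝ P p + fderiv ℝ Q p) p :=
    hP.hasFDerivAt.add hQ.hasFDerivAt
  unfold dw
  rw [h.fderiv]
  rfl

theorem nid_dv_cmul {P : V × V → ℝ} {p : V × V} (c : ℝ) (hP : DifferentiableAt ℝ P p)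
    (l : Fin 3) : dv l (fun x => c * P x) p = c * dv l P p := by
  unfold dv
  rw [(hP.hasFDerivAt.const_mul c).fderiv]
  rfl

theorem nid_dw_cmul {P : V × V → ℝ} {p : V × V} (c : ℝ) (hP : DifferentiableAt ℝ P p)
    (l : Fin 3) : dw l (fun x => c * P x) p = c * dw l P p := by
  unfold dw
  rw [(hP.hasFDerivAt.const_mul c).fderiv]
  rfl

theorem nid_RR_add {P Q : V × V → ℝ} {p : V × V} (hP : DifferentiableAt ℝ P p)
    (hQ : DifferentiableAt ℝ Q p) (a b : Fin 3) :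
    RR a b (fun x => P x + Q x) p = RR a b P p + RR a b Q p := by
  unfold RR
  rw [nid_dv_add hP hQ, nid_dv_add hP hQ, nid_dw_add hP hQ, nid_dw_add hP hQ]
  ring

theorem nid_RR_cmul {P : V × V → ℝ} {p : V × V} (c : ℝ) (hP : DifferentiableAt ℝ P p)
    (a b : Fin 3) : RR a b (fun x => c * P x) p = c * RR a b P p := by
  unfold RR
  rw [nid_dv_cmul c hP, nid_dv_cmul c hP, nid_dw_cmul c hP, nid_dw_cmul c hP]
  ring

theorem nid_diff {E : Type*} [NormedAddCommGroup E] [NormedSpace ℝ E] {P : E → ℝ}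
    (hP : ContDiff ℝ (⊤ : ℕ∞) P) (p : E) : DifferentiableAt ℝ P p :=
  (hP.differentiable (by simp)) p

theorem nid_pd_smooth {g : V → ℝ} (hg : ContDiff ℝ (⊤ : ℕ∞) g) (i : Fin 3) :
    ContDiff ℝ (⊤ : ℕ∞) (pd i g) := by
  unfold pd
  exact (hg.fderiv_right (m := (⊤ : ℕ∞)) (by simp)).clm_apply contDiff_const

theorem nid_log_smooth {g : V → ℝ} (hg : Dn g) :
    ContDiff ℝ (⊤ : ℕ∞) (fun v => Real.log (g v)) :=
  hg.cls.smooth.log (fun v => (hg.pos v).ne')

theorem uu_smooth {g : V → ℝ} (hg : Dn g) : ContDiff ℝ (⊤ : ℕ∞) (uu g) := by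
  unfold uu
  exact ((nid_log_smooth hg).comp contDiff_fst).add ((nid_log_smooth hg).comp contDiff_snd)

theorem FF_smooth {g : V → ℝ} (hg : Dn g) : ContDiff ℝ (⊤ : ℕ∞) (FF g) := by
  unfold FF
  exact (hg.cls.smooth.comp contDiff_fst).mul (hg.cls.smooth.comp contDiff_snd)

theorem gam_smooth {g : V → ℝ} (hg : Dn g) (i : Fin 3) : ContDiff ℝ (⊤ : ℕ∞) (gam i g) := by
  unfold gam
  exact (nid_pd_smooth hg.cls.smooth i).div hg.cls.smooth (fun v => (hg.pos v).ne')

theorem GG_smooth {φ g : V → ℝ} (hφ : ContDiff ℝ (⊤ : ℕ∞) φ) (hg : Dn g) :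
    ContDiff ℝ (⊤ : ℕ∞) (GG φ g) := by
  unfold GG trh x2 hs
  refine (hφ.mul (((contDiff_const.mul (ContDiff.sum (fun i _ =>
    nid_pd_smooth (gam_smooth hg i) i))).neg).sub (ContDiff.sum (fun i _ =>
      (gam_smooth hg i).pow 2)))).sub ?_
  exact contDiff_const.mul (ContDiff.sum (fun i _ =>
    (nid_pd_smooth hφ i).mul (gam_smooth hg i)))

theorem Gb_smooth {φ g : V → ℝ} (hφ : ContDiff ℝ (⊤ : ℕ∞) φ) (hg : Dn g) :
    ContDiff ℝ (⊤ : ℕ∞) (Gb φ g) := by
  unfold Gb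
  exact contDiff_const.mul (((GG_smooth hφ hg).comp contDiff_fst).add
    ((GG_smooth hφ hg).comp contDiff_snd))

theorem nid_pd_log {g : V → ℝ} (hg : Dn g) (l : Fin 3) (v : V) :
    pd l (fun x => Real.log (g x)) v = gam l g v := by
  have h := ((nid_diff hg.cls.smooth v).hasFDerivAt.log (hg.pos v).ne').fderiv
  unfold pd gam
  rw [h]
  show (g v)⁻¹ * _ = _
  unfold pd
  rw [div_eq_inv_mul]
  rfl

theorem nid_dv_uu {g : V → ℝ} (hg : Dn g) (l : Fin 3) (p : V × V) :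
    dv l (uu g) p = gam l g p.1 := by
  have h1 := nid_diff (nid_log_smooth hg) p.1
  have h2 := nid_diff (nid_log_smooth hg) p.2
  have h3 : DifferentiableAt ℝ (fun x : V × V => Real.log (g x.1)) p :=
    nid_diff ((nid_log_smooth hg).comp contDiff_fst) p
  have h4 : DifferentiableAt ℝ (fun x : V × V => Real.log (g x.2)) p :=
    nid_diff ((nid_log_smooth hg).comp contDiff_snd) p
  have h5 := nid_dv_add h3 h4 l
  rw [nid_dv_fst (f := fun x => Real.log (g x)) h1, nid_dv_snd (f := fun x => Real.log (g x)) h2,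
    nid_pd_log hg, add_zero] at h5
  exact h5

theorem nid_dw_uu {g : V → ℝ} (hg : Dn g) (l : Fin 3) (p : V × V) :
    dw l (uu g) p = gam l g p.2 := by
  have h1 := nid_diff (nid_log_smooth hg) p.1
  have h2 := nid_diff (nid_log_smooth hg) p.2
  have h3 : DifferentiableAt ℝ (fun x : V × V => Real.log (g x.1)) p :=
    nid_diff ((nid_log_smooth hg).comp contDiff_fst) p
  have h4 : DifferentiableAt ℝ (fun x : V × V => Real.log (g x.2)) p :=
    nid_diff ((nid_log_smooth hg).comp contDiff_snd) p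
  have h5 := nid_dw_add h3 h4 l
  rw [nid_dw_fst (f := fun x => Real.log (g x)) h1, nid_dw_snd (f := fun x => Real.log (g x)) h2,
    nid_pd_log hg, zero_add] at h5
  exact h5

theorem nid_dv_FF {g : V → ℝ} (hg : Dn g) (l : Fin 3) (p : V × V) :
    dv l (FF g) p = FF g p * dv l (uu g) p := by
  have h1 := dv_mul (P := fun x => g x.1) (Q := fun x => g x.2)
    (hg.cls.smooth.comp contDiff_fst) (hg.cls.smooth.comp contDiff_snd) l p
  rw [nid_dv_fst (f := g) (nid_diff hg.cls.smooth p.1),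
    nid_dv_snd (f := g) (nid_diff hg.cls.smooth p.2)] at h1
  rw [nid_dv_uu hg]
  have h2 : dv l (FF g) p = g p.1 * 0 + pd l g p.1 * g p.2 := h1
  rw [h2]
  unfold FF gam
  have h3 := (hg.pos p.1).ne'
  field_simp
  ring

theorem nid_dw_FF {g : V → ℝ} (hg : Dn g) (l : Fin 3) (p : V × V) :
    dw l (FF g) p = FF g p * dw l (uu g) p := by
  have h1 := dw_mul (P := fun x => g x.1) (Q := fun x => g x.2)
    (hg.cls.smooth.comp contDiff_fst) (hg.cls.smooth.comp contDiff_snd) l p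
  rw [nid_dw_fst (f := g) (nid_diff hg.cls.smooth p.1),
    nid_dw_snd (f := g) (nid_diff hg.cls.smooth p.2)] at h1
  rw [nid_dw_uu hg]
  have h2 : dw l (FF g) p = g p.1 * pd l g p.2 + 0 * g p.2 := h1
  rw [h2]
  unfold FF gam
  have h3 := (hg.pos p.2).ne'
  field_simp
  ring

theorem nid_lap {φ g : V → ℝ} (hφ : ContDiff ℝ (⊤ : ℕ∞) φ) (hg : Dn g) (p : V × V) :
    lapq φ (uu g) p = (φ p.1 * trh g p.1 + ∑ l : Fin 3, pd l φ p.1 * gam l g p.1)
      + (φ p.2 * trh g p.2 + ∑ l : Fin 3, pd l φ p.2 * gam l g p.2) := by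
  have e1 : ∀ l, dv l (fun x => φ x.1 * dv l (uu g) x) p
      = φ p.1 * hs g l l p.1 + pd l φ p.1 * gam l g p.1 := by
    intro l
    have h0 : (fun x : V × V => φ x.1 * dv l (uu g) x) = fun x => φ x.1 * gam l g x.1 := by
      funext x
      rw [nid_dv_uu hg]
    rw [h0, dv_mul (P := fun x => φ x.1) (Q := fun x => gam l g x.1) (hφ.comp contDiff_fst)
      ((gam_smooth hg l).comp contDiff_fst), nid_dv_fst (nid_diff hφ _),
      nid_dv_fst (nid_diff (gam_smooth hg l) _)]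
    rfl
  have e2 : ∀ l, dw l (fun x => φ x.2 * dw l (uu g) x) p
      = φ p.2 * hs g l l p.2 + pd l φ p.2 * gam l g p.2 := by
    intro l
    have h0 : (fun x : V × V => φ x.2 * dw l (uu g) x) = fun x => φ x.2 * gam l g x.2 := by
      funext x
      rw [nid_dw_uu hg]
    rw [h0, dw_mul (P := fun x => φ x.2) (Q := fun x => gam l g x.2) (hφ.comp contDiff_snd)
      ((gam_smooth hg l).comp contDiff_snd), nid_dw_snd (nid_diff hφ _),
      nid_dw_snd (nid_diff (gam_smooth hg l) _)]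
    rfl
  unfold lapq trh
  simp only [e1, e2, Fin.sum_univ_three]
  ring

theorem Gb_eq {φ g : V → ℝ} (hφ : ContDiff ℝ (⊤ : ℕ∞) φ) (hg : Dn g) (p : V × V) :
    Gb φ g p = -(lapq φ (uu g) p + (1 / 2) * qq φ (uu g) (uu g) p) := by
  rw [nid_lap hφ hg]
  unfold Gb GG qq x2
  simp only [nid_dv_uu hg, nid_dw_uu hg, Fin.sum_univ_three]
  ring

theorem RR_FF {g : V → ℝ} (hg : Dn g) (a b : Fin 3) (p : V × V) :
    RR a b (FF g) p = FF g p * RR a b (uu g) p := by
  unfold RR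
  rw [nid_dv_FF hg, nid_dv_FF hg, nid_dw_FF hg, nid_dw_FF hg]
  ring

theorem nid_lapq_smooth {φ : V → ℝ} {P : V × V → ℝ} (hφ : ContDiff ℝ (⊤ : ℕ∞) φ)
    (hP : ContDiff ℝ (⊤ : ℕ∞) P) : ContDiff ℝ (⊤ : ℕ∞) (lapq φ P) := by
  unfold lapq
  refine ContDiff.add (ContDiff.sum (fun l _ => smooth_dv ?_ l))
    (ContDiff.sum (fun l _ => smooth_dw ?_ l))
  · exact (hφ.comp contDiff_fst).mul (smooth_dv hP l)
  · exact (hφ.comp contDiff_snd).mul (smooth_dw hP l)

theorem nid_RR_compact {Q : V × V → ℝ} (hc : HasCompactSupport Q) (a b : Fin 3) :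
    HasCompactSupport (RR a b Q) := by
  have h : HasCompactSupport (fun p : V × V => (1 / 2 : ℝ) *
      ((p.1 a - p.2 a) * (dv b Q p - dw b Q p) - (p.1 b - p.2 b) * (dv a Q p - dw a Q p))) :=
    HasCompactSupport.mul_left (HasCompactSupport.sub
      (HasCompactSupport.mul_left ((dv_compact hc b).sub (dw_compact hc b)))
      (HasCompactSupport.mul_left ((dv_compact hc a).sub (dw_compact hc a))))
  exact h

theorem nid_qq_compact {φ : V → ℝ} {P Q : V × V → ℝ} (hc : HasCompactSupport P) :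
    HasCompactSupport (qq φ P Q) := by
  have h : HasCompactSupport (fun p : V × V =>
      (φ p.1 * (dv 0 P p * dv 0 Q p + dv 1 P p * dv 1 Q p + dv 2 P p * dv 2 Q p)) +
      (φ p.2 * (dw 0 P p * dw 0 Q p + dw 1 P p * dw 1 Q p + dw 2 P p * dw 2 Q p))) := by
    refine HasCompactSupport.add (HasCompactSupport.mul_left ?_) (HasCompactSupport.mul_left ?_)
    · exact HasCompactSupport.add (HasCompactSupport.add (dv_compact hc 0).mul_right
        (dv_compact hc 1).mul_right) (dv_compact hc 2).mul_right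
    · exact HasCompactSupport.add (HasCompactSupport.add (dw_compact hc 0).mul_right
        (dw_compact hc 1).mul_right) (dw_compact hc 2).mul_right
  have h2 : qq φ P Q = (fun p : V × V =>
      (φ p.1 * (dv 0 P p * dv 0 Q p + dv 1 P p * dv 1 Q p + dv 2 P p * dv 2 Q p)) +
      (φ p.2 * (dw 0 P p * dw 0 Q p + dw 1 P p * dw 1 Q p + dw 2 P p * dw 2 Q p))) := by
    funext p
    unfold qq
    rw [Fin.sum_univ_three, Fin.sum_univ_three]
  rw [h2]
  exact h

/-- `qq` of a product in the first argument, last argument arbitrary -/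
theorem nid_qq_mul {φ : V → ℝ} {P Q R : V × V → ℝ} (hP : ContDiff ℝ (⊤ : ℕ∞) P)
    (hQ : ContDiff ℝ (⊤ : ℕ∞) Q) (p : V × V) :
    qq φ (fun x => P x * Q x) R p = P p * qq φ Q R p + Q p * qq φ P R p := by
  unfold qq
  simp only [Fin.sum_univ_three, dv_mul hP hQ, dw_mul hP hQ]
  ring

theorem nid_q1_mul {φ : V → ℝ} {P Q R : V × V → ℝ} (hP : ContDiff ℝ (⊤ : ℕ∞) P)
    (hQ : ContDiff ℝ (⊤ : ℕ∞) Q) (a b : Fin 3) (p : V × V) :
    q1 φ a b (fun x => P x * Q x) R p = P p * q1 φ a b Q R p + Q p * q1 φ a b P R p := by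
  unfold q1 bt
  simp only [Fin.sum_univ_three, dv_mul hP hQ, dw_mul hP hQ]
  ring

theorem nid_qq_FF {φ g : V → ℝ} (hg : Dn g) (R : V × V → ℝ) (p : V × V) :
    qq φ (FF g) R p = FF g p * qq φ (uu g) R p := by
  unfold qq
  simp only [Fin.sum_univ_three, nid_dv_FF hg, nid_dw_FF hg]
  ring

theorem nid_q1_FF {φ g : V → ℝ} (hg : Dn g) (R : V × V → ℝ) (a b : Fin 3) (p : V × V) :
    q1 φ a b (FF g) R p = FF g p * q1 φ a b (uu g) R p := by
  unfold q1 bt
  simp only [Fin.sum_univ_three, nid_dv_FF hg, nid_dw_FF hg]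
  ring

theorem nid_int {P : V × V → ℝ} (hP : ContDiff ℝ (⊤ : ℕ∞) P) (hc : HasCompactSupport P) :
    Integrable P ((volume : Measure V).prod volume) :=
  hP.continuous.integrable_of_hasCompactSupport hc

/-- The near identity. -/
theorem near_id {φ g : V → ℝ} {B : V × V → ℝ} (hφ : ContDiff ℝ (⊤ : ℕ∞) φ) (hg : Dn g)
    (hB : ContDiff ℝ (⊤ : ℕ∞) B) (hc : HasCompactSupport B) (a b : Fin 3)
    (h0 : ∀ p, RR a b B p = 0) :
    -∫ p, B p * RR a b (Gb φ g) p * RR a b (FF g) p ∂((volume : Measure V).prod volume) =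
      ∫ p, Iab B φ g a b p ∂((volume : Measure V).prod volume) := by
  obtain ⟨U, hU⟩ : ∃ U, U = uu g := ⟨_, rfl⟩
  obtain ⟨F, hF⟩ : ∃ F, F = FF g := ⟨_, rfl⟩
  obtain ⟨G, hG⟩ : ∃ G, G = RR a b U := ⟨_, rfl⟩
  have sU : ContDiff ℝ (⊤ : ℕ∞) U := hU ▸ uu_smooth hg
  have sF : ContDiff ℝ (⊤ : ℕ∞) F := hF ▸ FF_smooth hg
  have sG : ContDiff ℝ (⊤ : ℕ∞) G := hG ▸ smooth_RR sU a b
  have sL : ContDiff ℝ (⊤ : ℕ∞) (lapq φ U) := nid_lapq_smooth hφ sU
  have sQ : ContDiff ℝ (⊤ : ℕ∞) (qq φ U U) := smooth_qq hφ sU sU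
  have sW : ContDiff ℝ (⊤ : ℕ∞) (q1 φ a b U U) := smooth_q1 hφ sU sU a b
  have sBF : ContDiff ℝ (⊤ : ℕ∞) (fun x => B x * F x) := hB.mul sF
  obtain ⟨Ψ, hΨ⟩ : ∃ Ψ : V × V → ℝ, Ψ = fun x => B x * F x * G x := ⟨_, rfl⟩
  obtain ⟨Z, hZ⟩ : ∃ Z : V × V → ℝ, Z = fun x => B x * F x * q1 φ a b U U x := ⟨_, rfl⟩
  have sΨ : ContDiff ℝ (⊤ : ℕ∞) Ψ := by rw [hΨ]; exact sBF.mul sG
  have sZ : ContDiff ℝ (⊤ : ℕ∞) Z := by rw [hZ]; exact sBF.mul sW
  have cBF : HasCompactSupport (fun x => B x * F x) := hc.mul_right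
  have cΨ : HasCompactSupport Ψ := by rw [hΨ]; exact cBF.mul_right
  have cZ : HasCompactSupport Z := by rw [hZ]; exact cBF.mul_right
  have cRΨ : HasCompactSupport (RR a b Ψ) := nid_RR_compact cΨ a b
  have sRΨ : ContDiff ℝ (⊤ : ℕ∞) (RR a b Ψ) := smooth_RR sΨ a b
  -- zero integrals
  have i1 : ∫ p, Ψ p * RR a b (lapq φ U) p ∂((volume : Measure V).prod volume) =
      ∫ p, qq φ (RR a b Ψ) U p ∂((volume : Measure V).prod volume) := by
    rw [rr_ibp sL sΨ cΨ a b, lap_ibp hφ sU sRΨ cRΨ, neg_neg]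
  have i2 : ∫ p, RR a b (qq φ Ψ U) p ∂((volume : Measure V).prod volume) = 0 :=
    rr_zero (smooth_qq hφ sΨ sU) (nid_qq_compact cΨ) a b
  have i3 : ∫ p, RR a b Z p ∂((volume : Measure V).prod volume) = 0 := rr_zero sZ cZ a b
  -- integrability
  have j1 : Integrable (fun p => Ψ p * RR a b (lapq φ U) p) ((volume : Measure V).prod volume) :=
    nid_int (sΨ.mul (smooth_RR sL a b)) cΨ.mul_right
  have j2 : Integrable (fun p => qq φ (RR a b Ψ) U p) ((volume : Measure V).prod volume) :=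
    nid_int (smooth_qq hφ sRΨ sU) (nid_qq_compact cRΨ)
  have j3 : Integrable (fun p => RR a b (qq φ Ψ U) p) ((volume : Measure V).prod volume) :=
    nid_int (smooth_RR (smooth_qq hφ sΨ sU) a b) (nid_RR_compact (nid_qq_compact cΨ) a b)
  have j4 : Integrable (fun p => RR a b Z p) ((volume : Measure V).prod volume) :=
    nid_int (smooth_RR sZ a b) (nid_RR_compact cZ a b)
  have j5 : Integrable (fun p => B p * RR a b (Gb φ g) p * RR a b F p)
      ((volume : Measure V).prod volume) :=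
    nid_int ((hB.mul (smooth_RR (Gb_smooth hφ hg) a b)).mul (smooth_RR sF a b))
      (hc.mul_right.mul_right)
  -- pointwise identity
  have hGb : ∀ p, RR a b (Gb φ g) p
      = -(RR a b (lapq φ U) p + (1 / 2) * RR a b (qq φ U U) p) := by
    intro p
    have e1 : Gb φ g = fun x => (-1) * (lapq φ U x + (1 / 2) * qq φ U U x) := by
      funext x
      rw [Gb_eq hφ hg, hU]
      ring
    have d1 : DifferentiableAt ℝ (lapq φ U) p := nid_diff sL p
    have d2 : DifferentiableAt ℝ (qq φ U U) p := nid_diff sQ p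
    rw [e1, nid_RR_cmul (P := fun x => lapq φ U x + (1 / 2) * qq φ U U x) (-1)
      (d1.add (d2.const_mul (1 / 2))), nid_RR_add d1 (d2.const_mul (1 / 2)),
      nid_RR_cmul (1 / 2) d2]
    ring
  have hpt : ∀ p, Iab B φ g a b p = -(B p * RR a b (Gb φ g) p * RR a b F p)
      - (Ψ p * RR a b (lapq φ U) p - qq φ (RR a b Ψ) U p) - RR a b (qq φ Ψ U) p
      + (1 / 2) * RR a b Z p := by
    intro p
    have a1 : RR a b F p = F p * G p := by rw [hF, hG, hU]; exact RR_FF hg a b p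
    have a2 : RR a b (qq φ U U) p = 2 * qq φ G U p + q1 φ a b U U p := by
      rw [rr_qq hφ sU sU, ← hG, qq_comm φ U G]
      ring
    have a3 : RR a b (qq φ Ψ U) p = qq φ (RR a b Ψ) U p + qq φ Ψ G p + q1 φ a b Ψ U p := by
      rw [rr_qq hφ sΨ sU, ← hG]
    have a4 : qq φ Ψ G p = B p * F p * qq φ G G p + G p * (B p * (F p * qq φ U G p)
        + F p * qq φ B G p) := by
      rw [hΨ, nid_qq_mul sBF sG, nid_qq_mul hB sF, hF, nid_qq_FF hg, hU]
    have a5 : q1 φ a b Ψ U p = B p * F p * q1 φ a b G U p + G p * (B p * (F p * q1 φ a b U U p)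
        + F p * q1 φ a b B U p) := by
      rw [hΨ, nid_q1_mul sBF sG, nid_q1_mul hB sF, hF, nid_q1_FF hg, hU]
    have a6 : RR a b Z p = B p * F p * RR a b (q1 φ a b U U) p
        + (B p * (F p * G p) + 0 * F p) * q1 φ a b U U p := by
      rw [hZ, RR_mul sBF sW, RR_mul hB sF, a1, h0]
    have a7 : Ψ p = B p * F p * G p := by rw [hΨ]
    rw [hGb, a1, a2, a3, a4, a5, a6, a7]
    unfold Iab
    rw [← hU, ← hF, ← hG, qq_comm φ G B, q1_comm φ U G, q1_comm φ U B, qq_comm φ U G]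
    ring
  have hfin : ∫ p, Iab B φ g a b p ∂((volume : Measure V).prod volume) =
      ∫ p, (-(B p * RR a b (Gb φ g) p * RR a b F p)
      - (Ψ p * RR a b (lapq φ U) p - qq φ (RR a b Ψ) U p) - RR a b (qq φ Ψ U) p
      + (1 / 2) * RR a b Z p) ∂((volume : Measure V).prod volume) :=
    integral_congr_ae (Filter.Eventually.of_forall hpt)
  have k1 : Integrable (fun p => -(B p * RR a b (Gb φ g) p * RR a b F p))
      ((volume : Measure V).prod volume) := j5.neg
  have k2 : Integrable (fun p => Ψ p * RR a b (lapq φ U) p - qq φ (RR a b Ψ) U p)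
      ((volume : Measure V).prod volume) := j1.sub j2
  have k3 : Integrable (fun p => -(B p * RR a b (Gb φ g) p * RR a b F p)
      - (Ψ p * RR a b (lapq φ U) p - qq φ (RR a b Ψ) U p))
      ((volume : Measure V).prod volume) := k1.sub k2
  have k4 : Integrable (fun p => -(B p * RR a b (Gb φ g) p * RR a b F p)
      - (Ψ p * RR a b (lapq φ U) p - qq φ (RR a b Ψ) U p) - RR a b (qq φ Ψ U) p)
      ((volume : Measure V).prod volume) := k3.sub j3
  have k5 : Integrable (fun p => (1 / 2) * RR a b Z p)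
      ((volume : Measure V).prod volume) := j4.const_mul _
  rw [hfin, integral_add k4 k5, integral_sub k3 j3, integral_sub k1 k2,
    integral_sub j1 j2, integral_const_mul, i1, i2, i3, integral_neg, ← hF]
  ring

end Pool.Agent.LandauF
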