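import Pool.Agent.LandauF.NId
import Pool.Agent.LandauF.NCut
import Pool.Agent.LandauF.NTrans

/-!
# LandauF, module NIdB: the near identity for the actual kernel

`∫ Ne ε = ∫ InN ε`.  Pointwise, `Ne ε p = - ∑_ab ½ BB RR a b (Gb) RR a b (FF)`: with
`RR Gb = ¼ (z_a δG_b - z_b δG_a)`, `δG_i = ∂_i G(v) - ∂_i G(w)`, `RR FF = ½ F (z_a δX_b - z_b δX_a)`,
`½ ∑_ab (z_a δG_b - z_b δG_a)(z_a δX_b - z_b δX_a) = r² δG·δX - (z·δG)(z·δX)`, constants:
`(1/(2π)) (1/8) = (1/2)(1/(8π))`.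
`BB` is not compactly supported (in the midpoint), but `InN` and the integrand vanish unless `v` or `w`
is in the compact support of `φ` and `r² ≤ SS`, which keeps `p` in a compact set (`ϱ` is `ε₀`-Lipschitz).
Multiply `BB` by a smooth compactly supported function `ζ(mid)` equal to `1` in a neighbourhood of this
compact set (`RR_mid`: `RR (BB ζ) = 0`) and apply `near_id` to `B = BB ζ` for each `a, b`.
-/

set_option autoImplicit false

namespace Pool.Agent.LandauF

open MeasureTheory Set Filter Topology Pool.Agent.Landau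

private theorem nidb_diff {h : V → ℝ} (hh : ContDiff ℝ (⊤ : ℕ∞) h) (p : V × V) :
    DifferentiableAt ℝ (fun x : V × V => h x.1) p ∧
      DifferentiableAt ℝ (fun x : V × V => h x.2) p := by
  have hd : Differentiable ℝ h := hh.differentiable (by simp)
  exact ⟨(hd.comp differentiable_fst) p, (hd.comp differentiable_snd) p⟩

private theorem nidb_Gb_fd {φ g : V → ℝ} (hφ : ContDiff ℝ (⊤ : ℕ∞) φ) (hg : Dn g) (p u : V × V) :
    fderiv ℝ (Gb φ g) p u = (1 / 2) * (fderiv ℝ (fun x : V × V => GG φ g x.1) p u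
      + fderiv ℝ (fun x : V × V => GG φ g x.2) p u) := by
  obtain ⟨d1, d2⟩ := nidb_diff (GG_smooth hφ hg) p
  have e : Gb φ g = fun x : V × V => (1 / 2 : ℝ) * (GG φ g x.1 + GG φ g x.2) := rfl
  have d12 : DifferentiableAt ℝ (fun x : V × V => GG φ g x.1 + GG φ g x.2) p := d1.add d2
  rw [e, fderiv_const_mul d12, fderiv_fun_add d1 d2]
  rfl

private theorem nidb_Gb {φ g : V → ℝ} (hφ : ContDiff ℝ (⊤ : ℕ∞) φ) (hg : Dn g) (a b : Fin 3)
    (p : V × V) : RR a b (Gb φ g) p = (1 / 4) *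
      ((p.1 a - p.2 a) * (pd b (GG φ g) p.1 - pd b (GG φ g) p.2)
        - (p.1 b - p.2 b) * (pd a (GG φ g) p.1 - pd a (GG φ g) p.2)) := by
  have hG := GG_smooth hφ hg
  have e1 : ∀ l, dv l (Gb φ g) p = (1 / 2) * pd l (GG φ g) p.1 := by
    intro l
    have h1 := dv_fst hG l p
    have h2 := dv_snd hG l p
    unfold dv at h1 h2 ⊢
    rw [nidb_Gb_fd hφ hg, h1, h2, add_zero]
  have e2 : ∀ l, dw l (Gb φ g) p = (1 / 2) * pd l (GG φ g) p.2 := by
    intro l
    have h1 := dw_fst hG l p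
    have h2 := dw_snd hG l p
    unfold dw at h1 h2 ⊢
    rw [nidb_Gb_fd hφ hg, h1, h2, zero_add]
  unfold RR
  rw [e1, e1, e2, e2]
  ring

private theorem nidb_alg (z x y : Fin 3 → ℝ) (r c : ℝ) (hr : r = z 0 ^ 2 + z 1 ^ 2 + z 2 ^ 2) :
    ∑ a : Fin 3, ∑ b : Fin 3, c * ((z a * x b - z b * x a) * (z a * y b - z b * y a)) =
      2 * c * ∑ i : Fin 3, ∑ j : Fin 3, (kd i j * r - z i * z j) * x i * y j := by
  have k0 : kd (0 : Fin 3) 0 = 1 := if_pos rfl
  have k1 : kd (1 : Fin 3) 1 = 1 := if_pos rfl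
  have k2 : kd (2 : Fin 3) 2 = 1 := if_pos rfl
  have k01 : kd (0 : Fin 3) 1 = 0 := if_neg (by decide)
  have k02 : kd (0 : Fin 3) 2 = 0 := if_neg (by decide)
  have k10 : kd (1 : Fin 3) 0 = 0 := if_neg (by decide)
  have k12 : kd (1 : Fin 3) 2 = 0 := if_neg (by decide)
  have k20 : kd (2 : Fin 3) 0 = 0 := if_neg (by decide)
  have k21 : kd (2 : Fin 3) 1 = 0 := if_neg (by decide)
  simp only [Fin.sum_univ_three, k0, k1, k2, k01, k02, k10, k12, k20, k21, hr]
  ring

private theorem nidb_norm (v w : V) : ‖v - w‖ ^ 2 =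
    (v 0 - w 0) ^ 2 + (v 1 - w 1) ^ 2 + (v 2 - w 2) ^ 2 := by
  rw [EuclideanSpace.real_norm_sq_eq, Fin.sum_univ_three]
  rfl

/-- the pointwise identity -/
private theorem nidb_pt {φ g : V → ℝ} (hφ : ContDiff ℝ (⊤ : ℕ∞) φ) (hg : Dn g) (ϱ : V → ℝ)
    (ε δ : ℝ) (p : V × V) :
    ∑ a : Fin 3, ∑ b : Fin 3, (1 / 2) *
      -(BB ε ϱ δ p * RR a b (Gb φ g) p * RR a b (FF g) p) = Ne ε ϱ δ φ g p := by
  have e : ∀ a b : Fin 3, (1 / 2) * -(BB ε ϱ δ p * RR a b (Gb φ g) p * RR a b (FF g) p) =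
      (-(1 / 16) * BB ε ϱ δ p * FF g p) *
        (((p.1 a - p.2 a) * (pd b (GG φ g) p.1 - pd b (GG φ g) p.2)
          - (p.1 b - p.2 b) * (pd a (GG φ g) p.1 - pd a (GG φ g) p.2)) *
        ((p.1 a - p.2 a) * (gam b g p.1 - gam b g p.2)
          - (p.1 b - p.2 b) * (gam a g p.1 - gam a g p.2))) := by
    intro a b
    rw [nidb_Gb hφ hg, RR_FF hg, RR_uu hg]
    unfold XX
    ring
  simp only [e]
  rw [nidb_alg (fun a => p.1 a - p.2 a) (fun b => pd b (GG φ g) p.1 - pd b (GG φ g) p.2)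
    (fun b => gam b g p.1 - gam b g p.2) (‖p.1 - p.2‖ ^ 2) _ (nidb_norm p.1 p.2)]
  unfold Ne BB bet
  have e2 : ∀ i j : Fin 3, ((1 / (8 * Real.pi)) *
      (kd i j * ‖p.1 - p.2‖ ^ 2 - (p.1 i - p.2 i) * (p.1 j - p.2 j)) * (rE ε p ^ 3)⁻¹) *
      (pd i (GG φ g) p.1 - pd i (GG φ g) p.2) * (gam j g p.1 - gam j g p.2) =
      ((1 / (8 * Real.pi)) * (rE ε p ^ 3)⁻¹) *
        ((kd i j * ‖p.1 - p.2‖ ^ 2 - (p.1 i - p.2 i) * (p.1 j - p.2 j)) *
        (pd i (GG φ g) p.1 - pd i (GG φ g) p.2) * (gam j g p.1 - gam j g p.2)) := by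
    intro i j
    ring
  simp only [e2, ← Finset.mul_sum]
  generalize (∑ i : Fin 3, ∑ j : Fin 3,
    (kd i j * ‖p.1 - p.2‖ ^ 2 - (p.1 i - p.2 i) * (p.1 j - p.2 j)) *
    (pd i (GG φ g) p.1 - pd i (GG φ g) p.2) * (gam j g p.1 - gam j g p.2)) = S
  have hpi : Real.pi ≠ 0 := Real.pi_ne_zero
  field_simp
  ring

/-- the near integrand depends only on the germ of the kernel -/
private theorem nidb_germ {B B' : V × V → ℝ} {p : V × V} (h : B =ᶠ[𝓝 p] B') (φ g : V → ℝ)
    (a b : Fin 3) : Iab B φ g a b p = Iab B' φ g a b p := by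
  have h0 : B p = B' p := h.eq_of_nhds
  have h1 : ∀ l, dv l B p = dv l B' p := fun l => by
    unfold dv
    rw [h.fderiv_eq]
  have h2 : ∀ l, dw l B p = dw l B' p := fun l => by
    unfold dw
    rw [h.fderiv_eq]
  unfold Iab qq q1 bt
  simp only [h0, h1, h2]

private theorem nidb_RR0 {P : V × V → ℝ} {p : V × V} (h : P =ᶠ[𝓝 p] fun _ => 0) (a b : Fin 3) :
    RR a b P p = 0 := by
  unfold RR dv dw
  rw [h.fderiv_eq]
  simp

/-- where the weight vanishes near both points -/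
private theorem nidb_q1z {φ : V → ℝ} {p : V × V} (h1 : p.1 ∉ tsupport φ) (h2 : p.2 ∉ tsupport φ)
    (a b : Fin 3) (P Q : V × V → ℝ) : q1 φ a b P Q p = 0 := by
  have o : IsOpen (tsupport φ)ᶜ := (isClosed_tsupport φ).isOpen_compl
  have e1 : (fun x : V × V => φ x.1) =ᶠ[𝓝 p] fun _ => 0 := by
    filter_upwards [continuous_fst.continuousAt.preimage_mem_nhds (o.mem_nhds h1)] with x hx
    exact image_eq_zero_of_notMem_tsupport hx
  have e2 : (fun x : V × V => φ x.2) =ᶠ[𝓝 p] fun _ => 0 := by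
    filter_upwards [continuous_snd.continuousAt.preimage_mem_nhds (o.mem_nhds h2)] with x hx
    exact image_eq_zero_of_notMem_tsupport hx
  have f1 : φ p.1 = 0 := image_eq_zero_of_notMem_tsupport h1
  have f2 : φ p.2 = 0 := image_eq_zero_of_notMem_tsupport h2
  unfold q1
  rw [nidb_RR0 e1, nidb_RR0 e2, f1, f2]
  ring

private theorem nidb_Iz {φ : V → ℝ} {p : V × V} (h1 : p.1 ∉ tsupport φ) (h2 : p.2 ∉ tsupport φ)
    (B : V × V → ℝ) (g : V → ℝ) (a b : Fin 3) : Iab B φ g a b p = 0 := by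
  have o : IsOpen (tsupport φ)ᶜ := (isClosed_tsupport φ).isOpen_compl
  have hq : ∀ P Q : V × V → ℝ, q1 φ a b P Q p = 0 := fun P Q => nidb_q1z h1 h2 a b P Q
  have hq2 : ∀ P Q : V × V → ℝ, q1 φ a b P Q =ᶠ[𝓝 p] fun _ => 0 := by
    intro P Q
    filter_upwards [continuous_fst.continuousAt.preimage_mem_nhds (o.mem_nhds h1),
      continuous_snd.continuousAt.preimage_mem_nhds (o.mem_nhds h2)] with x hx hy
    exact nidb_q1z hx hy a b P Q
  have f1 : φ p.1 = 0 := image_eq_zero_of_notMem_tsupport h1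
  have f2 : φ p.2 = 0 := image_eq_zero_of_notMem_tsupport h2
  have hqq : ∀ P Q : V × V → ℝ, qq φ P Q p = 0 := by
    intro P Q
    unfold qq
    rw [f1, f2]
    ring
  unfold Iab
  rw [nidb_RR0 (hq2 _ _), hq, hq, hqq, hqq]
  ring

private theorem nidb_Gz {φ g : V → ℝ} {v : V} (h : v ∉ tsupport φ) (l : Fin 3) :
    pd l (GG φ g) v = 0 := by
  have o : IsOpen (tsupport φ)ᶜ := (isClosed_tsupport φ).isOpen_compl
  have e : ∀ x, x ∉ tsupport φ → GG φ g x = 0 := by
    intro x hx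
    have h1 : φ x = 0 := image_eq_zero_of_notMem_tsupport hx
    have h2 : φ =ᶠ[𝓝 x] fun _ => 0 := by
      filter_upwards [o.mem_nhds hx] with y hy
      exact image_eq_zero_of_notMem_tsupport hy
    have h3 : ∀ i, pd i φ x = 0 := by
      intro i
      unfold pd
      rw [h2.fderiv_eq]
      simp
    unfold GG
    simp [h1, h3]
  have e2 : GG φ g =ᶠ[𝓝 v] fun _ => 0 := by
    filter_upwards [o.mem_nhds h] with y hy
    exact e y hy
  unfold pd
  rw [e2.fderiv_eq]
  simp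

private theorem nidb_Ne0 {φ g : V → ℝ} {p : V × V} (h1 : p.1 ∉ tsupport φ)
    (h2 : p.2 ∉ tsupport φ) (ε δ : ℝ) (ϱ : V → ℝ) : Ne ε ϱ δ φ g p = 0 := by
  unfold Ne
  simp [nidb_Gz h1, nidb_Gz h2]

/-- size of the relevant pairs -/
private theorem nidb_size {ϱ : V → ℝ} {ε₀ δ M : ℝ} (hε : ε₀ ≤ 1 / 100)
    (hl : ∀ v w, |ϱ v - ϱ w| ≤ ε₀ * ‖v - w‖) (h0 : ∀ v, 0 ≤ ϱ v) (hδ : 0 < δ) (hM : 0 ≤ M)
    {p : V × V} (h1 : ‖p.1‖ ≤ M ∨ ‖p.2‖ ≤ M) (h2 : ‖p.1 - p.2‖ ^ 2 ≤ SS ϱ δ p) :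
    ‖mid p.1 p.2‖ ≤ 2 * M + ϱ 0 + δ := by
  have hr := norm_nonneg (p.1 - p.2)
  have hm : ‖mid p.1 p.2‖ ≤ M + ‖p.1 - p.2‖ / 2 := by
    unfold mid
    rw [norm_smul, Real.norm_of_nonneg (by norm_num)]
    rcases h1 with h | h
    · have h3 : ‖p.1 + p.2‖ ≤ 2 * ‖p.1‖ + ‖p.1 - p.2‖ := by
        have e : p.1 + p.2 = (2 : ℝ) • p.1 - (p.1 - p.2) := by
          rw [two_smul]
          abel
        rw [e]
        refine (norm_sub_le _ _).trans ?_
        rw [norm_smul, Real.norm_of_nonneg (by norm_num)]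
      linarith
    · have h3 : ‖p.1 + p.2‖ ≤ 2 * ‖p.2‖ + ‖p.1 - p.2‖ := by
        have e : p.1 + p.2 = (2 : ℝ) • p.2 + (p.1 - p.2) := by
          rw [two_smul]
          abel
        rw [e]
        refine (norm_add_le _ _).trans ?_
        rw [norm_smul, Real.norm_of_nonneg (by norm_num)]
      linarith
  have hϱ : ϱ (mid p.1 p.2) ≤ ϱ 0 + ‖mid p.1 p.2‖ / 100 := by
    have h3 := (abs_le.1 (hl (mid p.1 p.2) 0)).2
    rw [sub_zero] at h3
    have h4 : ε₀ * ‖mid p.1 p.2‖ ≤ 1 / 100 * ‖mid p.1 p.2‖ :=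
      mul_le_mul_of_nonneg_right hε (norm_nonneg _)
    linarith
  have h5 : ‖p.1 - p.2‖ ≤ ϱ (mid p.1 p.2) + δ := by
    refine abs_le_of_sq_le_sq' ?_ (add_nonneg (h0 _) hδ.le) |>.2
    unfold SS at h2
    have := h0 (mid p.1 p.2)
    nlinarith [mul_nonneg this hδ.le]
  have h6 := h0 0
  linarith

/-- The near identity for the actual kernel. -/
theorem near_idB {ε₀ : ℝ} (hε : ε₀ ≤ 1 / 100) {φ ϱ κ g : V → ℝ} (hA : Adm ε₀ φ ϱ κ) (hg : Dn g)
    {ε δ : ℝ} (h1 : 0 < ε) (h2 : 0 < δ) :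
    ∫ p, Ne ε ϱ δ φ g p ∂((volume : Measure V).prod volume) =
      ∫ p, InN ε ϱ δ φ g p ∂((volume : Measure V).prod volume) := by
  obtain ⟨M₀, hM₀⟩ := hA.compact.isCompact.isBounded.exists_norm_le
  have hϱc : Continuous ϱ := by
    refine LipschitzWith.continuous (K := 1) (LipschitzWith.of_dist_le_mul fun v w => ?_)
    rw [Real.dist_eq, dist_eq_norm]
    refine (hA.rlip v w).trans ?_
    simp only [NNReal.coe_one]
    exact mul_le_mul_of_nonneg_right (by linarith) (norm_nonneg _)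
  have hmid : Continuous fun p : V × V => mid p.1 p.2 := by
    unfold mid
    fun_prop
  have hmids : ContDiff ℝ (⊤ : ℕ∞) fun p : V × V => mid p.1 p.2 := by
    unfold mid
    fun_prop
  have hSSc : Continuous (SS ϱ δ) := (SS_smooth hA.rsmooth δ).continuous
  set M : ℝ := max M₀ 0 with hMdef
  have hM : 0 ≤ M := le_max_right _ _
  have hMs : ∀ v ∈ tsupport φ, ‖v‖ ≤ M := fun v hv => (hM₀ v hv).trans (le_max_left _ _)
  set R : ℝ := 2 * M + ϱ 0 + δ + 1 with hRdef
  have hR : 0 < R := by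
    have := hA.rnonneg 0
    linarith
  set B : V × V → ℝ := fun p => BB ε ϱ δ p * chi R (mid p.1 p.2) with hBdef
  have hBBs := BB_smooth hA.rsmooth h1 h2
  have hζs : ContDiff ℝ (⊤ : ℕ∞) fun p : V × V => chi R (mid p.1 p.2) :=
    (chi_smooth R).comp hmids
  have hBs : ContDiff ℝ (⊤ : ℕ∞) B := hBBs.mul hζs
  have hBR : ∀ a b p, RR a b B p = 0 := by
    intro a b p
    rw [hBdef, RR_mul hBBs hζs, RR_BB hA.rsmooth h1 h2, RR_mid (chi_smooth R)]
    ring
  have hBc : HasCompactSupport B := by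
    refine HasCompactSupport.intro (K := Metric.closedBall (0 : V × V) (3 * R + ϱ 0 + δ))
      (isCompact_closedBall _ _) fun p hp => ?_
    by_contra hne
    apply hp
    have n1 : BB ε ϱ δ p ≠ 0 := left_ne_zero_of_mul hne
    have n2 : chi R (mid p.1 p.2) ≠ 0 := right_ne_zero_of_mul hne
    have n3 : eta ϱ δ p ≠ 0 := right_ne_zero_of_mul n1
    have n4 : ‖p.1 - p.2‖ ^ 2 < SS ϱ δ p := by
      by_contra hc
      exact n3 (eta_zero h2 (not_lt.1 hc))
    have n5 : ‖mid p.1 p.2‖ < 2 * R := by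
      by_contra hc
      exact n2 (chi_zero hR (not_lt.1 hc))
    have n6 : ‖p.1 - p.2‖ ≤ ϱ (mid p.1 p.2) + δ := by
      refine abs_le_of_sq_le_sq' ?_ (add_nonneg (hA.rnonneg _) h2.le) |>.2
      unfold SS at n4
      have := hA.rnonneg (mid p.1 p.2)
      nlinarith [mul_nonneg this h2.le]
    have n7 : ϱ (mid p.1 p.2) ≤ ϱ 0 + ‖mid p.1 p.2‖ / 100 := by
      have h3 := (abs_le.1 (hA.rlip (mid p.1 p.2) 0)).2
      rw [sub_zero] at h3
      have h4 : ε₀ * ‖mid p.1 p.2‖ ≤ 1 / 100 * ‖mid p.1 p.2‖ :=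
        mul_le_mul_of_nonneg_right hε (norm_nonneg _)
      linarith
    have n8 := hA.rnonneg 0
    have e1 : p.1 = mid p.1 p.2 + (1 / 2 : ℝ) • (p.1 - p.2) := by
      unfold mid
      module
    have e2 : p.2 = mid p.1 p.2 - (1 / 2 : ℝ) • (p.1 - p.2) := by
      unfold mid
      module
    have n9 : ‖(1 / 2 : ℝ) • (p.1 - p.2)‖ = ‖p.1 - p.2‖ / 2 := by
      rw [norm_smul, Real.norm_of_nonneg (by norm_num)]
      ring
    rw [mem_closedBall_zero_iff, Prod.norm_def]
    refine max_le ?_ ?_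
    · rw [e1]
      refine (norm_add_le _ _).trans ?_
      rw [n9]
      linarith
    · rw [e2]
      refine (norm_sub_le _ _).trans ?_
      rw [n9]
      linarith
  -- the germ of the truncated kernel
  have hgerm : ∀ p : V × V, (p.1 ∈ tsupport φ ∨ p.2 ∈ tsupport φ) → B =ᶠ[𝓝 p] BB ε ϱ δ := by
    intro p hp
    rcases lt_or_ge (SS ϱ δ p) (‖p.1 - p.2‖ ^ 2) with hlt | hle
    · have hcn : Continuous fun x : V × V => ‖x.1 - x.2‖ ^ 2 := by fun_prop
      have hev : ∀ᶠ x in 𝓝 p, SS ϱ δ x < ‖x.1 - x.2‖ ^ 2 :=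
        hSSc.continuousAt.eventually_lt hcn.continuousAt hlt
      filter_upwards [hev] with x hx
      have : BB ε ϱ δ x = 0 := by
        unfold BB
        rw [eta_zero h2 hx.le, mul_zero]
      simp only [hBdef, this, zero_mul]
    · have h3 : ‖mid p.1 p.2‖ ≤ 2 * M + ϱ 0 + δ := by
        refine nidb_size hε hA.rlip hA.rnonneg h2 hM ?_ hle
        rcases hp with hp | hp
        · exact Or.inl (hMs _ hp)
        · exact Or.inr (hMs _ hp)
      have h4 : ‖mid p.1 p.2‖ < R := by linarith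
      have hev : ∀ᶠ x in 𝓝 p, ‖mid x.1 x.2‖ < R :=
        hmid.norm.continuousAt.eventually_lt continuousAt_const h4
      filter_upwards [hev] with x hx
      simp only [hBdef, chi_one hR hx.le, mul_one]
  -- pointwise identities
  have hN : ∀ p : V × V, Ne ε ϱ δ φ g p =
      ∑ a : Fin 3, ∑ b : Fin 3, (1 / 2) * -(B p * RR a b (Gb φ g) p * RR a b (FF g) p) := by
    intro p
    have e : ∀ a b : Fin 3, (1 / 2) * -(B p * RR a b (Gb φ g) p * RR a b (FF g) p) =
        chi R (mid p.1 p.2) *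
          ((1 / 2) * -(BB ε ϱ δ p * RR a b (Gb φ g) p * RR a b (FF g) p)) := by
      intro a b
      simp only [hBdef]
      ring
    simp only [e, ← Finset.mul_sum]
    have e2 : (1 / 2 : ℝ) * ∑ a : Fin 3, ∑ b : Fin 3,
        -(BB ε ϱ δ p * RR a b (Gb φ g) p * RR a b (FF g) p) = Ne ε ϱ δ φ g p := by
      rw [← nidb_pt hA.smooth hg ϱ ε δ p]
      simp only [Finset.mul_sum]
    rw [e2]
    by_cases hp : p.1 ∈ tsupport φ ∨ p.2 ∈ tsupport φ
    · have h3 := (hgerm p hp).eq_of_nhds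
      simp only [hBdef] at h3
      by_cases hb : BB ε ϱ δ p = 0
      · have h4 : Ne ε ϱ δ φ g p = 0 := by
          rw [← nidb_pt hA.smooth hg ϱ ε δ p, hb]
          simp
        rw [h4, mul_zero]
      · have h4 : chi R (mid p.1 p.2) = 1 := by
          have h5 : BB ε ϱ δ p * chi R (mid p.1 p.2) = BB ε ϱ δ p * 1 := by rw [h3, mul_one]
          exact mul_left_cancel₀ hb h5
        rw [h4, one_mul]
    · push Not at hp
      rw [nidb_Ne0 hp.1 hp.2, mul_zero]
  have hI : ∀ p : V × V, InN ε ϱ δ φ g p =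
      ∑ a : Fin 3, ∑ b : Fin 3, (1 / 2) * Iab B φ g a b p := by
    intro p
    unfold InN
    refine Finset.sum_congr rfl fun a _ => Finset.sum_congr rfl fun b _ => ?_
    congr 1
    by_cases hp : p.1 ∈ tsupport φ ∨ p.2 ∈ tsupport φ
    · exact (nidb_germ (hgerm p hp) φ g a b).symm
    · push Not at hp
      rw [nidb_Iz hp.1 hp.2, nidb_Iz hp.1 hp.2]
  have hu := uu_smooth hg
  have hF := FF_smooth hg
  have hGb := Gb_smooth hA.smooth hg
  have i1 : ∀ a b : Fin 3, Integrable (fun p => (1 / 2 : ℝ) *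
      -(B p * RR a b (Gb φ g) p * RR a b (FF g) p)) ((volume : Measure V).prod volume) := by
    intro a b
    refine (Integrable.neg ?_).const_mul _
    refine Continuous.integrable_of_hasCompactSupport ?_ ?_
    · exact (hBs.continuous.mul (smooth_RR hGb a b).continuous).mul (smooth_RR hF a b).continuous
    · exact (hBc.mul_right).mul_right
  have i2 : ∀ a b : Fin 3, Integrable (fun p => Iab B φ g a b p)
      ((volume : Measure V).prod volume) := by
    intro a b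
    have hRu := smooth_RR hu a b
    have c1 : Continuous fun p => B p * FF g p * qq φ (RR a b (uu g)) (RR a b (uu g)) p :=
      (hBs.continuous.mul hF.continuous).mul (smooth_qq hA.smooth hRu hRu).continuous
    have c2 : Continuous fun p => B p * FF g p * q1 φ a b (uu g) (RR a b (uu g)) p :=
      (hBs.continuous.mul hF.continuous).mul (smooth_q1 hA.smooth hu hRu a b).continuous
    have c3 : Continuous fun p => (1 / 2) * (B p * FF g p * RR a b (q1 φ a b (uu g) (uu g)) p) :=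
      continuous_const.mul ((hBs.continuous.mul hF.continuous).mul
        (smooth_RR (smooth_q1 hA.smooth hu hu a b) a b).continuous)
    have c4 : Continuous fun p => FF g p * RR a b (uu g) p * qq φ (RR a b (uu g)) B p :=
      (hF.continuous.mul hRu.continuous).mul (smooth_qq hA.smooth hRu hBs).continuous
    have c5 : Continuous fun p => FF g p * RR a b (uu g) p * q1 φ a b (uu g) B p :=
      (hF.continuous.mul hRu.continuous).mul (smooth_q1 hA.smooth hu hBs a b).continuous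
    have hcont : Continuous fun p => Iab B φ g a b p := by
      unfold Iab
      exact ((((c1.neg).sub c2).add c3).sub c4).sub c5
    refine hcont.integrable_of_hasCompactSupport ?_
    refine HasCompactSupport.intro (K := tsupport B) hBc fun p hp => ?_
    have o : IsOpen (tsupport B)ᶜ := (isClosed_tsupport B).isOpen_compl
    have e : B =ᶠ[𝓝 p] fun _ => 0 := by
      filter_upwards [o.mem_nhds hp] with y hy
      exact image_eq_zero_of_notMem_tsupport hy
    rw [nidb_germ e]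
    unfold Iab qq q1 bt dv dw
    simp
  have i3 : ∀ a b : Fin 3, Integrable (fun p => (1 / 2 : ℝ) * Iab B φ g a b p)
      ((volume : Measure V).prod volume) := fun a b => (i2 a b).const_mul _
  simp only [hN, hI]
  rw [integral_finsetSum _ fun a _ => integrable_finsetSum _ fun b _ => i1 a b,
    integral_finsetSum _ fun a _ => integrable_finsetSum _ fun b _ => i3 a b]
  refine Finset.sum_congr rfl fun a _ => ?_
  rw [integral_finsetSum _ fun b _ => i1 a b, integral_finsetSum _ fun b _ => i3 a b]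
  refine Finset.sum_congr rfl fun b _ => ?_
  rw [integral_const_mul, integral_const_mul, integral_neg,
    near_id hA.smooth hg hBs hBc a b (hBR a b)]

end Pool.Agent.LandauF
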