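import Pool.Agent.LandauF.NConc
import Pool.Agent.LandauF.NIdB
import Pool.Agent.LandauF.NEps

/-!
# LandauF, module NLim: the near estimate without regularisation of the kernel

`near_int` with `ε = 1/(n+1)`, `near_idB`, `near_lim`, and monotone convergence of the dissipation
(`bet ε` increases to `1/(2π r³)` as `ε ↓ 0`; all factors are nonnegative: `WD ≥ 0`, `φ ≥ 0`, `eta ≥ 0`).
-/

set_option autoImplicit false

namespace Pool.Agent.LandauF

open MeasureTheory Set Filter Topology Pool.Agent.Landau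

/-- The near dissipation at level `δ`. -/
noncomputable def DNe (ϱ : V → ℝ) (δ : ℝ) (φ g : V → ℝ) : ENNReal :=
  ∫⁻ p : V × V, ENNReal.ofReal (if δ < ϱ (mid p.1 p.2) then
    (1 / (2 * Real.pi)) / ‖p.1 - p.2‖ ^ 3 * eta ϱ δ p * FF g p * φ (mid p.1 p.2) *
      (WD g p.1 p.2 + WD g p.2 p.1) else 0) ∂((volume : Measure V).prod volume)

private theorem nlim_gam_cont {g : V → ℝ} (hg : Dn g) (i : Fin 3) :
    ContDiff ℝ (⊤ : ℕ∞) (gam i g) :=
  (smooth_pd hg.cls.smooth i).div hg.cls.smooth (fun v => (hg.pos v).ne')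

private theorem nlim_hs_cont {g : V → ℝ} (hg : Dn g) (i j : Fin 3) : Continuous (hs g i j) :=
  (smooth_pd (nlim_gam_cont hg j) i).continuous

private theorem nlim_WD_cont {g : V → ℝ} (hg : Dn g) {u w : V × V → V} (hu : Continuous u)
    (hw : Continuous w) : Continuous (fun p : V × V => WD g (u p) (w p)) := by
  have c1 : ∀ i : Fin 3, Continuous fun p : V × V => gam i g (u p) := fun i =>
    (nlim_gam_cont hg i).continuous.comp hu
  have c2 : ∀ i : Fin 3, Continuous fun p : V × V => gam i g (w p) := fun i =>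
    (nlim_gam_cont hg i).continuous.comp hw
  have c3 : ∀ i j : Fin 3, Continuous fun p : V × V => hs g i j (u p) := fun i j =>
    (nlim_hs_cont hg i j).comp hu
  have c4 : ∀ i : Fin 3, Continuous fun p : V × V => u p i := fun i =>
    (coord_cont i).comp hu
  have c5 : ∀ i : Fin 3, Continuous fun p : V × V => w p i := fun i =>
    (coord_cont i).comp hw
  unfold WD
  refine continuous_finsetSum _ fun a _ => continuous_finsetSum _ fun b _ =>
    continuous_finsetSum _ fun l _ => Continuous.pow ?_ 2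
  unfold DX
  exact (((continuous_const.mul ((c1 b).sub (c2 b))).add
    (((c4 a).sub (c5 a)).mul (c3 b l))).sub (continuous_const.mul ((c1 a).sub (c2 a)))).sub
    (((c4 b).sub (c5 b)).mul (c3 a l))

private theorem nlim_WD_nonneg (g : V → ℝ) (v w : V) : 0 ≤ WD g v w := by
  unfold WD
  exact Finset.sum_nonneg fun a _ => Finset.sum_nonneg fun b _ => Finset.sum_nonneg fun l _ =>
    sq_nonneg _

private theorem nlim_rE_pos {ε : ℝ} (hε : 0 < ε) (p : V × V) : 0 < rE ε p := by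
  unfold rE
  positivity

private theorem nlim_bet_mono {ε ε' : ℝ} (hε : 0 < ε) (h : ε ≤ ε') (p : V × V) :
    bet ε' p ≤ bet ε p := by
  have h1 := nlim_rE_pos hε p
  have h2 : rE ε p ≤ rE ε' p := by
    unfold rE
    apply Real.sqrt_le_sqrt
    have : ε ^ 2 ≤ ε' ^ 2 := pow_le_pow_left₀ hε.le h 2
    linarith
  have h3 : rE ε p ^ 3 ≤ rE ε' p ^ 3 := pow_le_pow_left₀ h1.le h2 3
  have h4 : (rE ε' p ^ 3)⁻¹ ≤ (rE ε p ^ 3)⁻¹ := inv_anti₀ (by positivity) h3
  unfold bet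
  have := Real.pi_pos
  exact mul_le_mul_of_nonneg_left h4 (by positivity)

private theorem nlim_bet_nonneg (ε : ℝ) (p : V × V) : 0 ≤ bet ε p := by
  unfold bet rE
  have := Real.pi_pos
  positivity

private theorem nlim_bet_tendsto (p : V × V) (hp : p.1 ≠ p.2) :
    Tendsto (fun n : ℕ => bet (1 / ((n : ℝ) + 1)) p) atTop
      (𝓝 ((1 / (2 * Real.pi)) / ‖p.1 - p.2‖ ^ 3)) := by
  have hr : 0 < ‖p.1 - p.2‖ := norm_pos_iff.2 (sub_ne_zero.2 hp)
  have h1 : Tendsto (fun n : ℕ => 1 / ((n : ℝ) + 1)) atTop (𝓝 0) :=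
    tendsto_one_div_add_atTop_nhds_zero_nat
  have h2 : Tendsto (fun n : ℕ => rE (1 / ((n : ℝ) + 1)) p) atTop (𝓝 ‖p.1 - p.2‖) := by
    have h3 : Tendsto (fun n : ℕ => Real.sqrt (‖p.1 - p.2‖ ^ 2 + (1 / ((n : ℝ) + 1)) ^ 2)) atTop
        (𝓝 (Real.sqrt (‖p.1 - p.2‖ ^ 2 + 0 ^ 2))) :=
      (Real.continuous_sqrt.tendsto _).comp (tendsto_const_nhds.add (h1.pow 2))
    have h4 : Real.sqrt (‖p.1 - p.2‖ ^ 2 + 0 ^ 2) = ‖p.1 - p.2‖ := by
      rw [zero_pow two_ne_zero, add_zero, Real.sqrt_sq hr.le]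
    rw [h4] at h3
    exact h3
  have h5 := ((h2.pow 3).inv₀ (pow_ne_zero 3 hr.ne')).const_mul (1 / (2 * Real.pi))
  rw [div_eq_mul_inv]
  exact h5

private theorem nlim_mid_cont : Continuous fun p : V × V => mid p.1 p.2 := by
  unfold mid
  exact (continuous_fst.add continuous_snd).const_smul (1 / 2 : ℝ)

private theorem nlim_diag : ∀ᵐ p : V × V ∂((volume : Measure V).prod volume), p.1 ≠ p.2 := by
  have hm : MeasurableSet {p : V × V | p.1 = p.2} :=
    (isClosed_eq continuous_fst continuous_snd).measurableSet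
  have h0 : (volume : Measure V).prod (volume : Measure V) {p : V × V | p.1 = p.2} = 0 := by
    rw [Measure.measure_prod_null hm]
    refine Eventually.of_forall fun v => ?_
    have h1 : Prod.mk v ⁻¹' {p : V × V | p.1 = p.2} = {v} := by
      ext w
      simp [eq_comm]
    show volume (Prod.mk v ⁻¹' {p : V × V | p.1 = p.2}) = 0
    rw [h1]
    exact measure_singleton v
  rw [ae_iff]
  simpa using h0

private theorem nlim_compact {ε₀ : ℝ} {φ ϱ κ g : V → ℝ} (hA : Adm ε₀ φ ϱ κ) (ε : ℝ) {δ : ℝ}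
    (hδ : 0 < δ) : HasCompactSupport (fun p : V × V =>
      BB ε ϱ δ p * FF g p * φ (mid p.1 p.2) * (WD g p.1 p.2 + WD g p.2 p.1)) := by
  obtain ⟨R, hR⟩ := hA.compact.isBounded.subset_closedBall (0 : V)
  obtain ⟨M, hM⟩ := hA.compact.exists_bound_of_continuousOn
    (f := fun v => ϱ v ^ 2) hA.rsmooth.continuous.continuousOn
  set L := Real.sqrt (M + δ ^ 2) with hL
  refine HasCompactSupport.intro (isCompact_closedBall (0 : V × V) (R + L)) ?_
  intro p hp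
  by_contra hne
  apply hp
  have h1 : φ (mid p.1 p.2) ≠ 0 := by
    intro h
    apply hne
    rw [h]
    ring
  have h2 : eta ϱ δ p ≠ 0 := by
    intro h
    apply hne
    unfold BB
    rw [h]
    ring
  have h3 : mid p.1 p.2 ∈ tsupport φ := subset_tsupport _ h1
  have h4 : ‖mid p.1 p.2‖ ≤ R := by
    have := hR h3
    simpa using this
  have h5 : ‖p.1 - p.2‖ ^ 2 < SS ϱ δ p := by
    by_contra h
    exact h2 (eta_zero hδ (not_lt.1 h))
  have h6 : SS ϱ δ p ≤ M + δ ^ 2 := by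
    have h7 := hM _ h3
    rw [Real.norm_of_nonneg (sq_nonneg _)] at h7
    unfold SS
    linarith
  have h8 : ‖p.1 - p.2‖ ≤ L := Real.le_sqrt_of_sq_le (h5.le.trans h6)
  have e1 : p.1 = mid p.1 p.2 + (1 / 2 : ℝ) • (p.1 - p.2) := by
    unfold mid
    rw [← smul_add]
    have : p.1 + p.2 + (p.1 - p.2) = (2 : ℝ) • p.1 := by
      rw [two_smul]
      abel
    rw [this, smul_smul]
    norm_num
  have e2 : p.2 = mid p.1 p.2 - (1 / 2 : ℝ) • (p.1 - p.2) := by
    unfold mid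
    rw [← smul_sub]
    have : p.1 + p.2 - (p.1 - p.2) = (2 : ℝ) • p.2 := by
      rw [two_smul]
      abel
    rw [this, smul_smul]
    norm_num
  have e3 : ‖(1 / 2 : ℝ) • (p.1 - p.2)‖ ≤ L := by
    rw [norm_smul]
    have h9 := norm_nonneg (p.1 - p.2)
    have : ‖(1 / 2 : ℝ)‖ = 1 / 2 := by norm_num
    rw [this]
    linarith
  rw [mem_closedBall_zero_iff, Prod.norm_def]
  apply max_le
  · rw [e1]
    exact (norm_add_le _ _).trans (add_le_add h4 e3)
  · rw [e2]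
    exact (norm_sub_le _ _).trans (add_le_add h4 e3)

/-- the integrand of the regularised dissipation -/
private noncomputable def nlf (ϱ : V → ℝ) (δ : ℝ) (φ g : V → ℝ) (ε : ℝ) (p : V × V) : ℝ :=
  if δ < ϱ (mid p.1 p.2) then
    BB ε ϱ δ p * FF g p * φ (mid p.1 p.2) * (WD g p.1 p.2 + WD g p.2 p.1) else 0

private theorem nlf_int {ε₀ : ℝ} {φ ϱ κ g : V → ℝ} (hA : Adm ε₀ φ ϱ κ) (hg : Dn g) {ε δ : ℝ}
    (hε : 0 < ε) (hδ : 0 < δ) :
    Integrable (nlf ϱ δ φ g ε) ((volume : Measure V).prod volume) := by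
  have hWc := nlim_WD_cont hg continuous_fst continuous_snd
  have hWc' := nlim_WD_cont hg continuous_snd continuous_fst
  have hFFc : Continuous (FF g) :=
    (hg.cls.cont.comp continuous_fst).mul (hg.cls.cont.comp continuous_snd)
  have hϱ : Continuous ϱ := by
    have : ϱ = fun v => Real.sqrt (ϱ v ^ 2) := by
      funext v
      rw [Real.sqrt_sq (hA.rnonneg v)]
    rw [this]
    exact Real.continuous_sqrt.comp hA.rsmooth.continuous
  have hFc : Continuous (fun p : V × V =>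
      BB ε ϱ δ p * FF g p * φ (mid p.1 p.2) * (WD g p.1 p.2 + WD g p.2 p.1)) :=
    (((BB_smooth hA.rsmooth hε hδ).continuous.mul hFFc).mul
      (hA.smooth.continuous.comp nlim_mid_cont)).mul (hWc.add hWc')
  have hFi := hFc.integrable_of_hasCompactSupport
    (μ := (volume : Measure V).prod volume) (nlim_compact hA ε hδ)
  have hmeas : MeasurableSet {p : V × V | δ < ϱ (mid p.1 p.2)} :=
    (isOpen_lt continuous_const (hϱ.comp nlim_mid_cont)).measurableSet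
  have hfeq : nlf ϱ δ φ g ε = {p : V × V | δ < ϱ (mid p.1 p.2)}.indicator (fun p : V × V =>
      BB ε ϱ δ p * FF g p * φ (mid p.1 p.2) * (WD g p.1 p.2 + WD g p.2 p.1)) := by
    funext p
    by_cases h : δ < ϱ (mid p.1 p.2)
    · rw [indicator_of_mem (show p ∈ {p : V × V | δ < ϱ (mid p.1 p.2)} from h), nlf, if_pos h]
    · rw [indicator_of_notMem (show p ∉ {p : V × V | δ < ϱ (mid p.1 p.2)} from h), nlf, if_neg h]
  rw [hfeq]
  exact hFi.indicator hmeas

private theorem nlf_rest {ε₀ : ℝ} {φ ϱ κ g : V → ℝ} (hA : Adm ε₀ φ ϱ κ) (hg : Dn g) (δ : ℝ)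
    (p : V × V) : 0 ≤ eta ϱ δ p * FF g p * φ (mid p.1 p.2) * (WD g p.1 p.2 + WD g p.2 p.1) := by
  have a1 := eta_nonneg ϱ δ p
  have a2 : 0 ≤ FF g p := mul_nonneg (hg.pos _).le (hg.pos _).le
  have a3 := hA.nonneg (mid p.1 p.2)
  have a4 := nlim_WD_nonneg g p.1 p.2
  have a5 := nlim_WD_nonneg g p.2 p.1
  exact mul_nonneg (mul_nonneg (mul_nonneg a1 a2) a3) (add_nonneg a4 a5)

private theorem nlf_eq (ϱ : V → ℝ) (δ : ℝ) (φ g : V → ℝ) (ε : ℝ) (p : V × V) :
    nlf ϱ δ φ g ε p = if δ < ϱ (mid p.1 p.2) then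
      bet ε p * (eta ϱ δ p * FF g p * φ (mid p.1 p.2) * (WD g p.1 p.2 + WD g p.2 p.1)) else 0 := by
  unfold nlf BB
  split_ifs
  · ring
  · rfl

private theorem nlf_nonneg {ε₀ : ℝ} {φ ϱ κ g : V → ℝ} (hA : Adm ε₀ φ ϱ κ) (hg : Dn g)
    (ε δ : ℝ) (p : V × V) : 0 ≤ nlf ϱ δ φ g ε p := by
  rw [nlf_eq]
  split_ifs
  · exact mul_nonneg (nlim_bet_nonneg _ _) (nlf_rest hA hg δ p)
  · exact le_rfl

private theorem nlf_mono {ε₀ : ℝ} {φ ϱ κ g : V → ℝ} (hA : Adm ε₀ φ ϱ κ) (hg : Dn g)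
    (δ : ℝ) {ε ε' : ℝ} (hε : 0 < ε) (h : ε ≤ ε') (p : V × V) :
    nlf ϱ δ φ g ε' p ≤ nlf ϱ δ φ g ε p := by
  rw [nlf_eq, nlf_eq]
  split_ifs
  · exact mul_le_mul_of_nonneg_right (nlim_bet_mono hε h p) (nlf_rest hA hg δ p)
  · exact le_rfl

/-- monotone convergence -/
private theorem nlf_lim {ε₀ : ℝ} {φ ϱ κ g : V → ℝ} (hA : Adm ε₀ φ ϱ κ) (hg : Dn g) {δ : ℝ}
    (hδ : 0 < δ) : Tendsto (fun n : ℕ => ∫⁻ p, ENNReal.ofReal (nlf ϱ δ φ g (1 / ((n : ℝ) + 1)) p)
      ∂((volume : Measure V).prod volume)) atTop (𝓝 (DNe ϱ δ φ g)) := by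
  have hεn : ∀ n : ℕ, (0 : ℝ) < 1 / ((n : ℝ) + 1) := fun n => by positivity
  unfold DNe
  apply lintegral_tendsto_of_tendsto_of_monotone
  · intro n
    exact (nlf_int hA hg (hεn n) hδ).aestronglyMeasurable.aemeasurable.ennreal_ofReal
  · refine Eventually.of_forall fun p => ?_
    intro m n hmn
    apply ENNReal.ofReal_le_ofReal
    apply nlf_mono hA hg δ (hεn n)
    apply one_div_le_one_div_of_le (by positivity)
    have : (m : ℝ) ≤ n := by exact_mod_cast hmn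
    linarith
  · filter_upwards [nlim_diag] with p hp
    apply ENNReal.tendsto_ofReal
    simp only [nlf_eq]
    split_ifs
    · have h1 := (nlim_bet_tendsto p hp).mul_const (eta ϱ δ p * FF g p * φ (mid p.1 p.2) *
        (WD g p.1 p.2 + WD g p.2 p.1))
      have h2 : (1 / (2 * Real.pi)) / ‖p.1 - p.2‖ ^ 3 * (eta ϱ δ p * FF g p *
          φ (mid p.1 p.2) * (WD g p.1 p.2 + WD g p.2 p.1)) =
          (1 / (2 * Real.pi)) / ‖p.1 - p.2‖ ^ 3 * eta ϱ δ p * FF g p * φ (mid p.1 p.2) *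
          (WD g p.1 p.2 + WD g p.2 p.1) := by ring
      rw [h2] at h1
      exact h1
    · exact tendsto_const_nhds

private theorem nlf_ev {ε₀ : ℝ} {φ ϱ κ g : V → ℝ} (hA : Adm ε₀ φ ϱ κ) (hg : Dn g) {δ : ℝ}
    (hδ : 0 < δ) {B : ℝ} (_ : 0 ≤ B) (hDN : ENNReal.ofReal B ≤ DNe ϱ δ φ g) {η : ℝ}
    (hη : 0 < η) : ∀ᶠ n : ℕ in atTop,
      B - η ≤ ∫ p, nlf ϱ δ φ g (1 / ((n : ℝ) + 1)) p ∂((volume : Measure V).prod volume) := by
  have hεn : ∀ n : ℕ, (0 : ℝ) < 1 / ((n : ℝ) + 1) := fun n => by positivity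
  by_cases hB : B - η ≤ 0
  · exact Eventually.of_forall fun n => hB.trans (integral_nonneg (nlf_nonneg hA hg _ _))
  · have hB' : 0 < B - η := not_le.1 hB
    have hlt : ENNReal.ofReal (B - η) < DNe ϱ δ φ g := by
      refine lt_of_lt_of_le ?_ hDN
      exact (ENNReal.ofReal_lt_ofReal_iff (by linarith)).2 (by linarith)
    filter_upwards [(nlf_lim hA hg hδ).eventually (lt_mem_nhds hlt)] with n hn
    rw [← ofReal_integral_eq_lintegral_ofReal (nlf_int hA hg (hεn n) hδ)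
      (Eventually.of_forall (nlf_nonneg hA hg _ _))] at hn
    exact ((ENNReal.ofReal_lt_ofReal_iff').1 hn).1.le

/-- The near estimate. -/
theorem near_fin : ∃ C ε₀ : ℝ, 0 < C ∧ 0 < ε₀ ∧ ε₀ ≤ 1 / 100 ∧
    ∀ φ ϱ κ g : V → ℝ, Adm ε₀ φ ϱ κ → Dn g → ∃ K : ℝ, 0 < K ∧ ∀ (δ A B : ℝ),
      0 < δ → δ ≤ 1 → 0 ≤ A → 0 ≤ B → ER φ ϱ κ g ≤ ENNReal.ofReal A →
      ENNReal.ofReal B ≤ DNe ϱ δ φ g →
      ∫ p, N0 ϱ δ φ g p ∂((volume : Measure V).prod volume) ≤
        C * A + K * δ - (1 / 200) * B := by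
  obtain ⟨C, ε₀, hC, hε₀, hε1, H⟩ := near_int
  refine ⟨C, ε₀, hC, hε₀, hε1, ?_⟩
  intro φ ϱ κ g hA hg
  obtain ⟨K, hK, H2⟩ := H φ ϱ κ g hA hg
  refine ⟨K, hK, ?_⟩
  intro δ A B hδ hδ1 hA0 hB0 hER hDN
  have hεn : ∀ n : ℕ, (0 : ℝ) < 1 / ((n : ℝ) + 1) := fun n => by positivity
  have hst : ∀ n : ℕ, ∫ p, Ne (1 / ((n : ℝ) + 1)) ϱ δ φ g p ∂((volume : Measure V).prod volume) ≤
      C * A + K * δ - (1 / 200) *
        ∫ p, nlf ϱ δ φ g (1 / ((n : ℝ) + 1)) p ∂((volume : Measure V).prod volume) := by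
    intro n
    rw [near_idB hε1 hA hg (hεn n) hδ]
    exact H2 (1 / ((n : ℝ) + 1)) δ A (hεn n) hδ hδ1 hA0 hER
  have hlim := near_lim hε1 hA hg hδ
  clear H H2
  generalize (∫ p, N0 ϱ δ φ g p ∂((volume : Measure V).prod volume)) = I at hlim ⊢
  -- the estimate with a loss
  have key : ∀ η : ℝ, 0 < η → I ≤ C * A + K * δ - (1 / 200) * (B - η) := by
    intro η hη
    refine le_of_tendsto hlim ?_
    filter_upwards [nlf_ev hA hg hδ hB0 hDN hη] with n hn
    refine (hst n).trans ?_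
    linarith
  by_contra hcon
  push Not at hcon
  have h1 := key (100 * (I - (C * A + K * δ - (1 / 200) * B))) (by linarith)
  linarith

end Pool.Agent.LandauF
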