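import Pool.Agent.LandauF.NDefs

/-!
# LandauF, module NOps: calculus of the operators `dv`, `dw`, `RR`, `qq`, `q1` on smooth functions

`dv l P p = fderiv ℝ P p (single l 1, 0)`, `dw l P p = fderiv ℝ P p (0, single l 1)`; everything is
elementary.  For `rr_qq`: with `D_l = dv l - dw l`,
`dv l (RR a b P) = RR a b (dv l P) + ½ (δ_{la} D_b P - δ_{lb} D_a P)`,
`dw l (RR a b P) = RR a b (dw l P) - ½ (δ_{la} D_b P - δ_{lb} D_a P)` (symmetry of second
derivatives, `z = v - w`), hence `RR (qq P Q) - qq (RR P) Q - qq P (RR Q)` equals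
`(RR φ(v)) ∑ dv P dv Q + (RR φ(w)) ∑ dw P dw Q`
`- ½ φ(v) [D_b P dv_a Q - D_a P dv_b Q + D_b Q dv_a P - D_a Q dv_b P]`
`+ ½ φ(w) [D_b P dw_a Q - D_a P dw_b Q + D_b Q dw_a P - D_a Q dw_b P]`
and both brackets equal `bt a b P Q`.
-/

set_option autoImplicit false

namespace Pool.Agent.LandauF

open MeasureTheory Set Filter Topology Pool.Agent.Landau

private theorem nop_smooth_dir {P : V × V → ℝ} (hP : ContDiff ℝ (⊤ : ℕ∞) P) (u : V × V) :
    ContDiff ℝ (⊤ : ℕ∞) (fun p => fderiv ℝ P p u) :=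
  (hP.fderiv_right (by simp)).clm_apply contDiff_const

private theorem nop_diff {P : V × V → ℝ} (hP : ContDiff ℝ (⊤ : ℕ∞) P) : Differentiable ℝ P :=
  hP.differentiable (by simp)

theorem smooth_dv {P : V × V → ℝ} (hP : ContDiff ℝ (⊤ : ℕ∞) P) (l : Fin 3) :
    ContDiff ℝ (⊤ : ℕ∞) (dv l P) := nop_smooth_dir hP _

theorem smooth_dw {P : V × V → ℝ} (hP : ContDiff ℝ (⊤ : ℕ∞) P) (l : Fin 3) :
    ContDiff ℝ (⊤ : ℕ∞) (dw l P) := nop_smooth_dir hP _

private theorem nop_smooth_z (a : Fin 3) :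
    ContDiff ℝ (⊤ : ℕ∞) (fun p : V × V => p.1 a - p.2 a) := by
  fun_prop

theorem smooth_RR {P : V × V → ℝ} (hP : ContDiff ℝ (⊤ : ℕ∞) P) (a b : Fin 3) :
    ContDiff ℝ (⊤ : ℕ∞) (RR a b P) := by
  unfold RR
  exact contDiff_const.mul (((nop_smooth_z a).mul ((smooth_dv hP b).sub (smooth_dw hP b))).sub
    ((nop_smooth_z b).mul ((smooth_dv hP a).sub (smooth_dw hP a))))

theorem smooth_qq {φ : V → ℝ} {P Q : V × V → ℝ} (hφ : ContDiff ℝ (⊤ : ℕ∞) φ)
    (hP : ContDiff ℝ (⊤ : ℕ∞) P) (hQ : ContDiff ℝ (⊤ : ℕ∞) Q) :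
    ContDiff ℝ (⊤ : ℕ∞) (qq φ P Q) := by
  unfold qq
  refine ((hφ.comp contDiff_fst).mul (ContDiff.sum fun l _ => ?_)).add
    ((hφ.comp contDiff_snd).mul (ContDiff.sum fun l _ => ?_))
  · exact (smooth_dv hP l).mul (smooth_dv hQ l)
  · exact (smooth_dw hP l).mul (smooth_dw hQ l)

theorem smooth_q1 {φ : V → ℝ} {P Q : V × V → ℝ} (hφ : ContDiff ℝ (⊤ : ℕ∞) φ)
    (hP : ContDiff ℝ (⊤ : ℕ∞) P) (hQ : ContDiff ℝ (⊤ : ℕ∞) Q) (a b : Fin 3) :
    ContDiff ℝ (⊤ : ℕ∞) (q1 φ a b P Q) := by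
  have h1 : ContDiff ℝ (⊤ : ℕ∞) (fun x : V × V => φ x.1) := hφ.comp contDiff_fst
  have h2 : ContDiff ℝ (⊤ : ℕ∞) (fun x : V × V => φ x.2) := hφ.comp contDiff_snd
  have h3 : ContDiff ℝ (⊤ : ℕ∞) (fun p => ∑ l : Fin 3, dv l P p * dv l Q p) :=
    ContDiff.sum fun l _ => (smooth_dv hP l).mul (smooth_dv hQ l)
  have h4 : ContDiff ℝ (⊤ : ℕ∞) (fun p => ∑ l : Fin 3, dw l P p * dw l Q p) :=
    ContDiff.sum fun l _ => (smooth_dw hP l).mul (smooth_dw hQ l)
  have h5 : ContDiff ℝ (⊤ : ℕ∞) (bt a b P Q) := by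
    unfold bt
    exact ((((smooth_dw hP a).mul (smooth_dv hQ b)).sub ((smooth_dw hP b).mul (smooth_dv hQ a))).add
      ((smooth_dw hQ a).mul (smooth_dv hP b))).sub ((smooth_dw hQ b).mul (smooth_dv hP a))
  unfold q1
  exact (((smooth_RR h1 a b).mul h3).add ((smooth_RR h2 a b).mul h4)).sub
    ((contDiff_const.mul (h1.sub h2)).mul h5)

private theorem nop_mul {P Q : V × V → ℝ} {p : V × V} (hP : DifferentiableAt ℝ P p)
    (hQ : DifferentiableAt ℝ Q p) (u : V × V) :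
    fderiv ℝ (fun x => P x * Q x) p u = P p * fderiv ℝ Q p u + fderiv ℝ P p u * Q p := by
  rw [fderiv_fun_mul hP hQ]
  simp only [add_apply, smul_apply, smul_eq_mul]
  ring

private theorem nop_add {P Q : V × V → ℝ} {p : V × V} (hP : DifferentiableAt ℝ P p)
    (hQ : DifferentiableAt ℝ Q p) (u : V × V) :
    fderiv ℝ (fun x => P x + Q x) p u = fderiv ℝ P p u + fderiv ℝ Q p u := by
  rw [fderiv_fun_add hP hQ]
  rfl

private theorem nop_sub {P Q : V × V → ℝ} {p : V × V} (hP : DifferentiableAt ℝ P p)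
    (hQ : DifferentiableAt ℝ Q p) (u : V × V) :
    fderiv ℝ (fun x => P x - Q x) p u = fderiv ℝ P p u - fderiv ℝ Q p u := by
  rw [fderiv_fun_sub hP hQ]
  rfl

private theorem nop_sum {F : Fin 3 → V × V → ℝ} {p : V × V}
    (hF : ∀ l, DifferentiableAt ℝ (F l) p) (u : V × V) :
    fderiv ℝ (fun x => ∑ l : Fin 3, F l x) p u = ∑ l : Fin 3, fderiv ℝ (F l) p u := by
  rw [fderiv_fun_sum fun l _ => hF l]
  simp only [FunLike.coe_sum, Finset.sum_apply]

/-- derivatives of products -/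
theorem dv_mul {P Q : V × V → ℝ} (hP : ContDiff ℝ (⊤ : ℕ∞) P) (hQ : ContDiff ℝ (⊤ : ℕ∞) Q)
    (l : Fin 3) (p : V × V) : dv l (fun x => P x * Q x) p = P p * dv l Q p + dv l P p * Q p :=
  nop_mul (nop_diff hP p) (nop_diff hQ p) _

theorem dw_mul {P Q : V × V → ℝ} (hP : ContDiff ℝ (⊤ : ℕ∞) P) (hQ : ContDiff ℝ (⊤ : ℕ∞) Q)
    (l : Fin 3) (p : V × V) : dw l (fun x => P x * Q x) p = P p * dw l Q p + dw l P p * Q p :=
  nop_mul (nop_diff hP p) (nop_diff hQ p) _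

theorem RR_mul {P Q : V × V → ℝ} (hP : ContDiff ℝ (⊤ : ℕ∞) P) (hQ : ContDiff ℝ (⊤ : ℕ∞) Q)
    (a b : Fin 3) (p : V × V) :
    RR a b (fun x => P x * Q x) p = P p * RR a b Q p + RR a b P p * Q p := by
  unfold RR
  rw [dv_mul hP hQ, dw_mul hP hQ, dv_mul hP hQ, dw_mul hP hQ]
  ring

private theorem RR_add {P Q : V × V → ℝ} (hP : ContDiff ℝ (⊤ : ℕ∞) P)
    (hQ : ContDiff ℝ (⊤ : ℕ∞) Q) (a b : Fin 3) (p : V × V) :
    RR a b (fun x => P x + Q x) p = RR a b P p + RR a b Q p := by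
  unfold RR dv dw
  rw [nop_add (nop_diff hP p) (nop_diff hQ p), nop_add (nop_diff hP p) (nop_diff hQ p),
    nop_add (nop_diff hP p) (nop_diff hQ p), nop_add (nop_diff hP p) (nop_diff hQ p)]
  ring

private theorem RR_sum {F : Fin 3 → V × V → ℝ} (hF : ∀ l, ContDiff ℝ (⊤ : ℕ∞) (F l))
    (a b : Fin 3) (p : V × V) :
    RR a b (fun x => ∑ l : Fin 3, F l x) p = ∑ l : Fin 3, RR a b (F l) p := by
  have hd : ∀ l, DifferentiableAt ℝ (F l) p := fun l => nop_diff (hF l) p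
  unfold RR dv dw
  rw [nop_sum hd, nop_sum hd, nop_sum hd, nop_sum hd]
  simp only [Fin.sum_univ_three]
  ring

/-- symmetry of the second derivatives -/
private theorem nop_symm {P : V × V → ℝ} (hP : ContDiff ℝ (⊤ : ℕ∞) P) (p u w : V × V) :
    fderiv ℝ (fun x => fderiv ℝ P x u) p w = fderiv ℝ (fun x => fderiv ℝ P x w) p u := by
  have h1 : DifferentiableAt ℝ (fderiv ℝ P) p :=
    ((hP.fderiv_right (m := (⊤ : ℕ∞)) (by simp)).differentiable (by simp)) p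
  have h2 : ∀ u w : V × V, fderiv ℝ (fun x => fderiv ℝ P x u) p w = fderiv ℝ (fderiv ℝ P) p w u := by
    intro u w
    rw [fderiv_clm_apply h1 (differentiableAt_const u)]
    simp
  rw [h2, h2]
  have h3 : IsSymmSndFDerivAt ℝ P p := (hP.contDiffAt).isSymmSndFDerivAt (by
    simp only [minSmoothness_of_isRCLikeNormedField]
    exact WithTop.coe_le_coe.2 (le_top : (2 : ℕ∞) ≤ ⊤))
  exact h3.eq w u

private theorem nop_z (a : Fin 3) (p u : V × V) :
    fderiv ℝ (fun x : V × V => x.1 a - x.2 a) p u = u.1 a - u.2 a := by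
  have h : HasFDerivAt (fun x : V × V => x.1 a - x.2 a)
      (((EuclideanSpace.proj a : V →L[ℝ] ℝ).comp (ContinuousLinearMap.fst ℝ V V)) -
        ((EuclideanSpace.proj a : V →L[ℝ] ℝ).comp (ContinuousLinearMap.snd ℝ V V))) p :=
    (((EuclideanSpace.proj a : V →L[ℝ] ℝ).comp (ContinuousLinearMap.fst ℝ V V)) -
        ((EuclideanSpace.proj a : V →L[ℝ] ℝ).comp (ContinuousLinearMap.snd ℝ V V))).hasFDerivAt
  rw [h.fderiv]
  rfl

/-- the derivative of `RR a b P` in a constant direction -/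
private theorem nop_dir_RR {P : V × V → ℝ} (hP : ContDiff ℝ (⊤ : ℕ∞) P) (a b : Fin 3)
    (p u : V × V) :
    fderiv ℝ (RR a b P) p u = RR a b (fun x => fderiv ℝ P x u) p +
      (1 / 2) * ((u.1 a - u.2 a) * (dv b P p - dw b P p) -
        (u.1 b - u.2 b) * (dv a P p - dw a P p)) := by
  have hz : ∀ a, DifferentiableAt ℝ (fun x : V × V => x.1 a - x.2 a) p := fun a =>
    nop_diff (nop_smooth_z a) p
  have hD : ∀ l, ContDiff ℝ (⊤ : ℕ∞) (fun x => dv l P x - dw l P x) := fun l =>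
    (smooth_dv hP l).sub (smooth_dw hP l)
  have hDd : ∀ l, DifferentiableAt ℝ (fun x => dv l P x - dw l P x) p := fun l =>
    nop_diff (hD l) p
  have hDe : ∀ l, fderiv ℝ (fun x => dv l P x - dw l P x) p u =
      dv l (fun x => fderiv ℝ P x u) p - dw l (fun x => fderiv ℝ P x u) p := by
    intro l
    rw [nop_sub (nop_diff (smooth_dv hP l) p) (nop_diff (smooth_dw hP l) p)]
    unfold dv dw
    rw [nop_symm hP p (EuclideanSpace.single l 1, 0) u,
      nop_symm hP p (0, EuclideanSpace.single l 1) u]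
  have hA : DifferentiableAt ℝ (fun x : V × V => (x.1 a - x.2 a) * (dv b P x - dw b P x)) p :=
    (hz a).mul (hDd b)
  have hB : DifferentiableAt ℝ (fun x : V × V => (x.1 b - x.2 b) * (dv a P x - dw a P x)) p :=
    (hz b).mul (hDd a)
  have hAB : DifferentiableAt ℝ (fun x : V × V => (x.1 a - x.2 a) * (dv b P x - dw b P x) -
      (x.1 b - x.2 b) * (dv a P x - dw a P x)) p := hA.sub hB
  have e : RR a b P = fun x => (1 / 2 : ℝ) * ((x.1 a - x.2 a) * (dv b P x - dw b P x) -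
      (x.1 b - x.2 b) * (dv a P x - dw a P x)) := rfl
  rw [e, nop_mul (differentiableAt_const _) hAB, nop_sub hA hB, nop_mul (hz a) (hDd b),
    nop_mul (hz b) (hDd a), nop_z, nop_z, hDe, hDe]
  unfold RR
  simp
  ring

private theorem dv_RR {P : V × V → ℝ} (hP : ContDiff ℝ (⊤ : ℕ∞) P) (a b l : Fin 3) (p : V × V) :
    dv l (RR a b P) p = RR a b (dv l P) p +
      (1 / 2) * ((if a = l then 1 else 0) * (dv b P p - dw b P p) -
        (if b = l then 1 else 0) * (dv a P p - dw a P p)) := by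
  have h := nop_dir_RR hP a b p (EuclideanSpace.single l 1, 0)
  have h1 : ∀ a : Fin 3, (EuclideanSpace.single l (1 : ℝ) : V) a - (0 : V) a =
      if a = l then 1 else 0 := by
    intro a
    simp
  rw [h1, h1] at h
  exact h

private theorem dw_RR {P : V × V → ℝ} (hP : ContDiff ℝ (⊤ : ℕ∞) P) (a b l : Fin 3) (p : V × V) :
    dw l (RR a b P) p = RR a b (dw l P) p -
      (1 / 2) * ((if a = l then 1 else 0) * (dv b P p - dw b P p) -
        (if b = l then 1 else 0) * (dv a P p - dw a P p)) := by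
  have h := nop_dir_RR hP a b p (0, EuclideanSpace.single l 1)
  have h1 : ∀ a : Fin 3, (0 : V) a - (EuclideanSpace.single l (1 : ℝ) : V) a =
      -(if a = l then 1 else 0) := by
    intro a
    simp
  rw [h1, h1] at h
  rw [show dw l (RR a b P) p = fderiv ℝ (RR a b P) p (0, EuclideanSpace.single l 1) from rfl, h]
  show RR a b (dw l P) p + _ = _
  ring

private theorem sum_delta (a : Fin 3) (c : ℝ) (F : Fin 3 → ℝ) :
    ∑ l : Fin 3, (if a = l then (1 : ℝ) else 0) * c * F l = c * F a := by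
  rw [Finset.sum_eq_single a]
  · rw [if_pos rfl, one_mul]
  · intro l _ hl
    rw [if_neg (Ne.symm hl), zero_mul, zero_mul]
  · intro h
    exact absurd (Finset.mem_univ a) h

private theorem sum_dv_RR {P : V × V → ℝ} (hP : ContDiff ℝ (⊤ : ℕ∞) P) (a b : Fin 3) (p : V × V)
    (F : Fin 3 → ℝ) :
    ∑ l : Fin 3, dv l (RR a b P) p * F l = (∑ l : Fin 3, RR a b (dv l P) p * F l) +
      (1 / 2) * ((dv b P p - dw b P p) * F a - (dv a P p - dw a P p) * F b) := by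
  rw [← sum_delta a (dv b P p - dw b P p) F, ← sum_delta b (dv a P p - dw a P p) F,
    ← Finset.sum_sub_distrib, Finset.mul_sum, ← Finset.sum_add_distrib]
  refine Finset.sum_congr rfl fun l _ => ?_
  rw [dv_RR hP]
  ring

private theorem sum_dw_RR {P : V × V → ℝ} (hP : ContDiff ℝ (⊤ : ℕ∞) P) (a b : Fin 3) (p : V × V)
    (F : Fin 3 → ℝ) :
    ∑ l : Fin 3, dw l (RR a b P) p * F l = (∑ l : Fin 3, RR a b (dw l P) p * F l) -
      (1 / 2) * ((dv b P p - dw b P p) * F a - (dv a P p - dw a P p) * F b) := by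
  rw [← sum_delta a (dv b P p - dw b P p) F, ← sum_delta b (dv a P p - dw a P p) F,
    ← Finset.sum_sub_distrib, Finset.mul_sum, ← Finset.sum_sub_distrib]
  refine Finset.sum_congr rfl fun l _ => ?_
  rw [dw_RR hP]
  ring

/-- the commutator identity -/
theorem rr_qq {φ : V → ℝ} {P Q : V × V → ℝ} (hφ : ContDiff ℝ (⊤ : ℕ∞) φ)
    (hP : ContDiff ℝ (⊤ : ℕ∞) P) (hQ : ContDiff ℝ (⊤ : ℕ∞) Q) (a b : Fin 3) (p : V × V) :
    RR a b (qq φ P Q) p = qq φ (RR a b P) Q p + qq φ P (RR a b Q) p + q1 φ a b P Q p := by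
  have h1 : ContDiff ℝ (⊤ : ℕ∞) (fun x : V × V => φ x.1) := hφ.comp contDiff_fst
  have h2 : ContDiff ℝ (⊤ : ℕ∞) (fun x : V × V => φ x.2) := hφ.comp contDiff_snd
  have h3l : ∀ l : Fin 3, ContDiff ℝ (⊤ : ℕ∞) (fun p => dv l P p * dv l Q p) := fun l =>
    (smooth_dv hP l).mul (smooth_dv hQ l)
  have h4l : ∀ l : Fin 3, ContDiff ℝ (⊤ : ℕ∞) (fun p => dw l P p * dw l Q p) := fun l =>
    (smooth_dw hP l).mul (smooth_dw hQ l)
  have h3 : ContDiff ℝ (⊤ : ℕ∞) (fun p => ∑ l : Fin 3, dv l P p * dv l Q p) :=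
    ContDiff.sum fun l _ => h3l l
  have h4 : ContDiff ℝ (⊤ : ℕ∞) (fun p => ∑ l : Fin 3, dw l P p * dw l Q p) :=
    ContDiff.sum fun l _ => h4l l
  have e : qq φ P Q = fun x => φ x.1 * (∑ l : Fin 3, dv l P x * dv l Q x) +
      φ x.2 * ∑ l : Fin 3, dw l P x * dw l Q x := rfl
  rw [e, RR_add (h1.mul h3) (h2.mul h4), RR_mul h1 h3, RR_mul h2 h4, RR_sum h3l, RR_sum h4l]
  have e3 : ∀ l, RR a b (fun p => dv l P p * dv l Q p) p =
      dv l P p * RR a b (dv l Q) p + RR a b (dv l P) p * dv l Q p := fun l =>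
    RR_mul (smooth_dv hP l) (smooth_dv hQ l) a b p
  have e4 : ∀ l, RR a b (fun p => dw l P p * dw l Q p) p =
      dw l P p * RR a b (dw l Q) p + RR a b (dw l P) p * dw l Q p := fun l =>
    RR_mul (smooth_dw hP l) (smooth_dw hQ l) a b p
  simp only [e3, e4, Finset.sum_add_distrib]
  have e5 := sum_dv_RR hP a b p (fun l => dv l Q p)
  have e6 := sum_dw_RR hP a b p (fun l => dw l Q p)
  have e7 := sum_dv_RR hQ a b p (fun l => dv l P p)
  have e8 := sum_dw_RR hQ a b p (fun l => dw l P p)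
  have c1 : ∑ l : Fin 3, dv l P p * dv l (RR a b Q) p = ∑ l : Fin 3, dv l (RR a b Q) p * dv l P p :=
    Finset.sum_congr rfl fun l _ => mul_comm _ _
  have c2 : ∑ l : Fin 3, dw l P p * dw l (RR a b Q) p = ∑ l : Fin 3, dw l (RR a b Q) p * dw l P p :=
    Finset.sum_congr rfl fun l _ => mul_comm _ _
  have c3 : ∑ l : Fin 3, dv l P p * RR a b (dv l Q) p = ∑ l : Fin 3, RR a b (dv l Q) p * dv l P p :=
    Finset.sum_congr rfl fun l _ => mul_comm _ _
  have c4 : ∑ l : Fin 3, dw l P p * RR a b (dw l Q) p = ∑ l : Fin 3, RR a b (dw l Q) p * dw l P p :=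
    Finset.sum_congr rfl fun l _ => mul_comm _ _
  unfold qq q1 bt
  rw [c1, c2, c3, c4, e5, e6, e7, e8]
  ring

theorem qq_comm (φ : V → ℝ) (P Q : V × V → ℝ) (p : V × V) : qq φ P Q p = qq φ Q P p := by
  unfold qq
  simp only [mul_comm (dv _ P p), mul_comm (dw _ P p)]

theorem q1_comm (φ : V → ℝ) (P Q : V × V → ℝ) (a b : Fin 3) (p : V × V) :
    q1 φ a b P Q p = q1 φ a b Q P p := by
  have c1 : ∑ l : Fin 3, dv l P p * dv l Q p = ∑ l : Fin 3, dv l Q p * dv l P p :=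
    Finset.sum_congr rfl fun l _ => mul_comm _ _
  have c2 : ∑ l : Fin 3, dw l P p * dw l Q p = ∑ l : Fin 3, dw l Q p * dw l P p :=
    Finset.sum_congr rfl fun l _ => mul_comm _ _
  unfold q1 bt
  rw [c1, c2]
  ring

end Pool.Agent.LandauF
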