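import Pool.Agent.LandauF.NAdm

/-!
# LandauF, module NT2: the commutator term

Notation: `p = (v, w)`, `r = ‖v - w‖`, `B = BB ε ϱ δ`, `F = FF g`, `u = uu g`, `X = gam · g`,
`φ_c = φ(mid)`, `D² = QD g a b v w = ∑_l DX(v,w)² + ∑_l DX(w,v)²`, `En = EN(v,w) + EN(w,v)`.
If `r² > SS` then `eta` and its gradient vanish at `p`, so both sides are `≥ 0` and the left side is `0`.
Otherwise use `near_sizes`, `weight_cmp`, `weight_cmp3` (module NAdm), the explicit formulas of NTrans and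
Young's inequality.  `B ≤ r⁻³`, `kN ϱ v w = 1/r²` on the near zone.

`q1 φ a b u (RR u) = RR φ(v) · ½ ∑ X_l DX_l(v,w) + RR φ(w) · ½ ∑ X*_l DX_l(w,v) - ½ (φ(v) - φ(w)) bt`,
`|bt a b u (RR u)| ≤ (|X| + |X*|) (|DX(v,w)| + |DX(w,v)|)`; `|RR φ(v)| ≤ r max|∂φ(v)|`.  Each term is of
the form `|m| |Y| |DX|` with `Y = X(v)` or `X(w)` and `|m| ≤ 3 r κ(v) φ(v)` if `Y = X(v)`, `|m| ≤ 3 r κ(w) φ(w)` if
`Y = X(w)` (`weight_cmp` from `x = v` or `x = w`).  Young: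
`B F |m| |Y| |DX| ≤ τ' B F φ_c D² + C B F r² κ(v)² φ(v) |Y|²`, and `B r² κ² ≤ κ r⁻² (κ r) ≤ 2 ε₀ κ r⁻²`.
-/

set_option autoImplicit false

namespace Pool.Agent.LandauF

open MeasureTheory Set Filter Topology Pool.Agent.Landau

private theorem young1 {s r k f c m x d : ℝ} (hs : 0 < s) (hf : 0 ≤ f)
    (hc : 0 ≤ c) (hm : |m| ≤ c * (r * (k * f))) :
    |m * (x * d)| ≤ c * (f * (s * d ^ 2 + (r * k) ^ 2 * x ^ 2 / (4 * s))) := by
  have h1 : r * k * |x| * |d| ≤ s * d ^ 2 + (r * k) ^ 2 * x ^ 2 / (4 * s) := by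
    have h2 : 0 ≤ (2 * s * |d| - r * k * |x|) ^ 2 := sq_nonneg _
    have h3 : |d| ^ 2 = d ^ 2 := sq_abs d
    have h4 : |x| ^ 2 = x ^ 2 := sq_abs x
    have h5 : 4 * s * (r * k * |x| * |d|) ≤ 4 * s ^ 2 * d ^ 2 + (r * k) ^ 2 * x ^ 2 := by
      have h6 : (2 * s * |d| - r * k * |x|) ^ 2 =
          4 * s ^ 2 * |d| ^ 2 + (r * k) ^ 2 * |x| ^ 2 - 4 * s * (r * k * |x| * |d|) := by ring
      rw [h6, h3, h4] at h2
      linarith
    have h7 : s * d ^ 2 + (r * k) ^ 2 * x ^ 2 / (4 * s) =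
        (4 * s ^ 2 * d ^ 2 + (r * k) ^ 2 * x ^ 2) / (4 * s) := by
      field_simp
    rw [h7, le_div_iff₀ (by positivity)]
    linarith
  rw [abs_mul, abs_mul]
  have h8 : |m| * (|x| * |d|) ≤ c * (r * (k * f)) * (|x| * |d|) :=
    mul_le_mul_of_nonneg_right hm (by positivity)
  have h9 : c * (r * (k * f)) * (|x| * |d|) = c * (f * (r * k * |x| * |d|)) := by ring
  rw [h9] at h8
  exact h8.trans (mul_le_mul_of_nonneg_left (mul_le_mul_of_nonneg_left h1 hf) hc)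

private theorem core {τ r kv kw fv fw fc : ℝ} (hτ : 0 < τ) (hr : 0 ≤ r) (hkv : 0 ≤ kv)
    (hkw : 0 ≤ kw) (hfv : 0 ≤ fv) (hfw : 0 ≤ fw) (h1 : fv ≤ 2 * fc) (h2 : fw ≤ 2 * fc)
    (X Y D D' : Fin 3 → ℝ) (a b : Fin 3) {Rv Rw : ℝ} (hRv : |Rv| ≤ r * (kv * fv))
    (hRw : |Rw| ≤ r * (kw * fw)) (hfv' : |fv - fw| ≤ 3 * (kv * fv) * r)
    (hfw' : |fv - fw| ≤ 3 * (kw * fw) * r) :
    |Rv * (∑ l : Fin 3, X l * ((1 / 2) * D l)) + Rw * (∑ l : Fin 3, Y l * ((1 / 2) * D' l))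
      - (1 / 2) * (fv - fw) * (Y a * ((1 / 2) * D b) - Y b * ((1 / 2) * D a)
        + (1 / 2) * D' a * X b - (1 / 2) * D' b * X a)| ≤
      τ * (fc * ((∑ l : Fin 3, D l ^ 2) + ∑ l : Fin 3, D' l ^ 2)) +
        (4 / τ) * (r ^ 2 * kv ^ 2 * fv * (∑ l : Fin 3, X l ^ 2) +
          r ^ 2 * kw ^ 2 * fw * ∑ l : Fin 3, Y l ^ 2) := by
  have hs : 0 < τ / 8 := by positivity
  have key : ∀ (f k R : ℝ) (P Q : Fin 3 → ℝ), 0 ≤ f → 0 ≤ k → |R| ≤ r * (k * f) →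
      |R * (∑ l : Fin 3, P l * ((1 / 2) * Q l))| ≤
        (1 / 2) * (f * ((τ / 8) * (∑ l : Fin 3, Q l ^ 2) +
          (r * k) ^ 2 * (∑ l : Fin 3, P l ^ 2) / (4 * (τ / 8)))) := by
    intro f k R P Q hf hk hR
    have e1 : R * (∑ l : Fin 3, P l * ((1 / 2) * Q l)) =
        ∑ l : Fin 3, ((1 / 2) * R) * (P l * Q l) := by
      rw [Finset.mul_sum]
      exact Finset.sum_congr rfl fun l _ => by ring
    have e2 : (1 / 2) * (f * ((τ / 8) * (∑ l : Fin 3, Q l ^ 2) +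
          (r * k) ^ 2 * (∑ l : Fin 3, P l ^ 2) / (4 * (τ / 8)))) =
        ∑ l : Fin 3, (1 / 2) * (f * ((τ / 8) * Q l ^ 2 + (r * k) ^ 2 * P l ^ 2 / (4 * (τ / 8)))) := by
      rw [← Finset.mul_sum, ← Finset.mul_sum, Finset.sum_add_distrib, ← Finset.mul_sum,
        ← Finset.sum_div, ← Finset.mul_sum]
    rw [e1, e2]
    refine (Finset.abs_sum_le_sum_abs _ _).trans (Finset.sum_le_sum fun l _ => ?_)
    refine young1 hs hf (by norm_num) ?_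
    rw [abs_mul, abs_of_pos (by norm_num : (0 : ℝ) < 1 / 2)]
    exact mul_le_mul_of_nonneg_left hR (by norm_num)
  have sing : ∀ (P : Fin 3 → ℝ) (i : Fin 3), P i ^ 2 ≤ ∑ l : Fin 3, P l ^ 2 := fun P i =>
    Finset.single_le_sum (f := fun l => P l ^ 2) (fun l _ => sq_nonneg _) (Finset.mem_univ i)
  have key2 : ∀ (f k : ℝ) (P Q : Fin 3 → ℝ) (i j : Fin 3), 0 ≤ f → 0 ≤ k →
      |fv - fw| ≤ 3 * (k * f) * r →
      |((1 / 4) * (fv - fw)) * (P i * Q j)| ≤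
        (3 / 4) * (f * ((τ / 8) * (∑ l : Fin 3, Q l ^ 2) +
          (r * k) ^ 2 * (∑ l : Fin 3, P l ^ 2) / (4 * (τ / 8)))) := by
    intro f k P Q i j hf hk hR
    refine (young1 (c := 3 / 4) (r := r) (k := k) hs hf (by norm_num) ?_).trans ?_
    · rw [abs_mul, abs_of_pos (by norm_num : (0 : ℝ) < 1 / 4)]
      have : (1 / 4) * |fv - fw| ≤ (1 / 4) * (3 * (k * f) * r) :=
        mul_le_mul_of_nonneg_left hR (by norm_num)
      linarith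
    · have h3 := sing Q j
      have h4 := sing P i
      gcongr
  have t1 := abs_le.1 (key fv kv Rv X D hfv hkv hRv)
  have t2 := abs_le.1 (key fw kw Rw Y D' hfw hkw hRw)
  have t3 := abs_le.1 (key2 fw kw Y D a b hfw hkw hfw')
  have t4 := abs_le.1 (key2 fw kw Y D b a hfw hkw hfw')
  have t5 := abs_le.1 (key2 fv kv X D' b a hfv hkv hfv')
  have t6 := abs_le.1 (key2 fv kv X D' a b hfv hkv hfv')
  obtain ⟨DD, hDD⟩ : ∃ DD, DD = ∑ l : Fin 3, D l ^ 2 := ⟨_, rfl⟩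
  obtain ⟨DE, hDE⟩ : ∃ DE, DE = ∑ l : Fin 3, D' l ^ 2 := ⟨_, rfl⟩
  obtain ⟨XX', hXX⟩ : ∃ XX', XX' = ∑ l : Fin 3, X l ^ 2 := ⟨_, rfl⟩
  obtain ⟨YY, hYY⟩ : ∃ YY, YY = ∑ l : Fin 3, Y l ^ 2 := ⟨_, rfl⟩
  have hDD0 : 0 ≤ DD := by rw [hDD]; exact Finset.sum_nonneg fun l _ => sq_nonneg _
  have hDE0 : 0 ≤ DE := by rw [hDE]; exact Finset.sum_nonneg fun l _ => sq_nonneg _
  rw [← hDD, ← hXX] at t1
  rw [← hDE, ← hYY] at t2
  rw [← hDD, ← hYY] at t3 t4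
  rw [← hDE, ← hXX] at t5 t6
  rw [← hDD, ← hDE, ← hXX, ← hYY]
  have e3 : ∀ k x : ℝ, (r * k) ^ 2 * x / (4 * (τ / 8)) = (2 / τ) * (r ^ 2 * k ^ 2 * x) := by
    intro k x
    field_simp
    ring
  rw [e3] at t1 t2 t3 t4 t5 t6
  have e4 : (4 / τ) * (r ^ 2 * kv ^ 2 * fv * XX' + r ^ 2 * kw ^ 2 * fw * YY) =
      2 * (fv * ((2 / τ) * (r ^ 2 * kv ^ 2 * XX'))) +
        2 * (fw * ((2 / τ) * (r ^ 2 * kw ^ 2 * YY))) := by
    field_simp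
    ring
  rw [e4]
  have e5 : τ * (fc * (DD + DE)) = (τ / 8) * (4 * (2 * fc)) * (DD + DE) := by ring
  have h6 : (τ / 8) * (2 * (fv + fw)) * (DD + DE) ≤ (τ / 8) * (4 * (2 * fc)) * (DD + DE) := by
    have : 2 * (fv + fw) ≤ 4 * (2 * fc) := by linarith
    exact mul_le_mul_of_nonneg_right (mul_le_mul_of_nonneg_left this hs.le) (by linarith)
  have p1 : 0 ≤ fv * ((τ / 8) * DD) := by positivity
  have p2 : 0 ≤ fw * ((τ / 8) * DE) := by positivity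
  have p3 : 0 ≤ fw * ((τ / 8) * DD) := by positivity
  have p4 : 0 ≤ fv * ((τ / 8) * DE) := by positivity
  rw [e5]
  refine le_trans ?_ (add_le_add_left h6 _)
  rw [abs_le]
  constructor
  · nlinarith [t1.1, t2.1, t3.2, t4.1, t5.2, t6.1]
  · nlinarith [t1.2, t2.2, t3.1, t4.2, t5.1, t6.2]

private theorem coord_le (z : V) (i : Fin 3) : |z i| ≤ ‖z‖ := by
  have h := EuclideanSpace.norm_eq z
  have h1 : z i ^ 2 ≤ ∑ j : Fin 3, ‖z j‖ ^ 2 := by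
    have h2 := Finset.single_le_sum (f := fun j : Fin 3 => ‖z j‖ ^ 2)
      (fun _ _ => sq_nonneg _) (Finset.mem_univ i)
    have h3 : ‖z i‖ ^ 2 = z i ^ 2 := by rw [Real.norm_eq_abs, sq_abs]
    rw [← h3]
    exact h2
  rw [h]
  exact Real.abs_le_sqrt h1

private theorem BB_nonneg (ε : ℝ) (ϱ : V → ℝ) (δ : ℝ) (p : V × V) : 0 ≤ BB ε ϱ δ p := by
  unfold BB bet
  have h1 : 0 ≤ rE ε p := Real.sqrt_nonneg _
  have h2 := eta_nonneg ϱ δ p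
  have h3 := Real.pi_pos
  positivity

private theorem BB_le {ε : ℝ} (ϱ : V → ℝ) (δ : ℝ) (p : V × V) (hp : p.1 ≠ p.2) :
    BB ε ϱ δ p * ‖p.1 - p.2‖ ^ 3 ≤ 1 := by
  have hr : 0 < ‖p.1 - p.2‖ := norm_pos_iff.2 (sub_ne_zero.2 hp)
  have h1 : ‖p.1 - p.2‖ ≤ rE ε p := by
    unfold rE
    refine Real.le_sqrt_of_sq_le ?_
    have := sq_nonneg ε
    linarith
  have h2 : 0 < rE ε p := hr.trans_le h1
  have h3 : ‖p.1 - p.2‖ ^ 3 ≤ rE ε p ^ 3 := pow_le_pow_left₀ hr.le h1 3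
  have h4 : (rE ε p ^ 3)⁻¹ * ‖p.1 - p.2‖ ^ 3 ≤ 1 := by
    rw [inv_mul_le_iff₀ (by positivity), mul_one]
    exact h3
  have h5 : (1 / (2 * Real.pi)) ≤ 1 := by
    rw [div_le_one (by positivity)]
    have := Real.pi_gt_three
    linarith
  have h6 := eta_le_one ϱ δ p
  have h7 := eta_nonneg ϱ δ p
  have h8 : 0 ≤ (1 / (2 * Real.pi)) := by positivity
  unfold BB bet
  have h9 : 0 ≤ (rE ε p ^ 3)⁻¹ * ‖p.1 - p.2‖ ^ 3 := by positivity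
  calc 1 / (2 * Real.pi) * (rE ε p ^ 3)⁻¹ * eta ϱ δ p * ‖p.1 - p.2‖ ^ 3 =
      (1 / (2 * Real.pi)) * eta ϱ δ p * ((rE ε p ^ 3)⁻¹ * ‖p.1 - p.2‖ ^ 3) := by ring
    _ ≤ 1 * 1 * 1 := by
        apply mul_le_mul _ h4 h9 (by norm_num)
        exact mul_le_mul h5 h6 h7 (by norm_num)
    _ = 1 := by norm_num

/-- the error density dominates the near error -/
private theorem EN_ge {ε₀ : ℝ} {φ ϱ κ g : V → ℝ} (hA : Adm ε₀ φ ϱ κ) (hg : Dn g) (v w : V)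
    (h : ‖v - w‖ ≤ 2 * ϱ v) :
    φ v * (g v * g w) * x2 g v * (κ v / ‖v - w‖ ^ 2) ≤ EN φ ϱ κ g v w := by
  have h1 : kN ϱ v w = 1 / ‖v - w‖ ^ 2 := if_pos h
  have h2 : 0 ≤ kF ϱ v w := by
    unfold kF
    split_ifs
    · positivity
    · exact le_refl _
  have h3 : 0 ≤ x2 g v := Finset.sum_nonneg fun _ _ => sq_nonneg _
  unfold EN
  rw [h1]
  have h4 := hA.nonneg v
  have h5 := (hg.pos v).le
  have h6 := (hg.pos w).le
  have h7 : 0 ≤ φ v * g v * g w * (x2 g v * (kF ϱ v w / ϱ v ^ 2)) := by positivity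
  have h8 : φ v * g v * g w * (x2 g v * (κ v * (1 / ‖v - w‖ ^ 2) + kF ϱ v w / ϱ v ^ 2)) =
      φ v * (g v * g w) * x2 g v * (κ v / ‖v - w‖ ^ 2) +
        φ v * g v * g w * (x2 g v * (kF ϱ v w / ϱ v ^ 2)) := by ring
  rw [h8]
  linarith

private theorem err_le {ε₀ : ℝ} {φ ϱ κ g : V → ℝ} (hA : Adm ε₀ φ ϱ κ) (hε : ε₀ ≤ 1 / 100)
    (hg : Dn g) {B : ℝ} {v w : V} (hvw : v ≠ w) (h : ‖v - w‖ ≤ 2 * ϱ v) (hB0 : 0 ≤ B)
    (hB : B * ‖v - w‖ ^ 3 ≤ 1) :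
    B * (g v * g w) * (‖v - w‖ ^ 2 * κ v ^ 2 * φ v * x2 g v) ≤ EN φ ϱ κ g v w := by
  refine le_trans ?_ (EN_ge hA hg v w h)
  have hr : 0 < ‖v - w‖ := norm_pos_iff.2 (sub_ne_zero.2 hvw)
  have hx : 0 ≤ x2 g v := Finset.sum_nonneg fun _ _ => sq_nonneg _
  have hφ := hA.nonneg v
  have hgv := (hg.pos v).le
  have hgw := (hg.pos w).le
  have hk := hA.knonneg v
  by_cases h0 : φ v = 0
  · rw [h0]
    simp
  · have h1 := hA.krho v h0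
    have h2 : ‖v - w‖ * κ v ≤ 1 := by
      have : ‖v - w‖ * κ v ≤ 2 * ϱ v * κ v := mul_le_mul_of_nonneg_right h hk
      linarith
    have h3 : B * (‖v - w‖ ^ 2 * κ v ^ 2) ≤ κ v / ‖v - w‖ ^ 2 := by
      rw [le_div_iff₀ (by positivity)]
      have h4 : B * (‖v - w‖ ^ 2 * κ v ^ 2) * ‖v - w‖ ^ 2 =
          (B * ‖v - w‖ ^ 3) * (‖v - w‖ * κ v) * κ v := by ring
      rw [h4]
      have h5 : (B * ‖v - w‖ ^ 3) * (‖v - w‖ * κ v) ≤ 1 * 1 :=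
        mul_le_mul hB h2 (by positivity) (by norm_num)
      have h6 : (B * ‖v - w‖ ^ 3) * (‖v - w‖ * κ v) * κ v ≤ 1 * 1 * κ v :=
        mul_le_mul_of_nonneg_right h5 hk
      linarith
    have h7 : B * (g v * g w) * (‖v - w‖ ^ 2 * κ v ^ 2 * φ v * x2 g v) =
        φ v * (g v * g w) * x2 g v * (B * (‖v - w‖ ^ 2 * κ v ^ 2)) := by ring
    rw [h7]
    exact mul_le_mul_of_nonneg_left h3 (by positivity)

theorem NT2 (τ : ℝ) (hτ : 0 < τ) : ∃ C ε₀ : ℝ, 0 < C ∧ 0 < ε₀ ∧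
    ∀ φ ϱ κ g : V → ℝ, Adm ε₀ φ ϱ κ → Dn g → ∀ (ε δ : ℝ) (a b : Fin 3) (p : V × V),
      0 < ε → 0 < δ → δ < ϱ (mid p.1 p.2) → p.1 ≠ p.2 →
      |BB ε ϱ δ p * FF g p * q1 φ a b (uu g) (RR a b (uu g)) p| ≤
        τ * (BB ε ϱ δ p * FF g p * φ (mid p.1 p.2) * QD g a b p.1 p.2)
          + C * (EN φ ϱ κ g p.1 p.2 + EN φ ϱ κ g p.2 p.1) := by
  refine ⟨4 / τ, 1 / 100, by positivity, by norm_num, ?_⟩
  intro φ ϱ κ g hA hg ε δ a b p hε hδ hm hp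
  have hEN1 := EN_nonneg hA hg p.1 p.2
  have hEN2 := EN_nonneg hA hg p.2 p.1
  have hF : 0 ≤ FF g p := by
    unfold FF
    exact mul_nonneg (hg.pos _).le (hg.pos _).le
  by_cases hz : ‖p.1 - p.2‖ ^ 2 ≤ SS ϱ δ p
  · obtain ⟨-, s1, s2, -, -, -, -, -⟩ := near_sizes le_rfl hA hδ p hm hz
    obtain ⟨w1, w2, -, -, -, -⟩ := weight_cmp3 le_rfl hA hδ p hm hz
    have hsw : ‖p.2 - p.1‖ = ‖p.1 - p.2‖ := norm_sub_rev _ _
    have hself : ∀ x : V, ‖x - x‖ ≤ 2 * ϱ x := fun x => by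
      rw [sub_self, norm_zero]
      have := hA.rnonneg x
      linarith
    obtain ⟨c1, -, c2, -⟩ := weight_cmp le_rfl hA p.1 p.1 p.2 (hself _) (by rw [hsw]; exact s1)
    obtain ⟨d1, -, d2, -⟩ := weight_cmp le_rfl hA p.2 p.2 p.1 (hself _) s2
    rw [hsw, abs_sub_comm] at d1
    have hr : 0 ≤ ‖p.1 - p.2‖ := norm_nonneg _
    have hza : ∀ i : Fin 3, |p.1 i - p.2 i| ≤ ‖p.1 - p.2‖ := fun i => coord_le (p.1 - p.2) i
    have hR : ∀ (x y A : ℝ), |x| ≤ A → |y| ≤ A → ∀ i j : Fin 3,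
        |(1 / 2) * ((p.1 i - p.2 i) * x - (p.1 j - p.2 j) * y)| ≤ ‖p.1 - p.2‖ * A := by
      intro x y A hx hy i j
      have e1 : |(p.1 i - p.2 i) * x| ≤ ‖p.1 - p.2‖ * A := by
        rw [abs_mul]
        exact mul_le_mul (hza i) hx (abs_nonneg _) hr
      have e2 : |(p.1 j - p.2 j) * y| ≤ ‖p.1 - p.2‖ * A := by
        rw [abs_mul]
        exact mul_le_mul (hza j) hy (abs_nonneg _) hr
      rw [abs_le] at e1 e2 ⊢
      constructor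
      · linarith [e1.1, e2.2]
      · linarith [e1.2, e2.1]
    have hR1 : |RR a b (fun x => φ x.1) p| ≤ ‖p.1 - p.2‖ * (κ p.1 * φ p.1) := by
      rw [RR_fst hA.smooth]
      exact hR _ _ _ (c2 b) (c2 a) a b
    have hR2 : |RR a b (fun x => φ x.2) p| ≤ ‖p.1 - p.2‖ * (κ p.2 * φ p.2) := by
      rw [RR_snd hA.smooth, neg_mul, abs_neg]
      exact hR _ _ _ (d2 b) (d2 a) a b
    have hcore := core (τ := τ) hτ hr (hA.knonneg p.1) (hA.knonneg p.2) (hA.nonneg p.1)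
      (hA.nonneg p.2) w1 w2 (fun l => gam l g p.1) (fun l => gam l g p.2)
      (fun l => DX g a b l p.1 p.2) (fun l => DX g a b l p.2 p.1) a b hR1 hR2 c1 d1
    have hq : q1 φ a b (uu g) (RR a b (uu g)) p =
        RR a b (fun x => φ x.1) p * (∑ l : Fin 3, gam l g p.1 * ((1 / 2) * DX g a b l p.1 p.2)) +
        RR a b (fun x => φ x.2) p * (∑ l : Fin 3, gam l g p.2 * ((1 / 2) * DX g a b l p.2 p.1))
        - (1 / 2) * (φ p.1 - φ p.2) * (gam a g p.2 * ((1 / 2) * DX g a b b p.1 p.2)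
          - gam b g p.2 * ((1 / 2) * DX g a b a p.1 p.2)
          + (1 / 2) * DX g a b a p.2 p.1 * gam b g p.1
          - (1 / 2) * DX g a b b p.2 p.1 * gam a g p.1) := by
      unfold q1 bt
      simp only [dv_uu hg, dw_uu hg, dv_RR_uu hg, dw_RR_uu hg]
    have hB0 := BB_nonneg ε ϱ δ p
    have hB1 := BB_le (ε := ε) ϱ δ p hp
    have hBF : 0 ≤ BB ε ϱ δ p * FF g p := mul_nonneg hB0 hF
    rw [abs_mul, abs_of_nonneg hBF, hq]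
    refine (mul_le_mul_of_nonneg_left hcore hBF).trans ?_
    have r1 := err_le hA le_rfl hg hp s1 hB0 hB1
    have r2 := err_le hA le_rfl hg (Ne.symm hp) (by rw [hsw]; exact s2) hB0
      (by rw [hsw]; exact hB1)
    rw [hsw] at r2
    have hx1 : (∑ l : Fin 3, (fun l => gam l g p.1) l ^ 2) = x2 g p.1 := rfl
    have hx2 : (∑ l : Fin 3, (fun l => gam l g p.2) l ^ 2) = x2 g p.2 := rfl
    have hQ : (∑ l : Fin 3, (fun l => DX g a b l p.1 p.2) l ^ 2) +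
        (∑ l : Fin 3, (fun l => DX g a b l p.2 p.1) l ^ 2) = QD g a b p.1 p.2 := rfl
    rw [hx1, hx2, hQ]
    have hFF : FF g p = g p.1 * g p.2 := rfl
    have hFF' : FF g p = g p.2 * g p.1 := by rw [hFF, mul_comm]
    rw [← hFF] at r1
    rw [← hFF'] at r2
    have h4 : 0 ≤ 4 / τ := by positivity
    have r3 := mul_le_mul_of_nonneg_left (add_le_add r1 r2) h4
    have e1 : BB ε ϱ δ p * FF g p * (τ * (φ (mid p.1 p.2) * QD g a b p.1 p.2) +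
        4 / τ * (‖p.1 - p.2‖ ^ 2 * κ p.1 ^ 2 * φ p.1 * x2 g p.1 +
          ‖p.1 - p.2‖ ^ 2 * κ p.2 ^ 2 * φ p.2 * x2 g p.2)) =
        τ * (BB ε ϱ δ p * FF g p * φ (mid p.1 p.2) * QD g a b p.1 p.2) +
        4 / τ * (BB ε ϱ δ p * FF g p * (‖p.1 - p.2‖ ^ 2 * κ p.1 ^ 2 * φ p.1 * x2 g p.1) +
          BB ε ϱ δ p * FF g p * (‖p.1 - p.2‖ ^ 2 * κ p.2 ^ 2 * φ p.2 * x2 g p.2)) := by ring
    rw [e1]
    exact add_le_add_right r3 _
  · have h0 : eta ϱ δ p = 0 := eta_zero hδ (le_of_lt (not_le.1 hz))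
    have h1 : BB ε ϱ δ p = 0 := by
      unfold BB
      rw [h0, mul_zero]
    rw [h1]
    simp only [zero_mul, abs_zero, mul_zero, zero_add]
    have h4 : 0 ≤ 4 / τ := by positivity
    exact mul_nonneg h4 (add_nonneg hEN1 hEN2)

end Pool.Agent.LandauF
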