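import Pool.Agent.LandauF.NAdm

/-!
# LandauF, module NT3: the second order commutator term

Notation: `p = (v, w)`, `r = ‖v - w‖`, `B = BB ε ϱ δ`, `F = FF g`, `u = uu g`, `X = gam · g`,
`φ_c = φ(mid)`, `D² = QD g a b v w = ∑_l DX(v,w)² + ∑_l DX(w,v)²`, `En = EN(v,w) + EN(w,v)`.
If `r² > SS` then `eta` and its gradient vanish at `p`, so both sides are `≥ 0` and the left side is `0`.
Otherwise use `near_sizes`, `weight_cmp`, `weight_cmp3` (module NAdm), the explicit formulas of NTrans and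
Young's inequality.  `B ≤ r⁻³`, `kN ϱ v w = 1/r²` on the near zone.

Formula `RR_q1_uu` of NTrans.  `|RR RR φ(v)| ≤ r² max|∂²φ(v)| + r max|∂φ(v)| ≤ 3 r κ(v) φ(v)`
(`r ≤ 2 ϱ(v)`), so this part is `≤ C B F r κ φ |X|² ≤ C κ φ F r⁻² |X|²`.  The other parts are products of
`RR φ = O(r κ φ)` or `φ(v) - φ(w) = O(r κ φ)` with `|Y| |Y'|` or with `|Y| |RR X|`,
`|RR X| ≤ |DX| + |X(v)| + |X(w)|` (`RR_gam_fst`, `RR_gam_snd`); for `|Y| |Y'| ≤ ½ |Y|² + ½ |Y'|²` use for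
each square the bound of the coefficient seen from the point where `Y` lives (`weight_cmp`); for
`|Y| |DX|` Young as in NT2.
-/

set_option autoImplicit false

namespace Pool.Agent.LandauF

open MeasureTheory Set Filter Topology Pool.Agent.Landau

/-- product estimate (Young) -/
theorem nt3_young {t x y DQ Z : ℝ} (ht : 0 < t) (hx : x ^ 2 ≤ Z) (hy : y ^ 2 ≤ (1 / 2) * DQ + 4 * Z) :
    |x * y| ≤ (1 / 2) * DQ * t + (4 * t + 1 / (4 * t)) * Z := by
  have h1 : |x * y| ≤ t * y ^ 2 + 1 / (4 * t) * x ^ 2 := by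
    have h2 : 0 ≤ (2 * t * |y| - |x|) ^ 2 / (4 * t) := by positivity
    have h3 : (2 * t * |y| - |x|) ^ 2 / (4 * t) = t * |y| ^ 2 + 1 / (4 * t) * |x| ^ 2 - |x| * |y| := by
      field_simp
      ring
    rw [h3, sq_abs, sq_abs] at h2
    rw [abs_mul]
    linarith
  have h4 : t * y ^ 2 ≤ t * ((1 / 2) * DQ + 4 * Z) := mul_le_mul_of_nonneg_left hy ht.le
  have h5 : 1 / (4 * t) * x ^ 2 ≤ 1 / (4 * t) * Z := mul_le_mul_of_nonneg_left hx (by positivity)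
  nlinarith

/-- square of a rotated score component -/
theorem nt3_sq {D k1 k2 xa xb ya yb DQ Z : ℝ} (s : ℝ) (hs : s = 1 ∨ s = -1)
    (hk1 : k1 = 0 ∨ k1 = 1) (hk2 : k2 = 0 ∨ k2 = 1)
    (hD : D ^ 2 ≤ DQ) (h : xa ^ 2 + xb ^ 2 + ya ^ 2 + yb ^ 2 ≤ 2 * Z) :
    ((1 / 2) * D - s * ((1 / 2) * (k1 * (xb - yb) - k2 * (xa - ya)))) ^ 2 ≤
      (1 / 2) * DQ + 4 * Z := by
  have hz : 0 ≤ Z := by nlinarith [sq_nonneg xa, sq_nonneg xb, sq_nonneg ya, sq_nonneg yb]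
  have h1 : ((1 / 2) * D - s * ((1 / 2) * (k1 * (xb - yb) - k2 * (xa - ya)))) ^ 2 ≤
      (1 / 2) * D ^ 2 + (1 / 2) * (s ^ 2 * (k1 * (xb - yb) - k2 * (xa - ya)) ^ 2) := by
    nlinarith [sq_nonneg (D + s * (k1 * (xb - yb) - k2 * (xa - ya)))]
  have hs2 : s ^ 2 = 1 := by rcases hs with h | h <;> rw [h] <;> norm_num
  have h2 : (k1 * (xb - yb) - k2 * (xa - ya)) ^ 2 ≤ 4 * (xa ^ 2 + xb ^ 2 + ya ^ 2 + yb ^ 2) := by
    rcases hk1 with e1 | e1 <;> rcases hk2 with e2 | e2 <;> rw [e1, e2] <;>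
      nlinarith [sq_nonneg (xa + ya), sq_nonneg (xb + yb), sq_nonneg (xa - ya), sq_nonneg (xb - yb),
        sq_nonneg ((xb - yb) + (xa - ya)), sq_nonneg xa, sq_nonneg xb, sq_nonneg ya, sq_nonneg yb]
  rw [hs2] at h1
  linarith

theorem nt3_mul {R K c x y : ℝ} (hR : |x| ≤ c * R) (hR0 : 0 ≤ c * R) (hy : |y| ≤ K) :
    |x * y| ≤ c * R * K := by
  rw [abs_mul]
  exact mul_le_mul hR hy (abs_nonneg _) hR0

theorem nt3_kd (i j : Fin 3) : kd i j = 0 ∨ kd i j = 1 := by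
  unfold kd
  split_ifs
  · right; rfl
  · left; rfl

/-- the algebraic estimate -/
theorem nt3_alg {t R DQ Z R1 R2 P1 P2 Dl xv xw : ℝ} {X Y G H : Fin 3 → ℝ} (a b : Fin 3)
    (ht : 0 < t) (hR : 0 ≤ R) (hDQ : 0 ≤ DQ)
    (hZ : Z = xv + xw) (hxv : ∀ i, X i ^ 2 ≤ xv) (hxw : ∀ i, Y i ^ 2 ≤ xw)
    (hG : ∀ i, G i ^ 2 ≤ (1 / 2) * DQ + 4 * Z) (hH : ∀ i, H i ^ 2 ≤ (1 / 2) * DQ + 4 * Z)
    (h1 : |R1| ≤ 3 * R) (h2 : |R2| ≤ 3 * R) (h3 : |P1| ≤ 1 * R) (h4 : |P2| ≤ 1 * R)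
    (h5 : |Dl| ≤ 3 * R) :
    |R1 * xv + R2 * xw + 2 * P1 * (∑ l : Fin 3, X l * G l) + 2 * P2 * (∑ l : Fin 3, Y l * H l)
      - (P1 - P2) * (Y a * X b - Y b * X a)
      - Dl * (H a * X b + Y a * G b - H b * X a - Y b * G a)| ≤
      R * (12 * t * DQ + (7 + 96 * t + 6 / t) * Z) := by
  have hv0 : 0 ≤ xv := le_trans (sq_nonneg _) (hxv 0)
  have hw0 : 0 ≤ xw := le_trans (sq_nonneg _) (hxw 0)
  have hX : ∀ i, X i ^ 2 ≤ Z := fun i => by rw [hZ]; linarith [hxv i]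
  have hY : ∀ i, Y i ^ 2 ≤ Z := fun i => by rw [hZ]; linarith [hxw i]
  set K : ℝ := (1 / 2) * DQ * t + (4 * t + 1 / (4 * t)) * Z with hK
  have a1 : |R1 * xv| ≤ 3 * R * xv :=
    nt3_mul h1 (by linarith) (by rw [abs_of_nonneg hv0])
  have a2 : |R2 * xw| ≤ 3 * R * xw :=
    nt3_mul h2 (by linarith) (by rw [abs_of_nonneg hw0])
  have b1 : |∑ l : Fin 3, X l * G l| ≤ 3 * K := by
    refine (Finset.abs_sum_le_sum_abs _ _).trans ?_
    refine (Finset.sum_le_sum (fun l _ => nt3_young ht (hX l) (hG l))).trans ?_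
    simp
    exact le_of_eq (by rw [hK]; ring)
  have b2 : |∑ l : Fin 3, Y l * H l| ≤ 3 * K := by
    refine (Finset.abs_sum_le_sum_abs _ _).trans ?_
    refine (Finset.sum_le_sum (fun l _ => nt3_young ht (hY l) (hH l))).trans ?_
    simp
    exact le_of_eq (by rw [hK]; ring)
  have a3 := nt3_mul h3 (by linarith) b1
  have a4 := nt3_mul h4 (by linarith) b2
  have b3 : |Y a * X b - Y b * X a| ≤ 2 * Z := by
    rw [abs_le]
    constructor <;>
      nlinarith [sq_nonneg (Y a - X b), sq_nonneg (Y a + X b), sq_nonneg (Y b - X a),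
        sq_nonneg (Y b + X a), hxv a, hxv b, hxw a, hxw b]
  have b4 : |P1 - P2| ≤ 2 * R := by
    rw [abs_le] at h3 h4 ⊢
    constructor <;> linarith
  have a5 := nt3_mul b4 (by linarith) b3
  have c1 : |X b * H a| ≤ K := nt3_young ht (hX b) (hH a)
  have c2 : |Y a * G b| ≤ K := nt3_young ht (hY a) (hG b)
  have c3 : |X a * H b| ≤ K := nt3_young ht (hX a) (hH b)
  have c4 : |Y b * G a| ≤ K := nt3_young ht (hY b) (hG a)
  have b5 : |H a * X b + Y a * G b - H b * X a - Y b * G a| ≤ 4 * K := by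
    rw [abs_le] at c1 c2 c3 c4 ⊢
    constructor <;> linarith
  have a6 := nt3_mul h5 (by linarith) b5
  have hfin : 3 * R * xv + 3 * R * xw + 2 * (1 * R * (3 * K)) + 2 * (1 * R * (3 * K)) + 2 * R * (2 * Z)
      + 3 * R * (4 * K) = R * (12 * t * DQ + (7 + 96 * t + 6 / t) * Z) := by
    rw [hK, hZ]
    field_simp
    ring
  rw [← hfin]
  rw [abs_le] at a1 a2 a3 a4 a5 a6 ⊢
  constructor <;> linarith

/-- the regularised kernel is at most `r⁻³` -/
theorem nt3_BB_le {ε δ : ℝ} (ϱ : V → ℝ) (hε : 0 < ε) (p : V × V) (hp : p.1 ≠ p.2) :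
    0 ≤ BB ε ϱ δ p ∧ BB ε ϱ δ p ≤ (‖p.1 - p.2‖ ^ 3)⁻¹ := by
  have hr : 0 < ‖p.1 - p.2‖ := norm_pos_iff.mpr (sub_ne_zero.mpr hp)
  have h1 : ‖p.1 - p.2‖ ≤ rE ε p := by
    unfold rE
    apply Real.le_sqrt_of_sq_le
    nlinarith [sq_nonneg ε]
  have h2 : (rE ε p ^ 3)⁻¹ ≤ (‖p.1 - p.2‖ ^ 3)⁻¹ := by
    apply inv_anti₀ (by positivity)
    exact pow_le_pow_left₀ hr.le h1 3
  have h3 : 0 ≤ (rE ε p ^ 3)⁻¹ := by
    have : 0 < rE ε p := lt_of_lt_of_le hr h1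
    positivity
  have hpi : 1 / (2 * Real.pi) ≤ 1 := by
    rw [div_le_one (by positivity)]
    nlinarith [Real.pi_gt_three]
  have hpi0 : 0 ≤ 1 / (2 * Real.pi) := by positivity
  have hb0 : 0 ≤ bet ε p := mul_nonneg hpi0 h3
  have hb1 : bet ε p ≤ (‖p.1 - p.2‖ ^ 3)⁻¹ := by
    unfold bet
    calc 1 / (2 * Real.pi) * (rE ε p ^ 3)⁻¹ ≤ 1 * (rE ε p ^ 3)⁻¹ :=
          mul_le_mul_of_nonneg_right hpi h3
      _ ≤ _ := by rw [one_mul]; exact h2
  have he0 := eta_nonneg ϱ δ p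
  have he1 := eta_le_one ϱ δ p
  constructor
  · exact mul_nonneg hb0 he0
  · unfold BB
    calc bet ε p * eta ϱ δ p ≤ bet ε p * 1 := mul_le_mul_of_nonneg_left he1 hb0
      _ ≤ _ := by rw [mul_one]; exact hb1

/-- lower bound of the error density on the near zone -/
theorem nt3_EN {ε₀ : ℝ} {φ ϱ κ g : V → ℝ} (hA : Adm ε₀ φ ϱ κ) (hg : Dn g) (v w : V)
    (h : ‖v - w‖ ≤ 2 * ϱ v) :
    κ v * φ v * (1 / ‖v - w‖ ^ 2) * (g v * g w) * x2 g v ≤ EN φ ϱ κ g v w := by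
  have hx : 0 ≤ x2 g v := Finset.sum_nonneg (fun i _ => sq_nonneg _)
  have hk : 0 ≤ kF ϱ v w / ϱ v ^ 2 := by
    unfold kF
    split_ifs <;> positivity
  have hF : 0 ≤ φ v * g v * g w :=
    mul_nonneg (mul_nonneg (hA.nonneg v) (hg.pos v).le) (hg.pos w).le
  have h1 : φ v * g v * g w * (x2 g v * (κ v * kN ϱ v w)) ≤ EN φ ϱ κ g v w := by
    unfold EN
    apply mul_le_mul_of_nonneg_left _ hF
    apply mul_le_mul_of_nonneg_left _ hx
    linarith
  have h2 : kN ϱ v w = 1 / ‖v - w‖ ^ 2 := by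
    unfold kN
    rw [if_pos h]
  rw [h2] at h1
  calc _ = φ v * g v * g w * (x2 g v * (κ v * (1 / ‖v - w‖ ^ 2))) := by ring
    _ ≤ _ := h1

theorem nt3_coord (z : V) (i : Fin 3) : |z i| ≤ ‖z‖ := by
  have := EuclideanSpace.norm_eq z
  rw [this]
  apply Real.abs_le_sqrt
  have h : ‖z i‖ ^ 2 ≤ ∑ j : Fin 3, ‖z j‖ ^ 2 :=
    Finset.single_le_sum (f := fun j => ‖z j‖ ^ 2) (fun j _ => sq_nonneg _) (Finset.mem_univ i)
  rw [Real.norm_eq_abs, sq_abs] at h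
  exact h

/-- rotation derivative of a weight: first order size -/
theorem nt3_rot {za zb da db r m : ℝ} (s : ℝ) (hs : s = 1 ∨ s = -1) (h1 : |za| ≤ r) (h2 : |zb| ≤ r)
    (h3 : |da| ≤ m) (h4 : |db| ≤ m) : |s * (1 / 2) * (za * db - zb * da)| ≤ 1 * (r * m) := by
  have hr : 0 ≤ r := le_trans (abs_nonneg _) h1
  have e1 : |za * db| ≤ r * m := by
    rw [abs_mul]; exact mul_le_mul h1 h4 (abs_nonneg _) hr
  have e2 : |zb * da| ≤ r * m := by
    rw [abs_mul]; exact mul_le_mul h2 h3 (abs_nonneg _) hr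
  rw [abs_le] at e1 e2
  rcases hs with h | h <;> rw [h, abs_le] <;> constructor <;> linarith

theorem NT3 (τ : ℝ) (hτ : 0 < τ) : ∃ C ε₀ : ℝ, 0 < C ∧ 0 < ε₀ ∧
    ∀ φ ϱ κ g : V → ℝ, Adm ε₀ φ ϱ κ → Dn g → ∀ (ε δ : ℝ) (a b : Fin 3) (p : V × V),
      0 < ε → 0 < δ → δ < ϱ (mid p.1 p.2) → p.1 ≠ p.2 →
      |(1 / 2) * (BB ε ϱ δ p * FF g p * RR a b (q1 φ a b (uu g) (uu g)) p)| ≤
        τ * (BB ε ϱ δ p * FF g p * φ (mid p.1 p.2) * QD g a b p.1 p.2)
          + C * (EN φ ϱ κ g p.1 p.2 + EN φ ϱ κ g p.2 p.1) := by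
  refine ⟨(1 / 2) * (7 + 96 * (τ / 6) + 6 / (τ / 6)), 1 / 100, by positivity, by norm_num, ?_⟩
  intro φ ϱ κ g hA hg ε δ a b p hε hδ hδm hne
  have hEN1 := EN_nonneg hA hg p.1 p.2
  have hEN2 := EN_nonneg hA hg p.2 p.1
  have hC : 0 < (1 / 2) * (7 + 96 * (τ / 6) + 6 / (τ / 6)) := by positivity
  by_cases hcase : SS ϱ δ p ≤ ‖p.1 - p.2‖ ^ 2
  · have h0 : BB ε ϱ δ p = 0 := by
      unfold BB
      rw [eta_zero hδ hcase, mul_zero]
    rw [h0]
    simp only [zero_mul, mul_zero, abs_zero, zero_add]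
    positivity
  push Not at hcase
  obtain ⟨-, hr1, hr2, hr3, -, -, -, -⟩ := near_sizes (le_refl _) hA hδ p hδm hcase.le
  obtain ⟨hc1, hc2, hc3, hc4, -, -⟩ := weight_cmp3 (le_refl _) hA hδ p hδm hcase.le
  set v := p.1 with hv
  set w := p.2 with hw
  set r := ‖v - w‖ with hrdef
  have hr : 0 < r := norm_pos_iff.mpr (sub_ne_zero.mpr hne)
  have hrv : 0 < ϱ v := by linarith
  have hrw : 0 < ϱ w := by linarith
  have hvv : ‖v - v‖ ≤ 2 * ϱ v := by rw [sub_self, norm_zero]; linarith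
  have hww : ‖w - w‖ ≤ 2 * ϱ w := by rw [sub_self, norm_zero]; linarith
  have hwv : ‖w - v‖ ≤ 2 * ϱ v := by rw [norm_sub_rev]; exact hr1
  obtain ⟨dv1, -, dv2, dv3⟩ := weight_cmp (le_refl _) hA v v w hvv hwv
  obtain ⟨-, -, dv4, dv5⟩ := weight_cmp (le_refl _) hA v w v hwv hvv
  obtain ⟨dw1, -, dw2, dw3⟩ := weight_cmp (le_refl _) hA w v w hr2 hww
  obtain ⟨-, -, dw4, dw5⟩ := weight_cmp (le_refl _) hA w w v hww hr2
  set Av := κ v * φ v with hAv
  set Aw := κ w * φ w with hAw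
  have hAv0 : 0 ≤ Av := mul_nonneg (hA.knonneg v) (hA.nonneg v)
  have hAw0 : 0 ≤ Aw := mul_nonneg (hA.knonneg w) (hA.nonneg w)
  set m := min Av Aw with hm
  have hm0 : 0 ≤ m := le_min hAv0 hAw0
  have hmv : m ≤ Av := min_le_left _ _
  have hmw : m ≤ Aw := min_le_right _ _
  have hd : |φ v - φ w| ≤ 3 * (r * m) := by
    rcases min_choice Av Aw with e | e
    · rw [hm, e]; linarith
    · rw [hm, e]; linarith
  have hp1 : ∀ i, |pd i φ v| ≤ m := fun i => le_min (dv2 i) (dw2 i)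
  have hp2 : ∀ i, |pd i φ w| ≤ m := fun i => le_min (dv4 i) (dw4 i)
  have hq : ∀ y : V, (∀ i j : Fin 3, |pd i (pd j φ) y| * ϱ v ≤ Av) →
      (∀ i j : Fin 3, |pd i (pd j φ) y| * ϱ w ≤ Aw) → ∀ i j : Fin 3, |pd i (pd j φ) y| ≤ 2 * m / r := by
    intro y h1 h2 i j
    rw [le_div_iff₀ hr]
    have e0 := abs_nonneg (pd i (pd j φ) y)
    have e1 : |pd i (pd j φ) y| * r ≤ 2 * Av := by
      calc _ ≤ |pd i (pd j φ) y| * (2 * ϱ v) := mul_le_mul_of_nonneg_left hr1 e0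
        _ = 2 * (|pd i (pd j φ) y| * ϱ v) := by ring
        _ ≤ _ := by linarith [h1 i j]
    have e2 : |pd i (pd j φ) y| * r ≤ 2 * Aw := by
      calc _ ≤ |pd i (pd j φ) y| * (2 * ϱ w) := mul_le_mul_of_nonneg_left hr2 e0
        _ = 2 * (|pd i (pd j φ) y| * ϱ w) := by ring
        _ ≤ _ := by linarith [h2 i j]
    rcases min_choice Av Aw with e | e
    · rw [hm, e]; exact e1
    · rw [hm, e]; exact e2
  have hs1 := RR2_fst_le hA.smooth a b p m (2 * m / r) hp1 (hq v dv3 dw3)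
  have hs2 := RR2_snd_le hA.smooth a b p m (2 * m / r) hp2 (hq w dv5 dw5)
  have hs3 : r ^ 2 * (2 * m / r) + r * m = 3 * (r * m) := by
    field_simp
    ring
  rw [← hv, ← hw, ← hrdef, hs3] at hs1 hs2
  have hza : ∀ i : Fin 3, |v i - w i| ≤ r := fun i => by
    have := nt3_coord (v - w) i
    simpa using this
  have hP1 : |RR a b (fun x => φ x.1) p| ≤ 1 * (r * m) := by
    rw [RR_fst hA.smooth]
    have := nt3_rot 1 (Or.inl rfl) (hza a) (hza b) (hp1 a) (hp1 b)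
    rw [one_mul] at this
    exact this
  have hP2 : |RR a b (fun x => φ x.2) p| ≤ 1 * (r * m) := by
    rw [RR_snd hA.smooth]
    have := nt3_rot (-1) (Or.inr rfl) (hza a) (hza b) (hp2 a) (hp2 b)
    rw [neg_one_mul] at this
    exact this
  set DQ := QD g a b v w with hDQ
  have hDQ0 : 0 ≤ DQ := by
    rw [hDQ]
    unfold QD
    exact add_nonneg (Finset.sum_nonneg (fun i _ => sq_nonneg _)) (Finset.sum_nonneg (fun i _ => sq_nonneg _))
  have hD1 : ∀ l, DX g a b l v w ^ 2 ≤ DQ := by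
    intro l
    rw [hDQ]
    unfold QD
    have e1 : DX g a b l v w ^ 2 ≤ ∑ l : Fin 3, DX g a b l v w ^ 2 :=
      Finset.single_le_sum (f := fun l => DX g a b l v w ^ 2) (fun j _ => sq_nonneg _) (Finset.mem_univ l)
    have e2 : 0 ≤ ∑ l : Fin 3, DX g a b l w v ^ 2 := Finset.sum_nonneg (fun i _ => sq_nonneg _)
    linarith
  have hD2 : ∀ l, DX g a b l w v ^ 2 ≤ DQ := by
    intro l
    rw [hDQ]
    unfold QD
    have e1 : DX g a b l w v ^ 2 ≤ ∑ l : Fin 3, DX g a b l w v ^ 2 :=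
      Finset.single_le_sum (f := fun l => DX g a b l w v ^ 2) (fun j _ => sq_nonneg _) (Finset.mem_univ l)
    have e2 : 0 ≤ ∑ l : Fin 3, DX g a b l v w ^ 2 := Finset.sum_nonneg (fun i _ => sq_nonneg _)
    linarith
  have hX : ∀ (y : V) (i : Fin 3), gam i g y ^ 2 ≤ x2 g y := fun y i =>
    Finset.single_le_sum (f := fun j => gam j g y ^ 2) (fun j _ => sq_nonneg _) (Finset.mem_univ i)
  have hx0 : ∀ y : V, 0 ≤ x2 g y := fun y => Finset.sum_nonneg (fun i _ => sq_nonneg _)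
  set Z := x2 g v + x2 g w with hZ
  have hsum : gam a g v ^ 2 + gam b g v ^ 2 + gam a g w ^ 2 + gam b g w ^ 2 ≤ 2 * Z := by
    rw [hZ]
    linarith [hX v a, hX v b, hX w a, hX w b]
  have hG : ∀ l, RR a b (fun x => gam l g x.1) p ^ 2 ≤ (1 / 2) * DQ + 4 * Z := by
    intro l
    rw [RR_gam_fst hg]
    have := nt3_sq 1 (Or.inl rfl) (nt3_kd l a) (nt3_kd l b) (hD1 l) hsum
    rw [one_mul] at this
    exact this
  have hH : ∀ l, RR a b (fun x => gam l g x.2) p ^ 2 ≤ (1 / 2) * DQ + 4 * Z := by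
    intro l
    rw [RR_gam_snd hg]
    have := nt3_sq (-1) (Or.inr rfl) (nt3_kd l a) (nt3_kd l b) (hD2 l) hsum
    rw [neg_one_mul, sub_neg_eq_add] at this
    exact this
  have hrm : 0 ≤ r * m := mul_nonneg hr.le hm0
  have hmain := nt3_alg (X := fun l => gam l g v) (Y := fun l => gam l g w)
    (G := fun l => RR a b (fun x => gam l g x.1) p) (H := fun l => RR a b (fun x => gam l g x.2) p)
    a b (t := τ / 6) (by positivity) hrm hDQ0 hZ (hX v) (hX w) hG hH hs1 hs2 hP1 hP2 hd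
  have heq := RR_q1_uu hA.smooth hg a b p
  rw [← hv, ← hw] at heq
  rw [← heq] at hmain
  obtain ⟨hB0, hB1⟩ := nt3_BB_le (δ := δ) ϱ hε p hne
  rw [← hv, ← hw, ← hrdef] at hB1
  have hFdef : FF g p = g v * g w := rfl
  have hF0 : 0 ≤ FF g p := by
    rw [hFdef]
    exact mul_nonneg (hg.pos v).le (hg.pos w).le
  have hφc := hA.nonneg (mid v w)
  have hRc : r * m ≤ φ (mid v w) := by
    by_cases hz : φ v = 0
    · have : Av = 0 := by rw [hAv, hz, mul_zero]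
      have hm1 : m = 0 := le_antisymm (by rw [← this]; exact hmv) hm0
      rw [hm1, mul_zero]
      exact hφc
    · have e1 := hA.krho v hz
      have e2 := hA.knonneg v
      have e3 := hA.nonneg v
      calc r * m ≤ r * Av := mul_le_mul_of_nonneg_left hmv hr.le
        _ ≤ (2 * ϱ v) * Av := mul_le_mul_of_nonneg_right hr1 hAv0
        _ = 2 * (κ v * ϱ v) * φ v := by rw [hAv]; ring
        _ ≤ 2 * (1 / 100) * φ v := by
            apply mul_le_mul_of_nonneg_right _ e3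
            linarith
        _ ≤ 2 * (1 / 100) * (2 * φ (mid v w)) := by
            apply mul_le_mul_of_nonneg_left hc1
            norm_num
        _ ≤ _ := by linarith
  have hBr : BB ε ϱ δ p * r ≤ 1 / r ^ 2 := by
    calc BB ε ϱ δ p * r ≤ (r ^ 3)⁻¹ * r := mul_le_mul_of_nonneg_right hB1 hr.le
      _ = 1 / r ^ 2 := by field_simp
  have hE1 : BB ε ϱ δ p * FF g p * (r * m) * x2 g v ≤ EN φ ϱ κ g v w := by
    refine le_trans ?_ (nt3_EN hA hg v w hr1)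
    rw [← hrdef, ← hAv, ← hFdef]
    calc BB ε ϱ δ p * FF g p * (r * m) * x2 g v = (BB ε ϱ δ p * r) * m * FF g p * x2 g v := by ring
      _ ≤ (1 / r ^ 2) * m * FF g p * x2 g v := by
          apply mul_le_mul_of_nonneg_right _ (hx0 v)
          apply mul_le_mul_of_nonneg_right _ hF0
          exact mul_le_mul_of_nonneg_right hBr hm0
      _ ≤ (1 / r ^ 2) * Av * FF g p * x2 g v := by
          apply mul_le_mul_of_nonneg_right _ (hx0 v)
          apply mul_le_mul_of_nonneg_right _ hF0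
          exact mul_le_mul_of_nonneg_left hmv (by positivity)
      _ = Av * (1 / r ^ 2) * FF g p * x2 g v := by ring
  have hE2 : BB ε ϱ δ p * FF g p * (r * m) * x2 g w ≤ EN φ ϱ κ g w v := by
    refine le_trans ?_ (nt3_EN hA hg w v (by rw [norm_sub_rev]; exact hr2))
    rw [norm_sub_rev w v, ← hrdef, ← hAw, mul_comm (g w) (g v), ← hFdef]
    calc BB ε ϱ δ p * FF g p * (r * m) * x2 g w = (BB ε ϱ δ p * r) * m * FF g p * x2 g w := by ring
      _ ≤ (1 / r ^ 2) * m * FF g p * x2 g w := by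
          apply mul_le_mul_of_nonneg_right _ (hx0 w)
          apply mul_le_mul_of_nonneg_right _ hF0
          exact mul_le_mul_of_nonneg_right hBr hm0
      _ ≤ (1 / r ^ 2) * Aw * FF g p * x2 g w := by
          apply mul_le_mul_of_nonneg_right _ (hx0 w)
          apply mul_le_mul_of_nonneg_right _ hF0
          exact mul_le_mul_of_nonneg_left hmw (by positivity)
      _ = Aw * (1 / r ^ 2) * FF g p * x2 g w := by ring
  have hBF : 0 ≤ BB ε ϱ δ p * FF g p := mul_nonneg hB0 hF0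
  have hfirst : BB ε ϱ δ p * FF g p * (r * m) * DQ ≤ BB ε ϱ δ p * FF g p * φ (mid v w) * DQ := by
    apply mul_le_mul_of_nonneg_right _ hDQ0
    exact mul_le_mul_of_nonneg_left hRc hBF
  have habs : |(1 / 2) * (BB ε ϱ δ p * FF g p * RR a b (q1 φ a b (uu g) (uu g)) p)| =
      (1 / 2) * (BB ε ϱ δ p * FF g p * |RR a b (q1 φ a b (uu g) (uu g)) p|) := by
    rw [abs_mul, abs_mul, abs_of_nonneg hBF]
    norm_num
  rw [habs]
  have h6 : BB ε ϱ δ p * FF g p * |RR a b (q1 φ a b (uu g) (uu g)) p| ≤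
      BB ε ϱ δ p * FF g p * (r * m * (12 * (τ / 6) * DQ + (7 + 96 * (τ / 6) + 6 / (τ / 6)) * Z)) :=
    mul_le_mul_of_nonneg_left hmain hBF
  set Cc := 7 + 96 * (τ / 6) + 6 / (τ / 6) with hCc
  have hCc0 : 0 < Cc := by positivity
  calc (1 / 2) * (BB ε ϱ δ p * FF g p * |RR a b (q1 φ a b (uu g) (uu g)) p|)
      ≤ (1 / 2) * (BB ε ϱ δ p * FF g p * (r * m * (12 * (τ / 6) * DQ + Cc * Z))) := by linarith
    _ = τ * (BB ε ϱ δ p * FF g p * (r * m) * DQ)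
        + (1 / 2) * Cc * (BB ε ϱ δ p * FF g p * (r * m) * x2 g v
          + BB ε ϱ δ p * FF g p * (r * m) * x2 g w) := by rw [hZ]; ring
    _ ≤ τ * (BB ε ϱ δ p * FF g p * φ (mid v w) * DQ)
        + (1 / 2) * Cc * (EN φ ϱ κ g v w + EN φ ϱ κ g w v) := by
          apply add_le_add
          · exact mul_le_mul_of_nonneg_left hfirst hτ.le
          · apply mul_le_mul_of_nonneg_left _ (by positivity)
            exact add_le_add hE1 hE2

end Pool.Agent.LandauF
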