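import Pool.Agent.LandauF.NAdm

/-!
# LandauF, module NT4: the radial derivative of the kernel

Notation: `p = (v, w)`, `r = ‖v - w‖`, `B = BB ε ϱ δ`, `F = FF g`, `u = uu g`, `X = gam · g`,
`φ_c = φ(mid)`, `D² = QD g a b v w = ∑_l DX(v,w)² + ∑_l DX(w,v)²`, `En = EN(v,w) + EN(w,v)`.
If `r² > SS` then `eta` and its gradient vanish at `p`, so both sides are `≥ 0` and the left side is `0`.
Otherwise use `near_sizes`, `weight_cmp`, `weight_cmp3` (module NAdm), the explicit formulas of NTrans and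
Young's inequality.  `B ≤ r⁻³`, `kN ϱ v w = 1/r²` on the near zone.

`qq φ (RR u) B = φ(v) ∑ ½ DX_l(v,w) dv l B + φ(w) ∑ ½ DX_l(w,v) dw l B`,
`dv l B = -3 z_l rE⁻² B + bet · dv l eta`, `dw l B = 3 z_l rE⁻² B + bet · dw l eta` (module NCut), `RR u = ½ XX`.
(1) with `φ(v), φ(w)` replaced by `φ_c` the terms without `∇ eta` give exactly
`(3/4) B F φ_c rE⁻² XX ∑ z_l XL_l`;
(2) the difference is at most `C B F r⁻¹ |XX| |φ(v) - φ_c| |DX|`, `|XX| ≤ 2 r (|X| + |X*|)`, Young, and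
`|φ(v) - φ_c|² / φ_c ≤ C r² κ² φ` seen from `v` for the part with `|X(v)|²`, from `w` for the part with
`|X(w)|²`; `B r² κ² ≤ κ r⁻² (κ r)`;
(3) the terms with `∇ eta`: `|∇ eta| ≤ C √eta / √SS` and `r² ≥ SS/4` there, so
`F bet |XX| φ |DX| |∇ eta| ≤ τ' B F φ_c D² + C F bet φ XX² / SS`, and `bet XX²/SS ≤ C r⁻³ (|X|² + |X*|²)`,
`ϱ(v) ≤ 4 r` so that `r⁻³ ≤ C kF / ϱ²`.
-/

set_option autoImplicit false

namespace Pool.Agent.LandauF

open MeasureTheory Set Filter Topology Pool.Agent.Landau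

namespace NT4Aux

/-- Young's inequality -/
theorem young {τ A c q b D : ℝ} (hτ : 0 < τ) (hc : 0 ≤ c) (hq : 0 ≤ q) (hb : b ^ 2 ≤ c * q) :
    A * b * D ≤ τ * (c * D ^ 2) + A ^ 2 * q / (4 * τ) := by
  have h1 : 0 ≤ τ * (c * D ^ 2) := by positivity
  have h2 : 0 ≤ A ^ 2 * q / (4 * τ) := by positivity
  have h3 : (A * b * D) ^ 2 ≤ (τ * (c * D ^ 2) + A ^ 2 * q / (4 * τ)) ^ 2 := by
    have h4 : (A * b * D) ^ 2 ≤ (A * D) ^ 2 * (c * q) := by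
      have : (A * b * D) ^ 2 = (A * D) ^ 2 * b ^ 2 := by ring
      rw [this]
      exact mul_le_mul_of_nonneg_left hb (sq_nonneg _)
    have h5 : (A * D) ^ 2 * (c * q) = 4 * (τ * (c * D ^ 2)) * (A ^ 2 * q / (4 * τ)) := by
      field_simp
    rw [h5] at h4
    nlinarith [sq_nonneg (τ * (c * D ^ 2) - A ^ 2 * q / (4 * τ))]
  exact (le_abs_self _).trans (abs_le_of_sq_le_sq h3 (by linarith))

/-- one of the terms without the gradient of the cutoff -/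
theorem halfA {τ F B r R X φx φc P D sv sw q1 q2 E1 E2 : ℝ} (hτ : 0 < τ) (hF : 0 ≤ F) (hB : 0 ≤ B)
    (hr : 0 < r) (hR : r ^ 2 ≤ R) (hφ : 0 ≤ φc) (hD : 0 ≤ D) (hsv : 0 ≤ sv) (hsw : 0 ≤ sw)
    (hX : |X| ≤ r * (sv + sw)) (hP : |P| ≤ r * D) (hq1 : 0 ≤ q1) (hq2 : 0 ≤ q2)
    (hb1 : (φx - φc) ^ 2 ≤ φc * q1) (hb2 : (φx - φc) ^ 2 ≤ φc * q2)
    (h1 : F * (B * q1) * sv ^ 2 ≤ E1) (h2 : F * (B * q2) * sw ^ 2 ≤ E2) :
    |(3 / 4) * (F * B * X * R⁻¹ * ((φx - φc) * P))| ≤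
      2 * τ * (F * B * φc * D ^ 2) + 9 / (64 * τ) * (E1 + E2) := by
  have hR0 : 0 < R := lt_of_lt_of_le (by positivity) hR
  obtain ⟨b, hb⟩ : ∃ b, b = |φx - φc| := ⟨_, rfl⟩
  have hb0 : 0 ≤ b := by rw [hb]; exact abs_nonneg _
  have hbs : b ^ 2 = (φx - φc) ^ 2 := by rw [hb, sq_abs]
  rw [← hbs] at hb1 hb2
  have hFB : 0 ≤ F * B := mul_nonneg hF hB
  have y1 := young (A := (3 / 4) * sv) (D := D) hτ hφ hq1 hb1
  have y2 := young (A := (3 / 4) * sw) (D := D) hτ hφ hq2 hb2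
  have k1 : |(3 / 4) * (F * B * X * R⁻¹ * ((φx - φc) * P))| =
      (3 / 4) * (F * B * |X| * R⁻¹ * (b * |P|)) := by
    rw [abs_mul, abs_mul, abs_mul, abs_mul (φx - φc) P, abs_mul, abs_of_nonneg hFB, ← hb,
      abs_of_nonneg (by norm_num : (0 : ℝ) ≤ 3 / 4), abs_of_nonneg (inv_nonneg.2 hR0.le)]
  rw [k1]
  have k2 : (3 / 4) * (F * B * |X| * R⁻¹ * (b * |P|)) ≤
      (3 / 4) * (F * B * (r * (sv + sw)) * R⁻¹ * (b * (r * D))) := by
    gcongr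
  have k3 : r ^ 2 * R⁻¹ ≤ 1 := by
    rw [← div_eq_mul_inv]
    exact (div_le_one hR0).2 hR
  have k4 : (3 / 4) * (F * B * (r * (sv + sw)) * R⁻¹ * (b * (r * D))) ≤
      F * B * ((3 / 4) * sv * b * D + (3 / 4) * sw * b * D) := by
    have e1 : (3 / 4) * (F * B * (r * (sv + sw)) * R⁻¹ * (b * (r * D))) =
        (F * B * ((3 / 4) * sv * b * D + (3 / 4) * sw * b * D)) * (r ^ 2 * R⁻¹) := by ring
    rw [e1]
    exact mul_le_of_le_one_right (by positivity) k3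
  have k5 : F * B * ((3 / 4) * sv * b * D + (3 / 4) * sw * b * D) ≤
      F * B * ((τ * (φc * D ^ 2) + ((3 / 4) * sv) ^ 2 * q1 / (4 * τ)) +
        (τ * (φc * D ^ 2) + ((3 / 4) * sw) ^ 2 * q2 / (4 * τ))) :=
    mul_le_mul_of_nonneg_left (add_le_add y1 y2) hFB
  have k6 : F * B * ((τ * (φc * D ^ 2) + ((3 / 4) * sv) ^ 2 * q1 / (4 * τ)) +
        (τ * (φc * D ^ 2) + ((3 / 4) * sw) ^ 2 * q2 / (4 * τ))) =
      2 * τ * (F * B * φc * D ^ 2) + 9 / (64 * τ) *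
        (F * (B * q1) * sv ^ 2 + F * (B * q2) * sw ^ 2) := by
    field_simp
    ring
  have k7 : 9 / (64 * τ) * (F * (B * q1) * sv ^ 2 + F * (B * q2) * sw ^ 2) ≤
      9 / (64 * τ) * (E1 + E2) :=
    mul_le_mul_of_nonneg_left (add_le_add h1 h2) (by positivity)
  linarith

/-- one of the terms with the gradient of the cutoff -/
theorem halfB {τ F bt η X φx φc Q D Ev K S G : ℝ} (hτ : 0 < τ) (hF : 0 ≤ F) (hbt : 0 ≤ bt)
    (hη : 0 ≤ η) (hφx : 0 ≤ φx) (hφ : φx ≤ 2 * φc) (hK : 0 ≤ K)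
    (hS : 0 < S) (hQ : |Q| ≤ D * Ev) (hE : Ev ^ 2 ≤ 3 * (K * η / S))
    (hG0 : 0 ≤ G) (hG : Ev ≠ 0 → F * bt * X ^ 2 * φx / S ≤ G) :
    |(1 / 4) * (F * bt * X * (φx * Q))| ≤
      τ * (F * (bt * η) * φc * D ^ 2) + 3 * K / (32 * τ) * G := by
  have hφc : 0 ≤ φc := by linarith
  have hFb : 0 ≤ F * bt := mul_nonneg hF hbt
  rcases eq_or_ne Ev 0 with h0 | h0
  · rw [h0, mul_zero] at hQ
    have hQ0 : Q = 0 := abs_nonpos_iff.1 hQ
    rw [hQ0, mul_zero, mul_zero, mul_zero, abs_zero]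
    positivity
  · have hG := hG h0
    have hb : (φx * Ev) ^ 2 ≤ (φc * η) * (6 * K * φx / S) := by
      have e1 : (φc * η) * (6 * K * φx / S) = (φx * (2 * φc)) * (3 * (K * η / S)) := by ring
      rw [e1, mul_pow]
      refine mul_le_mul ?_ hE (sq_nonneg _) (by positivity)
      rw [pow_two]
      exact mul_le_mul_of_nonneg_left hφ hφx
    have y := young (A := |X| / 4) (D := D) hτ (mul_nonneg hφc hη)
      (by positivity : (0 : ℝ) ≤ 6 * K * φx / S) hb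
    have k1 : |(1 / 4) * (F * bt * X * (φx * Q))| = (1 / 4) * (F * bt * |X| * (φx * |Q|)) := by
      rw [abs_mul, abs_mul, abs_mul, abs_mul φx Q, abs_of_nonneg hFb, abs_of_nonneg hφx,
        abs_of_nonneg (by norm_num : (0 : ℝ) ≤ 1 / 4)]
    have k2 : (1 / 4) * (F * bt * |X| * (φx * |Q|)) ≤
        (1 / 4) * (F * bt * |X| * (φx * (D * Ev))) := by
      gcongr
    have k3 : (1 / 4) * (F * bt * |X| * (φx * (D * Ev))) =
        F * bt * (|X| / 4 * (φx * Ev) * D) := by ring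
    have k4 := mul_le_mul_of_nonneg_left y hFb
    have k5 : F * bt * (τ * (φc * η * D ^ 2) + (|X| / 4) ^ 2 * (6 * K * φx / S) / (4 * τ)) =
        τ * (F * (bt * η) * φc * D ^ 2) + 3 * K / (32 * τ) * (F * bt * X ^ 2 * φx / S) := by
      rw [div_pow, sq_abs]
      field_simp
      ring
    have k6 : 3 * K / (32 * τ) * (F * bt * X ^ 2 * φx / S) ≤ 3 * K / (32 * τ) * G :=
      mul_le_mul_of_nonneg_left hG (by positivity)
    linarith

theorem normsq (z : V) : ‖z‖ ^ 2 = z 0 ^ 2 + z 1 ^ 2 + z 2 ^ 2 := by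
  rw [EuclideanSpace.norm_sq_eq, Fin.sum_univ_three]
  simp only [Real.norm_eq_abs, sq_abs]

theorem two_le (z : V) {a b : Fin 3} (h : a ≠ b) : z a ^ 2 + z b ^ 2 ≤ ‖z‖ ^ 2 := by
  rw [normsq]
  have h0 := sq_nonneg (z 0)
  have h1 := sq_nonneg (z 1)
  have h2 := sq_nonneg (z 2)
  fin_cases a <;> fin_cases b <;> first
    | exact absurd rfl h
    | (show _ ≤ _
       simp only [Fin.isValue, Fin.mk_one, Fin.zero_eta, Fin.reduceFinMk]
       linarith)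

/-- the cross product is bounded by the product of the lengths -/
theorem cross_le (z y : V) (a b : Fin 3) : |z a * y b - z b * y a| ≤ ‖z‖ * ‖y‖ := by
  by_cases hab : a = b
  · subst hab
    rw [sub_self, abs_zero]
    positivity
  · apply abs_le_of_sq_le_sq _ (by positivity)
    rw [mul_pow]
    calc (z a * y b - z b * y a) ^ 2
        ≤ (z a * y b - z b * y a) ^ 2 + (z a * y a + z b * y b) ^ 2 := by
          have := sq_nonneg (z a * y a + z b * y b)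
          linarith
      _ = (z a ^ 2 + z b ^ 2) * (y a ^ 2 + y b ^ 2) := by ring
      _ ≤ ‖z‖ ^ 2 * ‖y‖ ^ 2 :=
          mul_le_mul (two_le z hab) (two_le y hab) (by positivity) (by positivity)

/-- the score as a vector -/
noncomputable def Gv (g : V → ℝ) (v : V) : V := WithLp.toLp 2 (fun i => gam i g v)

theorem Gv_apply (g : V → ℝ) (v : V) (i : Fin 3) : Gv g v i = gam i g v := rfl

theorem Gv_norm (g : V → ℝ) (v : V) : ‖Gv g v‖ = Real.sqrt (x2 g v) := by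
  rw [← Real.sqrt_sq (norm_nonneg (Gv g v)), normsq]
  unfold x2
  rw [Fin.sum_univ_three]
  rfl

theorem XX_le (g : V → ℝ) (a b : Fin 3) (v w : V) :
    |XX g a b v w| ≤ ‖v - w‖ * (Real.sqrt (x2 g v) + Real.sqrt (x2 g w)) := by
  have h1 := cross_le (v - w) (Gv g v - Gv g w) a b
  have h2 : (v - w) a * (Gv g v - Gv g w) b - (v - w) b * (Gv g v - Gv g w) a =
      XX g a b v w := rfl
  rw [h2] at h1
  refine h1.trans (mul_le_mul_of_nonneg_left ?_ (norm_nonneg _))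
  rw [← Gv_norm, ← Gv_norm]
  exact norm_sub_le _ _

/-- Cauchy-Schwarz -/
theorem cs (F G : Fin 3 → ℝ) :
    |∑ l : Fin 3, F l * G l| ≤ Real.sqrt (∑ l : Fin 3, F l ^ 2) *
      Real.sqrt (∑ l : Fin 3, G l ^ 2) := by
  rw [← Real.sqrt_mul (Finset.sum_nonneg fun _ _ => sq_nonneg _)]
  apply Real.abs_le_sqrt
  exact Finset.sum_mul_sq_le_sq_mul_sq _ _ _

theorem cs_z (z : V) (G : Fin 3 → ℝ) :
    |∑ l : Fin 3, z l * G l| ≤ ‖z‖ * Real.sqrt (∑ l : Fin 3, G l ^ 2) := by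
  have h : ‖z‖ = Real.sqrt (∑ l : Fin 3, z l ^ 2) := by
    rw [← Real.sqrt_sq (norm_nonneg z), normsq, Fin.sum_univ_three]
  rw [h]
  exact cs _ _

theorem x2_nonneg (g : V → ℝ) (v : V) : 0 ≤ x2 g v := Finset.sum_nonneg fun _ _ => sq_nonneg _

/-- error density seen from `v` -/
theorem EN_ge {ε₀ : ℝ} {φ ϱ κ g : V → ℝ} (hA : Adm ε₀ φ ϱ κ) (hg : Dn g) (v w : V)
    (hr : 0 < ‖v - w‖) (h1 : ‖v - w‖ ≤ 2 * ϱ v) :
    φ v * (g v * g w) * (x2 g v * (κ v / ‖v - w‖ ^ 2)) ≤ EN φ ϱ κ g v w := by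
  unfold EN
  have hφ := hA.nonneg v
  have hgv := (hg.pos v).le
  have hgw := (hg.pos w).le
  have hx := x2_nonneg g v
  have e : φ v * (g v * g w) = φ v * g v * g w := by ring
  rw [e]
  refine mul_le_mul_of_nonneg_left (mul_le_mul_of_nonneg_left ?_ hx) (by positivity)
  have hk : kN ϱ v w = 1 / ‖v - w‖ ^ 2 := if_pos h1
  rw [hk]
  have hF : 0 ≤ kF ϱ v w / ϱ v ^ 2 := by
    unfold kF
    split_ifs <;> positivity
  have e2 : κ v * (1 / ‖v - w‖ ^ 2) = κ v / ‖v - w‖ ^ 2 := by ring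
  rw [e2]
  linarith

theorem EN_ge' {ε₀ : ℝ} {φ ϱ κ g : V → ℝ} (hA : Adm ε₀ φ ϱ κ) (hg : Dn g) (v w : V)
    (hr : 0 < ‖v - w‖) (h0 : 0 < ϱ v) (h1 : ϱ v ^ 2 ≤ 5 * ‖v - w‖ ^ 2) :
    φ v * (g v * g w) * (x2 g v / ‖v - w‖ ^ 3) ≤ 5 * EN φ ϱ κ g v w := by
  unfold EN
  have hφ := hA.nonneg v
  have hgv := (hg.pos v).le
  have hgw := (hg.pos w).le
  have hx := x2_nonneg g v
  have hκ := hA.knonneg v
  have h2 : ϱ v ≤ 4 * ‖v - w‖ := by
    apply (abs_le_of_sq_le_sq (a := ϱ v) _ (by positivity)).trans' (le_abs_self _)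
    nlinarith [sq_nonneg ‖v - w‖]
  have hk : kF ϱ v w = 1 / ‖v - w‖ := if_pos h2
  rw [hk]
  have hN : 0 ≤ κ v * kN ϱ v w := by
    unfold kN
    split_ifs <;> positivity
  have e : 5 * (φ v * g v * g w * (x2 g v * (κ v * kN ϱ v w + 1 / ‖v - w‖ / ϱ v ^ 2))) =
      φ v * (g v * g w) * (x2 g v * (5 * (κ v * kN ϱ v w + 1 / ‖v - w‖ / ϱ v ^ 2))) := by ring
  rw [e, div_eq_mul_inv]
  refine mul_le_mul_of_nonneg_left (mul_le_mul_of_nonneg_left ?_ hx) (by positivity)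
  have h3 : (‖v - w‖ ^ 3)⁻¹ ≤ 5 * (1 / ‖v - w‖ / ϱ v ^ 2) := by
    rw [div_div, mul_one_div, inv_eq_one_div, div_le_div_iff₀ (by positivity) (by positivity)]
    calc 1 * (‖v - w‖ * ϱ v ^ 2) ≤ 1 * (‖v - w‖ * (5 * ‖v - w‖ ^ 2)) := by gcongr
      _ = 5 * ‖v - w‖ ^ 3 := by ring
  linarith

end NT4Aux

open NT4Aux in
theorem NT4 (τ : ℝ) (hτ : 0 < τ) : ∃ C ε₀ : ℝ, 0 < C ∧ 0 < ε₀ ∧
    ∀ φ ϱ κ g : V → ℝ, Adm ε₀ φ ϱ κ → Dn g → ∀ (ε δ : ℝ) (a b : Fin 3) (p : V × V),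
      0 < ε → 0 < δ → δ < ϱ (mid p.1 p.2) → p.1 ≠ p.2 →
      -(FF g p * RR a b (uu g) p * qq φ (RR a b (uu g)) (BB ε ϱ δ) p) ≤
        (3 / 4) * (BB ε ϱ δ p * FF g p * φ (mid p.1 p.2) * (rE ε p ^ 2)⁻¹ *
          (XX g a b p.1 p.2 * ∑ l : Fin 3, (p.1 l - p.2 l) * XL g a b l p.1 p.2))
          + τ * (BB ε ϱ δ p * FF g p * φ (mid p.1 p.2) * QD g a b p.1 p.2)
          + C * (EN φ ϱ κ g p.1 p.2 + EN φ ϱ κ g p.2 p.1) := by
  obtain ⟨K, hK, hgrad⟩ := eta_grad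
  obtain ⟨t, ht⟩ : ∃ t, t = τ / 3 := ⟨_, rfl⟩
  have ht0 : 0 < t := by rw [ht]; positivity
  refine ⟨2 * (9 / (64 * t)) + 2 * (3 * K / (32 * t) * 40), 1 / 100, by positivity,
    by norm_num, ?_⟩
  intro φ ϱ κ g hA hg ε δ a b p hε hδ hδϱ hne
  obtain ⟨C, hC⟩ : ∃ C, C = 2 * (9 / (64 * t)) + 2 * (3 * K / (32 * t) * 40) := ⟨_, rfl⟩
  rw [← hC]
  have hC0 : 0 ≤ C := by rw [hC]; positivity
  obtain ⟨v, w⟩ := p
  change v ≠ w at hne
  change δ < ϱ (mid v w) at hδϱ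
  show _ ≤ (3 / 4) * (BB ε ϱ δ (v, w) * FF g (v, w) * φ (mid v w) * (rE ε (v, w) ^ 2)⁻¹ *
          (XX g a b v w * ∑ l : Fin 3, (v l - w l) * XL g a b l v w))
          + τ * (BB ε ϱ δ (v, w) * FF g (v, w) * φ (mid v w) * QD g a b v w)
          + C * (EN φ ϱ κ g v w + EN φ ϱ κ g w v)
  have hr : 0 < ‖v - w‖ := norm_pos_iff.2 (sub_ne_zero.2 hne)
  have hr' : 0 < ‖w - v‖ := by rw [norm_sub_rev]; exact hr
  have hE1 := EN_nonneg hA hg v w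
  have hE2 := EN_nonneg hA hg w v
  have hgr := hgrad ϱ δ hA.rsmooth hA.rnonneg (fun v w => (hA.rlip v w).trans (by
    have := norm_nonneg (v - w)
    linarith)) hδ (v, w)
  -- expansion of the left side
  have hbs := bet_smooth hε
  have hes := eta_smooth hA.rsmooth hδ
  have hdv : ∀ l, dv l (BB ε ϱ δ) (v, w) =
      -(3 * (v l - w l) / rE ε (v, w) ^ 2 * bet ε (v, w)) * eta ϱ δ (v, w) +
        bet ε (v, w) * dv l (eta ϱ δ) (v, w) := by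
    intro l
    have h1 : dv l (BB ε ϱ δ) (v, w) = dv l (fun x => bet ε x * eta ϱ δ x) (v, w) := rfl
    rw [h1, dv_mul hbs hes, dv_bet hε]
    ring
  have hdw : ∀ l, dw l (BB ε ϱ δ) (v, w) =
      (3 * (v l - w l) / rE ε (v, w) ^ 2 * bet ε (v, w)) * eta ϱ δ (v, w) +
        bet ε (v, w) * dw l (eta ϱ δ) (v, w) := by
    intro l
    have h1 : dw l (BB ε ϱ δ) (v, w) = dw l (fun x => bet ε x * eta ϱ δ x) (v, w) := rfl
    rw [h1, dw_mul hbs hes, dw_bet hε]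
    ring
  obtain ⟨R, hR⟩ : ∃ R, R = rE ε (v, w) ^ 2 := ⟨_, rfl⟩
  obtain ⟨bt, hbt⟩ : ∃ x, x = bet ε (v, w) := ⟨_, rfl⟩
  obtain ⟨η, hη⟩ : ∃ x, x = eta ϱ δ (v, w) := ⟨_, rfl⟩
  obtain ⟨F, hF⟩ : ∃ x, x = FF g (v, w) := ⟨_, rfl⟩
  obtain ⟨X, hX⟩ : ∃ x, x = XX g a b v w := ⟨_, rfl⟩
  obtain ⟨P1, hP1⟩ : ∃ x, x = ∑ l : Fin 3, (v l - w l) * DX g a b l v w := ⟨_, rfl⟩
  obtain ⟨P2, hP2⟩ : ∃ x, x = ∑ l : Fin 3, (v l - w l) * DX g a b l w v := ⟨_, rfl⟩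
  obtain ⟨Q1, hQ1⟩ : ∃ x, x = ∑ l : Fin 3, DX g a b l v w * dv l (eta ϱ δ) (v, w) := ⟨_, rfl⟩
  obtain ⟨Q2, hQ2⟩ : ∃ x, x = ∑ l : Fin 3, DX g a b l w v * dw l (eta ϱ δ) (v, w) := ⟨_, rfl⟩
  obtain ⟨φc, hφc⟩ : ∃ x, x = φ (mid v w) := ⟨_, rfl⟩
  have hBB : BB ε ϱ δ (v, w) = bt * η := by rw [hbt, hη]; rfl
  have hlhs : -(FF g (v, w) * RR a b (uu g) (v, w) * qq φ (RR a b (uu g)) (BB ε ϱ δ) (v, w)) =
      (3 / 4) * (F * (bt * η) * X * R⁻¹ * (φ v * P1 - φ w * P2)) -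
        (1 / 4) * (F * bt * X * (φ v * Q1 + φ w * Q2)) := by
    rw [RR_uu hg, hP1, hP2, hQ1, hQ2]
    unfold qq
    simp only [dv_RR_uu hg, dw_RR_uu hg, hdv, hdw, Fin.sum_univ_three]
    rw [← hR, ← hbt, ← hη, ← hF]
    show -(F * (1 / 2 * XX g a b v w) * _) = _
    rw [← hX]
    ring
  have hXL : ∑ l : Fin 3, (v l - w l) * XL g a b l v w = P1 - P2 := by
    rw [hP1, hP2, ← Finset.sum_sub_distrib]
    refine Finset.sum_congr rfl fun l _ => ?_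
    unfold XL
    ring
  rw [hlhs, hXL, hBB, ← hF, ← hφc, ← hR, ← hX]
  -- the case where the cutoff vanishes
  rcases lt_or_ge (SS ϱ δ (v, w)) (‖v - w‖ ^ 2) with hcase | hcase
  · have h0 : η = 0 := by rw [hη]; exact eta_zero hδ hcase.le
    have hQ1' : Q1 = 0 := by
      rw [hQ1]
      exact Finset.sum_eq_zero fun l _ => by rw [((hgr l).2.2.2.2 (Or.inr hcase)).1, mul_zero]
    have hQ2' : Q2 = 0 := by
      rw [hQ2]
      exact Finset.sum_eq_zero fun l _ => by rw [((hgr l).2.2.2.2 (Or.inr hcase)).2, mul_zero]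
    rw [h0, hQ1', hQ2']
    simp only [mul_zero, zero_mul, add_zero, sub_zero, zero_add]
    exact mul_nonneg hC0 (add_nonneg hE1 hE2)
  -- the main case
  obtain ⟨s1, s2, s3, s4, s5, s6, s7, s8⟩ :=
    near_sizes (by norm_num) hA hδ (v, w) hδϱ hcase
  obtain ⟨c1, c2, c3, c4, -, -⟩ := weight_cmp3 (by norm_num) hA hδ (v, w) hδϱ hcase
  change ‖v - w‖ ≤ 2 * ϱ v at s2
  change ‖v - w‖ ≤ 2 * ϱ w at s3
  change ϱ v ≤ (102 / 100) * ϱ (mid v w) at s5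
  change ϱ w ≤ (102 / 100) * ϱ (mid v w) at s6
  change φ v ≤ 2 * φ (mid v w) at c1
  change φ w ≤ 2 * φ (mid v w) at c2
  change φ (mid v w) ≤ 2 * φ v at c3
  change φ (mid v w) ≤ 2 * φ w at c4
  rw [← hφc] at c1 c2 c3 c4
  have hS := SS_pos ϱ hδ (v, w)
  obtain ⟨S, hSe⟩ : ∃ x, x = SS ϱ δ (v, w) := ⟨_, rfl⟩
  obtain ⟨r, hre⟩ : ∃ x, x = ‖v - w‖ := ⟨_, rfl⟩
  have hη0 : 0 ≤ η := by rw [hη]; exact eta_nonneg _ _ _
  have hη1 : η ≤ 1 := by rw [hη]; exact eta_le_one _ _ _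
  have hRr : r ^ 2 ≤ R := by
    rw [hR, hre]
    unfold rE
    rw [Real.sq_sqrt (by positivity)]
    have := sq_nonneg ε
    show ‖v - w‖ ^ 2 ≤ ‖v - w‖ ^ 2 + ε ^ 2
    linarith
  have hrE : r ≤ rE ε (v, w) := by
    have h0 : 0 ≤ rE ε (v, w) := Real.sqrt_nonneg _
    refine (le_abs_self r).trans (abs_le_of_sq_le_sq ?_ h0)
    rw [← hR]
    exact hRr
  have hr0 : 0 < r := by rw [hre]; exact hr
  have hbt0 : 0 ≤ bt := by
    rw [hbt]
    unfold bet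
    have : 0 ≤ rE ε (v, w) := Real.sqrt_nonneg _
    positivity
  have hbt1 : bt ≤ (r ^ 3)⁻¹ := by
    rw [hbt]
    unfold bet
    have h1 : (rE ε (v, w) ^ 3)⁻¹ ≤ (r ^ 3)⁻¹ :=
      inv_anti₀ (by positivity) (pow_le_pow_left₀ hr0.le hrE 3)
    have h2 : 1 / (2 * Real.pi) ≤ 1 := by
      rw [div_le_one (by positivity)]
      have := Real.pi_gt_three
      linarith
    calc 1 / (2 * Real.pi) * (rE ε (v, w) ^ 3)⁻¹ ≤ 1 * (r ^ 3)⁻¹ :=
          mul_le_mul h2 h1 (by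
            have : 0 ≤ rE ε (v, w) := Real.sqrt_nonneg _
            positivity) zero_le_one
      _ = _ := one_mul _
  have hB0 : 0 ≤ bt * η := mul_nonneg hbt0 hη0
  have hB1 : bt * η ≤ (r ^ 3)⁻¹ := (mul_le_of_le_one_right hbt0 hη1).trans hbt1
  have hFe : F = g v * g w := by rw [hF]; rfl
  have hF0 : 0 ≤ F := by rw [hFe]; exact mul_nonneg (hg.pos v).le (hg.pos w).le
  have hφv := hA.nonneg v
  have hφw := hA.nonneg w
  have hφc0 : 0 ≤ φc := by rw [hφc]; exact hA.nonneg _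
  have hκv := hA.knonneg v
  have hκw := hA.knonneg w
  have hxv := x2_nonneg g v
  have hxw := x2_nonneg g w
  obtain ⟨sv, hsv⟩ : ∃ x, x = Real.sqrt (x2 g v) := ⟨_, rfl⟩
  obtain ⟨sw, hsw⟩ : ∃ x, x = Real.sqrt (x2 g w) := ⟨_, rfl⟩
  have hsv0 : 0 ≤ sv := by rw [hsv]; exact Real.sqrt_nonneg _
  have hsw0 : 0 ≤ sw := by rw [hsw]; exact Real.sqrt_nonneg _
  have hsv2 : sv ^ 2 = x2 g v := by rw [hsv, Real.sq_sqrt hxv]
  have hsw2 : sw ^ 2 = x2 g w := by rw [hsw, Real.sq_sqrt hxw]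
  have hXle : |X| ≤ r * (sv + sw) := by rw [hX, hre, hsv, hsw]; exact XX_le g a b v w
  obtain ⟨Dv, hDv⟩ : ∃ x, x = Real.sqrt (∑ l : Fin 3, DX g a b l v w ^ 2) := ⟨_, rfl⟩
  obtain ⟨Dw, hDw⟩ : ∃ x, x = Real.sqrt (∑ l : Fin 3, DX g a b l w v ^ 2) := ⟨_, rfl⟩
  have hDv0 : 0 ≤ Dv := by rw [hDv]; exact Real.sqrt_nonneg _
  have hDw0 : 0 ≤ Dw := by rw [hDw]; exact Real.sqrt_nonneg _
  have hQD : QD g a b v w = Dv ^ 2 + Dw ^ 2 := by
    rw [hDv, hDw, Real.sq_sqrt (Finset.sum_nonneg fun _ _ => sq_nonneg _),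
      Real.sq_sqrt (Finset.sum_nonneg fun _ _ => sq_nonneg _)]
    rfl
  have hP1le : |P1| ≤ r * Dv := by
    rw [hP1, hre, hDv]
    exact cs_z (v - w) _
  have hP2le : |P2| ≤ r * Dw := by
    rw [hP2, hre, hDw]
    exact cs_z (v - w) _
  obtain ⟨Ev, hEv⟩ : ∃ x, x = Real.sqrt (∑ l : Fin 3, dv l (eta ϱ δ) (v, w) ^ 2) := ⟨_, rfl⟩
  obtain ⟨Ew, hEw⟩ : ∃ x, x = Real.sqrt (∑ l : Fin 3, dw l (eta ϱ δ) (v, w) ^ 2) := ⟨_, rfl⟩
  have hEv0 : 0 ≤ Ev := by rw [hEv]; exact Real.sqrt_nonneg _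
  have hEw0 : 0 ≤ Ew := by rw [hEw]; exact Real.sqrt_nonneg _
  have hQ1le : |Q1| ≤ Dv * Ev := by rw [hQ1, hDv, hEv]; exact cs _ _
  have hQ2le : |Q2| ≤ Dw * Ew := by rw [hQ2, hDw, hEw]; exact cs _ _
  have hEv2 : Ev ^ 2 ≤ 3 * (K * η / S) := by
    rw [hEv, Real.sq_sqrt (Finset.sum_nonneg fun _ _ => sq_nonneg _), Fin.sum_univ_three, hη, hSe]
    have h1 := (hgr 0).1
    have h2 := (hgr 1).1
    have h3 := (hgr 2).1
    linarith
  have hEw2 : Ew ^ 2 ≤ 3 * (K * η / S) := by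
    rw [hEw, Real.sq_sqrt (Finset.sum_nonneg fun _ _ => sq_nonneg _), Fin.sum_univ_three, hη, hSe]
    have h1 := (hgr 0).2.1
    have h2 := (hgr 1).2.1
    have h3 := (hgr 2).2.1
    linarith
  have hS4v : Ev ≠ 0 → S ≤ 4 * r ^ 2 := by
    intro h
    by_contra hc
    push Not at hc
    apply h
    rw [hEv]
    have : ∀ l : Fin 3, dv l (eta ϱ δ) (v, w) = 0 := fun l =>
      ((hgr l).2.2.2.2 (Or.inl (by rw [← hSe]; show 4 * ‖v - w‖ ^ 2 < S; rw [← hre]; exact hc))).1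
    simp [this]
  have hS4w : Ew ≠ 0 → S ≤ 4 * r ^ 2 := by
    intro h
    by_contra hc
    push Not at hc
    apply h
    rw [hEw]
    have : ∀ l : Fin 3, dw l (eta ϱ δ) (v, w) = 0 := fun l =>
      ((hgr l).2.2.2.2 (Or.inl (by rw [← hSe]; show 4 * ‖v - w‖ ^ 2 < S; rw [← hre]; exact hc))).2
    simp [this]
  have hSr : r ^ 2 ≤ S := by rw [hre, hSe]; exact hcase
  have hS0 : 0 < S := by rw [hSe]; exact hS
  -- differences of the weight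
  have hmv : ‖mid v w - v‖ = r / 2 := by
    have : mid v w - v = (1 / 2 : ℝ) • (w - v) := by
      unfold mid
      module
    rw [this, norm_smul, norm_sub_rev, ← hre]
    norm_num
    ring
  have hmw : ‖mid v w - w‖ = r / 2 := by
    have : mid v w - w = (1 / 2 : ℝ) • (v - w) := by
      unfold mid
      module
    rw [this, norm_smul, ← hre]
    norm_num
    ring
  have hϱv0 : 0 < ϱ v := by rw [← hre] at s2; linarith
  have hϱw0 : 0 < ϱ w := by rw [← hre] at s3; linarith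
  have hvv : ‖v - v‖ ≤ 2 * ϱ v := by rw [sub_self, norm_zero]; linarith
  have hww : ‖w - w‖ ≤ 2 * ϱ w := by rw [sub_self, norm_zero]; linarith
  have hwv : ‖w - v‖ ≤ 2 * ϱ v := by rw [norm_sub_rev]; exact s2
  have hmv2 : ‖mid v w - v‖ ≤ 2 * ϱ v := by rw [hmv]; rw [← hre] at s2; linarith
  have hmw2 : ‖mid v w - w‖ ≤ 2 * ϱ w := by rw [hmw]; rw [← hre] at s3; linarith
  have hvm : ‖v - mid v w‖ = r / 2 := by rw [norm_sub_rev]; exact hmv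
  have hwm : ‖w - mid v w‖ = r / 2 := by rw [norm_sub_rev]; exact hmw
  have d1 := (weight_cmp (by norm_num) hA v v (mid v w) hvv hmv2).1
  have d2 := (weight_cmp (by norm_num) hA w v (mid v w) s3 hmw2).1
  have d3 := (weight_cmp (by norm_num) hA v w (mid v w) hwv hmv2).1
  have d4 := (weight_cmp (by norm_num) hA w w (mid v w) hww hmw2).1
  rw [hvm, ← hφc] at d1 d2
  rw [hwm, ← hφc] at d3 d4
  obtain ⟨q1, hq1⟩ : ∃ x, x = (9 / 2) * (κ v ^ 2 * φ v * r ^ 2) := ⟨_, rfl⟩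
  obtain ⟨q2, hq2⟩ : ∃ x, x = (9 / 2) * (κ w ^ 2 * φ w * r ^ 2) := ⟨_, rfl⟩
  have hq10 : 0 ≤ q1 := by rw [hq1]; positivity
  have hq20 : 0 ≤ q2 := by rw [hq2]; positivity
  have sqv : ∀ y, |y - φc| ≤ 3 * (κ v * φ v) * (r / 2) → (y - φc) ^ 2 ≤ φc * q1 := by
    intro y hy
    rw [← sq_abs]
    refine (pow_le_pow_left₀ (abs_nonneg _) hy 2).trans ?_
    have e1 : (3 * (κ v * φ v) * (r / 2)) ^ 2 = (9 / 4) * (κ v ^ 2 * r ^ 2 * φ v) * φ v := by ring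
    have e2 : φc * q1 = (9 / 4) * (κ v ^ 2 * r ^ 2 * φ v) * (2 * φc) := by rw [hq1]; ring
    rw [e1, e2]
    exact mul_le_mul_of_nonneg_left c1 (by positivity)
  have sqw : ∀ y, |y - φc| ≤ 3 * (κ w * φ w) * (r / 2) → (y - φc) ^ 2 ≤ φc * q2 := by
    intro y hy
    rw [← sq_abs]
    refine (pow_le_pow_left₀ (abs_nonneg _) hy 2).trans ?_
    have e1 : (3 * (κ w * φ w) * (r / 2)) ^ 2 = (9 / 4) * (κ w ^ 2 * r ^ 2 * φ w) * φ w := by ring
    have e2 : φc * q2 = (9 / 4) * (κ w ^ 2 * r ^ 2 * φ w) * (2 * φc) := by rw [hq2]; ring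
    rw [e1, e2]
    exact mul_le_mul_of_nonneg_left c2 (by positivity)
  -- the error terms
  have hBq : ∀ (k f ρ : ℝ), 0 ≤ k → 0 ≤ f → (f ≠ 0 → k * ρ ≤ 1 / 100) → r ≤ 2 * ρ →
      bt * η * ((9 / 2) * (k ^ 2 * f * r ^ 2)) ≤ f * (k / r ^ 2) := by
    intro k f ρ hk hf h1 h2
    rcases hf.eq_or_lt with h0 | h0
    · rw [← h0]
      simp
    · have h3 := h1 h0.ne'
      have h4 : k * r ≤ 1 / 50 := by
        have := mul_le_mul_of_nonneg_left h2 hk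
        linarith
      calc bt * η * ((9 / 2) * (k ^ 2 * f * r ^ 2))
          ≤ (r ^ 3)⁻¹ * ((9 / 2) * (k ^ 2 * f * r ^ 2)) :=
            mul_le_mul_of_nonneg_right hB1 (by positivity)
        _ = f * (k / r ^ 2) * ((9 / 2) * (k * r)) := by
            field_simp
        _ ≤ f * (k / r ^ 2) * 1 := by
            refine mul_le_mul_of_nonneg_left (by linarith) (by positivity)
        _ = _ := mul_one _
  have hA1 : F * (bt * η * q1) * sv ^ 2 ≤ EN φ ϱ κ g v w := by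
    have h1 := hBq (κ v) (φ v) (ϱ v) hκv hφv (fun h => hA.krho v h) (by rw [hre]; exact s2)
    rw [← hq1] at h1
    refine le_trans ?_ (EN_ge hA hg v w hr s2)
    rw [hsv2, ← hFe, ← hre]
    calc F * (bt * η * q1) * x2 g v ≤ F * (φ v * (κ v / r ^ 2)) * x2 g v :=
          mul_le_mul_of_nonneg_right (mul_le_mul_of_nonneg_left h1 hF0) hxv
      _ = φ v * F * (x2 g v * (κ v / r ^ 2)) := by ring
  have hA2 : F * (bt * η * q2) * sw ^ 2 ≤ EN φ ϱ κ g w v := by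
    have h1 := hBq (κ w) (φ w) (ϱ w) hκw hφw (fun h => hA.krho w h) (by rw [hre]; exact s3)
    rw [← hq2] at h1
    refine le_trans ?_ (EN_ge hA hg w v hr' (by rw [norm_sub_rev]; exact s3))
    have hFe' : g w * g v = F := by rw [hFe]; ring
    rw [hsw2, hFe', norm_sub_rev, ← hre]
    calc F * (bt * η * q2) * x2 g w ≤ F * (φ w * (κ w / r ^ 2)) * x2 g w :=
          mul_le_mul_of_nonneg_right (mul_le_mul_of_nonneg_left h1 hF0) hxw
      _ = φ w * F * (x2 g w * (κ w / r ^ 2)) := by ring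
  -- the terms with the gradient of the cutoff
  have hGe : S ≤ 4 * r ^ 2 → φ v * F * (x2 g v / r ^ 3) ≤ 5 * EN φ ϱ κ g v w ∧
      φ w * F * (x2 g w / r ^ 3) ≤ 5 * EN φ ϱ κ g w v := by
    intro h4
    have h5 : ϱ (mid v w) ^ 2 ≤ 4 * r ^ 2 := by
      have : ϱ (mid v w) ^ 2 ≤ S := by
        rw [hSe]
        unfold SS
        have := sq_nonneg δ
        linarith
      linarith
    have hm0 := hA.rnonneg (mid v w)
    have h6 : ∀ x : ℝ, 0 ≤ x → x ≤ (102 / 100) * ϱ (mid v w) → x ^ 2 ≤ 5 * r ^ 2 := by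
      intro x hx0 hx
      have h7 := pow_le_pow_left₀ hx0 hx 2
      have h8 := sq_nonneg r
      have h9 : ((102 / 100) * ϱ (mid v w)) ^ 2 = 10404 / 10000 * ϱ (mid v w) ^ 2 := by ring
      rw [h9] at h7
      linarith
    constructor
    · have h9 := EN_ge' hA hg v w hr hϱv0 (by rw [← hre]; exact h6 _ hϱv0.le s5)
      rw [← hFe, ← hre] at h9
      exact h9
    · have h9 := EN_ge' hA hg w v hr' hϱw0 (by
        rw [norm_sub_rev, ← hre]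
        exact h6 _ hϱw0.le s6)
      have hFe' : g w * g v = F := by rw [hFe]; ring
      rw [hFe', norm_sub_rev, ← hre] at h9
      exact h9
  have hX2 : X ^ 2 ≤ 2 * r ^ 2 * (x2 g v + x2 g w) := by
    rw [← sq_abs]
    refine (pow_le_pow_left₀ (abs_nonneg _) hXle 2).trans ?_
    rw [← hsv2, ← hsw2, mul_pow]
    have h1 : (sv + sw) ^ 2 ≤ 2 * (sv ^ 2 + sw ^ 2) := by
      have h3 : 2 * (sv ^ 2 + sw ^ 2) = (sv + sw) ^ 2 + (sv - sw) ^ 2 := by ring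
      rw [h3]
      exact le_add_of_nonneg_right (sq_nonneg _)
    have h2 := mul_le_mul_of_nonneg_left h1 (sq_nonneg r)
    linarith
  have hGG : ∀ φx, 0 ≤ φx → φx ≤ 4 * φ v → φx ≤ 4 * φ w → S ≤ 4 * r ^ 2 →
      F * bt * X ^ 2 * φx / S ≤ 40 * (EN φ ϱ κ g v w + EN φ ϱ κ g w v) := by
    intro φx h0 h1 h2 h3
    obtain ⟨g1, g2⟩ := hGe h3
    have k1 : F * bt * X ^ 2 * φx / S ≤
        F * (r ^ 3)⁻¹ * (2 * r ^ 2 * (x2 g v + x2 g w)) * φx / r ^ 2 := by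
      have hxx : 0 ≤ x2 g v + x2 g w := add_nonneg hxv hxw
      gcongr
    have k2 : F * (r ^ 3)⁻¹ * (2 * r ^ 2 * (x2 g v + x2 g w)) * φx / r ^ 2 =
        2 * (φx * (F * (x2 g v / r ^ 3)) + φx * (F * (x2 g w / r ^ 3))) := by
      field_simp
    have k3 : φx * (F * (x2 g v / r ^ 3)) ≤ 4 * φ v * (F * (x2 g v / r ^ 3)) :=
      mul_le_mul_of_nonneg_right h1 (by positivity)
    have k4 : φx * (F * (x2 g w / r ^ 3)) ≤ 4 * φ w * (F * (x2 g w / r ^ 3)) :=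
      mul_le_mul_of_nonneg_right h2 (by positivity)
    have k5 : 4 * φ v * (F * (x2 g v / r ^ 3)) = 4 * (φ v * F * (x2 g v / r ^ 3)) := by ring
    have k6 : 4 * φ w * (F * (x2 g w / r ^ 3)) = 4 * (φ w * F * (x2 g w / r ^ 3)) := by ring
    rw [k2] at k1
    rw [k5] at k3
    rw [k6] at k4
    linarith
  have a1 := halfA (τ := t) (X := X) (φx := φ v) ht0 hF0 hB0 hr0 hRr hφc0 hDv0 hsv0 hsw0 hXle
    hP1le hq10 hq20 (sqv _ d1) (sqw _ d2) hA1 hA2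
  have a2 := halfA (τ := t) (X := X) (φx := φ w) ht0 hF0 hB0 hr0 hRr hφc0 hDw0 hsv0 hsw0 hXle
    hP2le hq10 hq20 (sqv _ d3) (sqw _ d4) hA1 hA2
  have hG0 : 0 ≤ 40 * (EN φ ϱ κ g v w + EN φ ϱ κ g w v) := by linarith
  have b1 := halfB (τ := t) (X := X) ht0 hF0 hbt0 hη0 hφv c1 hK.le hS0 hQ1le hEv2 hG0
    (fun h => hGG (φ v) hφv (by linarith) (by linarith) (hS4v h))
  have b2 := halfB (τ := t) (X := X) ht0 hF0 hbt0 hη0 hφw c2 hK.le hS0 hQ2le hEw2 hG0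
    (fun h => hGG (φ w) hφw (by linarith) (by linarith) (hS4w h))
  have e1 : (3 / 4) * (F * (bt * η) * X * R⁻¹ * (φ v * P1 - φ w * P2)) -
        (1 / 4) * (F * bt * X * (φ v * Q1 + φ w * Q2)) =
      (3 / 4) * (bt * η * F * φc * R⁻¹ * (X * (P1 - P2))) +
        (3 / 4) * (F * (bt * η) * X * R⁻¹ * ((φ v - φc) * P1)) -
        (3 / 4) * (F * (bt * η) * X * R⁻¹ * ((φ w - φc) * P2)) -
        (1 / 4) * (F * bt * X * (φ v * Q1)) - (1 / 4) * (F * bt * X * (φ w * Q2)) := by ring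
  rw [e1, hQD]
  have u1 := (le_abs_self _).trans a1
  have u2 := (neg_le_abs _).trans a2
  have u3 := (neg_le_abs _).trans b1
  have u4 := (neg_le_abs _).trans b2
  have e2 : τ * (bt * η * F * φc * (Dv ^ 2 + Dw ^ 2)) =
      3 * t * (F * (bt * η) * φc * Dv ^ 2) + 3 * t * (F * (bt * η) * φc * Dw ^ 2) := by
    rw [ht]
    ring
  rw [e2, hC]
  linarith

end Pool.Agent.LandauF
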