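import Pool.Agent.LandauF.NAdm

/-!
# LandauF, module NT5: the commutator with the kernel

Notation: `p = (v, w)`, `r = ‖v - w‖`, `B = BB ε ϱ δ`, `F = FF g`, `u = uu g`, `X = gam · g`,
`φ_c = φ(mid)`, `D² = QD g a b v w = ∑_l DX(v,w)² + ∑_l DX(w,v)²`, `En = EN(v,w) + EN(w,v)`.
If `r² > SS` then `eta` and its gradient vanish at `p`, so both sides are `≥ 0` and the left side is `0`.
Otherwise use `near_sizes`, `weight_cmp`, `weight_cmp3` (module NAdm), the explicit formulas of NTrans and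
Young's inequality.  `B ≤ r⁻³`, `kN ϱ v w = 1/r²` on the near zone.

`RR u = ½ XX`, `|XX| ≤ 2 r (|X| + |X*|)`, `q1 φ a b u B` is a sum of products of `RR φ` or `φ(v) - φ(w)`
(`O(r κ φ)`), of components of `X(v)`, `X(w)` and of components of `∇B`, `|∇ B| ≤ C r⁻⁴` (for `r² ≤ SS`:
`dv_bet`, `eta_grad` and `r² ≤ SS`, with `∇ eta = 0` unless `r² ≥ SS/4`).  So the term is at most
`C F r · r κ φ · r⁻⁴ (|X| + |X*|)²`, and for each square use the bound of `RR φ`, `φ(v) - φ(w)` seen from the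
point where it lives.
-/

set_option autoImplicit false

namespace Pool.Agent.LandauF

open MeasureTheory Set Filter Topology Pool.Agent.Landau

/-- the gradient of the near kernel -/
private theorem nt5_grad : ∃ K : ℝ, 0 < K ∧ ∀ (ϱ : V → ℝ) (ε δ : ℝ),
    ContDiff ℝ (⊤ : ℕ∞) (fun v => ϱ v ^ 2) → (∀ v, 0 ≤ ϱ v) → (∀ v w, |ϱ v - ϱ w| ≤ ‖v - w‖) →
    0 < ε → 0 < δ → ∀ (p : V × V) (l : Fin 3), p.1 ≠ p.2 →
      (‖p.1 - p.2‖ ^ 2 ≤ SS ϱ δ p →
        |dv l (BB ε ϱ δ) p| ≤ K / ‖p.1 - p.2‖ ^ 4 ∧ |dw l (BB ε ϱ δ) p| ≤ K / ‖p.1 - p.2‖ ^ 4) ∧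
      (SS ϱ δ p < ‖p.1 - p.2‖ ^ 2 → dv l (BB ε ϱ δ) p = 0 ∧ dw l (BB ε ϱ δ) p = 0) := by
  obtain ⟨K, hK, hKe⟩ := eta_grad
  refine ⟨4 + K, by linarith, ?_⟩
  intro ϱ ε δ hsm h0 hlip hε hδ p l hne
  obtain ⟨e1, e2, -, -, e3⟩ := hKe ϱ δ hsm h0 hlip hδ p l
  have hr : 0 < ‖p.1 - p.2‖ := norm_pos_iff.2 (sub_ne_zero.2 hne)
  set r := ‖p.1 - p.2‖ with hrdef
  have hv : dv l (BB ε ϱ δ) p = bet ε p * dv l (eta ϱ δ) p + dv l (bet ε) p * eta ϱ δ p :=
    dv_mul (bet_smooth hε) (eta_smooth hsm hδ) l p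
  have hw : dw l (BB ε ϱ δ) p = bet ε p * dw l (eta ϱ δ) p + dw l (bet ε) p * eta ϱ δ p :=
    dw_mul (bet_smooth hε) (eta_smooth hsm hδ) l p
  refine ⟨fun hS => ?_, fun hS => ?_⟩
  · have hrE : r ≤ rE ε p := by
      unfold rE
      refine Real.le_sqrt_of_sq_le ?_
      rw [← hrdef]
      nlinarith [sq_nonneg ε]
    have hrE0 : 0 < rE ε p := hr.trans_le hrE
    have hb0 : 0 ≤ bet ε p := by
      unfold bet
      have := Real.pi_pos
      positivity
    have hb1 : bet ε p ≤ 1 / r ^ 3 := by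
      unfold bet
      have h1 : (rE ε p ^ 3)⁻¹ ≤ (r ^ 3)⁻¹ :=
        inv_anti₀ (by positivity) (pow_le_pow_left₀ hr.le hrE 3)
      have h2 : 1 / (2 * Real.pi) ≤ 1 := by
        rw [div_le_one (by have := Real.pi_pos; positivity)]
        have := Real.pi_gt_three
        linarith
      have h3 : 0 ≤ (rE ε p ^ 3)⁻¹ := by positivity
      calc 1 / (2 * Real.pi) * (rE ε p ^ 3)⁻¹ ≤ 1 * (rE ε p ^ 3)⁻¹ :=
            mul_le_mul_of_nonneg_right h2 h3
        _ ≤ 1 / r ^ 3 := by rw [one_mul, one_div]; exact h1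
    have hη0 := eta_nonneg ϱ δ p
    have hη1 := eta_le_one ϱ δ p
    have hSp := SS_pos ϱ hδ p
    have hz : |p.1 l - p.2 l| ≤ r := Cls.abs_coord (p.1 - p.2) l
    -- the derivative of `bet`
    have hc : |3 * (p.1 l - p.2 l) / rE ε p ^ 2 * bet ε p| ≤ 3 / r ^ 4 := by
      rw [abs_mul, abs_div, abs_mul, abs_of_nonneg hb0, abs_of_pos (by positivity : 0 < rE ε p ^ 2),
        abs_of_pos (by norm_num : (0 : ℝ) < 3)]
      have h1 : 3 * |p.1 l - p.2 l| / rE ε p ^ 2 ≤ 3 * r / r ^ 2 := by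
        refine div_le_div₀ (by positivity) (by linarith) (by positivity) ?_
        exact pow_le_pow_left₀ hr.le hrE 2
      calc 3 * |p.1 l - p.2 l| / rE ε p ^ 2 * bet ε p ≤ 3 * r / r ^ 2 * (1 / r ^ 3) :=
            mul_le_mul h1 hb1 hb0 (by positivity)
        _ = 3 / r ^ 4 := by field_simp
    -- the derivative of `eta`
    have he : ∀ d : ℝ, d ^ 2 ≤ K * eta ϱ δ p / SS ϱ δ p → |bet ε p * d| ≤ (1 + K) / r ^ 4 := by
      intro d hd
      have h1 : (d * r) ^ 2 ≤ K := by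
        have h2 : K * eta ϱ δ p / SS ϱ δ p ≤ K / r ^ 2 := by
          refine div_le_div₀ hK.le ?_ (by positivity) hS
          nlinarith
        have h3 : d ^ 2 ≤ K / r ^ 2 := hd.trans h2
        rw [le_div_iff₀ (by positivity)] at h3
        rw [mul_pow]
        exact h3
      have h4 : |d * r| ≤ 1 + K := by
        rw [← sq_abs] at h1
        nlinarith [sq_nonneg (|d * r| - 1), abs_nonneg (d * r)]
      have h5 : |d| ≤ (1 + K) / r := by
        rw [abs_mul, abs_of_pos hr] at h4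
        rw [le_div_iff₀ hr]
        exact h4
      rw [abs_mul, abs_of_nonneg hb0]
      calc bet ε p * |d| ≤ 1 / r ^ 3 * ((1 + K) / r) :=
            mul_le_mul hb1 h5 (abs_nonneg _) (by positivity)
        _ = (1 + K) / r ^ 4 := by field_simp
    have hs : (1 + K) / r ^ 4 + 3 / r ^ 4 = (4 + K) / r ^ 4 := by ring
    have key : ∀ d e : ℝ, d ^ 2 ≤ K * eta ϱ δ p / SS ϱ δ p →
        |e| ≤ 3 / r ^ 4 → |bet ε p * d + e * eta ϱ δ p| ≤ (4 + K) / r ^ 4 := by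
      intro d e hd he'
      have h1 := he d hd
      have h2 : |e * eta ϱ δ p| ≤ 3 / r ^ 4 := by
        rw [abs_mul, abs_of_nonneg hη0]
        calc |e| * eta ϱ δ p ≤ |e| * 1 := mul_le_mul_of_nonneg_left hη1 (abs_nonneg _)
          _ ≤ 3 / r ^ 4 := by rw [mul_one]; exact he'
      rw [← hs]
      exact (abs_add_le _ _).trans (add_le_add h1 h2)
    constructor
    · rw [hv]
      refine key _ _ e1 ?_
      rw [dv_bet hε, abs_neg]
      exact hc
    · rw [hw]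
      refine key _ _ e2 ?_
      rw [dw_bet hε]
      exact hc
  · have h1 : eta ϱ δ p = 0 := eta_zero hδ hS.le
    obtain ⟨h2, h3⟩ := e3 (Or.inr hS)
    constructor
    · rw [hv, h1, h2]; ring
    · rw [hw, h1, h3]; ring

private theorem nt5_alg {F r x y G m RV RW D X Q : ℝ} (hF : 0 ≤ F) (hr : 0 ≤ r) (hx : 0 ≤ x)
    (hy : 0 ≤ y) (hG : 0 ≤ G) (hm : 0 ≤ m) (hX : |X| ≤ r * (x + y))
    (hQ : |Q| ≤ RV * (3 * x * G) + RW * (3 * y * G) + D * ((x + y) * G))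
    (hRV : RV ≤ r * m) (hRW : RW ≤ r * m) (hD : D ≤ 3 * (r * m)) :
    |F * X * Q| ≤ 12 * (F * r ^ 2 * G * m * (x ^ 2 + y ^ 2)) := by
  have h1 : |Q| ≤ 6 * (r * m * G * (x + y)) := by
    have a1 := mul_le_mul_of_nonneg_right hRV (by positivity : 0 ≤ 3 * x * G)
    have a2 := mul_le_mul_of_nonneg_right hRW (by positivity : 0 ≤ 3 * y * G)
    have a3 := mul_le_mul_of_nonneg_right hD (by positivity : 0 ≤ (x + y) * G)
    nlinarith
  rw [abs_mul, abs_mul, abs_of_nonneg hF]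
  have h2 : F * |X| * |Q| ≤ F * (r * (x + y)) * (6 * (r * m * G * (x + y))) := by
    refine mul_le_mul (mul_le_mul_of_nonneg_left hX hF) h1 (abs_nonneg _) (by positivity)
  refine h2.trans ?_
  have h3 : (x + y) ^ 2 ≤ 2 * (x ^ 2 + y ^ 2) := by nlinarith [sq_nonneg (x - y)]
  have h4 : 0 ≤ 6 * (F * r ^ 2 * G * m) := by positivity
  have h5 := mul_le_mul_of_nonneg_left h3 h4
  nlinarith

private theorem nt5_gam (g : V → ℝ) (v : V) (i : Fin 3) : |gam i g v| ≤ Real.sqrt (x2 g v) := by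
  refine Real.abs_le_sqrt ?_
  unfold x2
  exact Finset.single_le_sum (f := fun i => gam i g v ^ 2) (fun j _ => sq_nonneg _)
    (Finset.mem_univ i)

theorem NT5 : ∃ C ε₀ : ℝ, 0 < C ∧ 0 < ε₀ ∧
    ∀ φ ϱ κ g : V → ℝ, Adm ε₀ φ ϱ κ → Dn g → ∀ (ε δ : ℝ) (a b : Fin 3) (p : V × V),
      0 < ε → 0 < δ → δ < ϱ (mid p.1 p.2) → p.1 ≠ p.2 →
      |FF g p * RR a b (uu g) p * q1 φ a b (uu g) (BB ε ϱ δ) p| ≤
        C * (EN φ ϱ κ g p.1 p.2 + EN φ ϱ κ g p.2 p.1) := by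
  obtain ⟨K, hK, hG⟩ := nt5_grad
  refine ⟨12 * K, 1 / 100, by positivity, by norm_num, ?_⟩
  intro φ ϱ κ g hA hg ε δ a b p hε hδ hmid hne
  have hr : 0 < ‖p.1 - p.2‖ := norm_pos_iff.2 (sub_ne_zero.2 hne)
  have hEN1 := EN_nonneg hA hg p.1 p.2
  have hEN2 := EN_nonneg hA hg p.2 p.1
  have hg1 := hg.pos p.1
  have hg2 := hg.pos p.2
  have hlip : ∀ v w, |ϱ v - ϱ w| ≤ ‖v - w‖ := fun v w =>
    (hA.rlip v w).trans (by nlinarith [norm_nonneg (v - w)])
  have hGr := fun l => hG ϱ ε δ hA.rsmooth hA.rnonneg hlip hε hδ p l hne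
  rcases lt_or_ge (SS ϱ δ p) (‖p.1 - p.2‖ ^ 2) with hS | hS
  · have h1 : ∀ l, dv l (BB ε ϱ δ) p = 0 := fun l => ((hGr l).2 hS).1
    have h2 : ∀ l, dw l (BB ε ϱ δ) p = 0 := fun l => ((hGr l).2 hS).2
    have h3 : q1 φ a b (uu g) (BB ε ϱ δ) p = 0 := by
      unfold q1 bt
      simp only [h1, h2, mul_zero, Finset.sum_const_zero, sub_zero, add_zero, zero_mul]
    rw [h3, mul_zero, abs_zero]
    positivity
  · obtain ⟨-, s1, s2, -, -, -, -, -⟩ := near_sizes le_rfl hA hδ p hmid hS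
    set r := ‖p.1 - p.2‖ with hrdef
    have hr' : ‖p.2 - p.1‖ = r := by rw [norm_sub_rev]
    have hz : ∀ l, |p.1 l - p.2 l| ≤ r := fun l => Cls.abs_coord (p.1 - p.2) l
    set x := Real.sqrt (x2 g p.1) with hx
    set y := Real.sqrt (x2 g p.2) with hy
    have hx0 : 0 ≤ x := Real.sqrt_nonneg _
    have hy0 : 0 ≤ y := Real.sqrt_nonneg _
    have hx2 : x ^ 2 = x2 g p.1 := Real.sq_sqrt (Finset.sum_nonneg fun i _ => sq_nonneg _)
    have hy2 : y ^ 2 = x2 g p.2 := Real.sq_sqrt (Finset.sum_nonneg fun i _ => sq_nonneg _)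
    have hgx : ∀ i, |gam i g p.1| ≤ x := nt5_gam g p.1
    have hgy : ∀ i, |gam i g p.2| ≤ y := nt5_gam g p.2
    have hm1 : 0 ≤ κ p.1 * φ p.1 := mul_nonneg (hA.knonneg _) (hA.nonneg _)
    have hm2 : 0 ≤ κ p.2 * φ p.2 := mul_nonneg (hA.knonneg _) (hA.nonneg _)
    obtain ⟨w1, -, w2, -⟩ := weight_cmp (le_refl (1 / 100 : ℝ)) hA p.1 p.1 p.2
      (by rw [sub_self, norm_zero]; have := hA.rnonneg p.1; positivity) (by rw [hr']; exact s1)
    obtain ⟨-, -, w3, -⟩ := weight_cmp (le_refl (1 / 100 : ℝ)) hA p.1 p.2 p.1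
      (by rw [hr']; exact s1) (by rw [sub_self, norm_zero]; have := hA.rnonneg p.1; positivity)
    obtain ⟨w4, -, w5, -⟩ := weight_cmp (le_refl (1 / 100 : ℝ)) hA p.2 p.1 p.2
      s2 (by rw [sub_self, norm_zero]; have := hA.rnonneg p.2; positivity)
    obtain ⟨-, -, w6, -⟩ := weight_cmp (le_refl (1 / 100 : ℝ)) hA p.2 p.2 p.1
      (by rw [sub_self, norm_zero]; have := hA.rnonneg p.2; positivity) s2
    set m := min (κ p.1 * φ p.1) (κ p.2 * φ p.2) with hm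
    have hm0 : 0 ≤ m := le_min hm1 hm2
    have hv1 : ∀ i, |pd i φ p.1| ≤ m := fun i => le_min (w2 i) (w5 i)
    have hv2 : ∀ i, |pd i φ p.2| ≤ m := fun i => le_min (w3 i) (w6 i)
    have hD : |φ p.1 - φ p.2| ≤ 3 * (r * m) := by
      have h1 : |φ p.1 - φ p.2| ≤ 3 * r * (κ p.1 * φ p.1) := by rw [← hrdef] at w1; linarith
      have h2 : |φ p.1 - φ p.2| ≤ 3 * r * (κ p.2 * φ p.2) := by rw [← hrdef] at w4; linarith
      rcases min_choice (κ p.1 * φ p.1) (κ p.2 * φ p.2) with h3 | h3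
      · rw [hm, h3]; linarith
      · rw [hm, h3]; linarith
    -- the rotation derivatives of the weight
    have hRV : |RR a b (fun x => φ x.1) p| ≤ r * m := by
      rw [RR_fst hA.smooth]
      have h1 := abs_mul (p.1 a - p.2 a) (pd b φ p.1)
      have h2 := abs_mul (p.1 b - p.2 b) (pd a φ p.1)
      have h3 : |p.1 a - p.2 a| * |pd b φ p.1| ≤ r * m :=
        mul_le_mul (hz a) (hv1 b) (abs_nonneg _) hr.le
      have h4 : |p.1 b - p.2 b| * |pd a φ p.1| ≤ r * m :=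
        mul_le_mul (hz b) (hv1 a) (abs_nonneg _) hr.le
      rw [abs_mul, abs_of_pos (by norm_num : (0 : ℝ) < 1 / 2)]
      have h5 := abs_sub ((p.1 a - p.2 a) * pd b φ p.1) ((p.1 b - p.2 b) * pd a φ p.1)
      linarith
    have hRW : |RR a b (fun x => φ x.2) p| ≤ r * m := by
      rw [RR_snd hA.smooth]
      have h1 := abs_mul (p.1 a - p.2 a) (pd b φ p.2)
      have h2 := abs_mul (p.1 b - p.2 b) (pd a φ p.2)
      have h3 : |p.1 a - p.2 a| * |pd b φ p.2| ≤ r * m :=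
        mul_le_mul (hz a) (hv2 b) (abs_nonneg _) hr.le
      have h4 : |p.1 b - p.2 b| * |pd a φ p.2| ≤ r * m :=
        mul_le_mul (hz b) (hv2 a) (abs_nonneg _) hr.le
      rw [abs_mul, abs_neg, abs_of_pos (by norm_num : (0 : ℝ) < 1 / 2)]
      have h5 := abs_sub ((p.1 a - p.2 a) * pd b φ p.2) ((p.1 b - p.2 b) * pd a φ p.2)
      linarith
    -- `RR u`
    have hXX : |RR a b (uu g) p| ≤ r * (x + y) := by
      rw [RR_uu hg]
      unfold XX
      have h1 : |gam b g p.1 - gam b g p.2| ≤ x + y :=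
        (abs_sub _ _).trans (add_le_add (hgx b) (hgy b))
      have h2 : |gam a g p.1 - gam a g p.2| ≤ x + y :=
        (abs_sub _ _).trans (add_le_add (hgx a) (hgy a))
      have h3 : |(p.1 a - p.2 a) * (gam b g p.1 - gam b g p.2)| ≤ r * (x + y) := by
        rw [abs_mul]
        exact mul_le_mul (hz a) h1 (abs_nonneg _) hr.le
      have h4 : |(p.1 b - p.2 b) * (gam a g p.1 - gam a g p.2)| ≤ r * (x + y) := by
        rw [abs_mul]
        exact mul_le_mul (hz b) h2 (abs_nonneg _) hr.le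
      rw [abs_mul, abs_of_pos (by norm_num : (0 : ℝ) < 1 / 2)]
      have h5 := abs_sub ((p.1 a - p.2 a) * (gam b g p.1 - gam b g p.2))
        ((p.1 b - p.2 b) * (gam a g p.1 - gam a g p.2))
      linarith
    -- the gradient of the kernel
    set G := K / r ^ 4 with hGdef
    have hG0 : 0 ≤ G := by positivity
    have hGv : ∀ l, |dv l (BB ε ϱ δ) p| ≤ G := fun l => ((hGr l).1 hS).1
    have hGw : ∀ l, |dw l (BB ε ϱ δ) p| ≤ G := fun l => ((hGr l).1 hS).2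
    have hpv : ∀ i j, |gam i g p.1 * dv j (BB ε ϱ δ) p| ≤ x * G := fun i j => by
      rw [abs_mul]
      exact mul_le_mul (hgx i) (hGv j) (abs_nonneg _) hx0
    have hpw : ∀ i j, |gam i g p.2 * dw j (BB ε ϱ δ) p| ≤ y * G := fun i j => by
      rw [abs_mul]
      exact mul_le_mul (hgy i) (hGw j) (abs_nonneg _) hy0
    have hpvw : ∀ i j, |gam i g p.2 * dv j (BB ε ϱ δ) p| ≤ y * G := fun i j => by
      rw [abs_mul]
      exact mul_le_mul (hgy i) (hGv j) (abs_nonneg _) hy0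
    have hpwv : ∀ i j, |dw i (BB ε ϱ δ) p * gam j g p.1| ≤ x * G := fun i j => by
      rw [abs_mul, mul_comm]
      exact mul_le_mul (hgx j) (hGw i) (abs_nonneg _) hx0
    have hsv : |∑ l : Fin 3, gam l g p.1 * dv l (BB ε ϱ δ) p| ≤ 3 * x * G := by
      refine (Finset.abs_sum_le_sum_abs _ _).trans ?_
      refine (Finset.sum_le_sum fun l _ => hpv l l).trans ?_
      simp
      linarith
    have hsw : |∑ l : Fin 3, gam l g p.2 * dw l (BB ε ϱ δ) p| ≤ 3 * y * G := by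
      refine (Finset.abs_sum_le_sum_abs _ _).trans ?_
      refine (Finset.sum_le_sum fun l _ => hpw l l).trans ?_
      simp
      linarith
    have hbt : |bt a b (uu g) (BB ε ϱ δ) p| ≤ 2 * ((x + y) * G) := by
      unfold bt
      simp only [dv_uu hg, dw_uu hg]
      have h1 := hpvw a b
      have h2 := hpvw b a
      have h3 := hpwv a b
      have h4 := hpwv b a
      rw [abs_le] at h1 h2 h3 h4 ⊢
      constructor
      · nlinarith
      · nlinarith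
    have hQ : |q1 φ a b (uu g) (BB ε ϱ δ) p| ≤ |RR a b (fun x => φ x.1) p| * (3 * x * G) +
        |RR a b (fun x => φ x.2) p| * (3 * y * G) + |φ p.1 - φ p.2| * ((x + y) * G) := by
      unfold q1
      simp only [dv_uu hg, dw_uu hg]
      have h1 : |RR a b (fun x => φ x.1) p * ∑ l : Fin 3, gam l g p.1 * dv l (BB ε ϱ δ) p| ≤
          |RR a b (fun x => φ x.1) p| * (3 * x * G) := by
        rw [abs_mul]
        exact mul_le_mul_of_nonneg_left hsv (abs_nonneg _)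
      have h2 : |RR a b (fun x => φ x.2) p * ∑ l : Fin 3, gam l g p.2 * dw l (BB ε ϱ δ) p| ≤
          |RR a b (fun x => φ x.2) p| * (3 * y * G) := by
        rw [abs_mul]
        exact mul_le_mul_of_nonneg_left hsw (abs_nonneg _)
      have h3 : |1 / 2 * (φ p.1 - φ p.2) * bt a b (uu g) (BB ε ϱ δ) p| ≤
          |φ p.1 - φ p.2| * ((x + y) * G) := by
        rw [abs_mul, abs_mul, abs_of_pos (by norm_num : (0 : ℝ) < 1 / 2)]
        have h4 := mul_le_mul_of_nonneg_left hbt (abs_nonneg (φ p.1 - φ p.2))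
        nlinarith
      refine (abs_sub _ _).trans ?_
      exact add_le_add ((abs_add_le _ _).trans (add_le_add h1 h2)) h3
    have hF : 0 ≤ FF g p := (mul_pos hg1 hg2).le
    have main := nt5_alg hF hr.le hx0 hy0 hG0 hm0 hXX hQ hRV hRW hD
    refine main.trans ?_
    -- comparison with the error densities
    have k1 : kN ϱ p.1 p.2 = 1 / r ^ 2 := by
      unfold kN
      rw [← hrdef, if_pos s1]
    have k2 : kN ϱ p.2 p.1 = 1 / r ^ 2 := by
      unfold kN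
      rw [hr', if_pos s2]
    have f1 : 0 ≤ kF ϱ p.1 p.2 / ϱ p.1 ^ 2 := by
      unfold kF
      split_ifs
      · positivity
      · simp
    have f2 : 0 ≤ kF ϱ p.2 p.1 / ϱ p.2 ^ 2 := by
      unfold kF
      split_ifs
      · positivity
      · simp
    have hφ1 := hA.nonneg p.1
    have hφ2 := hA.nonneg p.2
    have E1 : FF g p * (κ p.1 * φ p.1) * x ^ 2 / r ^ 2 ≤ EN φ ϱ κ g p.1 p.2 := by
      unfold EN FF
      rw [k1, ← hx2]
      have h1 : 0 ≤ φ p.1 * g p.1 * g p.2 * (x ^ 2 * (kF ϱ p.1 p.2 / ϱ p.1 ^ 2)) := by positivity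
      have h2 : φ p.1 * g p.1 * g p.2 * (x ^ 2 * (κ p.1 * (1 / r ^ 2) + kF ϱ p.1 p.2 / ϱ p.1 ^ 2)) =
          g p.1 * g p.2 * (κ p.1 * φ p.1) * x ^ 2 / r ^ 2 +
            φ p.1 * g p.1 * g p.2 * (x ^ 2 * (kF ϱ p.1 p.2 / ϱ p.1 ^ 2)) := by ring
      rw [h2]
      linarith
    have E2 : FF g p * (κ p.2 * φ p.2) * y ^ 2 / r ^ 2 ≤ EN φ ϱ κ g p.2 p.1 := by
      unfold EN FF
      rw [k2, ← hy2]
      have h1 : 0 ≤ φ p.2 * g p.2 * g p.1 * (y ^ 2 * (kF ϱ p.2 p.1 / ϱ p.2 ^ 2)) := by positivity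
      have h2 : φ p.2 * g p.2 * g p.1 * (y ^ 2 * (κ p.2 * (1 / r ^ 2) + kF ϱ p.2 p.1 / ϱ p.2 ^ 2)) =
          g p.1 * g p.2 * (κ p.2 * φ p.2) * y ^ 2 / r ^ 2 +
            φ p.2 * g p.2 * g p.1 * (y ^ 2 * (kF ϱ p.2 p.1 / ϱ p.2 ^ 2)) := by ring
      rw [h2]
      linarith
    have h1 : FF g p * r ^ 2 * G * m * (x ^ 2 + y ^ 2) =
        K * (FF g p * m * x ^ 2 / r ^ 2 + FF g p * m * y ^ 2 / r ^ 2) := by
      rw [hGdef]
      field_simp
    have h2 : FF g p * m * x ^ 2 / r ^ 2 ≤ FF g p * (κ p.1 * φ p.1) * x ^ 2 / r ^ 2 := by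
      have h3 : m ≤ κ p.1 * φ p.1 := min_le_left _ _
      gcongr
    have h3 : FF g p * m * y ^ 2 / r ^ 2 ≤ FF g p * (κ p.2 * φ p.2) * y ^ 2 / r ^ 2 := by
      have h3 : m ≤ κ p.2 * φ p.2 := min_le_right _ _
      gcongr
    rw [h1]
    have h4 := mul_le_mul_of_nonneg_left (add_le_add (h2.trans E1) (h3.trans E2)) hK.le
    linarith

end Pool.Agent.LandauF
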