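import Pool.Agent.LandauF.NT1
import Pool.Agent.LandauF.NT2
import Pool.Agent.LandauF.NT3
import Pool.Agent.LandauF.NT4
import Pool.Agent.LandauF.NT5

/-!
# LandauF, module NPt: the pointwise near bound

Sum of NT1 - NT5 over `a, b` with the factor `½` and `τ = 1/4000`:
`∑_ab QD g a b v w = WD g v w + WD g w v`, `½ (1/4 - 1/4000) ∑ = (1/8 - 1/8000) (WD + WD*)`, and the
three other `τ` terms cost `3/8000`.
-/

set_option autoImplicit false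

namespace Pool.Agent.LandauF

open MeasureTheory Set Filter Topology Pool.Agent.Landau

private theorem NPt_combine {K K' D S E T1 T2 T3 T4 T5 c2 c3 c4 c5 : ℝ}
    (h1 : -T1 ≤ -((1 / 4 - 1 / 2000) * (K * D)))
    (h2 : |T2| ≤ 1 / 2000 * (K * D) + c2 * E)
    (h3 : |T3| ≤ 1 / 2000 * (K * D) + c3 * E)
    (h4 : -T4 ≤ (3 / 4) * (K' * S) + 1 / 2000 * (K * D) + c4 * E)
    (h5 : |T5| ≤ c5 * E) :
    (1 / 2) * (-T1 - T2 + T3 - T4 - T5) ≤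
      -((1 / 8 - 1 / 1000) * (K * D)) + (3 / 8) * (K' * S) + (c2 + c3 + c4 + c5) / 2 * E := by
  have h2' := (abs_le.1 h2).1
  have h3' := (abs_le.1 h3).2
  have h5' := (abs_le.1 h5).1
  linarith

/-- The pointwise near bound. -/
theorem near_pt : ∃ C ε₀ : ℝ, 0 < C ∧ 0 < ε₀ ∧
    ∀ φ ϱ κ g : V → ℝ, Adm ε₀ φ ϱ κ → Dn g → ∀ (ε δ : ℝ) (p : V × V),
      0 < ε → 0 < δ → δ < ϱ (mid p.1 p.2) → p.1 ≠ p.2 →
      InN ε ϱ δ φ g p ≤
        -((1 / 8 - 1 / 1000) * (BB ε ϱ δ p * FF g p * φ (mid p.1 p.2) *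
          (WD g p.1 p.2 + WD g p.2 p.1)))
        + (3 / 8) * (BB ε ϱ δ p * FF g p * φ (mid p.1 p.2) * (rE ε p ^ 2)⁻¹ *
          ∑ a : Fin 3, ∑ b : Fin 3,
            XX g a b p.1 p.2 * ∑ l : Fin 3, (p.1 l - p.2 l) * XL g a b l p.1 p.2)
        + C * (EN φ ϱ κ g p.1 p.2 + EN φ ϱ κ g p.2 p.1) := by
  obtain ⟨e1, he1, H1⟩ := NT1 (1 / 2000) (by norm_num)
  obtain ⟨C2, e2, hC2, he2, H2⟩ := NT2 (1 / 2000) (by norm_num)
  obtain ⟨C3, e3, hC3, he3, H3⟩ := NT3 (1 / 2000) (by norm_num)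
  obtain ⟨C4, e4, hC4, he4, H4⟩ := NT4 (1 / 2000) (by norm_num)
  obtain ⟨C5, e5, hC5, he5, H5⟩ := NT5
  refine ⟨9 * ((C2 + C3 + C4 + C5) / 2), min e1 (min e2 (min e3 (min e4 e5))), by positivity,
    lt_min he1 (lt_min he2 (lt_min he3 (lt_min he4 he5))), ?_⟩
  intro φ ϱ κ g hA hg ε δ p hε hδ hδϱ hp
  have hA1 : Adm e1 φ ϱ κ := hA.mono (min_le_left _ _)
  have hA2 : Adm e2 φ ϱ κ := hA.mono ((min_le_right _ _).trans (min_le_left _ _))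
  have hA3 : Adm e3 φ ϱ κ :=
    hA.mono ((min_le_right _ _).trans ((min_le_right _ _).trans (min_le_left _ _)))
  have hA4 : Adm e4 φ ϱ κ := hA.mono ((min_le_right _ _).trans
    ((min_le_right _ _).trans ((min_le_right _ _).trans (min_le_left _ _))))
  have hA5 : Adm e5 φ ϱ κ := hA.mono ((min_le_right _ _).trans
    ((min_le_right _ _).trans ((min_le_right _ _).trans (min_le_right _ _))))
  set K : ℝ := BB ε ϱ δ p * FF g p * φ (mid p.1 p.2) with hK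
  set E : ℝ := EN φ ϱ κ g p.1 p.2 + EN φ ϱ κ g p.2 p.1 with hE
  have key : ∀ a b : Fin 3, (1 / 2) * Iab (BB ε ϱ δ) φ g a b p ≤
      -((1 / 8 - 1 / 1000) * (K * QD g a b p.1 p.2))
        + (3 / 8) * ((K * (rE ε p ^ 2)⁻¹) *
          (XX g a b p.1 p.2 * ∑ l : Fin 3, (p.1 l - p.2 l) * XL g a b l p.1 p.2))
        + (C2 + C3 + C4 + C5) / 2 * E := by
    intro a b
    exact NPt_combine (H1 φ ϱ κ g hA1 hg ε δ a b p hε hδ hδϱ hp)
      (H2 φ ϱ κ g hA2 hg ε δ a b p hε hδ hδϱ hp) (H3 φ ϱ κ g hA3 hg ε δ a b p hε hδ hδϱ hp)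
      (H4 φ ϱ κ g hA4 hg ε δ a b p hε hδ hδϱ hp) (H5 φ ϱ κ g hA5 hg ε δ a b p hε hδ hδϱ hp)
  have hsum : InN ε ϱ δ φ g p ≤ ∑ a : Fin 3, ∑ b : Fin 3,
      (-((1 / 8 - 1 / 1000) * (K * QD g a b p.1 p.2))
        + (3 / 8) * ((K * (rE ε p ^ 2)⁻¹) *
          (XX g a b p.1 p.2 * ∑ l : Fin 3, (p.1 l - p.2 l) * XL g a b l p.1 p.2))
        + (C2 + C3 + C4 + C5) / 2 * E) :=
    Finset.sum_le_sum fun a _ => Finset.sum_le_sum fun b _ => key a b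
  refine hsum.trans (le_of_eq ?_)
  have hQ : ∑ a : Fin 3, ∑ b : Fin 3, QD g a b p.1 p.2 = WD g p.1 p.2 + WD g p.2 p.1 := by
    unfold QD WD
    simp only [Finset.sum_add_distrib]
  have h1 : ∑ a : Fin 3, ∑ b : Fin 3, -((1 / 8 - 1 / 1000) * (K * QD g a b p.1 p.2)) =
      -((1 / 8 - 1 / 1000) * (K * (WD g p.1 p.2 + WD g p.2 p.1))) := by
    rw [← hQ]
    simp only [Finset.mul_sum, Finset.sum_neg_distrib]
  have h2 : ∑ a : Fin 3, ∑ b : Fin 3, (3 / 8) * ((K * (rE ε p ^ 2)⁻¹) *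
      (XX g a b p.1 p.2 * ∑ l : Fin 3, (p.1 l - p.2 l) * XL g a b l p.1 p.2)) =
      (3 / 8) * ((K * (rE ε p ^ 2)⁻¹) * ∑ a : Fin 3, ∑ b : Fin 3,
      (XX g a b p.1 p.2 * ∑ l : Fin 3, (p.1 l - p.2 l) * XL g a b l p.1 p.2)) := by
    simp only [← Finset.mul_sum]
  have h3 : ∑ a : Fin 3, ∑ b : Fin 3, (C2 + C3 + C4 + C5) / 2 * E =
      9 * ((C2 + C3 + C4 + C5) / 2) * E := by
    simp only [Finset.sum_const, Finset.card_univ, Fintype.card_fin, nsmul_eq_mul]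
    push_cast
    ring
  simp only [Finset.sum_add_distrib]
  rw [h3, h1, h2]

end Pool.Agent.LandauF
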