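import Pool.Agent.LandauF.NAdm

/-!
# LandauF, module NT1: the main near term

Notation: `p = (v, w)`, `r = ‖v - w‖`, `B = BB ε ϱ δ`, `F = FF g`, `u = uu g`, `X = gam · g`,
`φ_c = φ(mid)`, `D² = QD g a b v w = ∑_l DX(v,w)² + ∑_l DX(w,v)²`, `En = EN(v,w) + EN(w,v)`.
If `r² > SS` then `eta` and its gradient vanish at `p`, so both sides are `≥ 0` and the left side is `0`.
Otherwise use `near_sizes`, `weight_cmp`, `weight_cmp3` (module NAdm), the explicit formulas of NTrans and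
Young's inequality.  `B ≤ r⁻³`, `kN ϱ v w = 1/r²` on the near zone.

Here `qq φ (RR u) (RR u) = ¼ (φ(v) ∑ DX(v,w)² + φ(w) ∑ DX(w,v)²)` and `φ(v), φ(w) ≥ (1 - 6 ε₀) φ_c`.
-/

set_option autoImplicit false

namespace Pool.Agent.LandauF

open MeasureTheory Set Filter Topology Pool.Agent.Landau

private theorem nt1_BB_nonneg {ε : ℝ} (ϱ : V → ℝ) (δ : ℝ) (p : V × V) : 0 ≤ BB ε ϱ δ p := by
  unfold BB bet rE
  have h1 := eta_nonneg ϱ δ p
  have h2 := Real.pi_pos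
  positivity

theorem NT1 (τ : ℝ) (hτ : 0 < τ) : ∃ ε₀ : ℝ, 0 < ε₀ ∧
    ∀ φ ϱ κ g : V → ℝ, Adm ε₀ φ ϱ κ → Dn g → ∀ (ε δ : ℝ) (a b : Fin 3) (p : V × V),
      0 < ε → 0 < δ → δ < ϱ (mid p.1 p.2) → p.1 ≠ p.2 →
      -(BB ε ϱ δ p * FF g p * qq φ (RR a b (uu g)) (RR a b (uu g)) p) ≤
        -((1 / 4 - τ) * (BB ε ϱ δ p * FF g p * φ (mid p.1 p.2) * QD g a b p.1 p.2)) := by
  refine ⟨min (1 / 100) (τ / 2), by positivity, ?_⟩
  intro φ ϱ κ g hA hg ε δ a b p hε hδ h1 _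
  have he1 : min (1 / 100) (τ / 2) ≤ 1 / 100 := min_le_left _ _
  have he2 : min (1 / 100) (τ / 2) ≤ τ / 2 := min_le_right _ _
  set ε₀ := min (1 / 100) (τ / 2) with hε₀
  by_cases h2 : ‖p.1 - p.2‖ ^ 2 ≤ SS ϱ δ p
  · obtain ⟨_, _, _, _, h3, h4⟩ := weight_cmp3 he1 hA hδ p h1 h2
    set c := φ (mid p.1 p.2) with hc
    have hc0 : 0 ≤ c := hA.nonneg _
    have hv : (1 - 6 * ε₀) * c ≤ φ p.1 := by
      have := (abs_le.1 h3).1
      linarith
    have hw : (1 - 6 * ε₀) * c ≤ φ p.2 := by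
      have := (abs_le.1 h4).1
      linarith
    set S1 := ∑ l : Fin 3, DX g a b l p.1 p.2 ^ 2 with hS1
    set S2 := ∑ l : Fin 3, DX g a b l p.2 p.1 ^ 2 with hS2
    have h5 : 0 ≤ S1 := Finset.sum_nonneg fun l _ => sq_nonneg _
    have h6 : 0 ≤ S2 := Finset.sum_nonneg fun l _ => sq_nonneg _
    have hq : qq φ (RR a b (uu g)) (RR a b (uu g)) p = (1 / 4) * (φ p.1 * S1 + φ p.2 * S2) := by
      unfold qq
      simp only [dv_RR_uu hg, dw_RR_uu hg, hS1, hS2, Finset.mul_sum]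
      rw [← Finset.sum_add_distrib, ← Finset.sum_add_distrib, Finset.mul_sum]
      refine Finset.sum_congr rfl fun l _ => ?_
      ring
    have hQD : QD g a b p.1 p.2 = S1 + S2 := rfl
    have hB := nt1_BB_nonneg (ε := ε) ϱ δ p
    have hF : 0 ≤ FF g p := mul_nonneg (hg.pos _).le (hg.pos _).le
    have hmain : (1 / 4 - τ) * (c * (S1 + S2)) ≤ (1 / 4) * (φ p.1 * S1 + φ p.2 * S2) := by
      have h7 : (1 - 6 * ε₀) * c * S1 ≤ φ p.1 * S1 := mul_le_mul_of_nonneg_right hv h5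
      have h8 : (1 - 6 * ε₀) * c * S2 ≤ φ p.2 * S2 := mul_le_mul_of_nonneg_right hw h6
      have h9 : 0 ≤ c * (S1 + S2) := mul_nonneg hc0 (add_nonneg h5 h6)
      have h10 : (1 / 4 - τ) * (c * (S1 + S2)) ≤ (1 / 4) * ((1 - 6 * ε₀) * (c * (S1 + S2))) := by
        have : (1 / 4 - τ) ≤ (1 / 4) * (1 - 6 * ε₀) := by linarith
        calc (1 / 4 - τ) * (c * (S1 + S2)) ≤ ((1 / 4) * (1 - 6 * ε₀)) * (c * (S1 + S2)) :=
              mul_le_mul_of_nonneg_right this h9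
          _ = _ := by ring
      nlinarith
    rw [hq, hQD]
    have h11 := mul_le_mul_of_nonneg_left hmain (mul_nonneg hB hF)
    have e1 : (1 / 4 - τ) * (BB ε ϱ δ p * FF g p * c * (S1 + S2)) =
        BB ε ϱ δ p * FF g p * ((1 / 4 - τ) * (c * (S1 + S2))) := by ring
    rw [e1]
    linarith
  · have h3 : BB ε ϱ δ p = 0 := by
      unfold BB
      rw [eta_zero hδ (not_le.1 h2).le, mul_zero]
    rw [h3]
    simp

end Pool.Agent.LandauF
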