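import Pool.Agent.LandauF.RWt
import Pool.Agent.LandauF.LAlg
import Pool.Agent.LandauF.NTrans

/-!
# LandauF, module RAvg: averaging over cells

`diss_avg`: for a measurable set `Y` in the ball of radius `1 - 2 s`: by Tonelli
`∫_{y ∈ Y} φ(y) DE(1_{B_2s(y)}) dy ≤ DE(v ↦ ∫_Y φ(y) 1_{‖v-y‖ ≤ 2s} dy)`, and this weight is at most
`2 φ(v) |B_2s| ≤ 68 s³ φ(v)` (`wt_cmp`).  (`DE` is linear in nonnegative weights, `TQ, HZ ≥ 0`.)
`mass_avg`: for `M` in the ball of radius `1 - 2 s`, `Y = {y : ∃ v ∈ M, ‖y - v‖ ≤ s}` contains the ball of radius `s`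
about each `v ∈ M`: `∫_{y ∈ Y} φ(y) (∫_{B_s(y)} F) dy ≥ ½ |B_s| ∫_M φ F ≥ 2 s³ ∫_M φ F` for `F ≥ 0`.
-/

set_option autoImplicit false

namespace Pool.Agent.LandauF

open MeasureTheory Set Filter Topology Pool.Agent.Landau

private theorem ravg_wt_cont {Ψ : V → ℝ} {s k : ℝ} (hΨ : SlOK Ψ s) : Continuous (wt k Ψ) := by
  unfold wt
  have h1 : Continuous Ψ := hΨ.smooth.continuous
  have h2 : Continuous (chi 1) := (chi_smooth 1).continuous
  exact (Real.continuous_exp.comp (continuous_const.mul h1).neg).mul (h2.pow 6)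

private theorem ravg_TQ_cont {g : V → ℝ} (hg : Dn g) :
    Continuous fun p : V × V => TQ g p.1 p.2 := by
  have h1 : ∀ i j, Continuous (hs g i j) := fun i j => (smooth_pd (gam_smooth hg j) i).continuous
  have h3 : ∀ i j, Continuous fun p : V × V => hs g i j p.1 := fun i j =>
    (h1 i j).comp continuous_fst
  have h4 : ∀ j : Fin 3, Continuous fun p : V × V => p.1 j - p.2 j := by
    intro j
    fun_prop
  have h5 : Continuous fun p : V × V => ‖p.1 - p.2‖ := (continuous_fst.sub continuous_snd).norm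
  have h6 : ∀ i, Continuous fun p : V × V => hz g i p.1 p.2 := by
    intro i
    unfold hz
    exact continuous_finset_sum _ fun j _ => (h3 i j).mul (h4 j)
  have h7 : Continuous fun p : V × V => zhz g p.1 p.2 := by
    unfold zhz
    exact continuous_finset_sum _ fun i _ => (h6 i).mul (h4 i)
  have h8 : Continuous fun p : V × V => trh g p.1 := by
    unfold trh
    exact continuous_finset_sum _ fun i _ => h3 i i
  have h9 : Continuous fun p : V × V => Pool.Agent.LandauF.h2 g p.1 := by
    unfold Pool.Agent.LandauF.h2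
    exact continuous_finset_sum _ fun i _ => continuous_finset_sum _ fun j _ => (h3 i j).pow 2
  unfold TQ
  exact ((((h5.pow 4).mul h9).sub ((continuous_const.mul (h5.pow 2)).mul
    (continuous_finset_sum _ fun i _ => (h6 i).pow 2))).add (h7.pow 2)).sub
    (continuous_const.mul ((((h5.pow 2).mul h8).sub h7).pow 2))

private theorem ravg_HZ_cont {g : V → ℝ} (hg : Dn g) :
    Continuous fun p : V × V => HZ g p.1 p.2 := by
  have h1 : ∀ i j, Continuous (hs g i j) := fun i j => (smooth_pd (gam_smooth hg j) i).continuous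
  have h3 : ∀ i j, Continuous fun p : V × V => hs g i j p.1 := fun i j =>
    (h1 i j).comp continuous_fst
  have h4 : ∀ j : Fin 3, Continuous fun p : V × V => p.1 j - p.2 j := by
    intro j
    fun_prop
  unfold HZ
  exact continuous_finset_sum _ fun a _ => continuous_finset_sum _ fun b _ =>
    continuous_finset_sum _ fun l _ => (((h4 a).mul (h3 b l)).sub ((h4 b).mul (h3 a l))).pow 2

private theorem ravg_DE {φ : V → ℝ} (hφ : ∀ v, 0 ≤ φ v) (ϱ g : V → ℝ) :
    DE φ ϱ g = (∫⁻ v, ENNReal.ofReal (φ v) *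
        ∫⁻ w, ENNReal.ofReal (g v * g w * TQ g v w / ‖v - w‖ ^ 5)) +
      ∫⁻ v, ENNReal.ofReal (φ v) * ∫⁻ w, ENNReal.ofReal
        (if ϱ (mid v w) ≤ ‖v - w‖ then g v * g w * HZ g v w / ‖v - w‖ ^ 3 else 0) := by
  unfold DE
  congr 1
  · refine lintegral_congr fun v => ?_
    rw [← lintegral_const_mul' _ _ ENNReal.ofReal_ne_top]
    refine lintegral_congr fun w => ?_
    rw [← ENNReal.ofReal_mul (hφ v)]
    congr 1
    ring
  · refine lintegral_congr fun v => ?_
    rw [← lintegral_const_mul' _ _ ENNReal.ofReal_ne_top]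
    refine lintegral_congr fun w => ?_
    rw [← ENNReal.ofReal_mul (hφ v)]
    congr 1
    split_ifs
    · ring
    · ring

private theorem ravg_vol (x : V) {r : ℝ} (hr : 0 ≤ r) :
    (volume (Metric.closedBall x r)).toReal = r ^ 3 * (Real.pi * 4 / 3) := by
  have h0 : (0 : ℝ) ≤ Real.pi * 4 / 3 := by positivity
  rw [EuclideanSpace.volume_closedBall_fin_three, ENNReal.toReal_mul, ENNReal.toReal_pow,
    ENNReal.toReal_ofReal hr, ENNReal.toReal_ofReal h0]

private theorem ravg_vol' (x : V) {r : ℝ} (hr : 0 ≤ r) :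
    volume (Metric.closedBall x r) = ENNReal.ofReal (r ^ 3 * (Real.pi * 4 / 3)) := by
  have h0 : (0 : ℝ) ≤ Real.pi * 4 / 3 := by positivity
  rw [EuclideanSpace.volume_closedBall_fin_three, ENNReal.ofReal_mul (by positivity),
    ENNReal.ofReal_pow hr]

private theorem ravg_ind_meas (t : ℝ) : Measurable fun p : V × V =>
    ENNReal.ofReal (indicator (Metric.closedBall p.1 t) (1 : V → ℝ) p.2) := by
  have e : (fun p : V × V => indicator (Metric.closedBall p.1 t) (1 : V → ℝ) p.2) =
      indicator {p : V × V | dist p.2 p.1 ≤ t} (fun _ => (1 : ℝ)) := by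
    funext p
    by_cases h : dist p.2 p.1 ≤ t
    · rw [indicator_of_mem (Metric.mem_closedBall.2 h), indicator_of_mem (by exact h)]
      rfl
    · rw [indicator_of_notMem (fun h' => h (Metric.mem_closedBall.1 h')),
        indicator_of_notMem (by exact h)]
  have e' : (fun p : V × V => ENNReal.ofReal (indicator (Metric.closedBall p.1 t) (1 : V → ℝ) p.2)) =
      ENNReal.ofReal ∘ indicator {p : V × V | dist p.2 p.1 ≤ t} (fun _ => (1 : ℝ)) := by
    rw [← e]
    rfl
  rw [e']
  refine ENNReal.measurable_ofReal.comp (measurable_const.indicator ?_)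
  exact (isClosed_le (continuous_snd.dist continuous_fst) continuous_const).measurableSet

private theorem ravg_pt {Ψ : V → ℝ} {s k : ℝ} (hs : 0 < s) (h1 : s ≤ 1 / 100) (hk : 0 ≤ k)
    (h2 : k * s ≤ 1 / 100) (hΨ : SlOK Ψ s) (Y : Set V) (hY : MeasurableSet Y)
    (hYb : ∀ y ∈ Y, ‖y‖ ≤ 1 - 2 * s) (v : V) :
    ∫⁻ y in Y, ENNReal.ofReal (wt k Ψ y) *
      ENNReal.ofReal (indicator (Metric.closedBall y (2 * s)) (1 : V → ℝ) v) ≤
      ENNReal.ofReal (68 * s ^ 3) * ENNReal.ofReal (wt k Ψ v) := by
  have hw0 : ∀ v, 0 ≤ wt k Ψ v := fun v => (wt_bd hk hΨ v).1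
  rw [← lintegral_indicator hY]
  by_cases hv : ∃ y ∈ Y, dist v y ≤ 2 * s
  · obtain ⟨y₀, hy₀, hvy₀⟩ := hv
    have hv1 : ‖v‖ ≤ 1 := by
      have h3 := hYb y₀ hy₀
      have h4 : ‖v‖ ≤ ‖y₀‖ + dist v y₀ := by
        rw [dist_eq_norm]
        have := norm_add_le y₀ (v - y₀)
        rwa [add_sub_cancel] at this
      linarith
    have hle : ∀ y, indicator Y (fun y => ENNReal.ofReal (wt k Ψ y) *
          ENNReal.ofReal (indicator (Metric.closedBall y (2 * s)) (1 : V → ℝ) v)) y ≤
        indicator (Metric.closedBall v (2 * s)) (fun _ => ENNReal.ofReal (2 * wt k Ψ v)) y := by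
      intro y
      by_cases hy : y ∈ Y
      · rw [indicator_of_mem hy]
        by_cases hyv : dist v y ≤ 2 * s
        · rw [indicator_of_mem (Metric.mem_closedBall.2 hyv),
            indicator_of_mem (Metric.mem_closedBall.2 (by rwa [dist_comm]))]
          have h5 := wt_cmp hs h1 hk h2 hΨ y v (by linarith [hYb y hy]) hv1 (by
            rw [← dist_eq_norm, dist_comm]
            linarith)
          rw [Pi.one_apply, ENNReal.ofReal_one, mul_one]
          exact ENNReal.ofReal_le_ofReal h5
        · rw [indicator_of_notMem (fun h' => hyv (Metric.mem_closedBall.1 h')),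
            ENNReal.ofReal_zero, mul_zero]
          exact zero_le
      · rw [indicator_of_notMem hy]
        exact zero_le
    refine (lintegral_mono hle).trans ?_
    rw [lintegral_indicator Metric.isClosed_closedBall.measurableSet, setLIntegral_const,
      ravg_vol' v (by linarith), ← ENNReal.ofReal_mul (by linarith [hw0 v]),
      ← ENNReal.ofReal_mul (by positivity)]
    apply ENNReal.ofReal_le_ofReal
    have h6 := Real.pi_lt_d2
    have h7 : 0 ≤ s ^ 3 * wt k Ψ v := mul_nonneg (by positivity) (hw0 v)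
    nlinarith
  · push Not at hv
    have e3 : (fun y => indicator Y (fun y => ENNReal.ofReal (wt k Ψ y) *
        ENNReal.ofReal (indicator (Metric.closedBall y (2 * s)) (1 : V → ℝ) v)) y) =
        fun _ => 0 := by
      funext y
      by_cases hy : y ∈ Y
      · rw [indicator_of_mem hy, indicator_of_notMem (fun h' =>
          absurd (Metric.mem_closedBall.1 h') (not_le.2 (hv y hy))), ENNReal.ofReal_zero, mul_zero]
      · rw [indicator_of_notMem hy]
    rw [e3, lintegral_zero]
    exact zero_le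

private theorem ravg_one {Ψ : V → ℝ} {s k : ℝ} (hs : 0 < s) (h1 : s ≤ 1 / 100) (hk : 0 ≤ k)
    (h2 : k * s ≤ 1 / 100) (hΨ : SlOK Ψ s) (Y : Set V) (hY : MeasurableSet Y)
    (hYb : ∀ y ∈ Y, ‖y‖ ≤ 1 - 2 * s) (A : V → ENNReal) (hA : Measurable A) :
    (Measurable fun y => ENNReal.ofReal (wt k Ψ y) *
      ∫⁻ v, ENNReal.ofReal (indicator (Metric.closedBall y (2 * s)) (1 : V → ℝ) v) * A v) ∧
    ∫⁻ y in Y, ENNReal.ofReal (wt k Ψ y) *
      (∫⁻ v, ENNReal.ofReal (indicator (Metric.closedBall y (2 * s)) (1 : V → ℝ) v) * A v) ≤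
      ENNReal.ofReal (68 * s ^ 3) * ∫⁻ v, ENNReal.ofReal (wt k Ψ v) * A v := by
  have hw : Measurable (wt k Ψ) := (ravg_wt_cont hΨ).measurable
  obtain ⟨I, hI⟩ : ∃ I : V → V → ENNReal, I = fun y v =>
    ENNReal.ofReal (indicator (Metric.closedBall y (2 * s)) (1 : V → ℝ) v) := ⟨_, rfl⟩
  obtain ⟨ω, hω⟩ : ∃ ω : V → ENNReal, ω = fun y => ENNReal.ofReal (wt k Ψ y) := ⟨_, rfl⟩
  have hωm : Measurable ω := by
    rw [hω]
    exact ENNReal.measurable_ofReal.comp hw
  have hωt : ∀ y, ω y ≠ ⊤ := by
    intro y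
    rw [hω]
    exact ENNReal.ofReal_ne_top
  have hIm : Measurable fun p : V × V => I p.1 p.2 := by
    rw [hI]
    exact ravg_ind_meas (2 * s)
  have hpt : ∀ v, ∫⁻ y in Y, ω y * I y v ≤ ENNReal.ofReal (68 * s ^ 3) * ω v := by
    intro v
    rw [hω, hI]
    exact ravg_pt hs h1 hk h2 hΨ Y hY hYb v
  have key : (Measurable fun y => ω y * ∫⁻ v, I y v * A v) ∧
      ∫⁻ y in Y, ω y * (∫⁻ v, I y v * A v) ≤ ENNReal.ofReal (68 * s ^ 3) * ∫⁻ v, ω v * A v := by
    have hm : Measurable fun p : V × V => I p.1 p.2 * A p.2 := hIm.mul (hA.comp measurable_snd)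
    constructor
    · exact hωm.mul hm.lintegral_prod_right'
    have e1 : ∫⁻ y in Y, ω y * (∫⁻ v, I y v * A v) = ∫⁻ y in Y, ∫⁻ v, ω y * (I y v * A v) :=
      lintegral_congr fun y => (lintegral_const_mul' _ _ (hωt y)).symm
    have hm3 : Measurable fun p : V × V => ω p.1 * (I p.1 p.2 * A p.2) :=
      (hωm.comp measurable_fst).mul hm
    have e3 : ∫⁻ y in Y, ∫⁻ v, ω y * (I y v * A v) = ∫⁻ v, ∫⁻ y in Y, ω y * (I y v * A v) :=
      lintegral_lintegral_swap (μ := volume.restrict Y) (ν := volume)
        (f := fun y v => ω y * (I y v * A v)) hm3.aemeasurable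
    rw [e1, e3, ← lintegral_const_mul' _ _ ENNReal.ofReal_ne_top]
    refine lintegral_mono fun v => ?_
    have hm2 : Measurable fun y : V => ω y * I y v :=
      hωm.mul (hIm.comp (measurable_id.prodMk measurable_const))
    have e2 : ∫⁻ y in Y, ω y * (I y v * A v) = (∫⁻ y in Y, ω y * I y v) * A v := by
      rw [← lintegral_mul_const _ hm2]
      refine lintegral_congr fun y => ?_
      rw [mul_assoc]
    show ∫⁻ y in Y, ω y * (I y v * A v) ≤ ENNReal.ofReal (68 * s ^ 3) * (ω v * A v)
    rw [e2, ← mul_assoc]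
    exact mul_le_mul_left (hpt v) (A v)
  rw [hω, hI] at key
  exact key

/-- Averaging of the dissipation over cells. -/
theorem diss_avg {g Ψ : V → ℝ} (hg : Dn g) {s k : ℝ} (hs : 0 < s) (h1 : s ≤ 1 / 100) (hk : 0 ≤ k)
    (h2 : k * s ≤ 1 / 100) (hΨ : SlOK Ψ s) (Y : Set V) (hY : MeasurableSet Y)
    (hYb : ∀ y ∈ Y, ‖y‖ ≤ 1 - 2 * s) (ϱ : V → ℝ) (hϱ : Measurable ϱ) :
    ∫⁻ y in Y, ENNReal.ofReal (wt k Ψ y) * DE (indicator (Metric.closedBall y (2 * s)) 1) ϱ g ≤
      ENNReal.ofReal (68 * s ^ 3) * DE (wt k Ψ) ϱ g := by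
  have hw0 : ∀ v, 0 ≤ wt k Ψ v := fun v => (wt_bd hk hΨ v).1
  have hgc : Measurable g := hg.cls.smooth.continuous.measurable
  have hn : Measurable fun p : V × V => ‖p.1 - p.2‖ :=
    (continuous_fst.sub continuous_snd).norm.measurable
  have hmid : Measurable fun p : V × V => ϱ (mid p.1 p.2) := by
    refine hϱ.comp ?_
    unfold mid
    exact ((continuous_fst.add continuous_snd).const_smul (1 / 2 : ℝ)).measurable
  have hA : Measurable fun v => ∫⁻ w, ENNReal.ofReal (g v * g w * TQ g v w / ‖v - w‖ ^ 5) := by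
    have h3 : Measurable fun p : V × V =>
        ENNReal.ofReal (g p.1 * g p.2 * TQ g p.1 p.2 / ‖p.1 - p.2‖ ^ 5) :=
      ENNReal.measurable_ofReal.comp ((((hgc.comp measurable_fst).mul
        (hgc.comp measurable_snd)).mul (ravg_TQ_cont hg).measurable).div (hn.pow_const 5))
    exact h3.lintegral_prod_right'
  have hB : Measurable fun v => ∫⁻ w, ENNReal.ofReal
      (if ϱ (mid v w) ≤ ‖v - w‖ then g v * g w * HZ g v w / ‖v - w‖ ^ 3 else 0) := by
    have h3 : Measurable fun p : V × V => ENNReal.ofReal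
        (if ϱ (mid p.1 p.2) ≤ ‖p.1 - p.2‖ then g p.1 * g p.2 * HZ g p.1 p.2 / ‖p.1 - p.2‖ ^ 3
          else 0) :=
      ENNReal.measurable_ofReal.comp (Measurable.ite (measurableSet_le hmid hn)
        ((((hgc.comp measurable_fst).mul (hgc.comp measurable_snd)).mul
          (ravg_HZ_cont hg).measurable).div (hn.pow_const 3)) measurable_const)
    exact h3.lintegral_prod_right'
  obtain ⟨a1, a2⟩ := ravg_one hs h1 hk h2 hΨ Y hY hYb _ hA
  obtain ⟨b1, b2⟩ := ravg_one hs h1 hk h2 hΨ Y hY hYb _ hB
  have e1 : ∀ y, ENNReal.ofReal (wt k Ψ y) *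
      DE (indicator (Metric.closedBall y (2 * s)) 1) ϱ g = ENNReal.ofReal (wt k Ψ y) *
        (∫⁻ v, ENNReal.ofReal (indicator (Metric.closedBall y (2 * s)) (1 : V → ℝ) v) *
          ∫⁻ w, ENNReal.ofReal (g v * g w * TQ g v w / ‖v - w‖ ^ 5)) +
        ENNReal.ofReal (wt k Ψ y) *
        (∫⁻ v, ENNReal.ofReal (indicator (Metric.closedBall y (2 * s)) (1 : V → ℝ) v) *
          ∫⁻ w, ENNReal.ofReal
            (if ϱ (mid v w) ≤ ‖v - w‖ then g v * g w * HZ g v w / ‖v - w‖ ^ 3 else 0)) := by
    intro y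
    rw [ravg_DE (φ := indicator (Metric.closedBall y (2 * s)) (1 : V → ℝ))
      (fun v => indicator_nonneg (fun _ _ => zero_le_one) v), mul_add]
  rw [lintegral_congr e1, lintegral_add_left a1, ravg_DE hw0, mul_add]
  exact add_le_add a2 b2

/-- Fubini for cells -/
private theorem ravg_fub (Z : Set V) (hZ : MeasurableSet Z) (hZb : ∀ y ∈ Z, ‖y‖ ≤ 2) (t : ℝ)
    (W F : V → ℝ) (hW : Continuous W) (hF : Continuous F) :
    Integrable (fun v => F v * ∫ y in Z ∩ Metric.closedBall v t, W y) ∧
      ∫ y in Z, W y * (∫ v in Metric.closedBall y t, F v) =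
        ∫ v, F v * ∫ y in Z ∩ Metric.closedBall v t, W y := by
  obtain ⟨K', hK'⟩ : ∃ K' : Set (V × V), K' = {z | z.1 ∈ Z ∧ dist z.2 z.1 ≤ t} := ⟨_, rfl⟩
  have hK'm : MeasurableSet K' := by
    rw [hK']
    exact (measurable_fst hZ).inter
      (isClosed_le (continuous_snd.dist continuous_fst) continuous_const).measurableSet
  have hK'b : K' ⊆ Metric.closedBall (0 : V) 2 ×ˢ Metric.closedBall (0 : V) (2 + t) := by
    intro z hz
    rw [hK'] at hz
    obtain ⟨hz1, hz2⟩ := hz
    refine ⟨?_, ?_⟩
    · rw [mem_closedBall_zero_iff]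
      exact hZb _ hz1
    · rw [mem_closedBall_zero_iff]
      have h3 := hZb _ hz1
      have h4 : ‖z.2‖ ≤ ‖z.1‖ + dist z.2 z.1 := by
        rw [dist_eq_norm]
        have := norm_add_le z.1 (z.2 - z.1)
        rwa [add_sub_cancel] at this
      linarith
  have hint : Integrable (K'.indicator fun z : V × V => W z.1 * F z.2)
      ((volume : Measure V).prod volume) := by
    rw [integrable_indicator_iff hK'm]
    refine IntegrableOn.mono_set ?_ hK'b
    exact ((hW.comp continuous_fst).mul (hF.comp continuous_snd)).continuousOn.integrableOn_compact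
      ((isCompact_closedBall _ _).prod (isCompact_closedBall _ _))
  have e1 : ∀ y : V, ∫ v, K'.indicator (fun z : V × V => W z.1 * F z.2) (y, v) =
      Z.indicator (fun y => W y * ∫ v in Metric.closedBall y t, F v) y := by
    intro y
    by_cases hy : y ∈ Z
    · rw [indicator_of_mem hy, ← integral_const_mul,
        ← integral_indicator Metric.isClosed_closedBall.measurableSet]
      congr 1
      funext v
      by_cases hv : dist v y ≤ t
      · rw [indicator_of_mem (Metric.mem_closedBall.2 hv), indicator_of_mem]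
        rw [hK']
        exact ⟨hy, hv⟩
      · rw [indicator_of_notMem (fun h => hv (Metric.mem_closedBall.1 h)), indicator_of_notMem]
        rw [hK']
        exact fun h => hv h.2
    · rw [indicator_of_notMem hy]
      have : (fun v => K'.indicator (fun z : V × V => W z.1 * F z.2) (y, v)) = fun _ => 0 := by
        funext v
        rw [indicator_of_notMem]
        rw [hK']
        exact fun h => hy h.1
      rw [this, integral_zero]
  have e2 : ∀ v : V, ∫ y, K'.indicator (fun z : V × V => W z.1 * F z.2) (y, v) =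
      F v * ∫ y in Z ∩ Metric.closedBall v t, W y := by
    intro v
    rw [← integral_const_mul,
      ← integral_indicator (hZ.inter Metric.isClosed_closedBall.measurableSet)]
    congr 1
    funext y
    by_cases hy : y ∈ Z ∩ Metric.closedBall v t
    · rw [indicator_of_mem hy, indicator_of_mem]
      · ring
      · rw [hK']
        refine ⟨hy.1, ?_⟩
        have := Metric.mem_closedBall.1 hy.2
        rw [dist_comm] at this
        exact this
    · rw [indicator_of_notMem hy, indicator_of_notMem]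
      rw [hK']
      rintro ⟨h3, h4⟩
      exact hy ⟨h3, Metric.mem_closedBall.2 (by rw [dist_comm]; exact h4)⟩
  constructor
  · have h3 := hint.integral_prod_right
    simp only [e2] at h3
    exact h3
  · rw [← integral_indicator hZ]
    have h3 := integral_prod _ hint
    have h4 := integral_prod_symm _ hint
    simp only [e1] at h3
    simp only [e2] at h4
    rw [← h3, ← h4]

open Pointwise in
/-- Averaging of a density over cells. -/
theorem mass_avg {Ψ : V → ℝ} {s k : ℝ} (hs : 0 < s) (h1 : s ≤ 1 / 100) (hk : 0 ≤ k)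
    (h2 : k * s ≤ 1 / 100) (hΨ : SlOK Ψ s) (M : Set V) (hM : IsClosed M)
    (hMb : ∀ v ∈ M, ‖v‖ ≤ 1 - 2 * s) (F : V → ℝ) (hF : Continuous F) (hF0 : ∀ v, 0 ≤ F v) :
    2 * s ^ 3 * (∫ v in M, wt k Ψ v * F v) ≤
      ∫ y in {y : V | ∃ v ∈ M, ‖y - v‖ ≤ s},
        wt k Ψ y * ∫ v in Metric.closedBall y s, F v := by
  have hw : Continuous (wt k Ψ) := ravg_wt_cont hΨ
  have hw0 : ∀ v, 0 ≤ wt k Ψ v := fun v => (wt_bd hk hΨ v).1
  obtain ⟨Z, hZ⟩ : ∃ Z : Set V, Z = {y : V | ∃ v ∈ M, ‖y - v‖ ≤ s} := ⟨_, rfl⟩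
  have hMc : IsCompact M := (isCompact_closedBall (0 : V) 1).of_isClosed_subset hM fun v hv => by
    rw [mem_closedBall_zero_iff]
    linarith [hMb v hv]
  have hZc : IsCompact Z := by
    have e : Z = M + Metric.closedBall (0 : V) s := by
      ext y
      rw [Set.mem_add, hZ]
      constructor
      · rintro ⟨v, hv, hvy⟩
        exact ⟨v, hv, y - v, by rwa [mem_closedBall_zero_iff], by abel⟩
      · rintro ⟨v, hv, x, hx, rfl⟩
        refine ⟨v, hv, ?_⟩
        rw [mem_closedBall_zero_iff] at hx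
        rwa [add_sub_cancel_left]
    rw [e]
    exact hMc.add (isCompact_closedBall _ _)
  have hZb : ∀ y ∈ Z, ‖y‖ ≤ 1 - s := by
    intro y hy
    rw [hZ] at hy
    obtain ⟨v, hv, hvy⟩ := hy
    have h3 := hMb v hv
    have h4 := norm_add_le v (y - v)
    rw [add_sub_cancel] at h4
    linarith
  obtain ⟨f1, f2⟩ := ravg_fub Z hZc.measurableSet (fun y hy => by linarith [hZb y hy]) s
    (wt k Ψ) F hw hF
  rw [← hZ, f2, ← integral_const_mul, ← integral_indicator hM.measurableSet]
  refine integral_mono ?_ f1 fun v => ?_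
  · rw [integrable_indicator_iff hM.measurableSet]
    exact (continuous_const.mul (hw.mul hF)).continuousOn.integrableOn_compact hMc
  · have hpos : 0 ≤ ∫ y in Z ∩ Metric.closedBall v s, wt k Ψ y :=
      integral_nonneg fun y => hw0 y
    by_cases hv : v ∈ M
    · rw [indicator_of_mem hv]
      have hsub : Metric.closedBall v s ⊆ Z := by
        intro y hy
        rw [hZ]
        refine ⟨v, hv, ?_⟩
        rw [← dist_eq_norm]
        exact Metric.mem_closedBall.1 hy
      rw [inter_eq_self_of_subset_right hsub]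
      have h3 : (1 / 2 * wt k Ψ v) * (volume (Metric.closedBall v s)).toReal ≤
          ∫ y in Metric.closedBall v s, wt k Ψ y := by
        have h4 : ∫ _ in Metric.closedBall v s, (1 / 2 * wt k Ψ v) =
            (1 / 2 * wt k Ψ v) * (volume (Metric.closedBall v s)).toReal := by
          rw [setIntegral_const, smul_eq_mul, mul_comm]
          rfl
        rw [← h4]
        refine setIntegral_mono_on ?_ ?_ Metric.isClosed_closedBall.measurableSet fun y hy => ?_
        · exact integrableOn_const (isCompact_closedBall v s).measure_lt_top.ne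
        · exact hw.continuousOn.integrableOn_compact (isCompact_closedBall v s)
        · have h5 := wt_cmp hs h1 hk h2 hΨ v y (by linarith [hMb v hv])
            (by linarith [hZb y (hsub hy)]) (by
              rw [← dist_eq_norm, dist_comm]
              have := Metric.mem_closedBall.1 hy
              linarith)
          linarith
      rw [ravg_vol v hs.le] at h3
      have h6 := Real.pi_gt_three
      have h7 : 0 ≤ s ^ 3 * wt k Ψ v := mul_nonneg (by positivity) (hw0 v)
      have h8 : 2 * s ^ 3 * wt k Ψ v ≤ ∫ y in Metric.closedBall v s, wt k Ψ y := by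
        refine le_trans ?_ h3
        nlinarith
      have h9 := mul_le_mul_of_nonneg_left h8 (hF0 v)
      calc 2 * s ^ 3 * (wt k Ψ v * F v) = F v * (2 * s ^ 3 * wt k Ψ v) := by ring
        _ ≤ _ := h9
    · rw [indicator_of_notMem hv]
      exact mul_nonneg (hF0 v) hpos

/-- Averaging, upper bound. -/
theorem mass_avg_le {Ψ : V → ℝ} {s k : ℝ} (hs : 0 < s) (h1 : s ≤ 1 / 100) (hk : 0 ≤ k)
    (h2 : k * s ≤ 1 / 100) (hΨ : SlOK Ψ s) (F : V → ℝ) (hF : Continuous F) (hF0 : ∀ v, 0 ≤ F v)
    (Y : Set V) (hY : MeasurableSet Y) (hYb : ∀ y ∈ Y, ‖y‖ ≤ 1 - 2 * s) :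
    ∫ y in Y, wt k Ψ y * (∫ v in Metric.closedBall y (2 * s), F v) ≤
      68 * s ^ 3 * ∫ v in Metric.closedBall (0 : V) 1, wt k Ψ v * F v := by
  have hw : Continuous (wt k Ψ) := ravg_wt_cont hΨ
  have hw0 : ∀ v, 0 ≤ wt k Ψ v := fun v => (wt_bd hk hΨ v).1
  obtain ⟨f1, f2⟩ := ravg_fub Y hY (fun y hy => by linarith [hYb y hy]) (2 * s) (wt k Ψ) F hw hF
  rw [f2, ← integral_const_mul, ← integral_indicator Metric.isClosed_closedBall.measurableSet]
  refine integral_mono f1 ?_ fun v => ?_
  · rw [integrable_indicator_iff Metric.isClosed_closedBall.measurableSet]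
    exact (continuous_const.mul (hw.mul hF)).continuousOn.integrableOn_compact
      (isCompact_closedBall _ _)
  · by_cases hv : v ∈ Metric.closedBall (0 : V) 1
    · rw [indicator_of_mem hv]
      rw [mem_closedBall_zero_iff] at hv
      have h3 : ∫ y in Y ∩ Metric.closedBall v (2 * s), wt k Ψ y ≤
          (2 * wt k Ψ v) * (volume (Metric.closedBall v (2 * s))).toReal := by
        have h4 : ∫ _ in Metric.closedBall v (2 * s), (2 * wt k Ψ v) =
            (2 * wt k Ψ v) * (volume (Metric.closedBall v (2 * s))).toReal := by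
          rw [setIntegral_const, smul_eq_mul, mul_comm]
          rfl
        rw [← h4]
        have hcst : IntegrableOn (fun _ : V => 2 * wt k Ψ v) (Metric.closedBall v (2 * s)) :=
          integrableOn_const (isCompact_closedBall v (2 * s)).measure_lt_top.ne
        calc ∫ y in Y ∩ Metric.closedBall v (2 * s), wt k Ψ y
            ≤ ∫ _ in Y ∩ Metric.closedBall v (2 * s), (2 * wt k Ψ v) := by
              refine setIntegral_mono_on ?_ (hcst.mono_set inter_subset_right)
                (hY.inter Metric.isClosed_closedBall.measurableSet) fun y hy => ?_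
              · exact (hw.continuousOn.integrableOn_compact
                  (isCompact_closedBall v (2 * s))).mono_set inter_subset_right
              · refine wt_cmp hs h1 hk h2 hΨ y v (by linarith [hYb y hy.1]) hv ?_
                rw [← dist_eq_norm]
                have := Metric.mem_closedBall.1 hy.2
                linarith
          _ ≤ ∫ _ in Metric.closedBall v (2 * s), (2 * wt k Ψ v) := by
              refine setIntegral_mono_set hcst (ae_of_all _ fun _ => ?_)
                (ae_of_all _ inter_subset_right)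
              exact mul_nonneg (by norm_num) (hw0 v)
      rw [ravg_vol v (by linarith)] at h3
      have h6 := Real.pi_lt_d2
      have h7 : 0 ≤ s ^ 3 * wt k Ψ v := mul_nonneg (by positivity) (hw0 v)
      have h8 : ∫ y in Y ∩ Metric.closedBall v (2 * s), wt k Ψ y ≤ 68 * s ^ 3 * wt k Ψ v := by
        refine h3.trans ?_
        nlinarith
      have h9 := mul_le_mul_of_nonneg_left h8 (hF0 v)
      calc F v * ∫ y in Y ∩ Metric.closedBall v (2 * s), wt k Ψ y ≤
          F v * (68 * s ^ 3 * wt k Ψ v) := h9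
        _ = 68 * s ^ 3 * (wt k Ψ v * F v) := by ring
    · rw [indicator_of_notMem hv]
      have e : Y ∩ Metric.closedBall v (2 * s) = ∅ := by
        rw [eq_empty_iff_forall_notMem]
        rintro y ⟨hy1, hy2⟩
        apply hv
        rw [mem_closedBall_zero_iff]
        have h3 := hYb y hy1
        have h4 := norm_add_le y (v - y)
        rw [add_sub_cancel, ← dist_eq_norm, dist_comm] at h4
        have := Metric.mem_closedBall.1 hy2
        linarith
      rw [e]
      simp

end Pool.Agent.LandauF
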