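import Pool.Agent.LandauF.FDefs

/-!
# LandauF, module RDefs: definitions for the Riccati inequality

`wt k Ψ = exp (-k Ψ) χ⁶`, `χ = chi 1` (`1` on `B_1`, `0` outside `B_2`), `rh s = s χ` the near radius,
`Sl Ψ s R` the points at distance at most `R s` from a point where `∇Ψ ≠ 0`,
`kap K k s Ψ` the bound of the logarithmic gradient.
-/

set_option autoImplicit false

namespace Pool.Agent.LandauF

open MeasureTheory Set Filter Topology Pool.Agent.Landau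

/-- the unit scale weight `exp (-k Ψ) χ⁶`, `χ = 1` on `B_1`, `χ = 0` outside `B_2` -/
noncomputable def wt (k : ℝ) (Ψ : V → ℝ) (v : V) : ℝ := Real.exp (-(k * Ψ v)) * chi 1 v ^ 6

/-- the near radius -/
noncomputable def rh (s : ℝ) (v : V) : ℝ := s * chi 1 v

/-- neighbourhood of the slopes of `Ψ` -/
def Sl (Ψ : V → ℝ) (s R : ℝ) : Set V := {v | ∃ x, ‖x - v‖ ≤ R * s ∧ ∃ i : Fin 3, pd i Ψ x ≠ 0}

open Classical in
/-- bound of the logarithmic gradient of `wt k Ψ` -/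
noncomputable def kap (K k s : ℝ) (Ψ : V → ℝ) (v : V) : ℝ :=
  K * ((if v ∈ Sl Ψ s 8 then k else 0) + (if 1 - 8 * s ≤ ‖v‖ then (chi 1 v)⁻¹ else 0))

/-- the hypotheses on `Ψ` -/
structure SlOK (Ψ : V → ℝ) (s : ℝ) : Prop where
  smooth : ContDiff ℝ (⊤ : ℕ∞) Ψ
  nonneg : ∀ v, 0 ≤ Ψ v
  d1 : ∀ v, ∀ i : Fin 3, |pd i Ψ v| ≤ 1
  d2 : ∀ v, ∀ i j : Fin 3, |pd i (pd j Ψ) v| ≤ 1 / s
  flat : ∀ v, 3 / 4 ≤ ‖v‖ → ∀ i : Fin 3, pd i Ψ v = 0

end Pool.Agent.LandauF
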