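import Pool.Agent.LandauF.RWt
import Pool.Agent.LandauF.Hardy

/-!
# LandauF, module RKap: the near errors on the slopes

Hardy (`hardy_loc`): `∫_{B_2s(v)} g*/r² ≤ C (JB g v (4s) + mB g v (4s)/s²)`.  With `J(y) = JB g y s`,
`S_R = Sl Ψ s R` (`S_R ⊆ B_{7/8}`, since `∇Ψ = 0` for `‖x‖ ≥ 3/4` and `s ≤ 1/100`... for `R ≤ 20`: `3/4 + 1/5 < 1`):
`∫_{S_8} φ fi(v) JB g v (4s) dv ≤ (C/s³) ∫_{S_9} φ(y) JB g y (5s)² dy` (average over `y ∈ B_s(v)`, `wt_cmp`),
`JB g y (5s) ≤ (C/s³) ∫_{‖y'-y‖ ≤ 6s} J(y') dy'`, so by Cauchy-Schwarz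
`JB g y (5s)² ≤ (C/s³) ∫_{‖y'-y‖ ≤ 6s} J(y')² dy'` and
`∫_{S_9} φ(y) JB g y (5s)² dy ≤ C ∫_{S_15} φ(y') J(y')² dy'`.
-/

set_option autoImplicit false

namespace Pool.Agent.LandauF

open MeasureTheory Set Filter Topology Pool.Agent.Landau

/-- kernel of the ball of radius `R` -/
noncomputable def rkK (R : ℝ) (v y : V) : ENNReal :=
  ({p : V × V | ‖p.1 - p.2‖ ≤ R}.indicator (fun _ => (1 : ENNReal))) (v, y)

theorem rkK_meas (R : ℝ) : Measurable (fun p : V × V => rkK R p.1 p.2) := by
  have h : MeasurableSet {p : V × V | ‖p.1 - p.2‖ ≤ R} :=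
    measurableSet_le (by fun_prop) measurable_const
  exact measurable_const.indicator h

theorem rkK_symm (R : ℝ) (v y : V) : rkK R v y = rkK R y v := by
  unfold rkK
  by_cases h : ‖v - y‖ ≤ R
  · rw [indicator_of_mem (show (v, y) ∈ {p : V × V | ‖p.1 - p.2‖ ≤ R} from h),
      indicator_of_mem (show (y, v) ∈ {p : V × V | ‖p.1 - p.2‖ ≤ R} by
        rw [mem_ofPred_eq, norm_sub_rev]; exact h)]
  · rw [indicator_of_notMem (show (v, y) ∉ {p : V × V | ‖p.1 - p.2‖ ≤ R} from h),
      indicator_of_notMem (show (y, v) ∉ {p : V × V | ‖p.1 - p.2‖ ≤ R} by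
        rw [mem_ofPred_eq, norm_sub_rev]; exact h)]

theorem rk_ball (F : V → ENNReal) (R : ℝ) (v : V) :
    ∫⁻ y in Metric.closedBall v R, F y = ∫⁻ y, rkK R v y * F y := by
  rw [← lintegral_indicator measurableSet_closedBall]
  refine lintegral_congr fun y => ?_
  unfold rkK
  by_cases h : ‖v - y‖ ≤ R
  · rw [indicator_of_mem (show (v, y) ∈ {p : V × V | ‖p.1 - p.2‖ ≤ R} from h),
      indicator_of_mem (show y ∈ Metric.closedBall v R by
        rw [mem_closedBall_iff_norm, norm_sub_rev]; exact h), one_mul]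
  · rw [indicator_of_notMem (show (v, y) ∉ {p : V × V | ‖p.1 - p.2‖ ≤ R} from h),
      indicator_of_notMem (show y ∉ Metric.closedBall v R by
        rw [mem_closedBall_iff_norm, norm_sub_rev]; exact h), zero_mul]

theorem rk_ball_meas {F : V → ENNReal} (hF : Measurable F) (R : ℝ) :
    Measurable (fun v : V => ∫⁻ y in Metric.closedBall v R, F y) := by
  simp only [rk_ball]
  exact Measurable.lintegral_prod_right' (f := fun p : V × V => rkK R p.1 p.2 * F p.2)
    ((rkK_meas R).mul (hF.comp measurable_snd))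

/-- exchange of the integrals over a set and over balls -/
theorem rk_exch {F G : V → ENNReal} (hF : Measurable F) (hG : Measurable G) {A B : Set V}
    (hA : MeasurableSet A) (hB : MeasurableSet B) {R : ℝ}
    (h : ∀ v ∈ A, ∀ y, ‖v - y‖ ≤ R → y ∈ B) :
    ∫⁻ v in A, F v * ∫⁻ y in Metric.closedBall v R, G y ≤
      ∫⁻ y in B, G y * ∫⁻ v in Metric.closedBall y R, F v := by
  have h1 : ∫⁻ v in A, F v * ∫⁻ y in Metric.closedBall v R, G y =
      ∫⁻ v, ∫⁻ y, A.indicator (fun _ => (1 : ENNReal)) v * (F v * (rkK R v y * G y)) := by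
    rw [← lintegral_indicator hA]
    refine lintegral_congr fun v => ?_
    by_cases hv : v ∈ A
    · rw [indicator_of_mem hv, indicator_of_mem hv, rk_ball]
      simp only [one_mul]
      rw [lintegral_const_mul]
      exact ((rkK_meas R).comp (measurable_const.prodMk measurable_id)).mul hG
    · rw [indicator_of_notMem hv, indicator_of_notMem hv]
      simp
  have h2 : ∫⁻ y in B, G y * ∫⁻ v in Metric.closedBall y R, F v =
      ∫⁻ y, ∫⁻ v, B.indicator (fun _ => (1 : ENNReal)) y * (F v * (rkK R v y * G y)) := by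
    rw [← lintegral_indicator hB]
    refine lintegral_congr fun y => ?_
    by_cases hy : y ∈ B
    · rw [indicator_of_mem hy, indicator_of_mem hy, rk_ball]
      simp only [one_mul]
      rw [← lintegral_const_mul]
      · refine lintegral_congr fun v => ?_
        rw [rkK_symm R y v]
        ring
      · exact ((rkK_meas R).comp (measurable_const.prodMk measurable_id)).mul hF
    · rw [indicator_of_notMem hy, indicator_of_notMem hy]
      simp
  have hm : Measurable (fun p : V × V => F p.1 * (rkK R p.1 p.2 * G p.2)) :=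
    (hF.comp measurable_fst).mul ((rkK_meas R).mul (hG.comp measurable_snd))
  rw [h1, h2]
  calc ∫⁻ v, ∫⁻ y, A.indicator (fun _ => (1 : ENNReal)) v * (F v * (rkK R v y * G y))
      ≤ ∫⁻ v, ∫⁻ y, B.indicator (fun _ => (1 : ENNReal)) y * (F v * (rkK R v y * G y)) := by
        refine lintegral_mono fun v => lintegral_mono fun y => ?_
        by_cases hv : v ∈ A
        · by_cases hvy : ‖v - y‖ ≤ R
          · show A.indicator (fun _ => (1 : ENNReal)) v * _ ≤ B.indicator (fun _ => (1 : ENNReal)) y * _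
            rw [indicator_of_mem hv, indicator_of_mem (h v hv y hvy)]
          · have : rkK R v y = 0 := by
              unfold rkK
              rw [indicator_of_notMem (show (v, y) ∉ {p : V × V | ‖p.1 - p.2‖ ≤ R} from hvy)]
            simp [this]
        · show A.indicator (fun _ => (1 : ENNReal)) v * _ ≤ _
          rw [indicator_of_notMem hv, zero_mul]
          exact zero_le
    _ = _ := by
        rw [lintegral_lintegral_swap]
        refine Measurable.aemeasurable ?_
        exact ((measurable_const.indicator hB).comp measurable_snd).mul hm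

/-- the averaging argument -/
theorem rk_key {f P : V → ENNReal} (hf : Measurable f) (hP : Measurable P) {S8 S9 S15 : Set V}
    (m8 : MeasurableSet S8) (m9 : MeasurableSet S9) (m15 : MeasurableSet S15) {s : ℝ} (hs : 0 < s)
    (h89 : ∀ v ∈ S8, ∀ y, ‖v - y‖ ≤ s → y ∈ S9)
    (h915 : ∀ v ∈ S9, ∀ y, ‖v - y‖ ≤ 6 * s → y ∈ S15) (h9 : S9 ⊆ S15)
    (hP1 : ∀ v ∈ S8, ∀ y, ‖v - y‖ ≤ s → P v ≤ 2 * P y)
    (hP2 : ∀ v ∈ S15, ∀ y, ‖v - y‖ ≤ 6 * s → P y ≤ 2 * P v) :
    volume (Metric.closedBall (0 : V) s) *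
      ∫⁻ v in S8, P v * f v * (∫⁻ w in Metric.closedBall v (4 * s), f w) ≤
      1296 * ∫⁻ y in S15, P y * (∫⁻ w in Metric.closedBall y s, f w) ^ 2 := by
  set b := volume (Metric.closedBall (0 : V) s) with hb
  have hb0 : b ≠ 0 := (Metric.measure_closedBall_pos _ _ hs).ne'
  have hbt : b ≠ ⊤ := measure_closedBall_lt_top.ne
  have hvol : ∀ v : V, volume (Metric.closedBall v s) = b := fun v =>
    Measure.addHaar_closedBall_center _ _ _
  have hvol6 : ∀ v : V, volume (Metric.closedBall v (6 * s)) = 216 * b := fun v => by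
    rw [Measure.addHaar_closedBall_mul _ _ (by norm_num) hs.le]
    rw [finrank_euclideanSpace_fin]
    congr 1
    rw [show (6 : ℝ) ^ 3 = 216 by norm_num]
    exact ENNReal.ofReal_ofNat 216
  set J : ℝ → V → ENNReal := fun R y => ∫⁻ w in Metric.closedBall y R, f w with hJ
  have mJ : ∀ R, Measurable (J R) := fun R => rk_ball_meas hf R
  have hJmono : ∀ {R R' : ℝ} {v y : V}, ‖v - y‖ + R ≤ R' → J R v ≤ J R' y := by
    intro R R' v y h
    refine lintegral_mono_set ?_
    refine Metric.closedBall_subset_closedBall' ?_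
    rw [dist_eq_norm]
    linarith
  have mA : Measurable (fun v => P v * f v * J (4 * s) v) := (hP.mul hf).mul (mJ _)
  have mB' : Measurable (fun y => P y * J (5 * s) y * J s y) := (hP.mul (mJ _)).mul (mJ _)
  have mC : Measurable (fun y => 2 * (P y * J (5 * s) y)) := (hP.mul (mJ _)).const_mul _
  -- step 2
  have s2 : b * ∫⁻ v in S8, P v * f v * J (4 * s) v ≤
      2 * ∫⁻ y in S9, P y * J (5 * s) y * J s y := by
    calc b * ∫⁻ v in S8, P v * f v * J (4 * s) v
        = ∫⁻ v in S8, f v * (P v * J (4 * s) v * b) := by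
          rw [← lintegral_const_mul _ mA]
          refine lintegral_congr fun v => ?_
          ring
      _ ≤ ∫⁻ v in S8, f v * ∫⁻ y in Metric.closedBall v s, 2 * (P y * J (5 * s) y) := by
          refine setLIntegral_mono' m8 fun v hv => ?_
          refine mul_le_mul_right ?_ _
          rw [← hvol v, ← setLIntegral_const]
          refine setLIntegral_mono' measurableSet_closedBall fun y hy => ?_
          rw [mem_closedBall_iff_norm, norm_sub_rev] at hy
          calc P v * J (4 * s) v ≤ (2 * P y) * J (5 * s) y :=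
                mul_le_mul' (hP1 v hv y hy) (hJmono (by linarith))
            _ = _ := by ring
      _ ≤ ∫⁻ y in S9, (2 * (P y * J (5 * s) y)) * ∫⁻ v in Metric.closedBall y s, f v :=
          rk_exch hf mC m8 m9 h89
      _ = ∫⁻ y in S9, 2 * (P y * J (5 * s) y * J s y) := by
          refine lintegral_congr fun y => ?_
          ring
      _ = _ := by rw [lintegral_const_mul _ mB']
  -- step 3
  have s3 : ∀ y, b * J (5 * s) y ≤ ∫⁻ y' in Metric.closedBall y (6 * s), J s y' := by
    intro y
    calc b * J (5 * s) y = ∫⁻ u in Metric.closedBall y (5 * s),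
          f u * ∫⁻ y' in Metric.closedBall u s, 1 := by
          simp only [setLIntegral_one, hvol]
          rw [lintegral_mul_const _ hf, mul_comm]
      _ ≤ ∫⁻ y' in Metric.closedBall y (6 * s), 1 * ∫⁻ v in Metric.closedBall y' s, f v := by
          refine rk_exch hf measurable_const measurableSet_closedBall measurableSet_closedBall ?_
          intro u hu y' hy'
          rw [mem_closedBall_iff_norm] at hu ⊢
          have : y' - y = (u - y) - (u - y') := by abel
          rw [this]
          have := norm_sub_le (u - y) (u - y')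
          linarith
      _ = _ := by simp only [one_mul]; rfl
  -- step 4
  have hprod : ∀ a c : ENNReal, a * c ≤ a ^ 2 + c ^ 2 := by
    intro a c
    rcases le_total a c with h | h
    · calc a * c ≤ c * c := mul_le_mul_left h c
        _ = c ^ 2 := by ring
        _ ≤ _ := le_add_self
    · calc a * c ≤ a * a := mul_le_mul_right h a
        _ = a ^ 2 := by ring
        _ ≤ _ := le_self_add
  have s4 : b * ∫⁻ y in S9, P y * J (5 * s) y * J s y ≤
      (648 * b) * ∫⁻ y in S15, P y * J s y ^ 2 := by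
    have m2 : Measurable (fun y => P y * J s y ^ 2) := hP.mul ((mJ _).pow_const 2)
    calc b * ∫⁻ y in S9, P y * J (5 * s) y * J s y
        = ∫⁻ y in S9, P y * J s y * (b * J (5 * s) y) := by
          rw [← lintegral_const_mul _ mB']
          refine lintegral_congr fun y => ?_
          ring
      _ ≤ ∫⁻ y in S9, (216 * b * (P y * J s y ^ 2) +
            P y * ∫⁻ y' in Metric.closedBall y (6 * s), J s y' ^ 2) := by
          refine lintegral_mono fun y => ?_
          calc P y * J s y * (b * J (5 * s) y)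
              ≤ P y * J s y * ∫⁻ y' in Metric.closedBall y (6 * s), J s y' :=
                mul_le_mul_right (s3 y) _
            _ = P y * ∫⁻ y' in Metric.closedBall y (6 * s), J s y * J s y' := by
                rw [lintegral_const_mul _ (mJ _), mul_assoc]
            _ ≤ P y * ∫⁻ y' in Metric.closedBall y (6 * s), (J s y ^ 2 + J s y' ^ 2) := by
                refine mul_le_mul_right ?_ _
                exact lintegral_mono fun y' => hprod _ _
            _ = P y * (J s y ^ 2 * (216 * b) + ∫⁻ y' in Metric.closedBall y (6 * s), J s y' ^ 2) := by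
                rw [lintegral_add_left measurable_const, setLIntegral_const, hvol6]
            _ = _ := by ring
      _ = 216 * b * (∫⁻ y in S9, P y * J s y ^ 2) +
            ∫⁻ y in S9, P y * ∫⁻ y' in Metric.closedBall y (6 * s), J s y' ^ 2 := by
          rw [lintegral_add_left (m2.const_mul _), lintegral_const_mul _ m2]
      _ ≤ 216 * b * (∫⁻ y in S15, P y * J s y ^ 2) +
            ∫⁻ y in S15, J s y ^ 2 * ∫⁻ y' in Metric.closedBall y (6 * s), P y' := by
          refine add_le_add (mul_le_mul_right (lintegral_mono_set h9) _) ?_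
          exact rk_exch hP ((mJ _).pow_const 2) m9 m15 h915
      _ ≤ 216 * b * (∫⁻ y in S15, P y * J s y ^ 2) +
            ∫⁻ y in S15, 432 * b * (P y * J s y ^ 2) := by
          refine add_le_add le_rfl ?_
          refine setLIntegral_mono' m15 fun y hy => ?_
          calc J s y ^ 2 * ∫⁻ y' in Metric.closedBall y (6 * s), P y'
              ≤ J s y ^ 2 * ∫⁻ y' in Metric.closedBall y (6 * s), 2 * P y := by
                refine mul_le_mul_right ?_ _
                refine setLIntegral_mono' measurableSet_closedBall fun y' hy' => ?_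
                rw [mem_closedBall_iff_norm, norm_sub_rev] at hy'
                exact hP2 y hy y' hy'
            _ = J s y ^ 2 * (2 * P y * (216 * b)) := by rw [setLIntegral_const, hvol6]
            _ = _ := by ring
      _ = 216 * b * (∫⁻ y in S15, P y * J s y ^ 2) +
            432 * b * ∫⁻ y in S15, (P y * J s y ^ 2) := by
          rw [lintegral_const_mul _ m2]
      _ = _ := by ring
  have s5 : ∫⁻ y in S9, P y * J (5 * s) y * J s y ≤ 648 * ∫⁻ y in S15, P y * J s y ^ 2 := by
    rw [← ENNReal.mul_le_mul_iff_right hb0 hbt]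
    refine s4.trans (le_of_eq ?_)
    ring
  calc b * ∫⁻ v in S8, P v * f v * J (4 * s) v
      ≤ 2 * ∫⁻ y in S9, P y * J (5 * s) y * J s y := s2
    _ ≤ 2 * (648 * ∫⁻ y in S15, P y * J s y ^ 2) := mul_le_mul_right s5 _
    _ = 1296 * ∫⁻ y in S15, P y * J s y ^ 2 := by ring

theorem sl_step {Ψ : V → ℝ} {s R R' : ℝ} {v y : V} (hv : v ∈ Sl Ψ s R) (h : ‖v - y‖ ≤ R' * s) :
    y ∈ Sl Ψ s (R + R') := by
  obtain ⟨x, hx, hi⟩ := hv
  refine ⟨x, ?_, hi⟩
  have : x - y = (x - v) + (v - y) := by abel
  rw [this]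
  have := norm_add_le (x - v) (v - y)
  linarith

theorem sl_norm {Ψ : V → ℝ} {s R : ℝ} (hΨ : SlOK Ψ s) {v : V} (hv : v ∈ Sl Ψ s R) :
    ‖v‖ ≤ 3 / 4 + R * s := by
  obtain ⟨x, hx, i, hi⟩ := hv
  have h1 : ‖x‖ < 3 / 4 := by
    by_contra h
    push Not at h
    exact hi (hΨ.flat x h i)
  have : v = x - (x - v) := by abel
  rw [this]
  have := norm_sub_le x (x - v)
  linarith

theorem rk_fi_cont {g : V → ℝ} (hg : Dn g) : Continuous (fi g) := by
  have h : ∀ i, Continuous (gam i g) := fun i => by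
    unfold gam
    exact (continuous_pd (contDiff_one_of_smooth hg.cls.smooth) i).div hg.cls.smooth.continuous
      (fun v => (hg.pos v).ne')
  unfold fi x2
  exact hg.cls.smooth.continuous.mul (continuous_finsetSum _ fun i _ => (h i).pow 2)

theorem rk_fi_nonneg {g : V → ℝ} (hg : Dn g) (v : V) : 0 ≤ fi g v :=
  mul_nonneg (hg.pos v).le (Finset.sum_nonneg fun _ _ => sq_nonneg _)

/-- ball integrals as lower integrals -/
theorem rk_toReal {q : V → ℝ} (hq : Continuous q) (h0 : ∀ v, 0 ≤ q v) (v : V) (R : ℝ) :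
    ENNReal.ofReal (∫ w in Metric.closedBall v R, q w) =
      ∫⁻ w in Metric.closedBall v R, ENNReal.ofReal (q w) :=
  ofReal_integral_eq_lintegral_ofReal
    (hq.continuousOn.integrableOn_compact (isCompact_closedBall _ _))
    (Eventually.of_forall fun w => h0 w)

theorem rk_meas {q : V → ℝ} (hq : Continuous q) (h0 : ∀ v, 0 ≤ q v) (R : ℝ) :
    Measurable (fun v : V => ∫ w in Metric.closedBall v R, q w) := by
  have h : (fun v : V => ∫ w in Metric.closedBall v R, q w) =
      fun v => (∫⁻ w in Metric.closedBall v R, ENNReal.ofReal (q w)).toReal := by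
    funext v
    rw [← rk_toReal hq h0, ENNReal.toReal_ofReal (integral_nonneg fun w => h0 w)]
  rw [h]
  exact (rk_ball_meas hq.measurable.ennreal_ofReal R).ennreal_toReal

theorem rk_mono {q : V → ℝ} (hq : Continuous q) (h0 : ∀ v, 0 ≤ q v) {v : V} {R : ℝ}
    (h : ‖v‖ + R ≤ 2) :
    ∫ w in Metric.closedBall v R, q w ≤ ∫ w in Metric.closedBall (0 : V) 2, q w := by
  refine setIntegral_mono_set (hq.continuousOn.integrableOn_compact (isCompact_closedBall _ _))
    (Eventually.of_forall fun w => h0 w) ?_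
  refine LE.le.eventuallyLE ?_
  refine Metric.closedBall_subset_closedBall' ?_
  rw [dist_zero_right]
  linarith

/-- Near errors on the slopes. -/
theorem near_slope : ∃ C : ℝ, 0 < C ∧ ∀ (g Ψ : V → ℝ) (s k : ℝ), Dn g → 0 < s → s ≤ 1 / 100 →
    0 ≤ k → k * s ≤ 1 / 100 → SlOK Ψ s →
      ∫ v in Sl Ψ s 8, wt k Ψ v * fi g v * (∫ w in Metric.closedBall v (2 * s), g w / ‖v - w‖ ^ 2) ≤
        C / s ^ 3 * (∫ y in Sl Ψ s 15, wt k Ψ y * JB g y s ^ 2)
          + C / s ^ 2 * ∫ v in Sl Ψ s 8, wt k Ψ v * fi g v * mB g v (4 * s) := by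
  obtain ⟨C₀, hC₀, hH⟩ := hardy_loc
  refine ⟨C₀ * 1296, by positivity, ?_⟩
  intro g Ψ s k hg hs hs1 hk hks hΨ
  have hgc : Continuous g := hg.cls.smooth.continuous
  have hg0 : ∀ v, 0 ≤ g v := fun v => (hg.pos v).le
  have hfc := rk_fi_cont hg
  have hf0 := rk_fi_nonneg hg
  have hwc : Continuous (wt k Ψ) := by
    unfold wt
    exact (Real.continuous_exp.comp (continuous_const.mul hΨ.smooth.continuous).neg).mul
      ((chi_smooth 1).continuous.pow 6)
  have hw0 : ∀ v, 0 ≤ wt k Ψ v := fun v => (wt_bd hk hΨ v).1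
  have hw1 : ∀ v, wt k Ψ v ≤ 1 := fun v => (wt_bd hk hΨ v).2.2.1
  have m8 : MeasurableSet (Sl Ψ s 8) := (Sl_open Ψ hΨ.smooth s 8).measurableSet
  have m9 : MeasurableSet (Sl Ψ s 9) := (Sl_open Ψ hΨ.smooth s 9).measurableSet
  have m15 : MeasurableSet (Sl Ψ s 15) := (Sl_open Ψ hΨ.smooth s 15).measurableSet
  have n8 : ∀ v ∈ Sl Ψ s 8, ‖v‖ ≤ 1 := fun v hv => by
    have := sl_norm hΨ hv
    linarith
  have n15 : ∀ v ∈ Sl Ψ s 15, ‖v‖ ≤ 9 / 10 := fun v hv => by
    have := sl_norm hΨ hv
    linarith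
  have sub8 : Sl Ψ s 8 ⊆ Metric.closedBall (0 : V) 1 := fun v hv => by
    rw [mem_closedBall_zero_iff]
    exact n8 v hv
  have sub15 : Sl Ψ s 15 ⊆ Metric.closedBall (0 : V) 1 := fun v hv => by
    rw [mem_closedBall_zero_iff]
    linarith [n15 v hv]
  have if8 : IntegrableOn (fi g) (Sl Ψ s 8) :=
    (hfc.continuousOn.integrableOn_compact (isCompact_closedBall (0 : V) 1)).mono_set sub8
  -- integrability
  have hint : ∀ (q : V → ℝ) (R : ℝ), Continuous q → (∀ v, 0 ≤ q v) → R ≤ 1 →
      IntegrableOn (fun v => wt k Ψ v * fi g v * ∫ w in Metric.closedBall v R, q w) (Sl Ψ s 8) := by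
    intro q R hq hq0 hR
    have hb : IntegrableOn (fun v => fi g v * ∫ w in Metric.closedBall (0 : V) 2, q w) (Sl Ψ s 8) :=
      if8.mul_const _
    refine Integrable.mono' hb ?_ ?_
    · exact ((hwc.measurable.mul hfc.measurable).mul (rk_meas hq hq0 R)).aestronglyMeasurable
    · refine (ae_restrict_iff' m8).2 (Eventually.of_forall fun v hv => ?_)
      have i0 : 0 ≤ ∫ w in Metric.closedBall v R, q w := integral_nonneg fun w => hq0 w
      have i1 := rk_mono hq hq0 (v := v) (R := R) (by linarith [n8 v hv])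
      rw [Real.norm_of_nonneg (mul_nonneg (mul_nonneg (hw0 v) (hf0 v)) i0)]
      have i2 : wt k Ψ v * fi g v ≤ fi g v := by nlinarith [hw0 v, hw1 v, hf0 v]
      exact mul_le_mul i2 i1 i0 (hf0 v)
  have hA : IntegrableOn (fun v => wt k Ψ v * fi g v * JB g v (4 * s)) (Sl Ψ s 8) :=
    hint (fi g) (4 * s) hfc hf0 (by linarith)
  have hB : IntegrableOn (fun v => wt k Ψ v * fi g v * mB g v (4 * s)) (Sl Ψ s 8) :=
    hint g (4 * s) hgc hg0 (by linarith)
  have hJ0 : ∀ v R, 0 ≤ JB g v R := fun v R => integral_nonneg fun w => hf0 w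
  have hm0 : ∀ v R, 0 ≤ mB g v R := fun v R => integral_nonneg fun w => hg0 w
  have hJm : ∀ R, Measurable (fun v => JB g v R) := fun R => rk_meas hfc hf0 R
  have hD : IntegrableOn (fun y => wt k Ψ y * JB g y s ^ 2) (Sl Ψ s 15) := by
    have hb : IntegrableOn (fun _ : V => (∫ w in Metric.closedBall (0 : V) 2, fi g w) ^ 2)
        (Sl Ψ s 15) := by
      refine integrableOn_const (lt_of_le_of_lt (measure_mono sub15) measure_closedBall_lt_top).ne
    refine Integrable.mono' hb ?_ ?_
    · exact (hwc.measurable.mul ((hJm s).pow_const 2)).aestronglyMeasurable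
    · refine (ae_restrict_iff' m15).2 (Eventually.of_forall fun v hv => ?_)
      have i1 : JB g v s ≤ ∫ w in Metric.closedBall (0 : V) 2, fi g w :=
        rk_mono hfc hf0 (v := v) (R := s) (by linarith [n15 v hv])
      rw [Real.norm_of_nonneg (mul_nonneg (hw0 v) (sq_nonneg _))]
      have i2 : JB g v s ^ 2 ≤ (∫ w in Metric.closedBall (0 : V) 2, fi g w) ^ 2 :=
        pow_le_pow_left₀ (hJ0 v s) i1 2
      calc wt k Ψ v * JB g v s ^ 2 ≤ 1 * JB g v s ^ 2 :=
            mul_le_mul_of_nonneg_right (hw1 v) (sq_nonneg _)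
        _ ≤ _ := by rw [one_mul]; exact i2
  -- Hardy
  have step1 : ∫ v in Sl Ψ s 8, wt k Ψ v * fi g v *
        (∫ w in Metric.closedBall v (2 * s), g w / ‖v - w‖ ^ 2) ≤
      ∫ v in Sl Ψ s 8, (C₀ * (wt k Ψ v * fi g v * JB g v (4 * s)) +
        C₀ / s ^ 2 * (wt k Ψ v * fi g v * mB g v (4 * s))) := by
    refine integral_mono_of_nonneg (Eventually.of_forall fun v => ?_)
      ((hA.const_mul _).add (hB.const_mul _)) (Eventually.of_forall fun v => ?_)
    · exact mul_nonneg (mul_nonneg (hw0 v) (hf0 v))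
        (integral_nonneg fun w => div_nonneg (hg0 w) (sq_nonneg _))
    · have h1 := mul_le_mul_of_nonneg_left (hH g hg v s hs) (mul_nonneg (hw0 v) (hf0 v))
      refine h1.trans (le_of_eq ?_)
      ring
  rw [integral_add (hA.const_mul _) (hB.const_mul _), integral_const_mul,
    integral_const_mul] at step1
  -- averaging
  have hkey := rk_key (f := fun v => ENNReal.ofReal (fi g v)) (P := fun v => ENNReal.ofReal (wt k Ψ v))
    hfc.measurable.ennreal_ofReal hwc.measurable.ennreal_ofReal m8 m9 m15 hs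
    (fun v hv y hy => by
      have := sl_step hv (R' := 1) (y := y) (by linarith)
      norm_num at this
      exact this)
    (fun v hv y hy => by
      have := sl_step hv (R' := 6) (y := y) (by linarith)
      norm_num at this
      exact this)
    (fun v hv => by
      obtain ⟨x, hx, hi⟩ := hv
      exact ⟨x, by linarith, hi⟩)
    (fun v hv y hy => by
      have ny : ‖y‖ ≤ 1 := by
        have e : y = v - (v - y) := by abel
        rw [e]
        have := norm_sub_le v (v - y)
        have := sl_norm hΨ hv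
        linarith
      have := wt_cmp hs hs1 hk hks hΨ v y (n8 v hv) ny (by linarith)
      show ENNReal.ofReal _ ≤ 2 * ENNReal.ofReal _
      rw [show (2 : ENNReal) = ENNReal.ofReal 2 by simp, ← ENNReal.ofReal_mul (by norm_num)]
      exact ENNReal.ofReal_le_ofReal this)
    (fun v hv y hy => by
      have ny : ‖y‖ ≤ 1 := by
        have e : y = v - (v - y) := by abel
        rw [e]
        have := norm_sub_le v (v - y)
        have := n15 v hv
        linarith
      have := wt_cmp hs hs1 hk hks hΨ y v ny (by linarith [n15 v hv])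
        (by rw [norm_sub_rev]; linarith)
      show ENNReal.ofReal _ ≤ 2 * ENNReal.ofReal _
      rw [show (2 : ENNReal) = ENNReal.ofReal 2 by simp, ← ENNReal.ofReal_mul (by norm_num)]
      exact ENNReal.ofReal_le_ofReal this)
  have e8 : ∫⁻ v in Sl Ψ s 8, ENNReal.ofReal (wt k Ψ v) * ENNReal.ofReal (fi g v) *
        (∫⁻ w in Metric.closedBall v (4 * s), ENNReal.ofReal (fi g w)) =
      ENNReal.ofReal (∫ v in Sl Ψ s 8, wt k Ψ v * fi g v * JB g v (4 * s)) := by
    rw [ofReal_integral_eq_lintegral_ofReal hA (Eventually.of_forall fun v =>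
      mul_nonneg (mul_nonneg (hw0 v) (hf0 v)) (hJ0 v _))]
    refine lintegral_congr fun v => ?_
    rw [← rk_toReal hfc hf0, ← ENNReal.ofReal_mul (hw0 v),
      ← ENNReal.ofReal_mul (mul_nonneg (hw0 v) (hf0 v))]
    rfl
  have e15 : ∫⁻ y in Sl Ψ s 15, ENNReal.ofReal (wt k Ψ y) *
        (∫⁻ w in Metric.closedBall y s, ENNReal.ofReal (fi g w)) ^ 2 =
      ENNReal.ofReal (∫ y in Sl Ψ s 15, wt k Ψ y * JB g y s ^ 2) := by
    rw [ofReal_integral_eq_lintegral_ofReal hD (Eventually.of_forall fun v =>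
      mul_nonneg (hw0 v) (sq_nonneg _))]
    refine lintegral_congr fun v => ?_
    have e := rk_toReal hfc hf0 v s
    rw [← e, ← ENNReal.ofReal_pow (integral_nonneg fun w => hf0 w), ← ENNReal.ofReal_mul (hw0 v)]
    rfl
  simp only [e8, e15] at hkey
  have hb : ENNReal.ofReal (s ^ 3) ≤ volume (Metric.closedBall (0 : V) s) := by
    rw [EuclideanSpace.volume_closedBall_fin_three, ← ENNReal.ofReal_pow hs.le,
      ← ENNReal.ofReal_mul (by positivity)]
    apply ENNReal.ofReal_le_ofReal
    have : 1 ≤ Real.pi * 4 / 3 := by nlinarith [Real.pi_gt_three]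
    nlinarith [pow_pos hs 3]
  set IA := ∫ v in Sl Ψ s 8, wt k Ψ v * fi g v * JB g v (4 * s) with hIA
  set ID := ∫ y in Sl Ψ s 15, wt k Ψ y * JB g y s ^ 2 with hID
  have hIA0 : 0 ≤ IA := integral_nonneg fun v => mul_nonneg (mul_nonneg (hw0 v) (hf0 v)) (hJ0 v _)
  have hID0 : 0 ≤ ID := integral_nonneg fun v => mul_nonneg (hw0 v) (sq_nonneg _)
  have hfin : s ^ 3 * IA ≤ 1296 * ID := by
    have h1 : ENNReal.ofReal (s ^ 3 * IA) ≤ ENNReal.ofReal (1296 * ID) := by
      rw [ENNReal.ofReal_mul (by positivity), ENNReal.ofReal_mul (by norm_num)]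
      refine (mul_le_mul_left hb _).trans (hkey.trans (le_of_eq ?_))
      congr 1
      exact (ENNReal.ofReal_ofNat 1296).symm
    rwa [ENNReal.ofReal_le_ofReal_iff (by positivity)] at h1
  set IB := ∫ v in Sl Ψ s 8, wt k Ψ v * fi g v * mB g v (4 * s) with hIB
  have hIB0 : 0 ≤ IB := integral_nonneg fun v => mul_nonneg (mul_nonneg (hw0 v) (hf0 v)) (hm0 v _)
  refine step1.trans ?_
  have hs3 : 0 < s ^ 3 := by positivity
  have a1 : C₀ * IA ≤ C₀ * 1296 / s ^ 3 * ID := by
    have : IA ≤ 1296 * ID / s ^ 3 := by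
      rw [le_div_iff₀ hs3]
      linarith
    calc C₀ * IA ≤ C₀ * (1296 * ID / s ^ 3) := mul_le_mul_of_nonneg_left this hC₀.le
      _ = _ := by ring
  have a2 : C₀ / s ^ 2 * IB ≤ C₀ * 1296 / s ^ 2 * IB := by
    apply mul_le_mul_of_nonneg_right _ hIB0
    apply div_le_div_of_nonneg_right _ (by positivity)
    linarith
  linarith

end Pool.Agent.LandauF
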