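import Pool.Agent.LandauF.RDefs
import Pool.Agent.Landau.Chi

/-!
# LandauF, module RWt: the unit scale weight is admissible

`χ = chi 1` is a fixed smooth function: `|∂^m χ| ≤ c` for `m ≤ 3`, `0 ≤ χ ≤ 1`, Lipschitz.
`Sl_open`: `Sl Ψ s R` is open (`{∇Ψ ≠ 0}` is open, translate), hence measurable.
Admissibility at `v` with `χ(v) > 0`: for `‖x - v‖ ≤ 4 s χ(v)`: `χ(x) ≥ χ(v) (1 - 4 c s) ≥ ½ χ(v)`;
`|∂φ(x)| ≤ (k |∂Ψ(x)| + 6 |∂χ(x)|/χ(x)) φ(x)`, `∂Ψ(x) ≠ 0` only if `v ∈ Sl Ψ s 8`, `∂χ(x) ≠ 0` only if `‖x‖ ≥ 1`, so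
`‖v‖ ≥ 1 - 8 s`; `φ(x) ≤ 2 φ(v)` (`k s ≤ ε₁`, `s ≤ s₁` small: `|k Ψ(x) - k Ψ(v)| ≤ 2 k · 4 s`, and if the segment meets
no slope the difference is `0`).  Second derivatives:
`|∂²φ(x)| ≤ C (k² |∂Ψ|² + k |∂²Ψ| + k |∂Ψ| |∂χ|/χ + (|∂χ|² + |∂²χ|)/χ²) φ(x)`, times `ϱ = s χ(v)`, with `k s ≤ ε₁`,
`|∂²Ψ| ≤ 1/s` (and `∂²Ψ(x) ≠ 0` only in the closure of `{∇Ψ ≠ 0}`).  If `χ(v) = 0` the ball is `{v}` and all is `0`
(`χ⁶` vanishes to order 6 where `χ = 0`, as `χ ≥ 0` is minimal there).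
`dom`: `φ ≤ χ⁶ = s⁻⁶ ϱ⁶`.  `krho`: `κ ϱ ≤ K (k s + s)`.  `r2`, `r3`: `ϱ² = s² χ²`.
-/

set_option autoImplicit false

namespace Pool.Agent.LandauF

open MeasureTheory Set Filter Topology Pool.Agent.Landau

theorem Sl_open (Ψ : V → ℝ) (hΨ : ContDiff ℝ (⊤ : ℕ∞) Ψ) (s R : ℝ) : IsOpen (Sl Ψ s R) := by
  have h : Sl Ψ s R = ⋃ z ∈ {z : V | ‖z‖ ≤ R * s}, ⋃ i : Fin 3, {v : V | pd i Ψ (v + z) ≠ 0} := by
    ext v
    simp only [Sl, Set.mem_ofPred_eq, mem_iUnion, exists_prop]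
    constructor
    · rintro ⟨x, hx, i, hi⟩
      refine ⟨x - v, hx, i, ?_⟩
      rwa [add_sub_cancel]
    · rintro ⟨z, hz, i, hi⟩
      refine ⟨v + z, ?_, i, hi⟩
      rwa [add_sub_cancel_left]
  rw [h]
  refine isOpen_biUnion fun z _ => isOpen_iUnion fun i => ?_
  have hc : Continuous fun v : V => pd i Ψ (v + z) :=
    (smooth_pd hΨ i).continuous.comp (continuous_id.add continuous_const)
  exact isOpen_ne_fun hc continuous_const

namespace RWtAux

theorem lip3 (G : V → ℝ) (hG : Differentiable ℝ G) (Λ : ℝ) (hΛ : ∀ j x, |pd j G x| ≤ Λ)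
    (v w : V) : |G v - G w| ≤ 3 * Λ * ‖v - w‖ := by
  have h0 : 0 ≤ Λ := (abs_nonneg _).trans (hΛ 0 0)
  have h1 : ∀ x, ‖fderiv ℝ G x‖ ≤ 3 * Λ := by
    intro x
    refine ContinuousLinearMap.opNorm_le_bound _ (by positivity) fun u => ?_
    have hu : u = ∑ i : Fin 3, u i • EuclideanSpace.single i (1 : ℝ) := by
      ext j
      simp [Pi.single_apply]
    have h2 : fderiv ℝ G x u = ∑ j, u j * pd j G x := by
      conv_lhs => rw [hu]
      rw [map_sum]
      refine Finset.sum_congr rfl fun j _ => ?_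
      rw [map_smul, smul_eq_mul]
      rfl
    rw [h2, Real.norm_eq_abs]
    calc |∑ j, u j * pd j G x| ≤ ∑ j, |u j * pd j G x| := Finset.abs_sum_le_sum_abs _ _
      _ ≤ ∑ _j : Fin 3, ‖u‖ * Λ := Finset.sum_le_sum fun j _ => by
          rw [abs_mul]
          exact mul_le_mul (Cls.abs_coord u j) (hΛ j x) (abs_nonneg _) (norm_nonneg _)
      _ = 3 * Λ * ‖u‖ := by
          simp
          ring
  have h3 := convex_univ.norm_image_sub_le_of_norm_fderiv_le (𝕜 := ℝ) (f := G)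
    (fun x _ => hG x) (fun x _ => h1 x) (mem_univ w) (mem_univ v)
  rwa [Real.norm_eq_abs] at h3

theorem bdd {ι : Type} [Finite ι] (F : ι → V → ℝ) (hF : ∀ i, Continuous (F i))
    (hc : ∀ i, HasCompactSupport (F i)) : ∃ C : ℝ, ∀ i v, |F i v| ≤ C := by
  have h : ∀ i, ∃ C : ℝ, ∀ v, |F i v| ≤ C := fun i => (hc i).exists_bound_of_continuous (hF i)
  choose C hC using h
  obtain ⟨M, hM⟩ := Finite.exists_le C
  exact ⟨M, fun i v => (hC i v).trans (hM i)⟩

theorem pd_zero_of_near {G : V → ℝ} {x : V} (h : ∀ᶠ y in 𝓝 x, G y = 0) (i : Fin 3) :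
    pd i G x = 0 := by
  unfold pd
  have h2 : G =ᶠ[𝓝 x] fun _ => (0 : ℝ) := h
  rw [h2.fderiv_eq]
  simp

theorem pd_cm {G : V → ℝ} (hG : Differentiable ℝ G) (a : ℝ) (i : Fin 3) :
    pd i (fun x => a * G x) = fun x => a * pd i G x := by
  funext x
  unfold pd
  rw [fderiv_const_mul (hG x)]
  simp

/-- the two cut functions -/
theorem consts : ∃ c : ℝ, 1 ≤ c ∧ (∀ i v, |pd i (chi 1) v| ≤ c) ∧
    (∀ i j v, |pd i (pd j (chi 1)) v| ≤ c) ∧
    (∀ i j v, |pd i (pd j (fun x => chi 1 x ^ 2)) v| ≤ c) ∧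
    (∀ i j k v, |pd i (pd j (pd k (fun x => chi 1 x ^ 2))) v| ≤ c) := by
  have s1 : ContDiff ℝ (⊤ : ℕ∞) (chi 1) := chi_smooth 1
  have c1 : HasCompactSupport (chi 1) := chi_compact one_pos
  have s2 : ContDiff ℝ (⊤ : ℕ∞) (fun x : V => chi 1 x ^ 2) := s1.pow 2
  have c2 : HasCompactSupport (fun x : V => chi 1 x ^ 2) := by
    have : (fun x : V => chi 1 x ^ 2) = fun x => chi 1 x * chi 1 x := by
      funext x
      ring
    rw [this]
    exact c1.mul_left
  obtain ⟨A, hA⟩ := bdd (fun i : Fin 3 => pd i (chi 1)) (fun i => (smooth_pd s1 i).continuous)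
    (fun i => compact_pd c1 i)
  obtain ⟨B, hB⟩ := bdd (fun i : Fin 3 × Fin 3 => pd i.1 (pd i.2 (chi 1)))
    (fun i => (smooth_pd (smooth_pd s1 i.2) i.1).continuous)
    (fun i => compact_pd (compact_pd c1 i.2) i.1)
  obtain ⟨C, hC⟩ := bdd (fun i : Fin 3 × Fin 3 => pd i.1 (pd i.2 (fun x : V => chi 1 x ^ 2)))
    (fun i => (smooth_pd (smooth_pd s2 i.2) i.1).continuous)
    (fun i => compact_pd (compact_pd c2 i.2) i.1)
  obtain ⟨D, hD⟩ := bdd (fun i : Fin 3 × Fin 3 × Fin 3 =>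
      pd i.1 (pd i.2.1 (pd i.2.2 (fun x : V => chi 1 x ^ 2))))
    (fun i => (smooth_pd (smooth_pd (smooth_pd s2 i.2.2) i.2.1) i.1).continuous)
    (fun i => compact_pd (compact_pd (compact_pd c2 i.2.2) i.2.1) i.1)
  have hA0 : 0 ≤ A := (abs_nonneg _).trans (hA 0 0)
  have hB0 : 0 ≤ B := (abs_nonneg _).trans (hB (0, 0) 0)
  have hC0 : 0 ≤ C := (abs_nonneg _).trans (hC (0, 0) 0)
  have hD0 : 0 ≤ D := (abs_nonneg _).trans (hD (0, 0, 0) 0)
  refine ⟨1 + A + B + C + D, by linarith, fun i v => ?_, fun i j v => ?_, fun i j v => ?_,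
    fun i j k v => ?_⟩
  · linarith [hA i v]
  · linarith [hB (i, j) v]
  · linarith [hC (i, j) v]
  · linarith [hD (i, j, k) v]

theorem chi2_inner {x : V} (h : ‖x‖ < 1) (i j : Fin 3) : pd i (pd j (chi 1)) x = 0 := by
  refine pd_zero_of_near ?_ i
  have hopen : IsOpen {u : V | ‖u‖ < 1} := isOpen_lt continuous_norm continuous_const
  filter_upwards [hopen.mem_nhds h] with u hu
  exact pd_chi_inner one_pos hu j

theorem slope_near {Ψ : V → ℝ} {x : V} {i j : Fin 3} (h : pd i (pd j Ψ) x ≠ 0) {δ : ℝ}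
    (hδ : 0 < δ) : ∃ y, ‖y - x‖ < δ ∧ pd j Ψ y ≠ 0 := by
  by_contra hcon
  push Not at hcon
  refine h (pd_zero_of_near ?_ i)
  filter_upwards [Metric.ball_mem_nhds x hδ] with y hy
  exact hcon y (by rwa [Metric.mem_ball, dist_eq_norm] at hy)

theorem pd_E {Ψ : V → ℝ} (hΨ : Differentiable ℝ Ψ) (k : ℝ) (i : Fin 3) (x : V) :
    pd i (fun x => Real.exp (-(k * Ψ x))) x = -(k * pd i Ψ x) * Real.exp (-(k * Ψ x)) := by
  have h1 : HasDerivAt (fun y : ℝ => Real.exp (-(k * y))) (Real.exp (-(k * Ψ x)) * (-(k * 1)))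
      (Ψ x) := ((hasDerivAt_id (Ψ x)).const_mul k).neg.exp
  have h2 := pd_comp (hΨ x) h1 i
  rw [h2]
  ring

theorem pd_pow {G : V → ℝ} (hG : Differentiable ℝ G) (n : ℕ) (i : Fin 3) (x : V) :
    pd i (fun x => G x ^ (n + 1)) x = (n + 1 : ℝ) * G x ^ n * pd i G x := by
  have h1 : HasDerivAt (fun y : ℝ => y ^ (n + 1)) (((n + 1 : ℕ) : ℝ) * (G x) ^ n) (G x) := by
    simpa using hasDerivAt_pow (n + 1) (G x)
  have h2 := pd_comp (hG x) h1 i
  rw [h2]
  push_cast
  ring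

/-- first derivative of the weight -/
theorem pd_wt {Ψ : V → ℝ} (hΨ : ContDiff ℝ (⊤ : ℕ∞) Ψ) (k : ℝ) (i : Fin 3) :
    pd i (wt k Ψ) = fun x => Real.exp (-(k * Ψ x)) *
      (6 * (chi 1 x ^ 5 * pd i (chi 1) x) - k * (pd i Ψ x * chi 1 x ^ 6)) := by
  have d1 : Differentiable ℝ Ψ := differentiable_of_smooth hΨ
  have d2 : Differentiable ℝ (chi 1) := differentiable_of_smooth (chi_smooth 1)
  have d3 : Differentiable ℝ (fun x : V => Real.exp (-(k * Ψ x))) := (d1.const_mul k).neg.exp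
  have d4 : Differentiable ℝ (fun x : V => chi 1 x ^ 6) := d2.pow 6
  funext x
  unfold wt
  rw [pd_mul (d3 x) (d4 x) i, pd_E d1, pd_pow d2 5 i x]
  push_cast
  ring

/-- second derivative of the weight -/
theorem pd_pd_wt {Ψ : V → ℝ} (hΨ : ContDiff ℝ (⊤ : ℕ∞) Ψ) (k : ℝ) (i j : Fin 3) (x : V)
    (h1 : pd i Ψ x * pd j (chi 1) x = 0) (h2 : pd j Ψ x * pd i (chi 1) x = 0) :
    pd i (pd j (wt k Ψ)) x = Real.exp (-(k * Ψ x)) *
      (30 * chi 1 x ^ 4 * (pd i (chi 1) x * pd j (chi 1) x) +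
        6 * chi 1 x ^ 5 * pd i (pd j (chi 1)) x - k * pd i (pd j Ψ) x * chi 1 x ^ 6 +
        (k * pd i Ψ x) * (k * pd j Ψ x) * chi 1 x ^ 6) := by
  have d1 : Differentiable ℝ Ψ := differentiable_of_smooth hΨ
  have d2 : Differentiable ℝ (chi 1) := differentiable_of_smooth (chi_smooth 1)
  have d3 : Differentiable ℝ (fun x : V => Real.exp (-(k * Ψ x))) := (d1.const_mul k).neg.exp
  have d5 : Differentiable ℝ (pd j (chi 1)) := differentiable_of_smooth (smooth_pd (chi_smooth 1) j)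
  have d6 : Differentiable ℝ (pd j Ψ) := differentiable_of_smooth (smooth_pd hΨ j)
  have d7 : Differentiable ℝ (fun x : V => chi 1 x ^ 5) := d2.pow 5
  have d8 : Differentiable ℝ (fun x : V => chi 1 x ^ 6) := d2.pow 6
  have d9 : Differentiable ℝ (fun x : V => 6 * (chi 1 x ^ 5 * pd j (chi 1) x)) :=
    (d7.mul d5).const_mul 6
  have d10 : Differentiable ℝ (fun x : V => (-k) * (pd j Ψ x * chi 1 x ^ 6)) :=
    (d6.mul d8).const_mul (-k)
  have e0 : pd j (wt k Ψ) = fun x => Real.exp (-(k * Ψ x)) *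
      (6 * (chi 1 x ^ 5 * pd j (chi 1) x) + (-k) * (pd j Ψ x * chi 1 x ^ 6)) := by
    rw [pd_wt hΨ k j]
    funext x
    ring
  have d11 : DifferentiableAt ℝ (fun x : V => 6 * (chi 1 x ^ 5 * pd j (chi 1) x) +
      (-k) * (pd j Ψ x * chi 1 x ^ 6)) x := (d9 x).add (d10 x)
  rw [e0, pd_mul (d3 x) d11 i, pd_add (d9 x) (d10 x) i, pd_E d1]
  have e1 : pd i (fun x : V => 6 * (chi 1 x ^ 5 * pd j (chi 1) x)) x =
      6 * (chi 1 x ^ 5 * pd i (pd j (chi 1)) x + 5 * chi 1 x ^ 4 * pd i (chi 1) x * pd j (chi 1) x) := by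
    have d12 : Differentiable ℝ (fun x : V => chi 1 x ^ 5 * pd j (chi 1) x) := d7.mul d5
    rw [pd_cm d12 6 i]
    show 6 * pd i (fun x : V => chi 1 x ^ 5 * pd j (chi 1) x) x = _
    rw [pd_mul (d7 x) (d5 x) i, pd_pow d2 4 i x]
    push_cast
    ring
  have e2 : pd i (fun x : V => (-k) * (pd j Ψ x * chi 1 x ^ 6)) x =
      (-k) * (pd j Ψ x * (6 * chi 1 x ^ 5 * pd i (chi 1) x) + pd i (pd j Ψ) x * chi 1 x ^ 6) := by
    have d13 : Differentiable ℝ (fun x : V => pd j Ψ x * chi 1 x ^ 6) := d6.mul d8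
    rw [pd_cm d13 (-k) i]
    show (-k) * pd i (fun x : V => pd j Ψ x * chi 1 x ^ 6) x = _
    rw [pd_mul (d6 x) (d8 x) i, pd_pow d2 5 i x]
    push_cast
    ring
  rw [e1, e2]
  have e3 : Real.exp (-(k * Ψ x)) *
        (6 * (chi 1 x ^ 5 * pd i (pd j (chi 1)) x +
          5 * chi 1 x ^ 4 * pd i (chi 1) x * pd j (chi 1) x) +
        -k * (pd j Ψ x * (6 * chi 1 x ^ 5 * pd i (chi 1) x) + pd i (pd j Ψ) x * chi 1 x ^ 6)) +
      -(k * pd i Ψ x) * Real.exp (-(k * Ψ x)) *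
        (6 * (chi 1 x ^ 5 * pd j (chi 1) x) + -k * (pd j Ψ x * chi 1 x ^ 6)) =
      Real.exp (-(k * Ψ x)) *
      (30 * chi 1 x ^ 4 * (pd i (chi 1) x * pd j (chi 1) x) +
        6 * chi 1 x ^ 5 * pd i (pd j (chi 1)) x - k * pd i (pd j Ψ) x * chi 1 x ^ 6 +
        (k * pd i Ψ x) * (k * pd j Ψ x) * chi 1 x ^ 6) -
      6 * k * Real.exp (-(k * Ψ x)) * chi 1 x ^ 5 * (pd j Ψ x * pd i (chi 1) x) -
      6 * k * Real.exp (-(k * Ψ x)) * chi 1 x ^ 5 * (pd i Ψ x * pd j (chi 1) x) := by ring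
  rw [e3, h1, h2]
  ring

theorem cross {Ψ : V → ℝ} {s : ℝ} (hΨ : SlOK Ψ s) (x : V) (i j : Fin 3) :
    pd i Ψ x * pd j (chi 1) x = 0 := by
  by_cases h : ‖x‖ < 1
  · rw [pd_chi_inner one_pos h j, mul_zero]
  · push Not at h
    rw [hΨ.flat x (by linarith) i, zero_mul]

theorem wt_nn (k : ℝ) (Ψ : V → ℝ) (v : V) : 0 ≤ wt k Ψ v :=
  mul_nonneg (Real.exp_pos _).le (pow_nonneg (chi_nonneg 1 v) 6)

end RWtAux

open RWtAux

/-- comparison of the weight at distance at most `20 s` -/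
theorem wt_cmp {Ψ : V → ℝ} {s k : ℝ} (hs : 0 < s) (h1 : s ≤ 1 / 100) (hk : 0 ≤ k)
    (h2 : k * s ≤ 1 / 100) (hΨ : SlOK Ψ s) (v y : V) (hv : ‖v‖ ≤ 1) (hy : ‖y‖ ≤ 1)
    (h : ‖v - y‖ ≤ 20 * s) : wt k Ψ v ≤ 2 * wt k Ψ y := by
  have h3 := lip3 Ψ (differentiable_of_smooth hΨ.smooth) 1 (fun j x => hΨ.d1 x j) v y
  have h4 : Ψ y - Ψ v ≤ 60 * s := by
    have := (abs_le.1 h3).1
    linarith
  have h5 : k * (Ψ y - Ψ v) ≤ k * (60 * s) := mul_le_mul_of_nonneg_left h4 hk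
  unfold wt
  rw [chi_one one_pos hv, chi_one one_pos hy]
  have h6 : Real.exp (-(k * Ψ v)) ≤ Real.exp (Real.log 2 + -(k * Ψ y)) := by
    refine Real.exp_le_exp.2 ?_
    have := Real.log_two_gt_d9
    linarith
  rw [Real.exp_add, Real.exp_log two_pos] at h6
  linarith

theorem wt_bd {Ψ : V → ℝ} {s k : ℝ} (hk : 0 ≤ k) (hΨ : SlOK Ψ s) (v : V) :
    0 ≤ wt k Ψ v ∧ wt k Ψ v ≤ Real.exp (-(k * Ψ v)) ∧ wt k Ψ v ≤ 1 ∧
      (2 ≤ ‖v‖ → wt k Ψ v = 0) := by
  have h1 : wt k Ψ v ≤ Real.exp (-(k * Ψ v)) :=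
    mul_le_of_le_one_right (Real.exp_pos _).le (pow_le_one₀ (chi_nonneg 1 v) (chi_le_one 1 v))
  refine ⟨wt_nn k Ψ v, h1, h1.trans ?_, fun h => ?_⟩
  · rw [Real.exp_le_one_iff]
    have := mul_nonneg hk (hΨ.nonneg v)
    linarith
  · unfold wt
    rw [chi_zero one_pos (by linarith)]
    simp

/-- The unit scale weight is admissible. -/
theorem wt_adm (ε₀ : ℝ) (hε : 0 < ε₀) : ∃ K s₁ ε₁ : ℝ, 0 < K ∧ 0 < s₁ ∧ s₁ ≤ 1 / 100 ∧ 0 < ε₁ ∧
    ε₁ ≤ 1 / 100 ∧
    ∀ (Ψ : V → ℝ) (s k : ℝ), 0 < s → s ≤ s₁ → 0 ≤ k → k * s ≤ ε₁ → SlOK Ψ s →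
      Adm ε₀ (wt k Ψ) (rh s) (kap K k s Ψ) := by
  obtain ⟨c, hc, hc1, hc2, hc3, hc4⟩ := consts
  have hc0 : 0 < c := by linarith
  obtain ⟨K, hK⟩ : ∃ K, K = 3 + 60 * c ^ 2 + 12 * c := ⟨_, rfl⟩
  have hK0 : 0 < K := by rw [hK]; positivity
  refine ⟨K, min (1 / (1200 * c)) (min (ε₀ / (3 * c)) (ε₀ / (2 * K))), min (1 / 100) (ε₀ / (2 * K)),
    hK0, by positivity, ?_, by positivity, min_le_left _ _, ?_⟩
  · refine (min_le_left _ _).trans ?_
    exact one_div_le_one_div_of_le (by norm_num) (by linarith)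
  intro Ψ s k hs hss hk hks hΨ
  have hs1 : s * (1200 * c) ≤ 1 := by
    have h1 := hss.trans (min_le_left _ _)
    rwa [le_div_iff₀ (by positivity)] at h1
  have hs2 : s * (3 * c) ≤ ε₀ := by
    have h1 := (hss.trans (min_le_right _ _)).trans (min_le_left _ _)
    rwa [le_div_iff₀ (by positivity)] at h1
  have hs3 : s * (2 * K) ≤ ε₀ := by
    have h1 := (hss.trans (min_le_right _ _)).trans (min_le_right _ _)
    rwa [le_div_iff₀ (by positivity)] at h1
  have hks1 : k * s ≤ 1 / 100 := hks.trans (min_le_left _ _)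
  have hks2 : k * s * (2 * K) ≤ ε₀ := by
    have h1 := hks.trans (min_le_right _ _)
    rwa [le_div_iff₀ (by positivity)] at h1
  have hsle : s ≤ 1 / 1200 := by nlinarith
  have hsm := hΨ.smooth
  have hχd : Differentiable ℝ (chi 1) := differentiable_of_smooth (chi_smooth 1)
  have hΦd : ContDiff ℝ (⊤ : ℕ∞) (fun x : V => chi 1 x ^ 2) := (chi_smooth 1).pow 2
  have hrh : (fun v : V => rh s v ^ 2) = fun v => s ^ 2 * (fun x : V => chi 1 x ^ 2) v := by
    funext v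
    unfold rh
    ring
  have hrh1 : ∀ j : Fin 3, pd j (fun v : V => rh s v ^ 2) =
      fun v => s ^ 2 * pd j (fun x : V => chi 1 x ^ 2) v := by
    intro j
    rw [hrh]
    exact pd_cm (differentiable_of_smooth hΦd) (s ^ 2) j
  have hrh2 : ∀ i j : Fin 3, pd i (pd j (fun v : V => rh s v ^ 2)) =
      fun v => s ^ 2 * pd i (pd j (fun x : V => chi 1 x ^ 2)) v := by
    intro i j
    rw [hrh1]
    exact pd_cm (differentiable_of_smooth (smooth_pd hΦd j)) (s ^ 2) i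
  have hrh3 : ∀ i j l : Fin 3, pd i (pd j (pd l (fun v : V => rh s v ^ 2))) =
      fun v => s ^ 2 * pd i (pd j (pd l (fun x : V => chi 1 x ^ 2))) v := by
    intro i j l
    rw [hrh2]
    exact pd_cm (differentiable_of_smooth (smooth_pd (smooth_pd hΦd l) j)) (s ^ 2) i
  have hs2c : s ^ 2 * c ≤ 1 := by nlinarith
  have hχ0 : ∀ v, 0 ≤ chi 1 v := chi_nonneg 1
  have hχ1 : ∀ v, chi 1 v ≤ 1 := chi_le_one 1
  -- the two parts of `kap`
  have hsplit : ∀ v, ∃ A B : ℝ, kap K k s Ψ v = K * (A + B) ∧ 0 ≤ A ∧ A ≤ k ∧ 0 ≤ B ∧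
      chi 1 v * B ≤ 1 ∧ (v ∈ Sl Ψ s 8 → A = k) ∧
      (1 - 8 * s ≤ ‖v‖ → B = (chi 1 v)⁻¹) := by
    intro v
    classical
    refine ⟨if v ∈ Sl Ψ s 8 then k else 0, if 1 - 8 * s ≤ ‖v‖ then (chi 1 v)⁻¹ else 0, ?_, ?_, ?_,
      ?_, ?_, ?_, ?_⟩
    · unfold kap
      congr
    · split_ifs
      · exact hk
      · exact le_rfl
    · split_ifs
      · exact le_rfl
      · exact hk
    · split_ifs
      · exact inv_nonneg.2 (hχ0 v)
      · exact le_rfl
    · split_ifs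
      · exact mul_inv_le_one
      · rw [mul_zero]
        exact zero_le_one
    · intro h
      rw [if_pos h]
    · intro h
      rw [if_pos h]
  have hkn : ∀ v, 0 ≤ kap K k s Ψ v := by
    intro v
    obtain ⟨A, B, e, hA, -, hB, -, -, -⟩ := hsplit v
    rw [e]
    positivity
  -- comparison on small balls
  have hnear : ∀ v x, 0 < chi 1 v → ‖x - v‖ ≤ 4 * (s * chi 1 v) →
      (∀ m : ℕ, m ≤ 6 → Real.exp (-(k * Ψ x)) * chi 1 x ^ m ≤
        2 * (Real.exp (-(k * Ψ v)) * chi 1 v ^ m)) := by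
    intro v x hv hx m hm
    have h1 := lip3 Ψ (differentiable_of_smooth hsm) 1 (fun j x => hΨ.d1 x j) x v
    have h2 := lip3 (chi 1) hχd c hc1 x v
    have hxs : ‖x - v‖ ≤ 4 * s := by nlinarith [hχ1 v]
    have h3 : Ψ v - Ψ x ≤ 12 * s := by
      have := (abs_le.1 h1).1
      linarith
    have h4 : k * (Ψ v - Ψ x) ≤ k * (12 * s) := mul_le_mul_of_nonneg_left h3 hk
    have h5 : Real.exp (-(k * Ψ x)) ≤ 5 / 4 * Real.exp (-(k * Ψ v)) := by
      have h6 : Real.exp (-(k * Ψ x)) ≤ Real.exp (12 / 100 + -(k * Ψ v)) :=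
        Real.exp_le_exp.2 (by linarith)
      rw [Real.exp_add] at h6
      have h7 : Real.exp (12 / 100) ≤ 5 / 4 := by
        have := Real.exp_bound_div_one_sub_of_interval (x := 12 / 100) (by norm_num) (by norm_num)
        refine this.trans ?_
        norm_num
      exact h6.trans (mul_le_mul_of_nonneg_right h7 (Real.exp_pos _).le)
    have h8 : chi 1 x ≤ 101 / 100 * chi 1 v := by
      have e1 := (abs_le.1 h2).2
      have e2 : 3 * c * ‖x - v‖ ≤ 3 * c * (4 * (s * chi 1 v)) :=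
        mul_le_mul_of_nonneg_left hx (by positivity)
      have e3 : s * (1200 * c) * chi 1 v ≤ 1 * chi 1 v := mul_le_mul_of_nonneg_right hs1 hv.le
      linarith
    have h9 : chi 1 x ^ m ≤ 8 / 5 * chi 1 v ^ m := by
      have e1 : chi 1 x ^ m ≤ (101 / 100 * chi 1 v) ^ m := pow_le_pow_left₀ (hχ0 x) h8 m
      rw [mul_pow] at e1
      have e2 : (101 / 100 : ℝ) ^ m ≤ (101 / 100) ^ 6 := pow_le_pow_right₀ (by norm_num) hm
      have e3 : (101 / 100 : ℝ) ^ 6 ≤ 8 / 5 := by norm_num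
      exact e1.trans (mul_le_mul_of_nonneg_right (e2.trans e3) (pow_nonneg hv.le m))
    calc Real.exp (-(k * Ψ x)) * chi 1 x ^ m ≤
        (5 / 4 * Real.exp (-(k * Ψ v))) * (8 / 5 * chi 1 v ^ m) :=
          mul_le_mul h5 h9 (pow_nonneg (hχ0 x) m) (by positivity)
      _ = 2 * (Real.exp (-(k * Ψ v)) * chi 1 v ^ m) := by ring
  refine
    { smooth := ?_
      compact := ?_
      nonneg := wt_nn k Ψ
      rsmooth := ?_
      rnonneg := fun v => mul_nonneg hs.le (hχ0 v)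
      rpos := ?_
      rlip := ?_
      r2 := ?_
      r3 := ?_
      dom := ?_
      kmeas := ?_
      knonneg := hkn
      krho := ?_
      d1 := ?_
      d2 := ?_ }
  · unfold wt
    exact (contDiff_const.mul hsm).neg.exp.mul ((chi_smooth 1).pow 6)
  · refine HasCompactSupport.intro (isCompact_closedBall (0 : V) 2) fun v hv => ?_
    rw [mem_closedBall_zero_iff, not_le] at hv
    exact (wt_bd hk hΨ v).2.2.2 hv.le
  · rw [hrh]
    exact contDiff_const.mul hΦd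
  · intro v hv
    refine mul_pos hs ((hχ0 v).lt_of_ne fun h => hv ?_)
    unfold wt
    rw [← h]
    simp
  · intro v w
    have h1 := lip3 (chi 1) hχd c hc1 v w
    have e1 : rh s v - rh s w = s * (chi 1 v - chi 1 w) := by
      unfold rh
      ring
    rw [e1, abs_mul, abs_of_pos hs]
    have e2 := mul_le_mul_of_nonneg_left h1 hs.le
    have e3 := mul_le_mul_of_nonneg_right hs2 (norm_nonneg (v - w))
    linarith
  · intro v i j
    have e := congrFun (hrh2 i j) v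
    have e' : |pd i (pd j (fun x => rh s x ^ 2)) v| =
        |s ^ 2 * pd i (pd j (fun x : V => chi 1 x ^ 2)) v| := by rw [e]
    rw [e', abs_mul, abs_of_nonneg (sq_nonneg s)]
    exact (mul_le_mul_of_nonneg_left (hc3 i j v) (sq_nonneg s)).trans hs2c
  · intro v i j l
    have e := congrFun (hrh3 i j l) v
    have e' : |pd i (pd j (pd l (fun x => rh s x ^ 2))) v| =
        |s ^ 2 * pd i (pd j (pd l (fun x : V => chi 1 x ^ 2))) v| := by rw [e]
    rw [e', abs_mul, abs_of_nonneg (sq_nonneg s)]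
    have e1 : s ^ 2 * |pd i (pd j (pd l (fun x : V => chi 1 x ^ 2))) v| ≤ 1 :=
      (mul_le_mul_of_nonneg_left (hc4 i j l v) (sq_nonneg s)).trans hs2c
    have e2 : rh s v ≤ 1 := by
      have : s * chi 1 v ≤ s * 1 := mul_le_mul_of_nonneg_left (hχ1 v) hs.le
      unfold rh
      linarith
    have e3 : 0 ≤ rh s v := mul_nonneg hs.le (hχ0 v)
    exact mul_le_one₀ e1 e3 e2
  · refine ⟨(s ^ 6)⁻¹, fun v => ?_⟩
    have e1 : (s ^ 6)⁻¹ * rh s v ^ 6 = chi 1 v ^ 6 := by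
      unfold rh
      field_simp
    rw [e1]
    unfold wt
    refine mul_le_of_le_one_left (pow_nonneg (hχ0 v) 6) ?_
    rw [Real.exp_le_one_iff]
    have := mul_nonneg hk (hΨ.nonneg v)
    linarith
  · unfold kap
    have m1 : MeasurableSet {v : V | v ∈ Sl Ψ s 8} := (Sl_open Ψ hsm s 8).measurableSet
    have m2 : MeasurableSet {v : V | 1 - 8 * s ≤ ‖v‖} :=
      measurableSet_le measurable_const measurable_norm
    exact ((Measurable.ite m1 measurable_const measurable_const).add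
      (Measurable.ite m2 (chi_smooth 1).continuous.measurable.inv measurable_const)).const_mul K
  · intro v hv
    obtain ⟨A, B, e, hA, hAk, hB, hB1, -, -⟩ := hsplit v
    rw [e]
    have e1 : A * (s * chi 1 v) ≤ k * s := by
      have f1 : A * (s * chi 1 v) ≤ k * (s * chi 1 v) :=
        mul_le_mul_of_nonneg_right hAk (mul_nonneg hs.le (hχ0 v))
      have f2 : k * (s * chi 1 v) ≤ k * (s * 1) :=
        mul_le_mul_of_nonneg_left (mul_le_mul_of_nonneg_left (hχ1 v) hs.le) hk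
      linarith
    have e2 : B * (s * chi 1 v) ≤ s := by
      have := mul_le_mul_of_nonneg_left hB1 hs.le
      linarith
    have e3 : K * (A + B) * rh s v = K * (A * (s * chi 1 v) + B * (s * chi 1 v)) := by
      unfold rh
      ring
    rw [e3]
    have e4 := mul_le_mul_of_nonneg_left (add_le_add e1 e2) hK0.le
    linarith
  · intro v x hx i
    obtain ⟨A, B, e, hA, hAk, hB, hB1, hA', hB'⟩ := hsplit v
    rw [pd_wt hsm k i]
    have hx0 : ‖x - v‖ ≤ 4 * (s * chi 1 v) := hx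
    rcases (hχ0 v).eq_or_lt with h0 | h0
    · have h1 : x = v := by
        rw [← h0, mul_zero, mul_zero] at hx0
        exact sub_eq_zero.1 (norm_le_zero_iff.1 hx0)
      have h2 : wt k Ψ v = 0 := by
        unfold wt
        rw [← h0]
        simp
      rw [h1, h2, mul_zero]
      show |Real.exp (-(k * Ψ v)) *
        (6 * (chi 1 v ^ 5 * pd i (chi 1) v) - k * (pd i Ψ v * chi 1 v ^ 6))| ≤ 0
      rw [← h0]
      simp
    · have hxs : ‖x - v‖ ≤ 8 * s := by nlinarith [hχ1 v]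
      have hn := hnear v x h0 hx0
      have h5 := hn 5 (by norm_num)
      have h6 := hn 6 (by norm_num)
      have f1 : |k * pd i Ψ x| ≤ A := by
        by_cases h : pd i Ψ x = 0
        · rw [h, mul_zero, abs_zero]
          exact hA
        · rw [hA' ⟨x, hxs, i, h⟩, abs_mul, abs_of_nonneg hk]
          exact mul_le_of_le_one_right hk (hΨ.d1 x i)
      have f2 : |pd i (chi 1) x| ≤ c * (chi 1 v * B) := by
        by_cases h : ‖x‖ < 1
        · rw [pd_chi_inner one_pos h i, abs_zero]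
          positivity
        · push Not at h
          have h7 : 1 - 8 * s ≤ ‖v‖ := by
            have := norm_sub_norm_le x v
            linarith
          rw [hB' h7, mul_inv_cancel₀ h0.ne', mul_one]
          exact hc1 i x
      have hE : 0 < Real.exp (-(k * Ψ x)) := Real.exp_pos _
      have hEv : 0 < Real.exp (-(k * Ψ v)) := Real.exp_pos _
      have hx5 : 0 ≤ chi 1 x ^ 5 := pow_nonneg (hχ0 x) 5
      have hx6 : 0 ≤ chi 1 x ^ 6 := pow_nonneg (hχ0 x) 6
      show |Real.exp (-(k * Ψ x)) *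
        (6 * (chi 1 x ^ 5 * pd i (chi 1) x) - k * (pd i Ψ x * chi 1 x ^ 6))| ≤ _
      have g1 : Real.exp (-(k * Ψ x)) *
          (6 * (chi 1 x ^ 5 * pd i (chi 1) x) - k * (pd i Ψ x * chi 1 x ^ 6)) =
          6 * (Real.exp (-(k * Ψ x)) * chi 1 x ^ 5) * pd i (chi 1) x -
            (Real.exp (-(k * Ψ x)) * chi 1 x ^ 6) * (k * pd i Ψ x) := by ring
      rw [g1]
      have g2 : |6 * (Real.exp (-(k * Ψ x)) * chi 1 x ^ 5) * pd i (chi 1) x| ≤
          6 * (2 * (Real.exp (-(k * Ψ v)) * chi 1 v ^ 5)) * (c * (chi 1 v * B)) := by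
        rw [abs_mul, abs_of_nonneg (by positivity)]
        exact mul_le_mul (by linarith) f2 (abs_nonneg _) (by positivity)
      have g3 : |(Real.exp (-(k * Ψ x)) * chi 1 x ^ 6) * (k * pd i Ψ x)| ≤
          2 * (Real.exp (-(k * Ψ v)) * chi 1 v ^ 6) * A := by
        rw [abs_mul, abs_of_nonneg (by positivity)]
        exact mul_le_mul h6 f1 (abs_nonneg _) (by positivity)
      have g4 := abs_sub (6 * (Real.exp (-(k * Ψ x)) * chi 1 x ^ 5) * pd i (chi 1) x)
        ((Real.exp (-(k * Ψ x)) * chi 1 x ^ 6) * (k * pd i Ψ x))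
      have g5 : kap K k s Ψ v * wt k Ψ v =
          K * A * (Real.exp (-(k * Ψ v)) * chi 1 v ^ 6) +
            K * B * (Real.exp (-(k * Ψ v)) * chi 1 v ^ 6) := by
        rw [e]
        unfold wt
        ring
      have g6 : 6 * (2 * (Real.exp (-(k * Ψ v)) * chi 1 v ^ 5)) * (c * (chi 1 v * B)) =
          12 * c * B * (Real.exp (-(k * Ψ v)) * chi 1 v ^ 6) := by ring
      have hW : 0 ≤ Real.exp (-(k * Ψ v)) * chi 1 v ^ 6 := by positivity
      have g7 : 12 * c * B * (Real.exp (-(k * Ψ v)) * chi 1 v ^ 6) ≤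
          K * B * (Real.exp (-(k * Ψ v)) * chi 1 v ^ 6) := by
        refine mul_le_mul_of_nonneg_right (mul_le_mul_of_nonneg_right ?_ hB) hW
        rw [hK]
        nlinarith [sq_nonneg c]
      have g8 : 2 * (Real.exp (-(k * Ψ v)) * chi 1 v ^ 6) * A ≤
          K * A * (Real.exp (-(k * Ψ v)) * chi 1 v ^ 6) := by
        have : 2 * A * (Real.exp (-(k * Ψ v)) * chi 1 v ^ 6) ≤
            K * A * (Real.exp (-(k * Ψ v)) * chi 1 v ^ 6) := by
          refine mul_le_mul_of_nonneg_right (mul_le_mul_of_nonneg_right ?_ hA) hW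
          rw [hK]
          nlinarith [sq_nonneg c]
        linarith
      rw [g5]
      linarith
  · intro v x hx i j
    obtain ⟨A, B, e, hA, hAk, hB, hB1, hA', hB'⟩ := hsplit v
    have hx0 : ‖x - v‖ ≤ 4 * (s * chi 1 v) := hx
    rcases (hχ0 v).eq_or_lt with h0 | h0
    · have h1 : rh s v = 0 := by
        unfold rh
        rw [← h0, mul_zero]
      rw [h1, mul_zero]
      exact mul_nonneg (hkn v) (wt_nn k Ψ v)
    · have hx4 : ‖x - v‖ ≤ 4 * s := by nlinarith [hχ1 v]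
      have hxs : ‖x - v‖ ≤ 8 * s := by linarith
      have hn := hnear v x h0 hx0
      have h4 := hn 4 (by norm_num)
      have h5 := hn 5 (by norm_num)
      have h6 := hn 6 (by norm_num)
      have f1 : ∀ l : Fin 3, |k * pd l Ψ x| ≤ A := by
        intro l
        by_cases h : pd l Ψ x = 0
        · rw [h, mul_zero, abs_zero]
          exact hA
        · rw [hA' ⟨x, hxs, l, h⟩, abs_mul, abs_of_nonneg hk]
          exact mul_le_of_le_one_right hk (hΨ.d1 x l)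
      have f2 : |k * pd i (pd j Ψ) x| * s ≤ A := by
        by_cases h : pd i (pd j Ψ) x = 0
        · rw [h, mul_zero, abs_zero, zero_mul]
          exact hA
        · obtain ⟨y, hy, hyj⟩ := slope_near h (δ := 4 * s) (by linarith)
          have hyv : ‖y - v‖ ≤ 8 * s := by
            have := norm_add_le (y - x) (x - v)
            rw [sub_add_sub_cancel] at this
            linarith
          rw [hA' ⟨y, hyv, j, hyj⟩, abs_mul, abs_of_nonneg hk, mul_assoc]
          refine mul_le_of_le_one_right hk ?_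
          have := mul_le_mul_of_nonneg_right (hΨ.d2 x i j) hs.le
          rwa [one_div, inv_mul_cancel₀ hs.ne'] at this
      have f3 : |pd i (chi 1) x| ≤ c * (chi 1 v * B) := by
        by_cases h : ‖x‖ < 1
        · rw [pd_chi_inner one_pos h i, abs_zero]
          positivity
        · push Not at h
          have h7 : 1 - 8 * s ≤ ‖v‖ := by
            have := norm_sub_norm_le x v
            linarith
          rw [hB' h7, mul_inv_cancel₀ h0.ne', mul_one]
          exact hc1 i x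
      have f4 : |pd i (pd j (chi 1)) x| ≤ c * (chi 1 v * B) := by
        by_cases h : ‖x‖ < 1
        · rw [chi2_inner h i j, abs_zero]
          positivity
        · push Not at h
          have h7 : 1 - 8 * s ≤ ‖v‖ := by
            have := norm_sub_norm_le x v
            linarith
          rw [hB' h7, mul_inv_cancel₀ h0.ne', mul_one]
          exact hc2 i j x
      rw [pd_pd_wt hsm k i j x (cross hΨ x i j) (cross hΨ x j i)]
      have hE : 0 < Real.exp (-(k * Ψ x)) := Real.exp_pos _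
      have hEv : 0 < Real.exp (-(k * Ψ v)) := Real.exp_pos _
      have hx4' : 0 ≤ chi 1 x ^ 4 := pow_nonneg (hχ0 x) 4
      have hx5 : 0 ≤ chi 1 x ^ 5 := pow_nonneg (hχ0 x) 5
      have hx6 : 0 ≤ chi 1 x ^ 6 := pow_nonneg (hχ0 x) 6
      have hW : 0 ≤ Real.exp (-(k * Ψ v)) * chi 1 v ^ 6 := by positivity
      have g1 : Real.exp (-(k * Ψ x)) *
          (30 * chi 1 x ^ 4 * (pd i (chi 1) x * pd j (chi 1) x) +
            6 * chi 1 x ^ 5 * pd i (pd j (chi 1)) x - k * pd i (pd j Ψ) x * chi 1 x ^ 6 +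
            (k * pd i Ψ x) * (k * pd j Ψ x) * chi 1 x ^ 6) =
          30 * (Real.exp (-(k * Ψ x)) * chi 1 x ^ 4) * (pd i (chi 1) x * pd j (chi 1) x) +
          6 * (Real.exp (-(k * Ψ x)) * chi 1 x ^ 5) * pd i (pd j (chi 1)) x +
          (Real.exp (-(k * Ψ x)) * chi 1 x ^ 6) * (-(k * pd i (pd j Ψ) x)) +
          (Real.exp (-(k * Ψ x)) * chi 1 x ^ 6) * ((k * pd i Ψ x) * (k * pd j Ψ x)) := by ring
      rw [g1]
      have t1 : |30 * (Real.exp (-(k * Ψ x)) * chi 1 x ^ 4) * (pd i (chi 1) x * pd j (chi 1) x)| ≤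
          30 * (2 * (Real.exp (-(k * Ψ v)) * chi 1 v ^ 4)) * (c * (chi 1 v * B) * c) := by
        rw [abs_mul, abs_of_nonneg (by positivity), abs_mul]
        refine mul_le_mul (by linarith) ?_ (by positivity) (by positivity)
        exact mul_le_mul f3 (hc1 j x) (abs_nonneg _) (by positivity)
      have t2 : |6 * (Real.exp (-(k * Ψ x)) * chi 1 x ^ 5) * pd i (pd j (chi 1)) x| ≤
          6 * (2 * (Real.exp (-(k * Ψ v)) * chi 1 v ^ 5)) * (c * (chi 1 v * B)) := by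
        rw [abs_mul, abs_of_nonneg (by positivity)]
        exact mul_le_mul (by linarith) f4 (abs_nonneg _) (by positivity)
      have t3 : |(Real.exp (-(k * Ψ x)) * chi 1 x ^ 6) * (-(k * pd i (pd j Ψ) x))| * s ≤
          2 * (Real.exp (-(k * Ψ v)) * chi 1 v ^ 6) * A := by
        rw [abs_mul, abs_of_nonneg (by positivity), abs_neg, mul_assoc]
        exact mul_le_mul h6 f2 (by positivity) (by positivity)
      have t4 : |(Real.exp (-(k * Ψ x)) * chi 1 x ^ 6) * ((k * pd i Ψ x) * (k * pd j Ψ x))| ≤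
          2 * (Real.exp (-(k * Ψ v)) * chi 1 v ^ 6) * (A * k) := by
        rw [abs_mul, abs_of_nonneg (by positivity), abs_mul (k * pd i Ψ x)]
        refine mul_le_mul h6 ?_ (by positivity) (by positivity)
        exact mul_le_mul (f1 i) ((f1 j).trans hAk) (abs_nonneg _) hA
      have a1 := abs_add_le (30 * (Real.exp (-(k * Ψ x)) * chi 1 x ^ 4) *
          (pd i (chi 1) x * pd j (chi 1) x) +
          6 * (Real.exp (-(k * Ψ x)) * chi 1 x ^ 5) * pd i (pd j (chi 1)) x +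
          (Real.exp (-(k * Ψ x)) * chi 1 x ^ 6) * (-(k * pd i (pd j Ψ) x)))
          ((Real.exp (-(k * Ψ x)) * chi 1 x ^ 6) * ((k * pd i Ψ x) * (k * pd j Ψ x)))
      have a2 := abs_add_le (30 * (Real.exp (-(k * Ψ x)) * chi 1 x ^ 4) *
          (pd i (chi 1) x * pd j (chi 1) x) +
          6 * (Real.exp (-(k * Ψ x)) * chi 1 x ^ 5) * pd i (pd j (chi 1)) x)
          ((Real.exp (-(k * Ψ x)) * chi 1 x ^ 6) * (-(k * pd i (pd j Ψ) x)))
      have a3 := abs_add_le (30 * (Real.exp (-(k * Ψ x)) * chi 1 x ^ 4) *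
          (pd i (chi 1) x * pd j (chi 1) x))
          (6 * (Real.exp (-(k * Ψ x)) * chi 1 x ^ 5) * pd i (pd j (chi 1)) x)
      obtain ⟨T, hT⟩ : ∃ T, T = 30 * (Real.exp (-(k * Ψ x)) * chi 1 x ^ 4) *
          (pd i (chi 1) x * pd j (chi 1) x) +
          6 * (Real.exp (-(k * Ψ x)) * chi 1 x ^ 5) * pd i (pd j (chi 1)) x +
          (Real.exp (-(k * Ψ x)) * chi 1 x ^ 6) * (-(k * pd i (pd j Ψ) x)) +
          (Real.exp (-(k * Ψ x)) * chi 1 x ^ 6) * ((k * pd i Ψ x) * (k * pd j Ψ x)) := ⟨_, rfl⟩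
      rw [← hT] at a1 ⊢
      -- everything times `s`
      have b1 : |T| * s ≤
          (30 * (2 * (Real.exp (-(k * Ψ v)) * chi 1 v ^ 4)) * (c * (chi 1 v * B) * c)) * s +
          (6 * (2 * (Real.exp (-(k * Ψ v)) * chi 1 v ^ 5)) * (c * (chi 1 v * B))) * s +
          2 * (Real.exp (-(k * Ψ v)) * chi 1 v ^ 6) * A +
          (2 * (Real.exp (-(k * Ψ v)) * chi 1 v ^ 6) * (A * k)) * s := by
        have u0 : |T| ≤ |30 * (Real.exp (-(k * Ψ x)) * chi 1 x ^ 4) *
          (pd i (chi 1) x * pd j (chi 1) x)| +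
          |6 * (Real.exp (-(k * Ψ x)) * chi 1 x ^ 5) * pd i (pd j (chi 1)) x| +
          |(Real.exp (-(k * Ψ x)) * chi 1 x ^ 6) * (-(k * pd i (pd j Ψ) x))| +
          |(Real.exp (-(k * Ψ x)) * chi 1 x ^ 6) * ((k * pd i Ψ x) * (k * pd j Ψ x))| := by
          linarith
        have u1 := mul_le_mul_of_nonneg_right u0 hs.le
        have u2 := mul_le_mul_of_nonneg_right t1 hs.le
        have u3 := mul_le_mul_of_nonneg_right t2 hs.le
        have u4 := mul_le_mul_of_nonneg_right t4 hs.le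
        rw [add_mul, add_mul, add_mul] at u1
        linarith
      have b2 := mul_le_mul_of_nonneg_right b1 (hχ0 v)
      obtain ⟨W, hWd⟩ : ∃ W, W = Real.exp (-(k * Ψ v)) * chi 1 v ^ 6 := ⟨_, rfl⟩
      rw [← hWd] at hW
      have b3 : ((30 * (2 * (Real.exp (-(k * Ψ v)) * chi 1 v ^ 4)) * (c * (chi 1 v * B) * c)) * s +
          (6 * (2 * (Real.exp (-(k * Ψ v)) * chi 1 v ^ 5)) * (c * (chi 1 v * B))) * s +
          2 * (Real.exp (-(k * Ψ v)) * chi 1 v ^ 6) * A +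
          (2 * (Real.exp (-(k * Ψ v)) * chi 1 v ^ 6) * (A * k)) * s) * chi 1 v =
          60 * c ^ 2 * (B * W) * s + 12 * c * (B * W) * (s * chi 1 v) +
          2 * (A * W) * chi 1 v + 2 * (A * W) * (k * s * chi 1 v) := by
        rw [hWd]
        ring
      rw [b3] at b2
      have hBW : 0 ≤ B * W := mul_nonneg hB hW
      have hAW : 0 ≤ A * W := mul_nonneg hA hW
      have hs1' : s ≤ 1 := by linarith
      have b4 : 60 * c ^ 2 * (B * W) * s ≤ 60 * c ^ 2 * (B * W) :=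
        mul_le_of_le_one_right (by positivity) hs1'
      have b5 : 12 * c * (B * W) * (s * chi 1 v) ≤ 12 * c * (B * W) := by
        refine mul_le_of_le_one_right (by positivity) ?_
        exact mul_le_one₀ hs1' (hχ0 v) (hχ1 v)
      have b6 : 2 * (A * W) * chi 1 v ≤ 2 * (A * W) :=
        mul_le_of_le_one_right (by positivity) (hχ1 v)
      have b7 : 2 * (A * W) * (k * s * chi 1 v) ≤ 2 * (A * W) * (1 / 100) := by
        refine mul_le_mul_of_nonneg_left ?_ (by positivity)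
        have : k * s * chi 1 v ≤ 1 / 100 * 1 :=
          mul_le_mul hks1 (hχ1 v) (hχ0 v) (by norm_num)
        linarith
      have b8 : kap K k s Ψ v * wt k Ψ v = K * (A * W) + K * (B * W) := by
        rw [e, hWd]
        unfold wt
        ring
      have b9 : |T| * rh s v = |T| * s * chi 1 v := by
        unfold rh
        ring
      rw [b8, b9]
      have b10 : K * (A * W) + K * (B * W) =
          3 * (A * W) + 60 * c ^ 2 * (A * W) + 12 * c * (A * W) +
          3 * (B * W) + 60 * c ^ 2 * (B * W) + 12 * c * (B * W) := by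
        rw [hK]
        ring
      rw [b10]
      have b11 : 0 ≤ 60 * c ^ 2 * (A * W) := by positivity
      have b12 : 0 ≤ 12 * c * (A * W) := by positivity
      linarith

end Pool.Agent.LandauF
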