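import Pool.Agent.LandauF.SWirt

/-!
# LandauF, module SDefs: definitions for the sphere inequality

`Hom0 U`: `U` is even, homogeneous of degree `0` and smooth away from `0`.  `d1 U x y = DU(x) y`,
`d2 U x y = D²U(x)[y, y]`, `n1 U x = |DU(x)|²`, `n2 U x = |D²U(x)|²`, `cr x y = |x × y|²`.
-/

set_option autoImplicit false

namespace Pool.Agent.LandauF

open MeasureTheory Set Filter Topology Pool.Agent.Landau

/-- even functions, homogeneous of degree `0`, smooth away from the origin -/
structure Hom0 (U : V → ℝ) : Prop where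
  smooth : ContDiffOn ℝ (⊤ : ℕ∞) U {0}ᶜ
  hom : ∀ (t : ℝ) (x : V), 0 < t → U (t • x) = U x
  even : ∀ x : V, U (-x) = U x

/-- directional derivative -/
noncomputable def d1 (U : V → ℝ) (x y : V) : ℝ := ∑ i : Fin 3, pd i U x * y i

/-- second directional derivative -/
noncomputable def d2 (U : V → ℝ) (x y : V) : ℝ :=
  ∑ i : Fin 3, ∑ j : Fin 3, pd i (pd j U) x * y i * y j

/-- squared norm of the gradient -/
noncomputable def n1 (U : V → ℝ) (x : V) : ℝ := ∑ i : Fin 3, pd i U x ^ 2

/-- squared norm of the Hessian -/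
noncomputable def n2 (U : V → ℝ) (x : V) : ℝ := ∑ i : Fin 3, ∑ j : Fin 3, pd i (pd j U) x ^ 2

/-- squared area of the parallelogram -/
noncomputable def cr (x y : V) : ℝ := ‖x‖ ^ 2 * ‖y‖ ^ 2 - (∑ i : Fin 3, x i * y i) ^ 2

/-- the weight on pairs of vectors: invariant under the rotations
`(x, y) ↦ (cos θ x + sin θ y, - sin θ x + cos θ y)` -/
noncomputable def wp (x y : V) : ℝ := cr x y ^ 4 * Real.exp (-((‖x‖ ^ 2 + ‖y‖ ^ 2) / 2))

end Pool.Agent.LandauF
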