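import Pool.Agent.LandauF.SDefs

/-!
# LandauF, module SEll: the inequality along ellipses

For `x, y` independent, `h(θ) = U (cos θ x + sin θ y)` is smooth and `π`-periodic (`U` even, and
`cos θ x + sin θ y ≠ 0`), `h' = d1 U x' y'`, `h'' = d2 U x' y'` at `x' = cos θ x + sin θ y`,
`y' = - sin θ x + cos θ y`: indeed `x'' = -x'` and `DU(x') x' = 0` by homogeneity.  `exp_wirt` gives the
inequality for each pair; multiply by `wp x y`, which is invariant under `(x, y) ↦ (x', y')`
(so are `‖x‖² + ‖y‖²` and `cr x y`), integrate over `V × V`, exchange the integrals (Tonelli) and use that the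
rotation of `V × V` preserves the measure: the integral over `θ` of a constant.  The set of dependent
pairs has measure zero (there `cr x y = 0`, so the weight vanishes).
-/

set_option autoImplicit false

namespace Pool.Agent.LandauF

open MeasureTheory Set Filter Topology Pool.Agent.Landau

/-- the rotated first vector -/
noncomputable def ellX (x y : V) (θ : ℝ) : V := Real.cos θ • x + Real.sin θ • y

/-- the rotated second vector -/
noncomputable def ellY (x y : V) (θ : ℝ) : V := -(Real.sin θ) • x + Real.cos θ • y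

theorem ell_fderiv_sum (G : V → ℝ) (v w : V) :
    fderiv ℝ G v w = ∑ i : Fin 3, pd i G v * w i := by
  have h : w = ∑ i : Fin 3, w i • EuclideanSpace.single i (1 : ℝ) := by
    ext j
    simp [Finset.sum_apply, Pi.single_apply]
  conv_lhs => rw [h]
  rw [map_sum]
  refine Finset.sum_congr rfl fun i _ => ?_
  rw [map_smul]
  simp only [smul_eq_mul, pd]
  ring

theorem ellX_deriv (x y : V) (θ : ℝ) : HasDerivAt (ellX x y) (ellY x y θ) θ := by
  have h1 := (Real.hasDerivAt_cos θ).smul_const x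
  have h2 := (Real.hasDerivAt_sin θ).smul_const y
  exact h1.add h2

theorem ellY_deriv (x y : V) (θ : ℝ) : HasDerivAt (ellY x y) (-(ellX x y θ)) θ := by
  have h1 := (Real.hasDerivAt_sin θ).neg.smul_const x
  have h2 := (Real.hasDerivAt_cos θ).smul_const y
  have h3 := h1.add h2
  have h4 : -(ellX x y θ) = -Real.cos θ • x + -Real.sin θ • y := by
    simp only [ellX, neg_smul]
    abel
  rw [h4]
  exact h3

theorem ell_normsq (x : V) : ‖x‖ ^ 2 = ∑ i : Fin 3, x i ^ 2 := by
  rw [EuclideanSpace.norm_sq_eq]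
  simp

theorem ell_norm (x y : V) (θ : ℝ) :
    ‖ellX x y θ‖ ^ 2 + ‖ellY x y θ‖ ^ 2 = ‖x‖ ^ 2 + ‖y‖ ^ 2 := by
  simp only [ell_normsq, ellX, ellY, Fin.sum_univ_three, PiLp.add_apply, PiLp.smul_apply,
    smul_eq_mul]
  have h := Real.sin_sq_add_cos_sq θ
  linear_combination (x 0 ^ 2 + x 1 ^ 2 + x 2 ^ 2 + y 0 ^ 2 + y 1 ^ 2 + y 2 ^ 2) * h

theorem ell_cr (x y : V) (θ : ℝ) : cr (ellX x y θ) (ellY x y θ) = cr x y := by
  simp only [cr, ell_normsq, ellX, ellY, Fin.sum_univ_three, PiLp.add_apply, PiLp.smul_apply,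
    smul_eq_mul]
  have h := Real.sin_sq_add_cos_sq θ
  linear_combination ((x 0 ^ 2 + x 1 ^ 2 + x 2 ^ 2) * (y 0 ^ 2 + y 1 ^ 2 + y 2 ^ 2) -
    (x 0 * y 0 + x 1 * y 1 + x 2 * y 2) ^ 2) * (Real.sin θ ^ 2 + Real.cos θ ^ 2 + 1) * h

theorem ell_wp (x y : V) (θ : ℝ) : wp (ellX x y θ) (ellY x y θ) = wp x y := by
  unfold wp
  rw [ell_cr, ell_norm]

theorem ellX_ne (x y : V) (h : cr x y ≠ 0) (θ : ℝ) : ellX x y θ ≠ 0 := by
  intro h0
  apply h
  rw [← ell_cr x y θ, h0]
  simp [cr]

theorem ell_cr_nonneg (x y : V) : 0 ≤ cr x y := by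
  simp only [cr, ell_normsq, Fin.sum_univ_three]
  nlinarith [sq_nonneg (x 0 * y 1 - x 1 * y 0), sq_nonneg (x 0 * y 2 - x 2 * y 0),
    sq_nonneg (x 1 * y 2 - x 2 * y 1)]

theorem ell_wp_nonneg (x y : V) : 0 ≤ wp x y := by
  unfold wp
  have := ell_cr_nonneg x y
  positivity

theorem ell_diffAt {U : V → ℝ} (hU : Hom0 U) {v : V} (hv : v ≠ 0) : DifferentiableAt ℝ U v :=
  (hU.smooth.contDiffAt (isOpen_compl_singleton.mem_nhds hv)).differentiableAt (by simp)

theorem ell_pd_diffAt {U : V → ℝ} (hU : Hom0 U) {v : V} (hv : v ≠ 0) (i : Fin 3) :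
    DifferentiableAt ℝ (pd i U) v := by
  have h1 : ContDiffAt ℝ (⊤ : ℕ∞) U v := hU.smooth.contDiffAt (isOpen_compl_singleton.mem_nhds hv)
  have h2 : ContDiffAt ℝ 1 (fderiv ℝ U) v :=
    (h1.of_le (m := 2) (WithTop.coe_le_coe.2 (le_top (a := (2 : ℕ∞))))).fderiv_right (m := 1)
      (by norm_num)
  have h3 : DifferentiableAt ℝ (fderiv ℝ U) v := h2.differentiableAt (by norm_num)
  exact h3.clm_apply (differentiableAt_const _)

theorem ell_euler {U : V → ℝ} (hU : Hom0 U) {v : V} (hv : v ≠ 0) :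
    ∑ i : Fin 3, pd i U v * v i = 0 := by
  rw [← ell_fderiv_sum]
  have h1 : HasDerivAt (fun t : ℝ => t • v) v 1 := by
    simpa using (hasDerivAt_id (1 : ℝ)).smul_const v
  have h2 : HasDerivAt (fun t : ℝ => U (t • v)) (fderiv ℝ U v v) 1 := by
    have h3 : HasFDerivAt U (fderiv ℝ U v) ((1 : ℝ) • v) := by
      rw [one_smul]
      exact (ell_diffAt hU hv).hasFDerivAt
    exact h3.comp_hasDerivAt (1 : ℝ) h1
  have h4 : (fun t : ℝ => U (t • v)) =ᶠ[𝓝 1] fun _ => U v := by
    filter_upwards [lt_mem_nhds (show (0 : ℝ) < 1 by norm_num)] with t ht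
    exact hU.hom t v ht
  have h5 : HasDerivAt (fun t : ℝ => U (t • v)) 0 1 :=
    (hasDerivAt_const (1 : ℝ) (U v)).congr_of_eventuallyEq h4
  exact h2.unique h5

theorem ell_h1 {U : V → ℝ} (hU : Hom0 U) {x y : V} (h : cr x y ≠ 0) (θ : ℝ) :
    HasDerivAt (fun t => U (ellX x y t)) (d1 U (ellX x y θ) (ellY x y θ)) θ := by
  have h3 : HasFDerivAt U (fderiv ℝ U (ellX x y θ)) (ellX x y θ) :=
    (ell_diffAt hU (ellX_ne x y h θ)).hasFDerivAt
  have h4 := h3.comp_hasDerivAt θ (ellX_deriv x y θ)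
  rw [ell_fderiv_sum] at h4
  exact h4

theorem ell_h2 {U : V → ℝ} (hU : Hom0 U) {x y : V} (h : cr x y ≠ 0) (θ : ℝ) :
    HasDerivAt (fun t => d1 U (ellX x y t) (ellY x y t)) (d2 U (ellX x y θ) (ellY x y θ)) θ := by
  have hx := ellX_ne x y h θ
  have h1 : ∀ i : Fin 3, HasDerivAt (fun t => pd i U (ellX x y t) * ellY x y t i)
      ((∑ j : Fin 3, pd j (pd i U) (ellX x y θ) * ellY x y θ j) * ellY x y θ i +
        pd i U (ellX x y θ) * (-(ellX x y θ i))) θ := by
    intro i
    have h3 : HasFDerivAt (pd i U) (fderiv ℝ (pd i U) (ellX x y θ)) (ellX x y θ) :=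
      (ell_pd_diffAt hU hx i).hasFDerivAt
    have h4 := h3.comp_hasDerivAt θ (ellX_deriv x y θ)
    rw [ell_fderiv_sum] at h4
    have h5 : HasDerivAt (fun t => ellY x y t i) (-(ellX x y θ i)) θ := by
      have h6 := (EuclideanSpace.proj i : V →L[ℝ] ℝ).hasFDerivAt.comp_hasDerivAt θ
        (ellY_deriv x y θ)
      exact h6
    exact h4.mul h5
  have h2 : HasDerivAt (fun t => d1 U (ellX x y t) (ellY x y t))
      (∑ i : Fin 3, ((∑ j : Fin 3, pd j (pd i U) (ellX x y θ) * ellY x y θ j) * ellY x y θ i +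
        pd i U (ellX x y θ) * (-(ellX x y θ i)))) θ := by
    have h7 := HasDerivAt.fun_sum (u := Finset.univ) (fun i _ => h1 i)
    exact h7
  have h3 : (∑ i : Fin 3, ((∑ j : Fin 3, pd j (pd i U) (ellX x y θ) * ellY x y θ j) *
      ellY x y θ i + pd i U (ellX x y θ) * (-(ellX x y θ i)))) =
      d2 U (ellX x y θ) (ellY x y θ) := by
    have h8 := ell_euler hU hx
    simp only [d2, Fin.sum_univ_three] at h8 ⊢
    linear_combination -h8
  rw [← h3]
  exact h2

theorem ell_smooth {U : V → ℝ} (hU : Hom0 U) {x y : V} (h : cr x y ≠ 0) :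
    ContDiff ℝ (⊤ : ℕ∞) (fun t => U (ellX x y t)) := by
  have h1 : ContDiff ℝ (⊤ : ℕ∞) (ellX x y) := by
    unfold ellX
    exact (Real.contDiff_cos.smul contDiff_const).add (Real.contDiff_sin.smul contDiff_const)
  exact hU.smooth.comp_contDiff h1 (fun t => ellX_ne x y h t)

theorem ell_per {U : V → ℝ} (hU : Hom0 U) (x y : V) (θ : ℝ) :
    U (ellX x y (θ + Real.pi)) = U (ellX x y θ) := by
  have : ellX x y (θ + Real.pi) = -(ellX x y θ) := by
    simp only [ellX, Real.cos_add_pi, Real.sin_add_pi, neg_smul]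
    abel
  rw [this, hU.even]

/-- first integrand -/
noncomputable def ellF1 (U : V → ℝ) (p : V × V) : ℝ :=
  wp p.1 p.2 * Real.exp (U p.1) * d1 U p.1 p.2 ^ 2

/-- second integrand -/
noncomputable def ellF2 (U : V → ℝ) (p : V × V) : ℝ :=
  wp p.1 p.2 * Real.exp (U p.1) * d2 U p.1 p.2 ^ 2

/-- inequality for one pair -/
theorem ell_pair (U : V → ℝ) (hU : Hom0 U) (x y : V) :
    4 * ∫⁻ θ in Ioc (0 : ℝ) Real.pi, ENNReal.ofReal (ellF1 U (ellX x y θ, ellY x y θ)) ≤
      ∫⁻ θ in Ioc (0 : ℝ) Real.pi, ENNReal.ofReal (ellF2 U (ellX x y θ, ellY x y θ)) := by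
  by_cases h : cr x y = 0
  · have : ∀ θ, ellF1 U (ellX x y θ, ellY x y θ) = 0 := by
      intro θ
      simp only [ellF1]
      rw [ell_wp]
      simp [wp, h]
    simp [this]
  · have h1 := exp_wirt (fun t => U (ellX x y t)) (ell_smooth hU h) (ell_per hU x y)
    have hd : deriv (fun t => U (ellX x y t)) = fun t => d1 U (ellX x y t) (ellY x y t) :=
      funext fun θ => (ell_h1 hU h θ).deriv
    have hdd : deriv (fun t => d1 U (ellX x y t) (ellY x y t)) =
        fun t => d2 U (ellX x y t) (ellY x y t) := funext fun θ => (ell_h2 hU h θ).deriv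
    rw [hd, hdd] at h1
    have hs := ell_smooth hU h
    have hc0 : Continuous (fun t => U (ellX x y t)) := hs.continuous
    have hs1 : ContDiff ℝ (⊤ : ℕ∞) (fun t => d1 U (ellX x y t) (ellY x y t)) := by
      rw [← hd]
      exact (contDiff_infty_iff_deriv.1 hs).2
    have hs2 : ContDiff ℝ (⊤ : ℕ∞) (fun t => d2 U (ellX x y t) (ellY x y t)) := by
      rw [← hdd]
      exact (contDiff_infty_iff_deriv.1 hs1).2
    have hc1 := hs1.continuous
    have hc2 := hs2.continuous
    have e1 : ∀ θ, ellF1 U (ellX x y θ, ellY x y θ) = wp x y * (Real.exp (U (ellX x y θ)) *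
        d1 U (ellX x y θ) (ellY x y θ) ^ 2) := by
      intro θ
      simp only [ellF1]
      rw [ell_wp]
      ring
    have e2 : ∀ θ, ellF2 U (ellX x y θ, ellY x y θ) = wp x y * (Real.exp (U (ellX x y θ)) *
        d2 U (ellX x y θ) (ellY x y θ) ^ 2) := by
      intro θ
      simp only [ellF2]
      rw [ell_wp]
      ring
    simp only [e1, e2]
    have i1 : IntegrableOn (fun θ => wp x y * (Real.exp (U (ellX x y θ)) *
        d1 U (ellX x y θ) (ellY x y θ) ^ 2)) (Ioc 0 Real.pi) := by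
      have : Continuous (fun θ => wp x y * (Real.exp (U (ellX x y θ)) *
        d1 U (ellX x y θ) (ellY x y θ) ^ 2)) :=
        continuous_const.mul ((Real.continuous_exp.comp hc0).mul (hc1.pow 2))
      exact (this.integrableOn_Icc (a := 0) (b := Real.pi)).mono_set Ioc_subset_Icc_self
    have i2 : IntegrableOn (fun θ => wp x y * (Real.exp (U (ellX x y θ)) *
        d2 U (ellX x y θ) (ellY x y θ) ^ 2)) (Ioc 0 Real.pi) := by
      have : Continuous (fun θ => wp x y * (Real.exp (U (ellX x y θ)) *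
        d2 U (ellX x y θ) (ellY x y θ) ^ 2)) :=
        continuous_const.mul ((Real.continuous_exp.comp hc0).mul (hc2.pow 2))
      exact (this.integrableOn_Icc (a := 0) (b := Real.pi)).mono_set Ioc_subset_Icc_self
    have hw := ell_wp_nonneg x y
    rw [← ofReal_integral_eq_lintegral_ofReal i1 (ae_of_all _ fun θ => by positivity),
      ← ofReal_integral_eq_lintegral_ofReal i2 (ae_of_all _ fun θ => by positivity)]
    have h4 : (4 : ENNReal) = ENNReal.ofReal 4 := by simp
    rw [h4, ← ENNReal.ofReal_mul (by norm_num)]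
    apply ENNReal.ofReal_le_ofReal
    rw [intervalIntegral.integral_of_le Real.pi_pos.le,
      intervalIntegral.integral_of_le Real.pi_pos.le] at h1
    rw [integral_const_mul, integral_const_mul]
    calc 4 * (wp x y * ∫ θ in Ioc 0 Real.pi, Real.exp (U (ellX x y θ)) *
          d1 U (ellX x y θ) (ellY x y θ) ^ 2)
        = wp x y * (4 * ∫ θ in Ioc 0 Real.pi, Real.exp (U (ellX x y θ)) *
          d1 U (ellX x y θ) (ellY x y θ) ^ 2) := by ring
      _ ≤ _ := mul_le_mul_of_nonneg_left h1 hw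

/-- the rotation of `V × V` -/
noncomputable def ellR (θ : ℝ) : V × V →ₗ[ℝ] V × V :=
  (Real.cos θ • LinearMap.fst ℝ V V + Real.sin θ • LinearMap.snd ℝ V V).prod
    (-(Real.sin θ) • LinearMap.fst ℝ V V + Real.cos θ • LinearMap.snd ℝ V V)

theorem ellR_apply (θ : ℝ) (p : V × V) : ellR θ p = (ellX p.1 p.2 θ, ellY p.1 p.2 θ) := rfl

theorem ellR_neg (θ : ℝ) : ellR (-θ) ∘ₗ ellR θ = LinearMap.id := by
  apply LinearMap.ext
  intro p
  simp only [LinearMap.comp_apply, ellR_apply, LinearMap.id_apply, ellX, ellY, Real.cos_neg,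
    Real.sin_neg]
  have h := Real.sin_sq_add_cos_sq θ
  ext i
  · simp only [PiLp.add_apply, PiLp.smul_apply, smul_eq_mul]
    linear_combination (p.1 i) * h
  · simp only [PiLp.add_apply, PiLp.smul_apply, smul_eq_mul]
    linear_combination (p.2 i) * h

/-- the reflection of `V × V` -/
noncomputable def ellJ : V × V →ₗ[ℝ] V × V :=
  (LinearMap.fst ℝ V V).prod (-(LinearMap.snd ℝ V V))

theorem ellJ_apply (p : V × V) : ellJ p = (p.1, -p.2) := rfl

theorem ellJ_conj (θ : ℝ) : ellJ ∘ₗ (ellR θ ∘ₗ ellJ) = ellR (-θ) := by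
  apply LinearMap.ext
  intro p
  simp only [LinearMap.comp_apply, ellR_apply, ellJ_apply, ellX, ellY, Real.cos_neg,
    Real.sin_neg]
  ext i
  · simp only [PiLp.add_apply, PiLp.smul_apply, PiLp.neg_apply, smul_eq_mul]
    ring
  · simp only [PiLp.add_apply, PiLp.smul_apply, PiLp.neg_apply, smul_eq_mul]
    ring

theorem ellJ_sq : ellJ ∘ₗ ellJ = LinearMap.id := by
  apply LinearMap.ext
  intro p
  simp [ellJ_apply]

theorem ellR_det (θ : ℝ) : LinearMap.det (ellR θ) ^ 2 = 1 := by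
  have h1 : LinearMap.det ellJ * LinearMap.det ellJ = 1 := by
    rw [← LinearMap.det_comp, ellJ_sq, LinearMap.det_id]
  have h2 : LinearMap.det (ellR (-θ)) = LinearMap.det (ellR θ) := by
    rw [← ellJ_conj, LinearMap.det_comp, LinearMap.det_comp]
    linear_combination (LinearMap.det (ellR θ)) * h1
  have h3 : LinearMap.det (ellR (-θ)) * LinearMap.det (ellR θ) = 1 := by
    rw [← LinearMap.det_comp, ellR_neg, LinearMap.det_id]
  rw [h2] at h3
  rw [sq]
  exact h3

theorem ell_sq_one {a : ℝ} (h : a ^ 2 = 1) : a = 1 ∨ a = -1 := by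
  have h1 : (a - 1) * (a + 1) = 0 := by linear_combination h
  rcases mul_eq_zero.1 h1 with h2 | h2
  · left; linarith
  · right; linarith

theorem ellR_mp (θ : ℝ) : MeasurePreserving (ellR θ) (volume : Measure (V × V)) volume := by
  have : (volume : Measure (V × V)).IsAddHaarMeasure := by
    rw [Measure.volume_eq_prod]
    infer_instance
  have hd := ellR_det θ
  have h0 : LinearMap.det (ellR θ) ≠ 0 := by
    intro h
    rw [h] at hd
    norm_num at hd
  refine ⟨(ellR θ).continuous_of_finiteDimensional.measurable, ?_⟩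
  rw [Measure.map_linearMap_addHaar_eq_smul_addHaar (μ := (volume : Measure (V × V))) h0]
  have h1 : |(LinearMap.det (ellR θ))⁻¹| = 1 := by
    rw [abs_inv]
    have h2 : |LinearMap.det (ellR θ)| = 1 := by
      rcases (ell_sq_one hd) with h | h
      · rw [h]; norm_num
      · rw [h]; norm_num
    rw [h2, inv_one]
  rw [h1]
  simp

theorem ell_meas_U {U : V → ℝ} (hU : Hom0 U) : Measurable U :=
  measurable_of_continuousOn_compl_singleton 0 hU.smooth.continuousOn

theorem ell_meas_pd (i : Fin 3) (G : V → ℝ) : Measurable (pd i G) :=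
  measurable_fderiv_apply_const ℝ G _

theorem ell_meas_coord (i : Fin 3) : Measurable (fun v : V => v i) :=
  (EuclideanSpace.proj i : V →L[ℝ] ℝ).continuous.measurable

theorem ell_meas_wp : Measurable (fun p : V × V => wp p.1 p.2) := by
  have h1 : ∀ i : Fin 3, Continuous (fun p : V × V => p.1 i) := fun i =>
    (EuclideanSpace.proj i : V →L[ℝ] ℝ).continuous.comp continuous_fst
  have h2 : ∀ i : Fin 3, Continuous (fun p : V × V => p.2 i) := fun i =>
    (EuclideanSpace.proj i : V →L[ℝ] ℝ).continuous.comp continuous_snd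
  have h3 : Continuous (fun p : V × V => wp p.1 p.2) := by
    unfold wp cr
    have h4 : Continuous (fun p : V × V => ∑ i : Fin 3, p.1 i * p.2 i) :=
      continuous_finsetSum _ fun i _ => (h1 i).mul (h2 i)
    have h5 : Continuous (fun p : V × V => ‖p.1‖) := continuous_fst.norm
    have h6 : Continuous (fun p : V × V => ‖p.2‖) := continuous_snd.norm
    fun_prop
  exact h3.measurable

theorem ell_meas_F1 {U : V → ℝ} (hU : Hom0 U) : Measurable (ellF1 U) := by
  unfold ellF1 d1
  refine (ell_meas_wp.mul (Real.measurable_exp.comp ((ell_meas_U hU).comp measurable_fst))).mul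
    (Measurable.pow_const ?_ 2)
  refine Finset.measurable_sum _ fun i _ => ?_
  exact ((ell_meas_pd i U).comp measurable_fst).mul ((ell_meas_coord i).comp measurable_snd)

theorem ell_meas_F2 {U : V → ℝ} (hU : Hom0 U) : Measurable (ellF2 U) := by
  unfold ellF2 d2
  refine (ell_meas_wp.mul (Real.measurable_exp.comp ((ell_meas_U hU).comp measurable_fst))).mul
    (Measurable.pow_const ?_ 2)
  refine Finset.measurable_sum _ fun i _ => ?_
  refine Finset.measurable_sum _ fun j _ => ?_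
  exact (((ell_meas_pd i _).comp measurable_fst).mul ((ell_meas_coord i).comp measurable_snd)).mul
    ((ell_meas_coord j).comp measurable_snd)

theorem ell_meas_rot : Measurable (fun q : (V × V) × ℝ => (ellX q.1.1 q.1.2 q.2, ellY q.1.1 q.1.2 q.2)) := by
  have : Continuous (fun q : (V × V) × ℝ => (ellX q.1.1 q.1.2 q.2, ellY q.1.1 q.1.2 q.2)) := by
    unfold ellX ellY
    fun_prop
  exact this.measurable

theorem ell_swap (F : V × V → ℝ) (hF : Measurable F) :
    ∫⁻ p : V × V, ∫⁻ θ in Ioc (0 : ℝ) Real.pi, ENNReal.ofReal (F (ellX p.1 p.2 θ, ellY p.1 p.2 θ)) =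
      ENNReal.ofReal Real.pi * ∫⁻ p : V × V, ENNReal.ofReal (F p) := by
  rw [lintegral_lintegral_swap]
  · have h1 : ∀ θ : ℝ, ∫⁻ p : V × V, ENNReal.ofReal (F (ellX p.1 p.2 θ, ellY p.1 p.2 θ)) =
        ∫⁻ p : V × V, ENNReal.ofReal (F p) := by
      intro θ
      have h2 := (ellR_mp θ).lintegral_comp (f := fun p => ENNReal.ofReal (F p))
        (ENNReal.measurable_ofReal.comp hF)
      exact h2
    simp_rw [h1]
    rw [lintegral_const, Measure.restrict_apply_univ, Real.volume_Ioc, sub_zero, mul_comm]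
  · exact (ENNReal.measurable_ofReal.comp (hF.comp ell_meas_rot)).aemeasurable

/-- The integrated ellipse inequality. -/
theorem ell_ineq (U : V → ℝ) (hU : Hom0 U) :
    4 * (∫⁻ x, ∫⁻ y, ENNReal.ofReal (wp x y * Real.exp (U x) * d1 U x y ^ 2)) ≤
      ∫⁻ x, ∫⁻ y, ENNReal.ofReal (wp x y * Real.exp (U x) * d2 U x y ^ 2) := by
  have h1 : (∫⁻ x, ∫⁻ y, ENNReal.ofReal (wp x y * Real.exp (U x) * d1 U x y ^ 2)) =
      ∫⁻ p : V × V, ENNReal.ofReal (ellF1 U p) := by
    have h0 : Measurable (fun p : V × V => ENNReal.ofReal (ellF1 U p)) :=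
      ENNReal.measurable_ofReal.comp (ell_meas_F1 hU)
    rw [Measure.volume_eq_prod, lintegral_prod _ h0.aemeasurable]
    rfl
  have h2 : (∫⁻ x, ∫⁻ y, ENNReal.ofReal (wp x y * Real.exp (U x) * d2 U x y ^ 2)) =
      ∫⁻ p : V × V, ENNReal.ofReal (ellF2 U p) := by
    have h0 : Measurable (fun p : V × V => ENNReal.ofReal (ellF2 U p)) :=
      ENNReal.measurable_ofReal.comp (ell_meas_F2 hU)
    rw [Measure.volume_eq_prod, lintegral_prod _ h0.aemeasurable]
    rfl
  rw [h1, h2]
  have h3 : ∫⁻ p : V × V, 4 * ∫⁻ θ in Ioc (0 : ℝ) Real.pi,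
      ENNReal.ofReal (ellF1 U (ellX p.1 p.2 θ, ellY p.1 p.2 θ)) ≤
      ∫⁻ p : V × V, ∫⁻ θ in Ioc (0 : ℝ) Real.pi,
      ENNReal.ofReal (ellF2 U (ellX p.1 p.2 θ, ellY p.1 p.2 θ)) :=
    lintegral_mono fun p => ell_pair U hU p.1 p.2
  rw [lintegral_const_mul' _ _ (by norm_num), ell_swap _ (ell_meas_F1 hU), ell_swap _ (ell_meas_F2 hU)] at h3
  have h4 : ENNReal.ofReal Real.pi * (4 * ∫⁻ p : V × V, ENNReal.ofReal (ellF1 U p)) ≤
      ENNReal.ofReal Real.pi * ∫⁻ p : V × V, ENNReal.ofReal (ellF2 U p) := by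
    refine le_trans (le_of_eq ?_) h3
    ring
  have hpi0 : ENNReal.ofReal Real.pi ≠ 0 := by
    simp [Real.pi_pos]
  exact (ENNReal.mul_le_mul_iff_right hpi0 ENNReal.ofReal_ne_top).1 h4

end Pool.Agent.LandauF
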