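import Pool.Agent.LandauF.SDefs

/-!
# LandauF, module SGau: the Gaussian integral in the second vector

Let `x ≠ 0`, `b ⊥ x`, `M` symmetric with `M x = -b`.  With `y = (y·x̂) x̂ + y_⊥`, `cr x y = |x|² |y_⊥|²`.
Put `Z = ∫ |y_⊥|⁸ e^{-|y|²/2}` (`Z = 384 · (2π)^{3/2}`, only `0 < Z < ∞` matters, independent of `x`).
In polar coordinates of the plane `x^⊥`: `∫ |y_⊥|^{8+2} = 10 Z`, `∫ |y_⊥|^{8+4} = 120 Z` (same Gaussian weight),
`(b · y_⊥)²` averages to `½ |b|² |y_⊥|²` on circles, `(M[y_⊥, y_⊥])²` to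
`(1/8)(2 |M_⊥|² + (tr M_⊥)²) |y_⊥|⁴ ≤ ½ |M_⊥|² |y_⊥|⁴`, `|M_⊥|² = |M|² - 2 |b|²/|x|²`, and
`M[y,y] = M[y_⊥,y_⊥] - 2 (y·x̂) (b·y_⊥)/|x|` (`M[x̂, ·] = -b/|x|`, `b·x̂ = 0`); the mixed term integrates to `0`.
Use a linear isometry sending `x̂` to a coordinate vector, Fubini and `integral_comp_polarCoord_symm`
(or Gaussian moments of polynomials).
-/

set_option autoImplicit false

namespace Pool.Agent.LandauF

open MeasureTheory Set Filter Topology Pool.Agent.Landau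

/-- one-dimensional Gaussian moments -/
private noncomputable def gm (k : ℕ) : ℝ := ∫ t : ℝ, t ^ k * Real.exp (-(t ^ 2 / 2))

private theorem gm_int (k : ℕ) : Integrable (fun t : ℝ => t ^ k * Real.exp (-(t ^ 2 / 2))) := by
  have h := integrable_rpow_mul_exp_neg_mul_sq (b := 1 / 2) (by norm_num) (s := (k : ℝ))
    (by have : (0 : ℝ) ≤ k := Nat.cast_nonneg k
        linarith)
  refine h.congr (Eventually.of_forall fun t => ?_)
  show t ^ (k : ℝ) * Real.exp (-(1 / 2) * t ^ 2) = t ^ k * Real.exp (-(t ^ 2 / 2))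
  rw [Real.rpow_natCast]
  congr 2
  ring

private theorem gm_rec (k : ℕ) : gm (k + 2) = (k + 1) * gm k := by
  have hder : ∀ x : ℝ, HasDerivAt (fun t : ℝ => -Real.exp (-(t ^ 2 / 2)))
      (x * Real.exp (-(x ^ 2 / 2))) x := by
    intro x
    have h1 : HasDerivAt (fun t : ℝ => -(t ^ 2 / 2)) (-x) x := by
      have h2 := ((hasDerivAt_pow 2 x).div_const 2).neg
      refine h2.congr_deriv ?_
      norm_num
    have h3 := h1.exp.neg
    refine h3.congr_deriv ?_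
    ring
  have hu : ∀ x : ℝ, HasDerivAt (fun t : ℝ => t ^ (k + 1)) ((k + 1) * x ^ k) x := by
    intro x
    have h := hasDerivAt_pow (k + 1) x
    refine h.congr_deriv ?_
    push_cast
    rfl
  have h := integral_mul_deriv_eq_deriv_mul_of_integrable
    (u := fun t : ℝ => t ^ (k + 1)) (v := fun t : ℝ => -Real.exp (-(t ^ 2 / 2)))
    (u' := fun x => ((k : ℝ) + 1) * x ^ k) (v' := fun x => x * Real.exp (-(x ^ 2 / 2)))
    (fun x _ => hu x) (fun x _ => hder x)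
    ((gm_int (k + 2)).congr (Eventually.of_forall fun t => by
      show t ^ (k + 2) * Real.exp (-(t ^ 2 / 2)) = t ^ (k + 1) * (t * Real.exp (-(t ^ 2 / 2)))
      ring))
    (((gm_int k).const_mul (-((k : ℝ) + 1))).congr (Eventually.of_forall fun t => by
      show -((k : ℝ) + 1) * (t ^ k * Real.exp (-(t ^ 2 / 2))) =
        ((k : ℝ) + 1) * t ^ k * -Real.exp (-(t ^ 2 / 2))
      ring))
    (((gm_int (k + 1)).neg).congr (Eventually.of_forall fun t => by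
      show -(t ^ (k + 1) * Real.exp (-(t ^ 2 / 2))) = t ^ (k + 1) * -Real.exp (-(t ^ 2 / 2))
      ring))
  have e1 : gm (k + 2) = ∫ t : ℝ, t ^ (k + 1) * (t * Real.exp (-(t ^ 2 / 2))) := by
    unfold gm
    refine integral_congr_ae (Eventually.of_forall fun t => ?_)
    show t ^ (k + 2) * Real.exp (-(t ^ 2 / 2)) = t ^ (k + 1) * (t * Real.exp (-(t ^ 2 / 2)))
    ring
  have e2 : -∫ t : ℝ, ((k : ℝ) + 1) * t ^ k * -Real.exp (-(t ^ 2 / 2)) = (k + 1) * gm k := by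
    unfold gm
    rw [← integral_neg, ← integral_const_mul]
    refine integral_congr_ae (Eventually.of_forall fun t => ?_)
    show -(((k : ℝ) + 1) * t ^ k * -Real.exp (-(t ^ 2 / 2))) =
      ((k : ℝ) + 1) * (t ^ k * Real.exp (-(t ^ 2 / 2)))
    ring
  rw [e1, ← e2]
  exact h

private theorem gm_one : gm 1 = 0 := by
  have h : gm 1 = -gm 1 := by
    have h1 := integral_neg_eq_self (fun t : ℝ => t ^ 1 * Real.exp (-(t ^ 2 / 2))) volume
    unfold gm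
    conv_lhs => rw [← h1]
    rw [← integral_neg]
    refine integral_congr_ae (Eventually.of_forall fun t => ?_)
    show (-t) ^ 1 * Real.exp (-((-t) ^ 2 / 2)) = -(t ^ 1 * Real.exp (-(t ^ 2 / 2)))
    rw [neg_sq]
    ring
  linarith

private theorem gm_zero_pos : 0 < gm 0 := by
  have h : gm 0 = √(2 * Real.pi) := by
    have h1 := integral_gaussian (1 / 2)
    have h2 : Real.pi / (1 / 2) = 2 * Real.pi := by ring
    rw [h2] at h1
    rw [← h1]
    unfold gm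
    refine integral_congr_ae (Eventually.of_forall fun t => ?_)
    show t ^ 0 * Real.exp (-(t ^ 2 / 2)) = Real.exp (-(1 / 2) * t ^ 2)
    rw [pow_zero, one_mul]
    congr 1
    ring
  rw [h]
  exact Real.sqrt_pos.2 (by positivity)

private theorem gm_vals : gm 1 = 0 ∧ gm 2 = gm 0 ∧ gm 3 = 0 ∧ gm 4 = 3 * gm 0 ∧ gm 5 = 0 ∧
    gm 6 = 15 * gm 0 ∧ gm 7 = 0 ∧ gm 8 = 105 * gm 0 ∧ gm 9 = 0 ∧ gm 10 = 945 * gm 0 ∧
    gm 11 = 0 ∧ gm 12 = 10395 * gm 0 := by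
  have h2 := gm_rec 0
  have h3 := gm_rec 1
  have h4 := gm_rec 2
  have h5 := gm_rec 3
  have h6 := gm_rec 4
  have h7 := gm_rec 5
  have h8 := gm_rec 6
  have h9 := gm_rec 7
  have h10 := gm_rec 8
  have h11 := gm_rec 9
  have h12 := gm_rec 10
  have h1 := gm_one
  norm_num at h2 h3 h4 h5 h6 h7 h8 h9 h10 h11 h12
  refine ⟨h1, h2, ?_, ?_, ?_, ?_, ?_, ?_, ?_, ?_, ?_, ?_⟩
  all_goals simp only [h12, h11, h10, h9, h8, h7, h6, h5, h4, h3, h2, h1]
  all_goals ring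

/-- `f` times the Gaussian is integrable with integral `a` -/
private def Gs (f : V → ℝ) (a : ℝ) : Prop :=
  Integrable (fun y : V => f y * Real.exp (-(‖y‖ ^ 2 / 2))) ∧
    ∫ y : V, f y * Real.exp (-(‖y‖ ^ 2 / 2)) = a

private theorem Gs.add {f g : V → ℝ} {a b : ℝ} (hf : Gs f a) (hg : Gs g b) :
    Gs (fun y => f y + g y) (a + b) := by
  constructor
  · exact (hf.1.add hg.1).congr (Eventually.of_forall fun y => by
      show f y * _ + g y * _ = (f y + g y) * _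
      ring)
  · rw [← hf.2, ← hg.2, ← integral_add hf.1 hg.1]
    refine integral_congr_ae (Eventually.of_forall fun y => ?_)
    show (f y + g y) * _ = f y * _ + g y * _
    ring

private theorem Gs.smul {f : V → ℝ} {a : ℝ} (c : ℝ) (hf : Gs f a) :
    Gs (fun y => c * f y) (c * a) := by
  constructor
  · exact (hf.1.const_mul c).congr (Eventually.of_forall fun y => by
      show c * (f y * _) = c * f y * _
      ring)
  · rw [← hf.2, ← integral_const_mul]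
    refine integral_congr_ae (Eventually.of_forall fun y => ?_)
    show c * f y * _ = c * (f y * _)
    ring

private theorem Gs.congr {f g : V → ℝ} {a b : ℝ} (hf : Gs f a) (h : ∀ y, f y = g y) (hab : a = b) :
    Gs g b := by
  have : f = g := funext h
  rw [← this, ← hab]
  exact hf

private theorem Gs.zero : Gs (fun _ => 0) 0 := by
  constructor
  · simp
  · simp

private theorem Gs.sum {ι : Type*} (s : Finset ι) {f : ι → V → ℝ} {a : ι → ℝ}
    (h : ∀ i ∈ s, Gs (f i) (a i)) : Gs (fun y => ∑ i ∈ s, f i y) (∑ i ∈ s, a i) := by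
  classical
  induction s using Finset.induction_on with
  | empty =>
    simpa using Gs.zero
  | insert i s hi ih =>
    have h1 := (h i (Finset.mem_insert_self _ _)).add
      (ih fun j hj => h j (Finset.mem_insert_of_mem hj))
    refine h1.congr (fun y => ?_) ?_
    · rw [Finset.sum_insert hi]
    · rw [Finset.sum_insert hi]

private theorem Gs_mon (a b c : ℕ) :
    Gs (fun y => y 0 ^ a * y 1 ^ b * y 2 ^ c) (gm a * gm b * gm c) := by
  have hmp := PiLp.volume_preserving_toLp (Fin 3)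
  have key : ∀ z : Fin 3 → ℝ, (fun y : V => y 0 ^ a * y 1 ^ b * y 2 ^ c *
      Real.exp (-(‖y‖ ^ 2 / 2))) (WithLp.toLp 2 z) =
      ∏ i : Fin 3, (![fun t : ℝ => t ^ a * Real.exp (-(t ^ 2 / 2)),
        fun t : ℝ => t ^ b * Real.exp (-(t ^ 2 / 2)),
        fun t : ℝ => t ^ c * Real.exp (-(t ^ 2 / 2))] : Fin 3 → ℝ → ℝ) i (z i) := by
    intro z
    rw [Fin.prod_univ_three]
    simp only [Matrix.cons_val_zero, Matrix.cons_val_one, Matrix.cons_val]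
    have h1 : ‖(WithLp.toLp 2 z : V)‖ ^ 2 = z 0 ^ 2 + z 1 ^ 2 + z 2 ^ 2 := by
      rw [EuclideanSpace.norm_sq_eq, Fin.sum_univ_three]
      simp
    have h2 : -((z 0 ^ 2 + z 1 ^ 2 + z 2 ^ 2) / 2) =
        -(z 0 ^ 2 / 2) + -(z 1 ^ 2 / 2) + -(z 2 ^ 2 / 2) := by ring
    rw [h1, h2, Real.exp_add, Real.exp_add]
    ring
  constructor
  · rw [← hmp.integrable_comp_emb (MeasurableEquiv.toLp 2 (Fin 3 → ℝ)).measurableEmbedding]
    have h3 : Integrable (fun z : Fin 3 → ℝ =>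
        ∏ i : Fin 3, (![fun t : ℝ => t ^ a * Real.exp (-(t ^ 2 / 2)),
        fun t : ℝ => t ^ b * Real.exp (-(t ^ 2 / 2)),
        fun t : ℝ => t ^ c * Real.exp (-(t ^ 2 / 2))] : Fin 3 → ℝ → ℝ) i (z i)) := by
      refine Integrable.fintype_prod (fun i => ?_)
      fin_cases i
      · exact gm_int a
      · exact gm_int b
      · exact gm_int c
    exact h3.congr (Eventually.of_forall fun z => (key z).symm)
  · rw [← hmp.integral_comp (MeasurableEquiv.toLp 2 (Fin 3 → ℝ)).measurableEmbedding]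
    have h4 : ∀ z : Fin 3 → ℝ, (WithLp.toLp 2 z : V) 0 ^ a * (WithLp.toLp 2 z : V) 1 ^ b *
        (WithLp.toLp 2 z : V) 2 ^ c * Real.exp (-(‖(WithLp.toLp 2 z : V)‖ ^ 2 / 2)) =
        ∏ i : Fin 3, (![fun t : ℝ => t ^ a * Real.exp (-(t ^ 2 / 2)),
        fun t : ℝ => t ^ b * Real.exp (-(t ^ 2 / 2)),
        fun t : ℝ => t ^ c * Real.exp (-(t ^ 2 / 2))] : Fin 3 → ℝ → ℝ) i (z i) := key
    rw [integral_congr_ae (Eventually.of_forall h4)]
    rw [integral_fintype_prod_volume_eq_prod, Fin.prod_univ_three]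
    rfl

/-- the monomials times `(y 1 ^ 2 + y 2 ^ 2) ^ 4` -/
private theorem Gs_mon8 (a b c : ℕ) :
    Gs (fun y => (y 1 ^ 2 + y 2 ^ 2) ^ 4 * (y 0 ^ a * y 1 ^ b * y 2 ^ c))
      (gm a * (gm (b + 8) * gm c + 4 * (gm (b + 6) * gm (c + 2)) + 6 * (gm (b + 4) * gm (c + 4)) +
        4 * (gm (b + 2) * gm (c + 6)) + gm b * gm (c + 8))) := by
  have h := ((((Gs_mon a (b + 8) c).add ((Gs_mon a (b + 6) (c + 2)).smul 4)).add
    ((Gs_mon a (b + 4) (c + 4)).smul 6)).add ((Gs_mon a (b + 2) (c + 6)).smul 4)).add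
    (Gs_mon a b (c + 8))
  refine h.congr (fun y => ?_) ?_
  · ring
  · ring

private theorem Gs_1 (b₁ b₂ : ℝ) :
    Gs (fun y => (y 1 ^ 2 + y 2 ^ 2) ^ 4 * (b₁ * y 1 + b₂ * y 2) ^ 2)
      (5 * (384 * gm 0 ^ 3) * (b₁ ^ 2 + b₂ ^ 2)) := by
  obtain ⟨m1, m2, m3, m4, m5, m6, m7, m8, m9, m10, m11, m12⟩ := gm_vals
  have h := (((Gs_mon8 0 2 0).smul (b₁ ^ 2)).add ((Gs_mon8 0 1 1).smul (2 * b₁ * b₂))).add
    ((Gs_mon8 0 0 2).smul (b₂ ^ 2))
  refine h.congr (fun y => ?_) ?_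
  · ring
  · norm_num [m1, m2, m3, m4, m5, m6, m7, m8, m9, m10]
    ring

private theorem Gs_2 (A B C e b₁ b₂ : ℝ) :
    Gs (fun y => (y 1 ^ 2 + y 2 ^ 2) ^ 4 *
      (A * y 1 ^ 2 + 2 * B * (y 1 * y 2) + C * y 2 ^ 2 + e * (y 0 * (b₁ * y 1 + b₂ * y 2))) ^ 2)
      (384 * gm 0 ^ 3 * (45 * (A ^ 2 + C ^ 2) + 30 * A * C + 60 * B ^ 2
        + 5 * e ^ 2 * (b₁ ^ 2 + b₂ ^ 2))) := by
  obtain ⟨m1, m2, m3, m4, m5, m6, m7, m8, m9, m10, m11, m12⟩ := gm_vals
  have h := ((((((((((((((Gs_mon8 0 4 0).smul (A ^ 2)).add ((Gs_mon8 0 3 1).smul (4 * A * B))).add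
    ((Gs_mon8 0 2 2).smul (4 * B ^ 2 + 2 * A * C))).add ((Gs_mon8 0 1 3).smul (4 * B * C))).add
    ((Gs_mon8 0 0 4).smul (C ^ 2))).add ((Gs_mon8 2 2 0).smul (e ^ 2 * b₁ ^ 2))).add
    ((Gs_mon8 2 1 1).smul (2 * e ^ 2 * b₁ * b₂))).add
    ((Gs_mon8 2 0 2).smul (e ^ 2 * b₂ ^ 2))).add
    ((Gs_mon8 1 3 0).smul (2 * A * e * b₁))).add
    ((Gs_mon8 1 2 1).smul (2 * A * e * b₂ + 4 * B * e * b₁))).add
    ((Gs_mon8 1 1 2).smul (4 * B * e * b₂ + 2 * C * e * b₁))).add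
    ((Gs_mon8 1 0 3).smul (2 * C * e * b₂))))
  refine h.congr (fun y => ?_) ?_
  · ring
  · norm_num [m1, m2, m3, m4, m5, m6, m7, m8, m9, m10, m11, m12]
    ring

/-- the frame adapted to `x` -/
private theorem frame (x : V) (hx : x ≠ 0) : ∃ (O : V ≃ₗᵢ[ℝ] V) (U : Fin 3 → Fin 3 → ℝ),
    (∀ y i, O y i = ∑ k : Fin 3, y k * U i k) ∧
    (∀ i j : Fin 3, ∑ k : Fin 3, U i k * U j k = if i = j then 1 else 0) ∧
    (∀ i, ‖x‖ * U i 0 = x i) ∧ (∀ y, ∑ i : Fin 3, x i * O y i = ‖x‖ * y 0) := by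
  classical
  have hr : 0 < ‖x‖ := norm_pos_iff.2 hx
  have hn : ‖(‖x‖⁻¹ • x : V)‖ = 1 := by
    rw [norm_smul, norm_inv, norm_norm, inv_mul_cancel₀ hr.ne']
  have hv : Orthonormal ℝ ((({0} : Set (Fin 3))).domRestrict fun _ : Fin 3 => (‖x‖⁻¹ • x : V)) := by
    constructor
    · intro i
      exact hn
    · intro i j hij
      exact absurd (Subtype.ext (i.2.trans j.2.symm)) hij
  obtain ⟨b, hb⟩ := hv.exists_orthonormalBasis_extension_of_card_eq
    (by rw [finrank_euclideanSpace])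
  have hb0 : b 0 = ‖x‖⁻¹ • x := hb 0 rfl
  have hO : ∀ (y : V) (i : Fin 3), b.repr.symm y i = ∑ k : Fin 3, y k * b k i := by
    intro y i
    rw [← b.sum_repr_symm y]
    simp
  have hin : ∀ k l : Fin 3, ∑ i : Fin 3, b k i * b l i = if k = l then 1 else 0 := by
    intro k l
    have h := (orthonormal_iff_ite.1 b.orthonormal) k l
    rw [PiLp.inner_apply] at h
    rw [← h]
    refine Finset.sum_congr rfl fun i _ => ?_
    simp [mul_comm]
  have hU : (Matrix.of fun i k : Fin 3 => b k i).transpose * (Matrix.of fun i k : Fin 3 => b k i)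
      = 1 := by
    ext k l
    rw [Matrix.mul_apply, Matrix.one_apply]
    exact hin k l
  have hU' := mul_eq_one_comm.1 hU
  refine ⟨b.repr.symm, fun i k => b k i, hO, ?_, ?_, ?_⟩
  · intro i j
    have h := congrFun (congrFun hU' i) j
    rw [Matrix.mul_apply, Matrix.one_apply] at h
    exact h
  · intro i
    show ‖x‖ * b 0 i = x i
    rw [hb0]
    show ‖x‖ * (‖x‖⁻¹ * x i) = x i
    rw [← mul_assoc, mul_inv_cancel₀ hr.ne', one_mul]
  · intro y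
    have h1 : ∀ i : Fin 3, x i = ‖x‖ * b 0 i := by
      intro i
      rw [hb0]
      show x i = ‖x‖ * (‖x‖⁻¹ * x i)
      rw [← mul_assoc, mul_inv_cancel₀ hr.ne', one_mul]
    have h2 : ∑ i : Fin 3, x i * b.repr.symm y i =
        ‖x‖ * ∑ k : Fin 3, y k * ∑ i : Fin 3, b 0 i * b k i := by
      have h3 : ∀ i : Fin 3, x i * b.repr.symm y i =
          ∑ k : Fin 3, ‖x‖ * (y k * (b 0 i * b k i)) := by
        intro i
        rw [hO, Finset.mul_sum]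
        refine Finset.sum_congr rfl fun k _ => ?_
        rw [h1 i]
        ring
      rw [Finset.sum_congr rfl fun i _ => h3 i, Finset.sum_comm, Finset.mul_sum]
      refine Finset.sum_congr rfl fun k _ => ?_
      rw [Finset.mul_sum, Finset.mul_sum]
    rw [h2]
    congr 1
    rw [Finset.sum_eq_single 0]
    · rw [hin, if_pos rfl, mul_one]
    · intro k _ hk
      rw [hin, if_neg hk.symm, mul_zero]
    · simp

private theorem pars {U : Fin 3 → Fin 3 → ℝ}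
    (hU : ∀ i j : Fin 3, ∑ k : Fin 3, U i k * U j k = if i = j then 1 else 0) (c : Fin 3 → ℝ) :
    ∑ k : Fin 3, (∑ i : Fin 3, c i * U i k) ^ 2 = ∑ i : Fin 3, c i ^ 2 := by
  have h00 := hU 0 0
  have h01 := hU 0 1
  have h02 := hU 0 2
  have h11 := hU 1 1
  have h12 := hU 1 2
  have h22 := hU 2 2
  simp only [Fin.sum_univ_three, if_true] at h00 h11 h22 ⊢
  rw [if_neg (by decide), Fin.sum_univ_three] at h01 h02 h12
  linear_combination c 0 ^ 2 * h00 + c 1 ^ 2 * h11 + c 2 ^ 2 * h22 + 2 * c 0 * c 1 * h01 +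
    2 * c 0 * c 2 * h02 + 2 * c 1 * c 2 * h12

private theorem lint_rot {x : V} (O : V ≃ₗᵢ[ℝ] V) {P f : V → ℝ} {a : ℝ}
    (hO : ∀ y, ∑ i : Fin 3, x i * O y i = ‖x‖ * y 0)
    (hf : ∀ y, f (O y) = P y) (hP : ∀ y, 0 ≤ P y)
    (hG : Gs (fun y => (y 1 ^ 2 + y 2 ^ 2) ^ 4 * P y) a) :
    ∫⁻ y : V, ENNReal.ofReal (wp x y * f y) =
      ENNReal.ofReal (‖x‖ ^ 8 * Real.exp (-(‖x‖ ^ 2 / 2)) * a) := by
  have hmp := O.measurePreserving
  rw [← hmp.lintegral_comp_emb O.toHomeomorph.measurableEmbedding]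
  have hw : ∀ y : V, wp x (O y) * f (O y) = ‖x‖ ^ 8 * Real.exp (-(‖x‖ ^ 2 / 2)) *
      ((y 1 ^ 2 + y 2 ^ 2) ^ 4 * P y * Real.exp (-(‖y‖ ^ 2 / 2))) := by
    intro y
    unfold wp cr
    rw [hO, O.norm_map, hf]
    have h1 : ‖y‖ ^ 2 = y 0 ^ 2 + y 1 ^ 2 + y 2 ^ 2 := by
      rw [EuclideanSpace.norm_sq_eq, Fin.sum_univ_three]
      simp
    have h2 : ‖x‖ ^ 2 * ‖y‖ ^ 2 - (‖x‖ * y 0) ^ 2 = ‖x‖ ^ 2 * (y 1 ^ 2 + y 2 ^ 2) := by
      rw [h1]
      ring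
    have h3 : -((‖x‖ ^ 2 + ‖y‖ ^ 2) / 2) = -(‖x‖ ^ 2 / 2) + -(‖y‖ ^ 2 / 2) := by ring
    rw [h2, h3, Real.exp_add]
    ring
  rw [lintegral_congr fun y => by rw [hw y]]
  have hint := hG.1.const_mul (‖x‖ ^ 8 * Real.exp (-(‖x‖ ^ 2 / 2)))
  rw [← ofReal_integral_eq_lintegral_ofReal hint (Eventually.of_forall fun y => by
    show 0 ≤ ‖x‖ ^ 8 * Real.exp (-(‖x‖ ^ 2 / 2)) *
      ((y 1 ^ 2 + y 2 ^ 2) ^ 4 * P y * Real.exp (-(‖y‖ ^ 2 / 2)))
    have := hP y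
    positivity), integral_const_mul, hG.2]

/-- The Gaussian integrals in `y`. -/
theorem gau_y : ∃ Z : ℝ, 0 < Z ∧ ∀ (x : V) (b : Fin 3 → ℝ) (M : Fin 3 → Fin 3 → ℝ), x ≠ 0 →
    (∑ i : Fin 3, b i * x i = 0) → (∀ i j, M i j = M j i) →
    (∀ i, ∑ j : Fin 3, M i j * x j = -b i) →
    (∫⁻ y : V, ENNReal.ofReal (wp x y * (∑ i : Fin 3, b i * y i) ^ 2) =
      ENNReal.ofReal (5 * Z * ‖x‖ ^ 8 * Real.exp (-(‖x‖ ^ 2 / 2)) * ∑ i : Fin 3, b i ^ 2)) ∧
    (∫⁻ y : V, ENNReal.ofReal (wp x y * (∑ i : Fin 3, ∑ j : Fin 3, M i j * y i * y j) ^ 2) ≤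
      ENNReal.ofReal (Z * ‖x‖ ^ 8 * Real.exp (-(‖x‖ ^ 2 / 2)) *
        (60 * (∑ i : Fin 3, ∑ j : Fin 3, M i j ^ 2)
          - 100 * (∑ i : Fin 3, b i ^ 2) / ‖x‖ ^ 2))) := by
  refine ⟨384 * gm 0 ^ 3, by have := gm_zero_pos; positivity, ?_⟩
  intro x b M hx hbx hM hMx
  obtain ⟨O, U, hO, hU, hx0, hOx⟩ := frame x hx
  have hr : 0 < ‖x‖ := norm_pos_iff.2 hx
  obtain ⟨β, hβ⟩ : ∃ β : Fin 3 → ℝ, ∀ k, β k = ∑ i : Fin 3, b i * U i k := ⟨_, fun _ => rfl⟩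
  obtain ⟨N, hN⟩ : ∃ N : Fin 3 → Fin 3 → ℝ, ∀ i l, N i l = ∑ j : Fin 3, M i j * U j l :=
    ⟨_, fun _ _ => rfl⟩
  obtain ⟨μ, hμ⟩ : ∃ μ : Fin 3 → Fin 3 → ℝ, ∀ k l, μ k l = ∑ i : Fin 3, N i l * U i k :=
    ⟨_, fun _ _ => rfl⟩
  have hβ0 : β 0 = 0 := by
    have h1 : ‖x‖ * β 0 = 0 := by
      rw [hβ, Finset.mul_sum, ← hbx]
      refine Finset.sum_congr rfl fun i _ => ?_
      rw [← hx0 i]
      ring
    rcases mul_eq_zero.1 h1 with h | h
    · exact absurd h hr.ne'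
    · exact h
  have hβn : β 1 ^ 2 + β 2 ^ 2 = ∑ i : Fin 3, b i ^ 2 := by
    rw [← pars hU b, Fin.sum_univ_three, ← hβ, ← hβ, ← hβ, hβ0]
    ring
  have hN0 : ∀ i, ‖x‖ * N i 0 = -b i := by
    intro i
    rw [hN, ← hMx i, Finset.mul_sum]
    refine Finset.sum_congr rfl fun j _ => ?_
    rw [← hx0 j]
    ring
  have hμ0 : ∀ k, ‖x‖ * μ k 0 = -β k := by
    intro k
    rw [hμ, hβ, Finset.mul_sum, ← Finset.sum_neg_distrib]
    refine Finset.sum_congr rfl fun i _ => ?_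
    have := hN0 i
    linear_combination (U i k) * this
  have hμs : ∀ k l, μ k l = μ l k := by
    intro k l
    rw [hμ, hμ]
    have h1 : ∀ k l, ∑ i : Fin 3, N i l * U i k =
        ∑ i : Fin 3, ∑ j : Fin 3, M i j * U j l * U i k := by
      intro k l
      refine Finset.sum_congr rfl fun i _ => ?_
      rw [hN, Finset.sum_mul]
    rw [h1, h1, Finset.sum_comm]
    refine Finset.sum_congr rfl fun i _ => Finset.sum_congr rfl fun j _ => ?_
    rw [hM j i]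
    ring
  have hμn : ∑ i : Fin 3, ∑ j : Fin 3, M i j ^ 2 = μ 0 0 ^ 2 + μ 1 1 ^ 2 + μ 2 2 ^ 2 +
      2 * (μ 1 0 ^ 2 + μ 2 0 ^ 2 + μ 1 2 ^ 2) := by
    have h1 : ∀ l, ∑ k : Fin 3, μ k l ^ 2 = ∑ i : Fin 3, N i l ^ 2 := by
      intro l
      rw [← pars hU fun i => N i l]
      refine Finset.sum_congr rfl fun k _ => ?_
      rw [hμ]
    have h2 : ∀ i, ∑ l : Fin 3, N i l ^ 2 = ∑ j : Fin 3, M i j ^ 2 := by
      intro i
      rw [← pars hU fun j => M i j]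
      refine Finset.sum_congr rfl fun l _ => ?_
      rw [hN]
    rw [← Finset.sum_congr rfl fun i _ => h2 i, Finset.sum_comm,
      ← Finset.sum_congr rfl fun l _ => h1 l]
    simp only [Fin.sum_univ_three]
    rw [hμs 0 1, hμs 0 2, hμs 2 1]
    ring
  have hlin : ∀ y : V, ∑ i : Fin 3, b i * O y i = β 1 * y 1 + β 2 * y 2 := by
    intro y
    have h1 : ∑ i : Fin 3, b i * O y i = ∑ k : Fin 3, y k * β k := by
      have h2 : ∀ i : Fin 3, b i * O y i = ∑ k : Fin 3, y k * (b i * U i k) := by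
        intro i
        rw [hO, Finset.mul_sum]
        exact Finset.sum_congr rfl fun k _ => by ring
      rw [Finset.sum_congr rfl fun i _ => h2 i, Finset.sum_comm]
      refine Finset.sum_congr rfl fun k _ => ?_
      rw [hβ, Finset.mul_sum]
    rw [h1, Fin.sum_univ_three, hβ0]
    ring
  have hquad : ∀ y : V, ∑ i : Fin 3, ∑ j : Fin 3, M i j * O y i * O y j =
      μ 1 1 * y 1 ^ 2 + 2 * μ 1 2 * (y 1 * y 2) + μ 2 2 * y 2 ^ 2 +
        (-(2 / ‖x‖)) * (y 0 * (β 1 * y 1 + β 2 * y 2)) := by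
    intro y
    have h1 : ∑ i : Fin 3, ∑ j : Fin 3, M i j * O y i * O y j =
        ∑ k : Fin 3, ∑ l : Fin 3, y k * y l * μ k l := by
      have h2 : ∀ i : Fin 3, ∑ j : Fin 3, M i j * O y i * O y j =
          ∑ l : Fin 3, y l * (O y i * N i l) := by
        intro i
        have h3 : ∀ j : Fin 3, M i j * O y i * O y j =
            ∑ l : Fin 3, y l * (O y i * (M i j * U j l)) := by
          intro j
          rw [hO y j, Finset.mul_sum]
          exact Finset.sum_congr rfl fun l _ => by ring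
        rw [Finset.sum_congr rfl fun j _ => h3 j, Finset.sum_comm]
        refine Finset.sum_congr rfl fun l _ => ?_
        rw [hN, Finset.mul_sum, Finset.mul_sum]
      rw [Finset.sum_congr rfl fun i _ => h2 i, Finset.sum_comm]
      have h4 : ∀ l : Fin 3, ∑ i : Fin 3, y l * (O y i * N i l) =
          ∑ k : Fin 3, y k * y l * μ k l := by
        intro l
        have h5 : ∀ i : Fin 3, y l * (O y i * N i l) =
            ∑ k : Fin 3, y k * y l * (N i l * U i k) := by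
          intro i
          rw [hO y i, Finset.sum_mul, Finset.mul_sum]
          exact Finset.sum_congr rfl fun k _ => by ring
        rw [Finset.sum_congr rfl fun i _ => h5 i, Finset.sum_comm]
        refine Finset.sum_congr rfl fun k _ => ?_
        rw [hμ, Finset.mul_sum]
      rw [Finset.sum_congr rfl fun l _ => h4 l, Finset.sum_comm]
    have e1 : μ 0 0 = 0 := by
      have := hμ0 0
      rw [hβ0, neg_zero] at this
      exact (mul_eq_zero.1 this).resolve_left hr.ne'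
    have e2 : μ 1 0 = -(β 1 / ‖x‖) := by
      have := hμ0 1
      field_simp
      linarith
    have e3 : μ 2 0 = -(β 2 / ‖x‖) := by
      have := hμ0 2
      field_simp
      linarith
    rw [h1]
    simp only [Fin.sum_univ_three]
    rw [hμs 0 1, hμs 0 2, hμs 2 1, e1, e2, e3]
    ring
  constructor
  · rw [lint_rot (x := x) O (f := fun y => (∑ i : Fin 3, b i * y i) ^ 2)
      (P := fun y => (β 1 * y 1 + β 2 * y 2) ^ 2) hOx (fun y => by
        show (∑ i : Fin 3, b i * O y i) ^ 2 = _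
        rw [hlin]) (fun y => sq_nonneg _) (Gs_1 (β 1) (β 2)), hβn]
    congr 1
    ring
  · rw [lint_rot (x := x) O (f := fun y => (∑ i : Fin 3, ∑ j : Fin 3, M i j * y i * y j) ^ 2)
      (P := fun y => (μ 1 1 * y 1 ^ 2 + 2 * μ 1 2 * (y 1 * y 2) + μ 2 2 * y 2 ^ 2 +
        (-(2 / ‖x‖)) * (y 0 * (β 1 * y 1 + β 2 * y 2))) ^ 2) hOx (fun y => by
        show (∑ i : Fin 3, ∑ j : Fin 3, M i j * O y i * O y j) ^ 2 = _
        rw [hquad]) (fun y => sq_nonneg _) (Gs_2 (μ 1 1) (μ 1 2) (μ 2 2) (-(2 / ‖x‖)) (β 1) (β 2))]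
    apply ENNReal.ofReal_le_ofReal
    have e1 : μ 0 0 = 0 := by
      have := hμ0 0
      rw [hβ0, neg_zero] at this
      exact (mul_eq_zero.1 this).resolve_left hr.ne'
    have e2 : μ 1 0 = -(β 1 / ‖x‖) := by
      have := hμ0 1
      field_simp
      linarith
    have e3 : μ 2 0 = -(β 2 / ‖x‖) := by
      have := hμ0 2
      field_simp
      linarith
    rw [hμn, ← hβn, e1, e2, e3]
    have hg := gm_zero_pos
    have key : 45 * (μ 1 1 ^ 2 + μ 2 2 ^ 2) + 30 * μ 1 1 * μ 2 2 + 60 * μ 1 2 ^ 2 +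
        5 * (-(2 / ‖x‖)) ^ 2 * (β 1 ^ 2 + β 2 ^ 2) ≤
        60 * (0 ^ 2 + μ 1 1 ^ 2 + μ 2 2 ^ 2 +
          2 * ((-(β 1 / ‖x‖)) ^ 2 + (-(β 2 / ‖x‖)) ^ 2 + μ 1 2 ^ 2)) -
          100 * (β 1 ^ 2 + β 2 ^ 2) / ‖x‖ ^ 2 := by
      have h1 : 5 * (-(2 / ‖x‖)) ^ 2 * (β 1 ^ 2 + β 2 ^ 2) =
          20 * ((β 1 ^ 2 + β 2 ^ 2) / ‖x‖ ^ 2) := by
        field_simp
        ring
      have h2 : (-(β 1 / ‖x‖)) ^ 2 + (-(β 2 / ‖x‖)) ^ 2 = (β 1 ^ 2 + β 2 ^ 2) / ‖x‖ ^ 2 := by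
        field_simp
      have h3 : 100 * (β 1 ^ 2 + β 2 ^ 2) / ‖x‖ ^ 2 =
          100 * ((β 1 ^ 2 + β 2 ^ 2) / ‖x‖ ^ 2) := by ring
      rw [h1, h2, h3]
      nlinarith [sq_nonneg (μ 1 1 - μ 2 2), sq_nonneg (μ 1 2)]
    calc ‖x‖ ^ 8 * Real.exp (-(‖x‖ ^ 2 / 2)) * (384 * gm 0 ^ 3 *
          (45 * (μ 1 1 ^ 2 + μ 2 2 ^ 2) + 30 * μ 1 1 * μ 2 2 + 60 * μ 1 2 ^ 2 +
            5 * (-(2 / ‖x‖)) ^ 2 * (β 1 ^ 2 + β 2 ^ 2))) =
        384 * gm 0 ^ 3 * ‖x‖ ^ 8 * Real.exp (-(‖x‖ ^ 2 / 2)) *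
          (45 * (μ 1 1 ^ 2 + μ 2 2 ^ 2) + 30 * μ 1 1 * μ 2 2 + 60 * μ 1 2 ^ 2 +
            5 * (-(2 / ‖x‖)) ^ 2 * (β 1 ^ 2 + β 2 ^ 2)) := by ring
      _ ≤ _ := mul_le_mul_of_nonneg_left key (by positivity)

end Pool.Agent.LandauF
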