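import Pool.Agent.LandauF.FDefs

/-!
# LandauF, module SPolar: polar coordinates in `V`

From Mathlib: `MeasureTheory.Measure.measurePreserving_homeomorphUnitSphereProd` (the map
`V ∖ {0} → S² × (0, ∞)` sends the Lebesgue measure to `toSphere × r² dr`), `Measure.volumeIoiPow`.
-/

set_option autoImplicit false

namespace Pool.Agent.LandauF

open MeasureTheory Set Filter Topology Pool.Agent.Landau

/-- Polar coordinates. -/
theorem lintegral_polar (f : V → ENNReal) (hf : Measurable f) :
    ∫⁻ z : V, f z = ∫⁻ r in Ioi (0 : ℝ), ENNReal.ofReal (r ^ 2) *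
      ∫⁻ ω : Metric.sphere (0 : V) 1, f (r • (ω : V)) ∂((volume : Measure V).toSphere) := by
  have hdim : Module.finrank ℝ V = 3 := by simp
  have hmp := (volume : Measure V).measurePreserving_homeomorphUnitSphereProd
  have hm2 : Measurable (fun p : Metric.sphere (0 : V) 1 × Ioi (0 : ℝ) =>
      f ((p.2 : ℝ) • (p.1 : V))) := by
    apply hf.comp
    exact ((measurable_subtype_coe.comp measurable_snd).smul
      (measurable_subtype_coe.comp measurable_fst))
  have hm3 : Measurable (fun p : ℝ × Metric.sphere (0 : V) 1 => f (p.1 • (p.2 : V))) := by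
    apply hf.comp
    exact measurable_fst.smul (measurable_subtype_coe.comp measurable_snd)
  have hin : Measurable (fun r : ℝ =>
      ∫⁻ ω : Metric.sphere (0 : V) 1, f (r • (ω : V)) ∂((volume : Measure V).toSphere)) :=
    hm3.lintegral_prod_right'
  calc ∫⁻ z : V, f z = ∫⁻ z in ({0}ᶜ : Set V), f z := by rw [restrict_compl_singleton]
    _ = ∫⁻ z : ({0}ᶜ : Set V), f (z : V) ∂((volume : Measure V).comap (↑)) := by
        rw [lintegral_subtype_comap (measurableSet_singleton _).compl]
    _ = ∫⁻ z : ({0}ᶜ : Set V), (fun p : Metric.sphere (0 : V) 1 × Ioi (0 : ℝ) =>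
          f ((p.2 : ℝ) • (p.1 : V))) (homeomorphUnitSphereProd V z)
          ∂((volume : Measure V).comap (↑)) := by
        refine lintegral_congr fun z => ?_
        have h := homeomorphUnitSphereProd_symm_apply_coe V (homeomorphUnitSphereProd V z)
        rw [Homeomorph.symm_apply_apply] at h
        rw [h]
    _ = ∫⁻ p : Metric.sphere (0 : V) 1 × Ioi (0 : ℝ), f ((p.2 : ℝ) • (p.1 : V))
          ∂((volume : Measure V).toSphere.prod
            (Measure.volumeIoiPow (Module.finrank ℝ V - 1))) := hmp.lintegral_comp hm2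
    _ = ∫⁻ r : Ioi (0 : ℝ), ∫⁻ ω : Metric.sphere (0 : V) 1, f ((r : ℝ) • (ω : V))
          ∂((volume : Measure V).toSphere) ∂(Measure.volumeIoiPow (Module.finrank ℝ V - 1)) := by
        rw [lintegral_prod_symm _ hm2.aemeasurable]
    _ = ∫⁻ r : Ioi (0 : ℝ), ENNReal.ofReal ((r : ℝ) ^ 2) *
          ∫⁻ ω : Metric.sphere (0 : V) 1, f ((r : ℝ) • (ω : V))
          ∂((volume : Measure V).toSphere) ∂((volume : Measure ℝ).comap (↑)) := by
        rw [hdim, Measure.volumeIoiPow, lintegral_withDensity_eq_lintegral_mul]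
        · rfl
        · exact ENNReal.measurable_ofReal.comp (measurable_subtype_coe.pow_const _)
        · exact hin.comp measurable_subtype_coe
    _ = _ := by
        rw [lintegral_subtype_comap measurableSet_Ioi (fun r : ℝ => ENNReal.ofReal (r ^ 2) *
          ∫⁻ ω : Metric.sphere (0 : V) 1, f (r • (ω : V)) ∂((volume : Measure V).toSphere))]

end Pool.Agent.LandauF
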