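import Pool.Agent.LandauF.SEll
import Pool.Agent.LandauF.SGau
import Pool.Agent.LandauF.SPolar

/-!
# LandauF, module SSph: the inequality on the sphere

For `Hom0 U`: `4 ∫_{S²} e^U |DU|² ≤ ∫_{S²} e^U |D²U|²`.

Proof.  Euler: `∑ x_i ∂_i U = 0`, `∑ x_j ∂_i ∂_j U = - ∂_i U` for `x ≠ 0`; `∂_i ∂_j U` symmetric.
Insert `gau_y` (with `b = DU(x)`, `M = D²U(x)`) in `ell_ineq`:
`4 ∫ 5 Z |x|⁸ e^{-|x|²/2} e^U n1 ≤ ∫ Z |x|⁸ e^{-|x|²/2} e^U (60 n2 - 100 n1/|x|²)`.
By homogeneity `n1 U (r ω) = r⁻² n1 U ω`, `n2 U (r ω) = r⁻⁴ n2 U ω`; polar coordinates (`lintegral_polar`):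
with `A = ∫_{S²} e^U n2`, `B = ∫_{S²} e^U n1` (finite, the sphere is compact) and
`I_k = ∫_0^∞ r^k e^{-r²/2} dr`, `I_8 = 7 I_6`: `20 I_8 B ≤ I_6 (60 A - 100 B)`, so `240 B ≤ 60 A`.
-/

set_option autoImplicit false

namespace Pool.Agent.LandauF

open MeasureTheory Set Filter Topology Pool.Agent.Landau

namespace SSph

theorem cda {U : V → ℝ} (hU : Hom0 U) {x : V} (hx : x ≠ 0) : ContDiffAt ℝ (⊤ : ℕ∞) U x :=
  hU.smooth.contDiffAt (isOpen_compl_singleton.mem_nhds hx)

theorem cda_fderiv {U : V → ℝ} (hU : Hom0 U) {x : V} (hx : x ≠ 0) :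
    ContDiffAt ℝ (⊤ : ℕ∞) (fderiv ℝ U) x :=
  (cda hU hx).fderiv_right (m := (⊤ : ℕ∞)) (by norm_num)

theorem cda_pd {U : V → ℝ} (hU : Hom0 U) (i : Fin 3) {x : V} (hx : x ≠ 0) :
    ContDiffAt ℝ (⊤ : ℕ∞) (pd i U) x := by
  have h := cda_fderiv hU hx
  exact h.clm_apply contDiffAt_const

theorem cda_pd2 {U : V → ℝ} (hU : Hom0 U) (i j : Fin 3) {x : V} (hx : x ≠ 0) :
    ContinuousAt (pd i (pd j U)) x := by
  have h : ContDiffAt ℝ 0 (fderiv ℝ (pd j U)) x :=
    (cda_pd hU j hx).fderiv_right (m := 0) (by norm_num)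
  exact (h.clm_apply contDiffAt_const).continuousAt

/-- derivative of a homogeneous function -/
theorem pd_hom {G : V → ℝ} {t c : ℝ} (ht : t ≠ 0) (hG : ∀ y : V, y ≠ 0 → G (t • y) = c * G y)
    (hd : ∀ y : V, y ≠ 0 → DifferentiableAt ℝ G y) (i : Fin 3) {x : V} (hx : x ≠ 0) :
    pd i G (t • x) = t⁻¹ * c * pd i G x := by
  have htx : t • x ≠ 0 := smul_ne_zero ht hx
  have h1 : HasFDerivAt (fun y : V => G (t • y))
      ((fderiv ℝ G (t • x)).comp (t • ContinuousLinearMap.id ℝ V)) x := by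
    have h2 : HasFDerivAt (fun y : V => t • y) (t • ContinuousLinearMap.id ℝ V) x :=
      (hasFDerivAt_id x).const_smul t
    exact (hd _ htx).hasFDerivAt.comp x h2
  have h3 : (fun y : V => G (t • y)) =ᶠ[𝓝 x] fun y => c * G y := by
    filter_upwards [isOpen_compl_singleton.mem_nhds hx] with y hy
    exact hG y hy
  have h4 : HasFDerivAt (fun y : V => c * G y) (c • fderiv ℝ G x) x :=
    (hd x hx).hasFDerivAt.const_mul c
  have h5 := (h1.congr_of_eventuallyEq h3.symm).unique h4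
  have h6 := congrArg (fun L : V →L[ℝ] ℝ => L (EuclideanSpace.single i 1)) h5
  simp only [ContinuousLinearMap.comp_apply, smul_apply,
    ContinuousLinearMap.id_apply, map_smul, smul_eq_mul] at h6
  unfold pd
  rw [mul_assoc, ← h6, ← mul_assoc, inv_mul_cancel₀ ht, one_mul]

/-- expansion of the derivative in coordinates -/
theorem fderiv_eq_sum (G : V → ℝ) (x y : V) : fderiv ℝ G x y = ∑ i : Fin 3, pd i G x * y i := by
  have h : y = ∑ i : Fin 3, y i • (EuclideanSpace.single i (1 : ℝ) : V) := by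
    ext k
    simp [Fin.sum_univ_three]
    fin_cases k <;> simp
  conv_lhs => rw [h]
  rw [map_sum]
  refine Finset.sum_congr rfl fun i _ => ?_
  rw [map_smul, smul_eq_mul, mul_comm]
  rfl

/-- Euler's identity -/
theorem euler {G : V → ℝ} {x : V} (hd : DifferentiableAt ℝ G x) {ψ : ℝ → ℝ} {c : ℝ}
    (hG : ∀ t : ℝ, 0 < t → G (t • x) = ψ t * G x) (hψ : HasDerivAt ψ c 1) :
    ∑ i : Fin 3, pd i G x * x i = c * G x := by
  rw [← fderiv_eq_sum]
  have h1 : HasDerivAt (fun t : ℝ => G (t • x)) (fderiv ℝ G x x) 1 := by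
    have h2 : HasDerivAt (fun t : ℝ => t • x) x 1 := by
      simpa using (hasDerivAt_id (1 : ℝ)).smul_const x
    have h3 : HasFDerivAt G (fderiv ℝ G x) ((1 : ℝ) • x) := by
      rw [one_smul]; exact hd.hasFDerivAt
    exact h3.comp_hasDerivAt (1 : ℝ) h2
  have h4 : HasDerivAt (fun t : ℝ => ψ t * G x) (c * G x) 1 := hψ.mul_const _
  have h5 : (fun t : ℝ => G (t • x)) =ᶠ[𝓝 1] fun t => ψ t * G x := by
    filter_upwards [isOpen_Ioi.mem_nhds (show (1 : ℝ) ∈ Ioi 0 by simp)] with t ht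
    exact hG t ht
  exact (h1.congr_of_eventuallyEq h5.symm).unique h4

theorem pd_scale {U : V → ℝ} (hU : Hom0 U) (i : Fin 3) {x : V} (hx : x ≠ 0) {t : ℝ} (ht : 0 < t) :
    pd i U (t • x) = t⁻¹ * pd i U x := by
  have h := pd_hom (G := U) (t := t) (c := 1) ht.ne' (fun y _ => by rw [hU.hom t y ht, one_mul])
    (fun y hy => (cda hU hy).differentiableAt (by simp)) i hx
  rw [h, mul_one]

theorem pd2_scale {U : V → ℝ} (hU : Hom0 U) (i j : Fin 3) {x : V} (hx : x ≠ 0) {t : ℝ}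
    (ht : 0 < t) : pd i (pd j U) (t • x) = t⁻¹ * t⁻¹ * pd i (pd j U) x :=
  pd_hom (G := pd j U) (t := t) (c := t⁻¹) ht.ne' (fun y hy => pd_scale hU j hy ht)
    (fun y hy => (cda_pd hU j hy).differentiableAt (by simp)) i hx

theorem euler1 {U : V → ℝ} (hU : Hom0 U) {x : V} (hx : x ≠ 0) :
    ∑ i : Fin 3, pd i U x * x i = 0 := by
  have h := euler (G := U) (x := x) ((cda hU hx).differentiableAt (by simp)) (ψ := fun _ => 1)
    (c := 0) (fun t ht => by rw [hU.hom t x ht, one_mul]) (hasDerivAt_const _ _)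
  rw [h, zero_mul]

theorem symm2 {U : V → ℝ} (hU : Hom0 U) (i j : Fin 3) {x : V} (hx : x ≠ 0) :
    pd i (pd j U) x = pd j (pd i U) x := by
  have hs : IsSymmSndFDerivAt ℝ U x :=
    (cda hU hx).isSymmSndFDerivAt (by
      rw [minSmoothness_of_isRCLikeNormedField]
      exact WithTop.coe_le_coe.2 (le_top : (2 : ℕ∞) ≤ ⊤))
  have hd : DifferentiableAt ℝ (fderiv ℝ U) x := (cda_fderiv hU hx).differentiableAt (by simp)
  have key : ∀ a b : Fin 3, pd a (pd b U) x
      = fderiv ℝ (fderiv ℝ U) x (EuclideanSpace.single a 1) (EuclideanSpace.single b 1) := by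
    intro a b
    have h1 : HasFDerivAt (fun y : V => fderiv ℝ U y (EuclideanSpace.single b 1))
        ((fderiv ℝ (fderiv ℝ U) x).flip (EuclideanSpace.single b 1)) x := by
      have := hd.hasFDerivAt.clm_apply (hasFDerivAt_const (EuclideanSpace.single b (1 : ℝ)) x)
      simpa using this
    have h2 : pd a (pd b U) x = fderiv ℝ (fun y : V => fderiv ℝ U y (EuclideanSpace.single b 1)) x
      (EuclideanSpace.single a 1) := rfl
    rw [h2, h1.fderiv]
    rfl
  rw [key, key]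
  exact hs.eq _ _

theorem euler2 {U : V → ℝ} (hU : Hom0 U) {x : V} (hx : x ≠ 0) (i : Fin 3) :
    ∑ j : Fin 3, pd i (pd j U) x * x j = - pd i U x := by
  have h := euler (G := pd i U) (x := x) ((cda_pd hU i hx).differentiableAt (by simp))
    (ψ := fun t => t⁻¹) (c := -1) (fun t ht => pd_scale hU i hx ht)
    (by simpa using hasDerivAt_inv (one_ne_zero : (1 : ℝ) ≠ 0))
  rw [neg_one_mul] at h
  rw [← h]
  exact Finset.sum_congr rfl fun j _ => by rw [symm2 hU i j hx]

theorem n1_scale {U : V → ℝ} (hU : Hom0 U) {x : V} (hx : x ≠ 0) {t : ℝ} (ht : 0 < t) :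
    n1 U (t • x) = (t⁻¹) ^ 2 * n1 U x := by
  unfold n1
  rw [Finset.mul_sum]
  refine Finset.sum_congr rfl fun i _ => ?_
  rw [pd_scale hU i hx ht]; ring

theorem n2_scale {U : V → ℝ} (hU : Hom0 U) {x : V} (hx : x ≠ 0) {t : ℝ} (ht : 0 < t) :
    n2 U (t • x) = (t⁻¹) ^ 4 * n2 U x := by
  unfold n2
  rw [Finset.mul_sum]
  refine Finset.sum_congr rfl fun i _ => ?_
  rw [Finset.mul_sum]
  refine Finset.sum_congr rfl fun j _ => ?_
  rw [pd2_scale hU i j hx ht]; ring

/-- on the sphere the Hessian dominates: `n2 ≥ 2 n1` -/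
theorem n2_ge {U : V → ℝ} (hU : Hom0 U) {x : V} (hx : ‖x‖ = 1) : 2 * n1 U x ≤ n2 U x := by
  have hx0 : x ≠ 0 := by rintro rfl; simp at hx
  have hn : ∑ i : Fin 3, x i ^ 2 = 1 := by
    have := EuclideanSpace.norm_sq_eq x
    rw [hx] at this
    simpa using this.symm
  have h0 : 0 ≤ ∑ i : Fin 3, ∑ j : Fin 3,
      (pd i (pd j U) x + pd i U x * x j + x i * pd j U x) ^ 2 :=
    Finset.sum_nonneg fun i _ => Finset.sum_nonneg fun j _ => sq_nonneg _
  have e1 := euler1 hU hx0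
  have e2 := fun i => euler2 hU hx0 i
  have s2 : ∀ i j, pd i (pd j U) x = pd j (pd i U) x := fun i j => symm2 hU i j hx0
  have expand : ∑ i : Fin 3, ∑ j : Fin 3,
      (pd i (pd j U) x + pd i U x * x j + x i * pd j U x) ^ 2
      = n2 U x + 2 * (∑ i : Fin 3, pd i U x * ∑ j : Fin 3, pd i (pd j U) x * x j)
        + 2 * (∑ j : Fin 3, pd j U x * ∑ i : Fin 3, pd i (pd j U) x * x i)
        + 2 * (∑ i : Fin 3, pd i U x ^ 2) * (∑ i : Fin 3, x i ^ 2)
        + 2 * (∑ i : Fin 3, pd i U x * x i) ^ 2 := by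
    unfold n2
    simp only [Fin.sum_univ_three]
    ring
  have e3 : ∀ j, ∑ i : Fin 3, pd i (pd j U) x * x i = - pd j U x := by
    intro j
    rw [← e2 j]
    exact Finset.sum_congr rfl fun i _ => by rw [s2 i j]
  rw [expand, e1, hn] at h0
  simp only [e2, e3] at h0
  have e4 : ∑ i : Fin 3, pd i U x * - pd i U x = - n1 U x := by
    unfold n1
    rw [← Finset.sum_neg_distrib]
    exact Finset.sum_congr rfl fun i _ => by ring
  have e5 : ∑ i : Fin 3, pd i U x ^ 2 = n1 U x := rfl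
  rw [e4, e5] at h0
  nlinarith

theorem gI (k : ℕ) :
    IntegrableOn (fun r : ℝ => r ^ k * Real.exp (-(r ^ 2 / 2))) (Ioi 0) := by
  have hk : (0 : ℝ) ≤ k := Nat.cast_nonneg k
  have h := integrableOn_rpow_mul_exp_neg_mul_sq (b := 1 / 2) (by norm_num) (s := (k : ℝ))
    (by linarith)
  refine h.congr_fun (fun r hr => ?_) measurableSet_Ioi
  simp only [Real.rpow_natCast]
  congr 2
  ring

theorem gE (k : ℕ) : ∫ r in Ioi (0 : ℝ), r ^ k * Real.exp (-(r ^ 2 / 2))
    = (1 / 2 : ℝ) ^ (-((k : ℝ) + 1) / 2) * (1 / 2) * Real.Gamma (((k : ℝ) + 1) / 2) := by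
  have hk : (0 : ℝ) ≤ k := Nat.cast_nonneg k
  have h := integral_rpow_mul_exp_neg_mul_rpow (p := 2) (q := (k : ℝ)) (b := 1 / 2)
    (by norm_num) (by linarith) (by norm_num)
  rw [← h]
  refine setIntegral_congr_fun measurableSet_Ioi (fun r hr => ?_)
  have e : (r : ℝ) ^ (2 : ℝ) = r ^ 2 := by exact_mod_cast Real.rpow_natCast r 2
  simp only [Real.rpow_natCast, e]
  congr 2
  ring

theorem gR : ∫ r in Ioi (0 : ℝ), r ^ 8 * Real.exp (-(r ^ 2 / 2))
    = 7 * ∫ r in Ioi (0 : ℝ), r ^ 6 * Real.exp (-(r ^ 2 / 2)) := by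
  rw [gE, gE]
  have e1 : (((8 : ℕ) : ℝ) + 1) / 2 = (((6 : ℕ) : ℝ) + 1) / 2 + 1 := by norm_num
  rw [e1, Real.Gamma_add_one (by norm_num)]
  have e2 : (1 / 2 : ℝ) ^ (-(((8 : ℕ) : ℝ) + 1) / 2)
      = (1 / 2 : ℝ) ^ (-(((6 : ℕ) : ℝ) + 1) / 2) * 2 := by
    have : (-(((8 : ℕ) : ℝ) + 1) / 2) = (-(((6 : ℕ) : ℝ) + 1) / 2) + (-1) := by norm_num
    rw [this, Real.rpow_add (by norm_num), Real.rpow_neg_one]
    norm_num
  rw [e2]
  norm_num
  ring

theorem gPos : 0 < ∫ r in Ioi (0 : ℝ), r ^ 6 * Real.exp (-(r ^ 2 / 2)) := by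
  rw [gE]
  have : 0 < Real.Gamma ((((6 : ℕ) : ℝ) + 1) / 2) := Real.Gamma_pos_of_pos (by norm_num)
  positivity

theorem gL (k : ℕ) : ∫⁻ r in Ioi (0 : ℝ), ENNReal.ofReal (r ^ k * Real.exp (-(r ^ 2 / 2)))
    = ENNReal.ofReal (∫ r in Ioi (0 : ℝ), r ^ k * Real.exp (-(r ^ 2 / 2))) := by
  refine (ofReal_integral_eq_lintegral_ofReal (gI k) ?_).symm
  filter_upwards [ae_restrict_mem measurableSet_Ioi] with r hr
  have : (0 : ℝ) < r := hr
  positivity

/-- the polar formula for a separated function -/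
theorem polar_sep (F : V → ℝ) (φ : V → ℝ) (k : ℕ) (c : ℝ) (hc : 0 ≤ c)
    (hF : ContinuousOn F {0}ᶜ)
    (hsc : ∀ (r : ℝ) (ω : V), 0 < r → ‖ω‖ = 1 →
      r ^ 2 * F (r • ω) = c * (r ^ k * Real.exp (-(r ^ 2 / 2))) * φ ω) :
    ∫⁻ x : V, ENNReal.ofReal (F x)
      = ENNReal.ofReal (c * ∫ r in Ioi (0 : ℝ), r ^ k * Real.exp (-(r ^ 2 / 2)))
        * ∫⁻ ω : Metric.sphere (0 : V) 1, ENNReal.ofReal (φ ω) ∂((volume : Measure V).toSphere) := by
  classical
  set G : V → ENNReal := ({0}ᶜ : Set V).indicator fun x => ENNReal.ofReal (F x) with hG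
  have hGm : Measurable G := by
    have h1 : Measurable (({0}ᶜ : Set V).indicator F) := by
      rw [← Set.piecewise_eq_indicator]
      exact hF.measurable_piecewise continuousOn_const (measurableSet_singleton _).compl
    have h2 : G = fun x => ENNReal.ofReal (({0}ᶜ : Set V).indicator F x) := by
      funext x
      simp only [hG, indicator]
      split_ifs
      · rfl
      · simp
    rw [h2]
    exact h1.ennreal_ofReal
  have h0 : ∫⁻ x : V, ENNReal.ofReal (F x) = ∫⁻ x : V, G x := by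
    refine lintegral_congr_ae ?_
    have : ∀ᵐ x : V, x ≠ 0 := by
      rw [ae_iff]; simp
    filter_upwards [this] with x hx
    simp [hG, hx]
  rw [h0, lintegral_polar G hGm]
  have h1 : ∀ r ∈ Ioi (0 : ℝ), ENNReal.ofReal (r ^ 2) *
      ∫⁻ ω : Metric.sphere (0 : V) 1, G (r • (ω : V)) ∂((volume : Measure V).toSphere)
      = ENNReal.ofReal (c * (r ^ k * Real.exp (-(r ^ 2 / 2)))) *
      ∫⁻ ω : Metric.sphere (0 : V) 1, ENNReal.ofReal (φ ω) ∂((volume : Measure V).toSphere) := by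
    intro r hr
    have hr' : (0 : ℝ) < r := hr
    rw [← lintegral_const_mul' _ _ ENNReal.ofReal_ne_top,
      ← lintegral_const_mul' _ _ ENNReal.ofReal_ne_top]
    refine lintegral_congr fun ω => ?_
    have hω : ‖(ω : V)‖ = 1 := by simp
    have hω0 : (ω : V) ≠ 0 := by intro h; rw [h] at hω; simp at hω
    have hne : r • (ω : V) ≠ 0 := smul_ne_zero hr'.ne' hω0
    have hGv : G (r • (ω : V)) = ENNReal.ofReal (F (r • (ω : V))) := by simp [hG, hne]
    rw [hGv, ← ENNReal.ofReal_mul (by positivity), ← ENNReal.ofReal_mul (by positivity),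
      hsc r ω hr' hω]
  rw [setLIntegral_congr_fun measurableSet_Ioi h1,
    lintegral_mul_const _ (by fun_prop)]
  congr 1
  have h2 : ∀ r : ℝ, ENNReal.ofReal (c * (r ^ k * Real.exp (-(r ^ 2 / 2))))
      = ENNReal.ofReal c * ENNReal.ofReal (r ^ k * Real.exp (-(r ^ 2 / 2))) := fun r =>
    ENNReal.ofReal_mul hc
  simp only [h2]
  rw [lintegral_const_mul' _ _ ENNReal.ofReal_ne_top, gL, ENNReal.ofReal_mul hc]

end SSph

/-- The sphere inequality. -/
theorem sph_ineq (U : V → ℝ) (hU : Hom0 U) :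
    4 * (∫⁻ ω : Metric.sphere (0 : V) 1, ENNReal.ofReal (Real.exp (U ω) * n1 U ω)
        ∂((volume : Measure V).toSphere)) ≤
      ∫⁻ ω : Metric.sphere (0 : V) 1, ENNReal.ofReal (Real.exp (U ω) * n2 U ω)
        ∂((volume : Measure V).toSphere) := by
  obtain ⟨Z, hZ, hg⟩ := gau_y
  set B := ∫⁻ ω : Metric.sphere (0 : V) 1, ENNReal.ofReal (Real.exp (U ω) * n1 U ω)
    ∂((volume : Measure V).toSphere) with hB
  set A := ∫⁻ ω : Metric.sphere (0 : V) 1, ENNReal.ofReal (Real.exp (U ω) * n2 U ω)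
    ∂((volume : Measure V).toSphere) with hA
  set C := ∫⁻ ω : Metric.sphere (0 : V) 1,
    ENNReal.ofReal (Real.exp (U ω) * (60 * n2 U ω - 100 * n1 U ω))
    ∂((volume : Measure V).toSphere) with hC
  set I6 := ∫ r in Ioi (0 : ℝ), r ^ 6 * Real.exp (-(r ^ 2 / 2)) with hI6
  have hn1 : ∀ x, 0 ≤ n1 U x := fun x => Finset.sum_nonneg fun i _ => sq_nonneg _
  -- continuity
  have cU : ContinuousOn U {0}ᶜ := hU.smooth.continuousOn
  have cN1 : ContinuousOn (n1 U) {0}ᶜ := by
    intro x hx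
    have : ContinuousAt (n1 U) x := by
      unfold n1
      exact tendsto_finsetSum _ fun i _ =>
        ((SSph.cda_pd hU i (by simpa using hx)).continuousAt).pow 2
    exact this.continuousWithinAt
  have cN2 : ContinuousOn (n2 U) {0}ᶜ := by
    intro x hx
    have : ContinuousAt (n2 U) x := by
      unfold n2
      exact tendsto_finsetSum _ fun i _ => tendsto_finsetSum _ fun j _ =>
        ((SSph.cda_pd2 hU i j (by simpa using hx))).pow 2
    exact this.continuousWithinAt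
  have h0 : ∀ᵐ x : V, x ≠ 0 := by
    rw [ae_iff]; simp
  -- the two sides
  have hL : ∫⁻ x, ∫⁻ y, ENNReal.ofReal (wp x y * Real.exp (U x) * d1 U x y ^ 2)
      = ENNReal.ofReal (5 * Z * (7 * I6)) * B := by
    have e1 : ∫⁻ x, ∫⁻ y, ENNReal.ofReal (wp x y * Real.exp (U x) * d1 U x y ^ 2)
        = ∫⁻ x, ENNReal.ofReal (Real.exp (U x)
          * (5 * Z * ‖x‖ ^ 8 * Real.exp (-(‖x‖ ^ 2 / 2)) * n1 U x)) := by
      refine lintegral_congr_ae ?_
      filter_upwards [h0] with x hx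
      have h := (hg x (fun i => pd i U x) (fun i j => pd i (pd j U) x) hx (SSph.euler1 hU hx)
        (fun i j => SSph.symm2 hU i j hx) (fun i => SSph.euler2 hU hx i)).1
      have h' : ∀ y, ENNReal.ofReal (wp x y * Real.exp (U x) * d1 U x y ^ 2)
          = ENNReal.ofReal (Real.exp (U x))
            * ENNReal.ofReal (wp x y * (∑ i : Fin 3, pd i U x * y i) ^ 2) := by
        intro y
        rw [← ENNReal.ofReal_mul (Real.exp_pos _).le]
        congr 1
        unfold d1
        ring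
      simp only [h']
      rw [lintegral_const_mul' _ _ ENNReal.ofReal_ne_top, h,
        ← ENNReal.ofReal_mul (Real.exp_pos _).le]
      rfl
    rw [e1]
    have e2 := SSph.polar_sep (fun x => Real.exp (U x)
          * (5 * Z * ‖x‖ ^ 8 * Real.exp (-(‖x‖ ^ 2 / 2)) * n1 U x))
      (fun ω => Real.exp (U ω) * n1 U ω) 8 (5 * Z) (by positivity)
      (by fun_prop) ?_
    · rw [e2, SSph.gR]
    · intro r ω hr hω
      have hω0 : ω ≠ 0 := by rintro rfl; simp at hω
      have hnr : ‖r • ω‖ = r := by rw [norm_smul, hω, Real.norm_of_nonneg hr.le, mul_one]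
      simp only [hnr]
      rw [hU.hom r ω hr, SSph.n1_scale hU hω0 hr]
      field_simp
  have hR : ∫⁻ x, ∫⁻ y, ENNReal.ofReal (wp x y * Real.exp (U x) * d2 U x y ^ 2)
      ≤ ENNReal.ofReal (Z * I6) * C := by
    have e1 : ∫⁻ x, ∫⁻ y, ENNReal.ofReal (wp x y * Real.exp (U x) * d2 U x y ^ 2)
        ≤ ∫⁻ x, ENNReal.ofReal (Real.exp (U x)
          * (Z * ‖x‖ ^ 8 * Real.exp (-(‖x‖ ^ 2 / 2)) *
            (60 * n2 U x - 100 * n1 U x / ‖x‖ ^ 2))) := by
      refine lintegral_mono_ae ?_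
      filter_upwards [h0] with x hx
      have h := (hg x (fun i => pd i U x) (fun i j => pd i (pd j U) x) hx (SSph.euler1 hU hx)
        (fun i j => SSph.symm2 hU i j hx) (fun i => SSph.euler2 hU hx i)).2
      have h' : ∀ y, ENNReal.ofReal (wp x y * Real.exp (U x) * d2 U x y ^ 2)
          = ENNReal.ofReal (Real.exp (U x))
            * ENNReal.ofReal (wp x y *
              (∑ i : Fin 3, ∑ j : Fin 3, pd i (pd j U) x * y i * y j) ^ 2) := by
        intro y
        rw [← ENNReal.ofReal_mul (Real.exp_pos _).le]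
        congr 1
        unfold d2
        ring
      simp only [h']
      rw [lintegral_const_mul' _ _ ENNReal.ofReal_ne_top,
        ENNReal.ofReal_mul (Real.exp_pos _).le]
      exact mul_le_mul_right h _
    refine e1.trans (le_of_eq ?_)
    have e2 := SSph.polar_sep (fun x => Real.exp (U x)
          * (Z * ‖x‖ ^ 8 * Real.exp (-(‖x‖ ^ 2 / 2)) *
            (60 * n2 U x - 100 * n1 U x / ‖x‖ ^ 2)))
      (fun ω => Real.exp (U ω) * (60 * n2 U ω - 100 * n1 U ω)) 6 Z hZ.le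
      ?_ ?_
    · rw [e2]
    · have cn : ContinuousOn (fun x : V => 100 * n1 U x / ‖x‖ ^ 2) {0}ᶜ :=
        (continuousOn_const.mul cN1).div (by fun_prop) (fun x hx => by
          have : x ≠ 0 := by simpa using hx
          positivity)
      fun_prop
    · intro r ω hr hω
      have hω0 : ω ≠ 0 := by rintro rfl; simp at hω
      have hnr : ‖r • ω‖ = r := by rw [norm_smul, hω, Real.norm_of_nonneg hr.le, mul_one]
      simp only [hnr]
      rw [hU.hom r ω hr, SSph.n1_scale hU hω0 hr, SSph.n2_scale hU hω0 hr]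
      field_simp
  have hCA : C + 100 * B = 60 * A := by
    rw [hB, hC, hA, ← lintegral_const_mul' _ _ (by simp), ← lintegral_const_mul' _ _ (by simp),
      ← lintegral_add_right']
    · refine lintegral_congr fun ω => ?_
      have hω : ‖(ω : V)‖ = 1 := by simp
      have h2 := SSph.n2_ge hU hω
      have h1 := hn1 (ω : V)
      have e100 : (100 : ENNReal) = ENNReal.ofReal 100 := by simp
      have e60 : (60 : ENNReal) = ENNReal.ofReal 60 := by simp
      rw [e100, e60, ← ENNReal.ofReal_mul (by norm_num), ← ENNReal.ofReal_mul (by norm_num),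
        ← ENNReal.ofReal_add]
      · congr 1
        ring
      · exact mul_nonneg (Real.exp_pos _).le (by linarith)
      · exact mul_nonneg (by norm_num) (mul_nonneg (Real.exp_pos _).le h1)
    · refine AEMeasurable.const_mul ?_ _
      have hmem : ∀ ω : Metric.sphere (0 : V) 1, (ω : V) ∈ ({0}ᶜ : Set V) := by
        intro ω h
        have hω : ‖(ω : V)‖ = 1 := by simp
        rw [show (ω : V) = 0 by simpa using h] at hω
        simp at hω
      have c1 : Continuous (fun ω : Metric.sphere (0 : V) 1 => U ω) :=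
        cU.comp_continuous continuous_subtype_val hmem
      have c2 : Continuous (fun ω : Metric.sphere (0 : V) 1 => n1 U ω) :=
        cN1.comp_continuous continuous_subtype_val hmem
      have c3 : Continuous (fun ω : Metric.sphere (0 : V) 1 => Real.exp (U ω) * n1 U ω) :=
        (Real.continuous_exp.comp c1).mul c2
      exact c3.measurable.ennreal_ofReal.aemeasurable
  have hE := ell_ineq U hU
  rw [hL] at hE
  have hE2 := hE.trans hR
  have hI := SSph.gPos
  have hZI : 0 < Z * I6 := mul_pos hZ hI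
  have h3 : ENNReal.ofReal (5 * Z * (7 * I6)) = 35 * ENNReal.ofReal (Z * I6) := by
    rw [show 5 * Z * (7 * I6) = 35 * (Z * I6) by ring, ENNReal.ofReal_mul (by norm_num)]
    simp
  rw [h3] at hE2
  have h4 : ENNReal.ofReal (Z * I6) * (140 * B) ≤ ENNReal.ofReal (Z * I6) * C := by
    calc ENNReal.ofReal (Z * I6) * (140 * B)
        = 4 * (35 * ENNReal.ofReal (Z * I6) * B) := by
          rw [show (140 : ENNReal) = 4 * 35 by norm_num]; ring
      _ ≤ _ := hE2
  have h5 : 140 * B ≤ C := by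
    have := (ENNReal.mul_le_mul_iff_right (a := ENNReal.ofReal (Z * I6)) (b := 140 * B) (c := C)
      (by simpa using hZI) ENNReal.ofReal_ne_top).1 h4
    exact this
  have h6 : 60 * (4 * B) ≤ 60 * A := by
    calc 60 * (4 * B) = 140 * B + 100 * B := by ring
      _ ≤ C + 100 * B := add_le_add_left h5 _
      _ = 60 * A := hCA
  exact (ENNReal.mul_le_mul_iff_right (by norm_num) (by norm_num)).1 h6

end Pool.Agent.LandauF
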