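import Pool.Agent.LandauF.FDefs

/-!
# LandauF, module SWirt: a one dimensional inequality

For `h : ℝ → ℝ` smooth and `π`-periodic: `4 ∫_0^π e^h h'² ≤ ∫_0^π e^h h''²`.

Proof.  Wirtinger: a smooth `π`-periodic `y` with zero mean has `4 ∫_0^π y² ≤ ∫_0^π y'²`
(Fourier series on the circle of length `π`, Parseval: frequencies `2 n`, `n ≠ 0`; or directly: `y`
vanishes somewhere, ... any proof).  Apply it to `y = w'`, `w = e^{h/2}`: `4 ∫ w'² ≤ ∫ w''²`.
`w'² = ¼ e^h h'²`, `w''² = e^h (½ h'' + ¼ h'²)²`.  Since `(e^h h'³)' = e^h (h'⁴ + 3 h'² h'')` integrates to `0`,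
`∫ e^h h'² h'' = -⅓ ∫ e^h h'⁴`, so `∫ w''² = ¼ ∫ e^h h''² - (1/48) ∫ e^h h'⁴ ≤ ¼ ∫ e^h h''²`.
-/

set_option autoImplicit false

namespace Pool.Agent.LandauF

open MeasureTheory Set Filter Topology Pool.Agent.Landau

private theorem swirt_memLp {f : ℝ → ℂ} (hf : Continuous f) :
    MemLp f 2 (volume.restrict (Ioc (0 : ℝ) Real.pi)) := by
  obtain ⟨C, hC⟩ := (isCompact_Icc (a := (0 : ℝ)) (b := Real.pi)).exists_bound_of_continuousOn
    hf.continuousOn
  refine MemLp.of_bound hf.aestronglyMeasurable C ?_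
  rw [ae_restrict_iff' measurableSet_Ioc]
  exact Eventually.of_forall fun x hx => hC x ⟨hx.1.le, hx.2⟩

/-- Wirtinger inequality on a period of length `π`. -/
theorem wirt_pi (y : ℝ → ℝ) (hy : ContDiff ℝ (⊤ : ℕ∞) y) (hp : ∀ x, y (x + Real.pi) = y x)
    (h0 : ∫ x in (0 : ℝ)..Real.pi, y x = 0) :
    4 * ∫ x in (0 : ℝ)..Real.pi, y x ^ 2 ≤ ∫ x in (0 : ℝ)..Real.pi, deriv y x ^ 2 := by
  have hyd : Differentiable ℝ y := hy.differentiable (by simp)
  have hyc : Continuous y := hy.continuous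
  have hy1 : Continuous (deriv y) := (contDiff_infty_iff_deriv.1 hy).2.continuous
  have hf : Continuous (fun x => (y x : ℂ)) := Complex.continuous_ofReal.comp hyc
  have hf' : Continuous (fun x => ((deriv y x : ℝ) : ℂ)) := Complex.continuous_ofReal.comp hy1
  have s1 := hasSum_sq_fourierCoeffOn Real.pi_pos (swirt_memLp hf)
  have s2 := hasSum_sq_fourierCoeffOn Real.pi_pos (swirt_memLp hf')
  have hle : ∀ n : ℤ, ‖fourierCoeffOn Real.pi_pos (fun x => (y x : ℂ)) n‖ ^ 2 * 4 ≤
      ‖fourierCoeffOn Real.pi_pos (fun x => ((deriv y x : ℝ) : ℂ)) n‖ ^ 2 := by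
    intro n
    by_cases hn : n = 0
    · subst hn
      have : fourierCoeffOn Real.pi_pos (fun x => (y x : ℂ)) 0 = 0 := by
        rw [fourierCoeffOn_eq_integral]
        simp only [neg_zero, fourier_zero, one_smul]
        rw [intervalIntegral.integral_ofReal, h0]
        simp
      rw [this, norm_zero]
      simp
    · have h1 := fourierCoeffOn_of_hasDerivAt (f := fun x => (y x : ℂ))
        (f' := fun x => ((deriv y x : ℝ) : ℂ)) Real.pi_pos hn
        (fun x _ => (hyd x).hasDerivAt.ofReal_comp) (hf'.intervalIntegrable _ _)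
      have h2 : y Real.pi = y 0 := by
        have := hp 0
        rwa [zero_add] at this
      rw [h2, sub_self, mul_zero, zero_sub] at h1
      rw [h1, norm_mul, norm_neg, norm_mul, norm_div, norm_one]
      have e1 : ‖(-2 : ℂ) * Real.pi * Complex.I * n‖ = 2 * Real.pi * |(n : ℝ)| := by
        rw [norm_mul, norm_mul, norm_mul, norm_neg, Complex.norm_I, Complex.norm_real,
          Complex.norm_intCast, Real.norm_of_nonneg Real.pi_pos.le]
        simp
      have e2 : ‖((Real.pi : ℂ) - ((0 : ℝ) : ℂ))‖ = Real.pi := by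
        rw [Complex.ofReal_zero, sub_zero, Complex.norm_real,
          Real.norm_of_nonneg Real.pi_pos.le]
      rw [e1, e2]
      have hn1 : 1 ≤ |(n : ℝ)| := by
        have : 1 ≤ |n| := Int.one_le_abs hn
        exact_mod_cast this
      obtain ⟨N, hN⟩ : ∃ N, N = |(n : ℝ)| := ⟨_, rfl⟩
      obtain ⟨A, hA⟩ : ∃ A, A = ‖fourierCoeffOn Real.pi_pos (fun x => ((deriv y x : ℝ) : ℂ)) n‖ :=
        ⟨_, rfl⟩
      rw [← hN] at hn1 ⊢
      rw [← hA]
      have hN0 : 0 < N := by linarith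
      have hπ := Real.pi_pos
      have e3 : (1 / (2 * Real.pi * N) * (Real.pi * A)) ^ 2 * 4 = A ^ 2 / N ^ 2 := by
        field_simp
        ring
      rw [e3]
      exact div_le_self (sq_nonneg A) (one_le_pow₀ hn1)
  have h3 := hasSum_le hle (s1.mul_right 4) s2
  simp only [smul_eq_mul, sub_zero] at h3
  have n1 : ∀ x, ‖((y x : ℝ) : ℂ)‖ ^ 2 = y x ^ 2 := fun x => by
    rw [Complex.norm_real, Real.norm_eq_abs, sq_abs]
  have n2 : ∀ x, ‖((deriv y x : ℝ) : ℂ)‖ ^ 2 = deriv y x ^ 2 := fun x => by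
    rw [Complex.norm_real, Real.norm_eq_abs, sq_abs]
  simp only [n1, n2] at h3
  have h4 : Real.pi⁻¹ * (4 * ∫ x in (0 : ℝ)..Real.pi, y x ^ 2) ≤
      Real.pi⁻¹ * ∫ x in (0 : ℝ)..Real.pi, deriv y x ^ 2 := by linarith
  exact le_of_mul_le_mul_left h4 (inv_pos.2 Real.pi_pos)

/-- The one dimensional inequality. -/
theorem exp_wirt (h : ℝ → ℝ) (hh : ContDiff ℝ (⊤ : ℕ∞) h) (hp : ∀ x, h (x + Real.pi) = h x) :
    4 * ∫ x in (0 : ℝ)..Real.pi, Real.exp (h x) * deriv h x ^ 2 ≤
      ∫ x in (0 : ℝ)..Real.pi, Real.exp (h x) * deriv (deriv h) x ^ 2 := by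
  have hd1 : ContDiff ℝ (⊤ : ℕ∞) (deriv h) := (contDiff_infty_iff_deriv.1 hh).2
  have hd2 : ContDiff ℝ (⊤ : ℕ∞) (deriv (deriv h)) := (contDiff_infty_iff_deriv.1 hd1).2
  have c0 := hh.continuous
  have c1 := hd1.continuous
  have c2 := hd2.continuous
  have D0 : ∀ x, HasDerivAt h (deriv h x) x := fun x =>
    (hh.differentiable (by simp) x).hasDerivAt
  have D1 : ∀ x, HasDerivAt (deriv h) (deriv (deriv h) x) x := fun x =>
    (hd1.differentiable (by simp) x).hasDerivAt
  obtain ⟨w, hw⟩ : ∃ w : ℝ → ℝ, w = fun x => Real.exp (h x / 2) := ⟨_, rfl⟩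
  have Dw : ∀ x, HasDerivAt w (Real.exp (h x / 2) * (deriv h x / 2)) x := fun x => by
    rw [hw]
    exact ((D0 x).div_const 2).exp
  have hdw : deriv w = fun x => Real.exp (h x / 2) * (deriv h x / 2) :=
    funext fun x => (Dw x).deriv
  have hws : ContDiff ℝ (⊤ : ℕ∞) w := by
    rw [hw]
    exact (hh.div_const 2).exp
  have hws1 : ContDiff ℝ (⊤ : ℕ∞) (deriv w) := (contDiff_infty_iff_deriv.1 hws).2
  have Dw1 : ∀ x, HasDerivAt (deriv w) (Real.exp (h x / 2) * (deriv h x / 2) * (deriv h x / 2) +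
      Real.exp (h x / 2) * (deriv (deriv h) x / 2)) x := fun x => by
    rw [hdw]
    exact (((D0 x).div_const 2).exp).fun_mul ((D1 x).div_const 2)
  have hw2 : deriv (deriv w) = fun x => Real.exp (h x / 2) * (deriv h x / 2) * (deriv h x / 2) +
      Real.exp (h x / 2) * (deriv (deriv h) x / 2) := funext fun x => (Dw1 x).deriv
  have hpw : ∀ x, w (x + Real.pi) = w x := fun x => by
    rw [hw]
    show Real.exp (h (x + Real.pi) / 2) = Real.exp (h x / 2)
    rw [hp]
  have hpw1 : ∀ x, deriv w (x + Real.pi) = deriv w x := fun x => by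
    rw [← deriv_comp_add_const]
    congr 1
    funext z
    exact hpw z
  have hph1 : ∀ x, deriv h (x + Real.pi) = deriv h x := fun x => by
    rw [← deriv_comp_add_const]
    congr 1
    funext z
    exact hp z
  have h0 : ∫ x in (0 : ℝ)..Real.pi, deriv w x = 0 := by
    rw [intervalIntegral.integral_deriv_eq_sub (fun x _ => hws.differentiable (by simp) x)
      (hws1.continuous.intervalIntegrable _ _)]
    have := hpw 0
    rw [zero_add] at this
    rw [this, sub_self]
  have key := wirt_pi (deriv w) hws1 hpw1 h0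
  have hexp : ∀ x, Real.exp (h x / 2) ^ 2 = Real.exp (h x) := fun x => by
    rw [← Real.exp_nat_mul]
    congr 1
    push_cast
    ring
  have ce : Continuous (fun x => Real.exp (h x)) := Real.continuous_exp.comp c0
  have i1 : IntervalIntegrable (fun x => Real.exp (h x) * deriv h x ^ 2) volume 0 Real.pi :=
    (ce.mul (c1.pow 2)).intervalIntegrable _ _
  have i2 : IntervalIntegrable (fun x => Real.exp (h x) * deriv (deriv h) x ^ 2) volume 0
      Real.pi := (ce.mul (c2.pow 2)).intervalIntegrable _ _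
  have i3 : IntervalIntegrable (fun x => Real.exp (h x) * deriv h x ^ 2 * deriv (deriv h) x)
      volume 0 Real.pi := ((ce.mul (c1.pow 2)).mul c2).intervalIntegrable _ _
  have i4 : IntervalIntegrable (fun x => Real.exp (h x) * deriv h x ^ 4) volume 0 Real.pi :=
    (ce.mul (c1.pow 4)).intervalIntegrable _ _
  obtain ⟨I1, hI1⟩ : ∃ I, I = ∫ x in (0 : ℝ)..Real.pi, Real.exp (h x) * deriv h x ^ 2 :=
    ⟨_, rfl⟩
  obtain ⟨I2, hI2⟩ : ∃ I, I = ∫ x in (0 : ℝ)..Real.pi, Real.exp (h x) * deriv (deriv h) x ^ 2 :=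
    ⟨_, rfl⟩
  obtain ⟨I3, hI3⟩ : ∃ I, I = ∫ x in (0 : ℝ)..Real.pi,
    Real.exp (h x) * deriv h x ^ 2 * deriv (deriv h) x := ⟨_, rfl⟩
  obtain ⟨I4, hI4⟩ : ∃ I, I = ∫ x in (0 : ℝ)..Real.pi, Real.exp (h x) * deriv h x ^ 4 :=
    ⟨_, rfl⟩
  have hI40 : 0 ≤ I4 := by
    rw [hI4]
    refine intervalIntegral.integral_nonneg Real.pi_pos.le fun x _ => ?_
    have := Real.exp_pos (h x)
    positivity
  have hz : I4 + 3 * I3 = 0 := by
    have Du : ∀ x, HasDerivAt (fun x => Real.exp (h x) * deriv h x ^ 3)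
        (Real.exp (h x) * deriv h x ^ 4 +
          3 * (Real.exp (h x) * deriv h x ^ 2 * deriv (deriv h) x)) x := fun x => by
      refine ((D0 x).exp.fun_mul ((D1 x).fun_pow 3)).congr_deriv ?_
      push_cast
      ring
    have h1 : ∫ x in (0 : ℝ)..Real.pi, (Real.exp (h x) * deriv h x ^ 4 +
        3 * (Real.exp (h x) * deriv h x ^ 2 * deriv (deriv h) x)) =
        Real.exp (h Real.pi) * deriv h Real.pi ^ 3 - Real.exp (h 0) * deriv h 0 ^ 3 :=
      intervalIntegral.integral_eq_sub_of_hasDerivAt (fun x _ => Du x) (i4.add (i3.const_mul 3))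
    have h2 := hp 0
    have h3 := hph1 0
    rw [zero_add] at h2 h3
    rw [h2, h3, sub_self, intervalIntegral.integral_add i4 (i3.const_mul 3),
      intervalIntegral.integral_const_mul, ← hI3, ← hI4] at h1
    exact h1
  have k1 : ∫ x in (0 : ℝ)..Real.pi, deriv w x ^ 2 = (1 / 4) * I1 := by
    rw [hI1, ← intervalIntegral.integral_const_mul]
    congr 1
    funext x
    rw [hdw]
    show (Real.exp (h x / 2) * (deriv h x / 2)) ^ 2 = _
    rw [mul_pow, hexp]
    ring
  have k2 : ∫ x in (0 : ℝ)..Real.pi, deriv (deriv w) x ^ 2 =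
      (1 / 4) * I2 + (1 / 4) * I3 + (1 / 16) * I4 := by
    rw [hI2, hI3, hI4, ← intervalIntegral.integral_const_mul,
      ← intervalIntegral.integral_const_mul, ← intervalIntegral.integral_const_mul,
      ← intervalIntegral.integral_add (i2.const_mul _) (i3.const_mul _),
      ← intervalIntegral.integral_add ((i2.const_mul _).add (i3.const_mul _)) (i4.const_mul _)]
    congr 1
    funext x
    rw [hw2]
    show (Real.exp (h x / 2) * (deriv h x / 2) * (deriv h x / 2) +
      Real.exp (h x / 2) * (deriv (deriv h) x / 2)) ^ 2 = _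
    have e : (Real.exp (h x / 2) * (deriv h x / 2) * (deriv h x / 2) +
      Real.exp (h x / 2) * (deriv (deriv h) x / 2)) ^ 2 =
      Real.exp (h x / 2) ^ 2 * (deriv h x ^ 2 / 4 + deriv (deriv h) x / 2) ^ 2 := by ring
    rw [e, hexp]
    ring
  rw [k1, k2] at key
  linarith

end Pool.Agent.LandauF
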