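import Pool.Agent.LandauF.FDefs
import Pool.Agent.LandauG.WBaire

/-!
# LandauF, module TDefs: positive solutions
-/

set_option autoImplicit false

namespace Pool.Agent.LandauF

open MeasureTheory Set Filter Topology Pool.Agent.Landau

/-- positive solutions -/
structure SolP (f : ℝ → V → ℝ) : Prop where
  sol : SolW f
  pos : ∀ t < 0, ∀ v, 0 < f t v

theorem SolP.dn {f : ℝ → V → ℝ} (hf : SolP f) {t : ℝ} (ht : t < 0) : Dn (f t) :=
  ⟨hf.sol.cls t ht.le, hf.pos t ht⟩

end Pool.Agent.LandauF
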