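import Pool.Agent.LandauF.TDefs
import Pool.Agent.LandauF.NTrans
import Pool.Agent.LandauG.WTime

/-!
# LandauF, module TJac: time derivative of the weighted Fisher information

On `t < 0` the function `(t, v) ↦ f t v` is smooth and positive, so `φ fi (f t)` is smooth in `(t, v)`, with
support in the compact support of `φ`: differentiate under the integral sign.  `fi g = ∑ (∂_i g)²/g`:
`∂_t fi = ∑ 2 X_i ∂_i ∂_t f - x2 ∂_t f`, `∂_t f = QL (f t)` (`pde`), and one integration by parts
(`∂_t f` is smooth in `v`): `∫ φ 2 X_i ∂_i (∂_t f) = -2 ∫ (φ_i X_i + φ ∂_i X_i) ∂_t f`: total `∫ GG φ f QL f`.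
-/

set_option autoImplicit false

namespace Pool.Agent.LandauF

open MeasureTheory Set Filter Topology Pool.Agent.Landau

/-- the open half space of negative times -/
private def Om : Set (ℝ × V) := Iio (0 : ℝ) ×ˢ univ

private theorem om_open : IsOpen Om := isOpen_Iio.prod isOpen_univ

private theorem om_mem {t : ℝ} (ht : t < 0) (v : V) : ((t, v) : ℝ × V) ∈ Om := ⟨ht, mem_univ _⟩

/-- derivative in the space direction `i` -/
private noncomputable def tD (i : Fin 3) (P : ℝ × V → ℝ) (p : ℝ × V) : ℝ :=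
  fderiv ℝ P p (0, EuclideanSpace.single i 1)

/-- derivative in the time direction -/
private noncomputable def tT (P : ℝ × V → ℝ) (p : ℝ × V) : ℝ :=
  fderiv ℝ P p (1, 0)

private theorem tj_dir {P : ℝ × V → ℝ} (hP : ContDiffOn ℝ (⊤ : ℕ∞) P Om) (u : ℝ × V) :
    ContDiffOn ℝ (⊤ : ℕ∞) (fun p => fderiv ℝ P p u) Om :=
  (hP.fderiv_of_isOpen om_open (by simp)).clm_apply contDiffOn_const

private theorem tj_at {P : ℝ × V → ℝ} (hP : ContDiffOn ℝ (⊤ : ℕ∞) P Om) {p : ℝ × V} (hp : p ∈ Om) :
    HasFDerivAt P (fderiv ℝ P p) p :=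
  ((hP.contDiffAt (om_open.mem_nhds hp)).differentiableAt (by simp)).hasFDerivAt

private theorem tj_slice {P : ℝ × V → ℝ} (hP : ContDiffOn ℝ (⊤ : ℕ∞) P Om) {t : ℝ} (ht : t < 0) :
    ContDiff ℝ (⊤ : ℕ∞) (fun v => P (t, v)) := by
  rw [← contDiffOn_univ]
  refine hP.comp (g := P) (f := fun v : V => ((t, v) : ℝ × V)) ?_ ?_
  · exact (contDiff_const.prodMk contDiff_id).contDiffOn
  · intro v _
    exact om_mem ht v

private theorem tj_pd {P : ℝ × V → ℝ} (hP : ContDiffOn ℝ (⊤ : ℕ∞) P Om) {t : ℝ} (ht : t < 0)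
    (i : Fin 3) (v : V) : pd i (fun v => P (t, v)) v = tD i P (t, v) := by
  have h1 := tj_at hP (om_mem ht v)
  have h2 : HasFDerivAt (fun v => P (t, v)) ((fderiv ℝ P (t, v)).comp
      (ContinuousLinearMap.inr ℝ ℝ V)) v :=
    h1.comp v (hasFDerivAt_prodMk_right t v)
  simp only [pd, tD]
  rw [h2.fderiv]
  simp

private theorem tj_time {P : ℝ × V → ℝ} (hP : ContDiffOn ℝ (⊤ : ℕ∞) P Om) {t : ℝ} (ht : t < 0)
    (v : V) : HasDerivAt (fun s => P (s, v)) (tT P (t, v)) t := by
  have h1 := tj_at hP (om_mem ht v)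
  have h2 : HasDerivAt (fun s : ℝ => (s, v)) ((1 : ℝ), (0 : V)) t :=
    (hasDerivAt_id t).prodMk (hasDerivAt_const t v)
  exact HasFDerivAt.comp_hasDerivAt (f := fun s : ℝ => (s, v)) t h1 h2

private theorem tj_symm {P : ℝ × V → ℝ} (hP : ContDiffOn ℝ (⊤ : ℕ∞) P Om) {p : ℝ × V}
    (hp : p ∈ Om) (u w : ℝ × V) :
    fderiv ℝ (fun x => fderiv ℝ P x u) p w = fderiv ℝ (fun x => fderiv ℝ P x w) p u := by
  have hd : DifferentiableAt ℝ (fderiv ℝ P) p := by
    have h0 : ContDiffOn ℝ (⊤ : ℕ∞) (fderiv ℝ P) Om := hP.fderiv_of_isOpen om_open (by simp)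
    exact (h0.contDiffAt (om_open.mem_nhds hp)).differentiableAt (by simp)
  have h1 : ∀ u w : ℝ × V, fderiv ℝ (fun x => fderiv ℝ P x u) p w =
      fderiv ℝ (fderiv ℝ P) p w u := by
    intro u w
    have h2 := hd.hasFDerivAt.clm_apply (hasFDerivAt_const u p)
    rw [h2.fderiv]
    simp
  rw [h1, h1]
  exact ((hP.contDiffAt (om_open.mem_nhds hp)).isSymmSndFDerivAt (by
    rw [minSmoothness_of_isRCLikeNormedField]
    exact WithTop.coe_le_coe.2 (le_top (a := (2 : ℕ∞))))).eq _ _

section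

variable {f : ℝ → V → ℝ} (hf : SolP f)

include hf

private theorem tj_F : ContDiffOn ℝ (⊤ : ℕ∞) (fun p : ℝ × V => f p.1 p.2) Om := hf.sol.smooth

private theorem tj_QL {t : ℝ} (ht : t < 0) :
    QL (f t) = fun v => tT (fun p : ℝ × V => f p.1 p.2) (t, v) := by
  funext v
  exact (hf.sol.pde t ht v).unique (tj_time (tj_F hf) ht v)

private theorem tj_QL_smooth {t : ℝ} (ht : t < 0) : ContDiff ℝ (⊤ : ℕ∞) (QL (f t)) := by
  rw [tj_QL hf ht]
  exact tj_slice (tj_dir (tj_F hf) _) ht

private theorem tj_pd_time {t : ℝ} (ht : t < 0) (i : Fin 3) (v : V) :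
    HasDerivAt (fun s => pd i (f s) v) (pd i (QL (f t)) v) t := by
  have h1 := tj_time (P := tD i (fun p : ℝ × V => f p.1 p.2)) (tj_dir (tj_F hf) _) ht v
  have h2 : tT (tD i (fun p : ℝ × V => f p.1 p.2)) (t, v) = pd i (QL (f t)) v := by
    rw [tj_QL hf ht]
    rw [tj_pd (P := tT (fun p : ℝ × V => f p.1 p.2)) (tj_dir (tj_F hf) _) ht i v]
    exact tj_symm (tj_F hf) (om_mem ht v) _ _
  rw [h2] at h1
  refine h1.congr_of_eventuallyEq ?_
  filter_upwards [Iio_mem_nhds ht] with s hs
  exact tj_pd (tj_F hf) hs i v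

private theorem tj_joint_pd (i : Fin 3) :
    ContinuousOn (fun p : ℝ × V => pd i (f p.1) p.2) Om := by
  refine (tj_dir (tj_F hf) (0, EuclideanSpace.single i 1)).continuousOn.congr fun p hp => ?_
  obtain ⟨t, v⟩ := p
  exact tj_pd (tj_F hf) hp.1 i v

private theorem tj_joint_QL :
    ContinuousOn (fun p : ℝ × V => QL (f p.1) p.2) Om := by
  refine (tj_dir (tj_F hf) (1, 0)).continuousOn.congr fun p hp => ?_
  obtain ⟨t, v⟩ := p
  exact congrFun (tj_QL hf hp.1) v

private theorem tj_joint_pdQL (i : Fin 3) :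
    ContinuousOn (fun p : ℝ × V => pd i (QL (f p.1)) p.2) Om := by
  refine (tj_dir (tj_dir (tj_F hf) (1, 0)) (0, EuclideanSpace.single i 1)).continuousOn.congr
    fun p hp => ?_
  obtain ⟨t, v⟩ := p
  have h := tj_pd (P := tT (fun p : ℝ × V => f p.1 p.2)) (tj_dir (tj_F hf) _) hp.1 i v
  show pd i (QL (f t)) v = _
  rw [tj_QL hf hp.1]
  exact h

private theorem tj_joint_f : ContinuousOn (fun p : ℝ × V => f p.1 p.2) Om :=
  (tj_F hf).continuousOn

private theorem tj_joint_gam (i : Fin 3) :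
    ContinuousOn (fun p : ℝ × V => gam i (f p.1) p.2) Om := by
  unfold gam
  refine (tj_joint_pd hf i).div (tj_joint_f hf) ?_
  rintro ⟨t, v⟩ hp
  exact (hf.pos t hp.1 v).ne'

private theorem tj_joint_x2 :
    ContinuousOn (fun p : ℝ × V => x2 (f p.1) p.2) Om := by
  unfold x2
  exact continuousOn_finsetSum _ fun i _ => (tj_joint_gam hf i).pow 2

private theorem tj_joint_fi :
    ContinuousOn (fun p : ℝ × V => fi (f p.1) p.2) Om := by
  unfold fi
  exact (tj_joint_f hf).mul (tj_joint_x2 hf)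

/-- the time derivative of the Fisher density -/
private theorem tj_fi_time {t : ℝ} (ht : t < 0) (v : V) :
    HasDerivAt (fun s => fi (f s) v)
      (2 * (∑ i : Fin 3, gam i (f t) v * pd i (QL (f t)) v) - x2 (f t) v * QL (f t) v) t := by
  have hp := hf.pos t ht v
  have h0 := hf.sol.pde t ht v
  have h1 : ∀ i : Fin 3, HasDerivAt (fun s => gam i (f s) v)
      ((pd i (QL (f t)) v * f t v - pd i (f t) v * QL (f t) v) / f t v ^ 2) t := fun i =>
    (tj_pd_time hf ht i v).div h0 hp.ne'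
  have h2 : ∀ i : Fin 3, HasDerivAt (fun s => gam i (f s) v ^ 2)
      (2 * gam i (f t) v * ((pd i (QL (f t)) v * f t v - pd i (f t) v * QL (f t) v) / f t v ^ 2)) t := by
    intro i
    have h := (h1 i).fun_pow 2
    refine h.congr_deriv ?_
    simp
  have h3 : HasDerivAt (fun s => x2 (f s) v)
      (∑ i : Fin 3, 2 * gam i (f t) v *
        ((pd i (QL (f t)) v * f t v - pd i (f t) v * QL (f t) v) / f t v ^ 2)) t := by
    unfold x2
    exact HasDerivAt.fun_sum fun i _ => h2 i
  have h4 := h0.mul h3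
  have h5 : (fun s => fi (f s) v) = fun s => f s v * x2 (f s) v := rfl
  rw [h5]
  refine h4.congr_deriv ?_
  unfold x2 gam
  simp only [Fin.sum_univ_three]
  field_simp
  ring

end

/-- Derivative of the weighted Fisher information. -/
theorem FJ_deriv (f : ℝ → V → ℝ) (hf : SolP f) (φ : V → ℝ) (hφ : ContDiff ℝ (⊤ : ℕ∞) φ)
    (hc : HasCompactSupport φ) (t : ℝ) (ht : t < 0) :
    HasDerivAt (fun τ => FJ φ (f τ)) (dFJ φ (f t)) t := by
  have h1 := td_gen (fun s => fi (f s))
    (fun s v => 2 * (∑ i : Fin 3, gam i (f s) v * pd i (QL (f s)) v) - x2 (f s) v * QL (f s) v)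
    φ hφ.continuous hc t ht (fun s hs => ?_) ?_ (fun s hs v => tj_fi_time hf hs v)
  · refine h1.congr_deriv ?_
    have hsm : ContDiff ℝ (⊤ : ℕ∞) (f t) := (hf.sol.cls t ht.le).smooth
    have hq : ContDiff ℝ (⊤ : ℕ∞) (QL (f t)) := tj_QL_smooth hf ht
    have hg : ∀ i : Fin 3, ContDiff ℝ (⊤ : ℕ∞) (gam i (f t)) := fun i =>
      (smooth_pd hsm i).div hsm fun v => (hf.pos t ht v).ne'
    have hG : ∀ i : Fin 3, ContDiff ℝ (⊤ : ℕ∞) (fun v => φ v * gam i (f t) v) := fun i =>
      hφ.mul (hg i)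
    have hcG : ∀ i : Fin 3, HasCompactSupport (fun v => φ v * gam i (f t) v) := fun i =>
      hc.mul_right
    have h2 : ∀ i : Fin 3, ∫ v, QL (f t) v * pd i (fun v => φ v * gam i (f t) v) v =
        -∫ v, pd i (QL (f t)) v * (φ v * gam i (f t) v) := fun i =>
      ibp (contDiff_one_of_smooth hq) (contDiff_one_of_smooth (hG i)) (hcG i) i
    have hx : ContDiff ℝ (⊤ : ℕ∞) (x2 (f t)) := by
      unfold x2
      exact ContDiff.sum fun i _ => (hg i).pow 2
    have i0 : Integrable (fun v => -(φ v * (x2 (f t) v * QL (f t) v))) :=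
      ((hφ.continuous.mul (hx.continuous.mul hq.continuous)).integrable_of_hasCompactSupport
        hc.mul_right).neg
    have i1 : ∀ i ∈ (Finset.univ : Finset (Fin 3)),
        Integrable (fun v => 2 * (pd i (QL (f t)) v * (φ v * gam i (f t) v))) := fun i _ =>
      (((continuous_pd (contDiff_one_of_smooth hq) i).mul
        (hG i).continuous).integrable_of_hasCompactSupport ((hcG i).mul_left)).const_mul 2
    have i2 : ∀ i ∈ (Finset.univ : Finset (Fin 3)),
        Integrable (fun v => -2 * (QL (f t) v * pd i (fun v => φ v * gam i (f t) v) v)) := fun i _ =>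
      ((hq.continuous.mul (continuous_pd (contDiff_one_of_smooth (hG i)) i)).integrable_of_hasCompactSupport
        ((compact_pd (hcG i) i).mul_left)).const_mul (-2)
    have e1 : (fun v => φ v * (2 * (∑ i : Fin 3, gam i (f t) v * pd i (QL (f t)) v) -
        x2 (f t) v * QL (f t) v)) = fun v => -(φ v * (x2 (f t) v * QL (f t) v)) +
        ∑ i : Fin 3, 2 * (pd i (QL (f t)) v * (φ v * gam i (f t) v)) := by
      funext v
      simp only [Fin.sum_univ_three]
      ring
    have e2 : (fun v => GG φ (f t) v * QL (f t) v) = fun v => -(φ v * (x2 (f t) v * QL (f t) v)) +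
        ∑ i : Fin 3, -2 * (QL (f t) v * pd i (fun v => φ v * gam i (f t) v) v) := by
      funext v
      have e3 : ∀ i : Fin 3, pd i (fun v => φ v * gam i (f t) v) v =
          φ v * pd i (gam i (f t)) v + pd i φ v * gam i (f t) v := fun i => by
        rw [pd_mul (differentiable_of_smooth hφ v) (differentiable_of_smooth (hg i) v)]
        try ring
      simp only [e3]
      unfold GG trh LandauF.hs
      simp only [Fin.sum_univ_three]
      ring
    unfold dFJ
    rw [e1, e2, integral_add i0 (integrable_finsetSum _ i1), integral_add i0 (integrable_finsetSum _ i2),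
      integral_finsetSum _ i1, integral_finsetSum _ i2]
    congr 1
    refine Finset.sum_congr rfl fun i _ => ?_
    rw [integral_const_mul, integral_const_mul, h2 i]
    ring
  · have h := td_slice (Ψ := fun s v => fi (f s) v) (tj_joint_fi hf) hs
    exact h
  · refine ContinuousOn.sub (continuousOn_const.mul ?_) ((tj_joint_x2 hf).mul (tj_joint_QL hf))
    exact continuousOn_finsetSum _ fun i _ => (tj_joint_gam hf i).mul (tj_joint_pdQL hf i)

/-- The local Fisher information is continuous in time. -/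
theorem JB_cont (f : ℝ → V → ℝ) (hf : SolP f) (y : V) (s : ℝ) :
    ContinuousOn (fun τ => JB (f τ) y s) (Iio 0) := by
  intro t ht
  have ht' : t < 0 := ht
  refine ContinuousAt.continuousWithinAt ?_
  have hsub : Icc (t - 1) (t / 2) ×ˢ Metric.closedBall y s ⊆ Om := by
    rintro ⟨r, v⟩ ⟨hr, _⟩
    refine ⟨?_, mem_univ _⟩
    have : r ≤ t / 2 := hr.2
    show r < 0
    linarith
  have hcomp : IsCompact (Icc (t - 1) (t / 2) ×ˢ Metric.closedBall y s) :=
    isCompact_Icc.prod (isCompact_closedBall y s)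
  obtain ⟨M, hM⟩ := hcomp.exists_bound_of_continuousOn ((tj_joint_fi hf).mono hsub)
  have hnhds : Icc (t - 1) (t / 2) ∈ 𝓝 t := Icc_mem_nhds (by linarith) (by linarith)
  have hneg : ∀ r ∈ Icc (t - 1) (t / 2), r < 0 := by
    intro r hr
    have : r ≤ t / 2 := hr.2
    linarith
  unfold JB
  refine continuousAt_of_dominated (bound := fun _ => M) ?_ ?_ ?_ ?_
  · filter_upwards [hnhds] with r hr
    have h := td_slice (Ψ := fun s v => fi (f s) v) (tj_joint_fi hf) (hneg r hr)
    exact h.aestronglyMeasurable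
  · filter_upwards [hnhds] with r hr
    refine (ae_restrict_iff' measurableSet_closedBall).2 (Eventually.of_forall fun v hv => ?_)
    exact hM (r, v) ⟨hr, hv⟩
  · exact integrableOn_const (by
      exact (isCompact_closedBall y s).measure_lt_top.ne)
  · refine Eventually.of_forall fun v => ?_
    have h1 : ContinuousOn (fun r : ℝ => ((r, v) : ℝ × V)) (Iio 0) := by fun_prop
    have h2 := (tj_joint_fi hf).comp h1 (fun r hr => ⟨hr, mem_univ _⟩)
    exact h2.continuousAt (Iio_mem_nhds ht')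

end Pool.Agent.LandauF
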