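import Pool.Agent.LandauF.NCut

/-!
# LandauF, module XEta: higher derivatives of the near cutoff

`eta = chN (q)`, `q = r²/S`, `S = SS ϱ δ p = ϱ²(mid) + δ²`.  `ds σ l` is `dv l` or `dw l`.  On the closed set
`S/4 ≤ r² ≤ S` (elsewhere `eta` is locally constant): `|∂ r²| ≤ 2 r`, `|∂² r²| ≤ 2`, `|∂S| ≤ √S`, `|∂²S| ≤ 1`,
`|∂³S| ≤ L/√S` (halves from the midpoint), so `|∂^m q| ≤ C S^{-m/2}` for `m ≤ 2` and `≤ C (1 + L) S^{-3/2}` for `m = 3`;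
`chN_bounds`.
-/

set_option linter.all false

set_option autoImplicit false

namespace Pool.Agent.LandauF

open MeasureTheory Set Filter Topology Pool.Agent.Landau

/-- hypotheses on `ϱ` used for the far kernels, `L` bounds the third derivatives -/
structure RhoB (ϱ : V → ℝ) (δ L : ℝ) (p : V × V) : Prop where
  smooth : ContDiff ℝ (⊤ : ℕ∞) (fun v => ϱ v ^ 2)
  nonneg : ∀ v, 0 ≤ ϱ v
  lip : ∀ v w, |ϱ v - ϱ w| ≤ ‖v - w‖
  pos : 0 < δ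
  d2 : ∀ i j : Fin 3, |pd i (pd j (fun x => ϱ x ^ 2)) (mid p.1 p.2)| ≤ 1
  d3 : ∀ i j k : Fin 3, |pd i (pd j (pd k (fun x => ϱ x ^ 2))) (mid p.1 p.2)| *
    Real.sqrt (SS ϱ δ p) ≤ L

/-- partial derivative in one of the two points -/
noncomputable def ds (σ : Bool) (l : Fin 3) (P : V × V → ℝ) (p : V × V) : ℝ :=
  if σ then dv l P p else dw l P p

/-- direction vectors -/
noncomputable def xeD (σ : Bool) (l : Fin 3) : V × V :=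
  if σ then (EuclideanSpace.single l 1, 0) else (0, EuclideanSpace.single l 1)

theorem xe_ds (σ : Bool) (l : Fin 3) (P : V × V → ℝ) :
    ds σ l P = fun p => fderiv ℝ P p (xeD σ l) := by
  funext p
  cases σ
  · simp only [ds, xeD, dw, Bool.false_eq_true, if_false]
  · simp only [ds, xeD, dv, if_true]

theorem xe_smooth {P : V × V → ℝ} (hP : ContDiff ℝ (⊤ : ℕ∞) P) (σ : Bool) (l : Fin 3) :
    ContDiff ℝ (⊤ : ℕ∞) (ds σ l P) := by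
  rw [xe_ds]
  exact (hP.fderiv_right (by simp)).clm_apply contDiff_const

theorem xe_mul {P Q : V × V → ℝ} (hP : ContDiff ℝ (⊤ : ℕ∞) P) (hQ : ContDiff ℝ (⊤ : ℕ∞) Q)
    (σ : Bool) (l : Fin 3) (p : V × V) :
    ds σ l (fun x => P x * Q x) p = P p * ds σ l Q p + ds σ l P p * Q p := by
  cases σ
  · simpa [ds] using dw_mul hP hQ l p
  · simpa [ds] using dv_mul hP hQ l p

theorem xe_comp {h : ℝ → ℝ} (hh : ContDiff ℝ (⊤ : ℕ∞) h) {q : V × V → ℝ}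
    (hq : ContDiff ℝ (⊤ : ℕ∞) q) (σ : Bool) (l : Fin 3) (p : V × V) :
    ds σ l (fun x => h (q x)) p = deriv h (q p) * ds σ l q p := by
  simp only [xe_ds]
  have h1 : HasFDerivAt (fun x => h (q x)) (deriv h (q p) • fderiv ℝ q p) p :=
    ((hh.differentiable (by simp)) (q p)).hasDerivAt.comp_hasFDerivAt p
      ((hq.differentiable (by simp)) p).hasFDerivAt
  rw [h1.fderiv]
  rfl

theorem xe_add {P Q : V × V → ℝ} (hP : ContDiff ℝ (⊤ : ℕ∞) P) (hQ : ContDiff ℝ (⊤ : ℕ∞) Q)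
    (σ : Bool) (l : Fin 3) (p : V × V) :
    ds σ l (fun x => P x + Q x) p = ds σ l P p + ds σ l Q p := by
  simp only [xe_ds]
  have h : HasFDerivAt (fun x => P x + Q x) (fderiv ℝ P p + fderiv ℝ Q p) p :=
    ((hP.differentiable (by simp)) p).hasFDerivAt.add
      ((hQ.differentiable (by simp)) p).hasFDerivAt
  rw [h.fderiv]
  rfl

theorem xe_mid {h : V → ℝ} (hh : ContDiff ℝ (⊤ : ℕ∞) h) (σ : Bool) (l : Fin 3) (p : V × V) :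
    ds σ l (fun x => h (mid x.1 x.2)) p = (1 / 2) * pd l h (mid p.1 p.2) := by
  simp only [xe_ds]
  have h0 : HasFDerivAt (fun x : V × V => mid x.1 x.2)
      ((1 / 2 : ℝ) • (ContinuousLinearMap.fst ℝ V V + ContinuousLinearMap.snd ℝ V V)) p :=
    ((1 / 2 : ℝ) • (ContinuousLinearMap.fst ℝ V V + ContinuousLinearMap.snd ℝ V V)).hasFDerivAt
  have h1 : HasFDerivAt (fun x : V × V => h (mid x.1 x.2))
      ((fderiv ℝ h (mid p.1 p.2)).comp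
        ((1 / 2 : ℝ) • (ContinuousLinearMap.fst ℝ V V + ContinuousLinearMap.snd ℝ V V))) p :=
    ((hh.differentiable (by simp)) (mid p.1 p.2)).hasFDerivAt.comp p h0
  rw [h1.fderiv]
  have h2 : ((1 / 2 : ℝ) • (ContinuousLinearMap.fst ℝ V V + ContinuousLinearMap.snd ℝ V V))
      (xeD σ l) = (1 / 2 : ℝ) • EuclideanSpace.single l 1 := by
    cases σ
    · simp [xeD]
    · simp [xeD]
  rw [ContinuousLinearMap.comp_apply, h2, map_smul, smul_eq_mul]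
  rfl

theorem xe_pd_smooth {g : V → ℝ} (hg : ContDiff ℝ (⊤ : ℕ∞) g) (i : Fin 3) :
    ContDiff ℝ (⊤ : ℕ∞) (pd i g) := by
  unfold pd
  exact (hg.fderiv_right (m := (⊤ : ℕ∞)) (by simp)).clm_apply contDiff_const

theorem xe_pd_cmul {g : V → ℝ} (hg : ContDiff ℝ (⊤ : ℕ∞) g) (c : ℝ) (i : Fin 3) (v : V) :
    pd i (fun x => c * g x) v = c * pd i g v := by
  unfold pd
  rw [(((hg.differentiable (by simp)) v).hasFDerivAt.const_mul c).fderiv]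
  rfl

theorem xe_pd_addc {g : V → ℝ} (hg : ContDiff ℝ (⊤ : ℕ∞) g) (c : ℝ) (i : Fin 3) (v : V) :
    pd i (fun x => g x + c) v = pd i g v := by
  unfold pd
  rw [(((hg.differentiable (by simp)) v).hasFDerivAt.add_const c).fderiv]

theorem xe_S1 {ϱ : V → ℝ} (h : ContDiff ℝ (⊤ : ℕ∞) (fun v => ϱ v ^ 2)) (δ : ℝ) (σ : Bool)
    (i : Fin 3) :
    ds σ i (SS ϱ δ) = fun p => (1 / 2) * pd i (fun x => ϱ x ^ 2) (mid p.1 p.2) := by
  funext p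
  have h1 := xe_mid (h := fun v => ϱ v ^ 2 + δ ^ 2) (h.add contDiff_const) σ i p
  rw [xe_pd_addc h] at h1
  exact h1

theorem xe_S2 {ϱ : V → ℝ} (h : ContDiff ℝ (⊤ : ℕ∞) (fun v => ϱ v ^ 2)) (δ : ℝ) (σ τ : Bool)
    (i j : Fin 3) : ds σ i (ds τ j (SS ϱ δ)) =
      fun p => (1 / 4) * pd i (pd j (fun x => ϱ x ^ 2)) (mid p.1 p.2) := by
  funext p
  rw [xe_S1 h]
  have h1 := xe_mid (h := fun v => (1 / 2) * pd j (fun x => ϱ x ^ 2) v)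
    (contDiff_const.mul (xe_pd_smooth h j)) σ i p
  rw [xe_pd_cmul (xe_pd_smooth h j)] at h1
  rw [h1]
  ring

theorem xe_S3 {ϱ : V → ℝ} (h : ContDiff ℝ (⊤ : ℕ∞) (fun v => ϱ v ^ 2)) (δ : ℝ) (σ τ υ : Bool)
    (i j k : Fin 3) (p : V × V) : ds σ i (ds τ j (ds υ k (SS ϱ δ))) p =
      (1 / 8) * pd i (pd j (pd k (fun x => ϱ x ^ 2))) (mid p.1 p.2) := by
  rw [xe_S2 h]
  have h0 := xe_pd_smooth (xe_pd_smooth h k) j
  have h1 := xe_mid (h := fun v => (1 / 4) * pd j (pd k (fun x => ϱ x ^ 2)) v)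
    (contDiff_const.mul h0) σ i p
  rw [xe_pd_cmul h0] at h1
  rw [h1]
  ring

theorem xe_pd_sq {ϱ : V → ℝ} (h : ContDiff ℝ (⊤ : ℕ∞) (fun v => ϱ v ^ 2))
    (h0 : ∀ v, 0 ≤ ϱ v) (hl : ∀ v w, |ϱ v - ϱ w| ≤ ‖v - w‖) (i : Fin 3) (x : V) :
    |pd i (fun v => ϱ v ^ 2) x| ≤ 2 * ϱ x := by
  have h1 : ‖fderiv ℝ (fun v => ϱ v ^ 2) x‖ ≤ 2 * ϱ x := by
    refine le_of_forall_pos_le_add (fun ε hε => ?_)
    refine (((h.differentiable (by simp)) x).hasFDerivAt).le_of_lip' (by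
      have := h0 x
      positivity) ?_
    filter_upwards [Metric.ball_mem_nhds x hε] with y hy
    have hy1 : ‖y - x‖ < ε := by
      rwa [mem_ball_iff_norm] at hy
    have h2 := hl y x
    have h3 : ϱ y ^ 2 - ϱ x ^ 2 = (ϱ y - ϱ x) * (ϱ y + ϱ x) := by ring
    rw [h3, norm_mul, Real.norm_eq_abs, Real.norm_eq_abs]
    have h4 : |ϱ y + ϱ x| ≤ 2 * ϱ x + ε := by
      rw [abs_of_nonneg (add_nonneg (h0 y) (h0 x))]
      have := le_abs_self (ϱ y - ϱ x)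
      linarith
    calc |ϱ y - ϱ x| * |ϱ y + ϱ x| ≤ ‖y - x‖ * (2 * ϱ x + ε) :=
          mul_le_mul h2 h4 (abs_nonneg _) (norm_nonneg _)
      _ = (2 * ϱ x + ε) * ‖y - x‖ := mul_comm _ _
  have h2 : ‖fderiv ℝ (fun v => ϱ v ^ 2) x (EuclideanSpace.single i 1)‖ ≤
      ‖fderiv ℝ (fun v => ϱ v ^ 2) x‖ * ‖(EuclideanSpace.single i 1 : V)‖ :=
    ContinuousLinearMap.le_opNorm _ _
  rw [EuclideanSpace.norm_single, norm_one, mul_one] at h2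
  unfold pd
  exact h2.trans h1

/-- squared distance -/
noncomputable def xeN (p : V × V) : ℝ := ‖p.1 - p.2‖ ^ 2

/-- the coordinates of the difference -/
noncomputable def xeL (l : Fin 3) : V × V →L[ℝ] ℝ :=
  (EuclideanSpace.proj l : V →L[ℝ] ℝ).comp
    (ContinuousLinearMap.fst ℝ V V - ContinuousLinearMap.snd ℝ V V)

theorem xeL_D (l j : Fin 3) (σ : Bool) : |xeL l (xeD σ j)| ≤ 1 := by
  show |((xeD σ j).1 - (xeD σ j).2) l| ≤ 1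
  cases σ
  · simp only [xeD, Bool.false_eq_true, if_false, zero_sub, PiLp.neg_apply, abs_neg,
      EuclideanSpace.single_apply]
    split_ifs <;> simp
  · simp only [xeD, if_true, sub_zero, EuclideanSpace.single_apply]
    split_ifs <;> simp

/-- signs -/
noncomputable def xeS (σ : Bool) : ℝ := if σ then 1 else -1

theorem xeS_abs (σ : Bool) : |xeS σ| = 1 := by
  cases σ <;> simp [xeS]

theorem xeN_smooth : ContDiff ℝ (⊤ : ℕ∞) xeN := by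
  unfold xeN
  exact (contDiff_fst.sub contDiff_snd).norm_sq ℝ

theorem xe_N1 (σ : Bool) (l : Fin 3) :
    ds σ l xeN = fun p => (2 * xeS σ) * xeL l p := by
  rw [xe_ds]
  funext p
  have h0 : HasFDerivAt (fun x : V × V => x.1 - x.2)
      (ContinuousLinearMap.fst ℝ V V - ContinuousLinearMap.snd ℝ V V) p :=
    (ContinuousLinearMap.fst ℝ V V - ContinuousLinearMap.snd ℝ V V).hasFDerivAt
  have h1 := h0.norm_sq
  have h2 : fderiv ℝ xeN p = _ := h1.fderiv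
  rw [h2]
  cases σ
  · simp [xeD, xeS, xeL, EuclideanSpace.inner_single_right]
    ring
  · simp [xeD, xeS, xeL, EuclideanSpace.inner_single_right]

theorem xe_N2 (σ τ : Bool) (i j : Fin 3) :
    ds σ i (ds τ j xeN) = fun _ => (2 * xeS τ) * xeL j (xeD σ i) := by
  rw [xe_N1, xe_ds]
  funext p
  rw [((xeL j).hasFDerivAt.const_mul (2 * xeS τ)).fderiv]
  rfl

theorem xe_N3 (σ τ υ : Bool) (i j k : Fin 3) (p : V × V) :
    ds σ i (ds τ j (ds υ k xeN)) p = 0 := by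
  rw [xe_N2, xe_ds]
  simp

/-- the quotient -/
noncomputable def xeQ (ϱ : V → ℝ) (δ : ℝ) (p : V × V) : ℝ := xeN p / SS ϱ δ p

theorem xeQ_smooth {ϱ : V → ℝ} (h : ContDiff ℝ (⊤ : ℕ∞) (fun v => ϱ v ^ 2)) {δ : ℝ}
    (hδ : 0 < δ) : ContDiff ℝ (⊤ : ℕ∞) (xeQ ϱ δ) :=
  xeN_smooth.div (SS_smooth h δ) (fun p => (SS_pos ϱ hδ p).ne')

theorem xe_deriv_smooth {h : ℝ → ℝ} (hh : ContDiff ℝ (⊤ : ℕ∞) h) :
    ContDiff ℝ (⊤ : ℕ∞) (deriv h) :=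
  (contDiff_infty_iff_deriv.1 hh).2

theorem xe_f1 {h : ℝ → ℝ} (hh : ContDiff ℝ (⊤ : ℕ∞) h) {q : V × V → ℝ}
    (hq : ContDiff ℝ (⊤ : ℕ∞) q) (υ : Bool) (k : Fin 3) :
    ds υ k (fun x => h (q x)) = fun p => deriv h (q p) * ds υ k q p := by
  funext p
  exact xe_comp hh hq υ k p

theorem xe_f2 {h : ℝ → ℝ} (hh : ContDiff ℝ (⊤ : ℕ∞) h) {q : V × V → ℝ}
    (hq : ContDiff ℝ (⊤ : ℕ∞) q) (τ υ : Bool) (j k : Fin 3) :
    ds τ j (ds υ k (fun x => h (q x))) = fun p => deriv h (q p) * ds τ j (ds υ k q) p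
      + deriv (deriv h) (q p) * (ds τ j q p * ds υ k q p) := by
  funext p
  have h1 := xe_deriv_smooth hh
  rw [xe_f1 hh hq, xe_mul (P := fun x => deriv h (q x)) (h1.comp hq) (xe_smooth hq υ k),
    xe_comp h1 hq]
  ring

theorem xe_f3 {h : ℝ → ℝ} (hh : ContDiff ℝ (⊤ : ℕ∞) h) {q : V × V → ℝ}
    (hq : ContDiff ℝ (⊤ : ℕ∞) q) (σ τ υ : Bool) (i j k : Fin 3) (p : V × V) :
    ds σ i (ds τ j (ds υ k (fun x => h (q x)))) p =
      deriv h (q p) * ds σ i (ds τ j (ds υ k q)) p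
      + deriv (deriv h) (q p) * (ds σ i q p * ds τ j (ds υ k q) p
        + ds τ j q p * ds σ i (ds υ k q) p + ds σ i (ds τ j q) p * ds υ k q p)
      + deriv (deriv (deriv h)) (q p) * (ds σ i q p * ds τ j q p * ds υ k q p) := by
  have h1 := xe_deriv_smooth hh
  have h2 := xe_deriv_smooth h1
  have s3 := xe_smooth hq υ k
  have s2 := xe_smooth hq τ j
  have s23 := xe_smooth s3 τ j
  rw [xe_f2 hh hq,
    xe_add (P := fun x => deriv h (q x) * ds τ j (ds υ k q) x)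
      (Q := fun x => deriv (deriv h) (q x) * (ds τ j q x * ds υ k q x))
      ((h1.comp hq).mul s23) ((h2.comp hq).mul (s2.mul s3)),
    xe_mul (P := fun x => deriv h (q x)) (h1.comp hq) s23,
    xe_mul (P := fun x => deriv (deriv h) (q x)) (Q := fun x => ds τ j q x * ds υ k q x)
      (h2.comp hq) (s2.mul s3),
    xe_mul s2 s3, xe_comp h1 hq, xe_comp h2 hq]
  ring

theorem xe_m2 {P Q : V × V → ℝ} (hP : ContDiff ℝ (⊤ : ℕ∞) P) (hQ : ContDiff ℝ (⊤ : ℕ∞) Q)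
    (σ τ : Bool) (i j : Fin 3) :
    ds σ i (ds τ j (fun x => P x * Q x)) = fun p => P p * ds σ i (ds τ j Q) p
      + ds σ i P p * ds τ j Q p + ds τ j P p * ds σ i Q p + ds σ i (ds τ j P) p * Q p := by
  have e1 : ds τ j (fun x => P x * Q x) = fun x => P x * ds τ j Q x + ds τ j P x * Q x := by
    funext p
    exact xe_mul hP hQ τ j p
  funext p
  have s1 := xe_smooth hP τ j
  have s2 := xe_smooth hQ τ j
  rw [e1, xe_add (P := fun x => P x * ds τ j Q x) (Q := fun x => ds τ j P x * Q x)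
    (hP.mul s2) (s1.mul hQ), xe_mul hP s2, xe_mul s1 hQ]
  ring

theorem xe_m3 {P Q : V × V → ℝ} (hP : ContDiff ℝ (⊤ : ℕ∞) P) (hQ : ContDiff ℝ (⊤ : ℕ∞) Q)
    (σ τ υ : Bool) (i j k : Fin 3) (p : V × V) :
    ds σ i (ds τ j (ds υ k (fun x => P x * Q x))) p =
      P p * ds σ i (ds τ j (ds υ k Q)) p
      + ds σ i P p * ds τ j (ds υ k Q) p + ds τ j P p * ds σ i (ds υ k Q) p
      + ds σ i (ds τ j P) p * ds υ k Q p
      + ds υ k P p * ds σ i (ds τ j Q) p + ds σ i (ds υ k P) p * ds τ j Q p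
      + ds τ j (ds υ k P) p * ds σ i Q p + ds σ i (ds τ j (ds υ k P)) p * Q p := by
  have e1 : ds υ k (fun x => P x * Q x) = fun x => P x * ds υ k Q x + ds υ k P x * Q x := by
    funext p
    exact xe_mul hP hQ υ k p
  have s1 := xe_smooth hP υ k
  have s2 := xe_smooth hQ υ k
  have e2 : ds τ j (fun x => P x * ds υ k Q x + ds υ k P x * Q x) =
      fun x => ds τ j (fun x => P x * ds υ k Q x) x + ds τ j (fun x => ds υ k P x * Q x) x := by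
    funext x
    exact xe_add (hP.mul s2) (s1.mul hQ) τ j x
  rw [e1, e2, xe_add (xe_smooth (hP.mul s2) τ j) (xe_smooth (s1.mul hQ) τ j),
    xe_m2 hP s2, xe_m2 s1 hQ]
  ring

/-- the real number estimates -/
theorem xe_a1 {s q N1 S1 q1 : ℝ} (hs : 0 < s) (hq0 : 0 ≤ q) (hq1 : q ≤ 1) (hN : |N1| ≤ 2 * s)
    (hS : |S1| ≤ s) (h : N1 = q * S1 + q1 * s ^ 2) : |q1| * s ≤ 3 := by
  have h1 : q1 * s ^ 2 = N1 - q * S1 := by linarith
  have h2 : |q1| * s ^ 2 = |N1 - q * S1| := by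
    rw [← h1, abs_mul, abs_of_pos (pow_pos hs 2)]
  have h3 : |N1 - q * S1| ≤ 3 * s := by
    refine (abs_sub _ _).trans ?_
    rw [abs_mul, abs_of_nonneg hq0]
    have := mul_le_mul hq1 hS (abs_nonneg S1) zero_le_one
    linarith
  have h4 : |q1| * s * s ≤ 3 * s := by
    rw [mul_assoc, ← pow_two, h2]
    exact h3
  exact le_of_mul_le_mul_right h4 hs

theorem xe_a2 {s q N12 S1 S2 S12 q1 q2 q12 : ℝ} (hs : 0 < s) (hq0 : 0 ≤ q) (hq1 : q ≤ 1)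
    (hN : |N12| ≤ 2) (h1 : |S1| ≤ s) (h2 : |S2| ≤ s) (h12 : |S12| ≤ 1 / 4) (a1 : |q1| * s ≤ 3)
    (a2 : |q2| * s ≤ 3) (h : N12 = q * S12 + q1 * S2 + q2 * S1 + q12 * s ^ 2) :
    |q12| * s ^ 2 ≤ 9 := by
  have e1 : |q12| * s ^ 2 = |N12 - q * S12 - q1 * S2 - q2 * S1| := by
    have h5 : N12 - q * S12 - q1 * S2 - q2 * S1 = q12 * s ^ 2 := by linarith
    rw [h5, abs_mul, abs_of_pos (pow_pos hs 2)]
  have t1 : |q * S12| ≤ 1 / 4 := by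
    rw [abs_mul, abs_of_nonneg hq0]
    have := mul_le_mul hq1 h12 (abs_nonneg _) zero_le_one
    linarith
  have t2 : |q1 * S2| ≤ 3 := by
    rw [abs_mul]
    exact (mul_le_mul_of_nonneg_left h2 (abs_nonneg q1)).trans a1
  have t3 : |q2 * S1| ≤ 3 := by
    rw [abs_mul]
    exact (mul_le_mul_of_nonneg_left h1 (abs_nonneg q2)).trans a2
  have t4 := abs_sub (N12 - q * S12 - q1 * S2) (q2 * S1)
  have t5 := abs_sub (N12 - q * S12) (q1 * S2)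
  have t6 := abs_sub N12 (q * S12)
  rw [e1]
  linarith

theorem xe_a3 {s L q q1 q2 q3 q12 q13 q23 q123 S1 S2 S3 S12 S13 S23 S123 : ℝ} (hs : 0 < s)
    (hL : 0 ≤ L) (hq0 : 0 ≤ q) (hq1 : q ≤ 1) (h1 : |S1| ≤ s) (h2 : |S2| ≤ s) (h3 : |S3| ≤ s)
    (h12 : |S12| ≤ 1 / 4) (h13 : |S13| ≤ 1 / 4) (h23 : |S23| ≤ 1 / 4)
    (h123 : |S123| * s ≤ L / 8) (a1 : |q1| * s ≤ 3) (a2 : |q2| * s ≤ 3) (a3 : |q3| * s ≤ 3)
    (b12 : |q12| * s ^ 2 ≤ 9) (b13 : |q13| * s ^ 2 ≤ 9) (b23 : |q23| * s ^ 2 ≤ 9)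
    (h : 0 = q * S123 + q1 * S23 + q2 * S13 + q12 * S3 + q3 * S12 + q13 * S2 + q23 * S1
      + q123 * s ^ 2) : |q123| * (s ^ 2 * s) ≤ 30 * (1 + L) := by
  have t0 : |q * S123| * s ≤ L / 8 := by
    rw [abs_mul, abs_of_nonneg hq0, mul_assoc]
    have := mul_le_mul hq1 h123 (mul_nonneg (abs_nonneg _) hs.le) zero_le_one
    linarith
  have t : ∀ a b : ℝ, |a| * s ≤ 3 → |b| ≤ 1 / 4 → |a * b| * s ≤ 3 / 4 := by
    intro a b ha hb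
    have h5 : |a * b| * s = (|a| * s) * |b| := by rw [abs_mul]; ring
    rw [h5]
    have := mul_le_mul ha hb (abs_nonneg _) (by norm_num)
    linarith
  have u : ∀ a b : ℝ, |a| * s ^ 2 ≤ 9 → |b| ≤ s → |a * b| * s ≤ 9 := by
    intro a b ha hb
    have h5 : |a * b| * s = (|a| * s) * |b| := by rw [abs_mul]; ring
    rw [h5]
    have := mul_le_mul_of_nonneg_left hb (mul_nonneg (abs_nonneg a) hs.le)
    nlinarith
  have v1 := t q1 S23 a1 h23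
  have v2 := t q2 S13 a2 h13
  have v3 := t q3 S12 a3 h12
  have w1 := u q12 S3 b12 h3
  have w2 := u q13 S2 b13 h2
  have w3 := u q23 S1 b23 h1
  have e1 : |q123| * (s ^ 2 * s) = |q * S123 + q1 * S23 + q2 * S13 + q12 * S3 + q3 * S12
      + q13 * S2 + q23 * S1| * s := by
    have h5 : q * S123 + q1 * S23 + q2 * S13 + q12 * S3 + q3 * S12 + q13 * S2 + q23 * S1
      = -(q123 * s ^ 2) := by linarith
    rw [h5, abs_neg, abs_mul, abs_of_pos (pow_pos hs 2)]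
    ring
  have r1 := abs_add_le (q * S123 + q1 * S23 + q2 * S13 + q12 * S3 + q3 * S12
      + q13 * S2) (q23 * S1)
  have r2 := abs_add_le (q * S123 + q1 * S23 + q2 * S13 + q12 * S3 + q3 * S12) (q13 * S2)
  have r3 := abs_add_le (q * S123 + q1 * S23 + q2 * S13 + q12 * S3) (q3 * S12)
  have r4 := abs_add_le (q * S123 + q1 * S23 + q2 * S13) (q12 * S3)
  have r5 := abs_add_le (q * S123 + q1 * S23) (q2 * S13)
  have r6 := abs_add_le (q * S123) (q1 * S23)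
  have r : |q * S123 + q1 * S23 + q2 * S13 + q12 * S3 + q3 * S12 + q13 * S2 + q23 * S1| ≤
      |q * S123| + |q1 * S23| + |q2 * S13| + |q12 * S3| + |q3 * S12| + |q13 * S2|
        + |q23 * S1| := by linarith
  have r' := mul_le_mul_of_nonneg_right r hs.le
  rw [e1]
  nlinarith

theorem xe_b2 {s K h1 h2 q1 q2 q12 : ℝ} (hs : 0 < s) (hK : 0 ≤ K) (k1 : |h1| ≤ K)
    (k2 : |h2| ≤ K) (a1 : |q1| * s ≤ 3) (a2 : |q2| * s ≤ 3) (b12 : |q12| * s ^ 2 ≤ 9) :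
    |h1 * q12 + h2 * (q1 * q2)| * s ^ 2 ≤ 18 * K := by
  have r1 := abs_add_le (h1 * q12) (h2 * (q1 * q2))
  have r2 : |h1 * q12| * s ^ 2 ≤ K * 9 := by
    rw [abs_mul, mul_assoc]
    exact mul_le_mul k1 b12 (mul_nonneg (abs_nonneg _) (sq_nonneg s)) hK
  have r3 : |h2 * (q1 * q2)| * s ^ 2 ≤ K * 9 := by
    have e : |h2 * (q1 * q2)| * s ^ 2 = |h2| * ((|q1| * s) * (|q2| * s)) := by
      rw [abs_mul, abs_mul]; ring
    rw [e]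
    have := mul_le_mul a1 a2 (mul_nonneg (abs_nonneg _) hs.le) (by norm_num)
    exact mul_le_mul k2 (by linarith) (by positivity) hK
  have := mul_le_mul_of_nonneg_right r1 (sq_nonneg s)
  nlinarith

theorem xe_b3 {s K L h1 h2 h3 q1 q2 q3 q12 q13 q23 q123 : ℝ} (hs : 0 < s) (hK : 0 ≤ K)
    (hL : 0 ≤ L) (k1 : |h1| ≤ K) (k2 : |h2| ≤ K) (k3 : |h3| ≤ K) (a1 : |q1| * s ≤ 3)
    (a2 : |q2| * s ≤ 3) (a3 : |q3| * s ≤ 3) (b12 : |q12| * s ^ 2 ≤ 9)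
    (b13 : |q13| * s ^ 2 ≤ 9) (b23 : |q23| * s ^ 2 ≤ 9)
    (c : |q123| * (s ^ 2 * s) ≤ 30 * (1 + L)) :
    |h1 * q123 + h2 * (q1 * q23 + q2 * q13 + q12 * q3) + h3 * (q1 * q2 * q3)| * (s ^ 2 * s) ≤
      138 * K * (1 + L) := by
  have hs3 : 0 < s ^ 2 * s := by positivity
  have r1 : |h1 * q123| * (s ^ 2 * s) ≤ K * (30 * (1 + L)) := by
    rw [abs_mul, mul_assoc]
    exact mul_le_mul k1 c (mul_nonneg (abs_nonneg _) hs3.le) hK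
  have g : ∀ a b : ℝ, |a| * s ≤ 3 → |b| * s ^ 2 ≤ 9 → |a * b| * (s ^ 2 * s) ≤ 27 := by
    intro a b ha hb
    have e : |a * b| * (s ^ 2 * s) = (|a| * s) * (|b| * s ^ 2) := by
      rw [abs_mul]; ring
    rw [e]
    have := mul_le_mul ha hb (mul_nonneg (abs_nonneg _) (sq_nonneg s)) (by norm_num)
    linarith
  have g1 := g q1 q23 a1 b23
  have g2 := g q2 q13 a2 b13
  have g3 := g q3 q12 a3 b12
  rw [mul_comm q3 q12] at g3
  have r2 : |h2 * (q1 * q23 + q2 * q13 + q12 * q3)| * (s ^ 2 * s) ≤ K * 81 := by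
    rw [abs_mul, mul_assoc]
    refine mul_le_mul k2 ?_ (mul_nonneg (abs_nonneg _) hs3.le) hK
    have t1 := abs_add_le (q1 * q23 + q2 * q13) (q12 * q3)
    have t2 := abs_add_le (q1 * q23) (q2 * q13)
    have t3 : |q1 * q23 + q2 * q13 + q12 * q3| ≤ |q1 * q23| + |q2 * q13| + |q12 * q3| := by
      linarith
    have := mul_le_mul_of_nonneg_right t3 hs3.le
    nlinarith
  have r3 : |h3 * (q1 * q2 * q3)| * (s ^ 2 * s) ≤ K * 27 := by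
    have e : |h3 * (q1 * q2 * q3)| * (s ^ 2 * s) =
        |h3| * ((|q1| * s) * (|q2| * s) * (|q3| * s)) := by
      rw [abs_mul, abs_mul, abs_mul]; ring
    rw [e]
    have m1 := mul_le_mul a1 a2 (mul_nonneg (abs_nonneg _) hs.le) (by norm_num)
    have m2 := mul_le_mul m1 a3 (mul_nonneg (abs_nonneg _) hs.le) (by norm_num)
    exact mul_le_mul k3 (by linarith) (by positivity) hK
  have t1 := abs_add_le (h1 * q123 + h2 * (q1 * q23 + q2 * q13 + q12 * q3)) (h3 * (q1 * q2 * q3))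
  have t2 := abs_add_le (h1 * q123) (h2 * (q1 * q23 + q2 * q13 + q12 * q3))
  have t3 : |h1 * q123 + h2 * (q1 * q23 + q2 * q13 + q12 * q3) + h3 * (q1 * q2 * q3)| ≤
      |h1 * q123| + |h2 * (q1 * q23 + q2 * q13 + q12 * q3)| + |h3 * (q1 * q2 * q3)| := by
    linarith
  have t4 := mul_le_mul_of_nonneg_right t3 hs3.le
  have t5 : 0 ≤ K * L := mul_nonneg hK hL
  nlinarith

theorem xe_sq (ϱ : V → ℝ) {δ : ℝ} (hδ : 0 < δ) (p : V × V) :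
    Real.sqrt (SS ϱ δ p) ^ 2 = SS ϱ δ p :=
  Real.sq_sqrt (SS_pos ϱ hδ p).le

theorem xe_NQ (ϱ : V → ℝ) {δ : ℝ} (hδ : 0 < δ) : xeN = fun p => xeQ ϱ δ p * SS ϱ δ p := by
  funext p
  unfold xeQ
  rw [div_mul_cancel₀ _ (SS_pos ϱ hδ p).ne']

theorem xe_bS1 {ϱ : V → ℝ} {δ L : ℝ} {p : V × V} (hR : RhoB ϱ δ L p) (σ : Bool) (i : Fin 3) :
    |ds σ i (SS ϱ δ) p| ≤ Real.sqrt (SS ϱ δ p) := by
  rw [xe_S1 hR.smooth]
  show |(1 / 2) * pd i (fun x => ϱ x ^ 2) (mid p.1 p.2)| ≤ _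
  rw [abs_mul, abs_of_pos (by norm_num : (0 : ℝ) < 1 / 2)]
  have h1 := xe_pd_sq hR.smooth hR.nonneg hR.lip i (mid p.1 p.2)
  have h2 : ϱ (mid p.1 p.2) ≤ Real.sqrt (SS ϱ δ p) := by
    apply Real.le_sqrt_of_sq_le
    unfold SS
    nlinarith [sq_nonneg δ]
  linarith

theorem xe_bS2 {ϱ : V → ℝ} {δ L : ℝ} {p : V × V} (hR : RhoB ϱ δ L p) (σ τ : Bool)
    (i j : Fin 3) : |ds σ i (ds τ j (SS ϱ δ)) p| ≤ 1 / 4 := by
  rw [xe_S2 hR.smooth]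
  show |(1 / 4) * pd i (pd j (fun x => ϱ x ^ 2)) (mid p.1 p.2)| ≤ _
  rw [abs_mul, abs_of_pos (by norm_num : (0 : ℝ) < 1 / 4)]
  have := hR.d2 i j
  linarith

theorem xe_bS3 {ϱ : V → ℝ} {δ L : ℝ} {p : V × V} (hR : RhoB ϱ δ L p) (σ τ υ : Bool)
    (i j k : Fin 3) :
    |ds σ i (ds τ j (ds υ k (SS ϱ δ))) p| * Real.sqrt (SS ϱ δ p) ≤ L / 8 := by
  rw [xe_S3 hR.smooth, abs_mul, abs_of_pos (by norm_num : (0 : ℝ) < 1 / 8)]
  have := hR.d3 i j k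
  linarith

theorem xe_bN1 {ϱ : V → ℝ} {δ : ℝ} (hδ : 0 < δ) {p : V × V} (hq : xeQ ϱ δ p ≤ 1) (σ : Bool)
    (i : Fin 3) : |ds σ i xeN p| ≤ 2 * Real.sqrt (SS ϱ δ p) := by
  rw [xe_N1]
  show |(2 * xeS σ) * xeL i p| ≤ _
  rw [abs_mul, abs_mul, xeS_abs, abs_of_pos (by norm_num : (0 : ℝ) < 2), mul_one]
  have h1 : |xeL i p| ≤ ‖p.1 - p.2‖ := by
    show |(p.1 - p.2) i| ≤ _
    have := EuclideanSpace.norm_eq (p.1 - p.2)
    have h2 := PiLp.norm_apply_le (p.1 - p.2) i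
    exact h2
  have h2 : ‖p.1 - p.2‖ ≤ Real.sqrt (SS ϱ δ p) := by
    apply Real.le_sqrt_of_sq_le
    unfold xeQ at hq
    rw [div_le_one (SS_pos ϱ hδ p)] at hq
    exact hq
  linarith

theorem xe_bN2 (σ τ : Bool) (i j : Fin 3) (p : V × V) : |ds σ i (ds τ j xeN) p| ≤ 2 := by
  rw [xe_N2]
  show |(2 * xeS τ) * xeL j (xeD σ i)| ≤ 2
  rw [abs_mul, abs_mul, xeS_abs, abs_of_pos (by norm_num : (0 : ℝ) < 2), mul_one]
  have := xeL_D j i σ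
  linarith

theorem xeQ_nonneg (ϱ : V → ℝ) {δ : ℝ} (hδ : 0 < δ) (p : V × V) : 0 ≤ xeQ ϱ δ p :=
  div_nonneg (sq_nonneg _) (SS_pos ϱ hδ p).le

theorem xe_q1 {ϱ : V → ℝ} {δ L : ℝ} {p : V × V} (hR : RhoB ϱ δ L p) (hq : xeQ ϱ δ p ≤ 1)
    (σ : Bool) (i : Fin 3) : |ds σ i (xeQ ϱ δ) p| * Real.sqrt (SS ϱ δ p) ≤ 3 := by
  have hs : 0 < Real.sqrt (SS ϱ δ p) := Real.sqrt_pos.2 (SS_pos ϱ hR.pos p)
  refine xe_a1 hs (xeQ_nonneg ϱ hR.pos p) hq (xe_bN1 hR.pos hq σ i) (xe_bS1 hR σ i) ?_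
  rw [xe_sq ϱ hR.pos]
  conv_lhs => rw [xe_NQ ϱ hR.pos]
  exact xe_mul (xeQ_smooth hR.smooth hR.pos) (SS_smooth hR.smooth δ) σ i p

theorem xe_q2 {ϱ : V → ℝ} {δ L : ℝ} {p : V × V} (hR : RhoB ϱ δ L p) (hq : xeQ ϱ δ p ≤ 1)
    (σ τ : Bool) (i j : Fin 3) :
    |ds σ i (ds τ j (xeQ ϱ δ)) p| * Real.sqrt (SS ϱ δ p) ^ 2 ≤ 9 := by
  have hs : 0 < Real.sqrt (SS ϱ δ p) := Real.sqrt_pos.2 (SS_pos ϱ hR.pos p)
  refine xe_a2 hs (xeQ_nonneg ϱ hR.pos p) hq (xe_bN2 σ τ i j p) (xe_bS1 hR σ i)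
    (xe_bS1 hR τ j) (xe_bS2 hR σ τ i j) (xe_q1 hR hq σ i) (xe_q1 hR hq τ j) ?_
  rw [xe_sq ϱ hR.pos]
  conv_lhs => rw [xe_NQ ϱ hR.pos]
  rw [xe_m2 (xeQ_smooth hR.smooth hR.pos) (SS_smooth hR.smooth δ) σ τ i j]

theorem xe_q3 {ϱ : V → ℝ} {δ L : ℝ} {p : V × V} (hL : 0 ≤ L) (hR : RhoB ϱ δ L p)
    (hq : xeQ ϱ δ p ≤ 1) (σ τ υ : Bool) (i j k : Fin 3) :
    |ds σ i (ds τ j (ds υ k (xeQ ϱ δ))) p| *
      (Real.sqrt (SS ϱ δ p) ^ 2 * Real.sqrt (SS ϱ δ p)) ≤ 30 * (1 + L) := by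
  have hs : 0 < Real.sqrt (SS ϱ δ p) := Real.sqrt_pos.2 (SS_pos ϱ hR.pos p)
  refine xe_a3 hs hL (xeQ_nonneg ϱ hR.pos p) hq (xe_bS1 hR σ i) (xe_bS1 hR τ j)
    (xe_bS1 hR υ k) (xe_bS2 hR σ τ i j) (xe_bS2 hR σ υ i k) (xe_bS2 hR τ υ j k)
    (xe_bS3 hR σ τ υ i j k) (xe_q1 hR hq σ i) (xe_q1 hR hq τ j) (xe_q1 hR hq υ k)
    (xe_q2 hR hq σ τ i j) (xe_q2 hR hq σ υ i k) (xe_q2 hR hq τ υ j k) ?_
  rw [xe_sq ϱ hR.pos, ← xe_N3 σ τ υ i j k p]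
  conv_lhs => rw [xe_NQ ϱ hR.pos]
  rw [xe_m3 (xeQ_smooth hR.smooth hR.pos) (SS_smooth hR.smooth δ) σ τ υ i j k]

theorem xe_eta (ϱ : V → ℝ) (δ : ℝ) : eta ϱ δ = fun x => chN (xeQ ϱ δ x) := rfl

theorem eta_d2 : ∃ K : ℝ, 0 < K ∧ ∀ (ϱ : V → ℝ) (δ L : ℝ) (p : V × V), 0 ≤ L → RhoB ϱ δ L p →
    ∀ (σ τ : Bool) (i j : Fin 3), |ds σ i (ds τ j (eta ϱ δ)) p| ≤ K / SS ϱ δ p := by
  obtain ⟨K, hK, hb⟩ := chN_bounds
  refine ⟨18 * K, by positivity, fun ϱ δ L p hL hR σ τ i j => ?_⟩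
  have hS := SS_pos ϱ hR.pos p
  have hs : 0 < Real.sqrt (SS ϱ δ p) := Real.sqrt_pos.2 hS
  rw [xe_eta, xe_f2 chN_smooth (xeQ_smooth hR.smooth hR.pos)]
  show |deriv chN (xeQ ϱ δ p) * ds σ i (ds τ j (xeQ ϱ δ)) p
      + deriv (deriv chN) (xeQ ϱ δ p) * (ds σ i (xeQ ϱ δ) p * ds τ j (xeQ ϱ δ) p)| ≤ _
  obtain ⟨b1, b2, b3, -, -, b4⟩ := hb (xeQ ϱ δ p)
  by_cases hc : xeQ ϱ δ p < 1 / 4 ∨ 1 < xeQ ϱ δ p
  · obtain ⟨c1, c2, c3⟩ := b4 hc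
    rw [c1, c2, zero_mul, zero_mul, add_zero, abs_zero]
    positivity
  · have hq : xeQ ϱ δ p ≤ 1 := by
      by_contra h
      exact hc (Or.inr (not_le.1 h))
    rw [le_div_iff₀ hS]
    have := xe_b2 hs hK.le b1 b2 (xe_q1 hR hq σ i) (xe_q1 hR hq τ j) (xe_q2 hR hq σ τ i j)
    rwa [xe_sq ϱ hR.pos] at this

theorem eta_d3 : ∃ K : ℝ, 0 < K ∧ ∀ (ϱ : V → ℝ) (δ L : ℝ) (p : V × V), 0 ≤ L → RhoB ϱ δ L p →
    ∀ (σ τ υ : Bool) (i j k : Fin 3), |ds σ i (ds τ j (ds υ k (eta ϱ δ))) p| ≤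
      K * (1 + L) / (SS ϱ δ p * Real.sqrt (SS ϱ δ p)) := by
  obtain ⟨K, hK, hb⟩ := chN_bounds
  refine ⟨138 * K, by positivity, fun ϱ δ L p hL hR σ τ υ i j k => ?_⟩
  have hS := SS_pos ϱ hR.pos p
  have hs : 0 < Real.sqrt (SS ϱ δ p) := Real.sqrt_pos.2 hS
  rw [xe_eta, xe_f3 chN_smooth (xeQ_smooth hR.smooth hR.pos)]
  obtain ⟨b1, b2, b3, -, -, b4⟩ := hb (xeQ ϱ δ p)
  by_cases hc : xeQ ϱ δ p < 1 / 4 ∨ 1 < xeQ ϱ δ p
  · obtain ⟨c1, c2, c3⟩ := b4 hc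
    rw [c1, c2, c3, zero_mul, zero_mul, zero_mul, add_zero, add_zero, abs_zero]
    positivity
  · have hq : xeQ ϱ δ p ≤ 1 := by
      by_contra h
      exact hc (Or.inr (not_le.1 h))
    rw [le_div_iff₀ (by positivity)]
    have := xe_b3 hs hK.le hL b1 b2 b3 (xe_q1 hR hq σ i) (xe_q1 hR hq τ j) (xe_q1 hR hq υ k)
      (xe_q2 hR hq σ τ i j) (xe_q2 hR hq σ υ i k) (xe_q2 hR hq τ υ j k)
      (xe_q3 hL hR hq σ τ υ i j k)
    rw [xe_sq ϱ hR.pos] at this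
    exact this

/-- off the transition zone all derivatives vanish -/
theorem eta_flat {ϱ : V → ℝ} (h : ContDiff ℝ (⊤ : ℕ∞) (fun v => ϱ v ^ 2)) {δ : ℝ} (hδ : 0 < δ)
    (p : V × V) (hp : 4 * ‖p.1 - p.2‖ ^ 2 < SS ϱ δ p ∨ SS ϱ δ p < ‖p.1 - p.2‖ ^ 2)
    (σ τ υ : Bool) (i j k : Fin 3) :
    ds σ i (eta ϱ δ) p = 0 ∧ ds σ i (ds τ j (eta ϱ δ)) p = 0 ∧
      ds σ i (ds τ j (ds υ k (eta ϱ δ))) p = 0 := by
  obtain ⟨K, hK, hb⟩ := chN_bounds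
  have hS := SS_pos ϱ hδ p
  have hc : xeQ ϱ δ p < 1 / 4 ∨ 1 < xeQ ϱ δ p := by
    unfold xeQ xeN
    rcases hp with h1 | h1
    · left
      rw [div_lt_iff₀ hS]
      linarith
    · right
      rw [lt_div_iff₀ hS]
      linarith
  obtain ⟨-, -, -, -, -, b4⟩ := hb (xeQ ϱ δ p)
  obtain ⟨c1, c2, c3⟩ := b4 hc
  have hq := xeQ_smooth h hδ
  refine ⟨?_, ?_, ?_⟩
  · rw [xe_eta, xe_comp chN_smooth hq, c1, zero_mul]
  · rw [xe_eta, xe_f2 chN_smooth hq]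
    show deriv chN (xeQ ϱ δ p) * ds σ i (ds τ j (xeQ ϱ δ)) p
      + deriv (deriv chN) (xeQ ϱ δ p) * (ds σ i (xeQ ϱ δ) p * ds τ j (xeQ ϱ δ) p) = 0
    rw [c1, c2, zero_mul, zero_mul, add_zero]
  · rw [xe_eta, xe_f3 chN_smooth hq, c1, c2, c3, zero_mul, zero_mul, zero_mul, add_zero, add_zero]

end Pool.Agent.LandauF
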