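import Pool.Agent.LandauF.NId
import Pool.Agent.Landau.CT1

/-!
# LandauF, module XId: the far identity in the variable `v`

For smooth symmetric `A_ij`, smooth `B_i`, `V_i = ∑_j A_ij X_j - B_i`, `X = ∇ log g`, `H = D² log g`,
`G = GG φ g`, `φ` smooth with compact support:
`-∫ g ∑ V_i ∂_i G = ∫ g { -2 φ A_ij H_ki H_kj - 2 φ ∂_k A_ij X_j H_ki - 2 φ_i X_k X_j ∂_k A_ij`
`+ |X|² (A_ij φ_ij + ∂_j A_ij φ_i + B_i φ_i) - 2 φ X_k ∂_k (div B) - 2 φ ∂_k B_i X_i X_k }`.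

Proof.  `G = -(2/g) ∂_k (φ g X_k) + φ |X|²`.  With `W = ∂_i V_i + X_i V_i = (1/g) ∂_i (g V_i)`:
`-∫ g V_i ∂_i G = ∫ g G W = 2 ∫ φ g X_k ∂_k W - ∫ g V_i ∂_i (φ |X|²)`.  The terms
`± 2 ∫ φ g V_i X_k H_ki` cancel: `= 2 ∫ φ g X_k ∂_k ∂_i V_i + 2 ∫ φ g X_k X_i ∂_k V_i - ∫ g V_i φ_i |X|²`, and
integrating the first by parts in `∂_i`:
`= -2 ∫ φ_i g X_k ∂_k V_i - 2 ∫ φ g H_ki ∂_k V_i - ∫ g V_i φ_i |X|²`.
Insert `∂_k V_i = ∂_k A_ij X_j + A_ij H_kj - ∂_k B_i`.  Then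
`-2 ∫ φ_i g X_k A_ij H_kj = -∫ φ_i g A_ij ∂_j |X|² = ∫ g |X|² (φ_ij A_ij + φ_i ∂_j A_ij + φ_i A_ij X_j)` and the last term
cancels with `-∫ g A_ij X_j φ_i |X|²`; `2 ∫ φ g H_ki ∂_k B_i = -2 ∫ X_k ∂_i (φ g ∂_k B_i)` (as `H_ki = ∂_i X_k`), whose part
with `φ_i` cancels `+2 ∫ φ_i g X_k ∂_k B_i`.  (Checked by an exact computer computation.)
-/

set_option autoImplicit false

namespace Pool.Agent.LandauF

open MeasureTheory Set Filter Topology Pool.Agent.Landau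


private theorem xi_comm {f : V → ℝ} (hf : ContDiff ℝ (⊤ : ℕ∞) f) (i j : Fin 3) (v : V) :
    pd i (pd j f) v = pd j (pd i f) v := by
  have hd : DifferentiableAt ℝ (fderiv ℝ f) v :=
    ((hf.fderiv_right (m := (⊤ : ℕ∞)) (by simp)).differentiable (by simp)) v
  have h1 : ∀ k l : Fin 3, pd k (pd l f) v =
      fderiv ℝ (fderiv ℝ f) v (EuclideanSpace.single k 1) (EuclideanSpace.single l 1) := by
    intro k l
    unfold pd
    rw [fderiv_clm_apply hd (differentiableAt_const _)]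
    simp
  rw [h1, h1]
  exact (hf.contDiffAt.isSymmSndFDerivAt (by simp; exact WithTop.coe_le_coe.2 (le_top : (2 : ℕ∞) ≤ ⊤))).eq _ _

private theorem xi_hpd {f : V → ℝ} (hf : ContDiff ℝ (⊤ : ℕ∞) f) (v : V) :
    HPd f v (fun i => pd i f v) := ⟨differentiable_of_smooth hf v, fun _ => rfl⟩

private theorem xi_g {g : V → ℝ} (hg : Dn g) (v : V) : HPd g v (fun i => g v * gam i g v) := by
  refine ⟨differentiable_of_smooth hg.cls.smooth v, fun i => ?_⟩
  have := (hg.pos v).ne'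
  unfold gam
  field_simp

private theorem xi_hsym {g : V → ℝ} (hg : Dn g) (i j : Fin 3) (v : V) :
    hs g i j v = hs g j i v := by
  have hlog : ContDiff ℝ (⊤ : ℕ∞) (fun x => Real.log (g x)) :=
    hg.cls.smooth.log (fun x => (hg.pos x).ne')
  have h : ∀ k : Fin 3, gam k g = pd k (fun x => Real.log (g x)) := by
    intro k
    funext x
    rw [pd_comp (differentiable_of_smooth hg.cls.smooth x) (Real.hasDerivAt_log (hg.pos x).ne')]
    unfold gam
    rw [div_eq_inv_mul]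
  unfold hs
  rw [h, h]
  exact xi_comm hlog i j v

private theorem xi_sum {f : Fin 3 → V → ℝ} {v : V} {d : Fin 3 → Fin 3 → ℝ}
    (h : ∀ k, HPd (f k) v (d k)) :
    HPd (fun x => ∑ k : Fin 3, f k x) v (fun i => ∑ k : Fin 3, d k i) := by
  simp only [Fin.sum_univ_three]
  exact ((h 0).add (h 1)).add (h 2)

private theorem xi_x2 {g : V → ℝ} (hg : Dn g) (v : V) :
    HPd (x2 g) v (fun i => 2 * ∑ k : Fin 3, gam k g v * hs g i k v) := by
  have h := xi_sum (f := fun k x => gam k g x * gam k g x) (v := v)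
    (fun k => (xi_hpd (gam_smooth hg k) v).mul (xi_hpd (gam_smooth hg k) v))
  refine h.congr ?_ ?_
  · funext x
    unfold x2
    simp only [sq]
  · intro i
    simp only [Fin.sum_univ_three, hs]
    ring

private theorem xi_x2s {g : V → ℝ} (hg : Dn g) : ContDiff ℝ (⊤ : ℕ∞) (x2 g) := by
  unfold x2
  exact ContDiff.sum fun i _ => (gam_smooth hg i).pow 2

private theorem xi_smul {g : V → ℝ} {v : V} {d : Fin 3 → ℝ} (c : ℝ) (h : HPd g v d) :
    HPd (fun x => c * g x) v (fun i => c * d i) := by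
  refine ((HPd.const c v).mul h).congr rfl ?_
  intro i
  ring

/-- the flux of the first step -/
private noncomputable def xiF (φ g : V → ℝ) (U : Fin 3 → V → ℝ) (m : Fin 3) (v : V) : ℝ :=
  (-1) * (g v * U m v * GG φ g v)
    + (-2) * (φ v * g v * gam m g v * ∑ i : Fin 3, (pd i (U i) v + gam i g v * U i v))
    + φ v * x2 g v * g v * U m v + 2 * (φ v * g v * ∑ k : Fin 3, gam k g v * pd k (U m) v)

/-- the flux of the second step -/
private noncomputable def xiE (φ g : V → ℝ) (A : Fin 3 → Fin 3 → V → ℝ) (B : Fin 3 → V → ℝ)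
    (m : Fin 3) (v : V) : ℝ :=
  (-1) * (g v * x2 g v * ∑ i : Fin 3, pd i φ v * A i m v)
    + 2 * (φ v * g v * ∑ k : Fin 3, gam k g v * pd k (B m) v)

private theorem xi_step1 {φ g : V → ℝ} (hφ : ContDiff ℝ (⊤ : ℕ∞) φ) (hg : Dn g)
    (U : Fin 3 → V → ℝ) (hU : ∀ i, ContDiff ℝ (⊤ : ℕ∞) (U i)) (v : V) :
    -(g v * ∑ i : Fin 3, U i v * pd i (GG φ g) v) - ∑ m : Fin 3, pd m (xiF φ g U m) v =
      -(g v * (2 * (∑ i : Fin 3, ∑ k : Fin 3, pd i φ v * gam k g v * pd k (U i) v)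
        + 2 * φ v * (∑ i : Fin 3, ∑ k : Fin 3, hs g k i v * pd k (U i) v)
        + x2 g v * ∑ i : Fin 3, U i v * pd i φ v)) := by
  have hF : ∀ m : Fin 3, HPd (xiF φ g U m) v _ := fun m =>
    ((((xi_smul (-1) ((((xi_g hg v).mul (xi_hpd (hU m) v)).mul
      (xi_hpd (GG_smooth hφ hg) v))))).add
      (xi_smul (-2) ((((xi_hpd hφ v).mul (xi_g hg v)).mul (xi_hpd (gam_smooth hg m) v)).mul
        (xi_sum (fun i => (xi_hpd (smooth_pd (hU i) i) v).add
          ((xi_hpd (gam_smooth hg i) v).mul (xi_hpd (hU i) v))))))).add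
      ((((xi_hpd hφ v).mul (xi_x2 hg v)).mul (xi_g hg v)).mul (xi_hpd (hU m) v))).add
      (xi_smul 2 (((xi_hpd hφ v).mul (xi_g hg v)).mul
        (xi_sum (fun k => (xi_hpd (gam_smooth hg k) v).mul (xi_hpd (smooth_pd (hU m) k) v)))))
  have e : ∀ i j : Fin 3, pd i (gam j g) v = hs g i j v := fun _ _ => rfl
  simp only [Fin.sum_univ_three]
  rw [(hF 0).2, (hF 1).2, (hF 2).2]
  simp only [Fin.sum_univ_three, e, GG, trh, x2]
  simp only [xi_comm (hU 0) 1 0 v, xi_comm (hU 0) 2 0 v, xi_comm (hU 0) 2 1 v,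
    xi_comm (hU 1) 1 0 v, xi_comm (hU 1) 2 0 v, xi_comm (hU 1) 2 1 v,
    xi_comm (hU 2) 1 0 v, xi_comm (hU 2) 2 0 v, xi_comm (hU 2) 2 1 v,
    xi_hsym hg 1 0 v, xi_hsym hg 2 0 v, xi_hsym hg 2 1 v]
  ring

private theorem xi_step2 {φ g : V → ℝ} (hφ : ContDiff ℝ (⊤ : ℕ∞) φ) (hg : Dn g)
    (A : Fin 3 → Fin 3 → V → ℝ) (B : Fin 3 → V → ℝ) (hA : ∀ i j, ContDiff ℝ (⊤ : ℕ∞) (A i j))
    (hB : ∀ i, ContDiff ℝ (⊤ : ℕ∞) (B i)) (v : V) :
    -(g v * (2 * (∑ i : Fin 3, ∑ k : Fin 3, pd i φ v * gam k g v *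
          pd k (fun x => (∑ j : Fin 3, A i j x * gam j g x) - B i x) v)
        + 2 * φ v * (∑ i : Fin 3, ∑ k : Fin 3, hs g k i v *
          pd k (fun x => (∑ j : Fin 3, A i j x * gam j g x) - B i x) v)
        + x2 g v * ∑ i : Fin 3, ((∑ j : Fin 3, A i j v * gam j g v) - B i v) * pd i φ v)) -
      ∑ m : Fin 3, pd m (xiE φ g A B m) v =
    g v * (-(2 * φ v * ∑ k : Fin 3, ∑ i : Fin 3, ∑ j : Fin 3,
        A i j v * hs g k i v * hs g k j v)
      - 2 * φ v * (∑ k : Fin 3, ∑ i : Fin 3, ∑ j : Fin 3,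
        pd k (A i j) v * gam j g v * hs g k i v)
      - 2 * (∑ k : Fin 3, ∑ i : Fin 3, ∑ j : Fin 3,
        pd i φ v * gam k g v * gam j g v * pd k (A i j) v)
      + x2 g v * ((∑ i : Fin 3, ∑ j : Fin 3, A i j v * pd i (pd j φ) v)
        + (∑ i : Fin 3, ∑ j : Fin 3, pd j (A i j) v * pd i φ v)
        + ∑ i : Fin 3, B i v * pd i φ v)
      - 2 * φ v * (∑ k : Fin 3, gam k g v * pd k (fun x => ∑ i : Fin 3, pd i (B i) x) v)
      - 2 * φ v * (∑ k : Fin 3, ∑ i : Fin 3, pd k (B i) v * gam i g v * gam k g v)) := by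
  have hF : ∀ m : Fin 3, HPd (xiE φ g A B m) v _ := fun m =>
    (xi_smul (-1) (((xi_g hg v).mul (xi_x2 hg v)).mul
      (xi_sum (fun i => (xi_hpd (smooth_pd hφ i) v).mul (xi_hpd (hA i m) v))))).add
      (xi_smul 2 (((xi_hpd hφ v).mul (xi_g hg v)).mul
        (xi_sum (fun k => (xi_hpd (gam_smooth hg k) v).mul (xi_hpd (smooth_pd (hB m) k) v)))))
  have hV : ∀ i : Fin 3, HPd (fun x => (∑ j : Fin 3, A i j x * gam j g x) - B i x) v _ := fun i =>
    (xi_sum (fun j => (xi_hpd (hA i j) v).mul (xi_hpd (gam_smooth hg j) v))).sub (xi_hpd (hB i) v)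
  have hdB : HPd (fun x => ∑ i : Fin 3, pd i (B i) x) v _ :=
    xi_sum (fun i => xi_hpd (smooth_pd (hB i) i) v)
  have e : ∀ i j : Fin 3, pd i (gam j g) v = hs g i j v := fun _ _ => rfl
  simp only [(hV _).2, hdB.2]
  simp only [Fin.sum_univ_three]
  rw [(hF 0).2, (hF 1).2, (hF 2).2]
  simp only [Fin.sum_univ_three, e]
  simp only [xi_comm (hB 0) 1 0 v, xi_comm (hB 0) 2 0 v, xi_comm (hB 0) 2 1 v,
    xi_comm (hB 1) 1 0 v, xi_comm (hB 1) 2 0 v, xi_comm (hB 1) 2 1 v,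
    xi_comm (hB 2) 1 0 v, xi_comm (hB 2) 2 0 v, xi_comm (hB 2) 2 1 v,
    xi_comm hφ 1 0 v, xi_comm hφ 2 0 v, xi_comm hφ 2 1 v,
    xi_hsym hg 1 0 v, xi_hsym hg 2 0 v, xi_hsym hg 2 1 v]
  ring

private theorem xi_out {φ : V → ℝ} {v : V} (hv : v ∉ tsupport φ) :
    φ v = 0 ∧ (∀ i, pd i φ v = 0) := by
  refine ⟨image_eq_zero_of_notMem_tsupport hv, fun i => ?_⟩
  have h : fderiv ℝ φ v = 0 := by
    by_contra h
    exact hv (support_fderiv_subset ℝ h)
  unfold pd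
  rw [h]
  simp

private theorem xi_div {F : V → ℝ} (hF : ContDiff ℝ 1 F) (hc : HasCompactSupport F) (m : Fin 3) :
    Integrable (pd m F) ∧ ∫ v, pd m F v = 0 := by
  refine ⟨(continuous_pd hF m).integrable_of_hasCompactSupport (compact_pd hc m), ?_⟩
  have h := ibp (u := fun _ => (1 : ℝ)) contDiff_const hF hc m
  have h0 : ∀ v : V, pd m (fun _ => (1 : ℝ)) v = 0 := fun v => (HPd.const 1 v).2 m
  simpa [h0] using h

private theorem xi_F {φ g : V → ℝ} (hφ : ContDiff ℝ (⊤ : ℕ∞) φ) (hc : HasCompactSupport φ)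
    (hg : Dn g) (U : Fin 3 → V → ℝ) (hU : ∀ i, ContDiff ℝ (⊤ : ℕ∞) (U i)) (m : Fin 3) :
    Integrable (pd m (xiF φ g U m)) ∧ ∫ v, pd m (xiF φ g U m) v = 0 := by
  refine xi_div (contDiff_one_of_smooth ?_) (HasCompactSupport.intro hc fun v hv => ?_) m
  · unfold xiF
    have h1 := hg.cls.smooth
    have h2 := GG_smooth hφ hg
    have h3 : ∀ k, ContDiff ℝ (⊤ : ℕ∞) (gam k g) := gam_smooth hg
    have h4 : ∀ i k, ContDiff ℝ (⊤ : ℕ∞) (pd k (U i)) := fun i k => smooth_pd (hU i) k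
    have h5 := xi_x2s hg
    have h6 : ContDiff ℝ (⊤ : ℕ∞)
        (fun v => ∑ i : Fin 3, (pd i (U i) v + gam i g v * U i v)) :=
      ContDiff.sum fun i _ => (h4 i i).add ((h3 i).mul (hU i))
    have h7 : ContDiff ℝ (⊤ : ℕ∞) (fun v => ∑ k : Fin 3, gam k g v * pd k (U m) v) :=
      ContDiff.sum fun k _ => (h3 k).mul (h4 m k)
    exact (((contDiff_const.mul ((h1.mul (hU m)).mul h2)).add
      (contDiff_const.mul (((hφ.mul h1).mul (h3 m)).mul h6))).add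
      (((hφ.mul h5).mul h1).mul (hU m))).add (contDiff_const.mul ((hφ.mul h1).mul h7))
  · obtain ⟨h0, h1⟩ := xi_out hv
    simp [xiF, GG, h0, h1]

private theorem xi_E {φ g : V → ℝ} (hφ : ContDiff ℝ (⊤ : ℕ∞) φ) (hc : HasCompactSupport φ)
    (hg : Dn g) (A : Fin 3 → Fin 3 → V → ℝ) (B : Fin 3 → V → ℝ)
    (hA : ∀ i j, ContDiff ℝ (⊤ : ℕ∞) (A i j)) (hB : ∀ i, ContDiff ℝ (⊤ : ℕ∞) (B i)) (m : Fin 3) :
    Integrable (pd m (xiE φ g A B m)) ∧ ∫ v, pd m (xiE φ g A B m) v = 0 := by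
  refine xi_div (contDiff_one_of_smooth ?_) (HasCompactSupport.intro hc fun v hv => ?_) m
  · unfold xiE
    have h1 := hg.cls.smooth
    have h3 : ∀ k, ContDiff ℝ (⊤ : ℕ∞) (gam k g) := gam_smooth hg
    have h5 := xi_x2s hg
    have h6 : ContDiff ℝ (⊤ : ℕ∞) (fun v => ∑ i : Fin 3, pd i φ v * A i m v) :=
      ContDiff.sum fun i _ => (smooth_pd hφ i).mul (hA i m)
    have h7 : ContDiff ℝ (⊤ : ℕ∞) (fun v => ∑ k : Fin 3, gam k g v * pd k (B m) v) :=
      ContDiff.sum fun k _ => (h3 k).mul (smooth_pd (hB m) k)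
    exact (contDiff_const.mul ((h1.mul h5).mul h6)).add (contDiff_const.mul ((hφ.mul h1).mul h7))
  · obtain ⟨h0, h1⟩ := xi_out hv
    simp [xiE, h0, h1]

/-- The far identity. -/
theorem far_id {φ g : V → ℝ} (hφ : ContDiff ℝ (⊤ : ℕ∞) φ) (hc : HasCompactSupport φ) (hg : Dn g)
    (A : Fin 3 → Fin 3 → V → ℝ) (B : Fin 3 → V → ℝ) (hA : ∀ i j, ContDiff ℝ (⊤ : ℕ∞) (A i j))
    (hs' : ∀ i j v, A i j v = A j i v) (hB : ∀ i, ContDiff ℝ (⊤ : ℕ∞) (B i)) :
    -∫ v, g v * ∑ i : Fin 3, ((∑ j : Fin 3, A i j v * gam j g v) - B i v) * pd i (GG φ g) v =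
    ∫ v, g v * (-(2 * φ v * ∑ k : Fin 3, ∑ i : Fin 3, ∑ j : Fin 3,
        A i j v * hs g k i v * hs g k j v)
      - 2 * φ v * (∑ k : Fin 3, ∑ i : Fin 3, ∑ j : Fin 3,
        pd k (A i j) v * gam j g v * hs g k i v)
      - 2 * (∑ k : Fin 3, ∑ i : Fin 3, ∑ j : Fin 3,
        pd i φ v * gam k g v * gam j g v * pd k (A i j) v)
      + x2 g v * ((∑ i : Fin 3, ∑ j : Fin 3, A i j v * pd i (pd j φ) v)
        + (∑ i : Fin 3, ∑ j : Fin 3, pd j (A i j) v * pd i φ v)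
        + ∑ i : Fin 3, B i v * pd i φ v)
      - 2 * φ v * (∑ k : Fin 3, gam k g v * pd k (fun x => ∑ i : Fin 3, pd i (B i) x) v)
      - 2 * φ v * (∑ k : Fin 3, ∑ i : Fin 3, pd k (B i) v * gam i g v * gam k g v)) := by
  set U : Fin 3 → V → ℝ := fun i v => (∑ j : Fin 3, A i j v * gam j g v) - B i v with hUdef
  have hU : ∀ i, ContDiff ℝ (⊤ : ℕ∞) (U i) := fun i =>
    (ContDiff.sum fun j _ => (hA i j).mul (gam_smooth hg j)).sub (hB i)
  have key : ∀ v, g v * (-(2 * φ v * ∑ k : Fin 3, ∑ i : Fin 3, ∑ j : Fin 3,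
        A i j v * hs g k i v * hs g k j v)
      - 2 * φ v * (∑ k : Fin 3, ∑ i : Fin 3, ∑ j : Fin 3,
        pd k (A i j) v * gam j g v * hs g k i v)
      - 2 * (∑ k : Fin 3, ∑ i : Fin 3, ∑ j : Fin 3,
        pd i φ v * gam k g v * gam j g v * pd k (A i j) v)
      + x2 g v * ((∑ i : Fin 3, ∑ j : Fin 3, A i j v * pd i (pd j φ) v)
        + (∑ i : Fin 3, ∑ j : Fin 3, pd j (A i j) v * pd i φ v)
        + ∑ i : Fin 3, B i v * pd i φ v)
      - 2 * φ v * (∑ k : Fin 3, gam k g v * pd k (fun x => ∑ i : Fin 3, pd i (B i) x) v)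
      - 2 * φ v * (∑ k : Fin 3, ∑ i : Fin 3, pd k (B i) v * gam i g v * gam k g v)) =
      -(g v * ∑ i : Fin 3, U i v * pd i (GG φ g) v) -
        ((∑ m : Fin 3, pd m (xiF φ g U m) v) + ∑ m : Fin 3, pd m (xiE φ g A B m) v) := by
    intro v
    have h1 := xi_step1 hφ hg U hU v
    have h2 := xi_step2 hφ hg A B hA hB v
    rw [← h2]
    linarith [h1]
  have hI : Integrable (fun v => -(g v * ∑ i : Fin 3, U i v * pd i (GG φ g) v)) := by
    refine (Continuous.integrable_of_hasCompactSupport ?_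
      (HasCompactSupport.intro (hc) fun v hv => ?_))
    · exact (hg.cls.smooth.continuous.mul (continuous_finset_sum _ fun i _ =>
        (hU i).continuous.mul (smooth_pd (GG_smooth hφ hg) i).continuous)).neg
    · have hG : v ∉ tsupport (GG φ g) := by
        intro h
        refine hv (closure_minimal ?_ (isClosed_tsupport φ) h)
        intro x hx
        by_contra hx'
        obtain ⟨h0, h1⟩ := xi_out hx'
        exact hx (by simp [GG, h0, h1])
      simp [(xi_out hG).2]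
  have hD : Integrable (fun v => (∑ m : Fin 3, pd m (xiF φ g U m) v)
      + ∑ m : Fin 3, pd m (xiE φ g A B m) v) :=
    (integrable_finset_sum _ fun m _ => (xi_F hφ hc hg U hU m).1).add
      (integrable_finset_sum _ fun m _ => (xi_E hφ hc hg A B hA hB m).1)
  have hD0 : ∫ v, ((∑ m : Fin 3, pd m (xiF φ g U m) v)
      + ∑ m : Fin 3, pd m (xiE φ g A B m) v) = 0 := by
    rw [integral_add (integrable_finset_sum _ fun m _ => (xi_F hφ hc hg U hU m).1)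
      (integrable_finset_sum _ fun m _ => (xi_E hφ hc hg A B hA hB m).1),
      integral_finset_sum _ fun m _ => (xi_F hφ hc hg U hU m).1,
      integral_finset_sum _ fun m _ => (xi_E hφ hc hg A B hA hB m).1]
    simp [(xi_F hφ hc hg U hU _).2, (xi_E hφ hc hg A B hA hB _).2]
  rw [integral_congr_ae (Eventually.of_forall key), integral_sub hI hD, hD0, integral_neg, sub_zero]

end Pool.Agent.LandauF
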