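import Pool.Agent.LandauF.XKerB
import Pool.Agent.LandauF.XKerC
import Pool.Agent.LandauF.NAdm

/-!
# LandauF, module XPt: the pointwise far bound

`r = ‖v - w‖`.  If `4 r² < SS` all kernels vanish at `p` (`kf_near`) and the right side is `≥ 0`.  Otherwise
`ϱ(mid) ≤ 2 r`, `ϱ(v) ≤ ϱ(mid) + ε₀ r ≤ 4 r`, so `kF ϱ v w = 1/r`, and `r⁻¹ ≤ 4/ϱ(v)`.
Main term: `kf_quad`: `-2 φ (1/(16π)) (1-eta) HZ/r³`; `kf_struct` and Young:
`2 φ |∑ ∂kf X H| ≤ φ (1/(16π)) ... (1 - eta) HZ / r³ ·(small) + C φ |X|² r⁻³`, leaving `-(1/100)` (`1/(8π) = 0.0397`).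
Weight terms: `|∂φ(v)| ≤ κ φ`, `|∂²φ(v)| ϱ ≤ κ φ`, `κ ϱ ≤ ε₀` where `φ ≠ 0`; each is
`≤ C φ |X|²/(ϱ² r)`.  Where `φ(v) = 0`: `∂φ(v) = 0` by `d1`, and `∂²φ(v) = 0` (if `ϱ(v) > 0` by `d2`, if
`ϱ(v) = 0` because `0 ≤ φ(x) ≤ K ϱ(x)⁶ ≤ K ‖x - v‖⁶`), so `InF = 0`.
Last terms: `|∂ be| ≤ C r⁻³ ≤ C/(ϱ² r)`, and `φ |X| |∂ dbe| ≤ C φ |X| r⁻⁴ ≤ C φ (|X|² r⁻³ + r⁻⁵) ≤ C φ (|X|²/(ϱ² r) + 1/(ϱ⁴ r))`.
`kf_size` is used with `L = 2` if `δ < ϱ(mid)` (`r3`, `SS ≤ 2 ϱ(mid)²`), and if `SS < r²` with any `L`, the third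
derivative term then being `0`.
-/

set_option autoImplicit false

namespace Pool.Agent.LandauF

open MeasureTheory Set Filter Topology Pool.Agent.Landau

private theorem fp_der {ε : ℝ} (hε1 : ε ≤ 1) {φ ϱ κ : V → ℝ} (hA : Adm ε φ ϱ κ) (v : V)
    (h0 : φ v = 0) (i j : Fin 3) : pd i φ v = 0 ∧ pd i (pd j φ) v = 0 := by
  have hself : ∀ x : V, ‖x - x‖ ≤ 4 * ϱ x := by
    intro x
    rw [sub_self, norm_zero]
    have := hA.rnonneg x
    linarith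
  have hd1 : ∀ (x : V) (l : Fin 3), |pd l φ x| ≤ κ x * φ x := fun x l => hA.d1 x x (hself x) l
  constructor
  · have h := hd1 v i
    rw [h0, mul_zero] at h
    exact abs_nonpos_iff.mp h
  · rcases (hA.rnonneg v).lt_or_eq with hr | hr
    · have h := hA.d2 v v (hself v) i j
      rw [h0, mul_zero] at h
      have h2 : |pd i (pd j φ) v| ≤ 0 := by
        by_contra hc
        push Not at hc
        have := mul_pos hc hr
        linarith
      exact abs_nonpos_iff.mp h2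
    · obtain ⟨K, hK⟩ := hA.dom
      have hb : ∀ x : V, |pd j φ x| ≤ |K| * ‖x - v‖ ^ 5 := by
        intro x
        have hx := hd1 x j
        by_cases hφ : φ x = 0
        · rw [hφ, mul_zero] at hx
          exact hx.trans (by positivity)
        · have hρ := hA.rpos x hφ
          have hκ := hA.krho x hφ
          have hφ0 := hA.nonneg x
          have hφK : φ x ≤ |K| * ϱ x ^ 6 := (hK x).trans
            (mul_le_mul_of_nonneg_right (le_abs_self K) (by positivity))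
          have hlip := hA.rlip x v
          rw [← hr, sub_zero, abs_of_pos hρ] at hlip
          have hlip2 : ϱ x ≤ ‖x - v‖ := by
            refine hlip.trans ?_
            have := norm_nonneg (x - v)
            nlinarith
          have h1 : |pd j φ x| * ϱ x ≤ (|K| * ϱ x ^ 5) * ϱ x := by
            calc |pd j φ x| * ϱ x ≤ (κ x * φ x) * ϱ x := mul_le_mul_of_nonneg_right hx hρ.le
              _ = (κ x * ϱ x) * φ x := by ring
              _ ≤ 1 * φ x := mul_le_mul_of_nonneg_right (hκ.trans hε1) hφ0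
              _ ≤ (|K| * ϱ x ^ 5) * ϱ x := by
                rw [one_mul]
                refine hφK.trans (le_of_eq ?_)
                ring
          have h2 := le_of_mul_le_mul_right h1 hρ
          refine h2.trans ?_
          exact mul_le_mul_of_nonneg_left (pow_le_pow_left₀ hρ.le hlip2 5) (abs_nonneg K)
      have hO : (pd j φ) =O[𝓝 v] fun x => ‖x - v‖ ^ 5 := by
        refine Asymptotics.IsBigO.of_bound |K| (Filter.Eventually.of_forall fun x => ?_)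
        rw [Real.norm_eq_abs, Real.norm_eq_abs, abs_of_nonneg (by positivity : 0 ≤ ‖x - v‖ ^ 5)]
        exact hb x
      have hF := hO.hasFDerivAt (𝕜 := ℝ) (by norm_num)
      show fderiv ℝ (pd j φ) v (EuclideanSpace.single i 1) = 0
      rw [hF.fderiv]
      rfl

private theorem fp_s1 (f : Fin 3 → ℝ) (B : ℝ) (h : ∀ k, |f k| ≤ B) : |∑ k, f k| ≤ 3 * B := by
  refine (Finset.abs_sum_le_sum_abs _ _).trans ?_
  refine (Finset.sum_le_sum fun k _ => h k).trans (le_of_eq ?_)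
  rw [Finset.sum_const, Finset.card_univ, Fintype.card_fin, nsmul_eq_mul]
  norm_num

private theorem fp_s2 (f : Fin 3 → Fin 3 → ℝ) (B : ℝ) (h : ∀ k i, |f k i| ≤ B) :
    |∑ k, ∑ i, f k i| ≤ 9 * B := by
  have := fp_s1 _ (3 * B) fun k => fp_s1 _ B (h k)
  linarith

private theorem fp_s3 (f : Fin 3 → Fin 3 → Fin 3 → ℝ) (B : ℝ) (h : ∀ k i j, |f k i j| ≤ B) :
    |∑ k, ∑ i, ∑ j, f k i j| ≤ 27 * B := by
  have := fp_s1 _ (9 * B) fun k => fp_s2 _ B (h k)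
  linarith

/-- products of the components of the score -/
private theorem fp_xx (g : V → ℝ) (v : V) (i j : Fin 3) :
    |gam i g v * gam j g v| ≤ x2 g v := by
  have h : ∀ l : Fin 3, gam l g v ^ 2 ≤ x2 g v := fun l =>
    Finset.single_le_sum (f := fun i => gam i g v ^ 2) (fun _ _ => sq_nonneg _)
      (Finset.mem_univ l)
  rw [abs_mul]
  have h1 := h i
  have h2 := h j
  rw [← sq_abs] at h1 h2
  nlinarith [sq_nonneg (|gam i g v| - |gam j g v|)]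

/-- the hypotheses for the far kernels -/
private theorem fp_rho : ∃ C : ℝ, 0 < C ∧ ∀ (ε₀ : ℝ) (φ ϱ κ : V → ℝ), ε₀ ≤ 1 → Adm ε₀ φ ϱ κ →
    ∀ (δ : ℝ) (p : V × V), 0 < δ → p.1 ≠ p.2 →
      (δ < ϱ (mid p.1 p.2) ∨ SS ϱ δ p < ‖p.1 - p.2‖ ^ 2) → ∃ L : ℝ, 0 ≤ L ∧ RhoB ϱ δ L p ∧
      ∀ i j k : Fin 3,
      |kf ϱ δ i j p| ≤ C / ‖p.1 - p.2‖ ∧ |dv k (kf ϱ δ i j) p| ≤ C / ‖p.1 - p.2‖ ^ 2 ∧
      |be ϱ δ i p| ≤ C / ‖p.1 - p.2‖ ^ 2 ∧ |dv k (be ϱ δ i) p| ≤ C / ‖p.1 - p.2‖ ^ 3 ∧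
      |dv k (dbe ϱ δ) p| ≤ C / ‖p.1 - p.2‖ ^ 4 := by
  obtain ⟨C, hC, hs⟩ := kf_size
  refine ⟨3 * C, by positivity, fun ε₀ φ ϱ κ hε hA δ p hδ hp hor => ?_⟩
  have hr : 0 < ‖p.1 - p.2‖ := norm_pos_iff.mpr (sub_ne_zero.mpr hp)
  have hlip : ∀ v w, |ϱ v - ϱ w| ≤ ‖v - w‖ := by
    intro v w
    refine (hA.rlip v w).trans ?_
    have := norm_nonneg (v - w)
    nlinarith
  have hle : ∀ m : ℕ, C / ‖p.1 - p.2‖ ^ m ≤ 3 * C / ‖p.1 - p.2‖ ^ m := by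
    intro m
    gcongr
    linarith
  have hle1 : C / ‖p.1 - p.2‖ ≤ 3 * C / ‖p.1 - p.2‖ := by
    gcongr
    linarith
  have hSS : SS ϱ δ p = ϱ (mid p.1 p.2) ^ 2 + δ ^ 2 := rfl
  rcases hor with h1 | h1
  · have hρ0 := hA.rnonneg (mid p.1 p.2)
    have hs2 : Real.sqrt (SS ϱ δ p) ≤ 2 * ϱ (mid p.1 p.2) := by
      rw [Real.sqrt_le_left (by positivity), hSS]
      nlinarith
    have hR : RhoB ϱ δ 2 p := ⟨hA.rsmooth, hA.rnonneg, hlip, hδ, fun i j => hA.r2 _ i j,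
      fun i j k => by
        have h2 := hA.r3 (mid p.1 p.2) i j k
        have h3 := mul_le_mul_of_nonneg_left hs2
          (abs_nonneg (pd i (pd j (pd k (fun x => ϱ x ^ 2))) (mid p.1 p.2)))
        nlinarith⟩
    refine ⟨2, by norm_num, hR, fun i j k => ?_⟩
    obtain ⟨a1, a2, a3, a4, a5, -⟩ := hs ϱ δ 2 p (by norm_num) hR hp i j k
    refine ⟨a1.trans hle1, a2.trans (hle 2), a3.trans (hle 2), a4.trans (hle 3),
      a5.trans (le_of_eq ?_)⟩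
    ring
  · obtain ⟨L, hL⟩ : ∃ L : ℝ, L = ∑ i : Fin 3, ∑ j : Fin 3, ∑ k : Fin 3,
      |pd i (pd j (pd k (fun x => ϱ x ^ 2))) (mid p.1 p.2)| * Real.sqrt (SS ϱ δ p) := ⟨_, rfl⟩
    have hL0 : 0 ≤ L := by
      rw [hL]
      positivity
    have hR : RhoB ϱ δ L p := ⟨hA.rsmooth, hA.rnonneg, hlip, hδ, fun i j => hA.r2 _ i j,
      fun i j k => by
        rw [hL]
        refine le_trans ?_ (Finset.single_le_sum (f := fun i => ∑ j : Fin 3, ∑ k : Fin 3,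
          |pd i (pd j (pd k (fun x => ϱ x ^ 2))) (mid p.1 p.2)| * Real.sqrt (SS ϱ δ p))
          (fun _ _ => by positivity) (Finset.mem_univ i))
        refine le_trans ?_ (Finset.single_le_sum (f := fun j => ∑ k : Fin 3,
          |pd i (pd j (pd k (fun x => ϱ x ^ 2))) (mid p.1 p.2)| * Real.sqrt (SS ϱ δ p))
          (fun _ _ => by positivity) (Finset.mem_univ j))
        exact Finset.single_le_sum (f := fun k =>
          |pd i (pd j (pd k (fun x => ϱ x ^ 2))) (mid p.1 p.2)| * Real.sqrt (SS ϱ δ p))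
          (fun _ _ => by positivity) (Finset.mem_univ k)⟩
    refine ⟨L, hL0, hR, fun i j k => ?_⟩
    obtain ⟨a1, a2, a3, a4, -, a6⟩ := hs ϱ δ L p hL0 hR hp i j k
    refine ⟨a1.trans hle1, a2.trans (hle 2), a3.trans (hle 2), a4.trans (hle 3), ?_⟩
    rw [a6 h1, abs_zero]
    positivity

/-- the algebra -/
private theorem fp_alg {Φ x κ u y ρ r E hz C₁ C₂ t1 t2 t3 t4 t5 t6 t7 t8 : ℝ}
    (hΦ : 0 ≤ Φ) (hx : 0 ≤ x) (hκ : 0 ≤ κ) (hρ : 0 < ρ) (hr : 0 < r) (hE : 0 ≤ E)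
    (hz0 : 0 ≤ hz) (hC₁ : 0 < C₁) (hρr : ρ ≤ 4 * r) (hκρ : κ * ρ ≤ 1) (hu : u = r⁻¹)
    (hy : y = ρ⁻¹)
    (h1 : t1 = (1 / (16 * Real.pi)) * (E / r ^ 3) * hz)
    (h2 : |t2| ≤ C₂ * Real.sqrt E / r ^ 3 * Real.sqrt hz * Real.sqrt x)
    (h3 : |t3| ≤ 27 * (κ * Φ * x * (C₁ / r ^ 2)))
    (h4 : |t4| ≤ 9 * (C₁ / r * (κ * Φ / ρ)))
    (h5 : |t5| ≤ 9 * (C₁ / r ^ 2 * (κ * Φ)))
    (h6 : |t6| ≤ 3 * (C₁ / r ^ 2 * (κ * Φ)))
    (h7 : |t7| ≤ 3 * (C₁ * (x / r ^ 3 + 1 / r ^ 5)))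
    (h8 : |t8| ≤ 9 * (C₁ / r ^ 3 * x)) :
    -(2 * Φ * t1) - 2 * Φ * t2 - 2 * t3 + x * (t4 + t5 + t6) - 2 * Φ * t7 - 2 * Φ * t8 ≤
      -((1 / 100) * (Φ * E * hz / r ^ 3)) + (800 * C₂ ^ 2 + 2500 * C₁) *
        (Φ * (x * (1 / r / ρ ^ 2) + 1 / r / ρ ^ 4)) := by
  have hu0 : 0 < u := by rw [hu]; positivity
  have hy0 : 0 < y := by rw [hy]; positivity
  have huy : u ≤ 4 * y := by
    rw [hu, hy, ← one_div, ← one_div, div_le_iff₀ hr]
    have : 4 * (1 / ρ) * r = 4 * r / ρ := by ring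
    rw [this, le_div_iff₀ hρ]
    linarith
  have hκy : κ ≤ y := by
    rw [hy, ← one_div, le_div_iff₀ hρ]
    exact hκρ
  -- rewrite everything with `u` and `y`
  have e1 : ∀ c : ℝ, c / r = c * u := fun c => by rw [hu, div_eq_mul_inv]
  have e2 : ∀ (c : ℝ) (m : ℕ), c / r ^ m = c * u ^ m := fun c m => by
    rw [hu, div_eq_mul_inv, inv_pow]
  have e3 : ∀ (c : ℝ) (m : ℕ), c / ρ ^ m = c * y ^ m := fun c m => by
    rw [hy, div_eq_mul_inv, inv_pow]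
  have e4 : ∀ c : ℝ, c / ρ = c * y := fun c => by rw [hy, div_eq_mul_inv]
  simp only [e1, e2, e3, e4, one_mul] at h1 h2 h3 h4 h5 h6 h7 h8 ⊢
  -- the basic comparisons
  have k1 : u ^ 2 ≤ 16 * y ^ 2 := by nlinarith
  have k2 : u ^ 4 ≤ 256 * y ^ 4 := by
    have : (u ^ 2) ^ 2 ≤ (16 * y ^ 2) ^ 2 := pow_le_pow_left₀ (by positivity) k1 2
    nlinarith
  have hΦx : 0 ≤ Φ * x := mul_nonneg hΦ hx
  have A3 : Φ * x * u ^ 3 ≤ 16 * (Φ * x * (u * y ^ 2)) := by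
    have : Φ * x * u * u ^ 2 ≤ Φ * x * u * (16 * y ^ 2) :=
      mul_le_mul_of_nonneg_left k1 (by positivity)
    linarith
  have Ak2 : κ * Φ * x * u ^ 2 ≤ 4 * (Φ * x * (u * y ^ 2)) := by
    have a : κ * u ≤ y * (4 * y) := mul_le_mul hκy huy hu0.le hy0.le
    have : Φ * x * u * (κ * u) ≤ Φ * x * u * (y * (4 * y)) :=
      mul_le_mul_of_nonneg_left a (by positivity)
    linarith
  have Ak1 : κ * Φ * x * (u * y) ≤ Φ * x * (u * y ^ 2) := by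
    have : Φ * x * u * y * κ ≤ Φ * x * u * y * y := mul_le_mul_of_nonneg_left hκy (by positivity)
    linarith
  have B5 : Φ * u ^ 5 ≤ 256 * (Φ * (u * y ^ 4)) := by
    have : Φ * u * u ^ 4 ≤ Φ * u * (256 * y ^ 4) := mul_le_mul_of_nonneg_left k2 (by positivity)
    linarith
  have nA : 0 ≤ Φ * x * (u * y ^ 2) := by positivity
  have nB : 0 ≤ Φ * (u * y ^ 4) := by positivity
  -- the second term
  have T2 : 2 * Φ * |t2| ≤ (1 / 50) * (Φ * E * hz * u ^ 3) + 50 * C₂ ^ 2 * (Φ * x * u ^ 3) := by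
    obtain ⟨a, ha⟩ : ∃ a, a = Real.sqrt E * Real.sqrt hz := ⟨_, rfl⟩
    obtain ⟨b, hb⟩ : ∃ b, b = C₂ * Real.sqrt x := ⟨_, rfl⟩
    have ha2 : a ^ 2 = E * hz := by rw [ha, mul_pow, Real.sq_sqrt hE, Real.sq_sqrt hz0]
    have hb2 : b ^ 2 = C₂ ^ 2 * x := by rw [hb, mul_pow, Real.sq_sqrt hx]
    have h2' : |t2| ≤ u ^ 3 * (a * b) := by
      refine h2.trans (le_of_eq ?_)
      rw [ha, hb]
      ring
    have hab : 2 * (a * b) ≤ (1 / 50) * (E * hz) + 50 * (C₂ ^ 2 * x) := by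
      rw [← ha2, ← hb2]
      nlinarith [sq_nonneg (a - 50 * b)]
    have h9 : 2 * Φ * |t2| ≤ Φ * u ^ 3 * (2 * (a * b)) := by
      have := mul_le_mul_of_nonneg_left h2' (by positivity : (0 : ℝ) ≤ 2 * Φ)
      linarith
    have h10 := mul_le_mul_of_nonneg_left hab (by positivity : (0 : ℝ) ≤ Φ * u ^ 3)
    linarith
  have hC2 : 0 ≤ C₂ ^ 2 := sq_nonneg _
  have T2' : 50 * C₂ ^ 2 * (Φ * x * u ^ 3) ≤ 800 * C₂ ^ 2 * (Φ * x * (u * y ^ 2)) := by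
    have := mul_le_mul_of_nonneg_left A3 (by positivity : (0 : ℝ) ≤ 50 * C₂ ^ 2)
    linarith
  have T3 : 2 * |t3| ≤ 216 * C₁ * (Φ * x * (u * y ^ 2)) := by
    have := mul_le_mul_of_nonneg_left Ak2 (by positivity : (0 : ℝ) ≤ 54 * C₁)
    linarith
  have T4 : x * |t4| ≤ 9 * C₁ * (Φ * x * (u * y ^ 2)) := by
    have a := mul_le_mul_of_nonneg_left h4 hx
    have := mul_le_mul_of_nonneg_left Ak1 (by positivity : (0 : ℝ) ≤ 9 * C₁)
    linarith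
  have T5 : x * |t5| ≤ 36 * C₁ * (Φ * x * (u * y ^ 2)) := by
    have a := mul_le_mul_of_nonneg_left h5 hx
    have := mul_le_mul_of_nonneg_left Ak2 (by positivity : (0 : ℝ) ≤ 9 * C₁)
    linarith
  have T6 : x * |t6| ≤ 12 * C₁ * (Φ * x * (u * y ^ 2)) := by
    have a := mul_le_mul_of_nonneg_left h6 hx
    have := mul_le_mul_of_nonneg_left Ak2 (by positivity : (0 : ℝ) ≤ 3 * C₁)
    linarith
  have T7 : 2 * Φ * |t7| ≤ 96 * C₁ * (Φ * x * (u * y ^ 2)) + 1536 * C₁ * (Φ * (u * y ^ 4)) := by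
    have a := mul_le_mul_of_nonneg_left h7 (by positivity : (0 : ℝ) ≤ 2 * Φ)
    have b := mul_le_mul_of_nonneg_left A3 (by positivity : (0 : ℝ) ≤ 6 * C₁)
    have c := mul_le_mul_of_nonneg_left B5 (by positivity : (0 : ℝ) ≤ 6 * C₁)
    linarith
  have T8 : 2 * Φ * |t8| ≤ 288 * C₁ * (Φ * x * (u * y ^ 2)) := by
    have a := mul_le_mul_of_nonneg_left h8 (by positivity : (0 : ℝ) ≤ 2 * Φ)
    have b := mul_le_mul_of_nonneg_left A3 (by positivity : (0 : ℝ) ≤ 18 * C₁)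
    linarith
  have T1 : (3 / 100) * (Φ * E * hz * u ^ 3) ≤ 2 * Φ * t1 := by
    have hπ : (3 : ℝ) / 100 ≤ 2 * (1 / (16 * Real.pi)) := by
      have h11 := Real.pi_lt_four
      have h12 := Real.pi_pos
      have e : 2 * (1 / (16 * Real.pi)) = 1 / (8 * Real.pi) := by
        field_simp
        norm_num
      rw [e, div_le_div_iff₀ (by norm_num) (by positivity)]
      linarith
    have := mul_le_mul_of_nonneg_right hπ (by positivity : (0 : ℝ) ≤ Φ * E * hz * u ^ 3)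
    rw [h1]
    linarith
  have nE : 0 ≤ Φ * E * hz * u ^ 3 := by positivity
  have s2 : -(2 * Φ * t2) ≤ 2 * Φ * |t2| := by
    have := mul_le_mul_of_nonneg_left (neg_le_abs t2) (by positivity : (0 : ℝ) ≤ 2 * Φ)
    linarith
  have s3 := neg_le_abs t3
  have s4 := mul_le_mul_of_nonneg_left (le_abs_self t4) hx
  have s5 := mul_le_mul_of_nonneg_left (le_abs_self t5) hx
  have s6 := mul_le_mul_of_nonneg_left (le_abs_self t6) hx
  have s7 : -(2 * Φ * t7) ≤ 2 * Φ * |t7| := by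
    have := mul_le_mul_of_nonneg_left (neg_le_abs t7) (by positivity : (0 : ℝ) ≤ 2 * Φ)
    linarith
  have s8 : -(2 * Φ * t8) ≤ 2 * Φ * |t8| := by
    have := mul_le_mul_of_nonneg_left (neg_le_abs t8) (by positivity : (0 : ℝ) ≤ 2 * Φ)
    linarith
  have nC1 : 0 ≤ C₁ * (Φ * x * (u * y ^ 2)) := by positivity
  have nC2 : 0 ≤ C₁ * (Φ * (u * y ^ 4)) := by positivity
  have nC3 : 0 ≤ C₂ ^ 2 * (Φ * (u * y ^ 4)) := by positivity
  nlinarith

/-- The pointwise far bound. -/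
theorem far_pt : ∃ C ε₀ : ℝ, 0 < C ∧ 0 < ε₀ ∧
    ∀ φ ϱ κ g : V → ℝ, Adm ε₀ φ ϱ κ → Dn g → ∀ (δ : ℝ) (p : V × V),
      0 < δ → p.1 ≠ p.2 → (δ < ϱ (mid p.1 p.2) ∨ SS ϱ δ p < ‖p.1 - p.2‖ ^ 2) →
      InF ϱ δ φ g p ≤
        -((1 / 100) * (φ p.1 * FF g p * (1 - eta ϱ δ p) * HZ g p.1 p.2 / ‖p.1 - p.2‖ ^ 3))
        + C * (φ p.1 * FF g p * (x2 g p.1 * (kF ϱ p.1 p.2 / ϱ p.1 ^ 2)
          + kF ϱ p.1 p.2 / ϱ p.1 ^ 4)) := by
  obtain ⟨C₁, hC₁, hk⟩ := fp_rho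
  obtain ⟨C₂, hC₂, hst⟩ := kf_struct
  refine ⟨800 * C₂ ^ 2 + 2500 * C₁, 1 / 100, by positivity, by norm_num,
    fun φ ϱ κ g hA hg δ p hδ hp hor => ?_⟩
  have hFF : 0 ≤ FF g p := (mul_pos (hg.pos p.1) (hg.pos p.2)).le
  have hr : 0 < ‖p.1 - p.2‖ := norm_pos_iff.mpr (sub_ne_zero.mpr hp)
  have hΦ := hA.nonneg p.1
  have hx2 : 0 ≤ x2 g p.1 := Finset.sum_nonneg fun _ _ => sq_nonneg _
  have hkF : 0 ≤ kF ϱ p.1 p.2 := by
    unfold kF
    split_ifs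
    · positivity
    · exact le_refl _
  have hC : 0 ≤ 800 * C₂ ^ 2 + 2500 * C₁ := by positivity
  have hnn : 0 ≤ (800 * C₂ ^ 2 + 2500 * C₁) * (φ p.1 * FF g p * (x2 g p.1 *
      (kF ϱ p.1 p.2 / ϱ p.1 ^ 2) + kF ϱ p.1 p.2 / ϱ p.1 ^ 4)) := by
    have := hA.rnonneg p.1
    positivity
  rcases lt_or_ge (4 * ‖p.1 - p.2‖ ^ 2) (SS ϱ δ p) with hn | hn
  · -- the kernels vanish
    have hz : InF ϱ δ φ g p = 0 := by
      have a : ∀ i j k, kf ϱ δ i j p = 0 ∧ dv k (kf ϱ δ i j) p = 0 ∧ be ϱ δ i p = 0 ∧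
          dv k (be ϱ δ i) p = 0 ∧ dv k (dbe ϱ δ) p = 0 := fun i j k =>
        kf_near hA.rsmooth hδ p hn i j k
      have a1 : ∀ i j, kf ϱ δ i j p = 0 := fun i j => (a i j 0).1
      have a2 : ∀ i j k, dv k (kf ϱ δ i j) p = 0 := fun i j k => (a i j k).2.1
      have a3 : ∀ i, be ϱ δ i p = 0 := fun i => (a i 0 0).2.2.1
      have a4 : ∀ i k, dv k (be ϱ δ i) p = 0 := fun i k => (a i 0 k).2.2.2.1
      have a5 : ∀ k, dv k (dbe ϱ δ) p = 0 := fun k => (a 0 0 k).2.2.2.2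
      unfold InF
      simp only [a1, a2, a3, a4, a5, zero_mul, mul_zero, Finset.sum_const_zero, neg_zero, sub_zero,
        add_zero]
    rw [hz, eta_one hδ hn.le]
    simpa using hnn
  · by_cases h0 : φ p.1 = 0
    · -- the weight vanishes
      have hd := fp_der (by norm_num : (1 / 100 : ℝ) ≤ 1) hA p.1 h0
      have a1 : ∀ i, pd i φ p.1 = 0 := fun i => (hd i 0).1
      have a2 : ∀ i j, pd i (pd j φ) p.1 = 0 := fun i j => (hd i j).2
      have hz : InF ϱ δ φ g p = 0 := by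
        unfold InF
        simp only [a1, a2, h0, zero_mul, mul_zero, Finset.sum_const_zero, neg_zero, sub_zero,
          add_zero]
      rw [hz, h0]
      simp
    · have hρ := hA.rpos p.1 h0
      have hκρ := hA.krho p.1 h0
      have hκ := hA.knonneg p.1
      -- sizes
      have hSS : SS ϱ δ p = ϱ (mid p.1 p.2) ^ 2 + δ ^ 2 := rfl
      have hm : ϱ (mid p.1 p.2) ≤ 2 * ‖p.1 - p.2‖ := by
        rw [hSS] at hn
        have := hA.rnonneg (mid p.1 p.2)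
        nlinarith [sq_nonneg δ]
      have hmid : ‖p.1 - mid p.1 p.2‖ ≤ ‖p.1 - p.2‖ := by
        have e : p.1 - mid p.1 p.2 = (1 / 2 : ℝ) • (p.1 - p.2) := by
          unfold mid
          module
        rw [e, norm_smul, Real.norm_eq_abs, abs_of_pos (by norm_num : (0 : ℝ) < 1 / 2)]
        linarith
      have hρr : ϱ p.1 ≤ 4 * ‖p.1 - p.2‖ := by
        have h1 := hA.rlip p.1 (mid p.1 p.2)
        have h2 := le_abs_self (ϱ p.1 - ϱ (mid p.1 p.2))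
        have h3 := norm_nonneg (p.1 - mid p.1 p.2)
        linarith
      have hkF' : kF ϱ p.1 p.2 = 1 / ‖p.1 - p.2‖ := by
        unfold kF
        rw [if_pos hρr]
      obtain ⟨L, hL, hR, hsz⟩ := hk (1 / 100) φ ϱ κ (by norm_num) hA δ p hδ hp hor
      have hself : ‖p.1 - p.1‖ ≤ 4 * ϱ p.1 := by
        rw [sub_self, norm_zero]
        linarith
      have d1 : ∀ i, |pd i φ p.1| ≤ κ p.1 * φ p.1 := hA.d1 p.1 p.1 hself
      have d2 : ∀ i j, |pd i (pd j φ) p.1| ≤ κ p.1 * φ p.1 / ϱ p.1 := by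
        intro i j
        rw [le_div_iff₀ hρ]
        exact hA.d2 p.1 p.1 hself i j
      have hsymm : ∀ i j, (fun i j => hs g i j p.1) i j = (fun i j => hs g i j p.1) j i :=
        fun i j => hs_symm hg i j p.1
      have t1 := kf_quad ϱ δ p (fun i j => hs g i j p.1) hsymm
      have t2 := hst ϱ δ L p hL hR hp (fun i j => hs g i j p.1) (fun j => gam j g p.1) hsymm
      have hE : 0 ≤ 1 - eta ϱ δ p := by
        have := eta_le_one ϱ δ p
        linarith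
      have hHZ : 0 ≤ HZ g p.1 p.2 := Finset.sum_nonneg fun _ _ => Finset.sum_nonneg fun _ _ =>
        Finset.sum_nonneg fun _ _ => sq_nonneg _
      have kΦ : 0 ≤ κ p.1 * φ p.1 := mul_nonneg hκ hΦ
      have b3 : |∑ k : Fin 3, ∑ i : Fin 3, ∑ j : Fin 3,
          pd i φ p.1 * gam k g p.1 * gam j g p.1 * dv k (kf ϱ δ i j) p| ≤
          27 * (κ p.1 * φ p.1 * x2 g p.1 * (C₁ / ‖p.1 - p.2‖ ^ 2)) := by
        refine fp_s3 _ _ fun k i j => ?_
        rw [abs_mul, mul_assoc (pd i φ p.1), abs_mul]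
        exact mul_le_mul (mul_le_mul (d1 i) (fp_xx g p.1 k j) (abs_nonneg _) kΦ)
          (hsz i j k).2.1 (abs_nonneg _) (mul_nonneg kΦ hx2)
      have b4 : |∑ i : Fin 3, ∑ j : Fin 3, kf ϱ δ i j p * pd i (pd j φ) p.1| ≤
          9 * (C₁ / ‖p.1 - p.2‖ * (κ p.1 * φ p.1 / ϱ p.1)) := by
        refine fp_s2 _ _ fun i j => ?_
        rw [abs_mul]
        exact mul_le_mul (hsz i j 0).1 (d2 i j) (abs_nonneg _) (by positivity)
      have b5 : |∑ i : Fin 3, ∑ j : Fin 3, dv j (kf ϱ δ i j) p * pd i φ p.1| ≤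
          9 * (C₁ / ‖p.1 - p.2‖ ^ 2 * (κ p.1 * φ p.1)) := by
        refine fp_s2 _ _ fun i j => ?_
        rw [abs_mul]
        exact mul_le_mul (hsz i j j).2.1 (d1 i) (abs_nonneg _) (by positivity)
      have b6 : |∑ i : Fin 3, be ϱ δ i p * pd i φ p.1| ≤
          3 * (C₁ / ‖p.1 - p.2‖ ^ 2 * (κ p.1 * φ p.1)) := by
        refine fp_s1 _ _ fun i => ?_
        rw [abs_mul]
        exact mul_le_mul (hsz i 0 0).2.2.1 (d1 i) (abs_nonneg _) (by positivity)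
      have b7 : |∑ k : Fin 3, gam k g p.1 * dv k (dbe ϱ δ) p| ≤
          3 * (C₁ * (x2 g p.1 / ‖p.1 - p.2‖ ^ 3 + 1 / ‖p.1 - p.2‖ ^ 5)) := by
        refine fp_s1 _ _ fun k => ?_
        rw [abs_mul]
        have a1 : |gam k g p.1| ^ 2 ≤ x2 g p.1 := by
          have := fp_xx g p.1 k k
          rw [abs_mul] at this
          rw [sq]
          exact this
        have a2 : |gam k g p.1| * (C₁ / ‖p.1 - p.2‖ ^ 4) ≤
            C₁ * (x2 g p.1 / ‖p.1 - p.2‖ ^ 3 + 1 / ‖p.1 - p.2‖ ^ 5) := by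
          have e1 : |gam k g p.1| * (C₁ / ‖p.1 - p.2‖ ^ 4) =
              C₁ / ‖p.1 - p.2‖ ^ 5 * (|gam k g p.1| * ‖p.1 - p.2‖) := by
            field_simp
          have e2 : C₁ * (x2 g p.1 / ‖p.1 - p.2‖ ^ 3 + 1 / ‖p.1 - p.2‖ ^ 5) =
              C₁ / ‖p.1 - p.2‖ ^ 5 * (x2 g p.1 * ‖p.1 - p.2‖ ^ 2 + 1) := by
            field_simp
          rw [e1, e2]
          refine mul_le_mul_of_nonneg_left ?_ (by positivity)
          have a3 := mul_le_mul_of_nonneg_right a1 (sq_nonneg ‖p.1 - p.2‖)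
          nlinarith [sq_nonneg (|gam k g p.1| * ‖p.1 - p.2‖ - 1),
            sq_nonneg (|gam k g p.1| * ‖p.1 - p.2‖)]
        exact (mul_le_mul_of_nonneg_left (hsz 0 0 k).2.2.2.2 (abs_nonneg _)).trans a2
      have b8 : |∑ k : Fin 3, ∑ i : Fin 3, dv k (be ϱ δ i) p * gam i g p.1 * gam k g p.1| ≤
          9 * (C₁ / ‖p.1 - p.2‖ ^ 3 * x2 g p.1) := by
        refine fp_s2 _ _ fun k i => ?_
        rw [mul_assoc, abs_mul]
        exact mul_le_mul (hsz i 0 k).2.2.2.1 (fp_xx g p.1 i k) (abs_nonneg _) (by positivity)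
      have key := fp_alg (u := ‖p.1 - p.2‖⁻¹) (y := (ϱ p.1)⁻¹) hΦ hx2 hκ hρ hr hE hHZ hC₁ hρr
        (hκρ.trans (by norm_num)) rfl rfl t1 t2 b3 b4 b5 b6 b7 b8
      have key2 := mul_le_mul_of_nonneg_left key hFF
      rw [hkF']
      refine le_trans (le_of_eq ?_) (key2.trans (le_of_eq ?_))
      · unfold InF
        ring
      · ring

end Pool.Agent.LandauF
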